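import Pool.Agent.Lib.D2P.A2m

/-!
# TANK W: the base `T` and the tame descent (D2P, rows A2p, A2m), over an arbitrary subfield `L₀`
-/

set_option autoImplicit false

open Polynomial

namespace Pool.Agent.TW

open Pool.Agent.H15JM (RVal)
open Pool.Agent.LU1 (VPos adj)
open Pool.Agent.LUC (Cl clF)
open Pool.Agent.D2 (Ctx0)
open Pool.Agent.D2P

universe u

variable {k Ω : Type u} [Field k] [Field Ω] [Algebra k Ω] {v : RVal Ω}

/-! ## The base `T` -/

section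

variable [IsAlgClosed Ω] {r : ℕ} {x : Fin r → Ω} {L₀ M T : IntermediateField k Ω}

/-- the facts on `T` -/
structure TFacts (v : RVal Ω) (x : Fin r → Ω) (L₀ M T : IntermediateField k Ω) : Prop where
  hx : ∀ i, x i ∈ L₀
  hM : hen v M = M
  hR : hen v (M ⊔ T) = M ⊔ T
  eq : M ⊔ T = M ⊔ IntermediateField.adjoin k (Rts x)
  L₀M : L₀ ≤ M
  L₀T : L₀ ≤ T
  rts : ∀ b ∈ Rts x, b ∈ T
  alg : ∀ a ∈ T, IsAlgebraic (L₀) a
  mem : ∀ a ∈ M ⊔ T, IsAlgebraic (L₀) a → a ∈ T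

theorem tFacts (h : Ctx0 k v) (hM : hen v M = M) (hxL : ∀ i, x i ∈ L₀) (hLM : L₀ ≤ M)
    (hT : ∀ a : Ω, a ∈ T ↔ a ∈ hen v (M ⊔ IntermediateField.adjoin k
        {b : Ω | ∃ n : ℕ, 0 < n ∧ ∃ i, b ^ n = x i}) ∧
      IsAlgebraic (L₀) a) : TFacts v x L₀ M T := by
  have hxM : ∀ i, x i ∈ M := fun i => hLM (hxL i)
  have hR := hen_rts (x := x) h hM hxM
  have hT' : ∀ a : Ω, a ∈ T ↔ a ∈ M ⊔ IntermediateField.adjoin k (Rts x) ∧
      IsAlgebraic (L₀) a := by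
    intro a
    rw [hT]
    change a ∈ hen v (M ⊔ IntermediateField.adjoin k (Rts x)) ∧ _ ↔ _
    rw [hR]
  have hL₀M : L₀ ≤ M := hLM
  have hL₀T : L₀ ≤ T := fun a ha =>
    (hT' a).2 ⟨(le_sup_left : M ≤ _) (hL₀M ha), isAlgebraic_of_mem ha⟩
  have hrts : ∀ b ∈ Rts x, b ∈ T := by
    intro b hb
    refine (hT' b).2 ⟨(le_sup_right : IntermediateField.adjoin k (Rts x) ≤ _)
      (IntermediateField.subset_adjoin _ _ hb), ?_⟩
    exact rts_alg (M := L₀) hxL hb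
  have heq : M ⊔ T = M ⊔ IntermediateField.adjoin k (Rts x) := by
    apply le_antisymm
    · exact sup_le le_sup_left fun a ha => ((hT' a).1 ha).1
    · exact sup_le_sup_left (IntermediateField.adjoin_le_iff.2 hrts) _
  exact ⟨hxL, hM, by rw [heq, hR], heq, hL₀M, hL₀T, hrts, fun a ha => ((hT' a).1 ha).2,
    fun a ha h1 => (hT' a).2 ⟨heq ▸ ha, h1⟩⟩

theorem TFacts.perf (F : TFacts v x L₀ M T) (p : ℕ) [Fact p.Prime] [CharP k p]
    (hrt : ∀ (a b : Ω) (e : ℕ), a ∈ L₀ →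
      b ^ p ^ e = a → b ∈ M) : ∀ a ∈ T, ∃ b ∈ T, b ^ p = a := by
  have _ : CharP Ω p := charP_big (k := k) p
  intro a ha
  have hp : p.Prime := Fact.out
  obtain ⟨b, hb⟩ := IsAlgClosed.exists_pow_nat_eq a hp.pos
  refine ⟨b, ?_, hb⟩
  have h1 : IsAlgebraic (L₀) b :=
    isAlgebraic_of_pow hp.pos (by rw [hb]; exact F.alg a ha)
  refine F.mem b (mem_of_pow p hrt le_sup_left h1 ?_) h1
  rw [hb]
  exact (le_sup_right : T ≤ _) ha

theorem TFacts.pb (F : TFacts v x L₀ M T) (p : ℕ) [Fact p.Prime] [CharP k p] (hx : ∀ i, x i ≠ 0)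
    (hxv : ∀ g : Ω, g ≠ 0 → v g ∈ Submodule.span ℚ (Set.range fun i => v (x i)))
    (hrt : ∀ (a b : Ω) (e : ℕ), a ∈ L₀ →
      b ^ p ^ e = a → b ∈ M) : PB p v T := by
  refine ⟨F.perf p hrt, ?_, ?_⟩
  · refine le_antisymm (fun a ha => ?_) (le_hen _)
    refine F.mem a ?_ (isAlgebraic_trans_le F.L₀T F.alg (isAlgebraic_of_hen ha))
    have h1 := hen_mono (v := v) (le_sup_right : T ≤ M ⊔ T) ha
    rwa [F.hR] at h1
  · intro g hg
    obtain ⟨q, hq⟩ := (Submodule.mem_span_range_iff_exists_fun ℚ).1 (hxv g hg)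
    have h1 : ∀ i, ∃ c ∈ T, c ≠ 0 ∧ v c = q i • v (x i) := by
      intro i
      obtain ⟨b, hb⟩ := IsAlgClosed.exists_pow_nat_eq (x i) (q i).den_pos
      have hb0 : b ≠ 0 := by
        rintro rfl
        rw [zero_pow (q i).den_nz] at hb
        exact hx i hb.symm
      refine ⟨b ^ (q i).num, zpow_mem (F.rts b ⟨_, (q i).den_pos, i, hb⟩) _,
        zpow_ne_zero _ hb0, ?_⟩
      have h2 : v (b ^ (q i).den) = v (x i) := by rw [hb]
      rw [v.map_pow hb0] at h2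
      rw [v.map_zpow hb0, ← h2, Rat.smul_def]
      have h3 : ((q i : ℚ) : ℝ) * ((q i).den : ℝ) = ((q i).num : ℝ) := by
        exact_mod_cast Rat.mul_den_eq_num (q i)
      rw [← mul_assoc, h3]
    choose c hcT hc0 hcv using h1
    refine ⟨∏ i, c i, prod_mem fun i _ => hcT i, Finset.prod_ne_zero_iff.2 fun i _ => hc0 i, ?_⟩
    rw [v.map_prod _ _ fun i _ => hc0 i, ← hq]
    exact Finset.sum_congr rfl fun i _ => hcv i

omit [IsAlgClosed Ω] in
theorem TFacts.stab (F : TFacts v x L₀ M T) (σ : Ω ≃ₐ[M] Ω) : ∀ a ∈ T, σ a ∈ T := by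
  intro a ha
  refine F.mem _ ?_ (isAlgebraic_aut F.L₀M σ (F.alg a ha))
  have h1 := rts_stable (x := x) (M := M) (fun i => F.L₀M (F.hx i)) σ
  rw [← F.eq] at h1
  exact h1 a ((le_sup_right : T ≤ _) ha)

omit [IsAlgClosed Ω] in
theorem TFacts.stab' (F : TFacts v x L₀ M T) {M' : IntermediateField k Ω} (hMM' : M ≤ M')
    (σ : Ω ≃ₐ[M'] Ω) : ∀ a ∈ T, σ a ∈ T :=
  F.stab (AlgEquiv.ofRingEquiv (f := σ.toRingEquiv) fun m => σ.commutes ⟨m, hMM' m.2⟩)

/-- the conjugates over `M ⊓ T` of the elements of `T` are in `T` -/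
theorem TFacts.norm (F : TFacts v x L₀ M T) (p : ℕ) [Fact p.Prime] [CharP k p]
    (hΩ : ∀ g : Ω, IsAlgebraic M g)
    (hrt : ∀ (a b : Ω) (e : ℕ), a ∈ L₀ →
      b ^ p ^ e = a → b ∈ M) :
    ∀ a ∈ T, ∀ a' : Ω, aeval a' (minpoly (M ⊓ T : IntermediateField k Ω) a) = 0 → a' ∈ T := by
  intro a ha a' ha'
  have : Algebra.IsAlgebraic M Ω := ⟨hΩ⟩
  have : IsAlgClosure M Ω := ⟨inferInstance, inferInstance⟩
  have : Normal M Ω := IsAlgClosure.normal M Ω
  have hroots : ∀ b : Ω, aeval b (minpoly M a) = 0 → b ∈ T := by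
    intro b hb
    obtain ⟨σ, hσ⟩ := minpoly.exists_algEquiv_of_root' (hΩ a) hb
    rw [← hσ]
    exact F.stab σ a ha
  have hint := (hΩ a).isIntegral
  have hmon := minpoly.monic hint
  -- the minimal polynomial has coefficients in `T`
  have h1 : (minpoly M a).map (algebraMap M Ω) ∈ lifts (algebraMap T Ω) := by
    have h2 := (IsAlgClosed.splits ((minpoly M a).map (algebraMap M Ω))).eq_prod_roots_of_monic
      (hmon.map _)
    rw [h2]
    refine multiset_prod_mem _ fun f hf => ?_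
    obtain ⟨b, hb, rfl⟩ := Multiset.mem_map.1 hf
    have hb' : b ∈ T := by
      apply hroots
      have := isRoot_of_mem_roots hb
      rwa [IsRoot.def, eval_map, ← aeval_def] at this
    rw [sub_eq_add_neg, ← map_neg]
    exact add_mem (X_mem_lifts _) (C'_mem_lifts ⟨⟨-b, T.neg_mem hb'⟩, rfl⟩)
  rw [lifts_iff_coeff_lifts] at h1
  have h2 : (minpoly M a).map (algebraMap M Ω) ∈
      lifts (algebraMap (M ⊓ T : IntermediateField k Ω) Ω) := by
    rw [lifts_iff_coeff_lifts]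
    intro n
    obtain ⟨t, ht⟩ := h1 n
    refine ⟨⟨((minpoly M a).map (algebraMap M Ω)).coeff n, ?_⟩, rfl⟩
    refine ⟨?_, ?_⟩
    · rw [coeff_map]
      exact Subtype.prop _
    · rw [← ht]
      exact t.2
  obtain ⟨G, hG⟩ := h2
  have hG' : G.map (algebraMap (M ⊓ T : IntermediateField k Ω) Ω) =
    (minpoly M a).map (algebraMap M Ω) := hG
  have h3 : ∀ b : Ω, aeval b G = aeval b (minpoly M a) := by
    intro b
    rw [aeval_def, aeval_def, eval₂_eq_eval_map, eval₂_eq_eval_map, hG']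
  apply hroots
  rw [← h3]
  obtain ⟨Q, hQ⟩ := minpoly.dvd (M ⊓ T : IntermediateField k Ω) a
    (by rw [h3, minpoly.aeval] : aeval a G = 0)
  rw [hQ, map_mul, ha', zero_mul]

end

/-- A2p: the field `T` of A2m is `PB`, and `hen v (M ⊔ T)` is the other field. -/
theorem pb_T [IsAlgClosed Ω] [IsAlgClosed k] (p : ℕ) (hp : p.Prime) [CharP k p]
    (h : Ctx0 k v) {r : ℕ} (x : Fin r → Ω) (L₀ : IntermediateField k Ω) (hxL : ∀ i, x i ∈ L₀) (hx : ∀ i, x i ≠ 0)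
    (hxv : ∀ g : Ω, g ≠ 0 → v g ∈ Submodule.span ℚ (Set.range fun i => v (x i)))
    (M : IntermediateField k Ω) (hM : hen v M = M)
    (hLM : L₀ ≤ M)
    (hrt : ∀ (a b : Ω) (e : ℕ), a ∈ L₀ →
      b ^ p ^ e = a → b ∈ M)
    (T : IntermediateField k Ω)
    (hT : ∀ a : Ω, a ∈ T ↔ a ∈ hen v (M ⊔ IntermediateField.adjoin k
        {b : Ω | ∃ n : ℕ, 0 < n ∧ ∃ i, b ^ n = x i}) ∧
      IsAlgebraic (L₀) a) :
    PB p v T ∧ hen v (M ⊔ T) = hen v (M ⊔ IntermediateField.adjoin k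
        {b : Ω | ∃ n : ℕ, 0 < n ∧ ∃ i, b ^ n = x i}) := by
  have _ : Fact p.Prime := ⟨hp⟩
  have F := tFacts h hM hxL hLM hT
  exact ⟨F.pb p hx hxv hrt, by rw [F.eq]; rfl⟩

/-! ## The tower -/

/-- down along a radical extension of exponent prime to `p` -/
theorem tower_down {T N M : IntermediateField k Ω} {p : ℕ} (Q : IntermediateField k Ω → Prop)
    (hstep : ∀ (M' : IntermediateField k Ω) (η : Ω) (ℓ : ℕ), M ≤ M' → M' ≤ N → ℓ.Prime → ℓ ≠ p →
      η ∈ T → η ∈ N → η ^ ℓ ∈ M' → η ∉ M' → Q (adj M' η) → Q M') (n : ℕ) :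
    ∀ (M' : IntermediateField k Ω) (b : Ω), M ≤ M' → M' ≤ N → 0 < n → ¬ p ∣ n → b ∈ T → b ∈ N →
      b ^ n ∈ M' → Q (adj M' b) → Q M' := by
  induction n using Nat.strong_induction_on with
  | _ n ih =>
    intro M' b hM hN hn hpn hbT hbN hb hQ
    by_cases h1 : n = 1
    · rw [h1, pow_one] at hb
      have h2 : adj M' b = M' := le_antisymm (adj_le le_rfl hb) (mem_adj_self M' b).2
      rwa [h2] at hQ
    obtain ⟨ℓ, hℓ, m, rfl⟩ : ∃ ℓ : ℕ, ℓ.Prime ∧ ∃ m, n = ℓ * m := by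
      obtain ⟨ℓ, hℓ, h2⟩ := Nat.exists_prime_and_dvd h1
      exact ⟨ℓ, hℓ, h2⟩
    have hm : 0 < m := Nat.pos_of_ne_zero (by rintro rfl; simp at hn)
    have hℓp : ℓ ≠ p := by
      rintro rfl
      exact hpn (Dvd.intro _ rfl)
    have hpm : ¬ p ∣ m := fun h2 => hpn (h2.mul_left ℓ)
    have hlt : m < ℓ * m := by nlinarith [hℓ.two_le]
    refine ih m hlt M' (b ^ ℓ) hM hN hm hpm (pow_mem hbT ℓ) (pow_mem hbN ℓ)
      (by rwa [← pow_mul]) ?_
    have hle : M' ≤ adj M' (b ^ ℓ) := (mem_adj_self M' _).2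
    have hN' : adj M' (b ^ ℓ) ≤ N := adj_le hN (pow_mem hbN ℓ)
    have heq : adj (adj M' (b ^ ℓ)) b = adj M' b := by
      apply le_antisymm
      · exact adj_le (adj_le (mem_adj_self M' b).2 (pow_mem (mem_adj_self M' b).1 ℓ))
          (mem_adj_self M' b).1
      · exact adj_mono hle b
    by_cases hb' : b ∈ adj M' (b ^ ℓ)
    · have h2 : adj (adj M' (b ^ ℓ)) b = adj M' (b ^ ℓ) :=
        le_antisymm (adj_le le_rfl hb') (mem_adj_self _ b).2
      rw [← h2, heq]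
      exact hQ
    · refine hstep _ b ℓ (hM.trans hle) hN' hℓ hℓp hbT hbN (mem_adj_self M' (b ^ ℓ)).1 hb' ?_
      rwa [heq]

theorem tower_down_fin {T N M : IntermediateField k Ω} {p : ℕ} (hMN : M ≤ N)
    (Q : IntermediateField k Ω → Prop)
    (hstep : ∀ (M' : IntermediateField k Ω) (η : Ω) (ℓ : ℕ), M ≤ M' → M' ≤ N → ℓ.Prime → ℓ ≠ p →
      η ∈ T → η ∈ N → η ^ ℓ ∈ M' → η ∉ M' → Q (adj M' η) → Q M') (S : Finset Ω)
    (hS : ∀ b ∈ S, b ∈ T ∧ b ∈ N ∧ ∃ n : ℕ, 0 < n ∧ ¬ p ∣ n ∧ b ^ n ∈ M)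
    (hQ : Q (M ⊔ IntermediateField.adjoin k (S : Set Ω))) : Q M := by
  classical
  induction S using Finset.induction_on with
  | empty =>
    rwa [Finset.coe_empty, IntermediateField.adjoin_empty, sup_bot_eq] at hQ
  | insert b S hbS ih =>
    refine ih (fun c hc => hS c (Finset.mem_insert_of_mem hc)) ?_
    obtain ⟨hbT, hbN, n, hn, hpn, hbM⟩ := hS b (Finset.mem_insert_self b S)
    refine tower_down Q hstep n _ b le_sup_left ?_ hn hpn hbT hbN
      ((le_sup_left : M ≤ _) hbM) ?_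
    · exact sup_le hMN (IntermediateField.adjoin_le_iff.2 fun c hc =>
        (hS c (Finset.mem_insert_of_mem hc)).2.1)
    · have heq : adj (M ⊔ IntermediateField.adjoin k (S : Set Ω)) b =
          M ⊔ IntermediateField.adjoin k ((insert b S : Finset Ω) : Set Ω) := by
        rw [adj, Finset.coe_insert, Set.insert_eq, Set.union_comm, IntermediateField.adjoin_union,
          sup_assoc]
      rwa [heq]

/-- A2m: the tame step iterated, then `base_descend`: from `T` (with all roots of the `x i`) down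
to `M`. -/
theorem tame_descend [IsAlgClosed Ω] [IsAlgClosed k] (p : ℕ) (hp : p.Prime) [CharP k p]
    (h : Ctx0 k v) {r : ℕ} (x : Fin r → Ω) (L₀ : IntermediateField k Ω) (hxL : ∀ i, x i ∈ L₀) (hx : ∀ i, x i ≠ 0)
    (hxv : ∀ g : Ω, g ≠ 0 → v g ∈ Submodule.span ℚ (Set.range fun i => v (x i)))
    (M : IntermediateField k Ω) (hM : hen v M = M) (hΩ : ∀ g : Ω, IsAlgebraic M g)
    (hLM : L₀ ≤ M)
    (hrt : ∀ (a b : Ω) (e : ℕ), a ∈ L₀ →
      b ^ p ^ e = a → b ∈ M)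
    (T : IntermediateField k Ω)
    (hT : ∀ a : Ω, a ∈ T ↔ a ∈ hen v (M ⊔ IntermediateField.adjoin k
        {b : Ω | ∃ n : ℕ, 0 < n ∧ ∃ i, b ^ n = x i}) ∧
      IsAlgebraic (L₀) a)
    (hHR : HR1 v T (hen v (M ⊔ T))) :
    ∃ z ∈ M, Transcendental T z ∧ M = hen v (adj (M ⊓ T) z) := by
  have _ : Fact p.Prime := ⟨hp⟩
  have _ : CharP Ω p := charP_big (k := k) p
  have hxM : ∀ i, x i ∈ M := fun i => hLM (hxL i)
  have F := tFacts h hM hxL hLM hT
  have hPB := F.pb p hx hxv hrt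
  -- the start of the tower
  obtain ⟨z₀, hz₀T, hz₀⟩ := hHR
  have hz₀R : z₀ ∈ M ⊔ IntermediateField.adjoin k (Rts x) := by
    rw [← F.eq, ← F.hR, hz₀]
    exact le_hen _ (mem_adj_self T z₀).1
  obtain ⟨S, hS, hzS⟩ : ∃ S : Finset Ω, (∀ b ∈ S, b ∈ Rts x) ∧
      z₀ ∈ M ⊔ IntermediateField.adjoin k (S : Set Ω) := by
    classical
    have h1 : z₀ ∈ IntermediateField.adjoin k ((M : Set Ω) ∪ Rts x) := by
      rw [IntermediateField.adjoin_union, IntermediateField.adjoin_self]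
      exact hz₀R
    obtain ⟨U, hU, hzU⟩ := IntermediateField.exists_finset_of_mem_adjoin h1
    refine ⟨U.filter (· ∈ Rts x), fun s hs => (Finset.mem_filter.1 hs).2, ?_⟩
    refine (IntermediateField.adjoin_le_iff.2 fun u hu => ?_ :
      IntermediateField.adjoin k (U : Set Ω) ≤ _) hzU
    rcases hU hu with h2 | h2
    · exact (le_sup_left : M ≤ _) h2
    · exact (le_sup_right : IntermediateField.adjoin k _ ≤ _)
        (IntermediateField.subset_adjoin _ _ (Finset.mem_coe.2 (Finset.mem_filter.2 ⟨hu, h2⟩)))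
  -- the tower
  obtain ⟨z, hzM, hzT, hz⟩ : ∃ z ∈ M, Transcendental T z ∧ hen v (M ⊔ T) = hen v (adj T z) := by
    refine tower_down_fin (T := T) (N := M ⊔ T) (p := p) le_sup_left
      (fun M' => ∃ z ∈ M', Transcendental T z ∧ hen v (M ⊔ T) = hen v (adj T z)) ?_ S ?_ ?_
    · intro M' η ℓ hMM' hM'N hℓ hℓp hηT _ hηℓ hη0 ⟨z, hz, hzT, hgen⟩
      have hsup : M' ⊔ T = M ⊔ T := by
        apply le_antisymm
        · exact sup_le hM'N le_sup_right
        · exact sup_le_sup_right hMM' _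
      have hN : ∀ a ∈ M ⊔ T, IsAlgebraic M a := by
        rw [F.eq]
        exact isAlgebraic_sup _ fun _ hb => rts_alg hxM hb
      have hM'h : hen v M' = M' := hen_alg h hM hMM' fun e he => hN e (hM'N he)
      obtain ⟨z', h1, h2, h3⟩ := tame_step p hp h T M' hPB hM'h
        (fun g => isAlgebraic_mono hMM' (hΩ g)) (F.stab' hMM') (by
          intro a ha h4
          rw [hsup, F.hR] at ha
          exact F.mem a ha (isAlgebraic_trans_le F.L₀T F.alg h4)) ℓ hℓ hℓp hηT hηℓ hη0 hz hzT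
        (by rw [hsup]; exact hgen)
      exact ⟨z', h1, h2, by rw [← hsup]; exact h3⟩
    · intro b hb
      have hbT : b ∈ T := F.rts b (hS b hb)
      refine ⟨hbT, (le_sup_right : T ≤ _) hbT, ?_⟩
      obtain ⟨n, hn, i, h1⟩ := hS b hb
      obtain ⟨e, m, hm, rfl⟩ := Nat.exists_eq_pow_mul_and_not_dvd hn.ne' p hp.ne_one
      refine ⟨m, Nat.pos_of_ne_zero ?_, hm, ?_⟩
      · rintro rfl
        exact hm (dvd_zero p)
      · refine hrt (x i) (b ^ m) e (hxL i) ?_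
        rw [← pow_mul, mul_comm, h1]
    · exact ⟨z₀, hzS, hz₀T, hz₀⟩
  refine ⟨z, hzM, hzT, ?_⟩
  have hP'T : M ⊓ T ≤ T := inf_le_right
  have hL₀P : L₀ ≤ M ⊓ T := le_inf F.L₀M F.L₀T
  have hmem : ∀ m ∈ M, m ∈ hen v (adj T z) := by
    intro m hm
    rw [← hz]
    exact le_hen _ ((le_sup_left : M ≤ _) hm)
  have halgT : ∀ a ∈ T, IsAlgebraic (M ⊓ T : IntermediateField k Ω) a := fun a ha =>
    isAlgebraic_mono hL₀P (F.alg a ha)
  refine base_descend p hp h T (M ⊓ T) M hM hΩ rfl ?_ halgT ?_ hzM hzT hmem ?_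
  · intro a ha
    obtain ⟨b, hb, hba⟩ := F.perf p hrt a (hP'T ha)
    refine ⟨b, ⟨?_, hb⟩, hba⟩
    refine mem_of_pow p hrt le_rfl (F.alg b hb) ?_
    rw [hba]
    exact ha.1
  · exact F.norm p hΩ hrt
  · intro g
    have h1 : ∀ a ∈ adj T z, IsAlgebraic (adj (M ⊓ T) z) a := by
      have h2 := isAlgebraic_sup (M := adj (M ⊓ T) z) (T : Set Ω) fun t ht =>
        isAlgebraic_mono (mem_adj_self _ z).2 (halgT t ht)
      intro a ha
      refine h2 a (adj_le ?_ ?_ ha)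
      · exact (IntermediateField.adjoin_self k T).ge.trans le_sup_right
      · exact (le_sup_left : adj (M ⊓ T) z ≤ _) (mem_adj_self _ z).1
    have h3 : ∀ m ∈ M, IsAlgebraic (adj (M ⊓ T) z) m := fun m hm =>
      isAlgebraic_trans h1 (isAlgebraic_of_hen (hmem m hm))
    exact isAlgebraic_trans h3 (hΩ g)

end Pool.Agent.TW
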