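import Pool.Agent.Lib.D2P.A1
import Pool.Agent.Lib.D2P.A2
import Pool.Agent.Lib.TW.A2m

/-!
# TANK W: henselian rationality over a field with `p ^ e`-th roots (row A), any number of variables
-/

set_option autoImplicit false

open Polynomial

namespace Pool.Agent.TW

open Pool.Agent.H15JM (RVal)
open Pool.Agent.LU1 (VPos adj)
open Pool.Agent.LUC (Cl clF)
open Pool.Agent.D2 (Ctx0)
open Pool.Agent.D2P

universe u

variable {k Ω : Type u} [Field k] [Field Ω] [Algebra k Ω] {v : RVal Ω}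

/-- the transcendence degree of a field algebraic over `L₀` -/
theorem trdeg_eq_of_alg {L₀ T : IntermediateField k Ω} (h : L₀ ≤ T)
    (halg : ∀ a ∈ T, IsAlgebraic L₀ a) : Algebra.trdeg k T = Algebra.trdeg k L₀ := by
  let _ : Algebra L₀ T := (IntermediateField.inclusion h).toRingHom.toAlgebra
  have _ : IsScalarTower k L₀ T := IsScalarTower.of_algebraMap_eq fun _ => rfl
  have _ : IsScalarTower L₀ T Ω := IsScalarTower.of_algebraMap_eq fun _ => rfl
  have : Algebra.IsAlgebraic L₀ T := ⟨fun e =>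
    (isAlgebraic_algebraMap_iff (R := L₀) (A := Ω) (algebraMap T Ω).injective).1 (halg e e.2)⟩
  have _ : FaithfulSMul L₀ T :=
    (faithfulSMul_iff_algebraMap_injective L₀ T).2 (algebraMap L₀ T).injective
  have h1 := trdeg_add_eq k L₀ (A := T)
  have h2 : Algebra.trdeg L₀ T = 0 := trdeg_eq_zero (R := L₀) (A := T)
  rw [← h1, h2, add_zero]

/-- a function field of one variable over the perfect field `T` is separably generated -/
theorem exists_sep_gen' [IsAlgClosed k] (p : ℕ) [Fact p.Prime] [CharP k p]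
    {T : IntermediateField k Ω} (hT : PB p v T) {n : ℕ}
    (htr : Algebra.trdeg k T = n) (hΩn : Algebra.trdeg k Ω = ((n + 1 : ℕ) : Cardinal))
    (S : Finset Ω)
    (hΩ : ∀ g : Ω, IsAlgebraic (IntermediateField.adjoin k (S : Set Ω)) g) :
    ∃ z : Ω, Transcendental T z ∧ z ∈ T ⊔ IntermediateField.adjoin k (S : Set Ω) ∧
      ∀ s ∈ S, IsSeparable (adj T z) s := by
  classical
  have hp : p.Prime := Fact.out
  have _ : CharP T p := charP_field p T
  have _ : ExpChar T p := ExpChar.prime hp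
  have _ : PerfectRing T p := hT.perfectRing
  have _ : PerfectField T := PerfectRing.toPerfectField T p
  set L : IntermediateField T Ω := IntermediateField.adjoin T (S : Set Ω) with hL
  have hLr : L.restrictScalars k = T ⊔ IntermediateField.adjoin k (S : Set Ω) :=
    IntermediateField.restrictScalars_adjoin_eq_sup k T S
  have hess : Algebra.EssFiniteType T L := by
    rw [IntermediateField.essFiniteType_iff]
    exact ⟨S, rfl⟩
  obtain ⟨s, hs, hsep⟩ := exists_isTranscendenceBasis_and_isSeparable_of_perfectField T L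
  have hΩL : Algebra.IsAlgebraic L Ω := by
    constructor
    intro g
    have h3 : IsAlgebraic (L.restrictScalars k) g := by
      rw [hLr]
      exact isAlgebraic_mono le_sup_right (hΩ g)
    exact h3
  have htrL : Algebra.trdeg T L = 1 := by
    have h3 := trdeg_add_eq k T (A := Ω)
    have _ : FaithfulSMul T L :=
      (faithfulSMul_iff_algebraMap_injective T L).2 (algebraMap T L).injective
    have _ : FaithfulSMul L Ω :=
      (faithfulSMul_iff_algebraMap_injective L Ω).2 (algebraMap L Ω).injective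
    have h4 := trdeg_add_eq T L (A := Ω)
    have h5 : Algebra.trdeg L Ω = 0 := trdeg_eq_zero (R := L) (A := Ω)
    rw [h5, add_zero] at h4
    rw [htr, hΩn, ← h4] at h3
    have h6 : ((n : ℕ) : Cardinal) + Algebra.trdeg T L = ((n : ℕ) : Cardinal) + 1 := by
      rw [h3]
      push_cast
      rfl
    exact Cardinal.eq_of_add_eq_add_left h6 (Cardinal.natCast_lt_aleph0)
  have hcard : s.card = 1 := by
    have h3 := hs.cardinalMk_eq_trdeg
    rw [htrL] at h3
    simpa using h3
  obtain ⟨z, hz⟩ := Finset.card_eq_one.1 hcard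
  have hztr : Transcendental T z :=
    hs.1.transcendental ⟨z, by rw [hz]; exact Finset.mem_singleton_self z⟩
  refine ⟨(z : Ω), ?_, ?_, ?_⟩
  · exact fun h3 => hztr ((isAlgebraic_algHom_iff L.val L.val.injective).1 h3)
  · rw [← hLr]
    exact z.2
  · intro a ha
    have haL : a ∈ L := IntermediateField.subset_adjoin _ _ ha
    have h3 : IsSeparable (IntermediateField.adjoin T ((s : Finset L) : Set L)) (⟨a, haL⟩ : L) :=
      Algebra.IsSeparable.isSeparable _ _
    have h4 := sep_transfer_elt (k := T) (Ω := Ω) L _ _ h3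
    have h5 : (fun z : L => (z : Ω)) '' ((s : Finset L) : Set L) = {(z : Ω)} := by
      rw [hz, Finset.coe_singleton, Set.image_singleton]
    rw [h5] at h4
    rw [← adj_eq]
    exact h4

/-- ROW A: let `L₀ ≤ E` be a subfield of transcendence degree one less, containing elements with
`ℚ`-spanning values. For large `e` the henselization of `E ⊔ L₀ ^ (1 / p ^ e)` is the one of
`N'(z)`, `N'` a finite extension of `L₀ ^ (1 / p ^ e)`. -/
theorem row_a [IsAlgClosed Ω] [IsAlgClosed k] (p : ℕ) [Fact p.Prime] [CharP k p] [CharP Ω p]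
    (h : Ctx0 k v) {r n : ℕ} (hΩn : Algebra.trdeg k Ω = ((n + 1 : ℕ) : Cardinal))
    (E : IntermediateField k Ω) (hE : E.FG)
    (hΩ : ∀ g : Ω, IsAlgebraic E g) (L₀ : IntermediateField k Ω) (hL₀E : L₀ ≤ E) (hL₀fg : L₀.FG)
    (htr : Algebra.trdeg k L₀ = n)
    (x : Fin r → Ω) (hx : ∀ i, x i ∈ L₀ ∧ x i ≠ 0)
    (hxv : ∀ g : Ω, g ≠ 0 → v g ∈ Submodule.span ℚ (Set.range fun i => v (x i))) :
    ∃ (e : ℕ) (N' : IntermediateField k Ω), N'.FG ∧ rootF p e L₀ ≤ N' ∧
      (∀ a ∈ N', IsAlgebraic L₀ a) ∧ ∃ z : Ω, Transcendental N' z ∧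
      hen v (E ⊔ rootF p e L₀) = hen v (adj N' z) := by
  classical
  have hp : p.Prime := Fact.out
  have hE' := hE
  obtain ⟨SE, hSE⟩ := hE'
  have hxne : ∀ i, x i ≠ 0 := fun i => (hx i).2
  have hxL : ∀ i, x i ∈ L₀ := fun i => (hx i).1
  obtain ⟨M, hMdef⟩ : ∃ M, M = hen v (E ⊔ ⨆ e : ℕ, rootF p e L₀) := ⟨_, rfl⟩
  have hM : hen v M = M := by rw [hMdef]; exact hen_hen _
  have hEM : E ≤ M := by rw [hMdef]; exact le_sup_left.trans (le_hen _)
  have hUM : ∀ e : ℕ, rootF p e L₀ ≤ M := by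
    intro e
    rw [hMdef]
    exact (le_iSup (fun e : ℕ => rootF p e L₀) e).trans (le_sup_right.trans (le_hen _))
  have hΩM : ∀ g : Ω, IsAlgebraic M g := fun g => isAlgebraic_mono hEM (hΩ g)
  have hLM : L₀ ≤ M := hL₀E.trans hEM
  have hrt : ∀ (a b : Ω) (e : ℕ), a ∈ L₀ → b ^ p ^ e = a → b ∈ M := by
    intro a b e ha hb
    refine hUM e (mem_rootF.2 ?_)
    rw [hb]
    exact ha
  obtain ⟨T, hT⟩ : ∃ T : IntermediateField k Ω, ∀ a : Ω, a ∈ T ↔
      a ∈ hen v (M ⊔ IntermediateField.adjoin k {b : Ω | ∃ n : ℕ, 0 < n ∧ ∃ i, b ^ n = x i}) ∧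
      IsAlgebraic L₀ a := by
    refine ⟨hen v (M ⊔ IntermediateField.adjoin k {b : Ω | ∃ n : ℕ, 0 < n ∧ ∃ i, b ^ n = x i}) ⊓
      (algebraicClosure L₀ Ω).restrictScalars k, fun a => ?_⟩
    rw [IntermediateField.mem_inf, IntermediateField.mem_restrictScalars, mem_algebraicClosure_iff]
  obtain ⟨hPB, -⟩ := pb_T p hp h x L₀ hxL hxne hxv M hM hLM hrt T hT
  have F := tFacts h hM hxL hLM hT
  have htrT : Algebra.trdeg k T = n := by rw [trdeg_eq_of_alg F.L₀T F.alg, htr]
  obtain ⟨z₀, hz₀t, hz₀mem, hsep⟩ := exists_sep_gen' p hPB htrT hΩn SE (by rw [hSE]; exact hΩ)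
  have hHR : HR1 v T (hen v (M ⊔ T)) := by
    have h1 := a1 p hp h T hPB hz₀t SE hsep
    have h3 : hen v (adj T z₀ ⊔ IntermediateField.adjoin k (SE : Set Ω)) = hen v (M ⊔ T) := by
      rw [hSE] at hz₀mem ⊢
      apply le_antisymm
      · refine hen_mono (sup_le (adj_le le_sup_right ?_) (hEM.trans le_sup_left))
        exact (sup_le le_sup_right (hEM.trans le_sup_left) : T ⊔ E ≤ M ⊔ T) hz₀mem
      · refine hen_le (hen_hen _) (sup_le ?_ ?_)
        · rw [hMdef]
          refine hen_mono (sup_le le_sup_right ?_)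
          refine iSup_le fun e b hb => ?_
          refine (le_sup_left : adj T z₀ ≤ _) ((mem_adj_self T z₀).2 ?_)
          refine F.mem b ((le_sup_left : M ≤ _) (hUM e hb)) ?_
          rw [mem_rootF] at hb
          exact isAlgebraic_of_pow (pow_pos hp.pos e) (isAlgebraic_of_mem hb)
        · exact (mem_adj_self T z₀).2.trans (le_sup_left.trans (le_hen _))
    rw [← h3]
    exact h1
  obtain ⟨z, hzM, hzT, hMz⟩ := tame_descend p hp h x L₀ hxL hxne hxv M hM hΩM hLM hrt T hT hHR
  obtain ⟨e, N', hN'fg, hrN', hN'alg, hlev⟩ := root_level p h E L₀ hE hL₀E hL₀fg (z := z) (M ⊓ T)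
    (fun a ha => F.alg a ha.2) (by rw [← hMdef]; exact hMz)
  refine ⟨e, N', hN'fg, hrN', hN'alg, z, ?_, hlev⟩
  intro hzalg
  apply hzT
  exact isAlgebraic_mono F.L₀T (isAlgebraic_trans hN'alg hzalg)

end Pool.Agent.TW
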