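import Pool.Agent.Lib.TW.Vol

/-!
# TANK W: bounded distortion of a field over a subfield

`Orthq v Q b C`: the family `b` has distortion at most `C` over `Q`; `BDq v Q E`: the field `E` has
a finite basis of bounded distortion over its subfield `Q`.
-/

set_option autoImplicit false

namespace Pool.Agent.TW

open Pool.Agent.H15JM (RVal)

universe u

section Gen

variable {Ω : Type u} [Field Ω] {ι κ : Type} [Fintype ι] [Fintype κ]

/-- The family `b` has distortion at most `C` over `Q`. -/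
def Orthq (v : RVal Ω) (Q : Subfield Ω) (b : ι → Ω) (C : ℝ) : Prop :=
  ∀ c : ι → Ω, (∀ j, c j ∈ Q) → ∑ j, c j * b j ≠ 0 →
    ∀ j, v.Ge (v (∑ j, c j * b j) - C) (c j * b j)

/-- `u` is a combination of the family `b` over `Q`. -/
def Spn (Q : Subfield Ω) (b : ι → Ω) (u : Ω) : Prop :=
  ∃ c : ι → Ω, (∀ j, c j ∈ Q) ∧ u = ∑ j, c j * b j

theorem Ind.ne_zero {Q : Subfield Ω} {b : ι → Ω} (hb : Ind Q b) (i : ι) : b i ≠ 0 := by
  classical
  intro h0
  have h1 := hb (fun j => if j = i then 1 else 0) (fun j => by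
    split_ifs
    exacts [one_mem _, zero_mem _]) (by simp [h0]) i
  simp at h1

variable {v : RVal Ω} {Q Q' E : Subfield Ω} {b : ι → Ω} {d : κ → Ω} {C : ℝ}

theorem Orthq.mono {C' : ℝ} (h : Orthq v Q b C) (hC : C ≤ C') : Orthq v Q b C' :=
  fun c hc h0 j => (h c hc h0 j).mono (by linarith)

/-- Independent families in the span of a family of bounded distortion have bounded distortion. -/
theorem Orthq.of_ind (hb : Orthq v Q b C) (hb0 : ∀ i, b i ≠ 0) (hd : Ind Q d)
    (hs : ∀ l, Spn Q b (d l)) : ∃ C' : ℝ, Orthq v Q d C' := by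
  classical
  choose A hA hAd using hs
  let A' : Matrix κ ι Q := fun l j => ⟨A l j, hA l j⟩
  let f : (κ → Q) →ₗ[Q] (ι → Q) := Matrix.vecMulLinear A'
  have hf : ∀ (q : κ → Q) (j : ι), (f q j : Ω) = ∑ l, (q l : Ω) * A l j := by
    intro q j
    show ((∑ l, q l * A' l j : Q) : Ω) = _
    rw [AddSubmonoidClass.coe_finsetSum]
    rfl
  have hsum : ∀ q : κ → Q, ∑ l, (q l : Ω) * d l = ∑ j, (f q j : Ω) * b j := by
    intro q
    simp only [hf, Finset.sum_mul]
    rw [Finset.sum_comm]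
    refine Finset.sum_congr rfl fun l _ => ?_
    rw [hAd l, Finset.mul_sum]
    exact Finset.sum_congr rfl fun j _ => by ring
  have hinj : Function.Injective f := by
    rw [injective_iff_map_eq_zero]
    intro q hq
    ext l
    have h1 := hd (fun l => (q l : Ω)) (fun l => (q l).2) (by
      rw [hsum q, hq]
      simp) l
    simpa using h1
  obtain ⟨g, hg⟩ := f.exists_leftInverse_of_injective (LinearMap.ker_eq_bot.2 hinj)
  let R : ι → κ → Q := fun i l => g (fun j => if i = j then 1 else 0) l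
  have hR : ∀ (q : κ → Q) (l : κ), (q l : Ω) = ∑ i, (f q i : Ω) * R i l := by
    intro q l
    have h1 : g (f q) = q := by
      have := congrArg (fun φ => φ q) hg
      simpa using this
    have h2 := LinearMap.pi_apply_eq_sum_univ g (f q)
    rw [h1] at h2
    have h3 := congrFun h2 l
    rw [Finset.sum_apply] at h3
    rw [h3, AddSubmonoidClass.coe_finsetSum]
    rfl
  refine ⟨|C| + ∑ i, ∑ l, |v (b i) - v ((R i l : Ω) * d l)|, ?_⟩
  intro q hq h0 l
  let q' : κ → Q := fun l => ⟨q l, hq l⟩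
  have h1 : ∑ l, q l * d l = ∑ j, (f q' j : Ω) * b j := hsum q'
  have h2 : q l * d l = ∑ i, (f q' i : Ω) * ((R i l : Ω) * d l) := by
    have := hR q' l
    show (q' l : Ω) * d l = _
    rw [this, Finset.sum_mul]
    exact Finset.sum_congr rfl fun i _ => by ring
  rw [h2]
  refine RVal.Ge.sum _ _ fun i _ => ?_
  intro h3
  have h4 := left_ne_zero_of_mul h3
  have h5 := right_ne_zero_of_mul h3
  have h6 := hb (fun j => (f q' j : Ω)) (fun j => (f q' j).2) (by rw [← h1]; exact h0) i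
    (mul_ne_zero h4 (hb0 i))
  rw [v.map_mul h4 (hb0 i), ← h1] at h6
  rw [v.map_mul h4 h5]
  have h7 : |v (b i) - v ((R i l : Ω) * d l)| ≤ ∑ i, ∑ l, |v (b i) - v ((R i l : Ω) * d l)| := by
    refine le_trans ?_ (Finset.single_le_sum (f := fun i => ∑ l, |v (b i) - v ((R i l : Ω) * d l)|)
      (fun i _ => Finset.sum_nonneg fun l _ => abs_nonneg _) (Finset.mem_univ i))
    exact Finset.single_le_sum (f := fun l => |v (b i) - v ((R i l : Ω) * d l)|)
      (fun l _ => abs_nonneg _) (Finset.mem_univ l)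
  have h8 := le_abs_self (v (b i) - v ((R i l : Ω) * d l))
  have h9 := le_abs_self C
  linarith

/-- Products. -/
theorem Orthq.prod {e : ι → Ω} {C₁ C₂ : ℝ} (he : Orthq v Q' e C₁) (hei : Ind Q' e)
    (hd : Orthq v Q d C₂) (hdi : Ind Q d) (hdm : ∀ l, d l ∈ Q') (hQ : Q ≤ Q') :
    Orthq v Q (fun x : κ × ι => d x.1 * e x.2) (C₁ + C₂) := by
  intro c hc h0 x hx
  have h1 : ∑ x : κ × ι, c x * (d x.1 * e x.2) = ∑ i, (∑ l, c (l, i) * d l) * e i := by
    rw [Fintype.sum_prod_type, Finset.sum_comm]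
    refine Finset.sum_congr rfl fun i _ => ?_
    rw [Finset.sum_mul]
    exact Finset.sum_congr rfl fun l _ => by ring
  have hq : ∀ i, ∑ l, c (l, i) * d l ∈ Q' := fun i =>
    sum_mem fun l _ => mul_mem (hQ (hc _)) (hdm l)
  have hcx := left_ne_zero_of_mul hx
  have hq0 : ∑ l, c (l, x.2) * d l ≠ 0 := by
    intro h
    exact hcx (hdi (fun l => c (l, x.2)) (fun l => hc _) h x.1)
  rw [h1] at h0 ⊢
  have h2 := he _ hq h0 x.2 (mul_ne_zero hq0 (hei.ne_zero _))
  rw [v.map_mul hq0 (hei.ne_zero _)] at h2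
  have h3 := hd (fun l => c (l, x.2)) (fun l => hc _) hq0 x.1 (mul_ne_zero hcx (hdi.ne_zero _))
  have h4 : c x * (d x.1 * e x.2) = (c (x.1, x.2) * d x.1) * e x.2 := by
    rw [mul_assoc]
  rw [h4, v.map_mul (mul_ne_zero hcx (hdi.ne_zero _)) (hei.ne_zero _)]
  linarith

theorem Ind.prod {e : ι → Ω} (hei : Ind Q' e) (hdi : Ind Q d) (hdm : ∀ l, d l ∈ Q')
    (hQ : Q ≤ Q') : Ind Q (fun x : κ × ι => d x.1 * e x.2) := by
  intro c hc h0 x
  have h1 : ∑ x : κ × ι, c x * (d x.1 * e x.2) = ∑ i, (∑ l, c (l, i) * d l) * e i := by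
    rw [Fintype.sum_prod_type, Finset.sum_comm]
    refine Finset.sum_congr rfl fun i _ => ?_
    rw [Finset.sum_mul]
    exact Finset.sum_congr rfl fun l _ => by ring
  rw [h1] at h0
  have h2 := hei _ (fun i => sum_mem fun l _ => mul_mem (hQ (hc (l, i))) (hdm l)) h0 x.2
  exact hdi (fun l => c (l, x.2)) (fun l => hc _) h2 x.1

theorem Spn.prod {e : ι → Ω} {u : Ω} (hu : Spn Q' e u) (hd : ∀ q ∈ Q', Spn Q d q) :
    Spn Q (fun x : κ × ι => d x.1 * e x.2) u := by
  obtain ⟨c, hc, rfl⟩ := hu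
  choose a ha hac using fun i => hd _ (hc i)
  refine ⟨fun x => a x.2 x.1, fun x => ha _ _, ?_⟩
  rw [Fintype.sum_prod_type, Finset.sum_comm]
  refine Finset.sum_congr rfl fun i _ => ?_
  rw [hac i, Finset.sum_mul]
  exact Finset.sum_congr rfl fun l _ => by ring

theorem Orthq.left {e : ι → Ω} (h : Orthq v Q (fun x : κ × ι => d x.1 * e x.2) C)
    (hd : ∀ q ∈ Q', Spn Q d q) : Orthq v Q' e C := by
  intro c hc h0 i
  choose a ha hac using fun i => hd _ (hc i)
  have h1 : ∑ i, c i * e i = ∑ x : κ × ι, a x.2 x.1 * (d x.1 * e x.2) := by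
    rw [Fintype.sum_prod_type, Finset.sum_comm]
    refine Finset.sum_congr rfl fun i _ => ?_
    rw [hac i, Finset.sum_mul]
    exact Finset.sum_congr rfl fun l _ => by ring
  have h2 : c i * e i = ∑ l, a i l * (d l * e i) := by
    rw [hac i, Finset.sum_mul]
    exact Finset.sum_congr rfl fun l _ => by ring
  rw [h1] at h0 ⊢
  rw [h2]
  exact RVal.Ge.sum _ _ fun l _ => h (fun x => a x.2 x.1) (fun x => ha _ _) h0 (l, i)

theorem Orthq.right {e : ι → Ω} (h : Orthq v Q (fun x : κ × ι => d x.1 * e x.2) C)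
    (i : ι) (hi : e i ≠ 0) : Orthq v Q d C := by
  classical
  intro c hc h0 l hl
  have h1 : ∑ x : κ × ι, (if x.2 = i then c x.1 else 0) * (d x.1 * e x.2) =
      (∑ l, c l * d l) * e i := by
    rw [Fintype.sum_prod_type, Finset.sum_mul]
    refine Finset.sum_congr rfl fun l _ => ?_
    simp only [ite_mul, zero_mul, Finset.sum_ite_eq', Finset.mem_univ, if_true]
    ring
  have h2 := h (fun x => if x.2 = i then c x.1 else 0) (fun x => by
    show (if x.2 = i then c x.1 else 0) ∈ Q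
    split_ifs
    exacts [hc _, zero_mem _]) (by rw [h1]; exact mul_ne_zero h0 hi) (l, i) (by
      simp only [if_true]
      rw [← mul_assoc]
      exact mul_ne_zero hl hi)
  rw [h1, v.map_mul h0 hi] at h2
  simp only [if_true] at h2
  rw [← mul_assoc, v.map_mul hl hi] at h2
  linarith

theorem Orthq.mono_base {e : ι → Ω} (h : Orthq v Q' e C) (hQ : Q ≤ Q') : Orthq v Q e C :=
  fun c hc => h c fun j => hQ (hc j)

/-! ## Bases -/

/-- `b` is a basis of `E` over `Q`. -/
structure Bas (Q E : Subfield Ω) (b : ι → Ω) : Prop where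
  mem : ∀ i, b i ∈ E
  span : ∀ u ∈ E, Spn Q b u
  ind : Ind Q b

/-- `E` as a vector space over `Q`. -/
def sm (Q E : Subfield Ω) (h : Q ≤ E) : Submodule Q Ω where
  carrier := E
  add_mem' := fun ha hb => add_mem ha hb
  zero_mem' := zero_mem _
  smul_mem' := fun c _ hx => mul_mem (h c.2) hx

theorem sm_le_span (hQE : Q ≤ E) (hs : ∀ u ∈ E, Spn Q b u) :
    sm Q E hQE ≤ Submodule.span Q (Set.range b) := by
  intro u hu
  obtain ⟨c, hc, rfl⟩ := hs u hu
  exact Submodule.sum_mem _ fun i _ =>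
    Submodule.smul_mem _ (⟨c i, hc i⟩ : Q) (Submodule.subset_span ⟨i, rfl⟩)

theorem bas_of_finite (hQE : Q ≤ E) (h : Module.Finite Q (sm Q E hQE)) :
    Bas Q E (fun i : Fin (Module.finrank Q (sm Q E hQE)) =>
      ((Module.finBasis Q (sm Q E hQE) i : sm Q E hQE) : Ω)) := by
  set B := Module.finBasis Q (sm Q E hQE)
  refine ⟨fun i => (B i).2, fun u hu => ?_, fun c hc h0 i => ?_⟩
  · refine ⟨fun i => (B.repr ⟨u, hu⟩ i : Ω), fun i => (B.repr ⟨u, hu⟩ i).2, ?_⟩
    have h1 := congrArg (Subtype.val) (B.sum_repr ⟨u, hu⟩)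
    rw [AddSubmonoidClass.coe_finsetSum] at h1
    exact h1.symm
  · have h1 : ∑ i, (⟨c i, hc i⟩ : Q) • B i = 0 := by
      apply Subtype.ext
      rw [AddSubmonoidClass.coe_finsetSum]
      exact h0
    have h2 := Fintype.linearIndependent_iff.1 B.linearIndependent (fun i => ⟨c i, hc i⟩) h1 i
    exact congrArg Subtype.val h2

theorem Bas.card (hQE : Q ≤ E) (hb : Bas Q E b) :
    Fintype.card ι = Module.finrank Q (sm Q E hQE) := by
  have h1 : LinearIndependent Q b := by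
    rw [Fintype.linearIndependent_iff]
    intro g hg j
    exact Subtype.ext (hb.ind (fun j => (g j : Ω)) (fun j => (g j).2) hg j)
  have h2 : Submodule.span Q (Set.range b) = sm Q E hQE := by
    refine le_antisymm ?_ (sm_le_span hQE hb.span)
    rw [Submodule.span_le]
    rintro _ ⟨i, rfl⟩
    exact hb.mem i
  rw [← h2, finrank_span_eq_card h1]

theorem finite_of_spn (hQE : Q ≤ E) (hs : ∀ u ∈ E, Spn Q b u) :
    Module.Finite Q (sm Q E hQE) := by
  have h1 : Module.Finite Q (Submodule.span Q (Set.range b)) :=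
    FiniteDimensional.span_of_finite Q (Set.finite_range b)
  exact Submodule.finiteDimensional_of_le (sm_le_span hQE hs)

theorem exists_bas (hQE : Q ≤ E) (hs : ∀ u ∈ E, Spn Q b u) :
    ∃ (n : ℕ) (e : Fin n → Ω), Bas Q E e :=
  ⟨_, _, bas_of_finite hQE (finite_of_spn hQE hs)⟩

theorem Spn.mono {u : Ω} (h : Spn Q b u) (hQ : Q ≤ Q') : Spn Q' b u := by
  obtain ⟨c, hc, rfl⟩ := h
  exact ⟨c, fun j => hQ (hc j), rfl⟩

theorem Bas.prod {e : ι → Ω} (he : Bas Q' E e) (hd : Bas Q Q' d) (hQ : Q ≤ Q') (hE : Q' ≤ E) :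
    Bas Q E (fun x : κ × ι => d x.1 * e x.2) :=
  ⟨fun x => mul_mem (hE (hd.mem _)) (he.mem _), fun u hu => (he.span u hu).prod hd.span,
    he.ind.prod hd.ind hd.mem hQ⟩

/-! ## Bounded distortion -/

/-- `E` has a finite basis of bounded distortion over `Q`. -/
def BDq (v : RVal Ω) (Q E : Subfield Ω) : Prop :=
  ∃ (n : ℕ) (b : Fin n → Ω), Bas Q E b ∧ ∃ C : ℝ, Orthq v Q b C

theorem BDq.of_bas (hb : Bas Q E b) (h : Orthq v Q b C) : BDq v Q E := by
  classical
  let e := Fintype.equivFin ι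
  have key : ∀ c : Fin (Fintype.card ι) → Ω, ∑ j, c j * b (e.symm j) = ∑ i, c (e i) * b i := by
    intro c
    rw [← Equiv.sum_comp e]
    simp
  refine ⟨_, fun j => b (e.symm j), ⟨fun i => hb.mem _, fun u hu => ?_, fun c hc h0 j => ?_⟩, C,
    fun c hc h0 j => ?_⟩
  · obtain ⟨c, hc, rfl⟩ := hb.span u hu
    refine ⟨fun j => c (e.symm j), fun j => hc _, ?_⟩
    rw [key]
    simp
  · rw [key] at h0
    have := hb.ind (fun i => c (e i)) (fun i => hc _) h0 (e.symm j)
    simpa using this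
  · rw [key] at h0 ⊢
    have := h (fun i => c (e i)) (fun i => hc _) h0 (e.symm j)
    simpa using this

/-- Every basis has bounded distortion. -/
theorem BDq.orthq (h : BDq v Q E) {d : κ → Ω} (hd : Ind Q d) (hm : ∀ l, d l ∈ E) :
    ∃ C : ℝ, Orthq v Q d C := by
  obtain ⟨n, b, hb, C, hC⟩ := h
  exact hC.of_ind hb.ind.ne_zero hd fun l => hb.span _ (hm l)

theorem BDq.trans (h₁ : BDq v Q' E) (h₂ : BDq v Q Q') (hQ : Q ≤ Q') (hE : Q' ≤ E) :
    BDq v Q E := by
  obtain ⟨n, e, he, C₁, h1⟩ := h₁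
  obtain ⟨m, d, hd, C₂, h2⟩ := h₂
  exact BDq.of_bas (he.prod hd hQ hE) (h1.prod he.ind h2 hd.ind hd.mem hQ)

theorem BDq.mid (h : BDq v Q E) (hQ : Q ≤ Q') (hE : Q' ≤ E) : BDq v Q' E ∧ BDq v Q Q' := by
  obtain ⟨n, b, hb, C, hC⟩ := h
  have hQE := hQ.trans hE
  have hfin := finite_of_spn hQE hb.span
  have h1 : Module.Finite Q (sm Q Q' hQ) :=
    Submodule.finiteDimensional_of_le (S₂ := sm Q E hQE) fun x hx => hE hx
  have hd := bas_of_finite hQ h1
  obtain ⟨m, e, he⟩ := exists_bas hE fun u hu => (hb.span u hu).mono hQ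
  obtain ⟨C', hC'⟩ := hC.of_ind hb.ind.ne_zero (he.prod hd hQ hE).ind
    fun l => hb.span _ ((he.prod hd hQ hE).mem l)
  refine ⟨⟨m, e, he, C', hC'.left hd.span⟩, BDq.of_bas hd (C := C') ?_⟩
  have hm : 0 < m := by
    by_contra hm
    obtain rfl : m = 0 := by omega
    obtain ⟨c, -, h2⟩ := he.span 1 (one_mem _)
    simp at h2
  exact hC'.right ⟨0, hm⟩ (he.ind.ne_zero _)

theorem BDq.refl (v : RVal Ω) (Q : Subfield Ω) : BDq v Q Q := by
  refine ⟨1, fun _ => 1, ⟨fun _ => one_mem _, fun u hu => ⟨fun _ => u, fun _ => hu, by simp⟩,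
    fun c hc h0 j => ?_⟩, 0, fun c hc h0 j => ?_⟩
  · simp only [Finset.univ_unique, Fin.default_eq_zero, mul_one, Finset.sum_singleton] at h0
    rw [Subsingleton.elim j 0]
    exact h0
  · simp only [Finset.univ_unique, Fin.default_eq_zero, mul_one, Finset.sum_singleton] at h0 ⊢
    rw [Subsingleton.elim j 0, sub_zero]
    exact RVal.ge_self _

end Gen

end Pool.Agent.TW
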