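import Pool.Agent.Lib.TW.B0

/-!
# TANK W, row B1: bounded distortion and purely inseparable extensions

`BD_iff`: `BD p v E` iff `E` has a finite basis of bounded distortion over `E^p`.
`BD.of_pow`: `BD p v E`, `E₁ ≤ E`, `a^(p^e) ∈ E₁` for all `a ∈ E` imply `BD p v E₁`.
-/

set_option autoImplicit false

namespace Pool.Agent.TW

open Pool.Agent.H15JM (RVal)
open Polynomial

universe u

section Frob

variable {Ω : Type u} [Field Ω] {ι κ : Type} [Fintype ι] [Fintype κ]
  {v : RVal Ω} {Q Q' E : Subfield Ω} {b : ι → Ω} {C : ℝ}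

theorem sum_reindex (e : κ ≃ ι) (b : ι → Ω) (c : κ → Ω) :
    ∑ j, c j * b (e j) = ∑ i, c (e.symm i) * b i := by
  rw [← Equiv.sum_comp e]
  simp

theorem Ind.reindex (h : Ind Q b) (e : κ ≃ ι) : Ind Q (fun j => b (e j)) := by
  intro c hc h0 j
  rw [sum_reindex] at h0
  have := h (fun i => c (e.symm i)) (fun i => hc _) h0 (e j)
  simpa using this

theorem Bas.reindex (h : Bas Q E b) (e : κ ≃ ι) : Bas Q E (fun j => b (e j)) := by
  refine ⟨fun j => h.mem _, fun u hu => ?_, h.ind.reindex e⟩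
  obtain ⟨c, hc, rfl⟩ := h.span u hu
  refine ⟨fun j => c (e j), fun j => hc _, ?_⟩
  rw [sum_reindex]
  simp

variable {p : ℕ} [Fact p.Prime] [CharP Ω p]

omit [Fintype ι] in
theorem pow_sum (s : Finset ι) (f : ι → Ω) : (∑ i ∈ s, f i) ^ p = ∑ i ∈ s, f i ^ p :=
  map_sum (frobenius Ω p) f s

theorem mem_frob {x : Ω} : x ∈ Q.map (frobenius Ω p) ↔ ∃ c ∈ Q, c ^ p = x := by
  rw [Subfield.mem_map]
  rfl

theorem frob_le : Q.map (frobenius Ω p) ≤ Q := by
  intro x hx
  obtain ⟨c, hc, rfl⟩ := mem_frob.1 hx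
  exact pow_mem hc p

theorem Bas.frob (h : Bas Q E b) :
    Bas (Q.map (frobenius Ω p)) (E.map (frobenius Ω p)) (fun i => b i ^ p) := by
  refine ⟨fun i => mem_frob.2 ⟨_, h.mem i, rfl⟩, fun u hu => ?_, fun c hc h0 j => ?_⟩
  · obtain ⟨a, ha, rfl⟩ := mem_frob.1 hu
    obtain ⟨c, hc, rfl⟩ := h.span a ha
    refine ⟨fun j => c j ^ p, fun j => mem_frob.2 ⟨_, hc j, rfl⟩, ?_⟩
    rw [pow_sum]
    exact Finset.sum_congr rfl fun j _ => mul_pow _ _ _
  · choose a ha hac using fun j => mem_frob.1 (hc j)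
    have h1 : (∑ j, a j * b j) ^ p = 0 := by
      rw [pow_sum, ← h0]
      exact Finset.sum_congr rfl fun j _ => by rw [mul_pow, hac]
    have hp := (Fact.out : p.Prime).ne_zero
    rw [← hac j, h.ind a ha (pow_eq_zero_iff hp |>.1 h1) j, zero_pow hp]

theorem Orthq.frob (h : Orthq v Q b C) :
    Orthq v (Q.map (frobenius Ω p)) (fun i => b i ^ p) (p * C) := by
  intro c hc h0 j
  have hp := (Fact.out : p.Prime).ne_zero
  choose a ha hac using fun j => mem_frob.1 (hc j)
  have h1 : ∑ j, c j * b j ^ p = (∑ j, a j * b j) ^ p := by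
    rw [pow_sum]
    exact Finset.sum_congr rfl fun j _ => by rw [mul_pow, hac]
  have h2 : ∑ j, a j * b j ≠ 0 := by
    intro h2
    rw [h1, h2, zero_pow hp] at h0
    exact h0 rfl
  intro h3
  rw [← hac j, ← mul_pow] at h3 ⊢
  have h4 : a j * b j ≠ 0 := fun h4 => h3 (by rw [h4, zero_pow hp])
  have h5 := h a ha h2 j h4
  rw [h1, v.map_pow h4, v.map_pow h2]
  have h6 : (0 : ℝ) ≤ p := Nat.cast_nonneg p
  nlinarith

theorem BDq.frob (h : BDq v Q E) :
    BDq v (Q.map (frobenius Ω p)) (E.map (frobenius Ω p)) := by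
  obtain ⟨n, b, hb, C, hC⟩ := h
  exact ⟨n, _, hb.frob, _, hC.frob⟩

/-- The field `E^(p^m)`. -/
noncomputable def Pw (p : ℕ) [Fact p.Prime] [CharP Ω p] (E : Subfield Ω) : ℕ → Subfield Ω
  | 0 => E
  | m + 1 => (Pw p E m).map (frobenius Ω p)

theorem mem_Pw {m : ℕ} {x : Ω} : x ∈ Pw p E m ↔ ∃ c ∈ E, c ^ p ^ m = x := by
  induction m generalizing x with
  | zero => simp [Pw]
  | succ m ih =>
    rw [Pw, mem_frob]
    constructor
    · rintro ⟨c, hc, rfl⟩
      obtain ⟨a, ha, rfl⟩ := ih.1 hc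
      exact ⟨a, ha, by rw [pow_succ, pow_mul]⟩
    · rintro ⟨a, ha, rfl⟩
      exact ⟨_, ih.2 ⟨a, ha, rfl⟩, by rw [pow_succ, pow_mul]⟩

theorem Pw_le (m : ℕ) : Pw p E m ≤ E := by
  intro x hx
  obtain ⟨c, hc, rfl⟩ := mem_Pw.1 hx
  exact pow_mem hc _

theorem BDq.Pw_succ (h : BDq v (E.map (frobenius Ω p)) E) (m : ℕ) :
    BDq v (Pw p E (m + 1)) (Pw p E m) := by
  induction m with
  | zero => exact h
  | succ m ih => exact ih.frob

theorem BDq.Pw (h : BDq v (E.map (frobenius Ω p)) E) (m : ℕ) : BDq v (Pw p E m) E := by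
  induction m with
  | zero => exact BDq.refl v E
  | succ m ih => exact ih.trans (h.Pw_succ m) frob_le (Pw_le m)

/-! ### Monomial bases -/

theorem bas_pow {x : Ω} (hx : x ∉ Q) (hxp : x ^ p ∈ Q) :
    Bas Q (IntermediateField.adjoin Q {x}).toSubfield (fun i : Fin p => x ^ (i : ℕ)) := by
  have hp := (Fact.out : p.Prime)
  have hirr : Irreducible ((X : Q[X]) ^ p - C (⟨x ^ p, hxp⟩ : Q)) := by
    apply X_pow_sub_C_irreducible_of_prime hp
    intro b hb
    have h1 : (b : Ω) ^ p = x ^ p := congrArg Subtype.val hb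
    have h2 : (b : Ω) = x := frobenius_inj Ω p h1
    exact hx (h2 ▸ b.2)
  have hmin : minpoly Q x = (X : Q[X]) ^ p - C (⟨x ^ p, hxp⟩ : Q) := by
    symm
    apply minpoly.eq_of_irreducible_of_monic hirr
    · simp only [map_sub, map_pow, aeval_X, aeval_C]
      exact sub_self _
    · exact monic_X_pow_sub_C _ hp.ne_zero
  have hint : IsIntegral Q x :=
    ⟨(X : Q[X]) ^ p - C (⟨x ^ p, hxp⟩ : Q), monic_X_pow_sub_C _ hp.ne_zero, by
      rw [← aeval_def]
      simp only [map_sub, map_pow, aeval_X, aeval_C]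
      exact sub_self _⟩
  have hdeg : (minpoly Q x).natDegree = p := by
    rw [hmin, natDegree_X_pow_sub_C]
  refine ⟨fun i => pow_mem (IntermediateField.mem_adjoin_simple_self Q x) _, fun u hu => ?_,
    fun c hc h0 i => ?_⟩
  · have hu' : u ∈ IntermediateField.adjoin Q {x} := hu
    rw [← IntermediateField.mem_toSubalgebra,
      IntermediateField.adjoin_simple_toSubalgebra_of_isAlgebraic hint.isAlgebraic,
      Algebra.adjoin_singleton_eq_range_aeval] at hu'
    obtain ⟨f, rfl⟩ := hu'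
    have h1 : aeval x (f %ₘ minpoly Q x) = aeval x f := by
      conv_rhs => rw [← modByMonic_add_div f (minpoly Q x)]
      simp
    have h2 : (f %ₘ minpoly Q x).natDegree < p := by
      have h3 := natDegree_modByMonic_lt f (minpoly.monic hint) (by
        intro h4
        rw [h4, natDegree_one] at hdeg
        exact hp.ne_zero hdeg.symm)
      rwa [hdeg] at h3
    refine ⟨fun i => ((f %ₘ minpoly Q x).coeff i : Ω), fun i => Subtype.property _, ?_⟩
    change aeval x f = _
    rw [← h1, aeval_eq_sum_range' h2, Finset.sum_range]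
    rfl
  · let f : Q[X] := ∑ j : Fin p, C (⟨c j, hc j⟩ : Q) * X ^ (j : ℕ)
    have hf : aeval x f = 0 := by
      rw [← h0, map_sum]
      refine Finset.sum_congr rfl fun j _ => ?_
      rw [map_mul, aeval_C, map_pow, aeval_X]
      rfl
    have hfd : f.degree < p := by
      refine degree_sum_fin_lt fun j => (⟨c j, hc j⟩ : Q)
    have hf0 : f = 0 := by
      by_contra hne
      have h1 := minpoly.degree_le_of_ne_zero Q x hne hf
      rw [degree_eq_natDegree (minpoly.ne_zero hint), hdeg] at h1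
      exact absurd (lt_of_le_of_lt h1 hfd) (lt_irrefl _)
    have h1 : f.coeff i = ⟨c i, hc i⟩ := by
      rw [finsetSum_coeff, Finset.sum_eq_single i]
      · simp
      · intro j _ hj
        rw [coeff_C_mul, coeff_X_pow, if_neg, mul_zero]
        intro h
        exact hj (Fin.ext h.symm)
      · simp
    rw [hf0, coeff_zero] at h1
    exact (congrArg Subtype.val h1).symm

omit [Fact p.Prime] [CharP Ω p] in
theorem mon_cons {n : ℕ} (x : Ω) (t : Fin n → Ω) (α : Fin (n + 1) → Fin p) :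
    mon (Fin.cons x t : Fin (n + 1) → Ω) α = x ^ (α 0 : ℕ) * mon t (fun i => α i.succ) := by
  rw [mon, Fin.prod_univ_succ]
  simp [mon]

theorem exists_mon_bas (hQE : Q ≤ E) (hp : ∀ u ∈ E, u ^ p ∈ Q)
    (hfin : Module.Finite Q (sm Q E hQE)) :
    ∃ (n : ℕ) (t : Fin n → Ω), (∀ i, t i ∈ E) ∧ Bas Q E (mon (p := p) t) := by
  obtain ⟨N, hN⟩ : ∃ N, Module.finrank Q (sm Q E hQE) = N := ⟨_, rfl⟩
  induction N using Nat.strong_induction_on generalizing Q with
  | _ N ih =>
    by_cases hle : E ≤ Q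
    · obtain rfl : Q = E := le_antisymm hQE hle
      refine ⟨0, Fin.elim0, fun i => i.elim0, fun α => ?_, fun u hu => ?_, fun c hc h0 j => ?_⟩
      · simp [mon]
      · exact ⟨fun _ => u, fun _ => hu, by simp [mon]⟩
      · simp only [mon, Finset.univ_eq_empty, Finset.prod_empty, mul_one,
          Finset.univ_unique, Finset.sum_singleton] at h0
        exact (congrArg c (Subsingleton.elim _ _)).trans h0
    · obtain ⟨x, hxE, hxQ⟩ := Set.not_subset.1 hle
      have hx := bas_pow hxQ (hp x hxE)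
      set Q' := (IntermediateField.adjoin Q {x}).toSubfield with hQ'
      have hQQ' : Q ≤ Q' := fun a ha =>
        (IntermediateField.adjoin Q {x}).algebraMap_mem (⟨a, ha⟩ : Q)
      have hQ'E : Q' ≤ E := by
        intro u hu
        obtain ⟨c, hc, rfl⟩ := hx.span u hu
        exact sum_mem fun j _ => mul_mem (hQE (hc j)) (pow_mem hxE _)
      have hb := bas_of_finite hQE hfin
      have hfin' : Module.Finite Q' (sm Q' E hQ'E) :=
        finite_of_spn hQ'E fun u hu => (hb.span u hu).mono hQQ'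
      have he := bas_of_finite hQ'E hfin'
      have hcard := (he.prod hx hQQ' hQ'E).card hQE
      rw [Fintype.card_prod, Fintype.card_fin, Fintype.card_fin, hN] at hcard
      have hm : 0 < Module.finrank Q' (sm Q' E hQ'E) := by
        by_contra hm
        have hm0 : Module.finrank Q' (sm Q' E hQ'E) = 0 := by omega
        obtain ⟨c, -, h2⟩ := he.span 1 (one_mem _)
        rw [Finset.sum_eq_zero] at h2
        · exact one_ne_zero h2
        · intro j
          exact absurd j.2 (by omega)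
      have hp2 := (Fact.out : p.Prime).two_le
      obtain ⟨n, t, ht, hbt⟩ := ih _ (by nlinarith) hQ'E (fun u hu => hQQ' (hp u hu)) hfin' rfl
      refine ⟨n + 1, Fin.cons x t, fun i => ?_, ?_⟩
      · refine Fin.cases ?_ (fun i => ?_) i
        · simpa using hxE
        · simpa using ht i
      · have h1 := (hbt.prod hx hQQ' hQ'E).reindex
          (Fin.consEquiv (fun _ : Fin (n + 1) => Fin p)).symm
        convert h1 using 1
        funext α
        rw [mon_cons]
        rfl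

end Frob

section PB

variable {k Ω : Type u} [Field k] [Field Ω] [Algebra k Ω] {v : RVal Ω}
  {p : ℕ} [Fact p.Prime] [CharP Ω p] {E E₁ : IntermediateField k Ω}

theorem PBasis.bas {n : ℕ} {t : Fin n → Ω} (ht : PBasis p E t) :
    Bas (Qp p E) E.toSubfield (mon (p := p) t) := by
  refine ⟨fun α => ht.mon_mem α, fun u hu => ?_, ht.ind_Qp⟩
  obtain ⟨c, hc, rfl⟩ := ht.span u hu
  exact ⟨fun α => c α ^ p, fun α => mem_Qp.2 ⟨_, hc α, rfl⟩, rfl⟩

theorem PBasis.of_bas {n : ℕ} {t : Fin n → Ω} (h1 : ∀ i, t i ∈ E)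
    (h : Bas (Qp p E) E.toSubfield (mon (p := p) t)) : PBasis p E t := by
  refine ⟨h1, fun u hu => ?_, fun c hc h0 α => ?_⟩
  · obtain ⟨c, hc, rfl⟩ := h.span u hu
    choose a ha hac using fun j => mem_Qp.1 (hc j)
    exact ⟨a, ha, Finset.sum_congr rfl fun j _ => by rw [hac]⟩
  · have h2 := h.ind (fun α => c α ^ p) (fun α => mem_Qp.2 ⟨_, hc α, rfl⟩) h0 α
    exact (pow_eq_zero_iff (Fact.out : p.Prime).ne_zero).1 h2

theorem Orth.orthq {n : ℕ} {t : Fin n → Ω} {C : ℝ} (h : Orth p v E t C) :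
    Orthq v (Qp p E) (mon (p := p) t) C := by
  intro c hc h0 α
  choose a ha hac using fun j => mem_Qp.1 (hc j)
  have h1 : ∑ j, c j * mon t j = pcomb t a :=
    Finset.sum_congr rfl fun j _ => by rw [hac]
  rw [h1] at h0 ⊢
  rw [← hac]
  exact h a ha h0 α

theorem Orth.of_orthq {n : ℕ} {t : Fin n → Ω} {C : ℝ}
    (h : Orthq v (Qp p E) (mon (p := p) t) C) : Orth p v E t C :=
  fun c hc h0 α => h (fun α => c α ^ p) (fun α => mem_Qp.2 ⟨_, hc α, rfl⟩) h0 α

theorem Qp_le' : Qp p E ≤ E.toSubfield := fun _ hx => Qp_le hx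

theorem BD.bdq (h : BD p v E) : BDq v (Qp p E) E.toSubfield := by
  obtain ⟨n, t, ht, C, hC⟩ := h
  exact BDq.of_bas ht.bas hC.orthq

theorem BD.of_bdq (h : BDq v (Qp p E) E.toSubfield) : BD p v E := by
  have h' := h
  obtain ⟨n, b, hb, C, hC⟩ := h
  obtain ⟨m, t, ht, hbt⟩ := exists_mon_bas (p := p) Qp_le'
    (fun u hu => mem_Qp.2 ⟨u, hu, rfl⟩) (finite_of_spn Qp_le' hb.span)
  obtain ⟨C', hC'⟩ := h'.orthq hbt.ind hbt.mem
  exact ⟨m, t, PBasis.of_bas ht hbt, C', Orth.of_orthq hC'⟩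

theorem BD_iff : BD p v E ↔ BDq v (Qp p E) E.toSubfield := ⟨BD.bdq, BD.of_bdq⟩

/-- Every `p`-basis of a field with bounded distortion has bounded distortion. -/
theorem BD.orth (h : BD p v E) {n : ℕ} {t : Fin n → Ω} (ht : PBasis p E t) :
    ∃ C : ℝ, Orth p v E t C := by
  obtain ⟨C, hC⟩ := h.bdq.orthq ht.ind_Qp ht.mon_mem
  exact ⟨C, Orth.of_orthq hC⟩

/-- **Row B1.** -/
theorem BD.of_pow (h : BD p v E) (hle : E₁ ≤ E) {e : ℕ} (he : ∀ a ∈ E, a ^ p ^ e ∈ E₁) :
    BD p v E₁ := by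
  have h1 : BDq v (Pw p E.toSubfield (e + 1)) E.toSubfield := BDq.Pw h.bdq _
  have h2 : Pw p E.toSubfield (e + 1) ≤ Qp p E₁ := by
    intro x hx
    obtain ⟨c, hc, rfl⟩ := mem_Pw.1 hx
    exact mem_Qp.2 ⟨_, he c hc, by rw [pow_succ, pow_mul]⟩
  have h3 : Qp p E₁ ≤ E₁.toSubfield := Qp_le'
  have h4 : E₁.toSubfield ≤ E.toSubfield := hle
  have h5 := (h1.mid h2 (h3.trans h4)).1
  exact BD.of_bdq (h5.mid h3 h4).2

/-- A finitely generated field is finite over the field of its `p`-th powers. -/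
theorem finite_Qp [IsAlgClosed k] (hE : E.FG) :
    Module.Finite (Qp p E) (sm (Qp p E) E.toSubfield Qp_le') := by
  obtain ⟨S, hS⟩ := hE
  have hSE : ∀ x ∈ S, x ∈ E := fun x hx => by
    rw [← hS]
    exact IntermediateField.subset_adjoin k _ hx
  have hint : ∀ x ∈ (S : Set Ω), IsIntegral (Qp p E) x := by
    intro x hx
    have hx' : x ^ p ∈ Qp p E := mem_Qp.2 ⟨x, hSE x hx, rfl⟩
    refine ⟨(X : (Qp p E)[X]) ^ p - C (⟨x ^ p, hx'⟩ : Qp p E),
      monic_X_pow_sub_C _ (Fact.out : p.Prime).ne_zero, ?_⟩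
    rw [← aeval_def]
    simp only [map_sub, map_pow, aeval_X, aeval_C]
    exact sub_self _
  have h1 : FiniteDimensional (Qp p E) (IntermediateField.adjoin (Qp p E) (S : Set Ω)) :=
    IntermediateField.finiteDimensional_adjoin hint
  have h2 : ∀ x ∈ E, x ∈ IntermediateField.adjoin (Qp p E) (S : Set Ω) := by
    intro x hx
    rw [← hS] at hx
    induction hx using IntermediateField.adjoin_induction with
    | mem x hx => exact IntermediateField.subset_adjoin _ _ hx
    | algebraMap x =>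
      obtain ⟨y, rfl⟩ := IsAlgClosed.exists_pow_nat_eq x (Fact.out : p.Prime).pos
      rw [map_pow]
      exact (IntermediateField.adjoin (Qp p E) (S : Set Ω)).algebraMap_mem
        (⟨_, mem_Qp.2 ⟨algebraMap k Ω y, E.algebraMap_mem y, rfl⟩⟩ : Qp p E)
    | add x y _ _ hx hy => exact add_mem hx hy
    | inv x _ hx => exact inv_mem hx
    | mul x y _ _ hx hy => exact mul_mem hx hy
  exact Submodule.finiteDimensional_of_le
    (S₂ := (IntermediateField.adjoin (Qp p E) (S : Set Ω)).toSubalgebra.toSubmodule)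
    fun x hx => h2 x hx

theorem exists_PBasis [IsAlgClosed k] (hE : E.FG) :
    ∃ (n : ℕ) (t : Fin n → Ω), PBasis p E t := by
  obtain ⟨m, t, ht, hbt⟩ := exists_mon_bas (p := p) Qp_le'
    (fun u hu => mem_Qp.2 ⟨u, hu, rfl⟩) (finite_Qp hE)
  exact ⟨m, t, PBasis.of_bas ht hbt⟩

end PB

end Pool.Agent.TW
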