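import Pool.Agent.Lib.TW.B1

/-!
# TANK W, row B2: bounded distortion, henselizations and transcendental extensions

* `BD.of_adj'`: `BD p v (adj N z)`, `z` transcendental over `N`, `N` finitely generated, imply
  `BD p v N`.
* `BD.of_hen'`: `BD p v E`, `hen v E = hen v E₁`, `E₁` finitely generated, imply `BD p v E₁`.
-/

set_option autoImplicit false

namespace Pool.Agent.TW

open Pool.Agent.H15JM (RVal)
open Pool.Agent.LU1 (adj)
open Pool.Agent.LUC (Cl clF)
open Pool.Agent.D2P (hen mem_hen le_hen)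
open Polynomial

universe u

section Cls

variable {Ω : Type u} [Field Ω] {ι : Type} [Fintype ι] {v : RVal Ω} {Q : Subfield Ω}
  {b : ι → Ω} {C : ℝ}

theorem Orthq.cl_aux (h : Orthq v Q b C) (hi : Ind Q b) {c : ι → Ω} (hc : ∀ j, c j ∈ Cl v Q)
    {i : ι} (h0 : c i ≠ 0) :
    ∑ j, c j * b j ≠ 0 ∧ v (∑ j, c j * b j) - C ≤ v (c i * b i) := by
  set M : ℝ := v (c i * b i) + C + 1
  have key : ∀ j, ∃ a ∈ Q, v.Ge (M - v (b j)) (c j - a) ∧ (c j ≠ 0 → a ≠ 0 ∧ v a = v (c j)) := by
    intro j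
    by_cases hj : c j = 0
    · exact ⟨0, zero_mem _, by rw [hj, sub_zero]; exact RVal.Ge.zero, fun h => absurd hj h⟩
    · obtain ⟨a, ha, h1, h2, h3⟩ := LUC.Cl.exists_val (hc j) (M - v (b j)) hj
      exact ⟨a, ha, h3, fun _ => ⟨h1, h2⟩⟩
  choose a ha hav han using key
  obtain ⟨ha0, hav0⟩ := han i h0
  have hb0 := hi.ne_zero i
  have h1 : v.Ge M (∑ j, (c j - a j) * b j) := by
    refine RVal.Ge.sum _ _ fun j _ => ?_
    have h2 := (hav j).mul (RVal.ge_self (v := v) (b j))
    exact h2.mono (by linarith)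
  have h2 : ∑ j, a j * b j ≠ 0 := by
    intro h2
    exact ha0 (hi a ha h2 i)
  have h3 := h a ha h2 i (mul_ne_zero ha0 hb0)
  rw [v.map_mul ha0 hb0, hav0, ← v.map_mul h0 hb0] at h3
  have h4 : ∑ j, c j * b j = ∑ j, a j * b j + ∑ j, (c j - a j) * b j := by
    rw [← Finset.sum_add_distrib]
    exact Finset.sum_congr rfl fun j _ => by ring
  rw [h4]
  by_cases h5 : ∑ j, (c j - a j) * b j = 0
  · rw [h5, add_zero]
    exact ⟨h2, h3⟩
  · have h6 := v.add_of_lt h2 h5 (by
      have := h1 h5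
      have h7 : v (∑ j, a j * b j) < M := by
        show _ < v (c i * b i) + C + 1
        linarith
      linarith)
    exact ⟨h6.1, by rw [h6.2]; exact h3⟩

theorem Orthq.ind_cl (h : Orthq v Q b C) (hi : Ind Q b) : Ind (clF v Q) b := by
  intro c hc h0 j
  by_contra hj
  exact (h.cl_aux hi hc hj).1 h0

theorem Orthq.cl (h : Orthq v Q b C) (hi : Ind Q b) : Orthq v (clF v Q) b C := by
  intro c hc _ j hj
  exact (h.cl_aux hi hc (left_ne_zero_of_mul hj)).2

theorem Ind.mono_base {Q' : Subfield Ω} (h : Ind Q' b) (hQ : Q ≤ Q') : Ind Q b :=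
  fun c hc => h c fun j => hQ (hc j)

end Cls

section PB

variable {k Ω : Type u} [Field k] [Field Ω] [Algebra k Ω] {v : RVal Ω}
  {p : ℕ} [Fact p.Prime] [CharP Ω p] {E E₁ N : IntermediateField k Ω}
  {ι : Type} [Fintype ι] {b : ι → Ω}

theorem charP_I (p : ℕ) [CharP Ω p] (E : IntermediateField k Ω) : CharP E p :=
  (algebraMap E Ω).charP (algebraMap E Ω).injective p

theorem Qp_mono (h : E ≤ E₁) : Qp p E ≤ Qp p E₁ := by
  intro x hx
  obtain ⟨c, hc, rfl⟩ := mem_Qp.1 hx
  exact mem_Qp.2 ⟨c, h hc, rfl⟩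

theorem Qp_hen_le : Qp p (hen v E) ≤ clF v (Qp p E) := by
  intro x hx
  obtain ⟨c, hc, rfl⟩ := mem_Qp.1 hx
  have hc1 := (mem_hen.1 hc).1
  intro r
  obtain ⟨a, ha, h1⟩ := hc1 (|r|)
  refine ⟨a ^ p, mem_Qp.2 ⟨a, ha, rfl⟩, ?_⟩
  rw [← sub_pow_char]
  intro h2
  have h3 : c - a ≠ 0 := fun h3 => h2 (by rw [h3, zero_pow (Fact.out : p.Prime).ne_zero])
  rw [v.map_pow h3]
  have h4 := h1 h3
  have h5 : (1 : ℝ) ≤ p := by exact_mod_cast (Fact.out : p.Prime).one_le
  have h6 := le_abs_self r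
  have h7 := abs_nonneg r
  nlinarith

/-- Separable coefficients. -/
theorem Ind.sep (hb : Ind (Qp p E) b) (hbE : ∀ j, b j ∈ E) {c : ι → Ω}
    (hc : ∀ j, IsSeparable E (c j)) (h0 : ∑ j, c j ^ p * b j = 0) (j : ι) : c j = 0 := by
  classical
  have := charP_I p E
  have hp := (Fact.out : p.Prime)
  let W : Submodule E Ω := Submodule.span E (Set.range c)
  have : Module.Finite E W := FiniteDimensional.span_of_finite E (Set.finite_range c)
  let B := Module.finBasis E W
  have hW : ∀ w ∈ W, IsSeparable E w := by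
    intro w hw
    have h1 : W ≤ (separableClosure E Ω).toSubalgebra.toSubmodule := by
      rw [Submodule.span_le]
      rintro _ ⟨i, rfl⟩
      exact mem_separableClosure_iff.2 (hc i)
    exact mem_separableClosure_iff.1 (h1 hw)
  have hli : LinearIndependent E (fun i => ((B i : W) : Ω)) :=
    B.linearIndependent.map' W.subtype (Submodule.ker_subtype W)
  have hli' : LinearIndependent E (fun i => ((B i : W) : Ω) ^ p) := by
    have := hli.map_pow_expChar_pow_of_isSeparable' p 1 (fun i => hW _ (B i).2)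
    simpa using this
  let m : ι → W := fun j => ⟨c j, Submodule.subset_span ⟨j, rfl⟩⟩
  have hcj : ∀ j, c j = ∑ i, (B.repr (m j) i : Ω) * (B i : Ω) := by
    intro j
    have h1 := congrArg (Subtype.val) (B.sum_repr (m j))
    rw [AddSubmonoidClass.coe_finsetSum] at h1
    exact h1.symm
  have h1 : ∑ i, (∑ j, (B.repr (m j) i : Ω) ^ p * b j) * (B i : Ω) ^ p = 0 := by
    rw [← h0]
    simp only [Finset.sum_mul]
    rw [Finset.sum_comm]
    refine Finset.sum_congr rfl fun j _ => ?_
    conv_rhs => rw [hcj j, pow_sum, Finset.sum_mul]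
    exact Finset.sum_congr rfl fun i _ => by rw [mul_pow]; ring
  have hmem : ∀ i, ∑ j, (B.repr (m j) i : Ω) ^ p * b j ∈ E := fun i =>
    sum_mem fun j _ => mul_mem (pow_mem (B.repr (m j) i).2 _) (hbE j)
  have h2 : ∀ i, ∑ j, (B.repr (m j) i : Ω) ^ p * b j = 0 := by
    intro i
    have h3 := Fintype.linearIndependent_iff.1 hli'
      (fun i => (⟨∑ j, (B.repr (m j) i : Ω) ^ p * b j, hmem i⟩ : E)) h1 i
    exact congrArg Subtype.val h3
  rw [hcj j]
  refine Finset.sum_eq_zero fun i _ => ?_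
  have h3 := hb (fun j => (B.repr (m j) i : Ω) ^ p)
    (fun j => mem_Qp.2 ⟨_, (B.repr (m j) i).2, rfl⟩) (h2 i) j
  rw [(pow_eq_zero_iff hp.ne_zero).1 h3, zero_mul]

/-- Separable elements. -/
theorem Bas.span_sep (hb : Bas (Qp p E) E.toSubfield b) (hE : E ≤ E₁) {u : Ω} (hu : u ∈ E₁)
    (hs : IsSeparable E u) : Spn (Qp p E₁) b u := by
  have := charP_I p E
  have h1 : u ∈ IntermediateField.adjoin E {u ^ p} := by
    rw [← IntermediateField.adjoin_simple_eq_adjoin_pow_expChar_of_isSeparable E Ω hs p]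
    exact IntermediateField.mem_adjoin_simple_self E u
  have h2 : IsAlgebraic E (u ^ p) := hs.isIntegral.isAlgebraic.pow p
  rw [← IntermediateField.mem_toSubalgebra,
    IntermediateField.adjoin_simple_toSubalgebra_of_isAlgebraic h2,
    Algebra.adjoin_singleton_eq_range_aeval] at h1
  obtain ⟨f, hf⟩ := h1
  change aeval (u ^ p) f = u at hf
  choose a ha hae using fun i => hb.span (f.coeff i : Ω) (f.coeff i).2
  refine ⟨fun j => ∑ i ∈ Finset.range (f.natDegree + 1), a i j * (u ^ p) ^ i, fun j => ?_, ?_⟩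
  · exact sum_mem fun i _ => mul_mem (Qp_mono hE (ha i j)) (pow_mem (mem_Qp.2 ⟨u, hu, rfl⟩) i)
  · conv_lhs => rw [← hf, aeval_eq_sum_range]
    simp only [Finset.sum_mul]
    rw [Finset.sum_comm]
    refine Finset.sum_congr rfl fun i _ => ?_
    rw [Algebra.smul_def]
    change (f.coeff i : Ω) * _ = _
    rw [hae i, Finset.sum_mul]
    exact Finset.sum_congr rfl fun j _ => by ring

/-- Bounded distortion passes to the henselization. -/
theorem BD.hen_bdq (h : BD p v E) : BDq v (Qp p (hen v E)) (hen v E).toSubfield := by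
  obtain ⟨n, b, hb, C, hC⟩ := h.bdq
  refine ⟨n, b, ⟨fun i => le_hen _ (hb.mem i), fun u hu => ?_, ?_⟩, C, ?_⟩
  · exact hb.span_sep (le_hen _) hu (mem_hen.1 hu).2
  · exact (hC.ind_cl hb.ind).mono_base Qp_hen_le
  · exact (hC.cl hb.ind).mono_base Qp_hen_le

theorem BD.hen' (h : BD p v E) : BD p v (hen v E) := BD.of_bdq h.hen_bdq

/-- **Row B2, henselizations.** -/
theorem BD.of_hen' [IsAlgClosed k] (h : BD p v E) (hE : D2P.hen v E = D2P.hen v E₁)
    (hfg : E₁.FG) : BD p v E₁ := by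
  obtain ⟨n, t, ht⟩ := exists_PBasis (p := p) hfg
  have h1 := h.hen_bdq
  rw [hE] at h1
  have h2 : Ind (Qp p (D2P.hen v E₁)) (mon (p := p) t) := by
    intro c hc h0 j
    choose a ha hac using fun j => mem_Qp.1 (hc j)
    rw [← hac j, ht.ind_Qp.sep ht.mon_mem (c := a) (fun j => (mem_hen.1 (ha j)).2) (by
      rw [← h0]
      exact Finset.sum_congr rfl fun j _ => by rw [hac]) j,
      zero_pow (Fact.out : p.Prime).ne_zero]
  obtain ⟨C, hC⟩ := h1.orthq h2 fun α => le_hen _ (ht.mon_mem α)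
  exact ⟨n, t, ht, C, Orth.of_orthq (hC.mono_base (Qp_mono (le_hen _)))⟩

theorem adj_eq (N : IntermediateField k Ω) (z : Ω) :
    adj N z = (IntermediateField.adjoin N {z}).restrictScalars k := by
  refine le_antisymm (sup_le ?_ ?_) ?_
  · intro x hx
    exact (IntermediateField.adjoin N {z}).algebraMap_mem (⟨x, hx⟩ : N)
  · rw [IntermediateField.adjoin_le_iff, Set.singleton_subset_iff]
    exact IntermediateField.mem_adjoin_simple_self N z
  · intro x hx
    have hx' : x ∈ IntermediateField.adjoin N {z} := hx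
    clear hx
    induction hx' using IntermediateField.adjoin_induction with
    | mem x hx =>
      rw [Set.mem_singleton_iff] at hx
      rw [hx]
      exact (D2P.mem_adj_self N z).1
    | algebraMap x => exact (D2P.mem_adj_self N z).2 x.2
    | add x y _ _ hx hy => exact add_mem hx hy
    | inv x _ hx => exact inv_mem hx
    | mul x y _ _ hx hy => exact mul_mem hx hy

/-- Coefficients in a transcendental extension. -/
theorem Ind.adj (hb : Ind (Qp p N) b) (hbN : ∀ j, b j ∈ N) {z : Ω} (hz : Transcendental N z) :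
    Ind (Qp p (adj N z)) b := by
  classical
  have := charP_I p N
  have hp := (Fact.out : p.Prime)
  intro c hc h0
  choose a ha hac using fun j => mem_Qp.1 (hc j)
  have key : ∀ j, ∃ r s : N[X], aeval z s ≠ 0 ∧ a j = aeval z r / aeval z s := by
    intro j
    have h1 := ha j
    rw [adj_eq, IntermediateField.mem_restrictScalars,
      IntermediateField.mem_adjoin_simple_iff] at h1
    obtain ⟨r, s, h2⟩ := h1
    by_cases hs : aeval z s = 0
    · refine ⟨0, 1, by simp, ?_⟩
      rw [h2, hs]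
      simp
    · exact ⟨r, s, hs, h2⟩
  choose r s hs has using key
  have hdvd : ∀ j, ∃ q : N[X], ∏ i, s i = s j * q := fun j =>
    Finset.dvd_prod_of_mem s (Finset.mem_univ j)
  choose q hq using hdvd
  have hD0 : aeval z (∏ i, s i) ≠ 0 := by
    rw [map_prod]
    exact Finset.prod_ne_zero_iff.2 fun i _ => hs i
  have h1 : ∀ j, aeval z (∏ i, s i) * a j = aeval z (q j * r j) := by
    intro j
    rw [hq j, has j, map_mul, map_mul]
    field_simp [hs j]
  let G : N[X] := ∑ j, C (⟨b j, hbN j⟩ : N) * (q j * r j) ^ p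
  have hG : aeval z G = 0 := by
    have h2 : aeval z G = (aeval z (∏ i, s i)) ^ p * ∑ j, c j * b j := by
      rw [map_sum, Finset.mul_sum]
      refine Finset.sum_congr rfl fun j _ => ?_
      rw [map_mul, aeval_C, map_pow, ← h1 j, ← hac j, mul_pow]
      change b j * _ = _
      ring
    rw [h2, h0, mul_zero]
  have hG0 : G = 0 := by
    by_contra hne
    exact hz ⟨G, hne, hG⟩
  have h3 : ∀ j i, ((q j * r j).coeff i : Ω) = 0 := by
    intro j i
    have h4 : G.coeff (i * p) = ∑ j, (⟨b j, hbN j⟩ : N) * (q j * r j).coeff i ^ p := by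
      rw [finsetSum_coeff]
      refine Finset.sum_congr rfl fun j _ => ?_
      rw [coeff_C_mul, ← map_frobenius_expand, coeff_map, coeff_expand_mul hp.pos, frobenius_def]
    have h5 : ∑ j, ((q j * r j).coeff i : Ω) ^ p * b j = 0 := by
      rw [hG0, coeff_zero] at h4
      have h6 := congrArg Subtype.val h4
      rw [AddSubmonoidClass.coe_finsetSum] at h6
      refine Eq.trans ?_ h6.symm
      exact Finset.sum_congr rfl fun j _ => mul_comm _ _
    have h6 := hb (fun j => ((q j * r j).coeff i : Ω) ^ p)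
      (fun j => mem_Qp.2 ⟨_, ((q j * r j).coeff i).2, rfl⟩) h5 j
    exact (pow_eq_zero_iff hp.ne_zero).1 h6
  intro j
  have h7 : q j * r j = 0 := by
    ext i
    exact h3 j i
  have h8 := h1 j
  rw [h7, map_zero] at h8
  have h9 : a j = 0 := (mul_eq_zero.1 h8).resolve_left hD0
  rw [← hac j, h9, zero_pow hp.ne_zero]

/-- **Row B2, transcendental extensions.** -/
theorem BD.of_adj' [IsAlgClosed k] {z : Ω} (h : BD p v (LU1.adj N z)) (hz : Transcendental N z)
    (hfg : N.FG) : BD p v N := by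
  obtain ⟨n, t, ht⟩ := exists_PBasis (p := p) hfg
  have hle : N ≤ LU1.adj N z := (D2P.mem_adj_self N z).2
  obtain ⟨C, hC⟩ := h.bdq.orthq (ht.ind_Qp.adj ht.mon_mem hz) fun α => hle (ht.mon_mem α)
  exact ⟨n, t, ht, C, Orth.of_orthq (hC.mono_base (Qp_mono hle))⟩

end PB

end Pool.Agent.TW
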