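import Pool.Agent.Lib.TW.Iso2

/-!
# TANK W: transport of coordinates, distortion and local uniformization
-/

set_option autoImplicit false

open Polynomial

namespace Pool.Agent.TW

open Pool.Agent.H15JM (RVal)
open Pool.Agent.LU1 (VPos adj)
open Pool.Agent.LUC (Cl clF)
open Pool.Agent.D2 (Ctx0)
open Pool.Agent.D2P (hen mem_hen)

universe u

variable {k Ω : Type u} [Field k] [Field Ω] [Algebra k Ω] {v : RVal Ω} {r D : ℕ}

open IsoAux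

namespace VIso

variable {M M' : IntermediateField k Ω}

theorem img_closure_le (ψ : VIso v M M') {S : Set Ω} {T : Subring Ω}
    (h : ∀ s ∈ S, ∃ c : M, (c : Ω) = s ∧ (ψ.e c : Ω) ∈ T) :
    ψ.img (Subring.closure S) ≤ T := by
  have h1 : Subring.closure S ≤
      (T.comap ((algebraMap M' Ω).comp (ψ.e : M →+* M'))).map (algebraMap M Ω) := by
    rw [Subring.closure_le]
    intro s hs
    obtain ⟨c, hc, hcT⟩ := h s hs
    exact ⟨c, hcT, hc⟩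
  intro b' hb'
  obtain ⟨b, h2, rfl⟩ := mem_img.1 hb'
  obtain ⟨c, h3, h4⟩ := h1 h2
  have h5 : c = b := Subtype.ext h4
  rw [← h5]
  exact h3

/-- Transport of a Laurent monomial. -/
theorem mx_coe (x : Fin r → M) (l : Fin r → ℤ) :
    ((∏ i, x i ^ l i : M) : Ω) = mx (fun i => (x i : Ω)) l := by
  have h := map_prod (algebraMap M Ω) (fun i => x i ^ l i) Finset.univ
  rw [show ((∏ i, x i ^ l i : M) : Ω) = algebraMap M Ω (∏ i, x i ^ l i) from rfl, h, mx]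
  exact Finset.prod_congr rfl fun i _ => by rw [map_zpow₀]; rfl

theorem mx_e (ψ : VIso v M M') (x : Fin r → M) (l : Fin r → ℤ) :
    (ψ.e (∏ i, x i ^ l i) : Ω) = mx (fun i => (ψ.e (x i) : Ω)) l := by
  rw [map_prod, ← mx_coe]
  congr 1
  exact Finset.prod_congr rfl fun i _ => by rw [map_zpow₀]

/-- The combination `∑ c_α^p t^α` in a field. -/
def pcM {p n : ℕ} (t : Fin n → M) (c : (Fin n → Fin p) → M) : M :=
  ∑ α, c α ^ p * ∏ i, t i ^ (α i : ℕ)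

theorem pcM_coe {p n : ℕ} (t : Fin n → M) (c : (Fin n → Fin p) → M) :
    ((pcM t c : M) : Ω) = pcomb (fun i => (t i : Ω)) (fun α => (c α : Ω)) := by
  have h := map_sum (algebraMap M Ω) (fun α => c α ^ p * ∏ i, t i ^ (α i : ℕ)) Finset.univ
  rw [show ((pcM t c : M) : Ω) = algebraMap M Ω (∑ α, c α ^ p * ∏ i, t i ^ (α i : ℕ)) from rfl, h,
    pcomb]
  refine Finset.sum_congr rfl fun α _ => ?_
  rw [map_mul, map_pow, map_prod, mon]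
  congr 1

theorem pcM_e (ψ : VIso v M M') {p n : ℕ} (t : Fin n → M) (c : (Fin n → Fin p) → M) :
    (ψ.e (pcM t c) : Ω) = pcomb (fun i => (ψ.e (t i) : Ω)) (fun α => (ψ.e (c α) : Ω)) := by
  rw [← pcM_coe]
  congr 1
  rw [pcM, pcM, map_sum]
  refine Finset.sum_congr rfl fun α _ => ?_
  rw [map_mul, map_pow, map_prod]
  congr 1
  exact Finset.prod_congr rfl fun i _ => by rw [map_pow]

theorem mon_e (ψ : VIso v M M') {p n : ℕ} (t : Fin n → M) (c : M) (α : Fin n → Fin p) (C : ℝ) :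
    (v.Ge C ((ψ.e c : Ω) ^ p * mon (fun i => (ψ.e (t i) : Ω)) α) ↔
      v.Ge C ((c : Ω) ^ p * mon (fun i => (t i : Ω)) α)) := by
  have h1 : ((c ^ p * ∏ i, t i ^ (α i : ℕ) : M) : Ω) =
      (c : Ω) ^ p * mon (fun i => (t i : Ω)) α := by
    have h2 := map_mul (algebraMap M Ω) (c ^ p) (∏ i, t i ^ (α i : ℕ))
    rw [show ((c ^ p * ∏ i, t i ^ (α i : ℕ) : M) : Ω) =
      algebraMap M Ω (c ^ p * ∏ i, t i ^ (α i : ℕ)) from rfl, h2, map_pow, map_prod, mon]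
    congr 1
  have h3 : (ψ.e (c ^ p * ∏ i, t i ^ (α i : ℕ)) : Ω) =
      (ψ.e c : Ω) ^ p * mon (fun i => (ψ.e (t i) : Ω)) α := by
    have h4 : ψ.e (c ^ p * ∏ i, t i ^ (α i : ℕ)) = (ψ.e c) ^ p * ∏ i, (ψ.e (t i)) ^ (α i : ℕ) := by
      rw [map_mul, map_pow, map_prod]
      congr 1
      exact Finset.prod_congr rfl fun i _ => by rw [map_pow]
    rw [h4]
    have h2 := map_mul (algebraMap M' Ω) ((ψ.e c) ^ p) (∏ i, (ψ.e (t i)) ^ (α i : ℕ))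
    rw [show (((ψ.e c) ^ p * ∏ i, (ψ.e (t i)) ^ (α i : ℕ) : M') : Ω) =
      algebraMap M' Ω ((ψ.e c) ^ p * ∏ i, (ψ.e (t i)) ^ (α i : ℕ)) from rfl, h2, map_pow, map_prod,
      mon]
    congr 1
  rw [← h1, ← h3]
  exact ψ.ge_iff

/-- Transport of `p`-bases. -/
theorem pbasis (φ : VIso v M M') {p n : ℕ} {t : Fin n → Ω} (ht : PBasis p M t) :
    PBasis p M' (fun i => (φ.e ⟨t i, ht.mem i⟩ : Ω)) where
  mem := fun i => (φ.e _).2
  span := by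
    intro u hu
    obtain ⟨c, hc, hcu⟩ := ht.span (φ.e.symm ⟨u, hu⟩ : Ω) (φ.e.symm ⟨u, hu⟩).2
    refine ⟨fun α => φ.e ⟨c α, hc α⟩, fun α => (φ.e _).2, ?_⟩
    have h1 := φ.pcM_e (fun i => ⟨t i, ht.mem i⟩) (fun α => ⟨c α, hc α⟩)
    have h2 : pcM (fun i => (⟨t i, ht.mem i⟩ : M)) (fun α => ⟨c α, hc α⟩) = φ.e.symm ⟨u, hu⟩ := by
      apply Subtype.ext
      rw [pcM_coe]
      exact hcu.symm
    rw [h2, φ.e.apply_symm_apply] at h1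
    exact h1
  ind := by
    intro c hc h0 α
    have h1 := φ.pcM_e (fun i => ⟨t i, ht.mem i⟩) (fun α => φ.e.symm ⟨c α, hc α⟩)
    have h2 : (fun α => (φ.e (φ.e.symm ⟨c α, hc α⟩) : Ω)) = c := by
      funext α
      rw [φ.e.apply_symm_apply]
    rw [h2, h0] at h1
    have h3 := (φ.coe_eq_zero _).1 h1
    rw [pcM_coe] at h3
    have h4 := ht.ind _ (fun α => (φ.e.symm ⟨c α, hc α⟩).2) h3 α
    have h5 := (φ.symm.coe_eq_zero ⟨c α, hc α⟩).1 h4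
    exact h5

/-- Transport of the distortion. -/
theorem orth (φ : VIso v M M') {p n : ℕ} {t : Fin n → Ω} (ht : ∀ i, t i ∈ M) {C : ℝ}
    (ho : Orth p v M t C) : Orth p v M' (fun i => (φ.e ⟨t i, ht i⟩ : Ω)) C := by
  intro c hc h0 α
  have h1 := φ.pcM_e (fun i => ⟨t i, ht i⟩) (fun α => φ.e.symm ⟨c α, hc α⟩)
  have h2 : (fun α => (φ.e (φ.e.symm ⟨c α, hc α⟩) : Ω)) = c := by
    funext α
    rw [φ.e.apply_symm_apply]
  rw [h2] at h1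
  set q := pcM (fun i => (⟨t i, ht i⟩ : M)) (fun α => φ.e.symm ⟨c α, hc α⟩) with hq
  have hq0 : (q : Ω) ≠ 0 := by
    intro h3
    apply h0
    rw [← h1]
    exact (φ.coe_eq_zero q).2 h3
  have h3 := ho (fun α => ((φ.e.symm ⟨c α, hc α⟩ : M) : Ω)) (fun α => (φ.e.symm _).2)
    (by rw [hq, pcM_coe] at hq0; exact hq0) α
  rw [← pcM_coe (fun i => (⟨t i, ht i⟩ : M)) (fun α => φ.e.symm ⟨c α, hc α⟩), ← hq,
    ← φ.val q hq0, h1] at h3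
  have h4 := (φ.mon_e (fun i => (⟨t i, ht i⟩ : M)) (φ.e.symm ⟨c α, hc α⟩) α
    (v (pcomb (fun i => (φ.e ⟨t i, ht i⟩ : Ω)) c) - C)).2 h3
  rw [φ.e.apply_symm_apply] at h4
  exact h4

/-! ## Coordinates -/

theorem fr_ext {F F' : Fr k v r D} (hx : F.x = F'.x) (hy : F.y = F'.y) : F = F' := by
  obtain ⟨x, y, h1, h2, h3, h4, h5⟩ := F
  obtain ⟨x', y', h1', h2', h3', h4', h5'⟩ := F'
  obtain rfl : x = x' := hx
  obtain rfl : y = y' := hy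
  rfl

/-- The image of coordinates. -/
noncomputable def fr (ψ : VIso v M M') (G : Fr k v r D) (hx : ∀ i, G.x i ∈ M)
    (hy : ∀ j, G.y j ∈ M) : Fr k v r D where
  x := fun i => ψ.e ⟨G.x i, hx i⟩
  y := fun j => ψ.e ⟨G.y j, hy j⟩
  x_ne := fun i h0 => G.x_ne i ((ψ.coe_eq_zero _).1 h0)
  x_ind := by
    have h1 : (fun i => v (ψ.e ⟨G.x i, hx i⟩ : Ω)) = fun i => v (G.x i) := by
      funext i
      exact ψ.val ⟨G.x i, hx i⟩ (G.x_ne i)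
    rw [h1]
    exact G.x_ind
  y_ne := fun j h0 => G.y_ne j ((ψ.coe_eq_zero _).1 h0)
  y_pos := fun j => by
    rw [ψ.val ⟨G.y j, hy j⟩ (G.y_ne j)]
    exact G.y_pos j
  alg := by
    have h0 : M.val ∘ (Sum.elim (fun i => (⟨G.x i, hx i⟩ : M)) (fun j => ⟨G.y j, hy j⟩)) =
        Sum.elim G.x G.y := by
      funext i
      rcases i with i | i <;> rfl
    have h1 : AlgebraicIndependent k
        (Sum.elim (fun i => (⟨G.x i, hx i⟩ : M)) (fun j => ⟨G.y j, hy j⟩)) := by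
      refine AlgebraicIndependent.of_comp M.val ?_
      rw [h0]
      exact G.alg
    have h2 := (h1.map' (f := (ψ.e : M →ₐ[k] M')) ψ.e.injective).map' (f := M'.val)
      Subtype.val_injective
    have h3 : M'.val ∘ (ψ.e : M →ₐ[k] M') ∘
        (Sum.elim (fun i => (⟨G.x i, hx i⟩ : M)) (fun j => ⟨G.y j, hy j⟩)) =
        Sum.elim (fun i => (ψ.e ⟨G.x i, hx i⟩ : Ω)) (fun j => (ψ.e ⟨G.y j, hy j⟩ : Ω)) := by
      funext i
      rcases i with i | i <;> rfl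
    rw [h3] at h2
    exact h2

variable (ψ : VIso v M M') (G : Fr k v r D) (hx : ∀ i, G.x i ∈ M) (hy : ∀ j, G.y j ∈ M)

theorem fr_mx (l : Fin r → ℤ) : ∃ m : M, (m : Ω) = mx G.x l ∧
    (ψ.e m : Ω) = mx (ψ.fr G hx hy).x l :=
  ⟨∏ i, (⟨G.x i, hx i⟩ : M) ^ l i, mx_coe _ l, ψ.mx_e _ l⟩

include hx hy in
theorem P_le_OV (h : Ctx0 k v) : G.P ≤ OV v M := by
  rw [Fr.P, ksub, Subring.closure_le]
  rintro s (⟨c, rfl⟩ | ⟨l, rfl, h0⟩ | ⟨j, rfl⟩)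
  · exact ⟨M.algebraMap_mem c, h.ge c⟩
  · exact ⟨prod_mem fun i _ => zpow_mem (hx i) _, fun _ => h0⟩
  · exact ⟨hy j, fun _ => (G.y_pos j).le⟩

theorem mx_ne (F : Fr k v r D) (l : Fin r → ℤ) : mx F.x l ≠ 0 :=
  Finset.prod_ne_zero_iff.2 fun i _ => zpow_ne_zero _ (F.x_ne i)

theorem fr_P_aux : ψ.img G.P ≤ (ψ.fr G hx hy).P := by
  rw [Fr.P, ksub]
  refine ψ.img_closure_le ?_
  rintro s (⟨c, rfl⟩ | ⟨l, rfl, h0⟩ | ⟨j, rfl⟩)
  · refine ⟨algebraMap k M c, rfl, ?_⟩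
    rw [ψ.e.commutes]
    exact Subring.subset_closure (Or.inl ⟨c, rfl⟩)
  · obtain ⟨m, h1, h2⟩ := ψ.fr_mx G hx hy l
    refine ⟨m, h1, ?_⟩
    rw [h2]
    refine Subring.subset_closure (Or.inr (Or.inl ⟨l, rfl, ?_⟩))
    rw [← h2, ψ.val m (by rw [h1]; exact mx_ne G l), h1]
    exact h0
  · exact ⟨⟨G.y j, hy j⟩, rfl, Subring.subset_closure (Or.inr (Or.inr ⟨j, rfl⟩))⟩

theorem fr_x_mem (i : Fin r) : (ψ.fr G hx hy).x i ∈ M' := (ψ.e ⟨G.x i, hx i⟩).2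

theorem fr_y_mem (j : Fin D) : (ψ.fr G hx hy).y j ∈ M' := (ψ.e ⟨G.y j, hy j⟩).2

theorem fr_symm : ψ.symm.fr (ψ.fr G hx hy) (ψ.fr_x_mem G hx hy) (ψ.fr_y_mem G hx hy) = G := by
  have h1 : (ψ.symm.fr (ψ.fr G hx hy) (ψ.fr_x_mem G hx hy) (ψ.fr_y_mem G hx hy)).x = G.x := by
    funext i
    show ((ψ.e.symm (ψ.e ⟨G.x i, hx i⟩) : M) : Ω) = G.x i
    rw [ψ.e.symm_apply_apply]
  have h2 : (ψ.symm.fr (ψ.fr G hx hy) (ψ.fr_x_mem G hx hy) (ψ.fr_y_mem G hx hy)).y = G.y := by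
    funext j
    show ((ψ.e.symm (ψ.e ⟨G.y j, hy j⟩) : M) : Ω) = G.y j
    rw [ψ.e.symm_apply_apply]
  exact fr_ext h1 h2

theorem fr_P (h : Ctx0 k v) : (ψ.fr G hx hy).P = ψ.img G.P := by
  refine le_antisymm ?_ (ψ.fr_P_aux G hx hy)
  have h1 := ψ.symm.fr_P_aux (ψ.fr G hx hy) (ψ.fr_x_mem G hx hy) (ψ.fr_y_mem G hx hy)
  rw [ψ.fr_symm G hx hy] at h1
  have h2 := ψ.img_mono h1
  have h3 : ψ.img (ψ.symm.img (ψ.fr G hx hy).P) = (ψ.fr G hx hy).P :=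
    ψ.symm.img_symm_img fun b hb =>
      (P_le_OV (ψ.fr G hx hy) (ψ.fr_x_mem G hx hy) (ψ.fr_y_mem G hx hy) h hb).1
  rwa [h3] at h2

variable [IsAlgClosed Ω]

theorem fr_H (h : Ctx0 k v) (hM : hen v M = M) (hM' : hen v M' = M') :
    (ψ.fr G hx hy).H = ψ.img G.H := by
  rw [Fr.H, ψ.fr_P G hx hy h, ψ.hensA_img h hM hM' (P_le_OV G hx hy h)]
  rfl

theorem fr_H_mem (h : Ctx0 k v) (hM : hen v M = M) (hM' : hen v M' = M') {b : M} :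
    (ψ.e b : Ω) ∈ (ψ.fr G hx hy).H ↔ (b : Ω) ∈ G.H := by
  rw [ψ.fr_H G hx hy h hM hM', mem_img_coe]

include hx hy in
theorem H_le_M (h : Ctx0 k v) (hM : hen v M = M) {b : Ω} (hb : b ∈ G.H) : b ∈ M :=
  (hensA_le' (P_le_OV G hx hy h) (hclosed_OV h hM) hb).1

theorem fr_InHx (h : Ctx0 k v) (hM : hen v M = M) (hM' : hen v M' = M') {f : M} :
    (ψ.fr G hx hy).InHx (ψ.e f) ↔ G.InHx f := by
  constructor
  · rintro ⟨l, hl⟩
    obtain ⟨m, h1, h2⟩ := ψ.fr_mx G hx hy l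
    refine ⟨l, ?_⟩
    rw [← h1]
    have h3 : (ψ.e (m * f) : Ω) ∈ (ψ.fr G hx hy).H := by
      rw [map_mul]
      show (ψ.e m : Ω) * (ψ.e f : Ω) ∈ _
      rw [h2]
      exact hl
    exact (ψ.fr_H_mem G hx hy h hM hM').1 h3
  · rintro ⟨l, hl⟩
    obtain ⟨m, h1, h2⟩ := ψ.fr_mx G hx hy l
    refine ⟨l, ?_⟩
    rw [← h1] at hl
    have h3 : ((m * f : M) : Ω) ∈ G.H := hl
    have h4 := (ψ.fr_H_mem G hx hy h hM hM').2 h3
    rw [map_mul] at h4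
    rw [← h2]
    exact h4

include hx hy in
theorem InHx_mem (h : Ctx0 k v) (hM : hen v M = M) {f : Ω} (hf : G.InHx f) : f ∈ M := by
  obtain ⟨l, hl⟩ := hf
  have h1 := H_le_M G hx hy h hM hl
  have h2 : mx G.x l ∈ M := prod_mem fun i _ => zpow_mem (hx i) _
  have h3 : f = (mx G.x l)⁻¹ * (mx G.x l * f) := by
    rw [inv_mul_cancel_left₀ (mx_ne G l)]
  rw [h3]
  exact mul_mem (inv_mem h2) h1

theorem fr_Mono (h : Ctx0 k v) (hM : hen v M = M) (hM' : hen v M' = M') {f : M}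
    (hf : G.Mono f) : (ψ.fr G hx hy).Mono (ψ.e f) := by
  obtain ⟨l, w, hw, hw0, hvw, hfw⟩ := hf
  obtain ⟨m, h1, h2⟩ := ψ.fr_mx G hx hy l
  have hwM := H_le_M G hx hy h hM hw
  refine ⟨l, ψ.e ⟨w, hwM⟩, (ψ.fr_H_mem G hx hy h hM hM').2 hw,
    fun h0 => hw0 ((ψ.coe_eq_zero _).1 h0), ?_, ?_⟩
  · rw [ψ.val ⟨w, hwM⟩ hw0]
    exact hvw
  · rw [← h2]
    have h3 : f = m * ⟨w, hwM⟩ := Subtype.ext (by rw [hfw, ← h1]; rfl)
    rw [h3, map_mul]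
    rfl

theorem fr_InFrac (h : Ctx0 k v) (hM : hen v M = M) (hM' : hen v M' = M') {f : M}
    (hf : InFrac G.H (f : Ω)) : InFrac (ψ.fr G hx hy).H (ψ.e f : Ω) := by
  obtain ⟨a, ha, b, hb, hb0, hf⟩ := hf
  have haM := H_le_M G hx hy h hM ha
  have hbM := H_le_M G hx hy h hM hb
  refine ⟨ψ.e ⟨a, haM⟩, (ψ.fr_H_mem G hx hy h hM hM').2 ha, ψ.e ⟨b, hbM⟩,
    (ψ.fr_H_mem G hx hy h hM hM').2 hb, fun h0 => hb0 ((ψ.coe_eq_zero _).1 h0), ?_⟩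
  have h3 : f = ⟨a, haM⟩ / ⟨b, hbM⟩ := Subtype.ext (by rw [hf]; rfl)
  rw [h3, map_div₀]
  rfl

/-- Transport of local uniformization. -/
theorem lu {p : ℕ} (h : Ctx0 k v) {E E' : IntermediateField k Ω} (φ : VIso v E E')
    (hLU : LU p v r E) : LU p v r E' := by
  classical
  intro D t' ht' Z' hZ'
  set t : Fin (r + D) → Ω := fun i => (φ.symm.e ⟨t' i, ht'.mem i⟩ : Ω) with ht_def
  have ht : PBasis p E t := φ.symm.pbasis ht'
  set Z : Finset Ω := Finset.image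
    (fun z : {x // x ∈ Z'} => ((φ.symm.e ⟨z.1, (hZ' z.1 z.2).1⟩ : E) : Ω)) Z'.attach with hZ_def
  obtain ⟨G, hG, hmono, hPC⟩ := hLU D t ht Z (by
    intro z hz
    rw [hZ_def, Finset.mem_image] at hz
    obtain ⟨z', -, rfl⟩ := hz
    exact ⟨(φ.symm.e _).2, fun h0 => (hZ' z'.1 z'.2).2 ((φ.symm.coe_eq_zero _).1 h0)⟩)
  set ψ : VIso v (hen v E) (hen v E') := φ.ext with hψ
  have hM : hen v (hen v E) = hen v E := D2P.hen_hen E
  have hM' : hen v (hen v E') = hen v E' := D2P.hen_hen E'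
  have hx : ∀ i, G.x i ∈ hen v E := fun i => D2P.le_hen E (hG.x_mem i)
  have hy : ∀ j, G.y j ∈ hen v E := fun j => D2P.le_hen E (hG.y_mem j)
  have hbase : ∀ (a : E), (ψ.e ⟨a, D2P.le_hen E a.2⟩ : Ω) = φ.e a := fun a =>
    φ.ext_base a (D2P.le_hen E a.2)
  -- the elements of `E'`
  have hback : ∀ (a' : Ω) (ha' : a' ∈ E'),
      (ψ.e ⟨(φ.symm.e ⟨a', ha'⟩ : E), D2P.le_hen E (φ.symm.e ⟨a', ha'⟩).2⟩ : Ω) = a' := by
    intro a' ha'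
    rw [hbase]
    have h1 : φ.e (φ.symm.e ⟨a', ha'⟩) = ⟨a', ha'⟩ := φ.e.apply_symm_apply _
    rw [h1]
  refine ⟨ψ.fr G hx hy, ⟨fun i => ?_, fun j => ?_, fun e' he' => ?_⟩, fun z' hz' => ?_,
    fun i => ?_, fun f' hf' => ?_⟩
  · have h1 := hbase ⟨G.x i, hG.x_mem i⟩
    show (ψ.e ⟨G.x i, hx i⟩ : Ω) ∈ E'
    rw [h1]
    exact (φ.e _).2
  · have h1 := hbase ⟨G.y j, hG.y_mem j⟩
    show (ψ.e ⟨G.y j, hy j⟩ : Ω) ∈ E'
    rw [h1]
    exact (φ.e _).2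
  · have h1 := ψ.fr_InFrac G hx hy h hM hM' (f := ⟨(φ.symm.e ⟨e', he'⟩ : E),
      D2P.le_hen E (φ.symm.e ⟨e', he'⟩).2⟩) (hG.frac _ (φ.symm.e ⟨e', he'⟩).2)
    rwa [hback e' he'] at h1
  · have hz1 := (hZ' z' hz').1
    have h1 := ψ.fr_Mono G hx hy h hM hM' (f := ⟨(φ.symm.e ⟨z', hz1⟩ : E),
      D2P.le_hen E (φ.symm.e ⟨z', hz1⟩).2⟩) (hmono _ (by
        rw [hZ_def, Finset.mem_image]
        exact ⟨⟨z', hz'⟩, Finset.mem_attach _ _, rfl⟩))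
    rwa [hback z' hz1] at h1
  · have h1 := (ψ.fr_InHx G hx hy h hM hM' (f := ⟨t i, D2P.le_hen E (ht.mem i)⟩)).2 (hPC.mem i)
    rwa [hback (t' i) (ht'.mem i)] at h1
  · have hfM : f' ∈ hen v E' := InHx_mem (ψ.fr G hx hy) (ψ.fr_x_mem G hx hy)
      (ψ.fr_y_mem G hx hy) h hM' hf'
    set f : hen v E := ψ.e.symm ⟨f', hfM⟩ with hf
    have hef : ψ.e f = ⟨f', hfM⟩ := ψ.e.apply_symm_apply _
    have h1 : G.InHx (f : Ω) := by
      refine (ψ.fr_InHx G hx hy h hM hM').1 ?_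
      rw [hef]
      exact hf'
    obtain ⟨c, hc, hfc⟩ := hPC.span f h1
    have hcM : ∀ α, c α ∈ hen v E := fun α => InHx_mem G hx hy h hM (hc α)
    refine ⟨fun α => ψ.e ⟨c α, hcM α⟩, fun α => (ψ.fr_InHx G hx hy h hM hM').2 (hc α), ?_⟩
    have h2 := ψ.pcM_e (fun i => ⟨t i, D2P.le_hen E (ht.mem i)⟩) (fun α => ⟨c α, hcM α⟩)
    have h3 : pcM (fun i => (⟨t i, D2P.le_hen E (ht.mem i)⟩ : hen v E))
        (fun α => ⟨c α, hcM α⟩) = f := by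
      apply Subtype.ext
      rw [pcM_coe]
      exact hfc.symm
    rw [h3, hef] at h2
    have h4 : (fun i => (ψ.e ⟨t i, D2P.le_hen E (ht.mem i)⟩ : Ω)) = t' := by
      funext i
      exact hback (t' i) (ht'.mem i)
    rw [h4] at h2
    exact h2

end VIso

end Pool.Agent.TW
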