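import Pool.Agent.Lib.TW.P4a
import Pool.Agent.Lib.TW.Iso3

/-!
# TANK W, row P4b: transport of the distortion and of local uniformization along `s ↦ s'`
-/

set_option autoImplicit false

open Polynomial

namespace Pool.Agent.TW

open Pool.Agent.H15JM (RVal)
open Pool.Agent.LU1 (VPos adj)
open Pool.Agent.LUC (Cl clF lv)
open Pool.Agent.D2 (Ctx0)
open Pool.Agent.D2P (hen rootF)

universe u

variable {k Ω : Type u} [Field k] [Field Ω] [Algebra k Ω] {v : RVal Ω} {r D : ℕ}

namespace P4bAux

/-- The polynomials `P_α` are determined by `∑ P_α^p X^α`. -/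
theorem decomp_ind (p : ℕ) [Fact p.Prime] [CharP k p] {n : ℕ}
    (P : (Fin n → Fin p) → MvPolynomial (Fin n) k)
    (h0 : ∑ α, P α ^ p * ∏ i, (MvPolynomial.X i) ^ (α i : ℕ) = 0) (α : Fin n → Fin p) :
    P α = 0 := by
  classical
  have hp : 0 < p := (Fact.out : p.Prime).pos
  set ex : (Fin n → Fin p) → (Fin n →₀ ℕ) := fun β => Finsupp.equivFunOnFinite.symm
    fun i => (β i : ℕ) with hex
  have hmon : ∀ β : Fin n → Fin p, ∏ i, (MvPolynomial.X i : MvPolynomial (Fin n) k) ^ (β i : ℕ) =
      MvPolynomial.monomial (ex β) 1 := by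
    intro β
    rw [MvPolynomial.monomial_eq, MvPolynomial.C_1, one_mul,
      Finsupp.prod_fintype _ _ (fun i => pow_zero _)]
    rfl
  ext m
  rw [MvPolynomial.coeff_zero]
  have h1 := congrArg (MvPolynomial.coeff (p • m + ex α)) h0
  rw [MvPolynomial.coeff_sum, MvPolynomial.coeff_zero, Finset.sum_eq_single α] at h1
  · rw [hmon, MvPolynomial.coeff_mul_monomial, mul_one] at h1
    have h2 : (P α ^ p).coeff (p • m) = ((P α).coeff m) ^ p := by
      rw [← MvPolynomial.map_frobenius_expand, MvPolynomial.coeff_map,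
        MvPolynomial.coeff_expand_smul p hp.ne', frobenius_def]
    rw [h2] at h1
    exact pow_eq_zero_iff hp.ne' |>.1 h1
  · intro β _ hβ
    rw [hmon, MvPolynomial.coeff_mul_monomial']
    split_ifs with h3
    · rw [mul_one]
      by_contra h4
      obtain ⟨m', hm', -⟩ := P4.coeff_pow_char (Ω := k) p (P β) _ h4
      apply hβ
      funext i
      have h5 : p • m + ex α = p • m' + ex β := by
        rw [← hm', tsub_add_cancel_of_le h3]
      have h6 := DFunLike.congr_fun h5 i
      rw [Finsupp.add_apply, Finsupp.add_apply, Finsupp.smul_apply, Finsupp.smul_apply] at h6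
      have h7 : ex α i = (α i : ℕ) := rfl
      have h8 : ex β i = (β i : ℕ) := rfl
      rw [h7, h8, smul_eq_mul, smul_eq_mul] at h6
      apply Fin.ext
      have h9 : (β i : ℕ) % p = (α i : ℕ) % p := by
        have h10 := congrArg (· % p) h6
        simp only [Nat.mul_add_mod] at h10
        exact h10.symm
      rwa [Nat.mod_eq_of_lt (β i).2, Nat.mod_eq_of_lt (α i).2] at h9
    · rfl
  · intro h
    exact absurd (Finset.mem_univ α) h

/-- Fractions of polynomials. -/
theorem exists_frac {n : ℕ} {s : Fin n → Ω} (hs : AlgebraicIndependent k s) {a : Ω}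
    (ha : a ∈ IntermediateField.adjoin k (Set.range s)) :
    ∃ P Q : MvPolynomial (Fin n) k, MvPolynomial.aeval s Q ≠ 0 ∧
      a = MvPolynomial.aeval s P / MvPolynomial.aeval s Q := by
  obtain ⟨P, Q, hQ, hPQ⟩ := IsFractionRing.div_surjective (A := MvPolynomial (Fin n) k)
    (hs.aevalEquivField.symm ⟨a, ha⟩)
  have hQ0 : Q ≠ 0 := nonZeroDivisors.ne_zero hQ
  refine ⟨P, Q, fun h0 => hQ0 (hs.eq_zero_of_aeval_eq_zero Q h0), ?_⟩
  have h1 := congrArg hs.aevalEquivField hPQ
  rw [AlgEquiv.apply_symm_apply, map_div₀] at h1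
  have h2 := congrArg (Subtype.val) h1
  rw [← hs.aevalEquivField_algebraMap_apply_coe P, ← hs.aevalEquivField_algebraMap_apply_coe Q]
  exact h2.symm

/-- `s` is a `p`-basis of `k(s)`. -/
theorem pbasis_adj [IsAlgClosed k] (p : ℕ) [Fact p.Prime] [CharP k p] {n : ℕ} {s : Fin n → Ω}
    (hs : AlgebraicIndependent k s) :
    PBasis p (IntermediateField.adjoin k (Set.range s)) s := by
  classical
  have hp : 0 < p := (Fact.out : p.Prime).pos
  have hmem : ∀ i, s i ∈ IntermediateField.adjoin k (Set.range s) := fun i =>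
    IntermediateField.subset_adjoin _ _ ⟨i, rfl⟩
  refine ⟨hmem, fun u hu => ?_, fun c hc h0 => ?_⟩
  · obtain ⟨P, Q, hQ, rfl⟩ := exists_frac hs hu
    obtain ⟨R, -, hR⟩ := P4.exists_decomp p (P * Q ^ (p - 1)) le_rfl
    refine ⟨fun α => MvPolynomial.aeval s (R α) / MvPolynomial.aeval s Q, fun α =>
      div_mem (P4.aeval_mem hmem _) (P4.aeval_mem hmem _), ?_⟩
    have h1 : pcomb s (fun α => MvPolynomial.aeval s (R α) / MvPolynomial.aeval s Q) =
        (pcomb s fun α => MvPolynomial.aeval s (R α)) / MvPolynomial.aeval s Q ^ p := by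
      rw [pcomb, pcomb, Finset.sum_div]
      refine Finset.sum_congr rfl fun α _ => ?_
      rw [div_pow]
      ring
    rw [h1, ← P4.aeval_decomp, ← hR, map_mul, map_pow, div_eq_div_iff hQ (pow_ne_zero _ hQ)]
    have h2 : MvPolynomial.aeval s Q ^ p =
        MvPolynomial.aeval s Q ^ (p - 1) * MvPolynomial.aeval s Q := by
      rw [← pow_succ, Nat.sub_add_cancel hp]
    rw [h2]
    ring
  · choose P Q hQ hPQ using fun α => exists_frac hs (hc α)
    set q : MvPolynomial (Fin n) k := ∏ α, Q α with hq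
    have hq0 : MvPolynomial.aeval s q ≠ 0 := by
      rw [hq, map_prod]
      exact Finset.prod_ne_zero_iff.2 fun α _ => hQ α
    set R : (Fin n → Fin p) → MvPolynomial (Fin n) k :=
      fun α => P α * ∏ β ∈ Finset.univ.erase α, Q β with hR
    have hcR : ∀ α, MvPolynomial.aeval s (R α) = c α * MvPolynomial.aeval s q := by
      intro α
      have h1 : q = Q α * ∏ β ∈ Finset.univ.erase α, Q β :=
        (Finset.mul_prod_erase _ _ (Finset.mem_univ α)).symm
      rw [h1, hR]
      simp only [map_mul]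
      rw [hPQ α]
      have := hQ α
      field_simp
    have h1 : MvPolynomial.aeval s
        (∑ α, R α ^ p * ∏ i, (MvPolynomial.X i : MvPolynomial (Fin n) k) ^ (α i : ℕ)) = 0 := by
      rw [P4.aeval_decomp]
      have h2 : (pcomb s fun α => MvPolynomial.aeval s (R α)) =
          MvPolynomial.aeval s q ^ p * pcomb s c := by
        rw [pcomb, pcomb, Finset.mul_sum]
        refine Finset.sum_congr rfl fun α _ => ?_
        rw [hcR, mul_pow]
        ring
      rw [h2, h0, mul_zero]
    intro α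
    have h2 := decomp_ind p R (hs.eq_zero_of_aeval_eq_zero _ h1) α
    have h3 := hcR α
    rw [h2, map_zero] at h3
    rcases mul_eq_zero.1 h3.symm with h4 | h4
    · exact h4
    · exact absurd h4 hq0


theorem append_eq {α : Type u} {r D : ℕ} (x : Fin r → α) (y : Fin D → α) :
    Fin.append x y = Sum.elim x y ∘ finSumFinEquiv.symm := by
  funext i
  refine Fin.addCases (fun i => ?_) (fun j => ?_) i
  · simp
  · simp

theorem s_alg (F : Fr k v r D) : AlgebraicIndependent k F.s := by
  rw [Fr.s, append_eq]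
  exact F.alg.comp _ finSumFinEquiv.symm.injective

theorem range_s (F : Fr k v r D) : Set.range F.s = Set.range F.x ∪ Set.range F.y := by
  rw [Fr.s, append_eq, Set.range_comp, finSumFinEquiv.symm.surjective.range_eq, Set.image_univ,
    Set.Sum.elim_range]

theorem K_eq (F : Fr k v r D) : F.K = IntermediateField.adjoin k (Set.range F.s) := by
  rw [Fr.K, range_s]

/-- The isometry given by two algebraically independent families on which the polynomials have the
same values. -/
theorem exists_viso {n : ℕ} {s s' : Fin n → Ω} (hs : AlgebraicIndependent k s)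
    (hs' : AlgebraicIndependent k s')
    (hv : ∀ P : MvPolynomial (Fin n) k, MvPolynomial.aeval s P ≠ 0 →
      v (MvPolynomial.aeval s' P) = v (MvPolynomial.aeval s P)) :
    ∃ φ : VIso v (IntermediateField.adjoin k (Set.range s))
        (IntermediateField.adjoin k (Set.range s')),
      ∀ (i : Fin n) (hi : s i ∈ IntermediateField.adjoin k (Set.range s)),
        (φ.e ⟨s i, hi⟩ : Ω) = s' i := by
  classical
  set e := hs.aevalEquivField.symm.trans hs'.aevalEquivField with he
  have key : ∀ P : MvPolynomial (Fin n) k,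
      ∀ (hP : MvPolynomial.aeval s P ∈ IntermediateField.adjoin k (Set.range s)),
      (e ⟨MvPolynomial.aeval s P, hP⟩ : Ω) = MvPolynomial.aeval s' P := by
    intro P hP
    have h1 : (⟨MvPolynomial.aeval s P, hP⟩ : IntermediateField.adjoin k (Set.range s)) =
        hs.aevalEquivField (algebraMap _ _ P) :=
      Subtype.ext (hs.aevalEquivField_algebraMap_apply_coe P).symm
    rw [h1, he, AlgEquiv.trans_apply, AlgEquiv.symm_apply_apply]
    exact hs'.aevalEquivField_algebraMap_apply_coe P
  refine ⟨⟨e, ?_⟩, ?_⟩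
  · intro a ha
    obtain ⟨P, Q, hPQ⟩ := IsFractionRing.div_surjective (A := MvPolynomial (Fin n) k)
      (hs.aevalEquivField.symm a)
    obtain ⟨hQ, hPQ⟩ := hPQ
    have hQ0 : Q ≠ 0 := nonZeroDivisors.ne_zero hQ
    have hPm : MvPolynomial.aeval s P ∈ IntermediateField.adjoin k (Set.range s) := by
      rw [← hs.aevalEquivField_algebraMap_apply_coe P]
      exact (hs.aevalEquivField _).2
    have hQm : MvPolynomial.aeval s Q ∈ IntermediateField.adjoin k (Set.range s) := by
      rw [← hs.aevalEquivField_algebraMap_apply_coe Q]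
      exact (hs.aevalEquivField _).2
    have ha' : a = ⟨MvPolynomial.aeval s P, hPm⟩ / ⟨MvPolynomial.aeval s Q, hQm⟩ := by
      have h1 : a = hs.aevalEquivField (hs.aevalEquivField.symm a) :=
        (hs.aevalEquivField.apply_symm_apply a).symm
      rw [h1, ← hPQ, map_div₀]
      congr 1
      · exact Subtype.ext (hs.aevalEquivField_algebraMap_apply_coe P)
      · exact Subtype.ext (hs.aevalEquivField_algebraMap_apply_coe Q)
    have hQs : MvPolynomial.aeval s Q ≠ 0 := by
      intro h0
      exact hQ0 (hs.eq_zero_of_aeval_eq_zero Q h0)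
    have hPs : MvPolynomial.aeval s P ≠ 0 := by
      intro h0
      apply ha
      rw [ha']
      show MvPolynomial.aeval s P / MvPolynomial.aeval s Q = 0
      rw [h0, zero_div]
    have hQs' : MvPolynomial.aeval s' Q ≠ 0 := fun h0 => hQ0 (hs'.eq_zero_of_aeval_eq_zero Q h0)
    have hPs' : MvPolynomial.aeval s' P ≠ 0 := by
      intro h0
      have h1 := hs'.eq_zero_of_aeval_eq_zero P h0
      apply hPs
      rw [h1, map_zero]
    have h2 : (e a : Ω) = MvPolynomial.aeval s' P / MvPolynomial.aeval s' Q := by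
      rw [ha', map_div₀]
      show (e ⟨MvPolynomial.aeval s P, hPm⟩ : Ω) / (e ⟨MvPolynomial.aeval s Q, hQm⟩ : Ω) = _
      rw [key, key]
    have h3 : (a : Ω) = MvPolynomial.aeval s P / MvPolynomial.aeval s Q := by
      rw [ha']
      rfl
    rw [h2, h3, v.map_div hPs' hQs', v.map_div hPs hQs, hv P hPs, hv Q hQs]
  · intro i hi
    have hm : MvPolynomial.aeval s (MvPolynomial.X i : MvPolynomial (Fin n) k) ∈
        IntermediateField.adjoin k (Set.range s) := by
      rw [MvPolynomial.aeval_X]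
      exact hi
    have h1 := key (MvPolynomial.X i) hm
    have h2 : (⟨s i, hi⟩ : IntermediateField.adjoin k (Set.range s)) =
        ⟨MvPolynomial.aeval s (MvPolynomial.X i : MvPolynomial (Fin n) k), hm⟩ :=
      Subtype.ext (MvPolynomial.aeval_X s i).symm
    show (e ⟨s i, hi⟩ : Ω) = s' i
    rw [h2, h1, MvPolynomial.aeval_X]

theorem viso_frames [IsAlgClosed Ω] [IsAlgClosed k] (p : ℕ) [Fact p.Prime] [CharP k p]
    [CharP Ω p] (h : Ctx k v r) (F F' : Fr k v r D) {ε δ : ℝ} (hε : 0 ≤ ε) (hδ : p * ε < δ)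
    (ho : Orth p v F.K F.s ε) (hs' : ∀ i, v.Ge δ (F'.s i / F.s i - 1)) :
    ∃ φ : VIso v F.K F'.K, ∀ (i : Fin (r + D)) (hi : F.s i ∈ F.K),
      (φ.e ⟨F.s i, hi⟩ : Ω) = F'.s i := by
  have hs0 : ∀ i, F.s i ≠ 0 := by
    intro i
    refine Fin.addCases (fun i => ?_) (fun j => ?_) i
    · rw [Fr.s, Fin.append_left]
      exact F.x_ne i
    · rw [Fr.s, Fin.append_right]
      exact F.y_ne j
  have hb : PBasis p F.K F.s := by
    rw [K_eq]
    exact pbasis_adj p (s_alg F)
  have h1 : ∀ P : MvPolynomial (Fin (r + D)) k, MvPolynomial.aeval F.s P ≠ 0 →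
      v (MvPolynomial.aeval F'.s P) = v (MvPolynomial.aeval F.s P) := by
    intro P hP
    have h2 := lam_poly p hs0 hb hε hδ ho P hP F'.s hs'
    by_cases h3 : MvPolynomial.aeval F'.s P - MvPolynomial.aeval F.s P = 0
    · rw [sub_eq_zero.1 h3]
    · have h4 := h2 h3
      have h5 := v.add_of_lt hP h3 (by linarith)
      have h6 : MvPolynomial.aeval F.s P +
          (MvPolynomial.aeval F'.s P - MvPolynomial.aeval F.s P) = MvPolynomial.aeval F'.s P := by
        ring
      rw [h6] at h5
      exact h5.2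
  rw [K_eq F, K_eq F']
  exact exists_viso (s_alg F) (s_alg F') h1

end P4bAux

open P4bAux

/-- The distortion of the new coordinates. -/
theorem lam_orth [IsAlgClosed Ω] [IsAlgClosed k] (p : ℕ) [Fact p.Prime] [CharP k p] [CharP Ω p]
    (h : Ctx k v r) (F F' : Fr k v r D) {ε δ : ℝ} (hε : 0 ≤ ε) (hδ : p * ε < δ)
    (ho : Orth p v F.K F.s ε) (hs' : ∀ i, v.Ge δ (F'.s i / F.s i - 1)) :
    Orth p v F'.K F'.s ε := by
  obtain ⟨φ, hφ⟩ := viso_frames p h F F' hε hδ ho hs'
  have hmem : ∀ i, F.s i ∈ F.K := by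
    intro i
    rw [K_eq]
    exact IntermediateField.subset_adjoin _ _ ⟨i, rfl⟩
  have h1 := φ.orth hmem ho
  have h2 : (fun i => (φ.e ⟨F.s i, hmem i⟩ : Ω)) = F'.s := funext fun i => hφ i (hmem i)
  rwa [h2] at h1

/-- Local uniformization is transported by the isometry `s ↦ s'`. -/
theorem lam_LU [IsAlgClosed Ω] [IsAlgClosed k] (p : ℕ) [Fact p.Prime] [CharP k p] [CharP Ω p]
    (h : Ctx k v r) (F F' : Fr k v r D) {ε δ : ℝ} (hε : 0 ≤ ε) (hδ : p * ε < δ)
    (ho : Orth p v F.K F.s ε) (hs' : ∀ i, v.Ge δ (F'.s i / F.s i - 1)) (hLU : LU p v r F.K) :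
    LU p v r F'.K := by
  obtain ⟨φ, -⟩ := viso_frames p h F F' hε hδ ho hs'
  exact φ.lu h.toCtx0 hLU

end Pool.Agent.TW
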