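import Pool.Agent.Lib.TW.Tr
import Pool.Agent.Lib.D2P.A3a

/-!
# TANK W, row T1: henselian rationality of all fields with bounded derivations, from the purely
inseparable step
-/

set_option autoImplicit false

open Polynomial

namespace Pool.Agent.TW

open Pool.Agent.H15JM (RVal)
open Pool.Agent.LU1 (VPos adj)
open Pool.Agent.LUC (Cl clF)
open Pool.Agent.D2 (Ctx0)
open Pool.Agent.D2P

universe u

variable {k Ω : Type u} [Field k] [Field Ω] [Algebra k Ω] {v : RVal Ω}

/-! ## Subfields of corank one -/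

theorem trdeg_adjoin_le (G : Set Ω) :
    Algebra.trdeg k (IntermediateField.adjoin k G) ≤ Cardinal.mk G := by
  set T := IntermediateField.adjoin k G with hT
  have hGT : ∀ g ∈ G, g ∈ T := fun g hg => IntermediateField.subset_adjoin _ _ hg
  set Z : Set T := {z | (z : Ω) ∈ G} with hZ
  have halgZ : ∀ a : T, IsAlgebraic (IntermediateField.adjoin k Z) a := by
    intro a
    refine LU3.R2b.alg_transfer T Z G (fun g hg => ?_) a (isAlgebraic_of_mem a.2)
    exact ⟨⟨g, hGT g hg⟩, IntermediateField.subset_adjoin _ _ hg, rfl⟩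
  refine (LU1.trdeg_le_of_isAlgebraic (k := k) Z ⟨halgZ⟩).trans ?_
  refine Cardinal.mk_le_of_injective (f := fun z : Z => (⟨((z : T) : Ω), z.2⟩ : G)) ?_
  intro a b hab
  exact Subtype.ext (Subtype.ext (congrArg (fun z : G => (z : Ω)) hab))

theorem trdeg_adjoin_eq {G : Set Ω} (hG : AlgebraicIndependent k (Subtype.val : G → Ω)) :
    Algebra.trdeg k (IntermediateField.adjoin k G) = Cardinal.mk G := by
  refine le_antisymm (trdeg_adjoin_le G) ?_
  have h1 : AlgebraicIndependent k (fun g : G =>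
      (⟨(g : Ω), IntermediateField.subset_adjoin _ _ g.2⟩ : IntermediateField.adjoin k G)) :=
    AlgebraicIndependent.of_comp (IntermediateField.adjoin k G).val hG
  have h2 := h1.lift_cardinalMk_le_trdeg
  simpa using h2

theorem Full.mono {E E' : IntermediateField k Ω} (h : E ≤ E') (hE : Full v E) : Full v E' := by
  intro g hg
  obtain ⟨m, hm, c, hc, h1⟩ := hE g hg
  exact ⟨m, hm, c, h hc, h1⟩

/-- A subfield with elements with spanning values is full. -/
theorem full_of_span {r : ℕ} {E : IntermediateField k Ω} {x : Fin r → Ω}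
    (hx : ∀ i, x i ∈ E ∧ x i ≠ 0)
    (hxv : ∀ g : Ω, g ≠ 0 → v g ∈ Submodule.span ℚ (Set.range fun i => v (x i))) :
    Full v E := by
  intro g hg
  obtain ⟨q, hq⟩ := (Submodule.mem_span_range_iff_exists_fun ℚ).1 (hxv g hg)
  have hD : 0 < ∏ i, (q i).den := Finset.prod_pos fun i _ => (q i).den_pos
  have hdvd : ∀ i, (q i).den ∣ ∏ i, (q i).den := fun i => Finset.dvd_prod_of_mem _ (Finset.mem_univ i)
  choose m hm using hdvd
  refine ⟨∏ i, (q i).den, hD, ∏ i, x i ^ ((m i : ℤ) * (q i).num),
    prod_mem fun i _ => zpow_mem (hx i).1 _,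
    Finset.prod_ne_zero_iff.2 fun i _ => zpow_ne_zero _ (hx i).2, ?_⟩
  rw [v.map_prod _ _ fun i _ => zpow_ne_zero _ (hx i).2, ← hq, Finset.mul_sum]
  refine Finset.sum_congr rfl fun i _ => ?_
  rw [v.map_zpow (hx i).2, Rat.smul_def]
  have h3 : ((q i : ℚ) : ℝ) * ((q i).den : ℝ) = ((q i).num : ℝ) := by
    exact_mod_cast Rat.mul_den_eq_num (q i)
  have h4 : ((∏ i, (q i).den : ℕ) : ℝ) = ((q i).den : ℝ) * (m i : ℝ) := by
    exact_mod_cast hm i
  rw [h4]
  push_cast
  rw [← h3]
  ring

/-- A finitely generated subfield of corank one and full rational rank. -/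
theorem exists_corank_one {r n : ℕ} (h : Ctx k v r) (hrn : r < n + 1) (E : IntermediateField k Ω)
    (hF : Full v E) (hEn : Algebra.trdeg k E = ((n + 1 : ℕ) : Cardinal)) :
    ∃ L₀ : IntermediateField k Ω, L₀ ≤ E ∧ L₀.FG ∧ Full v L₀ ∧ Algebra.trdeg k L₀ = n := by
  classical
  obtain ⟨x, hx, hxi, hxv⟩ := hF.exists_span h
  have hai : AlgebraicIndependent k x := TA.algInd_of_val h.triv (fun i => (hx i).2) hxi
  set x' : Fin r → E := fun i => ⟨x i, (hx i).1⟩ with hx'
  have hai' : AlgebraicIndependent k x' := AlgebraicIndependent.of_comp E.val hai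
  have hai'' : AlgebraicIndepOn k id (Set.range x') := by
    exact hai'.to_subtype_range
  obtain ⟨t, hst, ht⟩ := exists_isTranscendenceBasis_superset (R := k) (A := E) hai''
  have htc : Cardinal.mk t = ((n + 1 : ℕ) : Cardinal) := by
    rw [← hEn]
    exact ht.cardinalMk_eq_trdeg
  have hfin : Finite t := by
    rw [← Cardinal.lt_aleph0_iff_finite, htc]
    exact Cardinal.natCast_lt_aleph0
  have htf : t.Finite := hfin
  obtain ⟨y₀, hy₀t, hy₀⟩ : ∃ y₀ ∈ t, y₀ ∉ Set.range x' := by
    by_contra hno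
    push Not at hno
    have h1 : t ⊆ Set.range x' := hno
    have h2 := (Cardinal.mk_le_mk_of_subset h1).trans
      (by simpa using Cardinal.mk_range_le_lift (f := x') : Cardinal.mk (Set.range x') ≤ r)
    rw [htc] at h2
    have h3 := Nat.cast_le.1 h2
    omega
  set G : Set Ω := E.val '' (t \ {y₀}) with hG
  have hGai : AlgebraicIndependent k (Subtype.val : G → Ω) := by
    have h1 : AlgebraicIndependent k (Subtype.val : (t \ {y₀} : Set E) → E) := by
      have h2 := ht.1.comp (fun z : (t \ {y₀} : Set E) => (⟨z, z.2.1⟩ : t))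
        (fun a b hab => Subtype.ext (congrArg (fun z : t => (z : E)) hab))
      exact h2
    have h2 : AlgebraicIndependent k (E.val ∘ (Subtype.val : (t \ {y₀} : Set E) → E)) :=
      h1.map' (f := E.val) E.val.injective
    have h3 := h2.to_subtype_range
    have h4 : Set.range (E.val ∘ (Subtype.val : (t \ {y₀} : Set E) → E)) = G := by
      rw [Set.range_comp, Subtype.range_coe]
    rw [h4] at h3
    exact h3
  refine ⟨IntermediateField.adjoin k G, ?_, ?_, ?_, ?_⟩
  · rw [IntermediateField.adjoin_le_iff]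
    rintro _ ⟨z, -, rfl⟩
    exact z.2
  · exact IntermediateField.fg_adjoin_of_finite ((htf.subset Set.sdiff_subset).image _)
  · refine full_of_span (x := x) (fun i => ⟨?_, (hx i).2⟩) hxv
    refine IntermediateField.subset_adjoin _ _ ⟨x' i, ⟨hst ⟨i, rfl⟩, ?_⟩, rfl⟩
    rintro rfl
    exact hy₀ ⟨i, rfl⟩
  · rw [trdeg_adjoin_eq hGai, hG, Cardinal.mk_image_eq (f := (E.val : E → Ω))
      E.val.toRingHom.injective]
    have h1 := Cardinal.mk_sdiff_add_mk (Set.singleton_subset_iff.2 hy₀t)
    rw [htc, Cardinal.mk_singleton] at h1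
    have h2 : Cardinal.mk (t \ {y₀} : Set E) + 1 = (n : Cardinal) + 1 := by
      rw [h1]
      push_cast
      rfl
    exact Cardinal.add_one_inj.1 h2

/-! ## The `p ^ e`-th powers -/

section Pow

variable [IsAlgClosed k] (p e : ℕ) [Fact p.Prime] [CharP Ω p]

/-- The field of the `p ^ e`-th powers. -/
noncomputable def powF (N : IntermediateField k Ω) : IntermediateField k Ω :=
  (N.toSubfield.map (iterateFrobenius Ω p e)).toIntermediateField (fun c => by
    obtain ⟨c', hc'⟩ := IsAlgClosed.exists_pow_nat_eq c (pow_pos (Fact.out : p.Prime).pos e)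
    refine ⟨algebraMap k Ω c', N.algebraMap_mem c', ?_⟩
    rw [iterateFrobenius_def, ← map_pow, hc'])

theorem mem_powF {N : IntermediateField k Ω} {a : Ω} :
    a ∈ powF p e N ↔ ∃ b ∈ N, b ^ p ^ e = a := by
  constructor
  · rintro ⟨b, hb, hba⟩
    exact ⟨b, hb, by rw [← iterateFrobenius_def, hba]⟩
  · rintro ⟨b, hb, rfl⟩
    exact ⟨b, hb, iterateFrobenius_def ..⟩

theorem powF_le (N : IntermediateField k Ω) : powF p e N ≤ N := by
  intro a ha
  obtain ⟨b, hb, rfl⟩ := (mem_powF p e).1 ha
  exact pow_mem hb _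

theorem powF_adj (N : IntermediateField k Ω) (z : Ω) :
    powF p e (adj N z) = adj (powF p e N) (z ^ p ^ e) := by
  apply le_antisymm
  · have h1 : adj N z ≤ rootF p e (adj (powF p e N) (z ^ p ^ e)) := by
      refine adj_le (fun a ha => ?_) ?_
      · rw [mem_rootF]
        exact (mem_adj_self _ _).2 ((mem_powF p e).2 ⟨a, ha, rfl⟩)
      · rw [mem_rootF]
        exact (mem_adj_self _ _).1
    intro a ha
    obtain ⟨b, hb, rfl⟩ := (mem_powF p e).1 ha
    exact mem_rootF.1 (h1 hb)
  · refine adj_le (fun a ha => ?_) ((mem_powF p e).2 ⟨z, (mem_adj_self N z).1, rfl⟩)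
    obtain ⟨b, hb, rfl⟩ := (mem_powF p e).1 ha
    exact (mem_powF p e).2 ⟨b, (mem_adj_self N z).2 hb, rfl⟩

theorem powF_fg {N : IntermediateField k Ω} (hN : N.FG) : (powF p e N).FG := by
  classical
  obtain ⟨S, hS⟩ := hN
  refine ⟨S.image fun s => s ^ p ^ e, le_antisymm ?_ ?_⟩
  · rw [IntermediateField.adjoin_le_iff]
    intro a ha
    obtain ⟨s, hs, rfl⟩ := Finset.mem_image.1 (Finset.mem_coe.1 ha)
    refine (mem_powF p e).2 ⟨s, ?_, rfl⟩
    rw [← hS]
    exact IntermediateField.subset_adjoin _ _ hs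
  · have h1 : N ≤ rootF p e (IntermediateField.adjoin k
        ((S.image fun s => s ^ p ^ e : Finset Ω) : Set Ω)) := by
      rw [← hS, IntermediateField.adjoin_le_iff]
      intro s hs
      exact IntermediateField.subset_adjoin _ _
        (Finset.mem_coe.2 (Finset.mem_image_of_mem _ (Finset.mem_coe.1 hs)))
    intro a ha
    obtain ⟨b, hb, rfl⟩ := (mem_powF p e).1 ha
    exact mem_rootF.1 (h1 hb)

theorem powF_full {N : IntermediateField k Ω} (hN : Full v N) : Full v (powF p e N) := by
  intro g hg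
  obtain ⟨m, hm, c, hc, hc0, h1⟩ := hN g hg
  refine ⟨p ^ e * m, Nat.mul_pos (pow_pos (Fact.out : p.Prime).pos e) hm, c ^ p ^ e,
    (mem_powF p e).2 ⟨c, hc, rfl⟩, pow_ne_zero _ hc0, ?_⟩
  rw [v.map_pow hc0, h1]
  push_cast
  ring

/-- Frobenius. -/
theorem hrone_powF [IsAlgClosed Ω] {N M : IntermediateField k Ω} {z : Ω} (hN : N.FG)
    (hF : Full v N) (hz : Transcendental N z) (hM : hen v M = hen v (adj N z)) :
    HRone v (powF p e M) := by
  refine ⟨powF p e N, z ^ p ^ e, powF_fg p e hN, powF_full p e hF, ?_, ?_⟩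
  · intro hz'
    apply hz
    exact isAlgebraic_of_pow (pow_pos (Fact.out : p.Prime).pos e)
      (isAlgebraic_mono (powF_le p e N) hz')
  · rw [← powF_adj]
    ext a
    rw [hen_pow p e (fun a => mem_powF p e) a, hen_pow p e (fun a => mem_powF p e) a, hM]

end Pow

/-! ## The climb -/

/-- T1: henselian rationality of all fields with bounded derivations, from the purely inseparable
step. -/
theorem hrone_all_of [IsAlgClosed Ω] [IsAlgClosed k] (p : ℕ) [Fact p.Prime] [CharP k p]
    [CharP Ω p] {r n : ℕ} (h : Ctx k v r) (hrn : r < n)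
    (hB1 : ∀ E B : IntermediateField k Ω, E.FG → BD p v E → B.FG → B ≤ E → ∀ e : ℕ,
      (∀ a ∈ E, a ^ p ^ e ∈ B) → BD p v B)
    (hPI : ∀ K₀ : IntermediateField k Ω, K₀.FG → Full v K₀ → Algebra.trdeg k K₀ = n →
      BD p v K₀ → HRone v K₀ → ∀ g : Ω, g ^ p ∈ K₀ → HRone v (adj K₀ g))
    (E : IntermediateField k Ω) (hE : E.FG) (hF : Full v E) (htr : Algebra.trdeg k E = n)
    (hBD : BD p v E) : HRone v E := by
  classical
  have hp : 0 < p := (Fact.out : p.Prime).pos
  obtain ⟨m, rfl⟩ : ∃ m, n = m + 1 := ⟨n - 1, by omega⟩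
  obtain ⟨L₀, hL₀E, hL₀fg, hL₀F, hL₀n⟩ := exists_corank_one h hrn E hF htr
  obtain ⟨e, N', hN'fg, hrN', hN'alg, z, hz, hlev⟩ := row_A p h E hE htr L₀ hL₀E hL₀fg hL₀F hL₀n
  have hN'F : Full v N' := Full.mono ((le_rootF L₀ e).trans hrN') hL₀F
  have hpe : 0 < p ^ e := pow_pos hp e
  set N := E ⊔ rootF p e L₀ with hNdef
  have hNE : N ≤ rootF p e E := by
    refine sup_le (le_rootF E e) ?_
    intro a ha
    rw [mem_rootF] at ha ⊢
    exact hL₀E ha
  set E' : IntermediateField k Ω := powF p e N with hE'def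
  have hE'r : HRone v E' := hrone_powF p e hN'fg hN'F hz hlev
  have hE'E : E' ≤ E := by
    intro a ha
    obtain ⟨b, hb, rfl⟩ := (mem_powF p e).1 ha
    exact mem_rootF.1 (hNE hb)
  have hEp : ∀ a ∈ E, a ^ p ^ e ∈ E' := fun a ha =>
    (mem_powF p e).2 ⟨a, (le_sup_left : E ≤ N) ha, rfl⟩
  have hE'fg : E'.FG := powF_fg p e (IntermediateField.fg_sup hE (rootF_fg p hL₀fg e))
  have hE'F : Full v E' := powF_full p e (Full.mono le_sup_left hF)
  -- the fields between `E'` and `E`
  have hmid : ∀ B : IntermediateField k Ω, E' ≤ B → B ≤ E → B.FG →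
      Full v B ∧ Algebra.trdeg k B = ((m + 1 : ℕ) : Cardinal) ∧ BD p v B := by
    intro B h1 h2 h3
    refine ⟨hE'F.mono h1, ?_, hB1 E B hE hBD h3 h2 e fun a ha => h1 (hEp a ha)⟩
    rw [← htr]
    exact (trdeg_eq_of_alg h2 fun a ha =>
      isAlgebraic_of_pow hpe (isAlgebraic_of_mem (h1 (hEp a ha)))).symm
  have hroot : ∀ (j : ℕ) (B : IntermediateField k Ω), E' ≤ B → B ≤ E → B.FG → HRone v B →
      ∀ s ∈ E, s ^ p ^ j ∈ B → HRone v (adj B s) := by
    intro j
    induction j with
    | zero =>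
      intro B _ _ _ hB s _ hs
      rw [pow_zero, pow_one] at hs
      have h1 : adj B s = B := le_antisymm (adj_le le_rfl hs) (mem_adj_self B s).2
      rw [h1]
      exact hB
    | succ j ih =>
      intro B h1 h2 h3 hB s hsE hs
      have h4 : (s ^ p) ^ p ^ j ∈ B := by
        rw [← pow_mul, ← pow_succ']
        exact hs
      have h5 := ih B h1 h2 h3 hB (s ^ p) (pow_mem hsE p) h4
      have hle : B ≤ adj B (s ^ p) := (mem_adj_self B (s ^ p)).2
      have hle' : adj B (s ^ p) ≤ E := adj_le h2 (pow_mem hsE p)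
      have hfg := fg_adj h3 (s ^ p)
      obtain ⟨h6, h7, h8⟩ := hmid _ (h1.trans hle) hle' hfg
      have h9 := hPI (adj B (s ^ p)) hfg h6 h7 h8 h5 s (mem_adj_self B (s ^ p)).1
      have h10 : adj (adj B (s ^ p)) s = adj B s := by
        apply le_antisymm
        · refine adj_le (adj_le (mem_adj_self B s).2 ?_) (mem_adj_self B s).1
          exact pow_mem (mem_adj_self B s).1 p
        · exact adj_le ((mem_adj_self B (s ^ p)).2.trans (mem_adj_self _ s).2)
            (mem_adj_self _ s).1
      rwa [h10] at h9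
  obtain ⟨S, hS⟩ := hE
  have hSE : ∀ s ∈ S, s ∈ E := fun s hs => by
    rw [← hS]
    exact IntermediateField.subset_adjoin _ _ hs
  have hall : ∀ T : Finset Ω, T ⊆ S →
      HRone v (E' ⊔ IntermediateField.adjoin k (T : Set Ω)) := by
    intro T
    induction T using Finset.induction_on with
    | empty =>
      intro _
      rw [Finset.coe_empty, IntermediateField.adjoin_empty, sup_bot_eq]
      exact hE'r
    | insert a T ha ih =>
      intro hT
      have h1 := ih ((Finset.subset_insert a T).trans hT)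
      have haS : a ∈ S := hT (Finset.mem_insert_self a T)
      have hTE : IntermediateField.adjoin k (T : Set Ω) ≤ E := by
        rw [IntermediateField.adjoin_le_iff]
        exact fun b hb => hSE b (hT (Finset.mem_insert_of_mem hb))
      have h2 := hroot e (E' ⊔ IntermediateField.adjoin k (T : Set Ω)) le_sup_left
        (sup_le hE'E hTE) (IntermediateField.fg_sup hE'fg (IntermediateField.fg_adjoin_finset T))
        h1 a (hSE a haS) ((le_sup_left : E' ≤ _) (hEp a (hSE a haS)))
      have h3 : adj (E' ⊔ IntermediateField.adjoin k (T : Set Ω)) a =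
          E' ⊔ IntermediateField.adjoin k ((insert a T : Finset Ω) : Set Ω) := by
        rw [adj, sup_assoc, ← IntermediateField.adjoin_union, Finset.coe_insert,
          Set.union_singleton]
      rwa [h3] at h2
  have h3 := hall S (Finset.Subset.refl S)
  have h4 : E' ⊔ IntermediateField.adjoin k (S : Set Ω) = E := by
    rw [hS]
    exact sup_eq_right.2 hE'E
  rwa [h4] at h3

/-- T1, with the statement of the purely inseparable step. -/
theorem hrone_all [IsAlgClosed Ω] [IsAlgClosed k] (p : ℕ) [Fact p.Prime] [CharP k p]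
    [CharP Ω p] {r n : ℕ} (h : Ctx k v r) (hrn : r < n)
    (hB1 : ∀ E B : IntermediateField k Ω, E.FG → BD p v E → B.FG → B ≤ E → ∀ e : ℕ,
      (∀ a ∈ E, a ^ p ^ e ∈ B) → BD p v B)
    (hLU : ∀ E : IntermediateField k Ω, E.FG → Full v E → Algebra.trdeg k E ≤ n → BD p v E →
      (Algebra.trdeg k E < n ∨ HRone v E) → LU p v r E)
    (hPI : PIstep p v k r n)
    (E : IntermediateField k Ω) (hE : E.FG) (hF : Full v E) (htr : Algebra.trdeg k E = n)
    (hBD : BD p v E) : HRone v E :=
  hrone_all_of p h hrn hB1 (fun K₀ h1 h2 h3 h4 h5 => hPI K₀ h1 h2 h3 h4 h5 hLU) E hE hF htr hBD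

/-- The transcendence degree is at least the rational rank. -/
theorem Full.rank_le {r n : ℕ} (h : Ctx k v r) {E : IntermediateField k Ω} (hF : Full v E)
    (htr : Algebra.trdeg k E = n) : r ≤ n := by
  obtain ⟨x, hx, hxi, -⟩ := hF.exists_span h
  have hai : AlgebraicIndependent k x := TA.algInd_of_val h.triv (fun i => (hx i).2) hxi
  have hai' : AlgebraicIndependent k (fun i => (⟨x i, (hx i).1⟩ : E)) :=
    AlgebraicIndependent.of_comp E.val hai
  have h1 := hai'.lift_cardinalMk_le_trdeg
  rw [htr] at h1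
  simpa using h1

/-- THE INDUCTION: local uniformization of all fields with bounded derivations, from the Abhyankar
case, the fields `N(z)` (Theorem E*) and the purely inseparable step. -/
theorem lu_all [IsAlgClosed Ω] [IsAlgClosed k] (p : ℕ) [Fact p.Prime] [CharP k p]
    [CharP Ω p] {r : ℕ} (h : Ctx k v r)
    (hB1 : ∀ E B : IntermediateField k Ω, E.FG → BD p v E → B.FG → B ≤ E → ∀ e : ℕ,
      (∀ a ∈ E, a ^ p ^ e ∈ B) → BD p v B)
    (hbase : ∀ E : IntermediateField k Ω, E.FG → Full v E → Algebra.trdeg k E = r →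
      BD p v E → LU p v r E)
    (hstar : ∀ n : ℕ, r < n → (∀ E : IntermediateField k Ω, E.FG → Full v E →
      Algebra.trdeg k E < n → BD p v E → LU p v r E) →
      ∀ E : IntermediateField k Ω, E.FG → Full v E → Algebra.trdeg k E = n → BD p v E →
        HRone v E → LU p v r E)
    (n₀ : ℕ) (hPI : ∀ n : ℕ, r < n → n ≤ n₀ → PIstep p v k r n) (n : ℕ) (hn : n ≤ n₀)
    (E : IntermediateField k Ω) (hE : E.FG) (hF : Full v E) (htr : Algebra.trdeg k E = n)
    (hBD : BD p v E) : LU p v r E := by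
  induction n using Nat.strong_induction_on generalizing E with
  | _ n ih =>
    have hlt : ∀ E : IntermediateField k Ω, E.FG → Full v E →
        Algebra.trdeg k E < n → BD p v E → LU p v r E := by
      intro E' h1 h2 h3 h4
      obtain ⟨m, hm⟩ := Cardinal.lt_aleph0.1 (h3.trans Cardinal.natCast_lt_aleph0)
      rw [hm] at h3
      have h5 : m < n := Nat.cast_lt.1 h3
      exact ih m h5 (by omega) E' h1 h2 hm h4
    rcases (hF.rank_le h htr).eq_or_lt with h1 | h1
    · exact hbase E hE hF (by rw [htr, h1]) hBD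
    · have hn' : ∀ E : IntermediateField k Ω, E.FG → Full v E → Algebra.trdeg k E ≤ n →
          BD p v E → (Algebra.trdeg k E < n ∨ HRone v E) → LU p v r E := by
        intro E' h2 h3 h4 h5 h6
        rcases h4.lt_or_eq with h7 | h7
        · exact hlt E' h2 h3 h7 h5
        · rcases h6 with h6 | h6
          · exact absurd h7 h6.ne
          · exact hstar n h1 hlt E' h2 h3 h7 h5 h6
      exact hstar n h1 hlt E hE hF htr hBD (hrone_all p h h1 hB1 hn' (hPI n h1 hn) E hE hF htr hBD)

end Pool.Agent.TW
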