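import Pool.Agent.Lib.TW.EDefs
import Pool.Agent.Lib.TW.P4b
import Pool.Agent.Lib.TW.T1
import Pool.Agent.Lib.TW.B2

/-!
# TANK W, row BA: `p`-bases
-/

set_option autoImplicit false

open Polynomial

namespace Pool.Agent.TW

open Pool.Agent.H15JM (RVal)
open Pool.Agent.LU1 (VPos adj)
open Pool.Agent.LUC (Cl clF)
open Pool.Agent.D2 (Ctx0)
open Pool.Agent.D2P (hen rootF)

universe u

variable {k Ω : Type u} [Field k] [Field Ω] [Algebra k Ω] {v : RVal Ω} {r D : ℕ}

/-- Powers are continuous. -/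
theorem near_pow (v : RVal Ω) (x : Ω) (m : ℕ) (b : ℝ) :
    ∃ M : ℝ, ∀ a : Ω, v.Ge M (x - a) → v.Ge b (x ^ m - a ^ m) := by
  induction m generalizing b with
  | zero =>
    exact ⟨0, fun a _ => by rw [pow_zero, pow_zero, sub_self]; exact RVal.Ge.zero⟩
  | succ m ih =>
    obtain ⟨M₁, h1⟩ := ih (b - v x)
    set c : ℝ := min (v x) 0
    refine ⟨max M₁ (max 0 (b - m * c)), fun a ha => ?_⟩
    have h2 : v.Ge c a := by
      have h3 : a = x - (x - a) := by ring
      rw [h3]
      refine RVal.Ge.sub ((RVal.ge_self x).mono (min_le_left _ _)) (ha.mono ?_)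
      exact (min_le_right _ _).trans ((le_max_left _ _).trans (le_max_right _ _))
    have h3 : v.Ge (m * c) (a ^ m) := by
      clear ha h1 ih
      induction m with
      | zero => intro _; rw [pow_zero, v.map_one]; simp
      | succ m ih =>
        rw [pow_succ]
        exact (ih.mul h2).mono (by push_cast; linarith)
    have h4 : x ^ (m + 1) - a ^ (m + 1) = (x ^ m - a ^ m) * x + a ^ m * (x - a) := by ring
    rw [h4]
    refine RVal.Ge.add ?_ ?_
    · exact ((h1 a (ha.mono (le_max_left _ _))).mul (RVal.ge_self x)).mono (by linarith)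
    · refine (h3.mul (ha.mono ((le_max_right _ _).trans (le_max_right _ _)))).mono (by linarith)

theorem Orth.of_cl {p : ℕ} {E E' : IntermediateField k Ω} {n : ℕ} {t : Fin n → Ω} {C : ℝ}
    (ho : Orth p v E t C) (hE : ∀ a ∈ E', a ∈ Cl v E.toSubfield) : Orth p v E' t C := by
  intro c hc h0 α hα
  set B : ℝ := max (v (pcomb t c) + 1) (v (c α ^ p * mon t α) + 1)
  have key : ∀ β, ∃ a ∈ E, v.Ge (B - v (mon t β)) (c β ^ p - a ^ p) := by
    intro β
    obtain ⟨M, hM⟩ := near_pow v (c β) p (B - v (mon t β))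
    obtain ⟨a, ha, h1⟩ := hE _ (hc β) M
    exact ⟨a, ha, hM a h1⟩
  choose a ha hac using key
  have hdiff : ∀ β, v.Ge B (c β ^ p * mon t β - a β ^ p * mon t β) := fun β => by
    rw [← sub_mul]
    exact ((hac β).mul (RVal.ge_self (mon t β))).mono (by linarith)
  have h1 : v.Ge B (pcomb t c - pcomb t a) := by
    unfold pcomb
    rw [← Finset.sum_sub_distrib]
    exact RVal.Ge.sum _ _ fun β _ => hdiff β
  have near : ∀ {x y : Ω}, x ≠ 0 → v x < B → v.Ge B (x - y) → y ≠ 0 ∧ v y = v x := by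
    intro x y hx hxB hxy
    by_cases hd : x - y = 0
    · rw [sub_eq_zero] at hd
      subst hd
      exact ⟨hx, rfl⟩
    · have h2 := v.add_of_lt hx (neg_ne_zero.2 hd) (by
        rw [v.map_neg _ hd]
        exact hxB.trans_le (hxy hd))
      have h3 : x + -(x - y) = y := by ring
      rwa [h3] at h2
  obtain ⟨h2, h3⟩ := near h0 (lt_of_lt_of_le (by linarith) (le_max_left _ _)) h1
  obtain ⟨h4, h5⟩ := near hα (lt_of_lt_of_le (by linarith) (le_max_right _ _)) (hdiff α)
  have h6 := ho a ha h2 α h4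
  rw [h3, h5] at h6
  exact h6

theorem Orth.mono {p : ℕ} {E E' : IntermediateField k Ω} {n : ℕ} {t : Fin n → Ω} {C : ℝ}
    (ho : Orth p v E t C) (hE : E' ≤ E) : Orth p v E' t C :=
  fun c hc => ho c fun α => hE (hc α)

theorem Orth.mono_right {p : ℕ} {E : IntermediateField k Ω} {n : ℕ} {t : Fin n → Ω} {C C' : ℝ}
    (ho : Orth p v E t C) (hC : C ≤ C') : Orth p v E t C' :=
  fun c hc h0 α => (ho c hc h0 α).mono (by linarith)

theorem Orth.any (p : ℕ) [Fact p.Prime] [CharP Ω p] {E : IntermediateField k Ω} {n m : ℕ}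
    {t : Fin n → Ω} {t' : Fin m → Ω} (ht : PBasis p E t) (ht' : PBasis p E t') {C : ℝ}
    (ho : Orth p v E t C) : ∃ C' : ℝ, 0 ≤ C' ∧ Orth p v E t' C' := by
  have hBD : BD p v E := ⟨n, t, ht, C, ho⟩
  obtain ⟨C', hC'⟩ := hBD.orth ht'
  exact ⟨max 0 C', le_max_left _ _, hC'.mono_right (le_max_right _ _)⟩

/-- `p`-bases and separable algebraic extensions -/
theorem PBasis.of_sep (p : ℕ) [Fact p.Prime] [CharP Ω p] {E E' : IntermediateField k Ω}
    (hle : E ≤ E') (hsep : ∀ a ∈ E', IsSeparable E a) {n : ℕ} {t : Fin n → Ω}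
    (ht : PBasis p E t) : PBasis p E' t := by
  refine ⟨fun i => hle (ht.mem i), fun u hu => ?_, fun c hc h0 α => ?_⟩
  · obtain ⟨c, hc, h1⟩ := ht.bas.span_sep hle hu (hsep u hu)
    choose a ha hac using fun j => mem_Qp.1 (hc j)
    refine ⟨a, ha, ?_⟩
    rw [h1]
    exact Finset.sum_congr rfl fun j _ => by rw [hac]
  · exact ht.ind_Qp.sep ht.mon_mem (fun j => hsep _ (hc j)) h0 α

theorem PBasis.hen (p : ℕ) [Fact p.Prime] [CharP Ω p] {E : IntermediateField k Ω} {n : ℕ}
    {t : Fin n → Ω} (ht : PBasis p E t) : PBasis p (D2P.hen v E) t :=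
  ht.of_sep p (D2P.le_hen _) fun _ ha => (D2P.mem_hen.1 ha).2

/-- a `p`-basis of a finitely generated field is a separating transcendence basis -/
theorem PBasis.trdeg [IsAlgClosed k] (p : ℕ) [Fact p.Prime] [CharP k p] [CharP Ω p]
    {E : IntermediateField k Ω} (hE : E.FG) {n : ℕ} {t : Fin n → Ω} (ht : PBasis p E t) :
    Algebra.trdeg k E = n ∧ AlgebraicIndependent k t ∧ ∀ a ∈ E, IsSeparable (kr k t) a := by
  have hai : AlgebraicIndependent k t := by
    rw [algebraicIndependent_iff]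
    exact fun P hP => P4.aeval_eq_zero p ht _ P le_rfl hP
  have hle : kr k t ≤ E := by
    rw [IntermediateField.adjoin_le_iff]
    rintro _ ⟨i, rfl⟩
    exact ht.mem i
  let _ : Algebra (kr k t) E := (IntermediateField.inclusion hle).toRingHom.toAlgebra
  have _ : IsScalarTower k (kr k t) E := IsScalarTower.of_algebraMap_eq fun _ => rfl
  have _ : IsScalarTower (kr k t) E Ω := IsScalarTower.of_algebraMap_eq fun _ => rfl
  have _ : Algebra.EssFiniteType k E := IntermediateField.essFiniteType_iff.2 hE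
  have _ : Algebra.EssFiniteType (kr k t) E := Algebra.EssFiniteType.of_comp k (kr k t) E
  have _ := charP_I p E
  have hmon : ∀ α : Fin n → Fin p, mon t α ∈ kr k t := fun α =>
    prod_mem fun i _ => pow_mem (IntermediateField.subset_adjoin _ _ (Set.mem_range_self i)) _
  have hD : ∀ x : E, KaehlerDifferential.D (kr k t) E x = 0 := by
    intro x
    obtain ⟨c, hc, h1⟩ := ht.span x x.2
    have h2 : x = ∑ α, (⟨c α, hc α⟩ : E) ^ p *
        algebraMap (kr k t) E (Subtype.mk (mon t α) (hmon α) : kr k t) := by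
      apply Subtype.ext
      rw [h1, pcomb, AddSubmonoidClass.coe_finsetSum]
      rfl
    rw [h2, map_sum]
    refine Finset.sum_eq_zero fun α _ => ?_
    rw [Derivation.leibniz, Derivation.map_algebraMap, smul_zero, zero_add,
      Derivation.leibniz_pow]
    have h3 : ((p : ℕ) : E) = 0 := CharP.cast_eq_zero E p
    rw [← Nat.cast_smul_eq_nsmul E, h3, zero_smul, smul_zero]
  have hsub : Subsingleton (Ω[E⁄(kr k t)]) := by
    have h1 : (⊤ : Submodule E (Ω[E⁄(kr k t)])) = ⊥ := by
      rw [← KaehlerDifferential.span_range_derivation, Submodule.span_eq_bot]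
      rintro _ ⟨x, rfl⟩
      exact hD x
    exact (Submodule.subsingleton_iff E).1 (subsingleton_of_bot_eq_top h1.symm)
  have hunr : Algebra.FormallyUnramified (kr k t) E := ⟨hsub⟩
  have hsep := (Algebra.FormallyUnramified.iff_isSeparable (kr k t) E).1 hunr
  refine ⟨?_, hai, fun a ha => ?_⟩
  · have h1 := _root_.trdeg_add_eq k (kr k t) (A := E)
    have h2 : Algebra.trdeg (kr k t) E = 0 := by
      have : Algebra.IsAlgebraic (kr k t) E := inferInstance
      exact trdeg_eq_zero
    rw [h2, add_zero] at h1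
    rw [← h1, trdeg_adjoin_eq hai.coe_range]
    have h3 := Cardinal.mk_range_eq_of_injective hai.injective
    simpa using h3
  · have h1 := hsep.isSeparable' (⟨a, ha⟩ : E)
    have h2 : minpoly (kr k t) (algebraMap E Ω ⟨a, ha⟩) = minpoly (kr k t) (⟨a, ha⟩ : E) :=
      minpoly.algebraMap_eq (algebraMap E Ω).injective _
    rw [IsSeparable] at h1 ⊢
    rw [← h2] at h1
    exact h1

theorem exists_pbasis [IsAlgClosed k] (p : ℕ) [Fact p.Prime] [CharP k p] [CharP Ω p]
    {E : IntermediateField k Ω} (hE : E.FG) {n : ℕ} (htr : Algebra.trdeg k E = n) :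
    ∃ t : Fin n → Ω, PBasis p E t := by
  obtain ⟨m, t, ht⟩ := exists_PBasis (p := p) hE
  have h1 := (ht.trdeg p hE).1
  rw [htr, Nat.cast_inj] at h1
  subst h1
  exact ⟨t, ht⟩

/-! ### Transcendental extensions -/

section Span

variable {ι : Type} [Fintype ι] {Q : Subfield Ω} {b : ι → Ω}

omit [Algebra k Ω] [Field k] in
theorem Spn.zero : Spn Q b 0 := ⟨fun _ => 0, fun _ => zero_mem _, by simp⟩

theorem Spn.add {x y : Ω} (hx : Spn Q b x) (hy : Spn Q b y) : Spn Q b (x + y) := by
  obtain ⟨c, hc, rfl⟩ := hx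
  obtain ⟨d, hd, rfl⟩ := hy
  refine ⟨fun j => c j + d j, fun j => add_mem (hc j) (hd j), ?_⟩
  rw [← Finset.sum_add_distrib]
  exact Finset.sum_congr rfl fun j _ => by ring

theorem Spn.smul {q x : Ω} (hq : q ∈ Q) (hx : Spn Q b x) : Spn Q b (q * x) := by
  obtain ⟨c, hc, rfl⟩ := hx
  refine ⟨fun j => q * c j, fun j => mul_mem hq (hc j), ?_⟩
  rw [Finset.mul_sum]
  exact Finset.sum_congr rfl fun j _ => by ring

theorem Spn.sum {κ : Type} (s : Finset κ) {f : κ → Ω} (hf : ∀ i ∈ s, Spn Q b (f i)) :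
    Spn Q b (∑ i ∈ s, f i) := by
  classical
  induction s using Finset.induction_on with
  | empty => rw [Finset.sum_empty]; exact Spn.zero
  | insert a s ha ih =>
    rw [Finset.sum_insert ha]
    exact (hf a (Finset.mem_insert_self _ _)).add
      (ih fun i hi => hf i (Finset.mem_insert_of_mem hi))

theorem Spn.self (i : ι) : Spn Q b (b i) := by
  classical
  refine ⟨fun j => if j = i then 1 else 0, fun j => ?_, by simp⟩
  show (if j = i then (1 : Ω) else 0) ∈ Q
  split_ifs
  exacts [one_mem _, zero_mem _]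

end Span

theorem mon_snoc {p n : ℕ} (t : Fin n → Ω) (z : Ω) (α : Fin (n + 1) → Fin p) :
    mon (Fin.snoc t z : Fin (n + 1) → Ω) α =
      mon t (fun i => α i.castSucc) * z ^ (α (Fin.last n) : ℕ) := by
  rw [mon, Fin.prod_univ_castSucc]
  simp [mon]

/-- `z` is not in `N(z^p)`. -/
theorem not_mem_adj_pow (p : ℕ) [Fact p.Prime] {N : IntermediateField k Ω} {z : Ω}
    (hz : Transcendental N z) : z ∉ LU1.adj N (z ^ p) := by
  have hp := (Fact.out : p.Prime)
  intro h
  rw [adj_eq, IntermediateField.mem_restrictScalars, IntermediateField.mem_adjoin_simple_iff] at h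
  obtain ⟨A, B, h1⟩ := h
  have hz0 : z ≠ 0 := by
    rintro rfl
    exact hz isAlgebraic_zero
  have hB0 : aeval (z ^ p) B ≠ 0 := by
    intro hB
    rw [hB, div_zero] at h1
    exact hz0 h1
  have h2 : aeval z (X * expand N p B - expand N p A) = 0 := by
    rw [map_sub, map_mul, aeval_X, expand_aeval, expand_aeval]
    rw [eq_div_iff hB0] at h1
    rw [h1, sub_self]
  have h3 : (X * expand N p B - expand N p A : N[X]) = 0 := by
    by_contra hne
    exact hz ⟨_, hne, h2⟩
  have h4 : B = 0 := by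
    ext i
    have h5 := congrArg (fun f => coeff f (i * p + 1)) h3
    simp only [coeff_sub, coeff_X_mul, coeff_zero] at h5
    rw [coeff_expand_mul hp.pos, coeff_expand hp.pos, if_neg, sub_zero] at h5
    · rw [h5, coeff_zero]
    · rw [Nat.dvd_add_right (dvd_mul_left _ _)]
      exact fun h => hp.one_lt.ne' (Nat.dvd_one.1 h)
  rw [h4, map_zero] at hB0
  exact hB0 rfl

theorem PBasis.adj (p : ℕ) [Fact p.Prime] [CharP Ω p] {N : IntermediateField k Ω} {z : Ω}
    (hz : Transcendental N z) {n : ℕ} {t : Fin n → Ω} (ht : PBasis p N t) :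
    PBasis p (LU1.adj N z) (Fin.snoc t z : Fin (n + 1) → Ω) := by
  have hp := (Fact.out : p.Prime)
  have hle : N ≤ LU1.adj N z := (D2P.mem_adj_self N z).2
  have hzE : z ∈ LU1.adj N z := (D2P.mem_adj_self N z).1
  have hmem : ∀ i, (Fin.snoc t z : Fin (n + 1) → Ω) i ∈ LU1.adj N z := by
    intro i
    refine Fin.lastCases ?_ (fun i => ?_) i
    · simpa using hzE
    · simpa using hle (ht.mem i)
  refine PBasis.of_bas hmem ⟨fun α => prod_mem fun i _ => pow_mem (hmem i) _, fun u hu => ?_, ?_⟩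
  · have key : ∀ F : N[X], Spn (Qp p (LU1.adj N z))
        (mon (p := p) (Fin.snoc t z : Fin (n + 1) → Ω)) (aeval z F) := by
      intro F
      rw [aeval_eq_sum_range]
      refine Spn.sum _ fun i _ => ?_
      obtain ⟨c, hc, h1⟩ := ht.span (F.coeff i) (F.coeff i).2
      rw [Algebra.smul_def]
      change Spn _ _ ((F.coeff i : Ω) * z ^ i)
      rw [h1, pcomb, Finset.sum_mul]
      refine Spn.sum _ fun α _ => ?_
      have h2 : c α ^ p * mon t α * z ^ i = (c α * z ^ (i / p)) ^ p *
          mon (Fin.snoc t z : Fin (n + 1) → Ω)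
            (Fin.snoc α (⟨i % p, Nat.mod_lt _ hp.pos⟩ : Fin p) : Fin (n + 1) → Fin p) := by
        rw [mon_snoc]
        simp only [Fin.snoc_castSucc, Fin.snoc_last]
        rw [mul_pow, ← pow_mul]
        conv_lhs => rw [← Nat.div_add_mod i p, pow_add]
        rw [mul_comm (i / p) p]
        ring
      rw [h2]
      exact Spn.smul (mem_Qp.2 ⟨_, mul_mem (hle (hc α)) (pow_mem hzE _), rfl⟩) (Spn.self _)
    have hu' : u ∈ LU1.adj N z := hu
    rw [adj_eq, IntermediateField.mem_restrictScalars,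
      IntermediateField.mem_adjoin_simple_iff] at hu'
    obtain ⟨A, B, rfl⟩ := hu'
    have h1 : aeval z A / aeval z B = ((aeval z B)⁻¹) ^ p * aeval z (A * B ^ (p - 1)) := by
      by_cases hB : aeval z B = 0
      · rw [hB, div_zero, inv_zero, zero_pow hp.ne_zero, zero_mul]
      · rw [map_mul, map_pow]
        have h2 : aeval z B ^ p = aeval z B * aeval z B ^ (p - 1) := by
          rw [← pow_succ', Nat.sub_add_cancel hp.one_le]
        rw [inv_pow, h2]
        field_simp
    rw [h1]
    refine Spn.smul (mem_Qp.2 ⟨_, inv_mem ?_, rfl⟩) (key _)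
    rw [adj_eq, IntermediateField.mem_restrictScalars]
    exact (IntermediateField.mem_adjoin_simple_iff N _).2 ⟨B, 1, by simp⟩
  · have hQ' : Qp p (LU1.adj N z) ≤ (LU1.adj N (z ^ p)).toSubfield := by
      intro x hx
      obtain ⟨c, hc, rfl⟩ := mem_Qp.1 hx
      show c ^ p ∈ LU1.adj N (z ^ p)
      rw [adj_eq, IntermediateField.mem_restrictScalars,
        IntermediateField.mem_adjoin_simple_iff] at hc ⊢
      obtain ⟨A, B, rfl⟩ := hc
      have _ := charP_I p N
      have hfr : ∀ A : N[X], (aeval z A) ^ p = aeval (z ^ p) (A.map (frobenius N p)) := by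
        intro A
        rw [← map_pow, ← map_frobenius_expand, ← expand_aeval, map_expand]
      exact ⟨_, _, by rw [div_pow, hfr, hfr]⟩
    have h1 := (bas_pow (Q := (LU1.adj N (z ^ p)).toSubfield) (p := p)
      (not_mem_adj_pow p hz) (D2P.mem_adj_self N (z ^ p)).1).ind
    have h2 := h1.prod (ht.ind_Qp.adj ht.mon_mem hz)
      (fun α => (D2P.mem_adj_self N (z ^ p)).2 (ht.mon_mem α)) hQ'
    have h3 := h2.reindex ((Fin.snocEquiv (fun _ : Fin (n + 1) => Fin p)).symm.trans
      (Equiv.prodComm _ _))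
    convert h3 using 1
    funext α
    rw [mon_snoc]
    rfl

end Pool.Agent.TW
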