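import Pool.Agent.Lib.TW.BA

/-!
# TANK W, row BB: bounded distortion
-/

set_option autoImplicit false

open Polynomial

namespace Pool.Agent.TW

open Pool.Agent.H15JM (RVal)
open Pool.Agent.LU1 (VPos adj)
open Pool.Agent.LUC (Cl clF)
open Pool.Agent.D2 (Ctx0)
open Pool.Agent.D2P (hen rootF)

universe u

variable {k Ω : Type u} [Field k] [Field Ω] [Algebra k Ω] {v : RVal Ω} {r D : ℕ}

theorem BD.hen (p : ℕ) [Fact p.Prime] [CharP Ω p] {E : IntermediateField k Ω}
    (hE : BD p v E) : BD p v (D2P.hen v E) := hE.hen'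

theorem BD.of_hen [IsAlgClosed k] (p : ℕ) [Fact p.Prime] [CharP k p] [CharP Ω p]
    {E : IntermediateField k Ω} (hE : E.FG) (h : BD p v (D2P.hen v E)) : BD p v E := by
  obtain ⟨n, t, ht⟩ := exists_PBasis (p := p) hE
  obtain ⟨C, hC⟩ := h.orth (ht.hen (v := v) p)
  exact ⟨n, t, ht, C, hC.mono (D2P.le_hen _)⟩

theorem BD.congr [IsAlgClosed k] (p : ℕ) [Fact p.Prime] [CharP k p] [CharP Ω p]
    {E E' : IntermediateField k Ω} (hE : BD p v E) (hE' : E'.FG)
    (hh : D2P.hen v E = D2P.hen v E') : BD p v E' := by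
  have h1 := hE.hen p
  rw [hh] at h1
  exact h1.of_hen p hE'

theorem BD.of_adj [IsAlgClosed k] (p : ℕ) [Fact p.Prime] [CharP k p] [CharP Ω p]
    {N : IntermediateField k Ω} (hN : N.FG) {z : Ω} (hz : Transcendental N z)
    (h : BD p v (LU1.adj N z)) : BD p v N := h.of_adj' hz hN

/-! ### Separable extensions -/

/-- Powers of an algebraic element. -/
theorem bas_adj_alg {M : IntermediateField k Ω} {θ : Ω} (hθ : IsIntegral M θ) :
    Bas M.toSubfield (LU1.adj M θ).toSubfield
      (fun j : Fin (minpoly M θ).natDegree => θ ^ (j : ℕ)) := by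
  refine ⟨fun i => pow_mem (D2P.mem_adj_self M θ).1 _, fun u hu => ?_, fun c hc h0 i => ?_⟩
  · have hu' : u ∈ LU1.adj M θ := hu
    rw [adj_eq, IntermediateField.mem_restrictScalars, ← IntermediateField.mem_toSubalgebra,
      IntermediateField.adjoin_simple_toSubalgebra_of_isAlgebraic hθ.isAlgebraic,
      Algebra.adjoin_singleton_eq_range_aeval] at hu'
    obtain ⟨f, rfl⟩ := hu'
    have h1 : aeval θ (f %ₘ minpoly M θ) = aeval θ f := by
      conv_rhs => rw [← modByMonic_add_div f (minpoly M θ)]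
      simp
    have h2 : (f %ₘ minpoly M θ).natDegree < (minpoly M θ).natDegree :=
      natDegree_modByMonic_lt f (minpoly.monic hθ) (minpoly.ne_one M θ)
    refine ⟨fun i => ((f %ₘ minpoly M θ).coeff i : Ω), fun i => Subtype.property _, ?_⟩
    change aeval θ f = _
    rw [← h1, aeval_eq_sum_range' h2, Finset.sum_range]
    rfl
  · let f : M[X] := ∑ j : Fin (minpoly M θ).natDegree, C (⟨c j, hc j⟩ : M) * X ^ (j : ℕ)
    have hf : aeval θ f = 0 := by
      rw [← h0, map_sum]
      refine Finset.sum_congr rfl fun j _ => ?_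
      rw [map_mul, aeval_C, map_pow, aeval_X]
      rfl
    have hfd : f.degree < (minpoly M θ).natDegree :=
      degree_sum_fin_lt fun j => (⟨c j, hc j⟩ : M)
    have hf0 : f = 0 := by
      by_contra hne
      have h1 := minpoly.degree_le_of_ne_zero M θ hne hf
      rw [degree_eq_natDegree (minpoly.ne_zero hθ)] at h1
      exact absurd (lt_of_le_of_lt h1 hfd) (lt_irrefl _)
    have h1 : f.coeff i = ⟨c i, hc i⟩ := by
      rw [finsetSum_coeff, Finset.sum_eq_single i]
      · simp
      · intro j _ hj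
        rw [coeff_C_mul, coeff_X_pow, if_neg, mul_zero]
        intro h
        exact hj (Fin.ext h.symm)
      · simp
    rw [hf0, coeff_zero] at h1
    exact (congrArg Subtype.val h1).symm

/-- Conjugates have the same value. -/
theorem val_aeval_root [IsAlgClosed Ω] (h : Ctx0 k v) {M : IntermediateField k Ω}
    (hM : D2P.hen v M = M) {θ θ' : Ω} (hθ : IsSeparable M θ)
    (hθ' : aeval θ' (minpoly M θ) = 0) (P : M[X]) : v (aeval θ' P) = v (aeval θ P) := by
  have h1 : IsSeparable M (aeval θ P) := by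
    have h2 : aeval θ P ∈ separableClosure M Ω := by
      have h3 : θ ∈ separableClosure M Ω := mem_separableClosure_iff.2 hθ
      have h4 := (aeval (⟨θ, h3⟩ : separableClosure M Ω) P).2
      have h5 : ((aeval (⟨θ, h3⟩ : separableClosure M Ω) P : separableClosure M Ω) : Ω) =
          aeval θ P := (aeval_algebraMap_apply Ω (⟨θ, h3⟩ : separableClosure M Ω) P).symm
      rwa [h5] at h4
    exact mem_separableClosure_iff.1 h2
  refine D2P.val_root_sep h hM h1 ?_
  have h2 : aeval θ ((minpoly M (aeval θ P)).comp P) = 0 := by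
    rw [aeval_comp, minpoly.aeval]
  obtain ⟨q, hq⟩ := minpoly.dvd M θ h2
  rw [← aeval_comp, hq, map_mul, hθ', zero_mul]

theorem orthq_adj [IsAlgClosed Ω] (h : Ctx0 k v) {M : IntermediateField k Ω}
    (hM : D2P.hen v M = M) {θ : Ω} (hθ : IsSeparable M θ) :
    ∃ C : ℝ, Orthq v M.toSubfield (fun j : Fin (minpoly M θ).natDegree => θ ^ (j : ℕ)) C := by
  classical
  have hint : IsIntegral M θ := hθ.isIntegral
  set m := minpoly M θ with hm
  set R : Finset Ω := (m.rootSet Ω).toFinset
  have hR : ∀ x ∈ R, aeval x m = 0 := by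
    intro x hx
    rw [Set.mem_toFinset, mem_rootSet] at hx
    exact hx.2
  have hcard : R.card = m.natDegree := by
    rw [Set.toFinset_card]
    exact card_rootSet_eq_natDegree hθ (IsAlgClosed.splits _)
  refine ⟨∑ x ∈ R, ∑ j : Fin m.natDegree,
    |v ((Lagrange.basis R id x).coeff j * θ ^ (j : ℕ))|, fun c hc h0 j hj => ?_⟩
  set C : ℝ := ∑ x ∈ R, ∑ j : Fin m.natDegree,
    |v ((Lagrange.basis R id x).coeff j * θ ^ (j : ℕ))|
  let f : M[X] := ∑ j : Fin m.natDegree, Polynomial.C (⟨c j, hc j⟩ : M) * X ^ (j : ℕ)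
  have hf : aeval θ f = ∑ j, c j * θ ^ (j : ℕ) := by
    rw [map_sum]
    refine Finset.sum_congr rfl fun j _ => ?_
    rw [map_mul, aeval_C, map_pow, aeval_X]
    rfl
  have hfd : f.degree < m.natDegree := degree_sum_fin_lt fun j => (⟨c j, hc j⟩ : M)
  have hcoef : f.coeff j = ⟨c j, hc j⟩ := by
    rw [finsetSum_coeff, Finset.sum_eq_single j]
    · simp
    · intro i _ hi
      rw [coeff_C_mul, coeff_X_pow, if_neg, mul_zero]
      intro h
      exact hi (Fin.ext h.symm)
    · simp
  set g : Polynomial Ω := f.map (algebraMap M Ω)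
  have hgd : g.degree < R.card := by
    rw [hcard]
    exact lt_of_le_of_lt degree_map_le hfd
  have h1 := Lagrange.eq_interpolate (s := R) (v := id) (Set.injOn_id _) hgd
  rw [Lagrange.interpolate_apply] at h1
  have h2 : c j = ∑ x ∈ R, aeval x f * (Lagrange.basis R id x).coeff j := by
    have h3 : g.coeff j = c j := by
      rw [coeff_map, hcoef]
      rfl
    rw [← h3]
    conv_lhs => rw [h1]
    rw [finsetSum_coeff]
    refine Finset.sum_congr rfl fun x _ => ?_
    rw [coeff_C_mul, id, eval_map_algebraMap]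
  have h4 : v.Ge (v (∑ j, c j * θ ^ (j : ℕ)) - C) (c j * θ ^ (j : ℕ)) := by
    rw [h2, Finset.sum_mul]
    refine RVal.Ge.sum _ _ fun x hx => ?_
    intro h5
    rw [mul_assoc] at h5 ⊢
    have h6 := left_ne_zero_of_mul h5
    have h7 := right_ne_zero_of_mul h5
    rw [v.map_mul h6 h7, val_aeval_root h hM hθ (hR x hx) f, hf]
    have h8 : |v ((Lagrange.basis R id x).coeff j * θ ^ (j : ℕ))| ≤ C := by
      refine le_trans ?_ (Finset.single_le_sum (f := fun x => ∑ j : Fin m.natDegree,
        |v ((Lagrange.basis R id x).coeff j * θ ^ (j : ℕ))|)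
        (fun i _ => Finset.sum_nonneg fun l _ => abs_nonneg _) hx)
      exact Finset.single_le_sum (f := fun j : Fin m.natDegree =>
        |v ((Lagrange.basis R id x).coeff j * θ ^ (j : ℕ))|)
        (fun l _ => abs_nonneg _) (Finset.mem_univ j)
    have h9 := neg_abs_le (v ((Lagrange.basis R id x).coeff j * θ ^ (j : ℕ)))
    linarith
  exact h4 hj

/-- bounded distortion passes to finite separable extensions: Vandermonde over the henselization -/
theorem BD.sep [IsAlgClosed Ω] [IsAlgClosed k] (p : ℕ) [Fact p.Prime] [CharP k p] [CharP Ω p]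
    (h : Ctx0 k v) {E : IntermediateField k Ω} (_hE : E.FG) (hBD : BD p v E) {θ : Ω}
    (hθ : IsSeparable E θ) : BD p v (LU1.adj E θ) := by
  set L := D2P.hen v E with hL
  have hLL : D2P.hen v L = L := D2P.hen_hen E
  have hEL : E ≤ L := D2P.le_hen E
  have hθL : IsSeparable L θ := D2P.isSeparable_mono hEL hθ
  set M := LU1.adj L θ with hM
  have hLM : L ≤ M := (D2P.mem_adj_self L θ).2
  obtain ⟨C, hC⟩ := orthq_adj h hLL hθL
  have h1 : BDq v L.toSubfield M.toSubfield := BDq.of_bas (bas_adj_alg hθL.isIntegral) hC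
  have h2 : BDq v (Qp p L) L.toSubfield := hBD.hen_bdq
  have h3 : BDq v (Qp p L) M.toSubfield := h1.trans h2 Qp_le' hLM
  have h4 : BD p v M := BD.of_bdq (h3.mid (Qp_mono hLM) Qp_le').1
  obtain ⟨n, t, ht, -⟩ := hBD
  have hsepM : ∀ a ∈ M, IsSeparable E a := by
    have h5 : M ≤ (separableClosure E Ω).restrictScalars k := by
      refine D2P.adj_le (fun a ha => ?_) ?_
      · exact mem_separableClosure_iff.2 (D2P.mem_hen.1 ha).2
      · exact mem_separableClosure_iff.2 hθ
    exact fun a ha => mem_separableClosure_iff.1 (h5 ha)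
  have htM : PBasis p M t := ht.of_sep p (hEL.trans hLM) hsepM
  obtain ⟨C', hC'⟩ := h4.orth htM
  have hle : LU1.adj E θ ≤ M :=
    D2P.adj_le (hEL.trans hLM) (D2P.mem_adj_self L θ).1
  exact ⟨n, t, ht.of_sep p (D2P.mem_adj_self E θ).2 fun a ha => hsepM a (hle ha), C',
    hC'.mono hle⟩

/-! ### Density -/

/-- In a field with values `ℤ ω` every element is near to a combination of `1, x, .., x^(p-1)` with
coefficients which are `p`-th powers. -/
theorem exists_near_pow [IsAlgClosed k] (p : ℕ) [Fact p.Prime] [CharP Ω p] (h : Ctx0 k v)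
    {E : IntermediateField k Ω} {x : Ω} (hx : x ∈ E) (hx0 : x ≠ 0)
    (hpos : 0 < v x) (hval : ∀ c ∈ E, c ≠ 0 → ∃ m : ℤ, v c = m * v x) {u : Ω} (hu : u ∈ E)
    (N : ℕ) : ∃ c : Fin p → Ω, (∀ i, c i ∈ E) ∧
      v.Ge (v u + N * v x) (u - ∑ i, c i ^ p * x ^ (i : ℕ)) := by
  classical
  have hp := (Fact.out : p.Prime)
  by_cases hu0 : u = 0
  · exact ⟨fun _ => 0, fun _ => zero_mem _, by
      simp only [zero_pow hp.ne_zero, zero_mul, Finset.sum_const_zero, sub_zero]
      rw [hu0]
      exact RVal.Ge.zero⟩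
  induction N with
  | zero =>
    exact ⟨fun _ => 0, fun _ => zero_mem _, by
      simp only [zero_pow hp.ne_zero, zero_mul, Finset.sum_const_zero, sub_zero]
      exact (RVal.ge_self u).mono (by simp)⟩
  | succ N ih =>
    obtain ⟨c, hc, h1⟩ := ih
    set w := u - ∑ i, c i ^ p * x ^ (i : ℕ) with hw
    have hwE : w ∈ E := sub_mem hu (sum_mem fun i _ => mul_mem (pow_mem (hc i) _) (pow_mem hx _))
    obtain ⟨m₀, hm₀⟩ := hval u hu hu0
    by_cases hw0 : w = 0
    · exact ⟨c, hc, by rw [← hw, hw0]; exact RVal.Ge.zero⟩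
    obtain ⟨m, hm⟩ := hval w hwE hw0
    have h2 := h1 hw0
    rw [hm, hm₀] at h2
    have h3 : m₀ + N ≤ m := by
      have h4 : ((m₀ + N : ℤ) : ℝ) * v x ≤ m * v x := by push_cast; linarith
      exact_mod_cast le_of_mul_le_mul_right h4 hpos
    rcases h3.lt_or_eq with h4 | h4
    · refine ⟨c, hc, fun _ => ?_⟩
      rw [← hw, hm, hm₀]
      have h5 : ((m₀ + N + 1 : ℤ) : ℝ) ≤ m := by exact_mod_cast h4
      push_cast at h5 ⊢
      nlinarith
    · -- subtract `(μ x^q)^p x^i`
      have hpz : (0 : ℤ) < p := by exact_mod_cast hp.pos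
      set i : ℕ := (m % p).toNat
      have hi0 : (i : ℤ) = m % p := Int.toNat_of_nonneg (Int.emod_nonneg _ hpz.ne')
      have hip : i < p := by
        have := Int.emod_lt_of_pos m hpz
        omega
      set q : ℤ := m / p
      have hmq : m = p * q + i := by rw [hi0]; exact (Int.mul_ediv_add_emod m p).symm
      set e : Ω := (x ^ q) ^ p * x ^ i
      have he0 : e ≠ 0 := mul_ne_zero (pow_ne_zero _ (zpow_ne_zero _ hx0)) (pow_ne_zero _ hx0)
      have hve : v e = m * v x := by
        rw [v.map_mul (pow_ne_zero _ (zpow_ne_zero _ hx0)) (pow_ne_zero _ hx0),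
          v.map_pow (zpow_ne_zero _ hx0), v.map_zpow hx0, v.map_pow hx0, hmq]
        push_cast
        ring
      have hg0 : w / e ≠ 0 := div_ne_zero hw0 he0
      have hvg : v (w / e) = 0 := by rw [v.map_div hw0 he0, hm, hve, sub_self]
      obtain ⟨l, -, hl⟩ := h.res _ hg0 hvg
      obtain ⟨μ, rfl⟩ := IsAlgClosed.exists_pow_nat_eq l hp.pos
      have hμ : algebraMap k Ω μ ∈ E := E.algebraMap_mem μ
      refine ⟨fun j => c j + if j = ⟨i, hip⟩ then algebraMap k Ω μ * x ^ q else 0, fun j => ?_,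
        ?_⟩
      · refine add_mem (hc j) ?_
        split_ifs
        · exact mul_mem hμ (zpow_mem hx _)
        · exact zero_mem _
      · have h5 : u - ∑ j : Fin p, (c j + if j = ⟨i, hip⟩ then algebraMap k Ω μ * x ^ q else 0) ^ p *
            x ^ (j : ℕ) = w - algebraMap k Ω μ ^ p * e := by
          have h6 : ∀ j : Fin p, (c j + if j = ⟨i, hip⟩ then algebraMap k Ω μ * x ^ q else 0) ^ p *
              x ^ (j : ℕ) = c j ^ p * x ^ (j : ℕ) +
                if j = ⟨i, hip⟩ then algebraMap k Ω μ ^ p * e else 0 := by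
            intro j
            rw [add_pow_char, add_mul]
            congr 1
            split_ifs with hj
            · subst hj
              rw [mul_pow]
              simp only [e]
              ring
            · rw [zero_pow hp.ne_zero, zero_mul]
          rw [Finset.sum_congr rfl fun j _ => h6 j, Finset.sum_add_distrib,
            Finset.sum_ite_eq' Finset.univ, if_pos (Finset.mem_univ _), hw]
          ring
        rw [h5]
        have h6 : w - algebraMap k Ω μ ^ p * e = (w / e - algebraMap k Ω (μ ^ p)) * e := by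
          rw [map_pow, sub_mul, div_mul_cancel₀ _ he0]
        rw [h6]
        intro h7
        have h8 := left_ne_zero_of_mul h7
        rw [v.map_mul h8 he0, hve]
        have h9 := hl h8
        have h10 : w - algebraMap k Ω μ ^ p * e ∈ E :=
          sub_mem hwE (mul_mem (pow_mem hμ _) (mul_mem (pow_mem (zpow_mem hx _) _) (pow_mem hx _)))
        rw [h6] at h10
        obtain ⟨m', hm'⟩ := hval _ h10 h7
        rw [v.map_mul h8 he0, hve] at hm'
        have h11 : m < m' := by
          have h12 : (m : ℝ) * v x < m' * v x := by linarith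
          exact_mod_cast lt_of_mul_lt_mul_right h12 hpos.le
        have h13 : ((m₀ + N + 1 : ℤ) : ℝ) ≤ m' := by
          have : m₀ + N + 1 ≤ m' := by omega
          exact_mod_cast this
        rw [hm', hm₀]
        push_cast at h13 ⊢
        nlinarith

/-- `r = 1`, bounded distortion and transcendence degree `≥ 2`: the values are dense. -/
theorem dns_of_BD [IsAlgClosed Ω] [IsAlgClosed k] (p : ℕ) [Fact p.Prime] [CharP k p] [CharP Ω p]
    (h : Ctx k v r) {E : IntermediateField k Ω} (hE : E.FG) (hfull : Full v E) (hBD : BD p v E)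
    {n : ℕ} (htr : Algebra.trdeg k E = n) (hn : 2 ≤ n) : Dns v E := by
  classical
  have hp := (Fact.out : p.Prime)
  let S : AddSubgroup ℝ :=
    { carrier := {a | ∃ c ∈ E, c ≠ 0 ∧ v c = a}
      zero_mem' := ⟨1, one_mem _, one_ne_zero, v.map_one⟩
      add_mem' := by
        rintro _ _ ⟨c, hc, hc0, rfl⟩ ⟨d, hd, hd0, rfl⟩
        exact ⟨c * d, mul_mem hc hd, mul_ne_zero hc0 hd0, v.map_mul hc0 hd0⟩
      neg_mem' := by
        rintro _ ⟨c, hc, hc0, rfl⟩
        exact ⟨c⁻¹, inv_mem hc, inv_ne_zero hc0, v.map_inv hc0⟩ }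
  rcases AddSubgroup.dense_or_cyclic S with hd | ⟨a, ha⟩
  · intro b c hbc
    obtain ⟨s, ⟨w, hw, hw0, rfl⟩, h1, h2⟩ := hd.exists_between hbc
    exact ⟨w, hw, hw0, h1, h2⟩
  · exfalso
    have hS : ∀ c ∈ E, c ≠ 0 → ∃ m : ℤ, v c = m * a := by
      intro c hc hc0
      have h1 : v c ∈ S := ⟨c, hc, hc0, rfl⟩
      rw [ha, AddSubgroup.mem_closure_singleton] at h1
      obtain ⟨m, hm⟩ := h1
      exact ⟨m, by rw [← hm, zsmul_eq_mul]⟩
    have ha0 : a ≠ 0 := by
      rintro rfl
      obtain ⟨X, hX0, hXi, -⟩ := h.rank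
      obtain ⟨m, hm, c, hc, hc0, h1⟩ := hfull (X ⟨0, h.rpos⟩) (hX0 _)
      obtain ⟨m', h2⟩ := hS c hc hc0
      rw [mul_zero] at h2
      rw [h2] at h1
      have h3 := hXi.ne_zero ⟨0, h.rpos⟩
      rcases mul_eq_zero.1 h1.symm with h4 | h4
      · exact hm.ne' (by exact_mod_cast h4)
      · exact h3 h4
    obtain ⟨x, hx, hx0, hvx⟩ : ∃ x ∈ E, x ≠ 0 ∧ v x = |a| := by
      have h1 : a ∈ S := by
        rw [ha]
        exact AddSubgroup.mem_closure_singleton_self a
      rcases abs_choice a with h2 | h2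
      · obtain ⟨c, hc, hc0, h3⟩ := h1
        exact ⟨c, hc, hc0, by rw [h2, h3]⟩
      · obtain ⟨c, hc, hc0, h3⟩ := S.neg_mem h1
        exact ⟨c, hc, hc0, by rw [h2, h3]⟩
    have hpos : 0 < v x := by rw [hvx]; exact abs_pos.2 ha0
    have hval : ∀ c ∈ E, c ≠ 0 → ∃ m : ℤ, v c = m * v x := by
      intro c hc hc0
      obtain ⟨m, hm⟩ := hS c hc hc0
      rw [hvx]
      rcases abs_choice a with h2 | h2
      · exact ⟨m, by rw [h2, hm]⟩
      · exact ⟨-m, by rw [h2, hm]; push_cast; ring⟩
    obtain ⟨n', t, ht, C, hC⟩ := hBD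
    have hn' : n' = n := by
      have h1 := (ht.trdeg p hE).1
      rw [htr, Nat.cast_inj] at h1
      exact h1.symm
    subst hn'
    -- the values of the monomials
    set B : ℝ := ∑ α : Fin n' → Fin p, |v (mon (p := p) t α)|
    have hB : ∀ α : Fin n' → Fin p, |v (mon (p := p) t α)| ≤ B := fun α =>
      Finset.single_le_sum (f := fun α => |v (mon (p := p) t α)|) (fun i _ => abs_nonneg _)
        (Finset.mem_univ α)
    obtain ⟨N, hN⟩ : ∃ N : ℕ, 2 * B + |C| < N * v x := by
      obtain ⟨N, hN⟩ := exists_nat_gt ((2 * B + |C|) / v x)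
      exact ⟨N, by rwa [div_lt_iff₀ hpos] at hN⟩
    choose c hc hcv using fun α : Fin n' → Fin p =>
      exists_near_pow p h.toCtx0 hx hx0 hpos hval (ht.mon_mem α) N
    -- a relation
    let f : ((Fin n' → Fin p) → E) →ₗ[E] (Fin p → E) :=
      Matrix.vecMulLinear (fun α i => (⟨c α i, hc α i⟩ : E))
    have hker : LinearMap.ker f ≠ ⊥ := by
      apply LinearMap.ker_ne_bot_of_finrank_lt
      rw [Module.finrank_pi, Module.finrank_pi]
      simp only [Fintype.card_fun, Fintype.card_fin]
      calc p < p ^ 2 := by nlinarith [hp.two_le]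
        _ ≤ p ^ n' := Nat.pow_le_pow_right hp.pos hn
    obtain ⟨a', ha', ha'0⟩ := (Submodule.ne_bot_iff _).1 hker
    have hrel : ∀ i, ∑ α, (a' α : Ω) * c α i = 0 := by
      intro i
      have h1 := congrFun (LinearMap.mem_ker.1 ha') i
      have h2 := congrArg Subtype.val h1
      have h3 : ((f a' i : E) : Ω) = ∑ α, (a' α : Ω) * c α i := by
        show ((∑ α, a' α * (⟨c α i, hc α i⟩ : E) : E) : Ω) = _
        rw [AddSubmonoidClass.coe_finsetSum]
        rfl
      rw [h3] at h2
      exact h2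
    have hrelp : ∀ i, ∑ α, (a' α : Ω) ^ p * c α i ^ p = 0 := by
      intro i
      have h1 : (∑ α, (a' α : Ω) * c α i) ^ p = 0 := by rw [hrel i, zero_pow hp.ne_zero]
      rw [pow_sum] at h1
      rw [← h1]
      exact Finset.sum_congr rfl fun α _ => by rw [mul_pow]
    -- the coefficient of minimal value
    obtain ⟨β₀, hβ₀⟩ : ∃ β, a' β ≠ 0 := by
      by_contra hcon
      exact ha'0 (funext fun β => by_contra fun hb => hcon ⟨β, hb⟩)
    obtain ⟨β, hβ, hmin⟩ := Finset.exists_min_image
      (Finset.univ.filter fun β => a' β ≠ 0) (fun β => v (a' β : Ω)) ⟨β₀, by simpa using hβ₀⟩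
    have hβ0 : (a' β : Ω) ≠ 0 := by
      have := (Finset.mem_filter.1 hβ).2
      exact fun h0 => this (Subtype.ext h0)
    set s : Ω := pcomb t (fun α => (a' α : Ω)) with hs
    have hs0 : s ≠ 0 := by
      intro h0
      exact hβ0 (ht.ind (fun α => (a' α : Ω)) (fun α => (a' α).2) h0 β)
    have h1 := hC (fun α => (a' α : Ω)) (fun α => (a' α).2) hs0 β
      (mul_ne_zero (pow_ne_zero _ hβ0) (ht.mon_ne_zero β))
    rw [v.map_mul (pow_ne_zero _ hβ0) (ht.mon_ne_zero β), v.map_pow hβ0] at h1
    have h2 : s = ∑ α, (a' α : Ω) ^ p * (mon t α - ∑ i, c α i ^ p * x ^ (i : ℕ)) := by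
      simp only [mul_sub, Finset.sum_sub_distrib]
      have h3 : ∑ α, (a' α : Ω) ^ p * ∑ i, c α i ^ p * x ^ (i : ℕ) = 0 := by
        simp only [Finset.mul_sum]
        rw [Finset.sum_comm]
        refine Finset.sum_eq_zero fun i _ => ?_
        have h4 : ∑ α, (a' α : Ω) ^ p * (c α i ^ p * x ^ (i : ℕ)) =
            (∑ α, (a' α : Ω) ^ p * c α i ^ p) * x ^ (i : ℕ) := by
          rw [Finset.sum_mul]
          exact Finset.sum_congr rfl fun α _ => by ring
        rw [h4, hrelp, zero_mul]
      rw [h3, sub_zero]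
      rfl
    have h3 : v.Ge (p * v (a' β : Ω) - B + N * v x) s := by
      rw [h2]
      refine RVal.Ge.sum _ _ fun α _ => ?_
      intro h4
      have h5 := left_ne_zero_of_mul h4
      have h6 := right_ne_zero_of_mul h4
      have h7 : (a' α : Ω) ≠ 0 := fun h0 => h5 (by rw [h0, zero_pow hp.ne_zero])
      rw [v.map_mul h5 h6, v.map_pow h7]
      have h8 := hcv α h6
      have h9 := hmin α (Finset.mem_filter.2 ⟨Finset.mem_univ _, fun h0 => h7 (by rw [h0]; rfl)⟩)
      have h10 := hB α
      have h11 := neg_abs_le (v (mon (p := p) t α))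
      have h12 : (p : ℝ) * v (a' β : Ω) ≤ p * v (a' α : Ω) :=
        mul_le_mul_of_nonneg_left h9 (Nat.cast_nonneg p)
      linarith
    have h4 := h3 hs0
    have h5 := hB β
    have h6 := le_abs_self (v (mon (p := p) t β))
    have h7 := le_abs_self C
    linarith

end Pool.Agent.TW
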