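import Pool.Agent.Lib.TW.Tr
import Pool.Agent.Lib.LU2_h15z.ZeroE
import Pool.Agent.Lib.LU3.Defs

/-!
# TANK W, row BASE, part A: the valuation ring of a finitely generated field of transcendence
degree `r`
-/

set_option autoImplicit false

open Polynomial

namespace Pool.Agent.TW

open Pool.Agent.H15JM (RVal)
open Pool.Agent.LU1 (VPos adj)
open Pool.Agent.LU2 (Entry vring rel_vring)
open Pool.Agent.LU3 (resv resv_apply)
open Pool.Agent.D2 (Ctx0)

universe u

variable {k Ω : Type u} [Field k] [Field Ω] [Algebra k Ω] {v : RVal Ω} {r : ℕ}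

/-- The valuation ring of `E` is a localization of a ring generated by monomials and finitely many
elements. -/
structure BaseD (k : Type u) {Ω : Type u} [Field k] [Field Ω] [Algebra k Ω] (v : RVal Ω)
    (E : IntermediateField k Ω) where
  Γ : AddSubgroup ℝ
  fg : Γ.FG
  χ : ℝ → Ω
  χ_mem : ∀ γ ∈ Γ, χ γ ∈ E
  χ_ne : ∀ γ ∈ Γ, χ γ ≠ 0
  χ_add : ∀ γ ∈ Γ, ∀ δ ∈ Γ, χ (γ + δ) = χ γ * χ δ
  χ_val : ∀ γ ∈ Γ, v (χ γ) = γ
  val : ∀ f ∈ E, f ≠ 0 → v f ∈ Γ
  F : Finset Ω
  F_mem : ∀ f ∈ F, f ∈ E ∧ v.Ge 0 f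
  fgen : ∀ f ∈ E, v.Ge 0 f → ∃ a ∈ Algebra.adjoin k ((F : Set Ω) ∪ χ '' {γ | γ ∈ Γ ∧ 0 ≤ γ}),
    ∃ b ∈ Algebra.adjoin k ((F : Set Ω) ∪ χ '' {γ | γ ∈ Γ ∧ 0 ≤ γ}), b ≠ 0 ∧ v b = 0 ∧ f = a / b

namespace BaseA

theorem elim0_bot {K : Type u} [Field K] [Algebra k K] (z : Fin 0 → K) :
    IntermediateField.adjoin k (Set.range z) = ⊥ := by
  rw [Set.range_eq_empty, IntermediateField.adjoin_empty]

theorem mem_elim0 {K : Type u} [Field K] [Algebra k K] {z : Fin 0 → K}
    (c : IntermediateField.adjoin k (Set.range z)) : ∃ c₀ : k, algebraMap k K c₀ = (c : K) := by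
  have h1 : (c : K) ∈ (⊥ : IntermediateField k K) := by
    rw [← elim0_bot z]
    exact c.2
  exact IntermediateField.mem_bot.1 h1

theorem algInd_elim0 {K : Type u} [Field K] [Algebra k K] (z : Fin 0 → K) :
    AlgebraicIndependent k z := by
  rw [algebraicIndependent_iff]
  intro P hP
  rw [MvPolynomial.eq_C_of_isEmpty P, MvPolynomial.aeval_C] at hP
  rw [MvPolynomial.eq_C_of_isEmpty P, (map_eq_zero _).1 hP, map_zero]

/-- The entry data of a field of transcendence degree `r`. -/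
theorem entry (h : Ctx k v r) {E : IntermediateField k Ω} (hF : Full v E)
    (htr : Algebra.trdeg k E = r) :
    ∃ x : Fin r → E, Entry k (vring (resv v E)) (resv v E) r 0 x (Fin.elim0 : Fin 0 → E) := by
  obtain ⟨x, hx, hxi, hsp⟩ := hF.exists_span h
  refine ⟨fun i => ⟨x i, (hx i).1⟩, ?_⟩
  refine
    { rel := rel_vring _
      rpos := h.rpos
      x_ne := fun i h0 => (hx i).2 (congrArg Subtype.val h0)
      ind := hxi
      span := fun g hg => hsp g fun h0 => hg (Subtype.ext h0)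
      z_val := ?_
      triv := ?_
      res := ?_
      trdeg := ?_ }
  · intro P hP
    rw [MvPolynomial.eq_C_of_isEmpty P, MvPolynomial.aeval_C]
    have h1 : MvPolynomial.coeff 0 P ≠ 0 := by
      intro h0
      apply hP
      rw [MvPolynomial.eq_C_of_isEmpty P, h0, map_zero]
    exact ⟨(_root_.map_ne_zero _).2 h1, h.triv _ h1⟩
  · intro c hc
    obtain ⟨c₀, hc₀⟩ := mem_elim0 c
    have h1 : c₀ ≠ 0 := by
      rintro rfl
      apply hc
      apply Subtype.ext
      rw [← hc₀, map_zero]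
      rfl
    rw [← hc₀]
    exact h.triv _ h1
  · intro g hg
    obtain ⟨c, hc⟩ := h.toCtx0.residue (f := (g : Ω)) (fun h0 => hg fun h1 => h0 (by rw [h1]; rfl))
    refine ⟨X - C (algebraMap k _ c), monic_X_sub_C _, ?_⟩
    intro h0
    have h1 : ((aeval g (X - C (algebraMap k (IntermediateField.adjoin k
        (Set.range (Fin.elim0 : Fin 0 → E))) c)) : E) : Ω) = (g : Ω) - algebraMap k Ω c := by
      rw [map_sub, aeval_X, aeval_C]
      rfl
    rw [resv_apply, h1]
    refine hc fun h2 => h0 (Subtype.ext ?_)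
    rw [h1, h2]
    rfl
  · left
    have h1 := LU2.trdeg_coeff (algInd_elim0 (k := k) (Fin.elim0 : Fin 0 → E))
    rw [htr] at h1
    simpa using h1

/-- Elements of the ring over the constants. -/
theorem adjoin_conv {E : IntermediateField k Ω} {z : Fin 0 → E} {S : Set E} {a : E}
    (ha : a ∈ Algebra.adjoin (IntermediateField.adjoin k (Set.range z)) S) :
    (a : Ω) ∈ Algebra.adjoin k ((fun f : E => (f : Ω)) '' S) := by
  induction ha using Algebra.adjoin_induction with
  | mem x hx => exact Algebra.subset_adjoin ⟨x, hx, rfl⟩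
  | algebraMap c =>
    obtain ⟨c₀, hc₀⟩ := mem_elim0 c
    have h1 : ((algebraMap (IntermediateField.adjoin k (Set.range z)) E c : E) : Ω) =
        algebraMap k Ω c₀ := by
      have h2 : (algebraMap (IntermediateField.adjoin k (Set.range z)) E c : E) =
        algebraMap k E c₀ := hc₀.symm
      rw [h2]
      rfl
    rw [h1]
    exact Subalgebra.algebraMap_mem _ _
  | add x y _ _ hx hy => exact add_mem hx hy
  | mul x y _ _ hx hy => exact mul_mem hx hy

end BaseA

open BaseA

/-- **The valuation ring of a field of transcendence degree `r`.** -/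
theorem exists_baseD [IsAlgClosed k] (p : ℕ) (hp : p.Prime) [CharP k p] (h : Ctx k v r)
    {E : IntermediateField k Ω} (hE : E.FG) (hF : Full v E) (htr : Algebra.trdeg k E = r) :
    Nonempty (BaseD k v E) := by
  classical
  obtain ⟨x, hx⟩ := entry h hF htr
  have htop : (⊤ : IntermediateField k E).FG := IntermediateField.fg_top_iff.2 (IntermediateField.essFiniteType_iff.2 hE)
  obtain ⟨B, hR, hM⟩ := hx.exists_bf_zero p hp htop (by rw [htr]; simp)
  obtain ⟨F, hFg⟩ := B.fgen
  have hFR : ∀ f ∈ F, f ∈ B.R := by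
    intro f hf
    rw [hFg]
    exact LU1.le_locv _ (Algebra.subset_adjoin (Or.inl hf))
  have himg : (fun f : E => (f : Ω)) '' ((F : Set E) ∪ B.χ '' {γ | γ ∈ B.Γ ∧ 0 ≤ γ}) =
      ((F.image fun f : E => (f : Ω) : Finset Ω) : Set Ω) ∪
        (fun γ => (B.χ γ : Ω)) '' {γ | γ ∈ B.Γ ∧ 0 ≤ γ} := by
    rw [Set.image_union, Finset.coe_image, Set.image_image]
  refine ⟨{ Γ := B.Γ
            fg := B.fg
            χ := fun γ => (B.χ γ : Ω)
            χ_mem := fun γ _ => (B.χ γ).2
            χ_ne := fun γ hγ h0 => B.χ_ne γ hγ (Subtype.ext h0)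
            χ_add := fun γ hγ δ hδ => ?_
            χ_val := fun γ hγ => B.χ_val γ hγ
            val := fun f hf hf0 => ?_
            F := F.image fun f : E => (f : Ω)
            F_mem := ?_
            fgen := ?_ }⟩
  · rw [B.χ_add γ hγ δ hδ]
    rfl
  · exact (hM ⟨f, hf⟩ fun h0 => hf0 (congrArg Subtype.val h0)).2.1
  · intro f hf
    obtain ⟨g, hg, rfl⟩ := Finset.mem_image.1 hf
    refine ⟨g.2, ?_⟩
    intro h0
    exact (hR g).1 (hFR g hg) fun h1 => h0 (by rw [h1]; rfl)
  · intro f hf hf0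
    have h1 : (⟨f, hf⟩ : E) ∈ B.R := by
      rw [hR]
      intro h0
      exact hf0 fun h1 => h0 (Subtype.ext h1)
    rw [hFg] at h1
    obtain ⟨a, ha, b, hb, hb0, hvb, hab⟩ := h1
    refine ⟨a, ?_, b, ?_, fun h0 => hb0 (Subtype.ext h0), hvb, ?_⟩
    · rw [← himg]
      exact adjoin_conv ha
    · rw [← himg]
      exact adjoin_conv hb
    · exact congrArg Subtype.val hab

end Pool.Agent.TW
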