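import Pool.Agent.Lib.TW.BaseA
import Pool.Agent.Lib.D2P.FrameSep

/-!
# TANK W, row BASE, part B: a field of transcendence degree `r` is contained in the henselization
of the field of its monomials
-/

set_option autoImplicit false

open Polynomial

namespace Pool.Agent.TW

open Pool.Agent.H15JM (RVal)
open Pool.Agent.LU1 (VPos adj sep_of_span sep_transfer)
open Pool.Agent.D2 (Ctx0)
open Pool.Agent.LUC (Cl clF)
open Pool.Agent.D2P (hen mem_hen der_ge_adjoin)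

universe u

variable {k Ω : Type u} [Field k] [Field Ω] [Algebra k Ω] {v : RVal Ω} {r : ℕ}

namespace BaseD

variable {E : IntermediateField k Ω} (D : BaseD k v E)

/-- The field of the monomials. -/
def K₁ : IntermediateField k Ω := IntermediateField.adjoin k (D.χ '' {γ | γ ∈ D.Γ})

theorem χ_mem_K₁ {γ : ℝ} (hγ : γ ∈ D.Γ) : D.χ γ ∈ D.K₁ :=
  IntermediateField.subset_adjoin _ _ ⟨γ, hγ, rfl⟩

theorem K₁_le : D.K₁ ≤ E := by
  rw [K₁, IntermediateField.adjoin_le_iff]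
  rintro _ ⟨γ, hγ, rfl⟩
  exact D.χ_mem γ hγ

/-- `1 / u` for `v u = 0`. -/
theorem ge_inv {b : Ω} (hb : b ≠ 0) (hv : v b = 0) : v.Ge 0 b⁻¹ := fun _ => by
  rw [v.map_inv hb, hv, neg_zero]

/-- The first approximation of the elements of the ring. -/
theorem approx_ring (h : Ctx0 k v) : ∃ δ : ℝ, 0 < δ ∧
    ∀ a ∈ Algebra.adjoin k ((D.F : Set Ω) ∪ D.χ '' {γ | γ ∈ D.Γ ∧ 0 ≤ γ}),
      v.Ge 0 a ∧ ∃ c ∈ D.K₁, v.Ge 0 c ∧ v.Ge δ (a - c) := by
  classical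
  have h1 : ∀ f ∈ D.F, ∃ c : k, VPos v (f - algebraMap k Ω c) := fun f hf =>
    h.residue (D.F_mem f hf).2
  choose! c hc using h1
  obtain ⟨δ, hδ, hδF⟩ : ∃ δ : ℝ, 0 < δ ∧ ∀ f ∈ D.F, v.Ge δ (f - algebraMap k Ω (c f)) := by
    let S : Finset Ω := D.F.filter fun f => f - algebraMap k Ω (c f) ≠ 0
    rcases S.eq_empty_or_nonempty with hS | hS
    · refine ⟨1, one_pos, fun f hf h0 => ?_⟩
      have : f ∈ S := Finset.mem_filter.2 ⟨hf, h0⟩
      rw [hS] at this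
      exact absurd this (Finset.notMem_empty _)
    · obtain ⟨f₀, hf₀, hmin⟩ := Finset.exists_min_image S
        (fun f => v (f - algebraMap k Ω (c f))) hS
      obtain ⟨hf₀F, hf₀0⟩ := Finset.mem_filter.1 hf₀
      exact ⟨v (f₀ - algebraMap k Ω (c f₀)), hc f₀ hf₀F hf₀0, fun f hf h0 =>
        hmin f (Finset.mem_filter.2 ⟨hf, h0⟩)⟩
  refine ⟨δ, hδ, fun a ha => ?_⟩
  induction ha using Algebra.adjoin_induction with
  | mem x hx =>
    rcases hx with hx | ⟨γ, ⟨hγ, hγ0⟩, rfl⟩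
    · exact ⟨(D.F_mem x hx).2, algebraMap k Ω (c x), D.K₁.algebraMap_mem _, h.ge _, hδF x hx⟩
    · have h2 : v.Ge 0 (D.χ γ) := fun _ => by rw [D.χ_val γ hγ]; exact hγ0
      exact ⟨h2, D.χ γ, D.χ_mem_K₁ hγ, h2, by rw [sub_self]; exact RVal.Ge.zero⟩
  | algebraMap x =>
    exact ⟨h.ge _, _, D.K₁.algebraMap_mem x, h.ge _, by rw [sub_self]; exact RVal.Ge.zero⟩
  | add x y _ _ hx hy =>
    obtain ⟨hx0, a, ha, ha0, ha1⟩ := hx
    obtain ⟨hy0, b, hb, hb0, hb1⟩ := hy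
    refine ⟨hx0.add hy0, a + b, add_mem ha hb, ha0.add hb0, ?_⟩
    have h3 : x + y - (a + b) = (x - a) + (y - b) := by ring
    rw [h3]
    exact ha1.add hb1
  | mul x y _ _ hx hy =>
    obtain ⟨hx0, a, ha, ha0, ha1⟩ := hx
    obtain ⟨hy0, b, hb, hb0, hb1⟩ := hy
    refine ⟨?_, a * b, mul_mem ha hb, ?_, ?_⟩
    · have := hx0.mul hy0
      rwa [add_zero] at this
    · have := ha0.mul hb0
      rwa [add_zero] at this
    · have h3 : x * y - a * b = x * (y - b) + b * (x - a) := by ring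
      rw [h3]
      have h4 := hx0.mul hb1
      have h5 := hb0.mul ha1
      rw [zero_add] at h4 h5
      exact h4.add h5

/-- The first approximation of the elements of the valuation ring. -/
theorem approx_one (h : Ctx0 k v) : ∃ δ : ℝ, 0 < δ ∧ ∀ f ∈ E, v.Ge 0 f →
    ∃ c ∈ D.K₁, v.Ge δ (f - c) := by
  obtain ⟨δ, hδ, hr⟩ := D.approx_ring h
  refine ⟨δ, hδ, fun f hf hf0 => ?_⟩
  obtain ⟨a, ha, b, hb, hb0, hvb, rfl⟩ := D.fgen f hf hf0
  obtain ⟨ha0, c, hc, hc0, hc1⟩ := hr a ha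
  obtain ⟨hb1, d, hd, hd0, hd1⟩ := hr b hb
  -- `d` has value `0`
  have hdv : d ≠ 0 ∧ v d = 0 := by
    have h2 : d ≠ 0 := by
      rintro rfl
      rw [sub_zero] at hd1
      have := hd1 hb0
      linarith
    refine ⟨h2, le_antisymm ?_ (hd0 h2)⟩
    by_contra hlt
    rw [not_le] at hlt
    have h3 : v.Ge (min δ (v d)) b := by
      have h4 : b = (b - d) + d := by ring
      rw [h4]
      exact (RVal.Ge.mono (min_le_left _ _) hd1).add
        (RVal.Ge.mono (min_le_right _ _) (RVal.Ge.of_le le_rfl))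
    have h5 := h3 hb0
    rw [hvb] at h5
    exact absurd h5 (not_le.2 (lt_min hδ hlt))
  refine ⟨c / d, div_mem hc hd, ?_⟩
  have h3 : a / b - c / d = b⁻¹ * (d⁻¹ * (d * (a - c) - c * (b - d))) := by
    have := hdv.1
    field_simp
    ring
  rw [h3]
  have h4 := (ge_inv hb0 hvb).mul ((ge_inv hdv.1 hdv.2).mul ((hd0.mul hc1).sub (hc0.mul hd1)))
  simpa using h4

/-- The elements of `E` are approximated by the ones of `K₁`. -/
theorem approx (h : Ctx0 k v) {f : Ω} (hf : f ∈ E) (σ : ℝ) : ∃ c ∈ D.K₁, v.Ge σ (f - c) := by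
  obtain ⟨δ, hδ, h1⟩ := D.approx_one h
  have key : ∀ n : ℕ, ∀ f ∈ E, v.Ge 0 f → ∃ c ∈ D.K₁, v.Ge (n * δ) (f - c) := by
    intro n
    induction n with
    | zero =>
      intro f _ hf0
      exact ⟨0, zero_mem _, by rw [sub_zero]; simpa using hf0⟩
    | succ n ih =>
      intro f hf hf0
      obtain ⟨c, hc, hc1⟩ := ih f hf hf0
      by_cases h0 : f - c = 0
      · exact ⟨c, hc, by rw [h0]; exact RVal.Ge.zero⟩
      · have hfc : f - c ∈ E := sub_mem hf (D.K₁_le hc)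
        have hγ : v (f - c) ∈ D.Γ := D.val _ hfc h0
        have hχ0 := D.χ_ne _ hγ
        obtain ⟨d, hd, hd1⟩ := h1 ((f - c) / D.χ (v (f - c))) (div_mem hfc (D.χ_mem _ hγ))
          (fun _ => by rw [v.map_div h0 hχ0, D.χ_val _ hγ, sub_self])
        refine ⟨c + D.χ (v (f - c)) * d, add_mem hc (mul_mem (D.χ_mem_K₁ hγ) hd), ?_⟩
        have h2 : f - (c + D.χ (v (f - c)) * d) =
            D.χ (v (f - c)) * ((f - c) / D.χ (v (f - c)) - d) := by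
          field_simp
          ring
        rw [h2]
        have h3 : v.Ge (n * δ) (D.χ (v (f - c))) := fun _ => by
          rw [D.χ_val _ hγ]
          exact hc1 h0
        have h4 := h3.mul hd1
        have h5 : ((n + 1 : ℕ) : ℝ) * δ = n * δ + δ := by push_cast; ring
        rw [h5]
        exact h4
  by_cases hf0 : f = 0
  · exact ⟨0, zero_mem _, by rw [hf0, sub_self]; exact RVal.Ge.zero⟩
  have hγ : v f ∈ D.Γ := D.val _ hf hf0
  have hχ0 := D.χ_ne _ hγ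
  obtain ⟨n, hn⟩ := exists_nat_gt ((σ - v f) / δ)
  obtain ⟨d, hd, hd1⟩ := key n (f / D.χ (v f)) (div_mem hf (D.χ_mem _ hγ))
    (fun _ => by rw [v.map_div hf0 hχ0, D.χ_val _ hγ, sub_self])
  refine ⟨D.χ (v f) * d, mul_mem (D.χ_mem_K₁ hγ) hd, ?_⟩
  have h2 : f - D.χ (v f) * d = D.χ (v f) * (f / D.χ (v f) - d) := by
    field_simp
  rw [h2]
  have h3 : v.Ge (v f) (D.χ (v f)) := fun _ => by rw [D.χ_val _ hγ]
  refine RVal.Ge.mono ?_ (h3.mul hd1)
  have h4 : σ - v f < n * δ := (div_lt_iff₀ hδ).1 hn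
  linarith

/-- A derivation of `E` which kills the monomials is zero. -/
theorem der_zero (h : Ctx0 k v) (d : Derivation k E E)
    (hχ : ∀ γ ∈ D.Γ, ∀ hx : D.χ γ ∈ E, d ⟨D.χ γ, hx⟩ = 0) : d = 0 := by
  classical
  have hadj : ∀ c : ℝ, (∀ x ∈ D.F, ∀ hx : x ∈ E, v.Ge c ((d ⟨x, hx⟩ : E) : Ω)) →
      ∀ x ∈ ((D.F : Set Ω) ∪ D.χ '' {γ | γ ∈ D.Γ ∧ 0 ≤ γ}),
        ∃ hx : x ∈ E, v.Ge 0 x ∧ v.Ge c ((d ⟨x, hx⟩ : E) : Ω) := by
    rintro c hc x (hx | ⟨γ, ⟨hγ, hγ0⟩, rfl⟩)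
    · exact ⟨(D.F_mem x hx).1, (D.F_mem x hx).2, hc x hx _⟩
    · refine ⟨D.χ_mem γ hγ, fun _ => by rw [D.χ_val γ hγ]; exact hγ0, ?_⟩
      rw [hχ γ hγ]
      exact RVal.Ge.zero
  have key : ∀ c : ℝ, (∀ x ∈ D.F, ∀ hx : x ∈ E, v.Ge c ((d ⟨x, hx⟩ : E) : Ω)) →
      ∀ x : Ω, v.Ge 0 x → ∀ hx : x ∈ E, v.Ge c ((d ⟨x, hx⟩ : E) : Ω) := by
    intro c hc x hx hxE
    obtain ⟨a, ha, b, hb, hb0, hvb, hab⟩ := D.fgen x hxE hx
    obtain ⟨ha1, -, ha3⟩ := der_ge_adjoin h.ge d c _ (hadj c hc) ha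
    obtain ⟨hb1, -, hb3⟩ := der_ge_adjoin h.ge d c _ (hadj c hc) hb
    have hmul : (⟨a, ha1⟩ : E) = (⟨b, hb1⟩ : E) * ⟨x, hxE⟩ := by
      apply Subtype.ext
      show a = b * x
      rw [hab]; field_simp
    have hD : d ⟨a, ha1⟩ = (⟨b, hb1⟩ : E) * d ⟨x, hxE⟩ + (⟨x, hxE⟩ : E) * d ⟨b, hb1⟩ := by
      rw [hmul]; exact d.leibniz _ _
    have hD2 : ((d ⟨x, hxE⟩ : E) : Ω) =
        b⁻¹ * (((d ⟨a, ha1⟩ : E) : Ω) - x * ((d ⟨b, hb1⟩ : E) : Ω)) := by
      rw [hD]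
      show ((d ⟨x, hxE⟩ : E) : Ω) = b⁻¹ * ((b * ((d ⟨x, hxE⟩ : E) : Ω) +
        x * ((d ⟨b, hb1⟩ : E) : Ω)) - x * ((d ⟨b, hb1⟩ : E) : Ω))
      field_simp
      ring
    rw [hD2]
    have e2 := hx.mul hb3
    rw [zero_add] at e2
    have e3 := (ge_inv hb0 hvb).mul (ha3.sub e2)
    rwa [zero_add] at e3
  -- the derivation is zero on the generators
  have hF0 : ∀ x ∈ D.F, ∀ hx : x ∈ E, d ⟨x, hx⟩ = 0 := by
    by_contra hcon
    push Not at hcon
    set F' : Finset Ω := D.F.filter fun x => ∃ hx : x ∈ E, d ⟨x, hx⟩ ≠ 0 with hF'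
    have hne : F'.Nonempty := by
      obtain ⟨x, hx, hxK, hD⟩ := hcon
      exact ⟨x, Finset.mem_filter.2 ⟨hx, hxK, hD⟩⟩
    let val : Ω → ℝ := fun x => if hx : x ∈ E then v ((d ⟨x, hx⟩ : E) : Ω) else 0
    obtain ⟨x₀, hx₀, hmin⟩ := Finset.exists_min_image F' val hne
    obtain ⟨hx₀F, hx₀K, hD0⟩ := Finset.mem_filter.1 hx₀
    have hval : ∀ x, ∀ hx : x ∈ E, val x = v ((d ⟨x, hx⟩ : E) : Ω) := fun x hx => dif_pos hx
    have hD0' : ((d ⟨x₀, hx₀K⟩ : E) : Ω) ≠ 0 := fun h0 => hD0 (Subtype.ext h0)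
    have hall := key (val x₀) (fun x hx hxK => by
      by_cases h0 : d ⟨x, hxK⟩ = 0
      · rw [h0]; exact RVal.Ge.zero
      · have := hmin x (Finset.mem_filter.2 ⟨hx, hxK, h0⟩)
        rw [hval x hxK] at this
        exact RVal.Ge.of_le this)
    obtain ⟨c, hc⟩ := h.residue (D.F_mem x₀ hx₀F).2
    by_cases hz : x₀ - algebraMap k Ω c = 0
    · have h1 : (⟨x₀, hx₀K⟩ : E) = algebraMap k E c := Subtype.ext (sub_eq_zero.1 hz)
      apply hD0
      rw [h1, d.map_algebraMap]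
    have hmem : x₀ - algebraMap k Ω c ∈ E := sub_mem hx₀K (E.algebraMap_mem c)
    have hγ : v (x₀ - algebraMap k Ω c) ∈ D.Γ := D.val _ hmem hz
    have hγ0 : 0 < v (x₀ - algebraMap k Ω c) := hc hz
    set γ := v (x₀ - algebraMap k Ω c) with hγdef
    have hχ0 := D.χ_ne γ hγ
    have huK : (x₀ - algebraMap k Ω c) / D.χ γ ∈ E := div_mem hmem (D.χ_mem γ hγ)
    have hu0 : v.Ge 0 ((x₀ - algebraMap k Ω c) / D.χ γ) := fun _ => by
      rw [v.map_div hz hχ0, D.χ_val γ hγ, sub_self]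
    have e0 : (⟨x₀, hx₀K⟩ : E) = algebraMap k E c +
        (⟨D.χ γ, D.χ_mem γ hγ⟩ : E) * ⟨_, huK⟩ := by
      apply Subtype.ext
      show x₀ = algebraMap k Ω c + D.χ γ * ((x₀ - algebraMap k Ω c) / D.χ γ)
      field_simp
      ring
    have e1 : d ⟨x₀, hx₀K⟩ = (⟨D.χ γ, D.χ_mem γ hγ⟩ : E) * d ⟨_, huK⟩ := by
      rw [e0, d.map_add, d.map_algebraMap, zero_add, d.leibniz, hχ γ hγ]
      simp only [smul_eq_mul, mul_zero, add_zero]
    have e2 : ((d ⟨x₀, hx₀K⟩ : E) : Ω) = D.χ γ * ((d ⟨_, huK⟩ : E) : Ω) := by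
      rw [e1]; rfl
    have g1 : v.Ge (γ + val x₀) (D.χ γ * ((d ⟨_, huK⟩ : E) : Ω)) := by
      refine RVal.Ge.mul ?_ (hall _ hu0 huK)
      intro _
      rw [D.χ_val γ hγ]
    rw [← e2] at g1
    have g4 := g1 hD0'
    rw [hval x₀ hx₀K] at g4
    linarith
  -- hence on the valuation ring
  have hR0 : ∀ x, v.Ge 0 x → ∀ hx : x ∈ E, d ⟨x, hx⟩ = 0 := by
    intro x hx hxK
    by_contra h0
    have h0' : ((d ⟨x, hxK⟩ : E) : Ω) ≠ 0 := fun h1 => h0 (Subtype.ext h1)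
    have h1 := key (v ((d ⟨x, hxK⟩ : E) : Ω) + 1) (fun z hz hzK => by
      rw [hF0 z hz hzK]; exact RVal.Ge.zero) x hx hxK h0'
    linarith
  ext x
  rcases eq_or_ne (x : Ω) 0 with hx0 | hx0
  · have : x = 0 := Subtype.ext hx0
    rw [this, map_zero, map_zero]
  rcases le_total 0 (v (x : Ω)) with hx | hx
  · have h1 := hR0 (x : Ω) (fun _ => hx) x.2
    have h2 : (⟨(x : Ω), x.2⟩ : E) = x := rfl
    rw [h2] at h1
    rw [h1]
    rfl
  · have h1 := hR0 ((x⁻¹ : E) : Ω) (fun _ => by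
      have h3 : ((x⁻¹ : E) : Ω) = (x : Ω)⁻¹ := rfl
      rw [h3, v.map_inv hx0]
      linarith) (x⁻¹).2
    have h2 : (⟨((x⁻¹ : E) : Ω), (x⁻¹).2⟩ : E) = x⁻¹ := rfl
    rw [h2] at h1
    have hx0' : x ≠ 0 := fun h3 => hx0 (by rw [h3]; rfl)
    have h3 : d (x * x⁻¹) = 0 := by
      rw [mul_inv_cancel₀ hx0', d.map_one_eq_zero]
    rw [d.leibniz, h1, smul_zero, zero_add, smul_eq_mul] at h3
    have h4 : d x = 0 := (mul_eq_zero.1 h3).resolve_left (inv_ne_zero hx0')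
    rw [h4]
    rfl

/-- The elements of `E` are separable over the field of the monomials. -/
theorem sep (h : Ctx0 k v) (hE : E.FG) {g : Ω} (hg : g ∈ E) : IsSeparable D.K₁ g := by
  classical
  have hess : Algebra.EssFiniteType k E := IntermediateField.essFiniteType_iff.2 hE
  set Z : Set E := {z | (z : Ω) ∈ D.χ '' {γ | γ ∈ D.Γ}} with hZ
  have hspan : Submodule.span E (KaehlerDifferential.D k E '' Z) = ⊤ := by
    by_contra hne
    obtain ⟨f, hf0, hf⟩ := Submodule.exists_le_ker_of_lt_top _ (lt_top_iff_ne_top.2 hne)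
    set d : Derivation k E E := f.compDer (KaehlerDifferential.D k E) with hd
    have hDZ : ∀ z ∈ Z, d z = 0 := fun z hz => hf (Submodule.subset_span ⟨z, hz, rfl⟩)
    have hD0 : d = 0 := D.der_zero h d (fun γ hγ hx => hDZ _ ⟨γ, hγ, rfl⟩)
    apply hf0
    refine LinearMap.ext_on (KaehlerDifferential.span_range_derivation k E) ?_
    rintro _ ⟨x, rfl⟩
    have : d x = 0 := by rw [hD0]; rfl
    exact this
  have hsep := sep_of_span Z hspan
  have h2 := sep_transfer E Z hsep g hg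
  have h3 : (fun z : E => (z : Ω)) '' Z = D.χ '' {γ | γ ∈ D.Γ} := by
    ext x
    constructor
    · rintro ⟨z, hz, rfl⟩
      exact hz
    · intro hx
      have hxK : x ∈ E := by
        obtain ⟨γ, hγ, rfl⟩ := hx
        exact D.χ_mem γ hγ
      exact ⟨⟨x, hxK⟩, hx, rfl⟩
  rwa [h3] at h2

/-- **`E` is contained in the henselization of the field of the monomials.** -/
theorem le_hen (h : Ctx0 k v) (hE : E.FG) : E ≤ hen v D.K₁ := by
  intro f hf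
  rw [mem_hen]
  exact ⟨fun σ => D.approx h hf σ, D.sep h hE hf⟩

end BaseD

end Pool.Agent.TW
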