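import Pool.Agent.Lib.ALL_h26.Comp
import Pool.Agent.Lib.ALL_h26.FinL

/-!
# TANK W: log uniformization of the valuation rings whose rank one components lie in a class
-/

set_option autoImplicit false

namespace Pool.Agent.TW

open Pool.Agent.LU2 Pool.Agent.LU2G Pool.Agent.LU2H
open Pool.Agent.LUC (DenseIn LUrV fgField_of_fg ascent ascends_lur)

universe u

/-- A class of valuation rings of fields over `k`. -/
abbrev Cls (k : Type u) [Field k] : Type (u + 1) :=
  ∀ (K : Type u) [Field K] [Algebra k K], ValuationSubring K → Prop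

/-- The class is closed under restriction to subfields. -/
def Cls.Sub {k : Type u} [Field k] (C : Cls k) : Prop :=
  ∀ (K : Type u) [Field K] [Algebra k K] (V : ValuationSubring K),
    (∀ c : k, algebraMap k K c ∈ V) → Algebra.trdeg k K < Cardinal.aleph0 → C K V →
      ∀ L : IntermediateField k K, C L (V.comap (algebraMap L K))

/-- Log uniformization of the real valuations in the class. -/
def RealCls {k : Type u} [Field k] (C : Cls k) : Prop :=
  ∀ (K : Type u) [Field K] [Algebra k K], (⊤ : IntermediateField k K).FG →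
    ∀ V : ValuationSubring K, (∀ c : k, algebraMap k K c ∈ V) → IsR1 V → C K V → LUr k V

section

variable {k : Type u} [Field k] (C : Cls k) {K : Type u} [Field K] [Algebra k K]

/-- The component of the valuation ring `V` between `V` and `V₁` is in the class. -/
def CompC (V V₁ : ValuationSubring K) : Prop :=
  ∃ (K₁ : Type u) (_ : Field K₁) (_ : Algebra k K₁) (φ : V₁ →+* K₁) (V₂ : ValuationSubring K₁),
    IsRes (k := k) V V₁ φ V₂ ∧ Algebra.trdeg k K₁ < Cardinal.aleph0 ∧ C K₁ V₂

/-- All rank one components of `V` are in the class. -/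
def AllCompC (V : ValuationSubring K) : Prop :=
  ∀ V₂ V₁ : ValuationSubring K, V ≤ V₂ → Covers V₂ V₁ → CompC C V₂ V₁

variable {C}

theorem AllCompC.of_le {V V₁ : ValuationSubring K} (h : AllCompC C V) (hle : V ≤ V₁) :
    AllCompC C V₁ := fun _ _ h₂ hc => h _ _ (hle.trans h₂) hc

/-- The components in the class are good. -/
theorem compGood_ofC (hsub : C.Sub) (hreal : RealCls C) {V V₁ : ValuationSubring K}
    (hcov : Covers V V₁) (hdef : CompC C V V₁) : CompGood k V V₁ := by
  classical
  obtain ⟨K₁, _, _, φ, V₂, hres, hfin₁, hC⟩ := hdef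
  refine ⟨K₁, inferInstance, inferInstance, φ, V₂, hres, fun A hfg hA _ hc => ?_⟩
  have hle : V ≤ V₁ := hcov.1.le
  obtain ⟨L, hL⟩ : ∃ L : IntermediateField k K₁, L = IntermediateField.adjoin k
    {c : K₁ | ∃ a : V₁, (a : K) ∈ A ∧ φ a = c} := ⟨_, rfl⟩
  rw [← hL]
  have hLfg : L.FG := hL ▸ adjoin_res_fg hres hfg hA
  have hLtop : (⊤ : IntermediateField k L).FG := by
    rw [← IntermediateField.essFiniteType_iff] at hLfg
    rw [IntermediateField.fg_top_iff]
    exact hLfg
  have hk₂ : ∀ c : k, algebraMap k K₁ c ∈ V₂ := hres.const₂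
  refine hreal L hLtop _ ?_ (comap_isR1 hres hcov L ?_) (hsub K₁ V₂ hk₂ hfin₁ hC L)
  · intro c
    rw [ValuationSubring.mem_comap]
    have h := hk₂ c
    rwa [IsScalarTower.algebraMap_apply k L K₁] at h
  · obtain ⟨c, hcA, hcV, hcV₁⟩ := hc
    have hcV₁' : c ∈ V₁ := hle (hA c hcA)
    have hcL : φ ⟨c, hcV₁'⟩ ∈ L :=
      hL ▸ IntermediateField.subset_adjoin _ _ ⟨⟨c, hcV₁'⟩, hcA, rfl⟩
    have hc0 : φ ⟨c, hcV₁'⟩ ≠ 0 := (hres.ne_zero_iff _).2 hcV₁
    have hlt : V₂.valuation (φ ⟨c, hcV₁'⟩) < 1 := (hres.val_lt_iff _).2 hcV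
    intro htop
    have h1 : (⟨φ ⟨c, hcV₁'⟩, hcL⟩ : L)⁻¹ ∈ V₂.comap (algebraMap L K₁) := by
      rw [htop]
      exact ValuationSubring.mem_top _
    rw [ValuationSubring.mem_comap, map_inv₀, ← V₂.valuation_le_one_iff, map_inv₀] at h1
    have h2 : V₂.valuation (φ ⟨c, hcV₁'⟩) ≠ 0 := (Valuation.ne_zero_iff _).2 hc0
    have h3 : V₂.valuation (φ ⟨c, hcV₁'⟩) * (V₂.valuation (φ ⟨c, hcV₁'⟩))⁻¹ < 1 :=
      mul_lt_of_lt_of_le_one hlt h1
    rw [mul_inv_cancel₀ h2] at h3
    exact lt_irrefl _ h3

theorem lu_chainC (hsub : C.Sub) (hreal : RealCls C) (K : Type u) [Field K] [Algebra k K]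
    (n : ℕ) :
    ∀ W : Fin (n + 1) → ValuationSubring K, W 0 = ⊤ →
      (∀ i : Fin n, Covers (W i.succ) (W i.castSucc)) →
      (∀ c : k, algebraMap k K c ∈ W (Fin.last n)) → AllCompC C (W (Fin.last n)) →
      LU k (W (Fin.last n)) := by
  induction n with
  | zero =>
    intro W hW0 _ _ _
    have h1 : W (Fin.last 0) = ⊤ := hW0
    rw [h1]
    exact lu_top
  | succ n ih =>
    intro W hW0 hcov hk hdef
    have hcovV : Covers (W (Fin.last (n + 1))) (W (Fin.last n).castSucc) := hcov (Fin.last n)
    have hle := hcovV.1.le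
    have hLU₁ : LU k (W (Fin.last n).castSucc) := ih (fun i => W i.castSucc) hW0
      (fun i => hcov i.castSucc) (fun c => hle (hk c)) (hdef.of_le hle)
    obtain ⟨K₁, _, _, φ, V₂, hres, hfin₁, hC⟩ := hdef _ _ le_rfl hcovV
    have hk₂ : ∀ c : k, algebraMap k K₁ c ∈ V₂ := hres.const₂
    refine composite hres ?_ hLU₁ ?_
    · have := FinTrdeg.of_trdeg hfin₁
      obtain ⟨s, hs⟩ := exists_finset_isTranscendenceBasis k K₁
      refine ⟨s, ?_⟩
      have h := hs.isAlgebraic_field
      rwa [Subtype.range_coe_subtype, Finset.setOfPred_mem] at h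
    · intro L hL halg
      have hLtop : (⊤ : IntermediateField k L).FG := by
        rw [← IntermediateField.essFiniteType_iff] at hL
        rw [IntermediateField.fg_top_iff]
        exact hL
      by_cases hne : V₂.comap (algebraMap L K₁) = ⊤
      · rw [hne]
        exact lu_top
      refine (hreal L hLtop _ ?_ (comap_isR1 hres hcovV L hne) (hsub K₁ V₂ hk₂ hfin₁ hC L)).lu
      intro c
      rw [ValuationSubring.mem_comap]
      have h := hk₂ c
      rwa [IsScalarTower.algebraMap_apply k L K₁] at h

/-- Log uniformization of the valuation rings all of whose components are in the class. -/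
theorem lu_compC (hsub : C.Sub) (hreal : RealCls C)
    (hfin : Algebra.trdeg k K < Cardinal.aleph0) (V : ValuationSubring K)
    (hk : ∀ c : k, algebraMap k K c ∈ V) (hV : AllCompC C V) : LU k V := by
  by_cases htop : V = ⊤
  · rw [htop]
    exact lu_top
  · obtain ⟨n, W, hW0, hWn, hcov⟩ := exists_chain hk htop hfin
    subst hWn
    exact lu_chainC hsub hreal K n W hW0 hcov hk hV

end

/-- The final theorem for MP_5b7a2c_ag, with a dense subfield, for a class. -/
theorem logUniformizable_denseC (k : Type) [Field k] {C : Cls k} (hsub : C.Sub)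
    (hreal : RealCls C) (A : Type) [CommRing A] [IsDomain A] [Algebra k A]
    [Algebra.EssFiniteType k A] (V : ValuationSubring (FractionRing A))
    (hV : ∀ a : A, algebraMap A (FractionRing A) a ∈ V)
    (F : IntermediateField k (FractionRing A)) (hF : F.FG)
    (hdense : ∀ a b : FractionRing A, b ≠ 0 → ∃ c ∈ F, V.valuation (a - c) < V.valuation b)
    (s : Finset (FractionRing A)) (hs : AlgebraicIndependent F (Subtype.val : s → FractionRing A))
    (hsep : Algebra.IsSeparable (IntermediateField.adjoin F (s : Set (FractionRing A)))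
      (FractionRing A))
    (hdef : AllCompC C (V.comap (algebraMap F (FractionRing A)))) :
    LU2G.LogUniformizable V := by
  have h1 : Algebra.EssFiniteType A (FractionRing A) :=
    Algebra.EssFiniteType.of_isLocalization _ (nonZeroDivisors A)
  have h2 : Algebra.EssFiniteType k (FractionRing A) :=
    Algebra.EssFiniteType.comp k A (FractionRing A)
  have hFtop : (⊤ : IntermediateField k F).FG := by
    rw [← IntermediateField.essFiniteType_iff] at hF
    rw [IntermediateField.fg_top_iff]
    exact hF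
  have hKtop : (⊤ : IntermediateField k (FractionRing A)).FG :=
    IntermediateField.fg_top_iff.2 h2
  have h3 : Algebra.EssFiniteType k F := IntermediateField.fg_top_iff.1 hFtop
  have hfin : Algebra.trdeg k F < Cardinal.aleph0 := _root_.trdeg_lt_aleph0 k F
  have hkV : ∀ c : k, algebraMap k (FractionRing A) c ∈ V := by
    intro c
    rw [IsScalarTower.algebraMap_apply k A (FractionRing A)]
    exact hV _
  have hLU : Pool.Agent.LU2.LU k (V.comap (algebraMap F (FractionRing A))) := by
    refine lu_compC hsub hreal hfin _ (fun c => ?_) hdef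
    rw [ValuationSubring.mem_comap]
    exact hkV c
  refine Pool.Agent.LU2G.logUniformizable_of_LU_ess k A V hV (LUC.lu_iff.2 ?_)
  refine LUC.ascent (LUC.ascends_lu k) V (fun a b hb => ?_) (LUC.fgField_of_fg hFtop)
    (LUC.fgField_of_fg hKtop) s hs hsep (LUC.lu_iff.1 hLU)
  obtain ⟨c, hc, hc'⟩ := hdense a b hb
  exact ⟨⟨c, hc⟩, hc'⟩

/-- The final theorem for MP_5b7a2c_ag, for a class. -/
theorem logUniformizable_C (k : Type) [Field k] {C : Cls k} (hsub : C.Sub)
    (hreal : RealCls C) (A : Type) [CommRing A] [IsDomain A] [Algebra k A]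
    [Algebra.EssFiniteType k A] (V : ValuationSubring (FractionRing A))
    (hV : ∀ a : A, algebraMap A (FractionRing A) a ∈ V) (hdef : AllCompC C V) :
    LU2G.LogUniformizable V := by
  have h1 : Algebra.EssFiniteType A (FractionRing A) :=
    Algebra.EssFiniteType.of_isLocalization _ (nonZeroDivisors A)
  have h2 : Algebra.EssFiniteType k (FractionRing A) :=
    Algebra.EssFiniteType.comp k A (FractionRing A)
  have hkV : ∀ c : k, algebraMap k (FractionRing A) c ∈ V := by
    intro c
    rw [IsScalarTower.algebraMap_apply k A (FractionRing A)]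
    exact hV _
  exact Pool.Agent.LU2G.logUniformizable_of_LU_ess k A V hV
    (lu_compC hsub hreal (_root_.trdeg_lt_aleph0 k (FractionRing A)) V hkV hdef)

/-- The component between `V` and `V₁`, as valuation ring of the residue field of `V₁`. -/
theorem compC_of {k K : Type} [Field k] [Field K] [Algebra k K] {C : Cls k}
    {V V₁ : ValuationSubring K} (hle : V ≤ V₁)
    (hk : ∀ c : k, algebraMap k K c ∈ V) (hk₁ : ∀ c : k, algebraMap k K c ∈ V₁)
    (hfin : resDegree (algebraMap k K) V₁ hk₁ < Cardinal.aleph0)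
    (hC : @C (IsLocalRing.ResidueField V₁) _ (((IsLocalRing.residue V₁).comp
      ((algebraMap k K).codRestrict V₁ hk₁)).toAlgebra) (imgV hle)) : CompC C V V₁ :=
  ⟨IsLocalRing.ResidueField V₁, inferInstance, _, IsLocalRing.residue V₁, imgV hle,
    isRes_residue hle hk hk₁, hfin, hC⟩

end Pool.Agent.TW
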