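import Pool.Agent.Lib.TW.Defs

/-!
# TANK W: definitions for theorem E*

`F` a field with bounded distortion, `z` transcendental over `F`, `η` a separable element near `z`
of minimal degree (the centre), `N = F(η)`. Functions of `z` are handled through the Taylor
coefficients at `η` of polynomials over `F`.

* `kr s = k(s)`, `Dns v F`: the values of `F` are dense;
* `Near k v s s' κ`: the polynomials in `s'` are near to the ones in `s`;
* `tc F η P j`: the `j`-th Taylor coefficient of `P` at `η`;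
* `GN v F η b c A`: the Gauss value of `A` on the disc of radius `b` around `η` is `≥ c`;
* `RB v F η b B`: `B` has no zero nearer than `b` to `η`;
* `Reg v F z η b₁ b c f`: `f = A(z)/B(z)`, `B` without zeros nearer than `b₁`, Gauss value `≥ c`;
* `IsGV`: the Gauss value; `Cen`: centres; `SD`: the star data of theorem E*.
-/

set_option autoImplicit false

open Polynomial

namespace Pool.Agent.TW

open Pool.Agent.H15JM (RVal)
open Pool.Agent.LU1 (VPos adj)
open Pool.Agent.D2 (Ctx0)
open Pool.Agent.D2P (hen)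

universe u

section

/-- `k(s)`. -/
abbrev kr (k : Type u) {Ω : Type u} [Field k] [Field Ω] [Algebra k Ω] {n : ℕ} (s : Fin n → Ω) :
    IntermediateField k Ω := IntermediateField.adjoin k (Set.range s)

variable {k Ω : Type u} [Field k] [Field Ω] [Algebra k Ω]

/-- The values of `F` are dense. -/
def Dns (v : RVal Ω) (F : IntermediateField k Ω) : Prop :=
  ∀ a b : ℝ, a < b → ∃ c ∈ F, c ≠ 0 ∧ a < v c ∧ v c < b

/-- The polynomials in `s'` are near to the polynomials in `s`. -/
structure Near (k : Type u) {Ω : Type u} [Field k] [Field Ω] [Algebra k Ω] (v : RVal Ω) {n : ℕ}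
    (s s' : Fin n → Ω) (κ : ℝ) : Prop where
  pos : 0 < κ
  near : ∀ P : MvPolynomial (Fin n) k, MvPolynomial.aeval s P ≠ 0 →
    v.Ge (v (MvPolynomial.aeval s P) + κ) (MvPolynomial.aeval s' P - MvPolynomial.aeval s P)

/-- The `j`-th Taylor coefficient of `P` at `η`. -/
noncomputable def tc (F : IntermediateField k Ω) (η : Ω) (P : F[X]) (j : ℕ) : Ω :=
  (taylor η (P.map (algebraMap F Ω))).coeff j

/-- The Gauss value of `A` on the disc of radius `b` around `η` is `≥ c`. -/
def GN (v : RVal Ω) (F : IntermediateField k Ω) (η : Ω) (b c : ℝ) (A : F[X]) : Prop :=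
  ∀ j : ℕ, v.Ge (c - j * b) (tc F η A j)

/-- `B` has no zero at a distance `> b` (in value) from `η`. -/
def RB (v : RVal Ω) (F : IntermediateField k Ω) (η : Ω) (b : ℝ) (B : F[X]) : Prop :=
  aeval η B ≠ 0 ∧ ∀ j : ℕ, v.Ge (v (aeval η B) - j * b) (tc F η B j)

/-- `f = A(z)/B(z)`, `B` without zeros nearer than `b₁` to `η`, of Gauss value `≥ c` for the
radius `b`. -/
def Reg (v : RVal Ω) (F : IntermediateField k Ω) (z η : Ω) (b₁ b c : ℝ) (f : Ω) : Prop :=
  ∃ A B : F[X], RB v F η b₁ B ∧ GN v F η b (c + v (aeval η B)) A ∧ aeval z B ≠ 0 ∧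
    f = aeval z A / aeval z B

/-- `c` is the Gauss value of `A`, attained in a positive degree. -/
def IsGV (v : RVal Ω) (F : IntermediateField k Ω) (η : Ω) (b c : ℝ) (A : F[X]) : Prop :=
  GN v F η b c A ∧ ∃ j : ℕ, 0 < j ∧ tc F η A j ≠ 0 ∧ v (tc F η A j) + j * b = c

/-- A centre: `η` is separable over `F`, nearer to `z` than `b > ρ`, `b` a value of `F(η)`, and the
polynomials over `F` of smaller degree have no zeros nearer than `ρ`. -/
structure Cen (v : RVal Ω) (F : IntermediateField k Ω) (z η : Ω) (ρ b : ℝ) : Prop where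
  tr : Transcendental F z
  sep : IsSeparable F η
  lt : ρ < b
  lt' : b < v (z - η)
  val : ∃ π ∈ adj F η, π ≠ 0 ∧ v π = b
  tb : ∀ P : F[X], P ≠ 0 → P.natDegree < (minpoly F η).natDegree → RB v F η ρ P

/-- The star data of theorem E*. `S` is an orthogonal frame of `N = F(η)`, `S'` the coordinates in
`F(z)` near to it, `q` has the Gauss value of the minimal polynomial of `η`. -/
structure SD (p : ℕ) (k : Type u) {Ω : Type u} [Field k] [Field Ω] [Algebra k Ω] (v : RVal Ω)
    (r D : ℕ) (F : IntermediateField k Ω) (z η : Ω) (ρ b₁ b ε : ℝ) where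
  cen : Cen v F z η ρ b
  ε_nonneg : 0 ≤ ε
  lt₁ : ρ + p * ε < b₁
  lt₂ : b₁ < b
  /-- the uniformizing element of the disc -/
  π : Ω
  π_mem : π ∈ adj F η
  π_ne : π ≠ 0
  π_val : v π = b
  /-- the frame of `N` -/
  S : Fr k v r D
  fr : S.IsFr (adj F η)
  pb : PBasis p (adj F η) S.s
  orth : Orth p v (adj F η) S.s ε
  /-- the coordinates in `F(z)` -/
  S' : Fr k v r D
  star : ∀ i, ∃ P : F[X], P.natDegree < (minpoly F η).natDegree ∧ aeval η P = S.s i ∧
    aeval z P = S'.s i
  /-- polynomials in `S'` are functions without zeros near `η` -/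
  rb : ∀ P : MvPolynomial (Fin (r + D)) k, MvPolynomial.aeval S.s P ≠ 0 →
    ∃ B : F[X], RB v F η b₁ B ∧ aeval η B = MvPolynomial.aeval S.s P ∧
      aeval z B = MvPolynomial.aeval S'.s P
  near : Near k v S.s S'.s (v (z - η) - b₁)
  /-- two small elements -/
  w₃ : Ω
  w₄ : Ω
  w₃_mem : w₃ ∈ S'.K
  w₄_mem : w₄ ∈ S'.K
  w₃_ne : w₃ ≠ 0
  w₄_ne : w₄ ≠ 0
  w₃_pos : 0 < v w₃
  w₄_ge : p * ε ≤ v w₄
  w_le : v w₃ + v w₄ ≤ b₁ - ρ
  pb' : PBasis p S'.K S'.s
  orth' : Orth p v S'.K S'.s ε
  /-- the Gauss value of the minimal polynomial -/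
  q : Ω
  q_mem : q ∈ S'.K
  q_ne : q ≠ 0
  q_val : IsGV v F η b (v q) (minpoly F η)

namespace SD

variable {p : ℕ} {v : RVal Ω} {r D : ℕ} {F : IntermediateField k Ω} {z η : Ω} {ρ b₁ b ε : ℝ}

/-- The last parameter. -/
noncomputable def X (d : SD p k v r D F z η ρ b₁ b ε) : Ω := aeval z (minpoly F η) / d.q

/-- The coordinate of the disc over `N`. -/
noncomputable def zl (d : SD p k v r D F z η ρ b₁ b ε) : Ω := (z - η) / d.π

/-- The generating set of `A`. -/
def gA (d : SD p k v r D F z η ρ b₁ b ε) : Set Ω := (OV v d.S'.K : Set Ω) ∪ {d.X}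

/-- The henselian ring of the regular functions over `F`. -/
def A (d : SD p k v r D F z η ρ b₁ b ε) : Subring Ω := hensA v (Subring.closure d.gA)

/-- The henselian ring of the regular functions over `N`. -/
def R (d : SD p k v r D F z η ρ b₁ b ε) : Subring Ω :=
  hensA v (Subring.closure ((OV v (adj F η) : Set Ω) ∪ {d.zl}))

/-- The henselian ring of `zl` over the field of `S'`. -/
def R' (d : SD p k v r D F z η ρ b₁ b ε) : Subring Ω :=
  hensA v (Subring.closure ((OV v d.S'.K : Set Ω) ∪ {d.zl}))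

end SD

end

end Pool.Agent.TW
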