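import Pool.Agent.Lib.TW.Defs

/-!
# TANK W, row H2: the henselization of the valuation ring of a field

`hensA v (OV v E) = OV v (hen v E)`.
-/

set_option autoImplicit false

open Polynomial

namespace Pool.Agent.TW

open Pool.Agent.H15JM (RVal)
open Pool.Agent.LU1 (VPos adj)
open Pool.Agent.LUC (Cl clF)
open Pool.Agent.D2 (Ctx0)
open Pool.Agent.D2P (hen rootF)

universe u

variable {k Ω : Type u} [Field k] [Field Ω] [Algebra k Ω] {v : RVal Ω}

namespace H2aux

theorem ge_pow {x : Ω} (hx : v.Ge 0 x) (n : ℕ) : v.Ge 0 (x ^ n) := by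
  induction n with
  | zero => rw [pow_zero]; exact fun _ => by rw [v.map_one]
  | succ n ih =>
    rw [pow_succ]
    have := ih.mul hx
    rwa [add_zero] at this

/-- The values of a polynomial at the elements of value `≥ 0` are bounded below. -/
theorem exists_bound (v : RVal Ω) (P : Polynomial Ω) :
    ∃ C : ℝ, ∀ x, v.Ge 0 x → v.Ge C (P.eval x) := by
  induction P using Polynomial.induction_on' with
  | add P Q hP hQ =>
    obtain ⟨C, hC⟩ := hP
    obtain ⟨D, hD⟩ := hQ
    refine ⟨min C D, fun x hx => ?_⟩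
    rw [eval_add]
    exact ((hC x hx).mono (min_le_left _ _)).add ((hD x hx).mono (min_le_right _ _))
  | monomial n a =>
    refine ⟨v a, fun x hx => ?_⟩
    rw [eval_monomial]
    have := (RVal.ge_self (v := v) a).mul (ge_pow hx n)
    rwa [add_zero] at this

/-- Polynomials are Lipschitz on the elements of value `≥ 0`. -/
theorem exists_lip (v : RVal Ω) (P : Polynomial Ω) :
    ∃ C : ℝ, ∀ x y : Ω, ∀ e : ℝ, v.Ge 0 x → v.Ge 0 y →
    v.Ge e (x - y) → v.Ge (C + e) (P.eval x - P.eval y) := by
  have h1 : ∀ n : ℕ, ∀ x y : Ω, ∀ e : ℝ, v.Ge 0 x → v.Ge 0 y →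
      v.Ge e (x - y) → v.Ge e (x ^ n - y ^ n) := by
    intro n x y e hx hy he
    induction n with
    | zero => rw [pow_zero, pow_zero, sub_self]; exact RVal.Ge.zero
    | succ n ih =>
      have h2 : x ^ (n + 1) - y ^ (n + 1) = (x ^ n - y ^ n) * x + y ^ n * (x - y) := by ring
      rw [h2]
      have h3 := ih.mul hx
      have h4 := (ge_pow hy n).mul he
      rw [add_zero] at h3
      rw [zero_add] at h4
      exact h3.add h4
  induction P using Polynomial.induction_on' with
  | add P Q hP hQ =>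
    obtain ⟨C, hC⟩ := hP
    obtain ⟨D, hD⟩ := hQ
    refine ⟨min C D, fun x y e hx hy he => ?_⟩
    rw [eval_add, eval_add, add_sub_add_comm]
    exact ((hC x y e hx hy he).mono (by have := min_le_left C D; linarith)).add
      ((hD x y e hx hy he).mono (by have := min_le_right C D; linarith))
  | monomial n a =>
    refine ⟨v a, fun x y e hx hy he => ?_⟩
    rw [eval_monomial, eval_monomial, ← mul_sub]
    exact (RVal.ge_self (v := v) a).mul (h1 n x y e hx hy he)

/-- The coefficients of the Taylor expansions at the elements of value `≥ 0` are bounded below. -/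
theorem exists_taylor_bound (v : RVal Ω) (P : Polynomial Ω) :
    ∃ C : ℝ, ∀ i, ∀ x, v.Ge 0 x → v.Ge C ((taylor x P).coeff i) := by
  choose C hC using fun i : ℕ => exists_bound v (hasseDeriv i P)
  obtain ⟨D, hD⟩ : ∃ D : ℝ, ∀ i ∈ Finset.range (P.natDegree + 1), D ≤ C i := by
    refine ⟨(Finset.range (P.natDegree + 1)).inf' ⟨0, by simp⟩ C, fun i hi => ?_⟩
    exact Finset.inf'_le _ hi
  refine ⟨D, fun i x hx => ?_⟩
  rw [taylor_coeff]
  by_cases hi : i ∈ Finset.range (P.natDegree + 1)
  · exact (hC i x hx).mono (hD i hi)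
  · rw [Finset.mem_range, not_lt] at hi
    rw [hasseDeriv_eq_zero_of_lt_natDegree _ _ (by omega), eval_zero]
    exact RVal.Ge.zero

/-- The valuation ring of `v`. -/
def geRing (v : RVal Ω) : Subring Ω where
  carrier := {a | v.Ge 0 a}
  mul_mem' := by
    intro a b ha hb
    have h := RVal.Ge.mul ha hb
    rwa [add_zero] at h
  one_mem' := fun _ => by rw [v.map_one]
  add_mem' := fun ha hb => RVal.Ge.add ha hb
  zero_mem' := RVal.Ge.zero
  neg_mem' := fun ha => RVal.Ge.neg ha

/-- Two roots with the same residue of a polynomial with coefficients of value `≥ 0` are equal, if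
the derivative has value `0`. -/
theorem root_unique {g : Polynomial Ω} (hg : ∀ i, v.Ge 0 (g.coeff i)) {a b : Ω} (ha : v.Ge 0 a)
    (hb : v.Ge 0 b) (h0 : g.eval a = 0) (h1 : g.derivative.eval a ≠ 0)
    (h2 : v (g.derivative.eval a) = 0) (hb0 : g.eval b = 0) (hab : VPos v (b - a)) : b = a := by
  by_contra hne
  have hba : b - a ≠ 0 := sub_ne_zero.2 hne
  let O : Subring Ω := geRing v
  have hO : ∀ x : Ω, x ∈ O ↔ v.Ge 0 x := fun x => Iff.rfl
  have hlift : g ∈ lifts (algebraMap O Ω) := by
    rw [lifts_iff_coeff_lifts]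
    intro n
    exact ⟨⟨g.coeff n, (hO _).2 (hg n)⟩, rfl⟩
  obtain ⟨G, hG⟩ := (mem_lifts _).1 hlift
  obtain ⟨c, hc⟩ := G.binomExpansion (⟨a, (hO _).2 ha⟩ : O) (⟨b - a, (hO _).2 hab.ge⟩ : O)
  have h3 := congrArg (algebraMap O Ω) hc
  rw [_root_.map_add, _root_.map_add, _root_.map_mul, _root_.map_mul, _root_.map_pow] at h3
  have h4 : ∀ (P : O[X]) (x : O), algebraMap O Ω (P.eval x) = (P.map (algebraMap O Ω)).eval
      (algebraMap O Ω x) := fun P x => (eval_map_apply _ _).symm
  rw [h4, h4, h4, ← derivative_map, hG] at h3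
  have h5 : algebraMap O Ω ((⟨a, (hO _).2 ha⟩ : O) + ⟨b - a, (hO _).2 hab.ge⟩) = b := by
    show a + (b - a) = b
    ring
  rw [h5] at h3
  change g.eval b = g.eval a + g.derivative.eval a * (b - a) + (c : Ω) * (b - a) ^ 2 at h3
  rw [hb0, h0, zero_add] at h3
  have h6 : g.derivative.eval a = -((c : Ω) * (b - a)) := by
    have h7 : (g.derivative.eval a + (c : Ω) * (b - a)) * (b - a) = 0 := by
      linear_combination -h3
    rcases mul_eq_zero.1 h7 with h8 | h8
    · linear_combination h8
    · exact absurd h8 hba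
  have h7 : VPos v (g.derivative.eval a) := by
    rw [h6]
    exact (VPos.mul' ((hO _).1 c.2) hab).neg
  have := h7 h1
  rw [h2] at this
  exact lt_irrefl _ this

/-- The valuation ring of the henselization is henselian. -/
theorem hclosed_OV_hen [IsAlgClosed Ω] (h : Ctx0 k v) (E : IntermediateField k Ω) :
    HClosed v (OV v (hen v E)) where
  nonneg := fun f hf => hf.2
  inv := fun f hf h0 h1 => ⟨inv_mem hf.1, fun _ => by rw [v.map_inv h0, h1, neg_zero]⟩
  root := by
    intro g a hg ha h0 h1 h2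
    refine ⟨?_, ha⟩
    have hlift : g ∈ lifts (algebraMap (hen v E) Ω) := by
      rw [lifts_iff_coeff_lifts]
      intro n
      exact ⟨⟨g.coeff n, (hg n).1⟩, rfl⟩
    obtain ⟨G, hG⟩ := (mem_lifts _).1 hlift
    obtain ⟨c, hc⟩ := h.residue ha
    have hcM : algebraMap k Ω c ∈ hen v E := (hen v E).algebraMap_mem c
    have hev : ∀ x : Ω, aeval x G = g.eval x := fun x => by
      rw [← hG, aeval_def, eval₂_eq_eval_map]
    by_cases hac : a = algebraMap k Ω c
    · rw [hac]
      exact hcM
    refine D2P.mem_of_alone h (D2P.hen_hen E) G hcM ?_ ?_ ?_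
    · rw [hev, h0]
    · rw [aeval_def, eval₂_eq_eval_map, ← derivative_map, hG]
      exact h1
    · intro b hb hbc hv
      have hbp : VPos v (b - algebraMap k Ω c) := fun _ => by
        rw [hv]
        exact hc (sub_ne_zero.2 hac)
      have hb' : v.Ge 0 b := by
        have h3 : b = (b - algebraMap k Ω c) + algebraMap k Ω c := by ring
        rw [h3]
        exact hbp.ge.add (h.ge c)
      refine root_unique (fun i => (hg i).2) ha hb' h0 h1 h2 ?_ ?_
      · rw [← hev, hb]
      · have h3 : b - a = (b - algebraMap k Ω c) - (a - algebraMap k Ω c) := by ring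
        rw [h3]
        exact hbp.sub hc

/-- The elements of value `≥ 0` of the henselization are in every henselian ring over the valuation
ring of `E`. -/
theorem mem_of_hclosed {E : IntermediateField k Ω} (hpos : ∃ a ∈ E, a ≠ 0 ∧ 0 < v a)
    {B : Subring Ω} (hEB : OV v E ≤ B) (hB : HClosed v B) {a : Ω} (ha : a ∈ hen v E)
    (ha0 : v.Ge 0 a) : a ∈ B := by
  obtain ⟨hcl, hsep⟩ := D2P.mem_hen.1 ha
  obtain ⟨π, hπE, hπ0, hπ⟩ := hpos
  have hint : IsIntegral E a := hsep.isIntegral
  set F : E[X] := minpoly E a with hF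
  set f : Polynomial Ω := F.map (algebraMap E Ω) with hf
  have hf0 : f.eval a = 0 := by
    rw [hf, eval_map_algebraMap]
    exact minpoly.aeval E a
  have hf1 : f.derivative.eval a ≠ 0 := by
    rw [hf, derivative_map, eval_map_algebraMap]
    exact hsep.aeval_derivative_ne_zero (minpoly.aeval E a)
  set δ : Ω := f.derivative.eval a with hδ
  obtain ⟨C₂, hC₂⟩ := exists_taylor_bound v f
  obtain ⟨C₁, hC₁⟩ := exists_lip v f.derivative
  obtain ⟨C₀, hC₀⟩ := exists_lip v f
  obtain ⟨m, hm⟩ := exists_nat_gt (max (v δ - C₂) 0 / v π)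
  rw [div_lt_iff₀ hπ] at hm
  set d : Ω := π ^ m with hd
  have hd0 : d ≠ 0 := pow_ne_zero m hπ0
  have hdE : d ∈ E := pow_mem hπE m
  have hvd : max (v δ - C₂) 0 < v d := by rw [hd, v.map_pow hπ0]; exact hm
  have hvd1 : v δ - C₂ < v d := (le_max_left _ _).trans_lt hvd
  have hvd0 : 0 < v d := (le_max_right _ _).trans_lt hvd
  obtain ⟨a₀, ha₀E, hapx⟩ := hcl (max (v d) (max (v δ + 1 - C₁) (v δ + v d - C₀)))
  have hx1 : v.Ge (v d) (a - a₀) := hapx.mono (le_max_left _ _)
  have hx2 : v.Ge (v δ + 1 - C₁) (a - a₀) :=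
    hapx.mono ((le_max_left _ _).trans (le_max_right _ _))
  have hx3 : v.Ge (v δ + v d - C₀) (a - a₀) :=
    hapx.mono ((le_max_right _ _).trans (le_max_right _ _))
  have hx0 : v.Ge 0 (a - a₀) := hx1.mono hvd0.le
  have ha₀ : v.Ge 0 a₀ := by
    have h3 : a₀ = a - (a - a₀) := by ring
    rw [h3]
    exact ha0.sub hx0
  -- the derivative at `a₀`
  set η : Ω := f.derivative.eval a₀ with hη
  have h4 := hC₁ a a₀ _ ha0 ha₀ hx2
  have hη1 : η ≠ 0 ∧ v η = v δ := by
    have h5 : η = δ + -(δ - η) := by ring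
    by_cases h6 : δ - η = 0
    · have h7 : η = δ := by linear_combination -h6
      rw [h7]
      exact ⟨hf1, rfl⟩
    · rw [h5]
      refine v.add_of_lt hf1 (neg_ne_zero.2 h6) ?_
      rw [v.map_neg _ h6]
      have := h4 h6
      linarith
  obtain ⟨hη0, hηv⟩ := hη1
  -- everything over `E`
  let a' : E := ⟨a₀, ha₀E⟩
  let d' : E := ⟨d, hdE⟩
  let η' : E := F.derivative.eval a'
  have hη' : algebraMap E Ω η' = η := by
    show algebraMap E Ω (F.derivative.eval a') = _
    rw [hη, hf, derivative_map]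
    exact (eval_map_apply _ _).symm
  let G : E[X] := C (η' * d')⁻¹ * (taylor a' F).comp (C d' * X)
  have hGc : ∀ i, (G.map (algebraMap E Ω)).coeff i = (η * d)⁻¹ * ((taylor a₀ f).coeff i * d ^ i) := by
    intro i
    rw [coeff_map, coeff_C_mul, comp_C_mul_X_coeff, _root_.map_mul, map_inv₀, _root_.map_mul,
      _root_.map_mul, _root_.map_pow, hη']
    have h5 : algebraMap E Ω ((taylor a' F).coeff i) = (taylor a₀ f).coeff i := by
      rw [← coeff_map, hf]
      congr 1
      rw [taylor_apply, taylor_apply, map_comp, Polynomial.map_add, map_X, map_C]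
      rfl
    rw [h5]
    rfl
  have hηd : η * d ≠ 0 := mul_ne_zero hη0 hd0
  have hvinv : v ((η * d)⁻¹) = -(v δ + v d) := by
    rw [v.map_inv hηd, v.map_mul hη0 hd0, hηv]
  have hGB : ∀ i, (G.map (algebraMap E Ω)).coeff i ∈ B := by
    intro i
    apply hEB
    refine ⟨?_, ?_⟩
    · rw [coeff_map]
      exact (G.coeff i).2
    · rw [hGc]
      rcases i with _ | _ | i
      · rw [pow_zero, mul_one, taylor_coeff_zero]
        have h5 := hC₀ a a₀ _ ha0 ha₀ hx3
        rw [hf0, zero_sub] at h5
        have h6 := h5.neg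
        rw [neg_neg] at h6
        have h7 := (RVal.ge_self (v := v) ((η * d)⁻¹)).mul h6
        rw [hvinv] at h7
        exact h7.mono (by linarith)
      · rw [zero_add, pow_one, taylor_coeff_one, ← hη, inv_mul_cancel₀ hηd]
        exact fun _ => by rw [v.map_one]
      · have h6 := hC₂ (i + 1 + 1) a₀ ha₀
        have h7 := (RVal.ge_self (v := v) ((η * d)⁻¹)).mul
          (h6.mul (RVal.ge_self (v := v) (d ^ (i + 1 + 1))))
        rw [hvinv, v.map_pow hd0] at h7
        refine h7.mono ?_
        push_cast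
        have h8 : 0 ≤ (i : ℝ) * v d := mul_nonneg (Nat.cast_nonneg i) hvd0.le
        nlinarith
  -- the root
  let y : Ω := (a - a₀) / d
  have hy : v.Ge 0 y := by
    intro hy0
    have h5 : a - a₀ ≠ 0 := fun h6 => hy0 (by show (a - a₀) / d = 0; rw [h6, zero_div])
    show 0 ≤ v ((a - a₀) / d)
    rw [v.map_div h5 hd0]
    have := hx1 h5
    linarith
  have hay : a = a₀ + d * y := by
    show a = a₀ + d * ((a - a₀) / d)
    rw [mul_div_cancel₀ _ hd0]
    ring
  have hGmap : G.map (algebraMap E Ω) = C (η * d)⁻¹ * (f.comp (X + C a₀)).comp (C d * X) := by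
    ext i
    rw [hGc, coeff_C_mul, comp_C_mul_X_coeff, taylor_apply]
  have hyB : y ∈ B := by
    refine hB.root (G.map (algebraMap E Ω)) y hGB hy ?_ ?_ ?_
    · rw [hGmap, eval_mul, eval_comp, eval_comp]
      simp only [eval_add, eval_mul, eval_C, eval_X]
      rw [add_comm (d * y), ← hay, hf0, mul_zero]
    all_goals
      have h5 : (G.map (algebraMap E Ω)).derivative.eval y = δ / η := by
        rw [hGmap, derivative_C_mul, derivative_comp, derivative_comp]
        simp only [derivative_add, derivative_X, derivative_C, add_zero, one_mul, eval_mul,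
          eval_C, eval_comp, eval_add, eval_X, derivative_mul, zero_mul, zero_add, mul_one]
        rw [add_comm (d * y), ← hay, ← hδ, mul_inv]
        field_simp
      rw [h5]
    · exact div_ne_zero hf1 hη0
    · rw [v.map_div hf1 hη0, hηv, sub_self]
  rw [hay]
  exact B.add_mem (hEB ⟨ha₀E, ha₀⟩) (B.mul_mem (hEB ⟨hdE, fun _ => hvd0.le⟩) hyB)

end H2aux

/-- The henselization of the valuation ring of `E` is the valuation ring of the henselization. -/
theorem hensA_OV [IsAlgClosed Ω] (h : Ctx0 k v) (E : IntermediateField k Ω)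
    (hpos : ∃ a ∈ E, a ≠ 0 ∧ 0 < v a) : hensA v (OV v E) = OV v (hen v E) := by
  apply le_antisymm
  · exact sInf_le ⟨fun a ha => ⟨D2P.le_hen E ha.1, ha.2⟩, H2aux.hclosed_OV_hen h E⟩
  · refine le_sInf fun B hB a ha => ?_
    exact H2aux.mem_of_hclosed hpos hB.1 hB.2 ha.1 ha.2

end Pool.Agent.TW
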