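import Pool.Agent.Lib.TW.H1
import Pool.Agent.Lib.LCD.P3
import Pool.Agent.Lib.ALL_h44.Sep

/-!
# TANK W, P1: `p`-coordinates of the ring of a frame

* `P1.mem_of_frob`: if `B₀ ⊆ H` contains `H^p`, `k` and `P`, `H = hensA P`, then `B₀ = H` (Nakayama);
* `Fr.pcoord`, `Fr.PC_self`, `Fr.pbasis`.
-/

set_option autoImplicit false

open Polynomial

namespace Pool.Agent.TW

open Pool.Agent.H15JM (RVal)
open Pool.Agent.LU1 (VPos adj)
open Pool.Agent.LUC (Cl clF lv)
open Pool.Agent.D2 (Ctx0)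
open Pool.Agent.D2P (hen rootF)

universe u

variable {k Ω : Type u} [Field k] [Field Ω] [Algebra k Ω] {v : RVal Ω} {r D : ℕ}

namespace P1

/-! ### The ring `S[a]` -/

/-- Nakayama: `a` is integral over `B₀` and is congruent to an element of `B₀` modulo `m S`. -/
theorem mem_of_nak {B₀ : Subring Ω} (hinv : ∀ f ∈ B₀, f ≠ 0 → v f = 0 → f⁻¹ ∈ B₀)
    (hnn : ∀ f ∈ B₀, v.Ge 0 f)
    {a : Ω} (hint : IsIntegral B₀ a) {c : Ω} (hc : c ∈ B₀)
    (hm : ∃ m ∈ B₀, VPos v m ∧ ∃ s ∈ Algebra.adjoin B₀ {a}, a - c = m * s) : a ∈ B₀ := by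
  classical
  let I : Ideal B₀ :=
    { carrier := {b | VPos v (b : Ω)}
      add_mem' := fun {x y} hx hy => LU1.VPos.add hx hy
      zero_mem' := LU1.VPos.zero
      smul_mem' := fun x y hy => LU1.VPos.mul' (hnn _ x.2) hy }
  have hI : I ≤ Ideal.jacobson ⊥ := by
    intro x hx
    rw [Ideal.mem_jacobson_bot]
    intro y
    have h1 : VPos v ((x : Ω) * y) := LU1.VPos.mul hx (hnn _ y.2)
    have h2 := LU1.val_add_vpos (v := v) one_ne_zero v.map_one h1
    rw [add_comm] at h2
    have h3 := hinv (((x * y + 1 : B₀)) : Ω) (x * y + 1 : B₀).2 h2.1 h2.2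
    exact IsUnit.of_mul_eq_one ⟨_, h3⟩ (Subtype.ext (mul_inv_cancel₀ h2.1))
  let N : Submodule B₀ Ω := Subalgebra.toSubmodule (Algebra.adjoin B₀ {a})
  let N' : Submodule B₀ Ω := Subalgebra.toSubmodule (⊥ : Subalgebra B₀ Ω)
  have hfg : N.FG := hint.fg_adjoin_singleton
  have hle : N ≤ N' ⊔ I • N := by
    obtain ⟨m, hmB, hm0, s, hs, has⟩ := hm
    -- the set of the elements of `S` in `N' + I N` is a subalgebra
    have hone : (1 : Ω) ∈ N' := Subalgebra.one_mem _
    have key : ∀ x ∈ Algebra.adjoin B₀ {a}, x ∈ N' ⊔ I • N := by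
      intro x hx
      induction hx using Algebra.adjoin_induction with
      | mem x hx =>
        rw [Set.mem_singleton_iff] at hx
        subst hx
        have h1 : x = c + m * s := by rw [← has]; ring
        rw [h1]
        refine Submodule.add_mem_sup (Algebra.mem_bot.2 ⟨⟨c, hc⟩, rfl⟩) ?_
        exact Submodule.smul_mem_smul (show (⟨m, hmB⟩ : B₀) ∈ I from hm0) hs
      | algebraMap b => exact (le_sup_left : N' ≤ _) (Algebra.mem_bot.2 ⟨b, rfl⟩)
      | add x y _ _ hx hy => exact Submodule.add_mem _ hx hy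
      | mul x y hx' hy' hx hy =>
        obtain ⟨x1, hx1, x2, hx2, rfl⟩ := Submodule.mem_sup.1 hx
        obtain ⟨b, hb⟩ := Algebra.mem_bot.1 hx1
        rw [add_mul]
        refine Submodule.add_mem _ ?_ ?_
        · rw [← hb]
          have := Submodule.smul_mem (N' ⊔ I • N) b hy
          exact this
        · refine (le_sup_right : I • N ≤ _) ?_
          refine Submodule.smul_induction_on hx2 (fun i hi n hn => ?_) (fun n n' hn hn' => ?_)
          · rw [smul_mul_assoc]
            exact Submodule.smul_mem_smul hi ((Algebra.adjoin B₀ {a}).mul_mem hn hy')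
          · rw [add_mul]
            exact Submodule.add_mem _ hn hn'
    exact fun x hx => key x hx
  have h1 := Submodule.le_of_le_smul_of_le_jacobson_bot hfg hI hle
  have h2 : a ∈ N' := h1 (Algebra.self_mem_adjoin_singleton _ _)
  obtain ⟨b, hb⟩ := Algebra.mem_bot.1 h2
  rw [← hb]
  exact b.2

/-- The residue of an element of value `≥ 0`, and the root of a polynomial. -/
theorem root_step (p : ℕ) [Fact p.Prime] (h0 : Ctx0 k v) {B₀ H : Subring Ω}
    (hH : HClosed v H) (hle : B₀ ≤ H) (hk : ∀ c : k, algebraMap k Ω c ∈ B₀)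
    (hpow : ∀ f ∈ H, f ^ p ∈ B₀) : HClosed v B₀ := by
  classical
  have hp : p.Prime := Fact.out
  have hinv' : ∀ S : Subring Ω, B₀ ≤ S → S ≤ H → ∀ f ∈ S, f ≠ 0 → v f = 0 → f⁻¹ ∈ S := by
    intro S hS hSH f hf hf0 hv
    have h1 : f⁻¹ = f ^ (p - 1) * (f⁻¹) ^ p := by
      have h2 : p = (p - 1) + 1 := by have := hp.pos; omega
      have h3 : (f⁻¹) ^ p = (f⁻¹) ^ (p - 1) * f⁻¹ := by
        conv_lhs => rw [h2]
        rw [pow_succ]
      rw [h3, ← mul_assoc, ← mul_pow, mul_inv_cancel₀ hf0, one_pow, one_mul]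
    rw [h1]
    exact mul_mem (pow_mem hf _) (hS (hpow _ (hH.inv f (hSH hf) hf0 hv)))
  have hinv := hinv' B₀ le_rfl hle
  have hnn : ∀ f ∈ B₀, v.Ge 0 f := fun f hf => hH.nonneg f (hle hf)
  refine ⟨hnn, hinv, ?_⟩
  intro g a hg ha hga hd hvd
  have haH : a ∈ H := hH.root g a (fun i => hle (hg i)) ha hga hd hvd
  have hap : a ^ p ∈ B₀ := hpow a haH
  have hint : IsIntegral B₀ a := by
    refine ⟨X ^ p - C (⟨a ^ p, hap⟩ : B₀), monic_X_pow_sub_C _ hp.ne_zero, ?_⟩
    rw [eval₂_sub, eval₂_X_pow, eval₂_C]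
    exact sub_self _
  obtain ⟨c, hc⟩ := h0.residue ha
  -- the ring `S = B₀[a]`
  let S : Subring Ω := (Algebra.adjoin B₀ {a}).toSubring
  have hBS : B₀ ≤ S := fun b hb => (Algebra.adjoin B₀ {a}).algebraMap_mem ⟨b, hb⟩
  have hSH' : ∀ x ∈ Algebra.adjoin B₀ {a}, x ∈ H := by
    intro x hx
    induction hx using Algebra.adjoin_induction with
    | mem x hx => rw [Set.mem_singleton_iff] at hx; subst hx; exact haH
    | algebraMap b => exact hle b.2
    | add x y _ _ h1 h2 => exact add_mem h1 h2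
    | mul x y _ _ h1 h2 => exact mul_mem h1 h2
  have hSH : S ≤ H := fun x hx => hSH' x hx
  have haS : a ∈ S := Algebra.self_mem_adjoin_singleton _ _
  -- the polynomial over `S`
  obtain ⟨gS, hgS⟩ : ∃ gS : S[X], gS.map S.subtype = g := by
    refine (mem_lifts g).1 ((lifts_iff_coeff_lifts g).2 fun i => ?_)
    exact ⟨⟨g.coeff i, hBS (hg i)⟩, rfl⟩
  set a' : S := ⟨a, haS⟩ with ha'
  set c' : S := ⟨algebraMap k Ω c, hBS (hk c)⟩ with hc'
  obtain ⟨q, hq⟩ := binomExpansion gS a' (c' - a')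
  have hq' := congrArg S.subtype hq
  rw [add_sub_cancel, map_add, map_add, map_mul, map_mul, map_pow, map_sub] at hq'
  have he1 : S.subtype (gS.eval c') = g.eval (algebraMap k Ω c) := by
    rw [← hgS, eval_map, ← eval₂_hom]
    rfl
  have he2 : S.subtype (gS.eval a') = 0 := by
    rw [← hga, ← hgS, eval_map, ← eval₂_hom]
    rfl
  have he3 : S.subtype (gS.derivative.eval a') = g.derivative.eval a := by
    rw [← hgS, derivative_map, eval_map, ← eval₂_hom]
    rfl
  rw [he1, he2, he3] at hq'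
  have hq2 : g.eval (algebraMap k Ω c) =
      (algebraMap k Ω c - a) * (g.derivative.eval a + (algebraMap k Ω c - a) * (q : Ω)) := by
    rw [hq']
    show 0 + eval a (derivative g) * (algebraMap k Ω c - a) +
      (q : Ω) * (algebraMap k Ω c - a) ^ 2 = _
    ring
  set w : Ω := g.derivative.eval a + (algebraMap k Ω c - a) * (q : Ω) with hw
  have hca : VPos v (algebraMap k Ω c - a) := by
    have := hc.neg
    rwa [neg_sub] at this
  have hqnn : v.Ge 0 (q : Ω) := hH.nonneg _ (hSH q.2)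
  have hww := LU1.val_add_vpos (v := v) hd hvd (LU1.VPos.mul hca hqnn)
  have hwS : w ∈ S := by
    refine add_mem ?_ (mul_mem (sub_mem (hBS (hk c)) haS) q.2)
    rw [← he3]
    exact (gS.derivative.eval a').2
  have hwi : w⁻¹ ∈ S := hinv' S hBS hSH w hwS hww.1 hww.2
  have hgc : g.eval (algebraMap k Ω c) ∈ B₀ := by
    rw [eval_eq_sum]
    exact sum_mem fun i _ => mul_mem (hg i) (pow_mem (hk c) i)
  refine mem_of_nak (v := v) hinv hnn hint (hk c) ⟨g.eval (algebraMap k Ω c), hgc, ?_, -w⁻¹, ?_, ?_⟩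
  · rw [hq2]
    exact LU1.VPos.mul hca (hH.nonneg _ (hSH hwS))
  · exact neg_mem hwi
  · have hw0 : w ≠ 0 := hww.1
    rw [hq2]
    field_simp
    ring

/-! ### Monomials -/

section Mon

variable (F : Fr k v r D)

theorem mx_zero (x : Fin r → Ω) : mx x 0 = 1 := by
  simp [mx]

theorem mx_add {x : Fin r → Ω} (hx : ∀ i, x i ≠ 0) (l l' : Fin r → ℤ) :
    mx x (l + l') = mx x l * mx x l' := by
  unfold mx
  rw [← Finset.prod_mul_distrib]
  exact Finset.prod_congr rfl fun i _ => zpow_add₀ (hx i) _ _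

theorem mx_ne {x : Fin r → Ω} (hx : ∀ i, x i ≠ 0) (l : Fin r → ℤ) : mx x l ≠ 0 :=
  Finset.prod_ne_zero_iff.2 fun i _ => zpow_ne_zero _ (hx i)

theorem mx_neg {x : Fin r → Ω} (hx : ∀ i, x i ≠ 0) (l : Fin r → ℤ) :
    mx x (-l) = (mx x l)⁻¹ := by
  have h := mx_add hx l (-l)
  rw [add_neg_cancel, mx_zero] at h
  exact (eq_inv_of_mul_eq_one_right h.symm)

theorem mx_nsmul {x : Fin r → Ω} (n : ℕ) (l : Fin r → ℤ) :
    mx x (n • l) = mx x l ^ n := by
  unfold mx
  rw [← Finset.prod_pow]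
  refine Finset.prod_congr rfl fun i _ => ?_
  rw [Pi.smul_apply, nsmul_eq_mul, mul_comm, zpow_mul, zpow_natCast]

theorem mx_mem_P {l : Fin r → ℤ} (hl : 0 ≤ v (mx F.x l)) : mx F.x l ∈ F.P :=
  Subring.subset_closure (Or.inr (Or.inl ⟨l, rfl, hl⟩))

theorem y_mem_P (j : Fin D) : F.y j ∈ F.P :=
  Subring.subset_closure (Or.inr (Or.inr ⟨j, rfl⟩))

theorem k_mem_P (c : k) : algebraMap k Ω c ∈ F.P :=
  Subring.subset_closure (Or.inl ⟨c, rfl⟩)

theorem P_nn (h : Ctx0 k v) : ∀ f ∈ F.P, v.Ge 0 f := by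
  refine ksub_nonneg h ?_
  rintro a (⟨l, rfl, hl⟩ | ⟨j, rfl⟩)
  · exact RVal.Ge.of_le hl
  · exact RVal.Ge.of_le (F.y_pos j).le

theorem H_cl (h : Ctx0 k v) : HClosed v F.H := hclosed_hensA (P_nn F h)

theorem P_le_H : F.P ≤ F.H := le_hensA _

/-- The exponents of `f ∈ H[1/x]` can be increased. -/
theorem InHx.add {F : Fr k v r D} {f g : Ω} (hf : F.InHx f) (hg : F.InHx g) : F.InHx (f + g) := by
  have key : ∀ {f g : Ω} {l l' : Fin r → ℤ}, mx F.x l * f ∈ F.H → mx F.x l' * g ∈ F.H →
      v (mx F.x l') ≤ v (mx F.x l) → F.InHx (f + g) := by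
    intro f g l l' hf hg hle
    refine ⟨l, ?_⟩
    rw [mul_add]
    refine add_mem hf ?_
    have h1 : mx F.x l * g = mx F.x (l - l') * (mx F.x l' * g) := by
      rw [← mul_assoc, ← mx_add F.x_ne, sub_add_cancel]
    rw [h1]
    refine mul_mem (P_le_H F (mx_mem_P F ?_)) hg
    have h2 := mx_add F.x_ne (l - l') l'
    rw [sub_add_cancel] at h2
    have h3 := congrArg v h2
    rw [v.map_mul (mx_ne F.x_ne _) (mx_ne F.x_ne _)] at h3
    linarith
  obtain ⟨l, hl⟩ := hf
  obtain ⟨l', hl'⟩ := hg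
  rcases le_total (v (mx F.x l')) (v (mx F.x l)) with h | h
  · exact key hl hl' h
  · rw [add_comm]
    exact key hl' hl h

theorem InHx.of_mem {F : Fr k v r D} {f : Ω} (hf : f ∈ F.H) : F.InHx f :=
  ⟨0, by rw [mx_zero, one_mul]; exact hf⟩

theorem InHx.hmul {F : Fr k v r D} {f g : Ω} (hf : f ∈ F.H) (hg : F.InHx g) : F.InHx (f * g) := by
  obtain ⟨l, hl⟩ := hg
  exact ⟨l, by rw [mul_left_comm]; exact mul_mem hf hl⟩

theorem InHx.mxmul {F : Fr k v r D} {g : Ω} (l : Fin r → ℤ) (hg : F.InHx g) :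
    F.InHx (mx F.x l * g) := by
  obtain ⟨l', hl⟩ := hg
  refine ⟨l' - l, ?_⟩
  rw [← mul_assoc, ← mx_add F.x_ne, sub_add_cancel]
  exact hl

theorem InHx.neg {F : Fr k v r D} {f : Ω} (hf : F.InHx f) : F.InHx (-f) := by
  obtain ⟨l, hl⟩ := hf
  exact ⟨l, by rw [mul_neg]; exact neg_mem hl⟩

theorem s_ne (i : Fin (r + D)) : F.s i ≠ 0 := by
  unfold Fr.s
  refine Fin.addCases (fun i => ?_) (fun j => ?_) i
  · rw [Fin.append_left]; exact F.x_ne i
  · rw [Fin.append_right]; exact F.y_ne j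

/-- The monomials in all the coordinates. -/
theorem mx_s (q : Fin (r + D) → ℤ) :
    mx F.s q = mx F.x (fun i => q (Fin.castAdd D i)) * ∏ j, F.y j ^ q (Fin.natAdd r j) := by
  unfold mx Fr.s
  rw [Fin.prod_univ_add]
  simp only [Fin.append_left, Fin.append_right]

theorem InHx.smul {F : Fr k v r D} {g : Ω} (q : Fin (r + D) → ℤ)
    (hq : ∀ j, 0 ≤ q (Fin.natAdd r j)) (hg : F.InHx g) : F.InHx (mx F.s q * g) := by
  rw [mx_s, mul_assoc]
  refine InHx.mxmul _ (InHx.hmul ?_ hg)
  refine prod_mem fun j _ => ?_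
  obtain ⟨n, hn⟩ := Int.eq_ofNat_of_zero_le (hq j)
  rw [hn, zpow_natCast]
  exact pow_mem (P_le_H F (y_mem_P F j)) n

/-- Multiplication of a `p`-coordinate by a monomial. -/
theorem shift (p : ℕ) [Fact p.Prime] (e : Fin (r + D) → ℤ)
    (he : ∀ j, 0 ≤ e (Fin.natAdd r j)) (c : (Fin (r + D) → Fin p) → Ω)
    (hc : ∀ α, F.InHx (c α)) :
    ∃ (σ : Equiv.Perm (Fin (r + D) → Fin p)) (c' : (Fin (r + D) → Fin p) → Ω),
      (∀ α, F.InHx (c' α)) ∧
      ∀ α, c' (σ α) ^ p * mon F.s (σ α) = mx F.s e * (c α ^ p * mon F.s α) := by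
  classical
  have hp : p.Prime := Fact.out
  have _ : NeZero p := ⟨hp.ne_zero⟩
  have hp0 : (0 : ℤ) < p := by exact_mod_cast hp.pos
  -- the shift
  let a : Fin (r + D) → Fin p := fun i => ⟨(e i % p).toNat, by
    have h1 := Int.emod_lt_of_pos (e i) hp0
    have h2 := Int.emod_nonneg (e i) hp0.ne'
    omega⟩
  have ha : ∀ i, ((a i : ℕ) : ℤ) = e i % p := by
    intro i
    have h2 := Int.emod_nonneg (e i) hp0.ne'
    exact Int.toNat_of_nonneg h2
  let σ : Equiv.Perm (Fin (r + D) → Fin p) := Equiv.addRight a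
  have hσ : ∀ α i, ∃ q : ℤ, ((α i : ℕ) : ℤ) + e i = ((σ α i : ℕ) : ℤ) + p * q := by
    intro α i
    have h1 : ((σ α i : Fin p) : ℕ) = ((α i : ℕ) + (a i : ℕ)) % p := by
      show ((α i + a i : Fin p) : ℕ) = _
      rw [Fin.val_add]
    have h2 : (p : ℤ) ∣ ((α i : ℕ) : ℤ) + e i - ((σ α i : ℕ) : ℤ) := by
      rw [h1]
      rw [Int.natCast_mod, Nat.cast_add, ha]
      have h3 : ((α i : ℕ) : ℤ) + e i ≡ (((α i : ℕ) : ℤ) + e i % p) % p [ZMOD p] := by
        have h4 : (e i % p) ≡ e i [ZMOD p] := Int.mod_modEq _ _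
        exact ((Int.mod_modEq _ _).trans (h4.add_left _)).symm
      exact h3.symm.dvd
    obtain ⟨q, hq⟩ := h2
    exact ⟨q, by linarith⟩
  choose q hq using hσ
  have hqe : ∀ α i, 0 ≤ e i → 0 ≤ q α i := by
    intro α i hei
    have h1 := hq α i
    have h2 : ((σ α i : ℕ) : ℤ) < p := by exact_mod_cast (σ α i).2
    by_contra h3
    push Not at h3
    have h4 : (p : ℤ) * q α i ≤ p * (-1) := mul_le_mul_of_nonneg_left (by omega) hp0.le
    have h5 : (0 : ℤ) ≤ ((α i : ℕ) : ℤ) := Int.natCast_nonneg _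
    linarith
  refine ⟨σ, fun β => mx F.s (q (σ.symm β)) * c (σ.symm β), fun β => ?_, fun α => ?_⟩
  · exact InHx.smul _ (fun j => hqe _ _ (he j)) (hc _)
  · beta_reduce
    rw [Equiv.symm_apply_apply, mul_pow]
    have h1 : mx F.s e * mon F.s α = mx F.s (q α) ^ p * mon F.s (σ α) := by
      unfold mx mon
      rw [← Finset.prod_pow, ← Finset.prod_mul_distrib, ← Finset.prod_mul_distrib]
      refine Finset.prod_congr rfl fun i _ => ?_
      rw [← zpow_natCast (F.s i), ← zpow_natCast (F.s i), ← zpow_natCast (F.s i ^ q α i),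
        ← zpow_mul, ← zpow_add₀ (s_ne F i), ← zpow_add₀ (s_ne F i)]
      congr 1
      have := hq α i
      linarith
    calc mx F.s (q α) ^ p * c α ^ p * mon F.s (σ α)
        = c α ^ p * (mx F.s (q α) ^ p * mon F.s (σ α)) := by ring
      _ = c α ^ p * (mx F.s e * mon F.s α) := by rw [h1]
      _ = _ := by ring

/-- `f` has `p`-coordinates. -/
def Co (p : ℕ) (F : Fr k v r D) (f : Ω) : Prop :=
  ∃ c : (Fin (r + D) → Fin p) → Ω, (∀ α, F.InHx (c α)) ∧
      (∀ α, c α ^ p * mon F.s α ∈ F.H) ∧ f = pcomb F.s c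

variable {F} {p : ℕ} [hp : Fact p.Prime] [CharP Ω p]

theorem Co.add {f g : Ω} (hf : Co p F f) (hg : Co p F g) : Co p F (f + g) := by
  obtain ⟨c, h1, h2, rfl⟩ := hf
  obtain ⟨d, h3, h4, rfl⟩ := hg
  refine ⟨fun α => c α + d α, fun α => InHx.add (h1 α) (h3 α), fun α => ?_, ?_⟩
  · rw [add_pow_char, add_mul]
    exact add_mem (h2 α) (h4 α)
  · unfold pcomb
    rw [← Finset.sum_add_distrib]
    refine Finset.sum_congr rfl fun α _ => ?_
    rw [add_pow_char, add_mul]

omit [CharP Ω p] in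
theorem Co.zero : Co p F 0 := by
  refine ⟨fun _ => 0, fun _ => InHx.of_mem (zero_mem _), fun α => ?_, ?_⟩
  · rw [zero_pow hp.out.ne_zero, zero_mul]
    exact zero_mem _
  · unfold pcomb
    rw [Finset.sum_eq_zero]
    intro α _
    rw [zero_pow hp.out.ne_zero, zero_mul]

theorem neg_pow_p (c : Ω) : (-c) ^ p = -c ^ p := by
  have h := sub_pow_char (p := p) (0 : Ω) c
  rw [zero_sub, zero_pow hp.out.ne_zero, zero_sub] at h
  exact h

theorem Co.neg {f : Ω} (hf : Co p F f) : Co p F (-f) := by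
  obtain ⟨c, h1, h2, rfl⟩ := hf
  refine ⟨fun α => -c α, fun α => InHx.neg (h1 α), fun α => ?_, ?_⟩
  · rw [neg_pow_p, neg_mul]
    exact neg_mem (h2 α)
  · unfold pcomb
    rw [← Finset.sum_neg_distrib]
    refine Finset.sum_congr rfl fun α _ => ?_
    rw [neg_pow_p, neg_mul]

omit hp [CharP Ω p] in
theorem Co.pmul {f h : Ω} (hh : h ∈ F.H) (hf : Co p F f) : Co p F (h ^ p * f) := by
  obtain ⟨c, h1, h2, rfl⟩ := hf
  refine ⟨fun α => h * c α, fun α => InHx.hmul hh (h1 α), fun α => ?_, ?_⟩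
  · rw [mul_pow, mul_assoc]
    exact mul_mem (pow_mem hh _) (h2 α)
  · unfold pcomb
    rw [Finset.mul_sum]
    refine Finset.sum_congr rfl fun α _ => ?_
    rw [mul_pow, mul_assoc]

omit [CharP Ω p] in
theorem Co.one : Co p F 1 := by
  classical
  have _ : NeZero p := ⟨hp.out.ne_zero⟩
  have hm : mon F.s (0 : Fin (r + D) → Fin p) = 1 := by
    unfold mon
    exact Finset.prod_eq_one fun i _ => pow_zero _
  refine ⟨fun α => if α = 0 then 1 else 0, fun α => ?_, fun α => ?_, ?_⟩
  · beta_reduce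
    split_ifs
    · exact InHx.of_mem (one_mem _)
    · exact InHx.of_mem (zero_mem _)
  · beta_reduce
    split_ifs with h
    · rw [h, hm, one_pow, one_mul]
      exact one_mem _
    · rw [zero_pow hp.out.ne_zero, zero_mul]
      exact zero_mem _
  · unfold pcomb
    rw [Finset.sum_eq_single (0 : Fin (r + D) → Fin p)]
    · beta_reduce
      rw [if_pos rfl, one_pow, one_mul, hm]
    · intro α _ hα
      beta_reduce
      rw [if_neg hα, zero_pow hp.out.ne_zero, zero_mul]
    · intro h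
      exact absurd (Finset.mem_univ _) h

omit [CharP Ω p] in
theorem Co.emul {f : Ω} (e : Fin (r + D) → ℤ) (he : ∀ j, 0 ≤ e (Fin.natAdd r j))
    (heH : mx F.s e ∈ F.H) (hf : Co p F f) : Co p F (mx F.s e * f) := by
  obtain ⟨c, h1, h2, rfl⟩ := hf
  obtain ⟨σ, c', h3, h4⟩ := shift F p e he c h1
  refine ⟨c', h3, fun β => ?_, ?_⟩
  · obtain ⟨α, rfl⟩ := σ.surjective β
    rw [h4]
    exact mul_mem heH (h2 α)
  · unfold pcomb
    rw [Finset.mul_sum, ← Equiv.sum_comp σ (fun β => c' β ^ p * mon F.s β)]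
    exact Finset.sum_congr rfl fun α _ => (h4 α).symm

/-- The elements of the ring generated by `H^p` and `P` have coordinates. -/
theorem Co.of_closure [IsAlgClosed k] {f : Ω}
    (hf : f ∈ Subring.closure ((fun h : Ω => h ^ p) '' (F.H : Set Ω) ∪ (F.P : Set Ω))) :
    Co p F f := by
  classical
  -- the multipliers of the set of the elements with coordinates
  let M : Subring Ω :=
    { carrier := {g | ∀ f, Co p F f → Co p F (g * f)}
      mul_mem' := fun {a b} ha hb f hf => by rw [mul_assoc]; exact ha _ (hb _ hf)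
      one_mem' := fun f hf => by rw [one_mul]; exact hf
      add_mem' := fun {a b} ha hb f hf => by rw [add_mul]; exact (ha _ hf).add (hb _ hf)
      zero_mem' := fun f hf => by rw [zero_mul]; exact Co.zero
      neg_mem' := fun {a} ha f hf => by rw [neg_mul]; exact (ha _ hf).neg }
  have hPM : F.P ≤ M := by
    unfold Fr.P ksub
    rw [Subring.closure_le]
    rintro g (⟨c, rfl⟩ | ⟨l, rfl, hl⟩ | ⟨j, rfl⟩)
    · intro f hf
      obtain ⟨d, hd⟩ := IsAlgClosed.exists_pow_nat_eq c hp.out.pos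
      rw [← hd, map_pow]
      exact hf.pmul (P_le_H F (k_mem_P F d))
    · intro f hf
      have h1 : mx F.x l = mx F.s (Fin.append l 0) := by
        rw [mx_s]
        simp only [Fin.append_left, Fin.append_right, Pi.zero_apply, zpow_zero,
          Finset.prod_const_one, mul_one]
      rw [h1]
      refine hf.emul _ (fun j => ?_) ?_
      · rw [Fin.append_right]
        exact le_rfl
      · rw [← h1]
        exact P_le_H F (mx_mem_P F hl)
    · intro f hf
      have h1 : F.y j = mx F.s (Fin.append 0 (Pi.single j 1)) := by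
        rw [mx_s]
        simp only [Fin.append_left, Fin.append_right]
        have h2 : (fun i : Fin r => (0 : Fin r → ℤ) i) = 0 := rfl
        rw [h2, mx_zero, one_mul, Finset.prod_eq_single j]
        · rw [Pi.single_eq_same, zpow_one]
        · intro i _ hi
          rw [Pi.single_eq_of_ne hi, zpow_zero]
        · intro h
          exact absurd (Finset.mem_univ _) h
      rw [h1]
      refine hf.emul _ (fun i => ?_) ?_
      · rw [Fin.append_right]
        by_cases hi : i = j
        · subst hi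
          rw [Pi.single_eq_same]
          exact zero_le_one
        · rw [Pi.single_eq_of_ne hi]
      · rw [← h1]
        exact P_le_H F (y_mem_P F j)
  have hle : Subring.closure ((fun h : Ω => h ^ p) '' (F.H : Set Ω) ∪ (F.P : Set Ω)) ≤ M := by
    rw [Subring.closure_le]
    rintro g (⟨h, hh, rfl⟩ | hg)
    · exact fun f hf => hf.pmul hh
    · exact hPM hg
  have h1 := hle hf 1 Co.one
  rwa [mul_one] at h1

end Mon

end P1

/-- Every element of `H` is the sum of the elements `c_α^p s^α ∈ H`. -/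
theorem Fr.pcoord [IsAlgClosed Ω] [IsAlgClosed k] (p : ℕ) [Fact p.Prime] [CharP k p] [CharP Ω p]
    (h : Ctx k v r) (F : Fr k v r D) {f : Ω} (hf : f ∈ F.H) :
    ∃ c : (Fin (r + D) → Fin p) → Ω, (∀ α, F.InHx (c α)) ∧
      (∀ α, c α ^ p * mon F.s α ∈ F.H) ∧ f = pcomb F.s c := by
  have h0 : Ctx0 k v := h.toCtx0
  set B₀ : Subring Ω := Subring.closure ((fun h : Ω => h ^ p) '' (F.H : Set Ω) ∪ (F.P : Set Ω))
    with hB₀
  have hPB : F.P ≤ B₀ := fun g hg => Subring.subset_closure (Or.inr hg)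
  have hBH : B₀ ≤ F.H := by
    rw [hB₀, Subring.closure_le]
    rintro g (⟨a, ha, rfl⟩ | hg)
    · exact pow_mem ha _
    · exact P1.P_le_H F hg
  have hcl : HClosed v B₀ := P1.root_step p h0 (P1.H_cl F h0) hBH
    (fun c => hPB (P1.k_mem_P F c)) (fun f hf => Subring.subset_closure (Or.inl ⟨f, hf, rfl⟩))
  have h1 : f ∈ B₀ := hensA_le hPB hcl hf
  exact P1.Co.of_closure h1

theorem Fr.PC_self [IsAlgClosed Ω] [IsAlgClosed k] (p : ℕ) [Fact p.Prime] [CharP k p] [CharP Ω p]
    (h : Ctx k v r) (F : Fr k v r D) : F.PC p F.s where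
  mem := by
    intro i
    refine Fin.addCases (fun i => ?_) (fun j => ?_) i
    · have h1 : F.s (Fin.castAdd D i) = mx F.x (Pi.single i 1) * 1 := by
        unfold Fr.s mx
        rw [Fin.append_left, mul_one, Finset.prod_eq_single i]
        · rw [Pi.single_eq_same, zpow_one]
        · intro j _ hj
          rw [Pi.single_eq_of_ne hj, zpow_zero]
        · intro h
          exact absurd (Finset.mem_univ _) h
      rw [h1]
      exact P1.InHx.mxmul _ (P1.InHx.of_mem (one_mem _))
    · unfold Fr.s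
      rw [Fin.append_right]
      exact P1.InHx.of_mem (P1.P_le_H F (P1.y_mem_P F j))
  span := by
    rintro f ⟨l, hl⟩
    -- a multiple of `p`
    obtain ⟨l', hl'⟩ : ∃ l' : Fin r → ℤ, mx F.x (p • l') * f ∈ F.H := by
      have hp : 0 < p := (Fact.out : p.Prime).pos
      rcases le_total 0 (v (mx F.x l)) with h1 | h1
      · refine ⟨l, ?_⟩
        have h2 : p • l = (p - 1) • l + l := by
          rw [← succ_nsmul, Nat.sub_add_cancel hp]
        rw [h2, P1.mx_add F.x_ne, mul_assoc]
        refine mul_mem ?_ hl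
        rw [P1.mx_nsmul]
        exact pow_mem (P1.P_le_H F (P1.mx_mem_P F h1)) _
      · refine ⟨0, ?_⟩
        rw [smul_zero, P1.mx_zero, one_mul]
        have h2 : f = mx F.x (-l) * (mx F.x l * f) := by
          rw [← mul_assoc, ← P1.mx_add F.x_ne, neg_add_cancel, P1.mx_zero, one_mul]
        rw [h2]
        refine mul_mem (P1.P_le_H F (P1.mx_mem_P F ?_)) hl
        rw [P1.mx_neg F.x_ne, v.map_inv (P1.mx_ne F.x_ne _)]
        linarith
    obtain ⟨c, h1, -, h2⟩ := F.pcoord p h hl'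
    refine ⟨fun α => mx F.x (-l') * c α, fun α => P1.InHx.mxmul _ (h1 α), ?_⟩
    have h3 : f = mx F.x (-l') ^ p * (mx F.x (p • l') * f) := by
      rw [← mul_assoc, ← P1.mx_nsmul, ← P1.mx_add F.x_ne, smul_neg, neg_add_cancel, P1.mx_zero,
        one_mul]
    rw [h3, h2]
    unfold pcomb
    rw [Finset.mul_sum]
    refine Finset.sum_congr rfl fun α _ => ?_
    rw [mul_pow, mul_assoc]

namespace P1

/-! ### The coordinates are a `p`-basis -/

/-- The exponent `α`. -/
noncomputable def fs {n p : ℕ} (α : Fin n → Fin p) : Fin n →₀ ℕ :=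
  Finsupp.equivFunOnFinite.symm fun i => (α i : ℕ)

theorem fs_apply {n p : ℕ} (α : Fin n → Fin p) (i : Fin n) : fs α i = (α i : ℕ) := rfl

theorem poly_indep (p : ℕ) [Fact p.Prime] [CharP k p] {n : ℕ}
    (P : (Fin n → Fin p) → MvPolynomial (Fin n) k)
    (h : ∑ α, MvPolynomial.monomial (fs α) 1 * P α ^ p = 0) : ∀ α, P α = 0 := by
  classical
  have hp : p.Prime := Fact.out
  have _ : ExpChar k p := ExpChar.prime hp
  intro α
  ext m
  have h1 := congrArg (MvPolynomial.coeff (fs α + p • m)) h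
  rw [MvPolynomial.coeff_sum, Finset.sum_eq_single α, MvPolynomial.coeff_monomial_mul, one_mul,
    ← MvPolynomial.map_frobenius_expand p, MvPolynomial.coeff_map,
    MvPolynomial.coeff_expand_smul p hp.ne_zero, MvPolynomial.coeff_zero, frobenius_def] at h1
  · rw [MvPolynomial.coeff_zero]
    exact pow_eq_zero_iff (hp.ne_zero) |>.1 h1
  · intro β _ hβ
    rw [MvPolynomial.coeff_monomial_mul']
    split_ifs with hle
    · rw [one_mul, ← MvPolynomial.map_frobenius_expand p, MvPolynomial.coeff_map]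
      obtain ⟨i, hi⟩ : ∃ i, β i ≠ α i := by
        by_contra hne
        push Not at hne
        exact hβ (funext hne)
      rw [MvPolynomial.coeff_expand_of_not_dvd (i := i), map_zero]
      intro hdvd
      have h2 := hle i
      rw [Finsupp.tsub_apply] at hdvd
      rw [Finsupp.add_apply, Finsupp.smul_apply, smul_eq_mul, fs_apply, fs_apply] at h2 hdvd
      have h3 : ((α i : ℕ) : ℤ) ≡ ((β i : ℕ) : ℤ) [ZMOD p] := by
        obtain ⟨c, hc⟩ := hdvd
        refine (Int.modEq_iff_dvd.2 ⟨(m i : ℤ) - c, ?_⟩)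
        have h4 : (α i : ℕ) + p * m i = p * c + β i := by omega
        have h5 : ((α i : ℕ) : ℤ) + p * m i = p * c + (β i : ℕ) := by exact_mod_cast h4
        linarith
      have h6 : (α i : ℕ) ≡ (β i : ℕ) [MOD p] := (Int.natCast_modEq_iff).1 h3
      have h7 := Nat.ModEq.eq_of_lt_of_lt h6 (α i).2 (β i).2
      exact hi (Fin.ext h7.symm)
    · rfl
  · intro hα
    exact absurd (Finset.mem_univ _) hα

theorem aeval_monomial_fs {n p : ℕ} (s : Fin n → Ω) (α : Fin n → Fin p) :
    MvPolynomial.aeval s (MvPolynomial.monomial (fs α) (1 : k)) = mon s α := by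
  rw [MvPolynomial.aeval_monomial, map_one, one_mul, Finsupp.prod_fintype]
  · rfl
  · intro i
    exact pow_zero _

/-- The independence over the field of the coordinates. -/
theorem field_indep (p : ℕ) [Fact p.Prime] [CharP k p] [CharP Ω p] {n : ℕ} {s : Fin n → Ω}
    (hs : AlgebraicIndependent k s) (c : (Fin n → Fin p) → Ω)
    (hc : ∀ α, c α ∈ IntermediateField.adjoin k (Set.range s)) (h : pcomb s c = 0) :
    ∀ α, c α = 0 := by
  classical
  have hp : p.Prime := Fact.out
  have hc' : ∀ α, ∃ a b : MvPolynomial (Fin n) k, MvPolynomial.aeval s b ≠ 0 ∧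
      c α * MvPolynomial.aeval s b = MvPolynomial.aeval s a := by
    intro α
    obtain ⟨a, b, hab⟩ := (IntermediateField.mem_adjoin_range_iff (F := k) s (c α)).1 (hc α)
    by_cases hb : MvPolynomial.aeval s b = 0
    · refine ⟨0, 1, ?_, ?_⟩
      · rw [map_one]
        exact one_ne_zero
      · rw [hab, hb, div_zero, zero_mul, map_zero]
    · exact ⟨a, b, hb, by rw [hab, div_mul_cancel₀ _ hb]⟩
  choose a b hb hab using hc'
  let Q : MvPolynomial (Fin n) k := ∏ α, b α
  let R : (Fin n → Fin p) → MvPolynomial (Fin n) k := fun α => a α * ∏ β ∈ Finset.univ.erase α, b β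
  have hQ : MvPolynomial.aeval s Q ≠ 0 := by
    rw [map_prod]
    exact Finset.prod_ne_zero_iff.2 fun α _ => hb α
  have hR : ∀ α, c α * MvPolynomial.aeval s Q = MvPolynomial.aeval s (R α) := by
    intro α
    have h1 : Q = b α * ∏ β ∈ Finset.univ.erase α, b β :=
      (Finset.mul_prod_erase Finset.univ _ (Finset.mem_univ α)).symm
    rw [h1, map_mul, ← mul_assoc, hab, ← map_mul]
  have h2 : MvPolynomial.aeval s (∑ α, MvPolynomial.monomial (fs α) 1 * R α ^ p) = 0 := by
    have h3 : MvPolynomial.aeval s (∑ α, MvPolynomial.monomial (fs α) (1 : k) * R α ^ p) =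
        MvPolynomial.aeval s Q ^ p * pcomb s c := by
      rw [map_sum]
      unfold pcomb
      rw [Finset.mul_sum]
      refine Finset.sum_congr rfl fun α _ => ?_
      rw [map_mul, map_pow, ← hR α, aeval_monomial_fs, mul_pow]
      ring
    rw [h3, h, mul_zero]
  have h4 := poly_indep p R (hs (by rw [h2, map_zero]))
  intro α
  have h5 := hR α
  rw [h4 α, map_zero] at h5
  exact (mul_eq_zero.1 h5).resolve_right hQ

theorem K_eq (F : Fr k v r D) : F.K = IntermediateField.adjoin k (Set.range F.s) := by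
  unfold Fr.K Fr.s
  congr 1
  ext z
  constructor
  · rintro (⟨i, rfl⟩ | ⟨j, rfl⟩)
    · exact ⟨Fin.castAdd D i, Fin.append_left _ _ _⟩
    · exact ⟨Fin.natAdd r j, Fin.append_right _ _ _⟩
  · rintro ⟨i, rfl⟩
    refine Fin.addCases (fun i => ?_) (fun j => ?_) i
    · rw [Fin.append_left]
      exact Or.inl ⟨i, rfl⟩
    · rw [Fin.append_right]
      exact Or.inr ⟨j, rfl⟩

end P1

/-- `s` is a `p`-basis of every field between `k(s)` and the henselization. -/
theorem Fr.pbasis [IsAlgClosed Ω] [IsAlgClosed k] (p : ℕ) [Fact p.Prime] [CharP k p] [CharP Ω p]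
    (h : Ctx k v r) (F : Fr k v r D) {E : IntermediateField k Ω} (hE : F.K ≤ E)
    (hEh : E ≤ hen v F.K) : PBasis p E F.s := by
  classical
  have hsK : ∀ i, F.s i ∈ F.K := by
    intro i
    rw [P1.K_eq F]
    exact IntermediateField.subset_adjoin _ _ ⟨i, rfl⟩
  have halg : AlgebraicIndependent k F.s := by
    have h1 : F.s = Sum.elim F.x F.y ∘ finSumFinEquiv.symm := by
      funext i
      unfold Fr.s
      refine Fin.addCases (fun i => ?_) (fun j => ?_) i
      · rw [Fin.append_left, Function.comp_apply, finSumFinEquiv_symm_apply_castAdd, Sum.elim_inl]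
      · rw [Fin.append_right, Function.comp_apply, finSumFinEquiv_symm_apply_natAdd, Sum.elim_inr]
    rw [h1]
    exact F.alg.comp _ finSumFinEquiv.symm.injective
  have hsep : ∀ a ∈ E, IsSeparable F.K a := fun a ha => (D2P.mem_hen.1 (hEh ha)).2
  refine ⟨fun i => hE (hsK i), ?_, ?_⟩
  · -- the generation
    intro u hu
    let β : Fin (r + D) → E := fun i => ⟨F.s i, hE (hsK i)⟩
    have hchE : CharP E p := charP_of_injective_algebraMap (algebraMap k E).injective p
    have hmap : (IntermediateField.adjoin k (Set.range β)).map E.val = F.K := by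
      rw [IntermediateField.adjoin_map, P1.K_eq F]
      congr 1
      ext x
      constructor
      · rintro ⟨_, ⟨i, rfl⟩, rfl⟩
        exact ⟨i, rfl⟩
      · rintro ⟨i, rfl⟩
        exact ⟨β i, ⟨i, rfl⟩, rfl⟩
    set K' := IntermediateField.adjoin k (Set.range β) with hK'
    have hinK : ∀ x : F.K, ∃ y : K', ((y : E) : Ω) = x := by
      intro x
      have hx : (x : Ω) ∈ (K'.map E.val) := by rw [hmap]; exact x.2
      obtain ⟨y, hy, hyx⟩ := hx
      exact ⟨⟨y, hy⟩, hyx⟩
    have hsepE : Algebra.IsSeparable K' E := by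
      refine ⟨fun a => ?_⟩
      -- the inclusion of `F.K` in `K'`
      let φ : F.K →+* K' :=
        { toFun := fun x => ⟨⟨x, hE x.2⟩, by
            obtain ⟨y, hy⟩ := hinK x
            have h1 : (⟨x, hE x.2⟩ : E) = (y : E) := Subtype.ext hy.symm
            rw [h1]
            exact y.2⟩
          map_one' := rfl
          map_mul' := fun _ _ => rfl
          map_zero' := rfl
          map_add' := fun _ _ => rfl }
      let _ : Algebra F.K K' := φ.toAlgebra
      have _ : IsScalarTower F.K K' Ω := IsScalarTower.of_algebraMap_eq fun _ => rfl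
      have h1 : IsSeparable F.K (a : Ω) := hsep a a.2
      have h2 : IsSeparable K' (a : Ω) := IsSeparable.tower_top K' h1
      have h3 := (isSeparable_map_iff (IsScalarTower.toAlgHom K' E Ω)
        (algebraMap E Ω).injective (x := a)).1 h2
      exact h3
    obtain ⟨g, hg⟩ := LCD.pow_basis p k E β hsepE ⟨u, hu⟩
    refine ⟨fun α => g α, fun α => (g α).2, ?_⟩
    have h1 := congrArg (E.val) hg
    rw [map_sum] at h1
    rw [show u = E.val ⟨u, hu⟩ from rfl, h1]
    unfold pcomb mon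
    refine Finset.sum_congr rfl fun α _ => ?_
    rw [map_mul, map_pow, map_prod]
    simp only [map_pow]
    rfl
  · -- the independence
    intro c hc h0
    have hchK : CharP F.K p := charP_of_injective_algebraMap (algebraMap k F.K).injective p
    have hmonK : ∀ α : Fin (r + D) → Fin p, mon F.s α ∈ F.K :=
      fun α => prod_mem fun i _ => pow_mem (hsK i) _
    refine ALL44.frob_sep (κ := F.K) (𝕜 := Ω) p (fun α => (⟨mon F.s α, hmonK α⟩ : F.K)) ?_ c
      (fun α => hsep _ (hc α)) ?_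
    · intro d hd α
      have h1 := P1.field_indep p halg (fun α => ((d α : F.K) : Ω)) (fun α => by
        rw [← P1.K_eq F]
        exact (d α).2) (by
        have h2 := congrArg (algebraMap F.K Ω) hd
        rw [map_sum, map_zero] at h2
        rw [← h2]
        unfold pcomb
        refine Finset.sum_congr rfl fun α _ => ?_
        rw [map_mul, map_pow, mul_comm]
        rfl) α
      exact Subtype.ext h1
    · rw [← h0]
      unfold pcomb
      refine Finset.sum_congr rfl fun α _ => ?_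
      rw [mul_comm]
      rfl

end Pool.Agent.TW
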