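import Pool.Agent.Lib.TW.H1
import Pool.Agent.Lib.TW.H2

/-!
# TANK W, row P2 (first part): the structure of the ring of a frame
-/

set_option autoImplicit false

open Polynomial

namespace Pool.Agent.TW

open Pool.Agent.H15JM (RVal)
open Pool.Agent.LU1 (VPos adj)
open Pool.Agent.LUC (Cl clF lv)
open Pool.Agent.D2 (Ctx0)
open Pool.Agent.D2P (hen rootF)

universe u

variable {k Ω : Type u} [Field k] [Field Ω] [Algebra k Ω] {v : RVal Ω} {r D : ℕ}

/-- Basic facts on the ring of a frame. -/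
theorem Fr.P_nonneg (h : Ctx k v r) (F : Fr k v r D) : ∀ f ∈ F.P, v.Ge 0 f := by
  refine ksub_nonneg h.toCtx0 ?_
  rintro a (⟨l, rfl, hl⟩ | ⟨j, rfl⟩)
  · exact RVal.Ge.of_le hl
  · exact RVal.Ge.of_le (F.y_pos j).le

theorem Fr.hclosed (h : Ctx k v r) (F : Fr k v r D) : HClosed v F.H :=
  hclosed_hensA (F.P_nonneg h)

namespace P2

theorem mx_ne (F : Fr k v r D) (l : Fin r → ℤ) : mx F.x l ≠ 0 :=
  Finset.prod_ne_zero_iff.2 fun i _ => zpow_ne_zero _ (F.x_ne i)

theorem v_mx (F : Fr k v r D) (l : Fin r → ℤ) : v (mx F.x l) = ∑ i, l i * v (F.x i) := by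
  rw [mx, v.map_prod _ _ fun i _ => zpow_ne_zero _ (F.x_ne i)]
  exact Finset.sum_congr rfl fun i _ => v.map_zpow (F.x_ne i) _

theorem mx_add (F : Fr k v r D) (l l' : Fin r → ℤ) :
    mx F.x (l + l') = mx F.x l * mx F.x l' := by
  rw [mx, mx, mx, ← Finset.prod_mul_distrib]
  exact Finset.prod_congr rfl fun i _ => zpow_add₀ (F.x_ne i) _ _

theorem mx_zero (F : Fr k v r D) : mx F.x 0 = 1 := by simp [mx]

theorem mx_single (F : Fr k v r D) (i : Fin r) (z : ℤ) : mx F.x (Pi.single i z) = F.x i ^ z := by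
  classical
  rw [mx, Finset.prod_eq_single i]
  · rw [Pi.single_eq_same]
  · intro j _ hj
    rw [Pi.single_eq_of_ne hj, zpow_zero]
  · intro hi
    exact absurd (Finset.mem_univ i) hi

theorem eq_zero_of_v (F : Fr k v r D) {l : Fin r → ℤ} (hl : v (mx F.x l) = 0) : l = 0 := by
  rw [v_mx] at hl
  have h1 := Fintype.linearIndependent_iff.1 F.x_ind (fun i => (l i : ℚ)) (by
    rw [← hl]
    exact Finset.sum_congr rfl fun i _ => by rw [Rat.smul_def]; push_cast; rfl)
  funext i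
  have := h1 i
  exact_mod_cast this

theorem mx_mem_P (F : Fr k v r D) {l : Fin r → ℤ} (hl : 0 ≤ v (mx F.x l)) : mx F.x l ∈ F.P :=
  Subring.subset_closure (Or.inr (Or.inl ⟨l, rfl, hl⟩))

theorem y_mem_P (F : Fr k v r D) (j : Fin D) : F.y j ∈ F.P :=
  Subring.subset_closure (Or.inr (Or.inr ⟨j, rfl⟩))

theorem c_mem_P (F : Fr k v r D) (c : k) : algebraMap k Ω c ∈ F.P :=
  Subring.subset_closure (Or.inl ⟨c, rfl⟩)

theorem P_le_H (F : Fr k v r D) : F.P ≤ F.H := le_hensA _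

theorem x_mem_K (F : Fr k v r D) (i : Fin r) : F.x i ∈ F.K :=
  IntermediateField.subset_adjoin _ _ (Or.inl ⟨i, rfl⟩)

theorem y_mem_K (F : Fr k v r D) (j : Fin D) : F.y j ∈ F.K :=
  IntermediateField.subset_adjoin _ _ (Or.inr ⟨j, rfl⟩)

theorem mx_mem {E : IntermediateField k Ω} {x : Fin r → Ω} (hx : ∀ i, x i ∈ E)
    (l : Fin r → ℤ) : mx x l ∈ E := prod_mem fun i _ => zpow_mem (hx i) _

theorem K_le {F : Fr k v r D} {E : IntermediateField k Ω} (hF : F.IsFr E) : F.K ≤ E := by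
  rw [Fr.K, IntermediateField.adjoin_le_iff]
  rintro _ (⟨i, rfl⟩ | ⟨j, rfl⟩)
  exacts [hF.x_mem i, hF.y_mem j]

theorem P_le_OV (h : Ctx k v r) (F : Fr k v r D) : F.P ≤ OV v F.K := by
  refine fun f hf => ⟨?_, F.P_nonneg h f hf⟩
  have h1 : F.P ≤ F.K.toSubring := by
    rw [Fr.P, ksub, Subring.closure_le]
    rintro x (⟨c, rfl⟩ | ⟨l, rfl, -⟩ | ⟨j, rfl⟩)
    · exact F.K.algebraMap_mem c
    · exact mx_mem (x_mem_K F) l
    · exact y_mem_K F j
  exact h1 hf

/-- there is a monomial of positive value -/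
theorem exists_pos (h : Ctx k v r) (F : Fr k v r D) : ∃ l : Fin r → ℤ, 0 < v (mx F.x l) := by
  let i : Fin r := ⟨0, h.rpos⟩
  have h1 : v (F.x i) ≠ 0 := F.x_ind.ne_zero i
  rcases lt_or_gt_of_ne h1 with h2 | h2
  · refine ⟨Pi.single i (-1), ?_⟩
    rw [mx_single, zpow_neg_one, v.map_inv (F.x_ne i)]
    linarith
  · exact ⟨Pi.single i 1, by rw [mx_single, zpow_one]; exact h2⟩

end P2

open P2

theorem Fr.H_le_hen [IsAlgClosed Ω] (h : Ctx k v r) (F : Fr k v r D) :
    ∀ f ∈ F.H, f ∈ hen v F.K := by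
  intro f hf
  obtain ⟨l, hl⟩ := exists_pos h F
  have h1 := hensA_OV h.toCtx0 F.K ⟨mx F.x l, mx_mem (x_mem_K F) l, mx_ne F l, hl⟩
  have h2 : f ∈ OV v (hen v F.K) := by
    rw [← h1]
    exact hensA_mono (P_le_OV h F) hf
  exact h2.1

namespace P2

/-- The ideal generated by the monomials of positive value and the `y_j`. -/
def I (F : Fr k v r D) (f : Ω) : Prop :=
  ∃ l : Fin r → ℤ, 0 < v (mx F.x l) ∧ ∃ a ∈ F.H, ∃ b : Fin D → Ω,
    (∀ j, b j ∈ F.H) ∧ f = mx F.x l * a + ∑ j, F.y j * b j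

variable {F : Fr k v r D}

theorem I.zero (h : Ctx k v r) : I F 0 := by
  obtain ⟨l, hl⟩ := exists_pos h F
  exact ⟨l, hl, 0, zero_mem _, fun _ => 0, fun _ => zero_mem _, by simp⟩

theorem I.mul {f g : Ω} (hf : f ∈ F.H) (hg : I F g) : I F (f * g) := by
  obtain ⟨l, hl, a, ha, b, hb, rfl⟩ := hg
  refine ⟨l, hl, f * a, mul_mem hf ha, fun j => f * b j, fun j => mul_mem hf (hb j), ?_⟩
  rw [mul_add, Finset.mul_sum]
  congr 1
  · ring
  · exact Finset.sum_congr rfl fun j _ => by ring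

theorem I.add_aux {l l' : Fin r → ℤ} (hl : 0 < v (mx F.x l))
    (hll : v (mx F.x l) ≤ v (mx F.x l')) {a a' : Ω} (ha : a ∈ F.H) (ha' : a' ∈ F.H)
    {b b' : Fin D → Ω} (hb : ∀ j, b j ∈ F.H) (hb' : ∀ j, b' j ∈ F.H) :
    I F ((mx F.x l * a + ∑ j, F.y j * b j) + (mx F.x l' * a' + ∑ j, F.y j * b' j)) := by
  have h1 : mx F.x l' = mx F.x l * mx F.x (l' - l) := by
    rw [← mx_add]; congr 1; abel
  have h2 : 0 ≤ v (mx F.x (l' - l)) := by
    have h3 := congrArg v h1
    rw [v.map_mul (mx_ne F l) (mx_ne F _)] at h3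
    linarith
  refine ⟨l, hl, a + mx F.x (l' - l) * a', add_mem ha (mul_mem (P_le_H F (mx_mem_P F h2)) ha'),
    fun j => b j + b' j, fun j => add_mem (hb j) (hb' j), ?_⟩
  simp only [mul_add, Finset.sum_add_distrib]
  rw [h1]
  ring

theorem I.add {f g : Ω} (hf : I F f) (hg : I F g) : I F (f + g) := by
  obtain ⟨l, hl, a, ha, b, hb, rfl⟩ := hf
  obtain ⟨l', hl', a', ha', b', hb', rfl⟩ := hg
  rcases le_total (v (mx F.x l)) (v (mx F.x l')) with h1 | h1
  · exact I.add_aux hl h1 ha ha' hb hb'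
  · rw [add_comm]
    exact I.add_aux hl' h1 ha' ha hb' hb

theorem I.neg {f : Ω} (hf : I F f) : I F (-f) := by
  have := hf.mul (f := -1) (neg_mem (one_mem _))
  rwa [neg_one_mul] at this

theorem I.mem {f : Ω} (hf : I F f) : f ∈ F.H := by
  obtain ⟨l, hl, a, ha, b, hb, rfl⟩ := hf
  exact add_mem (mul_mem (P_le_H F (mx_mem_P F hl.le)) ha)
    (sum_mem fun j _ => mul_mem (P_le_H F (y_mem_P F j)) (hb j))

theorem VPos.mul_ge {x y : Ω} (hx : VPos v x) (hy : v.Ge 0 y) : VPos v (x * y) := by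
  intro h0
  have hx0 := left_ne_zero_of_mul h0
  have hy0 := right_ne_zero_of_mul h0
  rw [v.map_mul hx0 hy0]
  have := hx hx0
  have := hy hy0
  linarith

theorem I.pos (h : Ctx k v r) {f : Ω} (hf : I F f) : VPos v f := by
  obtain ⟨l, hl, a, ha, b, hb, rfl⟩ := hf
  refine LU1.VPos.add (VPos.mul_ge (fun _ => hl) ((F.hclosed h).nonneg a ha)) ?_
  have key : ∀ S : Finset (Fin D), VPos v (∑ j ∈ S, F.y j * b j) := by
    classical
    intro S
    induction S using Finset.induction_on with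
    | empty => rw [Finset.sum_empty]; exact LU1.VPos.zero
    | insert j S hj ih =>
      rw [Finset.sum_insert hj]
      exact LU1.VPos.add (VPos.mul_ge (fun _ => F.y_pos j) ((F.hclosed h).nonneg _ (hb j))) ih
  exact key _

/-- `f` is the sum of a constant and an element of the ideal. -/
def Bd (h : Ctx k v r) (F : Fr k v r D) : Subring Ω where
  carrier := {f | f ∈ F.H ∧ ∃ c : k, I F (f - algebraMap k Ω c)}
  mul_mem' := by
    rintro a b ⟨ha, c, hc⟩ ⟨hb, d, hd⟩
    refine ⟨mul_mem ha hb, c * d, ?_⟩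
    have h1 : a * b - algebraMap k Ω (c * d) =
        a * (b - algebraMap k Ω d) + algebraMap k Ω d * (a - algebraMap k Ω c) := by
      rw [map_mul]; ring
    rw [h1]
    exact (hd.mul ha).add (hc.mul (P_le_H F (c_mem_P F d)))
  one_mem' := ⟨one_mem _, 1, by rw [map_one, sub_self]; exact I.zero h⟩
  add_mem' := by
    rintro a b ⟨ha, c, hc⟩ ⟨hb, d, hd⟩
    refine ⟨add_mem ha hb, c + d, ?_⟩
    have h1 : a + b - algebraMap k Ω (c + d) =
        (a - algebraMap k Ω c) + (b - algebraMap k Ω d) := by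
      rw [map_add]; ring
    rw [h1]
    exact hc.add hd
  zero_mem' := ⟨zero_mem _, 0, by rw [map_zero, sub_self]; exact I.zero h⟩
  neg_mem' := by
    rintro a ⟨ha, c, hc⟩
    refine ⟨neg_mem ha, -c, ?_⟩
    have h1 : -a - algebraMap k Ω (-c) = -(a - algebraMap k Ω c) := by
      rw [map_neg]; ring
    rw [h1]
    exact hc.neg

theorem c_mem_Bd (h : Ctx k v r) (F : Fr k v r D) (c : k) : algebraMap k Ω c ∈ Bd h F :=
  ⟨P_le_H F (c_mem_P F c), c, by rw [sub_self]; exact I.zero h⟩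

theorem P_le_Bd (h : Ctx k v r) (F : Fr k v r D) : F.P ≤ Bd h F := by
  rw [Fr.P, ksub, Subring.closure_le]
  rintro x (⟨c, rfl⟩ | ⟨l, rfl, hl⟩ | ⟨j, rfl⟩)
  · exact c_mem_Bd h F c
  · rcases hl.lt_or_eq with h1 | h1
    · exact ⟨P_le_H F (mx_mem_P F hl), 0, l, h1, 1, one_mem _, fun _ => 0, fun _ => zero_mem _,
        by simp⟩
    · rw [eq_zero_of_v F h1.symm, mx_zero]
      exact one_mem _
  · classical
    obtain ⟨l, hl⟩ := exists_pos h F
    refine ⟨P_le_H F (y_mem_P F j), 0, l, hl, 0, zero_mem _, Pi.single j 1, fun j' => ?_, ?_⟩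
    · by_cases hj : j' = j
      · subst hj
        rw [Pi.single_eq_same]; exact one_mem _
      · rw [Pi.single_eq_of_ne hj]; exact zero_mem _
    · rw [map_zero, sub_zero, mul_zero, zero_add, Finset.sum_eq_single j]
      · rw [Pi.single_eq_same, mul_one]
      · intro j' _ hj
        rw [Pi.single_eq_of_ne hj, mul_zero]
      · intro hj
        exact absurd (Finset.mem_univ j) hj

/-- an element of positive value of `Bd` is in the ideal -/
theorem I_of_pos (h : Ctx k v r) {f : Ω} (hf : f ∈ Bd h F) (hp : VPos v f) : I F f := by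
  obtain ⟨hfH, c, hc⟩ := hf
  have h1 : VPos v (algebraMap k Ω c) := by
    have h2 : algebraMap k Ω c = f - (f - algebraMap k Ω c) := by ring
    rw [h2]
    exact LU1.VPos.sub hp (hc.pos h)
  rwa [h.toCtx0.const_eq_zero h1, map_zero, sub_zero] at hc

theorem hclosed_Bd (h : Ctx k v r) (F : Fr k v r D) : HClosed v (Bd h F) where
  nonneg := fun f hf => (F.hclosed h).nonneg f hf.1
  inv := by
    rintro f ⟨hf, c, hc⟩ h0 hv
    have hfi := (F.hclosed h).inv f hf h0 hv
    have hc0 : c ≠ 0 := by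
      rintro rfl
      rw [map_zero, sub_zero] at hc
      have := hc.pos h h0
      linarith
    have hc0' : algebraMap k Ω c ≠ 0 := (map_ne_zero_iff _ (algebraMap k Ω).injective).2 hc0
    refine ⟨hfi, c⁻¹, ?_⟩
    have h1 : f⁻¹ - algebraMap k Ω c⁻¹ =
        (-(algebraMap k Ω c⁻¹) * f⁻¹) * (f - algebraMap k Ω c) := by
      rw [map_inv₀]
      field_simp
      ring
    rw [h1]
    exact hc.mul (mul_mem (neg_mem (P_le_H F (c_mem_P F c⁻¹))) hfi)
  root := by
    intro g a hg ha h0 hd hv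
    have haH : a ∈ F.H := (F.hclosed h).root g a (fun i => (hg i).1) ha h0 hd hv
    obtain ⟨c, hc⟩ := h.toCtx0.residue ha
    refine ⟨haH, c, ?_⟩
    -- Taylor expansion in `H`
    have hlift : g ∈ Polynomial.lifts F.H.subtype := by
      rw [Polynomial.lifts_iff_coeff_lifts]
      exact fun i => ⟨⟨g.coeff i, (hg i).1⟩, rfl⟩
    obtain ⟨G, hG⟩ := hlift
    have hG' : G.map F.H.subtype = g := hG
    let a' : F.H := ⟨a, haH⟩
    let c' : F.H := ⟨algebraMap k Ω c, P_le_H F (c_mem_P F c)⟩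
    obtain ⟨κ, hκ⟩ := G.binomExpansion a' (c' - a')
    have hev : ∀ (P : Polynomial F.H) (x : F.H), ((P.eval x : F.H) : Ω) =
        (P.map F.H.subtype).eval (x : Ω) := fun P x => by
      rw [Polynomial.eval_map]
      exact (Polynomial.eval₂_at_apply F.H.subtype x).symm
    have h1 : g.eval (algebraMap k Ω c) =
        (algebraMap k Ω c - a) * (g.derivative.eval a + κ * (algebraMap k Ω c - a)) := by
      have h2 := congrArg (fun x : F.H => (x : Ω)) hκ
      simp only [add_sub_cancel, Subring.coe_add, Subring.coe_mul, Subring.coe_pow,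
        AddSubgroupClass.coe_sub, hev] at h2
      rw [← Polynomial.derivative_map, hG'] at h2
      rw [show ((c' : F.H) : Ω) = algebraMap k Ω c from rfl, show ((a' : F.H) : Ω) = a from rfl,
        h0] at h2
      rw [h2]
      ring
    set u := g.derivative.eval a + κ * (algebraMap k Ω c - a) with hu
    have hca : VPos v (algebraMap k Ω c - a) := by
      rw [← neg_sub]
      exact LU1.VPos.neg hc
    have hp : VPos v ((κ : Ω) * (algebraMap k Ω c - a)) := by
      rw [mul_comm]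
      exact VPos.mul_ge hca ((F.hclosed h).nonneg _ κ.2)
    have hu0 : u ≠ 0 ∧ v u = 0 := by
      by_cases h2 : (κ : Ω) * (algebraMap k Ω c - a) = 0
      · rw [hu, h2, add_zero]; exact ⟨hd, hv⟩
      · have h3 := v.add_of_lt hd h2 (by rw [hv]; exact hp h2)
        exact ⟨h3.1, by rw [h3.2, hv]⟩
    have huH : u ∈ F.H := by
      refine add_mem ?_ (mul_mem κ.2 (sub_mem (P_le_H F (c_mem_P F c)) haH))
      rw [← hG', Polynomial.derivative_map, ← hev G.derivative a']
      exact (G.derivative.eval a').2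
    have huI := (F.hclosed h).inv u huH hu0.1 hu0.2
    have hgc : g.eval (algebraMap k Ω c) ∈ Bd h F := by
      rw [Polynomial.eval_eq_sum]
      exact sum_mem fun i _ => mul_mem (hg i) (pow_mem (c_mem_Bd h F c) i)
    have hgp : VPos v (g.eval (algebraMap k Ω c)) := by
      rw [h1]
      exact VPos.mul_ge hca ((F.hclosed h).nonneg _ huH)
    have h4 := (I_of_pos h hgc hgp).mul (neg_mem huI)
    have h5 : -u⁻¹ * g.eval (algebraMap k Ω c) = a - algebraMap k Ω c := by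
      rw [h1]
      field_simp [hu0.1]
      ring
    rwa [h5] at h4

end P2

/-- The positive part of `H` is generated by the monomials of positive value and the `y_j`. -/
theorem Fr.gen [IsAlgClosed Ω] (h : Ctx k v r) (F : Fr k v r D) {f : Ω} (hf : f ∈ F.H)
    (hp : VPos v f) : ∃ l : Fin r → ℤ, 0 < v (mx F.x l) ∧ ∃ a ∈ F.H, ∃ b : Fin D → Ω,
      (∀ j, b j ∈ F.H) ∧ f = mx F.x l * a + ∑ j, F.y j * b j :=
  I_of_pos h (hensA_le (P_le_Bd h F) (hclosed_Bd h F) hf) hp

namespace P2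

theorem Mono.mul {F : Fr k v r D} {f g : Ω} (hf : F.Mono f) (hg : F.Mono g) : F.Mono (f * g) := by
  obtain ⟨l, w, hw, hw0, hv, rfl⟩ := hf
  obtain ⟨l', w', hw', hw0', hv', rfl⟩ := hg
  refine ⟨l + l', w * w', mul_mem hw hw', mul_ne_zero hw0 hw0', ?_, ?_⟩
  · rw [v.map_mul hw0 hw0', hv, hv', add_zero]
  · rw [mx_add]; ring

theorem Mono.one (F : Fr k v r D) : F.Mono 1 :=
  ⟨0, 1, one_mem _, one_ne_zero, v.map_one, by rw [mx_zero, mul_one]⟩

theorem Mono.inv (h : Ctx k v r) {F : Fr k v r D} {f : Ω} (hf : F.Mono f) : F.Mono f⁻¹ := by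
  obtain ⟨l, w, hw, hw0, hv, rfl⟩ := hf
  refine ⟨-l, w⁻¹, (F.hclosed h).inv w hw hw0 hv, inv_ne_zero hw0, ?_, ?_⟩
  · rw [v.map_inv hw0, hv, neg_zero]
  · have h1 : mx F.x l * mx F.x (-l) = 1 := by
      rw [← mx_add, add_neg_cancel, mx_zero]
    rw [mul_inv, eq_comm]
    congr 1
    exact eq_inv_of_mul_eq_one_right h1

theorem Mono.pow {F : Fr k v r D} {f : Ω} (hf : F.Mono f) (n : ℕ) : F.Mono (f ^ n) := by
  induction n with
  | zero => rw [pow_zero]; exact Mono.one F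
  | succ n ih => rw [pow_succ]; exact Mono.mul ih hf

theorem Mono.zpow (h : Ctx k v r) {F : Fr k v r D} {f : Ω} (hf : F.Mono f) (n : ℤ) :
    F.Mono (f ^ n) := by
  obtain ⟨n, rfl | rfl⟩ := n.eq_nat_or_neg
  · rw [zpow_natCast]; exact Mono.pow hf n
  · rw [zpow_neg, zpow_natCast]; exact Mono.inv h (Mono.pow hf n)

theorem Mono.prod {F : Fr k v r D} {ι : Type*} (S : Finset ι) (f : ι → Ω)
    (hf : ∀ i ∈ S, F.Mono (f i)) : F.Mono (∏ i ∈ S, f i) := by
  classical
  induction S using Finset.induction_on with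
  | empty => rw [Finset.prod_empty]; exact Mono.one F
  | insert i S hi ih =>
    rw [Finset.prod_insert hi]
    exact Mono.mul (hf i (Finset.mem_insert_self _ _))
      (ih fun j hj => hf j (Finset.mem_insert_of_mem hj))

theorem Mono.mem {F : Fr k v r D} {f : Ω} (hf : F.Mono f) (h0 : 0 ≤ v f) : f ∈ F.H := by
  obtain ⟨l, w, hw, hw0, hv, rfl⟩ := hf
  rw [v.map_mul (mx_ne F l) hw0, hv, add_zero] at h0
  exact mul_mem (P_le_H F (mx_mem_P F h0)) hw

theorem Mono.ne_zero {F : Fr k v r D} {f : Ω} (hf : F.Mono f) : f ≠ 0 := by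
  obtain ⟨l, w, hw, hw0, hv, rfl⟩ := hf
  exact mul_ne_zero (mx_ne F l) hw0

end P2

/-- A frame with a bigger ring. -/
theorem Fr.H_le (h : Ctx k v r) (F F' : Fr k v r D) (hx : ∀ i, F'.Mono (F.x i))
    (hy : ∀ j, F.y j ∈ F'.H) : F.H ≤ F'.H := by
  refine hensA_le ?_ (F'.hclosed h)
  rw [Fr.P, ksub, Subring.closure_le]
  rintro x (⟨c, rfl⟩ | ⟨l, rfl, hl⟩ | ⟨j, rfl⟩)
  · exact P_le_H F' (c_mem_P F' c)
  · exact Mono.mem (Mono.prod _ _ fun i _ => Mono.zpow h (hx i) _) hl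
  · exact hy j

set_option linter.unusedVariables false in
/-- The frames of a field have the same henselization. -/
theorem Fr.IsFr.hen_eq [IsAlgClosed Ω] [IsAlgClosed k] (p : ℕ) [Fact p.Prime] [CharP k p]
    (h : Ctx k v r) {F : Fr k v r D} {E : IntermediateField k Ω} (hF : F.IsFr E) :
    hen v E = hen v F.K := by
  have h1 : E ≤ hen v F.K := by
    intro e he
    obtain ⟨a, ha, b, hb, -, rfl⟩ := hF.frac e he
    exact div_mem (F.H_le_hen h a ha) (F.H_le_hen h b hb)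
  refine le_antisymm ?_ (D2P.hen_mono (K_le hF))
  rw [← D2P.hen_hen F.K]
  exact D2P.hen_mono h1

end Pool.Agent.TW
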