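import Pool.Agent.Lib.TW.BaseB
import Pool.Agent.Lib.TW.EDefs
import Pool.Agent.Lib.TW.P1
import Pool.Agent.Lib.TW.P2a
import Pool.Agent.Lib.TW.H2
import Pool.Agent.Lib.TW.B1

/-!
# TANK W, row D0 (BASE): local uniformization in transcendence degree `r`
-/

set_option autoImplicit false

open Polynomial

namespace Pool.Agent.TW

open Pool.Agent.H15JM (RVal)
open Pool.Agent.LU1 (VPos adj val_add_vpos)
open Pool.Agent.D2 (Ctx0)
open Pool.Agent.LUC (Cl clF)
open Pool.Agent.D2P (hen mem_hen)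

universe u

variable {k Ω : Type u} [Field k] [Field Ω] [Algebra k Ω] {v : RVal Ω} {r D : ℕ}

namespace D0

/-- A `ℤ`-basis of a finitely generated group of real numbers of rational rank `r`. -/
theorem exists_zbasis {Γ : AddSubgroup ℝ} (hΓ : Γ.FG) {a : Fin r → ℝ} (ha : ∀ i, a i ∈ Γ)
    (hai : LinearIndependent ℚ a) (hsp : ∀ γ ∈ Γ, γ ∈ Submodule.span ℚ (Set.range a)) :
    ∃ g : Fin r → ℝ, (∀ i, g i ∈ Γ) ∧ LinearIndependent ℚ g ∧
      ∀ γ ∈ Γ, ∃ l : Fin r → ℤ, γ = ∑ i, (l i : ℝ) * g i := by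
  classical
  have hfg : Module.Finite ℤ Γ := by
    have h1 : AddGroup.FG Γ := (AddGroup.fg_iff_addSubgroup_fg Γ).2 hΓ
    exact Module.Finite.iff_addGroup_fg.2 h1
  have hfree : Module.Free ℤ Γ := inferInstance
  let b := Module.finBasis ℤ Γ
  let n := Module.finrank ℤ Γ
  have hbi : LinearIndependent ℤ (fun i => ((b i : Γ) : ℝ)) :=
    b.linearIndependent.map' Γ.subtype.toIntLinearMap
      (LinearMap.ker_eq_bot.2 Subtype.val_injective)
  have hbi' : LinearIndependent ℚ (fun i => ((b i : Γ) : ℝ)) :=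
    (LinearIndependent.iff_fractionRing ℤ ℚ).1 hbi
  have hrep : ∀ (γ : ℝ) (hγ : γ ∈ Γ),
      γ = ∑ i, ((b.repr ⟨γ, hγ⟩ i : ℤ) : ℝ) * ((b i : Γ) : ℝ) := by
    intro γ hγ
    have h1 := congrArg (fun x : Γ => (x : ℝ)) (b.sum_repr ⟨γ, hγ⟩)
    simp only [AddSubgroup.val_finsetSum, AddSubgroup.coe_zsmul, zsmul_eq_mul] at h1
    exact h1.symm
  have h1 : n ≤ r := by
    have h2 := linearIndependent_le_span' (fun i => ((b i : Γ) : ℝ)) hbi' (Set.range a) (by
      rintro _ ⟨i, rfl⟩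
      exact hsp _ (b i).2)
    have h3 : Fintype.card (Set.range a) ≤ r := by
      have := Fintype.card_range_le a
      simpa using this
    have h4 : (n : Cardinal) ≤ (Fintype.card (Set.range a) : Cardinal) := by
      rw [Cardinal.mk_fin] at h2
      exact h2
    exact (Nat.cast_le.1 h4).trans h3
  have h2 : r ≤ n := by
    have h2 := linearIndependent_le_span' a hai (Set.range fun i => ((b i : Γ) : ℝ)) (by
      rintro _ ⟨i, rfl⟩
      have h5 := hrep (a i) (ha i)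
      rw [h5]
      refine Submodule.sum_mem _ fun j _ => ?_
      have h6 : ((b.repr ⟨a i, ha i⟩ j : ℤ) : ℝ) * ((b j : Γ) : ℝ) =
          ((b.repr ⟨a i, ha i⟩ j : ℤ) : ℚ) • ((b j : Γ) : ℝ) := by
        rw [Rat.smul_def]
        push_cast
        rfl
      rw [h6]
      exact Submodule.smul_mem _ _ (Submodule.subset_span ⟨j, rfl⟩))
    have h3 : Fintype.card (Set.range fun i => ((b i : Γ) : ℝ)) ≤ n := by
      have := Fintype.card_range_le (fun i => ((b i : Γ) : ℝ))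
      simpa [n] using this
    have h4 : (r : Cardinal) ≤
        (Fintype.card (Set.range fun i => ((b i : Γ) : ℝ)) : Cardinal) := by
      rw [Cardinal.mk_fin] at h2
      exact h2
    exact (Nat.cast_le.1 h4).trans h3
  have hn : r = n := le_antisymm h2 h1
  let e : Fin r ≃ Fin n := finCongr hn
  refine ⟨fun i => ((b (e i) : Γ) : ℝ), fun i => (b (e i)).2,
    hbi'.comp e e.injective, fun γ hγ => ?_⟩
  refine ⟨fun i => b.repr ⟨γ, hγ⟩ (e i), ?_⟩
  exact (hrep γ hγ).trans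
    (Equiv.sum_comp e fun i => ((b.repr ⟨γ, hγ⟩ i : ℤ) : ℝ) * ((b i : Γ) : ℝ)).symm

end D0

namespace BaseD

variable {E : IntermediateField k Ω} (B : BaseD k v E)

theorem χ_zero : B.χ 0 = 1 := by
  have h1 := B.χ_add 0 B.Γ.zero_mem 0 B.Γ.zero_mem
  rw [add_zero] at h1
  have h2 := B.χ_ne 0 B.Γ.zero_mem
  exact (mul_eq_left₀ h2).1 h1.symm

theorem χ_neg {γ : ℝ} (hγ : γ ∈ B.Γ) : B.χ (-γ) = (B.χ γ)⁻¹ := by
  have h1 := B.χ_add γ hγ (-γ) (B.Γ.neg_mem hγ)
  rw [add_neg_cancel, B.χ_zero] at h1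
  exact eq_inv_of_mul_eq_one_right h1.symm

theorem χ_nsmul {γ : ℝ} (hγ : γ ∈ B.Γ) (n : ℕ) : B.χ (n * γ) = B.χ γ ^ n := by
  induction n with
  | zero => rw [Nat.cast_zero, zero_mul, B.χ_zero, pow_zero]
  | succ n ih =>
    have h1 : (n : ℝ) * γ ∈ B.Γ := by
      rw [← nsmul_eq_mul]
      exact B.Γ.nsmul_mem hγ n
    have h2 : ((n + 1 : ℕ) : ℝ) * γ = n * γ + γ := by push_cast; ring
    rw [h2, B.χ_add _ h1 _ hγ, ih, pow_succ]

theorem χ_zsmul {γ : ℝ} (hγ : γ ∈ B.Γ) (n : ℤ) : B.χ (n * γ) = B.χ γ ^ n := by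
  obtain ⟨m, rfl | rfl⟩ := n.eq_nat_or_neg
  · rw [Int.cast_natCast, B.χ_nsmul hγ, zpow_natCast]
  · have h1 : (m : ℝ) * γ ∈ B.Γ := by
      rw [← nsmul_eq_mul]
      exact B.Γ.nsmul_mem hγ m
    rw [Int.cast_neg, Int.cast_natCast, neg_mul, B.χ_neg h1, B.χ_nsmul hγ, zpow_neg,
      zpow_natCast]

theorem χ_sum {g : Fin r → ℝ} (hg : ∀ i, g i ∈ B.Γ) (l : Fin r → ℤ) (S : Finset (Fin r)) :
    (∑ i ∈ S, (l i : ℝ) * g i) ∈ B.Γ ∧
      B.χ (∑ i ∈ S, (l i : ℝ) * g i) = ∏ i ∈ S, B.χ (g i) ^ l i := by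
  classical
  induction S using Finset.induction_on with
  | empty => exact ⟨by simp, by simpa using B.χ_zero⟩
  | insert a S ha ih =>
    have h1 : (l a : ℝ) * g a ∈ B.Γ := by
      rw [← zsmul_eq_mul]
      exact B.Γ.zsmul_mem (hg a) _
    rw [Finset.sum_insert ha, Finset.prod_insert ha]
    exact ⟨B.Γ.add_mem h1 ih.1, by rw [B.χ_add _ h1 _ ih.1, B.χ_zsmul (hg a), ih.2]⟩

end BaseD

/-- **A field of transcendence degree `r` has the henselization of a field of monomials.** -/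
theorem abh_hen [IsAlgClosed Ω] [IsAlgClosed k] (p : ℕ) [Fact p.Prime] [CharP k p] [CharP Ω p]
    (h : Ctx k v r) {E : IntermediateField k Ω} (hE : E.FG) (hfull : Full v E)
    (htr : Algebra.trdeg k E = r) : ∃ x : Fin r → Ω, (∀ i, x i ∈ E ∧ x i ≠ 0) ∧
      (LinearIndependent ℚ fun i => v (x i)) ∧ hen v E = hen v (kr k x) := by
  obtain ⟨B⟩ := exists_baseD p Fact.out h hE hfull htr
  obtain ⟨a, ha, hai, hsp⟩ := hfull.exists_span h
  obtain ⟨g, hg, hgi, hgs⟩ := D0.exists_zbasis B.fg (a := fun i => v (a i))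
    (fun i => B.val _ (ha i).1 (ha i).2) hai (fun γ hγ => by
      rw [← B.χ_val γ hγ]
      exact hsp _ (B.χ_ne γ hγ))
  have hxE : ∀ i, B.χ (g i) ∈ E := fun i => B.χ_mem _ (hg i)
  refine ⟨fun i => B.χ (g i), fun i => ⟨hxE i, B.χ_ne _ (hg i)⟩, ?_, ?_⟩
  · have h1 : (fun i => v (B.χ (g i))) = g := funext fun i => B.χ_val _ (hg i)
    rw [h1]
    exact hgi
  · have hle : kr k (fun i => B.χ (g i)) ≤ E := by
      rw [IntermediateField.adjoin_le_iff]
      rintro _ ⟨i, rfl⟩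
      exact hxE i
    have hK : B.K₁ ≤ kr k (fun i => B.χ (g i)) := by
      rw [BaseD.K₁, IntermediateField.adjoin_le_iff]
      rintro _ ⟨γ, hγ, rfl⟩
      obtain ⟨l, hl⟩ := hgs γ hγ
      rw [hl, (B.χ_sum hg l Finset.univ).2]
      refine prod_mem fun i _ => zpow_mem ?_ _
      exact IntermediateField.subset_adjoin k (Set.range fun i => B.χ (g i)) ⟨i, rfl⟩
    refine le_antisymm ?_ (D2P.hen_mono hle)
    have h1 : E ≤ hen v (kr k (fun i => B.χ (g i))) :=
      (B.le_hen h.toCtx0 hE).trans (D2P.hen_mono hK)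
    exact D2P.hen_le (D2P.hen_hen _) h1

namespace D0

/-- The frame without `y`. -/
def fr0 (h : Ctx k v r) {x : Fin r → Ω} (hx0 : ∀ i, x i ≠ 0)
    (hxi : LinearIndependent ℚ fun i => v (x i)) : Fr k v r 0 where
  x := x
  y := Fin.elim0
  x_ne := hx0
  x_ind := hxi
  y_ne := fun j => j.elim0
  y_pos := fun j => j.elim0
  alg := by
    have h1 : AlgebraicIndependent k x := TA.algInd_of_val h.triv hx0 hxi
    have h2 : (Sum.elim x (Fin.elim0 : Fin 0 → Ω)) = x ∘ (Equiv.sumEmpty (Fin r) (Fin 0)) := by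
      funext i
      rcases i with i | i
      · rfl
      · exact i.elim0
    rw [h2]
    exact h1.comp _ (Equiv.injective _)

theorem K_eq0 (F : Fr k v r 0) : F.K = kr k F.x := by
  have h1 : Set.range F.y = ∅ := Set.range_eq_empty _
  rw [Fr.K, h1, Set.union_empty]

/-- The polynomials in `x` are monomials in the frame. -/
theorem mono_aeval (h : Ctx k v r) (F : Fr k v r 0) {P : MvPolynomial (Fin r) k}
    (hP : P ≠ 0) : F.Mono (MvPolynomial.aeval F.x P) := by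
  classical
  have hval : ∀ d : Fin r →₀ ℕ, v (mx F.x fun i => (d i : ℤ)) = ∑ i, ((d i : ℕ) : ℝ) * v (F.x i) := by
    intro d
    rw [P2.v_mx]
    push_cast
    rfl
  obtain ⟨d₀, hd₀, hmin⟩ := Finset.exists_min_image P.support
    (fun d => v (mx F.x fun i => (d i : ℤ))) (MvPolynomial.support_nonempty.2 hP)
  have hne : ∀ d ∈ P.support, d ≠ d₀ →
      v (mx F.x fun i => (d₀ i : ℤ)) < v (mx F.x fun i => (d i : ℤ)) := by
    intro d hd hdd
    refine lt_of_le_of_ne (hmin d hd) fun heq => hdd ?_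
    rw [P2.v_mx, P2.v_mx] at heq
    have h1 := TA.int_eq_of_ind F.x_ind heq
    ext i
    exact_mod_cast (congrFun h1 i).symm
  -- the quotient by the leading monomial
  let w : Ω := ∑ d ∈ P.support, algebraMap k Ω (P.coeff d) * mx F.x fun i => (d i : ℤ) - d₀ i
  have hval' : ∀ d : Fin r →₀ ℕ, v (mx F.x fun i => (d i : ℤ) - d₀ i) =
      v (mx F.x fun i => (d i : ℤ)) - v (mx F.x fun i => (d₀ i : ℤ)) := by
    intro d
    rw [P2.v_mx, P2.v_mx, P2.v_mx, ← Finset.sum_sub_distrib]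
    refine Finset.sum_congr rfl fun i _ => ?_
    push_cast
    ring
  have hwP : w ∈ F.P := by
    refine sum_mem fun d hd => mul_mem (P2.c_mem_P F _) (P2.mx_mem_P F ?_)
    rw [hval' d, sub_nonneg]
    exact hmin d hd
  have hc0 : P.coeff d₀ ≠ 0 := MvPolynomial.mem_support_iff.1 hd₀
  have hw0 : w ≠ 0 ∧ v w = 0 := by
    have h1 : w = algebraMap k Ω (P.coeff d₀) + ∑ d ∈ P.support.erase d₀,
        algebraMap k Ω (P.coeff d) * mx F.x fun i => (d i : ℤ) - d₀ i := by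
      have h2 := Finset.add_sum_erase P.support
        (fun d => algebraMap k Ω (P.coeff d) * mx F.x fun i => (d i : ℤ) - d₀ i) hd₀
      have h3 : (mx F.x fun i => (d₀ i : ℤ) - d₀ i) = 1 := by
        have h4 : (fun i => (d₀ i : ℤ) - d₀ i) = (0 : Fin r → ℤ) := by
          funext i
          simp
        rw [h4, P2.mx_zero]
      simp only [h3, mul_one] at h2
      exact h2.symm
    rw [h1]
    refine val_add_vpos ((_root_.map_ne_zero _).2 hc0) (h.triv _ hc0) ?_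
    refine Finset.sum_induction _ (VPos v) (fun a b => VPos.add) VPos.zero ?_
    intro d hd
    have hd' := Finset.mem_of_mem_erase hd
    refine VPos.mul' (h.toCtx0.ge _) fun _ => ?_
    rw [hval' d, sub_pos]
    exact hne d hd' (Finset.ne_of_mem_erase hd)
  refine ⟨fun i => (d₀ i : ℤ), w, P2.P_le_H F hwP, hw0.1, hw0.2, ?_⟩
  rw [MvPolynomial.aeval_def, MvPolynomial.eval₂_eq', Finset.mul_sum]
  refine Finset.sum_congr rfl fun d _ => ?_
  have h1 : (∏ i, F.x i ^ d i) = mx F.x fun i => (d i : ℤ) :=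
    Finset.prod_congr rfl fun i _ => (zpow_natCast _ _).symm
  have h2 : (mx F.x fun i => (d i : ℤ)) =
      (mx F.x fun i => (d₀ i : ℤ)) * mx F.x fun i => (d i : ℤ) - d₀ i := by
    rw [← P2.mx_add]
    refine congrArg (mx F.x) (funext fun i => ?_)
    show (d i : ℤ) = d₀ i + (d i - d₀ i)
    ring
  rw [h1, h2]
  ring

/-- The elements of `k(x)` are monomials in the frame. -/
theorem mono_K (h : Ctx k v r) (F : Fr k v r 0) {f : Ω} (hf : f ∈ F.K) (hf0 : f ≠ 0) :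
    F.Mono f := by
  rw [K_eq0, IntermediateField.mem_adjoin_iff_div] at hf
  obtain ⟨a, ha, b, hb, rfl⟩ := hf
  rw [Algebra.adjoin_range_eq_range_aeval] at ha hb
  obtain ⟨P, rfl⟩ := ha
  obtain ⟨Q, rfl⟩ := hb
  have hP : P ≠ 0 := by
    rintro rfl
    apply hf0
    simp
  have hQ : Q ≠ 0 := by
    rintro rfl
    apply hf0
    simp
  rw [div_eq_mul_inv]
  exact P2.Mono.mul (mono_aeval h F hP) (P2.Mono.inv h (mono_aeval h F hQ))

/-- `H` is the valuation ring of the henselization of `k(x)`. -/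
theorem H_eq [IsAlgClosed Ω] (h : Ctx k v r) (F : Fr k v r 0) : F.H = OV v (hen v F.K) := by
  refine le_antisymm (fun f hf => ⟨F.H_le_hen h f hf, (F.hclosed h).nonneg f hf⟩) ?_
  obtain ⟨l, hl⟩ := P2.exists_pos h F
  rw [← hensA_OV h.toCtx0 F.K ⟨mx F.x l, P2.mx_mem (P2.x_mem_K F) l, P2.mx_ne F l, hl⟩]
  refine hensA_le ?_ (F.hclosed h)
  intro f hf
  by_cases h0 : f = 0
  · rw [h0]
    exact zero_mem _
  · exact P2.Mono.mem (mono_K h F hf.1 h0) (hf.2 h0)

/-- `H[1/x]` is the henselization of `k(x)`. -/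
theorem inHx_iff [IsAlgClosed Ω] (h : Ctx k v r) (F : Fr k v r 0) {f : Ω} :
    F.InHx f ↔ f ∈ hen v F.K := by
  constructor
  · rintro ⟨l, hl⟩
    have h1 := F.H_le_hen h _ hl
    have h2 : mx F.x l ∈ hen v F.K := D2P.le_hen _ (P2.mx_mem (P2.x_mem_K F) l)
    have h3 : f = (mx F.x l)⁻¹ * (mx F.x l * f) := by
      rw [← mul_assoc, inv_mul_cancel₀ (P2.mx_ne F l), one_mul]
    rw [h3]
    exact mul_mem (inv_mem h2) h1
  · intro hf
    obtain ⟨l, hl⟩ := P2.exists_pos h F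
    obtain ⟨n, hn⟩ := exists_nat_gt (-(v f) / v (mx F.x l))
    refine ⟨n • l, ?_⟩
    rw [H_eq h F, P1.mx_nsmul]
    have h2 : mx F.x l ∈ hen v F.K := D2P.le_hen _ (P2.mx_mem (P2.x_mem_K F) l)
    refine ⟨mul_mem (pow_mem h2 n) hf, fun h0 => ?_⟩
    have h3 : f ≠ 0 := fun h1 => h0 (by rw [h1, mul_zero])
    rw [v.map_mul (pow_ne_zero _ (P2.mx_ne F l)) h3, v.map_pow (P2.mx_ne F l)]
    have h4 := (div_lt_iff₀ hl).1 hn
    linarith

end D0

open D0

/-- **Local uniformization in transcendence degree `r`.** -/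
theorem LU_D0 [IsAlgClosed Ω] [IsAlgClosed k] (p : ℕ) [Fact p.Prime] [CharP k p] [CharP Ω p]
    (h : Ctx k v r) {E : IntermediateField k Ω} (hE : E.FG) (hfull : Full v E)
    (htr : Algebra.trdeg k E = r) : LU p v r E := by
  classical
  intro D t ht Z hZ
  obtain ⟨B⟩ := exists_baseD p Fact.out h hE hfull htr
  obtain ⟨a, ha, hai, hsp⟩ := hfull.exists_span h
  obtain ⟨g, hg, hgi, hgs⟩ := D0.exists_zbasis B.fg (a := fun i => v (a i))
    (fun i => B.val _ (ha i).1 (ha i).2) hai (fun γ hγ => by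
      rw [← B.χ_val γ hγ]
      exact hsp _ (B.χ_ne γ hγ))
  have hxE : ∀ i, B.χ (g i) ∈ E := fun i => B.χ_mem _ (hg i)
  have hvx : (fun i => v (B.χ (g i))) = g := funext fun i => B.χ_val _ (hg i)
  let F₀ : Fr k v r 0 := fr0 h (x := fun i => B.χ (g i)) (fun i => B.χ_ne _ (hg i))
    (by rw [hvx]; exact hgi)
  have hmx : ∀ γ ∈ B.Γ, ∃ l : Fin r → ℤ, B.χ γ = mx F₀.x l := by
    intro γ hγ
    obtain ⟨l, hl⟩ := hgs γ hγ
    refine ⟨l, ?_⟩
    rw [hl, (B.χ_sum hg l Finset.univ).2]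
    rfl
  have hKE : F₀.K ≤ E := by
    rw [K_eq0, IntermediateField.adjoin_le_iff]
    rintro _ ⟨i, rfl⟩
    exact hxE i
  have hK : B.K₁ ≤ F₀.K := by
    rw [BaseD.K₁, IntermediateField.adjoin_le_iff]
    rintro _ ⟨γ, hγ, rfl⟩
    obtain ⟨l, hl⟩ := hmx γ hγ
    rw [hl]
    exact P2.mx_mem (P2.x_mem_K F₀) l
  have hEh : E ≤ hen v F₀.K := (B.le_hen h.toCtx0 hE).trans (D2P.hen_mono hK)
  -- `D = 0`
  have hp0 : PBasis p E F₀.s := F₀.pbasis p h hKE hEh
  have hD : D = 0 := by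
    have h1 := Bas.card Qp_le' ht.bas
    have h2 := Bas.card Qp_le' hp0.bas
    rw [← h2] at h1
    simp only [Fintype.card_fun, Fintype.card_fin] at h1
    have h3 := Nat.pow_right_injective (Fact.out : p.Prime).two_le h1
    omega
  subst hD
  refine ⟨F₀, ⟨hxE, fun j => j.elim0, fun e he => ?_⟩, fun z hz => ?_, ⟨fun i => ?_, ?_⟩⟩
  · -- fractions
    obtain ⟨l, hl⟩ := (inHx_iff h F₀).2 (hEh he)
    obtain ⟨l', hl'⟩ := P2.exists_pos h F₀
    obtain ⟨n, hn⟩ := exists_nat_gt (-(v (mx F₀.x l)) / v (mx F₀.x l'))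
    have h4 := (div_lt_iff₀ hl').1 hn
    have h5 : v (mx F₀.x (n • l')) = n * v (mx F₀.x l') := by
      rw [P1.mx_nsmul, v.map_pow (P2.mx_ne F₀ l')]
    have h6 : 0 ≤ v (mx F₀.x (l + n • l')) := by
      rw [P2.mx_add, v.map_mul (P2.mx_ne F₀ _) (P2.mx_ne F₀ _), h5]
      linarith
    have h7 : 0 ≤ v (mx F₀.x (n • l')) := by
      rw [h5]
      positivity
    refine ⟨mx F₀.x (l + n • l') * e, ?_, mx F₀.x (l + n • l'), ?_, P2.mx_ne F₀ _, ?_⟩
    · rw [P2.mx_add, mul_comm (mx F₀.x l), mul_assoc]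
      exact mul_mem (P2.P_le_H F₀ (P2.mx_mem_P F₀ h7)) hl
    · exact P2.P_le_H F₀ (P2.mx_mem_P F₀ h6)
    · rw [mul_div_cancel_left₀ _ (P2.mx_ne F₀ _)]
  · -- monomials
    obtain ⟨hzE, hz0⟩ := hZ z hz
    have hγ : v z ∈ B.Γ := B.val z hzE hz0
    obtain ⟨l, hl⟩ := hmx _ hγ
    have hχ0 := B.χ_ne _ hγ
    refine ⟨l, z / B.χ (v z), ?_, div_ne_zero hz0 hχ0, ?_, ?_⟩
    · rw [H_eq h F₀]
      refine ⟨hEh (div_mem hzE (B.χ_mem _ hγ)), fun _ => ?_⟩
      rw [v.map_div hz0 hχ0, B.χ_val _ hγ, sub_self]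
    · rw [v.map_div hz0 hχ0, B.χ_val _ hγ, sub_self]
    · rw [← hl]
      field_simp
  · exact (inHx_iff h F₀).2 (hEh (ht.mem i))
  · -- the change of the `p`-basis
    intro f hf
    obtain ⟨c, hc, hfc⟩ := (F₀.PC_self p h).span f hf
    have hmonE : ∀ α : Fin (r + 0) → Fin p, mon F₀.s α ∈ E := fun α =>
      prod_mem fun i _ => pow_mem (hp0.mem i) _
    choose d hd hdm using fun α => ht.span (mon F₀.s α) (hmonE α)
    refine ⟨fun β => ∑ α, c α * d α β, fun β => ?_, ?_⟩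
    · rw [inHx_iff h F₀]
      exact sum_mem fun α _ => mul_mem ((inHx_iff h F₀).1 (hc α)) (hEh (hd α β))
    · rw [hfc]
      unfold pcomb
      have h1 : ∀ α, c α ^ p * mon F₀.s α = ∑ β, (c α * d α β) ^ p * mon t β := by
        intro α
        rw [hdm α, pcomb, Finset.mul_sum]
        exact Finset.sum_congr rfl fun β _ => by rw [mul_pow]; ring
      rw [Finset.sum_congr rfl fun α _ => h1 α, Finset.sum_comm]
      refine Finset.sum_congr rfl fun β _ => ?_
      rw [pow_sum, Finset.sum_mul]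

end Pool.Agent.TW
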