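import Pool.Agent.Lib.D2P.R0

/-!
# TANK W: definitions

Everything happens in one algebraically closed field `Ω` with a real valuation `v`, trivial on the
algebraically closed field `k` of characteristic `p`, with residue field `k` and rational rank `r`.
Fields are `IntermediateField k Ω`; `D2P.hen v E` is the henselization of `E` in `Ω`.

* `Ctx k v r`: the standing assumptions;
* `Full v E`: `E` has rational rank `r`;
* `PBasis p E t`, `Orth p v E t C`, `BD p v E`: `p`-bases with bounded distortion;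
* `HClosed v B`, `hensA v A`: henselian rings in `Ω`, the henselization of `A` in `Ω`;
* `Fr k v r D`: coordinates `x_1 .. x_r, y_1 .. y_D`; `Fr.H` the henselian local ring, `Fr.Mono`,
  `Fr.IsFr E`: a frame of `E`; `Fr.PC p t`: `t` is a `p`-basis of `H[1/x]`;
* `LU p v r E`: every finite subset of `Eˣ` is monomial in a frame;
* `HRone v E`: the henselization of `E` is the one of `N(z)`, `trdeg N = trdeg E - 1`;
* `PIstep p v r n`: the purely inseparable step (hypothesis).
-/

set_option autoImplicit false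

open Polynomial

namespace Pool.Agent.TW

open Pool.Agent.H15JM (RVal)
open Pool.Agent.LU1 (VPos adj)
open Pool.Agent.LUC (Cl clF)
open Pool.Agent.D2 (Ctx0)
open Pool.Agent.D2P (hen rootF)

universe u

section

variable {k Ω : Type u} [Field k] [Field Ω] [Algebra k Ω]

/-- `v` is trivial on `k`, has residue field `k` and rational rank `r > 0`. -/
structure Ctx (k : Type u) {Ω : Type u} [Field k] [Field Ω] [Algebra k Ω] (v : RVal Ω)
    (r : ℕ) : Prop extends Ctx0 k v where
  rpos : 0 < r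
  rank : ∃ X : Fin r → Ω, (∀ i, X i ≠ 0) ∧ LinearIndependent ℚ (fun i => v (X i)) ∧
    ∀ g : Ω, g ≠ 0 → v g ∈ Submodule.span ℚ (Set.range fun i => v (X i))

/-- Every value of `Ω` has a multiple which is a value of `E`. -/
def Full (v : RVal Ω) (E : IntermediateField k Ω) : Prop :=
  ∀ g : Ω, g ≠ 0 → ∃ m : ℕ, 0 < m ∧ ∃ c ∈ E, c ≠ 0 ∧ v c = m * v g

/-- The ring of the elements of value `≥ 0` of a field. -/
def OV (v : RVal Ω) (E : IntermediateField k Ω) : Subring Ω where
  carrier := {a | a ∈ E ∧ v.Ge 0 a}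
  mul_mem' := by
    intro a b ha hb
    refine ⟨mul_mem ha.1 hb.1, ?_⟩
    have h := RVal.Ge.mul ha.2 hb.2
    rwa [add_zero] at h
  one_mem' := ⟨one_mem _, fun _ => by rw [v.map_one]⟩
  add_mem' := fun ha hb => ⟨add_mem ha.1 hb.1, ha.2.add hb.2⟩
  zero_mem' := ⟨zero_mem _, RVal.Ge.zero⟩
  neg_mem' := fun ha => ⟨neg_mem ha.1, ha.2.neg⟩

/-- The subring generated by `k` and `S`. -/
def ksub (k : Type u) {Ω : Type u} [Field k] [Field Ω] [Algebra k Ω] (S : Set Ω) : Subring Ω :=
  Subring.closure (Set.range (algebraMap k Ω) ∪ S)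

/-! ## `p`-bases -/

/-- The monomial `t^α`, `0 ≤ α < p`. -/
def mon {p n : ℕ} (t : Fin n → Ω) (α : Fin n → Fin p) : Ω := ∏ i, t i ^ (α i : ℕ)

/-- The combination `∑ c_α^p t^α`. -/
def pcomb {p n : ℕ} (t : Fin n → Ω) (c : (Fin n → Fin p) → Ω) : Ω := ∑ α, c α ^ p * mon t α

/-- `t` is a `p`-basis of `E` over `E^p`. -/
structure PBasis (p : ℕ) (E : IntermediateField k Ω) {n : ℕ} (t : Fin n → Ω) : Prop where
  mem : ∀ i, t i ∈ E
  span : ∀ u ∈ E, ∃ c : (Fin n → Fin p) → Ω, (∀ α, c α ∈ E) ∧ u = pcomb t c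
  ind : ∀ c : (Fin n → Fin p) → Ω, (∀ α, c α ∈ E) → pcomb t c = 0 → ∀ α, c α = 0

/-- `v(c_α^p t^α) ≥ v(∑ c_β^p t^β) - C` for all coefficients in `E`. -/
def Orth (p : ℕ) (v : RVal Ω) (E : IntermediateField k Ω) {n : ℕ} (t : Fin n → Ω) (C : ℝ) : Prop :=
  ∀ c : (Fin n → Fin p) → Ω, (∀ α, c α ∈ E) → pcomb t c ≠ 0 →
    ∀ α, v.Ge (v (pcomb t c) - C) (c α ^ p * mon t α)

/-- `E` has a `p`-basis with bounded distortion. -/
def BD (p : ℕ) (v : RVal Ω) (E : IntermediateField k Ω) : Prop :=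
  ∃ (n : ℕ) (t : Fin n → Ω), PBasis p E t ∧ ∃ C : ℝ, Orth p v E t C

/-! ## Henselian rings in `Ω` -/

/-- `B` consists of elements of value `≥ 0`, contains the inverses of its elements of value `0` and
the simple roots of the polynomials over `B`. -/
structure HClosed (v : RVal Ω) (B : Subring Ω) : Prop where
  nonneg : ∀ f ∈ B, v.Ge 0 f
  inv : ∀ f ∈ B, f ≠ 0 → v f = 0 → f⁻¹ ∈ B
  root : ∀ (g : Polynomial Ω) (a : Ω), (∀ i, g.coeff i ∈ B) → v.Ge 0 a → g.eval a = 0 →
    g.derivative.eval a ≠ 0 → v (g.derivative.eval a) = 0 → a ∈ B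

/-- The henselization of the ring `A` in `Ω`. -/
def hensA (v : RVal Ω) (A : Subring Ω) : Subring Ω := sInf {B | A ≤ B ∧ HClosed v B}

/-- `f` is a quotient of elements of `B`. -/
def InFrac (B : Subring Ω) (f : Ω) : Prop := ∃ a ∈ B, ∃ b ∈ B, b ≠ 0 ∧ f = a / b

/-! ## Frames -/

/-- The monomial `x^l`, `l ∈ ℤ^r`. -/
def mx {r : ℕ} (x : Fin r → Ω) (l : Fin r → ℤ) : Ω := ∏ i, x i ^ l i

/-- Coordinates: `x_1 .. x_r` with rationally independent values, `y_1 .. y_D` of positive value. -/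
structure Fr (k : Type u) {Ω : Type u} [Field k] [Field Ω] [Algebra k Ω] (v : RVal Ω)
    (r D : ℕ) where
  x : Fin r → Ω
  y : Fin D → Ω
  x_ne : ∀ i, x i ≠ 0
  x_ind : LinearIndependent ℚ fun i => v (x i)
  y_ne : ∀ j, y j ≠ 0
  y_pos : ∀ j, 0 < v (y j)
  alg : AlgebraicIndependent k (Sum.elim x y)

variable {v : RVal Ω} {r D : ℕ}

/-- All the coordinates, as one family. -/
def Fr.s (F : Fr k v r D) : Fin (r + D) → Ω := Fin.append F.x F.y

/-- The field of the coordinates. -/
def Fr.K (F : Fr k v r D) : IntermediateField k Ω :=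
  IntermediateField.adjoin k (Set.range F.x ∪ Set.range F.y)

/-- The ring generated by `k`, the monomials of value `≥ 0` and the `y_j`. -/
def Fr.P (F : Fr k v r D) : Subring Ω :=
  ksub k ({m | ∃ l : Fin r → ℤ, m = mx F.x l ∧ 0 ≤ v m} ∪ Set.range F.y)

/-- The henselian local ring of the coordinates. -/
def Fr.H (F : Fr k v r D) : Subring Ω := hensA v F.P

/-- `f` is a monomial times a unit of `H`. -/
def Fr.Mono (F : Fr k v r D) (f : Ω) : Prop :=
  ∃ l : Fin r → ℤ, ∃ w ∈ F.H, w ≠ 0 ∧ v w = 0 ∧ f = mx F.x l * w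

/-- `f ∈ H[1/x]`. -/
def Fr.InHx (F : Fr k v r D) (f : Ω) : Prop := ∃ l : Fin r → ℤ, mx F.x l * f ∈ F.H

/-- The coordinates are in `E`, and `E` is contained in the field of fractions of `H`. -/
structure Fr.IsFr (F : Fr k v r D) (E : IntermediateField k Ω) : Prop where
  x_mem : ∀ i, F.x i ∈ E
  y_mem : ∀ j, F.y j ∈ E
  frac : ∀ e ∈ E, InFrac F.H e

/-- `t` is a `p`-basis of `H[1/x]`. -/
structure Fr.PC (F : Fr k v r D) (p : ℕ) {n : ℕ} (t : Fin n → Ω) : Prop where
  mem : ∀ i, F.InHx (t i)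
  span : ∀ f, F.InHx f → ∃ c : (Fin n → Fin p) → Ω, (∀ α, F.InHx (c α)) ∧ f = pcomb t c

/-- Local uniformization of `E` (with control of the `p`-bases): for every `p`-basis `t` of `E` and
every finite set of nonzero elements of `E` there is a frame of `E` in which these elements are
monomials and `t` is a `p`-basis of `H[1/x]`. -/
def LU (p : ℕ) (v : RVal Ω) (r : ℕ) (E : IntermediateField k Ω) : Prop :=
  ∀ (D : ℕ) (t : Fin (r + D) → Ω), PBasis p E t →
    ∀ Z : Finset Ω, (∀ z ∈ Z, z ∈ E ∧ z ≠ 0) →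
      ∃ F : Fr k v r D, F.IsFr E ∧ (∀ z ∈ Z, F.Mono z) ∧ F.PC p t

/-! ## Henselian rationality and the purely inseparable step -/

/-- The henselization of `E` is the one of `N(z)`, `N` finitely generated of full rational rank,
`z` transcendental over `N`. -/
def HRone (v : RVal Ω) (E : IntermediateField k Ω) : Prop :=
  ∃ (N : IntermediateField k Ω) (z : Ω), N.FG ∧ Full v N ∧ Transcendental N z ∧
    hen v E = hen v (adj N z)

/-- **The purely inseparable step** for the fields `K₀` with bounded derivations of transcendence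
degree `n`. Local uniformization is given in the dimensions `< n` and for the fields with `HRone`. -/
def PIstep (p : ℕ) (v : RVal Ω) (k : Type u) [Field k] [Algebra k Ω] (r n : ℕ) : Prop :=
  ∀ K₀ : IntermediateField k Ω, K₀.FG → Full v K₀ → Algebra.trdeg k K₀ = n → BD p v K₀ →
    HRone v K₀ →
    (∀ E : IntermediateField k Ω, E.FG → Full v E → Algebra.trdeg k E ≤ n → BD p v E →
      (Algebra.trdeg k E < n ∨ HRone v E) → LU p v r E) →
    ∀ g : Ω, g ^ p ∈ K₀ → HRone v (adj K₀ g)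

end

end Pool.Agent.TW
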