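import Pool.Agent.Lib.TW.Cls
import Pool.Agent.Lib.LU2H.Final

/-!
# TANK W: proper birational modifications, smooth at the centres of finitely many valuation rings,
with a dense subfield whose components lie in a class
-/

set_option autoImplicit false

open AlgebraicGeometry CategoryTheory

namespace Pool.Agent.TW

open Pool.Agent.LU2 Pool.Agent.LU2G Pool.Agent.LU2H
open Pool.Agent.LUC (DenseIn LUrV FGField fgField_of_fg ascent ascends_lur IsSimple)
open Pool.Agent.LU1G (IsGen)
open Polynomial

universe u

/-- Transfer of `LUr` along an isomorphism. -/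
theorem lur_iso {k K L : Type u} [Field k] [Field K] [Field L] [Algebra k K] [Algebra k L]
    {V : ValuationSubring K} {W : ValuationSubring L} (j : K →ₐ[k] L)
    (hj : Function.Surjective j) (hV : ∀ x, x ∈ V ↔ j x ∈ W) (hK : (⊤ : IntermediateField k K).FG)
    (h : LUr k V) : LUr k W := by
  rw [lur_iff] at h ⊢
  refine ascends_lur k K L V W j hV (fgField_of_fg hK) (fun a b hb => ?_) 0
    ⟨fun x => ?_, Or.inr ⟨X, ?_, ?_⟩⟩ h
  · obtain ⟨c, rfl⟩ := hj a
    refine ⟨c, ?_⟩
    have h1 : j c - (j : K →+* L) c = 0 := sub_self _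
    rw [h1, map_zero]
    exact zero_lt_iff.2 ((Valuation.ne_zero_iff _).2 hb)
  · obtain ⟨c, rfl⟩ := hj x
    refine ⟨C c, 1, ?_, ?_⟩
    · rw [eval₂_one]
      exact one_ne_zero
    · rw [eval₂_one, eval₂_C, div_one]
      rfl
  · rw [eval₂_X]
  · rw [derivative_X, eval₂_one]
    exact one_ne_zero

section

variable {k F K : Type} [Field k] [Field F] [Field K] [Algebra k F] [Algebra k K] [Algebra F K]
  [IsScalarTower k F K]

omit [Field k] [Algebra k F] [Algebra k K] [IsScalarTower k F K] in
/-- Approximation of the elements of a valuation ring by a dense subfield. -/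
theorem exists_approx {V : ValuationSubring K} {W : ValuationSubring F}
    (hW : ∀ x : F, x ∈ W ↔ algebraMap F K x ∈ V) (hd : DenseIn V (algebraMap F K)) (hne : V ≠ ⊤)
    (x : V) : ∃ c : W, V.valuation ((x : K) - algebraMap F K c) < 1 := by
  obtain ⟨z, hz⟩ : ∃ z, z ∉ V := by
    by_contra h1
    push Not at h1
    exact hne (top_le_iff.1 fun x _ => h1 x)
  have hz0 : z ≠ 0 := by
    rintro rfl
    exact hz V.zero_mem
  obtain ⟨c, hc⟩ := hd (x : K) z⁻¹ (inv_ne_zero hz0)
  have hz1 : V.valuation z⁻¹ < 1 := by
    rw [map_inv₀]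
    refine inv_lt_one_of_one_lt₀ ?_
    rw [← not_le, V.valuation_le_one_iff]
    exact hz
  have h1 : V.valuation ((x : K) - algebraMap F K c) < 1 := hc.trans hz1
  have h2 : algebraMap F K c ∈ V := by
    have h3 : algebraMap F K c = (x : K) - ((x : K) - algebraMap F K c) := by ring
    rw [h3]
    exact V.toSubring.sub_mem x.2 ((V.valuation_le_one_iff _).1 h1.le)
  exact ⟨⟨c, (hW c).2 h2⟩, h1⟩

/-- The components of a valuation ring are the components of its restriction to a dense
subfield. -/
theorem CompC.of_dense {C : Cls k} {V V₁ : ValuationSubring K} {W W₁ : ValuationSubring F}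
    (hW : ∀ x : F, x ∈ W ↔ algebraMap F K x ∈ V) (hW₁ : ∀ x : F, x ∈ W₁ ↔ algebraMap F K x ∈ V₁)
    (hle : V ≤ V₁) (hk : ∀ c : k, algebraMap k K c ∈ V) (hd : DenseIn V₁ (algebraMap F K))
    (hne : V₁ ≠ ⊤) (h : CompC C W W₁) : CompC C V V₁ := by
  classical
  obtain ⟨K₁, i1, i2, φ, V₂, hres, hfin, hC⟩ := h
  choose c hc using exists_approx hW₁ hd hne
  -- two approximations have the same image
  have key : ∀ (x : V₁) (a b : W₁), V₁.valuation ((x : K) - algebraMap F K a) < 1 →
      V₁.valuation ((x : K) - algebraMap F K b) < 1 → φ a = φ b := by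
    intro x a b ha hb
    by_contra hab
    have h1 : φ (a - b) ≠ 0 := by
      rw [map_sub]
      exact sub_ne_zero.2 hab
    have h2 : W₁.valuation ((a - b : W₁) : F) = 1 := (hres.ne_zero_iff _).1 h1
    have h3 : V₁.valuation (algebraMap F K ((a - b : W₁) : F)) = 1 :=
      (LUC.ext_eq_one hW₁ _).1 h2
    have h4 : algebraMap F K ((a - b : W₁) : F) =
        ((x : K) - algebraMap F K b) - ((x : K) - algebraMap F K a) := by
      change algebraMap F K ((a : F) - (b : F)) = _
      rw [map_sub]
      ring
    rw [h4] at h3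
    have h5 := lt_of_le_of_lt (V₁.valuation.map_sub ((x : K) - algebraMap F K b)
      ((x : K) - algebraMap F K a)) (max_lt hb ha)
    exact h5.ne h3
  let ψ : V₁ →+* K₁ :=
    { toFun := fun x => φ (c x)
      map_one' := by
        rw [← map_one φ]
        refine key 1 _ _ (hc 1) ?_
        have h1 : ((1 : V₁) : K) - algebraMap F K ((1 : W₁) : F) = 0 := by
          change (1 : K) - algebraMap F K (1 : F) = 0
          rw [map_one, sub_self]
        rw [h1, map_zero]
        exact zero_lt_one
      map_zero' := by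
        rw [← map_zero φ]
        refine key 0 _ _ (hc 0) ?_
        have h1 : ((0 : V₁) : K) - algebraMap F K ((0 : W₁) : F) = 0 := by
          change (0 : K) - algebraMap F K (0 : F) = 0
          rw [map_zero, sub_self]
        rw [h1, map_zero]
        exact zero_lt_one
      map_add' := by
        intro x y
        rw [← map_add φ]
        refine key (x + y) _ _ (hc _) ?_
        have h1 : ((x + y : V₁) : K) - algebraMap F K ((c x + c y : W₁) : F) =
            ((x : K) - algebraMap F K (c x)) + ((y : K) - algebraMap F K (c y)) := by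
          change ((x : K) + (y : K)) - algebraMap F K ((c x : F) + (c y : F)) = _
          rw [map_add]
          ring
        rw [h1]
        exact lt_of_le_of_lt (V₁.valuation.map_add _ _) (max_lt (hc x) (hc y))
      map_mul' := by
        intro x y
        rw [← map_mul φ]
        refine key (x * y) _ _ (hc _) ?_
        have h1 : ((x * y : V₁) : K) - algebraMap F K ((c x * c y : W₁) : F) =
            (x : K) * ((y : K) - algebraMap F K (c y)) +
              algebraMap F K (c y) * ((x : K) - algebraMap F K (c x)) := by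
          change ((x : K) * (y : K)) - algebraMap F K ((c x : F) * (c y : F)) = _
          rw [map_mul]
          ring
        rw [h1]
        refine lt_of_le_of_lt (V₁.valuation.map_add _ _) (max_lt ?_ ?_)
        · rw [map_mul]
          exact mul_lt_one_of_nonneg_of_lt_one_right ((V₁.valuation_le_one_iff _).2 x.2) zero_le
            (hc y)
        · rw [map_mul]
          exact mul_lt_one_of_nonneg_of_lt_one_right
            ((V₁.valuation_le_one_iff _).2 ((hW₁ _).1 (c y).2)) zero_le (hc x) }
  have hψ : ∀ (x : V₁) (a : W₁), V₁.valuation ((x : K) - algebraMap F K a) < 1 → ψ x = φ a :=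
    fun x a ha => key x _ _ (hc x) ha
  refine ⟨K₁, i1, i2, ψ, V₂, ⟨hle, hk, ?_, ?_, ?_⟩, hfin, hC⟩
  · intro y
    obtain ⟨a, rfl⟩ := hres.surj y
    refine ⟨⟨algebraMap F K a, (hW₁ _).1 a.2⟩, hψ _ a ?_⟩
    rw [sub_self, map_zero]
    exact zero_lt_one
  · intro a ha
    have h1 : algebraMap k F a ∈ W₁ := by
      rw [hW₁, ← IsScalarTower.algebraMap_apply]
      exact ha
    rw [hψ _ ⟨algebraMap k F a, h1⟩ ?_]
    · exact hres.map_const a h1
    · have h2 : algebraMap k K a - algebraMap F K (algebraMap k F a) = 0 := by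
        rw [← IsScalarTower.algebraMap_apply, sub_self]
      change V₁.valuation (algebraMap k K a - algebraMap F K (algebraMap k F a)) < 1
      rw [h2, map_zero]
      exact zero_lt_one
  · intro x
    change φ (c x) ∈ V₂ ↔ _
    rw [hres.mem, hW]
    have h1 : V.valuation ((x : K) - algebraMap F K (c x)) < 1 := val_lt_one_of_le hle (hc x)
    have h2 : (x : K) - algebraMap F K (c x) ∈ V := (V.valuation_le_one_iff _).1 h1.le
    constructor
    · intro h3
      have h4 : (x : K) = ((x : K) - algebraMap F K (c x)) + algebraMap F K (c x) := by ring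
      rw [h4]
      exact V.add_mem _ _ h2 h3
    · intro h3
      have h4 : algebraMap F K (c x) = (x : K) - ((x : K) - algebraMap F K (c x)) := by ring
      rw [h4]
      exact V.toSubring.sub_mem h3 h2

end

section

variable {k K : Type} [Field k] [Field K] [Algebra k K]

/-- Log uniformization of a real valuation ring, from its component. -/
theorem lur_of_comp {C : Cls k} (hreal : RealCls C)
    (hK : (⊤ : IntermediateField k K).FG) {V : ValuationSubring K}
    (h1 : IsR1 V) (h : CompC C V ⊤) : LUr k V := by
  obtain ⟨K₁, i1, i2, φ, V₂, hres, hfin, hC⟩ := h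
  -- the inverse of `φ`
  have hmem : ∀ x : K, x ∈ (⊤ : ValuationSubring K) := fun x => ValuationSubring.mem_top x
  let f : K →ₐ[k] K₁ :=
    { φ.comp ((RingHom.id K).codRestrict (⊤ : ValuationSubring K).toSubring hmem) with
      commutes' := fun c => hres.map_const c (hmem _) }
  have hf : ∀ x : K, f x = φ ⟨x, hmem x⟩ := fun x => rfl
  have hfs : Function.Surjective f := by
    intro y
    obtain ⟨x, rfl⟩ := hres.surj y
    exact ⟨x, rfl⟩
  let e : K ≃ₐ[k] K₁ := AlgEquiv.ofBijective f ⟨f.injective, hfs⟩
  have hfV : ∀ x : K, f x ∈ V₂ ↔ x ∈ V := fun x => hres.mem ⟨x, hmem x⟩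
  have hK₁ : (⊤ : IntermediateField k K₁).FG := by
    have e1 : Algebra.EssFiniteType k K := IntermediateField.fg_top_iff.1 hK
    have e2 : Algebra.EssFiniteType k K₁ := Algebra.EssFiniteType.of_surjective f hfs
    exact IntermediateField.fg_top_iff.2 e2
  have hes : ∀ y : K₁, f (e.symm y) = y := fun y => e.apply_symm_apply y
  refine lur_iso (V := V₂) e.symm.toAlgHom e.symm.surjective (fun y => ?_) hK₁ ?_
  · change y ∈ V₂ ↔ e.symm y ∈ V
    rw [← hfV, hes]
  · refine hreal K₁ hK₁ V₂ hres.const₂ ⟨fun htop => h1.1 ?_, fun U hU => ?_⟩ hC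
    · rw [eq_top_iff]
      intro x _
      rw [← hfV, htop]
      exact ValuationSubring.mem_top _
    · have h2 : V ≤ U.comap (f : K →+* K₁) := by
        intro x hx
        rw [ValuationSubring.mem_comap]
        exact hU ((hfV x).2 hx)
      rcases h1.2 _ h2 with h3 | h3
      · left
        refine le_antisymm (fun y hy => ?_) hU
        obtain ⟨x, rfl⟩ := hfs y
        rw [hfV, ← h3, ValuationSubring.mem_comap]
        exact hy
      · right
        rw [eq_top_iff]
        intro y _
        obtain ⟨x, rfl⟩ := hfs y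
        have h4 : x ∈ U.comap (f : K →+* K₁) := by
          rw [h3]
          exact ValuationSubring.mem_top _
        rwa [ValuationSubring.mem_comap] at h4

/-- The components of a valuation ring with a dense subfield all of whose components are in the
class are good. -/
theorem allGood_of_denseC {C : Cls k} (hsub : C.Sub) (hreal : RealCls C)
    (hK : (⊤ : IntermediateField k K).FG)
    (V : ValuationSubring K) (hkV : ∀ c : k, algebraMap k K c ∈ V) (F : IntermediateField k K)
    (hF : F.FG) (hdense : ∀ a b : K, b ≠ 0 → ∃ c ∈ F, V.valuation (a - c) < V.valuation b)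
    (s : Finset K) (hs : AlgebraicIndependent F (Subtype.val : s → K))
    (hsep : Algebra.IsSeparable (IntermediateField.adjoin F (s : Set K)) K)
    (hdef : AllCompC C (V.comap (algebraMap F K))) :
    AllGood k V := by
  have hFtop : (⊤ : IntermediateField k F).FG := by
    rw [← IntermediateField.essFiniteType_iff] at hF
    rw [IntermediateField.fg_top_iff]
    exact hF
  have hd : DenseIn V (algebraMap F K) := by
    intro a b hb
    obtain ⟨c, hc, hc'⟩ := hdense a b hb
    exact ⟨⟨c, hc⟩, hc'⟩
  intro V₂ V₁ hle hcov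
  have hne₂ : V₂ ≠ ⊤ := fun h => (lt_of_lt_of_le hcov.1 le_top).ne h
  have hd₂ : DenseIn V₂ (algebraMap F K) := DenseIn.of_le hle hd hne₂
  have hcovF : Covers (V₂.comap (algebraMap F K)) (V₁.comap (algebraMap F K)) :=
    Covers.comap hd hle hcov
  have hcomp := hdef (V₂.comap (algebraMap F K)) (V₁.comap (algebraMap F K))
    (fun x hx => by
      rw [ValuationSubring.mem_comap] at hx ⊢
      exact hle hx) hcovF
  have hk₂ : ∀ c : k, algebraMap k K c ∈ V₂ := fun c => hle (hkV c)
  have hk₁ : ∀ c : k, algebraMap k K c ∈ V₁ := fun c => hcov.1.le (hk₂ c)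
  have hm₂ : ∀ x : F, x ∈ V₂.comap (algebraMap F K) ↔ algebraMap F K x ∈ V₂ := fun x =>
    ValuationSubring.mem_comap
  have hm₁ : ∀ x : F, x ∈ V₁.comap (algebraMap F K) ↔ algebraMap F K x ∈ V₁ := fun x =>
    ValuationSubring.mem_comap
  by_cases hne : V₁ = ⊤
  · subst hne
    have htop : (⊤ : ValuationSubring K).comap (algebraMap F K) = ⊤ := by
      rw [eq_top_iff]
      intro x _
      rw [ValuationSubring.mem_comap]
      exact ValuationSubring.mem_top _
    refine compGood_top hK hk₂ ?_
    have hcovF' : Covers (V₂.comap (algebraMap F K)) ⊤ := htop ▸ hcovF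
    have hcomp' : CompC C (V₂.comap (algebraMap F K)) ⊤ := htop ▸ hcomp
    have hLU : LUr k (V₂.comap (algebraMap F K)) :=
      lur_of_comp hreal hFtop (isR1_of_covers hcovF') hcomp'
    rw [lur_iff] at hLU ⊢
    exact ascent (ascends_lur k) V₂ hd₂ (fgField_of_fg hFtop) (fgField_of_fg hK) s hs hsep hLU
  · exact compGood_ofC hsub hreal hcov (CompC.of_dense hm₂ hm₁ hcov.1.le hk₂
      (DenseIn.of_le (hle.trans hcov.1.le) hd hne) hne hcomp)

end

/-- There is a dense subfield whose components are in the class. -/
def DenseC {k K : Type} [Field k] [Field K] [Algebra k K] (C : Cls k)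
    (V : ValuationSubring K) : Prop :=
  ∃ F : IntermediateField k K, F.FG ∧
    (∀ a b : K, b ≠ 0 → ∃ c ∈ F, V.valuation (a - c) < V.valuation b) ∧
    (∃ s : Finset K, AlgebraicIndependent F (Subtype.val : s → K) ∧
      Algebra.IsSeparable (IntermediateField.adjoin F (s : Set K)) K) ∧
    AllCompC C (V.comap (algebraMap F K))

/-- The function field is finitely generated over `k`. -/
def FGOver {k : Type} [Field k] {X : Scheme.{0}} [IsIntegral X]
    (f : X ⟶ Spec (CommRingCat.of k)) : Prop :=
  letI : Algebra k X.functionField := (consts f).toAlgebra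
  (⊤ : IntermediateField k X.functionField).FG

/-- Modifications smooth at the centres of valuation rings with good components. -/
theorem exists_smooth_centres_good (k : Type) [Field k] [PerfectField k] (X : Scheme.{0})
    [IsIntegral X] (f : X ⟶ Spec (CommRingCat.of k))
    [LocallyOfFiniteType f] (m : ℕ) (V : Fin m → ValuationSubring X.functionField)
    (hV : ∀ i, FGOver f →
      (∀ a : k, consts f a ∈ V i) →
      @AllGood X.functionField _ k _ (consts f).toAlgebra (V i))
    (c : ∀ i, Spec (CommRingCat.of (V i)) ⟶ X)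
    (hc : ∀ i, Spec.map (CommRingCat.ofHom (algebraMap (V i) X.functionField)) ≫
      c i = X.fromSpecStalk (genericPoint X)) :
    ∃ (Y : Scheme.{0}) (π : Y ⟶ X), IsIntegral Y ∧ IsProper π ∧
      (∀ W : X.Opens, (∀ (i : Fin m) (V' : ValuationSubring X.functionField) (h : V i ≤ V'),
        V' ≠ ⊤ → (coarser h ≫ c i) (IsLocalRing.closedPoint V') ∈ W →
          IsSmoothAt f ((coarser h ≫ c i) (IsLocalRing.closedPoint V'))) → IsIso (π ∣_ W)) ∧
      ∀ i, ∃ c' : Spec (CommRingCat.of (V i)) ⟶ Y, c' ≫ π = c i ∧
        IsSmoothAt (π ≫ f) (c' (IsLocalRing.closedPoint (V i))) := by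
  let _ : Algebra k X.functionField := (consts f).toAlgebra
  have hη : IsGen (K := X.functionField) (X.fromSpecStalk (genericPoint X)) := by
    refine ⟨RingEquiv.refl _, ?_⟩
    have h1 : (CommRingCat.ofHom (RingEquiv.refl X.functionField).toRingHom) =
        𝟙 (CommRingCat.of X.functionField) := rfl
    rw [h1, Spec.map_id]
    exact (Category.id_comp _).symm
  have hηf : X.fromSpecStalk (genericPoint X) ≫ f =
      Spec.map (CommRingCat.ofHom (algebraMap k X.functionField)) := by
    have h1 : CommRingCat.ofHom (algebraMap k X.functionField) =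
        Spec.preimage (X.fromSpecStalk (genericPoint X) ≫ f) := rfl
    rw [h1, Spec.map_preimage]
  have hK : (⊤ : IntermediateField k X.functionField).FG :=
    fg_functionField (K := X.functionField) f (X.fromSpecStalk (genericPoint X)) hη hηf
  exact all_steps k X.functionField m X f (X.fromSpecStalk (genericPoint X)) hη hηf V
    (fun i => hV i hK
      (const_mem f (X.fromSpecStalk (genericPoint X)) hηf (V i) (c i) (hc i))) c hc

/-- The final theorem for MP_b525bf_ag, for a class. -/
theorem exists_smooth_centresC (k : Type) [Field k] [PerfectField k] {C : Cls k} (hsub : C.Sub)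
    (hreal : RealCls C) (X : Scheme.{0}) [IsIntegral X] (f : X ⟶ Spec (CommRingCat.of k))
    [LocallyOfFiniteType f] (m : ℕ) (V : Fin m → ValuationSubring X.functionField)
    (hV : ∀ i, @DenseC k X.functionField _ _ (consts f).toAlgebra C (V i))
    (c : ∀ i, Spec (CommRingCat.of (V i)) ⟶ X)
    (hc : ∀ i, Spec.map (CommRingCat.ofHom (algebraMap (V i) X.functionField)) ≫
      c i = X.fromSpecStalk (genericPoint X)) :
    ∃ (Y : Scheme.{0}) (π : Y ⟶ X), IsIntegral Y ∧ IsProper π ∧
      (∀ W : X.Opens, (∀ (i : Fin m) (V' : ValuationSubring X.functionField) (h : V i ≤ V'),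
        V' ≠ ⊤ → (coarser h ≫ c i) (IsLocalRing.closedPoint V') ∈ W →
          IsSmoothAt f ((coarser h ≫ c i) (IsLocalRing.closedPoint V'))) → IsIso (π ∣_ W)) ∧
      ∀ i, ∃ c' : Spec (CommRingCat.of (V i)) ⟶ Y, c' ≫ π = c i ∧
        IsSmoothAt (π ≫ f) (c' (IsLocalRing.closedPoint (V i))) := by
  refine exists_smooth_centres_good k X f m V (fun i hK hk => ?_) c hc
  let _ : Algebra k X.functionField := (consts f).toAlgebra
  obtain ⟨F, hF, hdense, ⟨s, hs, hsep⟩, hdef⟩ := hV i
  exact allGood_of_denseC hsub hreal hK (V i) hk F hF hdense s hs hsep hdef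

end Pool.Agent.TW
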