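import Pool.Agent.Lib.TW.E2

/-!
# TANK W, row E1: centres
-/

set_option autoImplicit false

open Polynomial

namespace Pool.Agent.TW

open Pool.Agent.H15JM (RVal)
open Pool.Agent.LU1 (VPos adj)
open Pool.Agent.D2 (Ctx0)

universe u

variable {k Ω : Type u} [Field k] [Field Ω] [Algebra k Ω] {v : RVal Ω} {r : ℕ}

/-- The distance of `z` to the algebraic elements is not attained. -/
theorem exists_closer [IsAlgClosed Ω] (h : Ctx0 k v) {F : IntermediateField k Ω}
    (hfull : Full v F) {z : Ω} (hz : Transcendental F z) {θ : Ω} (hθ : IsAlgebraic F θ) :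
    ∃ θ' : Ω, IsAlgebraic F θ' ∧ v (z - θ) < v (z - θ') := by
  have hne : ∀ α : Ω, IsAlgebraic F α → z - α ≠ 0 := by
    intro α hα h0
    exact hz (by rw [sub_eq_zero.mp h0]; exact hα)
  have hg := hne θ hθ
  obtain ⟨m, hm, c, hc, hc0, hv⟩ := hfull (z - θ) hg
  obtain ⟨d, hd⟩ := IsAlgClosed.exists_pow_nat_eq c hm
  have hd0 : d ≠ 0 := by
    rintro rfl
    rw [zero_pow hm.ne'] at hd
    exact hc0 hd.symm
  have hvd : v d = v (z - θ) := by
    have h1 := v.map_pow hd0 m
    rw [hd, hv] at h1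
    have hm' : (0 : ℝ) < m := by exact_mod_cast hm
    exact (mul_left_cancel₀ hm'.ne' h1).symm
  have hdalg : IsAlgebraic F d := by
    refine ⟨X ^ m - C ⟨c, hc⟩, ?_, ?_⟩
    · exact X_pow_sub_C_ne_zero hm _
    · simp only [_root_.map_sub, _root_.map_pow, aeval_X, aeval_C]
      rw [hd]
      exact sub_self _
  obtain ⟨l, -, hl⟩ := h.res ((z - θ) / d) (div_ne_zero hg hd0) (by
    rw [v.map_div hg hd0, hvd, sub_self])
  have hlalg : IsAlgebraic F (algebraMap k Ω l) :=
    isAlgebraic_algebraMap (⟨algebraMap k Ω l, F.algebraMap_mem l⟩ : F)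
  refine ⟨θ + algebraMap k Ω l * d, hθ.add (hlalg.mul hdalg), ?_⟩
  have hne' := hne _ (hθ.add (hlalg.mul hdalg))
  have he : z - (θ + algebraMap k Ω l * d) = ((z - θ) / d - algebraMap k Ω l) * d := by
    field_simp
    ring
  rw [he] at hne' ⊢
  have h1 := left_ne_zero_of_mul hne'
  rw [v.map_mul h1 hd0, hvd]
  linarith [hl h1]

/-- A root near to `η` of a polynomial which is small at `η`. -/
theorem exists_near_root [IsAlgClosed Ω] {F : IntermediateField k Ω} {g : F[X]} (hg : g.Monic)
    {η : Ω} (h0 : aeval η g ≠ 0) {ρ : ℝ} (hρ : g.natDegree * ρ < v (aeval η g)) :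
    ∃ β : Ω, aeval β g = 0 ∧ η - β ≠ 0 ∧ ρ < v (η - β) := by
  have hs : (g.map (algebraMap F Ω)).Splits := IsAlgClosed.splits _
  have hmon : (g.map (algebraMap F Ω)).Monic := hg.map _
  have hfac := hs.eq_prod_roots
  rw [hmon.leadingCoeff, C_1, one_mul] at hfac
  have hcard : Multiset.card (g.map (algebraMap F Ω)).roots = g.natDegree := by
    rw [← hs.natDegree_eq_card_roots, natDegree_map]
  have hev : aeval η g = ((g.map (algebraMap F Ω)).roots.map fun β => η - β).prod := by
    rw [← eval_map_algebraMap]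
    conv_lhs => rw [hfac]
    rw [eval_multiset_prod, Multiset.map_map]
    congr 1
    refine Multiset.map_congr rfl fun β _ => ?_
    simp
  -- otherwise the value is small
  by_contra hcon
  push Not at hcon
  have key : ∀ s : Multiset Ω, (s.map fun β => η - β).prod ≠ 0 →
      (∀ β ∈ s, η - β ≠ 0 → v (η - β) ≤ ρ) →
      v (s.map fun β => η - β).prod ≤ Multiset.card s * ρ := by
    intro s
    induction s using Multiset.induction_on with
    | empty =>
      intro _ _
      simp [v.map_one]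
    | cons β s ih =>
      intro hne hs
      rw [Multiset.map_cons, Multiset.prod_cons] at hne ⊢
      have h1 := left_ne_zero_of_mul hne
      have h2 := right_ne_zero_of_mul hne
      rw [v.map_mul h1 h2, Multiset.card_cons]
      have h3 := ih h2 fun β' hβ' => hs β' (Multiset.mem_cons_of_mem hβ')
      have h4 := hs β (Multiset.mem_cons_self β s) h1
      push_cast
      linarith
  have h1 := key (g.map (algebraMap F Ω)).roots (by rw [← hev]; exact h0) (by
    intro β hβ hne
    have h2 := (mem_roots hmon.ne_zero).mp hβ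
    rw [IsRoot.def, eval_map_algebraMap] at h2
    exact hcon β h2 hne)
  rw [← hev, hcard] at h1
  linarith

theorem exists_cen [IsAlgClosed Ω] [IsAlgClosed k] (p : ℕ) [Fact p.Prime] [CharP k p]
    [CharP Ω p] (h : Ctx k v r) {F : IntermediateField k Ω} (_hF : F.FG) (hfull : Full v F)
    (hd : Dns v F) {z : Ω} (hz : Transcendental F z) (R : Finset Ω)
    (hR : ∀ β ∈ R, IsAlgebraic F β) :
    ∃ (η : Ω) (ρ b : ℝ), Cen v F z η ρ b ∧ ∀ β ∈ R, v (z - β) ≤ ρ := by
  classical
  have hneal : ∀ α : Ω, IsAlgebraic F α → z - α ≠ 0 := by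
    intro α hα h0
    exact hz (by rw [sub_eq_zero.mp h0]; exact hα)
  -- the radius `ρ`
  obtain ⟨β₀, hβ₀, hmax⟩ := (insert 0 R).exists_max_image (fun β => v (z - β))
    ⟨0, Finset.mem_insert_self 0 R⟩
  have hβ₀a : IsAlgebraic F β₀ := by
    rcases Finset.mem_insert.mp hβ₀ with h1 | h1
    · rw [h1]
      exact isAlgebraic_zero
    · exact hR β₀ h1
  obtain ⟨θ, hθ, hθv⟩ := exists_closer h.toCtx0 hfull hz hβ₀a
  -- the minimal degree
  have hex : ∃ n : ℕ, ∃ α : Ω, IsAlgebraic F α ∧ v (z - β₀) < v (z - α) ∧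
      (minpoly F α).natDegree = n := ⟨_, θ, hθ, hθv, rfl⟩
  obtain ⟨η₀, hη₀, hη₀v, hη₀n⟩ := Nat.find_spec hex
  have hmin : ∀ α : Ω, IsAlgebraic F α → v (z - β₀) < v (z - α) →
      (minpoly F η₀).natDegree ≤ (minpoly F α).natDegree := by
    intro α hα hαv
    rw [hη₀n]
    exact Nat.find_min' hex ⟨α, hα, hαv, rfl⟩
  -- a separable one
  obtain ⟨η, hη, hηv, hηn, hηs⟩ : ∃ η : Ω, IsAlgebraic F η ∧ v (z - β₀) < v (z - η) ∧
      (minpoly F η).natDegree = (minpoly F η₀).natDegree ∧ IsSeparable F η := by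
    by_cases hder : derivative (minpoly F η₀) = 0
    swap
    · exact ⟨η₀, hη₀, hη₀v, rfl,
        (separable_iff_derivative_ne_zero (minpoly.irreducible hη₀.isIntegral)).mpr hder⟩
    set f := minpoly F η₀ with hf
    have hfm : f.Monic := minpoly.monic hη₀.isIntegral
    have hfpos : 0 < f.natDegree := minpoly.natDegree_pos hη₀.isIntegral
    have hf1 : 1 < f.natDegree := by
      by_contra hcon
      have h1 : f.natDegree = 1 := by omega
      have h2 := hfm.eq_X_add_C h1
      rw [h2] at hder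
      simp at hder
    have hη0 : η₀ ≠ 0 := by
      intro h0
      rw [h0, minpoly.zero] at hf
      rw [hf, natDegree_X] at hf1
      omega
    obtain ⟨c, hcF, hc0, hc1, -⟩ := hd (f.natDegree * v (z - β₀) - v η₀)
      (f.natDegree * v (z - β₀) - v η₀ + 1) (by linarith)
    let c' : F := ⟨c, hcF⟩
    have hc'0 : c' ≠ 0 := fun h0 => hc0 (congrArg Subtype.val h0)
    have hdeg : (C c' * X : F[X]).degree < f.degree := by
      rw [degree_C_mul_X hc'0, degree_eq_natDegree hfm.ne_zero]
      exact_mod_cast hf1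
    have hgm : (f + C c' * X).Monic := hfm.add_of_left hdeg
    have hgn : (f + C c' * X).natDegree = f.natDegree := natDegree_add_eq_left_of_degree_lt hdeg
    have hgev : aeval η₀ (f + C c' * X) = c * η₀ := by
      rw [_root_.map_add, _root_.map_mul, aeval_X, aeval_C, hf, minpoly.aeval, zero_add]
      rfl
    have hgev0 : aeval η₀ (f + C c' * X) ≠ 0 := by
      rw [hgev]
      exact mul_ne_zero hc0 hη0
    obtain ⟨β, hβ1, hβ2, hβ3⟩ := exists_near_root (v := v) hgm hgev0 (ρ := v (z - β₀)) (by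
      rw [hgn, hgev, v.map_mul hc0 hη0]
      linarith)
    have hβa : IsAlgebraic F β := ⟨_, hgm.ne_zero, hβ1⟩
    have hβv : v (z - β₀) < v (z - β) := by
      have h1 := v.map_add (hneal η₀ hη₀) hβ2 (by
        rw [sub_add_sub_cancel]
        exact hneal β hβa)
      rw [sub_add_sub_cancel] at h1
      exact (lt_min hη₀v hβ3).trans_le h1
    have hdvd : minpoly F β ∣ f + C c' * X := minpoly.dvd F β hβ1
    have hle := hmin β hβa hβv
    have heq : minpoly F β = f + C c' * X := by
      refine (eq_of_monic_of_dvd_of_natDegree_le (minpoly.monic hβa.isIntegral) hgm hdvd ?_).symm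
      rw [hgn]
      exact hle
    refine ⟨β, hβa, hβv, by rw [heq, hgn], ?_⟩
    refine (separable_iff_derivative_ne_zero (minpoly.irreducible hβa.isIntegral)).mpr ?_
    rw [heq, derivative_add, hder, zero_add, derivative_C_mul_X]
    exact C_ne_zero.mpr hc'0
  -- the radius `b`
  obtain ⟨π, hπF, hπ0, hπ1, hπ2⟩ := hd _ _ hηv
  refine ⟨η, v (z - β₀), v π, ⟨hz, hηs, hπ1, hπ2,
    ⟨π, (D2P.mem_adj_self F η).2 hπF, hπ0, rfl⟩, ?_⟩, fun β hβ => hmax β
    (Finset.mem_insert_of_mem hβ)⟩
  · intro P hP0 hPn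
    refine RB.of_roots hP0 fun β hβ => ?_
    have hβa : IsAlgebraic F β := ⟨P, hP0, hβ⟩
    have hβn : (minpoly F β).natDegree < (minpoly F η).natDegree :=
      (natDegree_le_of_dvd (minpoly.dvd F β hβ) hP0).trans_lt hPn
    have hβv : v (z - β) ≤ v (z - β₀) := by
      by_contra hcon
      push Not at hcon
      have := hmin β hβa hcon
      omega
    refine ⟨fun h0 => by rw [h0] at hβn; exact lt_irrefl _ hβn, ?_⟩
    have h1 := v.add_of_lt (hneal β hβa) (neg_ne_zero.mpr (hneal η hη)) (by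
      rw [v.map_neg _ (hneal η hη)]
      linarith)
    rw [show z - β + -(z - η) = η - β by ring] at h1
    rw [h1.2]
    exact hβv

end Pool.Agent.TW
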