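import Pool.Agent.Lib.TW.EDefs
import Pool.Agent.Lib.TW.P2a

/-!
# TANK W, E6a: the rings `A ≤ R ≤ R'`

Polynomials over `F` are expanded at `η`; the Taylor coefficients are in `N = F(η)`, and
`z - η = π zl`. A polynomial `B` without zeros near `η` is `B(η)` times a unit of `R`, hence so is
every element of `k(S')` up to a factor in `k(S)`.

* `SD.reg_R`: regular functions with Gauss value `≥ 0` are in `R`;
* `SD.A_le_R`;
* `SD.OV_le_R'_of`: the valuation ring of `N` is in `R'` (the conclusion of `hensA_near` is a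
  hypothesis here; see `TW/E6.lean`).
-/

set_option autoImplicit false

open Polynomial

namespace Pool.Agent.TW

open Pool.Agent.H15JM (RVal)
open Pool.Agent.LU1 (VPos adj)
open Pool.Agent.D2 (Ctx0)
open Pool.Agent.D2P (hen)

universe u

variable {k Ω : Type u} [Field k] [Field Ω] [Algebra k Ω] {v : RVal Ω} {r D : ℕ}

namespace E6

theorem s_ne (S : Fr k v r D) (i : Fin (r + D)) : S.s i ≠ 0 := by
  unfold Fr.s
  refine Fin.addCases (fun i => ?_) (fun j => ?_) i
  · rw [Fin.append_left]; exact S.x_ne i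
  · rw [Fin.append_right]; exact S.y_ne j

theorem K_eq (S : Fr k v r D) : S.K = kr k S.s := by
  unfold Fr.K Fr.s
  congr 1
  ext z
  constructor
  · rintro (⟨i, rfl⟩ | ⟨j, rfl⟩)
    · exact ⟨Fin.castAdd D i, Fin.append_left _ _ _⟩
    · exact ⟨Fin.natAdd r j, Fin.append_right _ _ _⟩
  · rintro ⟨i, rfl⟩
    refine Fin.addCases (fun i => ?_) (fun j => ?_) i
    · rw [Fin.append_left]
      exact Or.inl ⟨i, rfl⟩
    · rw [Fin.append_right]
      exact Or.inr ⟨j, rfl⟩

theorem alg_s (S : Fr k v r D) : AlgebraicIndependent k S.s := by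
  have h1 : S.s = Sum.elim S.x S.y ∘ finSumFinEquiv.symm := by
    funext i
    unfold Fr.s
    refine Fin.addCases (fun i => ?_) (fun j => ?_) i
    · rw [Fin.append_left, Function.comp_apply, finSumFinEquiv_symm_apply_castAdd, Sum.elim_inl]
    · rw [Fin.append_right, Function.comp_apply, finSumFinEquiv_symm_apply_natAdd, Sum.elim_inr]
  rw [h1]
  exact S.alg.comp _ finSumFinEquiv.symm.injective

/-! ### Taylor coefficients -/

theorem le_adj (F : IntermediateField k Ω) (η : Ω) : F ≤ adj F η := le_sup_left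

theorem mem_adj (F : IntermediateField k Ω) (η : Ω) : η ∈ adj F η :=
  (le_sup_right : IntermediateField.adjoin k {η} ≤ adj F η)
    (IntermediateField.mem_adjoin_simple_self k η)

theorem aeval_mem (F : IntermediateField k Ω) (η : Ω) (P : F[X]) : aeval η P ∈ adj F η := by
  rw [aeval_eq_sum_range]
  refine sum_mem fun i _ => ?_
  rw [Algebra.smul_def]
  exact mul_mem (le_adj F η (P.coeff i).2) (pow_mem (mem_adj F η) i)

theorem tc_eq (F : IntermediateField k Ω) (η : Ω) (P : F[X]) (j : ℕ) :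
    tc F η P j = aeval η (hasseDeriv j P) := by
  have h1 : hasseDeriv j (P.map (algebraMap F Ω)) = (hasseDeriv j P).map (algebraMap F Ω) := by
    ext n
    rw [coeff_map, hasseDeriv_coeff, hasseDeriv_coeff, coeff_map, map_mul, map_natCast]
  rw [tc, taylor_coeff, h1, eval_map_algebraMap]

theorem tc_mem (F : IntermediateField k Ω) (η : Ω) (P : F[X]) (j : ℕ) :
    tc F η P j ∈ adj F η := by
  rw [tc_eq]
  exact aeval_mem F η _

theorem tc_zero (F : IntermediateField k Ω) (η : Ω) (P : F[X]) :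
    tc F η P 0 = aeval η P := by
  rw [tc, taylor_coeff_zero, eval_map_algebraMap]

theorem expand (F : IntermediateField k Ω) (z η : Ω) (P : F[X]) :
    aeval z P = ∑ j ∈ Finset.range (P.natDegree + 1), tc F η P j * (z - η) ^ j := by
  have h1 : aeval z P = (taylor η (P.map (algebraMap F Ω))).eval (z - η) := by
    rw [taylor_eval, sub_add_cancel, eval_map_algebraMap]
  rw [h1, eval_eq_sum_range' (n := P.natDegree + 1)]
  · rfl
  · rw [natDegree_taylor]
    exact Nat.lt_succ_of_le natDegree_map_le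

theorem expand' (F : IntermediateField k Ω) (z η : Ω) (P : F[X]) :
    aeval z P - aeval η P =
      ∑ j ∈ (Finset.range (P.natDegree + 1)).erase 0, tc F η P j * (z - η) ^ j := by
  rw [expand F z η P, ← Finset.add_sum_erase _ _ (Finset.mem_range.2 (Nat.succ_pos P.natDegree)),
    tc_zero, pow_zero, mul_one, add_sub_cancel_left]

end E6

section Main

variable {p : ℕ} {F : IntermediateField k Ω} {z η : Ω} {ρ b₁ b ε : ℝ}

namespace SD

theorem e6_z_ne (d : SD p k v r D F z η ρ b₁ b ε) : z ≠ η := by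
  rintro rfl
  exact d.cen.tr d.cen.sep.isIntegral.isAlgebraic

theorem e6_zl_ne (d : SD p k v r D F z η ρ b₁ b ε) : d.zl ≠ 0 :=
  div_ne_zero (sub_ne_zero.2 d.e6_z_ne) d.π_ne

theorem e6_zl_pos (d : SD p k v r D F z η ρ b₁ b ε) : 0 < v d.zl := by
  rw [zl, v.map_div (sub_ne_zero.2 d.e6_z_ne) d.π_ne, d.π_val]
  have := d.cen.lt'
  linarith

theorem e6_sub_eq (d : SD p k v r D F z η ρ b₁ b ε) : z - η = d.π * d.zl := by
  rw [zl, mul_div_cancel₀ _ d.π_ne]

/-- a part of the expansion of a polynomial with the Gauss value of an element of `N` -/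
theorem e6_sum_mem (d : SD p k v r D F z η ρ b₁ b ε) {B : Subring Ω}
    (hN : ∀ a ∈ OV v (adj F η), a ∈ B) (hz : d.zl ∈ B) {A : F[X]} {w : Ω} (hw : w ∈ adj F η)
    (hw0 : w ≠ 0) (s : Finset ℕ) (hs : ∀ j ∈ s, v.Ge (v w - j * b) (tc F η A j)) :
    (∑ j ∈ s, tc F η A j * (z - η) ^ j) / w ∈ B := by
  rw [Finset.sum_div]
  refine _root_.sum_mem fun j hj => ?_
  have h1 : tc F η A j * (z - η) ^ j / w = (tc F η A j * d.π ^ j / w) * d.zl ^ j := by
    rw [d.e6_sub_eq]
    ring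
  rw [h1]
  refine mul_mem (hN _ ⟨?_, ?_⟩) (pow_mem hz j)
  · exact div_mem (mul_mem (E6.tc_mem F η A j) (pow_mem d.π_mem j)) hw
  · intro h0
    have h2 : tc F η A j ≠ 0 := by
      intro h3
      rw [h3, zero_mul, zero_div] at h0
      exact h0 rfl
    rw [v.map_div (mul_ne_zero h2 (pow_ne_zero _ d.π_ne)) hw0,
      v.map_mul h2 (pow_ne_zero _ d.π_ne), v.map_pow d.π_ne, d.π_val]
    have := hs j hj h2
    linarith

theorem e6_mem_of_GN (d : SD p k v r D F z η ρ b₁ b ε) {B : Subring Ω}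
    (hN : ∀ a ∈ OV v (adj F η), a ∈ B) (hz : d.zl ∈ B) {A : F[X]} {w : Ω} (hw : w ∈ adj F η)
    (hw0 : w ≠ 0) (hA : GN v F η b (v w) A) : aeval z A / w ∈ B := by
  rw [E6.expand F z η A]
  exact d.e6_sum_mem hN hz hw hw0 _ fun j _ => hA j

/-- a polynomial without zeros near `η` is a constant times a unit -/
theorem e6_unit_of_RB (d : SD p k v r D F z η ρ b₁ b ε) {B : Subring Ω}
    (hB : ∀ a ∈ B, v.Ge 0 a) (hN : ∀ a ∈ OV v (adj F η), a ∈ B) (hz : d.zl ∈ B) {P : F[X]}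
    {β : ℝ} (hP : RB v F η β P) (hβ : β ≤ b) :
    aeval z P / aeval η P ∈ B ∧ aeval z P ≠ 0 ∧ v (aeval z P) = v (aeval η P) := by
  have h0 : ∀ j : ℕ, v.Ge (v (aeval η P) - j * b) (tc F η P j) := by
    intro j
    refine (hP.2 j).mono ?_
    have : (j : ℝ) * β ≤ j * b := mul_le_mul_of_nonneg_left hβ (Nat.cast_nonneg j)
    linarith
  have h1 : aeval z P / aeval η P ∈ B :=
    d.e6_mem_of_GN hN hz (E6.aeval_mem F η P) hP.1 h0
  have h2 : VPos v (aeval z P / aeval η P - 1) := by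
    have h3 : aeval z P / aeval η P - 1 = d.zl *
        ((∑ j ∈ (Finset.range (P.natDegree + 1)).erase 0,
          tc F η P j * (z - η) ^ j) / (aeval η P * d.zl)) := by
      rw [← E6.expand']
      field_simp [hP.1, d.e6_zl_ne]
    have h4 : (∑ j ∈ (Finset.range (P.natDegree + 1)).erase 0,
          tc F η P j * (z - η) ^ j) / (aeval η P * d.zl) ∈ B := by
      rw [Finset.sum_div]
      refine _root_.sum_mem fun j hj => ?_
      have hj0 : j ≠ 0 := (Finset.mem_erase.1 hj).1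
      have h6 : tc F η P j * (z - η) ^ j / (aeval η P * d.zl) =
          (tc F η P j * d.π ^ j / aeval η P) * d.zl ^ (j - 1) := by
        obtain ⟨i, rfl⟩ : ∃ i, j = i + 1 := ⟨j - 1, by omega⟩
        rw [d.e6_sub_eq, Nat.add_sub_cancel, mul_pow, pow_succ d.zl i]
        have h7 := d.e6_zl_ne
        have h8 := hP.1
        field_simp
      rw [h6]
      refine mul_mem (hN _ ⟨?_, ?_⟩) (pow_mem hz _)
      · exact div_mem (mul_mem (E6.tc_mem F η P j) (pow_mem d.π_mem j)) (E6.aeval_mem F η P)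
      · intro h0'
        have h2 : tc F η P j ≠ 0 := by
          intro h3
          rw [h3, zero_mul, zero_div] at h0'
          exact h0' rfl
        rw [v.map_div (mul_ne_zero h2 (pow_ne_zero _ d.π_ne)) hP.1,
          v.map_mul h2 (pow_ne_zero _ d.π_ne), v.map_pow d.π_ne, d.π_val]
        have := h0 j h2
        linarith
    rw [h3]
    exact LU1.VPos.mul (fun _ => d.e6_zl_pos) (hB _ h4)
  have h3 := LU1.val_add_vpos (v := v) (f := (1 : Ω)) one_ne_zero v.map_one h2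
  rw [add_sub_cancel] at h3
  have h4 : aeval z P ≠ 0 := by
    intro h5
    rw [h5, zero_div] at h3
    exact h3.1 rfl
  refine ⟨h1, h4, ?_⟩
  have h5 := h3.2
  rw [v.map_div h4 hP.1] at h5
  linarith

/-- the elements of `k(S')` are elements of `N` times units -/
theorem e6_exists_unit (d : SD p k v r D F z η ρ b₁ b ε) {B : Subring Ω} (hB : HClosed v B)
    (hN : ∀ a ∈ OV v (adj F η), a ∈ B) (hz : d.zl ∈ B) {m : Ω} (hm : m ∈ d.S'.K)
    (hm0 : m ≠ 0) : ∃ m' ∈ adj F η, m' ≠ 0 ∧ v m' = v m ∧ m / m' ∈ B ∧ m' / m ∈ B := by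
  rw [E6.K_eq, kr, IntermediateField.mem_adjoin_range_iff] at hm
  obtain ⟨P, Q, rfl⟩ := hm
  have hne : ∀ P : MvPolynomial (Fin (r + D)) k, MvPolynomial.aeval d.S'.s P ≠ 0 →
      MvPolynomial.aeval d.S.s P ≠ 0 := by
    intro P hP h0
    apply hP
    have := (E6.alg_s d.S).eq_zero_of_aeval_eq_zero P h0
    rw [this, map_zero]
  have hP0 : MvPolynomial.aeval d.S'.s P ≠ 0 := by
    intro h0
    rw [h0, zero_div] at hm0
    exact hm0 rfl
  have hQ0 : MvPolynomial.aeval d.S'.s Q ≠ 0 := by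
    intro h0
    rw [h0, div_zero] at hm0
    exact hm0 rfl
  have hun : ∀ P : MvPolynomial (Fin (r + D)) k, MvPolynomial.aeval d.S'.s P ≠ 0 →
      MvPolynomial.aeval d.S.s P ∈ adj F η ∧
      v (MvPolynomial.aeval d.S.s P) = v (MvPolynomial.aeval d.S'.s P) ∧
      MvPolynomial.aeval d.S'.s P / MvPolynomial.aeval d.S.s P ∈ B ∧
      MvPolynomial.aeval d.S.s P / MvPolynomial.aeval d.S'.s P ∈ B := by
    intro P hP
    obtain ⟨C, hC, hC1, hC2⟩ := d.rb P (hne P hP)
    obtain ⟨h1, h2, h3⟩ := d.e6_unit_of_RB hB.nonneg hN hz hC d.lt₂.le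
    rw [hC1, hC2] at h1 h3
    refine ⟨hC1 ▸ E6.aeval_mem F η C, h3.symm, h1, ?_⟩
    have h4 := hB.inv _ h1 (div_ne_zero hP (hne P hP)) (by
      rw [v.map_div hP (hne P hP), h3, sub_self])
    rwa [inv_div] at h4
  obtain ⟨p1, p2, p3, p4⟩ := hun P hP0
  obtain ⟨q1, q2, q3, q4⟩ := hun Q hQ0
  refine ⟨MvPolynomial.aeval d.S.s P / MvPolynomial.aeval d.S.s Q, div_mem p1 q1,
    div_ne_zero (hne P hP0) (hne Q hQ0), ?_, ?_, ?_⟩
  · rw [v.map_div (hne P hP0) (hne Q hQ0), v.map_div hP0 hQ0, p2, q2]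
  · rw [div_div_div_eq, mul_comm (MvPolynomial.aeval d.S'.s Q), mul_div_mul_comm]
    exact mul_mem p3 q4
  · rw [div_div_div_eq, mul_comm (MvPolynomial.aeval d.S.s Q), mul_div_mul_comm]
    exact mul_mem p4 q3

theorem e6_gR_nonneg (d : SD p k v r D F z η ρ b₁ b ε) (E : IntermediateField k Ω) :
    ∀ a ∈ Subring.closure ((OV v E : Set Ω) ∪ {d.zl}), v.Ge 0 a := by
  have h1 : Subring.closure ((OV v E : Set Ω) ∪ {d.zl}) ≤ OVt v := by
    rw [Subring.closure_le]
    rintro x (hx | hx)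
    · exact hx.2
    · rw [Set.mem_singleton_iff.1 hx]
      exact fun _ => d.e6_zl_pos.le
  exact fun a ha => h1 ha

theorem e6_hclosed_R (d : SD p k v r D F z η ρ b₁ b ε) : HClosed v d.R :=
  hclosed_hensA (d.e6_gR_nonneg _)

theorem e6_hclosed_R' (d : SD p k v r D F z η ρ b₁ b ε) : HClosed v d.R' :=
  hclosed_hensA (d.e6_gR_nonneg _)

theorem e6_OV_le_R (d : SD p k v r D F z η ρ b₁ b ε) : ∀ a ∈ OV v (adj F η), a ∈ d.R :=
  fun _ ha => le_hensA _ (Subring.subset_closure (Or.inl ha))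

theorem e6_zl_mem_R (d : SD p k v r D F z η ρ b₁ b ε) : d.zl ∈ d.R :=
  le_hensA _ (Subring.subset_closure (Or.inr rfl))

theorem e6_zl_mem_R' (d : SD p k v r D F z η ρ b₁ b ε) : d.zl ∈ d.R' :=
  le_hensA _ (Subring.subset_closure (Or.inr rfl))

end SD

variable [Fact p.Prime] [CharP k p] [CharP Ω p] [IsAlgClosed Ω] [IsAlgClosed k]

set_option linter.unusedVariables false in
set_option linter.unusedSectionVars false in
/-- regular functions with Gauss value `≥ 0` are in `R` -/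
theorem SD.reg_R (h : Ctx k v r) (d : SD p k v r D F z η ρ b₁ b ε) {f : Ω}
    (hf : Reg v F z η b₁ b 0 f) : f ∈ d.R := by
  obtain ⟨A, B, hB, hA, hz, rfl⟩ := hf
  rw [zero_add] at hA
  obtain ⟨h1, h2, h3⟩ := d.e6_unit_of_RB d.e6_hclosed_R.nonneg d.e6_OV_le_R d.e6_zl_mem_R hB d.lt₂.le
  have h4 := d.e6_hclosed_R.inv _ h1 (div_ne_zero h2 hB.1) (by rw [v.map_div h2 hB.1, h3, sub_self])
  have h5 := d.e6_mem_of_GN d.e6_OV_le_R d.e6_zl_mem_R (E6.aeval_mem F η B) hB.1 hA
  have h6 : aeval z A / aeval z B = aeval z A / aeval η B * (aeval z B / aeval η B)⁻¹ := by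
    have := hB.1
    field_simp
  rw [h6]
  exact mul_mem h5 h4

set_option linter.unusedVariables false in
set_option linter.unusedSectionVars false in
theorem SD.A_le_R (h : Ctx k v r) (d : SD p k v r D F z η ρ b₁ b ε) : d.A ≤ d.R := by
  refine hensA_le ?_ d.e6_hclosed_R
  rw [Subring.closure_le]
  rintro m (hm | hm)
  · by_cases hm0 : m = 0
    · rw [hm0]
      exact zero_mem d.R
    obtain ⟨m', h1, h2, h3, h4, -⟩ := d.e6_exists_unit d.e6_hclosed_R d.e6_OV_le_R d.e6_zl_mem_R hm.1 hm0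
    have h5 : m = m / m' * m' := (div_mul_cancel₀ _ h2).symm
    rw [h5]
    refine mul_mem h4 (d.e6_OV_le_R _ ⟨h1, fun _ => ?_⟩)
    rw [h3]
    exact hm.2 hm0
  · rw [Set.mem_singleton_iff.1 hm]
    obtain ⟨q', h1, h2, h3, h4, h5⟩ :=
      d.e6_exists_unit d.e6_hclosed_R d.e6_OV_le_R d.e6_zl_mem_R d.q_mem d.q_ne
    have h6 := d.e6_mem_of_GN d.e6_OV_le_R d.e6_zl_mem_R h1 h2 (by rw [h3]; exact d.q_val.1)
    have h7 : d.X = aeval z (minpoly F η) / q' * (q' / d.q) := by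
      rw [SD.X]
      have := d.q_ne
      field_simp
    rw [h7]
    exact mul_mem h6 h5

/-- the valuation ring of `N` is in `R'`, from the comparison of the coordinates `S`, `S'` -/
theorem SD.OV_le_R'_of (h : Ctx k v r) (d : SD p k v r D F z η ρ b₁ b ε)
    (hnear : (∀ i, ∃ a ∈ hensA v (Subring.closure ((OV v (kr k d.S.s) : Set Ω) ∪ {d.zl})),
        d.S.s i = d.S'.s i * (1 + d.w₃ * d.w₄ * a)) →
      ∀ a ∈ OV v (kr k d.S.s),
        a ∈ hensA v (Subring.closure ((OV v (kr k d.S'.s) : Set Ω) ∪ {d.zl}))) :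
    ∀ a ∈ OV v (adj F η), a ∈ d.R' := by
  classical
  -- the valuation ring of `k(S)`
  have hposS : ∃ a ∈ d.S.K, a ≠ 0 ∧ 0 < v a := by
    obtain ⟨l, hl⟩ := P2.exists_pos h d.S
    exact ⟨_, P2.mx_mem (P2.x_mem_K d.S) l, P2.mx_ne d.S l, hl⟩
  have hhen := d.fr.hen_eq p h
  have hOV := hensA_OV h.toCtx0 d.S.K hposS
  set B : Subring Ω := hensA v (Subring.closure ((OV v (kr k d.S.s) : Set Ω) ∪ {d.zl})) with hBdef
  have hB : HClosed v B := hclosed_hensA (d.e6_gR_nonneg _)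
  have hz : d.zl ∈ B := le_hensA _ (Subring.subset_closure (Or.inr rfl))
  have hSB : ∀ a ∈ OV v d.S.K, a ∈ B := by
    intro a ha
    rw [E6.K_eq] at ha
    exact le_hensA _ (Subring.subset_closure (Or.inl ha))
  have hN : ∀ a ∈ OV v (adj F η), a ∈ B := by
    intro a ha
    have h1 : a ∈ OV v (hen v d.S.K) := by
      rw [← hhen]
      exact ⟨D2P.le_hen _ ha.1, ha.2⟩
    rw [← hOV] at h1
    exact hensA_le hSB hB h1
  -- the near coordinates
  have hn : ∀ i, ∃ a ∈ hensA v (Subring.closure ((OV v (kr k d.S.s) : Set Ω) ∪ {d.zl})),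
      d.S.s i = d.S'.s i * (1 + d.w₃ * d.w₄ * a) := by
    intro i
    obtain ⟨P, hdeg, hP1, hP2⟩ := d.star i
    have hs0 := E6.s_ne d.S i
    have hs0' := E6.s_ne d.S' i
    have hP0 : P ≠ 0 := by
      rintro rfl
      rw [map_zero] at hP1
      exact hs0 hP1.symm
    have hRB := d.cen.tb P hP0 hdeg
    obtain ⟨g1, g2, g3⟩ := d.e6_unit_of_RB hB.nonneg hN hz hRB d.cen.lt.le
    have g4 := hB.inv _ g1 (div_ne_zero g2 hRB.1) (by rw [v.map_div g2 hRB.1, g3, sub_self])
    rw [hP1, hP2, inv_div] at g4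
    obtain ⟨w₃', a1, a2, a3, -, a5⟩ := d.e6_exists_unit hB hN hz d.w₃_mem d.w₃_ne
    obtain ⟨w₄', c1, c2, c3, -, c5⟩ := d.e6_exists_unit hB hN hz d.w₄_mem d.w₄_ne
    have hw : d.S.s i * w₃' * w₄' ∈ adj F η :=
      mul_mem (mul_mem (by rw [← hP1]; exact E6.aeval_mem F η P) a1) c1
    have hw0 : d.S.s i * w₃' * w₄' ≠ 0 := mul_ne_zero (mul_ne_zero hs0 a2) c2
    have h1 : (aeval z P - aeval η P) / (d.S.s i * w₃' * w₄') ∈ B := by
      rw [E6.expand']
      refine d.e6_sum_mem hN hz hw hw0 _ fun j hj => ?_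
      have hj0 : j ≠ 0 := (Finset.mem_erase.1 hj).1
      refine (hRB.2 j).mono ?_
      rw [v.map_mul (mul_ne_zero hs0 a2) c2, v.map_mul hs0 a2, a3, c3, hP1]
      have h2 : (1 : ℝ) ≤ j := by exact_mod_cast Nat.one_le_iff_ne_zero.2 hj0
      have h3 := d.w_le
      have h4 := d.lt₂
      have h5 := d.cen.lt
      nlinarith
    rw [hP1, hP2] at h1
    refine ⟨-((d.S'.s i - d.S.s i) / (d.S.s i * w₃' * w₄') * (d.S.s i / d.S'.s i) *
      (w₃' / d.w₃) * (w₄' / d.w₄)), neg_mem (mul_mem (mul_mem (mul_mem h1 g4) a5) c5), ?_⟩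
    have e3 := d.w₃_ne
    have e4 := d.w₄_ne
    field_simp
    ring
  have hnear' := hnear hn
  rw [← E6.K_eq d.S', ← E6.K_eq d.S] at hnear'
  intro a ha
  have h1 : a ∈ OV v (hen v d.S.K) := by
    rw [← hhen]
    exact ⟨D2P.le_hen _ ha.1, ha.2⟩
  rw [← hOV] at h1
  exact hensA_le hnear' d.e6_hclosed_R' h1

end Main

end Pool.Agent.TW
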