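import Pool.Agent.Lib.TW.E7a
import Pool.Agent.Lib.TW.E6a
import Pool.Agent.Lib.TW.P1

/-!
# TANK W, E9: `p`-coordinates of regular functions

The rows E6 (`OV F(η) ≤ R'`), E8 (`A` is normal, `F(z) ⊆ Frac A`) and BA (`p`-bases and separable
extensions) are hypotheses in this file.
-/

set_option autoImplicit false

open Polynomial

namespace Pool.Agent.TW

open Pool.Agent.H15JM (RVal)
open Pool.Agent.LU1 (VPos adj)
open Pool.Agent.LUC (Cl clF lv)
open Pool.Agent.D2 (Ctx0)
open Pool.Agent.D2P (hen rootF)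

universe u

variable {k Ω : Type u} [Field k] [Field Ω] [Algebra k Ω] {v : RVal Ω} {r D : ℕ}

namespace E9

section Mon

variable {p n : ℕ} [hp : Fact p.Prime] [CharP Ω p] {T : Fin n → Ω} {B : Subring Ω}

/-- `f` is a combination of the monomials in `T`, with `p`-th powers of elements of `B` as
coefficients. -/
def Co (p : ℕ) (T : Fin n → Ω) (B : Subring Ω) (f : Ω) : Prop :=
  ∃ c : (Fin n → Fin p) → Ω, (∀ α, c α ∈ B) ∧ f = pcomb T c

theorem Co.add {f g : Ω} (hf : Co p T B f) (hg : Co p T B g) : Co p T B (f + g) := by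
  obtain ⟨c, hc, rfl⟩ := hf
  obtain ⟨d, hd, rfl⟩ := hg
  refine ⟨fun α => c α + d α, fun α => add_mem (hc α) (hd α), ?_⟩
  unfold pcomb
  rw [← Finset.sum_add_distrib]
  refine Finset.sum_congr rfl fun α _ => ?_
  rw [add_pow_char, add_mul]

omit [CharP Ω p] in
theorem Co.zero : Co p T B 0 := by
  refine ⟨fun _ => 0, fun _ => zero_mem _, ?_⟩
  unfold pcomb
  rw [Finset.sum_eq_zero]
  intro α _
  rw [zero_pow hp.out.ne_zero, zero_mul]

theorem Co.neg {f : Ω} (hf : Co p T B f) : Co p T B (-f) := by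
  obtain ⟨c, hc, rfl⟩ := hf
  refine ⟨fun α => -c α, fun α => neg_mem (hc α), ?_⟩
  unfold pcomb
  rw [← Finset.sum_neg_distrib]
  refine Finset.sum_congr rfl fun α _ => ?_
  rw [P1.neg_pow_p, neg_mul]

theorem Co.sum {ι : Type*} (s : Finset ι) (f : ι → Ω) (hf : ∀ i ∈ s, Co p T B (f i)) :
    Co p T B (∑ i ∈ s, f i) := by
  classical
  induction s using Finset.induction_on with
  | empty => rw [Finset.sum_empty]; exact Co.zero
  | insert i s hi ih =>
    rw [Finset.sum_insert hi]
    exact (hf i (Finset.mem_insert_self i s)).add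
      (ih fun j hj => hf j (Finset.mem_insert_of_mem hj))

omit [CharP Ω p] hp in
theorem Co.pmul {f h : Ω} (hh : h ∈ B) (hf : Co p T B f) : Co p T B (h ^ p * f) := by
  obtain ⟨c, hc, rfl⟩ := hf
  refine ⟨fun α => h * c α, fun α => mul_mem hh (hc α), ?_⟩
  unfold pcomb
  rw [Finset.mul_sum]
  refine Finset.sum_congr rfl fun α _ => ?_
  rw [mul_pow]
  ring

omit [CharP Ω p] in
theorem Co.one : Co p T B 1 := by
  classical
  have _ : NeZero p := ⟨hp.out.ne_zero⟩
  refine ⟨fun α => if α = 0 then 1 else 0, fun α => ?_, ?_⟩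
  · beta_reduce
    split_ifs
    exacts [one_mem _, zero_mem _]
  · unfold pcomb
    beta_reduce
    rw [Finset.sum_eq_single 0]
    · rw [if_pos rfl, one_pow, one_mul]
      unfold mon
      rw [Finset.prod_eq_one]
      intro i _
      simp
    · intro α _ hα
      rw [if_neg hα, zero_pow hp.out.ne_zero, zero_mul]
    · intro h
      exact absurd (Finset.mem_univ _) h

omit [CharP Ω p] in
/-- Multiplication by a coordinate. -/
theorem Co.tmul (hT : ∀ i, T i ∈ B) (i : Fin n) {f : Ω} (hf : Co p T B f) :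
    Co p T B (T i * f) := by
  classical
  have _ : NeZero p := ⟨hp.out.ne_zero⟩
  obtain ⟨c, hc, rfl⟩ := hf
  let e : (Fin n → Fin p) ≃ (Fin n → Fin p) := Equiv.addRight (Pi.single i 1)
  refine ⟨fun β => if β i = 0 then T i * c (e.symm β) else c (e.symm β), fun β => ?_, ?_⟩
  · beta_reduce
    split_ifs
    · exact mul_mem (hT i) (hc _)
    · exact hc _
  · unfold pcomb
    rw [Finset.mul_sum, ← Equiv.sum_comp e (fun β =>
      (if β i = 0 then T i * c (e.symm β) else c (e.symm β)) ^ p * mon T β)]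
    refine Finset.sum_congr rfl fun α _ => ?_
    beta_reduce
    rw [Equiv.symm_apply_apply]
    have hei : ∀ j, j ≠ i → e α j = α j := by
      intro j hj
      show (α + (Pi.single i 1 : Fin n → Fin p)) j = α j
      rw [Pi.add_apply, Pi.single_eq_of_ne hj, add_zero]
    have hii : e α i = α i + 1 := by
      show (α + (Pi.single i 1 : Fin n → Fin p)) i = α i + 1
      rw [Pi.add_apply, Pi.single_eq_same]
    have hm : ∀ β : Fin n → Fin p, mon T β =
        T i ^ (β i : ℕ) * ∏ j ∈ Finset.univ.erase i, T j ^ (β j : ℕ) := by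
      intro β
      rw [mon, Finset.mul_prod_erase _ (fun j => T j ^ (β j : ℕ)) (Finset.mem_univ i)]
    have hprod : ∏ j ∈ Finset.univ.erase i, T j ^ (e α j : ℕ) =
        ∏ j ∈ Finset.univ.erase i, T j ^ (α j : ℕ) :=
      Finset.prod_congr rfl fun j hj => by rw [hei j (Finset.ne_of_mem_erase hj)]
    rw [hm, hm (e α), hprod]
    have hlt := (α i).2
    have hval : ((α i + 1 : Fin p) : ℕ) = ((α i : ℕ) + 1) % p := by
      rw [Fin.val_add]
      rcases Nat.lt_or_ge 1 p with h1 | h1
      · rw [Fin.val_one', Nat.mod_eq_of_lt h1]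
      · exact absurd hp.out.one_lt (not_lt.2 h1)
    by_cases h0 : e α i = 0
    · rw [if_pos h0, h0]
      rw [hii] at h0
      have h1 := congrArg Fin.val h0
      rw [hval] at h1
      have h2 : ((0 : Fin p) : ℕ) = 0 := Fin.val_zero p
      rw [h2] at h1
      have h3 : (α i : ℕ) + 1 = p := by
        have h4 : p ∣ (α i : ℕ) + 1 := Nat.dvd_of_mod_eq_zero h1
        have h5 := Nat.le_of_dvd (Nat.succ_pos _) h4
        omega
      have h6 : T i ^ p = T i * T i ^ (α i : ℕ) := by
        have h7 : T i ^ ((α i : ℕ) + 1) = T i * T i ^ (α i : ℕ) := pow_succ' _ _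
        rwa [h3] at h7
      rw [h2, pow_zero, one_mul, mul_pow, h6]
      ring
    · rw [if_neg h0]
      have h3 : ((e α i : Fin p) : ℕ) = (α i : ℕ) + 1 := by
        rw [hii, hval]
        refine Nat.mod_eq_of_lt ?_
        by_contra h4
        apply h0
        rw [hii]
        apply Fin.ext
        rw [hval]
        have h5 : (α i : ℕ) + 1 = p := by omega
        rw [h5, Nat.mod_self]
        exact (Fin.val_zero p).symm
      rw [h3, pow_succ]
      ring

omit [CharP Ω p] in
theorem Co.powmul (hT : ∀ i, T i ∈ B) (i : Fin n) (e : ℕ) {f : Ω} (hf : Co p T B f) :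
    Co p T B (T i ^ e * f) := by
  induction e with
  | zero => rwa [pow_zero, one_mul]
  | succ e ih =>
    rw [pow_succ', mul_assoc]
    exact ih.tmul hT i

omit [CharP Ω p] in
theorem Co.monmul (hT : ∀ i, T i ∈ B) (e : Fin n → ℕ) (s : Finset (Fin n)) {f : Ω}
    (hf : Co p T B f) : Co p T B ((∏ i ∈ s, T i ^ e i) * f) := by
  classical
  induction s using Finset.induction_on with
  | empty => rwa [Finset.prod_empty, one_mul]
  | insert i s hi ih =>
    rw [Finset.prod_insert hi, mul_assoc]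
    exact ih.powmul hT i _

theorem Co.mul (hT : ∀ i, T i ∈ B) {f g : Ω} (hf : Co p T B f) (hg : Co p T B g) :
    Co p T B (f * g) := by
  obtain ⟨c, hc, rfl⟩ := hf
  unfold pcomb
  rw [Finset.sum_mul]
  refine Co.sum _ _ fun α _ => ?_
  rw [mul_assoc]
  exact Co.pmul (hc α) (Co.monmul hT _ _ hg)

/-- The ring of the combinations. -/
def CoR (p : ℕ) [Fact p.Prime] [CharP Ω p] {T : Fin n → Ω} {B : Subring Ω}
    (hT : ∀ i, T i ∈ B) : Subring Ω where
  carrier := {f | Co p T B f}
  mul_mem' := fun ha hb => Co.mul hT ha hb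
  one_mem' := Co.one
  add_mem' := fun ha hb => Co.add ha hb
  zero_mem' := Co.zero
  neg_mem' := fun ha => Co.neg ha

/-- Uniqueness of the coefficients. -/
theorem pcomb_inj {E : IntermediateField k Ω} (hT : PBasis p E T)
    {c c' : (Fin n → Fin p) → Ω} (hc : ∀ α, c α ∈ E) (hc' : ∀ α, c' α ∈ E)
    (h : pcomb T c = pcomb T c') : c = c' := by
  have h1 : pcomb T (fun α => c α - c' α) = 0 := by
    have h2 : pcomb T (fun α => c α - c' α) = pcomb T c - pcomb T c' := by
      unfold pcomb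
      rw [← Finset.sum_sub_distrib]
      refine Finset.sum_congr rfl fun α _ => ?_
      rw [sub_pow_char, sub_mul]
    rw [h2, h, sub_self]
  funext α
  exact sub_eq_zero.1 (hT.ind _ (fun α => sub_mem (hc α) (hc' α)) h1 α)

end Mon

/-! ### Separable closures -/

/-- The elements of `Ω` which are separable over `E`. -/
noncomputable def sc (E : IntermediateField k Ω) : IntermediateField k Ω :=
  (separableClosure E Ω).restrictScalars k

theorem mem_sc {E : IntermediateField k Ω} {a : Ω} : a ∈ sc E ↔ IsSeparable E a := by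
  rw [sc, IntermediateField.mem_restrictScalars, mem_separableClosure_iff]

/-- Simple roots are separable. -/
theorem sep_of_root {K : Type*} [Field K] [Algebra K Ω] {a : Ω} {G : Polynomial K}
    (h0 : aeval a G = 0) (hd : aeval a G.derivative ≠ 0) : IsSeparable K a := by
  have hG0 : G ≠ 0 := by
    rintro rfl
    rw [Polynomial.derivative_zero, map_zero] at hd
    exact hd rfl
  have hint : IsIntegral K a := by
    have h1 : IsAlgebraic K a := ⟨G, hG0, h0⟩
    exact h1.isIntegral
  obtain ⟨q, hq⟩ := minpoly.dvd K a h0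
  have h1 : aeval a (minpoly K a).derivative ≠ 0 := by
    intro h2
    apply hd
    rw [hq, Polynomial.derivative_mul, map_add, map_mul, map_mul, h2, minpoly.aeval]
    ring
  refine (Polynomial.separable_iff_derivative_ne_zero (minpoly.irreducible hint)).2 ?_
  intro h2
  apply h1
  rw [h2, map_zero]

theorem le_sc (E : IntermediateField k Ω) : E ≤ sc E := by
  intro a ha
  rw [mem_sc]
  exact isSeparable_algebraMap (F := E) (⟨a, ha⟩ : E)

variable {p : ℕ} {F : IntermediateField k Ω} {z η : Ω} {ρ b₁ b ε : ℝ}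

/-! ### The ring `N R` -/

/-- The elements with a denominator in `F(η)`. -/
def NR (d : SD p k v r D F z η ρ b₁ b ε) : Subring Ω where
  carrier := {f | ∃ m ∈ OV v (adj F η), m ≠ 0 ∧ m * f ∈ d.R}
  mul_mem' := by
    rintro f g ⟨m, hm, hm0, hf⟩ ⟨m', hm', hm0', hg⟩
    refine ⟨m * m', mul_mem hm hm', mul_ne_zero hm0 hm0', ?_⟩
    have := mul_mem hf hg
    rwa [show m * f * (m' * g) = m * m' * (f * g) by ring] at this
  one_mem' := ⟨1, one_mem _, one_ne_zero, by rw [mul_one]; exact one_mem _⟩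
  add_mem' := by
    rintro f g ⟨m, hm, hm0, hf⟩ ⟨m', hm', hm0', hg⟩
    have hO : ∀ a ∈ OV v (adj F η), a ∈ d.R := fun a ha =>
      le_hensA _ (Subring.subset_closure (Or.inl ha))
    refine ⟨m * m', mul_mem hm hm', mul_ne_zero hm0 hm0', ?_⟩
    rw [show m * m' * (f + g) = m' * (m * f) + m * (m' * g) by ring]
    exact add_mem (mul_mem (hO _ hm') hf) (mul_mem (hO _ hm) hg)
  zero_mem' := ⟨1, one_mem _, one_ne_zero, by rw [mul_zero]; exact zero_mem _⟩
  neg_mem' := by
    rintro f ⟨m, hm, hm0, hf⟩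
    exact ⟨m, hm, hm0, by rw [mul_neg]; exact neg_mem hf⟩

theorem R_le_NR (d : SD p k v r D F z η ρ b₁ b ε) : d.R ≤ NR d := fun f hf =>
  ⟨1, one_mem _, one_ne_zero, by rwa [one_mul]⟩

theorem N_le_NR (d : SD p k v r D F z η ρ b₁ b ε) {a : Ω} (ha : a ∈ adj F η) : a ∈ NR d := by
  by_cases h0 : a = 0
  · rw [h0]; exact zero_mem _
  by_cases h1 : 0 ≤ v a
  · exact R_le_NR d (le_hensA _ (Subring.subset_closure (Or.inl ⟨ha, fun _ => h1⟩)))
  · refine ⟨a⁻¹, ⟨inv_mem ha, fun _ => ?_⟩, inv_ne_zero h0, ?_⟩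
    · rw [v.map_inv h0]
      push Not at h1
      linarith
    · rw [inv_mul_cancel₀ h0]
      exact one_mem _

theorem z_mem_NR (d : SD p k v r D F z η ρ b₁ b ε) : z ∈ NR d := by
  have h1 : η + d.π * d.zl = z := by
    rw [SD.zl]
    have := d.π_ne
    field_simp
    ring
  have h2 : η + d.π * d.zl ∈ NR d := by
    refine add_mem (N_le_NR d (E7.self_mem_adj F η)) (mul_mem (N_le_NR d d.π_mem) (R_le_NR d ?_))
    exact le_hensA _ (Subring.subset_closure (Or.inr rfl))
  rwa [h1] at h2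

theorem sep_N (d : SD p k v r D F z η ρ b₁ b ε) : ∀ a ∈ adj F η, IsSeparable F a := by
  intro a ha
  have h1 : adj F η ≤ sc F := by
    refine sup_le (le_sc F) ?_
    rw [IntermediateField.adjoin_le_iff]
    rintro x rfl
    exact mem_sc.2 d.cen.sep
  exact mem_sc.1 (h1 ha)

/-- Regular functions over `F(η)` have `p`-coordinates in `N R`. -/
theorem co_R [hp : Fact p.Prime] [CharP Ω p] (h : Ctx k v r)
    (d : SD p k v r D F z η ρ b₁ b ε) {t : Fin (r + D) → Ω} (ht : PBasis p F t)
    (htN : PBasis p (adj F η) t) :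
    ∀ f ∈ d.R, Co p (Fin.snoc t z : Fin (r + D + 1) → Ω) (NR d) f := by
  have h0 := h.toCtx0
  set T : Fin (r + D + 1) → Ω := Fin.snoc t z with hTdef
  have hTc : ∀ i : Fin (r + D), T i.castSucc = t i := fun i => by
    rw [hTdef, Fin.snoc_castSucc]
  have hTl : T (Fin.last _) = z := by rw [hTdef, Fin.snoc_last]
  have hT : ∀ i, T i ∈ NR d := by
    intro i
    refine Fin.lastCases ?_ (fun i => ?_) i
    · rw [hTl]; exact z_mem_NR d
    · rw [hTc]; exact N_le_NR d (htN.mem i)
  set M : Subring Ω := CoR p hT with hM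
  have hTM : ∀ i, T i ∈ M := by
    intro i
    have := Co.tmul (p := p) hT i (Co.one (p := p) (T := T) (B := NR d))
    rwa [mul_one] at this
  have hpM : ∀ f ∈ NR d, f ^ p ∈ M := by
    intro f hf
    have := Co.pmul hf (Co.one (p := p) (T := T) (B := NR d))
    rwa [mul_one] at this
  have hNM : ∀ a ∈ adj F η, a ∈ M := by
    intro a ha
    obtain ⟨c, hc, rfl⟩ := htN.span a ha
    unfold pcomb
    refine sum_mem fun α _ => mul_mem (hpM _ (N_le_NR d (hc α))) (prod_mem fun i _ => ?_)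
    rw [← hTc]
    exact pow_mem (hTM _) _
  have hzM : z ∈ M := by
    rw [← hTl]
    exact hTM _
  let B₀ : Subring Ω := M ⊓ d.R
  have hR : HClosed v d.R := hclosed_hensA (E7.nonneg_zl d _)
  have hB : HClosed v B₀ := by
    refine P1.root_step p h0 hR inf_le_right ?_ ?_
    · intro c
      refine ⟨hNM _ (IntermediateField.algebraMap_mem _ c), ?_⟩
      exact le_hensA _ (Subring.subset_closure
        (Or.inl ⟨IntermediateField.algebraMap_mem _ c, h0.ge c⟩))
    · intro f hf
      exact ⟨hpM f (R_le_NR d hf), pow_mem hf _⟩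
  have hle : d.R ≤ B₀ := by
    refine hensA_le ?_ hB
    rw [Subring.closure_le]
    rintro x (hx | hx)
    · exact ⟨hNM x hx.1, le_hensA _ (Subring.subset_closure (Or.inl hx))⟩
    · refine ⟨?_, le_hensA _ (Subring.subset_closure (Or.inr hx))⟩
      have h1 : x = d.zl := hx
      have h2 : x = (z - η) * d.π⁻¹ := by rw [h1, SD.zl]; ring
      rw [h2]
      exact mul_mem (sub_mem hzM (hNM _ (E7.self_mem_adj F η))) (hNM _ (inv_mem d.π_mem))
  exact fun f hf => (hle hf).1

/-- `R` is contained in the separable closure of `F(z)`. -/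
theorem R_le_sc (h : Ctx k v r) (d : SD p k v r D F z η ρ b₁ b ε) :
    ∀ f ∈ d.R, f ∈ sc (adj F z) := by
  have h0 := h.toCtx0
  have hcl : HClosed v (OV v (sc (adj F z))) := by
    refine ⟨fun f hf => hf.2, fun f hf h1 h2 => ⟨inv_mem hf.1, fun _ => ?_⟩, ?_⟩
    · rw [v.map_inv h1, h2, neg_zero]
    · intro g a hg ha hga hd _
      refine ⟨?_, ha⟩
      -- simple roots are separable
      have hlift : g ∈ Polynomial.lifts (algebraMap (separableClosure (adj F z) Ω) Ω) := by
        rw [Polynomial.lifts_iff_coeff_lifts]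
        intro i
        exact ⟨⟨g.coeff i, (hg i).1⟩, rfl⟩
      obtain ⟨G, hG⟩ := (Polynomial.mem_lifts g).1 hlift
      have h1 : aeval a G = 0 := by
        rw [Polynomial.aeval_def, ← Polynomial.eval_map, hG]
        exact hga
      have h2 : aeval a G.derivative ≠ 0 := by
        rw [Polynomial.aeval_def, ← Polynomial.eval_map, ← Polynomial.derivative_map, hG]
        exact hd
      have h3 := sep_of_root h1 h2
      have h4 : a ∈ separableClosure (separableClosure (adj F z) Ω) Ω :=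
        mem_separableClosure_iff.2 h3
      rw [separableClosure.separableClosure_eq_bot, IntermediateField.mem_bot] at h4
      obtain ⟨b, rfl⟩ := h4
      exact b.2
  intro f hf
  have h1 : d.R ≤ OV v (sc (adj F z)) := by
    refine hensA_le ?_ hcl
    have hz : z ∈ sc (adj F z) := le_sc _ (E7.self_mem_adj F z)
    have hN : ∀ a ∈ adj F η, a ∈ sc (adj F z) := by
      intro a ha
      rw [mem_sc]
      exact D2P.isSeparable_mono (le_sup_left : F ≤ adj F z) (sep_N d a ha)
    rw [Subring.closure_le]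
    rintro x (hx | hx)
    · exact ⟨hN x hx.1, hx.2⟩
    · have h1 : x = d.zl := hx
      rw [h1]
      refine ⟨?_, (E7.zl_pos d).ge⟩
      rw [SD.zl]
      exact div_mem (sub_mem hz (hN _ (E7.self_mem_adj F η))) (hN _ d.π_mem)
  exact (h1 hf).1

/-- The field of fractions of `A`. -/
def FrA (h : Ctx k v r) (d : SD p k v r D F z η ρ b₁ b ε) : IntermediateField k Ω :=
  Subfield.toIntermediateField
    { carrier := {f | InFrac d.A f}
      mul_mem' := by
        rintro f g ⟨a, ha, b, hb, hb0, rfl⟩ ⟨a', ha', b', hb', hb0', rfl⟩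
        exact ⟨a * a', mul_mem ha ha', b * b', mul_mem hb hb', mul_ne_zero hb0 hb0', by
          field_simp⟩
      one_mem' := ⟨1, one_mem _, 1, one_mem _, one_ne_zero, by rw [div_one]⟩
      add_mem' := by
        rintro f g ⟨a, ha, b, hb, hb0, rfl⟩ ⟨a', ha', b', hb', hb0', rfl⟩
        exact ⟨a * b' + a' * b, add_mem (mul_mem ha hb') (mul_mem ha' hb), b * b',
          mul_mem hb hb', mul_ne_zero hb0 hb0', by field_simp⟩
      zero_mem' := ⟨0, zero_mem _, 1, one_mem _, one_ne_zero, by rw [div_one]⟩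
      neg_mem' := by
        rintro f ⟨a, ha, b, hb, hb0, rfl⟩
        exact ⟨-a, neg_mem ha, b, hb, hb0, by rw [neg_div]⟩
      inv_mem' := by
        rintro f ⟨a, ha, b, hb, hb0, rfl⟩
        by_cases ha0 : a = 0
        · exact ⟨0, zero_mem _, 1, one_mem _, one_ne_zero, by rw [ha0, zero_div, inv_zero, zero_div]⟩
        · exact ⟨b, hb, a, ha, ha0, by rw [inv_div]⟩ }
    (fun c => ⟨algebraMap k Ω c, le_hensA _ (Subring.subset_closure
        (Or.inl ⟨IntermediateField.algebraMap_mem _ c, h.toCtx0.ge c⟩)), 1, one_mem _,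
        one_ne_zero, by rw [div_one]⟩)

theorem mem_FrA {h : Ctx k v r} {d : SD p k v r D F z η ρ b₁ b ε} {f : Ω} :
    f ∈ FrA h d ↔ InFrac d.A f := Iff.rfl

/-- The theorem, the rows E6, E8 and BA being hypotheses. -/
theorem pca_of [hp : Fact p.Prime] [CharP Ω p] [IsAlgClosed Ω] (h : Ctx k v r)
    (d : SD p k v r D F z η ρ b₁ b ε)
    (hOV : ∀ a ∈ OV v (adj F η), a ∈ d.R')
    (hAR : d.A ≤ d.R)
    (hnorm : ∀ f, InFrac d.A f → IsIntegral d.A f → f ∈ d.A)
    (hfrac : ∀ f ∈ adj F z, InFrac d.A f)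
    (hsep : ∀ {E E' : IntermediateField k Ω}, E ≤ E' → (∀ a ∈ E', IsSeparable E a) →
      ∀ {n : ℕ} {t : Fin n → Ω}, PBasis p E t → PBasis p E' t)
    {t : Fin (r + D) → Ω} (ht : PBasis p F t)
    (hadj : PBasis p (adj F z) (Fin.snoc t z : Fin (r + D + 1) → Ω)) {f : Ω} (hf : f ∈ d.A) :
    ∃ c : (Fin (r + D + 1) → Fin p) → Ω,
      (∀ α, ∃ m ∈ OV v d.S'.K, m ≠ 0 ∧ m * c α ∈ d.A) ∧
      f = pcomb (Fin.snoc t z : Fin (r + D + 1) → Ω) c := by
  have h0 := h.toCtx0
  have hN : F ≤ adj F η := le_sup_left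
  have htN : PBasis p (adj F η) t := hsep hN (sep_N d) ht
  have hRR : d.R ≤ d.R' := by
    refine hensA_le ?_ (E7.hclosed_R' d)
    rw [Subring.closure_le]
    rintro x (hx | hx)
    · exact hOV x hx
    · rw [Set.mem_singleton_iff.1 hx]
      exact E7.zl_mem_R' d
  -- coefficients in `N R`
  obtain ⟨c, hc, hfc⟩ := co_R h d ht htN f (hAR hf)
  -- coefficients in the field of fractions of `A`
  have hle : adj F z ≤ FrA h d := hfrac
  have hAsc : ∀ a ∈ d.A, a ∈ sc (adj F z) := fun a ha => R_le_sc h d a (hAR ha)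
  have hFrsc : ∀ a ∈ FrA h d, IsSeparable (adj F z) a := by
    rintro a ⟨x, hx, y, hy, -, rfl⟩
    exact mem_sc.1 (div_mem (hAsc x hx) (hAsc y hy))
  have hFr : PBasis p (FrA h d) (Fin.snoc t z : Fin (r + D + 1) → Ω) := hsep hle hFrsc hadj
  have hSc : PBasis p (sc (adj F z)) (Fin.snoc t z : Fin (r + D + 1) → Ω) :=
    hsep (le_sc _) (fun a ha => mem_sc.1 ha) hadj
  obtain ⟨c', hc', hfc'⟩ := hFr.span f ⟨f, hf, 1, one_mem _, one_ne_zero, by rw [div_one]⟩
  have hNsc : ∀ a ∈ adj F η, a ∈ sc (adj F z) := fun a ha =>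
    mem_sc.2 (D2P.isSeparable_mono (le_sup_left : F ≤ adj F z) (sep_N d a ha))
  have hcc : c = c' := by
    refine pcomb_inj hSc (fun α => ?_) (fun α => mem_sc.2 (hFrsc _ (hc' α)))
      (hfc.symm.trans hfc')
    obtain ⟨m, hm, hm0, hmc⟩ := hc α
    have h1 : c α = (m * c α) / m := by field_simp
    rw [h1]
    exact div_mem (R_le_sc h d _ hmc) (hNsc _ hm.1)
  refine ⟨c, fun α => ?_, hfc⟩
  obtain ⟨m, hm, hm0, hmc⟩ := hc α
  obtain ⟨m', hm', hm0', hvm', hmm⟩ := E7.comp_N h d hOV hm.1 hm0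
  have hm'O : m' ∈ OV v d.S'.K := ⟨hm', fun _ => by rw [hvm']; exact hm.2 hm0⟩
  have hunit : m' / m ∈ d.R' := by
    have h1 : m' / m = (m / m')⁻¹ := by rw [inv_div]
    rw [h1]
    refine (E7.hclosed_R' d).inv _ hmm (div_ne_zero hm0 hm0') ?_
    rw [v.map_div hm0 hm0', hvm', sub_self]
  have hmc' : m' * c α ∈ d.R' := by
    have h1 : m' * c α = (m' / m) * (m * c α) := by field_simp
    rw [h1]
    exact mul_mem hunit (hRR hmc)
  have hm'A : m' ∈ d.A := le_hensA _ (Subring.subset_closure (Or.inl hm'O))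
  have hFrm : InFrac d.A (m' * c α) := by
    have h1 : m' * c α ∈ FrA h d := by
      refine mul_mem ?_ ?_
      · exact ⟨m', hm'A, 1, one_mem _, one_ne_zero, by rw [div_one]⟩
      · rw [hcc]; exact hc' α
    exact h1
  refine ⟨m', hm'O, hm0', hnorm _ hFrm ?_⟩
  obtain ⟨e, he⟩ := E7.R_fin h d hOV
  obtain ⟨a, ha, hae⟩ := he _ hmc'
  rw [hae]
  have hzl := E7.zl_int h d hOV
  exact IsIntegral.sum _ fun i _ =>
    (isIntegral_algebraMap (x := (⟨a i, ha i⟩ : d.A))).mul (hzl.pow _)

end E9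

end Pool.Agent.TW
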