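import Pool.Agent.Lib.TW.Defs

/-!
# TANK W, H1: closure properties of the henselization `hensA` of a ring in `Ω`
-/

set_option autoImplicit false

open Polynomial

namespace Pool.Agent.TW

open Pool.Agent.H15JM (RVal)
open Pool.Agent.LU1 (VPos adj)
open Pool.Agent.LUC (Cl clF lv)
open Pool.Agent.D2 (Ctx0)
open Pool.Agent.D2P (hen rootF)

universe u

variable {k Ω : Type u} [Field k] [Field Ω] [Algebra k Ω] {v : RVal Ω}

theorem le_hensA (A : Subring Ω) : A ≤ hensA v A := le_sInf fun _ hB => hB.1

theorem hensA_le {A B : Subring Ω} (h : A ≤ B) (hB : HClosed v B) : hensA v A ≤ B :=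
  sInf_le ⟨h, hB⟩

theorem hensA_mono {A B : Subring Ω} (h : A ≤ B) : hensA v A ≤ hensA v B :=
  le_sInf fun _ hC => sInf_le ⟨h.trans hC.1, hC.2⟩

/-- The ring of all elements of value `≥ 0`. -/
def OVt (v : RVal Ω) : Subring Ω where
  carrier := {a | v.Ge 0 a}
  mul_mem' := by
    intro a b ha hb
    have h := RVal.Ge.mul ha hb
    rwa [add_zero] at h
  one_mem' := fun _ => by rw [v.map_one]
  add_mem' := fun ha hb => RVal.Ge.add ha hb
  zero_mem' := RVal.Ge.zero
  neg_mem' := fun ha => RVal.Ge.neg ha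

theorem mem_OVt {a : Ω} : a ∈ OVt v ↔ v.Ge 0 a := Iff.rfl

theorem hclosed_OVt : HClosed v (OVt v) where
  nonneg := fun _ hf => hf
  inv := by
    intro f _ h0 hv _
    rw [v.map_inv h0, hv, neg_zero]
  root := fun _ _ _ ha _ _ _ => ha

/-- `hensA v A` is henselian if `A` consists of elements of value `≥ 0`. -/
theorem hclosed_hensA {A : Subring Ω} (hA : ∀ a ∈ A, v.Ge 0 a) : HClosed v (hensA v A) where
  nonneg := fun f hf => hensA_le (v := v) (B := OVt v) hA hclosed_OVt hf
  inv := fun f hf h0 hv => Subring.mem_sInf.2 fun B hB => hB.2.inv f (Subring.mem_sInf.1 hf B hB) h0 hv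
  root := fun g a hg ha h0 hd hv => Subring.mem_sInf.2 fun B hB =>
    hB.2.root g a (fun i => Subring.mem_sInf.1 (hg i) B hB) ha h0 hd hv

/-- An intersection argument gives more: `hensA` of a directed union. -/
theorem hensA_finite {S : Set Ω} (hS : ∀ a ∈ Subring.closure S, v.Ge 0 a) {f : Ω}
    (hf : f ∈ hensA v (Subring.closure S)) :
    ∃ T : Finset Ω, (T : Set Ω) ⊆ S ∧ f ∈ hensA v (Subring.closure (T : Set Ω)) := by
  classical
  have hmono : ∀ {T T' : Finset Ω}, T ⊆ T' →
      hensA v (Subring.closure (T : Set Ω)) ≤ hensA v (Subring.closure (T' : Set Ω)) :=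
    fun h => hensA_mono (Subring.closure_mono (Finset.coe_subset.2 h))
  have hcl : ∀ {T : Finset Ω}, (T : Set Ω) ⊆ S → HClosed v (hensA v (Subring.closure (T : Set Ω))) :=
    fun h => hclosed_hensA fun a ha => hS a (Subring.closure_mono h ha)
  have hun : ∀ {T T' : Finset Ω}, (T : Set Ω) ⊆ S → (T' : Set Ω) ⊆ S → ((T ∪ T' : Finset Ω) : Set Ω) ⊆ S := by
    intro T T' h h'
    rw [Finset.coe_union]
    exact Set.union_subset h h'
  let B : Subring Ω :=
    { carrier := {f | ∃ T : Finset Ω, (T : Set Ω) ⊆ S ∧ f ∈ hensA v (Subring.closure (T : Set Ω))}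
      mul_mem' := by
        rintro a b ⟨T, hT, ha⟩ ⟨T', hT', hb⟩
        exact ⟨T ∪ T', hun hT hT', mul_mem (hmono Finset.subset_union_left ha)
          (hmono Finset.subset_union_right hb)⟩
      one_mem' := ⟨∅, by simp, one_mem _⟩
      add_mem' := by
        rintro a b ⟨T, hT, ha⟩ ⟨T', hT', hb⟩
        exact ⟨T ∪ T', hun hT hT', add_mem (hmono Finset.subset_union_left ha)
          (hmono Finset.subset_union_right hb)⟩
      zero_mem' := ⟨∅, by simp, zero_mem _⟩
      neg_mem' := by
        rintro a ⟨T, hT, ha⟩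
        exact ⟨T, hT, neg_mem ha⟩ }
  have hB : HClosed v B :=
    { nonneg := by
        rintro f ⟨T, hT, hf⟩
        exact (hcl hT).nonneg f hf
      inv := by
        rintro f ⟨T, hT, hf⟩ h0 hv
        exact ⟨T, hT, (hcl hT).inv f hf h0 hv⟩
      root := by
        intro g a hg ha h0 hd hv
        choose T hT hgT using hg
        let U : Finset Ω := g.support.biUnion T
        have hU : (U : Set Ω) ⊆ S := by
          intro x hx
          rw [Finset.mem_coe, Finset.mem_biUnion] at hx
          obtain ⟨i, _, hi⟩ := hx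
          exact hT i hi
        refine ⟨U, hU, (hcl hU).root g a (fun i => ?_) ha h0 hd hv⟩
        by_cases hi : i ∈ g.support
        · exact hmono (Finset.subset_biUnion_of_mem T hi) (hgT i)
        · rw [Polynomial.notMem_support_iff.1 hi]
          exact zero_mem _ }
  have hle : Subring.closure S ≤ B := by
    rw [Subring.closure_le]
    intro s hs
    refine ⟨{s}, by simpa using hs, le_hensA _ (Subring.subset_closure (by simp))⟩
  exact hensA_le hle hB hf

theorem ksub_nonneg (h : Ctx0 k v) {S : Set Ω} (hS : ∀ a ∈ S, v.Ge 0 a) :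
    ∀ a ∈ ksub k S, v.Ge 0 a := by
  intro a ha
  have hle : ksub k S ≤ OVt v := by
    unfold ksub
    rw [Subring.closure_le]
    rintro x (⟨c, rfl⟩ | hx)
    · exact h.ge c
    · exact hS x hx
  exact hle ha

end Pool.Agent.TW
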