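import Pool.Agent.Lib.TW.EDefs
import Pool.Agent.Lib.TW.P4b

/-!
# TANK W, LAM: near coordinates
-/

set_option autoImplicit false

open Polynomial

namespace Pool.Agent.TW

open Pool.Agent.H15JM (RVal)
open Pool.Agent.LU1 (VPos adj)
open Pool.Agent.LUC (Cl clF lv)
open Pool.Agent.D2 (Ctx0)
open Pool.Agent.D2P (hen rootF)

universe u

variable {k Ω : Type u} [Field k] [Field Ω] [Algebra k Ω] {v : RVal Ω} {r D : ℕ}

theorem Fr.K_eq (F : Fr k v r D) : F.K = kr k F.s := P4bAux.K_eq F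

theorem Near.of_orth [IsAlgClosed k] (p : ℕ) [Fact p.Prime] [CharP k p] [CharP Ω p]
    (h : Ctx0 k v) {n : ℕ} {s : Fin n → Ω} (hs : ∀ i, s i ≠ 0) {E : IntermediateField k Ω}
    (hE : PBasis p E s) {ε δ : ℝ} (hε : 0 ≤ ε) (hδ : p * ε < δ) (ho : Orth p v E s ε)
    (s' : Fin n → Ω) (hs' : ∀ i, v.Ge δ (s' i / s i - 1)) : Near k v s s' (δ - p * ε) :=
  ⟨by linarith, fun P hP => (lam_poly p hs hE hε hδ ho P hP s' hs').mono (by linarith)⟩

theorem Near.comp {n m : ℕ} {s s' : Fin n → Ω} {κ : ℝ} (hN : Near k v s s' κ)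
    (f : Fin m → Fin n) : Near k v (s ∘ f) (s' ∘ f) κ := by
  refine ⟨hN.pos, fun P hP => ?_⟩
  have h1 := hN.near (MvPolynomial.rename f P)
  rw [MvPolynomial.aeval_rename, MvPolynomial.aeval_rename] at h1
  exact h1 hP

/-- the values of the polynomials are preserved -/
theorem Near.val {n : ℕ} {s s' : Fin n → Ω} {κ : ℝ} (hN : Near k v s s' κ)
    (P : MvPolynomial (Fin n) k) (hP : MvPolynomial.aeval s P ≠ 0) :
    MvPolynomial.aeval s' P ≠ 0 ∧
      v (MvPolynomial.aeval s' P) = v (MvPolynomial.aeval s P) := by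
  have h1 := hN.near P hP
  by_cases h2 : MvPolynomial.aeval s' P - MvPolynomial.aeval s P = 0
  · rw [sub_eq_zero.1 h2]
    exact ⟨hP, rfl⟩
  · have h3 := v.add_of_lt hP h2 (by have := h1 h2; linarith [hN.pos])
    rwa [add_sub_cancel] at h3

theorem Near.indep {n : ℕ} {s s' : Fin n → Ω} {κ : ℝ} (hN : Near k v s s' κ)
    (hs : AlgebraicIndependent k s) : AlgebraicIndependent k s' := by
  rw [algebraicIndependent_iff]
  intro P hP
  by_contra h0
  exact (hN.val P fun h1 => h0 (hs.eq_zero_of_aeval_eq_zero P h1)).1 hP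

/-- the isometry `k(s) ≅ k(s')` -/
theorem Near.exists_viso {n : ℕ} {s s' : Fin n → Ω} {κ : ℝ} (hN : Near k v s s' κ)
    (hs : AlgebraicIndependent k s) : ∃ φ : VIso v (kr k s) (kr k s'),
      ∀ i (hi : s i ∈ kr k s), (φ.e ⟨s i, hi⟩ : Ω) = s' i :=
  P4bAux.exists_viso hs (hN.indep hs) fun P hP => (hN.val P hP).2

theorem mem_kr {n : ℕ} (s : Fin n → Ω) (i : Fin n) : s i ∈ kr k s :=
  IntermediateField.subset_adjoin _ _ ⟨i, rfl⟩

theorem viso_aeval {n : ℕ} {s s' : Fin n → Ω} (φ : VIso v (kr k s) (kr k s'))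
    (hφ : ∀ i (hi : s i ∈ kr k s), (φ.e ⟨s i, hi⟩ : Ω) = s' i) (P : MvPolynomial (Fin n) k)
    (hP : MvPolynomial.aeval s P ∈ kr k s) :
    (φ.e ⟨MvPolynomial.aeval s P, hP⟩ : Ω) = MvPolynomial.aeval s' P := by
  have h1 : (⟨MvPolynomial.aeval s P, hP⟩ : kr k s) =
      MvPolynomial.aeval (fun i => (⟨s i, mem_kr s i⟩ : kr k s)) P := by
    apply Subtype.ext
    exact MvPolynomial.aeval_algebraMap_apply Ω (fun i => (⟨s i, mem_kr s i⟩ : kr k s)) P
  let f : kr k s →ₐ[k] Ω := (kr k s').val.comp φ.e.toAlgHom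
  have h2 : f (MvPolynomial.aeval (fun i => (⟨s i, mem_kr s i⟩ : kr k s)) P) =
      MvPolynomial.aeval (fun i => f (⟨s i, mem_kr s i⟩ : kr k s)) P :=
    MvPolynomial.comp_aeval_apply _ f P
  have h3 : (fun i => f (⟨s i, mem_kr s i⟩ : kr k s)) = s' := funext fun i => hφ i (mem_kr s i)
  rw [h3, ← h1] at h2
  exact h2

/-- the isomorphism `k(s) ≅ k(s')` -/
theorem Near.exists_hom {n : ℕ} {s s' : Fin n → Ω} {κ : ℝ} (hN : Near k v s s' κ)
    (hs : AlgebraicIndependent k s) : ∃ φ : kr k s →ₐ[k] Ω,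
      (∀ i (hi : s i ∈ kr k s), φ ⟨s i, hi⟩ = s' i) ∧
      (∀ u : kr k s, (u : Ω) ≠ 0 → v.Ge (v (u : Ω) + κ) (φ u - u)) ∧
      (∀ u, φ u ∈ kr k s') ∧ ∀ u' ∈ kr k s', ∃ u, φ u = u' := by
  obtain ⟨φ, hφ⟩ := hN.exists_viso hs
  refine ⟨(kr k s').val.comp φ.e.toAlgHom, fun i hi => hφ i hi, fun u hu => ?_,
    fun u => (φ.e u).2, fun u' hu' => ⟨φ.e.symm ⟨u', hu'⟩, ?_⟩⟩
  · obtain ⟨P, Q, hQ, hPQ⟩ := P4bAux.exists_frac hs u.2
    have hP : MvPolynomial.aeval s P ≠ 0 := by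
      intro h0
      rw [h0, zero_div] at hPQ
      exact hu hPQ
    have hPm : MvPolynomial.aeval s P ∈ kr k s := P4.aeval_mem (mem_kr s) P
    have hQm : MvPolynomial.aeval s Q ∈ kr k s := P4.aeval_mem (mem_kr s) Q
    have hu' : u = ⟨MvPolynomial.aeval s P, hPm⟩ / ⟨MvPolynomial.aeval s Q, hQm⟩ :=
      Subtype.ext hPQ
    have h1 : (φ.e u : Ω) = MvPolynomial.aeval s' P / MvPolynomial.aeval s' Q := by
      rw [hu', map_div₀]
      show (φ.e ⟨_, hPm⟩ : Ω) / (φ.e ⟨_, hQm⟩ : Ω) = _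
      rw [viso_aeval φ hφ, viso_aeval φ hφ]
    show v.Ge _ ((φ.e u : Ω) - u)
    have hQ' := hN.val Q hQ
    have hP' := hN.val P hP
    have h2 : MvPolynomial.aeval s' P / MvPolynomial.aeval s' Q -
        MvPolynomial.aeval s P / MvPolynomial.aeval s Q =
        ((MvPolynomial.aeval s' P - MvPolynomial.aeval s P) * MvPolynomial.aeval s Q -
          MvPolynomial.aeval s P * (MvPolynomial.aeval s' Q - MvPolynomial.aeval s Q)) *
          (MvPolynomial.aeval s' Q * MvPolynomial.aeval s Q)⁻¹ := by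
      have := hQ'.1
      field_simp
      ring
    rw [h1, hPQ, h2, v.map_div hP hQ]
    have h3 := (((hN.near P hP).mul (RVal.ge_self (v := v) (MvPolynomial.aeval s Q))).sub
      (((RVal.ge_self (v := v) (MvPolynomial.aeval s P)).mul (hN.near Q hQ)).mono
        (le_of_eq (by ring)))).mul
      (RVal.ge_self (v := v) (MvPolynomial.aeval s' Q * MvPolynomial.aeval s Q)⁻¹)
    refine h3.mono (le_of_eq ?_)
    rw [v.map_inv (mul_ne_zero hQ'.1 hQ), v.map_mul hQ'.1 hQ, hQ'.2]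
    ring
  · show (φ.e (φ.e.symm ⟨u', hu'⟩) : Ω) = u'
    rw [φ.e.apply_symm_apply]

/-- transport of the distortion -/
theorem Near.orth (p : ℕ) {n : ℕ} {s s' : Fin n → Ω} {κ : ℝ} (hN : Near k v s s' κ)
    (hs : AlgebraicIndependent k s) {C : ℝ} (ho : Orth p v (kr k s) s C) :
    Orth p v (kr k s') s' C := by
  obtain ⟨φ, hφ⟩ := hN.exists_viso hs
  have h1 := φ.orth (mem_kr s) ho
  have h2 : (fun i => (φ.e ⟨s i, mem_kr s i⟩ : Ω)) = s' := funext fun i => hφ i (mem_kr s i)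
  rwa [h2] at h1

theorem Near.pbasis (p : ℕ) {n : ℕ} {s s' : Fin n → Ω} {κ : ℝ} (hN : Near k v s s' κ)
    (hs : AlgebraicIndependent k s) (ho : PBasis p (kr k s) s) : PBasis p (kr k s') s' := by
  obtain ⟨φ, hφ⟩ := hN.exists_viso hs
  have h1 := φ.pbasis ho
  have h2 : (fun i => (φ.e ⟨s i, ho.mem i⟩ : Ω)) = s' := funext fun i => hφ i (ho.mem i)
  rwa [h2] at h1

/-- a frame with given near coordinates -/
theorem Near.exists_fr (F : Fr k v r D) {s' : Fin (r + D) → Ω} {κ : ℝ}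
    (hN : Near k v F.s s' κ) : ∃ F' : Fr k v r D, F'.s = s' := by
  have hval : ∀ i, F.s i ≠ 0 → s' i ≠ 0 ∧ v (s' i) = v (F.s i) := by
    intro i hi
    have h1 := hN.val (MvPolynomial.X i)
    rw [MvPolynomial.aeval_X, MvPolynomial.aeval_X] at h1
    exact h1 hi
  have hx : ∀ i : Fin r, F.s (Fin.castAdd D i) = F.x i := fun i => by
    rw [Fr.s, Fin.append_left]
  have hy : ∀ j : Fin D, F.s (Fin.natAdd r j) = F.y j := fun j => by
    rw [Fr.s, Fin.append_right]
  have hx' : ∀ i : Fin r, s' (Fin.castAdd D i) ≠ 0 ∧ v (s' (Fin.castAdd D i)) = v (F.x i) :=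
    fun i => by
      have := hval (Fin.castAdd D i) (by rw [hx]; exact F.x_ne i)
      rwa [hx] at this
  have hy' : ∀ j : Fin D, s' (Fin.natAdd r j) ≠ 0 ∧ v (s' (Fin.natAdd r j)) = v (F.y j) :=
    fun j => by
      have := hval (Fin.natAdd r j) (by rw [hy]; exact F.y_ne j)
      rwa [hy] at this
  refine ⟨{ x := fun i => s' (Fin.castAdd D i)
            y := fun j => s' (Fin.natAdd r j)
            x_ne := fun i => (hx' i).1
            x_ind := ?_
            y_ne := fun j => (hy' j).1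
            y_pos := fun j => by rw [(hy' j).2]; exact F.y_pos j
            alg := ?_ }, ?_⟩
  · have h1 : (fun i => v (s' (Fin.castAdd D i))) = fun i => v (F.x i) :=
      funext fun i => (hx' i).2
    rw [h1]
    exact F.x_ind
  · have h1 := (hN.indep (P4bAux.s_alg F)).comp finSumFinEquiv finSumFinEquiv.injective
    have h2 : s' ∘ finSumFinEquiv = Sum.elim (fun i => s' (Fin.castAdd D i))
        (fun j => s' (Fin.natAdd r j)) := by
      funext i
      rcases i with i | j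
      · simp
      · simp
    rwa [h2] at h1
  · rw [Fr.s]
    funext i
    refine Fin.addCases (fun i => ?_) (fun j => ?_) i
    · rw [Fin.append_left]
    · rw [Fin.append_right]

end Pool.Agent.TW
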