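import Pool.Agent.Lib.TW.EtBase

/-!
# TANK W, row H4: the multivariable Hensel lemma
-/

set_option autoImplicit false

open Polynomial

namespace Pool.Agent.TW

open Pool.Agent.H15JM (RVal)

universe u

variable {Ω : Type u} [Field Ω] {v : RVal Ω}

/-- The image in `Ω` of an etale algebra over a henselian subring `B` is in `B`. -/
theorem mem_of_etale {B : Subring Ω} (hB : HClosed v B) {S : Type u} [CommRing S] [Algebra B S]
    [Algebra.Etale B S] (φ : S →ₐ[B] Ω) (hφ : ∀ s, v.Ge 0 (φ s)) (s : S) : φ s ∈ B := by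
  obtain ⟨g, θ, -, hθ, h1, h2, h3, h4⟩ := exists_root φ hφ
  have hev : ∀ (p : Polynomial B) (x : Ω), aeval x p = (p.map (algebraMap B Ω)).eval x := by
    intro p x
    rw [eval_map_algebraMap]
  have hcoeff : ∀ (p : Polynomial B) (i : ℕ), (p.map (algebraMap B Ω)).coeff i ∈ B := by
    intro p i
    rw [coeff_map]
    exact (p.coeff i).2
  have hθB : θ ∈ B := by
    refine hB.root (g.map (algebraMap B Ω)) θ (hcoeff g) hθ ?_ ?_ ?_
    · rw [← hev]; exact h1
    · rw [derivative_map, ← hev]; exact h2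
    · rw [derivative_map, ← hev]; exact h3
  have hval : ∀ p : Polynomial B, aeval θ p ∈ B := by
    intro p
    rw [hev, eval_eq_sum_range]
    exact B.sum_mem fun i _ => B.mul_mem (hcoeff p i) (B.pow_mem hθB i)
  obtain ⟨P, Q, h5, h6, h7⟩ := h4 s
  rw [h7, div_eq_mul_inv]
  exact B.mul_mem (hval P) (hB.inv _ (hval Q) h5 h6)

/-- **The multivariable Hensel lemma.** -/
theorem mem_of_system [IsAlgClosed Ω] {B : Subring Ω} (hB : HClosed v B) {n : ℕ}
    (F : Fin n → MvPolynomial (Fin n) Ω) (hF : ∀ i m, (F i).coeff m ∈ B) (a : Fin n → Ω)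
    (ha : ∀ i, v.Ge 0 (a i)) (h0 : ∀ i, MvPolynomial.eval a (F i) = 0)
    (hdet : (Matrix.of fun i j => MvPolynomial.eval a (MvPolynomial.pderiv j (F i))).det ≠ 0)
    (hdet' : v (Matrix.of fun i j => MvPolynomial.eval a (MvPolynomial.pderiv j (F i))).det = 0) :
    ∀ i, a i ∈ B := by
  have hex : ∀ i, ∃ G : MvPolynomial (Fin n) B, MvPolynomial.map (algebraMap B Ω) G = F i := by
    intro i
    have h1 : F i ∈ Set.range (MvPolynomial.map (σ := Fin n) (algebraMap B Ω)) := by
      rw [MvPolynomial.mem_range_map_iff_coeffs_subset]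
      intro c hc
      obtain ⟨m, -, rfl⟩ := MvPolynomial.mem_coeffs_iff.1 hc
      exact ⟨⟨_, hF i m⟩, rfl⟩
    exact h1
  choose G hG using hex
  have hev : ∀ p : MvPolynomial (Fin n) B,
      MvPolynomial.aeval a p = MvPolynomial.eval a (MvPolynomial.map (algebraMap B Ω) p) := by
    intro p
    rw [MvPolynomial.eval_map, MvPolynomial.aeval_def]
  have hmat : MvPolynomial.aeval a (Matrix.of fun i j => MvPolynomial.pderiv j (G i)).det =
      (Matrix.of fun i j => MvPolynomial.eval a (MvPolynomial.pderiv j (F i))).det := by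
    rw [AlgHom.map_det]
    congr 1
    refine Matrix.ext fun i j => ?_
    change MvPolynomial.aeval a (MvPolynomial.pderiv j (G i)) = _
    rw [hev, ← MvPolynomial.pderiv_map, hG]
    rfl
  obtain ⟨ψ, h1, h2⟩ := exists_alg (S := B) (v := v) (fun s => hB.nonneg _ s.2) G a ha
    (fun i => by rw [hev, hG]; exact h0 i) (by rw [hmat]; exact hdet) (by rw [hmat]; exact hdet')
  have := etale_jac G
  intro i
  obtain ⟨s, hs⟩ := h2 i
  rw [← hs]
  exact mem_of_etale hB ψ h1 s

end Pool.Agent.TW
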