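import Pool.Agent.Lib.TW.EtBase

/-!
# TANK W, row H3: the elements of `hensA v A` come from etale algebras over `A`
-/

set_option autoImplicit false

open Polynomial

namespace Pool.Agent.TW

open Pool.Agent.H15JM (RVal)
open Pool.Agent.LUC (lv)

universe u

variable {Ω : Type u} [Field Ω] {v : RVal Ω}

/-- `C` is the image in `Ω` of an etale algebra over `A`, with values `≥ 0`. -/
def IsEtIm (v : RVal Ω) (A C : Subring Ω) : Prop :=
  ∃ (S : Type u) (_ : CommRing S) (_ : Algebra A S) (_ : Algebra.Etale A S) (φ : S →ₐ[A] Ω),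
    (∀ s, v.Ge 0 (φ s)) ∧ ∀ f, f ∈ C ↔ ∃ s, φ s = f

theorem IsEtIm.mk {A : Subring Ω} {S : Type u} [CommRing S] [Algebra A S] [Algebra.Etale A S]
    (φ : S →ₐ[A] Ω) (hφ : ∀ s, v.Ge 0 (φ s)) : IsEtIm v A (φ : S →+* Ω).range :=
  ⟨S, inferInstance, inferInstance, inferInstance, φ, hφ, fun _ => RingHom.mem_range⟩

theorem isEtIm_self {A : Subring Ω} (hA : ∀ a ∈ A, v.Ge 0 a) : IsEtIm v A A := by
  refine ⟨A, inferInstance, inferInstance, inferInstance, Algebra.ofId A Ω, fun s => hA _ s.2, ?_⟩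
  intro f
  constructor
  · intro hf
    exact ⟨⟨f, hf⟩, rfl⟩
  · rintro ⟨s, rfl⟩
    exact s.2

open TensorProduct in
theorem IsEtIm.directed {A C₁ C₂ : Subring Ω} (h₁ : IsEtIm v A C₁) (h₂ : IsEtIm v A C₂) :
    ∃ C, IsEtIm v A C ∧ C₁ ≤ C ∧ C₂ ≤ C := by
  obtain ⟨S₁, _, _, _, φ₁, hφ₁, hC₁⟩ := h₁
  obtain ⟨S₂, _, _, _, φ₂, hφ₂, hC₂⟩ := h₂
  let φ : S₁ ⊗[A] S₂ →ₐ[A] Ω := Algebra.TensorProduct.lift φ₁ φ₂ fun _ _ => Commute.all _ _
  have hφ : ∀ s, v.Ge 0 (φ s) := by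
    intro s
    induction s using TensorProduct.induction_on with
    | zero => rw [map_zero]; exact RVal.Ge.zero
    | tmul x y =>
      have h := (hφ₁ x).mul (hφ₂ y)
      rw [add_zero] at h
      simpa [φ] using h
    | add x y hx hy => rw [map_add]; exact hx.add hy
  have : Algebra.Etale A (S₁ ⊗[A] S₂) := Algebra.Etale.comp A S₁ _
  refine ⟨_, IsEtIm.mk φ hφ, ?_, ?_⟩
  · intro f hf
    obtain ⟨s, rfl⟩ := (hC₁ f).1 hf
    exact ⟨s ⊗ₜ 1, by simp [φ]⟩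
  · intro f hf
    obtain ⟨s, rfl⟩ := (hC₂ f).1 hf
    exact ⟨1 ⊗ₜ s, by simp [φ]⟩

/-- The union of the images of the etale algebras over `A`. -/
def etIm (v : RVal Ω) (A : Subring Ω) (hA : ∀ a ∈ A, v.Ge 0 a) : Subring Ω where
  carrier := {f | ∃ C, IsEtIm v A C ∧ f ∈ C}
  mul_mem' := by
    rintro a b ⟨C₁, h₁, h₁'⟩ ⟨C₂, h₂, h₂'⟩
    obtain ⟨C, h, h', h''⟩ := h₁.directed h₂
    exact ⟨C, h, C.mul_mem (h' h₁') (h'' h₂')⟩
  one_mem' := ⟨A, isEtIm_self hA, A.one_mem⟩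
  add_mem' := by
    rintro a b ⟨C₁, h₁, h₁'⟩ ⟨C₂, h₂, h₂'⟩
    obtain ⟨C, h, h', h''⟩ := h₁.directed h₂
    exact ⟨C, h, C.add_mem (h' h₁') (h'' h₂')⟩
  zero_mem' := ⟨A, isEtIm_self hA, A.zero_mem⟩
  neg_mem' := by
    rintro a ⟨C₁, h₁, h₁'⟩
    exact ⟨C₁, h₁, C₁.neg_mem h₁'⟩

theorem mem_etIm {A : Subring Ω} {hA : ∀ a ∈ A, v.Ge 0 a} {f : Ω} :
    f ∈ etIm v A hA ↔ ∃ C, IsEtIm v A C ∧ f ∈ C := Iff.rfl

theorem finite_etIm {A : Subring Ω} {hA : ∀ a ∈ A, v.Ge 0 a} (s : Finset Ω)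
    (hs : ∀ f ∈ s, f ∈ etIm v A hA) : ∃ C, IsEtIm v A C ∧ ∀ f ∈ s, f ∈ C := by
  classical
  induction s using Finset.induction_on with
  | empty => exact ⟨A, isEtIm_self hA, by simp⟩
  | insert a s _ ih =>
    obtain ⟨C₁, h₁, h₁'⟩ := ih fun f hf => hs f (Finset.mem_insert_of_mem hf)
    obtain ⟨C₂, h₂, h₂'⟩ := mem_etIm.1 (hs a (Finset.mem_insert_self _ _))
    obtain ⟨C, h, h', h''⟩ := h₁.directed h₂
    refine ⟨C, h, fun f hf => ?_⟩
    rcases Finset.mem_insert.1 hf with rfl | hf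
    · exact h'' h₂'
    · exact h' (h₁' f hf)

theorem hclosed_etIm {A : Subring Ω} (hA : ∀ a ∈ A, v.Ge 0 a) : HClosed v (etIm v A hA) := by
  classical
  refine ⟨?_, ?_, ?_⟩
  · rintro f ⟨C, ⟨S, _, _, _, φ, hφ, hC⟩, hf⟩
    obtain ⟨s, rfl⟩ := (hC f).1 hf
    exact hφ s
  · rintro f ⟨C, ⟨S, _, _, _, φ, hφ, hC⟩, hf⟩ h0 h1
    obtain ⟨s, rfl⟩ := (hC f).1 hf
    obtain ⟨ψ, h2, h3⟩ := exists_away φ hφ h0 h1
    have : Algebra.Etale S (Localization.Away s) := Algebra.Etale.of_isLocalizationAway s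
    have : Algebra.Etale A (Localization.Away s) := Algebra.Etale.comp A S _
    refine ⟨_, IsEtIm.mk ψ h3, ?_⟩
    obtain ⟨u, hu⟩ := IsLocalization.Away.algebraMap_isUnit (S := Localization.Away s) s
    refine ⟨(↑u⁻¹ : Localization.Away s), ?_⟩
    change ψ (↑u⁻¹ : Localization.Away s) = _
    apply eq_inv_of_mul_eq_one_left
    rw [← h2, ← map_mul, ← hu, Units.inv_mul, map_one]
  · intro g a hg ha h0 h1 h2
    obtain ⟨C, ⟨S, _, _, _, φ, hφ, hC⟩, hgC⟩ := finite_etIm (hA := hA)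
      ((Finset.range (g.natDegree + 1)).image g.coeff) (by
        intro f hf
        obtain ⟨i, -, rfl⟩ := Finset.mem_image.1 hf
        exact hg i)
    have hlift : g ∈ Polynomial.lifts (φ : S →+* Ω) := by
      rw [Polynomial.lifts_iff_coeff_lifts]
      intro i
      by_cases hi : i ∈ Finset.range (g.natDegree + 1)
      · obtain ⟨s, hs⟩ := (hC _).1 (hgC _ (Finset.mem_image_of_mem _ hi))
        exact ⟨s, hs⟩
      · refine ⟨0, ?_⟩
        rw [Finset.mem_range, not_lt] at hi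
        rw [map_zero, coeff_eq_zero_of_natDegree_lt (by omega)]
    obtain ⟨G, hG⟩ := hlift
    let _ : Algebra S Ω := (φ : S →+* Ω).toAlgebra
    have htow : IsScalarTower A S Ω := IsScalarTower.of_algebraMap_eq fun x => (φ.commutes x).symm
    let F : Fin 1 → MvPolynomial (Fin 1) S := fun _ => aeval (MvPolynomial.X 0) G
    have hFev : ∀ P : Polynomial S, MvPolynomial.aeval (fun _ : Fin 1 => a)
        (aeval (MvPolynomial.X (0 : Fin 1)) P : MvPolynomial (Fin 1) S) =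
        (P.map (φ : S →+* Ω)).eval a := by
      intro P
      rw [← Polynomial.aeval_algHom_apply, MvPolynomial.aeval_X, Polynomial.eval_map]
      rfl
    have hG' : G.map (φ : S →+* Ω) = g := hG
    have hdet : MvPolynomial.aeval (fun _ : Fin 1 => a)
        (Matrix.of fun i j => MvPolynomial.pderiv j (F i)).det = g.derivative.eval a := by
      rw [Matrix.det_unique]
      change MvPolynomial.aeval (fun _ : Fin 1 => a) (MvPolynomial.pderiv 0
        (aeval (MvPolynomial.X (0 : Fin 1)) G : MvPolynomial (Fin 1) S)) = _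
      rw [Derivation.map_aeval, MvPolynomial.pderiv_X_self, smul_eq_mul, mul_one, hFev,
        ← derivative_map, hG']
    obtain ⟨ψ, h3, h4⟩ := exists_alg (S := S) (v := v) hφ F (fun _ => a) (fun _ => ha)
      (fun _ => by rw [hFev, hG']; exact h0) (by rw [hdet]; exact h1) (by rw [hdet]; exact h2)
    have := etale_jac F
    have : Algebra.Etale A (Localization.Away (presF F).jacobian) := Algebra.Etale.comp A S _
    obtain ⟨s, hs⟩ := h4 0
    exact ⟨_, IsEtIm.mk (ψ.restrictScalars A) h3, ⟨s, hs⟩⟩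

/-- Every element of `hensA v A` is a quotient of two elements of `A[θ]`, the denominator of value
zero, `θ` a simple root of a monic polynomial over the local ring of `A`. -/
theorem exists_etale [IsAlgClosed Ω] {A : Subring Ω} (hA : ∀ a ∈ A, v.Ge 0 a) {f : Ω}
    (hf : f ∈ hensA v A) :
    ∃ (g : Polynomial Ω) (θ : Ω), g.Monic ∧ (∀ i, g.coeff i ∈ lv v A) ∧ g.eval θ = 0 ∧
      g.derivative.eval θ ≠ 0 ∧ v (g.derivative.eval θ) = 0 ∧
      ∃ P Q : Polynomial Ω, (∀ i, P.coeff i ∈ A) ∧ (∀ i, Q.coeff i ∈ A) ∧ Q.eval θ ≠ 0 ∧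
        v (Q.eval θ) = 0 ∧ f = P.eval θ / Q.eval θ := by
  have h1 : hensA v A ≤ etIm v A hA := by
    refine sInf_le ⟨?_, hclosed_etIm hA⟩
    intro a ha
    exact ⟨A, isEtIm_self hA, ha⟩
  obtain ⟨C, ⟨S, _, _, _, φ, hφ, hC⟩, hfC⟩ := h1 hf
  obtain ⟨s, rfl⟩ := (hC f).1 hfC
  obtain ⟨g, θ, h2, -, h3, h4, h5, h6⟩ := exists_root φ hφ
  obtain ⟨P, Q, h7, h8, h9⟩ := h6 s
  have hev : ∀ (p : Polynomial A) (x : Ω), aeval x p = (p.map (algebraMap A Ω)).eval x := by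
    intro p x
    rw [eval_map_algebraMap]
  have hcoeff : ∀ (p : Polynomial A) (i : ℕ), (p.map (algebraMap A Ω)).coeff i ∈ A := by
    intro p i
    rw [coeff_map]
    exact (p.coeff i).2
  refine ⟨g.map (algebraMap A Ω), θ, h2.map _, fun i => LUC.le_lv v A (hcoeff g i), ?_, ?_, ?_,
    P.map (algebraMap A Ω), Q.map (algebraMap A Ω), hcoeff P, hcoeff Q, ?_, ?_, ?_⟩
  · rw [← hev]; exact h3
  · rw [derivative_map, ← hev]; exact h4
  · rw [derivative_map, ← hev]; exact h5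
  · rw [← hev]; exact h7
  · rw [← hev]; exact h8
  · rw [← hev, ← hev]; exact h9

end Pool.Agent.TW
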