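import Pool.Agent.Lib.TW.H1
import Pool.Agent.Lib.TW.H3
import Pool.Agent.Lib.TW.H4
import Mathlib.RingTheory.Smooth.IntegralClosure
import Mathlib.RingTheory.Etale.Field

/-!
# TANK W, H5e: the henselization is the union of the etale images; etale over normal is normal
-/

set_option autoImplicit false

open Polynomial TensorProduct

namespace Pool.Agent.TW

open Pool.Agent.H15JM (RVal)

universe u

variable {Ω : Type u} [Field Ω] {v : RVal Ω}

/-- The henselization is the union of the images of the etale algebras. -/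
theorem hensA_eq_etIm {A : Subring Ω} (hA : ∀ a ∈ A, v.Ge 0 a) : hensA v A = etIm v A hA := by
  refine le_antisymm (sInf_le ⟨fun a ha => ⟨A, isEtIm_self hA, ha⟩, hclosed_etIm hA⟩) ?_
  rintro f ⟨C, ⟨S, _, _, _, φ, hφ, hC⟩, hf⟩
  obtain ⟨s, rfl⟩ := (hC f).1 hf
  have hB := hclosed_hensA hA
  set B := hensA v A with hBdef
  let _ : Algebra A B := (Subring.inclusion (le_hensA A)).toAlgebra
  have htow : IsScalarTower A B Ω := IsScalarTower.of_algebraMap_eq fun _ => rfl
  let ψ : B ⊗[A] S →ₐ[B] Ω := Algebra.TensorProduct.lift (Algebra.ofId B Ω) φ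
    fun _ _ => Commute.all _ _
  have hψ : ∀ t, v.Ge 0 (ψ t) := by
    intro t
    induction t using TensorProduct.induction_on with
    | zero => rw [map_zero]; exact RVal.Ge.zero
    | tmul x y =>
      have h := (hB.nonneg x x.2).mul (hφ y)
      rw [add_zero] at h
      have e : ψ (x ⊗ₜ y) = algebraMap B Ω x * φ y := by simp [ψ]
      rw [e]; exact h
    | add x y hx hy => rw [map_add]; exact hx.add hy
  have h := mem_of_etale hB ψ hψ (1 ⊗ₜ s)
  have e : ψ (1 ⊗ₜ s) = φ s := by simp [ψ]
  rwa [e] at h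

/-- In a reduced Artinian ring every prime ideal is generated by an idempotent. -/
theorem exists_idem {T : Type*} [CommRing T] [IsArtinianRing T] [IsReduced T] (q : Ideal T)
    [q.IsPrime] : ∃ e : T, e * e = e ∧ 1 - e ∈ q ∧ ∀ x ∈ q, e * x = 0 := by
  classical
  have hmax : q.IsMaximal := IsArtinianRing.isMaximal_of_isPrime q
  let E := IsArtinianRing.equivPi T
  let Q : MaximalSpectrum T := ⟨q, hmax⟩
  have hE : ∀ x I, E x I = Ideal.Quotient.mk I.asIdeal x := fun x I => rfl
  refine ⟨E.symm (Pi.single Q 1), ?_, ?_, ?_⟩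
  · rw [← map_mul, ← Pi.single_mul, one_mul]
  · have h1 : E (1 - E.symm (Pi.single Q 1)) Q = 0 := by
      rw [map_sub, map_one, AlgEquiv.apply_symm_apply, Pi.sub_apply, Pi.one_apply,
        Pi.single_eq_same, sub_self]
    rw [hE] at h1
    exact Ideal.Quotient.eq_zero_iff_mem.1 h1
  · intro x hx
    apply E.injective
    rw [map_mul, AlgEquiv.apply_symm_apply, map_zero]
    funext I
    by_cases hI : I = Q
    · subst hI
      rw [Pi.mul_apply, Pi.zero_apply, hE, Ideal.Quotient.eq_zero_iff_mem.2 hx, mul_zero]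
    · rw [Pi.mul_apply, Pi.single_eq_of_ne hI, zero_mul, Pi.zero_apply]

theorem idem_aeval {S T : Type*} [CommRing S] [CommRing T] [Algebra S T] {e : T}
    (he : e * e = e) (y : T) (p : Polynomial S) : e * aeval (e * y) p = e * aeval y p := by
  induction p using Polynomial.induction_on' with
  | add p q hp hq => rw [map_add, map_add, mul_add, mul_add, hp, hq]
  | monomial n a =>
    rw [aeval_monomial, aeval_monomial, mul_pow]
    rcases Nat.eq_zero_or_pos n with rfl | hn
    · simp
    · have h1 : e * e ^ n = e := by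
        have h2 : ∀ m : ℕ, e * e ^ m = e := by
          intro m
          induction m with
          | zero => rw [pow_zero, mul_one]
          | succ m ih => rw [pow_succ, ← mul_assoc, ih, he]
        exact h2 n
      linear_combination (algebraMap S T a * y ^ n) * h1

/-- The image in `Ω` of an etale algebra over a normal ring is normal. -/
theorem normal_of_etale {A : Subring Ω}
    (hn : ∀ f, InFrac A f → IsIntegral A f → f ∈ A) {S : Type u} [CommRing S] [Algebra A S]
    [Algebra.Etale A S] (φ : S →ₐ[A] Ω) {f : Ω} {s t : S} (ht : φ t ≠ 0) (hf : f * φ t = φ s)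
    {G : Polynomial S} (hG : G.Monic) (hGf : (G.map (φ : S →+* Ω)).eval f = 0) :
    ∃ s, φ s = f := by
  classical
  let K := FractionRing A
  have hinj : Function.Injective (algebraMap A Ω) := Subtype.val_injective
  let ι : K →ₐ[A] Ω := IsFractionRing.liftAlgHom (K := K) (g := Algebra.ofId A Ω) hinj
  -- `A` is integrally closed in `K`
  have hcl : ∀ y ∈ integralClosure A K, ∃ a : A, algebraMap A K a = y := by
    intro y hy
    have h1 : IsIntegral A (ι y) := IsIntegral.map ι hy
    have h2 : InFrac A (ι y) := by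
      obtain ⟨a, b, hb, rfl⟩ := IsFractionRing.div_surjective (A := A) y
      refine ⟨a, a.2, b, b.2, ?_, ?_⟩
      · intro h
        exact nonZeroDivisors.ne_zero hb (Subtype.ext h)
      · rw [map_div₀, AlgHom.commutes, AlgHom.commutes]
        rfl
    refine ⟨⟨ι y, hn _ h2 h1⟩, ?_⟩
    apply (ι : K →+* Ω).injective
    change ι (algebraMap A K _) = ι y
    rw [AlgHom.commutes]
    rfl
  have hT : ∀ x : S ⊗[A] K, IsIntegral S x → ∃ s : S, algebraMap S (S ⊗[A] K) s = x := by
    intro x hx
    obtain ⟨z, hz⟩ := (TensorProduct.toIntegralClosure_bijective_of_smooth (R := A) (S := S)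
      (B := K)).2 ⟨x, hx⟩
    have hz' : ((TensorProduct.toIntegralClosure A S K z : integralClosure S (S ⊗[A] K)) :
        S ⊗[A] K) = x := congrArg Subtype.val hz
    rw [← hz']
    clear hz' hz hx
    induction z using TensorProduct.induction_on with
    | zero => exact ⟨0, by simp⟩
    | tmul a y =>
      obtain ⟨b, hb⟩ := hcl y y.2
      refine ⟨b • a, ?_⟩
      change (b • a) ⊗ₜ[A] (1 : K) = a ⊗ₜ[A] (y : K)
      rw [← hb, Algebra.algebraMap_eq_smul_one, ← TensorProduct.smul_tmul]
    | add z w hz hw =>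
      obtain ⟨a, ha⟩ := hz
      obtain ⟨b, hb⟩ := hw
      exact ⟨a + b, by rw [map_add, ha, hb, map_add]; rfl⟩
  -- `S ⊗ K` is a reduced Artinian ring
  have : Module.Finite K (K ⊗[A] S) := Algebra.FormallyUnramified.finite_of_free K (K ⊗[A] S)
  have : IsReduced (K ⊗[A] S) := Algebra.FormallyUnramified.isReduced_of_field K (K ⊗[A] S)
  have : IsArtinianRing (K ⊗[A] S) := IsArtinianRing.of_finite K (K ⊗[A] S)
  let c : S ⊗[A] K ≃ₐ[A] K ⊗[A] S := Algebra.TensorProduct.comm A S K
  have : IsReduced (S ⊗[A] K) := isReduced_of_injective c c.injective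
  have : IsArtinianRing (S ⊗[A] K) := c.toRingEquiv.symm.surjective.isArtinianRing
  let Φ : S ⊗[A] K →ₐ[A] Ω := Algebra.TensorProduct.lift φ ι fun _ _ => Commute.all _ _
  have hΦ : ∀ a : S, Φ (algebraMap S _ a) = φ a := by
    intro a
    change Φ (a ⊗ₜ 1) = φ a
    simp [Φ]
  let q : Ideal (S ⊗[A] K) := RingHom.ker (Φ : S ⊗[A] K →+* Ω)
  have hq : q.IsPrime := RingHom.ker_isPrime _
  have hqm : q.IsMaximal := IsArtinianRing.isMaximal_of_isPrime q
  obtain ⟨e, he, he1, heq⟩ := exists_idem q
  have hΦe : Φ e = 1 := by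
    have h1 : Φ (1 - e) = 0 := he1
    rw [map_sub, map_one] at h1
    exact (sub_eq_zero.1 h1).symm
  -- a preimage of `f`
  obtain ⟨y, hy⟩ : ∃ y, Φ y = f := by
    have h1 : algebraMap S (S ⊗[A] K) t ∉ q := by
      intro h
      have h2 : Φ (algebraMap S _ t) = 0 := h
      rw [hΦ] at h2
      exact ht h2
    obtain ⟨w, i, hi, hw⟩ := hqm.exists_inv h1
    refine ⟨algebraMap S _ s * w, ?_⟩
    have h2 := congrArg Φ hw
    have h3 : Φ i = 0 := hi
    rw [map_add, map_mul, h3, add_zero, map_one, hΦ] at h2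
    rw [map_mul, hΦ, ← hf, mul_assoc, mul_comm (φ t), h2, mul_one]
  have hev : ∀ p : Polynomial S, Φ (aeval y p) = (p.map (φ : S →+* Ω)).eval f := by
    intro p
    induction p using Polynomial.induction_on' with
    | add p q hp hq => rw [map_add, map_add, hp, hq, Polynomial.map_add, eval_add]
    | monomial n a =>
      rw [aeval_monomial, map_mul, hΦ, map_pow, hy, Polynomial.map_monomial, eval_monomial]
      rfl
  have hGy : e * aeval y G = 0 := heq _ (by
    change Φ (aeval y G) = 0
    rw [hev, hGf])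
  have hint : IsIntegral S (e * y) := by
    refine ⟨X * G, monic_X.mul hG, ?_⟩
    rw [← aeval_def, map_mul, aeval_X]
    have h1 := idem_aeval he y G
    linear_combination y * h1 + y * hGy
  obtain ⟨s₀, hs₀⟩ := hT _ hint
  refine ⟨s₀, ?_⟩
  rw [← hΦ, hs₀, map_mul, hΦe, one_mul, hy]

theorem normal_hensA_et [IsAlgClosed Ω] {A : Subring Ω} (hA : ∀ a ∈ A, v.Ge 0 a)
    (hn : ∀ f, InFrac A f → IsIntegral A f → f ∈ A) {f : Ω} (hf : InFrac (hensA v A) f)
    (hi : IsIntegral (hensA v A) f) : f ∈ hensA v A := by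
  classical
  obtain ⟨a, ha, b, hb, hb0, rfl⟩ := hf
  obtain ⟨G, hG, hGf⟩ := hi
  rw [hensA_eq_etIm hA] at ha hb
  set G' : Polynomial Ω := G.map (algebraMap (hensA v A) Ω) with hG'
  have hc : ∀ i, G'.coeff i ∈ etIm v A hA := by
    intro i
    rw [← hensA_eq_etIm hA, hG', coeff_map]
    exact (G.coeff i).2
  obtain ⟨C, hCC, hgC⟩ := finite_etIm (hA := hA)
    (insert a (insert b ((Finset.range (G'.natDegree + 1)).image G'.coeff))) (by
      intro x hx
      rcases Finset.mem_insert.1 hx with rfl | hx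
      · exact ha
      rcases Finset.mem_insert.1 hx with rfl | hx
      · exact hb
      obtain ⟨i, -, rfl⟩ := Finset.mem_image.1 hx
      exact hc i)
  obtain ⟨S, _, _, _, φ, hφ, hC⟩ := id hCC
  obtain ⟨s, hs⟩ := (hC a).1 (hgC a (Finset.mem_insert_self _ _))
  obtain ⟨t, ht⟩ := (hC b).1 (hgC b (Finset.mem_insert_of_mem (Finset.mem_insert_self _ _)))
  have hlift : G' ∈ Polynomial.lifts (φ : S →+* Ω) := by
    rw [Polynomial.lifts_iff_coeff_lifts]
    intro i
    by_cases hi : i ∈ Finset.range (G'.natDegree + 1)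
    · obtain ⟨x, hx⟩ := (hC _).1 (hgC _ (Finset.mem_insert_of_mem (Finset.mem_insert_of_mem
        (Finset.mem_image_of_mem _ hi))))
      exact ⟨x, hx⟩
    · refine ⟨0, ?_⟩
      rw [Finset.mem_range, not_lt] at hi
      rw [map_zero, coeff_eq_zero_of_natDegree_lt (by omega)]
  obtain ⟨H, hH, -, hHm⟩ := Polynomial.lifts_and_natDegree_eq_and_monic hlift (hG.map _)
  obtain ⟨s₀, hs₀⟩ := normal_of_etale hn φ (f := a / b) (s := s) (t := t) (by rw [ht]; exact hb0)
    (by rw [hs, ht, div_mul_cancel₀ _ hb0]) hHm (by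
      rw [hH, hG', eval_map]
      exact hGf)
  rw [hensA_eq_etIm hA, ← hs₀]
  exact ⟨C, hCC, (hC _).2 ⟨s₀, rfl⟩⟩

end Pool.Agent.TW
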