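import Pool.Agent.Lib.TW.H1
import Pool.Agent.Lib.TW.H4
import Pool.Agent.Lib.TW.H5e

/-!
# TANK W, NAK: a Nakayama lemma for henselian rings
-/

set_option autoImplicit false

open Polynomial

namespace Pool.Agent.TW

open Pool.Agent.H15JM (RVal)
open Pool.Agent.LU1 (VPos adj)
open Pool.Agent.D2 (Ctx0)

universe u

variable {k Ω : Type u} [Field k] [Field Ω] [Algebra k Ω] {v : RVal Ω}

namespace NakAux

/-- The polynomials with coefficients in `B`. -/
noncomputable def CB (B : Subring Ω) (σ : Type) : Subring (MvPolynomial σ Ω) :=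
  (MvPolynomial.map (σ := σ) (algebraMap B Ω)).range

variable {B : Subring Ω} {σ : Type}

theorem coeff_mem {L : MvPolynomial σ Ω} (hL : L ∈ CB B σ) (m : σ →₀ ℕ) : L.coeff m ∈ B := by
  obtain ⟨G, rfl⟩ := hL
  rw [MvPolynomial.coeff_map]
  exact (G.coeff m).2

theorem C_mem {b : Ω} (hb : b ∈ B) : (MvPolynomial.C b : MvPolynomial σ Ω) ∈ CB B σ :=
  ⟨MvPolynomial.C ⟨b, hb⟩, by rw [MvPolynomial.map_C]; rfl⟩

theorem X_mem (i : σ) : (MvPolynomial.X i : MvPolynomial σ Ω) ∈ CB B σ :=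
  ⟨MvPolynomial.X i, by rw [MvPolynomial.map_X]⟩

theorem pderiv_mem {L : MvPolynomial σ Ω} (hL : L ∈ CB B σ) (i : σ) :
    MvPolynomial.pderiv i L ∈ CB B σ := by
  obtain ⟨G, rfl⟩ := hL
  exact ⟨MvPolynomial.pderiv i G, by rw [MvPolynomial.pderiv_map]⟩

theorem eval_ge (hB : ∀ b ∈ B, v.Ge 0 b) {x : σ → Ω} (hx : ∀ i, v.Ge 0 (x i))
    {L : MvPolynomial σ Ω} (hL : L ∈ CB B σ) : v.Ge 0 (MvPolynomial.eval x L) := by
  obtain ⟨G, rfl⟩ := hL
  induction G using MvPolynomial.induction_on with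
  | C r =>
    rw [MvPolynomial.map_C, MvPolynomial.eval_C]
    exact hB _ r.2
  | add p q hp hq =>
    rw [map_add, map_add]
    exact hp.add hq
  | mul_X p i hp =>
    rw [map_mul, map_mul, MvPolynomial.map_X, MvPolynomial.eval_X]
    have := hp.mul (hx i)
    rwa [add_zero] at this

variable {n : ℕ}

/-- The elements of `B[τ]` as polynomials in which the last variable does not occur. -/
theorem exists_lift0 (τ : Fin n → Ω) {a : Ω}
    (ha : a ∈ Subring.closure ((B : Set Ω) ∪ Set.range τ)) :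
    ∃ L ∈ CB B (Fin (n + 1)), MvPolynomial.pderiv (Fin.last n) L = 0 ∧
      ∀ x : Ω, MvPolynomial.eval (Fin.snoc τ x : Fin (n + 1) → Ω) L = a := by
  induction ha using Subring.closure_induction with
  | mem a ha =>
    rcases ha with ha | ⟨i, rfl⟩
    · exact ⟨MvPolynomial.C a, C_mem ha, MvPolynomial.pderiv_C, fun x => MvPolynomial.eval_C a⟩
    · refine ⟨MvPolynomial.X i.castSucc, X_mem _, ?_, fun x => ?_⟩
      · rw [MvPolynomial.pderiv_X_of_ne (Fin.castSucc_lt_last i).ne]
      · rw [MvPolynomial.eval_X, Fin.snoc_castSucc]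
  | zero => exact ⟨0, zero_mem _, map_zero _, fun x => map_zero _⟩
  | one => exact ⟨1, one_mem _, by rw [MvPolynomial.pderiv_one], fun x => map_one _⟩
  | add a b _ _ h1 h2 =>
    obtain ⟨L, h3, h4, h5⟩ := h1
    obtain ⟨L', h3', h4', h5'⟩ := h2
    exact ⟨L + L', add_mem h3 h3', by rw [map_add, h4, h4', add_zero], fun x => by
      rw [map_add, h5, h5']⟩
  | neg a _ h1 =>
    obtain ⟨L, h3, h4, h5⟩ := h1
    exact ⟨-L, neg_mem h3, by rw [map_neg, h4, neg_zero], fun x => by rw [map_neg, h5]⟩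
  | mul a b _ _ h1 h2 =>
    obtain ⟨L, h3, h4, h5⟩ := h1
    obtain ⟨L', h3', h4', h5'⟩ := h2
    exact ⟨L * L', mul_mem h3 h3', by rw [MvPolynomial.pderiv_mul, h4, h4', zero_mul, mul_zero,
      add_zero], fun x => by rw [map_mul, h5, h5']⟩

/-- The polynomials over `B[τ]`. -/
theorem exists_lift (τ : Fin n → Ω)
    (p : Polynomial (Subring.closure ((B : Set Ω) ∪ Set.range τ))) :
    ∃ L ∈ CB B (Fin (n + 1)),
      (∀ x : Ω, MvPolynomial.eval (Fin.snoc τ x : Fin (n + 1) → Ω) L = aeval x p) ∧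
      ∀ x : Ω, MvPolynomial.eval (Fin.snoc τ x : Fin (n + 1) → Ω)
        (MvPolynomial.pderiv (Fin.last n) L) = aeval x (derivative p) := by
  induction p using Polynomial.induction_on' with
  | add p q h1 h2 =>
    obtain ⟨L, h3, h4, h5⟩ := h1
    obtain ⟨L', h3', h4', h5'⟩ := h2
    exact ⟨L + L', add_mem h3 h3', fun x => by rw [map_add, map_add, h4, h4'], fun x => by
      rw [map_add, map_add, derivative_add, map_add, h5, h5']⟩
  | monomial m a =>
    obtain ⟨L, h1, h2, h3⟩ := exists_lift0 τ a.2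
    refine ⟨L * MvPolynomial.X (Fin.last n) ^ m, mul_mem h1 (pow_mem (X_mem _) m), fun x => ?_,
      fun x => ?_⟩
    · rw [map_mul, map_pow, MvPolynomial.eval_X, h3, Fin.snoc_last, aeval_monomial]
      rfl
    · rw [MvPolynomial.pderiv_mul, h2, zero_mul, zero_add, MvPolynomial.pderiv_pow,
        MvPolynomial.pderiv_X_self, mul_one, derivative_monomial, aeval_monomial, map_mul, map_mul,
        map_pow, MvPolynomial.eval_X, h3, Fin.snoc_last, map_natCast, map_mul, map_natCast]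
      have h4 : algebraMap (Subring.closure ((B : Set Ω) ∪ Set.range τ)) Ω a = a := rfl
      rw [h4]
      ring

/-- A matrix which is lower triangular up to elements of positive value. -/
theorem det_unit (M : Matrix (Fin n) (Fin n) Ω) (hM : ∀ i j, v.Ge 0 (M i j))
    (hd : ∀ i, M i i ≠ 0 ∧ v (M i i) = 0) (hu : ∀ i j, i < j → VPos v (M i j)) :
    M.det ≠ 0 ∧ v M.det = 0 := by
  set φ : OVt v →+* Ω := (OVt v).subtype with hφ
  have hφ0 : ∀ s, v.Ge 0 (φ s) := fun s => s.2
  set M₀ : Matrix (Fin n) (Fin n) (OVt v) := Matrix.of fun i j => ⟨M i j, hM i j⟩ with hM₀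
  have h1 : φ M₀.det = M.det := by
    rw [RingHom.map_det]
    congr 1
  have hprime := posIdeal_prime φ hφ0
  have h2 : M₀.det ∉ posIdeal φ hφ0 := by
    intro h3
    have h4 : Ideal.Quotient.mk (posIdeal φ hφ0) M₀.det = 0 := Ideal.Quotient.eq_zero_iff_mem.2 h3
    rw [RingHom.map_det, Matrix.det_of_isLowerTriangular] at h4
    · obtain ⟨i, -, h5⟩ := Finset.prod_eq_zero_iff.1 h4
      have h6 : M₀ i i ∈ posIdeal φ hφ0 := Ideal.Quotient.eq_zero_iff_mem.1 h5
      have h7 : VPos v (M i i) := h6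
      have h8 := h7 (hd i).1
      rw [(hd i).2] at h8
      exact lt_irrefl _ h8
    · intro i j hij
      have h5 : i < j := hij
      exact Ideal.Quotient.eq_zero_iff_mem.2 (hu i j h5)
  rw [← h1]
  exact notMem_posIdeal h2

end NakAux

open NakAux in
theorem mem_of_nak [IsAlgClosed Ω] (h : Ctx0 k v) {B : Subring Ω} (hB : HClosed v B) {n : ℕ}
    (τ : Fin n → Ω) (hτ0 : ∀ i, v.Ge 0 (τ i)) {ϖ : Ω} (hϖ : ϖ ∈ B) (hϖ0 : VPos v ϖ)
    (hτ : ∀ i, ∃ a ∈ hensA v (Subring.closure ((B : Set Ω) ∪ Set.range τ)), τ i = ϖ * a) :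
    ∀ i, τ i ∈ B := by
  classical
  have hA : ∀ a ∈ Subring.closure ((B : Set Ω) ∪ Set.range τ), v.Ge 0 a := by
    intro a ha
    have hle : Subring.closure ((B : Set Ω) ∪ Set.range τ) ≤ OVt v := by
      rw [Subring.closure_le]
      rintro x (hx | ⟨i, rfl⟩)
      · exact hB.nonneg x hx
      · exact hτ0 i
    exact hle ha
  choose a ha hτa using hτ
  obtain ⟨C, ⟨S, _, _, _, φ, hφ, hC⟩, hC'⟩ := finite_etIm (hA := hA) (Finset.univ.image a) (by
    intro f hf
    obtain ⟨i, -, rfl⟩ := Finset.mem_image.1 hf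
    rw [← hensA_eq_etIm hA]
    exact ha i)
  obtain ⟨g, θ, -, hθ, hg0, hg1, hg2, hPQ⟩ := exists_root φ hφ
  have h1 : ∀ i, ∃ P Q : Polynomial (Subring.closure ((B : Set Ω) ∪ Set.range τ)),
      aeval θ Q ≠ 0 ∧ v (aeval θ Q) = 0 ∧ a i = aeval θ P / aeval θ Q := by
    intro i
    obtain ⟨s, hs⟩ := (hC (a i)).1 (hC' (a i) (Finset.mem_image_of_mem _ (Finset.mem_univ i)))
    obtain ⟨P, Q, h2, h3, h4⟩ := hPQ s
    exact ⟨P, Q, h2, h3, by rw [← hs, h4]⟩
  choose P Q hQ hvQ haPQ using h1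
  choose LP hLP hLP1 hLP2 using fun i => exists_lift τ (P i)
  choose LQ hLQ hLQ1 hLQ2 using fun i => exists_lift τ (Q i)
  obtain ⟨LG, hLG, hLG1, hLG2⟩ := exists_lift τ g
  set x : Fin (n + 1) → Ω := Fin.snoc τ θ with hx
  have hxc : ∀ i : Fin n, x i.castSucc = τ i := fun i => by rw [hx, Fin.snoc_castSucc]
  have hx0 : ∀ i, v.Ge 0 (x i) := by
    intro i
    refine Fin.lastCases ?_ (fun i => ?_) i
    · rw [hx, Fin.snoc_last]
      exact hθ
    · rw [hxc]
      exact hτ0 i
  have hτpos : ∀ i, VPos v (τ i) := by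
    intro i
    have ha0 : v.Ge 0 (a i) := (hclosed_hensA hA).nonneg _ (ha i)
    intro h2
    rw [hτa i] at h2 ⊢
    rw [v.map_mul (left_ne_zero_of_mul h2) (right_ne_zero_of_mul h2)]
    have h3 := hϖ0 (left_ne_zero_of_mul h2)
    have h4 := ha0 (right_ne_zero_of_mul h2)
    linarith
  set F : Fin (n + 1) → MvPolynomial (Fin (n + 1)) Ω := Fin.snoc
    (fun i : Fin n => MvPolynomial.X i.castSucc * LQ i - MvPolynomial.C ϖ * LP i) LG with hF
  have hFc : ∀ i : Fin n, F i.castSucc =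
      MvPolynomial.X i.castSucc * LQ i - MvPolynomial.C ϖ * LP i := fun i => by
    rw [hF, Fin.snoc_castSucc]
  have hFl : F (Fin.last n) = LG := by rw [hF, Fin.snoc_last]
  have hFm : ∀ i, F i ∈ CB B (Fin (n + 1)) := by
    intro i
    refine Fin.lastCases ?_ (fun i => ?_) i
    · rw [hFl]
      exact hLG
    · rw [hFc]
      exact sub_mem (mul_mem (X_mem _) (hLQ i)) (mul_mem (C_mem hϖ) (hLP i))
  have hpos : ∀ (y : Ω) (z : Ω), VPos v y → v.Ge 0 z → VPos v (y * z) := by
    intro y z hy hz h2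
    rw [v.map_mul (left_ne_zero_of_mul h2) (right_ne_zero_of_mul h2)]
    have h3 := hy (left_ne_zero_of_mul h2)
    have h4 := hz (right_ne_zero_of_mul h2)
    linarith
  have hder : ∀ (i : Fin n) (j : Fin (n + 1)), ∃ e : Ω, VPos v e ∧
      MvPolynomial.eval x (MvPolynomial.pderiv j (F i.castSucc)) =
        (if j = i.castSucc then aeval θ (Q i) else 0) + e := by
    intro i j
    refine ⟨τ i * MvPolynomial.eval x (MvPolynomial.pderiv j (LQ i)) -
      ϖ * MvPolynomial.eval x (MvPolynomial.pderiv j (LP i)), ?_, ?_⟩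
    · have h2 := hpos _ _ (hτpos i) (eval_ge hB.nonneg hx0 (pderiv_mem (hLQ i) j))
      have h3 := hpos _ _ hϖ0 (eval_ge hB.nonneg hx0 (pderiv_mem (hLP i) j))
      exact h2.sub h3
    · rw [hFc, map_sub, MvPolynomial.pderiv_mul, MvPolynomial.pderiv_C_mul, map_sub, map_add,
        map_mul, map_mul, MvPolynomial.eval_X, hxc, map_mul, MvPolynomial.eval_C]
      by_cases hj : j = i.castSucc
      · subst hj
        rw [MvPolynomial.pderiv_X_self, if_pos rfl, map_one, one_mul]
        have h4 : MvPolynomial.eval x (LQ i) = aeval θ (Q i) := hLQ1 i θ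
        rw [h4]
        ring
      · rw [MvPolynomial.pderiv_X_of_ne (Ne.symm hj), if_neg hj, map_zero, zero_mul]
        ring
  have key := mem_of_system hB F (fun i m => coeff_mem (hFm i) m) x hx0 ?_ ?_ ?_
  · intro i
    have := key i.castSucc
    rwa [hxc] at this
  · intro i
    refine Fin.lastCases ?_ (fun i => ?_) i
    · rw [hFl]
      exact (hLG1 θ).trans hg0
    · have h4 : MvPolynomial.eval x (LQ i) = aeval θ (Q i) := hLQ1 i θ
      have h5 : MvPolynomial.eval x (LP i) = aeval θ (P i) := hLP1 i θ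
      rw [hFc, map_sub, map_mul, map_mul, MvPolynomial.eval_X, MvPolynomial.eval_C, hxc, h4, h5,
        hτa i, haPQ i]
      field_simp [hQ i]
      ring
  all_goals
    have hdet := det_unit (v := v)
      (Matrix.of fun i j => MvPolynomial.eval x (MvPolynomial.pderiv j (F i)))
      (fun i j => eval_ge hB.nonneg hx0 (pderiv_mem (hFm i) j)) (fun i => by
        refine Fin.lastCases ?_ (fun i => ?_) i
        · rw [Matrix.of_apply, hFl]
          have h4 : MvPolynomial.eval x (MvPolynomial.pderiv (Fin.last n) LG) =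
              aeval θ (derivative g) := hLG2 θ
          rw [h4]
          exact ⟨hg1, hg2⟩
        · obtain ⟨e, he, h2⟩ := hder i i.castSucc
          rw [Matrix.of_apply, h2, if_pos rfl]
          by_cases he0 : e = 0
          · rw [he0, add_zero]
            exact ⟨hQ i, hvQ i⟩
          · have h3 := v.add_of_lt (hQ i) he0 (by rw [hvQ i]; exact he he0)
            exact ⟨h3.1, h3.2.trans (hvQ i)⟩) (fun i j hij => by
        have hi : i ≠ Fin.last n := fun h2 => by
          rw [h2] at hij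
          exact absurd hij (not_lt.2 (Fin.le_last j))
        obtain ⟨i', rfl⟩ := Fin.exists_castSucc_eq.2 hi
        obtain ⟨e, he, h2⟩ := hder i' j
        rw [Matrix.of_apply, h2, if_neg hij.ne', zero_add]
        exact he)
  · exact hdet.1
  · exact hdet.2

end Pool.Agent.TW
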