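import Pool.Agent.Lib.TW.Defs

/-!
# TANK W, row P4a: the Taylor bound and the lambda lemma for polynomials
-/

set_option autoImplicit false

namespace Pool.Agent.TW

open Pool.Agent.H15JM (RVal)

universe u

variable {k Ω : Type u} [Field k] [Field Ω] [Algebra k Ω] {v : RVal Ω} {r D : ℕ}

/-- The polynomial `P(s_i (1 + X_i))`. -/
noncomputable def tay {n : ℕ} (s : Fin n → Ω) (P : MvPolynomial (Fin n) k) :
    MvPolynomial (Fin n) Ω :=
  MvPolynomial.aeval (fun i => MvPolynomial.C (s i) * (1 + MvPolynomial.X i)) P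

namespace P4

open MvPolynomial

theorem coeff_pow_char (p : ℕ) [Fact p.Prime] [CharP Ω p] {n : ℕ} (T : MvPolynomial (Fin n) Ω)
    (a : Fin n →₀ ℕ) (h0 : (T ^ p).coeff a ≠ 0) :
    ∃ m : Fin n →₀ ℕ, a = p • m ∧ (T ^ p).coeff a = (T.coeff m) ^ p := by
  classical
  have hp : p ≠ 0 := (Fact.out : p.Prime).ne_zero
  rw [← map_frobenius_expand, coeff_map] at h0 ⊢
  have h1 : (expand p T).coeff a ≠ 0 := fun h => h0 (by rw [h, map_zero])
  rw [← mem_support_iff, support_expand T hp, Finset.mem_image] at h1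
  obtain ⟨m, -, rfl⟩ := h1
  exact ⟨m, rfl, by rw [coeff_expand_smul p hp, frobenius_def]⟩

/-- the quotient of an exponent by `p` -/
noncomputable def dv {n : ℕ} (p : ℕ) (M : Fin n →₀ ℕ) : Fin n →₀ ℕ :=
  M.mapRange (· / p) (Nat.zero_div p)

theorem dv_degree {n : ℕ} (p : ℕ) (M : Fin n →₀ ℕ) : p * (dv p M).degree ≤ M.degree := by
  rw [Finsupp.degree_eq_sum, Finsupp.degree_eq_sum, Finset.mul_sum]
  exact Finset.sum_le_sum fun i _ => Nat.mul_div_le _ _

theorem monomial_eq' [IsAlgClosed k] (p : ℕ) [Fact p.Prime] {n : ℕ} (M : Fin n →₀ ℕ) (c : k) :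
    ∃ r : k, monomial M c = (monomial (dv p M) r) ^ p *
      ∏ i, (X i : MvPolynomial (Fin n) k) ^ (M i % p) := by
  obtain ⟨r, hr⟩ := IsAlgClosed.exists_pow_nat_eq c (Fact.out : p.Prime).pos
  refine ⟨r, ?_⟩
  have h1 : ∏ i, (X i : MvPolynomial (Fin n) k) ^ (M i % p) =
      monomial (M.mapRange (· % p) (Nat.zero_mod p)) 1 := by
    rw [monomial_eq, C_1, one_mul, Finsupp.prod_fintype _ _ (fun i => pow_zero _)]
    rfl
  have h2 : p • dv p M + M.mapRange (· % p) (Nat.zero_mod p) = M := by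
    ext i
    rw [Finsupp.add_apply, Finsupp.smul_apply, smul_eq_mul]
    exact Nat.div_add_mod (M i) p
  rw [h1, monomial_pow, hr, monomial_mul, mul_one, h2]

theorem exists_decomp_aux [IsAlgClosed k] (p : ℕ) [Fact p.Prime] [CharP k p] {n : ℕ} (d : ℕ)
    (c : (Fin n →₀ ℕ) → k) (S : Finset (Fin n →₀ ℕ)) (hS : ∀ M ∈ S, M.degree ≤ d) :
    ∃ Q : (Fin n → Fin p) → MvPolynomial (Fin n) k, (∀ α, p * (Q α).totalDegree ≤ d) ∧
      ∑ M ∈ S, monomial M (c M) = ∑ α, Q α ^ p * ∏ i, X i ^ (α i : ℕ) := by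
  classical
  have hp : p ≠ 0 := (Fact.out : p.Prime).ne_zero
  induction S using Finset.induction_on with
  | empty =>
    refine ⟨fun _ => 0, fun α => by simp, ?_⟩
    simp [hp]
  | insert M S hM ih =>
    obtain ⟨Q, hQ, hQ'⟩ := ih fun M' h' => hS M' (Finset.mem_insert_of_mem h')
    obtain ⟨r, hr⟩ := monomial_eq' p M (c M)
    let β : Fin n → Fin p := fun i => ⟨M i % p, Nat.mod_lt _ (Nat.pos_of_ne_zero hp)⟩
    refine ⟨fun α => Q α + if α = β then monomial (dv p M) r else 0, fun α => ?_, ?_⟩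
    · have h1 : (Q α + if α = β then monomial (dv p M) r else 0).totalDegree ≤
          max (Q α).totalDegree (dv p M).degree := by
        refine (totalDegree_add _ _).trans (max_le_max le_rfl ?_)
        split_ifs
        · refine (totalDegree_monomial_le _ _).trans (le_of_eq ?_)
          rw [Finsupp.degree_eq_sum, Finsupp.sum_fintype _ _ (fun _ => rfl)]
          rfl
        · simp
      refine (Nat.mul_le_mul_left p h1).trans ?_
      rcases max_choice (Q α).totalDegree (dv p M).degree with h2 | h2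
      · rw [h2]; exact hQ α
      · rw [h2]; exact (dv_degree p M).trans (hS M (Finset.mem_insert_self _ _))
    · rw [Finset.sum_insert hM, hQ', hr]
      have h2 : ∀ α, (Q α + if α = β then monomial (dv p M) r else 0) ^ p *
          ∏ i, (X i : MvPolynomial (Fin n) k) ^ (α i : ℕ) =
          Q α ^ p * ∏ i, X i ^ (α i : ℕ) +
            (if α = β then (monomial (dv p M) r) ^ p * ∏ i, X i ^ (M i % p) else 0) := by
        intro α
        rw [add_pow_char, add_mul]
        congr 1
        split_ifs with h3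
        · subst h3; rfl
        · rw [zero_pow hp, zero_mul]
      simp only [h2]
      rw [Finset.sum_add_distrib, Finset.sum_ite_eq' Finset.univ β, if_pos (Finset.mem_univ _),
        add_comm]

theorem exists_decomp [IsAlgClosed k] (p : ℕ) [Fact p.Prime] [CharP k p] {n : ℕ} {d : ℕ}
    (P : MvPolynomial (Fin n) k) (hd : P.totalDegree ≤ d) :
    ∃ Q : (Fin n → Fin p) → MvPolynomial (Fin n) k, (∀ α, p * (Q α).totalDegree ≤ d) ∧
      P = ∑ α, Q α ^ p * ∏ i, X i ^ (α i : ℕ) := by
  obtain ⟨Q, h1, h2⟩ := exists_decomp_aux p d (fun M => P.coeff M) P.support fun M hM => by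
    refine le_trans ?_ hd
    have := le_totalDegree hM
    rwa [Finsupp.sum_fintype _ _ (fun _ => rfl), ← Finsupp.degree_eq_sum] at this
  exact ⟨Q, h1, by rw [← h2]; exact P.as_sum⟩

theorem aeval_decomp {p : ℕ} {n : ℕ} (s : Fin n → Ω)
    (Q : (Fin n → Fin p) → MvPolynomial (Fin n) k) :
    aeval s (∑ α, Q α ^ p * ∏ i, X i ^ (α i : ℕ)) = pcomb s fun α => aeval s (Q α) := by
  rw [map_sum, pcomb]
  refine Finset.sum_congr rfl fun α _ => ?_
  rw [map_mul, map_pow, map_prod, mon]
  congr 1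
  exact Finset.prod_congr rfl fun i _ => by rw [map_pow, aeval_X]

theorem aeval_mem {E : IntermediateField k Ω} {n : ℕ} {s : Fin n → Ω} (hs : ∀ i, s i ∈ E)
    (P : MvPolynomial (Fin n) k) : aeval s P ∈ E := by
  have h1 : aeval s P = algebraMap E Ω (aeval (fun i => (⟨s i, hs i⟩ : E)) P) := by
    rw [← aeval_algebraMap_apply]
    rfl
  rw [h1]
  exact (aeval (fun i => (⟨s i, hs i⟩ : E)) P).2

/-- a `p`-basis is algebraically independent -/
theorem aeval_eq_zero [IsAlgClosed k] (p : ℕ) [Fact p.Prime] [CharP k p] {n : ℕ}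
    {s : Fin n → Ω} {E : IntermediateField k Ω} (hE : PBasis p E s) :
    ∀ (d : ℕ) (P : MvPolynomial (Fin n) k), P.totalDegree ≤ d → aeval s P = 0 → P = 0 := by
  have hp : p ≠ 0 := (Fact.out : p.Prime).ne_zero
  have hp2 := (Fact.out : p.Prime).two_le
  intro d
  induction d using Nat.strong_induction_on with
  | _ d ih =>
    intro P hP h0
    rcases Nat.eq_zero_or_pos d with rfl | hd
    · rw [totalDegree_eq_zero_iff_eq_C.1 (Nat.le_zero.1 hP)] at h0 ⊢
      rw [aeval_C] at h0
      rw [(map_eq_zero_iff _ (algebraMap k Ω).injective).1 h0, C_0]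
    · obtain ⟨Q, hQ, hPQ⟩ := exists_decomp p P hP
      have h1 : pcomb s (fun α => aeval s (Q α)) = 0 := by
        rw [← aeval_decomp, ← hPQ, h0]
      have h2 := hE.ind _ (fun α => aeval_mem hE.mem (Q α)) h1
      have h3 : ∀ α, Q α = 0 := fun α => by
        refine ih (d - 1) (by omega) (Q α) ?_ (h2 α)
        have := hQ α
        have h4 : 2 * (Q α).totalDegree ≤ d := (Nat.mul_le_mul_right _ hp2).trans this
        omega
      rw [hPQ]
      exact Finset.sum_eq_zero fun α _ => by rw [h3, zero_pow hp, zero_mul]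

theorem tay_zero {n : ℕ} (s : Fin n → Ω) (P : MvPolynomial (Fin n) k) :
    (tay s P).coeff 0 = aeval s P := by
  rw [← constantCoeff_eq]
  let f : MvPolynomial (Fin n) Ω →ₐ[k] Ω :=
    { (constantCoeff : MvPolynomial (Fin n) Ω →+* Ω) with
      commutes' := fun c => by
        show constantCoeff (algebraMap k (MvPolynomial (Fin n) Ω) c) = _
        rw [IsScalarTower.algebraMap_apply k Ω, algebraMap_eq, constantCoeff_C] }
  have h1 : f.comp (aeval (fun i => C (s i) * (1 + X i))) = aeval s := by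
    ext i
    simp [f]
  exact DFunLike.congr_fun h1 P

theorem tay_decomp {p : ℕ} {n : ℕ} (s : Fin n → Ω)
    (Q : (Fin n → Fin p) → MvPolynomial (Fin n) k) :
    tay s (∑ α, Q α ^ p * ∏ i, X i ^ (α i : ℕ)) =
      ∑ α, tay s (Q α) ^ p * (C (mon s α) * ∏ i, (1 + X i) ^ (α i : ℕ)) := by
  rw [tay, map_sum]
  refine Finset.sum_congr rfl fun α _ => ?_
  rw [map_mul, map_pow, map_prod, mon, tay, map_prod, ← Finset.prod_mul_distrib]
  congr 1
  exact Finset.prod_congr rfl fun i _ => by rw [map_pow, aeval_X, mul_pow, C_pow]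

theorem ge_natCast (v : RVal Ω) (n : ℕ) : v.Ge 0 (n : Ω) := by
  induction n with
  | zero => rw [Nat.cast_zero]; exact RVal.Ge.zero
  | succ n ih =>
    rw [Nat.cast_succ]
    exact ih.add fun _ => by rw [v.map_one]

omit [Algebra k Ω] [Field k] in
theorem coeff_one_add (v : RVal Ω) {n : ℕ} (a : Fin n → ℕ) (m : Fin n →₀ ℕ) :
    v.Ge 0 (coeff m (∏ i, (1 + X i : MvPolynomial (Fin n) Ω) ^ a i)) := by
  have h1 : ∏ i, (1 + X i : MvPolynomial (Fin n) Ω) ^ a i =
      map (Nat.castRingHom Ω) (∏ i, (1 + X i) ^ a i) := by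
    rw [map_prod]
    refine Finset.prod_congr rfl fun i _ => ?_
    rw [map_pow, map_add, map_one, map_X]
  rw [h1, coeff_map]
  exact ge_natCast v _

end P4

open P4 in
theorem P4.bound [IsAlgClosed k] (p : ℕ) [Fact p.Prime] [CharP k p] [CharP Ω p] {n : ℕ} {s : Fin n → Ω} (hs : ∀ i, s i ≠ 0) {E : IntermediateField k Ω}
    (hE : PBasis p E s) {κ : ℝ} (hκ : 0 ≤ κ) (ho : Orth p v E s (κ * (p - 1))) :
    ∀ (N : ℕ) (P : MvPolynomial (Fin n) k), MvPolynomial.aeval s P ≠ 0 →
      ∀ m : Fin n →₀ ℕ, m.degree = N → m ≠ 0 →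
      v.Ge (v (MvPolynomial.aeval s P) - κ * (p * m.degree - 1)) ((tay s P).coeff m) := by
  classical
  have hp : p ≠ 0 := (Fact.out : p.Prime).ne_zero
  have hp2 := (Fact.out : p.Prime).two_le
  have hmon : ∀ α : Fin n → Fin p, mon s α ≠ 0 := fun α =>
    Finset.prod_ne_zero_iff.2 fun i _ => pow_ne_zero _ (hs i)
  intro N
  induction N using Nat.strong_induction_on with
  | _ N ih =>
    intro P hP m hmN hm
    obtain ⟨Q, -, hPQ⟩ := exists_decomp p P le_rfl
    have hPc : MvPolynomial.aeval s P = pcomb s fun α => MvPolynomial.aeval s (Q α) := by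
      conv_lhs => rw [hPQ]
      exact aeval_decomp s Q
    have hm1 : 1 ≤ m.degree := by
      rw [Nat.one_le_iff_ne_zero, Ne, Finsupp.degree_eq_zero_iff]
      exact hm
    have hm1' : (1 : ℝ) ≤ m.degree := by exact_mod_cast hm1
    have hT : tay s P = ∑ α, tay s (Q α) ^ p *
        (MvPolynomial.C (mon s α) * ∏ i, (1 + MvPolynomial.X i) ^ (α i : ℕ)) := by
      conv_lhs => rw [hPQ]
      exact tay_decomp s Q
    rw [hT, MvPolynomial.coeff_sum]
    refine RVal.Ge.sum _ _ fun α _ => ?_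
    by_cases hQ0 : MvPolynomial.aeval s (Q α) = 0
    · have h1 : Q α = 0 := aeval_eq_zero p hE _ (Q α) le_rfl hQ0
      rw [h1]
      have h2 : tay s (0 : MvPolynomial (Fin n) k) = 0 := by rw [tay, map_zero]
      rw [h2, zero_pow hp, zero_mul, MvPolynomial.coeff_zero]
      exact RVal.Ge.zero
    have h3 : v (MvPolynomial.aeval s P) - κ * (p - 1) ≤
        p * v (MvPolynomial.aeval s (Q α)) + v (mon s α) := by
      have h4 := ho (fun α => MvPolynomial.aeval s (Q α)) (fun α => aeval_mem hE.mem (Q α))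
        (by rw [← hPc]; exact hP) α (mul_ne_zero (pow_ne_zero p hQ0) (hmon α))
      rw [← hPc, v.map_mul (pow_ne_zero p hQ0) (hmon α), v.map_pow hQ0] at h4
      exact h4
    rw [MvPolynomial.coeff_mul]
    refine RVal.Ge.sum _ _ fun x hx => ?_
    replace hx := Finset.HasAntidiagonal.mem_antidiagonal.1 hx
    rw [MvPolynomial.coeff_C_mul]
    by_cases h0 : (tay s (Q α) ^ p).coeff x.1 = 0
    · rw [h0, zero_mul]
      exact RVal.Ge.zero
    obtain ⟨m', hm', hc⟩ := coeff_pow_char p (tay s (Q α)) x.1 h0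
    rw [hc] at h0 ⊢
    have hc0 : (tay s (Q α)).coeff m' ≠ 0 := fun h => h0 (by rw [h, zero_pow hp])
    have hdeg : p * m'.degree ≤ m.degree := by
      rw [← hx, map_add, hm', map_nsmul, smul_eq_mul]
      exact Nat.le_add_right _ _
    have h5 : v.Ge (v (mon s α) + 0)
        (mon s α * MvPolynomial.coeff x.2 (∏ i, (1 + MvPolynomial.X i) ^ (α i : ℕ))) :=
      RVal.Ge.mul (RVal.ge_self _) (coeff_one_add v (fun i => (α i : ℕ)) x.2)
    by_cases hm0 : m' = 0
    · subst hm0
      rw [tay_zero]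
      have h6 := (RVal.Ge.mul (v := v) (RVal.ge_self (MvPolynomial.aeval s (Q α) ^ p)) h5)
      refine h6.mono ?_
      rw [v.map_pow hQ0]
      have h7 : κ * (p - 1) ≤ κ * (p * m.degree - 1) := by
        refine mul_le_mul_of_nonneg_left ?_ hκ
        have : (p : ℝ) * 1 ≤ p * m.degree := mul_le_mul_of_nonneg_left hm1' (by positivity)
        linarith
      linarith
    · have h1' : 1 ≤ m'.degree := by
        rw [Nat.one_le_iff_ne_zero, Ne, Finsupp.degree_eq_zero_iff]
        exact hm0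
      have hlt : m'.degree < N := by
        rw [← hmN]
        calc m'.degree < 2 * m'.degree := by omega
          _ ≤ p * m'.degree := Nat.mul_le_mul_right _ hp2
          _ ≤ m.degree := hdeg
      have h6 := ih _ hlt (Q α) hQ0 m' rfl hm0 hc0
      have h7 : v.Ge (p * (v (MvPolynomial.aeval s (Q α)) - κ * (p * m'.degree - 1)))
          ((tay s (Q α)).coeff m' ^ p) := by
        intro _
        rw [v.map_pow hc0]
        exact mul_le_mul_of_nonneg_left h6 (by positivity)
      refine (RVal.Ge.mul h7 h5).mono ?_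
      have h8 : (p : ℝ) * m'.degree ≤ m.degree := by exact_mod_cast hdeg
      have h9 : κ * (p * (p * m'.degree)) ≤ κ * (p * m.degree) :=
        mul_le_mul_of_nonneg_left (mul_le_mul_of_nonneg_left h8 (by positivity)) hκ
      nlinarith

theorem taylor_bound [IsAlgClosed k] (p : ℕ) [Fact p.Prime] [CharP k p] [CharP Ω p] {n : ℕ} {s : Fin n → Ω} (hs : ∀ i, s i ≠ 0) {E : IntermediateField k Ω}
    (hE : PBasis p E s) {ε : ℝ} (hε : 0 ≤ ε) (ho : Orth p v E s ε) (P : MvPolynomial (Fin n) k)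
    (hP : MvPolynomial.aeval s P ≠ 0) (m : Fin n →₀ ℕ) :
    v.Ge (v (MvPolynomial.aeval s P) - p * m.degree * ε) ((tay s P).coeff m) := by
  by_cases hm : m = 0
  · subst hm
    rw [P4.tay_zero]
    simp only [map_zero, Nat.cast_zero, mul_zero, zero_mul, sub_zero]
    exact RVal.ge_self _
  have hp2 : (2 : ℝ) ≤ p := by exact_mod_cast (Fact.out : p.Prime).two_le
  have hm1 : (1 : ℝ) ≤ m.degree := by
    have : 1 ≤ m.degree := by
      rw [Nat.one_le_iff_ne_zero, Ne, Finsupp.degree_eq_zero_iff]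
      exact hm
    exact_mod_cast this
  have h1 := P4.bound p hs hE (κ := ε / (p - 1)) (div_nonneg hε (by linarith))
    (by rwa [div_mul_cancel₀ _ (show (p : ℝ) - 1 ≠ 0 by linarith)]) _ P hP m rfl hm
  refine h1.mono ?_
  have h2 : ε / (p - 1) * (p * m.degree - 1) ≤ p * m.degree * ε := by
    rw [div_mul_eq_mul_div, div_le_iff₀ (by linarith)]
    have h3 : (p * m.degree - 1 : ℝ) ≤ p * m.degree * (p - 1) := by
      have : (p * m.degree : ℝ) * 1 ≤ p * m.degree * (p - 1) :=
        mul_le_mul_of_nonneg_left (by linarith) (by positivity)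
      linarith
    nlinarith
  linarith

/-- The lambda lemma: coordinates near `s` give an isometric embedding near the identity. `w` is a
valuation of a field which contains `Ω`, or `v` itself. -/
theorem lam_poly [IsAlgClosed k] (p : ℕ) [Fact p.Prime] [CharP k p] [CharP Ω p] {n : ℕ} {s : Fin n → Ω} (hs : ∀ i, s i ≠ 0) {E : IntermediateField k Ω}
    (hE : PBasis p E s) {ε δ : ℝ} (hε : 0 ≤ ε) (hδ : p * ε < δ) (ho : Orth p v E s ε)
    (P : MvPolynomial (Fin n) k) (hP : MvPolynomial.aeval s P ≠ 0) (s' : Fin n → Ω)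
    (hs' : ∀ i, v.Ge δ (s' i / s i - 1)) :
    v.Ge (v (MvPolynomial.aeval s P) + δ - p * ε)
      (MvPolynomial.aeval s' P - MvPolynomial.aeval s P) := by
  classical
  have hp2 : (2 : ℝ) ≤ p := by exact_mod_cast (Fact.out : p.Prime).two_le
  set η : Fin n → Ω := fun i => s' i / s i - 1 with hη
  have hev : MvPolynomial.eval η (tay s P) = MvPolynomial.aeval s' P := by
    let f : MvPolynomial (Fin n) Ω →ₐ[k] Ω := (MvPolynomial.aeval η).restrictScalars k
    have h1 : f.comp (MvPolynomial.aeval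
        (fun i => MvPolynomial.C (s i) * (1 + MvPolynomial.X i))) = MvPolynomial.aeval s' := by
      ext i
      simp only [AlgHom.comp_apply, MvPolynomial.aeval_X, f, AlgHom.restrictScalars_apply, map_mul,
        map_add, map_one, MvPolynomial.aeval_C, hη]
      rw [Algebra.algebraMap_self, RingHom.id_apply]
      field_simp [hs i]
      ring
    exact DFunLike.congr_fun h1 P
  rw [← hev, ← P4.tay_zero, MvPolynomial.eval_eq']
  have h2 : (tay s P).coeff 0 = (tay s P).coeff 0 * ∏ i, η i ^ ((0 : Fin n →₀ ℕ) i) := by simp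
  by_cases h0 : (0 : Fin n →₀ ℕ) ∈ (tay s P).support
  · rw [← Finset.add_sum_erase _ _ h0, ← h2, add_sub_cancel_left, P4.tay_zero]
    refine RVal.Ge.sum _ _ fun m hm => ?_
    have hm0 : m ≠ 0 := Finset.ne_of_mem_erase hm
    have hm1 : (1 : ℝ) ≤ m.degree := by
      have : 1 ≤ m.degree := by
        rw [Nat.one_le_iff_ne_zero, Ne, Finsupp.degree_eq_zero_iff]
        exact hm0
      exact_mod_cast this
    have h3 := taylor_bound p hs hE hε ho P hP m
    have h4 : v.Ge (m.degree * δ) (∏ i, η i ^ m i) := by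
      have h5 := RVal.Ge.prod (v := v) (fun i => (m i : ℝ) * δ) Finset.univ (fun i => η i ^ m i)
        (fun i _ => by
          intro h6
          by_cases h7 : m i = 0
          · rw [h7, pow_zero, v.map_one, Nat.cast_zero, zero_mul]
          · have h8 : η i ≠ 0 := fun h => h6 (by rw [h, zero_pow h7])
            rw [v.map_pow h8]
            exact mul_le_mul_of_nonneg_left (hs' i h8) (by positivity))
      rw [← Finset.sum_mul] at h5
      rwa [Finsupp.degree_eq_sum, Nat.cast_sum]
    refine (RVal.Ge.mul h3 h4).mono ?_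
    nlinarith [mul_nonneg (sub_nonneg.2 hm1) (sub_nonneg.2 hδ.le)]
  · exfalso
    rw [MvPolynomial.notMem_support_iff, P4.tay_zero] at h0
    exact hP h0

end Pool.Agent.TW
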