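import Pool.Agent.Lib.TW.EDefs
import Pool.Agent.Lib.TW.P4a
import Pool.Agent.Lib.TW.H1
import Pool.Agent.Lib.TW.H2
import Pool.Agent.Lib.TW.Lam
import Pool.Agent.Lib.TW.Nak

/-!
# TANK W, NEARH: near coordinates have the same henselization
-/

set_option autoImplicit false

open Polynomial

namespace Pool.Agent.TW

open Pool.Agent.H15JM (RVal)
open Pool.Agent.LU1 (VPos adj)
open Pool.Agent.LUC (Cl clF lv)
open Pool.Agent.D2 (Ctx0)
open Pool.Agent.D2P (hen rootF)

universe u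

variable {k Ω : Type u} [Field k] [Field Ω] [Algebra k Ω] {v : RVal Ω} {r D : ℕ}


namespace NearHAux

theorem eval_tay {n : ℕ} (s' T : Fin n → Ω) (P : MvPolynomial (Fin n) k) :
    MvPolynomial.eval T (tay s' P) = MvPolynomial.aeval (fun i => s' i * (1 + T i)) P := by
  let f : MvPolynomial (Fin n) Ω →ₐ[k] Ω := (MvPolynomial.aeval T).restrictScalars k
  have h1 : f.comp (MvPolynomial.aeval fun i => MvPolynomial.C (s' i) * (1 + MvPolynomial.X i)) =
      MvPolynomial.aeval fun i => s' i * (1 + T i) := by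
    ext i
    simp [f]
  have h2 := DFunLike.congr_fun h1 P
  rw [← h2]
  simp [f, tay, MvPolynomial.aeval_eq_eval]

theorem coeff_tay_mem {n : ℕ} {E : IntermediateField k Ω} {s' : Fin n → Ω} (hs : ∀ i, s' i ∈ E)
    (P : MvPolynomial (Fin n) k) (m : Fin n →₀ ℕ) : (tay s' P).coeff m ∈ E := by
  let g : MvPolynomial (Fin n) E →ₐ[k] MvPolynomial (Fin n) Ω :=
    MvPolynomial.mapAlgHom E.val
  have h1 : g.comp (MvPolynomial.aeval fun i => MvPolynomial.C (⟨s' i, hs i⟩ : E) *
      (1 + MvPolynomial.X i)) =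
      MvPolynomial.aeval fun i => MvPolynomial.C (s' i) * (1 + MvPolynomial.X i) := by
    ext i
    simp [g]
  have h2 : tay s' P = g (MvPolynomial.aeval (fun i => MvPolynomial.C (⟨s' i, hs i⟩ : E) *
      (1 + MvPolynomial.X i)) P) := by
    rw [tay, ← h1]
    rfl
  rw [h2]
  simp only [g, MvPolynomial.mapAlgHom_apply, MvPolynomial.coeff_map]
  exact (MvPolynomial.coeff m _ : E).2

/-- `P(s) = P(s') u`, `u` a polynomial in `τ` with constant term `1`. -/
theorem exists_unit [IsAlgClosed k] (p : ℕ) [Fact p.Prime] [CharP k p] [CharP Ω p] {n : ℕ}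
    {s s' : Fin n → Ω} (hs' : ∀ i, s' i ≠ 0) {C : ℝ} (hC : 0 ≤ C)
    (hpb : PBasis p (kr k s') s') (ho : Orth p v (kr k s') s' C) {w₄ : Ω}
    (h₄ : w₄ ∈ kr k s') (h₄' : w₄ ≠ 0 ∧ p * C ≤ v w₄) {B : Subring Ω}
    (hB : ∀ a ∈ OV v (kr k s'), a ∈ B) {τ : Fin n → Ω} {c₃ : ℝ} (hc₃ : 0 < c₃)
    (hτ : ∀ i, v.Ge c₃ (τ i)) (hn : ∀ i, s i = s' i * (1 + w₄ * τ i))
    (P : MvPolynomial (Fin n) k) (hP : MvPolynomial.aeval s' P ≠ 0) :
    ∃ u ∈ Subring.closure ((B : Set Ω) ∪ Set.range τ), u ≠ 0 ∧ v u = 0 ∧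
      MvPolynomial.aeval s P = MvPolynomial.aeval s' P * u := by
  classical
  have hmem : ∀ i, s' i ∈ kr k s' := hpb.mem
  set a := MvPolynomial.aeval s' P with ha
  have haE : a ∈ kr k s' := P4.aeval_mem hmem P
  -- the coefficients
  set c : (Fin n →₀ ℕ) → Ω := fun m => (tay s' P).coeff m / a * w₄ ^ m.degree with hc
  have hcB : ∀ m, c m ∈ B := by
    intro m
    refine hB _ ⟨mul_mem (div_mem (coeff_tay_mem hmem P m) haE) (pow_mem h₄ _), fun h0 => ?_⟩
    have h1 : (tay s' P).coeff m ≠ 0 := by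
      intro h2
      apply h0
      simp only [hc, h2, zero_div, zero_mul]
    have h2 := taylor_bound p hs' hpb hC ho P hP m h1
    simp only [hc]
    rw [v.map_mul (div_ne_zero h1 hP) (pow_ne_zero _ h₄'.1), v.map_div h1 hP, v.map_pow h₄'.1]
    have h3 : (m.degree : ℝ) * (p * C) ≤ m.degree * v w₄ :=
      mul_le_mul_of_nonneg_left h₄'.2 (Nat.cast_nonneg _)
    have h4 : (p : ℝ) * m.degree * C = m.degree * (p * C) := by ring
    rw [← ha] at h2
    linarith
  have hsum : MvPolynomial.aeval s P / a = ∑ m ∈ (tay s' P).support, c m * ∏ i, τ i ^ m i := by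
    have h1 : MvPolynomial.aeval s P = MvPolynomial.eval (fun i => w₄ * τ i) (tay s' P) := by
      rw [eval_tay]
      congr 1
      congr 1
      funext i
      exact hn i
    rw [h1, MvPolynomial.eval_eq', Finset.sum_div]
    refine Finset.sum_congr rfl fun m _ => ?_
    have h2 : ∏ i, (w₄ * τ i) ^ m i = w₄ ^ m.degree * ∏ i, τ i ^ m i := by
      rw [Finsupp.degree_eq_sum, ← Finset.prod_pow_eq_pow_sum, ← Finset.prod_mul_distrib]
      exact Finset.prod_congr rfl fun i _ => mul_pow _ _ _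
    rw [h2]
    simp only [hc]
    ring
  have h0 : c 0 = 1 := by
    simp only [hc]
    rw [P4.tay_zero, ← ha, div_self hP, map_zero, pow_zero, one_mul]
  have h0' : (0 : Fin n →₀ ℕ) ∈ (tay s' P).support := by
    rw [MvPolynomial.mem_support_iff, P4.tay_zero]
    exact hP
  set u := MvPolynomial.aeval s P / a with hu
  have hu1 : v.Ge c₃ (u - 1) := by
    have h1 : u - 1 = ∑ m ∈ (tay s' P).support.erase 0, c m * ∏ i, τ i ^ m i := by
      rw [hsum, ← Finset.add_sum_erase _ _ h0', h0]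
      simp
    rw [h1]
    refine RVal.Ge.sum _ _ fun m hm => ?_
    have hm0 : m ≠ 0 := Finset.ne_of_mem_erase hm
    intro h2
    have h3 : c m ≠ 0 := left_ne_zero_of_mul h2
    have h4 : ∏ i, τ i ^ m i ≠ 0 := right_ne_zero_of_mul h2
    rw [v.map_mul h3 h4]
    have hcm : v.Ge 0 (c m) := by
      intro _
      simp only [hc] at h3 ⊢
      have h5 : (tay s' P).coeff m ≠ 0 := by
        intro h6
        apply h3
        rw [h6, zero_div, zero_mul]
      have h6 := taylor_bound p hs' hpb hC ho P hP m h5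
      rw [v.map_mul (div_ne_zero h5 hP) (pow_ne_zero _ h₄'.1), v.map_div h5 hP, v.map_pow h₄'.1]
      have h7 : (m.degree : ℝ) * (p * C) ≤ m.degree * v w₄ :=
        mul_le_mul_of_nonneg_left h₄'.2 (Nat.cast_nonneg _)
      have h8 : (p : ℝ) * m.degree * C = m.degree * (p * C) := by ring
      rw [← ha] at h6
      linarith
    have h5 := hcm h3
    have h6 : ∀ i, v.Ge (m i * c₃) (τ i ^ m i) := by
      intro i hi
      by_cases hmi : m i = 0
      · rw [hmi, pow_zero, v.map_one, Nat.cast_zero, zero_mul]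
      · have hτi : τ i ≠ 0 := fun h7 => hi (by rw [h7, zero_pow hmi])
        rw [v.map_pow hτi]
        exact mul_le_mul_of_nonneg_left (hτ i hτi) (Nat.cast_nonneg _)
    have h7 := RVal.Ge.prod (v := v) (fun i => (m i : ℝ) * c₃) Finset.univ (fun i => τ i ^ m i)
      (fun i _ => h6 i) h4
    rw [← Finset.sum_mul, ← Nat.cast_sum, ← Finsupp.degree_eq_sum] at h7
    have h8 : (1 : ℝ) ≤ m.degree := by
      have : 0 < m.degree := Nat.pos_of_ne_zero fun h9 => hm0 ((Finsupp.degree_eq_zero_iff m).1 h9)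
      exact_mod_cast this
    nlinarith
  have hu0 : u ≠ 0 := by
    intro h1
    rw [h1, zero_sub] at hu1
    have h2 := hu1 (neg_ne_zero.2 one_ne_zero)
    rw [v.map_neg_one] at h2
    linarith
  have hvu : v u = 0 := by
    by_cases h1 : u - 1 = 0
    · rw [sub_eq_zero.1 h1, v.map_one]
    · have h2 := hu1 h1
      have h3 := (v.add_of_lt one_ne_zero h1 (by rw [v.map_one]; linarith)).2
      rw [add_sub_cancel, v.map_one] at h3
      exact h3
  refine ⟨u, ?_, hu0, hvu, ?_⟩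
  · have hτm : ∀ i, τ i ∈ Subring.closure ((B : Set Ω) ∪ Set.range τ) := fun i =>
      Subring.subset_closure (Or.inr ⟨i, rfl⟩)
    have hcm : ∀ m, c m ∈ Subring.closure ((B : Set Ω) ∪ Set.range τ) := fun m =>
      Subring.subset_closure (Or.inl (hcB m))
    rw [hsum]
    exact sum_mem fun m _ => mul_mem (hcm m) (prod_mem fun i _ => pow_mem (hτm i) _)
  · rw [hu, mul_div_cancel₀ _ hP]

end NearHAux

open NearHAux in
theorem hensA_near [IsAlgClosed Ω] [IsAlgClosed k] (p : ℕ) [Fact p.Prime] [CharP k p]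
    [CharP Ω p] (h : Ctx0 k v) {n : ℕ} {s s' : Fin n → Ω} (hs : ∀ i, s i ≠ 0)
    (hs' : ∀ i, s' i ≠ 0) {C : ℝ} (hC : 0 ≤ C) (hpb : PBasis p (kr k s') s')
    (ho : Orth p v (kr k s') s' C) {w₃ w₄ : Ω} (h₃ : w₃ ∈ kr k s') (h₄ : w₄ ∈ kr k s')
    (h₃' : w₃ ≠ 0 ∧ 0 < v w₃) (h₄' : w₄ ≠ 0 ∧ p * C ≤ v w₄) {U : Set Ω}
    (hU : ∀ u ∈ U, v.Ge 0 u)
    (hn : ∀ i, ∃ a ∈ hensA v (Subring.closure ((OV v (kr k s) : Set Ω) ∪ U)),
      s i = s' i * (1 + w₃ * w₄ * a)) :
    ∀ a ∈ OV v (kr k s), a ∈ hensA v (Subring.closure ((OV v (kr k s') : Set Ω) ∪ U)) := by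
  classical
  have hcl : ∀ E : IntermediateField k Ω, ∀ a ∈ Subring.closure ((OV v E : Set Ω) ∪ U),
      v.Ge 0 a := by
    intro E a ha
    have hle : Subring.closure ((OV v E : Set Ω) ∪ U) ≤ OVt v := by
      rw [Subring.closure_le]
      rintro x (hx | hx)
      · exact hx.2
      · exact hU x hx
    exact hle ha
  set B := hensA v (Subring.closure ((OV v (kr k s') : Set Ω) ∪ U)) with hB
  have hBH : HClosed v B := hclosed_hensA (hcl _)
  have hOB : ∀ a ∈ OV v (kr k s'), a ∈ B := fun a ha =>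
    le_hensA _ (Subring.subset_closure (Or.inl ha))
  have hUB : ∀ a ∈ U, a ∈ B := fun a ha => le_hensA _ (Subring.subset_closure (Or.inr ha))
  choose a ha hsa using hn
  have ha0 : ∀ i, v.Ge 0 (a i) := fun i => (hclosed_hensA (hcl _)).nonneg _ (ha i)
  set τ : Fin n → Ω := fun i => w₃ * a i with hτ
  have hτ3 : ∀ i, v.Ge (v w₃) (τ i) := fun i => by
    have h1 := (RVal.ge_self (v := v) w₃).mul (ha0 i)
    rwa [add_zero] at h1
  have hτ0 : ∀ i, v.Ge 0 (τ i) := fun i => (hτ3 i).mono h₃'.2.le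
  have hw3 : w₃ ∈ B := hOB _ ⟨h₃, fun _ => h₃'.2.le⟩
  set S' := Subring.closure ((B : Set Ω) ∪ Set.range τ) with hS'
  have hS0 : ∀ a ∈ S', v.Ge 0 a := by
    intro a ha
    have hle : S' ≤ OVt v := by
      rw [hS', Subring.closure_le]
      rintro x (hx | ⟨i, rfl⟩)
      · exact hBH.nonneg x hx
      · exact hτ0 i
    exact hle ha
  have hB'H : HClosed v (hensA v S') := hclosed_hensA hS0
  have hsn : ∀ i, s i = s' i * (1 + w₄ * τ i) := fun i => by
    rw [hsa i]
    simp only [hτ]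
    ring
  -- `OV k(s)` is contained in `hensA S'`
  have hO : ∀ b ∈ OV v (kr k s), b ∈ hensA v S' := by
    rintro b ⟨hb, hb0⟩
    obtain ⟨P, Q, rfl⟩ := (IntermediateField.mem_adjoin_range_iff k s b).1 hb
    by_cases hz : MvPolynomial.aeval s P / MvPolynomial.aeval s Q = 0
    · rw [hz]
      exact zero_mem _
    have hPs : MvPolynomial.aeval s P ≠ 0 := fun h1 => hz (by rw [h1, zero_div])
    have hQs : MvPolynomial.aeval s Q ≠ 0 := fun h1 => hz (by rw [h1, div_zero])
    have hne : ∀ R : MvPolynomial (Fin n) k, MvPolynomial.aeval s R ≠ 0 →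
        MvPolynomial.aeval s' R ≠ 0 := by
      intro R hR h1
      apply hR
      rw [P4.aeval_eq_zero p hpb _ R le_rfl h1, map_zero]
    obtain ⟨u, hu, hu0, hvu, he⟩ := exists_unit p hs' hC hpb ho h₄ h₄' hOB h₃'.2 hτ3 hsn P
      (hne P hPs)
    obtain ⟨w, hw, hw0, hvw, he'⟩ := exists_unit p hs' hC hpb ho h₄ h₄' hOB h₃'.2 hτ3 hsn Q
      (hne Q hQs)
    have hPs' := hne P hPs
    have hQs' := hne Q hQs
    have hval : v.Ge 0 (MvPolynomial.aeval s' P / MvPolynomial.aeval s' Q) := by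
      intro _
      have h1 := hb0 hz
      rw [v.map_div hPs hQs, he, he', v.map_mul hPs' hu0, v.map_mul hQs' hw0, hvu, hvw] at h1
      rw [v.map_div hPs' hQs']
      linarith
    have hmem : MvPolynomial.aeval s' P / MvPolynomial.aeval s' Q ∈ B :=
      hOB _ ⟨div_mem (P4.aeval_mem hpb.mem P) (P4.aeval_mem hpb.mem Q), hval⟩
    have h2 : MvPolynomial.aeval s P / MvPolynomial.aeval s Q =
        (MvPolynomial.aeval s' P / MvPolynomial.aeval s' Q) * (u * w⁻¹) := by
      rw [he, he']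
      field_simp
    rw [h2]
    exact mul_mem (le_hensA _ (Subring.subset_closure (Or.inl hmem)))
      (mul_mem (le_hensA _ hu) (hB'H.inv w (le_hensA _ hw) hw0 hvw))
  have haS : ∀ i, a i ∈ hensA v S' := by
    intro i
    refine hensA_le ?_ hB'H (ha i)
    rw [Subring.closure_le]
    rintro x (hx | hx)
    · exact hO x hx
    · exact le_hensA _ (Subring.subset_closure (Or.inl (hUB x hx)))
  have hτB := mem_of_nak h hBH τ hτ0 hw3 (fun _ => h₃'.2) fun i => ⟨a i, haS i, rfl⟩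
  have hS'B : S' ≤ B := by
    rw [hS', Subring.closure_le]
    rintro x (hx | ⟨i, rfl⟩)
    · exact hx
    · exact hτB i
  exact fun b hb => hensA_le hS'B hBH (hO b hb)

theorem hen_near [IsAlgClosed Ω] [IsAlgClosed k] (p : ℕ) [Fact p.Prime] [CharP k p]
    [CharP Ω p] (h : Ctx0 k v) {n : ℕ} {s s' : Fin n → Ω} (hs : ∀ i, s i ≠ 0) {C : ℝ}
    (hC : 0 ≤ C) (hpb : PBasis p (kr k s) s) (ho : Orth p v (kr k s) s C) {w₃ w₄ : Ω}
    (h₃ : w₃ ∈ kr k s) (h₄ : w₄ ∈ kr k s) (h₃' : w₃ ≠ 0 ∧ 0 < v w₃)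
    (h₄' : w₄ ≠ 0 ∧ p * C ≤ v w₄) (hmem : ∀ i, s' i ∈ hen v (kr k s))
    (hn : ∀ i, v.Ge (v w₃ + v w₄) (s' i / s i - 1)) :
    hen v (kr k s') = hen v (kr k s) := by
  classical
  have hhen : hen v (hen v (kr k s)) = hen v (kr k s) := D2P.hen_hen _
  have hδ : p * C < v w₃ + v w₄ := by linarith [h₃'.2, h₄'.2]
  have hN := Near.of_orth p h hs hpb hC hδ ho s' hn
  have hind : AlgebraicIndependent k s := by
    rw [algebraicIndependent_iff]
    intro P hP
    exact P4.aeval_eq_zero p hpb _ P le_rfl hP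
  obtain ⟨φ, hφ, hφv, hφm, -⟩ := hN.exists_hom hind
  have hφ0 : ∀ u : kr k s, (u : Ω) ≠ 0 → φ u ≠ 0 ∧ v (φ u) = v (u : Ω) := by
    intro u hu
    have h1 := hφv u hu
    have h2 : φ u = u + (φ u - u) := by ring
    by_cases h3 : φ u - u = 0
    · rw [sub_eq_zero.1 h3]
      exact ⟨hu, rfl⟩
    · have h4 := v.add_of_lt hu h3 (by have := h1 h3; linarith [hN.pos])
      rw [← h2] at h4
      exact h4
  have hv1 : ∀ i, s' i ≠ 0 ∧ v (s' i) = v (s i) := by
    intro i
    have := hφ0 ⟨s i, hpb.mem i⟩ (hs i)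
    rwa [hφ i (hpb.mem i)] at this
  apply le_antisymm
  · refine D2P.hen_le hhen ?_
    rw [IntermediateField.adjoin_le_iff]
    rintro x ⟨i, rfl⟩
    exact hmem i
  · refine D2P.hen_le (D2P.hen_hen _) ?_
    rw [IntermediateField.adjoin_le_iff]
    rintro x ⟨i, rfl⟩
    have hw3 := hφ0 ⟨w₃, h₃⟩ h₃'.1
    have hw4 := hφ0 ⟨w₄, h₄⟩ h₄'.1
    have hH2 := hensA_OV h (kr k s) ⟨w₃, h₃, h₃'⟩
    have hH2' := hensA_OV h (kr k s') ⟨φ ⟨w₃, h₃⟩, hφm _, hw3.1, by rw [hw3.2]; exact h₃'.2⟩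
    have key := hensA_near (v := v) p h (s := s) (s' := s') hs (fun i => (hv1 i).1) hC
      (hN.pbasis p hind hpb) (hN.orth p hind ho) (w₃ := φ ⟨w₃, h₃⟩) (w₄ := φ ⟨w₄, h₄⟩) (hφm _)
      (hφm _) ⟨hw3.1, by rw [hw3.2]; exact h₃'.2⟩ ⟨hw4.1, by rw [hw4.2]; exact h₄'.2⟩ (U := ∅)
      (by simp) (fun i => by
        refine ⟨(s i / s' i - 1) / (φ ⟨w₃, h₃⟩ * φ ⟨w₄, h₄⟩), ?_, ?_⟩
        · rw [Set.union_empty, Subring.closure_eq, hH2]
          have hkr : ∀ x ∈ kr k s', x ∈ hen v (kr k s) := by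
            intro x hx
            have hle : kr k s' ≤ hen v (kr k s) := by
              rw [IntermediateField.adjoin_le_iff]
              rintro y ⟨j, rfl⟩
              exact hmem j
            exact hle hx
          refine ⟨div_mem (sub_mem (div_mem (D2P.le_hen _ (hpb.mem i)) (hmem i)) (one_mem _))
            (mul_mem (hkr _ (hφm _)) (hkr _ (hφm _))), fun h0 => ?_⟩
          have h1 : s i / s' i - 1 ≠ 0 := fun h2 => h0 (by rw [h2, zero_div])
          rw [v.map_div h1 (mul_ne_zero hw3.1 hw4.1), v.map_mul hw3.1 hw4.1, hw3.2, hw4.2]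
          have h2 : s i / s' i - 1 = -((s' i / s i - 1) * (s i / s' i)) := by
            have := (hv1 i).1
            have := hs i
            field_simp
            ring
          have h3 : s' i / s i - 1 ≠ 0 := by
            intro h4
            rw [h2, h4, zero_mul, neg_zero] at h1
            exact h1 rfl
          rw [h2, v.map_neg _ (mul_ne_zero h3 (div_ne_zero (hs i) (hv1 i).1)),
            v.map_mul h3 (div_ne_zero (hs i) (hv1 i).1), v.map_div (hs i) (hv1 i).1, (hv1 i).2]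
          have := hn i h3
          simp only at this ⊢
          linarith
        · have := (hv1 i).1
          have := hw3.1
          have := hw4.1
          field_simp
          ring)
    have key' : ∀ b ∈ OV v (kr k s), b ∈ hen v (kr k s') := by
      intro b hb
      have h1 := key b hb
      rw [Set.union_empty, Subring.closure_eq, hH2'] at h1
      exact h1.1
    rcases le_total 0 (v (s i)) with h1 | h1
    · exact key' _ ⟨hpb.mem i, fun _ => h1⟩
    · have h2 := key' _ ⟨inv_mem (hpb.mem i), fun _ => by rw [v.map_inv (hs i)]; linarith⟩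
      have h3 := inv_mem h2
      rwa [inv_inv] at h3

end Pool.Agent.TW
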