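import Pool.Agent.Lib.TW.EDefs
import Pool.Agent.Lib.TW.H1
import Mathlib.RingTheory.Polynomial.IsIntegral

/-!
# TANK W, row E8, preliminaries: polynomial rings over normal rings are normal
-/

set_option autoImplicit false

open Polynomial

namespace Pool.Agent.TW

open Pool.Agent.H15JM (RVal)
open Pool.Agent.LU1 (VPos adj)

universe u

section

variable {Ω : Type u} [Field Ω] {v : RVal Ω}

/-- An element of `Ω`, quotient of elements of the image of an integrally closed domain and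
integral over it, is in the image. -/
theorem mem_range_of_integral {S : Type*} [CommRing S] [IsDomain S] [IsIntegrallyClosed S]
    (ψ : S →+* Ω) (hψ : Function.Injective ψ) {f : Ω} {a b : S}
    (hf : f = ψ a / ψ b) (hi : ψ.IsIntegralElem f) : ∃ s, ψ s = f := by
  let _ : Algebra S Ω := ψ.toAlgebra
  have hinj : Function.Injective (algebraMap S Ω) := hψ
  let ι : FractionRing S →ₐ[S] Ω := IsFractionRing.liftAlgHom (g := Algebra.ofId S Ω) hinj
  let x : FractionRing S := algebraMap S _ a / algebraMap S _ b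
  have hx : ι x = f := by
    rw [hf, map_div₀, AlgHom.commutes, AlgHom.commutes]
    rfl
  have h1 : IsIntegral S x := by
    have h2 : IsIntegral S (ι x) := by rw [hx]; exact hi
    exact (isIntegral_algHom_iff ι ι.toRingHom.injective).1 h2
  obtain ⟨s, hs⟩ := IsIntegrallyClosed.algebraMap_eq_of_integral h1
  refine ⟨s, ?_⟩
  rw [← hx, ← hs, AlgHom.commutes]
  rfl

/-- A subring of `Ω` which is normal in the elementary sense is integrally closed. -/
theorem isIntegrallyClosed_of {B : Subring Ω} (hB : ∀ f, InFrac B f → IsIntegral B f → f ∈ B) :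
    IsIntegrallyClosed B := by
  rw [isIntegrallyClosed_iff (FractionRing B)]
  intro x hx
  let ι : FractionRing B →ₐ[B] Ω :=
    IsFractionRing.liftAlgHom (g := Algebra.ofId B Ω) Subtype.val_injective
  obtain ⟨a, b, hb, rfl⟩ := IsFractionRing.div_surjective (A := B) x
  have h1 : InFrac B (ι (algebraMap B _ a / algebraMap B _ b)) := by
    refine ⟨a, a.2, b, b.2, ?_, ?_⟩
    · intro h
      exact nonZeroDivisors.ne_zero hb (Subtype.ext h)
    · rw [map_div₀, AlgHom.commutes, AlgHom.commutes]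
      rfl
  have h2 := hB _ h1 (hx.map ι)
  refine ⟨⟨_, h2⟩, ι.toRingHom.injective ?_⟩
  change ι (algebraMap B _ _) = ι _
  rw [AlgHom.commutes]
  rfl

/-- A polynomial ring over a normal ring is normal. -/
theorem normal_poly {B : Subring Ω} (hB : ∀ f, InFrac B f → IsIntegral B f → f ∈ B) {X : Ω}
    (hX : Transcendental B X) {f : Ω} (hf : InFrac (Subring.closure ((B : Set Ω) ∪ {X})) f)
    (hi : IsIntegral (Subring.closure ((B : Set Ω) ∪ {X})) f) :
    f ∈ Subring.closure ((B : Set Ω) ∪ {X}) := by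
  have := isIntegrallyClosed_of hB
  let ψ : B[X] →+* Ω := (aeval X : B[X] →ₐ[B] Ω).toRingHom
  have hψ : Function.Injective ψ := transcendental_iff_injective.1 hX
  have hrange : Subring.closure ((B : Set Ω) ∪ {X}) = ψ.range := by
    apply le_antisymm
    · rw [Subring.closure_le]
      rintro x (hx | hx)
      · exact ⟨Polynomial.C ⟨x, hx⟩, by
          change aeval X (Polynomial.C _) = x
          rw [aeval_C]; rfl⟩
      · rw [Set.mem_singleton_iff.1 hx]
        exact ⟨Polynomial.X, by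
          change aeval X Polynomial.X = X
          rw [aeval_X]⟩
    · rintro _ ⟨P, rfl⟩
      have h0 : ψ P = ∑ i ∈ Finset.range (P.natDegree + 1), P.coeff i • X ^ i :=
        aeval_eq_sum_range X
      rw [h0]
      refine Subring.sum_mem _ fun i _ => ?_
      rw [Algebra.smul_def]
      have h1 : algebraMap B Ω (P.coeff i) ∈ Subring.closure ((B : Set Ω) ∪ {X}) :=
        Subring.subset_closure (Set.mem_union_left _ (P.coeff i).2)
      have h2 : X ∈ Subring.closure ((B : Set Ω) ∪ {X}) :=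
        Subring.subset_closure (Set.mem_union_right _ rfl)
      exact Subring.mul_mem _ h1 (Subring.pow_mem _ h2 _)
  rw [hrange] at hf hi ⊢
  obtain ⟨_, ⟨a, rfl⟩, _, ⟨b, rfl⟩, hb, hfe⟩ := hf
  refine mem_range_of_integral ψ hψ hfe ?_
  obtain ⟨P, hP, hP0⟩ := hi
  -- lift the polynomial
  have h1 : P.map ψ.range.subtype ∈ lifts ψ := by
    rw [lifts_iff_coeff_lifts]
    intro i
    rw [coeff_map]
    exact (P.coeff i).2
  obtain ⟨Q, hQ, hQd, hQm⟩ := lifts_and_natDegree_eq_and_monic h1 (hP.map _)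
  refine ⟨Q, hQm, ?_⟩
  rw [← eval_map, hQ, eval_map]
  exact hP0

/-- The field of fractions in `Ω`. -/
def fracF (B : Subring Ω) : Subfield Ω where
  carrier := {f | InFrac B f}
  mul_mem' := by
    rintro f g ⟨a, ha, b, hb, hb0, rfl⟩ ⟨c, hc, d, hd, hd0, rfl⟩
    exact ⟨a * c, B.mul_mem ha hc, b * d, B.mul_mem hb hd, mul_ne_zero hb0 hd0, by
      rw [div_mul_div_comm]⟩
  one_mem' := ⟨1, B.one_mem, 1, B.one_mem, one_ne_zero, by rw [div_one]⟩
  add_mem' := by
    rintro f g ⟨a, ha, b, hb, hb0, rfl⟩ ⟨c, hc, d, hd, hd0, rfl⟩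
    exact ⟨a * d + b * c, B.add_mem (B.mul_mem ha hd) (B.mul_mem hb hc), b * d,
      B.mul_mem hb hd, mul_ne_zero hb0 hd0, by rw [div_add_div _ _ hb0 hd0]⟩
  zero_mem' := ⟨0, B.zero_mem, 1, B.one_mem, one_ne_zero, by rw [zero_div]⟩
  neg_mem' := by
    rintro f ⟨a, ha, b, hb, hb0, rfl⟩
    exact ⟨-a, B.neg_mem ha, b, hb, hb0, by rw [neg_div]⟩
  inv_mem' := by
    rintro f ⟨a, ha, b, hb, hb0, rfl⟩
    by_cases ha0 : a = 0
    · exact ⟨0, B.zero_mem, 1, B.one_mem, one_ne_zero, by rw [ha0]; simp⟩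
    · exact ⟨b, hb, a, ha, ha0, by rw [inv_div]⟩

theorem mem_fracF {B : Subring Ω} {f : Ω} : f ∈ fracF B ↔ InFrac B f := Iff.rfl

theorem le_fracF {B : Subring Ω} {f : Ω} (hf : f ∈ B) : f ∈ fracF B :=
  ⟨f, hf, 1, B.one_mem, one_ne_zero, by rw [div_one]⟩

/-- A common denominator. -/
theorem exists_den {B : Subring Ω} {ι : Type*} (s : Finset ι) (c : ι → Ω)
    (hc : ∀ i ∈ s, InFrac B (c i)) : ∃ δ ∈ B, δ ≠ 0 ∧ ∀ i ∈ s, δ * c i ∈ B := by
  classical
  induction s using Finset.induction_on with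
  | empty => exact ⟨1, B.one_mem, one_ne_zero, fun i hi => absurd hi (Finset.notMem_empty i)⟩
  | insert j s hj ih =>
    obtain ⟨δ, hδ, hδ0, h1⟩ := ih fun i hi => hc i (Finset.mem_insert_of_mem hi)
    obtain ⟨a, ha, b, hb, hb0, h2⟩ := hc j (Finset.mem_insert_self j s)
    refine ⟨δ * b, B.mul_mem hδ hb, mul_ne_zero hδ0 hb0, fun i hi => ?_⟩
    rcases Finset.mem_insert.1 hi with rfl | hi
    · have : δ * b * c i = δ * a := by rw [h2]; field_simp
      rw [this]
      exact B.mul_mem hδ ha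
    · have : δ * b * c i = b * (δ * c i) := by ring
      rw [this]
      exact B.mul_mem hb (h1 i hi)

/-- An element which is, up to arbitrarily high powers of `w`, in a finite module over `B` modulo
`B`, is in the field of fractions of `B`. -/
theorem infrac_of_apx {B : Subring Ω} (hB : ∀ a ∈ B, v.Ge 0 a) {f w y : Ω} (hw : w ∈ B)
    (hw0 : w ≠ 0) (hwv : 0 < v w) {e : ℕ} (H : ∀ n : ℕ, ∃ τ ∈ B, ∃ a : Fin e → Ω,
      (∀ i, a i ∈ B) ∧ f = τ + w ^ n * ∑ i, a i * y ^ (i : ℕ)) : InFrac B f := by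
  by_contra hf
  let K := fracF B
  let p : Submodule K Ω := Submodule.span K {1}
  have hfp : f ∉ p := by
    intro h1
    obtain ⟨c, hc⟩ := Submodule.mem_span_singleton.1 h1
    apply hf
    rw [← hc]
    have : c • (1 : Ω) = (c : Ω) := mul_one (c : Ω)
    rw [this]
    exact c.2
  obtain ⟨l, hl, hlp⟩ := Submodule.exists_le_ker_of_notMem hfp
  have h1 : l 1 = 0 := hlp (Submodule.mem_span_singleton_self 1)
  have hlK : ∀ (c : Ω) (hc : c ∈ K) (x : Ω), l (c * x) = (⟨c, hc⟩ : K) * l x := by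
    intro c hc x
    exact l.map_smul (⟨c, hc⟩ : K) x
  have hlB : ∀ (c : Ω) (hc : c ∈ B) (x : Ω), l (c * x) = (⟨c, le_fracF hc⟩ : K) * l x :=
    fun c hc x => hlK c (le_fracF hc) x
  obtain ⟨δ, hδ, hδ0, h2⟩ := exists_den (B := B) (Finset.univ : Finset (Option (Fin e)))
    (fun o => o.elim (((l f)⁻¹ : K) : Ω) fun i => ((((l f)⁻¹ * l (y ^ (i : ℕ))) : K) : Ω))
    (fun o _ => by cases o with
      | none => exact ((l f)⁻¹).2
      | some i => exact ((l f)⁻¹ * l (y ^ (i : ℕ))).2)
  have h3 : ∀ n : ℕ, v.Ge (n * v w) δ := by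
    intro n
    obtain ⟨τ, hτ, a, ha, e1⟩ := H n
    have h4 : l f = (⟨w ^ n, le_fracF (B.pow_mem hw n)⟩ : K) *
        ∑ i, (⟨a i, le_fracF (ha i)⟩ : K) * l (y ^ (i : ℕ)) := by
      have h5 := congrArg l e1
      rw [map_add, hlB _ (B.pow_mem hw n), map_sum] at h5
      have h6 : l τ = 0 := by
        have := hlB τ hτ 1
        rw [mul_one, h1, mul_zero] at this
        exact this
      rw [h6, zero_add] at h5
      rw [h5]
      congr 1
      exact Finset.sum_congr rfl fun i _ => hlB _ (ha i) _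
    have h7 : δ = w ^ n * ∑ i, a i * (δ * (((l f)⁻¹ * l (y ^ (i : ℕ)) : K) : Ω)) := by
      have h8 := congrArg (fun x : K => ((((l f)⁻¹ * x : K)) : Ω)) h4
      beta_reduce at h8
      rw [inv_mul_cancel₀ hl] at h8
      push_cast at h8
      rw [Finset.mul_sum, Finset.mul_sum] at h8
      have h9 : δ = δ * 1 := (mul_one δ).symm
      rw [h9]
      nth_rewrite 1 [h8]
      rw [Finset.mul_sum, Finset.mul_sum]
      refine Finset.sum_congr rfl fun i _ => ?_
      push_cast
      ring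
    have h10 : v.Ge (n * v w + 0)
        (w ^ n * ∑ i, a i * (δ * (((l f)⁻¹ * l (y ^ (i : ℕ)) : K) : Ω))) := by
      refine RVal.Ge.mul ?_ (hB _ (B.sum_mem fun i _ => B.mul_mem (ha i)
        (h2 (some i) (Finset.mem_univ _))))
      intro _
      rw [v.map_pow hw0]
    rw [add_zero, ← h7] at h10
    exact h10
  obtain ⟨n, hn⟩ := exists_nat_gt (v δ / v w)
  have h4 := h3 n hδ0
  rw [div_lt_iff₀ hwv] at hn
  linarith

end

end Pool.Agent.TW
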