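import Pool.Agent.Lib.TW.BA
import Pool.Agent.Lib.TW.E8a
import Pool.Agent.Lib.TW.P1
import Pool.Agent.Lib.TW.P2a
import Pool.Agent.Lib.TW.H2

/-!
# TANK W, row UP: change of the `p`-basis; local uniformization goes up to fields with the same
henselization
-/

set_option autoImplicit false

open Polynomial

namespace Pool.Agent.TW

open Pool.Agent.H15JM (RVal)
open Pool.Agent.LU1 (VPos adj)
open Pool.Agent.D2 (Ctx0)
open Pool.Agent.LUC (Cl clF)
open Pool.Agent.D2P (hen mem_hen)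

universe u

variable {k Ω : Type u} [Field k] [Field Ω] [Algebra k Ω] {v : RVal Ω} {r D : ℕ}

namespace Up

theorem Mono.inHx {F : Fr k v r D} {f : Ω} (hf : F.Mono f) : F.InHx f := by
  obtain ⟨l, w, hw, -, -, rfl⟩ := hf
  refine ⟨-l, ?_⟩
  rw [P1.mx_neg F.x_ne, inv_mul_cancel_left₀ (P1.mx_ne F.x_ne l)]
  exact hw

theorem InHx.zero {F : Fr k v r D} : F.InHx 0 := ⟨0, by rw [mul_zero]; exact zero_mem _⟩

theorem InHx.mul {F : Fr k v r D} {f g : Ω} (hf : F.InHx f) (hg : F.InHx g) :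
    F.InHx (f * g) := by
  obtain ⟨l, hl⟩ := hf
  obtain ⟨l', hl'⟩ := hg
  refine ⟨l + l', ?_⟩
  rw [P1.mx_add F.x_ne, mul_mul_mul_comm]
  exact mul_mem hl hl'

theorem InHx.sum {F : Fr k v r D} {ι : Type*} (S : Finset ι) {f : ι → Ω}
    (hf : ∀ i ∈ S, F.InHx (f i)) : F.InHx (∑ i ∈ S, f i) := by
  classical
  induction S using Finset.induction_on with
  | empty => rw [Finset.sum_empty]; exact InHx.zero
  | insert a S ha ih =>
    rw [Finset.sum_insert ha]
    exact P1.InHx.add (hf a (Finset.mem_insert_self a S))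
      (ih fun i hi => hf i (Finset.mem_insert_of_mem hi))

end Up

/-- A change of the `p`-basis. -/
theorem LU_of_one (p : ℕ) [Fact p.Prime] [CharP Ω p] (_h : Ctx k v r)
    {E : IntermediateField k Ω} {t₀ : Fin (r + D) → Ω} (ht₀ : PBasis p E t₀)
    (H : ∀ Z : Finset Ω, (∀ z ∈ Z, z ∈ E ∧ z ≠ 0) →
      ∃ F : Fr k v r D, F.IsFr E ∧ (∀ z ∈ Z, F.Mono z) ∧ F.PC p t₀) : LU p v r E := by
  classical
  intro D' t ht Z hZ
  have hD : D' = D := by
    have h1 := Bas.card Qp_le' ht.bas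
    have h2 := Bas.card Qp_le' ht₀.bas
    rw [← h2] at h1
    simp only [Fintype.card_fun, Fintype.card_fin] at h1
    have h3 := Nat.pow_right_injective (Fact.out : p.Prime).two_le h1
    omega
  subst hD
  have hmonE : ∀ α : Fin (r + D') → Fin p, mon t₀ α ∈ E := fun α =>
    prod_mem fun i _ => pow_mem (ht₀.mem i) _
  choose d hd hdm using fun α => ht.span (mon t₀ α) (hmonE α)
  let S₁ : Finset Ω := (Finset.univ.image fun x : (Fin (r + D') → Fin p) × (Fin (r + D') → Fin p) =>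
    d x.1 x.2).filter fun z => z ≠ 0
  let S₂ : Finset Ω := (Finset.univ.image t).filter fun z => z ≠ 0
  obtain ⟨F, hF, hM, hpc⟩ := H (Z ∪ (S₁ ∪ S₂)) (by
    intro z hz
    rcases Finset.mem_union.1 hz with hz | hz
    · exact hZ z hz
    rcases Finset.mem_union.1 hz with hz | hz
    · obtain ⟨h1, h2⟩ := Finset.mem_filter.1 hz
      obtain ⟨x, -, rfl⟩ := Finset.mem_image.1 h1
      exact ⟨hd _ _, h2⟩
    · obtain ⟨h1, h2⟩ := Finset.mem_filter.1 hz
      obtain ⟨i, -, rfl⟩ := Finset.mem_image.1 h1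
      exact ⟨ht.mem i, h2⟩)
  have hd' : ∀ α β, F.InHx (d α β) := by
    intro α β
    by_cases h0 : d α β = 0
    · rw [h0]; exact Up.InHx.zero
    · refine Up.Mono.inHx (hM _ (Finset.mem_union_right _ (Finset.mem_union_left _
        (Finset.mem_filter.2 ⟨Finset.mem_image.2 ⟨(α, β), Finset.mem_univ _, rfl⟩, h0⟩))))
  refine ⟨F, hF, fun z hz => hM z (Finset.mem_union_left _ hz), ⟨fun i => ?_, fun f hf => ?_⟩⟩
  · by_cases h0 : t i = 0
    · rw [h0]; exact Up.InHx.zero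
    · exact Up.Mono.inHx (hM _ (Finset.mem_union_right _ (Finset.mem_union_right _
        (Finset.mem_filter.2 ⟨Finset.mem_image.2 ⟨i, Finset.mem_univ _, rfl⟩, h0⟩))))
  · obtain ⟨c, hc, hfc⟩ := hpc.span f hf
    refine ⟨fun β => ∑ α, c α * d α β, fun β => ?_, ?_⟩
    · exact Up.InHx.sum _ fun α _ => Up.InHx.mul (hc α) (hd' α β)
    · rw [hfc]
      unfold pcomb
      have h1 : ∀ α, c α ^ p * mon t₀ α = ∑ β, (c α * d α β) ^ p * mon t β := by
        intro α
        rw [hdm α, pcomb, Finset.mul_sum]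
        exact Finset.sum_congr rfl fun β _ => by rw [mul_pow]; ring
      rw [Finset.sum_congr rfl fun α _ => h1 α, Finset.sum_comm]
      refine Finset.sum_congr rfl fun β _ => ?_
      rw [pow_sum, Finset.sum_mul]

/-- The elements of value `≥ 0` of the henselization of `E₀` are in every frame in which finitely
many elements of `E₀` are monomials. -/
theorem Up.exists_fin [IsAlgClosed Ω] (h : Ctx k v r) {E₀ : IntermediateField k Ω}
    (hpos : ∃ a ∈ E₀, a ≠ 0 ∧ 0 < v a) {e : Ω} (he : e ∈ hen v E₀) (he0 : v.Ge 0 e) :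
    ∃ T : Finset Ω, (∀ z ∈ T, z ∈ E₀ ∧ z ≠ 0) ∧
      ∀ F : Fr k v r D, (∀ z ∈ T, F.Mono z) → e ∈ F.H := by
  classical
  have h1 : e ∈ hensA v (OV v E₀) := by
    rw [hensA_OV h.toCtx0 E₀ hpos]
    exact ⟨he, he0⟩
  have h2 : Subring.closure ((OV v E₀ : Subring Ω) : Set Ω) = OV v E₀ := Subring.closure_eq _
  obtain ⟨T, hT, heT⟩ := hensA_finite (v := v) (S := ((OV v E₀ : Subring Ω) : Set Ω)) (f := e)
    (by
      intro a ha
      rw [h2] at ha
      exact ha.2) (by rw [h2]; exact h1)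
  refine ⟨T.filter fun z => z ≠ 0, ?_, ?_⟩
  · intro z hz
    obtain ⟨h3, h4⟩ := Finset.mem_filter.1 hz
    exact ⟨(hT h3).1, h4⟩
  · intro F hF
    refine hensA_le ?_ (F.hclosed h) heT
    rw [Subring.closure_le]
    intro z hz
    by_cases h0 : z = 0
    · rw [h0]; exact zero_mem _
    · exact P2.Mono.mem (hF z (Finset.mem_filter.2 ⟨hz, h0⟩)) ((hT hz).2 h0)

/-- **Local uniformization goes up to fields with the same henselization.** -/
theorem LU.up [IsAlgClosed Ω] [IsAlgClosed k] (p : ℕ) [Fact p.Prime] [CharP k p] [CharP Ω p]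
    (h : Ctx k v r) {E₀ E : IntermediateField k Ω} (hE₀ : E₀.FG) (hfull : Full v E₀)
    (hE : E.FG) (hle : E₀ ≤ E) (hle' : E ≤ hen v E₀) (hLU : LU p v r E₀) : LU p v r E := by
  classical
  intro D t ht Z hZ
  obtain ⟨n, s, hs⟩ := exists_PBasis (p := p) hE₀
  have hsE : PBasis p E s := hs.of_sep p hle fun a ha => (mem_hen.1 (hle' ha)).2
  obtain rfl : n = r + D := by
    have h1 := Bas.card Qp_le' ht.bas
    have h2 := Bas.card Qp_le' hsE.bas
    rw [← h2] at h1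
    simp only [Fintype.card_fun, Fintype.card_fin] at h1
    exact (Nat.pow_right_injective (Fact.out : p.Prime).two_le h1).symm
  refine LU_of_one p h hsE (fun Z hZ => ?_) D t ht Z hZ
  -- an element of positive value
  obtain ⟨X, hX0, hXi, -⟩ := h.rank
  obtain ⟨a, haE, ha0, hav⟩ : ∃ a ∈ E₀, a ≠ 0 ∧ 0 < v a := by
    obtain ⟨m, hm, c, hc, hc0, hvc⟩ := hfull (X ⟨0, h.rpos⟩) (hX0 _)
    have h1 : v (X ⟨0, h.rpos⟩) ≠ 0 := hXi.ne_zero _
    have hm' : (0 : ℝ) < m := by exact_mod_cast hm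
    rcases lt_or_gt_of_ne h1 with h2 | h2
    · refine ⟨c⁻¹, inv_mem hc, inv_ne_zero hc0, ?_⟩
      rw [v.map_inv hc0, hvc]
      have := mul_neg_of_pos_of_neg hm' h2
      linarith
    · exact ⟨c, hc, hc0, by rw [hvc]; exact mul_pos hm' h2⟩
  have hpos : ∃ a ∈ E₀, a ≠ 0 ∧ 0 < v a := ⟨a, haE, ha0, hav⟩
  -- denominators for the generators
  obtain ⟨SE, hSE⟩ := hE
  have hSEmem : ∀ e ∈ SE, e ∈ E := fun e he => by
    rw [← hSE]
    exact IntermediateField.subset_adjoin _ _ he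
  have hden : ∀ e : Ω, ∃ c ∈ E₀, c ≠ 0 ∧ v.Ge 0 (c * e) := by
    intro e
    obtain ⟨n, hn⟩ := exists_nat_gt (-(v e) / v a)
    refine ⟨a ^ n, pow_mem haE n, pow_ne_zero n ha0, fun h0 => ?_⟩
    have he0 : e ≠ 0 := right_ne_zero_of_mul h0
    rw [v.map_mul (pow_ne_zero n ha0) he0, v.map_pow ha0]
    have := (div_lt_iff₀ hav).1 hn
    linarith
  choose c hcE hc0 hc using hden
  have hfin₁ : ∀ e ∈ SE, ∃ T : Finset Ω, (∀ z ∈ T, z ∈ E₀ ∧ z ≠ 0) ∧
      ∀ F : Fr k v r D, (∀ z ∈ T, F.Mono z) → c e * e ∈ F.H := fun e he =>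
    Up.exists_fin h hpos (mul_mem (D2P.le_hen _ (hcE e)) (hle' (hSEmem e he))) (hc e)
  choose! T₁ hT₁ hT₁' using hfin₁
  -- the elements of `Z`
  have happ : ∀ z ∈ Z, ∃ b ∈ E₀, b ≠ 0 ∧ v b = v z := by
    intro z hz
    obtain ⟨hzE, hz0⟩ := hZ z hz
    obtain ⟨b, hb, hb1⟩ := (mem_hen.1 (hle' hzE)).1 (v z + 1)
    by_cases h1 : z - b = 0
    · have h2 : z = b := sub_eq_zero.1 h1
      exact ⟨b, hb, by rw [← h2]; exact hz0, by rw [h2]⟩
    · have h3 := hb1 h1
      have h4 := v.add_of_lt (x := z) (y := -(z - b)) hz0 (neg_ne_zero.2 h1) (by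
        rw [v.map_neg _ h1]
        linarith)
      have h5 : z + -(z - b) = b := by ring
      rw [h5] at h4
      exact ⟨b, hb, h4.1, h4.2⟩
  choose! b hbE hb0 hbv using happ
  have hfin₂ : ∀ z ∈ Z, ∃ T : Finset Ω, (∀ z ∈ T, z ∈ E₀ ∧ z ≠ 0) ∧
      ∀ F : Fr k v r D, (∀ z ∈ T, F.Mono z) → z / b z ∈ F.H := by
    intro z hz
    obtain ⟨hzE, hz0⟩ := hZ z hz
    refine Up.exists_fin h hpos (div_mem (hle' hzE) (D2P.le_hen _ (hbE z hz))) fun _ => ?_
    rw [v.map_div hz0 (hb0 z hz), hbv z hz, sub_self]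
  choose! T₂ hT₂ hT₂' using hfin₂
  obtain ⟨F, hF, hM, hpc⟩ := hLU D s hs (SE.biUnion T₁ ∪ (Z.biUnion T₂ ∪ Z.image b)) (by
    intro z hz
    rcases Finset.mem_union.1 hz with hz | hz
    · obtain ⟨e, he, hz⟩ := Finset.mem_biUnion.1 hz
      exact hT₁ e he z hz
    rcases Finset.mem_union.1 hz with hz | hz
    · obtain ⟨e, he, hz⟩ := Finset.mem_biUnion.1 hz
      exact hT₂ e he z hz
    · obtain ⟨e, he, rfl⟩ := Finset.mem_image.1 hz
      exact ⟨hbE e he, hb0 e he⟩)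
  refine ⟨F, ⟨fun i => hle (hF.x_mem i), fun j => hle (hF.y_mem j), ?_⟩, fun z hz => ?_, hpc⟩
  · -- fractions
    let Q : IntermediateField k Ω := (fracF F.H).toIntermediateField fun c =>
      le_fracF (P2.P_le_H F (P2.c_mem_P F c))
    have hQ : E ≤ Q := by
      rw [← hSE, IntermediateField.adjoin_le_iff]
      intro e he
      have h1 : c e * e ∈ F.H := hT₁' e he F fun z hz =>
        hM z (Finset.mem_union_left _ (Finset.mem_biUnion.2 ⟨e, he, hz⟩))
      have h2 : c e ∈ fracF F.H := hF.frac _ (hcE e)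
      have h3 : e = (c e)⁻¹ * (c e * e) := by rw [inv_mul_cancel_left₀ (hc0 e)]
      show e ∈ fracF F.H
      rw [h3]
      exact mul_mem (inv_mem h2) (le_fracF h1)
    exact fun e he => hQ he
  · -- monomials
    obtain ⟨hzE, hz0⟩ := hZ z hz
    have h1 : z / b z ∈ F.H := hT₂' z hz F fun y hy =>
      hM y (Finset.mem_union_right _ (Finset.mem_union_left _
        (Finset.mem_biUnion.2 ⟨z, hz, hy⟩)))
    have h2 : F.Mono (b z) := hM _ (Finset.mem_union_right _ (Finset.mem_union_right _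
      (Finset.mem_image_of_mem b hz)))
    have h3 : F.Mono (z / b z) := by
      refine ⟨0, z / b z, h1, div_ne_zero hz0 (hb0 z hz), ?_, ?_⟩
      · rw [v.map_div hz0 (hb0 z hz), hbv z hz, sub_self]
      · rw [P2.mx_zero, one_mul]
    have h4 : z = b z * (z / b z) := by
      rw [mul_div_cancel₀ _ (hb0 z hz)]
    rw [h4]
    exact P2.Mono.mul h2 h3

end Pool.Agent.TW
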