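import Pool.Agent.Lib.TW.BB
import Pool.Agent.Lib.TW.Up
import Pool.Agent.Lib.TW.NearH
import Pool.Agent.Lib.TW.T1

/-!
# TANK W, HRLU: local uniformization of the fields `E` with `hen E = hen N(z)`

The row ESTAR (`estar'`) is a hypothesis in this file.
-/

set_option autoImplicit false

open Polynomial

namespace Pool.Agent.TW

open Pool.Agent.H15JM (RVal)
open Pool.Agent.LU1 (VPos adj)
open Pool.Agent.LUC (Cl clF lv)
open Pool.Agent.D2 (Ctx0)
open Pool.Agent.D2P (hen rootF)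

universe u

variable {k Ω : Type u} [Field k] [Field Ω] [Algebra k Ω] {v : RVal Ω} {r : ℕ}

namespace HRLU

theorem trdeg_hen (E : IntermediateField k Ω) : Algebra.trdeg k (hen v E) = Algebra.trdeg k E :=
  trdeg_eq_of_alg (D2P.le_hen E) fun _ ha => (D2P.mem_hen.1 ha).2.isIntegral.isAlgebraic

/-- The transcendence degree of `N(z)`. -/
theorem trdeg_adj {N : IntermediateField k Ω} {z : Ω} (hz : Transcendental N z) :
    Algebra.trdeg k (adj N z) = Algebra.trdeg k N + 1 := by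
  rw [adj_eq]
  have h1 : Algebra.trdeg N (IntermediateField.adjoin N {z}) = 1 := by
    rw [trdeg_adjoin_eq (k := N) (G := {z})]
    · simp
    · rw [algebraicIndependent_unique_type_iff]
      exact hz
  have h2 := trdeg_add_eq k N (A := IntermediateField.adjoin N {z})
  rw [h1] at h2
  exact h2.symm

/-- The last coordinate. -/
theorem kr_snoc {n : ℕ} (s : Fin (n + 1) → Ω) :
    kr k s = adj (kr k (s ∘ Fin.castSucc)) (s (Fin.last n)) := by
  apply le_antisymm
  · rw [IntermediateField.adjoin_le_iff]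
    rintro _ ⟨i, rfl⟩
    refine Fin.lastCases ?_ (fun i => ?_) i
    · exact (D2P.mem_adj_self _ _).1
    · exact (D2P.mem_adj_self _ _).2 (IntermediateField.subset_adjoin _ _ ⟨i, rfl⟩)
  · refine sup_le ?_ ?_
    · rw [IntermediateField.adjoin_le_iff]
      rintro _ ⟨i, rfl⟩
      exact IntermediateField.subset_adjoin _ _ ⟨i.castSucc, rfl⟩
    · rw [IntermediateField.adjoin_le_iff]
      rintro _ rfl
      exact IntermediateField.subset_adjoin _ _ ⟨Fin.last n, rfl⟩

theorem kr_fg {n : ℕ} (s : Fin n → Ω) : (kr k s).FG :=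
  IntermediateField.fg_adjoin_of_finite (Set.finite_range s)

/-- Coordinates in a dense subfield. -/
theorem exists_near {E : IntermediateField k Ω} {n : ℕ} {s : Fin n → Ω} (hs : ∀ i, s i ≠ 0)
    (hsE : ∀ i, s i ∈ Cl v E.toSubfield) (δ : ℝ) :
    ∃ s' : Fin n → Ω, (∀ i, s' i ∈ E) ∧ ∀ i, v.Ge δ (s' i / s i - 1) := by
  have h1 : ∀ i, ∃ a ∈ E, v.Ge (δ + v (s i)) (s i - a) := fun i => hsE i _
  choose s' hs' hd using h1
  refine ⟨s', hs', fun i hi => ?_⟩
  have h2 : s' i / s i - 1 = -(s i - s' i) / s i := by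
    have := hs i
    field_simp
    ring
  rw [h2] at hi ⊢
  have h3 : s i - s' i ≠ 0 := by
    intro h0
    apply hi
    rw [h0, neg_zero, zero_div]
  rw [v.map_div (neg_ne_zero.2 h3) (hs i), v.map_neg _ h3]
  have := hd i h3
  linarith

end HRLU

open HRLU in
theorem LU_of_HRone_of [IsAlgClosed Ω] [IsAlgClosed k] (p : ℕ) [Fact p.Prime] [CharP k p]
    [CharP Ω p] (h : Ctx k v r)
    (hES : ∀ {F : IntermediateField k Ω}, F.FG → Full v F → BD p v F → ∀ {n : ℕ},
      Algebra.trdeg k F = n →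
      (∀ E : IntermediateField k Ω, E.FG → Full v E → Algebra.trdeg k E = n →
        BD p v E → LU p v r E) → ∀ {z : Ω}, Transcendental F z → LU p v r (adj F z))
    {E : IntermediateField k Ω} (hE : E.FG) (_hfull : Full v E)
    (hBD : BD p v E) {n : ℕ} (htr : Algebra.trdeg k E = (n + 1 : ℕ))
    (hLU : ∀ E : IntermediateField k Ω, E.FG → Full v E → Algebra.trdeg k E = n →
      BD p v E → LU p v r E) (hHR : HRone v E) : LU p v r E := by
  classical
  have h0 := h.toCtx0
  have hp : p.Prime := Fact.out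
  obtain ⟨N, z, hN, hNfull, hz, hhen⟩ := hHR
  have hNz : (adj N z).FG := by
    have h1 : (IntermediateField.adjoin k {z}).FG :=
      IntermediateField.fg_adjoin_of_finite (Set.finite_singleton z)
    exact IntermediateField.fg_sup hN h1
  have hBDNz : BD p v (adj N z) := BD.congr p hBD hNz hhen
  have hBDN : BD p v N := BD.of_adj p hN hz hBDNz
  have htrN : Algebra.trdeg k N = n := by
    have h1 : Algebra.trdeg k (adj N z) = ((n + 1 : ℕ) : Cardinal) := by
      rw [← trdeg_hen (v := v), ← hhen, trdeg_hen, htr]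
    rw [trdeg_adj hz] at h1
    push_cast at h1
    exact Cardinal.add_one_inj.1 h1
  -- a frame of `N`
  obtain ⟨D, hD⟩ : ∃ D, n = r + D := ⟨n - r, by
    have := hNfull.rank_le h htrN
    omega⟩
  subst hD
  obtain ⟨t, ht⟩ := exists_pbasis p hN htrN
  obtain ⟨S, hS, -, -⟩ := hLU N hN hNfull htrN hBDN D t ht ∅ (by simp)
  have hhN : hen v N = hen v S.K := hS.hen_eq p h
  have hSK : S.K ≤ N := P2.K_le hS
  have hSKfg : S.K.FG := by rw [Fr.K_eq]; exact kr_fg _
  have hBDS : BD p v S.K := BD.congr p hBDN hSKfg hhN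
  have hpbS : PBasis p (kr k S.s) S.s := by
    rw [← Fr.K_eq]
    exact S.pbasis p h le_rfl (D2P.le_hen _)
  -- the coordinates of `N(z)`
  have hzS : Transcendental (kr k S.s) z := by
    intro h1
    apply hz
    rw [← Fr.K_eq] at h1
    exact D2P.isAlgebraic_mono hSK h1
  set s : Fin (r + D + 1) → Ω := Fin.snoc S.s z with hs
  have hsc : s ∘ Fin.castSucc = S.s := by
    funext i
    rw [hs, Function.comp_apply, Fin.snoc_castSucc]
  have hsl : s (Fin.last _) = z := by rw [hs, Fin.snoc_last]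
  have hkrs : kr k s = adj (kr k S.s) z := by rw [kr_snoc, hsc, hsl]
  have hpb : PBasis p (kr k s) s := by
    rw [hkrs]
    exact PBasis.adj p hzS hpbS
  have hs0 : ∀ i, s i ≠ 0 := by
    intro i
    refine Fin.lastCases ?_ (fun i => ?_) i
    · rw [hsl]
      rintro rfl
      exact hz (isAlgebraic_zero)
    · have h1 : s i.castSucc = S.s i := congrFun hsc i
      rw [h1]
      exact P1.s_ne S i
  have hai : AlgebraicIndependent k s := (hpb.trdeg p (kr_fg s)).2.1
  have hhs : hen v (kr k s) = hen v (adj N z) := by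
    rw [hkrs, ← Fr.K_eq]
    apply le_antisymm
    · exact D2P.hen_mono (sup_le_sup_right hSK _)
    · refine D2P.hen_le (D2P.hen_hen _) (sup_le ?_ ?_)
      · refine (D2P.le_hen (v := v) N).trans ?_
        rw [hhN]
        exact D2P.hen_mono (le_sup_left)
      · exact (le_sup_right : IntermediateField.adjoin k {z} ≤ adj S.K z).trans (D2P.le_hen _)
  have hhsE : hen v (kr k s) = hen v E := hhs.trans hhen.symm
  have hBDs : BD p v (kr k s) := BD.congr p hBD (kr_fg s) hhsE.symm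
  obtain ⟨C₀, hC₀⟩ := hBDs.orth hpb
  obtain ⟨C, hC, hCC⟩ : ∃ C : ℝ, 0 ≤ C ∧ Orth p v (kr k s) s C :=
    ⟨max C₀ 0, le_max_right _ _, hC₀.mono_right (le_max_left _ _)⟩
  -- two elements of `k(s)`
  obtain ⟨w₃, hw₃, hw₃0, hw₃p⟩ : ∃ w ∈ kr k s, w ≠ 0 ∧ 0 < v w := by
    obtain ⟨l, hl⟩ := P2.exists_pos h S
    refine ⟨mx S.x l, ?_, P2.mx_ne S l, hl⟩
    rw [hkrs, ← Fr.K_eq]
    exact (le_sup_left : S.K ≤ adj S.K z) (P2.mx_mem (P2.x_mem_K S) l)
  obtain ⟨e, he⟩ := exists_nat_ge (p * C / v w₃)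
  have hw₄v : p * C ≤ v (w₃ ^ e) := by
    rw [v.map_pow hw₃0]
    rwa [div_le_iff₀ hw₃p] at he
  have hw₄0 : w₃ ^ e ≠ 0 := pow_ne_zero _ hw₃0
  obtain ⟨s', hs'E, hs'⟩ := exists_near (v := v) (E := E) hs0 (fun i => by
    have h1 : s i ∈ hen v E := by
      rw [← hhsE]
      exact D2P.le_hen _ (mem_kr s i)
    exact (D2P.mem_hen.1 h1).1) (v w₃ + v (w₃ ^ e))
  have hkE : kr k s' ≤ E := by
    rw [IntermediateField.adjoin_le_iff]
    rintro _ ⟨i, rfl⟩
    exact hs'E i
  have hhs' : hen v (kr k s') = hen v (kr k s) :=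
    hen_near p h0 hs0 hC hpb hCC hw₃ (pow_mem hw₃ e) ⟨hw₃0, hw₃p⟩ ⟨hw₄0, hw₄v⟩
      (fun i => by rw [hhsE]; exact D2P.le_hen _ (hs'E i)) hs'
  have hnear : Near k v s s' (v w₃ + v (w₃ ^ e) - p * C) :=
    Near.of_orth p h0 hs0 hpb hC (by linarith) hCC s' hs'
  -- the fields of the first coordinates
  have hnearN : Near k v S.s (s' ∘ Fin.castSucc) (v w₃ + v (w₃ ^ e) - p * C) := by
    have := hnear.comp Fin.castSucc
    rwa [hsc] at this
  have haiS : AlgebraicIndependent k S.s := (hpbS.trdeg p (kr_fg _)).2.1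
  set F := kr k (s' ∘ Fin.castSucc) with hF
  have hFfg : F.FG := kr_fg _
  obtain ⟨C₁, hC₁⟩ := hBDS.orth (by rw [Fr.K_eq]; exact hpbS : PBasis p S.K S.s)
  have hpbF : PBasis p F (s' ∘ Fin.castSucc) := hnearN.pbasis p haiS hpbS
  have hBDF : BD p v F := by
    refine ⟨r + D, s' ∘ Fin.castSucc, hpbF, C₁, hnearN.orth p haiS ?_⟩
    rw [← Fr.K_eq]
    exact hC₁
  have htrF : Algebra.trdeg k F = ((r + D : ℕ) : Cardinal) := (hpbF.trdeg p hFfg).1
  have hai' : AlgebraicIndependent k s' := hnear.indep hai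
  have hFfull : Full v F := by
    intro g hg
    obtain ⟨m, hm, c, hc, hc0, hcv⟩ := hNfull g hg
    have hcS : c ∈ hen v (kr k S.s) := by
      rw [← Fr.K_eq, ← hhN]
      exact D2P.le_hen _ hc
    obtain ⟨c₁, hc₁, hc₁0, hc₁v, -⟩ := LUC.Cl.exists_val (D2P.mem_hen.1 hcS).1 0 hc0
    obtain ⟨φ, -⟩ := hnearN.exists_viso haiS
    refine ⟨m, hm, φ.e ⟨c₁, hc₁⟩, (φ.e ⟨c₁, hc₁⟩).2, ?_, ?_⟩
    · intro h1
      have h2 : φ.e ⟨c₁, hc₁⟩ = 0 := Subtype.ext h1
      rw [map_eq_zero_iff _ φ.e.injective] at h2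
      exact hc₁0 (congrArg Subtype.val h2)
    · rw [φ.val _ hc₁0]
      exact hc₁v.trans hcv
  have hzF : Transcendental F (s' (Fin.last _)) := by
    intro h1
    have h2 : Algebra.trdeg k (kr k s') = Algebra.trdeg k F := by
      rw [kr_snoc s']
      refine trdeg_eq_of_alg le_sup_left fun a ha => ?_
      have h3 : adj F (s' (Fin.last _)) ≤ acl F := by
        refine sup_le ?_ ?_
        · intro b hb
          exact mem_acl.2 (isAlgebraic_algebraMap (A := Ω) (⟨b, hb⟩ : F))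
        · rw [IntermediateField.adjoin_le_iff]
          rintro _ rfl
          exact mem_acl.2 h1
      exact mem_acl.1 (h3 ha)
    have h4 : Algebra.trdeg k (kr k s') = ((r + D + 1 : ℕ) : Cardinal) :=
      ((hnear.pbasis p hai hpb).trdeg p (kr_fg s')).1
    rw [h4, htrF, Nat.cast_inj] at h2
    omega
  have hkrs' : kr k s' = adj F (s' (Fin.last _)) := kr_snoc s'
  have hLU' : LU p v r (kr k s') := by
    rw [hkrs']
    exact hES hFfg hFfull hBDF htrF hLU hzF
  refine LU.up p h (kr_fg s') (Full.mono ?_ hFfull) hE hkE ?_ hLU'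
  · rw [hkrs']; exact le_sup_left
  · rw [hhs', hhsE]
    exact D2P.le_hen _

end Pool.Agent.TW
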