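import Pool.Agent.Lib.TW.H1
import Pool.Agent.Lib.TW.H3
import Pool.Agent.Lib.TGL.UnitB_h5
import Pool.Agent.Lib.ALLO.RatFrame
import Pool.Agent.Lib.TW.T1
import Pool.Agent.Lib.TW.A2

/-!
# TANK W, row P2b: the divisors of the monomials of `H` are monomials
-/

set_option autoImplicit false

open Polynomial

namespace Pool.Agent.TW

open Pool.Agent.H15JM (RVal)
open Pool.Agent.TAO (OVal ofR)
open Pool.Agent.LU1 (FracIs)
open Pool.Agent.LUC (lv)
open Pool.Agent.D2 (Ctx0)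
open Pool.Agent.ALLO (locv ph ch ch_ph ch_ne ch_val ch_add v_mo MM Pre)
open Pool.Agent.TGL (LF)
open Pool.Agent.TGL44 (Wc rv dn lfDn χW χW_coe le_Wc ctx_Wc alg_dn frac_dn lf_χ_mem_field coe_ne
  trdeg_Wc vpos_rv)

universe u w

section General

variable {k Ω : Type u} [Field k] [Field Ω] [Algebra k Ω]
  {𝕂 : Type w} [Field 𝕂] [LinearOrder 𝕂] [IsStrictOrderedRing 𝕂]
  {v : OVal 𝕂 Ω} {r D : ℕ}

/-- Units of `R[1/χ]` are monomials: `TGL.LF.mono_of_unX` in an ambient field of arbitrary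
transcendence degree. -/
theorem mono_of_unX' [IsAlgClosed k] [IsAlgClosed Ω]
    (ht : ∀ c : k, c ≠ 0 → v (algebraMap k Ω c) = 0)
    (hres : ∀ g : Ω, g ≠ 0 → v g = 0 → ∃ c : k, c ≠ 0 ∧ TAO.VPos v (g - algebraMap k Ω c))
    (hr : 0 < r) (B : LF k v r D) {E : IntermediateField k Ω} (hE : FracIs B.R E)
    (htr : Algebra.trdeg k E = ((r + D : ℕ))) {f : Ω} (hf : B.UnX B.R f) : B.Mono f := by
  have _ : Infinite k := IsAlgClosed.instInfinite
  have hW : ∀ f ∈ B.R, f ∈ Wc E := fun f hf => le_Wc (hE.1 f hf)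
  have h' : TAO.Ctx0 k (rv v (Wc E)) (r + D) :=
    { triv := fun c hc => ht c hc
      res := fun g hg hvg => by
        obtain ⟨c, hc, h1⟩ := hres g (coe_ne.2 hg) hvg
        exact ⟨c, hc, vpos_rv.2 h1⟩
      trdeg := by rw [trdeg_Wc, htr] }
  obtain ⟨w, hw⟩ : ∃ w : OVal 𝕂 (Wc E), (lfDn B hW).IsCont w := by
    obtain ⟨w, hw⟩ := ALLG.exists_isCont h' hr rfl ((lfDn B hW).toFR hr (alg_dn hE))
      (frac_dn le_Wc hE)
    have hF := frac_dn (W := Wc E) le_Wc hE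
    exact ⟨w, ⟨fun γ hγ => hw.χ hγ, fun f hf => hw.ge h' hr rfl hf, fun f hf hf0 =>
      hw.Γ h' hr rfl hF (hF.1 f hf) hf0, fun f hf hf0 => hw.div_mem h' hr rfl hf hf0⟩⟩
  obtain ⟨h0, ⟨γ, hγ, h1⟩, ⟨δ, hδ, h2⟩⟩ := hf
  have hfW : f ∈ Wc E := by
    have h3 : f = (B.χ γ)⁻¹ * (B.χ γ * f) := by
      rw [← mul_assoc, inv_mul_cancel₀ (B.χ_ne γ hγ), one_mul]
    rw [h3]
    exact mul_mem (inv_mem (lf_χ_mem_field B hW hγ)) (hW _ h1)
  have hu : (lfDn B hW).UnX (lfDn B hW).R (⟨f, hfW⟩ : Wc E) := by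
    refine ⟨fun h3 => h0 (congrArg Subtype.val h3), ⟨γ, hγ, ?_⟩, ⟨δ, hδ, ?_⟩⟩
    · change ((χW (Wc E) B γ : Wc E) : Ω) * f ∈ B.R
      rw [χW_coe B hW hγ]
      exact h1
    · change ((χW (Wc E) B δ : Wc E) : Ω) * f⁻¹ ∈ B.R
      rw [χW_coe B hW hδ]
      exact h2
  obtain ⟨-, h4, h5, h6, h7⟩ := hw.mono hu
  have h8 : v f ∈ B.Γ := h4
  have h9 : (((⟨f, hfW⟩ : Wc E) / χW (Wc E) B (v f) : Wc E) : Ω) = f / B.χ (v f) := by
    rw [← χW_coe B hW h8]
    rfl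
  have h5' : f / B.χ (v f) ∈ B.R := by
    rw [← h9]
    exact h5
  refine ⟨h0, h8, h5', div_ne_zero h0 (B.χ_ne _ h8), ?_⟩
  rw [v.map_div h0 (B.χ_ne _ h8), B.χ_val _ h8, sub_self]

end General

section

variable {k Ω : Type u} [Field k] [Field Ω] [Algebra k Ω] {v : RVal Ω} {r D : ℕ}

theorem Fr.P_nonneg' (h : Ctx k v r) (F : Fr k v r D) : ∀ f ∈ F.P, v.Ge 0 f := by
  refine ksub_nonneg h.toCtx0 ?_
  rintro f (⟨l, rfl, hl⟩ | ⟨j, rfl⟩)
  · exact fun _ => hl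
  · exact fun _ => (F.y_pos j).le

/-- The generators of the ring of the coordinates. -/
def Fr.G0 (F : Fr k v r D) : Set Ω :=
  ch (ofR v) F.x '' {γ | γ ∈ (ph (ofR v) F.x).range ∧ 0 ≤ γ} ∪ Set.range F.y

/-- The local ring generated by the coordinates and by `T`. -/
noncomputable def Fr.RT (F : Fr k v r D) (T : Set Ω) : Subalgebra k Ω :=
  locv (ofR v) (Algebra.adjoin k (F.G0 ∪ T))

theorem Fr.RT_mono (F : Fr k v r D) {S T : Set Ω} (h : S ⊆ T) : F.RT S ≤ F.RT T :=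
  ALLO.locv_mono (Algebra.adjoin_mono (Set.union_subset_union_right _ h))

theorem adj_nonneg (h : Ctx k v r) {S : Set Ω} (hS : ∀ f ∈ S, v.Ge 0 f) :
    ∀ f ∈ Algebra.adjoin k S, v.Ge 0 f := by
  intro f hf
  induction hf using Algebra.adjoin_induction with
  | mem x hx => exact hS x hx
  | algebraMap c => exact h.toCtx0.ge c
  | add x y _ _ hx hy => exact hx.add hy
  | mul x y _ _ hx hy => simpa using hx.mul hy

theorem Fr.G0_nonneg (F : Fr k v r D) : ∀ f ∈ F.G0, v.Ge 0 f := by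
  rintro f (⟨γ, ⟨hγ, h0⟩, rfl⟩ | ⟨j, rfl⟩)
  · intro _
    have h1 := ch_val (v := ofR v) F.x_ne F.x_ind hγ
    change ofR v _ = γ at h1
    change 0 ≤ ofR v _
    rw [h1]
    exact h0
  · exact fun _ => (F.y_pos j).le

theorem Fr.pre (h : Ctx k v r) (F : Fr k v r D) {T : Set Ω} (hT : ∀ f ∈ T, v.Ge 0 f) :
    Pre (ofR v) (ph (ofR v) F.x).range (ch (ofR v) F.x) F.y (F.RT T) where
  pos := by
    have h0 : v (F.x ⟨0, h.rpos⟩) ≠ 0 := F.x_ind.ne_zero ⟨0, h.rpos⟩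
    rcases lt_or_gt_of_ne h0 with h1 | h1
    · exact ⟨-v (F.x ⟨0, h.rpos⟩), AddSubgroup.neg_mem _ ⟨_, ALLO.ph_single F.x _⟩, by linarith⟩
    · exact ⟨v (F.x ⟨0, h.rpos⟩), ⟨_, ALLO.ph_single F.x _⟩, h1⟩
  mon := ⟨fun γ _ => ch_ne F.x_ne, fun γ hγ δ hδ => ch_add F.x_ne F.x_ind hγ hδ,
    fun γ hγ => ch_val F.x_ne F.x_ind hγ⟩
  y_ne := F.y_ne
  y_pos := F.y_pos
  nonneg := by
    refine ALLO.locv_nonneg (adj_nonneg h ?_)
    rintro f (hf | hf)
    · exact F.G0_nonneg f hf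
    · exact hT f hf
  loc := fun f hf h0 h1 => ALLO.locv_inv hf h0 h1
  χ_mem := fun γ hγ h0 => ALLO.le_locv _ (Algebra.subset_adjoin
    (Or.inl (Or.inl ⟨γ, ⟨hγ, h0⟩, rfl⟩)))
  y_mem := fun j => ALLO.le_locv _ (Algebra.subset_adjoin (Or.inl (Or.inr ⟨j, rfl⟩)))

theorem Fr.ch_mx (F : Fr k v r D) (l : Fin r → ℤ) : ch (ofR v) F.x (v (mx F.x l)) = mx F.x l := by
  have h1 := ch_ph (v := ofR v) F.x_ind l
  have h2 := v_mo (v := ofR v) F.x_ne l
  change v (mx F.x l) = _ at h2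
  rw [h2]
  exact h1

theorem Fr.v_mx_mem (F : Fr k v r D) (l : Fin r → ℤ) : v (mx F.x l) ∈ (ph (ofR v) F.x).range :=
  ⟨l, (v_mo (v := ofR v) F.x_ne l).symm⟩

theorem Fr.P_le_RT (F : Fr k v r D) (T : Set Ω) : ∀ f ∈ F.P, f ∈ F.RT T := by
  have h1 : F.P ≤ (F.RT T).toSubring := by
    refine Subring.closure_le.2 ?_
    rintro f (⟨c, rfl⟩ | ⟨l, rfl, hl⟩ | ⟨j, rfl⟩)
    · exact (F.RT T).algebraMap_mem c
    · refine ALLO.le_locv _ (Algebra.subset_adjoin (Or.inl (Or.inl ⟨v (mx F.x l),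
        ⟨F.v_mx_mem l, hl⟩, F.ch_mx l⟩)))
    · exact ALLO.le_locv _ (Algebra.subset_adjoin (Or.inl (Or.inr ⟨j, rfl⟩)))
  exact h1

theorem Fr.lv_le_RT (F : Fr k v r D) (T : Set Ω) : ∀ f ∈ lv v F.P, f ∈ F.RT T := by
  rintro f ⟨a, ha, b, hb, hb0, hvb, rfl⟩
  rw [div_eq_mul_inv]
  exact (F.RT T).mul_mem (F.P_le_RT T a ha) (ALLO.locv_inv (F.P_le_RT T b hb) hb0 hvb)

theorem Fr.res_G0 (h : Ctx k v r) (F : Fr k v r D) {T : Set Ω} (hT : ∀ f ∈ T, v.Ge 0 f) :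
    ∀ f ∈ F.G0, Pre.Res (ph (ofR v) F.x).range (ch (ofR v) F.x) F.y (F.RT T) f := by
  have H := F.pre h hT
  rintro _ (⟨γ, ⟨hγ, h0⟩, rfl⟩ | ⟨j, rfl⟩)
  · rcases h0.lt_or_eq with h1 | h1
    · have h2 := H.mm_χ hγ h1 (one_mem (F.RT T))
      rw [mul_one] at h2
      exact H.res_of_mm h2
    · have h2 : ch (ofR v) F.x γ = algebraMap k Ω 1 := by
        rw [← h1, map_one]
        exact H.mon.zero
      rw [h2]
      exact H.res_const 1
  · have h2 := H.mm_y j (one_mem (F.RT T))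
    rw [mul_one] at h2
    exact H.res_of_mm h2

theorem MM.mono {Γ : AddSubgroup ℝ} {χ : ℝ → Ω} {y : Fin D → Ω} {R R' : Subalgebra k Ω}
    (hR : R ≤ R') {f : Ω} (hf : MM Γ χ y R f) : MM Γ χ y R' f := by
  obtain ⟨γ, hγ, h0, a, ha, b, hb, e⟩ := hf
  exact ⟨γ, hγ, h0, a, hR ha, b, fun i => hR (hb i), e⟩

/-- Elements of positive value of the local ring of the coordinates. -/
theorem Fr.mm_of_lv (h : Ctx k v r) (F : Fr k v r D) (T : Set Ω) {f : Ω} (hf : f ∈ lv v F.P)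
    (hf0 : LU1.VPos v f) : MM (ph (ofR v) F.x).range (ch (ofR v) F.x) F.y (F.RT T) f := by
  have H := F.pre h (T := ∅) (by simp)
  have h1 := H.gen (S := F.G0 ∪ ∅) rfl (by
    rw [Set.union_empty]
    exact F.res_G0 h (by simp)) h.triv f (F.lv_le_RT ∅ f hf) hf0
  exact MM.mono (F.RT_mono (Set.empty_subset T)) h1

theorem eval_mem {R : Subalgebra k Ω} {P : Polynomial Ω} (hP : ∀ i, P.coeff i ∈ R) {x : Ω}
    (hx : x ∈ R) : P.eval x ∈ R := by
  rw [Polynomial.eval_eq_sum_range]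
  exact R.sum_mem fun i _ => R.mul_mem (hP i) (R.pow_mem hx i)

/-- Simple roots have a residue modulo the ideal of the coordinates. -/
theorem Fr.res_root (h : Ctx k v r) (F : Fr k v r D) {T : Set Ω} (hT : ∀ f ∈ T, v.Ge 0 f) {θ : Ω}
    (hθ : θ ∈ T) {g : Polynomial Ω} (hg : ∀ i, g.coeff i ∈ lv v F.P)
    (h0 : g.eval θ = 0) (h1 : g.derivative.eval θ ≠ 0) (h2 : v (g.derivative.eval θ) = 0) :
    Pre.Res (ph (ofR v) F.x).range (ch (ofR v) F.x) F.y (F.RT T) θ := by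
  have H := F.pre h hT
  obtain ⟨c, hc⟩ := h.toCtx0.residue (hT θ hθ)
  refine ⟨c, ?_⟩
  have hgR : ∀ i, g.coeff i ∈ F.RT T := fun i => F.lv_le_RT T _ (hg i)
  have hθR : θ ∈ F.RT T := ALLO.le_locv _ (Algebra.subset_adjoin (Or.inr hθ))
  have hcR : algebraMap k Ω c ∈ F.RT T := (F.RT T).algebraMap_mem c
  set t : Ω := θ - algebraMap k Ω c with ht
  have htR : t ∈ F.RT T := (F.RT T).sub_mem hθR hcR
  -- lift the polynomial to the ring
  obtain ⟨G, hG⟩ : ∃ G : Polynomial (F.RT T), G.map (algebraMap (F.RT T) Ω) = g := by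
    have h3 : g ∈ Polynomial.lifts (algebraMap (F.RT T) Ω) := by
      rw [Polynomial.lifts_iff_coeff_lifts]
      intro i
      exact ⟨⟨g.coeff i, hgR i⟩, rfl⟩
    exact h3
  have hev : ∀ (P : Polynomial (F.RT T)) (x : F.RT T),
      ((P.eval x : F.RT T) : Ω) = (P.map (algebraMap (F.RT T) Ω)).eval (x : Ω) := by
    intro P x
    rw [Polynomial.eval_map]
    exact (Polynomial.eval₂_at_apply (algebraMap (F.RT T) Ω) x).symm
  obtain ⟨κ, hκ⟩ := G.binomExpansion (⟨_, hcR⟩ : F.RT T) ⟨t, htR⟩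
  have h3 := congrArg (Subtype.val : F.RT T → Ω) hκ
  have h4 : (((⟨_, hcR⟩ : F.RT T) + ⟨t, htR⟩ : F.RT T) : Ω) = θ := by
    change algebraMap k Ω c + t = θ
    rw [ht]; ring
  change ((G.eval _ : F.RT T) : Ω) = ((G.eval _ : F.RT T) : Ω) +
    ((G.derivative.eval _ : F.RT T) : Ω) * t + (κ : Ω) * t ^ 2 at h3
  rw [hev, hev, hev, h4, hG, h0, ← derivative_map, hG] at h3
  -- the unit
  have h5 : LU1.VPos v (g.derivative.eval (algebraMap k Ω c) + (κ : Ω) * t -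
      g.derivative.eval θ) := by
    obtain ⟨κ', hκ'⟩ := Polynomial.sub_dvd_eval_sub (⟨_, hcR⟩ : F.RT T) ⟨θ, hθR⟩ G.derivative
    have h6 := congrArg (Subtype.val : F.RT T → Ω) hκ'
    change ((G.derivative.eval _ : F.RT T) : Ω) - ((G.derivative.eval _ : F.RT T) : Ω) =
      (algebraMap k Ω c - θ) * (κ' : Ω) at h6
    rw [hev, hev, ← derivative_map, hG] at h6
    have h7 : g.derivative.eval (algebraMap k Ω c) + (κ : Ω) * t - g.derivative.eval θ =
        t * ((κ : Ω) - (κ' : Ω)) := by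
      have h8 : g.derivative.eval (algebraMap k Ω c) - g.derivative.eval θ =
          (algebraMap k Ω c - θ) * (κ' : Ω) := h6
      have h9 : algebraMap k Ω c - θ = - t := by rw [ht]; ring
      rw [h9] at h8
      linear_combination h8
    rw [h7]
    exact LU1.VPos.mul hc (H.nonneg _ ((F.RT T).sub_mem κ.2 κ'.2))
  obtain ⟨h6, h7⟩ := LU1.val_add_vpos h1 h2 h5
  have h8 : g.derivative.eval θ + (g.derivative.eval (algebraMap k Ω c) + (κ : Ω) * t -
      g.derivative.eval θ) = g.derivative.eval (algebraMap k Ω c) + (κ : Ω) * t := by ring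
  rw [h8] at h6 h7
  set u : Ω := g.derivative.eval (algebraMap k Ω c) + (κ : Ω) * t with hu
  have huR : u ∈ F.RT T := by
    refine (F.RT T).add_mem (eval_mem (fun i => ?_) hcR) ((F.RT T).mul_mem κ.2 htR)
    rw [coeff_derivative]
    exact (F.RT T).mul_mem (hgR _) (by exact_mod_cast (F.RT T).natCast_mem (i + 1))
  have h9 : g.eval (algebraMap k Ω c) = - (t * u) := by
    rw [hu]
    linear_combination -h3
  have h10 : MM (ph (ofR v) F.x).range (ch (ofR v) F.x) F.y (F.RT T)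
      (g.eval (algebraMap k Ω c)) := by
    refine F.mm_of_lv h T ?_ ?_
    · rw [Polynomial.eval_eq_sum_range]
      exact (lv v F.P).sum_mem fun i _ => (lv v F.P).mul_mem (hg i) ((lv v F.P).pow_mem
        (LUC.le_lv v F.P (Subring.subset_closure (Or.inl ⟨c, rfl⟩))) i)
    · rw [h9]
      have h11 : LU1.VPos v (t * (-u)) :=
        LU1.VPos.mul hc (H.nonneg _ ((F.RT T).neg_mem huR))
      rwa [mul_neg] at h11
  have h11 := H.mm_mul h10 (g := -u⁻¹) ((F.RT T).neg_mem (H.loc u huR h6 h7))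
  have h12 : g.eval (algebraMap k Ω c) * -u⁻¹ = t := by
    rw [h9]
    field_simp
  rwa [h12] at h11

/-- The limit frame of the coordinates and of finitely many simple roots. -/
noncomputable def Fr.lf (h : Ctx k v r) (F : Fr k v r D) (T : Finset Ω)
    (hT : ∀ θ ∈ T, ∃ g : Polynomial Ω, g.Monic ∧ (∀ i, g.coeff i ∈ lv v F.P) ∧ g.eval θ = 0 ∧
      g.derivative.eval θ ≠ 0 ∧ v (g.derivative.eval θ) = 0) : LF k (ofR v) r D :=
  have hT' : ∀ θ ∈ (T : Set Ω), v.Ge 0 θ := fun θ hθ => by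
    obtain ⟨g, hg, hc, h0, -⟩ := hT θ hθ
    refine LU1.ge_of_root hg (fun i => ?_) h0
    exact (F.pre h (T := ∅) (by simp)).nonneg _ (F.lv_le_RT ∅ _ (hc i))
  have H := F.pre h hT'
  { Γ := (ph (ofR v) F.x).range
    fg := by
      rw [← AddGroup.fg_iff_addSubgroup_fg]
      infer_instance
    rk := by
      refine ⟨fun i => v (F.x i), F.x_ind, fun i => ⟨_, ALLO.ph_single F.x i⟩, ?_⟩
      rintro _ ⟨l, rfl⟩
      rw [ALLO.ph_apply]
      refine Submodule.sum_mem _ fun i _ => ?_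
      have h1 : ((l i : ℤ) : ℝ) * ofR v (F.x i) = ((l i : ℤ) : ℚ) • v (F.x i) := by
        rw [Rat.smul_def]
        push_cast
        rfl
      rw [h1]
      exact Submodule.smul_mem _ _ (Submodule.subset_span (Set.mem_range_self i))
    χ := ch (ofR v) F.x
    χ_ne := H.mon.ne
    χ_add := H.mon.add
    χ_val := H.mon.val
    y := F.y
    y_ne := F.y_ne
    y_pos := F.y_pos
    R := F.RT T
    nonneg := H.nonneg
    loc := H.loc
    χ_mem := H.χ_mem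
    y_mem := H.y_mem
    fgen := by
      classical
      refine ⟨T ∪ Finset.univ.image F.y, ?_⟩
      have h1 : F.G0 ∪ (T : Set Ω) = ((T ∪ Finset.univ.image F.y : Finset Ω) : Set Ω) ∪
          ch (ofR v) F.x '' {γ | γ ∈ (ph (ofR v) F.x).range ∧ 0 ≤ γ} := by
        rw [Finset.coe_union, Finset.coe_image, Finset.coe_univ, Set.image_univ, Fr.G0]
        ext f
        simp only [Set.mem_union]
        tauto
      rw [Fr.RT, h1]
    gen := by
      intro f hf hv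
      obtain ⟨γ, hγ, h0, a, ha, b, hb, e⟩ := H.gen (S := F.G0 ∪ (T : Set Ω)) rfl (by
        rintro θ (hθ | hθ)
        · exact F.res_G0 h hT' θ hθ
        · obtain ⟨g, hg, hc, h0, h1, h2⟩ := hT θ hθ
          exact F.res_root h hT' hθ hc h0 h1 h2) h.triv f hf hv
      exact ⟨γ, hγ, a, ha, Or.inl h0, b, hb, e⟩ }

/-- The field of the coordinates and of finitely many algebraic elements. -/
theorem Fr.trdeg_K (F : Fr k v r D) : Algebra.trdeg k F.K = ((r + D : ℕ)) := by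
  have h1 : F.K = IntermediateField.adjoin k (Set.range (Sum.elim F.x F.y)) := by
    rw [Fr.K, Set.Sum.elim_range]
  have h2 := Cardinal.mk_range_eq_of_injective F.alg.injective
  rw [h1, trdeg_adjoin_eq F.alg.coe_range]
  simpa using h2

theorem Fr.trdeg_adjoin (F : Fr k v r D) (T : Set Ω) (hT : ∀ θ ∈ T, IsAlgebraic F.K θ) :
    Algebra.trdeg k (IntermediateField.adjoin k (Set.range F.x ∪ Set.range F.y ∪ T)) =
      ((r + D : ℕ)) := by
  set E := IntermediateField.adjoin k (Set.range F.x ∪ Set.range F.y ∪ T) with hE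
  have h1 : F.K ≤ E := IntermediateField.adjoin.mono _ _ _ Set.subset_union_left
  rw [trdeg_eq_of_alg h1, F.trdeg_K]
  have h2 : E ≤ (algebraicClosure F.K Ω).restrictScalars k := by
    refine IntermediateField.adjoin_le_iff.2 ?_
    rintro a ((⟨i, rfl⟩ | ⟨j, rfl⟩) | ha)
    · exact mem_algebraicClosure_iff.2 (isAlgebraic_algebraMap (R := F.K) (A := Ω)
        (⟨F.x i, IntermediateField.subset_adjoin _ _ (Or.inl ⟨i, rfl⟩)⟩ : F.K))
    · exact mem_algebraicClosure_iff.2 (isAlgebraic_algebraMap (R := F.K) (A := Ω)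
        (⟨F.y j, IntermediateField.subset_adjoin _ _ (Or.inr ⟨j, rfl⟩)⟩ : F.K))
    · exact mem_algebraicClosure_iff.2 (hT a ha)
  exact fun a ha => mem_algebraicClosure_iff.1 (h2 ha)

/-- The data of `exists_etale`. -/
def Fr.SR (F : Fr k v r D) (θ : Ω) : Prop :=
  ∃ g : Polynomial Ω, g.Monic ∧ (∀ i, g.coeff i ∈ lv v F.P) ∧ g.eval θ = 0 ∧
      g.derivative.eval θ ≠ 0 ∧ v (g.derivative.eval θ) = 0

theorem Fr.SR.alg {F : Fr k v r D} {θ : Ω} (h : F.SR θ) : IsAlgebraic F.K θ := by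
  obtain ⟨g, hg, hc, h0, -⟩ := h
  have hPK : ∀ f ∈ F.P, f ∈ F.K := by
    have h1 : F.P ≤ F.K.toSubfield.toSubring := by
      refine Subring.closure_le.2 ?_
      rintro f (⟨c, rfl⟩ | ⟨l, rfl, -⟩ | ⟨j, rfl⟩)
      · exact F.K.algebraMap_mem c
      · change mx F.x l ∈ F.K
        exact prod_mem fun i _ => zpow_mem
          (show F.x i ∈ F.K from IntermediateField.subset_adjoin _ _ (Or.inl ⟨i, rfl⟩)) _
      · exact IntermediateField.subset_adjoin _ _ (Or.inr ⟨j, rfl⟩)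
    exact h1
  have hcK : ∀ i, g.coeff i ∈ F.K := fun i => by
    obtain ⟨a, ha, b, hb, -, -, e⟩ := hc i
    rw [e]
    exact F.K.div_mem (hPK a ha) (hPK b hb)
  obtain ⟨G, hG⟩ : g ∈ Polynomial.lifts (algebraMap F.K Ω) := by
    rw [Polynomial.lifts_iff_coeff_lifts]
    intro i
    exact ⟨⟨g.coeff i, hcK i⟩, rfl⟩
  have hG' : G.map (algebraMap F.K Ω) = g := hG
  refine ⟨G, ?_, ?_⟩
  · rintro rfl
    rw [Polynomial.map_zero] at hG'
    exact hg.ne_zero hG'.symm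
  · rw [aeval_def, ← eval_map, hG', h0]

theorem Fr.SR.mem {h : Ctx k v r} {F : Fr k v r D} {θ : Ω} (hθ : F.SR θ) : θ ∈ F.H := by
  obtain ⟨g, hg, hc, h0, h1, h2⟩ := hθ
  have hP := F.P_nonneg' h
  have hH : HClosed v F.H := hclosed_hensA hP
  have hcH : ∀ i, g.coeff i ∈ F.H := fun i => by
    obtain ⟨a, ha, b, hb, hb0, hvb, e⟩ := hc i
    rw [e, div_eq_mul_inv]
    exact F.H.mul_mem (le_hensA _ ha) (hH.inv b (le_hensA _ hb) hb0 hvb)
  exact hH.root g θ hcH (LU1.ge_of_root hg (fun i => hH.nonneg _ (hcH i)) h0) h0 h1 h2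

theorem Fr.exists_SR [IsAlgClosed Ω] (h : Ctx k v r) (F : Fr k v r D) {f : Ω} (hf : f ∈ F.H) :
    ∃ θ, F.SR θ ∧ ∀ T : Set Ω, θ ∈ T → f ∈ F.RT T := by
  obtain ⟨g, θ, hg, hc, h0, h1, h2, P, Q, hP, hQ, h3, h4, e⟩ := exists_etale (F.P_nonneg' h) hf
  refine ⟨θ, ⟨g, hg, hc, h0, h1, h2⟩, fun T hT => ?_⟩
  have hθ : θ ∈ F.RT T := ALLO.le_locv _ (Algebra.subset_adjoin (Or.inr hT))
  rw [e, div_eq_mul_inv]
  exact (F.RT T).mul_mem (eval_mem (fun i => F.P_le_RT T _ (hP i)) hθ)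
    (ALLO.locv_inv (eval_mem (fun i => F.P_le_RT T _ (hQ i)) hθ) h3 h4)

theorem Fr.fracIs (F : Fr k v r D) (T : Set Ω) :
    FracIs (F.RT T) (IntermediateField.adjoin k (Set.range F.x ∪ Set.range F.y ∪ T)) := by
  set E := IntermediateField.adjoin k (Set.range F.x ∪ Set.range F.y ∪ T) with hE
  refine LU1.fracIs_iff.2 ⟨ALLO.locv_field (LU1.adjoin_field ?_), ?_⟩
  · rintro f ((⟨γ, -, rfl⟩ | ⟨j, rfl⟩) | hf)
    · change (∏ i, F.x i ^ Function.invFun (ph (ofR v) F.x) γ i) ∈ E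
      exact prod_mem fun i _ => zpow_mem
        (show F.x i ∈ E from IntermediateField.subset_adjoin _ _ (Or.inl (Or.inl ⟨i, rfl⟩))) _
    · exact IntermediateField.subset_adjoin _ _ (Or.inl (Or.inr ⟨j, rfl⟩))
    · exact IntermediateField.subset_adjoin _ _ (Or.inr hf)
  · have hch : ∀ γ ∈ (ph (ofR v) F.x).range, ch (ofR v) F.x γ ∈ LU1.quo (F.RT T) := by
      intro γ hγ
      have hmon : ALLO.MonD (ofR v) (ph (ofR v) F.x).range (ch (ofR v) F.x) :=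
        ⟨fun γ _ => ch_ne F.x_ne, fun γ hγ δ hδ => ch_add F.x_ne F.x_ind hγ hδ,
          fun γ hγ => ch_val F.x_ne F.x_ind hγ⟩
      have h1 : ∀ γ ∈ (ph (ofR v) F.x).range, 0 ≤ γ → ch (ofR v) F.x γ ∈ F.RT T :=
        fun γ hγ h0 => ALLO.le_locv _ (Algebra.subset_adjoin (Or.inl (Or.inl ⟨γ, ⟨hγ, h0⟩, rfl⟩)))
      rcases le_total 0 γ with h0 | h0
      · exact LU1.le_quo (h1 γ hγ h0)
      · have h2 := LU1.le_quo (h1 (-γ) (neg_mem hγ) (by linarith))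
        rw [hmon.neg hγ] at h2
        have h3 := (LU1.quo (F.RT T)).inv_mem h2
        rwa [inv_inv] at h3
    refine IntermediateField.adjoin_le_iff.2 ?_
    rintro f ((⟨i, rfl⟩ | ⟨j, rfl⟩) | hf)
    · have h1 := hch _ (F.v_mx_mem (Pi.single i 1))
      rw [F.ch_mx] at h1
      have h2 : mx F.x (Pi.single i 1) = F.x i := ALLO.mo_single F.x i
      rw [h2] at h1
      exact h1
    · exact LU1.le_quo (ALLO.le_locv _ (Algebra.subset_adjoin (Or.inl (Or.inr ⟨j, rfl⟩))))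
    · exact LU1.le_quo (ALLO.le_locv _ (Algebra.subset_adjoin (Or.inr hf)))

/-- The ring is contained in `H`. -/
theorem Fr.RT_le_H (h : Ctx k v r) (F : Fr k v r D) {T : Set Ω} (hT : ∀ θ ∈ T, F.SR θ) :
    ∀ a ∈ F.RT T, a ∈ F.H := by
  have hP := F.P_nonneg' h
  have hH : HClosed v F.H := hclosed_hensA hP
  have hk : ∀ c : k, algebraMap k Ω c ∈ F.H := fun c =>
    le_hensA _ (Subring.subset_closure (Or.inl ⟨c, rfl⟩))
  have h1 : ∀ a ∈ Algebra.adjoin k (F.G0 ∪ T), a ∈ F.H := by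
    intro a ha
    induction ha using Algebra.adjoin_induction with
    | mem x hx =>
      rcases hx with (⟨γ, ⟨hγ, h0⟩, rfl⟩ | ⟨j, rfl⟩) | hx
      · refine le_hensA _ (Subring.subset_closure (Or.inr (Or.inl
          ⟨Function.invFun (ph (ofR v) F.x) γ, rfl, ?_⟩)))
        have h2 := ch_val (v := ofR v) F.x_ne F.x_ind hγ
        change 0 ≤ ofR v _
        rw [h2]
        exact h0
      · exact le_hensA _ (Subring.subset_closure (Or.inr (Or.inr ⟨j, rfl⟩)))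
      · exact (hT x hx).mem (h := h)
    | algebraMap c => exact hk c
    | add x y _ _ hx hy => exact F.H.add_mem hx hy
    | mul x y _ _ hx hy => exact F.H.mul_mem hx hy
  rintro a ⟨b, hb, c, hc, hc0, hvc, rfl⟩
  rw [div_eq_mul_inv]
  exact F.H.mul_mem (h1 b hb) (hH.inv c (h1 c hc) hc0 hvc)

/-- If a product of two elements of `H` is a monomial, both are. -/
theorem Fr.mono_of_mul [IsAlgClosed Ω] [IsAlgClosed k] (h : Ctx k v r) (F : Fr k v r D) {f g : Ω}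
    (hf : f ∈ F.H) (hg : g ∈ F.H) (hfg : F.Mono (f * g)) : F.Mono f := by
  classical
  obtain ⟨l, w, hw, hw0, hvw, e⟩ := hfg
  obtain ⟨θ₁, h1, h1'⟩ := F.exists_SR h hf
  obtain ⟨θ₂, h2, h2'⟩ := F.exists_SR h hg
  obtain ⟨θ₃, h3, h3'⟩ := F.exists_SR h hw
  set T : Finset Ω := {θ₁, θ₂, θ₃} with hT
  have hTS : ∀ θ ∈ T, F.SR θ := by
    intro θ hθ
    rw [hT] at hθ
    simp only [Finset.mem_insert, Finset.mem_singleton] at hθ
    rcases hθ with rfl | rfl | rfl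
    · exact h1
    · exact h2
    · exact h3
  let B := F.lf h T hTS
  have hfR : f ∈ B.R := h1' T (by simp [hT])
  have hgR : g ∈ B.R := h2' T (by simp [hT])
  have hwR : w ∈ B.R := h3' T (by simp [hT])
  have hm0 : mx F.x l ≠ 0 := Finset.prod_ne_zero_iff.2 fun i _ => zpow_ne_zero _ (F.x_ne i)
  have hfg0 : f * g ≠ 0 := by rw [e]; exact mul_ne_zero hm0 hw0
  have hf0 : f ≠ 0 := left_ne_zero_of_mul hfg0
  have hg0 : g ≠ 0 := right_ne_zero_of_mul hfg0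
  have hu : B.UnX B.R f := by
    refine ⟨hf0, LF.InX.of_mem hfR, v (mx F.x l), F.v_mx_mem l, ?_⟩
    change ch (ofR v) F.x (v (mx F.x l)) * f⁻¹ ∈ B.R
    rw [F.ch_mx]
    have h4 : mx F.x l * f⁻¹ = g * w⁻¹ := by
      field_simp
      rw [← e, mul_comm]
    rw [h4]
    exact B.R.mul_mem hgR (B.loc w hwR hw0 hvw)
  have hmono := mono_of_unX' (v := ofR v) h.triv h.res h.rpos B (F.fracIs T)
    (F.trdeg_adjoin T fun θ hθ => (hTS θ hθ).alg) hu
  obtain ⟨-, ⟨m, hm⟩, h5, h6, h7⟩ := hmono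
  have h8 : v (mx F.x m) = v f := by
    have h9 := v_mo (v := ofR v) F.x_ne m
    change v (mx F.x m) = _ at h9
    rw [h9, hm]
    rfl
  have h9 : B.χ (ofR v f) = mx F.x m := by
    change ch (ofR v) F.x (v f) = _
    rw [← h8, F.ch_mx]
  rw [h9] at h5 h6 h7
  have hRH : ∀ a ∈ F.RT T, a ∈ F.H := F.RT_le_H h hTS
  exact ⟨m, f / mx F.x m, hRH _ h5, h6, h7, by
    rw [mul_div_cancel₀]
    exact Finset.prod_ne_zero_iff.2 fun i _ => zpow_ne_zero _ (F.x_ne i)⟩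

/-- A unit of `H[1/x]` is a monomial. -/
theorem Fr.mono_of_unit [IsAlgClosed Ω] [IsAlgClosed k] (h : Ctx k v r) (F : Fr k v r D) {f : Ω}
    (hf : F.InHx f) (hf' : F.InHx f⁻¹) (h0 : f ≠ 0) : F.Mono f := by
  obtain ⟨l, h1⟩ := hf
  obtain ⟨m, h2⟩ := hf'
  have hx : ∀ l : Fin r → ℤ, mx F.x l ≠ 0 := fun l =>
    Finset.prod_ne_zero_iff.2 fun i _ => zpow_ne_zero _ (F.x_ne i)
  have hadd : ∀ l m : Fin r → ℤ, mx F.x (l + m) = mx F.x l * mx F.x m := fun l m => by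
    rw [mx, mx, mx, ← Finset.prod_mul_distrib]
    exact Finset.prod_congr rfl fun i _ => zpow_add₀ (F.x_ne i) _ _
  have h3 : F.Mono ((mx F.x l * f) * (mx F.x m * f⁻¹)) := by
    refine ⟨l + m, 1, F.H.one_mem, one_ne_zero, v.map_one, ?_⟩
    rw [hadd]
    field_simp
  obtain ⟨n, w, hw, hw0, hvw, e⟩ := F.mono_of_mul h h1 h2 h3
  refine ⟨n + -l, w, hw, hw0, hvw, ?_⟩
  have h4 : mx F.x (-l) = (mx F.x l)⁻¹ := by
    refine eq_inv_of_mul_eq_one_left ?_
    rw [← hadd, neg_add_cancel]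
    simp [mx]
  rw [hadd, h4]
  have h5 := hx l
  field_simp
  rw [mul_comm, e]

end

end Pool.Agent.TW
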