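import Pool.Agent.Lib.TW.E5
import Pool.Agent.Lib.TW.E9a
import Pool.Agent.Lib.TW.Up
import Pool.Agent.Lib.TW.P2b
import Pool.Agent.Lib.TW.HRLUa

/-!
# TANK W, row E10: frames of `F(z)` from frames of `k(S')` (the rows E7 - E9 are hypotheses)
-/

set_option autoImplicit false

open Polynomial

namespace Pool.Agent.TW

open Pool.Agent.H15JM (RVal)
open Pool.Agent.LU1 (VPos adj)
open Pool.Agent.LUC (Cl clF lv)
open Pool.Agent.D2 (Ctx0)
open Pool.Agent.D2P (hen)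

universe u

variable {k Ω : Type u} [Field k] [Field Ω] [Algebra k Ω] {v : RVal Ω} {r D : ℕ}

namespace E10

/-- A frame with one more parameter. -/
noncomputable def snocFr (F : Fr k v r D) {X : Ω} (hX0 : X ≠ 0) (hX : 0 < v X)
    (htr : Transcendental F.K X) : Fr k v r (D + 1) where
  x := F.x
  y := Fin.snoc F.y X
  x_ne := F.x_ne
  x_ind := F.x_ind
  y_ne := by
    refine Fin.lastCases ?_ fun i => ?_
    · rw [Fin.snoc_last]; exact hX0
    · rw [Fin.snoc_castSucc]; exact F.y_ne i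
  y_pos := by
    refine Fin.lastCases ?_ fun i => ?_
    · rw [Fin.snoc_last]; exact hX
    · rw [Fin.snoc_castSucc]; exact F.y_pos i
  alg := by
    have h1 : Transcendental (Algebra.adjoin k (Set.range (Sum.elim F.x F.y))) X := by
      intro h2
      refine htr ?_
      have h3 : F.K = IntermediateField.adjoin k (Set.range (Sum.elim F.x F.y)) := by
        rw [Fr.K, Set.Sum.elim_range]
      rw [h3]
      have h4 : Algebra.adjoin k (Set.range (Sum.elim F.x F.y)) ≤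
          (IntermediateField.adjoin k (Set.range (Sum.elim F.x F.y))).toSubalgebra :=
        IntermediateField.algebra_adjoin_le_adjoin _ _
      exact IsAlgebraic.tower_top_of_subalgebra_le h4 h2
    have h2 := (F.alg.option_iff_transcendental X).2 h1
    let e : Fin r ⊕ Fin (D + 1) → Option (Fin r ⊕ Fin D) :=
      Sum.elim (fun i => some (Sum.inl i)) (Fin.lastCases none fun j => some (Sum.inr j))
    have he : Function.Injective e := by
      rintro (i | j) (i' | j') h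
      · simpa [e] using h
      · refine Fin.lastCases (fun h => ?_) (fun j' h => ?_) j' h <;> simp [e] at h
      · refine Fin.lastCases (fun h => ?_) (fun j h => ?_) j h <;> simp [e] at h
      · revert h
        refine Fin.lastCases (fun h => ?_) (fun j h => ?_) j
        · revert h
          refine Fin.lastCases (fun _ => rfl) (fun j' h => ?_) j'
          simp [e] at h
        · revert h
          refine Fin.lastCases (fun h => ?_) (fun j' h => ?_) j'
          · simp [e] at h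
          · simp [e] at h
            rw [h]
    have h3 := h2.comp e he
    have h4 : (fun o : Option (Fin r ⊕ Fin D) => o.elim X (Sum.elim F.x F.y)) ∘ e =
        Sum.elim F.x (Fin.snoc F.y X : Fin (D + 1) → Ω) := by
      funext i
      rcases i with i | j
      · rfl
      · refine Fin.lastCases ?_ (fun j => ?_) j
        · simp [e]
        · simp [e]
    rwa [h4] at h3

/-- The henselian ring generated by the frame and `X`. -/
def HX (F : Fr k v r D) (X : Ω) : Subring Ω := hensA v (Subring.closure ((F.H : Set Ω) ∪ {X}))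

theorem hclosed_HX (h : Ctx k v r) (F : Fr k v r D) {X : Ω} (hX : 0 < v X) :
    HClosed v (HX F X) := by
  refine hclosed_hensA ?_
  have h1 : Subring.closure ((F.H : Set Ω) ∪ {X}) ≤ OVt v := by
    rw [Subring.closure_le]
    rintro a (ha | ha)
    · exact (F.hclosed h).nonneg a ha
    · rw [Set.mem_singleton_iff.1 ha]
      exact fun _ => hX.le
  exact fun a ha => h1 ha

theorem H_le_HX (F : Fr k v r D) (X : Ω) : F.H ≤ HX F X := fun _ ha =>
  le_hensA _ (Subring.subset_closure (Or.inl ha))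

theorem X_mem_HX (F : Fr k v r D) (X : Ω) : X ∈ HX F X :=
  le_hensA _ (Subring.subset_closure (Or.inr rfl))

theorem snoc_mx (F : Fr k v r D) {X : Ω} (hX0 : X ≠ 0) (hX : 0 < v X)
    (htr : Transcendental F.K X) (l : Fin r → ℤ) : mx (snocFr F hX0 hX htr).x l = mx F.x l := rfl

theorem snoc_H (h : Ctx k v r) (F : Fr k v r D) {X : Ω} (hX0 : X ≠ 0) (hX : 0 < v X)
    (htr : Transcendental F.K X) : (snocFr F hX0 hX htr).H = HX F X := by
  set G := snocFr F hX0 hX htr with hG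
  apply le_antisymm
  · refine hensA_le ?_ (hclosed_HX h F hX)
    refine Subring.closure_le.2 ?_
    rintro a (⟨c, rfl⟩ | ⟨l, rfl, hl⟩ | ⟨j, rfl⟩)
    · exact H_le_HX F X (P1.P_le_H F (P1.k_mem_P F c))
    · exact H_le_HX F X (P1.P_le_H F (P1.mx_mem_P F hl))
    · refine Fin.lastCases ?_ (fun j => ?_) j
      · change (Fin.snoc F.y X : Fin (D + 1) → Ω) _ ∈ HX F X
        rw [Fin.snoc_last]
        exact X_mem_HX F X
      · change (Fin.snoc F.y X : Fin (D + 1) → Ω) _ ∈ HX F X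
        rw [Fin.snoc_castSucc]
        exact H_le_HX F X (P1.P_le_H F (P1.y_mem_P F j))
  · refine hensA_le ?_ (G.hclosed h)
    rw [Subring.closure_le]
    have hy : ∀ j : Fin (D + 1), G.y j ∈ G.H := fun j => P1.P_le_H G (P1.y_mem_P G j)
    rintro a (ha | ha)
    · refine hensA_le ?_ (G.hclosed h) ha
      refine Subring.closure_le.2 ?_
      rintro a (⟨c, rfl⟩ | ⟨l, rfl, hl⟩ | ⟨j, rfl⟩)
      · exact P1.P_le_H G (P1.k_mem_P G c)
      · exact P1.P_le_H G (P1.mx_mem_P G (l := l) hl)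
      · have h1 := hy j.castSucc
        change (Fin.snoc F.y X : Fin (D + 1) → Ω) _ ∈ G.H at h1
        rwa [Fin.snoc_castSucc] at h1
    · rw [Set.mem_singleton_iff.1 ha]
      have h1 := hy (Fin.last D)
      change (Fin.snoc F.y X : Fin (D + 1) → Ω) _ ∈ G.H at h1
      rwa [Fin.snoc_last] at h1

/-- The ring `HX[1/x]`. -/
def BX (F : Fr k v r D) (X : Ω) : Subring Ω where
  carrier := {f | ∃ l : Fin r → ℤ, 0 ≤ v (mx F.x l) ∧ mx F.x l * f ∈ HX F X}
  mul_mem' := by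
    rintro f g ⟨l, hl, h1⟩ ⟨m, hm, h2⟩
    refine ⟨l + m, ?_, ?_⟩
    · rw [P1.mx_add F.x_ne, v.map_mul (P1.mx_ne F.x_ne l) (P1.mx_ne F.x_ne m)]
      linarith
    · rw [P1.mx_add F.x_ne, mul_mul_mul_comm]
      exact mul_mem h1 h2
  one_mem' := ⟨0, by rw [P1.mx_zero, v.map_one], by rw [P1.mx_zero, one_mul]; exact one_mem _⟩
  add_mem' := by
    rintro f g ⟨l, hl, h1⟩ ⟨m, hm, h2⟩
    have h3 : ∀ l : Fin r → ℤ, 0 ≤ v (mx F.x l) → mx F.x l ∈ HX F X := fun l hl =>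
      H_le_HX F X (P1.P_le_H F (P1.mx_mem_P F hl))
    refine ⟨l + m, ?_, ?_⟩
    · rw [P1.mx_add F.x_ne, v.map_mul (P1.mx_ne F.x_ne l) (P1.mx_ne F.x_ne m)]
      linarith
    · rw [P1.mx_add F.x_ne]
      have e : mx F.x l * mx F.x m * (f + g) = mx F.x m * (mx F.x l * f) +
          mx F.x l * (mx F.x m * g) := by ring
      rw [e]
      exact add_mem (mul_mem (h3 m hm) h1) (mul_mem (h3 l hl) h2)
  zero_mem' := ⟨0, by rw [P1.mx_zero, v.map_one], by rw [mul_zero]; exact zero_mem _⟩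
  neg_mem' := by
    rintro f ⟨l, hl, h1⟩
    exact ⟨l, hl, by rw [mul_neg]; exact neg_mem h1⟩

theorem mem_BX {F : Fr k v r D} {X f : Ω} : f ∈ BX F X ↔
    ∃ l : Fin r → ℤ, 0 ≤ v (mx F.x l) ∧ mx F.x l * f ∈ HX F X := Iff.rfl

theorem mx_mem_HX (F : Fr k v r D) (X : Ω) {l : Fin r → ℤ} (hl : 0 ≤ v (mx F.x l)) :
    mx F.x l ∈ HX F X := H_le_HX F X (P1.P_le_H F (P1.mx_mem_P F hl))

theorem mx_neg_val (F : Fr k v r D) (l : Fin r → ℤ) : v (mx F.x (-l)) = - v (mx F.x l) := by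
  rw [P1.mx_neg F.x_ne, v.map_inv (P1.mx_ne F.x_ne l)]

theorem mx_mem_BX (F : Fr k v r D) (X : Ω) (l : Fin r → ℤ) : mx F.x l ∈ BX F X := by
  rcases le_total 0 (v (mx F.x l)) with h | h
  · exact ⟨0, by rw [P1.mx_zero, v.map_one], by
      rw [P1.mx_zero, one_mul]; exact mx_mem_HX F X h⟩
  · refine ⟨-l, by rw [mx_neg_val]; linarith, ?_⟩
    rw [P1.mx_neg F.x_ne, inv_mul_cancel₀ (P1.mx_ne F.x_ne l)]
    exact one_mem _

theorem HX_le_BX (F : Fr k v r D) (X : Ω) : HX F X ≤ BX F X := fun f hf =>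
  ⟨0, by rw [P1.mx_zero, v.map_one], by rw [P1.mx_zero, one_mul]; exact hf⟩

theorem mem_BX' {F : Fr k v r D} {X f : Ω} : f ∈ BX F X ↔
    ∃ l : Fin r → ℤ, mx F.x l * f ∈ HX F X := by
  constructor
  · rintro ⟨l, -, h⟩
    exact ⟨l, h⟩
  · rintro ⟨l, h⟩
    have h1 : f = mx F.x (-l) * (mx F.x l * f) := by
      rw [P1.mx_neg F.x_ne, inv_mul_cancel_left₀ (P1.mx_ne F.x_ne l)]
    rw [h1]
    exact mul_mem (mx_mem_BX F X _) (HX_le_BX F X h)

theorem mono_BX {F : Fr k v r D} (X : Ω) (h : Ctx k v r) {w : Ω} (hw : F.Mono w) :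
    w ∈ BX F X ∧ w⁻¹ ∈ BX F X := by
  obtain ⟨l, u, hu, hu0, hvu, rfl⟩ := hw
  refine ⟨mul_mem (mx_mem_BX F X l) (HX_le_BX F X (H_le_HX F X hu)), ?_⟩
  rw [mul_inv, ← P1.mx_neg F.x_ne]
  exact mul_mem (mx_mem_BX F X _) (HX_le_BX F X (H_le_HX F X ((F.hclosed h).inv u hu hu0 hvu)))

section Ev

variable {p : ℕ} {F : IntermediateField k Ω} {z η : Ω} {ρ b₁ b ε : ℝ}

/-- `Φ` holds for all frames in which finitely many elements of `k(S')` are monomials. -/
def Ev (d : SD p k v r D F z η ρ b₁ b ε) (Φ : Fr k v r D → Prop) : Prop :=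
  ∃ W : Finset Ω, (∀ w ∈ W, w ∈ d.S'.K ∧ w ≠ 0) ∧ ∀ G : Fr k v r D, (∀ w ∈ W, G.Mono w) → Φ G

variable {d : SD p k v r D F z η ρ b₁ b ε}

theorem Ev.of {Φ : Fr k v r D → Prop} (h : ∀ G, Φ G) : Ev d Φ :=
  ⟨∅, by simp, fun G _ => h G⟩

theorem Ev.mono {Φ Ψ : Fr k v r D → Prop} (h1 : Ev d Φ) (h : ∀ G, Φ G → Ψ G) : Ev d Ψ := by
  obtain ⟨W, hW, h2⟩ := h1
  exact ⟨W, hW, fun G hG => h G (h2 G hG)⟩

theorem Ev.and {Φ Ψ : Fr k v r D → Prop} (h1 : Ev d Φ) (h2 : Ev d Ψ) :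
    Ev d (fun G => Φ G ∧ Ψ G) := by
  classical
  obtain ⟨W, hW, h3⟩ := h1
  obtain ⟨W', hW', h4⟩ := h2
  refine ⟨W ∪ W', fun w hw => ?_, fun G hG => ⟨h3 G fun w hw => hG w (Finset.mem_union_left _ hw),
    h4 G fun w hw => hG w (Finset.mem_union_right _ hw)⟩⟩
  rcases Finset.mem_union.1 hw with hw | hw
  · exact hW w hw
  · exact hW' w hw

theorem Ev.all {ι : Type*} (s : Finset ι) {Φ : ι → Fr k v r D → Prop}
    (h : ∀ i ∈ s, Ev d (Φ i)) : Ev d (fun G => ∀ i ∈ s, Φ i G) := by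
  classical
  induction s using Finset.induction_on with
  | empty => exact Ev.of fun G i hi => absurd hi (Finset.notMem_empty i)
  | insert a s _ ih =>
    refine ((h a (Finset.mem_insert_self a s)).and
      (ih fun i hi => h i (Finset.mem_insert_of_mem hi))).mono ?_
    rintro G ⟨h1, h2⟩ i hi
    rcases Finset.mem_insert.1 hi with rfl | hi
    · exact h1
    · exact h2 i hi

theorem Ev.allF {ι : Type*} [Fintype ι] {Φ : ι → Fr k v r D → Prop}
    (h : ∀ i, Ev d (Φ i)) : Ev d (fun G => ∀ i, Φ i G) :=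
  (Ev.all Finset.univ fun i _ => h i).mono fun _ hG i => hG i (Finset.mem_univ i)

theorem Ev.elt {w : Ω} (hw : w ∈ d.S'.K) (hw0 : w ≠ 0) : Ev d (fun G => G.Mono w) := by
  refine ⟨{w}, fun w' hw' => ?_, fun G hG => hG w (Finset.mem_singleton_self w)⟩
  rw [Finset.mem_singleton.1 hw']
  exact ⟨hw, hw0⟩

theorem ev_A (h : Ctx k v r) (hXp : d.X ≠ 0 ∧ 0 < v d.X) {f : Ω} (hf : f ∈ d.A) :
    Ev d (fun G => f ∈ HX G d.X) := by
  classical
  have hnn : ∀ a ∈ Subring.closure d.gA, v.Ge 0 a := by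
    have h1 : Subring.closure d.gA ≤ OVt v := by
      rw [Subring.closure_le]
      rintro a (ha | ha)
      · exact ha.2
      · rw [Set.mem_singleton_iff.1 ha]
        exact fun _ => hXp.2.le
    exact fun a ha => h1 ha
  obtain ⟨T, hT, hfT⟩ := hensA_finite (v := v) hnn hf
  refine ⟨T.filter fun w => w ∈ d.S'.K ∧ w ≠ 0, fun w hw => (Finset.mem_filter.1 hw).2, ?_⟩
  intro G hG
  refine hensA_le ?_ (hclosed_HX h G hXp.2) hfT
  rw [Subring.closure_le]
  intro a ha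
  rcases hT ha with h1 | h1
  · by_cases h0 : a = 0
    · rw [h0]; exact zero_mem _
    · exact H_le_HX G _ (P2.Mono.mem (hG a (Finset.mem_filter.2 ⟨ha, h1.1, h0⟩)) (h1.2 h0))
  · rw [Set.mem_singleton_iff.1 h1]
    exact X_mem_HX G _

theorem ev_B (h : Ctx k v r) (hXp : d.X ≠ 0 ∧ 0 < v d.X) {f n : Ω} (hn : n ∈ d.S'.K)
    (hn0 : n ≠ 0) (hf : n * f ∈ d.A) : Ev d (fun G => f ∈ BX G d.X) := by
  refine ((Ev.elt hn hn0).and (ev_A h hXp hf)).mono ?_
  rintro G ⟨h1, h2⟩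
  have h3 : f = n⁻¹ * (n * f) := by rw [inv_mul_cancel_left₀ hn0]
  rw [h3]
  exact mul_mem (mono_BX d.X h h1).2 (HX_le_BX G _ h2)

/-- elements of `k(S')` of large value -/
theorem exists_big (h : Ctx k v r) (G : Fr k v r D) (c : ℝ) : ∃ m ∈ G.K, m ≠ 0 ∧ c ≤ v m := by
  obtain ⟨l, hl⟩ := P2.exists_pos h G
  obtain ⟨n, hn⟩ := exists_nat_ge (c / v (mx G.x l))
  refine ⟨mx G.x l ^ n, ?_, pow_ne_zero _ (P1.mx_ne G.x_ne l), ?_⟩
  · exact pow_mem (P2.mx_mem (P2.x_mem_K G) l) n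
  · rw [v.map_pow (P1.mx_ne G.x_ne l)]
    rw [div_le_iff₀ hl] at hn
    exact hn

/-- values are commensurable with the values of the frame -/
theorem exists_val (h : Ctx k v r) (G : Fr k v r D) {g : Ω} (hg : g ≠ 0) :
    ∃ e : ℕ, 0 < e ∧ ∃ m ∈ G.K, m ≠ 0 ∧ v m = e * v g := by
  obtain ⟨X, hX0, hXi, hX⟩ := h.rank
  have hspan : ∀ g : Ω, g ≠ 0 → v g ∈ Submodule.span ℚ (Set.range fun i => v (G.x i)) := by
    have hle : Submodule.span ℚ (Set.range fun i => v (G.x i)) ≤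
        Submodule.span ℚ (Set.range fun i => v (X i)) := by
      rw [Submodule.span_le]
      rintro _ ⟨i, rfl⟩
      exact hX (G.x i) (G.x_ne i)
    have hfin : FiniteDimensional ℚ (Submodule.span ℚ (Set.range fun i => v (X i))) :=
      FiniteDimensional.span_of_finite ℚ (Set.finite_range _)
    have heq := Submodule.eq_of_le_of_finrank_eq hle (by
      rw [finrank_span_eq_card G.x_ind, finrank_span_eq_card hXi])
    intro g hg
    rw [heq]
    exact hX g hg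
  obtain ⟨m, hm, c, hc, hc0, h1⟩ :=
    (full_of_span (E := G.K) (x := G.x) (fun i => ⟨P2.x_mem_K G i, G.x_ne i⟩) hspan g hg :
      ∃ m : ℕ, 0 < m ∧ ∃ c ∈ G.K, c ≠ 0 ∧ v c = m * v g)
  exact ⟨m, hm, c, hc, hc0, h1⟩

/-- polynomials in `z` are in `A` up to a denominator in `k(S')` -/
theorem exists_clear [Fact p.Prime] [CharP k p] [CharP Ω p] [IsAlgClosed Ω] [IsAlgClosed k]
    (h : Ctx k v r) (hkey : ∀ f, Reg v F z η b₁ b 0 f → f ∈ d.A) (P : F[X]) :
    ∃ n ∈ d.S'.K, n ≠ 0 ∧ n * aeval z P ∈ d.A := by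
  classical
  let c : ℝ := - ∑ j ∈ Finset.range ((P.map (algebraMap F Ω)).natDegree + 1),
    |v (tc F η P j) + j * b|
  have hc : GN v F η b c P := by
    intro j hj
    have h1 : j ∈ Finset.range ((P.map (algebraMap F Ω)).natDegree + 1) := by
      rw [Finset.mem_range]
      by_contra h2
      refine hj ?_
      rw [tc]
      refine coeff_eq_zero_of_natDegree_lt ?_
      rw [natDegree_taylor]
      omega
    have h2 := Finset.single_le_sum (f := fun j : ℕ => |v (tc F η P j) + j * b|)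
      (fun j _ => abs_nonneg _) h1
    have h3 := neg_abs_le (v (tc F η P j) + j * b)
    have h4 : c ≤ - |v (tc F η P j) + j * b| := by
      change - _ ≤ - _
      linarith
    linarith
  obtain ⟨n, hn, hn0, hnc⟩ := exists_big h d.S' (-c)
  refine ⟨n, hn, hn0, hkey _ ?_⟩
  exact ((d.reg_mem h hn hn0).mul (Reg.of_GN hc)).mono (by linarith)

end Ev

section Main

variable {p : ℕ} [hp : Fact p.Prime] [CharP k p] [CharP Ω p] [IsAlgClosed Ω] [IsAlgClosed k]
  {F : IntermediateField k Ω} {z η : Ω} {ρ b₁ b ε : ℝ} {d : SD p k v r D F z η ρ b₁ b ε}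

omit hp [CharP k p] [CharP Ω p] [IsAlgClosed Ω] [IsAlgClosed k] in
theorem aeval_mem_adj (P : F[X]) : aeval z P ∈ adj F z := by
  rw [aeval_eq_sum_range]
  refine sum_mem fun i _ => ?_
  rw [Algebra.smul_def]
  exact mul_mem ((D2P.mem_adj_self F z).2 (P.coeff i).2) (pow_mem (D2P.mem_adj_self F z).1 i)

omit hp [CharP k p] [CharP Ω p] [IsAlgClosed Ω] [IsAlgClosed k] in
theorem K_le_adj (d : SD p k v r D F z η ρ b₁ b ε) : d.S'.K ≤ adj F z := by
  rw [Fr.K_eq, IntermediateField.adjoin_le_iff]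
  rintro _ ⟨i, rfl⟩
  obtain ⟨P, -, -, hP⟩ := d.star i
  rw [SetLike.mem_coe, ← hP]
  exact aeval_mem_adj P

/-- `X` is transcendental over the fields of the frames. -/
theorem X_tr (h : Ctx k v r) (hXp : d.X ≠ 0 ∧ 0 < v d.X)
    (hfrac : ∀ f ∈ adj F z, InFrac d.A f) (htr : Algebra.trdeg k F = ((r + D : ℕ)))
    (G : Fr k v r D) (hG : G.IsFr d.S'.K) : Transcendental G.K d.X := by
  intro hX
  set W : IntermediateField k Ω := TGL44.Wc G.K with hWdef
  have hKW : d.S'.K ≤ W := by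
    intro a ha
    have h1 : a ∈ hen v G.K := by
      rw [← Fr.IsFr.hen_eq p h hG]
      exact D2P.le_hen _ ha
    exact TGL44.mem_Wc.2 (D2P.mem_hen.1 h1).2.isIntegral.isAlgebraic
  have hXW : d.X ∈ W := TGL44.mem_Wc.2 hX
  have hA : d.A ≤ OV v (hen v W) := by
    refine hensA_le ?_ (H2aux.hclosed_OV_hen h.toCtx0 W)
    rw [Subring.closure_le]
    rintro a (ha | ha)
    · exact ⟨D2P.le_hen W (hKW ha.1), ha.2⟩
    · rw [Set.mem_singleton_iff.1 ha]
      exact ⟨D2P.le_hen W hXW, fun _ => hXp.2.le⟩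
  have hzW : adj F z ≤ hen v W := by
    intro f hf
    obtain ⟨a, ha, c, hc, -, e⟩ := hfrac f hf
    rw [e]
    exact div_mem (hA ha).1 (hA hc).1
  have h1 : Algebra.trdeg k (adj F z) ≤ Algebra.trdeg k (hen v W) :=
    _root_.trdeg_le_of_injective (IntermediateField.inclusion hzW)
      (IntermediateField.inclusion_injective hzW)
  rw [HRLU.trdeg_hen, TGL44.trdeg_Wc, G.trdeg_K, HRLU.trdeg_adj d.cen.tr, htr] at h1
  have h2 : ((r + D + 1 : ℕ) : Cardinal.{u}) ≤ ((r + D : ℕ) : Cardinal.{u}) := by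
    push_cast at h1 ⊢
    exact h1
  rw [Nat.cast_le] at h2
  omega

omit [CharP k p] [IsAlgClosed Ω] [IsAlgClosed k] [CharP Ω p] hp in
theorem ev_co (h : Ctx k v r) (hXp : d.X ≠ 0 ∧ 0 < v d.X) {n : ℕ} {T : Fin n → Ω}
    (hpca : ∀ f ∈ d.A, ∃ c : (Fin n → Fin p) → Ω,
      (∀ α, ∃ m ∈ OV v d.S'.K, m ≠ 0 ∧ m * c α ∈ d.A) ∧ f = pcomb T c) {g : Ω}
    (hg : g ∈ d.A) : Ev d (fun G => E9.Co p T (BX G d.X) g) := by
  obtain ⟨c, hc, rfl⟩ := hpca g hg
  have h1 : Ev d (fun G => ∀ α, c α ∈ BX G d.X) := Ev.allF fun α => by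
    obtain ⟨m, hm, hm0, hmc⟩ := hc α
    exact ev_B h hXp hm.1 hm0 hmc
  exact h1.mono fun G hG => ⟨c, hG, rfl⟩

omit [CharP k p] [CharP Ω p] [IsAlgClosed Ω] [IsAlgClosed k] in
theorem ev_coS (h : Ctx k v r) (hXp : d.X ≠ 0 ∧ 0 < v d.X) {n : ℕ} {T : Fin n → Ω}
    (hpca : ∀ f ∈ d.A, ∃ c : (Fin n → Fin p) → Ω,
      (∀ α, ∃ m ∈ OV v d.S'.K, m ≠ 0 ∧ m * c α ∈ d.A) ∧ f = pcomb T c) (i : Fin (r + D)) :
    Ev d (fun G => E9.Co p T (BX G d.X) (d.S'.s i)) := by
  obtain ⟨μ, hμ, hμ0, hμv⟩ := exists_big h d.S' (|v (d.S'.s i)|)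
  have hs0 : d.S'.s i ≠ 0 := P1.s_ne d.S' i
  have hsK : d.S'.s i ∈ d.S'.K := by
    rw [Fr.K_eq]
    exact IntermediateField.subset_adjoin _ _ ⟨i, rfl⟩
  have hg : μ ^ p * d.S'.s i ∈ d.A := by
    refine le_hensA _ (Subring.subset_closure (Or.inl ⟨mul_mem (pow_mem hμ p) hsK, fun _ => ?_⟩))
    rw [v.map_mul (pow_ne_zero _ hμ0) hs0, v.map_pow hμ0]
    have h1 := neg_abs_le (v (d.S'.s i))
    have h2 : (1 : ℝ) ≤ p := by exact_mod_cast hp.out.one_le
    have h3 := abs_nonneg (v (d.S'.s i))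
    nlinarith
  refine ((ev_co h hXp hpca hg).and (Ev.elt hμ hμ0)).mono ?_
  rintro G ⟨h1, h2⟩
  have h3 := E9.Co.pmul (mono_BX d.X h h2).2 h1
  have h4 : μ⁻¹ ^ p * (μ ^ p * d.S'.s i) = d.S'.s i := by
    rw [← mul_assoc, ← mul_pow, inv_mul_cancel₀ hμ0, one_pow, one_mul]
  rwa [h4] at h3

omit [IsAlgClosed Ω] in
theorem pcomb_mem {n m : ℕ} {T : Fin n → Ω} {B : Subring Ω} (hT : ∀ i, T i ∈ B)
    {s : Fin m → Ω} (hs : ∀ i, E9.Co p T B (s i)) {c : (Fin m → Fin p) → Ω}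
    (hc : ∀ α, c α ∈ B) : E9.Co p T B (pcomb s c) := by
  refine E9.Co.sum _ _ fun α _ => E9.Co.pmul (hc α) ?_
  have h1 : ∀ i, s i ∈ E9.CoR p hT := hs
  have h2 : mon s α ∈ E9.CoR p hT := prod_mem fun i _ => pow_mem (h1 i) _
  exact h2

theorem frame_of (h : Ctx k v r) (d : SD p k v r D F z η ρ b₁ b ε) (hF : F.FG)
    (hXp : d.X ≠ 0 ∧ 0 < v d.X) (hkey : ∀ f, Reg v F z η b₁ b 0 f → f ∈ d.A)
    (hfrac : ∀ f ∈ adj F z, InFrac d.A f) {t : Fin (r + D) → Ω} (ht : PBasis p F t)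
    (hpca : ∀ f ∈ d.A, ∃ c : (Fin (r + D + 1) → Fin p) → Ω,
      (∀ α, ∃ m ∈ OV v d.S'.K, m ≠ 0 ∧ m * c α ∈ d.A) ∧
      f = pcomb (Fin.snoc t z : Fin (r + D + 1) → Ω) c)
    (hLU : LU p v r d.S'.K) (Z : Finset Ω)
    (hZ : ∀ f ∈ Z, f ∈ adj F z ∧ f ≠ 0 ∧ Reg v F z η b₁ b (v f) f ∧
      Reg v F z η b₁ b (-v f) f⁻¹) :
    ∃ G : Fr k v r (D + 1), G.IsFr (adj F z) ∧ (∀ f ∈ Z, G.Mono f) ∧
      G.PC p (Fin.snoc t z : Fin (r + D + 1) → Ω) := by
  classical
  set T : Fin (r + D + 1) → Ω := Fin.snoc t z with hTdef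
  have htr := (PBasis.trdeg p hF ht).1
  have hXA : d.X ∈ d.A := le_hensA _ (Subring.subset_closure (Or.inr rfl))
  -- the `p`-basis
  have e1 : Ev d (fun G => ∀ i, T i ∈ BX G d.X) := by
    refine Ev.allF fun i => ?_
    obtain ⟨P, hP⟩ : ∃ P : F[X], aeval z P = T i := by
      refine Fin.lastCases ?_ (fun i => ?_) i
      · exact ⟨Polynomial.X, by rw [hTdef, Fin.snoc_last, aeval_X]⟩
      · exact ⟨C ⟨t i, ht.mem i⟩, by rw [hTdef, Fin.snoc_castSucc, aeval_C]; rfl⟩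
    obtain ⟨n, hn, hn0, h1⟩ := exists_clear h hkey P
    rw [hP] at h1
    exact ev_B h hXp hn hn0 h1
  -- the generators of the field
  obtain ⟨Sg, hSg⟩ := hF
  have e2 : Ev d (fun G => ∀ g ∈ insert z Sg, InFrac (HX G d.X) g) := by
    refine Ev.all _ fun g hg => ?_
    have hgz : g ∈ adj F z := by
      rcases Finset.mem_insert.1 hg with rfl | hg
      · exact (D2P.mem_adj_self F _).1
      · refine (D2P.mem_adj_self F z).2 ?_
        rw [← hSg]
        exact IntermediateField.subset_adjoin _ _ hg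
    obtain ⟨a, ha, c, hc, hc0, e⟩ := hfrac g hgz
    refine ((ev_A h hXp ha).and (ev_A h hXp hc)).mono ?_
    rintro G ⟨h1, h2⟩
    exact ⟨a, h1, c, h2, hc0, e⟩
  -- the elements of `Z`
  have e3 : Ev d (fun G => ∀ f ∈ Z, ∃ e : ℕ, 0 < e ∧ ∃ m n : Ω, G.Mono m ∧ G.Mono n ∧
      v m = e * v f ∧ f ^ e / m ∈ HX G d.X ∧ n * f ∈ HX G d.X) := by
    refine Ev.all _ fun f hf => ?_
    obtain ⟨hfz, hf0, hr1, hr2⟩ := hZ f hf
    obtain ⟨e, he, m, hm, hm0, hmv⟩ := exists_val h d.S' hf0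
    obtain ⟨n, hn, hn0, hnv⟩ := exists_big h d.S' (-v f)
    have h1 : f ^ e / m ∈ d.A := by
      refine hkey _ ?_
      have h2 := (E5Aux.Reg.pow h d hr1 e).mul (d.reg_mem h (inv_mem hm) (inv_ne_zero hm0))
      rw [v.map_inv hm0, hmv, add_neg_cancel] at h2
      rwa [div_eq_mul_inv]
    have h2 : n * f ∈ d.A := by
      refine hkey _ (((d.reg_mem h hn hn0).mul hr1).mono ?_)
      linarith
    refine (((Ev.elt hm hm0).and (Ev.elt hn hn0)).and ((ev_A h hXp h1).and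
      (ev_A h hXp h2))).mono ?_
    rintro G ⟨⟨h3, h4⟩, h5, h6⟩
    exact ⟨e, he, m, n, h3, h4, hmv, h5, h6⟩
  have e4 : Ev d (fun G => (∀ i, E9.Co p T (BX G d.X) (d.S'.s i)) ∧
      E9.Co p T (BX G d.X) d.X) :=
    (Ev.allF fun i => ev_coS h hXp hpca i).and (ev_co h hXp hpca hXA)
  obtain ⟨W, hW, hWG⟩ := (e1.and e2).and (e3.and e4)
  obtain ⟨G₀, hG₀, hmono₀, hpc₀⟩ := hLU D d.S'.s d.pb' W hW
  obtain ⟨⟨hT, hgen⟩, hmono, hcoS, hcoX⟩ := hWG G₀ hmono₀
  have htrX := X_tr h hXp hfrac htr G₀ hG₀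
  have hKz := K_le_adj d
  have hXz : d.X ∈ adj F z := div_mem (aeval_mem_adj _) (hKz d.q_mem)
  set G := snocFr G₀ hXp.1 hXp.2 htrX with hGdef
  have hH : G.H = HX G₀ d.X := snoc_H h G₀ hXp.1 hXp.2 htrX
  have hIn : ∀ f, G.InHx f ↔ f ∈ BX G₀ d.X := fun f => by
    rw [mem_BX', ← hH]
    rfl
  have hMo : ∀ m, G₀.Mono m → G.Mono m := by
    rintro m ⟨l, w, hw, hw0, hvw, e⟩
    exact ⟨l, w, by rw [hH]; exact H_le_HX G₀ _ hw, hw0, hvw, e⟩
  refine ⟨G, ⟨fun i => hKz (hG₀.x_mem i), ?_, ?_⟩, ?_, ?_, ?_⟩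
  · refine Fin.lastCases ?_ fun j => ?_
    · change (Fin.snoc G₀.y d.X : Fin (D + 1) → Ω) _ ∈ adj F z
      rw [Fin.snoc_last]
      exact hXz
    · change (Fin.snoc G₀.y d.X : Fin (D + 1) → Ω) _ ∈ adj F z
      rw [Fin.snoc_castSucc]
      exact hKz (hG₀.y_mem j)
  · -- the field of fractions
    have hk : ∀ c : k, algebraMap k Ω c ∈ fracF G.H := fun c =>
      le_fracF (P1.P_le_H G (P1.k_mem_P G c))
    have h1 : adj F z ≤ Subfield.toIntermediateField (fracF G.H) hk := by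
      refine sup_le ?_ ?_
      · rw [← hSg, IntermediateField.adjoin_le_iff]
        intro g hg
        have h2 := hgen g (Finset.mem_insert_of_mem hg)
        rw [← hH] at h2
        exact h2
      · rw [IntermediateField.adjoin_le_iff]
        intro g hg
        rw [Set.mem_singleton_iff.1 hg]
        have h2 := hgen z (Finset.mem_insert_self _ _)
        rw [← hH] at h2
        exact h2
    exact fun e he => h1 he
  · -- monomials
    intro f hf
    obtain ⟨e, he, m, n, hm, hn, hmv, h1, h2⟩ := hmono f hf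
    have hf0 := (hZ f hf).2.1
    have hm' := hMo m hm
    have hn' := hMo n hn
    have hm0 : m ≠ 0 := P2.Mono.ne_zero hm'
    have hn0 : n ≠ 0 := P2.Mono.ne_zero hn'
    rw [← hH] at h1 h2
    have h3 : G.Mono (f ^ e / m) := by
      refine ⟨0, f ^ e / m, h1, div_ne_zero (pow_ne_zero _ hf0) hm0, ?_, ?_⟩
      · rw [v.map_div (pow_ne_zero _ hf0) hm0, v.map_pow hf0, hmv, sub_self]
      · rw [P1.mx_zero, one_mul]
    have h4 : G.Mono (f ^ e) := by
      have h5 := P2.Mono.mul h3 hm'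
      rwa [div_mul_cancel₀ _ hm0] at h5
    have h5 : G.Mono (n * f) := by
      refine G.mono_of_mul h h2 (g := (n * f) ^ (e - 1)) (pow_mem h2 _) ?_
      have h6 : n * f * (n * f) ^ (e - 1) = n ^ e * f ^ e := by
        rw [← pow_succ', Nat.sub_add_cancel he, mul_pow]
      rw [h6]
      exact P2.Mono.mul (P2.Mono.pow hn' e) h4
    have h6 := P2.Mono.mul (P2.Mono.inv h hn') h5
    rwa [inv_mul_cancel_left₀ hn0] at h6
  · intro i
    rw [hIn]
    exact hT i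
  · intro f hf
    obtain ⟨c, hc, e⟩ := (G.PC_self p h).span f hf
    have h1 : E9.Co p T (BX G₀ d.X) f := by
      rw [e]
      refine pcomb_mem hT ?_ (fun α => (hIn _).1 (hc α))
      have h2 : ∀ a, G₀.InHx a → E9.Co p T (BX G₀ d.X) a := by
        intro a ha
        obtain ⟨c', hc', e'⟩ := hpc₀.span a ha
        rw [e']
        refine pcomb_mem hT hcoS fun α => ?_
        obtain ⟨l, hl⟩ := hc' α
        exact mem_BX'.2 ⟨l, H_le_HX G₀ _ hl⟩
      intro i
      unfold Fr.s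
      refine Fin.addCases (fun i => ?_) (fun j => ?_) i
      · rw [Fin.append_left]
        refine h2 (G₀.x i) ?_
        have h3 := (G₀.PC_self p h).mem (Fin.castAdd D i)
        unfold Fr.s at h3
        rwa [Fin.append_left] at h3
      · rw [Fin.append_right]
        refine Fin.lastCases ?_ (fun j => ?_) j
        · change E9.Co p T (BX G₀ d.X) ((Fin.snoc G₀.y d.X : Fin (D + 1) → Ω) _)
          rw [Fin.snoc_last]
          exact hcoX
        · change E9.Co p T (BX G₀ d.X) ((Fin.snoc G₀.y d.X : Fin (D + 1) → Ω) _)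
          rw [Fin.snoc_castSucc]
          exact h2 _ (P1.InHx.of_mem (P1.P_le_H G₀ (P1.y_mem_P G₀ j)))
    obtain ⟨c', hc', e'⟩ := h1
    exact ⟨c', fun α => (hIn _).2 (hc' α), e'⟩

end Main

end E10

end Pool.Agent.TW
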