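import Pool.Agent.Lib.TW.E6a
import Pool.Agent.Lib.TW.NearH

/-!
# TANK W, E6: `OV F(η) ≤ R'`, `R ≤ R'`
-/

set_option autoImplicit false

open Polynomial

namespace Pool.Agent.TW

open Pool.Agent.H15JM (RVal)
open Pool.Agent.LU1 (VPos adj)
open Pool.Agent.D2 (Ctx0)
open Pool.Agent.D2P (hen)

universe u

variable {k Ω : Type u} [Field k] [Field Ω] [Algebra k Ω] {v : RVal Ω} {r D : ℕ} {p : ℕ}
  [Fact p.Prime] [CharP k p] [CharP Ω p] [IsAlgClosed Ω] [IsAlgClosed k]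
  {F : IntermediateField k Ω} {z η : Ω} {ρ b₁ b ε : ℝ}

theorem SD.OV_le_R' (h : Ctx k v r) (d : SD p k v r D F z η ρ b₁ b ε) :
    ∀ a ∈ OV v (adj F η), a ∈ d.R' := by
  refine d.OV_le_R'_of h fun hn => ?_
  have hpb' := d.pb'
  have ho' := d.orth'
  have h₃ := d.w₃_mem
  have h₄ := d.w₄_mem
  rw [E6.K_eq] at hpb' ho' h₃ h₄
  refine hensA_near p h.toCtx0 (E6.s_ne d.S) (E6.s_ne d.S') d.ε_nonneg hpb' ho' h₃ h₄
    ⟨d.w₃_ne, d.w₃_pos⟩ ⟨d.w₄_ne, d.w₄_ge⟩ (U := {d.zl}) ?_ hn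
  rintro u rfl
  exact fun _ => d.e6_zl_pos.le

theorem SD.R_le_R' (h : Ctx k v r) (d : SD p k v r D F z η ρ b₁ b ε) : d.R ≤ d.R' := by
  refine hensA_le ?_ d.e6_hclosed_R'
  rw [Subring.closure_le]
  rintro x (hx | hx)
  · exact d.OV_le_R' h x hx
  · rw [Set.mem_singleton_iff.1 hx]
    exact d.e6_zl_mem_R'

end Pool.Agent.TW
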