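import Pool.Agent.Lib.TW.H1
import Pool.Agent.Lib.TA.ZMT

/-!
# TANK W, H7: Zariski's main theorem for one parameter

`Unr v A A₁`: the elements of positive value of `A₁` are, modulo products of two such elements,
combinations of elements of positive value of `A`. Every finite subset of `hensA v A` is contained in
a finitely generated `A`-algebra of this kind (`exists_unr`). `integral_of_param_aux` is the theorem,
the statement of H6 being a hypothesis.
-/

set_option autoImplicit false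

open Polynomial

namespace Pool.Agent.TW

open Pool.Agent.H15JM (RVal)
open Pool.Agent.LU1 (VPos adj)
open Pool.Agent.LUC (Cl clF lv)
open Pool.Agent.D2 (Ctx0)
open Pool.Agent.D2P (hen rootF)

universe u

variable {k Ω : Type u} [Field k] [Field Ω] [Algebra k Ω] {v : RVal Ω}

/-- Combinations, with coefficients in `A₁`, of elements of positive value of `A` and of products
of two elements of positive value of `A₁`. -/
def SA (v : RVal Ω) (A A₁ : Subalgebra k Ω) : Submodule A₁ Ω :=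
  Submodule.span A₁ ({a | a ∈ A ∧ VPos v a} ∪
    {c | ∃ a ∈ A₁, ∃ b ∈ A₁, VPos v a ∧ VPos v b ∧ c = a * b})

theorem SA.mul_mem {A A₁ : Subalgebra k Ω} {f g : Ω} (hf : f ∈ A₁) (hg : g ∈ SA v A A₁) :
    f * g ∈ SA v A A₁ := (SA v A A₁).smul_mem (⟨f, hf⟩ : A₁) hg

theorem SA.mono {A A₁ A₂ : Subalgebra k Ω} (h : A₁ ≤ A₂) {f : Ω} (hf : f ∈ SA v A A₁) :
    f ∈ SA v A A₂ := by
  unfold SA at hf
  induction hf using Submodule.span_induction with
  | mem x hx =>
    refine Submodule.subset_span ?_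
    rcases hx with hx | ⟨a, ha, b, hb, h1, h2, e⟩
    · exact Or.inl hx
    · exact Or.inr ⟨a, h ha, b, h hb, h1, h2, e⟩
  | zero => exact zero_mem _
  | add x y _ _ hx hy => exact add_mem hx hy
  | smul c x _ hx => exact SA.mul_mem (h c.2) hx

theorem SA.vpos {A A₁ : Subalgebra k Ω} (h1 : ∀ a ∈ A₁, v.Ge 0 a) {f : Ω} (hf : f ∈ SA v A A₁) :
    VPos v f := by
  unfold SA at hf
  induction hf using Submodule.span_induction with
  | mem x hx =>
    rcases hx with hx | ⟨a, ha, b, hb, ha', hb', rfl⟩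
    · exact hx.2
    · exact ha'.mul hb'.ge
  | zero => exact LU1.VPos.zero
  | add x y _ _ hx hy => exact hx.add hy
  | smul c x _ hx => exact LU1.VPos.mul' (h1 c.1 c.2) hx

/-- See the head of the file. -/
structure Unr (v : RVal Ω) (A A₁ : Subalgebra k Ω) : Prop where
  le : A ≤ A₁
  nonneg : ∀ a ∈ A₁, v.Ge 0 a
  gen : ∀ f ∈ A₁, VPos v f → f ∈ SA v A A₁

theorem adjoin_nonneg (h : Ctx0 k v) {S : Set Ω} (hS : ∀ s ∈ S, v.Ge 0 s) :
    ∀ a ∈ Algebra.adjoin k S, v.Ge 0 a := by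
  intro a ha
  induction ha using Algebra.adjoin_induction with
  | mem x hx => exact hS x hx
  | algebraMap c => exact h.ge c
  | add x y _ _ hx hy => exact hx.add hy
  | mul x y _ _ hx hy =>
    have := RVal.Ge.mul hx hy
    rwa [add_zero] at this

theorem unr_adjoin (h : Ctx0 k v) {A : Subalgebra k Ω} {S : Set Ω}
    (hA : A ≤ Algebra.adjoin k S)
    (hS : ∀ s ∈ S, v.Ge 0 s ∧ ∃ c : k, s - algebraMap k Ω c ∈ SA v A (Algebra.adjoin k S)) :
    Unr v A (Algebra.adjoin k S) := by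
  have hnn := adjoin_nonneg h fun s hs => (hS s hs).1
  refine ⟨hA, hnn, fun f hf hp => ?_⟩
  obtain ⟨c, hc⟩ : ∃ c : k, f - algebraMap k Ω c ∈ SA v A (Algebra.adjoin k S) := by
    clear hp
    induction hf using Algebra.adjoin_induction with
    | mem x hx => exact (hS x hx).2
    | algebraMap c => exact ⟨c, by rw [sub_self]; exact zero_mem _⟩
    | add x y _ _ hx hy =>
      obtain ⟨c, hc⟩ := hx
      obtain ⟨d, hd⟩ := hy
      refine ⟨c + d, ?_⟩
      have e : x + y - algebraMap k Ω (c + d) =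
          (x - algebraMap k Ω c) + (y - algebraMap k Ω d) := by
        rw [map_add]; ring
      rw [e]
      exact add_mem hc hd
    | mul x y hx' hy' hx hy =>
      obtain ⟨c, hc⟩ := hx
      obtain ⟨d, hd⟩ := hy
      refine ⟨c * d, ?_⟩
      have e : x * y - algebraMap k Ω (c * d) =
          y * (x - algebraMap k Ω c) + algebraMap k Ω c * (y - algebraMap k Ω d) := by
        rw [map_mul]; ring
      rw [e]
      exact add_mem (SA.mul_mem hy' hc)
        (SA.mul_mem (Subalgebra.algebraMap_mem _ c) hd)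
  have h1 : VPos v (algebraMap k Ω c) := by
    have h2 : algebraMap k Ω c = f - (f - algebraMap k Ω c) := by ring
    rw [h2]
    exact hp.sub (SA.vpos hnn hc)
  rw [h.const_eq_zero h1, map_zero, sub_zero] at hc
  exact hc

/-- The elements of a `Unr` algebra are constants modulo `SA`. -/
theorem Unr.res (h : Ctx0 k v) {A A₁ : Subalgebra k Ω} (hU : Unr v A A₁) {f : Ω} (hf : f ∈ A₁) :
    ∃ c : k, f - algebraMap k Ω c ∈ SA v A A₁ ∧ VPos v (f - algebraMap k Ω c) := by
  obtain ⟨c, hc⟩ := h.residue (hU.nonneg f hf)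
  exact ⟨c, hU.gen _ (sub_mem hf (Subalgebra.algebraMap_mem _ c)) hc, hc⟩

theorem unr_insert (h : Ctx0 k v) {A : Subalgebra k Ω} {T : Set Ω}
    (hU : Unr v A (Algebra.adjoin k ((A : Set Ω) ∪ T))) {a : Ω} (ha : v.Ge 0 a)
    (hc : ∃ c : k, a - algebraMap k Ω c ∈
      SA v A (Algebra.adjoin k ((A : Set Ω) ∪ insert a T))) :
    Unr v A (Algebra.adjoin k ((A : Set Ω) ∪ insert a T)) := by
  have hle : Algebra.adjoin k ((A : Set Ω) ∪ T) ≤
      Algebra.adjoin k ((A : Set Ω) ∪ insert a T) :=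
    Algebra.adjoin_mono (Set.union_subset_union_right _ (Set.subset_insert a T))
  refine unr_adjoin h (hU.le.trans hle) ?_
  intro s hs
  have key : s ∈ (A : Set Ω) ∪ T → v.Ge 0 s ∧ ∃ c : k, s - algebraMap k Ω c ∈
      SA v A (Algebra.adjoin k ((A : Set Ω) ∪ insert a T)) := by
    intro hs
    have hs' := Algebra.subset_adjoin (R := k) hs
    obtain ⟨c, hc, -⟩ := hU.res h hs'
    exact ⟨hU.nonneg s hs', c, SA.mono hle hc⟩
  rcases hs with hs | hs
  · exact key (Or.inl hs)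
  · rcases hs with rfl | hs
    · exact ⟨ha, hc⟩
    · exact key (Or.inr hs)

theorem unr_union (h : Ctx0 k v) {A : Subalgebra k Ω} {T T' : Set Ω}
    (hU : Unr v A (Algebra.adjoin k ((A : Set Ω) ∪ T)))
    (hU' : Unr v A (Algebra.adjoin k ((A : Set Ω) ∪ T'))) :
    Unr v A (Algebra.adjoin k ((A : Set Ω) ∪ (T ∪ T'))) := by
  have hle : Algebra.adjoin k ((A : Set Ω) ∪ T) ≤
      Algebra.adjoin k ((A : Set Ω) ∪ (T ∪ T')) :=
    Algebra.adjoin_mono (Set.union_subset_union_right _ Set.subset_union_left)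
  have hle' : Algebra.adjoin k ((A : Set Ω) ∪ T') ≤
      Algebra.adjoin k ((A : Set Ω) ∪ (T ∪ T')) :=
    Algebra.adjoin_mono (Set.union_subset_union_right _ Set.subset_union_right)
  refine unr_adjoin h (hU.le.trans hle) ?_
  intro s hs
  have key : s ∈ (A : Set Ω) ∪ T → v.Ge 0 s ∧ ∃ c : k, s - algebraMap k Ω c ∈
      SA v A (Algebra.adjoin k ((A : Set Ω) ∪ (T ∪ T'))) := by
    intro hs
    have hs' := Algebra.subset_adjoin (R := k) hs
    obtain ⟨c, hc, -⟩ := hU.res h hs'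
    exact ⟨hU.nonneg s hs', c, SA.mono hle hc⟩
  have key' : s ∈ (A : Set Ω) ∪ T' → v.Ge 0 s ∧ ∃ c : k, s - algebraMap k Ω c ∈
      SA v A (Algebra.adjoin k ((A : Set Ω) ∪ (T ∪ T'))) := by
    intro hs
    have hs' := Algebra.subset_adjoin (R := k) hs
    obtain ⟨c, hc, -⟩ := hU'.res h hs'
    exact ⟨hU'.nonneg s hs', c, SA.mono hle' hc⟩
  rcases hs with hs | hs | hs
  · exact key (Or.inl hs)
  · exact key (Or.inr hs)
  · exact key' (Or.inr hs)

theorem unr_empty (h : Ctx0 k v) {A : Subalgebra k Ω} (hA : ∀ a ∈ A, v.Ge 0 a) :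
    Unr v A (Algebra.adjoin k ((A : Set Ω) ∪ (∅ : Set Ω))) := by
  have hle : A ≤ Algebra.adjoin k ((A : Set Ω) ∪ (∅ : Set Ω)) :=
    fun a ha => Algebra.subset_adjoin (Or.inl ha)
  refine unr_adjoin h hle ?_
  rintro s (hs | hs)
  · obtain ⟨c, hc⟩ := h.residue (hA s hs)
    exact ⟨hA s hs, c, Submodule.subset_span
      (Or.inl ⟨sub_mem hs (Subalgebra.algebraMap_mem _ c), hc⟩)⟩
  · exact absurd hs (Set.notMem_empty s)

/-- The inverse of an element of value `0`. -/
theorem unr_inv (h : Ctx0 k v) {A : Subalgebra k Ω} {T : Set Ω}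
    (hU : Unr v A (Algebra.adjoin k ((A : Set Ω) ∪ T))) {f : Ω}
    (hf : f ∈ Algebra.adjoin k ((A : Set Ω) ∪ T)) (h0 : f ≠ 0) (hv : v f = 0) :
    Unr v A (Algebra.adjoin k ((A : Set Ω) ∪ insert f⁻¹ T)) := by
  have hle : Algebra.adjoin k ((A : Set Ω) ∪ T) ≤
      Algebra.adjoin k ((A : Set Ω) ∪ insert f⁻¹ T) :=
    Algebra.adjoin_mono (Set.union_subset_union_right _ (Set.subset_insert _ T))
  refine unr_insert h hU (fun _ => by rw [v.map_inv h0, hv, neg_zero]) ?_
  obtain ⟨c, hc, hp⟩ := hU.res h hf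
  have hc0 : algebraMap k Ω c ≠ 0 := by
    intro e
    rw [e, sub_zero] at hp
    have := hp h0
    rw [hv] at this
    exact lt_irrefl _ this
  refine ⟨c⁻¹, ?_⟩
  have e : f⁻¹ - algebraMap k Ω c⁻¹ =
      (-(algebraMap k Ω c⁻¹ * f⁻¹)) * (f - algebraMap k Ω c) := by
    rw [map_inv₀]
    field_simp
    ring
  rw [e]
  refine SA.mul_mem (neg_mem (mul_mem (Subalgebra.algebraMap_mem _ _) ?_)) (SA.mono hle hc)
  exact Algebra.subset_adjoin (Or.inr (Set.mem_insert _ _))

/-- Adjoining a simple root. -/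
theorem unr_root (h : Ctx0 k v) {A : Subalgebra k Ω} {T : Set Ω}
    (hU : Unr v A (Algebra.adjoin k ((A : Set Ω) ∪ T))) {g : Polynomial Ω}
    (hg : ∀ i, g.coeff i ∈ Algebra.adjoin k ((A : Set Ω) ∪ T)) {a : Ω} (ha : v.Ge 0 a)
    (h0 : g.eval a = 0) (hd : g.derivative.eval a ≠ 0) (hdv : v (g.derivative.eval a) = 0) :
    Unr v A (Algebra.adjoin k ((A : Set Ω) ∪ insert a T)) := by
  set A₁ := Algebra.adjoin k ((A : Set Ω) ∪ T) with hA₁
  set A₂ := Algebra.adjoin k ((A : Set Ω) ∪ insert a T) with hA₂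
  have hle : A₁ ≤ A₂ :=
    Algebra.adjoin_mono (Set.union_subset_union_right _ (Set.subset_insert _ T))
  have ha₂ : a ∈ A₂ := Algebra.subset_adjoin (Or.inr (Set.mem_insert _ _))
  have hnn₂ : ∀ b ∈ A₂, v.Ge 0 b := by
    refine adjoin_nonneg h ?_
    rintro s (hs | rfl | hs)
    · exact hU.nonneg s (Algebra.subset_adjoin (Or.inl hs))
    · exact ha
    · exact hU.nonneg s (Algebra.subset_adjoin (Or.inr hs))
  obtain ⟨c, hc⟩ := h.residue ha
  refine unr_insert h hU ha ⟨c, ?_⟩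
  -- lift `g` to `A₂`
  have hlift : g ∈ Polynomial.lifts (algebraMap A₂ Ω) := by
    rw [Polynomial.lifts_iff_coeff_lifts]
    intro i
    exact ⟨⟨g.coeff i, hle (hg i)⟩, rfl⟩
  obtain ⟨G, hG⟩ := (Polynomial.mem_lifts g).1 hlift
  set a' : A₂ := ⟨a, ha₂⟩
  set c' : A₂ := algebraMap k A₂ c
  have hc' : (c' : Ω) = algebraMap k Ω c := rfl
  obtain ⟨w, hw⟩ := Polynomial.binomExpansion G c' (a' - c')
  obtain ⟨w', hw'⟩ := Polynomial.evalSubFactor G.derivative a' c'
  have ev : ∀ (P : Polynomial A₂) (b : A₂), ((P.eval b : A₂) : Ω) =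
      (P.map (algebraMap A₂ Ω)).eval (b : Ω) := by
    intro P b
    rw [Polynomial.eval_map]
    exact (Polynomial.eval₂_at_apply (algebraMap A₂ Ω) b).symm
  have hGa : ((G.eval a' : A₂) : Ω) = 0 := by rw [ev, hG]; exact h0
  have hdG : ((G.derivative.eval a' : A₂) : Ω) = g.derivative.eval a := by
    rw [ev, ← Polynomial.derivative_map, hG]
  set gc : Ω := ((G.eval c' : A₂) : Ω) with hgc
  set dc : Ω := ((G.derivative.eval c' : A₂) : Ω) with hdc
  set t : Ω := a - algebraMap k Ω c with ht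
  have ht₂ : t ∈ A₂ := sub_mem ha₂ (Subalgebra.algebraMap_mem _ _)
  have e1 : gc + dc * t + w * t ^ 2 = 0 := by
    have h1 := congrArg (fun b : A₂ => (b : Ω)) hw
    have h2 : c' + (a' - c') = a' := by ring
    simp only [h2] at h1
    rw [hGa] at h1
    rw [hgc, hdc, ht, ← hc']
    push_cast at h1
    exact h1.symm
  have e2 : dc = g.derivative.eval a - w' * t := by
    have h1 := congrArg (fun b : A₂ => (b : Ω)) hw'
    push_cast at h1
    rw [hdG] at h1
    rw [hdc, ht, ← hc']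
    linear_combination -h1
  obtain ⟨γ, hγ0, hγ⟩ := h.res _ hd hdv
  have hμ : VPos v (dc - algebraMap k Ω γ) := by
    have e3 : dc - algebraMap k Ω γ =
        (g.derivative.eval a - algebraMap k Ω γ) - w' * t := by rw [e2]; ring
    rw [e3]
    exact hγ.sub (LU1.VPos.mul' (hnn₂ _ w'.2) hc)
  have hμ₂ : dc - algebraMap k Ω γ ∈ A₂ :=
    sub_mem (G.derivative.eval c').2 (Subalgebra.algebraMap_mem _ _)
  have hgcp : VPos v gc := by
    have e3 : gc = -(dc * t + (w * t) * t) := by linear_combination e1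
    rw [e3]
    refine LU1.VPos.neg (LU1.VPos.add (LU1.VPos.mul' (hnn₂ _ (G.derivative.eval c').2) hc) ?_)
    exact LU1.VPos.mul' (hnn₂ _ (mul_mem w.2 ht₂)) hc
  have hgc₁ : gc ∈ A₁ := by
    have e3 : gc = g.eval (algebraMap k Ω c) := by rw [hgc, ev, hG, hc']
    rw [e3, Polynomial.eval_eq_sum_range]
    exact sum_mem fun i _ => mul_mem (hg i) (pow_mem (Subalgebra.algebraMap_mem _ _) _)
  have hγ' : algebraMap k Ω γ ≠ 0 := by simpa using hγ0
  have e4 : t = algebraMap k Ω γ⁻¹ *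
      ((-1) * gc + (-1) * ((dc - algebraMap k Ω γ) * t) + (-(w : Ω)) * (t * t)) := by
    rw [map_inv₀]
    field_simp
    linear_combination e1
  rw [e4]
  have hprod : ∀ b ∈ A₂, VPos v b → b * t ∈ SA v A A₂ := fun b hb hb' =>
    Submodule.subset_span (Or.inr ⟨b, hb, t, ht₂, hb', hc, rfl⟩)
  refine SA.mul_mem (Subalgebra.algebraMap_mem _ _) (add_mem (add_mem ?_ ?_) ?_)
  · exact SA.mul_mem (neg_mem (one_mem _)) (SA.mono hle (hU.gen _ hgc₁ hgcp))
  · exact SA.mul_mem (neg_mem (one_mem _)) (hprod _ hμ₂ hμ)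
  · exact SA.mul_mem (neg_mem w.2) (hprod t ht₂ hc)

/-- A finite set of elements of `hensA v A` lies in a finitely generated `A`-algebra which is
`Unr`. -/
theorem exists_unr (h : Ctx0 k v) {A : Subalgebra k Ω} (hA : ∀ a ∈ A, v.Ge 0 a) (Z : Finset Ω)
    (hZ : ∀ z ∈ Z, z ∈ hensA v A.toSubring) :
    ∃ T : Finset Ω, Unr v A (Algebra.adjoin k ((A : Set Ω) ∪ (T : Set Ω))) ∧
      ∀ z ∈ Z, z ∈ Algebra.adjoin k ((A : Set Ω) ∪ (T : Set Ω)) := by
  classical
  have hmono : ∀ {T T' : Finset Ω}, T ⊆ T' →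
      Algebra.adjoin k ((A : Set Ω) ∪ (T : Set Ω)) ≤
        Algebra.adjoin k ((A : Set Ω) ∪ (T' : Set Ω)) :=
    fun h => Algebra.adjoin_mono (Set.union_subset_union_right _ (Finset.coe_subset.2 h))
  have hun : ∀ {T T' : Finset Ω}, Unr v A (Algebra.adjoin k ((A : Set Ω) ∪ (T : Set Ω))) →
      Unr v A (Algebra.adjoin k ((A : Set Ω) ∪ (T' : Set Ω))) →
      Unr v A (Algebra.adjoin k ((A : Set Ω) ∪ ((T ∪ T' : Finset Ω) : Set Ω))) := by
    intro T T' h1 h2
    rw [Finset.coe_union]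
    exact unr_union h h1 h2
  have hemp : Unr v A (Algebra.adjoin k ((A : Set Ω) ∪ ((∅ : Finset Ω) : Set Ω))) := by
    rw [Finset.coe_empty]
    exact unr_empty h hA
  -- finite unions
  have hfin : ∀ {ι : Type} (s : Finset ι) (x : ι → Ω)
      (_ : ∀ i ∈ s, ∃ T : Finset Ω, Unr v A (Algebra.adjoin k ((A : Set Ω) ∪ (T : Set Ω))) ∧
        x i ∈ Algebra.adjoin k ((A : Set Ω) ∪ (T : Set Ω))),
      ∃ T : Finset Ω, Unr v A (Algebra.adjoin k ((A : Set Ω) ∪ (T : Set Ω))) ∧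
        ∀ i ∈ s, x i ∈ Algebra.adjoin k ((A : Set Ω) ∪ (T : Set Ω)) := by
    intro ι s x
    induction s using Finset.induction_on with
    | empty => exact fun _ => ⟨∅, hemp, by simp⟩
    | insert i s _ ih =>
      intro hx
      obtain ⟨T, hT, hT'⟩ := ih fun j hj => hx j (Finset.mem_insert_of_mem hj)
      obtain ⟨T₁, h1, h1'⟩ := hx i (Finset.mem_insert_self i s)
      refine ⟨T ∪ T₁, hun hT h1, ?_⟩
      intro j hj
      rcases Finset.mem_insert.1 hj with rfl | hj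
      · exact hmono Finset.subset_union_right h1'
      · exact hmono Finset.subset_union_left (hT' j hj)
  let B : Subring Ω :=
    { carrier := {f | ∃ T : Finset Ω, Unr v A (Algebra.adjoin k ((A : Set Ω) ∪ (T : Set Ω))) ∧
        f ∈ Algebra.adjoin k ((A : Set Ω) ∪ (T : Set Ω))}
      mul_mem' := by
        rintro a b ⟨T, hT, ha⟩ ⟨T', hT', hb⟩
        exact ⟨T ∪ T', hun hT hT', mul_mem (hmono Finset.subset_union_left ha)
          (hmono Finset.subset_union_right hb)⟩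
      one_mem' := ⟨∅, hemp, one_mem _⟩
      add_mem' := by
        rintro a b ⟨T, hT, ha⟩ ⟨T', hT', hb⟩
        exact ⟨T ∪ T', hun hT hT', add_mem (hmono Finset.subset_union_left ha)
          (hmono Finset.subset_union_right hb)⟩
      zero_mem' := ⟨∅, hemp, zero_mem _⟩
      neg_mem' := by
        rintro a ⟨T, hT, ha⟩
        exact ⟨T, hT, neg_mem ha⟩ }
  have hB : HClosed v B :=
    { nonneg := by
        rintro f ⟨T, hT, hf⟩
        exact hT.nonneg f hf
      inv := by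
        rintro f ⟨T, hT, hf⟩ h0 hv
        refine ⟨insert f⁻¹ T, ?_, ?_⟩
        · rw [Finset.coe_insert]
          exact unr_inv h hT hf h0 hv
        · exact Algebra.subset_adjoin (Or.inr (by simp))
      root := by
        intro g a hg ha h0 hd hv
        obtain ⟨T, hT, hT'⟩ := hfin g.support g.coeff fun i _ => hg i
        have hg' : ∀ i, g.coeff i ∈ Algebra.adjoin k ((A : Set Ω) ∪ (T : Set Ω)) := by
          intro i
          by_cases hi : i ∈ g.support
          · exact hT' i hi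
          · rw [Polynomial.notMem_support_iff.1 hi]
            exact zero_mem _
        refine ⟨insert a T, ?_, Algebra.subset_adjoin (Or.inr (by simp))⟩
        rw [Finset.coe_insert]
        exact unr_root h hT hg' ha h0 hd hv }
  have hle : hensA v A.toSubring ≤ B := by
    refine hensA_le ?_ hB
    intro a ha
    exact ⟨∅, hemp, Algebra.subset_adjoin (Or.inl ha)⟩
  have hfin' : ∀ (s : Finset Ω), (∀ z ∈ s, z ∈ hensA v A.toSubring) →
      ∃ T : Finset Ω, Unr v A (Algebra.adjoin k ((A : Set Ω) ∪ (T : Set Ω))) ∧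
        ∀ z ∈ s, z ∈ Algebra.adjoin k ((A : Set Ω) ∪ (T : Set Ω)) := by
    intro s
    induction s using Finset.induction_on with
    | empty => exact fun _ => ⟨∅, hemp, by simp⟩
    | insert i s _ ih =>
      intro hx
      obtain ⟨T, hT, hT'⟩ := ih fun j hj => hx j (Finset.mem_insert_of_mem hj)
      obtain ⟨T₁, h1, h1'⟩ := hle (hx i (Finset.mem_insert_self i s))
      refine ⟨T ∪ T₁, hun hT h1, ?_⟩
      intro j hj
      rcases Finset.mem_insert.1 hj with rfl | hj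
      · exact hmono Finset.subset_union_right h1'
      · exact hmono Finset.subset_union_left (hT' j hj)
  exact hfin' Z hZ

/-- The ideal of the elements of positive value. -/
def mI (v : RVal Ω) (A₁ : Subalgebra k Ω) (hnn : ∀ a ∈ A₁, v.Ge 0 a) : Ideal A₁ where
  carrier := {a | VPos v (a : Ω)}
  add_mem' := by
    intro a b ha hb
    exact LU1.VPos.add ha hb
  zero_mem' := LU1.VPos.zero
  smul_mem' := by
    intro c a ha
    exact LU1.VPos.mul' (hnn _ c.2) ha

theorem mem_mI {A₁ : Subalgebra k Ω} {hnn : ∀ a ∈ A₁, v.Ge 0 a} {a : A₁} :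
    a ∈ mI v A₁ hnn ↔ VPos v (a : Ω) := Iff.rfl

theorem mI_res (h : Ctx0 k v) {A₁ : Subalgebra k Ω} (hnn : ∀ a ∈ A₁, v.Ge 0 a) (a : A₁) :
    ∃ c : k, a - algebraMap k A₁ c ∈ mI v A₁ hnn := by
  obtain ⟨c, hc⟩ := h.residue (hnn _ a.2)
  exact ⟨c, hc⟩

theorem mI_max (h : Ctx0 k v) {A₁ : Subalgebra k Ω} (hnn : ∀ a ∈ A₁, v.Ge 0 a) :
    (mI v A₁ hnn).IsMaximal := by
  rw [Ideal.isMaximal_iff]
  refine ⟨?_, ?_⟩
  · intro h1
    have h2 : VPos v (1 : Ω) := h1
    have h3 := h2 one_ne_zero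
    rw [v.map_one] at h3
    exact lt_irrefl _ h3
  · intro J x hJ hx hxJ
    obtain ⟨c, hc⟩ := mI_res h hnn x
    have hc0 : c ≠ 0 := by
      rintro rfl
      rw [map_zero, sub_zero] at hc
      exact hx hc
    have h1 : algebraMap k A₁ c ∈ J := by
      have : algebraMap k A₁ c = x - (x - algebraMap k A₁ c) := by ring
      rw [this]
      exact J.sub_mem hxJ (hJ hc)
    have h2 : (1 : A₁) = algebraMap k A₁ c⁻¹ * algebraMap k A₁ c := by
      rw [← map_mul, inv_mul_cancel₀ hc0, map_one]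
    rw [h2]
    exact J.mul_mem_left _ h1

/-- Powers of an ideal `m ≤ J + (z) + m²`. -/
theorem ideal_pow {R : Type*} [CommRing R] (m J : Ideal R) (z : R) (hJm : J ≤ m) (hz : z ∈ m)
    (hm : m ≤ J ⊔ Ideal.span {z} ⊔ m ^ 2) (n : ℕ) :
    m ^ (n + 1) ≤ J ⊔ Ideal.span {z ^ (n + 1)} ⊔ m ^ (n + 2) := by
  have hzm : Ideal.span {z} ≤ m := by
    rw [Ideal.span_singleton_le_iff_mem]
    exact hz
  induction n with
  | zero => simpa using hm
  | succ n ih =>
    have hJt : J ≤ J ⊔ Ideal.span {z ^ (n + 1 + 1)} ⊔ m ^ (n + 1 + 2) :=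
      le_sup_of_le_left le_sup_left
    have hzt : Ideal.span {z ^ (n + 1 + 1)} ≤
        J ⊔ Ideal.span {z ^ (n + 1 + 1)} ⊔ m ^ (n + 1 + 2) :=
      le_sup_of_le_left le_sup_right
    have hmt : m ^ (n + 1 + 2) ≤ J ⊔ Ideal.span {z ^ (n + 1 + 1)} ⊔ m ^ (n + 1 + 2) :=
      le_sup_right
    generalize J ⊔ Ideal.span {z ^ (n + 1 + 1)} ⊔ m ^ (n + 1 + 2) = t at hJt hzt hmt ⊢
    rw [pow_succ m (n + 1)]
    refine Ideal.mul_le.2 ?_
    intro a ha b hb
    obtain ⟨a', ha', a₃, ha₃, rfl⟩ := Submodule.mem_sup.1 (ih ha)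
    obtain ⟨a₁, ha₁, a₂, ha₂, rfl⟩ := Submodule.mem_sup.1 ha'
    obtain ⟨a₂, rfl⟩ := Ideal.mem_span_singleton'.1 ha₂
    obtain ⟨b', hb', b₃, hb₃, rfl⟩ := Submodule.mem_sup.1 (hm hb)
    obtain ⟨b₁, hb₁, b₂, hb₂, rfl⟩ := Submodule.mem_sup.1 hb'
    obtain ⟨b₂, rfl⟩ := Ideal.mem_span_singleton'.1 hb₂
    have e : (a₁ + a₂ * z ^ (n + 1) + a₃) * (b₁ + b₂ * z + b₃) =
        a₁ * (b₁ + b₂ * z + b₃) + b₁ * (a₂ * z ^ (n + 1)) +
          (a₂ * b₂) * z ^ (n + 1 + 1) + a₂ * (z ^ (n + 1) * b₃) +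
          a₃ * (b₁ + b₂ * z + b₃) := by ring
    rw [e]
    refine t.add_mem (t.add_mem (t.add_mem (t.add_mem ?_ ?_) ?_) ?_) ?_
    · exact t.mul_mem_right _ (hJt ha₁)
    · exact t.mul_mem_right _ (hJt hb₁)
    · exact t.mul_mem_left _ (hzt (Ideal.mem_span_singleton_self _))
    · refine t.mul_mem_left _ (hmt ?_)
      rw [pow_add m (n + 1) 2]
      exact Ideal.mul_mem_mul (Ideal.pow_mem_pow hz _) hb₃
    · refine hmt ?_
      rw [show n + 1 + 2 = (n + 2) + 1 by ring, pow_succ m (n + 2)]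
      exact Ideal.mul_mem_mul ha₃ hb

/-- Zariski's main theorem for a centre `m ≤ J + (z) + m²`, `z^e ∈ J + m^(e+1)`. -/
theorem zmt_apply (h : Ctx0 k v) {O A₁ : Subalgebra k Ω} (hOA : O ≤ A₁) (hfg : A₁.FG)
    (hnn : ∀ a ∈ A₁, v.Ge 0 a) (z : A₁) (e : ℕ) (he : 0 < e) (J : Ideal A₁)
    (hJ : J = Ideal.span {a : A₁ | (a : Ω) ∈ O ∧ VPos v (a : Ω)})
    (hm : mI v A₁ hnn ≤ J ⊔ Ideal.span {z} ⊔ mI v A₁ hnn ^ 2)
    (hze : z ^ e ∈ J ⊔ mI v A₁ hnn ^ (e + 1)) (hz : VPos v (z : Ω)) :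
    ∃ w : Ω, w ∈ A₁ ∧ w ≠ 0 ∧ v w = 0 ∧ IsIntegral O w ∧
      ∀ g ∈ A₁, ∃ n : ℕ, IsIntegral O (w ^ n * g) := by
  set m := mI v A₁ hnn with hmdef
  letI : Algebra O A₁ := (Subalgebra.inclusion hOA).toRingHom.toAlgebra
  haveI : IsScalarTower k O A₁ := IsScalarTower.of_algebraMap_eq fun _ => rfl
  haveI : Algebra.FiniteType k A₁ := (Subalgebra.fg_iff_finiteType _).1 hfg
  haveI : m.IsMaximal := mI_max h hnn
  have hJ' : J ≤ (m.under O).map (algebraMap O A₁) := by
    rw [hJ, Ideal.span_le]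
    rintro a ⟨ha, ha'⟩
    have h1 : a = algebraMap O A₁ ⟨a, ha⟩ := rfl
    rw [h1]
    refine Ideal.mem_map_of_mem _ ?_
    exact ha'
  have hJm : J ≤ m := by
    rw [hJ, Ideal.span_le]
    rintro a ⟨ha, ha'⟩
    exact ha'
  have hzm : Ideal.span {z} ≤ m := by
    rw [Ideal.span_singleton_le_iff_mem]
    exact hz
  have hpow := ideal_pow m J z hJm (hzm (Ideal.mem_span_singleton_self z)) hm
  obtain ⟨s, rfl⟩ : ∃ s, e = s + 1 := ⟨e - 1, by omega⟩
  have hnil : m ^ (s + 1) ≤ (m.under O).map (algebraMap O A₁) ⊔ m ^ (s + 2) := by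
    refine (hpow s).trans (sup_le (sup_le (hJ'.trans le_sup_left) ?_) le_sup_right)
    rw [Ideal.span_singleton_le_iff_mem]
    exact (sup_le_sup_right hJ' _) hze
  obtain ⟨w, hwm, hwi, hw⟩ := Pool.Agent.TA.zmt_centre (k := k) (O := O) (A := A₁) m
    (mI_res h hnn) s hnil
  have htr : ∀ a : A₁, IsIntegral O a → IsIntegral O (a : Ω) := by
    rintro a ⟨P, hP, hP'⟩
    refine ⟨P, hP, ?_⟩
    have h1 := congrArg (algebraMap A₁ Ω) hP'
    rw [Polynomial.hom_eval₂, map_zero] at h1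
    exact h1
  have hw0 : (w : Ω) ≠ 0 := by
    intro h0
    apply hwm
    change VPos v (w : Ω)
    rw [h0]
    exact LU1.VPos.zero
  refine ⟨w, w.2, hw0, ?_, htr w hwi, ?_⟩
  · rcases (hnn _ w.2 hw0).lt_or_eq with h1 | h1
    · exact absurd (fun _ => h1) hwm
    · exact h1.symm
  · intro g hg
    obtain ⟨n, hn⟩ := hw ⟨g, hg⟩
    exact ⟨n, htr _ hn⟩

/-- An element of value `0` integral over a henselian ring is a unit there. -/
theorem integral_inv_of (H6 : ∀ {B : Subring Ω}, HClosed v B → (∀ c : k, algebraMap k Ω c ∈ B) →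
      ∀ {θ : Ω}, IsIntegral B θ → HClosed v (Subring.closure ((B : Set Ω) ∪ {θ})))
    {B : Subring Ω} (hB : HClosed v B) (hk : ∀ c : k, algebraMap k Ω c ∈ B) {w : Ω}
    (hw : IsIntegral B w) (h0 : w ≠ 0) (hv : v w = 0) : IsIntegral B w⁻¹ := by
  have h1 := H6 hB hk hw
  have h2 : w⁻¹ ∈ Subring.closure ((B : Set Ω) ∪ {w}) :=
    h1.inv w (Subring.subset_closure (Or.inr rfl)) h0 hv
  have h3 : ∀ x ∈ Subring.closure ((B : Set Ω) ∪ {w}), IsIntegral B x := by
    intro x hx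
    induction hx using Subring.closure_induction with
    | mem y hy =>
      rcases hy with hy | hy
      · exact isIntegral_algebraMap (x := (⟨y, hy⟩ : B))
      · rw [Set.mem_singleton_iff.1 hy]
        exact hw
    | zero => exact isIntegral_zero
    | one => exact isIntegral_one
    | add x y _ _ hx hy => exact hx.add hy
    | neg x _ hx => exact hx.neg
    | mul x y _ _ hx hy => exact hx.mul hy
  exact h3 _ h2

/-- Integrality passes to a larger ring. -/
theorem integral_mono {O : Subalgebra k Ω} {B : Subring Ω} (hOB : ∀ a ∈ O, a ∈ B) {w : Ω}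
    (hw : IsIntegral O w) : IsIntegral B w := by
  obtain ⟨P, hP, hP'⟩ := hw
  let i : O →+* B :=
    { toFun := fun a => ⟨a.1, hOB a.1 a.2⟩
      map_one' := rfl
      map_mul' := fun _ _ => rfl
      map_zero' := rfl
      map_add' := fun _ _ => rfl }
  refine ⟨P.map i, hP.map i, ?_⟩
  rw [Polynomial.eval₂_map]
  exact hP'

theorem integral_of_param_aux (h : Ctx0 k v)
    (H6 : ∀ {B : Subring Ω}, HClosed v B → (∀ c : k, algebraMap k Ω c ∈ B) →
      ∀ {θ : Ω}, IsIntegral B θ → HClosed v (Subring.closure ((B : Set Ω) ∪ {θ})))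
    {A₀ : Subring Ω}
    (hA : ∀ a ∈ A₀, v.Ge 0 a) (hk : ∀ c : k, algebraMap k Ω c ∈ A₀) {z X : Ω}
    (hz : VPos v z) (hX : VPos v X)
    (G : Polynomial k) (hG : G ≠ 0) (hG0 : G.coeff 0 = 0) {m : ℕ} (a b : Fin m → Ω)
    (ha : ∀ i, a i ∈ A₀ ∧ VPos v (a i))
    (hb : ∀ i, b i ∈ hensA v (Subring.closure ((A₀ : Set Ω) ∪ {z})))
    (e : X = aeval z G + ∑ i, a i * b i) :
    IsIntegral (hensA v (Subring.closure ((A₀ : Set Ω) ∪ {X}))) z := by
  classical
  -- the finitely many elements of `A₀` that are used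
  have hnn0 : ∀ {y : Ω}, VPos v y → ∀ c ∈ Subring.closure ((A₀ : Set Ω) ∪ {y}), v.Ge 0 c := by
    intro y hy c hc
    induction hc using Subring.closure_induction with
    | mem y hy' =>
      rcases hy' with hy' | hy'
      · exact hA y hy'
      · rw [Set.mem_singleton_iff.1 hy']
        exact hy.ge
    | zero => exact RVal.Ge.zero
    | one => exact fun _ => by rw [v.map_one]
    | add x y _ _ hx hy => exact hx.add hy
    | neg x _ hx => exact hx.neg
    | mul x y _ _ hx hy =>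
      have := RVal.Ge.mul hx hy
      rwa [add_zero] at this
  choose T hT hbT using fun i => hensA_finite (hnn0 hz) (hb i)
  let U : Finset Ω := ((Finset.univ.biUnion T).filter (· ∈ A₀)) ∪ Finset.univ.image a
  have hU : ∀ y ∈ U, y ∈ A₀ := by
    intro y hy
    rcases Finset.mem_union.1 hy with hy | hy
    · exact (Finset.mem_filter.1 hy).2
    · obtain ⟨i, -, rfl⟩ := Finset.mem_image.1 hy
      exact (ha i).1
  set 𝔄 : Subalgebra k Ω := Algebra.adjoin k ((U : Set Ω) ∪ {z}) with h𝔄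
  have hnnA : ∀ c ∈ 𝔄, v.Ge 0 c := by
    refine adjoin_nonneg h ?_
    rintro s (hs | hs)
    · exact hA s (hU s hs)
    · rw [Set.mem_singleton_iff.1 hs]
      exact hz.ge
  have hb' : ∀ i, b i ∈ hensA v 𝔄.toSubring := by
    intro i
    refine hensA_mono ?_ (hbT i)
    rw [Subring.closure_le]
    intro y hy
    change y ∈ 𝔄
    refine Algebra.subset_adjoin ?_
    rcases hT i hy with h1 | h1
    · refine Or.inl ?_
      refine Finset.mem_coe.2 (Finset.mem_union_left _ (Finset.mem_filter.2 ⟨?_, h1⟩))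
      exact Finset.mem_biUnion.2 ⟨i, Finset.mem_univ _, hy⟩
    · exact Or.inr h1
  obtain ⟨T', hUnr, hbA⟩ := exists_unr h hnnA (Finset.univ.image b) (by
    intro y hy
    obtain ⟨i, -, rfl⟩ := Finset.mem_image.1 hy
    exact hb' i)
  set A₁ : Subalgebra k Ω := Algebra.adjoin k ((𝔄 : Set Ω) ∪ (T' : Set Ω)) with hA₁
  have hbA' : ∀ i, b i ∈ A₁ := fun i =>
    hbA (b i) (Finset.mem_image.2 ⟨i, Finset.mem_univ _, rfl⟩)
  have hAA : 𝔄 ≤ A₁ := hUnr.le
  have hzA : z ∈ A₁ := hAA (Algebra.subset_adjoin (Or.inr rfl))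
  have haU : ∀ i, a i ∈ U := fun i =>
    Finset.mem_union_right _ (Finset.mem_image.2 ⟨i, Finset.mem_univ _, rfl⟩)
  have haA : ∀ i, a i ∈ A₁ := fun i =>
    hAA (Algebra.subset_adjoin (Or.inl (Finset.mem_coe.2 (haU i))))
  have hXA : X ∈ A₁ := by
    rw [e]
    refine add_mem ?_ (sum_mem fun i _ => mul_mem (haA i) (hbA' i))
    exact aeval_mem_adjoin_singleton k z |> fun h1 =>
      (Algebra.adjoin_le (by simpa using hzA) : Algebra.adjoin k {z} ≤ A₁) h1
  have hfg : A₁.FG := by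
    have h1 : 𝔄.FG := by
      refine ⟨U ∪ {z}, ?_⟩
      rw [h𝔄, Finset.coe_union, Finset.coe_singleton]
    have h2 : (Algebra.adjoin k (T' : Set Ω)).FG := ⟨T', rfl⟩
    have h3 : A₁ = 𝔄 ⊔ Algebra.adjoin k (T' : Set Ω) := by
      rw [hA₁, Algebra.adjoin_union, Algebra.adjoin_eq]
    rw [h3]
    exact h1.sup h2
  set O : Subalgebra k Ω := Algebra.adjoin k ((U : Set Ω) ∪ {X}) with hO
  have hOA : O ≤ A₁ := by
    refine Algebra.adjoin_le ?_
    rintro s (hs | hs)
    · exact hAA (Algebra.subset_adjoin (Or.inl hs))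
    · rw [Set.mem_singleton_iff.1 hs]
      exact hXA
  have hnn := hUnr.nonneg
  let z' : A₁ := ⟨z, hzA⟩
  let J : Ideal A₁ := Ideal.span {a : A₁ | (a : Ω) ∈ O ∧ VPos v (a : Ω)}
  set M := mI v A₁ hnn with hM
  have hJsub : ∀ y : Ω, ∀ hy : y ∈ O, VPos v y → (⟨y, hOA hy⟩ : A₁) ∈ J := fun y hy hy' =>
    Ideal.subset_span ⟨hy, hy'⟩
  -- elements of `𝔄`
  have h𝔄J : ∀ y (hy : y ∈ 𝔄), ∃ c : k, (⟨y, hAA hy⟩ : A₁) - algebraMap k A₁ c ∈
      J ⊔ Ideal.span {z'} := by
    intro y hy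
    induction hy using Algebra.adjoin_induction with
    | mem x hx =>
      rcases hx with hx | hx
      · obtain ⟨c, hc⟩ := h.residue (hA x (hU x hx))
        refine ⟨c, Ideal.mem_sup_left ?_⟩
        exact hJsub (x - algebraMap k Ω c) (sub_mem (Algebra.subset_adjoin (Or.inl hx))
          (Subalgebra.algebraMap_mem _ c)) hc
      · refine ⟨0, Ideal.mem_sup_right ?_⟩
        rw [map_zero, sub_zero]
        have h1 : x = z := hx
        subst h1
        exact Ideal.mem_span_singleton_self _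
    | algebraMap c =>
      refine ⟨c, ?_⟩
      have h1 : (⟨algebraMap k Ω c, hAA (Subalgebra.algebraMap_mem 𝔄 c)⟩ : A₁) -
          algebraMap k A₁ c = 0 := by
        rw [sub_eq_zero]; rfl
      rw [h1]
      exact zero_mem _
    | add x y hx' hy' hx hy =>
      obtain ⟨c, hc⟩ := hx
      obtain ⟨d, hd⟩ := hy
      refine ⟨c + d, ?_⟩
      have e1 : (⟨x + y, hAA (add_mem hx' hy')⟩ : A₁) - algebraMap k A₁ (c + d) =
          ((⟨x, hAA hx'⟩ : A₁) - algebraMap k A₁ c) + ((⟨y, hAA hy'⟩ : A₁) - algebraMap k A₁ d) := by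
        have h1 : (⟨x + y, hAA (add_mem hx' hy')⟩ : A₁) = ⟨x, hAA hx'⟩ + ⟨y, hAA hy'⟩ := rfl
        rw [h1, map_add]; ring
      rw [e1]
      exact add_mem hc hd
    | mul x y hx' hy' hx hy =>
      obtain ⟨c, hc⟩ := hx
      obtain ⟨d, hd⟩ := hy
      refine ⟨c * d, ?_⟩
      have e1 : (⟨x * y, hAA (mul_mem hx' hy')⟩ : A₁) - algebraMap k A₁ (c * d) =
          (⟨y, hAA hy'⟩ : A₁) * ((⟨x, hAA hx'⟩ : A₁) - algebraMap k A₁ c) +
          algebraMap k A₁ c * ((⟨y, hAA hy'⟩ : A₁) - algebraMap k A₁ d) := by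
        have h1 : (⟨x * y, hAA (mul_mem hx' hy')⟩ : A₁) = ⟨x, hAA hx'⟩ * ⟨y, hAA hy'⟩ := rfl
        rw [h1, map_mul]; ring
      rw [e1]
      exact add_mem (Ideal.mul_mem_left _ _ hc) (Ideal.mul_mem_left _ _ hd)
  have hJM : J ≤ M := by
    rw [Ideal.span_le]
    rintro y ⟨-, hy⟩
    exact hy
  have hzM : Ideal.span {z'} ≤ M := by
    rw [Ideal.span_singleton_le_iff_mem]
    exact hz
  have hm : M ≤ J ⊔ Ideal.span {z'} ⊔ M ^ 2 := by
    rintro ⟨y, hy⟩ hyp
    have h1 := hUnr.gen y hy hyp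
    have h2 : ∀ x ∈ SA v 𝔄 A₁, ∃ hx : x ∈ A₁, (⟨x, hx⟩ : A₁) ∈ J ⊔ Ideal.span {z'} ⊔ M ^ 2 := by
      intro x hx
      unfold SA at hx
      induction hx using Submodule.span_induction with
      | mem x hx =>
        rcases hx with ⟨hx, hx'⟩ | ⟨c, hc, d, hd, hc', hd', rfl⟩
        · refine ⟨hAA hx, Ideal.mem_sup_left ?_⟩
          obtain ⟨c, hc⟩ := h𝔄J x hx
          have h3 : c = 0 := by
            have h4 := (sup_le hJM hzM) hc
            have h5 : VPos v (x - algebraMap k Ω c) := h4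
            have h6 : VPos v (algebraMap k Ω c) := by
              have : algebraMap k Ω c = x - (x - algebraMap k Ω c) := by ring
              rw [this]
              exact hx'.sub h5
            exact h.const_eq_zero h6
          rw [h3, map_zero, sub_zero] at hc
          exact hc
        · refine ⟨mul_mem hc hd, Ideal.mem_sup_right ?_⟩
          have h3 : (⟨c * d, mul_mem hc hd⟩ : A₁) = ⟨c, hc⟩ * ⟨d, hd⟩ := rfl
          rw [h3, pow_two]
          exact Ideal.mul_mem_mul hc' hd'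
      | zero => exact ⟨zero_mem _, zero_mem _⟩
      | add x y _ _ hx hy =>
        obtain ⟨hx, hx'⟩ := hx
        obtain ⟨hy, hy'⟩ := hy
        exact ⟨add_mem hx hy, add_mem hx' hy'⟩
      | smul c x _ hx =>
        obtain ⟨hx, hx'⟩ := hx
        exact ⟨mul_mem c.2 hx, Ideal.mul_mem_left _ c hx'⟩
    obtain ⟨_, h3⟩ := h2 y h1
    exact h3
  -- the power of `z`
  obtain ⟨G₁, hG₁⟩ : (Polynomial.X : Polynomial k) ^ G.natTrailingDegree ∣ G :=
    Polynomial.X_pow_dvd_iff.2 fun d hd => Polynomial.coeff_eq_zero_of_lt_natTrailingDegree hd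
  set n := G.natTrailingDegree with hn
  have hγ : G₁.coeff 0 ≠ 0 := by
    have h1 : G.coeff n ≠ 0 := Polynomial.trailingCoeff_nonzero_iff_nonzero.2 hG
    rw [hG₁] at h1
    have h2 : ((Polynomial.X : Polynomial k) ^ n * G₁).coeff n = G₁.coeff 0 := by
      have := Polynomial.coeff_X_pow_mul G₁ n 0
      rwa [zero_add] at this
    rwa [h2] at h1
  have hn0 : 0 < n := by
    rcases Nat.eq_zero_or_pos n with h1 | h1
    · exfalso
      have h2 : G.coeff n ≠ 0 := Polynomial.trailingCoeff_nonzero_iff_nonzero.2 hG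
      rw [h1] at h2
      exact h2 hG0
    · exact h1
  have hze : z' ^ n ∈ J ⊔ M ^ (n + 1) := by
    -- `G(z) ∈ J`
    have h1 : aeval z' G ∈ J := by
      have hXJ : (⟨X, hXA⟩ : A₁) ∈ J := hJsub X (Algebra.subset_adjoin (Or.inr rfl)) hX
      have haJ : ∀ i, (⟨a i, haA i⟩ : A₁) ∈ J := fun i =>
        hJsub (a i) (Algebra.subset_adjoin (Or.inl (Finset.mem_coe.2 (haU i)))) (ha i).2
      have h2 : aeval z' G = ⟨X, hXA⟩ - ∑ i, (⟨a i, haA i⟩ : A₁) * ⟨b i, hbA' i⟩ := by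
        apply Subtype.ext
        have h3 : ((aeval z' G : A₁) : Ω) = aeval z G :=
          (Polynomial.aeval_algebraMap_apply Ω z' G).symm
        rw [h3]
        push_cast
        rw [e]
        ring
      rw [h2]
      exact J.sub_mem hXJ (J.sum_mem fun i _ => J.mul_mem_right _ (haJ i))
    have h2 : aeval z' G = z' ^ n * aeval z' G₁ := by
      conv_lhs => rw [hG₁]
      rw [map_mul, map_pow, aeval_X]
    obtain ⟨G₂, hG₂⟩ : ∃ G₂ : Polynomial k, G₁ = G₂ * Polynomial.X + C (G₁.coeff 0) :=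
      ⟨G₁.divX, (Polynomial.divX_mul_X_add G₁).symm⟩
    have h3 : aeval z' G₁ = aeval z' G₂ * z' + algebraMap k A₁ (G₁.coeff 0) := by
      conv_lhs => rw [hG₂]
      rw [map_add, map_mul, aeval_X, aeval_C]
    have h4 : z' ^ n = algebraMap k A₁ (G₁.coeff 0)⁻¹ * aeval z' G +
        (-(algebraMap k A₁ (G₁.coeff 0)⁻¹ * aeval z' G₂)) * z' ^ (n + 1) := by
      rw [h2, h3]
      have h5 : algebraMap k A₁ (G₁.coeff 0)⁻¹ * algebraMap k A₁ (G₁.coeff 0) = 1 := by
        rw [← map_mul, inv_mul_cancel₀ hγ, map_one]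
      linear_combination (-(z' ^ n)) * h5
    rw [h4]
    refine add_mem (Ideal.mem_sup_left (J.mul_mem_left _ h1)) (Ideal.mem_sup_right ?_)
    exact Ideal.mul_mem_left _ _ (Ideal.pow_mem_pow hz _)
  obtain ⟨w, hwA, hw0, hwv, hwi, hw⟩ := zmt_apply h hOA hfg hnn z' n hn0 J rfl hm hze hz
  obtain ⟨N, hN⟩ := hw z hzA
  set B := hensA v (Subring.closure ((A₀ : Set Ω) ∪ {X})) with hBdef
  have hB : HClosed v B := hclosed_hensA (hnn0 hX)
  have hkB : ∀ c : k, algebraMap k Ω c ∈ B := fun c =>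
    le_hensA _ (Subring.subset_closure (Or.inl (hk c)))
  have hOB : ∀ y ∈ O, y ∈ B := by
    intro y hy
    induction hy using Algebra.adjoin_induction with
    | mem x hx =>
      rcases hx with hx | hx
      · exact le_hensA _ (Subring.subset_closure (Or.inl (hU x hx)))
      · exact le_hensA _ (Subring.subset_closure (Or.inr hx))
    | algebraMap c => exact hkB c
    | add x y _ _ hx hy => exact add_mem hx hy
    | mul x y _ _ hx hy => exact mul_mem hx hy
  have h1 := integral_inv_of H6 hB hkB (integral_mono hOB hwi) hw0 hwv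
  have h2 : z = (w ^ N * z) * w⁻¹ ^ N := by
    rw [inv_pow]
    field_simp
  rw [h2]
  exact (integral_mono hOB hN).mul (h1.pow N)

end Pool.Agent.TW
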