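import Pool.Agent.Lib.TW.H6
import Pool.Agent.Lib.TW.H7a

/-!
# TANK W, H7: Zariski's main theorem for one parameter
-/

set_option autoImplicit false

open Polynomial

namespace Pool.Agent.TW

open Pool.Agent.H15JM (RVal)
open Pool.Agent.LU1 (VPos adj)
open Pool.Agent.LUC (Cl clF lv)
open Pool.Agent.D2 (Ctx0)
open Pool.Agent.D2P (hen rootF)

universe u

variable {k Ω : Type u} [Field k] [Field Ω] [Algebra k Ω] {v : RVal Ω}

/-- `A₀` a ring of elements of value `≥ 0`, `X = G(z) + ∑ a_i b_i` with `G ∈ k[T]` not constant,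
`G(0) = 0`, `a_i ∈ A₀` of positive value, `b_i ∈ hensA (A₀[z])`. Then `z` is integral over
`hensA (A₀[X])`. -/
theorem integral_of_param [IsAlgClosed Ω] (h : Ctx0 k v) {A₀ : Subring Ω}
    (hA : ∀ a ∈ A₀, v.Ge 0 a) (hk : ∀ c : k, algebraMap k Ω c ∈ A₀) {z X : Ω}
    (hz : VPos v z) (hX : VPos v X)
    (_hXm : X ∈ hensA v (Subring.closure ((A₀ : Set Ω) ∪ {z})))
    (G : Polynomial k) (hG : G ≠ 0) (hG0 : G.coeff 0 = 0) {m : ℕ} (a b : Fin m → Ω)
    (ha : ∀ i, a i ∈ A₀ ∧ VPos v (a i))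
    (hb : ∀ i, b i ∈ hensA v (Subring.closure ((A₀ : Set Ω) ∪ {z})))
    (e : X = aeval z G + ∑ i, a i * b i) :
    IsIntegral (hensA v (Subring.closure ((A₀ : Set Ω) ∪ {X}))) z :=
  integral_of_param_aux h (fun hB hkB _ hθ => hclosed_adjoin h hB hkB hθ) hA hk hz hX G hG hG0
    a b ha hb e

/-- An element of value `0` integral over a henselian ring is a unit there. -/
theorem integral_inv [IsAlgClosed Ω] (h : Ctx0 k v) {B : Subring Ω} (hB : HClosed v B)
    (hk : ∀ c : k, algebraMap k Ω c ∈ B) {w : Ω} (hw : IsIntegral B w) (h0 : w ≠ 0)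
    (hv : v w = 0) : IsIntegral B w⁻¹ :=
  integral_inv_of (fun hB hkB _ hθ => hclosed_adjoin h hB hkB hθ) hB hk hw h0 hv

end Pool.Agent.TW
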