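import Pool.Agent.Lib.TW.EDefs
import Pool.Agent.Lib.TW.H7
import Pool.Agent.Lib.TW.P2a

/-!
# TANK W, E7: the coordinate of the disc is integral over `A`

The inclusion of `OV F(η)` in `R'` (row E6) is a hypothesis in this file.
-/

set_option autoImplicit false

open Polynomial

namespace Pool.Agent.TW

open Pool.Agent.H15JM (RVal)
open Pool.Agent.LU1 (VPos adj)
open Pool.Agent.LUC (Cl clF lv)
open Pool.Agent.D2 (Ctx0)
open Pool.Agent.D2P (hen rootF)

universe u

variable {k Ω : Type u} [Field k] [Field Ω] [Algebra k Ω] {v : RVal Ω} {r D : ℕ}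

namespace E7

theorem mem_adj_of {F : IntermediateField k Ω} {η a : Ω} (ha : a ∈ F) : a ∈ adj F η :=
  (le_sup_left : F ≤ adj F η) ha

theorem self_mem_adj (F : IntermediateField k Ω) (η : Ω) : η ∈ adj F η :=
  (le_sup_right : IntermediateField.adjoin k {η} ≤ adj F η)
    (IntermediateField.mem_adjoin_simple_self k η)

/-- Taylor expansion. -/
theorem aeval_eq_tc (F : IntermediateField k Ω) (η z : Ω) (P : F[X]) :
    aeval z P = ∑ j ∈ Finset.range (P.natDegree + 1), tc F η P j * (z - η) ^ j := by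
  have h1 : aeval z P = (taylor η (P.map (algebraMap F Ω))).eval (z - η) := by
    rw [Polynomial.taylor_eval_sub, Polynomial.eval_map, Polynomial.aeval_def]
  rw [h1, Polynomial.eval_eq_sum_range' (n := P.natDegree + 1)]
  · rfl
  · rw [Polynomial.natDegree_taylor]
    exact Nat.lt_succ_of_le Polynomial.natDegree_map_le

theorem tc_zero (F : IntermediateField k Ω) (η : Ω) (P : F[X]) : tc F η P 0 = aeval η P := by
  rw [tc, Polynomial.taylor_coeff_zero, Polynomial.eval_map, Polynomial.aeval_def]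

theorem tc_mem (F : IntermediateField k Ω) (η : Ω) (P : F[X]) (j : ℕ) :
    tc F η P j ∈ adj F η := by
  rw [tc, Polynomial.taylor_coeff, Polynomial.eval_eq_sum_range]
  refine sum_mem fun i _ => mul_mem ?_ (pow_mem (self_mem_adj F η) _)
  rw [Polynomial.hasseDeriv_coeff, Polynomial.coeff_map]
  exact mul_mem (natCast_mem _ _) (mem_adj_of (P.coeff _).2)

theorem Ge.pow {a : Ω} (ha : v.Ge 0 a) (n : ℕ) : v.Ge 0 (a ^ n) := by
  induction n with
  | zero => exact fun _ => by rw [pow_zero, v.map_one]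
  | succ n ih =>
    have := RVal.Ge.mul ih ha
    rwa [add_zero, ← pow_succ] at this

variable {p : ℕ} {F : IntermediateField k Ω} {z η : Ω} {ρ b₁ b ε : ℝ}

theorem alg_eta (d : SD p k v r D F z η ρ b₁ b ε) : IsIntegral F η := d.cen.sep.isIntegral

theorem sub_ne (d : SD p k v r D F z η ρ b₁ b ε) : z - η ≠ 0 := by
  intro h
  rw [sub_eq_zero] at h
  have h1 := d.cen.tr
  rw [h] at h1
  exact h1 (alg_eta d).isAlgebraic

theorem zl_ne (d : SD p k v r D F z η ρ b₁ b ε) : d.zl ≠ 0 :=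
  div_ne_zero (sub_ne d) d.π_ne

theorem v_zl (d : SD p k v r D F z η ρ b₁ b ε) : v d.zl = v (z - η) - b := by
  rw [SD.zl, v.map_div (sub_ne d) d.π_ne, d.π_val]

theorem zl_pos (d : SD p k v r D F z η ρ b₁ b ε) : VPos v d.zl := fun _ => by
  rw [v_zl d]
  linarith [d.cen.lt']

theorem aevalQ_ne (d : SD p k v r D F z η ρ b₁ b ε) : aeval z (minpoly F η) ≠ 0 := by
  intro h0
  exact minpoly.ne_zero (alg_eta d) ((transcendental_iff.1 d.cen.tr) _ h0)

theorem X_pos (d : SD p k v r D F z η ρ b₁ b ε) : d.X ≠ 0 ∧ 0 < v d.X := by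
  have h0 := aevalQ_ne d
  refine ⟨div_ne_zero h0 d.q_ne, ?_⟩
  have h1 : v.Ge (v d.q + (v (z - η) - b)) (aeval z (minpoly F η)) := by
    rw [aeval_eq_tc F η z]
    refine RVal.Ge.sum _ _ fun j _ => ?_
    intro hj
    have hj1 : tc F η (minpoly F η) j ≠ 0 := left_ne_zero_of_mul hj
    have hj0 : j ≠ 0 := by
      rintro rfl
      rw [tc_zero, minpoly.aeval] at hj1
      exact hj1 rfl
    rw [v.map_mul hj1 (pow_ne_zero _ (sub_ne d)), v.map_pow (sub_ne d)]
    have h2 := d.q_val.1 j hj1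
    have h3 : (1 : ℝ) ≤ j := by exact_mod_cast Nat.one_le_iff_ne_zero.2 hj0
    have h4 := d.cen.lt'
    nlinarith
  have h2 := h1 h0
  rw [SD.X, v.map_div h0 d.q_ne]
  linarith [d.cen.lt']

theorem nonneg_zl (d : SD p k v r D F z η ρ b₁ b ε) (E : IntermediateField k Ω) :
    ∀ a ∈ Subring.closure ((OV v E : Set Ω) ∪ {d.zl}), v.Ge 0 a := by
  intro c hc
  induction hc using Subring.closure_induction with
  | mem y hy' =>
    rcases hy' with hy' | hy'
    · exact hy'.2
    · rw [Set.mem_singleton_iff.1 hy']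
      exact (zl_pos d).ge
  | zero => exact RVal.Ge.zero
  | one => exact fun _ => by rw [v.map_one]
  | add x y _ _ hx hy => exact hx.add hy
  | neg x _ hx => exact hx.neg
  | mul x y _ _ hx hy =>
    have := RVal.Ge.mul hx hy
    rwa [add_zero] at this

theorem hclosed_R' (d : SD p k v r D F z η ρ b₁ b ε) : HClosed v d.R' :=
  hclosed_hensA (nonneg_zl d _)

theorem zl_mem_R' (d : SD p k v r D F z η ρ b₁ b ε) : d.zl ∈ d.R' :=
  le_hensA _ (Subring.subset_closure (Or.inr rfl))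

/-- The ideal of `R'` generated by the elements of positive value of `k(S')`. -/
def Id (d : SD p k v r D F z η ρ b₁ b ε) (f : Ω) : Prop :=
  ∃ a ∈ OV v d.S'.K, VPos v a ∧ ∃ b ∈ d.R', f = a * b

theorem Id.mem {d : SD p k v r D F z η ρ b₁ b ε} {f : Ω} (hf : Id d f) : f ∈ d.R' := by
  obtain ⟨a, ha, -, b, hb, rfl⟩ := hf
  exact mul_mem (le_hensA _ (Subring.subset_closure (Or.inl ha))) hb

theorem Id.zero (d : SD p k v r D F z η ρ b₁ b ε) : Id d 0 :=
  ⟨0, zero_mem _, LU1.VPos.zero, 0, zero_mem _, by rw [mul_zero]⟩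

theorem Id.mul {d : SD p k v r D F z η ρ b₁ b ε} {f g : Ω} (hf : Id d f) (hg : g ∈ d.R') :
    Id d (f * g) := by
  obtain ⟨a, ha, hp, b, hb, rfl⟩ := hf
  exact ⟨a, ha, hp, b * g, mul_mem hb hg, by ring⟩

theorem Id.neg {d : SD p k v r D F z η ρ b₁ b ε} {f : Ω} (hf : Id d f) : Id d (-f) := by
  have := hf.mul (neg_mem (one_mem d.R'))
  rwa [mul_neg, mul_one] at this

theorem Id.add_aux {d : SD p k v r D F z η ρ b₁ b ε} {a a' b b' : Ω} (ha : a ∈ OV v d.S'.K)
    (ha' : a' ∈ OV v d.S'.K) (hp : VPos v a) (hb : b ∈ d.R') (hb' : b' ∈ d.R') (h0 : a ≠ 0)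
    (h0' : a' ≠ 0) (hle : v a ≤ v a') : Id d (a * b + a' * b') := by
  have h1 : a' / a ∈ d.R' := by
    refine le_hensA _ (Subring.subset_closure (Or.inl ⟨div_mem ha'.1 ha.1, fun _ => ?_⟩))
    rw [v.map_div h0' h0]
    linarith
  refine ⟨a, ha, hp, b + a' / a * b', add_mem hb (mul_mem h1 hb'), ?_⟩
  field_simp

theorem Id.add {d : SD p k v r D F z η ρ b₁ b ε} {f g : Ω} (hf : Id d f) (hg : Id d g) :
    Id d (f + g) := by
  obtain ⟨a, ha, hp, b, hb, rfl⟩ := hf
  obtain ⟨a', ha', hp', b', hb', rfl⟩ := hg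
  by_cases h0 : a = 0
  · rw [h0, zero_mul, zero_add]
    exact ⟨a', ha', hp', b', hb', rfl⟩
  by_cases h0' : a' = 0
  · rw [h0', zero_mul, add_zero]
    exact ⟨a, ha, hp, b, hb, rfl⟩
  rcases le_total (v a) (v a') with h1 | h1
  · exact Id.add_aux ha ha' hp hb hb' h0 h0' h1
  · rw [add_comm]
    exact Id.add_aux ha' ha hp' hb' hb h0' h0 h1

theorem Id.sum {d : SD p k v r D F z η ρ b₁ b ε} {ι : Type*} (s : Finset ι) (f : ι → Ω)
    (hf : ∀ i ∈ s, Id d (f i)) : Id d (∑ i ∈ s, f i) := by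
  classical
  induction s using Finset.induction_on with
  | empty => rw [Finset.sum_empty]; exact Id.zero d
  | insert i s hi ih =>
    rw [Finset.sum_insert hi]
    exact (hf i (Finset.mem_insert_self i s)).add
      (ih fun j hj => hf j (Finset.mem_insert_of_mem hj))

theorem range_s (S : Fr k v r D) : Set.range S.s = Set.range S.x ∪ Set.range S.y := by
  rw [Fr.s]
  ext t
  constructor
  · rintro ⟨i, rfl⟩
    refine Fin.addCases (fun i => ?_) (fun i => ?_) i
    · exact Or.inl ⟨i, by rw [Fin.append_left]⟩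
    · exact Or.inr ⟨i, by rw [Fin.append_right]⟩
  · rintro (⟨i, rfl⟩ | ⟨i, rfl⟩)
    · exact ⟨Fin.castAdd D i, by rw [Fin.append_left]⟩
    · exact ⟨Fin.natAdd r i, by rw [Fin.append_right]⟩

theorem mem_K {S : Fr k v r D} {m : Ω} : m ∈ S.K ↔
    ∃ P P₂ : MvPolynomial (Fin (r + D)) k,
      m = MvPolynomial.aeval S.s P / MvPolynomial.aeval S.s P₂ := by
  rw [Fr.K, ← range_s, IntermediateField.mem_adjoin_range_iff]

/-- Polynomials in `S` and in `S'`. -/
theorem comp_poly (d : SD p k v r D F z η ρ b₁ b ε)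
    (hOV : ∀ a ∈ OV v (adj F η), a ∈ d.R') {P : MvPolynomial (Fin (r + D)) k}
    (hP : MvPolynomial.aeval d.S.s P ≠ 0) :
    MvPolynomial.aeval d.S'.s P ≠ 0 ∧
      v (MvPolynomial.aeval d.S'.s P) = v (MvPolynomial.aeval d.S.s P) ∧
      MvPolynomial.aeval d.S'.s P / MvPolynomial.aeval d.S.s P ∈ d.R' ∧
      MvPolynomial.aeval d.S.s P / MvPolynomial.aeval d.S'.s P ∈ d.R' := by
  obtain ⟨B, hB, hBη, hBz⟩ := d.rb P hP
  have hnear := d.near.near P hP
  rw [← hBη] at hP hnear ⊢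
  rw [← hBz] at hnear ⊢
  have h1 : aeval z B ≠ 0 ∧ v (aeval z B) = v (aeval η B) := by
    by_cases h0 : aeval z B - aeval η B = 0
    · rw [sub_eq_zero.1 h0]
      exact ⟨hP, rfl⟩
    · have h2 : v (aeval η B) < v (aeval z B - aeval η B) := by
        have := hnear h0
        linarith [d.near.pos]
      have h3 := v.add_of_lt hP h0 h2
      have h4 : aeval η B + (aeval z B - aeval η B) = aeval z B := by ring
      rw [h4] at h3
      exact h3
  have h2 : aeval z B / aeval η B ∈ d.R' := by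
    have h3 : aeval z B / aeval η B = ∑ j ∈ Finset.range (B.natDegree + 1),
        (tc F η B j * d.π ^ j / aeval η B) * d.zl ^ j := by
      rw [aeval_eq_tc F η z B, Finset.sum_div]
      refine Finset.sum_congr rfl fun j _ => ?_
      rw [SD.zl, div_pow]
      have := pow_ne_zero j d.π_ne
      field_simp
    rw [h3]
    refine sum_mem fun j _ => mul_mem (hOV _ ⟨?_, ?_⟩) (pow_mem (zl_mem_R' d) _)
    · refine div_mem (mul_mem (tc_mem F η B j) (pow_mem d.π_mem j)) ?_
      rw [← tc_zero]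
      exact tc_mem F η B 0
    · intro h0
      have hj : tc F η B j ≠ 0 := by
        intro h4
        apply h0
        rw [h4, zero_mul, zero_div]
      rw [v.map_div (mul_ne_zero hj (pow_ne_zero _ d.π_ne)) hP,
        v.map_mul hj (pow_ne_zero _ d.π_ne), v.map_pow d.π_ne, d.π_val]
      have h4 := hB.2 j hj
      have h5 : (0 : ℝ) ≤ j := Nat.cast_nonneg j
      have h6 := d.lt₂
      nlinarith
  refine ⟨h1.1, h1.2, h2, ?_⟩
  have h3 : aeval η B / aeval z B = (aeval z B / aeval η B)⁻¹ := by rw [inv_div]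
  rw [h3]
  refine (hclosed_R' d).inv _ h2 (div_ne_zero h1.1 hP) ?_
  rw [v.map_div h1.1 hP, h1.2, sub_self]

theorem comp_K (d : SD p k v r D F z η ρ b₁ b ε)
    (hOV : ∀ a ∈ OV v (adj F η), a ∈ d.R') {m : Ω} (hm : m ∈ d.S.K) (hm0 : m ≠ 0) :
    ∃ m' ∈ d.S'.K, m' ≠ 0 ∧ v m' = v m ∧ m / m' ∈ d.R' := by
  obtain ⟨P, P₂, rfl⟩ := mem_K.1 hm
  have hP : MvPolynomial.aeval d.S.s P ≠ 0 := by
    intro h0
    apply hm0
    rw [h0, zero_div]
  have hP₂ : MvPolynomial.aeval d.S.s P₂ ≠ 0 := by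
    intro h0
    apply hm0
    rw [h0, div_zero]
  obtain ⟨h1, h2, h3, h4⟩ := comp_poly d hOV hP
  obtain ⟨g1, g2, g3, g4⟩ := comp_poly d hOV hP₂
  refine ⟨MvPolynomial.aeval d.S'.s P / MvPolynomial.aeval d.S'.s P₂, mem_K.2 ⟨P, P₂, rfl⟩,
    div_ne_zero h1 g1, ?_, ?_⟩
  · rw [v.map_div h1 g1, v.map_div hP hP₂, h2, g2]
  · have := mul_mem h4 g3
    rwa [show MvPolynomial.aeval d.S.s P / MvPolynomial.aeval d.S'.s P *
      (MvPolynomial.aeval d.S'.s P₂ / MvPolynomial.aeval d.S.s P₂) =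
      MvPolynomial.aeval d.S.s P / MvPolynomial.aeval d.S.s P₂ /
        (MvPolynomial.aeval d.S'.s P / MvPolynomial.aeval d.S'.s P₂) by field_simp] at this

/-- An element of `F(η)` is the product of an element of `k(S')` and a unit of `R'`. -/
theorem comp_N [IsAlgClosed Ω] (h : Ctx k v r) (d : SD p k v r D F z η ρ b₁ b ε)
    (hOV : ∀ a ∈ OV v (adj F η), a ∈ d.R') {u : Ω} (hu : u ∈ adj F η) (hu0 : u ≠ 0) :
    ∃ m' ∈ d.S'.K, m' ≠ 0 ∧ v m' = v u ∧ u / m' ∈ d.R' := by
  have h1 : u ∈ hen v d.S.K := by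
    obtain ⟨a, ha, b, hb, -, rfl⟩ := d.fr.frac u hu
    exact div_mem (d.S.H_le_hen h a ha) (d.S.H_le_hen h b hb)
  obtain ⟨m, hm, hm0, hvm, -⟩ := LUC.Cl.exists_val (D2P.mem_hen.1 h1).1 0 hu0
  have hmK : m ∈ d.S.K := hm
  obtain ⟨m', hm', hm'0, hvm', hmm⟩ := comp_K d hOV hmK hm0
  refine ⟨m', hm', hm'0, hvm'.trans hvm, ?_⟩
  have h2 : u / m' = (u / m) * (m / m') := by field_simp
  rw [h2]
  refine mul_mem (hOV _ ⟨div_mem hu (P2.K_le d.fr hmK), fun _ => ?_⟩) hmm
  rw [v.map_div hu0 hm0, hvm, sub_self]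

/-- Elements of positive value of `F(η)`. -/
theorem Id_N [IsAlgClosed Ω] (h : Ctx k v r) (d : SD p k v r D F z η ρ b₁ b ε)
    (hOV : ∀ a ∈ OV v (adj F η), a ∈ d.R') {u : Ω} (hu : u ∈ adj F η) (hp : VPos v u) :
    Id d u := by
  by_cases hu0 : u = 0
  · rw [hu0]; exact Id.zero d
  · obtain ⟨m', hm', hm'0, hvm', hmR⟩ := comp_N h d hOV hu hu0
    have h2 : 0 < v m' := by rw [hvm']; exact hp hu0
    refine ⟨m', ⟨hm', fun _ => h2.le⟩, fun _ => h2, _, hmR, ?_⟩
    field_simp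

/-- `P(S')/P(S)` is `1` modulo the ideal. -/
theorem Id_poly [IsAlgClosed Ω] (h : Ctx k v r) (d : SD p k v r D F z η ρ b₁ b ε)
    (hOV : ∀ a ∈ OV v (adj F η), a ∈ d.R') {P : MvPolynomial (Fin (r + D)) k}
    (hP : MvPolynomial.aeval d.S.s P ≠ 0) :
    Id d (MvPolynomial.aeval d.S'.s P / MvPolynomial.aeval d.S.s P - 1) ∧
    Id d (MvPolynomial.aeval d.S.s P / MvPolynomial.aeval d.S'.s P - 1) := by
  have hc := comp_poly d hOV hP
  obtain ⟨B, hB, hBη, hBz⟩ := d.rb P hP
  rw [← hBη] at hP hc ⊢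
  rw [← hBz] at hc ⊢
  have h1 : Id d (aeval z B / aeval η B - 1) := by
    have h3 : aeval z B / aeval η B - 1 = ∑ j ∈ Finset.range B.natDegree,
        (tc F η B (j + 1) * d.π ^ (j + 1) / aeval η B) * d.zl ^ (j + 1) := by
      have h4 : aeval z B = aeval η B + ∑ j ∈ Finset.range B.natDegree,
          tc F η B (j + 1) * (z - η) ^ (j + 1) := by
        rw [aeval_eq_tc F η z B, Finset.sum_range_succ', tc_zero, pow_zero, mul_one, add_comm]
      rw [h4, add_div, div_self hP, add_sub_cancel_left, Finset.sum_div]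
      refine Finset.sum_congr rfl fun j _ => ?_
      rw [SD.zl, div_pow]
      have := pow_ne_zero (j + 1) d.π_ne
      field_simp
    rw [h3]
    refine Id.sum _ _ fun j _ => Id.mul (Id_N h d hOV ?_ ?_) (pow_mem (zl_mem_R' d) _)
    · refine div_mem (mul_mem (tc_mem F η B _) (pow_mem d.π_mem _)) ?_
      rw [← tc_zero]
      exact tc_mem F η B 0
    · intro h0
      have hj : tc F η B (j + 1) ≠ 0 := by
        intro h4
        apply h0
        rw [h4, zero_mul, zero_div]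
      rw [v.map_div (mul_ne_zero hj (pow_ne_zero _ d.π_ne)) hP,
        v.map_mul hj (pow_ne_zero _ d.π_ne), v.map_pow d.π_ne, d.π_val]
      have h4 := hB.2 (j + 1) hj
      have h5 : (0 : ℝ) < ((j + 1 : ℕ) : ℝ) := by positivity
      have h6 := d.lt₂
      nlinarith
  refine ⟨h1, ?_⟩
  have h2 : aeval η B / aeval z B - 1 = -((aeval z B / aeval η B - 1) *
      (aeval η B / aeval z B)) := by
    have := hc.1
    field_simp
    ring
  rw [h2]
  exact (h1.mul hc.2.2.2).neg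

/-- An element of `k(S')` compared with an element of `F(η)`. -/
theorem comp_K' [IsAlgClosed Ω] (h : Ctx k v r) (d : SD p k v r D F z η ρ b₁ b ε)
    (hOV : ∀ a ∈ OV v (adj F η), a ∈ d.R') {q : Ω} (hq : q ∈ d.S'.K) (hq0 : q ≠ 0) :
    ∃ q₀ ∈ adj F η, q₀ ≠ 0 ∧ v q₀ = v q ∧ Id d (q₀ / q - 1) := by
  obtain ⟨P, P₂, hqe⟩ := mem_K.1 hq
  rw [hqe] at hq0
  have hSi : AlgebraicIndependent k d.S.s := by
    have h1 := d.S.alg
    have h2 : d.S.s = (Sum.elim d.S.x d.S.y) ∘ finSumFinEquiv.symm := by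
      funext i
      refine Fin.addCases (fun i => ?_) (fun i => ?_) i
      · simp [Fr.s]
      · simp [Fr.s]
    rw [h2]
    exact h1.comp _ finSumFinEquiv.symm.injective
  have hne : ∀ R : MvPolynomial (Fin (r + D)) k, MvPolynomial.aeval d.S'.s R ≠ 0 →
      MvPolynomial.aeval d.S.s R ≠ 0 := by
    intro R hR h1
    have h2 : R = 0 := hSi (by rw [h1, map_zero])
    rw [h2, map_zero] at hR
    exact hR rfl
  have hP' : MvPolynomial.aeval d.S'.s P ≠ 0 := by
    intro h1
    apply hq0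
    rw [h1, zero_div]
  have hP₂' : MvPolynomial.aeval d.S'.s P₂ ≠ 0 := by
    intro h1
    apply hq0
    rw [h1, div_zero]
  have hPn := hne P hP'
  have hP₂n := hne P₂ hP₂'
  have h2 := (comp_poly d hOV hPn).2.1
  have g2 := (comp_poly d hOV hP₂n).2.1
  have h3 := (Id_poly h d hOV hPn).2
  have g3 := (Id_poly h d hOV hP₂n).1
  refine ⟨MvPolynomial.aeval d.S.s P / MvPolynomial.aeval d.S.s P₂,
    P2.K_le d.fr (mem_K.2 ⟨P, P₂, rfl⟩), div_ne_zero hPn hP₂n, ?_, ?_⟩
  · rw [hqe, v.map_div hP' hP₂', v.map_div hPn hP₂n, h2, g2]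
  · rw [hqe]
    have e : MvPolynomial.aeval d.S.s P / MvPolynomial.aeval d.S.s P₂ /
        (MvPolynomial.aeval d.S'.s P / MvPolynomial.aeval d.S'.s P₂) - 1 =
        (MvPolynomial.aeval d.S.s P / MvPolynomial.aeval d.S'.s P - 1) *
          (MvPolynomial.aeval d.S'.s P₂ / MvPolynomial.aeval d.S.s P₂ - 1) +
        (MvPolynomial.aeval d.S.s P / MvPolynomial.aeval d.S'.s P - 1) +
          (MvPolynomial.aeval d.S'.s P₂ / MvPolynomial.aeval d.S.s P₂ - 1) := by
      field_simp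
      ring
    rw [e]
    exact ((h3.mul g3.mem).add h3).add g3

theorem zl_int [IsAlgClosed Ω] (h : Ctx k v r) (d : SD p k v r D F z η ρ b₁ b ε)
    (hOV : ∀ a ∈ OV v (adj F η), a ∈ d.R') : IsIntegral d.A d.zl := by
  classical
  have h0 := h.toCtx0
  set Q := minpoly F η with hQ
  set A₀ : Subring Ω := OV v d.S'.K with hA₀
  have hkA : ∀ c : k, algebraMap k Ω c ∈ A₀ := fun c =>
    ⟨IntermediateField.algebraMap_mem _ c, h0.ge c⟩
  obtain ⟨q₀, hq₀, hq₀0, hvq₀, hqq⟩ := comp_K' h d hOV d.q_mem d.q_ne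
  -- the coefficients
  let u : ℕ → Ω := fun j => tc F η Q j * d.π ^ j / q₀
  have hudef : ∀ j, u j = tc F η Q j * d.π ^ j / q₀ := fun _ => rfl
  have huN : ∀ j, u j ∈ adj F η := fun j =>
    div_mem (mul_mem (tc_mem F η Q j) (pow_mem d.π_mem j)) hq₀
  have hval : ∀ j, tc F η Q j ≠ 0 → v (u j) = v (tc F η Q j) + j * b - v d.q := by
    intro j hj
    rw [hudef, v.map_div (mul_ne_zero hj (pow_ne_zero _ d.π_ne)) hq₀0,
      v.map_mul hj (pow_ne_zero _ d.π_ne), v.map_pow d.π_ne, d.π_val, hvq₀]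
  have hu0 : ∀ j, v.Ge 0 (u j) := by
    intro j hj
    have hj' : tc F η Q j ≠ 0 := by
      intro h4
      apply hj
      rw [hudef, h4, zero_mul, zero_div]
    rw [hval j hj']
    have h4 := d.q_val.1 j hj'
    linarith
  choose c hc using fun j => h0.residue (hu0 j)
  have hc0 : c 0 = 0 := by
    have h1 : u 0 = 0 := by
      rw [hudef, tc_zero, hQ, minpoly.aeval, zero_mul, zero_div]
    have h2 := hc 0
    rw [h1, zero_sub] at h2
    have h3 : VPos v (algebraMap k Ω (c 0)) := by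
      have := h2.neg
      rwa [neg_neg] at this
    exact h0.const_eq_zero h3
  obtain ⟨j₀, hj₀, hj₀1, hj₀2⟩ := d.q_val.2
  have hcj : c j₀ ≠ 0 := by
    intro h1
    have h2 := hc j₀
    rw [h1, map_zero, sub_zero] at h2
    have h3 : v (u j₀) = 0 := by rw [hval j₀ hj₀1, hj₀2, sub_self]
    have h4 : u j₀ ≠ 0 := div_ne_zero (mul_ne_zero hj₀1 (pow_ne_zero _ d.π_ne)) hq₀0
    have h5 := h2 h4
    rw [h3] at h5
    exact lt_irrefl _ h5
  -- the decomposition of the coefficients of `X`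
  have hdec : ∀ j, Id d (tc F η Q j * d.π ^ j / d.q - algebraMap k Ω (c j)) := by
    intro j
    have h1 := Id_N h d hOV (sub_mem (huN j) (IntermediateField.algebraMap_mem _ (c j))) (hc j)
    have h2 : tc F η Q j * d.π ^ j / d.q = u j * (q₀ / d.q) := by
      rw [hudef]
      have := d.q_ne
      field_simp
    have h3 : tc F η Q j * d.π ^ j / d.q - algebraMap k Ω (c j) =
        (u j - algebraMap k Ω (c j)) + (q₀ / d.q - 1) * u j := by
      rw [h2]; ring
    rw [h3]
    exact h1.add (hqq.mul (hOV _ ⟨huN j, hu0 j⟩))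
  choose a ha hap bb hbb hab using hdec
  let n := Q.natDegree + 1
  have hj₀n : j₀ < n := by
    by_contra hcon
    apply hj₀1
    rw [tc, Polynomial.coeff_eq_zero_of_natDegree_lt]
    rw [Polynomial.natDegree_taylor]
    refine lt_of_le_of_lt Polynomial.natDegree_map_le ?_
    exact Nat.lt_of_succ_le (not_lt.1 hcon)
  let G : Polynomial k := ∑ j ∈ Finset.range n, Polynomial.monomial j (c j)
  have hGc : ∀ j, j < n → G.coeff j = c j := by
    intro j hj
    change (∑ i ∈ Finset.range n, Polynomial.monomial i (c i)).coeff j = c j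
    rw [Polynomial.finset_sum_coeff, Finset.sum_eq_single j]
    · rw [Polynomial.coeff_monomial, if_pos rfl]
    · intro i _ hij
      rw [Polynomial.coeff_monomial, if_neg hij]
    · intro h1
      exact absurd (Finset.mem_range.2 hj) h1
  have hG : G ≠ 0 := by
    intro h1
    apply hcj
    rw [← hGc j₀ hj₀n, h1, Polynomial.coeff_zero]
  have hG0 : G.coeff 0 = 0 := by
    rw [hGc 0 (Nat.succ_pos _), hc0]
  have hX : d.X = aeval d.zl G + ∑ i : Fin n, a i * (bb i * d.zl ^ (i : ℕ)) := by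
    have h1 : d.X = ∑ j ∈ Finset.range n, (tc F η Q j * d.π ^ j / d.q) * d.zl ^ j := by
      rw [SD.X, ← hQ, aeval_eq_tc F η z Q, Finset.sum_div]
      refine Finset.sum_congr rfl fun j _ => ?_
      rw [SD.zl, div_pow]
      have := pow_ne_zero j d.π_ne
      have := d.q_ne
      field_simp
    have h2 : aeval d.zl G = ∑ j ∈ Finset.range n, algebraMap k Ω (c j) * d.zl ^ j := by
      change aeval d.zl (∑ i ∈ Finset.range n, Polynomial.monomial i (c i)) = _
      rw [map_sum]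
      refine Finset.sum_congr rfl fun j _ => ?_
      rw [Polynomial.aeval_monomial]
    have h3 : ∑ i : Fin n, a i * (bb i * d.zl ^ (i : ℕ)) =
        ∑ j ∈ Finset.range n, a j * (bb j * d.zl ^ j) :=
      Fin.sum_univ_eq_sum_range (fun j => a j * (bb j * d.zl ^ j)) n
    rw [h1, h2, h3, ← Finset.sum_add_distrib]
    refine Finset.sum_congr rfl fun j _ => ?_
    linear_combination (d.zl ^ j) * hab j
  have hX' := X_pos d
  refine integral_of_param h0 (A₀ := OV v d.S'.K) (fun a ha => ha.2) hkA (zl_pos d) (fun _ => hX'.2) ?_ G hG hG0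
    (fun i : Fin n => a i) (fun i : Fin n => bb i * d.zl ^ (i : ℕ)) (fun i => ⟨ha i, hap i⟩)
    (fun i => mul_mem (hbb i) (pow_mem (zl_mem_R' d) _)) hX
  rw [hX]
  have hzlR : d.zl ∈ d.R' := zl_mem_R' d
  refine add_mem ?_ (sum_mem fun i _ => mul_mem (le_hensA _ (Subring.subset_closure
    (Or.inl (ha i)))) (mul_mem (hbb i) (pow_mem hzlR _)))
  rw [Polynomial.aeval_eq_sum_range]
  refine sum_mem fun i _ => ?_
  rw [Algebra.smul_def]
  exact mul_mem (le_hensA _ (Subring.subset_closure (Or.inl (hkA _)))) (pow_mem hzlR _)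

/-- `R'` is contained in `A[zl]`. -/
theorem R_fin [IsAlgClosed Ω] (h : Ctx k v r) (d : SD p k v r D F z η ρ b₁ b ε)
    (hOV : ∀ a ∈ OV v (adj F η), a ∈ d.R') :
    ∃ e : ℕ, ∀ f ∈ d.R', ∃ a : Fin e → Ω, (∀ i, a i ∈ d.A) ∧
      f = ∑ i, a i * d.zl ^ (i : ℕ) := by
  have h0 := h.toCtx0
  have hkA : ∀ c : k, algebraMap k Ω c ∈ OV v d.S'.K := fun c =>
    ⟨IntermediateField.algebraMap_mem _ c, h0.ge c⟩
  have hint := zl_int h d hOV
  have hXp := X_pos d
  have hA : HClosed v d.A := by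
    refine hclosed_hensA ?_
    intro c hc
    induction hc using Subring.closure_induction with
    | mem y hy' =>
      rcases hy' with hy' | hy'
      · exact hy'.2
      · rw [Set.mem_singleton_iff.1 hy']
        exact fun _ => hXp.2.le
    | zero => exact RVal.Ge.zero
    | one => exact fun _ => by rw [v.map_one]
    | add x y _ _ hx hy => exact hx.add hy
    | neg x _ hx => exact hx.neg
    | mul x y _ _ hx hy =>
      have := RVal.Ge.mul hx hy
      rwa [add_zero] at this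
  have hOA : ∀ c ∈ OV v d.S'.K, c ∈ d.A := fun c hc =>
    le_hensA _ (Subring.subset_closure (Or.inl hc))
  have h1 := hclosed_adjoin h0 hA (fun c => hOA _ (hkA c)) hint
  obtain ⟨g, hg, hg0⟩ := hint
  refine ⟨g.natDegree, fun f hf => ?_⟩
  have h2 : f ∈ Subring.closure ((d.A : Set Ω) ∪ {d.zl}) := by
    refine hensA_le ?_ h1 hf
    rw [Subring.closure_le]
    rintro x (hx | hx)
    · exact Subring.subset_closure (Or.inl (hOA x hx))
    · exact Subring.subset_closure (Or.inr hx)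
  obtain ⟨P, hP⟩ : ∃ P : Polynomial d.A, f = aeval d.zl P := by
    clear hf
    induction h2 using Subring.closure_induction with
    | mem y hy =>
      rcases hy with hy | hy
      · exact ⟨C ⟨y, hy⟩, by rw [aeval_C]; rfl⟩
      · exact ⟨Polynomial.X, by rw [aeval_X]; exact hy⟩
    | zero => exact ⟨0, by rw [map_zero]⟩
    | one => exact ⟨1, by rw [map_one]⟩
    | add x y _ _ hx hy =>
      obtain ⟨P, rfl⟩ := hx
      obtain ⟨P₂, rfl⟩ := hy
      exact ⟨P + P₂, by rw [map_add]⟩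
    | neg x _ hx =>
      obtain ⟨P, rfl⟩ := hx
      exact ⟨-P, by rw [map_neg]⟩
    | mul x y _ _ hx hy =>
      obtain ⟨P, rfl⟩ := hx
      obtain ⟨P₂, rfl⟩ := hy
      exact ⟨P * P₂, by rw [map_mul]⟩
  refine ⟨fun i => ((P %ₘ g).coeff i : Ω), fun i => ((P %ₘ g).coeff i).2, ?_⟩
  have h3 : aeval d.zl P = aeval d.zl (P %ₘ g) := by
    conv_lhs => rw [← Polynomial.modByMonic_add_div P g]
    rw [map_add, map_mul, show aeval d.zl g = 0 from hg0, zero_mul, add_zero]
  rw [hP, h3]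
  by_cases hg1 : g = 1
  · exfalso
    rw [hg1, Polynomial.eval₂_one] at hg0
    exact one_ne_zero hg0
  rw [Polynomial.aeval_eq_sum_range' (n := g.natDegree)
    (Polynomial.natDegree_modByMonic_lt P hg hg1),
    Fin.sum_univ_eq_sum_range (fun i => ((P %ₘ g).coeff i : Ω) * d.zl ^ i) g.natDegree]
  refine Finset.sum_congr rfl fun i _ => ?_
  rw [Algebra.smul_def]
  rfl

end E7

end Pool.Agent.TW
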