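import Pool.Agent.Lib.TW.E6
import Pool.Agent.Lib.TW.E7a

/-!
# TANK W, E7: `zl` is integral over `A`, `R` is finite over `A`
-/

set_option autoImplicit false

open Polynomial

namespace Pool.Agent.TW

open Pool.Agent.H15JM (RVal)
open Pool.Agent.LU1 (VPos adj)
open Pool.Agent.D2 (Ctx0)
open Pool.Agent.D2P (hen)

universe u

variable {k Ω : Type u} [Field k] [Field Ω] [Algebra k Ω] {v : RVal Ω} {r D : ℕ} {p : ℕ}
  [Fact p.Prime] [CharP k p] [CharP Ω p] [IsAlgClosed Ω] [IsAlgClosed k]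
  {F : IntermediateField k Ω} {z η : Ω} {ρ b₁ b ε : ℝ}

set_option linter.unusedVariables false in
set_option linter.unusedSectionVars false in
theorem SD.X_pos (h : Ctx k v r) (d : SD p k v r D F z η ρ b₁ b ε) : d.X ≠ 0 ∧ 0 < v d.X :=
  E7.X_pos d

theorem SD.zl_int (h : Ctx k v r) (d : SD p k v r D F z η ρ b₁ b ε) :
    IsIntegral d.A d.zl := E7.zl_int h d (d.OV_le_R' h)

theorem SD.R_fin (h : Ctx k v r) (d : SD p k v r D F z η ρ b₁ b ε) :
    ∃ e : ℕ, ∀ f ∈ d.R, ∃ a : Fin e → Ω, (∀ i, a i ∈ d.A) ∧ f = ∑ i, a i * d.zl ^ (i : ℕ) := by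
  obtain ⟨e, he⟩ := E7.R_fin h d (d.OV_le_R' h)
  exact ⟨e, fun f hf => he f (d.R_le_R' h hf)⟩

end Pool.Agent.TW
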