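import Pool.Agent.Lib.TW.H1
import Pool.Agent.Lib.TW.H3

/-!
# TANK W, H5: the henselization of a normal ring is normal
-/

set_option autoImplicit false

open Polynomial

namespace Pool.Agent.TW

open Pool.Agent.H15JM (RVal)
open Pool.Agent.LU1 (VPos)
open Pool.Agent.LUC (lv le_lv mem_lv lv_mono lv_le lv_inv lv_nonneg lv_lv)

universe u

variable {k Ω : Type u} [Field k] [Field Ω] [Algebra k Ω] {v : RVal Ω}

theorem isIntegral_iff_coeff {A : Subring Ω} {f : Ω} :
    IsIntegral A f ↔ ∃ p : Polynomial Ω, p.Monic ∧ (∀ i, p.coeff i ∈ A) ∧ p.eval f = 0 := by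
  constructor
  · rintro ⟨p, hp, h0⟩
    refine ⟨p.map (algebraMap A Ω), hp.map _, fun i => ?_, ?_⟩
    · rw [coeff_map]
      exact (p.coeff i).2
    · rwa [eval_map]
  · rintro ⟨p, hp, hA, h0⟩
    have hc : (↑p.coeffs : Set Ω) ⊆ A := by
      intro c hc
      rw [Finset.mem_coe, Polynomial.mem_coeffs_iff] at hc
      obtain ⟨i, -, rfl⟩ := hc
      exact hA i
    refine ⟨p.toSubring A hc, (Polynomial.monic_toSubring p A hc).2 hp, ?_⟩
    have h1 : (p.toSubring A hc).map (algebraMap A Ω) = p := Polynomial.map_toSubring p A hc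
    rw [← eval_map, h1, h0]

/-- An element integral over `lv v B` has a multiple, by an element of value zero, which is integral
over `B`. -/
theorem exists_mul_integral {B : Subring Ω} {f : Ω} (hf : IsIntegral (lv v B) f) :
    ∃ s ∈ B, s ≠ 0 ∧ v s = 0 ∧ IsIntegral B (s * f) := by
  classical
  obtain ⟨p, hp, hB, h0⟩ := isIntegral_iff_coeff.1 hf
  choose a ha b hb hb0 hvb he using hB
  set s : Ω := ∏ i ∈ Finset.range p.natDegree, b i with hs
  have hsB : s ∈ B := B.prod_mem fun i _ => hb i
  have hs0 : s ≠ 0 := Finset.prod_ne_zero_iff.2 fun i _ => hb0 i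
  have hvs : v s = 0 := by
    rw [hs, v.map_prod _ _ fun i _ => hb0 i]
    exact Finset.sum_eq_zero fun i _ => hvb i
  refine ⟨s, hsB, hs0, hvs, isIntegral_iff_coeff.2 ⟨p.scaleRoots s, ?_, fun i => ?_, ?_⟩⟩
  · exact (monic_scaleRoots_iff s).2 hp
  · rw [coeff_scaleRoots]
    rcases lt_trichotomy i p.natDegree with hi | hi | hi
    · obtain ⟨m, hm⟩ : ∃ m, p.natDegree - i = m + 1 := ⟨p.natDegree - i - 1, by omega⟩
      rw [hm, pow_succ', ← mul_assoc]
      refine mul_mem ?_ (pow_mem hsB m)
      rw [he i, hs, ← Finset.mul_prod_erase _ _ (Finset.mem_range.2 hi), ← mul_assoc,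
        div_mul_cancel₀ _ (hb0 i)]
      exact mul_mem (ha i) (B.prod_mem fun j _ => hb j)
    · rw [hi, Nat.sub_self, pow_zero, mul_one, hp.coeff_natDegree]
      exact one_mem _
    · rw [coeff_eq_zero_of_natDegree_lt hi, zero_mul]
      exact zero_mem _
  · have := scaleRoots_eval₂_mul (p := p) (RingHom.id Ω) f s
    simp only [RingHom.id_apply, eval₂_id] at this
    rw [this, h0, mul_zero]

/-- `A` is integrally closed in its field of fractions. -/
def Nor (A : Subring Ω) : Prop := ∀ f, InFrac A f → IsIntegral A f → f ∈ A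

theorem InFrac.of_lv {B : Subring Ω} {f : Ω} (hf : InFrac (lv v B) f) : InFrac B f := by
  obtain ⟨a, ⟨a1, ha1, a2, ha2, ha20, _, rfl⟩, b, ⟨b1, hb1, b2, hb2, hb20, _, rfl⟩, hb0, rfl⟩ := hf
  have hb10 : b1 ≠ 0 := by
    rintro rfl
    exact hb0 (by rw [zero_div])
  exact ⟨a1 * b2, mul_mem ha1 hb2, a2 * b1, mul_mem ha2 hb1, mul_ne_zero ha20 hb10, by
    field_simp⟩

theorem InFrac.mul_left {B : Subring Ω} {f s : Ω} (hf : InFrac B f) (hs : s ∈ B) :
    InFrac B (s * f) := by
  obtain ⟨a, ha, b, hb, hb0, rfl⟩ := hf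
  exact ⟨s * a, mul_mem hs ha, b, hb, hb0, by rw [mul_div_assoc]⟩

theorem nor_lv {A : Subring Ω} (hn : Nor A) : Nor (lv v A) := by
  intro f hf hi
  obtain ⟨s, hs, hs0, hvs, hsi⟩ := exists_mul_integral hi
  have h1 := hn (s * f) (hf.of_lv.mul_left hs) hsi
  exact ⟨s * f, h1, s, hs, hs0, hvs, by rw [mul_div_cancel_left₀ _ hs0]⟩

/-- An element integral over a ring of elements of value `≥ 0` has value `≥ 0`. -/
theorem ge_of_isIntegral {A : Subring Ω} (hA : ∀ a ∈ A, v.Ge 0 a) {f : Ω} (hf : IsIntegral A f) :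
    v.Ge 0 f := by
  intro hf0
  obtain ⟨p, hp, hpA, h0⟩ := isIntegral_iff_coeff.1 hf
  by_contra hcon
  push Not at hcon
  rw [eval_eq_sum_range, Finset.sum_range_succ, hp.coeff_natDegree, one_mul] at h0
  set n := p.natDegree with hn
  have hn0 : 0 < n := by
    rcases Nat.eq_zero_or_pos n with h | h
    · rw [h] at h0
      simp at h0
    · exact h
  have h1 : f ^ n = -∑ i ∈ Finset.range n, p.coeff i * f ^ i := by
    linear_combination h0
  have h2 : v.Ge ((n - 1) * v f) (-∑ i ∈ Finset.range n, p.coeff i * f ^ i) := by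
    refine (RVal.Ge.sum _ _ fun i hi => ?_).neg
    have h3 : v.Ge (0 + v (f ^ i)) (p.coeff i * f ^ i) := (hA _ (hpA i)).mul (RVal.ge_self _)
    refine h3.mono ?_
    rw [v.map_pow hf0, zero_add]
    have h4 : i ≤ n - 1 := by have := Finset.mem_range.1 hi; omega
    have h5 : (i : ℝ) ≤ (n : ℝ) - 1 := by
      have : ((n - 1 : ℕ) : ℝ) = (n : ℝ) - 1 := by
        rw [Nat.cast_sub (by omega : 1 ≤ n), Nat.cast_one]
      rw [← this]
      exact_mod_cast h4
    nlinarith
  rw [← h1] at h2
  have h6 := h2 (pow_ne_zero n hf0)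
  rw [v.map_pow hf0] at h6
  nlinarith

theorem nonneg_closure {A : Subring Ω} (hA : ∀ a ∈ A, v.Ge 0 a) {θ : Ω} (hθ : v.Ge 0 θ) :
    ∀ a ∈ Subring.closure ((A : Set Ω) ∪ {θ}), v.Ge 0 a := by
  intro a ha
  have hle : Subring.closure ((A : Set Ω) ∪ {θ}) ≤ OVt v := by
    rw [Subring.closure_le]
    rintro x (hx | hx)
    · exact hA x hx
    · rw [Set.mem_singleton_iff] at hx
      subst hx
      exact hθ
  exact hle ha

theorem integral_of_closure {A : Subring Ω} {θ : Ω} (hθ : IsIntegral A θ) {a : Ω}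
    (ha : a ∈ Subring.closure ((A : Set Ω) ∪ {θ})) : IsIntegral A a := by
  refine Subring.closure_induction (p := fun x _ => IsIntegral A x) ?_ isIntegral_zero
    isIntegral_one (fun _ _ _ _ h h' => h.add h') (fun _ _ h => h.neg)
    (fun _ _ _ _ h h' => h.mul h') ha
  rintro x (hx | hx)
  · exact isIntegral_algebraMap (R := A) (A := Ω) (x := ⟨x, hx⟩)
  · rw [Set.mem_singleton_iff] at hx
    subst hx
    exact hθ

/-- `f ∈ A[θ]` for the localization of `A[θ]` in the elements of value zero, if `f` is integral over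
the normal ring `A` and in the field of fractions of `A[θ]`, `θ` a simple root of a monic polynomial
over `A`, of which the derivative has value zero in `θ`. -/
theorem conductor_mem {A : Subring Ω} (hA : ∀ a ∈ A, v.Ge 0 a) (hn : Nor A)
    {g : Polynomial Ω} {θ : Ω} (hg : g.Monic) (hgA : ∀ i, g.coeff i ∈ A) (h0 : g.eval θ = 0)
    (hd : g.derivative.eval θ ≠ 0) (hd' : v (g.derivative.eval θ) = 0) {f : Ω}
    (hf : InFrac (Subring.closure ((A : Set Ω) ∪ {θ})) f) (hi : IsIntegral A f) :
    f ∈ lv v (Subring.closure ((A : Set Ω) ∪ {θ})) := by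
  classical
  let _ : Algebra (FractionRing A) Ω := FractionRing.liftAlgebra A Ω
  have : IsScalarTower A (FractionRing A) Ω := FractionRing.isScalarTower_liftAlgebra A Ω
  have hinj : Function.Injective (algebraMap (FractionRing A) Ω) :=
    RingHom.injective (algebraMap (FractionRing A) Ω)
  have : IsIntegrallyClosed A := by
    refine (isIntegrallyClosed_iff (FractionRing A)).2 fun {x} hx => ?_
    obtain ⟨a, b, hb, rfl⟩ := IsFractionRing.div_surjective (A := A) x
    have hb0 : (b : Ω) ≠ 0 := fun h => nonZeroDivisors.ne_zero hb (Subtype.ext h)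
    have hx' : algebraMap (FractionRing A) Ω (algebraMap A (FractionRing A) a /
        algebraMap A (FractionRing A) b) = (a : Ω) / (b : Ω) := by
      rw [map_div₀, ← IsScalarTower.algebraMap_apply, ← IsScalarTower.algebraMap_apply]
      rfl
    have h1 : ((a : Ω) / (b : Ω)) ∈ A := by
      refine hn _ ⟨a, a.2, b, b.2, hb0, rfl⟩ ?_
      rw [← hx']
      exact hx.algebraMap
    refine ⟨⟨_, h1⟩, hinj ?_⟩
    rw [hx', ← IsScalarTower.algebraMap_apply]
    rfl
  have hθA : IsIntegral A θ := isIntegral_iff_coeff.2 ⟨g, hg, hgA, h0⟩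
  have hθ0 : v.Ge 0 θ := ge_of_isIntegral hA hθA
  -- the minimal polynomial
  obtain ⟨q, hq, hq0⟩ : ∃ q : Polynomial A, q.map (algebraMap A Ω) = g ∧ aeval θ q = 0 := by
    have hc : (↑g.coeffs : Set Ω) ⊆ A := by
      intro c hc
      rw [Finset.mem_coe, Polynomial.mem_coeffs_iff] at hc
      obtain ⟨i, -, rfl⟩ := hc
      exact hgA i
    have h1 : (g.toSubring A hc).map (algebraMap A Ω) = g := Polynomial.map_toSubring g A hc
    refine ⟨g.toSubring A hc, h1, ?_⟩
    rw [aeval_def, ← eval_map, h1, h0]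
  set m : Polynomial A := minpoly A θ with hm
  have hm0 : aeval θ m = 0 := minpoly.aeval A θ
  obtain ⟨h, hmh⟩ : m ∣ q := minpoly.isIntegrallyClosed_dvd hθA hq0
  have hder : g.derivative.eval θ = aeval θ m.derivative * aeval θ h := by
    have h1 : g.derivative.eval θ = aeval θ q.derivative := by
      rw [← hq, derivative_map, eval_map, aeval_def]
    rw [h1, hmh, derivative_mul, map_add, map_mul, map_mul, hm0, zero_mul, add_zero]
  have hθm : θ ∈ Subring.closure ((A : Set Ω) ∪ {θ}) :=
    Subring.subset_closure (Or.inr (Set.mem_singleton θ))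
  have hAm : ∀ a : A, (a : Ω) ∈ Subring.closure ((A : Set Ω) ∪ {θ}) := fun a =>
    Subring.subset_closure (Or.inl a.2)
  have hmem : ∀ P : Polynomial A, aeval θ P ∈ Subring.closure ((A : Set Ω) ∪ {θ}) := by
    intro P
    rw [aeval_eq_sum_range]
    refine sum_mem fun i _ => ?_
    rw [Algebra.smul_def]
    exact mul_mem (hAm _) (pow_mem hθm i)
  have hnn := nonneg_closure hA hθ0
  rw [hder] at hd hd'
  have hc0 : aeval θ m.derivative ≠ 0 := left_ne_zero_of_mul hd
  have hvc : v (aeval θ m.derivative) = 0 := by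
    have h1 := hnn _ (hmem m.derivative) hc0
    have h2 := hnn _ (hmem h) (right_ne_zero_of_mul hd)
    rw [v.map_mul hc0 (right_ne_zero_of_mul hd)] at hd'
    linarith
  -- the field
  have hθK : IsIntegral (FractionRing A) θ := hθA.tower_top
  set x : IntermediateField.adjoin (FractionRing A) ({θ} : Set Ω) :=
    IntermediateField.AdjoinSimple.gen (FractionRing A) θ with hx
  have : FiniteDimensional (FractionRing A)
      (IntermediateField.adjoin (FractionRing A) ({θ} : Set Ω)) :=
    IntermediateField.adjoin.finiteDimensional hθK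
  have hmK : minpoly (FractionRing A) θ = m.map (algebraMap A (FractionRing A)) :=
    minpoly.isIntegrallyClosed_eq_field_fractions' (FractionRing A) hθA
  have hsep : IsSeparable (FractionRing A) θ := by
    unfold IsSeparable
    rw [Polynomial.separable_iff_derivative_ne_zero (minpoly.irreducible hθK)]
    intro h1
    apply hc0
    rw [hmK, derivative_map] at h1
    have h2 : aeval θ (m.derivative.map (algebraMap A (FractionRing A))) = 0 := by
      rw [h1, map_zero]
    rwa [aeval_map_algebraMap] at h2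
  have hST : IsScalarTower A (IntermediateField.adjoin (FractionRing A) ({θ} : Set Ω)) Ω := by
    refine IsScalarTower.of_algebraMap_eq fun a => ?_
    rw [IsScalarTower.algebraMap_apply A (FractionRing A)
      (IntermediateField.adjoin (FractionRing A) ({θ} : Set Ω)) a,
      ← IsScalarTower.algebraMap_apply (FractionRing A)
      (IntermediateField.adjoin (FractionRing A) ({θ} : Set Ω)) Ω,
      ← IsScalarTower.algebraMap_apply A (FractionRing A) Ω]
  have hinj' : Function.Injective
      (algebraMap (IntermediateField.adjoin (FractionRing A) ({θ} : Set Ω)) Ω) :=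
    RingHom.injective _
  have : Algebra.IsSeparable (FractionRing A)
      (IntermediateField.adjoin (FractionRing A) ({θ} : Set Ω)) :=
    (IntermediateField.isSeparable_adjoin_simple_iff_isSeparable _ _).2 hsep
  have htop : Algebra.adjoin (FractionRing A) {x} = ⊤ := by
    have := (IntermediateField.adjoin.powerBasis hθK).adjoin_gen_eq_top
    rwa [IntermediateField.adjoin.powerBasis_gen] at this
  have hxA : IsIntegral A x := by
    rw [← isIntegral_algebraMap_iff (B := Ω) hinj']
    exact hθA
  -- `f` in the field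
  have hcl : ∀ a ∈ Subring.closure ((A : Set Ω) ∪ {θ}),
      a ∈ IntermediateField.adjoin (FractionRing A) ({θ} : Set Ω) := by
    intro a ha
    have hle : Subring.closure ((A : Set Ω) ∪ {θ}) ≤
        (IntermediateField.adjoin (FractionRing A) ({θ} : Set Ω)).toSubfield.toSubring := by
      rw [Subring.closure_le]
      rintro y (hy | hy)
      · have : y = algebraMap (FractionRing A) Ω (algebraMap A (FractionRing A) ⟨y, hy⟩) := by
          rw [← IsScalarTower.algebraMap_apply]
          rfl
        rw [this]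
        exact IntermediateField.algebraMap_mem _ _
      · rw [Set.mem_singleton_iff] at hy
        subst hy
        exact IntermediateField.mem_adjoin_simple_self _ _
    exact hle ha
  have hfL : f ∈ IntermediateField.adjoin (FractionRing A) ({θ} : Set Ω) := by
    obtain ⟨a, ha, b, hb, -, rfl⟩ := hf
    exact div_mem (hcl a ha) (hcl b hb)
  set f' : IntermediateField.adjoin (FractionRing A) ({θ} : Set Ω) := ⟨f, hfL⟩ with hf'
  have hfA : IsIntegral A f' := by
    rw [← isIntegral_algebraMap_iff (B := Ω) hinj']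
    exact hi
  have hdual : f' ∈ (Algebra.traceForm (FractionRing A)
      (IntermediateField.adjoin (FractionRing A) ({θ} : Set Ω))).dualSubmodule
        (Subalgebra.toSubmodule (Algebra.adjoin A {x})) := by
    rw [LinearMap.BilinForm.mem_dualSubmodule]
    intro y hy
    rw [Subalgebra.mem_toSubmodule] at hy
    have hyA : IsIntegral A y := adjoin_le_integralClosure hxA hy
    rw [Algebra.traceForm_apply, Submodule.mem_one]
    exact (isIntegrallyClosed_iff (FractionRing A)).1 inferInstance
      (Algebra.isIntegral_trace (hfA.mul hyA))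
  rw [traceForm_dualSubmodule_adjoin A (FractionRing A) htop hxA] at hdual
  obtain ⟨w, hw, e⟩ := hdual
  have hw' : (w : Ω) ∈ Subring.closure ((A : Set Ω) ∪ {θ}) := by
    rw [Subalgebra.coe_toSubmodule, SetLike.mem_coe, Algebra.adjoin_singleton_eq_range_aeval] at hw
    obtain ⟨P, rfl⟩ := hw
    have h1 : ((aeval x P : IntermediateField.adjoin (FractionRing A) ({θ} : Set Ω)) : Ω)
        = aeval θ P := by
      have := aeval_algebraMap_apply Ω x P
      exact this.symm
    change ((aeval x P : IntermediateField.adjoin (FractionRing A) ({θ} : Set Ω)) : Ω) ∈ _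
    rw [h1]
    exact hmem P
  have hc' : ((aeval x (derivative (minpoly (FractionRing A) x)) :
      IntermediateField.adjoin (FractionRing A) ({θ} : Set Ω)) : Ω) = aeval θ m.derivative := by
    have h1 : minpoly A x = m := by
      rw [hm]
      have := minpoly.algebraMap_eq (A := A) (B := IntermediateField.adjoin (FractionRing A)
        ({θ} : Set Ω)) (B' := Ω) hinj' x
      exact this.symm
    rw [minpoly.isIntegrallyClosed_eq_field_fractions' (FractionRing A) hxA, h1, derivative_map,
      aeval_map_algebraMap]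
    exact (aeval_algebraMap_apply Ω x m.derivative).symm
  refine ⟨(w : Ω), hw', aeval θ m.derivative, hmem _, hc0, hvc, ?_⟩
  have h2 : (f' : Ω) = (aeval θ m.derivative)⁻¹ * (w : Ω) := by
    rw [← hc']
    exact (congrArg (Subtype.val) e).symm
  rw [div_eq_mul_inv, mul_comm]
  exact h2

theorem integral_trans {A B : Subring Ω} (hAB : A ≤ B) (hB : ∀ b ∈ B, IsIntegral A b) {f : Ω}
    (hf : IsIntegral B f) : IsIntegral A f := by
  let _ : Algebra A B := (Subring.inclusion hAB).toAlgebra
  have : IsScalarTower A B Ω := IsScalarTower.of_algebraMap_eq fun _ => rfl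
  have : Algebra.IsIntegral A B := by
    refine ⟨fun b => ?_⟩
    have h1 : Function.Injective (algebraMap B Ω) := Subtype.val_injective
    rw [← isIntegral_algebraMap_iff (B := Ω) h1]
    exact hB b b.2
  exact isIntegral_trans (R := A) (A := B) f hf

/-- An étale extension of a normal ring is normal. -/
theorem nor_step {A : Subring Ω} (hA : ∀ a ∈ A, v.Ge 0 a) (hn : Nor A)
    {g : Polynomial Ω} {θ : Ω} (hg : g.Monic) (hgA : ∀ i, g.coeff i ∈ A) (h0 : g.eval θ = 0)
    (hd : g.derivative.eval θ ≠ 0) (hd' : v (g.derivative.eval θ) = 0) :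
    Nor (lv v (Subring.closure ((A : Set Ω) ∪ {θ}))) := by
  intro f hf hi
  obtain ⟨s, hs, hs0, hvs, hsi⟩ := exists_mul_integral hi
  have hθA : IsIntegral A θ := isIntegral_iff_coeff.2 ⟨g, hg, hgA, h0⟩
  have h1 : IsIntegral A (s * f) := integral_trans (fun a ha => Subring.subset_closure (Or.inl ha))
    (fun b hb => integral_of_closure hθA hb) hsi
  have h2 := conductor_mem hA hn hg hgA h0 hd hd' (hf.of_lv.mul_left hs) h1
  have h3 : s⁻¹ ∈ lv v (Subring.closure ((A : Set Ω) ∪ {θ})) := lv_inv (le_lv _ _ hs) hs0 hvs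
  have h4 := mul_mem h3 h2
  rwa [← mul_assoc, inv_mul_cancel₀ hs0, one_mul] at h4

/-- Finitely many elements of `hensA v A` are contained in a normal ring below `hensA v A`. -/
theorem exists_nor [IsAlgClosed Ω] {A : Subring Ω} (hA : ∀ a ∈ A, v.Ge 0 a) (hn : Nor A)
    (T : Finset Ω) (hT : ∀ f ∈ T, f ∈ hensA v A) :
    ∃ N : Subring Ω, A ≤ N ∧ N ≤ hensA v A ∧ Nor N ∧ lv v N = N ∧ ∀ f ∈ T, f ∈ N := by
  classical
  have hH := hclosed_hensA (v := v) hA
  have hlvH : ∀ N : Subring Ω, N ≤ hensA v A → lv v N ≤ hensA v A := fun N hN =>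
    lv_le hN hH.inv
  induction T using Finset.induction_on with
  | empty =>
    exact ⟨lv v A, le_lv _ _, hlvH _ (le_hensA A), nor_lv hn, lv_lv _ _, by simp⟩
  | insert f T hf ih =>
    obtain ⟨N, hAN, hNH, hNn, hNl, hNT⟩ := ih fun g hg => hT g (Finset.mem_insert_of_mem hg)
    obtain ⟨g, θ, hg, hgA, h0, hd, hd', P, Q, hP, hQ, hQ0, hvQ, e⟩ :=
      exists_etale hA (hT f (Finset.mem_insert_self f T))
    have hN0 : ∀ a ∈ N, v.Ge 0 a := fun a ha => hH.nonneg a (hNH ha)
    have hgN : ∀ i, g.coeff i ∈ N := fun i => by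
      have h1 : g.coeff i ∈ lv v N := lv_mono hAN (hgA i)
      rwa [hNl] at h1
    have hθN : IsIntegral N θ := isIntegral_iff_coeff.2 ⟨g, hg, hgN, h0⟩
    have hθH : θ ∈ hensA v A := hH.root g θ (fun i => hNH (hgN i)) (ge_of_isIntegral hN0 hθN) h0 hd hd'
    set N' := Subring.closure ((N : Set Ω) ∪ {θ}) with hN'
    have hNN' : N ≤ N' := fun a ha => Subring.subset_closure (Or.inl ha)
    have hθN' : θ ∈ N' := Subring.subset_closure (Or.inr (Set.mem_singleton θ))
    have hN'H : N' ≤ hensA v A := by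
      rw [hN', Subring.closure_le]
      rintro x (hx | hx)
      · exact hNH hx
      · rw [Set.mem_singleton_iff] at hx
        subst hx
        exact hθH
    have hev : ∀ P : Polynomial Ω, (∀ i, P.coeff i ∈ A) → P.eval θ ∈ N' := by
      intro P hP
      rw [eval_eq_sum_range]
      exact sum_mem fun i _ => mul_mem (hNN' (hAN (hP i))) (pow_mem hθN' i)
    refine ⟨lv v N', (hAN.trans hNN').trans (le_lv _ _), hlvH _ hN'H,
      nor_step hN0 hNn hg hgN h0 hd hd', lv_lv _ _, fun x hx => ?_⟩
    rcases Finset.mem_insert.1 hx with hx | hx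
    · rw [hx, e]
      exact ⟨_, hev P hP, _, hev Q hQ, hQ0, hvQ, rfl⟩
    · exact le_lv _ _ (hNN' (hNT x hx))

/-- **Normality**: the henselization of a normal ring is normal. -/
theorem normal_hensA [IsAlgClosed Ω] {A : Subring Ω} (hA : ∀ a ∈ A, v.Ge 0 a)
    (hn : ∀ f, InFrac A f → IsIntegral A f → f ∈ A) {f : Ω} (hf : InFrac (hensA v A) f)
    (hi : IsIntegral (hensA v A) f) : f ∈ hensA v A := by
  classical
  obtain ⟨a, ha, b, hb, hb0, rfl⟩ := hf
  obtain ⟨p, hp, hpA, h0⟩ := isIntegral_iff_coeff.1 hi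
  obtain ⟨N, hAN, hNH, hNn, hNl, hNT⟩ := exists_nor hA hn
    (insert a (insert b ((Finset.range (p.natDegree + 1)).image p.coeff))) (by
      intro f hf
      rcases Finset.mem_insert.1 hf with rfl | hf
      · exact ha
      rcases Finset.mem_insert.1 hf with rfl | hf
      · exact hb
      obtain ⟨i, -, rfl⟩ := Finset.mem_image.1 hf
      exact hpA i)
  refine hNH (hNn _ ⟨a, hNT a (by simp), b, hNT b (by simp), hb0, rfl⟩
    (isIntegral_iff_coeff.2 ⟨p, hp, fun i => ?_, h0⟩))
  rcases lt_or_ge p.natDegree i with hi | hi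
  · rw [coeff_eq_zero_of_natDegree_lt hi]
    exact zero_mem _
  · refine hNT _ (Finset.mem_insert_of_mem (Finset.mem_insert_of_mem
      (Finset.mem_image_of_mem _ (Finset.mem_range.2 (by omega)))))

end Pool.Agent.TW
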