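import Pool.Agent.Lib.TW.E5
import Pool.Agent.Lib.TW.E6
import Pool.Agent.Lib.TW.E7
import Pool.Agent.Lib.TW.E8a
import Pool.Agent.Lib.TW.T1
import Pool.Agent.Lib.TW.A2
import Pool.Agent.Lib.TW.H5

/-!
# TANK W, row E8: regular functions are in `A`
-/

set_option autoImplicit false

open Polynomial

namespace Pool.Agent.TW

open Pool.Agent.H15JM (RVal)
open Pool.Agent.LU1 (VPos adj)
open Pool.Agent.LUC (Cl clF lv)
open Pool.Agent.D2 (Ctx0)
open Pool.Agent.D2P (hen rootF)

universe u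

namespace E8

variable {k Ω : Type u} [Field k] [Field Ω] [Algebra k Ω] {v : RVal Ω} {r D : ℕ}

theorem s_alg (F : Fr k v r D) : AlgebraicIndependent k F.s := by
  have h : F.s = Sum.elim F.x F.y ∘ finSumFinEquiv.symm := by
    funext i
    refine Fin.addCases (fun i => ?_) (fun i => ?_) i
    · simp [Fr.s]
    · simp [Fr.s]
  rw [h]
  exact F.alg.comp _ finSumFinEquiv.symm.injective

theorem K_eq (F : Fr k v r D) : F.K = kr k F.s := by
  have h : Set.range F.x ∪ Set.range F.y = Set.range F.s := by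
    ext a
    constructor
    · rintro (⟨i, rfl⟩ | ⟨i, rfl⟩)
      · exact ⟨Fin.castAdd D i, by simp [Fr.s]⟩
      · exact ⟨Fin.natAdd r i, by simp [Fr.s]⟩
    · rintro ⟨i, rfl⟩
      refine Fin.addCases (fun i => ?_) (fun i => ?_) i
      · exact Or.inl ⟨i, by simp [Fr.s]⟩
      · exact Or.inr ⟨i, by simp [Fr.s]⟩
  rw [Fr.K, h]

/-- The elements algebraic over `E`. -/
def algF (E : IntermediateField k Ω) : IntermediateField k Ω :=
  (algebraicClosure E Ω).restrictScalars k

theorem mem_algF {E : IntermediateField k Ω} {a : Ω} : a ∈ algF E ↔ IsAlgebraic E a := by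
  change a ∈ algebraicClosure E Ω ↔ _
  rw [mem_algebraicClosure_iff]

theorem le_algF (E : IntermediateField k Ω) : E ≤ algF E := fun a ha =>
  mem_algF.2 (isAlgebraic_algebraMap (⟨a, ha⟩ : E))

/-- `algF E` is algebraically closed in `Ω`. -/
theorem algF_closed {E : IntermediateField k Ω} {a : Ω} (ha : IsAlgebraic (algF E) a) :
    a ∈ algF E := by
  rw [mem_algF]
  have h1 : IsAlgebraic (algebraicClosure E Ω) a := ha
  exact IsAlgebraic.restrictScalars E h1

/-- Counting: `n` algebraically independent elements algebraic over `k(s')`, `s'` with `n`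
elements. -/
theorem alg_of_count {n : ℕ} {s s' : Fin n → Ω} (hs : AlgebraicIndependent k s)
    (hs' : ∀ i, IsAlgebraic (kr k s') (s i)) {z : Ω} (hz : IsAlgebraic (kr k s') z) :
    IsAlgebraic (kr k s) z := by
  by_contra hcon
  have h1 : Transcendental (Algebra.adjoin k (Set.range s)) z := by
    rintro ⟨P, hP0, hP⟩
    apply hcon
    have hle : Algebra.adjoin k (Set.range s) ≤ (kr k s).toSubalgebra :=
      IntermediateField.algebra_adjoin_le_adjoin k _
    let g : Algebra.adjoin k (Set.range s) →+* kr k s := (Subalgebra.inclusion hle).toRingHom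
    have hg : Function.Injective g := Subalgebra.inclusion_injective hle
    refine ⟨P.map g, (Polynomial.map_ne_zero_iff hg).2 hP0, ?_⟩
    · rw [← hP, aeval_def, aeval_def, eval₂_map]
      rfl
  have h2 : AlgebraicIndependent k (fun o : Option (Fin n) => o.elim z s) :=
    (hs.option_iff_transcendental z).2 h1
  let T := algF (kr k s')
  have h3 : ∀ o : Option (Fin n), o.elim z s ∈ T := by
    intro o
    cases o with
    | none => exact mem_algF.2 hz
    | some i => exact mem_algF.2 (hs' i)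
  have h4 : AlgebraicIndependent k (fun o : Option (Fin n) => (⟨o.elim z s, h3 o⟩ : T)) :=
    AlgebraicIndependent.of_comp T.val h2
  have h5 := h4.lift_cardinalMk_le_trdeg
  rw [trdeg_eq_of_alg (le_algF (kr k s')) fun a ha => mem_algF.1 ha] at h5
  have h6 : Algebra.trdeg k (kr k s') ≤ (n : Cardinal) := by
    refine (trdeg_adjoin_le (k := k) (Set.range s')).trans ?_
    have h7 := Cardinal.mk_range_le_lift (f := s')
    simpa using h7
  have h9 := h5.trans (Cardinal.lift_le.2 h6)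
  simp only [Cardinal.mk_option, Cardinal.mk_fin, Cardinal.lift_add, Cardinal.lift_natCast,
    Cardinal.lift_one] at h9
  have h10 : ((n + 1 : ℕ) : Cardinal.{u}) ≤ (n : Cardinal.{u}) := by exact_mod_cast h9
  rw [Nat.cast_le] at h10
  omega

end E8

section Main

open E8

variable {k Ω : Type u} [Field k] [Field Ω] [Algebra k Ω] {v : RVal Ω} {r D : ℕ}
  {p : ℕ} [Fact p.Prime] [CharP k p] [CharP Ω p] [IsAlgClosed Ω] [IsAlgClosed k]
  {F : IntermediateField k Ω} {z η : Ω} {ρ b₁ b ε : ℝ}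

theorem SD.e8_gA_nonneg (h : Ctx k v r) (d : SD p k v r D F z η ρ b₁ b ε) :
    ∀ a ∈ Subring.closure d.gA, v.Ge 0 a := by
  have h1 : Subring.closure d.gA ≤ OVt v := by
    rw [Subring.closure_le]
    rintro a (ha | ha)
    · exact ha.2
    · rw [Set.mem_singleton_iff.1 ha]
      exact RVal.Ge.of_le (d.X_pos h).2.le
  exact fun a ha => h1 ha

theorem SD.e8_hclosed (h : Ctx k v r) (d : SD p k v r D F z η ρ b₁ b ε) : HClosed v d.A :=
  hclosed_hensA (d.e8_gA_nonneg h)

omit [Fact p.Prime] [CharP k p] [CharP Ω p] [IsAlgClosed Ω] [IsAlgClosed k] in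
theorem SD.e8_OV_le (d : SD p k v r D F z η ρ b₁ b ε) {a : Ω} (ha : a ∈ OV v d.S'.K) :
    a ∈ d.A := le_hensA _ (Subring.subset_closure (Or.inl ha))

omit [Fact p.Prime] [CharP k p] [CharP Ω p] [IsAlgClosed Ω] [IsAlgClosed k] in
/-- The elements of `k(S')` are quotients of elements of `A`. -/
theorem SD.e8_K_frac (d : SD p k v r D F z η ρ b₁ b ε) {m : Ω} (hm : m ∈ d.S'.K) :
    InFrac d.A m := by
  by_cases h0 : m = 0
  · rw [h0]; exact (fracF d.A).zero_mem
  rcases le_total 0 (v m) with h1 | h1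
  · exact le_fracF (d.e8_OV_le ⟨hm, RVal.Ge.of_le h1⟩)
  · have h2 : m⁻¹ ∈ fracF d.A := le_fracF (d.e8_OV_le ⟨inv_mem hm, RVal.Ge.of_le (by
      rw [v.map_inv h0]; linarith)⟩)
    have h3 := (fracF d.A).inv_mem h2
    rwa [inv_inv] at h3

/-- Regular functions are quotients of elements of `A`. -/
theorem SD.e8_key (h : Ctx k v r) (d : SD p k v r D F z η ρ b₁ b ε) {f : Ω}
    (hf : Reg v F z η b₁ b 0 f) : InFrac d.A f := by
  obtain ⟨e, he⟩ := d.R_fin h
  have hw : d.w₃ ∈ d.A := d.e8_OV_le ⟨d.w₃_mem, RVal.Ge.of_le d.w₃_pos.le⟩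
  refine infrac_of_apx (y := d.zl) (e := e) (d.e8_hclosed h).nonneg hw d.w₃_ne d.w₃_pos
    fun n => ?_
  obtain ⟨τ, hτ, f₁, hf₁, e1⟩ := d.apx h hf (n * v d.w₃)
  have hwn : d.w₃ ^ n ≠ 0 := pow_ne_zero n d.w₃_ne
  have h1 : Reg v F z η b₁ b (v (d.w₃ ^ n)⁻¹) (d.w₃ ^ n)⁻¹ :=
    d.reg_mem h (inv_mem (pow_mem d.w₃_mem n)) (inv_ne_zero hwn)
  have h2 := hf₁.mul h1
  rw [v.map_inv hwn, v.map_pow d.w₃_ne, add_neg_cancel] at h2
  obtain ⟨a, ha, h3⟩ := he _ (d.reg_R h h2)
  refine ⟨τ, le_hensA _ hτ, a, ha, ?_⟩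
  rw [← h3, e1]
  field_simp

theorem SD.frac (h : Ctx k v r) (d : SD p k v r D F z η ρ b₁ b ε) :
    ∀ f ∈ adj F z, InFrac d.A f := by
  -- the constants
  have hF : ∀ a ∈ F, InFrac d.A a := by
    intro a ha
    by_cases h0 : a = 0
    · rw [h0]; exact (fracF d.A).zero_mem
    have ht : ∀ j : ℕ, j ≠ 0 → tc F η (Polynomial.C (⟨a, ha⟩ : F)) j = 0 := by
      intro j hj
      rw [tc, Polynomial.map_C, taylor_C, coeff_C, if_neg hj]
    have hRB : RB v F η b₁ (Polynomial.C (⟨a, ha⟩ : F)) := by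
      refine ⟨by rw [aeval_C]; exact h0, fun j => ?_⟩
      by_cases hj : j = 0
      · subst hj
        rw [tc, Polynomial.map_C, taylor_C, coeff_C_zero, aeval_C]
        exact RVal.Ge.of_le (by simp)
      · rw [ht j hj]
        exact RVal.Ge.zero
    obtain ⟨m, hm, hm0, hmv, -⟩ := d.reg_near h hRB
    have h1 : Reg v F z η b₁ b (v a) a := by
      have := Reg.of_RB (z := z) d.lt₂.le hRB
      rw [aeval_C, aeval_C] at this
      exact this
    have h2 : v m = v a := by rw [hmv, aeval_C]; rfl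
    have h3 := h1.mul (d.reg_mem h (inv_mem hm) (inv_ne_zero hm0))
    rw [v.map_inv hm0, h2, add_neg_cancel] at h3
    have h4 := (fracF d.A).mul_mem (d.e8_key h h3) (d.e8_K_frac hm)
    have h5 : a * m⁻¹ * m = a := by field_simp
    rw [h5] at h4
    exact h4
  -- `z`
  have hz : InFrac d.A z := by
    let c : ℝ := min b (v η)
    obtain ⟨n, hn⟩ : ∃ n : ℕ, 0 ≤ c + n * v d.w₃ := by
      obtain ⟨n, hn⟩ := exists_nat_gt (-c / v d.w₃)
      rw [div_lt_iff₀ d.w₃_pos] at hn
      exact ⟨n, by linarith⟩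
    have hwn : d.w₃ ^ n ≠ 0 := pow_ne_zero n d.w₃_ne
    have hG : GN v F η b c (Polynomial.X : F[X]) := by
      intro j
      rw [tc, Polynomial.map_X, taylor_X, coeff_add, coeff_X, coeff_C]
      by_cases h0 : j = 0
      · subst h0
        rw [if_neg (by norm_num), if_pos rfl, zero_add]
        refine RVal.Ge.of_le ?_
        have := min_le_right b (v η)
        simp only [c]
        push_cast
        linarith
      · by_cases h1 : j = 1
        · subst h1
          rw [if_pos rfl, if_neg (by norm_num), add_zero]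
          refine RVal.Ge.of_le ?_
          rw [v.map_one]
          have := min_le_left b (v η)
          simp only [c]
          push_cast
          linarith
        · rw [if_neg (fun h2 => h1 h2.symm), if_neg h0, add_zero]
          exact RVal.Ge.zero
    have h1 := Reg.of_GN (z := z) (b₁ := b₁) hG
    rw [aeval_X] at h1
    have h2 := h1.mul (d.reg_mem h (pow_mem d.w₃_mem n) hwn)
    rw [v.map_pow d.w₃_ne] at h2
    have h3 := (fracF d.A).mul_mem (d.e8_key h (h2.mono hn))
      ((fracF d.A).inv_mem (d.e8_K_frac (pow_mem d.w₃_mem n)))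
    have h5 : z * d.w₃ ^ n * (d.w₃ ^ n)⁻¹ = z := by field_simp
    rw [h5] at h3
    exact h3
  let L : IntermediateField k Ω :=
    { fracF d.A with algebraMap_mem' := fun c => hF _ (F.algebraMap_mem c) }
  have hle : adj F z ≤ L := LU1.adj_le (fun a ha => hF a ha) hz
  exact fun f hf => hle hf

/-- `X` is transcendental over `k(S')`. -/
theorem SD.e8_X_tr (h : Ctx k v r) (d : SD p k v r D F z η ρ b₁ b ε) :
    Transcendental d.S'.K d.X := by
  intro hX
  let M : IntermediateField k Ω := algF d.S'.K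
  have hH : HClosed v (OV v M) := by
    refine ⟨fun f hf => hf.2, fun f hf h0 hv => ⟨inv_mem hf.1, RVal.Ge.of_le ?_⟩,
      fun g a hg ha h0 hd _ => ⟨algF_closed ?_, ha⟩⟩
    · rw [v.map_inv h0, hv, neg_zero]
    · have h1 : g ∈ lifts (algebraMap M Ω) :=
        (lifts_iff_coeff_lifts g).2 fun i => ⟨⟨_, (hg i).1⟩, rfl⟩
      obtain ⟨g₀, rfl⟩ := (mem_lifts g).1 h1
      refine ⟨g₀, ?_, ?_⟩
      · rintro rfl
        simp at hd
      · rw [eval_map] at h0
        exact h0
  have hA : d.A ≤ OV v M := by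
    refine hensA_le ?_ hH
    rw [Subring.closure_le]
    rintro a (ha | ha)
    · exact ⟨le_algF _ ha.1, ha.2⟩
    · rw [Set.mem_singleton_iff.1 ha]
      exact ⟨mem_algF.2 hX, RVal.Ge.of_le (d.X_pos h).2.le⟩
  have hFz : ∀ f ∈ adj F z, f ∈ M := by
    intro f hf
    obtain ⟨a, ha, c, hc, hc0, rfl⟩ := d.frac h f hf
    exact div_mem (hA ha).1 (hA hc).1
  have hFM : ∀ f ∈ F, f ∈ M := fun f hf => hFz f (LU1.le_adj F z hf)
  have hηF : IsAlgebraic F η := d.cen.sep.isIntegral.isAlgebraic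
  have halgF : ∀ a : Ω, IsAlgebraic F a → a ∈ M := by
    rintro a ⟨P, hP0, hP⟩
    refine algF_closed ?_
    let g : F →+* M := (IntermediateField.inclusion (show F ≤ M from hFM)).toRingHom
    have hg : Function.Injective g := g.injective
    refine ⟨P.map g, (Polynomial.map_ne_zero_iff hg).2 hP0, ?_⟩
    rw [← hP, aeval_def, aeval_def, eval₂_map]
    rfl
  have hηM : η ∈ M := halgF η hηF
  have hadj : adj F η ≤ M := LU1.adj_le hFM hηM
  have h1 : ∀ i, IsAlgebraic (kr k d.S'.s) (d.S.s i) := by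
    intro i
    have h2 := hadj (d.pb.mem i)
    rw [← K_eq]
    exact mem_algF.1 h2
  have h2 : IsAlgebraic (kr k d.S'.s) z := by
    rw [← K_eq]
    exact mem_algF.1 (hFz z (LU1.mem_adj F z))
  have h3 := alg_of_count (s_alg d.S) h1 h2
  -- `z` is algebraic over `F(η)`, so over `F`
  have h4 : kr k d.S.s ≤ adj F η := by
    rw [IntermediateField.adjoin_le_iff]
    rintro _ ⟨i, rfl⟩
    exact d.pb.mem i
  have h5 : z ∈ algF F := by
    refine algF_closed ?_
    have h6 : adj F η ≤ algF F := LU1.adj_le (le_algF F) (mem_algF.2 hηF)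
    obtain ⟨P, hP0, hP⟩ := h3
    let g : kr k d.S.s →+* algF F := (IntermediateField.inclusion (h4.trans h6)).toRingHom
    have hg : Function.Injective g := g.injective
    refine ⟨P.map g, (Polynomial.map_ne_zero_iff hg).2 hP0, ?_⟩
    rw [← hP, aeval_def, aeval_def, eval₂_map]
    rfl
  exact d.cen.tr (mem_algF.1 h5)

theorem SD.normal (h : Ctx k v r) (d : SD p k v r D F z η ρ b₁ b ε) {f : Ω}
    (hf : InFrac d.A f) (hi : IsIntegral d.A f) : f ∈ d.A := by
  refine normal_hensA (d.e8_gA_nonneg h) ?_ hf hi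
  intro g hg hgi
  refine normal_poly (B := OV v d.S'.K) ?_ ?_ hg hgi
  · rintro f ⟨a, ha, c, hc, hc0, rfl⟩ hi
    refine ⟨div_mem ha.1 hc.1, ?_⟩
    obtain ⟨P, hP, hP0⟩ := hi
    refine LU1.ge_of_root (hP.map (algebraMap (OV v d.S'.K) Ω)) (fun i => ?_)
      (by rw [eval_map]; exact hP0)
    rw [coeff_map]
    exact (P.coeff i).2.2
  · rintro ⟨P, hP0, hP⟩
    apply d.e8_X_tr h
    let g : OV v d.S'.K →+* d.S'.K :=
      { toFun := fun a => ⟨a, a.2.1⟩
        map_one' := rfl
        map_mul' := fun _ _ => rfl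
        map_zero' := rfl
        map_add' := fun _ _ => rfl }
    have hg : Function.Injective g := by
      intro a c hac
      exact Subtype.ext (congrArg (fun x : d.S'.K => (x : Ω)) hac)
    refine ⟨P.map g, (Polynomial.map_ne_zero_iff hg).2 hP0, ?_⟩
    rw [← hP, aeval_def, aeval_def, eval₂_map]
    rfl

theorem SD.key (h : Ctx k v r) (d : SD p k v r D F z η ρ b₁ b ε) {f : Ω}
    (hf : Reg v F z η b₁ b 0 f) : f ∈ d.A := by
  refine d.normal h (d.e8_key h hf) ?_
  obtain ⟨e, he⟩ := d.R_fin h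
  obtain ⟨a, ha, hfa⟩ := he f (d.reg_R h hf)
  rw [hfa]
  refine IsIntegral.sum _ fun i _ => IsIntegral.mul ?_ ((d.zl_int h).pow _)
  exact isIntegral_algebraMap (R := d.A) (A := Ω) (x := ⟨a i, ha i⟩)

end Main

end Pool.Agent.TW
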