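import Pool.Agent.Lib.TW.E6
import Pool.Agent.Lib.TW.E8
import Pool.Agent.Lib.TW.E9a
import Pool.Agent.Lib.TW.BB

/-!
# TANK W, E9: `p`-coordinates of regular functions
-/

set_option autoImplicit false

open Polynomial

namespace Pool.Agent.TW

open Pool.Agent.H15JM (RVal)
open Pool.Agent.LU1 (VPos adj)
open Pool.Agent.D2 (Ctx0)
open Pool.Agent.D2P (hen)

universe u

variable {k Ω : Type u} [Field k] [Field Ω] [Algebra k Ω] {v : RVal Ω} {r D : ℕ} {p : ℕ}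
  [Fact p.Prime] [CharP k p] [CharP Ω p] [IsAlgClosed Ω] [IsAlgClosed k]
  {F : IntermediateField k Ω} {z η : Ω} {ρ b₁ b ε : ℝ}

theorem SD.pca (h : Ctx k v r) (d : SD p k v r D F z η ρ b₁ b ε) {t : Fin (r + D) → Ω}
    (ht : PBasis p F t) {f : Ω} (hf : f ∈ d.A) :
    ∃ c : (Fin (r + D + 1) → Fin p) → Ω,
      (∀ α, ∃ m ∈ OV v d.S'.K, m ≠ 0 ∧ m * c α ∈ d.A) ∧
      f = pcomb (Fin.snoc t z : Fin (r + D + 1) → Ω) c :=
  E9.pca_of h d (d.OV_le_R' h) (d.A_le_R h) (fun _ hf hi => d.normal h hf hi) (d.frac h)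
    (fun hle hs _ _ ht => PBasis.of_sep p hle hs ht) ht (PBasis.adj p d.cen.tr ht) hf

end Pool.Agent.TW
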