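import Pool.Agent.Lib.TW.E7
import Pool.Agent.Lib.TW.E8
import Pool.Agent.Lib.TW.E9
import Pool.Agent.Lib.TW.E10a

/-!
# TANK W, row E10: frames of `F(z)` from frames of `k(S')`
-/

set_option autoImplicit false

open Polynomial

namespace Pool.Agent.TW

open Pool.Agent.H15JM (RVal)
open Pool.Agent.LU1 (VPos adj)
open Pool.Agent.D2 (Ctx0)

universe u

variable {k Ω : Type u} [Field k] [Field Ω] [Algebra k Ω] {v : RVal Ω} {r D : ℕ}

/-- `LU` of `k(S')` gives frames `(F*.x, F*.y, X)` of `F(z)`. -/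
theorem SD.frame {p : ℕ} [Fact p.Prime] [CharP k p] [CharP Ω p] [IsAlgClosed Ω] [IsAlgClosed k]
    {F : IntermediateField k Ω} {z η : Ω} {ρ b₁ b ε : ℝ}
    (h : Ctx k v r) (d : SD p k v r D F z η ρ b₁ b ε) (hF : F.FG)
    (hLU : LU p v r d.S'.K) {t : Fin (r + D) → Ω} (ht : PBasis p F t) (Z : Finset Ω)
    (hZ : ∀ f ∈ Z, f ∈ adj F z ∧ f ≠ 0 ∧ Reg v F z η b₁ b (v f) f ∧
      Reg v F z η b₁ b (-v f) f⁻¹) :
    ∃ G : Fr k v r (D + 1), G.IsFr (adj F z) ∧ (∀ f ∈ Z, G.Mono f) ∧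
      G.PC p (Fin.snoc t z : Fin (r + D + 1) → Ω) :=
  E10.frame_of h d hF (d.X_pos h) (fun _ hf => d.key h hf) (d.frac h) ht
    (fun _ hf => d.pca h ht hf) hLU Z hZ

end Pool.Agent.TW
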