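import Pool.Agent.Lib.TW.EDefs

/-!
# TANK W, row E2: the calculus of regular functions
-/

set_option autoImplicit false

open Polynomial

namespace Pool.Agent.TW

open Pool.Agent.H15JM (RVal)
open Pool.Agent.LU1 (VPos adj)

universe u

variable {k Ω : Type u} [Field k] [Field Ω] [Algebra k Ω] {v : RVal Ω}

section Tc

variable {F : IntermediateField k Ω} {z η : Ω}

theorem tc_zero (P : F[X]) : tc F η P 0 = aeval η P := by
  rw [tc, taylor_coeff_zero, eval_map_algebraMap]

theorem tc_add (A B : F[X]) (j : ℕ) : tc F η (A + B) j = tc F η A j + tc F η B j := by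
  simp only [tc, Polynomial.map_add, _root_.map_add, coeff_add]

theorem tc_sub (A B : F[X]) (j : ℕ) : tc F η (A - B) j = tc F η A j - tc F η B j := by
  simp only [tc, Polynomial.map_sub, _root_.map_sub, coeff_sub]

theorem tc_mul (A B : F[X]) (j : ℕ) :
    tc F η (A * B) j = ∑ x ∈ Finset.HasAntidiagonal.antidiagonal j, tc F η A x.1 * tc F η B x.2 := by
  simp only [tc, Polynomial.map_mul, taylor_mul, coeff_mul]

theorem tc_one (j : ℕ) : tc F η (1 : F[X]) j = if j = 0 then 1 else 0 := by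
  simp only [tc, Polynomial.map_one, taylor_one]
  simp [coeff_one]

/-- The Taylor expansion. -/
theorem aeval_eq_tc (P : F[X]) (x : Ω) :
    aeval x P = ∑ j ∈ Finset.range (P.natDegree + 1), tc F η P j * (x - η) ^ j := by
  have h1 : aeval x P = (taylor η (P.map (algebraMap F Ω))).eval (x - η) := by
    rw [taylor_eval_sub, eval_map_algebraMap]
  rw [h1, eval_eq_sum_range' (n := P.natDegree + 1)]
  · rfl
  · rw [natDegree_taylor]
    exact (natDegree_map_le.trans_lt (Nat.lt_succ_self _))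

end Tc

section E2

variable {F : IntermediateField k Ω} {z η : Ω} {ρ b₁ b : ℝ}

theorem GN.add {c : ℝ} {A B : F[X]} (hA : GN v F η b c A) (hB : GN v F η b c B) :
    GN v F η b c (A + B) := by
  intro j
  rw [tc_add]
  exact (hA j).add (hB j)

theorem GN.mul {c c' : ℝ} {A B : F[X]} (hA : GN v F η b c A) (hB : GN v F η b c' B) :
    GN v F η b (c + c') (A * B) := by
  intro j
  rw [tc_mul]
  refine RVal.Ge.sum _ _ fun x hx => ?_
  have hx' := Finset.HasAntidiagonal.mem_antidiagonal.mp hx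
  refine ((hA x.1).mul (hB x.2)).mono (le_of_eq ?_)
  rw [← hx']
  push_cast
  ring

theorem GN.mono {c c' : ℝ} (h : c' ≤ c) {A : F[X]} (hA : GN v F η b c A) : GN v F η b c' A :=
  fun j => (hA j).mono (by linarith)

theorem GN.one : GN v F η b 0 (1 : F[X]) := by
  intro j
  rw [tc_one]
  split_ifs with hj
  · subst hj
    exact RVal.Ge.of_le (by rw [v.map_one]; simp)
  · exact RVal.Ge.zero

theorem RB.one : RB v F η b₁ 1 := by
  refine ⟨by simp, fun j => ?_⟩
  rw [_root_.map_one, v.map_one]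
  exact GN.one j

theorem RB.mul {A B : F[X]} (hA : RB v F η b₁ A) (hB : RB v F η b₁ B) :
    RB v F η b₁ (A * B) := by
  refine ⟨by rw [_root_.map_mul]; exact mul_ne_zero hA.1 hB.1, ?_⟩
  rw [_root_.map_mul, v.map_mul hA.1 hB.1]
  exact GN.mul hA.2 hB.2

theorem RB.gn (hb : b₁ ≤ b) {B : F[X]} (hB : RB v F η b₁ B) :
    GN v F η b (v (aeval η B)) B := by
  intro j
  refine (hB.2 j).mono ?_
  have : (j : ℝ) * b₁ ≤ j * b := mul_le_mul_of_nonneg_left hb (Nat.cast_nonneg j)
  linarith

/-- the value at a near point -/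
theorem RB.near {x : Ω} (hx : x ≠ η → b₁ < v (x - η)) {B : F[X]} (hB : RB v F η b₁ B) :
    aeval x B ≠ 0 ∧ v (aeval x B) = v (aeval η B) ∧
      (x ≠ η → v.Ge (v (aeval η B) + (v (x - η) - b₁)) (aeval x B - aeval η B)) := by
  by_cases hxe : x = η
  · subst hxe
    exact ⟨hB.1, rfl, fun h => absurd rfl h⟩
  have hd : v.Ge (v (aeval η B) + (v (x - η) - b₁)) (aeval x B - aeval η B) := by
    rw [aeval_eq_tc (η := η) B x, Finset.sum_range_succ', pow_zero, mul_one, tc_zero,
      add_sub_cancel_right]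
    refine RVal.Ge.sum _ _ fun j _ => ?_
    have hpow : v.Ge (((j + 1 : ℕ) : ℝ) * v (x - η)) ((x - η) ^ (j + 1)) :=
      RVal.Ge.of_le (by rw [v.map_pow (sub_ne_zero.mpr hxe)])
    refine ((hB.2 (j + 1)).mul hpow).mono ?_
    have h1 : 0 < v (x - η) - b₁ := by linarith [hx hxe]
    have h2 : (0 : ℝ) ≤ (j : ℝ) * (v (x - η) - b₁) := mul_nonneg (Nat.cast_nonneg j) h1.le
    push_cast
    nlinarith
  have hpos : 0 < v (x - η) - b₁ := by linarith [hx hxe]
  by_cases h0 : aeval x B - aeval η B = 0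
  · have h1 : aeval x B = aeval η B := sub_eq_zero.mp h0
    exact ⟨by rw [h1]; exact hB.1, by rw [h1], fun _ => hd⟩
  · have hlt : v (aeval η B) < v (aeval x B - aeval η B) := by
      have := hd h0
      linarith
    have h1 := v.add_of_lt hB.1 h0 hlt
    rw [add_sub_cancel] at h1
    exact ⟨h1.1, h1.2, fun _ => hd⟩

theorem RB.sub {g : ℝ} (hb : b₁ + g ≤ b) (hg : 0 < g) {A B : F[X]} (hA : RB v F η b₁ A)
    (hB : RB v F η b₁ B) (h : v.Ge (v (aeval η A) + g) (aeval η A - aeval η B)) :
    GN v F η b (v (aeval η A) + g) (A - B) := by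
  have hv : v (aeval η B) = v (aeval η A) := by
    by_cases h0 : aeval η A - aeval η B = 0
    · rw [sub_eq_zero.mp h0]
    · have h1 := h h0
      have h2 := v.add_of_lt hA.1 (neg_ne_zero.mpr h0)
        (by rw [v.map_neg _ h0]; linarith)
      rw [show aeval η A + -(aeval η A - aeval η B) = aeval η B by ring] at h2
      exact h2.2
  intro j
  rw [tc_sub]
  rcases Nat.eq_zero_or_pos j with rfl | hj
  · rw [tc_zero, tc_zero]
    exact h.mono (by simp)
  · have hj1 : (1 : ℝ) ≤ j := by exact_mod_cast hj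
    have h1 : g ≤ (j : ℝ) * (b - b₁) := by nlinarith
    have h2 := hB.2 j
    rw [hv] at h2
    refine ((hA.2 j).sub h2).mono ?_
    nlinarith

theorem Reg.add {c : ℝ} {f g : Ω} (hf : Reg v F z η b₁ b c f) (hg : Reg v F z η b₁ b c g)
    (hb : b₁ ≤ b) : Reg v F z η b₁ b c (f + g) := by
  obtain ⟨A, B, hB, hA, hz, rfl⟩ := hf
  obtain ⟨A', B', hB', hA', hz', rfl⟩ := hg
  refine ⟨A * B' + A' * B, B * B', hB.mul hB', ?_, by rw [_root_.map_mul]; exact mul_ne_zero hz hz',
    ?_⟩
  · rw [_root_.map_mul, v.map_mul hB.1 hB'.1]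
    refine GN.add ?_ ?_
    · exact (hA.mul (hB'.gn hb)).mono (by linarith)
    · exact (hA'.mul (hB.gn hb)).mono (by linarith)
  · simp only [_root_.map_add, _root_.map_mul]
    field_simp

theorem Reg.mul {c c' : ℝ} {f g : Ω} (hf : Reg v F z η b₁ b c f)
    (hg : Reg v F z η b₁ b c' g) : Reg v F z η b₁ b (c + c') (f * g) := by
  obtain ⟨A, B, hB, hA, hz, rfl⟩ := hf
  obtain ⟨A', B', hB', hA', hz', rfl⟩ := hg
  refine ⟨A * A', B * B', hB.mul hB', ?_, by rw [_root_.map_mul]; exact mul_ne_zero hz hz', ?_⟩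
  · rw [_root_.map_mul, v.map_mul hB.1 hB'.1]
    exact (hA.mul hA').mono (by linarith)
  · simp only [_root_.map_mul]
    field_simp

theorem Reg.mono {c c' : ℝ} (h : c' ≤ c) {f : Ω} (hf : Reg v F z η b₁ b c f) :
    Reg v F z η b₁ b c' f := by
  obtain ⟨A, B, hB, hA, hz, rfl⟩ := hf
  exact ⟨A, B, hB, hA.mono (by linarith), hz, rfl⟩

theorem Reg.of_GN {c : ℝ} {A : F[X]} (hA : GN v F η b c A) :
    Reg v F z η b₁ b c (aeval z A) := by
  refine ⟨A, 1, RB.one, ?_, by simp, by simp⟩
  rw [_root_.map_one, v.map_one, add_zero]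
  exact hA

theorem Reg.of_RB (hb : b₁ ≤ b) {B : F[X]} (hB : RB v F η b₁ B) :
    Reg v F z η b₁ b (v (aeval η B)) (aeval z B) := Reg.of_GN (hB.gn hb)

theorem Reg.inv_RB (hz : b₁ < v (z - η)) (_hzη : z ≠ η) {B : F[X]} (hB : RB v F η b₁ B) :
    Reg v F z η b₁ b (-v (aeval η B)) (aeval z B)⁻¹ := by
  refine ⟨1, B, hB, ?_, (hB.near fun _ => hz).1, by rw [_root_.map_one, one_div]⟩
  rw [neg_add_cancel]
  exact GN.one

/-- a polynomial with far roots -/
theorem RB.of_roots [IsAlgClosed Ω] {B : F[X]} (hB : B ≠ 0)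
    (hr : ∀ β : Ω, aeval β B = 0 → β ≠ η ∧ v (η - β) ≤ b₁) : RB v F η b₁ B := by
  -- everything over `Ω`
  have key : ∀ s : Multiset Ω, (∀ β ∈ s, β ≠ η ∧ v (η - β) ≤ b₁) →
      (s.map fun β => X - C β).prod.eval η ≠ 0 ∧
      ∀ j : ℕ, v.Ge (v ((s.map fun β => X - C β).prod.eval η) - j * b₁)
        ((taylor η (s.map fun β => X - C β).prod).coeff j) := by
    intro s
    induction s using Multiset.induction_on with
    | empty =>
      intro _
      refine ⟨by simp, fun j => ?_⟩
      rw [Multiset.map_zero, Multiset.prod_zero, taylor_one, eval_one, v.map_one]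
      by_cases hj : j = 0
      · subst hj
        refine RVal.Ge.of_le ?_
        simp [v.map_one]
      · have : (C (1 : Ω) : Polynomial Ω).coeff j = 0 := by rw [coeff_C, if_neg hj]
        rw [this]
        exact RVal.Ge.zero
    | cons β s ih =>
      intro hs
      obtain ⟨h1, h2⟩ := ih fun β' hβ' => hs β' (Multiset.mem_cons_of_mem hβ')
      obtain ⟨hβ1, hβ2⟩ := hs β (Multiset.mem_cons_self β s)
      have hne : η - β ≠ 0 := sub_ne_zero.mpr (Ne.symm hβ1)
      rw [Multiset.map_cons, Multiset.prod_cons, eval_mul, eval_sub, eval_X, eval_C]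
      refine ⟨mul_ne_zero hne h1, fun j => ?_⟩
      rw [taylor_mul, coeff_mul, v.map_mul hne h1]
      refine RVal.Ge.sum _ _ fun x hx => ?_
      have hx' := Finset.HasAntidiagonal.mem_antidiagonal.mp hx
      have hfac : v.Ge (v (η - β) - x.1 * b₁) ((taylor η (X - C β)).coeff x.1) := by
        rw [_root_.map_sub, taylor_X, taylor_C, coeff_sub, coeff_add, coeff_X, coeff_C, coeff_C]
        rcases Nat.lt_or_ge x.1 2 with hlt | hge
        · rcases (show x.1 = 0 ∨ x.1 = 1 by omega) with h0 | h0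
          · rw [h0]
            refine RVal.Ge.of_le ?_
            simp
          · rw [h0]
            refine RVal.Ge.of_le ?_
            simp [v.map_one]
            linarith
        · rw [if_neg (by omega), if_neg (by omega), if_neg (by omega)]
          simp only [add_zero, sub_zero]
          exact RVal.Ge.zero
      refine (hfac.mul (h2 x.2)).mono (le_of_eq ?_)
      rw [← hx']
      push_cast
      ring
  have hs : (B.map (algebraMap F Ω)).Splits := IsAlgClosed.splits _
  have hB' : B.map (algebraMap F Ω) ≠ 0 := (Polynomial.map_ne_zero_iff (algebraMap F Ω).injective).mpr hB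
  have hfac := hs.eq_prod_roots
  set a := (B.map (algebraMap F Ω)).leadingCoeff with ha
  have ha0 : a ≠ 0 := leadingCoeff_ne_zero.mpr hB'
  obtain ⟨k1, k2⟩ := key (B.map (algebraMap F Ω)).roots (by
    intro β hβ
    refine hr β ?_
    have := (mem_roots hB').mp hβ
    rwa [IsRoot.def, eval_map_algebraMap] at this)
  have hev : aeval η B = a * ((B.map (algebraMap F Ω)).roots.map fun β => X - C β).prod.eval η := by
    conv_lhs => rw [← eval_map_algebraMap, hfac]
    rw [eval_mul, eval_C]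
  refine ⟨by rw [hev]; exact mul_ne_zero ha0 k1, fun j => ?_⟩
  have htc : tc F η B j = a * (taylor η ((B.map (algebraMap F Ω)).roots.map fun β => X - C β).prod).coeff j := by
    rw [tc]
    conv_lhs => rw [hfac]
    rw [taylor_mul, taylor_C, coeff_C_mul]
  rw [htc, hev, v.map_mul ha0 k1]
  refine ((v.ge_self a).mul (k2 j)).mono (by linarith)

end E2

end Pool.Agent.TW
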