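import Pool.Agent.Lib.TW.E2

/-!
# TANK W, row E3: key polynomials
-/

set_option autoImplicit false

open Polynomial

namespace Pool.Agent.TW

open Pool.Agent.H15JM (RVal)
open Pool.Agent.LU1 (VPos adj)
open Pool.Agent.D2 (Ctx0)

universe u

variable {k Ω : Type u} [Field k] [Field Ω] [Algebra k Ω] {v : RVal Ω}

theorem exists_expansion (F : IntermediateField k Ω) {Q : F[X]} (hQ : Q.Monic)
    (hd : 0 < Q.natDegree) (A : F[X]) : ∃ (m : ℕ) (a : Fin m → F[X]),
      (∀ i, (a i).natDegree < Q.natDegree) ∧ A = ∑ i, a i * Q ^ (i : ℕ) := by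
  induction hn : A.natDegree using Nat.strong_induction_on generalizing A with
  | _ n ih =>
    subst hn
    by_cases hlt : A.natDegree < Q.natDegree
    · exact ⟨1, fun _ => A, fun _ => hlt, by simp⟩
    · push Not at hlt
      have hlt' : (A /ₘ Q).natDegree < A.natDegree := by
        rw [natDegree_divByMonic A hQ]
        omega
      obtain ⟨m, a, ha, hA⟩ := ih _ hlt' (A /ₘ Q) rfl
      refine ⟨m + 1, Fin.cons (A %ₘ Q) a, ?_, ?_⟩
      · intro i
        refine Fin.cases ?_ (fun i => ?_) i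
        · rw [Fin.cons_zero]
          exact natDegree_modByMonic_lt A hQ (fun h => by rw [h] at hd; simp at hd)
        · rw [Fin.cons_succ]
          exact ha i
      · rw [Fin.sum_univ_succ, Fin.cons_zero]
        simp only [Fin.cons_succ, Fin.val_zero, Fin.val_succ, pow_zero, mul_one]
        conv_lhs => rw [← modByMonic_add_div A Q, hA, Finset.mul_sum]
        congr 1
        refine Finset.sum_congr rfl fun i _ => ?_
        rw [pow_succ]
        ring

/-- `x = 0` or `v x > c`. -/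
def Sg (v : RVal Ω) (c : ℝ) (x : Ω) : Prop := x ≠ 0 → c < v x

theorem Sg.zero {c : ℝ} : Sg v c 0 := fun h => absurd rfl h

theorem Sg.of_ge {c c' : ℝ} (h : c < c') {x : Ω} (hx : v.Ge c' x) : Sg v c x :=
  fun h0 => h.trans_le (hx h0)

theorem Sg.ge {c : ℝ} {x : Ω} (hx : Sg v c x) : v.Ge c x := fun h0 => (hx h0).le

theorem Sg.add {c : ℝ} {x y : Ω} (hx : Sg v c x) (hy : Sg v c y) : Sg v c (x + y) := by
  intro hxy
  by_cases h1 : x = 0
  · subst h1
    rw [zero_add] at hxy ⊢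
    exact hy hxy
  by_cases h2 : y = 0
  · subst h2
    rw [add_zero] at hxy ⊢
    exact hx hxy
  exact (lt_min (hx h1) (hy h2)).trans_le (v.map_add h1 h2 hxy)

theorem Sg.sum {ι : Type*} {c : ℝ} (s : Finset ι) (f : ι → Ω) (hf : ∀ i ∈ s, Sg v c (f i)) :
    Sg v c (∑ i ∈ s, f i) := by
  classical
  induction s using Finset.induction_on with
  | empty => simpa using Sg.zero
  | insert a s ha ih =>
    rw [Finset.sum_insert ha]
    exact (hf a (Finset.mem_insert_self a s)).add (ih fun i hi => hf i (Finset.mem_insert_of_mem hi))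

theorem Sg.mul_ge {c d : ℝ} {x y : Ω} (hx : Sg v c x) (hy : v.Ge d y) : Sg v (c + d) (x * y) := by
  intro h
  have h1 := left_ne_zero_of_mul h
  have h2 := right_ne_zero_of_mul h
  rw [v.map_mul h1 h2]
  exact add_lt_add_of_lt_of_le (hx h1) (hy h2)

theorem Sg.ge_mul {c d : ℝ} {x y : Ω} (hx : v.Ge c x) (hy : Sg v d y) : Sg v (c + d) (x * y) := by
  rw [mul_comm, add_comm]
  exact hy.mul_ge hx

/-- `x ≠ 0` of value `c`, plus something of value `> c`. -/
theorem Sg.add_eq {c : ℝ} {x y : Ω} (hx : x ≠ 0) (hxc : v x = c) (hy : Sg v c y) :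
    x + y ≠ 0 ∧ v (x + y) = c := by
  by_cases h2 : y = 0
  · subst h2
    rw [add_zero]
    exact ⟨hx, hxc⟩
  · have := v.add_of_lt hx h2 (by rw [hxc]; exact hy h2)
    rw [hxc] at this
    exact this

/-- `c` is the Gauss value of `P` (at `η`, for the radius `b`) and `J` is the last index which
attains it. -/
structure GT (v : RVal Ω) (F : IntermediateField k Ω) (η : Ω) (b c : ℝ) (J : ℕ) (P : F[X]) :
    Prop where
  ge : GN v F η b c P
  gt : ∀ j, J < j → Sg v (c - j * b) (tc F η P j)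
  ne : tc F η P J ≠ 0
  eq : v (tc F η P J) = c - J * b

variable {F : IntermediateField k Ω} {η : Ω} {b : ℝ}

theorem GT.one : GT v F η b 0 0 (1 : F[X]) := by
  refine ⟨GN.one, fun j hj => ?_, ?_, ?_⟩
  · rw [tc_one, if_neg (by omega)]
    exact Sg.zero
  · rw [tc_one, if_pos rfl]
    exact one_ne_zero
  · rw [tc_one, if_pos rfl, v.map_one]
    simp

theorem GT.mul {c c' : ℝ} {J J' : ℕ} {A B : F[X]} (hA : GT v F η b c J A)
    (hB : GT v F η b c' J' B) : GT v F η b (c + c') (J + J') (A * B) := by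
  have hterm : ∀ x y : ℕ, (J < x ∨ J' < y) →
      Sg v (c + c' - ((x + y : ℕ) : ℝ) * b) (tc F η A x * tc F η B y) := by
    intro x y hxy
    have he : c + c' - ((x + y : ℕ) : ℝ) * b = (c - x * b) + (c' - y * b) := by
      push_cast
      ring
    rw [he]
    rcases hxy with h | h
    · exact (hA.gt x h).mul_ge (hB.ge y)
    · exact Sg.ge_mul (hA.ge x) (hB.gt y h)
  have hmain : tc F η A J * tc F η B J' ≠ 0 ∧
      v (tc F η A J * tc F η B J') = c + c' - ((J + J' : ℕ) : ℝ) * b := by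
    refine ⟨mul_ne_zero hA.ne hB.ne, ?_⟩
    rw [v.map_mul hA.ne hB.ne, hA.eq, hB.eq]
    push_cast
    ring
  have htop : tc F η (A * B) (J + J') ≠ 0 ∧
      v (tc F η (A * B) (J + J')) = c + c' - ((J + J' : ℕ) : ℝ) * b := by
    classical
    rw [tc_mul, ← Finset.add_sum_erase _ _
      (Finset.HasAntidiagonal.mem_antidiagonal.mpr (rfl : (J, J').1 + (J, J').2 = J + J'))]
    refine Sg.add_eq hmain.1 hmain.2 (Sg.sum _ _ fun x hx => ?_)
    rw [Finset.mem_erase] at hx
    have hx' := Finset.HasAntidiagonal.mem_antidiagonal.mp hx.2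
    rw [← hx']
    refine hterm x.1 x.2 ?_
    by_contra hcon
    push Not at hcon
    exact hx.1 (Prod.ext (by simp; omega) (by simp; omega))
  refine ⟨hA.ge.mul hB.ge, fun j hj => ?_, htop.1, by rw [htop.2]⟩
  rw [tc_mul]
  refine Sg.sum _ _ fun x hx => ?_
  have hx' := Finset.HasAntidiagonal.mem_antidiagonal.mp hx
  rw [← hx']
  exact hterm x.1 x.2 (by omega)

theorem GT.pow {c : ℝ} {J : ℕ} {A : F[X]} (hA : GT v F η b c J A) (i : ℕ) :
    GT v F η b (i * c) (i * J) (A ^ i) := by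
  induction i with
  | zero => simpa using GT.one
  | succ i ih =>
    rw [pow_succ]
    have := ih.mul hA
    rw [show (i : ℝ) * c + c = ((i + 1 : ℕ) : ℝ) * c by push_cast; ring,
      show i * J + J = (i + 1) * J by ring] at this
    exact this

theorem GT.of_RB {ρ : ℝ} (hρ : ρ < b) {A : F[X]} (hA : RB v F η ρ A) :
    GT v F η b (v (aeval η A)) 0 A := by
  refine ⟨hA.gn hρ.le, fun j hj => ?_, by rw [tc_zero]; exact hA.1, by rw [tc_zero]; simp⟩
  refine Sg.of_ge ?_ (hA.2 j)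
  have hj' : (0 : ℝ) < j := by exact_mod_cast hj
  nlinarith

theorem tc_eq_zero {A : F[X]} {j : ℕ} (hj : A.natDegree < j) : tc F η A j = 0 := by
  rw [tc]
  refine coeff_eq_zero_of_natDegree_lt ?_
  rw [natDegree_taylor]
  exact natDegree_map_le.trans_lt hj

theorem IsGV.gt {c : ℝ} {A : F[X]} (hA : IsGV v F η b c A) :
    ∃ J, 0 < J ∧ GT v F η b c J A := by
  classical
  obtain ⟨h1, j₀, hj₀, hne, heq⟩ := hA
  let S := (Finset.range (A.natDegree + 1)).filter fun j => tc F η A j ≠ 0 ∧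
    v (tc F η A j) + j * b = c
  have hS : ∀ j, (tc F η A j ≠ 0 ∧ v (tc F η A j) + j * b = c) → j ∈ S := by
    intro j hj
    refine Finset.mem_filter.mpr ⟨Finset.mem_range.mpr ?_, hj⟩
    by_contra hcon
    exact hj.1 (tc_eq_zero (by omega))
  have hS0 : S.Nonempty := ⟨j₀, hS j₀ ⟨hne, heq⟩⟩
  obtain ⟨J, hJ, hmax⟩ := S.exists_max_image (fun j => j) hS0
  have hJ' := (Finset.mem_filter.mp hJ).2
  refine ⟨J, lt_of_lt_of_le hj₀ (hmax j₀ (hS j₀ ⟨hne, heq⟩)), h1, fun j hj h0 => ?_, hJ'.1,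
    by linarith [hJ'.2]⟩
  have h2 := h1 j h0
  rcases h2.lt_or_eq with h3 | h3
  · exact h3
  · exact absurd (hmax j (hS j ⟨h0, by linarith⟩)) (by simp only [not_le]; exact hj)

theorem tc_sum {ι : Type*} (s : Finset ι) (f : ι → F[X]) (j : ℕ) :
    tc F η (∑ i ∈ s, f i) j = ∑ i ∈ s, tc F η (f i) j := by
  classical
  induction s using Finset.induction_on with
  | empty => simp [tc]
  | insert a s ha ih => rw [Finset.sum_insert ha, Finset.sum_insert ha, tc_add, ih]

theorem key_poly [IsAlgClosed Ω] (_h : Ctx0 k v) {F : IntermediateField k Ω} {z η : Ω}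
    {ρ b cQ : ℝ} (hc : Cen v F z η ρ b) (hQ : IsGV v F η b cQ (minpoly F η)) {m : ℕ}
    (a : Fin m → F[X]) (ha : ∀ i, (a i).natDegree < (minpoly F η).natDegree) {c : ℝ}
    (hA : GN v F η b c (∑ i, a i * minpoly F η ^ (i : ℕ))) (i : Fin m) (hi : a i ≠ 0) :
    c ≤ v (aeval η (a i)) + i * cQ := by
  classical
  by_contra hcon
  push Not at hcon
  obtain ⟨J, hJ, hGT⟩ := hQ.gt
  let S := Finset.univ.filter fun i => a i ≠ 0
  let f : Fin m → ℝ := fun i => v (aeval η (a i)) + i * cQ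
  have hmemS : ∀ i, a i ≠ 0 → i ∈ S := fun i hi => Finset.mem_filter.mpr ⟨Finset.mem_univ i, hi⟩
  obtain ⟨i₁, hi₁, hmin⟩ := S.exists_min_image f ⟨i, hmemS i hi⟩
  -- the last index of minimal value
  let T := S.filter fun i => f i = f i₁
  obtain ⟨i₀, hi₀, hmax⟩ := T.exists_max_image (fun i => i) ⟨i₁, Finset.mem_filter.mpr ⟨hi₁, rfl⟩⟩
  have hi₀' := Finset.mem_filter.mp hi₀
  have hi₀a : a i₀ ≠ 0 := (Finset.mem_filter.mp hi₀'.1).2
  have hc₀ : f i₀ < c := by
    rw [hi₀'.2]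
    exact (hmin i (hmemS i hi)).trans_lt hcon
  have hterm : ∀ i, a i ≠ 0 → GT v F η b (f i) (i * J) (a i * minpoly F η ^ (i : ℕ)) := by
    intro i hi
    have h1 := (GT.of_RB hc.lt (hc.tb (a i) hi (ha i))).mul (hGT.pow (i : ℕ))
    rw [zero_add] at h1
    exact h1
  -- the coefficient of index `i₀ J`
  have hco : tc F η (∑ i, a i * minpoly F η ^ (i : ℕ)) (i₀ * J) ≠ 0 ∧
      v (tc F η (∑ i, a i * minpoly F η ^ (i : ℕ)) (i₀ * J)) =
        f i₀ - ((i₀ * J : ℕ) : ℝ) * b := by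
    rw [tc_sum, ← Finset.add_sum_erase _ _ (Finset.mem_univ i₀)]
    refine Sg.add_eq (hterm i₀ hi₀a).ne (hterm i₀ hi₀a).eq (Sg.sum _ _ fun i hi => ?_)
    have hne : i ≠ i₀ := (Finset.mem_erase.mp hi).1
    by_cases hai : a i = 0
    · rw [hai, zero_mul]
      have : tc F η (0 : F[X]) (i₀ * J) = 0 := by simp [tc]
      rw [this]
      exact Sg.zero
    have hle : f i₀ ≤ f i := by
      rw [hi₀'.2]
      exact hmin i (hmemS i hai)
    rcases hle.lt_or_eq with hlt | heq
    · exact Sg.of_ge (by linarith) ((hterm i hai).ge (i₀ * J))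
    · have hiT : i ∈ T := Finset.mem_filter.mpr ⟨hmemS i hai, by rw [← heq, hi₀'.2]⟩
      have hlt : i < i₀ := lt_of_le_of_ne (hmax i hiT) hne
      have hlt' : (i : ℕ) * J < i₀ * J := Nat.mul_lt_mul_of_pos_right hlt hJ
      rw [heq]
      exact (hterm i hai).gt _ hlt'
  have h1 := hA (i₀ * J) hco.1
  rw [hco.2] at h1
  linarith

end Pool.Agent.TW
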