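import Pool.Agent.Lib.TW.P3
import Pool.Agent.Lib.TW.E2
import Pool.Agent.Lib.TW.A2
import Pool.Agent.Lib.TW.BB
import Pool.Agent.Lib.TW.Lam
import Pool.Agent.Lib.LU1_h15.EtDescA

/-!
# TANK W, row E4: existence of the star data

`exists_SD`: an orthogonal frame `S` of `N = F(η)`, the coordinates `S'_i = P_i(z)` with
`P_i(η) = S_i`.
-/

set_option autoImplicit false

open Polynomial

namespace Pool.Agent.TW

open Pool.Agent.H15JM (RVal)
open Pool.Agent.LU1 (VPos adj)
open Pool.Agent.LUC (Cl clF lv)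
open Pool.Agent.D2 (Ctx0)
open Pool.Agent.D2P (hen rootF)

universe u

variable {k Ω : Type u} [Field k] [Field Ω] [Algebra k Ω] {v : RVal Ω} {r D : ℕ}

namespace E4

/-! ### values -/

theorem near_val {n : ℕ} {s s' : Fin n → Ω} {κ : ℝ} (hN : Near k v s s' κ)
    {P : MvPolynomial (Fin n) k} (hP : MvPolynomial.aeval s P ≠ 0) :
    MvPolynomial.aeval s' P ≠ 0 ∧
      v (MvPolynomial.aeval s' P) = v (MvPolynomial.aeval s P) := by
  have h1 := hN.near P hP
  by_cases h0 : MvPolynomial.aeval s' P - MvPolynomial.aeval s P = 0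
  · rw [sub_eq_zero.1 h0]
    exact ⟨hP, rfl⟩
  · have h2 := v.add_of_lt hP h0 (by have := h1 h0; have := hN.pos; linarith)
    rwa [add_sub_cancel] at h2

/-- the values of `k(s)` are values of `k(s')` -/
theorem near_exists {n : ℕ} {s s' : Fin n → Ω} {κ : ℝ} (hN : Near k v s s' κ) {c : Ω}
    (hc : c ∈ kr k s) (hc0 : c ≠ 0) : ∃ m ∈ kr k s', m ≠ 0 ∧ v m = v c := by
  rw [kr, IntermediateField.mem_adjoin_range_iff] at hc
  obtain ⟨P, Q, rfl⟩ := hc
  have hP : MvPolynomial.aeval s P ≠ 0 := fun h => hc0 (by rw [h, zero_div])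
  have hQ : MvPolynomial.aeval s Q ≠ 0 := fun h => hc0 (by rw [h, div_zero])
  obtain ⟨h1, h2⟩ := near_val hN hP
  obtain ⟨h3, h4⟩ := near_val hN hQ
  refine ⟨MvPolynomial.aeval s' P / MvPolynomial.aeval s' Q, ?_, div_ne_zero h1 h3, ?_⟩
  · rw [kr, IntermediateField.mem_adjoin_range_iff]
    exact ⟨P, Q, rfl⟩
  · rw [v.map_div h1 h3, v.map_div hP hQ, h2, h4]

theorem exists_of_cl {E : IntermediateField k Ω} {c : Ω} (hc : c ∈ Cl v E.toSubfield)
    (hc0 : c ≠ 0) : ∃ m ∈ E, m ≠ 0 ∧ v m = v c := by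
  obtain ⟨m, hm, h1⟩ := hc (v c + 1)
  by_cases h0 : c - m = 0
  · exact ⟨m, hm, by rwa [← sub_eq_zero.1 h0], by rw [sub_eq_zero.1 h0]⟩
  · have h2 := v.add_of_lt hc0 (neg_ne_zero.2 h0) (by
      rw [v.map_neg _ h0]
      have := h1 h0
      linarith)
    rw [neg_sub, add_sub_cancel] at h2
    exact ⟨m, hm, h2.1, h2.2⟩

/-! ### products of small series -/

/-- the coefficients of `f` have values `≥ -jρ`, and vanish below the degree `d` -/
def Sm (v : RVal Ω) (ρ : ℝ) (d : ℕ) (f : Polynomial Ω) : Prop :=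
  (∀ j : ℕ, v.Ge (-(j * ρ)) (f.coeff j)) ∧ ∀ j < d, f.coeff j = 0

theorem Sm.one {ρ : ℝ} : Sm v ρ 0 (1 : Polynomial Ω) := by
  refine ⟨fun j => ?_, fun j hj => absurd hj (Nat.not_lt_zero _)⟩
  rw [coeff_one]
  split_ifs with h
  · subst h
    intro _
    rw [v.map_one]
    simp
  · exact RVal.Ge.zero

theorem Sm.mul {ρ : ℝ} {d e : ℕ} {f g : Polynomial Ω} (hf : Sm v ρ d f) (hg : Sm v ρ e g) :
    Sm v ρ (d + e) (f * g) := by
  constructor
  · intro j
    rw [coeff_mul]
    refine RVal.Ge.sum _ _ fun x hx => ?_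
    have hx' := Finset.HasAntidiagonal.mem_antidiagonal.mp hx
    refine ((hf.1 x.1).mul (hg.1 x.2)).mono (le_of_eq ?_)
    rw [← hx']
    push_cast
    ring
  · intro j hj
    rw [coeff_mul]
    refine Finset.sum_eq_zero fun x hx => ?_
    have hx' := Finset.HasAntidiagonal.mem_antidiagonal.mp hx
    rcases Nat.lt_or_ge x.1 d with h1 | h1
    · rw [hf.2 _ h1, zero_mul]
    · rw [hg.2 _ (by omega), mul_zero]

theorem Sm.pow {ρ : ℝ} {f : Polynomial Ω} (hf : Sm v ρ 1 f) (m : ℕ) : Sm v ρ m (f ^ m) := by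
  induction m with
  | zero => rw [pow_zero]; exact Sm.one
  | succ m ih => rw [pow_succ]; exact ih.mul hf

theorem Sm.prod {ρ : ℝ} {n : ℕ} {T : Fin n → Polynomial Ω} (hT : ∀ i, Sm v ρ 1 (T i)) (m : Fin n → ℕ)
    (S : Finset (Fin n)) : Sm v ρ (∑ i ∈ S, m i) (∏ i ∈ S, T i ^ m i) := by
  classical
  induction S using Finset.induction_on with
  | empty => rw [Finset.sum_empty, Finset.prod_empty]; exact Sm.one
  | insert i S hi ih =>
    rw [Finset.sum_insert hi, Finset.prod_insert hi]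
    exact ((hT i).pow (m i)).mul ih

/-! ### functions -/

variable {F : IntermediateField k Ω} {z η : Ω} {ρ b₁ b : ℝ}

theorem aeval_comp {n : ℕ} (Q : Fin n → F[X]) (x : Ω) (P : MvPolynomial (Fin n) k) :
    aeval x (MvPolynomial.aeval Q P) = MvPolynomial.aeval (fun i => aeval x (Q i)) P := by
  induction P using MvPolynomial.induction_on with
  | C a =>
    rw [MvPolynomial.aeval_C, MvPolynomial.aeval_C, IsScalarTower.algebraMap_apply k F F[X],
      Polynomial.algebraMap_eq, aeval_C]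
    rfl
  | add P P' h1 h2 => simp only [_root_.map_add, h1, h2]
  | mul_X P i h1 => simp only [_root_.map_mul, h1, MvPolynomial.aeval_X]

theorem taylor_comp {n : ℕ} {s : Fin n → Ω} (hs : ∀ i, s i ≠ 0) (Q : Fin n → F[X])
    (P : MvPolynomial (Fin n) k) :
    taylor η ((MvPolynomial.aeval Q P).map (algebraMap F Ω)) =
      MvPolynomial.aeval (fun i => C (s i)⁻¹ * taylor η ((Q i).map (algebraMap F Ω)) - 1)
        (tay s P) := by
  induction P using MvPolynomial.induction_on with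
  | C a =>
    rw [MvPolynomial.aeval_C, IsScalarTower.algebraMap_apply k F F[X],
      Polynomial.algebraMap_eq, Polynomial.map_C, taylor_C, tay, MvPolynomial.aeval_C,
      IsScalarTower.algebraMap_apply k Ω (MvPolynomial (Fin n) Ω), MvPolynomial.algebraMap_eq,
      MvPolynomial.aeval_C, Polynomial.algebraMap_eq]
    rfl
  | add P P' h1 h2 =>
    rw [tay] at h1 h2 ⊢
    simp only [_root_.map_add, Polynomial.map_add, h1, h2]
  | mul_X P i h1 =>
    rw [tay] at h1 ⊢
    simp only [_root_.map_mul, Polynomial.map_mul, taylor_mul, h1, MvPolynomial.aeval_X,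
      _root_.map_add, _root_.map_one, MvPolynomial.aeval_C]
    congr 1
    rw [Polynomial.algebraMap_eq, add_sub_cancel, ← mul_assoc, ← C_mul, mul_inv_cancel₀ (hs i),
      C_1, one_mul]

/-- **polynomials in the `P_i` are functions without zeros near `η`** -/
theorem rb [IsAlgClosed k] (p : ℕ) [Fact p.Prime] [CharP k p] [CharP Ω p] {n : ℕ}
    {s : Fin n → Ω} (hs : ∀ i, s i ≠ 0) {E : IntermediateField k Ω} (hE : PBasis p E s) {ε : ℝ}
    (hε : 0 ≤ ε) (ho : Orth p v E s ε) (hb : ρ + p * ε ≤ b₁) {Q : Fin n → F[X]}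
    (hQ : ∀ i, RB v F η ρ (Q i)) (hQs : ∀ i, aeval η (Q i) = s i) {P : MvPolynomial (Fin n) k}
    (hP : MvPolynomial.aeval s P ≠ 0) : RB v F η b₁ (MvPolynomial.aeval Q P) := by
  have h0 : aeval η (MvPolynomial.aeval Q P) = MvPolynomial.aeval s P := by
    rw [aeval_comp]
    congr 1
    exact congrArg _ (funext hQs)
  refine ⟨by rwa [h0], fun j => ?_⟩
  rw [h0, tc, taylor_comp hs]
  set T : Fin n → Polynomial Ω := fun i => C (s i)⁻¹ * taylor η ((Q i).map (algebraMap F Ω)) - 1 with hT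
  have hTs : ∀ i, Sm v ρ 1 (T i) := by
    intro i
    have h2 : ∀ j, (T i).coeff j = (s i)⁻¹ * tc F η (Q i) j - if j = 0 then 1 else 0 := by
      intro j
      rw [hT]
      simp only [coeff_sub, coeff_C_mul, coeff_one]
      rfl
    have h3 : (T i).coeff 0 = 0 := by
      rw [h2, tc_zero, hQs, inv_mul_cancel₀ (hs i), if_pos rfl, sub_self]
    refine ⟨fun j => ?_, fun j hj => by rwa [Nat.lt_one_iff.1 hj]⟩
    rcases Nat.eq_zero_or_pos j with rfl | hj
    · rw [h3]; exact RVal.Ge.zero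
    · rw [h2, if_neg hj.ne', sub_zero]
      have h4 := (hQ i).2 j
      rw [hQs] at h4
      refine ((v.ge_self (s i)⁻¹).mul h4).mono (le_of_eq ?_)
      rw [v.map_inv (hs i)]
      ring
  rw [MvPolynomial.aeval_def T, MvPolynomial.eval₂_eq', finsetSum_coeff]
  refine RVal.Ge.sum _ _ fun m _ => ?_
  rw [Polynomial.algebraMap_eq, coeff_C_mul]
  have h5 := Sm.prod hTs m Finset.univ
  rw [← Finsupp.degree_eq_sum] at h5
  rcases Nat.lt_or_ge j m.degree with h6 | h6
  · rw [h5.2 j h6, mul_zero]; exact RVal.Ge.zero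
  · refine ((taylor_bound p hs hE hε ho P hP m).mul (h5.1 j)).mono ?_
    have h7 : (m.degree : ℝ) ≤ j := by exact_mod_cast h6
    have h8 : (p : ℝ) * m.degree * ε ≤ j * (p * ε) := by
      have : (0 : ℝ) ≤ p * ε := by positivity
      nlinarith
    have h9 : (j : ℝ) * (ρ + p * ε) ≤ j * b₁ := mul_le_mul_of_nonneg_left hb (Nat.cast_nonneg _)
    linarith

theorem mem_adj_iff (hη : IsSeparable F η) {c : Ω} (hc : c ∈ adj F η) :
    ∃ P : F[X], P.natDegree < (minpoly F η).natDegree ∧ aeval η P = c := by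
  have hint : IsIntegral F η := hη.isIntegral
  obtain ⟨P, hP⟩ := LU1.edA_exists_poly F η hint hc
  have hm := minpoly.monic hint
  refine ⟨P %ₘ minpoly F η, ?_, ?_⟩
  · exact natDegree_modByMonic_lt _ hm (minpoly.ne_one F η)
  · have h1 := modByMonic_add_div P (minpoly F η)
    rw [← hP]
    conv_rhs => rw [← h1]
    rw [_root_.map_add, _root_.map_mul, minpoly.aeval, zero_mul, add_zero]

theorem tc_mem (P : F[X]) (j : ℕ) : tc F η P j ∈ adj F η := by
  rw [tc, taylor_coeff, hasseDeriv_apply, eval_sum]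
  rw [Polynomial.sum_def]
  refine sum_mem fun i _ => ?_
  rw [eval_monomial]
  refine mul_mem (mul_mem ?_ ?_) (pow_mem (LU1.mem_adj_self F η) _)
  · exact natCast_mem _ _
  · rw [coeff_map]
    exact LU1.mem_adj_left (SetLike.coe_mem _)

/-- the Gauss value of the minimal polynomial -/
theorem exists_isGV (hη : IsSeparable F η) {π : Ω} (hπ : π ∈ adj F η) (hπ0 : π ≠ 0)
    (hπb : v π = b) : ∃ c ∈ adj F η, c ≠ 0 ∧ IsGV v F η b (v c) (minpoly F η) := by
  classical
  have hint : IsIntegral F η := hη.isIntegral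
  have hm := minpoly.monic hint
  set Q := minpoly F η with hQ
  have hd : 0 < Q.natDegree := minpoly.natDegree_pos hint
  have hdeg : (taylor η (Q.map (algebraMap F Ω))).natDegree = Q.natDegree := by
    rw [natDegree_taylor, hm.natDegree_map]
  have htop : tc F η Q Q.natDegree = 1 := by
    rw [tc, ← hdeg, natDegree_taylor, coeff_taylor_natDegree]
    exact hm.map _
  let S : Finset ℕ := (Finset.range (Q.natDegree + 1)).filter fun j => 0 < j ∧ tc F η Q j ≠ 0
  have hS : Q.natDegree ∈ S := by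
    refine Finset.mem_filter.2 ⟨Finset.mem_range.2 (Nat.lt_succ_self _), hd, ?_⟩
    rw [htop]
    exact one_ne_zero
  obtain ⟨j, hj, hmin⟩ := S.exists_min_image (fun j => v (tc F η Q j) + j * b) ⟨_, hS⟩
  obtain ⟨-, hj0, hjt⟩ := Finset.mem_filter.1 hj
  refine ⟨tc F η Q j * π ^ j, mul_mem (tc_mem Q j) (pow_mem hπ j),
    mul_ne_zero hjt (pow_ne_zero _ hπ0), ?_, j, hj0, hjt, ?_⟩
  · intro i
    rcases Nat.eq_zero_or_pos i with rfl | hi
    · rw [tc_zero, minpoly.aeval]; exact RVal.Ge.zero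
    · intro hi0
      have hiS : i ∈ S := by
        refine Finset.mem_filter.2 ⟨Finset.mem_range.2 ?_, hi, hi0⟩
        by_contra hlt
        refine hi0 ?_
        rw [tc]
        exact coeff_eq_zero_of_natDegree_lt (by rw [hdeg]; omega)
      have := hmin i hiS
      rw [v.map_mul hjt (pow_ne_zero _ hπ0), v.map_pow hπ0, hπb]
      linarith
  · rw [v.map_mul hjt (pow_ne_zero _ hπ0), v.map_pow hπ0, hπb]

end E4

theorem exists_SD [IsAlgClosed Ω] [IsAlgClosed k] (p : ℕ) [Fact p.Prime] [CharP k p]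
    [CharP Ω p] (h : Ctx k v r) {F : IntermediateField k Ω} (hF : F.FG) (hfull : Full v F)
    (hBD : BD p v F) (htr : Algebra.trdeg k F = (r + D : ℕ))
    (hLU : ∀ E : IntermediateField k Ω, E.FG → Full v E →
      Algebra.trdeg k E = (r + D : ℕ) → BD p v E → LU p v r E)
    (hd : Dns v F) {z η : Ω} {ρ b : ℝ} (hc : Cen v F z η ρ b) :
    ∃ (b₁ ε : ℝ), Nonempty (SD p k v r D F z η ρ b₁ b ε) := by
  classical
  have hp2 : (2 : ℝ) ≤ p := by exact_mod_cast (Fact.out : p.Prime).two_le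
  have hint : IsIntegral F η := hc.sep.isIntegral
  -- the field `N`
  have hNle : F ≤ adj F η := le_sup_left
  have hNfg : (adj F η).FG := IntermediateField.fg_sup hF
    ⟨{η}, by rw [Finset.coe_singleton]⟩
  have hNfull : Full v (adj F η) := fun g hg => by
    obtain ⟨m, hm, c, hc1, hc2, hc3⟩ := hfull g hg
    exact ⟨m, hm, c, hNle hc1, hc2, hc3⟩
  have hNtr : Algebra.trdeg k (adj F η) = (r + D : ℕ) := by
    rw [← htr]
    refine trdeg_eq_of_alg hNle (D2P.isAlgebraic_sup _ ?_)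
    rintro s rfl
    exact hint.isAlgebraic
  have hNBD : BD p v (adj F η) := BD.sep p h.toCtx0 hF hBD hc.sep
  have hNLU := hLU _ hNfg hNfull hNtr hNBD
  obtain ⟨t, ht⟩ := exists_pbasis p hNfg hNtr
  -- the constants
  set δ : ℝ := (b - ρ) / 2 with hδ
  have hδ0 : 0 < δ := by have := hc.lt; rw [hδ]; linarith
  have hε0 : 0 < δ / (4 * p) := by positivity
  have hpε : (p : ℝ) * (δ / (4 * p)) = δ / 4 := by
    field_simp
  set ε : ℝ := δ / (4 * p) with hε
  obtain ⟨S, hS, -, -, hpb, ho⟩ := exists_orth_frame p h (adj F η) hNfg hNfull hNBD hNLU t ht ∅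
    (fun z hz => absurd hz (Finset.notMem_empty _)) hε0
  have hs0 : ∀ i, S.s i ≠ 0 := by
    intro i
    refine Fin.addCases (fun i => ?_) (fun j => ?_) i
    · rw [P3.s_castAdd S]; exact S.x_ne i
    · rw [P3.s_natAdd S]; exact S.y_ne j
  have hsN : ∀ i, S.s i ∈ adj F η := hpb.mem
  choose Q hQd hQs using fun i => E4.mem_adj_iff hc.sep (hsN i)
  have hQ0 : ∀ i, Q i ≠ 0 := fun i h0 => hs0 i (by rw [← hQs i, h0, map_zero])
  have hQρ : ∀ i, RB v F η ρ (Q i) := fun i => hc.tb _ (hQ0 i) (hQd i)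
  have hb₁ : ρ + p * ε < ρ + δ := by rw [hpε]; linarith
  have hb₂ : ρ + δ < b := by rw [hδ]; have := hc.lt; linarith
  set s' : Fin (r + D) → Ω := fun i => aeval z (Q i) with hs'
  have hzη : z ≠ η := by
    rintro rfl
    exact hc.tr hint.isAlgebraic
  have hzb : ρ + δ < v (z - η) := hb₂.trans hc.lt'
  have hrb : ∀ P : MvPolynomial (Fin (r + D)) k, MvPolynomial.aeval S.s P ≠ 0 →
      RB v F η (ρ + δ) (MvPolynomial.aeval Q P) := fun P hP =>
    E4.rb p hs0 hpb hε0.le ho hb₁.le hQρ hQs hP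
  have hη : ∀ P : MvPolynomial (Fin (r + D)) k,
      aeval η (MvPolynomial.aeval Q P) = MvPolynomial.aeval S.s P := fun P => by
    rw [E4.aeval_comp]
    exact congrArg (fun f => MvPolynomial.aeval f P) (funext hQs)
  have hz : ∀ P : MvPolynomial (Fin (r + D)) k,
      aeval z (MvPolynomial.aeval Q P) = MvPolynomial.aeval s' P := fun P => E4.aeval_comp Q z P
  have hnear : Near k v S.s s' (v (z - η) - (ρ + δ)) := by
    refine ⟨by linarith, fun P hP => ?_⟩
    have h1 := ((hrb P hP).near (x := z) fun _ => hzb).2.2 hzη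
    rwa [hη, hz] at h1
  obtain ⟨S', hS'⟩ := Near.exists_fr S hnear
  have hnear' : Near k v S.s S'.s (v (z - η) - (ρ + δ)) := by rw [hS']; exact hnear
  have hKs : S.K = kr k S.s := P1.K_eq S
  have hKs' : S'.K = kr k S'.s := P1.K_eq S'
  have hind : AlgebraicIndependent k S.s := by
    have h1 : S.s = Sum.elim S.x S.y ∘ finSumFinEquiv.symm := by
      funext i
      refine Fin.addCases (fun i => ?_) (fun j => ?_) i
      · rw [P3.s_castAdd S, Function.comp_apply, finSumFinEquiv_symm_apply_castAdd, Sum.elim_inl]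
      · rw [P3.s_natAdd S, Function.comp_apply, finSumFinEquiv_symm_apply_natAdd, Sum.elim_inr]
    rw [h1]
    exact S.alg.comp _ finSumFinEquiv.symm.injective
  have hKN : S.K ≤ adj F η := P3.K_le hS
  -- the values of `N` are values of `k(S')`
  have hval : ∀ c ∈ adj F η, c ≠ 0 → ∃ m ∈ S'.K, m ≠ 0 ∧ v m = v c := by
    intro c hcN hc0
    have h1 : c ∈ hen v S.K := by
      rw [← hS.hen_eq p h]
      exact D2P.le_hen _ hcN
    obtain ⟨m, hm, hm0, hmv⟩ := E4.exists_of_cl (D2P.mem_hen.1 h1).1 hc0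
    rw [hKs] at hm
    obtain ⟨m', hm', hm0', hmv'⟩ := E4.near_exists hnear' hm hm0
    rw [← hKs'] at hm'
    exact ⟨m', hm', hm0', hmv'.trans hmv⟩
  obtain ⟨c₃, hc₃, hc₃0, hc₃1, hc₃2⟩ := hd 0 (δ / 2) (by linarith)
  obtain ⟨c₄, hc₄, hc₄0, hc₄1, hc₄2⟩ := hd (δ / 4) (δ / 2) (by linarith)
  obtain ⟨w₃, hw₃, hw₃0, hw₃v⟩ := hval c₃ (hNle hc₃) hc₃0
  obtain ⟨w₄, hw₄, hw₄0, hw₄v⟩ := hval c₄ (hNle hc₄) hc₄0
  obtain ⟨π, hπ, hπ0, hπb⟩ := hc.val
  obtain ⟨c, hcN, hc0, hcgv⟩ := E4.exists_isGV hc.sep hπ hπ0 hπb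
  obtain ⟨q, hq, hq0, hqv⟩ := hval c hcN hc0
  have hpbK : PBasis p (kr k S.s) S.s := by
    have := S.pbasis p h (E := S.K) le_rfl (D2P.le_hen _)
    rwa [hKs] at this
  have hoK : Orth p v (kr k S.s) S.s ε := by
    intro c hc' h0 α
    refine ho c (fun β => hKN ?_) h0 α
    rw [hKs]
    exact hc' β
  refine ⟨ρ + δ, ε, ⟨{
    cen := hc
    ε_nonneg := hε0.le
    lt₁ := hb₁
    lt₂ := hb₂
    π := π
    π_mem := hπ
    π_ne := hπ0
    π_val := hπb
    S := S
    fr := hS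
    pb := hpb
    orth := ho
    S' := S'
    star := fun i => ⟨Q i, hQd i, hQs i, by rw [hS']⟩
    rb := fun P hP => ⟨_, hrb P hP, hη P, by rw [hz, hS']⟩
    near := hnear'
    w₃ := w₃
    w₄ := w₄
    w₃_mem := hw₃
    w₄_mem := hw₄
    w₃_ne := hw₃0
    w₄_ne := hw₄0
    w₃_pos := by rw [hw₃v]; exact hc₃1
    w₄_ge := by rw [hw₄v, hpε]; exact hc₄1.le
    w_le := by rw [hw₃v, hw₄v]; linarith
    pb' := by rw [hKs']; exact Near.pbasis p hnear' hind hpbK
    orth' := by rw [hKs']; exact Near.orth p hnear' hind hoK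
    q := q
    q_mem := hq
    q_ne := hq0
    q_val := by rw [hqv]; exact hcgv }⟩⟩

end Pool.Agent.TW
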