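import Pool.Agent.Lib.TW.E2
import Pool.Agent.Lib.TW.E3
import Pool.Agent.Lib.TW.P2a
import Pool.Agent.Lib.TW.P4b

/-!
# TANK W, row E5: regular functions and the field of the coordinates `S'`
-/

set_option autoImplicit false

open Polynomial

namespace Pool.Agent.TW

open Pool.Agent.H15JM (RVal)
open Pool.Agent.LU1 (VPos adj)
open Pool.Agent.LUC (Cl clF lv)
open Pool.Agent.D2 (Ctx0)
open Pool.Agent.D2P (hen rootF)

universe u

set_option linter.unusedSectionVars false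
set_option linter.unusedVariables false

variable {k Ω : Type u} [Field k] [Field Ω] [Algebra k Ω] {v : RVal Ω} {r D : ℕ}

section Main

variable {p : ℕ} [Fact p.Prime] [CharP k p] [CharP Ω p] [IsAlgClosed Ω] [IsAlgClosed k]
  {F : IntermediateField k Ω} {z η : Ω} {ρ b₁ b ε : ℝ}

namespace E5Aux

/-- near elements have the same value -/
theorem of_near {x y : Ω} {κ : ℝ} (hκ : 0 < κ) (hx : x ≠ 0) (h : v.Ge (v x + κ) (y - x)) :
    y ≠ 0 ∧ v y = v x := by
  by_cases h0 : y - x = 0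
  · rw [sub_eq_zero] at h0
    subst h0
    exact ⟨hx, rfl⟩
  · have h1 := h h0
    have h2 := v.add_of_lt hx h0 (by linarith)
    rw [add_sub_cancel] at h2
    exact h2

theorem aeval_ne (d : SD p k v r D F z η ρ b₁ b ε) {P : MvPolynomial (Fin (r + D)) k}
    (hP : MvPolynomial.aeval d.S'.s P ≠ 0) : MvPolynomial.aeval d.S.s P ≠ 0 := by
  intro h
  have h1 : P = 0 := by
    have h2 := P4bAux.s_alg d.S
    rw [algebraicIndependent_iff] at h2
    exact h2 P h
  rw [h1, _root_.map_zero] at hP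
  exact hP rfl

theorem val_aeval (d : SD p k v r D F z η ρ b₁ b ε) {P : MvPolynomial (Fin (r + D)) k}
    (hP : MvPolynomial.aeval d.S.s P ≠ 0) :
    MvPolynomial.aeval d.S'.s P ≠ 0 ∧
      v (MvPolynomial.aeval d.S'.s P) = v (MvPolynomial.aeval d.S.s P) :=
  of_near d.near.pos hP (d.near.near P hP)

theorem v_div {x y : Ω} (hx : x ≠ 0) (hy : y ≠ 0) : v (x / y) = v x - v y := v.map_div hx hy

end E5Aux

open E5Aux

/-- elements of `k(S')` are regular functions -/
theorem SD.reg_mem (h : Ctx k v r) (d : SD p k v r D F z η ρ b₁ b ε) {m : Ω} (hm : m ∈ d.S'.K)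
    (hm0 : m ≠ 0) : Reg v F z η b₁ b (v m) m := by
  rw [P4bAux.K_eq, IntermediateField.mem_adjoin_range_iff] at hm
  obtain ⟨U, T, rfl⟩ := hm
  have hU' : MvPolynomial.aeval d.S'.s U ≠ 0 := fun h0 => hm0 (by rw [h0, zero_div])
  have hT' : MvPolynomial.aeval d.S'.s T ≠ 0 := fun h0 => hm0 (by rw [h0, div_zero])
  have hU := aeval_ne d hU'
  have hT := aeval_ne d hT'
  obtain ⟨BU, hBU, hBUη, hBUz⟩ := d.rb U hU
  obtain ⟨BT, hBT, hBTη, hBTz⟩ := d.rb T hT
  refine ⟨BU, BT, hBT, ?_, by rwa [hBTz], by rw [hBUz, hBTz]⟩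
  have h1 := RB.gn d.lt₂.le hBU
  have h2 : v (MvPolynomial.aeval d.S'.s U / MvPolynomial.aeval d.S'.s T) + v (aeval η BT)
      = v (aeval η BU) := by
    rw [v.map_div hU' hT', (val_aeval d hU).2, (val_aeval d hT).2, hBTη, hBUη]
    ring
  rw [h2]
  exact h1

/-- `A(η)` is near to an element of `k(S)`, and this one to an element `m` of `k(S')` -/
theorem SD.reg_near (h : Ctx k v r) (d : SD p k v r D F z η ρ b₁ b ε) {A : F[X]}
    (hA : RB v F η b₁ A) :
    ∃ m ∈ d.S'.K, m ≠ 0 ∧ v m = v (aeval η A) ∧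
      Reg v F z η b₁ b (v m + (b - b₁)) (aeval z A - m) := by
  have hg : 0 < b - b₁ := sub_pos.2 d.lt₂
  have hA0 : aeval η A ≠ 0 := hA.1
  -- `A(η)` is in the closure of `k(S)`
  have hmem : aeval η A ∈ adj F η := by
    rw [aeval_eq_sum_range]
    refine sum_mem fun i _ => ?_
    rw [Algebra.smul_def]
    exact mul_mem ((D2P.mem_adj_self F η).2 (A.coeff i).2)
      (pow_mem (D2P.mem_adj_self F η).1 i)
  have hcl : aeval η A ∈ Cl v d.S.K.toSubfield := by
    have h1 : aeval η A ∈ hen v (adj F η) := D2P.le_hen _ hmem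
    rw [d.fr.hen_eq p h] at h1
    exact (D2P.mem_hen.1 h1).1
  obtain ⟨n, hn, hnA⟩ := hcl (v (aeval η A) + (b - b₁))
  have hn' : v.Ge (v (aeval η A) + (b - b₁)) (n - aeval η A) := by
    have := hnA.neg
    rwa [neg_sub] at this
  obtain ⟨hn0, hvn⟩ := of_near hg hA0 hn'
  have hnK : n ∈ d.S.K := hn
  rw [P4bAux.K_eq, IntermediateField.mem_adjoin_range_iff] at hnK
  obtain ⟨U, T, rfl⟩ := hnK
  have hU : MvPolynomial.aeval d.S.s U ≠ 0 := fun h0 => hn0 (by rw [h0, zero_div])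
  have hT : MvPolynomial.aeval d.S.s T ≠ 0 := fun h0 => hn0 (by rw [h0, div_zero])
  obtain ⟨hU', hvU⟩ := val_aeval d hU
  obtain ⟨hT', hvT⟩ := val_aeval d hT
  obtain ⟨BU, hBU, hBUη, hBUz⟩ := d.rb U hU
  obtain ⟨BT, hBT, hBTη, hBTz⟩ := d.rb T hT
  have hvm : v (MvPolynomial.aeval d.S'.s U / MvPolynomial.aeval d.S'.s T) = v (aeval η A) := by
    rw [v.map_div hU' hT', hvU, hvT, ← v.map_div hU hT, hvn]
  refine ⟨MvPolynomial.aeval d.S'.s U / MvPolynomial.aeval d.S'.s T, ?_, div_ne_zero hU' hT', hvm,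
    ?_⟩
  · rw [P4bAux.K_eq, IntermediateField.mem_adjoin_range_iff]
    exact ⟨U, T, rfl⟩
  · have h1 : RB v F η b₁ (A * BT) := hA.mul hBT
    have h2 : GN v F η b (v (aeval η (A * BT)) + (b - b₁)) (A * BT - BU) := by
      refine RB.sub (by linarith) hg h1 hBU ?_
      have h3 : aeval η (A * BT) - aeval η BU
          = MvPolynomial.aeval d.S.s T
            * (aeval η A - MvPolynomial.aeval d.S.s U / MvPolynomial.aeval d.S.s T) := by
        rw [_root_.map_mul, hBTη, hBUη]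
        field_simp
      rw [h3, _root_.map_mul, v.map_mul hA0 (by rwa [hBTη]), hBTη]
      have h4 := (RVal.ge_self (v := v) (MvPolynomial.aeval d.S.s T)).mul hnA
      refine h4.mono (by linarith)
    refine ⟨A * BT - BU, BT, hBT, ?_, by rwa [hBTz], ?_⟩
    · rw [_root_.map_mul, v.map_mul hA0 (by rwa [hBTη])] at h2
      rw [hvm]
      have h5 : v (aeval η A) + (b - b₁) + v (aeval η BT)
          = v (aeval η A) + v (aeval η BT) + (b - b₁) := by ring
      rw [h5]
      exact h2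
    · rw [_root_.map_sub, _root_.map_mul, hBTz, hBUz]
      field_simp

namespace E5Aux

theorem Reg.one (h : Ctx k v r) (d : SD p k v r D F z η ρ b₁ b ε) :
    Reg v F z η b₁ b 0 (1 : Ω) := by
  have h1 := d.reg_mem h (one_mem _) one_ne_zero
  rwa [v.map_one] at h1

theorem Reg.neg (h : Ctx k v r) (d : SD p k v r D F z η ρ b₁ b ε) {c : ℝ} {f : Ω}
    (hf : Reg v F z η b₁ b c f) : Reg v F z η b₁ b c (-f) := by
  have h1 := d.reg_mem h (neg_mem (one_mem _)) (neg_ne_zero.2 one_ne_zero)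
  rw [v.map_neg_one] at h1
  have h2 := h1.mul hf
  rwa [zero_add, neg_one_mul] at h2

theorem Reg.zero (c : ℝ) : Reg v F z η b₁ b c (0 : Ω) := by
  refine ⟨0, 1, RB.one, fun j => ?_, by simp, by simp⟩
  have h1 : tc F η (0 : F[X]) j = 0 := by simp [tc]
  rw [h1]
  exact RVal.Ge.zero

theorem Reg.pow (h : Ctx k v r) (d : SD p k v r D F z η ρ b₁ b ε) {c : ℝ} {f : Ω}
    (hf : Reg v F z η b₁ b c f) (i : ℕ) : Reg v F z η b₁ b (i * c) (f ^ i) := by
  induction i with
  | zero => simpa using Reg.one h d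
  | succ i ih =>
    rw [pow_succ]
    have h1 := ih.mul hf
    have h2 : (i : ℝ) * c + c = ((i + 1 : ℕ) : ℝ) * c := by push_cast; ring
    rwa [h2] at h1

theorem Reg.sum {ι : Type*} (hb : b₁ ≤ b) (s : Finset ι) {c : ℝ} (f : ι → Ω)
    (hf : ∀ i ∈ s, Reg v F z η b₁ b c (f i)) : Reg v F z η b₁ b c (∑ i ∈ s, f i) := by
  classical
  induction s using Finset.induction_on with
  | empty => simpa using Reg.zero c
  | insert a s ha ih =>
    rw [Finset.sum_insert ha]
    exact (hf a (Finset.mem_insert_self a s)).add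
      (ih fun i hi => hf i (Finset.mem_insert_of_mem hi)) hb

/-- one step of the approximation -/
theorem apx_step (h : Ctx k v r) (d : SD p k v r D F z η ρ b₁ b ε) {f : Ω} {c : ℝ} (hc : 0 ≤ c)
    (hf : Reg v F z η b₁ b c f) :
    ∃ τ ∈ Subring.closure d.gA, ∃ f₁, Reg v F z η b₁ b (c + (b - b₁)) f₁ ∧ f = τ + f₁ := by
  classical
  obtain ⟨A, B, hB, hA, hBz, rfl⟩ := hf
  have hg : 0 < b - b₁ := sub_pos.2 d.lt₂
  have hb : b₁ ≤ b := d.lt₂.le
  have hρ : ρ ≤ b₁ := by
    have h1 := d.lt₁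
    have h2 := mul_nonneg (Nat.cast_nonneg (α := ℝ) p) d.ε_nonneg
    linarith
  have hηint : IsIntegral F η := d.cen.sep.isIntegral
  obtain ⟨m, a, had, hAa⟩ := exists_expansion F (minpoly.monic hηint) (minpoly.natDegree_pos hηint) A
  set Q : F[X] := minpoly F η with hQ
  have hkey : ∀ i, a i ≠ 0 → c + v (aeval η B) ≤ v (aeval η (a i)) + (i : ℕ) * v d.q := by
    intro i hi
    exact key_poly h.toCtx0 d.cen d.q_val a had (c := c + v (aeval η B)) (by rw [← hAa]; exact hA)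
      i hi
  have hrb : ∀ i, a i ≠ 0 → RB v F η b₁ (a i) := by
    intro i hi
    obtain ⟨h1, h2⟩ := d.cen.tb (a i) hi (had i)
    refine ⟨h1, fun j => (h2 j).mono ?_⟩
    have := mul_le_mul_of_nonneg_left hρ (Nat.cast_nonneg (α := ℝ) j)
    linarith
  have hnear : ∀ i, ∃ mi ∈ d.S'.K, a i ≠ 0 → mi ≠ 0 ∧ v mi = v (aeval η (a i)) ∧
      Reg v F z η b₁ b (v mi + (b - b₁)) (aeval z (a i) - mi) := by
    intro i
    by_cases hi : a i = 0
    · exact ⟨0, zero_mem _, fun h => absurd hi h⟩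
    · obtain ⟨mi, h1, h2, h3, h4⟩ := d.reg_near h (hrb i hi)
      exact ⟨mi, h1, fun _ => ⟨h2, h3, h4⟩⟩
  choose mi hmi hmi' using hnear
  obtain ⟨mB, hmB, hmB0, hvB, hregB⟩ := d.reg_near h hB
  have hX : aeval z Q = d.q * d.X := by
    rw [SD.X, mul_div_cancel₀ _ d.q_ne]
  have hregQ : Reg v F z η b₁ b (v d.q) (aeval z Q) := Reg.of_GN d.q_val.1
  -- the polynomial in `X`
  set τ : Ω := ∑ i, (if a i = 0 then 0 else mi i / mB * d.q ^ (i : ℕ)) * d.X ^ (i : ℕ) with hτ
  have hτmem : τ ∈ Subring.closure d.gA := by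
    have hXm : d.X ∈ Subring.closure d.gA := Subring.subset_closure (Or.inr rfl)
    refine sum_mem fun i _ => mul_mem ?_ (pow_mem hXm _)
    by_cases hi : a i = 0
    · rw [if_pos hi]
      exact zero_mem _
    · rw [if_neg hi]
      refine Subring.subset_closure (Or.inl ⟨?_, ?_⟩)
      · exact mul_mem (div_mem (hmi i) hmB) (pow_mem d.q_mem _)
      · obtain ⟨h1, h2, -⟩ := hmi' i hi
        refine RVal.Ge.of_le ?_
        rw [v.map_mul (div_ne_zero h1 hmB0) (pow_ne_zero _ d.q_ne), v.map_div h1 hmB0,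
          v.map_pow d.q_ne, h2, hvB]
        have := hkey i hi
        linarith
  refine ⟨τ, hτmem, aeval z A / aeval z B - τ, ?_, by ring⟩
  have hsum : aeval z A / aeval z B - τ
      = ∑ i, (if a i = 0 then 0 else
          aeval z Q ^ (i : ℕ) * ((aeval z (a i) - mi i) * (aeval z B)⁻¹
            + -(mi i * mB⁻¹ * ((aeval z B - mB) * (aeval z B)⁻¹)))) := by
    rw [hτ]
    conv_lhs => rw [hAa]
    rw [_root_.map_sum, Finset.sum_div, ← Finset.sum_sub_distrib]
    refine Finset.sum_congr rfl fun i _ => ?_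
    by_cases hi : a i = 0
    · rw [if_pos hi, if_pos hi, hi]
      simp
    · rw [if_neg hi, if_neg hi, _root_.map_mul, _root_.map_pow, hX]
      field_simp
      ring
  rw [hsum]
  refine Reg.sum hb _ _ fun i _ => ?_
  by_cases hi : a i = 0
  · rw [if_pos hi]
    exact Reg.zero _
  · rw [if_neg hi]
    obtain ⟨h1, h2, h3⟩ := hmi' i hi
    have hBinv : Reg v F z η b₁ b (-v (aeval η B)) (aeval z B)⁻¹ := by
      refine Reg.inv_RB ?_ ?_ hB
      · exact lt_trans d.lt₂ d.cen.lt'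
      · intro h0
        apply d.cen.tr
        rw [h0]
        exact hηint.isAlgebraic
    have h4 := h3.mul hBinv
    have h5 := d.reg_mem h (hmi i) h1
    have h6 := d.reg_mem h (inv_mem hmB) (inv_ne_zero hmB0)
    have h7 := (h5.mul h6).mul (hregB.mul hBinv)
    have h8 := Reg.neg h d h7
    have e1 : v mB⁻¹ = - v mB := v.map_inv hmB0
    have h9 := (Reg.mono (c' := v (aeval η (a i)) - v (aeval η B) + (b - b₁)) (by
      rw [h2]; linarith) h4).add (Reg.mono (c' := v (aeval η (a i)) - v (aeval η B) + (b - b₁)) (by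
      rw [h2, e1, hvB]; linarith) h8) hb
    have h10 := (Reg.pow h d hregQ (i : ℕ)).mul h9
    refine Reg.mono ?_ h10
    have := hkey i hi
    linarith

end E5Aux

/-- approximation: regular functions are near to polynomials in `X` over `OV k(S')` -/
theorem SD.apx (h : Ctx k v r) (d : SD p k v r D F z η ρ b₁ b ε) {f : Ω}
    (hf : Reg v F z η b₁ b 0 f) (C : ℝ) :
    ∃ τ ∈ Subring.closure d.gA, ∃ f₁, Reg v F z η b₁ b C f₁ ∧ f = τ + f₁ := by
  have hg : 0 < b - b₁ := sub_pos.2 d.lt₂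
  have key : ∀ n : ℕ, ∃ τ ∈ Subring.closure d.gA, ∃ f₁,
      Reg v F z η b₁ b (n * (b - b₁)) f₁ ∧ f = τ + f₁ := by
    intro n
    induction n with
    | zero => exact ⟨0, zero_mem _, f, by simpa using hf, by rw [zero_add]⟩
    | succ n ih =>
      obtain ⟨τ, hτ, f₁, hf₁, e⟩ := ih
      obtain ⟨τ', hτ', f₂, hf₂, e'⟩ := apx_step h d (by positivity) hf₁
      refine ⟨τ + τ', add_mem hτ hτ', f₂, ?_, by rw [e, e', add_assoc]⟩
      have h1 : (n : ℝ) * (b - b₁) + (b - b₁) = ((n + 1 : ℕ) : ℝ) * (b - b₁) := by push_cast; ring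
      rwa [h1] at hf₂
  obtain ⟨n, hn⟩ := exists_nat_ge (C / (b - b₁))
  rw [div_le_iff₀ hg] at hn
  obtain ⟨τ, hτ, f₁, hf₁, e⟩ := key n
  exact ⟨τ, hτ, f₁, Reg.mono hn hf₁, e⟩

end Main

end Pool.Agent.TW
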