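import Pool.Agent.Lib.TW.Surf3
import Pool.Agent.Lib.TW.D0
import Pool.Agent.Lib.TW.P2b
import Pool.Agent.Lib.TW.Up
import Pool.Agent.Lib.TW.T1

/-!
# TANK W, SURF: local uniformization of `F(z)`, `r = 1`, `trdeg F = 1`
-/

set_option autoImplicit false

open Polynomial

namespace Pool.Agent.TW

open Pool.Agent.H15JM (RVal)
open Pool.Agent.LU1 (VPos adj)
open Pool.Agent.D2 (Ctx0)
open Pool.Agent.D2P (hen)

universe u

namespace Surf

variable {k Ω : Type u} [Field k] [Field Ω] [Algebra k Ω] {v : RVal Ω}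

theorem x_mem_H {F : Fr k v 1 1} (hx : 0 < v (F.x 0)) : F.x 0 ∈ F.H := by
  have := P2.mx_mem_P F (l := Pi.single 0 1) (by rw [P2.mx_single, zpow_one]; exact hx.le)
  rw [P2.mx_single, zpow_one] at this
  exact P2.P_le_H F this

theorem aeval_mem_H {F : Fr k v 1 1} (hx : 0 < v (F.x 0)) (P : Polynomial k) :
    aeval (F.x 0) P ∈ F.H := by
  rw [aeval_eq_sum_range]
  refine sum_mem fun i _ => ?_
  rw [Algebra.smul_def]
  exact mul_mem (P2.P_le_H F (P2.c_mem_P F _)) (pow_mem (x_mem_H hx) _)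

theorem ev_mem_H {F : Fr k v 1 1} (hx : 0 < v (F.x 0)) (G : Polynomial (Polynomial k)) :
    ev (F.x 0) (F.y 0) G ∈ F.H := by
  rw [ev_eq_sum]
  exact sum_mem fun s _ => mul_mem (mul_mem (P2.P_le_H F (P2.c_mem_P F _))
    (pow_mem (x_mem_H hx) _)) (pow_mem (P2.P_le_H F (P2.y_mem_P F 0)) _)

theorem ev_res (h : Ctx k v 1) {F : Fr k v 1 1} (hx : 0 < v (F.x 0))
    (G : Polynomial (Polynomial k)) :
    VPos v (ev (F.x 0) (F.y 0) G - algebraMap k Ω ((G.coeff 0).coeff 0)) := by
  have h1 : ev (F.x 0) (F.y 0) G = ev (F.x 0) (F.y 0) (divX G) * F.y 0 +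
      (aeval (F.x 0) (divX (G.coeff 0)) * F.x 0 + algebraMap k Ω ((G.coeff 0).coeff 0)) := by
    conv_lhs => rw [← divX_mul_X_add G, map_add, map_mul, ev_X, ev_C]
    congr 1
    conv_lhs => rw [← divX_mul_X_add (G.coeff 0)]
    rw [map_add, map_mul, aeval_X, aeval_C]
  rw [h1]
  have e : ev (F.x 0) (F.y 0) (divX G) * F.y 0 +
      (aeval (F.x 0) (divX (G.coeff 0)) * F.x 0 + algebraMap k Ω ((G.coeff 0).coeff 0)) -
      algebraMap k Ω ((G.coeff 0).coeff 0) = ev (F.x 0) (F.y 0) (divX G) * F.y 0 +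
      aeval (F.x 0) (divX (G.coeff 0)) * F.x 0 := by ring
  rw [e]
  exact LU1.VPos.add
    (LU1.VPos.mul' ((F.hclosed h).nonneg _ (ev_mem_H hx _)) fun _ => F.y_pos 0)
    (LU1.VPos.mul' ((F.hclosed h).nonneg _ (aeval_mem_H hx _)) fun _ => hx)

theorem surf_ind [IsAlgClosed Ω] [IsAlgClosed k] (p : ℕ) [Fact p.Prime] [CharP k p] [CharP Ω p]
    (h : Ctx k v 1) : ∀ (D : ℕ) (n : ℕ) (F : Fr k v 1 1) (_ : 0 < v (F.x 0))
      (G : Polynomial (Polynomial k)) (_ : Ord G D)
      (_ : v (ev (F.x 0) (F.y 0) G) ≤ n * v (F.x 0)),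
      ∃ F' : Fr k v 1 1, Dom p F F' ∧ F'.Mono (ev (F.x 0) (F.y 0) G) := by
  intro D
  induction D using Nat.strong_induction_on with
  | _ D ihD =>
    intro n
    induction n with
    | zero =>
      intro F hx G hG hv
      have hG0 : G ≠ 0 := by
        rintro rfl
        exact hG.2 (by simp)
      have hev := ev_ne_zero F hG0
      rcases Nat.eq_zero_or_pos D with rfl | hD
      · refine ⟨F, Dom.refl p hx, mono_unit (ev_mem_H hx G) hev ?_⟩
        have h1 := (F.hclosed h).nonneg _ (ev_mem_H hx G) hev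
        rw [Nat.cast_zero, zero_mul] at hv
        exact le_antisymm hv h1
      · exfalso
        have h1 := ev_res h hx G
        rw [hG.1 0 hD, _root_.map_zero, sub_zero] at h1
        have := h1 hev
        rw [Nat.cast_zero, zero_mul] at hv
        linarith
    | succ n ihn =>
      intro F hx G hG hv
      have hG0 : G ≠ 0 := by
        rintro rfl
        exact hG.2 (by simp)
      have hev := ev_ne_zero F hG0
      rcases Nat.eq_zero_or_pos D with rfl | hD
      · refine ⟨F, Dom.refl p hx, mono_unit (ev_mem_H hx G) hev ?_⟩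
        have h1 := (F.hclosed h).nonneg _ (ev_mem_H hx G) hev
        refine le_antisymm (not_lt.1 fun h2 => ?_) h1
        have h3 := ev_res h hx G
        have h4 : VPos v (ev (F.x 0) (F.y 0) G) := fun _ => h2
        have h5 := h4.sub h3
        rw [sub_sub_cancel] at h5
        exact hG.2 (h.toCtx0.const_eq_zero h5)
      · obtain ⟨F', G', D', hdom, hG', hDD, M, u, hM, hu, huv, he⟩ := tstep p h F hx hG hD
        have hG'0 : G' ≠ 0 := by
          rintro rfl
          exact hG'.2 (by simp)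
        have hev' := ev_ne_zero F' hG'0
        have hx'0 := F'.x_ne 0
        have hu0 : u ≠ 0 := P2.Mono.ne_zero hu
        have hvv : v (ev (F.x 0) (F.y 0) G) = M * v (F'.x 0) + v (ev (F'.x 0) (F'.y 0) G') := by
          rw [he, v.map_mul (pow_ne_zero _ hx'0) (mul_ne_zero hu0 hev'), v.map_pow hx'0,
            v.map_mul hu0 hev', huv, zero_add]
        have hfin : ∀ F'' : Fr k v 1 1, Dom p F' F'' → F''.Mono (ev (F'.x 0) (F'.y 0) G') →
            ∃ F'' : Fr k v 1 1, Dom p F F'' ∧ F''.Mono (ev (F.x 0) (F.y 0) G) := by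
          intro F'' h1 h2
          refine ⟨F'', hdom.trans h1, ?_⟩
          rw [he]
          exact P2.Mono.mul (P2.Mono.pow (h1.mono _ (mono_x F')) _)
            (P2.Mono.mul (h1.mono _ hu) h2)
        rcases hDD with hlt | ⟨rfl, hxx⟩
        · obtain ⟨n', hn'⟩ := exists_nat_ge (v (ev (F'.x 0) (F'.y 0) G') / v (F'.x 0))
          rw [div_le_iff₀ hdom.pos] at hn'
          obtain ⟨F'', h1, h2⟩ := ihD D' hlt n' F' hdom.pos G' hG' hn'
          exact hfin F'' h1 h2
        · obtain ⟨F'', h1, h2⟩ := ihn F' hdom.pos G' hG' (by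
            rw [hvv] at hv
            have h3 : (1 : ℝ) ≤ M := by exact_mod_cast hM
            have h4 := mul_le_mul_of_nonneg_right h3 hdom.pos.le
            push_cast at hv
            rw [← hxx] at hv
            linarith)
          exact hfin F'' h1 h2

/-- The elements of `F.K` are fractions. -/
theorem exists_frac_ev (F : Fr k v 1 1) {e : Ω} (he : e ∈ F.K) :
    InFrac (ev (k := k) (F.x 0) (F.y 0)).range e := by
  set T := (ev (k := k) (F.x 0) (F.y 0)).range with hT
  let L : IntermediateField k Ω :=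
    { carrier := {f | InFrac T f}
      mul_mem' := by
        rintro _ _ ⟨a, ha, b, hb, hb0, rfl⟩ ⟨c, hc, d, hd, hd0, rfl⟩
        exact ⟨a * c, mul_mem ha hc, b * d, mul_mem hb hd, mul_ne_zero hb0 hd0,
          by field_simp⟩
      one_mem' := ⟨1, one_mem _, 1, one_mem _, one_ne_zero, by simp⟩
      add_mem' := by
        rintro _ _ ⟨a, ha, b, hb, hb0, rfl⟩ ⟨c, hc, d, hd, hd0, rfl⟩
        exact ⟨a * d + b * c, add_mem (mul_mem ha hd) (mul_mem hb hc), b * d, mul_mem hb hd,
          mul_ne_zero hb0 hd0, by field_simp⟩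
      zero_mem' := ⟨0, zero_mem _, 1, one_mem _, one_ne_zero, by simp⟩
      algebraMap_mem' := fun c => ⟨algebraMap k Ω c, ⟨C (C c), by rw [ev_C, aeval_C]⟩, 1,
        one_mem _, one_ne_zero, by simp⟩
      inv_mem' := by
        rintro _ ⟨a, ha, b, hb, hb0, rfl⟩
        by_cases ha0 : a = 0
        · subst ha0
          exact ⟨0, zero_mem _, 1, one_mem _, one_ne_zero, by simp⟩
        · exact ⟨b, hb, a, ha, ha0, by rw [inv_div]⟩ }
  have hle : F.K ≤ L := by
    rw [K_eq2, IntermediateField.adjoin_le_iff]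
    rintro g (rfl | hg)
    · exact ⟨F.x 0, ⟨C X, by rw [ev_C, aeval_X]⟩, 1, one_mem _, one_ne_zero, by simp⟩
    · rw [Set.mem_singleton_iff.1 hg]
      exact ⟨F.y 0, ⟨X, by rw [ev_X]⟩, 1, one_mem _, one_ne_zero, by simp⟩
  exact hle he

/-- Local uniformization of the field of a frame. -/
theorem LU_K [IsAlgClosed Ω] [IsAlgClosed k] (p : ℕ) [Fact p.Prime] [CharP k p] [CharP Ω p]
    (h : Ctx k v 1) (F : Fr k v 1 1) (hx : 0 < v (F.x 0)) : LU p v 1 F.K := by
  classical
  refine LU_of_one p h (F.pbasis p h le_rfl (D2P.le_hen F.K)) fun Z hZ => ?_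
  choose a ha b hb hb0 hab using fun z : Z => exists_frac_ev F (hZ z z.2).1
  choose Ga hGa using ha
  choose Gb hGb using hb
  have ha0 : ∀ z : Z, a z ≠ 0 := by
    intro z h0
    have h1 := hab z
    rw [h0, zero_div] at h1
    exact (hZ z z.2).2 h1
  set G : Polynomial (Polynomial k) := ∏ z : Z, Ga z * Gb z with hG
  have hevG : ev (F.x 0) (F.y 0) G = ∏ z : Z, a z * b z := by
    rw [hG, map_prod]
    refine Finset.prod_congr rfl fun z _ => ?_
    rw [map_mul, hGa, hGb]
  have hev0 : ev (F.x 0) (F.y 0) G ≠ 0 := by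
    rw [hevG]
    exact Finset.prod_ne_zero_iff.2 fun z _ => mul_ne_zero (ha0 z) (hb0 z)
  have hG0 : G ≠ 0 := by
    intro h0
    rw [h0, map_zero] at hev0
    exact hev0 rfl
  set S := G.support.sigma fun j => (G.coeff j).support with hS
  have hSne : S.Nonempty := by
    obtain ⟨j, hj⟩ := Polynomial.support_nonempty.2 hG0
    obtain ⟨i, hi⟩ := Polynomial.support_nonempty.2 (Polynomial.mem_support_iff.1 hj)
    exact ⟨⟨j, i⟩, Finset.mem_sigma.2 ⟨hj, hi⟩⟩
  obtain ⟨M, G', D', -, -, hG', hsum, -⟩ := regroup (Ω := Ω) S hSne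
    (fun m => (G.coeff m.1).coeff m.2)
    (fun m hm => Polynomial.mem_support_iff.1 (Finset.mem_sigma.1 hm).2)
    (fun m => m.2) (fun m => m.1) (by
      rintro ⟨j, i⟩ - ⟨j', i'⟩ - h1 h2
      simp only at h1 h2
      rw [h1, h2]) 0
  have hsum' := hsum (F.x 0) (F.y 0)
  simp only [_root_.map_zero, add_zero] at hsum'
  rw [← ev_eq_sum] at hsum'
  obtain ⟨n, hn⟩ := exists_nat_ge (v (ev (F.x 0) (F.y 0) G') / v (F.x 0))
  rw [div_le_iff₀ hx] at hn
  obtain ⟨F', hdom, hmono⟩ := surf_ind p h D' n F hx G' hG' hn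
  have hmG : F'.Mono (∏ z : Z, a z * b z) := by
    rw [← hevG, hsum']
    exact P2.Mono.mul (P2.Mono.pow (hdom.mono _ (mono_x F)) _) hmono
  have hH : ∀ z : Z, a z ∈ F'.H ∧ b z ∈ F'.H := by
    intro z
    rw [← hGa, ← hGb]
    exact ⟨hdom.H (ev_mem_H hx _), hdom.H (ev_mem_H hx _)⟩
  refine ⟨F', isFr_K h F' hdom.K, fun z hz => ?_, hdom.pc _ (F.PC_self p h)⟩
  set z' : Z := ⟨z, hz⟩ with hz'
  have hrest : ∏ z ∈ Finset.univ.erase z', a z * b z ∈ F'.H :=
    prod_mem fun z _ => mul_mem (hH z).1 (hH z).2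
  have hsplit : ∏ z : Z, a z * b z = a z' * b z' * ∏ z ∈ Finset.univ.erase z', a z * b z :=
    (Finset.mul_prod_erase _ _ (Finset.mem_univ z')).symm
  have hma : F'.Mono (a z') := by
    refine Fr.mono_of_mul h F' (hH z').1 (mul_mem (hH z').2 hrest) ?_
    rw [← mul_assoc, ← hsplit]
    exact hmG
  have hmb : F'.Mono (b z') := by
    refine Fr.mono_of_mul h F' (hH z').2 (mul_mem (hH z').1 hrest) ?_
    have e : b z' * (a z' * ∏ z ∈ Finset.univ.erase z', a z * b z) =
        a z' * b z' * ∏ z ∈ Finset.univ.erase z', a z * b z := by ring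
    rw [e, ← hsplit]
    exact hmG
  have hzz : z = a z' * (b z')⁻¹ := by
    have := hab z'
    rw [div_eq_mul_inv] at this
    exact this
  rw [hzz]
  exact P2.Mono.mul hma (P2.Mono.inv h hmb)

theorem isAlgebraic_mono {E F : IntermediateField k Ω} (hle : E ≤ F) {z : Ω}
    (hz : IsAlgebraic E z) : IsAlgebraic F z := by
  obtain ⟨P, hP, hPz⟩ := hz
  refine ⟨P.map (IntermediateField.inclusion hle).toRingHom, ?_, ?_⟩
  · rwa [Polynomial.map_ne_zero_iff (IntermediateField.inclusion hle).toRingHom.injective]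
  · rw [aeval_def, eval₂_map]
    exact hPz

/-- The first frame. -/
theorem exists_first [IsAlgClosed k] (h : Ctx k v 1) {x z : Ω} (hx0 : x ≠ 0) (hx : 0 < v x)
    (hz : Transcendental (IntermediateField.adjoin k {x}) z) :
    ∃ F : Fr k v 1 1, 0 < v (F.x 0) ∧ F.K = IntermediateField.adjoin k {x, z} := by
  have hz0 : z ≠ 0 := by
    rintro rfl
    exact hz isAlgebraic_zero
  obtain ⟨m, hm⟩ := exists_nat_gt (-v z / v x)
  rw [div_lt_iff₀ hx] at hm
  set y := z * x ^ m with hy
  have hxm0 : x ^ m ≠ 0 := pow_ne_zero _ hx0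
  have hy0 : y ≠ 0 := mul_ne_zero hz0 hxm0
  have hyv : 0 < v y := by
    rw [hy, v.map_mul hz0 hxm0, v.map_pow hx0]
    linarith
  have hxadj : x ∈ IntermediateField.adjoin k {x} :=
    IntermediateField.mem_adjoin_simple_self k x
  have hyt : Transcendental (IntermediateField.adjoin k {x}) y := by
    intro halg
    apply hz
    have h1 : IsAlgebraic (IntermediateField.adjoin k {x}) ((x ^ m)⁻¹) :=
      isAlgebraic_algebraMap (⟨(x ^ m)⁻¹, inv_mem (pow_mem hxadj m)⟩ :
        IntermediateField.adjoin k {x})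
    have h2 := halg.mul h1
    rwa [hy, mul_assoc, mul_inv_cancel₀ hxm0, mul_one] at h2
  have hxt : Transcendental k x := by
    intro halg
    obtain ⟨c, hc⟩ := minpoly.mem_range_of_degree_eq_one k x
      (IsAlgClosed.degree_eq_one_of_irreducible k (minpoly.irreducible halg.isIntegral))
    have hc0 : c ≠ 0 := by
      rintro rfl
      rw [_root_.map_zero] at hc
      exact hx0 hc.symm
    have h1 := h.triv c hc0
    rw [hc] at h1
    exact hx.ne' h1
  have hind : AlgebraicIndependent k (Sum.elim (fun _ : Fin 1 => y) (fun _ : Fin 1 => x)) := by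
    refine AlgebraicIndependent.sumElim_of_tower (S := IntermediateField.adjoin k {x}) ?_ ?_ ?_
    · exact algebraicIndependent_unique_type_iff.2 hxt
    · rintro _ ⟨i, rfl⟩
      exact ⟨⟨x, hxadj⟩, rfl⟩
    · exact algebraicIndependent_unique_type_iff.2 hyt
  have halg : AlgebraicIndependent k (Sum.elim (fun _ : Fin 1 => x) (fun _ : Fin 1 => y)) := by
    have h1 := hind.comp _ (Equiv.sumComm (Fin 1) (Fin 1)).injective
    have e : (Sum.elim (fun _ : Fin 1 => y) fun _ : Fin 1 => x) ∘ (Equiv.sumComm (Fin 1) (Fin 1)) =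
        Sum.elim (fun _ : Fin 1 => x) (fun _ : Fin 1 => y) := by
      funext i
      rcases i with i | i <;> rfl
    rwa [e] at h1
  have hlin : LinearIndependent ℚ fun _ : Fin 1 => v x := by
    rw [linearIndependent_unique_iff]
    exact hx.ne'
  refine ⟨⟨fun _ => x, fun _ => y, fun _ => hx0, hlin, fun _ => hy0, fun _ => hyv, halg⟩, hx, ?_⟩
  rw [K_eq2]
  change IntermediateField.adjoin k {x, y} = IntermediateField.adjoin k {x, z}
  refine le_antisymm ?_ ?_
  · rw [IntermediateField.adjoin_le_iff]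
    rintro a (rfl | ha)
    · exact IntermediateField.subset_adjoin _ _ (Or.inl rfl)
    · rw [Set.mem_singleton_iff.1 ha, hy]
      have h1 : x ∈ IntermediateField.adjoin k {x, z} :=
        IntermediateField.subset_adjoin _ _ (Or.inl rfl)
      have h2 : z ∈ IntermediateField.adjoin k {x, z} :=
        IntermediateField.subset_adjoin _ _ (Or.inr rfl)
      exact mul_mem h2 (pow_mem h1 _)
  · rw [IntermediateField.adjoin_le_iff]
    have h1 : x ∈ IntermediateField.adjoin k {x, y} :=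
      IntermediateField.subset_adjoin _ _ (Or.inl rfl)
    rintro a (rfl | ha)
    · exact h1
    · rw [Set.mem_singleton_iff.1 ha]
      have e : z = y * (x ^ m)⁻¹ := by
        rw [hy, mul_assoc, mul_inv_cancel₀ hxm0, mul_one]
      rw [e]
      exact mul_mem (IntermediateField.subset_adjoin _ _ (Or.inr rfl)) (inv_mem (pow_mem h1 _))

end Surf

variable {k Ω : Type u} [Field k] [Field Ω] [Algebra k Ω] {v : RVal Ω}

/-- **Local uniformization of `F(z)`**, rational rank one, transcendence degree two. -/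
theorem LU_surf [IsAlgClosed Ω] [IsAlgClosed k] (p : ℕ) [Fact p.Prime] [CharP k p] [CharP Ω p]
    (h : Ctx k v 1) {F : IntermediateField k Ω} (hF : F.FG) (hfull : Full v F)
    (htr : Algebra.trdeg k F = 1) {z : Ω} (hz : Transcendental F z) :
    LU p v 1 (adj F z) := by
  obtain ⟨x, hxF, hxi, hhen⟩ := abh_hen p h hF hfull (by rw [htr, Nat.cast_one])
  -- a generator of positive value
  obtain ⟨ξ, hξ0, hξ, hξF, hadj⟩ : ∃ ξ : Ω, ξ ≠ 0 ∧ 0 < v ξ ∧ ξ ∈ F ∧
      kr k x = IntermediateField.adjoin k {ξ} := by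
    have hr : Set.range x = {x 0} := by
      ext a
      constructor
      · rintro ⟨i, rfl⟩
        rw [Subsingleton.elim i 0]
        rfl
      · intro ha
        rw [Set.mem_singleton_iff.1 ha]
        exact ⟨0, rfl⟩
    have hv0 : v (x 0) ≠ 0 := hxi.ne_zero 0
    rcases lt_or_gt_of_ne hv0 with h1 | h1
    · refine ⟨(x 0)⁻¹, inv_ne_zero (hxF 0).2, ?_, inv_mem (hxF 0).1, ?_⟩
      · rw [v.map_inv (hxF 0).2]
        linarith
      · unfold kr
        rw [hr]
        refine le_antisymm ?_ ?_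
        · rw [IntermediateField.adjoin_le_iff, Set.singleton_subset_iff]
          have := inv_mem (IntermediateField.mem_adjoin_simple_self k (x 0)⁻¹)
          rwa [inv_inv] at this
        · rw [IntermediateField.adjoin_le_iff, Set.singleton_subset_iff]
          exact inv_mem (IntermediateField.mem_adjoin_simple_self k (x 0))
    · exact ⟨x 0, (hxF 0).2, h1, (hxF 0).1, by unfold kr; rw [hr]⟩
  have hle1 : IntermediateField.adjoin k {ξ} ≤ F := by
    rw [IntermediateField.adjoin_le_iff, Set.singleton_subset_iff]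
    exact hξF
  have hzξ : Transcendental (IntermediateField.adjoin k {ξ}) z := by
    intro halg
    exact hz (Surf.isAlgebraic_mono hle1 halg)
  obtain ⟨F₀, hF₀x, hF₀K⟩ := Surf.exists_first h hξ0 hξ hzξ
  have hLU := Surf.LU_K p h F₀ hF₀x
  rw [hF₀K] at hLU
  set E₀ := IntermediateField.adjoin k ({ξ, z} : Set Ω) with hE₀
  have hξE₀ : ξ ∈ E₀ := IntermediateField.subset_adjoin _ _ (Or.inl rfl)
  have hzE₀ : z ∈ E₀ := IntermediateField.subset_adjoin _ _ (Or.inr rfl)
  have hle : E₀ ≤ adj F z := by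
    rw [hE₀, IntermediateField.adjoin_le_iff]
    rintro a (rfl | ha)
    · exact LU1.mem_adj_left hξF
    · rw [Set.mem_singleton_iff.1 ha]
      exact LU1.mem_adj_self F z
  have hle' : adj F z ≤ hen v E₀ := by
    refine sup_le ?_ ?_
    · refine (D2P.le_hen (v := v) F).trans ?_
      rw [hhen, hadj]
      refine D2P.hen_mono ?_
      rw [IntermediateField.adjoin_le_iff, Set.singleton_subset_iff]
      exact hξE₀
    · rw [IntermediateField.adjoin_le_iff, Set.singleton_subset_iff]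
      exact D2P.le_hen E₀ hzE₀
  refine LU.up p h ?_ ?_ (D2P.fg_adj hF z) hle hle' hLU
  · exact IntermediateField.fg_adjoin_of_finite (Set.toFinite _)
  · refine full_of_span (x := fun _ : Fin 1 => ξ) (fun _ => ⟨hξE₀, hξ0⟩) ?_
    intro g hg
    obtain ⟨X, hX0, -, hsp⟩ := h.rank
    obtain ⟨c1, hc1⟩ := (Submodule.mem_span_range_iff_exists_fun ℚ).1 (hsp ξ hξ0)
    obtain ⟨c2, hc2⟩ := (Submodule.mem_span_range_iff_exists_fun ℚ).1 (hsp g hg)
    rw [Fin.sum_univ_one] at hc1 hc2
    have hc10 : c1 0 ≠ 0 := by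
      intro h0
      rw [h0, zero_smul] at hc1
      rw [← hc1] at hξ
      exact lt_irrefl _ hξ
    refine (Submodule.mem_span_range_iff_exists_fun ℚ).2 ⟨fun _ => c2 0 / c1 0, ?_⟩
    rw [Fin.sum_univ_one, ← hc1, ← hc2, smul_smul, div_mul_cancel₀ _ hc10]

end Pool.Agent.TW
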