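import Pool.Agent.Lib.TW.T1
import Pool.Agent.Lib.TW.P2a
import Pool.Agent.Lib.TW.P4b
import Pool.Agent.Lib.D2P.TTP
import Pool.Agent.Lib.TW.E1
import Pool.Agent.Lib.TW.E4
import Pool.Agent.Lib.TW.E10
import Pool.Agent.Lib.TW.Up
import Pool.Agent.Lib.TW.BA
import Pool.Agent.Lib.TW.BB
import Pool.Agent.Lib.TW.Surf

/-!
# TANK W, row ESTAR: theorem E*
-/

set_option autoImplicit false

open Polynomial

namespace Pool.Agent.TW

open Pool.Agent.H15JM (RVal)
open Pool.Agent.LU1 (VPos adj)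
open Pool.Agent.LUC (Cl clF lv)
open Pool.Agent.D2 (Ctx0)
open Pool.Agent.D2P (hen rootF)

universe u

variable {k Ω : Type u} [Field k] [Field Ω] [Algebra k Ω] {v : RVal Ω} {r D : ℕ}

namespace Est

/-- The field of the coordinates is full. -/
theorem full_K (h : Ctx k v r) (F : Fr k v r D) : Full v F.K := by
  obtain ⟨X, hX, hXi, hXv⟩ := h.rank
  refine full_of_span (x := F.x) (fun i => ⟨P2.x_mem_K F i, F.x_ne i⟩) fun g hg => ?_
  have h1 : Submodule.span ℚ (Set.range fun i => v (F.x i)) ≤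
      Submodule.span ℚ (Set.range fun i => v (X i)) := by
    rw [Submodule.span_le]
    rintro _ ⟨i, rfl⟩
    exact hXv _ (F.x_ne i)
  have h2 := finrank_span_eq_card F.x_ind
  have h3 := finrank_span_eq_card hXi
  have h4 : FiniteDimensional ℚ (Submodule.span ℚ (Set.range fun i => v (X i))) :=
    FiniteDimensional.span_of_finite ℚ (Set.finite_range _)
  have h5 := Submodule.eq_of_le_of_finrank_eq h1 (by rw [h2, h3])
  rw [h5]
  exact hXv g hg

theorem trdeg_K (F : Fr k v r D) : Algebra.trdeg k F.K = (r + D : ℕ) := by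
  have h1 := P4bAux.s_alg F
  rw [P4bAux.K_eq, trdeg_adjoin_eq h1.to_subtype_range]
  have h2 := Cardinal.mk_range_eq_of_injective h1.injective
  simpa using h2

theorem fg_K (F : Fr k v r D) : F.K.FG := by
  classical
  refine ⟨Finset.univ.image F.s, ?_⟩
  rw [P4bAux.K_eq, Finset.coe_image, Finset.coe_univ, Set.image_univ]

/-- Fractions of polynomials in `z`. -/
theorem exists_frac {F : IntermediateField k Ω} {z : Ω} {f : Ω}
    (hf : f ∈ adj F z) (hf0 : f ≠ 0) : ∃ A B : F[X], A ≠ 0 ∧ B ≠ 0 ∧ aeval z A ≠ 0 ∧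
      aeval z B ≠ 0 ∧ f = aeval z A / aeval z B := by
  obtain ⟨A, B, rfl⟩ := D2P.mem_adj_frac hf
  have hA : aeval z A ≠ 0 := fun h0 => hf0 (by rw [h0, zero_div])
  have hB : aeval z B ≠ 0 := fun h0 => hf0 (by rw [h0, div_zero])
  exact ⟨A, B, fun h0 => hA (by rw [h0, map_zero]), fun h0 => hB (by rw [h0, map_zero]),
    hA, hB, rfl⟩

/-- rank `≥ 2`: the values are dense -/
theorem dns_of_rank (h : Ctx k v r) (hr : 2 ≤ r) {F : IntermediateField k Ω}
    (hfull : Full v F) : Dns v F := by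
  obtain ⟨x, hx, hxi, -⟩ := hfull.exists_span h
  let G : AddSubgroup ℝ :=
    { carrier := {a | ∃ c ∈ F, c ≠ 0 ∧ v c = a}
      add_mem' := by
        rintro _ _ ⟨c, hc, hc0, rfl⟩ ⟨d, hd, hd0, rfl⟩
        exact ⟨c * d, mul_mem hc hd, mul_ne_zero hc0 hd0, v.map_mul hc0 hd0⟩
      zero_mem' := ⟨1, one_mem _, one_ne_zero, v.map_one⟩
      neg_mem' := by
        rintro _ ⟨c, hc, hc0, rfl⟩
        exact ⟨c⁻¹, inv_mem hc, inv_ne_zero hc0, v.map_inv hc0⟩ }
  rcases AddSubgroup.dense_or_cyclic G with h1 | ⟨g, hg⟩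
  · intro a b hab
    obtain ⟨_, ⟨c, hc, hc0, rfl⟩, hac, hcb⟩ := h1.exists_between hab
    exact ⟨c, hc, hc0, hac, hcb⟩
  · exfalso
    let i : Fin r := ⟨0, by omega⟩
    let j : Fin r := ⟨1, by omega⟩
    have hij : i ≠ j := by
      intro h2
      have := congrArg Fin.val h2
      simp [i, j] at this
    have hi : v (x i) ∈ G := ⟨x i, (hx i).1, (hx i).2, rfl⟩
    have hj : v (x j) ∈ G := ⟨x j, (hx j).1, (hx j).2, rfl⟩
    rw [hg, AddSubgroup.mem_closure_singleton] at hi hj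
    obtain ⟨m, hm⟩ := hi
    obtain ⟨n, hn⟩ := hj
    have hm0 : m ≠ 0 := by
      rintro rfl
      rw [zero_smul] at hm
      exact hxi.ne_zero i hm.symm
    have h2 : LinearIndependent ℚ ![v (x i), v (x j)] := by
      have h3 := hxi.comp ![i, j] (by
        intro a b hab
        fin_cases a <;> fin_cases b <;> simp_all)
      convert h3 using 1
      funext a
      fin_cases a <;> rfl
    rw [LinearIndependent.pair_iff] at h2
    have h4 := h2 n (-m) (by
      rw [Rat.smul_def, Rat.smul_def, ← hm, ← hn]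
      push_cast
      rw [zsmul_eq_mul, zsmul_eq_mul]
      ring)
    have h5 := h4.2
    rw [neg_eq_zero] at h5
    exact hm0 (by exact_mod_cast h5)

end Est

/-- THEOREM E*. -/
theorem estar [IsAlgClosed Ω] [IsAlgClosed k] (p : ℕ) [Fact p.Prime] [CharP k p] [CharP Ω p]
    (h : Ctx k v r) {F : IntermediateField k Ω} (hF : F.FG) (hfull : Full v F)
    (hBD : BD p v F) {n : ℕ} (htr : Algebra.trdeg k F = n)
    (hLU : ∀ E : IntermediateField k Ω, E.FG → Full v E → Algebra.trdeg k E = n →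
      BD p v E → LU p v r E) (hd : Dns v F) {z : Ω} (hz : Transcendental F z) :
    LU p v r (adj F z) := by
  classical
  have hrn := hfull.rank_le h htr
  obtain ⟨D, rfl⟩ := Nat.exists_eq_add_of_le hrn
  obtain ⟨t, ht⟩ := exists_pbasis p hF htr
  have ht₀ : PBasis p (adj F z) (Fin.snoc t z : Fin (r + D + 1) → Ω) := ht.adj p hz
  refine LU_of_one (D := D + 1) p h ht₀ fun Z hZ => ?_
  choose! A B hA hB hAz hBz hf using fun f (hf : f ∈ Z) =>
    Est.exists_frac (hZ f hf).1 (hZ f hf).2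
  let R : Finset Ω := Z.biUnion fun f =>
    ((A f).aroots Ω).toFinset ∪ ((B f).aroots Ω).toFinset
  have hRA : ∀ f ∈ Z, ∀ β : Ω, aeval β (A f) = 0 → β ∈ R := by
    intro f hfZ β hβ
    refine Finset.mem_biUnion.2 ⟨f, hfZ, Finset.mem_union_left _ ?_⟩
    rw [Multiset.mem_toFinset, mem_aroots]
    exact ⟨hA f hfZ, hβ⟩
  have hRB : ∀ f ∈ Z, ∀ β : Ω, aeval β (B f) = 0 → β ∈ R := by
    intro f hfZ β hβ
    refine Finset.mem_biUnion.2 ⟨f, hfZ, Finset.mem_union_right _ ?_⟩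
    rw [Multiset.mem_toFinset, mem_aroots]
    exact ⟨hB f hfZ, hβ⟩
  have hR : ∀ β ∈ R, IsAlgebraic F β := by
    intro β hβ
    obtain ⟨f, hfZ, h1⟩ := Finset.mem_biUnion.1 hβ
    rcases Finset.mem_union.1 h1 with h2 | h2
    · rw [Multiset.mem_toFinset, mem_aroots] at h2
      exact ⟨A f, h2.1, h2.2⟩
    · rw [Multiset.mem_toFinset, mem_aroots] at h2
      exact ⟨B f, h2.1, h2.2⟩
  obtain ⟨η, ρ, b, hc, hβ⟩ := exists_cen p h hF hfull hd hz R hR
  obtain ⟨b₁, ε, ⟨d⟩⟩ := exists_SD p h hF hfull hBD htr hLU hd hc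
  have hp0 : (0 : ℝ) ≤ p * ε := mul_nonneg (Nat.cast_nonneg p) d.ε_nonneg
  have hb : b₁ ≤ b := d.lt₂.le
  have hzη : z ≠ η := by
    rintro rfl
    exact hz hc.sep.isIntegral.isAlgebraic
  have hbz : b₁ < v (z - η) := d.lt₂.trans hc.lt'
  -- the polynomials have no zeros near `η`
  have hfar : ∀ β ∈ R, β ≠ η ∧ v (η - β) ≤ b₁ := by
    intro β hβR
    have hzβ : z ≠ β := by
      rintro rfl
      exact hz (hR _ hβR)
    have h1 := hβ β hβR
    have h2 : v (z - β) < v (-(z - η)) := by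
      rw [v.map_neg _ (sub_ne_zero.2 hzη)]
      exact (h1.trans_lt hc.lt).trans hc.lt'
    have h3 := v.add_of_lt (sub_ne_zero.2 hzβ) (neg_ne_zero.2 (sub_ne_zero.2 hzη)) h2
    rw [show z - β + -(z - η) = η - β by ring] at h3
    refine ⟨fun h4 => h3.1 (by rw [h4, sub_self]), ?_⟩
    rw [h3.2]
    have := d.lt₁
    linarith
  have hrA : ∀ f ∈ Z, RB v F η b₁ (A f) := fun f hfZ =>
    RB.of_roots (hA f hfZ) fun β hβ0 => hfar β (hRA f hfZ β hβ0)
  have hrB : ∀ f ∈ Z, RB v F η b₁ (B f) := fun f hfZ =>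
    RB.of_roots (hB f hfZ) fun β hβ0 => hfar β (hRB f hfZ β hβ0)
  have hvA : ∀ f ∈ Z, v (aeval z (A f)) = v (aeval η (A f)) := fun f hfZ =>
    (RB.near (x := z) (fun _ => hbz) (hrA f hfZ)).2.1
  have hvB : ∀ f ∈ Z, v (aeval z (B f)) = v (aeval η (B f)) := fun f hfZ =>
    (RB.near (x := z) (fun _ => hbz) (hrB f hfZ)).2.1
  have hLU' : LU p v r d.S'.K := hLU _ (Est.fg_K d.S') (Est.full_K h d.S')
    (Est.trdeg_K d.S') ⟨_, d.S'.s, d.pb', ε, d.orth'⟩
  obtain ⟨G, h1, h2, h3⟩ := d.frame h hF hLU' ht Z (fun f hfZ => by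
    have hvf : v f = v (aeval η (A f)) + -v (aeval η (B f)) := by
      rw [← hvA f hfZ, ← hvB f hfZ]
      conv_lhs => rw [hf f hfZ]
      rw [v.map_div (hAz f hfZ) (hBz f hfZ), sub_eq_add_neg]
    refine ⟨(hZ f hfZ).1, (hZ f hfZ).2, ?_, ?_⟩
    · have h4 := (Reg.of_RB (z := z) hb (hrA f hfZ)).mul (Reg.inv_RB hbz hzη (hrB f hfZ))
      rw [hvf]
      have h5 : f = aeval z (A f) * (aeval z (B f))⁻¹ := by
        conv_lhs => rw [hf f hfZ]
        rw [div_eq_mul_inv]
      have h6 : Reg v F z η b₁ b (v (aeval η (A f)) + -v (aeval η (B f)))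
        (aeval z (A f) * (aeval z (B f))⁻¹) := h4
      rwa [← h5] at h6
    · have h4 := (Reg.of_RB (z := z) hb (hrB f hfZ)).mul (Reg.inv_RB hbz hzη (hrA f hfZ))
      have h7 : -v f = v (aeval η (B f)) + -v (aeval η (A f)) := by rw [hvf]; ring
      rw [h7]
      have h5 : f⁻¹ = aeval z (B f) * (aeval z (A f))⁻¹ := by
        conv_lhs => rw [hf f hfZ]
        rw [inv_div, div_eq_mul_inv]
      have h6 : Reg v F z η b₁ b (v (aeval η (B f)) + -v (aeval η (A f)))
        (aeval z (B f) * (aeval z (A f))⁻¹) := h4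
      rwa [← h5] at h6)
  exact ⟨G, h1, h2, h3⟩

/-- Theorem E*, without the density. -/
theorem estar' [IsAlgClosed Ω] [IsAlgClosed k] (p : ℕ) [Fact p.Prime] [CharP k p] [CharP Ω p]
    (h : Ctx k v r) {F : IntermediateField k Ω} (hF : F.FG) (hfull : Full v F)
    (hBD : BD p v F) {n : ℕ} (htr : Algebra.trdeg k F = n)
    (hLU : ∀ E : IntermediateField k Ω, E.FG → Full v E → Algebra.trdeg k E = n →
      BD p v E → LU p v r E) {z : Ω} (hz : Transcendental F z) :
    LU p v r (adj F z) := by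
  have hrn := hfull.rank_le h htr
  have hr0 := h.rpos
  rcases Nat.lt_or_ge r 2 with hr | hr
  · obtain rfl : r = 1 := by omega
    rcases Nat.lt_or_ge n 2 with hn | hn
    · obtain rfl : n = 1 := by omega
      exact LU_surf p h hF hfull (by rw [htr]; simp) hz
    · exact estar p h hF hfull hBD htr hLU (dns_of_BD p h hF hfull hBD htr hn) hz
  · exact estar p h hF hfull hBD htr hLU (Est.dns_of_rank h hr hfull) hz

end Pool.Agent.TW
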