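import Pool.Agent.Lib.TW.Defs
import Mathlib.RingTheory.Unramified.LocalStructure

/-!
# TANK W: etale algebras with a morphism to `Ω`

* `etale_jac`: the jacobian criterion: `R[X_1 .. X_n]/(F_1 .. F_n)`, localized at the jacobian, is
  etale over `R`;
* `exists_root`: the image in `Ω` of an etale algebra is given by a simple root of a monic
  polynomial, up to quotients;
* `exists_alg`: a solution in `Ω` of a system with jacobian of value zero comes from an etale
  algebra.
-/

set_option autoImplicit false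

open Polynomial

namespace Pool.Agent.TW

open Pool.Agent.H15JM (RVal)
open Pool.Agent.LU1 (VPos)

universe u

section jac

variable {R : Type u} [CommRing R] {n : ℕ} (F : Fin n → MvPolynomial (Fin n) R)

/-- The ring `R[X_1 .. X_n]/(F_1 .. F_n)`. -/
abbrev QF := MvPolynomial (Fin n) R ⧸ Ideal.span (Set.range F)

/-- The naive presentation of `R[X_1 .. X_n]/(F_1 .. F_n)`. -/
noncomputable abbrev presF : Algebra.PreSubmersivePresentation R (QF F) (Fin n) (Fin n) :=
  Algebra.PreSubmersivePresentation.naive (v := F) id Function.injective_id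

theorem presF_jacobian : (presF F).jacobian =
    Ideal.Quotient.mk _ (Matrix.of fun i j => MvPolynomial.pderiv j (F i)).det := by
  classical
  rw [Algebra.PreSubmersivePresentation.jacobian_eq_jacobiMatrix_det]
  have h : (presF F).jacobiMatrix =
      (Matrix.of fun i j => MvPolynomial.pderiv j (F i)).transpose := by
    refine Matrix.ext fun i j => ?_
    rw [Algebra.PreSubmersivePresentation.jacobiMatrix_naive]
    rfl
  rw [h, Matrix.det_transpose]
  rfl

theorem etale_jac : Algebra.Etale R (Localization.Away (presF F).jacobian) := by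
  let Δ : QF F := (presF F).jacobian
  have hΔ : IsUnit (algebraMap (QF F) (Localization.Away Δ) Δ) :=
    IsLocalization.Away.algebraMap_isUnit _
  let P : Algebra.SubmersivePresentation R (Localization.Away Δ) _ _ :=
    { toPreSubmersivePresentation :=
        .comp (.localizationAway (Localization.Away Δ) Δ) (presF F),
      jacobian_isUnit := by simpa [Algebra.smul_def, -isUnit_map_iff, hΔ] }
  have : Algebra.IsStandardSmoothOfRelativeDimension 0 R (Localization.Away Δ) :=
    ⟨_, _, _, inferInstance, P, by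
      simp only [Algebra.PreSubmersivePresentation.dimension_comp_eq_dimension_add_dimension, P]
      simp [Algebra.Presentation.dimension]⟩
  infer_instance

end jac

/-! ### The image of an etale algebra in `Ω` -/

section img

variable {Ω : Type u} [Field Ω] {v : RVal Ω}

theorem val_zero_of_mul {x y : Ω} (hx : v.Ge 0 x) (hy : v.Ge 0 y) (h : x * y = 1) :
    x ≠ 0 ∧ v x = 0 := by
  have hx0 : x ≠ 0 := left_ne_zero_of_mul_eq_one h
  have hy0 : y ≠ 0 := right_ne_zero_of_mul_eq_one h
  have h1 := v.map_mul hx0 hy0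
  rw [h, v.map_one] at h1
  have h2 := hx hx0
  have h3 := hy hy0
  exact ⟨hx0, by linarith⟩

/-- The prime ideal of the elements whose image has positive value. -/
def posIdeal {S : Type u} [CommRing S] (φ : S →+* Ω) (hφ : ∀ s, v.Ge 0 (φ s)) : Ideal S where
  carrier := {s | VPos v (φ s)}
  add_mem' := by
    intro a b ha hb
    change VPos v (φ (a + b))
    rw [map_add]
    exact VPos.add ha hb
  zero_mem' := by
    change VPos v (φ 0)
    rw [map_zero]
    exact VPos.zero
  smul_mem' := by
    intro c a ha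
    change VPos v (φ (c * a))
    rw [map_mul]
    exact VPos.mul' (hφ c) ha

theorem posIdeal_prime {S : Type u} [CommRing S] (φ : S →+* Ω) (hφ : ∀ s, v.Ge 0 (φ s)) :
    (posIdeal φ hφ).IsPrime := by
  refine ⟨?_, ?_⟩
  · rw [Ideal.ne_top_iff_one]
    intro h
    have h1 : VPos v (φ 1) := h
    rw [map_one] at h1
    have h2 := h1 one_ne_zero
    rw [v.map_one] at h2
    exact lt_irrefl _ h2
  · intro a b hab
    by_contra hcon
    rw [not_or] at hcon
    obtain ⟨ha, hb⟩ := hcon
    have ha0 : φ a ≠ 0 := fun h => ha (by change VPos v (φ a); rw [h]; exact VPos.zero)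
    have hb0 : φ b ≠ 0 := fun h => hb (by change VPos v (φ b); rw [h]; exact VPos.zero)
    have ha1 : ¬ 0 < v (φ a) := fun h => ha (fun _ => h)
    have hb1 : ¬ 0 < v (φ b) := fun h => hb (fun _ => h)
    have h1 : VPos v (φ (a * b)) := hab
    rw [map_mul] at h1
    have h2 := h1 (mul_ne_zero ha0 hb0)
    rw [v.map_mul ha0 hb0] at h2
    linarith

theorem notMem_posIdeal {S : Type u} [CommRing S] {φ : S →+* Ω} {hφ : ∀ s, v.Ge 0 (φ s)} {s : S}
    (h : s ∉ posIdeal φ hφ) : φ s ≠ 0 ∧ v (φ s) = 0 := by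
  have h0 : φ s ≠ 0 := fun h' => h (by change VPos v (φ s); rw [h']; exact VPos.zero)
  have h1 : ¬ 0 < v (φ s) := fun h' => h (fun _ => h')
  exact ⟨h0, le_antisymm (not_lt.1 h1) (hφ s h0)⟩

/-- The extension of a morphism to a localization at an element of value zero. -/
theorem exists_away {R S : Type u} [CommRing R] [CommRing S] [Algebra R S] [Algebra R Ω]
    (φ : S →ₐ[R] Ω) (hφ : ∀ s, v.Ge 0 (φ s)) {f : S} (h0 : φ f ≠ 0) (h1 : v (φ f) = 0) :
    ∃ ψ : Localization.Away f →ₐ[R] Ω, (∀ s, ψ (algebraMap S _ s) = φ s) ∧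
      ∀ s, v.Ge 0 (ψ s) := by
  have hu : IsUnit (φ f) := h0.isUnit
  refine ⟨IsLocalization.Away.liftAlgHom f (f := φ) hu, ?_, ?_⟩
  · intro s
    simp
  · intro s hs
    obtain ⟨⟨a, ⟨_, n, rfl⟩⟩, e⟩ := IsLocalization.surj (Submonoid.powers f) s
    have e1 := congrArg (IsLocalization.Away.liftAlgHom f (f := φ) hu) e
    simp only [map_mul, map_pow] at e1
    have e2 : IsLocalization.Away.liftAlgHom f (f := φ) hu s * φ f ^ n = φ a := by
      simpa using e1
    have h2 : φ a ≠ 0 := by
      rw [← e2]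
      exact mul_ne_zero hs (pow_ne_zero n h0)
    have h3 := hφ a h2
    rw [← e2, v.map_mul hs (pow_ne_zero n h0), v.map_pow h0, h1, mul_zero, add_zero] at h3
    exact h3

/-- **The image of an etale algebra.** -/
theorem exists_root {R S : Type u} [CommRing R] [CommRing S] [Algebra R S] [Algebra.Etale R S]
    [Algebra R Ω] (φ : S →ₐ[R] Ω) (hφ : ∀ s, v.Ge 0 (φ s)) :
    ∃ (g : Polynomial R) (θ : Ω), g.Monic ∧ v.Ge 0 θ ∧ aeval θ g = 0 ∧
      aeval θ (derivative g) ≠ 0 ∧ v (aeval θ (derivative g)) = 0 ∧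
      ∀ s, ∃ P Q : Polynomial R, aeval θ Q ≠ 0 ∧ v (aeval θ Q) = 0 ∧
        φ s = aeval θ P / aeval θ Q := by
  have hq : (posIdeal (φ : S →+* Ω) hφ).IsPrime := posIdeal_prime _ hφ
  obtain ⟨f, hf, hst⟩ := Algebra.IsEtaleAt.exists_isStandardEtale (R := R)
    (posIdeal (φ : S →+* Ω) hφ)
  obtain ⟨hf0, hf1⟩ := notMem_posIdeal hf
  obtain ⟨ψ, hψ, hψ'⟩ := exists_away φ hφ hf0 hf1
  obtain ⟨P⟩ := hst.nonempty_standardEtalePresentation
  have hmap := P.hasMap
  have hun : ∀ x : Localization.Away f, IsUnit x → ψ x ≠ 0 ∧ v (ψ x) = 0 := by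
    rintro x ⟨u, rfl⟩
    refine val_zero_of_mul (hψ' _) (hψ' (↑u⁻¹ : Localization.Away f)) ?_
    rw [← map_mul, Units.mul_inv, map_one]
  refine ⟨P.f, ψ P.x, P.monic_f, hψ' _, ?_, ?_, ?_, ?_⟩
  · rw [aeval_algHom_apply, hmap.1, map_zero]
  · rw [aeval_algHom_apply]
    exact (hun _ hmap.isUnit_derivative_f).1
  · rw [aeval_algHom_apply]
    exact (hun _ hmap.isUnit_derivative_f).2
  · intro s
    obtain ⟨p, m, hp⟩ := P.exists_mul_aeval_x_g_pow_eq_aeval_x (algebraMap S _ s)
    refine ⟨p, P.g ^ m, ?_, ?_, ?_⟩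
    · rw [aeval_algHom_apply]
      refine (hun _ ?_).1
      rw [map_pow]
      exact hmap.2.pow m
    · rw [aeval_algHom_apply]
      refine (hun _ ?_).2
      rw [map_pow]
      exact hmap.2.pow m
    · have h0 : aeval (ψ P.x) (P.g ^ m) ≠ 0 := by
        rw [aeval_algHom_apply]
        refine (hun _ ?_).1
        rw [map_pow]
        exact hmap.2.pow m
      rw [eq_div_iff h0, aeval_algHom_apply, aeval_algHom_apply, ← hp, map_mul, hψ, map_pow,
        map_pow]

/-- **A system with jacobian of value zero.** -/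
theorem exists_alg {S : Type u} [CommRing S] [Algebra S Ω]
    (hS : ∀ s : S, v.Ge 0 (algebraMap S Ω s)) {n : ℕ} (F : Fin n → MvPolynomial (Fin n) S)
    (a : Fin n → Ω) (ha : ∀ i, v.Ge 0 (a i)) (h0 : ∀ i, MvPolynomial.aeval a (F i) = 0)
    (hd : MvPolynomial.aeval a (Matrix.of fun i j => MvPolynomial.pderiv j (F i)).det ≠ 0)
    (hd' : v (MvPolynomial.aeval a (Matrix.of fun i j => MvPolynomial.pderiv j (F i)).det) = 0) :
    ∃ ψ : Localization.Away (presF F).jacobian →ₐ[S] Ω, (∀ s, v.Ge 0 (ψ s)) ∧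
      ∀ i, ∃ s, ψ s = a i := by
  have hker : Ideal.span (Set.range F) ≤ RingHom.ker (MvPolynomial.aeval (R := S) a) := by
    rw [Ideal.span_le]
    rintro _ ⟨i, rfl⟩
    exact h0 i
  let φ : QF F →ₐ[S] Ω := Ideal.Quotient.liftₐ _ (MvPolynomial.aeval a) fun x hx => hker hx
  have hφ1 : ∀ x, φ (Ideal.Quotient.mk _ x) = MvPolynomial.aeval a x := fun x => rfl
  have hφ : ∀ s, v.Ge 0 (φ s) := by
    intro s
    obtain ⟨x, rfl⟩ := Ideal.Quotient.mk_surjective s
    rw [hφ1]
    induction x using MvPolynomial.induction_on with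
    | C r => simpa using hS r
    | add p q hp hq => rw [map_add]; exact hp.add hq
    | mul_X p i hp =>
      rw [map_mul, MvPolynomial.aeval_X]
      have := hp.mul (ha i)
      rwa [add_zero] at this
  have hj : φ (presF F).jacobian =
      MvPolynomial.aeval a (Matrix.of fun i j => MvPolynomial.pderiv j (F i)).det := by
    rw [presF_jacobian, hφ1]
  obtain ⟨ψ, h1, h2⟩ := exists_away φ hφ (f := (presF F).jacobian) (by rw [hj]; exact hd)
    (by rw [hj]; exact hd')
  refine ⟨ψ, h2, fun i => ⟨algebraMap (QF F) _ (Ideal.Quotient.mk _ (MvPolynomial.X i)), ?_⟩⟩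
  rw [h1, hφ1, MvPolynomial.aeval_X]

end img

end Pool.Agent.TW
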