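import Pool.Agent.Lib.TW.TopM2
import Pool.Agent.Lib.ALL_h26.Fin1
import Pool.Agent.Lib.TW.Defs

/-!
# TANK W: exits for the real valuations with residue field `k`
-/

set_option autoImplicit false

namespace Pool.Agent.TW

open Pool.Agent.H15JM (RVal)
open Pool.Agent.LU2 Pool.Agent.LU2G
open Pool.Agent.LUC (LUs LUrV)
open Pool.Agent.TA (CtxR)
open Pool.Agent.D2 (Ctx0 residue_ext0 lur_of_lurV)
open Pool.Agent.ALLF (ctxR_of_ext exists_max_ind)

universe u

/-- Log uniformization of a given valuation ring of rank one with residue field `k`, from the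
statement `LUs` in the algebraic closure. -/
theorem lurV_at {k K : Type u} [Field k] [IsAlgClosed k] [Field K] [Algebra k K] {m : ℕ}
    (V : ValuationSubring K)
    (H : ∀ (Ω : Type u) [Field Ω] [Algebra k Ω] [IsAlgClosed Ω] (v : RVal Ω) (r : ℕ)
      (L : IntermediateField k Ω) (e : K ≃ₐ[k] L), CtxR k v m r → 0 < r →
      (∀ g : K, g ≠ 0 → (g ∈ V ↔ 0 ≤ v (e g : Ω))) → L.FG →
      (∀ g : Ω, IsAlgebraic L g) → LUs v (algebraMap k Ω).range L.toSubfield)
    (hK : (⊤ : IntermediateField k K).FG)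
    (hk : ∀ c : k, algebraMap k K c ∈ V) (hR : IsR1 V)
    (hres : ∀ f ∈ V, ∃ c : k, V.valuation (f - algebraMap k K c) < 1)
    (hm : Algebra.trdeg k K = m) : LUrV k V := by
  classical
  obtain ⟨v, w, hrel, hw, hV, hVpos, hpos⟩ := LUC.exists_entry V hR
  -- the standing assumptions
  have htriv : ∀ c : k, c ≠ 0 → v (algebraMap k K c) = 0 := by
    intro c hc
    have hc' : algebraMap k K c ≠ 0 := by rwa [_root_.map_ne_zero]
    have h1 := (hrel _ hc').1 (hk c)
    have h2 := (hrel _ (inv_ne_zero hc')).1 (by rw [← map_inv₀]; exact hk c⁻¹)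
    rw [v.map_inv hc'] at h2
    linarith
  have hc0 : Ctx0 k v := by
    refine ⟨htriv, fun g hg hg0 => ?_⟩
    obtain ⟨c, hc⟩ := hres g ((hrel g hg).2 hg0.ge)
    have hc1 := (hrel.lt_one_iff' _).1 hc
    refine ⟨c, ?_, hc1⟩
    rintro rfl
    rw [_root_.map_zero, sub_zero] at hc1
    have h1 := hc1 hg
    rw [hg0] at h1
    exact lt_irrefl _ h1
  obtain ⟨r, x, hx0, hx, hspan⟩ := exists_max_ind v htriv hm
  have hctx : CtxR k w m r := ctxR_of_ext v hc0 w hw hm x hx0 hx hspan
  have hr : 0 < r := by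
    rcases Nat.eq_zero_or_pos r with h0 | h0
    · exfalso
      subst h0
      obtain ⟨c, hc0, hc⟩ := hpos
      have h1 := hspan c hc0
      rw [Set.range_eq_empty, Submodule.span_empty, Submodule.mem_bot] at h1
      rw [h1] at hc
      exact lt_irrefl _ hc
    · exact h0
  let Ω : Type u := AlgebraicClosure K
  let ι : K →ₐ[k] Ω := IsScalarTower.toAlgHom k K Ω
  let L : IntermediateField k Ω := ι.fieldRange
  have hL : L.toSubfield = (algebraMap K Ω).fieldRange := by
    ext f
    constructor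
    · rintro ⟨g, hg⟩
      exact ⟨g, hg⟩
    · rintro ⟨g, hg⟩
      exact ⟨g, hg⟩
  have hLfg : L.FG := by
    obtain ⟨S, hS⟩ := hK
    refine ⟨S.image ι, ?_⟩
    rw [Finset.coe_image, ← IntermediateField.adjoin_map, hS]
    exact (AlgHom.fieldRange_eq_map ι).symm
  have halg : ∀ g : Ω, IsAlgebraic L g := by
    intro g
    obtain ⟨P, hP0, hP⟩ := (Algebra.IsAlgebraic.isAlgebraic g : IsAlgebraic K g)
    let j : K →+* L := (ι.rangeRestrict : K →ₐ[k] ι.range).toRingHom
    refine ⟨P.map j, ?_, ?_⟩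
    · exact (Polynomial.map_ne_zero_iff j.injective).2 hP0
    · rw [Polynomial.aeval_def, Polynomial.eval₂_map]
      exact hP
  let e : K ≃ₐ[k] L := AlgEquiv.ofInjectiveField ι
  have he : ∀ g : K, (e g : Ω) = algebraMap K Ω g := fun g => rfl
  have hfin := H Ω w r L e hctx hr (fun g hg => by rw [he, hw g hg]; exact hrel g hg) hLfg halg
  rw [hL] at hfin
  exact hfin.lurV hV hk

/-- The class of the valuation rings with residue field `k`. -/
def ZeroCls (k : Type u) [Field k] : Cls k := fun K _ _ V =>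
  ∀ f ∈ V, ∃ c : k, V.valuation (f - algebraMap k K c) < 1

/-- The class of the valuation rings with residue field `k` and Abhyankar defect at most two. -/
def TwoCls (k : Type u) [Field k] : Cls k := fun K _ _ V =>
  (∀ f ∈ V, ∃ c : k, V.valuation (f - algebraMap k K c) < 1) ∧ DefLE k V 2

theorem ZeroCls.sub (k : Type u) [Field k] : (ZeroCls k).Sub := by
  intro K _ _ V hk hfin h0 L f hf
  rw [ValuationSubring.mem_comap] at hf
  obtain ⟨c, hc⟩ := h0 _ hf
  refine ⟨c, ?_⟩
  rw [comap_lt_iff]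
  have h1 : ((f - algebraMap k L c : L) : K) = algebraMap L K f - algebraMap k K c := rfl
  rw [h1]
  exact hc

theorem TwoCls.sub (k : Type u) [Field k] : (TwoCls k).Sub := by
  rintro K _ _ V hk hfin ⟨h0, hD⟩ L
  exact ⟨ZeroCls.sub k K V hk hfin h0 L, DefLE.comap' hk hfin L hD⟩

/-- The exit for all real valuations with residue field `k`. -/
theorem realCls_zero {k : Type u} [Field k] [IsAlgClosed k]
    (H : ∀ (Ω : Type u) [Field Ω] [Algebra k Ω] [IsAlgClosed Ω] (v : RVal Ω) (n r : ℕ),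
      CtxR k v n r → 0 < r → ∀ E : IntermediateField k Ω, E.FG → (∀ g : Ω, IsAlgebraic E g) →
        LUs v (algebraMap k Ω).range E.toSubfield) : RealCls (ZeroCls k) := by
  intro K _ _ hK V hk hR hres
  have h1 : Algebra.EssFiniteType k K := IntermediateField.fg_top_iff.1 hK
  obtain ⟨m, hm⟩ := Cardinal.lt_aleph0.1 (_root_.trdeg_lt_aleph0 k K)
  exact lur_of_lurV (lurV_at (m := m) V
    (fun Ω _ _ _ v r L _ hctx hr _ hL halg => H Ω v m r hctx hr L hL halg) hK hk hR hres hm)

/-- The defect in terms of the rational rank. -/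
theorem le_of_defLE {k K : Type u} [Field k] [IsAlgClosed k] [Field K] [Algebra k K]
    {V : ValuationSubring K} (hres : ∀ f ∈ V, ∃ c : k, V.valuation (f - algebraMap k K c) < 1)
    {δ : ℕ} (hD : DefLE k V δ) {m : ℕ} (hm : Algebra.trdeg k K = m) {Ω : Type u} [Field Ω]
    [Algebra k Ω] {v : RVal Ω} {r : ℕ} {L : IntermediateField k Ω} (e : K ≃ₐ[k] L)
    (hctx : CtxR k v m r) (he : ∀ g : K, g ≠ 0 → (g ∈ V ↔ 0 ≤ v (e g : Ω))) : m ≤ r + δ := by
  classical
  obtain ⟨r', d, hT, ⟨x, hx⟩, ⟨z, hz⟩⟩ := hD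
  have hpos : ∀ g : K, g ≠ 0 → (V.valuation g = 1 ↔ v (e g : Ω) = 0) := by
    intro g hg
    have hg' : (e g : Ω) ≠ 0 := by
      intro h0
      apply hg
      apply e.injective
      rw [map_zero]
      exact Subtype.ext h0
    have h1 : V.valuation g ≤ 1 ↔ 0 ≤ v (e g : Ω) := by
      rw [ValuationSubring.valuation_le_one_iff]
      exact he g hg
    have h2 : 1 ≤ V.valuation g ↔ v (e g : Ω) ≤ 0 := by
      have h3 : V.valuation g⁻¹ ≤ 1 ↔ 0 ≤ v (e g⁻¹ : Ω) := by
        rw [ValuationSubring.valuation_le_one_iff]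
        exact he g⁻¹ (inv_ne_zero hg)
      have h4 : (e g⁻¹ : Ω) = (e g : Ω)⁻¹ := by
        rw [map_inv₀]
        rfl
      rw [h4, v.map_inv hg', map_inv₀] at h3
      have h5 : V.valuation g ≠ 0 := (Valuation.ne_zero_iff _).2 hg
      rw [← inv_le_one₀ (zero_lt_iff.2 h5), h3]
      constructor <;> intro h <;> linarith
    rw [le_antisymm_iff, h1, h2, and_comm]
    exact le_antisymm_iff.symm
  -- no residues
  have hd : d = 0 := by
    by_contra hd
    obtain ⟨c, hc⟩ := hres _ (hz.1 ⟨0, Nat.pos_of_ne_zero hd⟩)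
    have h1 := hz.2 (MvPolynomial.X ⟨0, Nat.pos_of_ne_zero hd⟩ - MvPolynomial.C c) (by
      rw [map_sub, MvPolynomial.aeval_X, MvPolynomial.aeval_C]
      exact hc)
    have h2 := congrArg (MvPolynomial.eval fun _ => c + 1) h1
    rw [map_sub, MvPolynomial.eval_X, MvPolynomial.eval_C, map_zero, add_sub_cancel_left] at h2
    exact one_ne_zero h2
  -- independent values
  have hr' : r' ≤ r := by
    obtain ⟨Y, hY0, -, hY⟩ := hctx.rank
    have hne : ∀ i, (e (x i) : Ω) ≠ 0 := by
      intro i h0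
      apply hx.1 i
      apply e.injective
      rw [map_zero]
      exact Subtype.ext h0
    have hli : LinearIndependent ℤ fun i => v (e (x i) : Ω) := by
      rw [linearIndependent_iff]
      intro f hf
      refine hx.2 f ((hpos _ ?_).2 ?_)
      · exact Finset.prod_ne_zero_iff.2 fun i _ => zpow_ne_zero _ (hx.1 i)
      · have h1 : (e (f.prod fun i n => x i ^ n) : Ω) = ∏ i ∈ f.support, (e (x i) : Ω) ^ f i := by
          rw [Finsupp.prod, map_prod]
          push_cast
          refine Finset.prod_congr rfl fun i _ => ?_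
          rw [map_zpow₀]
          rfl
        rw [h1, v.map_prod _ _ fun i _ => zpow_ne_zero _ (hne i), ← hf,
          Finsupp.linearCombination_apply, Finsupp.sum]
        refine Finset.sum_congr rfl fun i _ => ?_
        rw [v.map_zpow (hne i), zsmul_eq_mul]
    have hli' : LinearIndependent ℚ fun i => v (e (x i) : Ω) :=
      (LinearIndependent.iff_fractionRing (R := ℤ) (K := ℚ)).1 hli
    have h2 := linearIndependent_le_span' _ hli' (Set.range fun i => v (Y i)) (by
      rintro _ ⟨i, rfl⟩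
      exact hY _ (hne i))
    rw [Cardinal.mk_fin] at h2
    have h3 : Fintype.card (Set.range fun i => v (Y i)) ≤ r := by
      refine (Fintype.card_range_le _).trans ?_
      rw [Fintype.card_fin]
    have h4 : r' ≤ Fintype.card (Set.range fun i => v (Y i)) := by exact_mod_cast h2
    exact h4.trans h3
  rw [hm] at hT
  have h1 : m ≤ r' + d + δ := Nat.cast_le.1 hT
  omega

/-- The exit for the real valuations with residue field `k` and defect at most two. -/
theorem realCls_two {k : Type u} [Field k] [IsAlgClosed k]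
    (H : ∀ (Ω : Type u) [Field Ω] [Algebra k Ω] [IsAlgClosed Ω] (v : RVal Ω) (n r : ℕ),
      CtxR k v n r → 0 < r → n ≤ r + 2 → ∀ E : IntermediateField k Ω, E.FG →
        (∀ g : Ω, IsAlgebraic E g) → LUs v (algebraMap k Ω).range E.toSubfield) :
    RealCls (TwoCls k) := by
  rintro K _ _ hK V hk hR ⟨hres, hD⟩
  have h1 : Algebra.EssFiniteType k K := IntermediateField.fg_top_iff.1 hK
  obtain ⟨m, hm⟩ := Cardinal.lt_aleph0.1 (_root_.trdeg_lt_aleph0 k K)
  exact lur_of_lurV (lurV_at (m := m) V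
    (fun Ω _ _ _ v r L e hctx hr he hL halg => H Ω v m r hctx hr
      (le_of_defLE hres hD hm e hctx he) L hL halg) hK hk hR hres hm)

/-- The group of the values of `L`. -/
def valG {k Ω : Type u} [Field k] [Field Ω] [Algebra k Ω] (v : RVal Ω)
    (L : IntermediateField k Ω) : AddSubgroup ℝ where
  carrier := {a | ∃ g ∈ L, g ≠ 0 ∧ v g = a}
  add_mem' := by
    rintro a b ⟨g, hg, hg0, rfl⟩ ⟨h, hh, hh0, rfl⟩
    exact ⟨g * h, mul_mem hg hh, mul_ne_zero hg0 hh0, v.map_mul hg0 hh0⟩
  zero_mem' := ⟨1, one_mem _, one_ne_zero, v.map_one⟩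
  neg_mem' := by
    rintro a ⟨g, hg, hg0, rfl⟩
    exact ⟨g⁻¹, inv_mem hg, inv_ne_zero hg0, v.map_inv hg0⟩

theorem valG_fg {k K : Type u} [Field k] [Field K] [Algebra k K]
    {V : ValuationSubring K} {Ω : Type u} [Field Ω] [Algebra k Ω] {v : RVal Ω}
    {L : IntermediateField k Ω} (e : K ≃ₐ[k] L)
    (he : ∀ g : K, g ≠ 0 → (g ∈ V ↔ 0 ≤ v (e g : Ω))) (h : AddGroup.FG (VGrp V)) :
    (valG v L).FG := by
  have hne : ∀ x : Kˣ, (e (x : K) : Ω) ≠ 0 := by
    intro x h0
    apply x.ne_zero
    apply e.injective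
    rw [map_zero]
    exact Subtype.ext h0
  let f : Kˣ →* Multiplicative ℝ :=
    { toFun := fun x => Multiplicative.ofAdd (v (e (x : K) : Ω))
      map_one' := by
        rw [Units.val_one, map_one]
        change Multiplicative.ofAdd (v (1 : Ω)) = 1
        rw [v.map_one]
        rfl
      map_mul' := fun x y => by
        have h1 : (e ((x * y : Kˣ) : K) : Ω) = (e (x : K) : Ω) * (e (y : K) : Ω) := by
          rw [Units.val_mul, map_mul]
          rfl
        rw [h1, v.map_mul (hne x) (hne y), ofAdd_add] }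
  have hf : V.unitGroup ≤ f.ker := by
    intro x hx
    rw [ValuationSubring.mem_unitGroup_iff] at hx
    rw [MonoidHom.mem_ker]
    have h1 : 0 ≤ v (e (x : K) : Ω) :=
      (he _ x.ne_zero).1 ((V.valuation_le_one_iff _).1 hx.le)
    have h2 : 0 ≤ v (e ((x : K)⁻¹) : Ω) := by
      refine (he _ (inv_ne_zero x.ne_zero)).1 ((V.valuation_le_one_iff _).1 ?_)
      rw [map_inv₀, hx, inv_one]
    have h3 : (e ((x : K)⁻¹) : Ω) = (e (x : K) : Ω)⁻¹ := by
      rw [map_inv₀]
      rfl
    rw [h3, v.map_inv (hne x)] at h2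
    change Multiplicative.ofAdd (v (e (x : K) : Ω)) = 1
    have h4 : v (e (x : K) : Ω) = 0 := by linarith
    rw [h4]
    rfl
  let g : (Kˣ ⧸ V.unitGroup) →* Multiplicative ℝ := QuotientGroup.lift _ f hf
  let g' : VGrp V →+ ℝ := MonoidHom.toAdditiveLeft g
  have hg : valG v L = AddMonoidHom.range (G := VGrp V) (N := ℝ) g' := by
    ext a
    constructor
    · rintro ⟨y, hy, hy0, rfl⟩
      obtain ⟨x, hx⟩ := e.surjective ⟨y, hy⟩
      have hx0 : x ≠ 0 := by
        rintro rfl
        rw [map_zero] at hx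
        exact hy0 (congrArg Subtype.val hx).symm
      refine ⟨Additive.ofMul (QuotientGroup.mk' _ (Units.mk0 x hx0)), ?_⟩
      change v (e x : Ω) = v y
      rw [hx]
    · rintro ⟨q, rfl⟩
      obtain ⟨x, hx⟩ := QuotientGroup.mk'_surjective _ (Additive.toMul q)
      refine ⟨(e (x : K) : Ω), (e (x : K)).2, hne x, ?_⟩
      have hq : q = Additive.ofMul (QuotientGroup.mk' _ x) := by rw [hx]; rfl
      rw [hq]
      rfl
  rw [hg]
  have _ : AddGroup.FG (VGrp V) := h
  exact (AddGroup.fg_iff_addSubgroup_fg _).1 (AddGroup.fg_range (G := VGrp V) (G' := ℝ) g')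

/-- The exit for the real valuations with residue field `k`, defect at most two and finitely
generated value group. -/
theorem realCls_twoFG {k : Type u} [Field k] [IsAlgClosed k]
    (H : ∀ (Ω : Type u) [Field Ω] [Algebra k Ω] [IsAlgClosed Ω] (v : RVal Ω) (n r : ℕ),
      CtxR k v n r → 0 < r → n ≤ r + 2 → ∀ E : IntermediateField k Ω, E.FG →
        (∀ g : Ω, IsAlgebraic E g) → (valG v E).FG →
          LUs v (algebraMap k Ω).range E.toSubfield) :
    RealCls (TwoFG k) := by
  rintro K _ _ hK V hk hR ⟨hres, hD, hfg⟩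
  have h1 : Algebra.EssFiniteType k K := IntermediateField.fg_top_iff.1 hK
  obtain ⟨m, hm⟩ := Cardinal.lt_aleph0.1 (_root_.trdeg_lt_aleph0 k K)
  exact lur_of_lurV (lurV_at (m := m) V
    (fun Ω _ _ _ v r L e hctx hr he hL halg => H Ω v m r hctx hr
      (le_of_defLE hres hD hm e hctx he) L hL halg (valG_fg e he hfg)) hK hk hR hres hm)

/-- The context of `Lib/TW` from the one of `Lib/TA`. -/
theorem ctx_of_ctxR {k Ω : Type u} [Field k] [Field Ω] [Algebra k Ω] {v : RVal Ω} {n r : ℕ}
    (h : CtxR k v n r) (hr : 0 < r) : Ctx k v r where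
  triv := h.triv
  res := h.res
  rpos := hr
  rank := h.rank

end Pool.Agent.TW
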