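import Mathlib

/-!
# TANK W, block F of the blueprint for `n - r = 2`: polynomials over Laurent polynomials

`LL k Γ` are the Laurent polynomials; `cf φ l g` is the coefficient of `x^g Y^l` in `φ`. Operators
`∑ c_j x^(λ_j) Fr^j`; the reduction of polynomials modulo the values of a family of operators with
disjoint top classes.
-/

set_option autoImplicit false

open Polynomial

namespace Pool.Agent.TW.Core

/-- Laurent polynomials -/
abbrev LL (k Γ : Type*) [Field k] := AddMonoidAlgebra k Γ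

section Basic

variable {k Γ : Type*} [Field k] [AddCommGroup Γ]

/-- the coefficient of `x^g Y^l` -/
noncomputable def cf (φ : (LL k Γ)[X]) (l : ℕ) (g : Γ) : k := (φ.coeff l).coeff g

/-- the monomial `c x^g Y^l` -/
noncomputable def mn (l : ℕ) (g : Γ) (c : k) : (LL k Γ)[X] := monomial l (AddMonoidAlgebra.single g c)

@[simp] theorem cf_zero (l : ℕ) (g : Γ) : cf (0 : (LL k Γ)[X]) l g = 0 := rfl

theorem cf_add (φ ψ : (LL k Γ)[X]) (l : ℕ) (g : Γ) : cf (φ + ψ) l g = cf φ l g + cf ψ l g := by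
  rw [cf, coeff_add]; rfl

theorem cf_neg (φ : (LL k Γ)[X]) (l : ℕ) (g : Γ) : cf (-φ) l g = - cf φ l g := by
  rw [cf, coeff_neg]; rfl

theorem cf_sub (φ ψ : (LL k Γ)[X]) (l : ℕ) (g : Γ) : cf (φ - ψ) l g = cf φ l g - cf ψ l g := by
  rw [cf, coeff_sub]; rfl

theorem cf_sum {ι : Type*} (s : Finset ι) (f : ι → (LL k Γ)[X]) (l : ℕ) (g : Γ) :
    cf (∑ i ∈ s, f i) l g = ∑ i ∈ s, cf (f i) l g := by
  classical
  induction s using Finset.induction_on with
  | empty => simp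
  | insert a s ha ih => rw [Finset.sum_insert ha, Finset.sum_insert ha, cf_add, ih]

theorem cf_mn [DecidableEq Γ] (l l' : ℕ) (g g' : Γ) (c : k) :
    cf (mn l g c) l' g' = if l = l' ∧ g = g' then c else 0 := by
  rw [cf, mn, coeff_monomial]
  by_cases h : l = l'
  · rw [if_pos h, AddMonoidAlgebra.coeff_single, Finsupp.single_apply]
    simp [h]
  · rw [if_neg h]
    simp [h]

theorem cf_mn_self (l : ℕ) (g : Γ) (c : k) : cf (mn l g c) l g = c := by
  classical
  rw [cf_mn, if_pos ⟨rfl, rfl⟩]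

theorem cf_mn_ne {l l' : ℕ} {g g' : Γ} {c : k} (h : cf (mn l g c) l' g' ≠ 0) : l = l' ∧ g = g' := by
  classical
  rw [cf_mn] at h
  by_contra h'
  exact h (if_neg h')

theorem cf_ext {φ ψ : (LL k Γ)[X]} (h : ∀ l g, cf φ l g = cf ψ l g) : φ = ψ := by
  ext l g
  exact h l g

theorem mn_zero (l : ℕ) (g : Γ) : mn l g (0 : k) = 0 := by
  rw [mn, AddMonoidAlgebra.single_zero, monomial_zero_right]

theorem mn_mul (l l' : ℕ) (g g' : Γ) (c c' : k) :
    mn l g c * mn l' g' c' = mn (l + l') (g + g') (c * c') := by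
  rw [mn, mn, monomial_mul_monomial, AddMonoidAlgebra.single_mul_single, mn]

theorem mn_pow (l : ℕ) (g : Γ) (c : k) (n : ℕ) : mn l g c ^ n = mn (n * l) (n • g) (c ^ n) := by
  rw [mn, monomial_pow, AddMonoidAlgebra.single_pow, mn, mul_comm]

theorem C_single (g : Γ) (c : k) : C (AddMonoidAlgebra.single g c) = mn 0 g c := rfl

/-- All monomials of `φ` satisfy `P`. -/
def Sp (P : ℕ → Γ → Prop) (φ : (LL k Γ)[X]) : Prop := ∀ l g, cf φ l g ≠ 0 → P l g

variable {P P' : ℕ → Γ → Prop} {φ ψ : (LL k Γ)[X]}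

theorem Sp.mono (h : Sp P φ) (hP : ∀ l g, P l g → P' l g) : Sp P' φ := fun l g hlg =>
  hP l g (h l g hlg)

theorem Sp.zero : Sp P (0 : (LL k Γ)[X]) := fun _ _ h => absurd rfl h

theorem Sp.add (h : Sp P φ) (h' : Sp P ψ) : Sp P (φ + ψ) := by
  intro l g hlg
  rw [cf_add] at hlg
  by_cases h1 : cf φ l g = 0
  · exact h' l g fun h2 => hlg (by rw [h1, h2, add_zero])
  · exact h l g h1

theorem Sp.neg (h : Sp P φ) : Sp P (-φ) := by
  intro l g hlg
  rw [cf_neg, neg_ne_zero] at hlg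
  exact h l g hlg

theorem Sp.sub (h : Sp P φ) (h' : Sp P ψ) : Sp P (φ - ψ) := by
  rw [sub_eq_add_neg]
  exact h.add h'.neg

theorem Sp.sum {ι : Type*} (s : Finset ι) {f : ι → (LL k Γ)[X]} (h : ∀ i ∈ s, Sp P (f i)) :
    Sp P (∑ i ∈ s, f i) := by
  classical
  induction s using Finset.induction_on with
  | empty => exact Sp.zero
  | insert a s ha ih =>
    rw [Finset.sum_insert ha]
    exact (h a (Finset.mem_insert_self a s)).add (ih fun i hi => h i (Finset.mem_insert_of_mem hi))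

theorem Sp.of_mn {l : ℕ} {g : Γ} {c : k} (h : c ≠ 0 → P l g) : Sp P (mn l g c) := by
  intro l' g' h'
  obtain ⟨rfl, rfl⟩ := cf_mn_ne h'
  exact h fun h0 => h' (by rw [h0, mn_zero, cf_zero])

theorem Sp.top : Sp (fun _ _ => True) φ := fun _ _ _ => trivial

omit [AddCommGroup Γ] in
/-- `a` is the sum of its monomials -/
theorem sum_single (a : LL k Γ) :
    a = ∑ g ∈ a.coeff.support, AddMonoidAlgebra.single g (a.coeff g) :=
  (AddMonoidAlgebra.sum_coeff_single a).symm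

theorem eq_sum_mn (φ : (LL k Γ)[X]) :
    φ = ∑ l ∈ φ.support, ∑ g ∈ (φ.coeff l).coeff.support, mn l g (cf φ l g) := by
  conv_lhs => rw [φ.as_sum_support]
  refine Finset.sum_congr rfl fun l _ => ?_
  conv_lhs => rw [sum_single (φ.coeff l)]
  rw [map_sum]
  rfl

theorem sum_ind {T : (LL k Γ)[X] → Prop} (h0 : T 0) (hadd : ∀ φ ψ, T φ → T ψ → T (φ + ψ))
    {ι : Type*} (s : Finset ι) (f : ι → (LL k Γ)[X]) (hf : ∀ i ∈ s, T (f i)) :
    T (∑ i ∈ s, f i) := by
  classical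
  induction s using Finset.induction_on with
  | empty => exact h0
  | insert a s ha ih =>
    rw [Finset.sum_insert ha]
    exact hadd _ _ (hf a (Finset.mem_insert_self a s))
      (ih fun i hi => hf i (Finset.mem_insert_of_mem hi))

/-- Induction on monomials -/
theorem Sp.induction {T : (LL k Γ)[X] → Prop} (h : Sp P φ) (h0 : T 0)
    (hadd : ∀ φ ψ, T φ → T ψ → T (φ + ψ)) (hmn : ∀ l g c, c ≠ 0 → P l g → T (mn l g c)) : T φ := by
  rw [eq_sum_mn φ]
  refine sum_ind h0 hadd _ _ fun l _ => sum_ind h0 hadd _ _ fun g hg => ?_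
  have hne : cf φ l g ≠ 0 := Finsupp.mem_support_iff.1 hg
  exact hmn _ _ _ hne (h l g hne)

end Basic

section Frob

variable {k Γ : Type*} [Field k] [AddCommGroup Γ] [IsAddTorsionFree Γ] (p : ℕ) [Fact p.Prime]
  [CharP k p]

instance : CharP (LL k Γ) p := charP_of_injective_algebraMap (algebraMap k (LL k Γ)).injective p

omit [IsAddTorsionFree Γ] in
/-- `p^j`-th powers -/
theorem pow_eq_sum (φ : (LL k Γ)[X]) (j : ℕ) :
    φ ^ p ^ j = ∑ l ∈ φ.support, ∑ g ∈ (φ.coeff l).coeff.support,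
      mn (p ^ j * l) (p ^ j • g) (cf φ l g ^ p ^ j) := by
  conv_lhs => rw [eq_sum_mn φ]
  rw [sum_pow_char_pow]
  refine Finset.sum_congr rfl fun l _ => ?_
  rw [sum_pow_char_pow]
  exact Finset.sum_congr rfl fun g _ => mn_pow _ _ _ _

omit [IsAddTorsionFree Γ] in
theorem cf_pow_ne {φ : (LL k Γ)[X]} {j l : ℕ} {g : Γ} (h : cf (φ ^ p ^ j) l g ≠ 0) :
    ∃ l' g', l = p ^ j * l' ∧ g = p ^ j • g' ∧ cf φ l' g' ≠ 0 := by
  rw [pow_eq_sum, cf_sum] at h
  obtain ⟨l', _, h1⟩ := Finset.exists_ne_zero_of_sum_ne_zero h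
  rw [cf_sum] at h1
  obtain ⟨g', hg', h2⟩ := Finset.exists_ne_zero_of_sum_ne_zero h1
  obtain ⟨rfl, rfl⟩ := cf_mn_ne h2
  exact ⟨l', g', rfl, rfl, Finsupp.mem_support_iff.1 hg'⟩

theorem cf_pow (φ : (LL k Γ)[X]) (j l : ℕ) (g : Γ) :
    cf (φ ^ p ^ j) (p ^ j * l) (p ^ j • g) = cf φ l g ^ p ^ j := by
  classical
  have hp : p ^ j ≠ 0 := pow_ne_zero _ (Fact.out : p.Prime).ne_zero
  have h : ∀ φ : (LL k Γ)[X], Sp (fun _ _ => True) φ →
      cf (φ ^ p ^ j) (p ^ j * l) (p ^ j • g) = cf φ l g ^ p ^ j := by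
    intro φ hφ
    refine hφ.induction (T := fun φ => cf (φ ^ p ^ j) (p ^ j * l) (p ^ j • g) = cf φ l g ^ p ^ j)
      ?_ ?_ ?_
    · rw [zero_pow hp, cf_zero, cf_zero, zero_pow hp]
    · intro φ ψ h1 h2
      rw [add_pow_char_pow, cf_add, cf_add, h1, h2, add_pow_char_pow]
    · intro l' g' c _ _
      rw [mn_pow, cf_mn, cf_mn]
      by_cases h3 : l' = l ∧ g' = g
      · rw [if_pos h3, if_pos ⟨by rw [h3.1], by rw [h3.2]⟩]
      · rw [if_neg h3, if_neg, zero_pow hp]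
        rintro ⟨h4, h5⟩
        exact h3 ⟨Nat.eq_of_mul_eq_mul_left (Nat.pos_of_ne_zero hp) h4,
          nsmul_right_injective hp h5⟩
  exact h φ Sp.top

end Frob

end Pool.Agent.TW.Core
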