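import Pool.Agent.Lib.TW.F1

/-!
# TANK W, block F: reduction modulo the values of a family of operators
-/

set_option autoImplicit false

open Polynomial

namespace Pool.Agent.TW.Core

variable {k Γ : Type*} [Field k] [AddCommGroup Γ]

/-- An operator `∑_{j ≤ J} c_j x^(λ_j) Fr^j` with `c_J ≠ 0`. -/
structure Op (k Γ : Type*) [Field k] where
  /-- the degree -/
  J : ℕ
  /-- the coefficients -/
  c : ℕ → k
  /-- the exponents -/
  lam : ℕ → Γ
  top : c J ≠ 0

/-- the values of the operator -/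
noncomputable def Op.ap (p : ℕ) (Q : Op k Γ) (φ : (LL k Γ)[X]) : (LL k Γ)[X] :=
  ∑ j ∈ Finset.range (Q.J + 1), mn 0 (Q.lam j) (Q.c j) * φ ^ p ^ j

theorem cf_mn_mul (g : Γ) (c : k) (φ : (LL k Γ)[X]) (l : ℕ) (h : Γ) :
    cf (mn 0 g c * φ) l h = c * cf φ l (h - g) := by
  rw [mn, monomial_zero_left, cf, coeff_C_mul, AddMonoidAlgebra.coeff_single_mul_apply, cf,
    neg_add_eq_sub]

theorem cf_C (a : LL k Γ) {l : ℕ} (hl : l ≠ 0) (g : Γ) : cf (C a) l g = 0 := by
  rw [cf, coeff_C, if_neg hl]; rfl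

section Fam

variable (p : ℕ) [Fact p.Prime] [CharP k p]

theorem Op.ap_add (Q : Op k Γ) (φ ψ : (LL k Γ)[X]) : Q.ap p (φ + ψ) = Q.ap p φ + Q.ap p ψ := by
  simp only [Op.ap, add_pow_char_pow, mul_add, Finset.sum_add_distrib]

theorem Op.ap_zero (Q : Op k Γ) : Q.ap p 0 = 0 := by
  have h := Q.ap_add p 0 0
  rw [add_zero] at h
  exact left_eq_add.1 h

theorem Op.ap_neg (Q : Op k Γ) (φ : (LL k Γ)[X]) : Q.ap p (-φ) = - Q.ap p φ := by
  have h := Q.ap_add p (-φ) φ
  rw [neg_add_cancel, Q.ap_zero p] at h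
  exact eq_neg_of_add_eq_zero_left h.symm

omit [Fact p.Prime] [CharP k p] in
theorem Op.ap_mn (Q : Op k Γ) (m : ℕ) (d : Γ) (c : k) :
    Q.ap p (mn m d c) = ∑ j ∈ Finset.range (Q.J + 1),
      mn (p ^ j * m) (Q.lam j + p ^ j • d) (Q.c j * c ^ p ^ j) := by
  rw [Op.ap]
  refine Finset.sum_congr rfl fun j _ => ?_
  rw [mn_pow, mn_mul, zero_add]

variable {ι : Type} [Fintype ι] (Q : ι → Op k Γ)

/-- `φ = ∑ Q_i(f_i) + a` -/
def InS (φ : (LL k Γ)[X]) : Prop :=
  ∃ (f : ι → (LL k Γ)[X]) (a : LL k Γ), φ = ∑ i, (Q i).ap p (f i) + C a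

variable {p Q}

theorem InS.zero : InS p Q 0 := ⟨fun _ => 0, 0, by simp [Op.ap_zero]⟩

theorem InS.add {φ ψ : (LL k Γ)[X]} (h : InS p Q φ) (h' : InS p Q ψ) : InS p Q (φ + ψ) := by
  obtain ⟨f, a, rfl⟩ := h
  obtain ⟨f', a', rfl⟩ := h'
  refine ⟨fun i => f i + f' i, a + a', ?_⟩
  simp only [Op.ap_add, Finset.sum_add_distrib, C_add]
  ring

theorem InS.neg {φ : (LL k Γ)[X]} (h : InS p Q φ) : InS p Q (-φ) := by
  obtain ⟨f, a, rfl⟩ := h
  refine ⟨fun i => - f i, - a, ?_⟩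
  simp only [Op.ap_neg, Finset.sum_neg_distrib, C_neg]
  ring

theorem InS.sub {φ ψ : (LL k Γ)[X]} (h : InS p Q φ) (h' : InS p Q ψ) : InS p Q (φ - ψ) := by
  rw [sub_eq_add_neg]
  exact h.add h'.neg

theorem InS.C (a : LL k Γ) : InS p Q (C a) := ⟨fun _ => 0, a, by simp [Op.ap_zero]⟩

theorem InS.ap (i : ι) (φ : (LL k Γ)[X]) : InS p Q ((Q i).ap p φ) := by
  classical
  refine ⟨Pi.single i φ, 0, ?_⟩
  rw [C_0, add_zero, Finset.sum_eq_single i]
  · rw [Pi.single_eq_same]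
  · intro j _ hj
    rw [Pi.single_eq_of_ne hj, Op.ap_zero]
  · intro h
    exact absurd (Finset.mem_univ i) h

theorem InS.sum {α : Type*} (s : Finset α) {f : α → (LL k Γ)[X]} (h : ∀ i ∈ s, InS p Q (f i)) :
    InS p Q (∑ i ∈ s, f i) := sum_ind InS.zero (fun _ _ => InS.add) s f h

variable (p Q)

/-- The monomials `x^g Y^l` which are not reducible. -/
def IrM (l : ℕ) (g : Γ) : Prop :=
  l ≠ 0 ∧ ∀ i m d, ¬ (l = p ^ (Q i).J * m ∧ g = (Q i).lam (Q i).J + p ^ (Q i).J • d)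

/-- `P` is stable under reduction. -/
def RedP (P : ℕ → Γ → Prop) : Prop :=
  ∀ i m d, m ≠ 0 → P (p ^ (Q i).J * m) ((Q i).lam (Q i).J + p ^ (Q i).J • d) →
    ∀ j < (Q i).J, (Q i).c j ≠ 0 → P (p ^ j * m) ((Q i).lam j + p ^ j • d)

/-- Disjoint top classes -/
def Disj : Prop :=
  ∀ i i' d d', (Q i).lam (Q i).J + p ^ (Q i).J • d = (Q i').lam (Q i').J + p ^ (Q i').J • d' →
    i = i'

variable {p Q}

theorem irr_unique [IsAddTorsionFree Γ] (hd : Disj p Q) {φ : (LL k Γ)[X]} (h : InS p Q φ)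
    (hI : Sp (IrM p Q) φ) : φ = 0 := by
  classical
  obtain ⟨f, a, rfl⟩ := h
  have hp : 1 < p := (Fact.out : p.Prime).one_lt
  -- a nonzero term
  have term : ∀ i j l g, cf (mn 0 ((Q i).lam j) ((Q i).c j) * f i ^ p ^ j) l g ≠ 0 →
      ∃ m d, l = p ^ j * m ∧ g = (Q i).lam j + p ^ j • d ∧ cf (f i) m d ≠ 0 := by
    intro i j l g h
    rw [cf_mn_mul] at h
    obtain ⟨m, d, rfl, h1, h2⟩ := cf_pow_ne p (right_ne_zero_of_mul h)
    exact ⟨m, d, rfl, by rw [← h1]; abel, h2⟩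
  have hdeg : ∀ i m d, cf (f i) m d ≠ 0 → m ≤ (f i).natDegree := by
    intro i m d h
    refine le_natDegree_of_ne_zero fun h0 => h ?_
    rw [cf, h0]; rfl
  by_cases hall : ∀ i, (f i).natDegree = 0
  · refine cf_ext fun l g => ?_
    rw [cf_zero]
    by_contra hne
    have hl : l ≠ 0 := (hI l g hne).1
    rw [cf_add, cf_C a hl, add_zero, cf_sum] at hne
    obtain ⟨i, _, h1⟩ := Finset.exists_ne_zero_of_sum_ne_zero hne
    rw [Op.ap, cf_sum] at h1
    obtain ⟨j, _, h2⟩ := Finset.exists_ne_zero_of_sum_ne_zero h1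
    obtain ⟨m, d, h3, _, h4⟩ := term i j l g h2
    have h5 := hdeg i m d h4
    rw [hall i] at h5
    rw [Nat.le_zero.1 h5, mul_zero] at h3
    exact hl h3
  · exfalso
    push Not at hall
    obtain ⟨i1, hi1⟩ := hall
    obtain ⟨i0, _, hmax⟩ := Finset.exists_max_image Finset.univ
      (fun i => p ^ (Q i).J * (f i).natDegree) ⟨i1, Finset.mem_univ _⟩
    have hpos : ∀ j : ℕ, 0 < p ^ j := fun j => pow_pos (by omega) _
    have h0 : (f i0).natDegree ≠ 0 := by
      intro h0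
      have := hmax i1 (Finset.mem_univ _)
      rw [h0, mul_zero] at this
      exact (Nat.mul_pos (hpos _) (Nat.pos_of_ne_zero hi1)).not_ge this
    have hne : (f i0).coeff (f i0).natDegree ≠ 0 := by
      intro h
      have h' : f i0 = 0 := leadingCoeff_eq_zero.1 h
      rw [h'] at h0
      exact h0 natDegree_zero
    obtain ⟨d0, hd0⟩ : ∃ d, cf (f i0) (f i0).natDegree d ≠ 0 := by
      by_contra hcon
      push Not at hcon
      apply hne
      ext d
      exact hcon d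
    set l := p ^ (Q i0).J * (f i0).natDegree with hl
    set g := (Q i0).lam (Q i0).J + p ^ (Q i0).J • d0 with hg
    have hl0 : l ≠ 0 := (Nat.mul_pos (hpos _) (Nat.pos_of_ne_zero h0)).ne'
    have only : ∀ i j, j ≤ (Q i).J → cf (mn 0 ((Q i).lam j) ((Q i).c j) * f i ^ p ^ j) l g ≠ 0 →
        i = i0 ∧ j = (Q i).J := by
      intro i j hj h
      obtain ⟨m, d, h3, h4, h5⟩ := term i j l g h
      have h6 := hdeg i m d h5
      have h7 := hmax i (Finset.mem_univ _)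
      have hm : m ≠ 0 := by
        rintro rfl
        rw [mul_zero] at h3
        exact hl0 h3
      have hjJ : j = (Q i).J := by
        by_contra hne
        have hlt : j < (Q i).J := lt_of_le_of_ne hj hne
        have h8 : p ^ j * m < p ^ (Q i).J * (f i).natDegree := by
          calc p ^ j * m ≤ p ^ j * (f i).natDegree := Nat.mul_le_mul_left _ h6
            _ < p ^ (Q i).J * (f i).natDegree :=
              Nat.mul_lt_mul_of_pos_right (Nat.pow_lt_pow_right hp hlt) (by omega)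
        rw [← h3] at h8
        exact absurd (lt_of_lt_of_le h8 h7) (lt_irrefl _)
      refine ⟨?_, hjJ⟩
      subst hjJ
      exact hd i i0 d d0 (by rw [← h4, ← hg])
    have hval : cf (∑ i, (Q i).ap p (f i) + C a) l g =
        (Q i0).c (Q i0).J * cf (f i0) (f i0).natDegree d0 ^ p ^ (Q i0).J := by
      rw [cf_add, cf_C a hl0, add_zero, cf_sum, Finset.sum_eq_single i0]
      · rw [Op.ap, cf_sum, Finset.sum_eq_single (Q i0).J]
        · rw [cf_mn_mul, hg, add_sub_cancel_left, hl, cf_pow]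
        · intro j hj hne
          by_contra h
          exact hne (only i0 j (by have := Finset.mem_range.1 hj; omega) h).2
        · intro h
          exact absurd (Finset.mem_range.2 (Nat.lt_succ_self _)) h
      · intro i _ hi
        rw [Op.ap, cf_sum]
        refine Finset.sum_eq_zero fun j hj => ?_
        by_contra h
        exact hi (only i j (by have := Finset.mem_range.1 hj; omega) h).1
      · intro h
        exact absurd (Finset.mem_univ _) h
    have hne' : cf (∑ i, (Q i).ap p (f i) + C a) l g ≠ 0 := by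
      rw [hval]
      exact mul_ne_zero (Q i0).top (pow_ne_zero _ hd0)
    exact (hI l g hne').2 i0 _ d0 ⟨hl, hg⟩

/-- one step of the reduction -/
theorem red_step [IsAlgClosed k] (i : ι) (m : ℕ) (d : Γ) (c : k) :
    ∃ c' : k, InS p Q (mn (p ^ (Q i).J * m) ((Q i).lam (Q i).J + p ^ (Q i).J • d) c +
      ∑ j ∈ Finset.range (Q i).J, mn (p ^ j * m) ((Q i).lam j + p ^ j • d)
        ((Q i).c j * c' ^ p ^ j)) := by
  have hp : 0 < p ^ (Q i).J := pow_pos (Fact.out : p.Prime).pos _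
  obtain ⟨c', hc'⟩ := IsAlgClosed.exists_pow_nat_eq (c / (Q i).c (Q i).J) hp
  refine ⟨c', ?_⟩
  have h := InS.ap (p := p) (Q := Q) i (mn m d c')
  rw [Op.ap_mn, Finset.sum_range_succ, hc', mul_div_cancel₀ _ (Q i).top, add_comm] at h
  exact h

theorem exists_nf [IsAlgClosed k] {P : ℕ → Γ → Prop} (hP : RedP p Q P) {φ : (LL k Γ)[X]}
    (hφ : Sp P φ) : ∃ ν, Sp P ν ∧ Sp (IrM p Q) ν ∧ InS p Q (φ - ν) := by
  have hadd : ∀ φ ψ : (LL k Γ)[X], (∃ ν, Sp P ν ∧ Sp (IrM p Q) ν ∧ InS p Q (φ - ν)) →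
      (∃ ν, Sp P ν ∧ Sp (IrM p Q) ν ∧ InS p Q (ψ - ν)) →
      ∃ ν, Sp P ν ∧ Sp (IrM p Q) ν ∧ InS p Q (φ + ψ - ν) := by
    rintro φ ψ ⟨ν, h1, h2, h3⟩ ⟨ν', h1', h2', h3'⟩
    refine ⟨ν + ν', h1.add h1', h2.add h2', ?_⟩
    have h := h3.add h3'
    rwa [show φ - ν + (ψ - ν') = φ + ψ - (ν + ν') by ring] at h
  have h0 : ∃ ν, Sp P ν ∧ Sp (IrM p Q) ν ∧ InS p Q (0 - ν) :=
    ⟨0, Sp.zero, Sp.zero, by rw [sub_zero]; exact InS.zero⟩
  refine hφ.induction (T := fun φ => ∃ ν, Sp P ν ∧ Sp (IrM p Q) ν ∧ InS p Q (φ - ν)) h0 hadd ?_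
  intro l
  induction l using Nat.strong_induction_on with
  | _ l ih =>
    intro g c hc hPl
    by_cases hl : l = 0
    · subst hl
      exact ⟨0, Sp.zero, Sp.zero, by rw [sub_zero]; exact InS.C _⟩
    by_cases hI : IrM p Q l g
    · exact ⟨mn l g c, Sp.of_mn fun _ => hPl, Sp.of_mn fun _ => hI, by
        rw [sub_self]; exact InS.zero⟩
    rw [IrM, not_and] at hI
    have hI' := hI hl
    push Not at hI'
    obtain ⟨i, m, d, rfl, rfl⟩ := hI'
    have hm : m ≠ 0 := by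
      rintro rfl
      exact hl (mul_zero _)
    obtain ⟨c', hc'⟩ := red_step (p := p) (Q := Q) i m d c
    obtain ⟨ν, h1, h2, h3⟩ := sum_ind
      (T := fun φ => ∃ ν, Sp P ν ∧ Sp (IrM p Q) ν ∧ InS p Q (φ - ν)) h0 hadd
      (Finset.range (Q i).J) (fun j => mn (p ^ j * m) ((Q i).lam j + p ^ j • d)
        ((Q i).c j * c' ^ p ^ j)) (by
      intro j hj
      have hj' := Finset.mem_range.1 hj
      by_cases hcj : (Q i).c j * c' ^ p ^ j = 0
      · show ∃ ν, _ ∧ _ ∧ InS p Q (mn _ _ _ - ν)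
        rw [hcj, mn_zero]
        exact h0
      · exact ih _ (Nat.mul_lt_mul_of_pos_right
          (Nat.pow_lt_pow_right (Fact.out : p.Prime).one_lt hj') (Nat.pos_of_ne_zero hm)) _ _ hcj
          (hP i m d hm hPl j hj' (left_ne_zero_of_mul hcj)))
    refine ⟨-ν, h1.neg, h2.neg, ?_⟩
    have e : ∀ a b c : (LL k Γ)[X], a + b - (b - c) = a - -c := fun _ _ _ => by ring
    have h := hc'.sub h3
    rwa [e] at h

end Fam

end Pool.Agent.TW.Core
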