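import Pool.Agent.Lib.TW.F2

/-!
# TANK W, block F: the normal form
-/

set_option autoImplicit false

open Polynomial

namespace Pool.Agent.TW.Core

variable {k Γ : Type*} [Field k] [AddCommGroup Γ] (p : ℕ) [Fact p.Prime] [CharP k p]
  {ι : Type} [Fintype ι] (Q : ι → Op k Γ) [IsAlgClosed k]

/-- the irreducible representative modulo `S` -/
noncomputable def nf (φ : (LL k Γ)[X]) : (LL k Γ)[X] :=
  Classical.choose (exists_nf (p := p) (Q := Q) (P := fun _ _ => True)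
    (fun _ _ _ _ _ _ _ _ => trivial) (Sp.top (φ := φ)))

theorem nf_irr (φ : (LL k Γ)[X]) : Sp (IrM p Q) (nf p Q φ) :=
  (Classical.choose_spec (exists_nf (p := p) (Q := Q) (P := fun _ _ => True)
    (fun _ _ _ _ _ _ _ _ => trivial) (Sp.top (φ := φ)))).2.1

theorem sub_nf (φ : (LL k Γ)[X]) : InS p Q (φ - nf p Q φ) :=
  (Classical.choose_spec (exists_nf (p := p) (Q := Q) (P := fun _ _ => True)
    (fun _ _ _ _ _ _ _ _ => trivial) (Sp.top (φ := φ)))).2.2

variable [IsAddTorsionFree Γ] {p Q} (hd : Disj p Q)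

include hd

theorem nf_eq {φ ν : (LL k Γ)[X]} (hI : Sp (IrM p Q) ν) (h : InS p Q (φ - ν)) :
    nf p Q φ = ν := by
  have h1 : InS p Q (nf p Q φ - ν) := by
    have h2 := h.sub (sub_nf p Q φ)
    rwa [sub_sub_sub_cancel_left] at h2
  exact sub_eq_zero.1 (irr_unique hd h1 ((nf_irr p Q φ).sub hI))

theorem nf_zero : nf p Q (0 : (LL k Γ)[X]) = 0 :=
  nf_eq hd Sp.zero (by rw [sub_zero]; exact InS.zero)

theorem nf_of_inS {φ : (LL k Γ)[X]} (h : InS p Q φ) : nf p Q φ = 0 :=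
  nf_eq hd Sp.zero (by rw [sub_zero]; exact h)

theorem nf_add (φ ψ : (LL k Γ)[X]) : nf p Q (φ + ψ) = nf p Q φ + nf p Q ψ := by
  refine nf_eq hd ((nf_irr p Q φ).add (nf_irr p Q ψ)) ?_
  have h := (sub_nf p Q φ).add (sub_nf p Q ψ)
  rwa [sub_add_sub_comm] at h

theorem nf_sub (φ ψ : (LL k Γ)[X]) : nf p Q (φ - ψ) = nf p Q φ - nf p Q ψ := by
  refine nf_eq hd ((nf_irr p Q φ).sub (nf_irr p Q ψ)) ?_
  have h := (sub_nf p Q φ).sub (sub_nf p Q ψ)
  rwa [sub_sub_sub_comm] at h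

theorem nf_sum {α : Type*} (s : Finset α) (f : α → (LL k Γ)[X]) :
    nf p Q (∑ i ∈ s, f i) = ∑ i ∈ s, nf p Q (f i) := by
  classical
  induction s using Finset.induction_on with
  | empty => rw [Finset.sum_empty, Finset.sum_empty, nf_zero hd]
  | insert a s ha ih => rw [Finset.sum_insert ha, Finset.sum_insert ha, nf_add hd, ih]

theorem nf_congr {φ ψ : (LL k Γ)[X]} (h : InS p Q (φ - ψ)) : nf p Q φ = nf p Q ψ := by
  have h1 := nf_of_inS hd h
  rw [nf_sub hd] at h1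
  exact sub_eq_zero.1 h1

/-- Control of the monomials of the normal form. -/
theorem nf_sp {P : ℕ → Γ → Prop} (hP : RedP p Q P) {φ : (LL k Γ)[X]} (h : Sp P φ) :
    Sp P (nf p Q φ) := by
  obtain ⟨ν, h1, h2, h3⟩ := exists_nf hP h
  rw [nf_eq hd h2 h3]
  exact h1

omit hd

omit [IsAlgClosed k] [IsAddTorsionFree Γ] [Fintype ι] [CharP k p] in
/-- the degree does not increase -/
theorem redP_deg (D : ℕ) : RedP p Q (fun l _ => l ≤ D) := by
  intro i m d _ h j hj _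
  exact (Nat.mul_le_mul_right m (Nat.pow_le_pow_right (Fact.out : p.Prime).pos hj.le)).trans h

include hd in
/-- The reduction with two families: `P` for the monomials, `P'` for the results of the reduction.
Outside `P'` the normal form is the irreducible part. -/
theorem nf_step {P P' : ℕ → Γ → Prop} (hP' : RedP p Q P')
    (hPP' : ∀ i m d, m ≠ 0 → P (p ^ (Q i).J * m) ((Q i).lam (Q i).J + p ^ (Q i).J • d) →
      ∀ j < (Q i).J, (Q i).c j ≠ 0 → P' (p ^ j * m) ((Q i).lam j + p ^ j • d))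
    {φ : (LL k Γ)[X]} (h : Sp P φ) {l : ℕ} {g : Γ} (hI : IrM p Q l g) (hn : ¬ P' l g) :
    cf (nf p Q φ) l g = cf φ l g := by
  classical
  refine h.induction (T := fun φ => cf (nf p Q φ) l g = cf φ l g) ?_ ?_ ?_
  · rw [nf_zero hd]
  · intro φ ψ h1 h2
    rw [nf_add hd, cf_add, cf_add, h1, h2]
  · intro l' g' c hc hP
    by_cases hl' : l' = 0
    · subst hl'
      have h0 : InS p Q (mn 0 g' c) := InS.C _
      rw [nf_of_inS hd h0, cf_zero, cf_mn, if_neg]
      rintro ⟨h3, _⟩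
      exact hI.1 h3.symm
    by_cases hI' : IrM p Q l' g'
    · rw [nf_eq hd (ν := mn l' g' c) (Sp.of_mn fun _ => hI') (by rw [sub_self]; exact InS.zero)]
    have hI'' : ∃ i m d, l' = p ^ (Q i).J * m ∧ g' = (Q i).lam (Q i).J + p ^ (Q i).J • d := by
      rw [IrM, not_and] at hI'
      have := hI' hl'
      push Not at this
      exact this
    have h0 : cf (mn l' g' c) l g = 0 := by
      rw [cf_mn, if_neg]
      rintro ⟨rfl, rfl⟩
      exact hI' hI
    rw [h0]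
    obtain ⟨i, m, d, rfl, rfl⟩ := hI''
    have hm : m ≠ 0 := by
      rintro rfl
      exact hl' (mul_zero _)
    obtain ⟨c', hc'⟩ := red_step (p := p) (Q := Q) i m d c
    have h1 : nf p Q (mn (p ^ (Q i).J * m) ((Q i).lam (Q i).J + p ^ (Q i).J • d) c) =
        nf p Q (- ∑ j ∈ Finset.range (Q i).J, mn (p ^ j * m) ((Q i).lam j + p ^ j • d)
        ((Q i).c j * c' ^ p ^ j)) := nf_congr hd (by rwa [sub_neg_eq_add])
    by_contra hne
    refine hn (nf_sp hd hP' (φ := - ∑ j ∈ Finset.range (Q i).J, mn (p ^ j * m)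
      ((Q i).lam j + p ^ j • d) ((Q i).c j * c' ^ p ^ j)) (Sp.neg (Sp.sum _ fun j hj => ?_)) l g
      (by rw [← h1]; exact hne))
    exact Sp.of_mn fun hcj => hPP' i m d hm hP j (Finset.mem_range.1 hj) (left_ne_zero_of_mul hcj)

/-! ### Translations -/

section Taylor

omit [IsAlgClosed k] [IsAddTorsionFree Γ] [Fact p.Prime] [CharP k p] in
theorem ap_map {F : (LL k Γ)[X] →+* (LL k Γ)[X]} (hF : ∀ a, F (C a) = C a) (T : Op k Γ)
    (φ : (LL k Γ)[X]) : F (T.ap p φ) = T.ap p (F φ) := by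
  rw [Op.ap, map_sum, Op.ap]
  refine Finset.sum_congr rfl fun j _ => ?_
  rw [map_mul, map_pow, mn, monomial_zero_left, hF]

omit [IsAlgClosed k] [IsAddTorsionFree Γ] [Fact p.Prime] [CharP k p] in
theorem InS.map {F : (LL k Γ)[X] →+* (LL k Γ)[X]}
    (hF : ∀ a, F (Polynomial.C a) = Polynomial.C a) {φ : (LL k Γ)[X]}
    (h : InS p Q φ) : InS p Q (F φ) := by
  obtain ⟨f, a, rfl⟩ := h
  refine ⟨fun i => F (f i), a, ?_⟩
  rw [map_add, map_sum, hF]
  congr 1
  exact Finset.sum_congr rfl fun i _ => ap_map hF _ _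

omit [IsAlgClosed k] [IsAddTorsionFree Γ] [Fact p.Prime] [CharP k p] in
theorem InS.taylor {φ : (LL k Γ)[X]} (h : InS p Q φ) (a : LL k Γ) :
    InS p Q (Polynomial.taylor a φ) :=
  h.map (F := (taylorAlgHom a).toRingHom) fun b => taylor_C a b

end Taylor

/-! ### Scaling `Y ↦ μ x^γ Y` -/

section Scale

/-- `Y ↦ μ x^γ Y` -/
noncomputable def scl (γ : Γ) (μ : k) : (LL k Γ)[X] →+* (LL k Γ)[X] :=
  compRingHom (C (AddMonoidAlgebra.single γ μ) * X)

omit [IsAlgClosed k] [IsAddTorsionFree Γ] in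
theorem scl_C (γ : Γ) (μ : k) (a : LL k Γ) : scl γ μ (C a) = C a := by
  rw [scl, coe_compRingHom_apply, C_comp]

omit [IsAlgClosed k] [IsAddTorsionFree Γ] in
theorem scl_monomial (γ : Γ) (μ : k) (l : ℕ) (a : LL k Γ) :
    scl γ μ (monomial l a) = monomial l (AddMonoidAlgebra.single γ μ ^ l * a) := by
  rw [scl, coe_compRingHom_apply, monomial_comp, mul_pow, ← C_pow, ← mul_assoc, ← C_mul,
    ← C_mul_X_pow_eq_monomial, mul_comm a]

omit [IsAlgClosed k] [IsAddTorsionFree Γ] in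
theorem scl_coeff (γ : Γ) (μ : k) (φ : (LL k Γ)[X]) (l : ℕ) :
    (scl γ μ φ).coeff l = AddMonoidAlgebra.single γ μ ^ l * φ.coeff l := by
  induction φ using Polynomial.induction_on' with
  | add φ ψ h1 h2 => rw [map_add, coeff_add, coeff_add, h1, h2, mul_add]
  | monomial m a =>
    rw [scl_monomial, coeff_monomial, coeff_monomial]
    split_ifs with h
    · rw [h]
    · rw [mul_zero]

omit [IsAlgClosed k] [IsAddTorsionFree Γ] in
theorem cf_scl (γ : Γ) (μ : k) (φ : (LL k Γ)[X]) (l : ℕ) (g : Γ) :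
    cf (scl γ μ φ) l g = μ ^ l * cf φ l (g - l • γ) := by
  rw [cf, scl_coeff, AddMonoidAlgebra.single_pow, AddMonoidAlgebra.coeff_single_mul_apply, cf,
    neg_add_eq_sub]

omit [IsAlgClosed k] [IsAddTorsionFree Γ] [Fintype ι] [Fact p.Prime] [CharP k p] in
theorem scl_irr {φ : (LL k Γ)[X]} (h : Sp (IrM p Q) φ) (γ : Γ) (μ : k) :
    Sp (IrM p Q) (scl γ μ φ) := by
  intro l g hlg
  rw [cf_scl] at hlg
  obtain ⟨h1, h2⟩ := h l _ (right_ne_zero_of_mul hlg)
  refine ⟨h1, ?_⟩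
  rintro i m d ⟨rfl, rfl⟩
  refine h2 i m (d - m • γ) ⟨rfl, ?_⟩
  rw [smul_sub, mul_smul, add_sub_assoc]

include hd in
theorem nf_scl (γ : Γ) (μ : k) (φ : (LL k Γ)[X]) :
    nf p Q (scl γ μ φ) = scl γ μ (nf p Q φ) := by
  refine nf_eq hd (scl_irr (nf_irr p Q φ) γ μ) ?_
  rw [← map_sub]
  exact (sub_nf p Q φ).map (scl_C γ μ)

end Scale

end Pool.Agent.TW.Core
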