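import Pool.Agent.Lib.TW.MH1

/-!
# TANK W, M2 blueprint, the Laurent level: definitions

* `LL k r`: Laurent polynomials `k[ℤ^r]`; `GeV val b f`: all exponents of `f` have value `≥ b`;
* `act Q ψ = ∑ Q_i(ψ_i)` on polynomials over `LL`;
* `LimSeq val ρ`: a sequence in `LL` which converges up to `ρ`, with the strictness of Taylor
  coefficients; `GeW y b f`: `f(y)` has value `≥ b`;
* `Crit`: the critical additive polynomials from `ρ` to `R`.
-/

set_option autoImplicit false

open Finset Polynomial Filter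

namespace Pool.Agent.TW.MH

/-- Laurent polynomials. -/
abbrev LL (k : Type*) [Field k] (r : ℕ) := AddMonoidAlgebra k (Fin r → ℤ)

section GeV

variable {k : Type*} [Field k] {r : ℕ} {val : (Fin r → ℤ) →+ ℝ}

/-- All the exponents of `f` have value `≥ b`. -/
def GeV (val : (Fin r → ℤ) →+ ℝ) (b : ℝ) (f : LL k r) : Prop :=
  ∀ g, f.coeff g ≠ 0 → b ≤ val g

theorem GeV.mono {b b' : ℝ} (hb : b' ≤ b) {f : LL k r} (h : GeV val b f) : GeV val b' f :=
  fun g hg => hb.trans (h g hg)

theorem GeV.zero {b : ℝ} : GeV val b (0 : LL k r) := fun _ hg => absurd rfl hg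

theorem coeff_add_apply (f f' : LL k r) (g : Fin r → ℤ) :
    (f + f').coeff g = f.coeff g + f'.coeff g := rfl

open Classical in
theorem coeff_single' (g g' : Fin r → ℤ) (c : k) :
    (AddMonoidAlgebra.single g c : LL k r).coeff g' = if g = g' then c else 0 :=
  Finsupp.single_apply

theorem coeff_neg_apply (f : LL k r) (g : Fin r → ℤ) : (-f).coeff g = -f.coeff g := rfl

theorem coeff_sub_apply (f f' : LL k r) (g : Fin r → ℤ) :
    (f - f').coeff g = f.coeff g - f'.coeff g := rfl

theorem GeV.add {b : ℝ} {f f' : LL k r} (h : GeV val b f) (h' : GeV val b f') :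
    GeV val b (f + f') := by
  intro g hg
  by_cases h0 : f.coeff g = 0
  · by_cases h1 : f'.coeff g = 0
    · exact absurd (by rw [coeff_add_apply, h0, h1, add_zero]) hg
    · exact h' g h1
  · exact h g h0

theorem GeV.neg {b : ℝ} {f : LL k r} (h : GeV val b f) : GeV val b (-f) := by
  intro g hg
  refine h g fun h0 => hg ?_
  rw [coeff_neg_apply, h0, neg_zero]

theorem GeV.sub {b : ℝ} {f f' : LL k r} (h : GeV val b f) (h' : GeV val b f') :
    GeV val b (f - f') := by
  rw [sub_eq_add_neg]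
  exact h.add h'.neg

theorem GeV.sum {ι : Type*} {b : ℝ} (s : Finset ι) (F : ι → LL k r)
    (h : ∀ i ∈ s, GeV val b (F i)) : GeV val b (∑ i ∈ s, F i) := by
  classical
  induction s using Finset.induction_on with
  | empty => simpa using GeV.zero
  | insert a s ha ih =>
    rw [Finset.sum_insert ha]
    exact (h a (Finset.mem_insert_self a s)).add (ih fun i hi => h i (Finset.mem_insert_of_mem hi))

theorem GeV.mul {b b' : ℝ} {f f' : LL k r} (h : GeV val b f) (h' : GeV val b' f') :
    GeV val (b + b') (f * f') := by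
  classical
  intro g hg
  rw [AddMonoidAlgebra.coeff_mul] at hg
  obtain ⟨g1, h1, h2⟩ := Finset.exists_ne_zero_of_sum_ne_zero hg
  obtain ⟨g2, h3, h4⟩ := Finset.exists_ne_zero_of_sum_ne_zero h2
  have h5 : g1 + g2 = g := by
    by_contra hne
    exact h4 (if_neg hne)
  have h6 := h g1 (Finsupp.mem_support_iff.1 h1)
  have h7 := h' g2 (Finsupp.mem_support_iff.1 h3)
  rw [← h5, map_add]
  linarith

theorem GeV.single {g : Fin r → ℤ} {c : k} {b : ℝ} (h : c ≠ 0 → b ≤ val g) :
    GeV val b (AddMonoidAlgebra.single g c : LL k r) := by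
  classical
  intro g' hg'
  rw [coeff_single'] at hg'
  by_cases hgg : g = g'
  · subst hgg
    rw [if_pos rfl] at hg'
    exact h hg'
  · rw [if_neg hgg] at hg'
    exact absurd rfl hg'

theorem GeV.one : GeV val 0 (1 : LL k r) := by
  rw [AddMonoidAlgebra.one_def]
  exact GeV.single fun _ => by rw [map_zero]

theorem GeV.pow {b : ℝ} {f : LL k r} (h : GeV val b f) (n : ℕ) : GeV val (n * b) (f ^ n) := by
  induction n with
  | zero =>
    rw [pow_zero]
    refine GeV.one.mono ?_
    simp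
  | succ n ih =>
    rw [pow_succ]
    refine (ih.mul h).mono ?_
    push_cast
    linarith

theorem GeV.natCast (n : ℕ) : GeV val 0 (n : LL k r) := by
  induction n with
  | zero => simpa using GeV.zero
  | succ n ih =>
    push_cast
    exact ih.add GeV.one

end GeV

section frobenius

variable {k : Type*} [Field k] {r : ℕ} {p : ℕ} [hp : Fact p.Prime] [CharP k p]

theorem frw_add (j : ℕ) (w w' : (Fin r → ℤ) → k) (δ : Fin r → ℤ) :
    frw p j (w + w') δ = frw p j w δ + frw p j w' δ := by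
  unfold frw
  split_ifs
  · rw [Pi.add_apply, add_pow_char_pow]
  · rw [add_zero]

omit [CharP k p] in
theorem frw_zero (j : ℕ) (δ : Fin r → ℤ) : frw p j (0 : (Fin r → ℤ) → k) δ = 0 := by
  unfold frw
  split_ifs
  · rw [Pi.zero_apply, zero_pow (pow_pos hp.out.pos j).ne']
  · rfl

instance instCharPLL : CharP (LL k r) p :=
  charP_of_injective_algebraMap (algebraMap k (LL k r)).injective p

/-- The coefficients of `f^(p^j)`. -/
theorem pow_apply (j : ℕ) (f : LL k r) (δ : Fin r → ℤ) :
    (f ^ p ^ j).coeff δ = frw p j (fun g => f.coeff g) δ := by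
  classical
  induction f using AddMonoidAlgebra.induction_linear with
  | zero =>
    rw [zero_pow (pow_pos hp.out.pos j).ne']
    exact (frw_zero j δ).symm
  | add f g hf hg =>
    rw [add_pow_char_pow, coeff_add_apply, hf, hg, ← frw_add]
    rfl
  | single g c =>
    rw [AddMonoidAlgebra.single_pow, coeff_single']
    by_cases h : p ^ j • g = δ
    · rw [if_pos h, ← h, frw_smul hp.out.pos, coeff_single', if_pos rfl]
    · rw [if_neg h]
      by_contra hne
      obtain ⟨g', h1, h2⟩ := exists_of_frw_ne (Ne.symm hne)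
      rw [h2, coeff_single'] at hne
      by_cases h3 : g = g'
      · exact h (by rw [h3, h1])
      · rw [if_neg h3, zero_pow (pow_pos hp.out.pos j).ne'] at hne
        exact hne rfl

theorem pow_apply_smul (j : ℕ) (f : LL k r) (g : Fin r → ℤ) :
    (f ^ p ^ j).coeff (p ^ j • g) = f.coeff g ^ p ^ j := by
  rw [MH.pow_apply, frw_smul hp.out.pos]

/-- The exponents of `f^(p^j)` are the multiples by `p^j` of the ones of `f`. -/
theorem exists_of_pow_apply_ne {j : ℕ} {f : LL k r} {δ : Fin r → ℤ}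
    (h : (f ^ p ^ j).coeff δ ≠ 0) : ∃ g, δ = p ^ j • g ∧ f.coeff g ≠ 0 := by
  rw [MH.pow_apply] at h
  obtain ⟨g, h1, h2⟩ := exists_of_frw_ne h
  refine ⟨g, h1, fun h3 => h ?_⟩
  rw [h2, h3, zero_pow (pow_pos hp.out.pos j).ne']

omit hp [CharP k p] in
theorem GeV.pow_p {val : (Fin r → ℤ) →+ ℝ} {b : ℝ} {f : LL k r} (h : GeV val b f) (j : ℕ) :
    GeV val (p ^ j * b) (f ^ p ^ j) := by
  refine (h.pow (p ^ j)).mono ?_
  push_cast
  exact le_rfl

/-- The coefficients of the `p^j`-th power of a polynomial. -/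
theorem coeff_pow_p (j n : ℕ) (f : (LL k r)[X]) :
    (f ^ p ^ j).coeff n = if p ^ j ∣ n then f.coeff (n / p ^ j) ^ p ^ j else 0 := by
  have h1 : f ^ p ^ j = expand (LL k r) (p ^ j) (f.map (iterateFrobenius (LL k r) p j)) := by
    rw [← map_iterateFrobenius_expand]
    rw [map_expand]
  rw [h1, coeff_expand (pow_pos hp.out.pos j)]
  split_ifs
  · rw [coeff_map, iterateFrobenius_def]
  · rfl

end frobenius

section act

variable {k : Type*} [Field k] {r m : ℕ} {p : ℕ} {val : (Fin r → ℤ) → ℝ} {Rs : Fin m → ℝ}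
  {R : ℝ}

/-- `∑ Q_i(ψ_i)`. -/
noncomputable def Ops.act (Q : Ops p k r m val Rs R) (ψ : Fin m → (LL k r)[X]) : (LL k r)[X] :=
  ∑ i, ∑ j ∈ range (Q.J i + 1),
    C (AddMonoidAlgebra.single (Q.lam i j) (Q.c i j) : LL k r) * ψ i ^ p ^ j

variable (k) in
/-- The critical additive polynomials from `ρ` to `R`: all the monomials are `c x^g Y^(p^j)` with
`val g + p^j ρ = R`. -/
def Crit (p : ℕ) (val : (Fin r → ℤ) → ℝ) (ρ R : ℝ) : AddSubgroup (LL k r)[X] where
  carrier := {f | ∀ n g, (f.coeff n).coeff g ≠ 0 → ∃ j, n = p ^ j ∧ val g + n * ρ = R}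
  add_mem' := by
    intro f f' hf hf' n g hg
    rw [coeff_add] at hg
    by_cases h0 : (f.coeff n).coeff g = 0
    · by_cases h1 : (f'.coeff n).coeff g = 0
      · exact absurd (by rw [coeff_add_apply, h0, h1, add_zero]) hg
      · exact hf' n g h1
    · exact hf n g h0
  zero_mem' := by
    intro n g hg
    rw [coeff_zero] at hg
    exact absurd rfl hg
  neg_mem' := by
    intro f hf n g hg
    refine hf n g fun h0 => hg ?_
    rw [coeff_neg, coeff_neg_apply, h0, neg_zero]

end act

section LimSeq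

variable {k : Type*} [Field k] {r : ℕ}

variable (k) in
/-- A sequence of Laurent polynomials which converges up to `ρ` (not attained); the Taylor
coefficients of the polynomials are strict. -/
structure LimSeq (val : (Fin r → ℤ) →+ ℝ) (ρ : ℝ) where
  h : ℕ → LL k r
  cauchy : ∀ b < ρ, ∃ I₀, ∀ I, I₀ ≤ I → ∀ I', I₀ ≤ I' → GeV val b (h I - h I')
  strict : ∀ (f : (LL k r)[X]) (b : ℝ), (∀ᶠ I in atTop, GeV val b (f.eval (h I))) →
    ∀ l : ℕ, ∀ᶠ I in atTop, GeV val (b - l * ρ) ((hasseDeriv l f).eval (h I))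
  ne : ∀ a : LL k r, ∃ b < ρ, ∀ᶠ I in atTop, ¬ GeV val b (h I - a)

variable {val : (Fin r → ℤ) →+ ℝ} {ρ : ℝ}

/-- `f(y)` has value `≥ b`. -/
def GeW (y : LimSeq k val ρ) (b : ℝ) (f : (LL k r)[X]) : Prop :=
  ∀ᶠ I in atTop, GeV val b (f.eval (y.h I))

variable {y : LimSeq k val ρ}

theorem GeW.mono {b b' : ℝ} (hb : b' ≤ b) {f : (LL k r)[X]} (h : GeW y b f) : GeW y b' f :=
  Filter.Eventually.mono h fun _ h' => GeV.mono hb h'

theorem GeW.add {b : ℝ} {f f' : (LL k r)[X]} (h : GeW y b f) (h' : GeW y b f') :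
    GeW y b (f + f') := by
  filter_upwards [h, h'] with I h1 h2
  rw [eval_add]
  exact h1.add h2

theorem GeW.neg {b : ℝ} {f : (LL k r)[X]} (h : GeW y b f) : GeW y b (-f) := by
  filter_upwards [h] with I h1
  rw [eval_neg]
  exact h1.neg

theorem GeW.sub {b : ℝ} {f f' : (LL k r)[X]} (h : GeW y b f) (h' : GeW y b f') :
    GeW y b (f - f') := by
  rw [sub_eq_add_neg]
  exact h.add h'.neg

theorem GeW.zero {b : ℝ} : GeW y b (0 : (LL k r)[X]) :=
  Eventually.of_forall fun _ => by rw [eval_zero]; exact GeV.zero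

theorem GeW.mul {b b' : ℝ} {f f' : (LL k r)[X]} (h : GeW y b f) (h' : GeW y b' f') :
    GeW y (b + b') (f * f') := by
  filter_upwards [h, h'] with I h1 h2
  rw [eval_mul]
  exact h1.mul h2

theorem GeW.C {b : ℝ} {a : LL k r} (h : GeV val b a) : GeW y b (Polynomial.C a) :=
  Eventually.of_forall fun _ => by rw [eval_C]; exact h

end LimSeq

end Pool.Agent.TW.MH
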