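import Pool.Agent.Lib.TW.F3
import Pool.Agent.Lib.TW.MDefs

/-!
# TANK W, block F: weights, the one parameter argument (F3, F5)
-/

set_option autoImplicit false

open Polynomial

namespace Pool.Agent.TW.Core

open Pool.Agent.TW.MH (GeV)

variable {k : Type*} [Field k] {r : ℕ} (p : ℕ) [Fact p.Prime] [CharP k p]
  {ι : Type} [Fintype ι] {Q : ι → Op k (Fin r → ℤ)} [IsAlgClosed k]
  {val : (Fin r → ℤ) →+ ℝ} {Rs : ι → ℝ} {R ρ : ℝ}

/-- The operators are homogeneous from `Rs i` to `R`. -/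
def Hom (Q : ι → Op k (Fin r → ℤ)) (val : (Fin r → ℤ) →+ ℝ) (Rs : ι → ℝ) (R : ℝ) : Prop :=
  ∀ i j, j ≤ (Q i).J → (Q i).c j ≠ 0 → val ((Q i).lam j) + p ^ j * Rs i = R

omit [Fintype ι] [IsAlgClosed k] [CharP k p] in
/-- monomials of weight `≥ R - e` -/
theorem redP_wt (hh : Hom p Q val Rs R) {e : ℝ} (he : 0 ≤ e) :
    RedP p Q (fun l g => R - e ≤ val g + l * ρ) := by
  intro i m d _ h j hj hc
  have h1 := hh i _ le_rfl (Q i).top
  have h2 := hh i j hj.le hc
  have hp : (1 : ℝ) ≤ (p : ℝ) := by exact_mod_cast (Fact.out : p.Prime).one_lt.le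
  rw [map_add, map_nsmul, nsmul_eq_mul] at h ⊢
  push_cast at h ⊢
  -- `p^J (val d + m ρ - R_i) ≥ -e`
  have h3 : -e ≤ (p : ℝ) ^ (Q i).J * (val d + m * ρ - Rs i) := by
    have : (p : ℝ) ^ (Q i).J * (val d + m * ρ - Rs i) =
      (val ((Q i).lam (Q i).J) + p ^ (Q i).J * val d + p ^ (Q i).J * m * ρ) - R := by
      rw [← h1]; ring
    rw [this]
    linarith
  have h4 : -e ≤ (p : ℝ) ^ j * (val d + m * ρ - Rs i) := by
    rcases le_or_gt 0 (val d + m * ρ - Rs i) with h5 | h5
    · have := mul_nonneg (pow_nonneg (by linarith : (0 : ℝ) ≤ p) j) h5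
      linarith
    · have h6 : (p : ℝ) ^ j ≤ p ^ (Q i).J := pow_le_pow_right₀ hp hj.le
      nlinarith
  have h5 : val ((Q i).lam j) + p ^ j * val d + p ^ j * m * ρ =
      R + (p : ℝ) ^ j * (val d + m * ρ - Rs i) := by
    rw [← h2]; ring
  rw [h5]
  linarith

/-! ### Polynomials in `Y` with coefficients in `LL` -/

section poly

omit [IsAlgClosed k]

/-- The Vandermonde argument: a polynomial whose values at the `μ x^g`, `μ ≠ 0`, are `≥ b`. -/
theorem vand [Infinite k] {A : (MH.LL k r)[X]} {g : Fin r → ℤ} {b : ℝ}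
    (h : ∀ μ : k, μ ≠ 0 → GeV val b (A.eval (AddMonoidAlgebra.single g μ))) (K : ℕ)
    (e : Fin r → ℤ) (he : (A.coeff K).coeff e ≠ 0) : b ≤ val e + K * val g := by
  classical
  -- the polynomial of the coefficients of `x^(e + K g)`
  set G := e + K • g with hG
  let B : k[X] := ∑ n ∈ A.support, monomial n ((A.coeff n).coeff (G - n • g))
  have hBc : ∀ n, B.coeff n = (A.coeff n).coeff (G - n • g) := by
    intro n
    rw [finsetSum_coeff]
    simp only [coeff_monomial]
    rw [Finset.sum_ite_eq' A.support n]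
    split_ifs with h1
    · rfl
    · rw [notMem_support_iff.1 h1]; rfl
  have hB0 : B ≠ 0 := by
    intro h0
    have h1 := hBc K
    rw [h0, coeff_zero, hG, add_sub_cancel_right] at h1
    exact he h1.symm
  have hBX : B * X ≠ 0 := mul_ne_zero hB0 X_ne_zero
  obtain ⟨μ, hμ⟩ : ∃ μ : k, (B * X).eval μ ≠ 0 := by
    by_contra hcon
    push Not at hcon
    exact hBX (Polynomial.funext fun μ => by rw [hcon μ, eval_zero])
  rw [eval_mul, eval_X] at hμ
  have hμ0 : μ ≠ 0 := right_ne_zero_of_mul hμ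
  have hval : (A.eval (AddMonoidAlgebra.single g μ)).coeff G = B.eval μ := by
    rw [eval_eq_sum, eval_eq_sum, Polynomial.sum, Polynomial.sum]
    have h1 : B.support ⊆ A.support := by
      intro n hn
      rw [mem_support_iff, hBc] at hn
      rw [mem_support_iff]
      intro h0
      rw [h0] at hn
      exact hn rfl
    rw [Finset.sum_subset h1 (f := fun n => B.coeff n * μ ^ n) (fun n _ hn => by
      rw [notMem_support_iff.1 hn, zero_mul])]
    rw [AddMonoidAlgebra.coeff_sum, Finsupp.finsetSum_apply]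
    refine Finset.sum_congr rfl fun n _ => ?_
    rw [AddMonoidAlgebra.single_pow, mul_comm, AddMonoidAlgebra.coeff_single_mul_apply, hBc,
      neg_add_eq_sub, mul_comm]
  have h2 := h μ hμ0 G (by rw [hval]; exact left_ne_zero_of_mul hμ)
  rwa [hG, map_add, map_nsmul, nsmul_eq_mul] at h2

/-- Taylor expansion in monomials. -/
theorem taylor_eq_sum {A : Type*} [CommRing A] (s : A) (φ : A[X]) {D : ℕ}
    (hφ : φ.natDegree ≤ D) : taylor s φ = ∑ m ∈ Finset.range (D + 1),
      ∑ l ∈ Finset.range (m + 1), monomial l (φ.coeff m * (s ^ (m - l) * (m.choose l : ℕ))) := by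
  conv_lhs => rw [φ.as_sum_range' (D + 1) (by omega)]
  rw [map_sum]
  refine Finset.sum_congr rfl fun m _ => ?_
  rw [taylor_monomial, add_pow, Finset.mul_sum]
  refine Finset.sum_congr rfl fun l _ => ?_
  rw [← C_mul_X_pow_eq_monomial, C_mul, C_mul, C_pow, map_natCast]
  ring

end poly

end Pool.Agent.TW.Core
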