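import Pool.Agent.Lib.TW.F4

/-!
# TANK W, block F: the one parameter argument (F5)
-/

set_option autoImplicit false

open Polynomial

namespace Pool.Agent.TW.Core

open Pool.Agent.TW.MH (GeV)

variable {k : Type*} [Field k] {r : ℕ} (p : ℕ) [Fact p.Prime] [CharP k p]
  {ι : Type} [Fintype ι] {Q : ι → Op k (Fin r → ℤ)} [IsAlgClosed k]
  {val : (Fin r → ℤ) →+ ℝ} {R ρ : ℝ}

/-- the polynomial in the parameter -/
noncomputable def CC (Q : ι → Op k (Fin r → ℤ)) (D l₀ : ℕ) (t₀ : MH.LL k r)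
    (φ : (MH.LL k r)[X]) : (MH.LL k r)[X] :=
  ∑ m ∈ Finset.range (D + 1), ∑ l ∈ Finset.range (m + 1), if l = 0 then 0 else
    monomial (D.factorial / l * (m - l) * l₀)
      ((nf p Q (monomial l (φ.coeff m * (t₀ ^ (m - l) * (m.choose l : ℕ))))).coeff l₀)

omit [CharP k p] [IsAlgClosed k] [Fact p.Prime] in
theorem fac_mul {D l m : ℕ} (hl : l ≠ 0) (hlm : l ≤ m) (hm : m ≤ D) :
    D.factorial * (m - l) = D.factorial / l * (m - l) * l := by
  have h : l ∣ D.factorial := Nat.dvd_factorial (Nat.pos_of_ne_zero hl) (hlm.trans hm)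
  obtain ⟨q, hq⟩ := h
  rw [hq, Nat.mul_div_cancel_left _ (Nat.pos_of_ne_zero hl)]
  ring

theorem CC_eval (hd : Disj p Q) {D l₀ : ℕ} (hl₀ : l₀ ≠ 0) (t₀ h : MH.LL k r)
    {φ : (MH.LL k r)[X]} (hφ : φ.natDegree ≤ D) (g : Fin r → ℤ) (μ : k) :
    (CC p Q D l₀ t₀ (taylor h φ)).eval (AddMonoidAlgebra.single g μ) =
      (nf p Q (taylor (h + AddMonoidAlgebra.single g μ ^ D.factorial * t₀) φ)).coeff l₀ := by
  have hφ' : (taylor h φ).natDegree ≤ D := by rw [natDegree_taylor]; exact hφ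
  rw [add_comm h, ← taylor_taylor, taylor_eq_sum _ _ hφ', nf_sum hd, finsetSum_coeff, CC,
    eval_finset_sum]
  refine Finset.sum_congr rfl fun m hm => ?_
  rw [nf_sum hd, finsetSum_coeff, eval_finset_sum]
  refine Finset.sum_congr rfl fun l hl => ?_
  have hm' : m ≤ D := by have := Finset.mem_range.1 hm; omega
  have hl' : l ≤ m := by have := Finset.mem_range.1 hl; omega
  by_cases h0 : l = 0
  · subst h0
    rw [if_pos rfl, eval_zero, monomial_zero_left, nf_of_inS hd (InS.C _), coeff_zero]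
  · rw [if_neg h0, eval_monomial]
    set a := (taylor h φ).coeff m * (t₀ ^ (m - l) * (m.choose l : ℕ)) with ha
    set N := D.factorial / l * (m - l) with hN
    have h1 : (taylor h φ).coeff m * ((AddMonoidAlgebra.single g μ ^ D.factorial * t₀) ^ (m - l) *
        (m.choose l : ℕ)) = (AddMonoidAlgebra.single (N • g) (μ ^ N)) ^ l * a := by
      rw [← AddMonoidAlgebra.single_pow, ← pow_mul, hN, ← fac_mul h0 hl' hm', mul_pow, ← pow_mul,
        ha]
      ring
    rw [h1, ← scl_monomial, nf_scl hd, scl_coeff, ← AddMonoidAlgebra.single_pow, ← pow_mul,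
      mul_comm]

theorem CC_deg (hd : Disj p Q) {D l₀ : ℕ} (t₀ : MH.LL k r) (φ : (MH.LL k r)[X]) {K : ℕ}
    (hK : (CC p Q D l₀ t₀ φ).coeff K ≠ 0) : K ≤ D.factorial * (D - l₀) ∧ l₀ ≤ D := by
  rw [CC, finsetSum_coeff] at hK
  obtain ⟨m, hm, h1⟩ := Finset.exists_ne_zero_of_sum_ne_zero hK
  rw [finsetSum_coeff] at h1
  obtain ⟨l, hl, h2⟩ := Finset.exists_ne_zero_of_sum_ne_zero h1
  have hm' : m ≤ D := by have := Finset.mem_range.1 hm; omega
  have hl' : l ≤ m := by have := Finset.mem_range.1 hl; omega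
  by_cases h0 : l = 0
  · rw [if_pos h0, coeff_zero] at h2
    exact absurd rfl h2
  rw [if_neg h0, coeff_monomial] at h2
  by_cases h3 : D.factorial / l * (m - l) * l₀ = K
  swap
  · rw [if_neg h3] at h2
    exact absurd rfl h2
  rw [if_pos h3] at h2
  have h4 : l₀ ≤ l := by
    obtain ⟨g, hg⟩ : ∃ g, cf (nf p Q (monomial l (φ.coeff m * (t₀ ^ (m - l) *
        (m.choose l : ℕ))))) l₀ g ≠ 0 := by
      by_contra hcon
      push Not at hcon
      apply h2
      ext g
      exact hcon g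
    refine nf_sp hd (redP_deg (p := p) (Q := Q) l) (φ := monomial l _) ?_ l₀ g hg
    intro l' g' h'
    rw [cf, coeff_monomial] at h'
    by_cases h5 : l = l'
    · exact h5.ge
    · rw [if_neg h5] at h'
      exact absurd rfl h'
  refine ⟨?_, by omega⟩
  rw [← h3]
  have h5 : D.factorial / l * (m - l) * l₀ ≤ D.factorial / l * ((D - l₀) * l) := by
    rw [mul_assoc]
    refine Nat.mul_le_mul_left _ ?_
    -- (m - l) l₀ ≤ (D - l₀) l
    zify [hl', show l₀ ≤ D by omega]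
    have e1 : (m : ℤ) ≤ D := by exact_mod_cast hm'
    have e2 : (l₀ : ℤ) ≤ l := by exact_mod_cast h4
    have e3 : (0 : ℤ) ≤ l₀ := by positivity
    nlinarith
  refine h5.trans ?_
  have h6 : D.factorial / l * ((D - l₀) * l) = D.factorial / l * l * (D - l₀) := by ring
  rw [h6, Nat.div_mul_cancel (Nat.dvd_factorial (Nat.pos_of_ne_zero h0) (hl'.trans hm'))]

/-- F5. -/
theorem trans_bound (hd : Disj p Q) (hdense : ∀ a b : ℝ, a < b → ∃ g, a < val g ∧ val g < b)
    {φ : (MH.LL k r)[X]} {D : ℕ} (hφ : φ.natDegree ≤ D) (h : MH.LL k r) {G : ℝ} (hG : 0 < G)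
    (H : ∀ ε : ℝ, 0 < ε → ∃ h' : MH.LL k r, GeV val (ρ - G) (h' - h) ∧ ∀ t, GeV val ρ t →
      Sp (fun l g => R - ε ≤ val g + l * ρ) (nf p Q (taylor (h' + t) φ)))
    {l₀ : ℕ} (hl₀ : l₀ ≠ 0) {g : Fin r → ℤ} (hg : cf (nf p Q (taylor h φ)) l₀ g ≠ 0) :
    R - l₀ * ρ - (D - l₀ : ℕ) * G ≤ val g := by
  classical
  refine le_of_forall_pos_le_add fun ε hε => ?_
  obtain ⟨h', h1, h2⟩ := H (ε / 2) (by linarith)
  set q := D.factorial with hq
  have hq0 : 0 < q := Nat.factorial_pos D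
  have hqR : (0 : ℝ) < q := by exact_mod_cast hq0
  set t₀ := h' - h with ht₀
  set A := CC p Q D l₀ t₀ (taylor h' φ) with hA
  -- the exponent
  set n := (D - l₀ : ℕ) with hn
  obtain ⟨g0, hg0, hg0'⟩ := hdense (G / q) (G / q + ε / (2 * (q * n + 1))) (by
    have : 0 < ε / (2 * (q * (n : ℝ) + 1)) := by positivity
    linarith)
  have hg0q : G ≤ q * val g0 := by
    rw [div_lt_iff₀ hqR] at hg0
    linarith
  have hg0p : 0 ≤ val g0 := by
    have : 0 < G / q := by positivity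
    linarith
  -- Vandermonde
  have hv : ∀ (K : ℕ) (e : Fin r → ℤ), (A.coeff K).coeff e ≠ 0 →
      R - ε / 2 - l₀ * ρ ≤ val e + K * val g0 := by
    refine vand fun μ _ => ?_
    rw [hA, CC_eval p hd hl₀ t₀ h' hφ]
    intro e he
    have h3 : GeV val ρ (AddMonoidAlgebra.single g0 μ ^ D.factorial * t₀) := by
      have h4 : GeV val (val g0) (AddMonoidAlgebra.single g0 μ : MH.LL k r) :=
        GeV.single fun _ => le_rfl
      refine ((h4.pow D.factorial).mul h1).mono ?_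
      rw [← hq]
      linarith
    have h5 := h2 _ h3 l₀ e he
    linarith
  -- the value at `-1`
  obtain ⟨μ, hμ⟩ := IsAlgClosed.exists_pow_nat_eq (-1 : k) hq0
  have h3 : h' + (AddMonoidAlgebra.single (0 : Fin r → ℤ) μ) ^ D.factorial * t₀ = h := by
    rw [AddMonoidAlgebra.single_pow, ← hq, hμ, smul_zero]
    have : (AddMonoidAlgebra.single (0 : Fin r → ℤ) (-1 : k)) = (-1 : MH.LL k r) := by
      rw [AddMonoidAlgebra.single_neg, ← AddMonoidAlgebra.one_def]
    rw [this, ht₀]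
    ring
  have h4 := CC_eval p hd hl₀ t₀ h' hφ 0 μ
  rw [h3, ← hA] at h4
  rw [cf, ← h4, eval_eq_sum, Polynomial.sum, AddMonoidAlgebra.coeff_sum,
    Finsupp.finsetSum_apply] at hg
  obtain ⟨K, hK, h5⟩ := Finset.exists_ne_zero_of_sum_ne_zero hg
  rw [AddMonoidAlgebra.single_pow, smul_zero, mul_comm, AddMonoidAlgebra.coeff_single_mul_apply,
    neg_zero, zero_add] at h5
  have h6 := hv K g (right_ne_zero_of_mul h5)
  obtain ⟨h7, h8⟩ := CC_deg p hd t₀ (taylor h' φ) (mem_support_iff.1 hK)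
  have h9 : (K : ℝ) ≤ q * n := by exact_mod_cast h7
  have h10 : (K : ℝ) * val g0 ≤ q * n * val g0 := mul_le_mul_of_nonneg_right h9 hg0p
  have h11 : (q : ℝ) * n * val g0 ≤ n * G + ε / 2 := by
    have h12 : (q : ℝ) * n * val g0 ≤ q * n * (G / q + ε / (2 * (q * n + 1))) :=
      mul_le_mul_of_nonneg_left hg0'.le (by positivity)
    have h13 : (q : ℝ) * n * (G / q + ε / (2 * (q * n + 1))) =
        n * G + ε / 2 * (q * n / (q * n + 1)) := by
      field_simp
    have h14 : (q : ℝ) * n / (q * n + 1) ≤ 1 := by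
      rw [div_le_one (by positivity)]
      linarith
    have h15 : ε / 2 * ((q : ℝ) * n / (q * n + 1)) ≤ ε / 2 * 1 :=
      mul_le_mul_of_nonneg_left h14 (by linarith)
    linarith
  linarith

end Pool.Agent.TW.Core
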