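import Pool.Agent.Lib.TW.F5

/-!
# TANK W, block F: arithmetic (F6), near points (F3), records (F7)
-/

set_option autoImplicit false

open Polynomial Filter

namespace Pool.Agent.TW.Core

open Pool.Agent.TW.MH (GeV GeW LimSeq)

/-! ### F6 -/

theorem choose_pow_modEq (p : ℕ) [Fact p.Prime] (i : ℕ) : ∀ D : ℕ,
    D.choose (p ^ i) ≡ D / p ^ i [MOD p] := by
  induction i with
  | zero => intro D; simp [Nat.ModEq]
  | succ i ih =>
    intro D
    have h := Choose.choose_modEq_choose_mod_mul_choose_div_nat (n := D) (k := p ^ (i + 1)) (p := p)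
    have h1 : p ^ (i + 1) % p = 0 := by
      rw [pow_succ]; exact Nat.mul_mod_left _ _
    have h2 : p ^ (i + 1) / p = p ^ i := by
      rw [pow_succ]; exact Nat.mul_div_cancel _ (Fact.out : p.Prime).pos
    rw [h1, h2, Nat.choose_zero_right, one_mul] at h
    refine h.trans ((ih (D / p)).trans ?_)
    rw [Nat.div_div_eq_div_mul, pow_succ, mul_comm p]

theorem arith (p : ℕ) [Fact p.Prime] {D : ℕ} (hD : D ≠ 0) (hnp : ∀ i, D ≠ p ^ i) :
    ∃ i l : ℕ, l ≠ 0 ∧ D = l + p ^ i ∧ ¬ p ∣ D.choose l ∧ ∀ J, p ^ J ∣ l → J ≤ i := by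
  have hp := (Fact.out : p.Prime)
  set i := Nat.log p D with hi
  have h1 : p ^ i ≤ D := Nat.pow_log_le_self p hD
  have h2 : D < p ^ (i + 1) := Nat.lt_pow_succ_log_self hp.one_lt D
  have h3 : D - p ^ i ≠ 0 := by
    have := hnp i
    omega
  refine ⟨i, D - p ^ i, h3, by omega, ?_, fun J hJ => ?_⟩
  · rw [Nat.choose_symm h1]
    intro h4
    have h5 := choose_pow_modEq p i D
    have h6 : D / p ^ i ≡ 0 [MOD p] := h5.symm.trans ((Nat.modEq_zero_iff_dvd).2 h4)
    have h7 : D / p ^ i < p := by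
      rw [Nat.div_lt_iff_lt_mul (pow_pos hp.pos _), mul_comm]
      rwa [pow_succ] at h2
    have h8 : 0 < D / p ^ i := Nat.div_pos h1 (pow_pos hp.pos _)
    rw [Nat.modEq_zero_iff_dvd] at h6
    exact absurd (Nat.le_of_dvd h8 h6) (by omega)
  · have h4 := Nat.le_of_dvd (Nat.pos_of_ne_zero h3) hJ
    have h5 : p ^ J < p ^ (i + 1) := by omega
    have := (Nat.pow_lt_pow_iff_right hp.one_lt).1 h5
    omega

section

variable {k : Type*} [Field k] {r : ℕ} {val : (Fin r → ℤ) →+ ℝ} {R ρ : ℝ}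

/-! ### F3 -/

theorem coeff_taylor_sum {A : Type*} [CommRing A] (s : A) (φ : A[X]) {D : ℕ}
    (hφ : φ.natDegree ≤ D) (l : ℕ) : (taylor s φ).coeff l = ∑ m ∈ Finset.range (D + 1),
      if l ≤ m then φ.coeff m * (s ^ (m - l) * (m.choose l : ℕ)) else 0 := by
  rw [taylor_eq_sum s φ hφ, finsetSum_coeff]
  refine Finset.sum_congr rfl fun m _ => ?_
  rw [finsetSum_coeff]
  simp only [coeff_monomial]
  rw [Finset.sum_ite_eq' (Finset.range (m + 1)) l]
  by_cases h : l ≤ m
  · rw [if_pos (Finset.mem_range.2 (by omega)), if_pos h]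
  · rw [if_neg (fun h' => h (by have := Finset.mem_range.1 h'; omega)), if_neg h]

theorem GeW.taylor (y : LimSeq k val ρ) {ψ : (MH.LL k r)[X]} {b : ℝ} (h : GeW y b ψ) :
    ∀ᶠ I in atTop, ∀ t, GeV val ρ t →
      Sp (fun l g => b ≤ val g + l * ρ) (Polynomial.taylor (y.h I + t) ψ) := by
  have h1 : ∀ᶠ I in atTop, ∀ m ∈ Finset.range (ψ.natDegree + 1),
      GeV val (b - m * ρ) ((hasseDeriv m ψ).eval (y.h I)) := by
    rw [Filter.eventually_all_finset]
    intro m _
    exact y.strict ψ b h m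
  filter_upwards [h1] with I hI t ht
  rw [add_comm, ← taylor_taylor]
  intro l g hg
  have hD : (Polynomial.taylor (y.h I) ψ).natDegree ≤ ψ.natDegree := by
    rw [natDegree_taylor]
  rw [cf, coeff_taylor_sum t _ hD] at hg
  have h2 : GeV val (b - l * ρ) (∑ m ∈ Finset.range (ψ.natDegree + 1),
      if l ≤ m then (Polynomial.taylor (y.h I) ψ).coeff m *
        (t ^ (m - l) * ((m.choose l : ℕ) : MH.LL k r)) else 0) := by
    refine MH.GeV.sum _ _ fun m hm => ?_
    split_ifs with hlm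
    · rw [taylor_coeff]
      refine ((hI m hm).mul ((ht.pow (m - l)).mul (MH.GeV.natCast _))).mono ?_
      push_cast [hlm]
      linarith
    · exact MH.GeV.zero
  have := h2 g hg
  linarith

variable (p : ℕ) [Fact p.Prime] [CharP k p] {ι : Type} [Fintype ι]
  {Q : ι → Op k (Fin r → ℤ)} [IsAlgClosed k] {Rs : ι → ℝ}

/-- F3. -/
theorem near (hd : Disj p Q) (hh : Hom p Q val Rs R) (y : LimSeq k val ρ)
    {φ s : (MH.LL k r)[X]} (hs : InS p Q s) {ε : ℝ} (hε : 0 ≤ ε) (h : GeW y (R - ε) (φ - s)) :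
    ∀ᶠ I in atTop, ∀ t, GeV val ρ t →
      Sp (fun l g => R - ε ≤ val g + l * ρ) (nf p Q (taylor (y.h I + t) φ)) := by
  filter_upwards [GeW.taylor y h] with I hI t ht
  have h1 := nf_sp hd (redP_wt (ρ := ρ) p hh hε) (hI t ht)
  have h2 : nf p Q (taylor (y.h I + t) (φ - s)) = nf p Q (taylor (y.h I + t) φ) := by
    refine nf_congr hd ?_
    rw [map_sub, sub_sub_cancel_left]
    exact (hs.taylor _).neg
  rwa [h2] at h1

/-! ### F7 -/

open Classical in
/-- the part of `a` with exponents in `T` -/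
noncomputable def part (T : (Fin r → ℤ) → Prop) (a : MH.LL k r) : MH.LL k r :=
  AddMonoidAlgebra.ofCoeff (a.coeff.filter T)

omit [IsAlgClosed k] in
theorem part_coeff_pos {T : (Fin r → ℤ) → Prop} {a : MH.LL k r} {g : Fin r → ℤ} (h : T g) :
    (part T a).coeff g = a.coeff g := by
  classical
  rw [part, AddMonoidAlgebra.coeff_ofCoeff, Finsupp.filter_apply_pos _ _ h]

omit [IsAlgClosed k] in
theorem part_coeff_neg {T : (Fin r → ℤ) → Prop} {a : MH.LL k r} {g : Fin r → ℤ} (h : ¬ T g) :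
    (part T a).coeff g = 0 := by
  classical
  rw [part, AddMonoidAlgebra.coeff_ofCoeff, Finsupp.filter_apply_neg _ _ h]

omit [IsAlgClosed k] in
theorem part_ne {T : (Fin r → ℤ) → Prop} {a : MH.LL k r} {g : Fin r → ℤ}
    (h : (part T a).coeff g ≠ 0) : T g ∧ a.coeff g ≠ 0 := by
  by_cases hT : T g
  · rw [part_coeff_pos hT] at h
    exact ⟨hT, h⟩
  · exact absurd (part_coeff_neg hT) h

theorem finite_box (M : ℤ) : {g : Fin r → ℤ | ∀ c, |g c| ≤ M}.Finite := by
  refine (Set.finite_Icc (fun _ : Fin r => -M) (fun _ => M)).subset fun g hg => ?_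
  exact ⟨fun i => (abs_le.1 (hg i)).1, fun i => (abs_le.1 (hg i)).2⟩

/-- below `ρ` the values of finitely many exponents are below some `b < ρ` -/
theorem exists_lt_of_finite {S : Set (Fin r → ℤ)} (hS : S.Finite) (ρ : ℝ) :
    ∃ b < ρ, ∀ g ∈ S, val g < ρ → val g < b := by
  classical
  induction S, hS using Set.Finite.induction_on with
  | empty => exact ⟨ρ - 1, by linarith, fun g hg => absurd hg (Set.notMem_empty g)⟩
  | insert _ _ ih =>
    rename_i a s _ _
    obtain ⟨b, hb, h⟩ := ih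
    by_cases ha : val a < ρ
    · obtain ⟨b', h1, h2⟩ := exists_between ha
      refine ⟨max b b', max_lt hb h2, fun g hg hgρ => ?_⟩
      rcases Set.mem_insert_iff.1 hg with rfl | hg
      · exact lt_of_lt_of_le h1 (le_max_right _ _)
      · exact lt_of_lt_of_le (h g hg hgρ) (le_max_left _ _)
    · refine ⟨b, hb, fun g hg hgρ => ?_⟩
      rcases Set.mem_insert_iff.1 hg with rfl | hg
      · exact absurd hgρ ha
      · exact h g hg hgρ

omit [IsAlgClosed k] in
/-- F7: the first exponent of `y` outside a box. -/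
theorem record (hinj : Function.Injective val) (y : LimSeq k val ρ) (M : ℤ) :
    ∃ (h : MH.LL k r) (γ : Fin r → ℤ) (μ : k) (G : ℝ), μ ≠ 0 ∧ 0 < G ∧ (∃ c, M < |γ c|) ∧
      (∀ g, h.coeff g ≠ 0 → ∀ c, |g c| ≤ M) ∧ val γ < ρ - G ∧
      ∀ᶠ I in atTop, GeV val (ρ - G) (y.h I - (h + AddMonoidAlgebra.single γ μ)) := by
  classical
  obtain ⟨b₁, hb₁, hF⟩ := exists_lt_of_finite (val := val) (finite_box (r := r) M) ρ
  obtain ⟨I₀, hI₀⟩ := y.cauchy b₁ hb₁
  set h₁ := part (fun g => val g < b₁) (y.h I₀) with hh₁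
  have e1 : GeV val b₁ (y.h I₀ - h₁) := by
    intro g hg
    by_contra hlt
    push Not at hlt
    apply hg
    rw [MH.coeff_sub_apply, hh₁, part_coeff_pos hlt, sub_self]
  obtain ⟨b₂, hb₂, hne⟩ := y.ne h₁
  set b₃ := max b₁ b₂ with hb₃
  obtain ⟨I₃, hI₃⟩ := y.cauchy b₃ (max_lt hb₁ hb₂)
  obtain ⟨I₄, hI₄⟩ := eventually_atTop.1 hne
  set I := max I₀ (max I₃ I₄) with hI
  have g0 : I₀ ≤ I := le_max_left _ _
  have g3 : I₃ ≤ I := (le_max_left _ _).trans (le_max_right _ _)
  have g4 : I₄ ≤ I := (le_max_right _ _).trans (le_max_right _ _)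
  set h₀ := y.h I with hh₀
  obtain ⟨γ', hγ', hγb⟩ : ∃ γ', (h₀ - h₁).coeff γ' ≠ 0 ∧ val γ' < b₂ := by
    have := hI₄ I g4
    rw [GeV] at this
    push Not at this
    exact this
  have hγ1 : b₁ ≤ val γ' := by
    have h := (hI₀ I g0 I₀ le_rfl).add e1
    rw [sub_add_sub_cancel] at h
    exact h γ' hγ'
  have hγ0 : h₀.coeff γ' ≠ 0 := by
    intro h0
    apply hγ'
    rw [MH.coeff_sub_apply, h0, hh₁,
      part_coeff_neg (T := fun g => val g < b₁) (not_lt.2 hγ1), sub_zero]
  have hγF : ¬ ∀ c, |γ' c| ≤ M := by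
    intro hc
    have := hF γ' hc (hγb.trans hb₂)
    linarith
  -- the first exponent outside the box
  let S := h₀.coeff.support.filter fun g => ¬ ∀ c, |g c| ≤ M
  have hS : γ' ∈ S := Finset.mem_filter.2 ⟨Finsupp.mem_support_iff.2 hγ0, hγF⟩
  obtain ⟨γ, hγS, hmin⟩ := Finset.exists_min_image S val ⟨γ', hS⟩
  obtain ⟨hγs, hγn⟩ := Finset.mem_filter.1 hγS
  have hγb3 : val γ < b₃ :=
    lt_of_le_of_lt (hmin γ' hS) (lt_of_lt_of_le hγb (le_max_right _ _))
  set μ := h₀.coeff γ with hμ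
  set h := part (fun g => val g < val γ) h₀ with hh
  -- the next value
  obtain ⟨b₄, h41, h42, h43⟩ : ∃ b₄, val γ < b₄ ∧ b₄ ≤ b₃ ∧
      ∀ g ∈ h₀.coeff.support, val γ < val g → b₄ ≤ val g := by
    have : ∀ s : Finset (Fin r → ℤ), ∃ b₄, val γ < b₄ ∧ b₄ ≤ b₃ ∧
        ∀ g ∈ s, val γ < val g → b₄ ≤ val g := by
      intro s
      induction s using Finset.induction_on with
      | empty => exact ⟨b₃, hγb3, le_rfl, fun g hg => absurd hg (Finset.notMem_empty g)⟩
      | insert a s _ ih =>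
        obtain ⟨b, h1, h2, h3⟩ := ih
        by_cases ha : val γ < val a
        · refine ⟨min b (val a), lt_min h1 ha, (min_le_left _ _).trans h2, fun g hg hlt => ?_⟩
          rcases Finset.mem_insert.1 hg with rfl | hg
          · exact min_le_right _ _
          · exact (min_le_left _ _).trans (h3 g hg hlt)
        · refine ⟨b, h1, h2, fun g hg hlt => ?_⟩
          rcases Finset.mem_insert.1 hg with rfl | hg
          · exact absurd hlt ha
          · exact h3 g hg hlt
    exact this _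
  have hb4 : b₄ < ρ := lt_of_le_of_lt h42 (max_lt hb₁ hb₂)
  refine ⟨h, γ, μ, ρ - b₄, Finsupp.mem_support_iff.1 hγs, by linarith, ?_, ?_, by linarith, ?_⟩
  · push Not at hγn
    exact hγn
  · intro g hg
    obtain ⟨h1, h2⟩ := part_ne hg
    by_contra hcon
    have := hmin g (Finset.mem_filter.2 ⟨Finsupp.mem_support_iff.2 h2, hcon⟩)
    linarith
  · have e2 : GeV val b₄ (h₀ - (h + AddMonoidAlgebra.single γ μ)) := by
      intro g hg
      rw [MH.coeff_sub_apply, MH.coeff_add_apply, MH.coeff_single'] at hg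
      by_cases h1 : γ = g
      · exfalso
        apply hg
        rw [if_pos h1, hh, part_coeff_neg (by rw [h1]; exact lt_irrefl _), hμ, h1, zero_add,
          sub_self]
      rw [if_neg h1, add_zero] at hg
      by_cases h2 : val g < val γ
      · exfalso
        apply hg
        rw [hh, part_coeff_pos h2, sub_self]
      rw [hh, part_coeff_neg h2, sub_zero] at hg
      refine h43 g (Finsupp.mem_support_iff.2 hg) ?_
      exact lt_of_le_of_ne (not_lt.1 h2) fun h3 => h1 (hinj h3)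
    filter_upwards [eventually_ge_atTop I₃] with I' hI'
    have h5 := ((hI₃ I' hI' I g3).mono h42).add e2
    rw [sub_add_sub_cancel] at h5
    rwa [sub_sub_cancel]

end

end Pool.Agent.TW.Core
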