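import Pool.Agent.Lib.TW.F6

/-!
# TANK W, block F: the main step (F8)
-/

set_option autoImplicit false

open Polynomial Filter

namespace Pool.Agent.TW.Core

open Pool.Agent.TW.MH (GeV GeW LimSeq)

variable {k : Type*} [Field k] {r : ℕ} {val : (Fin r → ℤ) →+ ℝ} {R ρ : ℝ}

theorem exists_bound (S : Finset (Fin r → ℤ)) : ∃ M : ℤ, 0 ≤ M ∧ ∀ g ∈ S, ∀ c, |g c| ≤ M := by
  refine ⟨∑ g ∈ S, ∑ c, |g c|, Finset.sum_nonneg fun _ _ => Finset.sum_nonneg fun _ _ =>
    abs_nonneg _, fun g hg c => ?_⟩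
  exact (Finset.single_le_sum (f := fun c => |g c|) (fun _ _ => abs_nonneg _)
    (Finset.mem_univ c)).trans (Finset.single_le_sum (f := fun g => ∑ c, |g c|)
    (fun _ _ => Finset.sum_nonneg fun _ _ => abs_nonneg _) hg)

/-- the values are dense -/
theorem dense_val (y : LimSeq k val ρ) {a b : ℝ} (hab : a < b) : ∃ g, a < val g ∧ val g < b := by
  have key : ∀ c < ρ, ∃ g, c ≤ val g ∧ val g < ρ := by
    intro c hc
    obtain ⟨I₀, hI₀⟩ := y.cauchy c hc
    obtain ⟨b', hb', hne⟩ := y.ne (y.h I₀)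
    obtain ⟨I, hI, hI'⟩ := ((eventually_ge_atTop I₀).and hne).exists
    rw [GeV] at hI'
    push Not at hI'
    obtain ⟨g, hg, hgb⟩ := hI'
    exact ⟨g, hI₀ I hI I₀ le_rfl g hg, hgb.trans hb'⟩
  have hdense : Dense ((AddMonoidHom.range val : AddSubgroup ℝ) : Set ℝ) := by
    refine AddSubgroup.dense_of_not_isolated_zero _ fun ε hε => ?_
    obtain ⟨g1, h1, h2⟩ := key (ρ - ε) (by linarith)
    obtain ⟨g2, h3, h4⟩ := key ((val g1 + ρ) / 2) (by linarith)
    refine ⟨val (g2 - g1), ⟨_, rfl⟩, ?_, ?_⟩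
    · rw [map_sub]; linarith
    · rw [map_sub]; linarith
  obtain ⟨c, ⟨g, rfl⟩, h1, h2⟩ := hdense.exists_between hab
  exact ⟨g, h1, h2⟩

/-- minus a signed coordinate -/
noncomputable def Lf (s : ℤ) (c : Fin r) : (Fin r → ℤ) →+ ℝ :=
  AddMonoidHom.mk' (fun g => -((s * g c : ℤ) : ℝ)) fun a b => by
    rw [Pi.add_apply]
    push_cast
    ring

theorem Lf_apply (s : ℤ) (c : Fin r) (g : Fin r → ℤ) : Lf s c g = -((s * g c : ℤ) : ℝ) := rfl

theorem abs_Lf {s : ℤ} (hs : |s| = 1) (c : Fin r) {g : Fin r → ℤ} {B : ℤ} (h : |g c| ≤ B) :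
    -(B : ℝ) ≤ Lf s c g ∧ Lf s c g ≤ B := by
  have h1 : |s * g c| ≤ B := by rw [abs_mul, hs, one_mul]; exact h
  have h2 := abs_le.1 h1
  rw [Lf_apply]
  constructor
  · have : ((s * g c : ℤ) : ℝ) ≤ (B : ℝ) := by exact_mod_cast h2.2
    linarith
  · have : ((-B : ℤ) : ℝ) ≤ ((s * g c : ℤ) : ℝ) := by exact_mod_cast h2.1
    push_cast at this ⊢
    linarith

theorem half_bound {a b w A : ℝ} (ha : 0 ≤ a) (hab : 2 * a ≤ b) (hA : 0 ≤ A) (h : -A ≤ b * w) :
    -A / 2 ≤ a * w := by
  rcases le_or_gt 0 w with h0 | h0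
  · have := mul_nonneg ha h0
    linarith
  · have : 2 * a * w ≥ b * w := by nlinarith
    linarith

variable (p : ℕ) [Fact p.Prime] [CharP k p] {ι : Type} [Fintype ι]
  {Q : ι → Op k (Fin r → ℤ)} [IsAlgClosed k] {Rs : ι → ℝ}

/-- F8: the top coefficient vanishes. -/
theorem main_step (hd : Disj p Q) (hh : Hom p Q val Rs R) (hinj : Function.Injective val)
    (y : LimSeq k val ρ) {φ : (MH.LL k r)[X]} {D : ℕ} (hD : D ≠ 0) (hφ : φ.natDegree ≤ D)
    (hyp : ∀ ε : ℝ, 0 < ε → ∃ s, InS p Q s ∧ GeW y (R - ε) (φ - s))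
    (h1 : ∀ v, cf φ D v ≠ 0 → IrM p Q D v ∧ val v + D * ρ ≤ R ∧
      ((∃ i, D = p ^ i) → val v + D * ρ < R)) : φ.coeff D = 0 := by
  classical
  by_contra hne
  have hp2 : 2 ≤ p := (Fact.out : p.Prime).two_le
  obtain ⟨v₀, hv₀⟩ : ∃ v, cf φ D v ≠ 0 := by
    by_contra hcon
    push Not at hcon
    apply hne
    ext g
    exact hcon g
  by_cases hpow : ∃ i, D = p ^ i
  · -- `D` is a power of `p`
    obtain ⟨hI, -, hlt⟩ := h1 v₀ hv₀
    have hlt' := hlt hpow
    obtain ⟨s, hs, hGs⟩ := hyp ((R - (val v₀ + D * ρ)) / 2) (by linarith)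
    obtain ⟨I, hIt⟩ := (near p hd hh y hs (by linarith) hGs).exists
    have h2 := hIt 0 MH.GeV.zero
    rw [add_zero] at h2
    have h3 : cf (nf p Q (taylor (y.h I) φ)) D v₀ = cf (taylor (y.h I) φ) D v₀ := by
      refine nf_step hd (P := fun l _ => l ≤ D) (P' := fun l _ => l < D) ?_ ?_ ?_ hI
        (lt_irrefl _)
      · intro i m d hm h j hj _
        refine lt_of_le_of_lt ?_ h
        exact Nat.mul_le_mul_right m (Nat.pow_le_pow_right (by omega) hj.le)
      · intro i m d hm h j hj _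
        refine lt_of_lt_of_le ?_ h
        exact Nat.mul_lt_mul_of_pos_right (Nat.pow_lt_pow_right (by omega) hj)
          (Nat.pos_of_ne_zero hm)
      · intro l g hlg
        have hdeg : (taylor (y.h I) φ).natDegree ≤ D := by rw [natDegree_taylor]; exact hφ
        refine le_trans (le_natDegree_of_ne_zero fun h0 => hlg ?_) hdeg
        rw [cf, h0]; rfl
    have h4 : cf (taylor (y.h I) φ) D v₀ = cf φ D v₀ := by
      rw [cf, coeff_taylor_sum _ _ hφ, Finset.sum_range_succ, Finset.sum_eq_zero, zero_add,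
        if_pos le_rfl, Nat.sub_self, pow_zero, Nat.choose_self, Nat.cast_one, mul_one, mul_one, cf]
      intro m hm
      have := Finset.mem_range.1 hm
      rw [if_neg (by omega)]
    have h5 := h2 D v₀ (by rw [h3, h4]; exact hv₀)
    linarith
  · -- the record argument
    push Not at hpow
    obtain ⟨i, l, hl0, hDl, hch, hJ⟩ := arith p hD hpow
    obtain ⟨c₀, hc₀, hc₀'⟩ := exists_bound (r := r)
      (φ.support.biUnion fun m => (φ.coeff m).coeff.support)
    obtain ⟨Cl, hCl, hCl'⟩ := exists_bound (r := r)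
      (Finset.univ.biUnion fun i : ι => (Finset.range ((Q i).J + 1)).image (Q i).lam)
    have hcb : ∀ m g, cf φ m g ≠ 0 → ∀ c, |g c| ≤ c₀ := by
      intro m g h
      refine hc₀' g (Finset.mem_biUnion.2 ⟨m, ?_, Finsupp.mem_support_iff.2 h⟩)
      rw [mem_support_iff]
      intro h0
      rw [cf, h0] at h
      exact h rfl
    have hlb : ∀ i j, j ≤ (Q i).J → ∀ c, |(Q i).lam j c| ≤ Cl := by
      intro i j hj
      exact hCl' _ (Finset.mem_biUnion.2 ⟨i, Finset.mem_univ _, Finset.mem_image.2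
        ⟨j, Finset.mem_range.2 (by omega), rfl⟩⟩)
    obtain ⟨h, γ, μ, G, hμ, hG, ⟨c, hc⟩, hbox, hγG, hev⟩ :=
      record hinj y (2 * c₀ + 2 * Cl * D)
    set M₀ : ℤ := 2 * c₀ + 2 * Cl * D with hM₀
    obtain ⟨s, hs, hsγ⟩ : ∃ s : ℤ, |s| = 1 ∧ s * γ c = |γ c| := by
      rcases le_or_gt 0 (γ c) with h0 | h0
      · exact ⟨1, by norm_num, by rw [one_mul, abs_of_nonneg h0]⟩
      · exact ⟨-1, by norm_num, by rw [abs_of_neg h0]; ring⟩
    set M : ℤ := |γ c| with hM
    set L := Lf (r := r) s c with hL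
    have hM0 : 0 ≤ M₀ := by positivity
    have hMR : (M₀ : ℝ) < M := by exact_mod_cast hc
    have hM0R : (0 : ℝ) ≤ M₀ := by exact_mod_cast hM0
    have hc0R : (0 : ℝ) ≤ c₀ := by exact_mod_cast hc₀
    have hClR : (0 : ℝ) ≤ Cl := by exact_mod_cast hCl
    have hM₀R : (M₀ : ℝ) = 2 * c₀ + 2 * Cl * D := by rw [hM₀]; push_cast; ring
    have hLγ : L γ = -M := by rw [hL, Lf_apply, hsγ]
    have hDR : (D : ℝ) = l + p ^ i := by exact_mod_cast hDl
    have hD2 : (2 : ℝ) ≤ D := by
      have h2 : 1 ≤ l := Nat.pos_of_ne_zero hl0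
      have h3 : 1 ≤ p ^ i := Nat.one_le_pow _ _ (by omega)
      exact_mod_cast (by omega : 2 ≤ D)
    -- the point
    set h' := h + AddMonoidAlgebra.single γ μ with hh'
    have hLh : GeV L (-(M₀ : ℝ)) h := fun g hg => (abs_Lf hs c (hbox g hg c)).1
    have hLh' : GeV L (-(M : ℝ)) h' :=
      (hLh.mono (by linarith)).add (MH.GeV.single fun _ => hLγ.ge)
    have hLφ : ∀ m, GeV L (-(c₀ : ℝ)) (φ.coeff m) := fun m g hg =>
      (abs_Lf hs c (hcb m g hg c)).1
    -- the families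
    set P : ℕ → (Fin r → ℤ) → Prop := fun n g => n ≤ D ∧ -(c₀ + (D - n) * M : ℝ) ≤ L g with hP
    set P' : ℕ → (Fin r → ℤ) → Prop := fun n g => n ≤ D ∧
      -(c₀ + 2 * Cl * (D - n) + (D - 1 - n) * M : ℝ) ≤ L g with hP'
    have hstep : ∀ i' m (d : Fin r → ℤ) j, m ≠ 0 → j < (Q i').J → p ^ (Q i').J * m ≤ D →
        ∀ A : ℝ, 0 ≤ A → -A + p ^ (Q i').J * m * M ≤ L ((Q i').lam (Q i').J + p ^ (Q i').J • d) →
        -(Cl : ℝ) + -(A + Cl) / 2 + p ^ j * m * M ≤ L ((Q i').lam j + p ^ j • d) := by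
      intro i' m d j hm hj hle A hA hlow
      rw [map_add, map_nsmul, nsmul_eq_mul] at hlow ⊢
      push_cast at hlow ⊢
      have e1 := (abs_Lf hs c (hlb i' _ le_rfl c)).2
      have e2 := (abs_Lf hs c (hlb i' _ hj.le c)).1
      rw [← hL] at e1 e2
      have e3 : -(A + Cl) ≤ (p : ℝ) ^ (Q i').J * (L d - m * M) := by
        have : (p : ℝ) ^ (Q i').J * (L d - m * M) =
          (p : ℝ) ^ (Q i').J * L d - p ^ (Q i').J * m * M := by ring
        rw [this]
        linarith
      have hpR : (1 : ℝ) ≤ (p : ℝ) := by exact_mod_cast (by omega : 1 ≤ p)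
      have e4 : 2 * (p : ℝ) ^ j ≤ p ^ (Q i').J := by
        have h5 : (p : ℝ) ^ (j + 1) ≤ p ^ (Q i').J := pow_le_pow_right₀ hpR hj
        have h6 : (2 : ℝ) ≤ p := by exact_mod_cast hp2
        have h7 : (0 : ℝ) ≤ p ^ j := by positivity
        rw [pow_succ] at h5
        nlinarith
      have e5 := half_bound (by positivity) e4 (by linarith) e3
      have e6 : (p : ℝ) ^ j * L d = p ^ j * (L d - m * M) + p ^ j * m * M := by ring
      linarith
    have hjm : ∀ i' m j, m ≠ 0 → j < (Q i').J → p ^ j * m + 1 ≤ p ^ (Q i').J * m := by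
      intro i' m j hm hj
      exact Nat.mul_lt_mul_of_pos_right (Nat.pow_lt_pow_right (by omega) hj)
        (Nat.pos_of_ne_zero hm)
    have hMR0 : (0 : ℝ) ≤ M := by linarith
    have hRed : RedP p Q P' := by
      intro i' m d hm hle j hj _
      obtain ⟨hle1, hle2⟩ := hle
      have q1 := hjm i' m j hm hj
      have q1R : ((p : ℝ) ^ j * m + 1 ≤ p ^ (Q i').J * m) := by exact_mod_cast q1
      have q2R : ((p : ℝ) ^ (Q i').J * m ≤ D) := by exact_mod_cast hle1
      refine ⟨by omega, ?_⟩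
      have hA : (0 : ℝ) ≤ c₀ + 2 * Cl * (D - p ^ (Q i').J * m) + (D - 1) * M := by
        have := mul_nonneg hClR (by linarith : (0 : ℝ) ≤ D - p ^ (Q i').J * m)
        have := mul_nonneg (by linarith : (0 : ℝ) ≤ D - 1) hMR0
        linarith
      have e := hstep i' m d j hm hj hle1 _ hA (by
        push_cast at hle2
        linarith)
      have e' : 2 * (Cl : ℝ) * (D - p ^ (Q i').J * m) + 2 * Cl ≤ 2 * Cl * (D - p ^ j * m) := by
        have := mul_le_mul_of_nonneg_left q1R (by linarith : (0 : ℝ) ≤ 2 * Cl)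
        linarith
      push_cast
      linarith
    have hRed' : ∀ i' m d, m ≠ 0 → P (p ^ (Q i').J * m)
        ((Q i').lam (Q i').J + p ^ (Q i').J • d) → ∀ j < (Q i').J, (Q i').c j ≠ 0 →
        P' (p ^ j * m) ((Q i').lam j + p ^ j • d) := by
      intro i' m d hm hle j hj _
      obtain ⟨hle1, hle2⟩ := hle
      have q1 := hjm i' m j hm hj
      have q1R : ((p : ℝ) ^ j * m + 1 ≤ p ^ (Q i').J * m) := by exact_mod_cast q1
      have q2R : ((p : ℝ) ^ (Q i').J * m ≤ D) := by exact_mod_cast hle1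
      refine ⟨by omega, ?_⟩
      have hA : (0 : ℝ) ≤ c₀ + D * M := by positivity
      have e := hstep i' m d j hm hj hle1 _ hA (by
        push_cast at hle2
        linarith)
      have e' : 2 * (Cl : ℝ) ≤ 2 * Cl * (D - p ^ j * m) := by
        have := mul_le_mul_of_nonneg_left (by linarith : (1 : ℝ) ≤ D - p ^ j * m)
          (by linarith : (0 : ℝ) ≤ 2 * Cl)
        linarith
      have e'' : (D : ℝ) * M / 2 ≤ (D - 1) * M := by nlinarith
      push_cast
      linarith
    have hdeg : ∀ m, (taylor h' φ).coeff m ≠ 0 → m ≤ D := by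
      intro m hm
      refine (le_natDegree_of_ne_zero hm).trans ?_
      rw [natDegree_taylor]
      exact hφ
    have hterm : ∀ m n : ℕ, n ≤ m → GeV L (-(c₀ + (m - n) * M : ℝ))
        (φ.coeff m * (h' ^ (m - n) * ((m.choose n : ℕ) : MH.LL k r))) := by
      intro m n hnm
      refine ((hLφ m).mul ((hLh'.pow (m - n)).mul (MH.GeV.natCast _))).mono ?_
      push_cast [hnm]
      linarith
    have hSp : Sp P (taylor h' φ) := by
      intro n g hng
      have hn : n ≤ D := hdeg n fun h0 => hng (by rw [cf, h0]; rfl)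
      refine ⟨hn, ?_⟩
      rw [cf, coeff_taylor_sum h' φ hφ] at hng
      refine (MH.GeV.sum (val := L) _ _ fun m hm => ?_) g hng
      split_ifs with hnm
      · refine (hterm m n hnm).mono ?_
        have h2 : (m : ℝ) ≤ D := by
          have := Finset.mem_range.1 hm
          exact_mod_cast (by omega : m ≤ D)
        nlinarith
      · exact MH.GeV.zero
    -- the exponent
    obtain ⟨v, hv, hvmin⟩ := Finset.exists_min_image (φ.coeff D).coeff.support L
      ⟨v₀, Finsupp.mem_support_iff.2 hv₀⟩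
    have hv' : cf φ D v ≠ 0 := Finsupp.mem_support_iff.1 hv
    obtain ⟨hvI, hvR, -⟩ := h1 v hv'
    set g₁ := v + p ^ i • γ with hg₁
    have hLg : L g₁ = L v - p ^ i * M := by
      rw [hg₁, map_add, map_nsmul, hLγ, nsmul_eq_mul]
      push_cast
      ring
    have hLv : L v ≤ c₀ := (abs_Lf hs c (hcb D v hv' c)).2
    have hIr : IrM p Q l g₁ := by
      refine ⟨hl0, ?_⟩
      rintro i' m d ⟨e1, e2⟩
      have hJi : (Q i').J ≤ i := hJ _ ⟨m, e1⟩
      refine hvI.2 i' (m + p ^ (i - (Q i').J)) (d - p ^ (i - (Q i').J) • γ) ⟨?_, ?_⟩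
      · rw [hDl, e1, mul_add, ← pow_add, Nat.add_sub_cancel' hJi]
      · have e3 : p ^ (Q i').J • (p ^ (i - (Q i').J) • γ) = p ^ i • γ := by
          rw [← mul_smul, ← pow_add, Nat.add_sub_cancel' hJi]
        rw [smul_sub, e3, ← add_sub_assoc, ← e2, hg₁, add_sub_cancel_right]
    have hpi : (1 : ℝ) ≤ (p : ℝ) ^ i := one_le_pow₀ (by exact_mod_cast (by omega : 1 ≤ p))
    have hClD : (Cl : ℝ) * p ^ i ≤ Cl * D := by
      refine mul_le_mul_of_nonneg_left ?_ hClR
      rw [hDR]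
      have : (0 : ℝ) ≤ l := by positivity
      linarith
    have hnP : ¬ P' l g₁ := by
      rintro ⟨-, h2⟩
      rw [hLg, hDR] at h2
      have h3 : ((l : ℝ) + p ^ i - 1 - l) * M = p ^ i * M - M := by ring
      have h4 : 2 * (Cl : ℝ) * (l + p ^ i - l) = 2 * (Cl * p ^ i) := by ring
      rw [h3, h4] at h2
      linarith
    have hnf := nf_step hd (P := P) (P' := P') hRed hRed' hSp hIr hnP
    -- the coefficient
    have hval : cf (taylor h' φ) l g₁ ≠ 0 := by
      rw [cf, coeff_taylor_sum h' φ hφ, Finset.sum_range_succ, MH.coeff_add_apply,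
        if_pos (by omega)]
      have z1 : (∑ m ∈ Finset.range D, if l ≤ m then
          φ.coeff m * (h' ^ (m - l) * ((m.choose l : ℕ) : MH.LL k r)) else 0).coeff g₁ = 0 := by
        by_contra hcon
        have h2 : GeV L (-(c₀ + (p ^ i - 1) * M : ℝ)) (∑ m ∈ Finset.range D, if l ≤ m then
          φ.coeff m * (h' ^ (m - l) * ((m.choose l : ℕ) : MH.LL k r)) else 0) := by
          refine MH.GeV.sum _ _ fun m hm => ?_
          split_ifs with hlm
          · refine (hterm m l hlm).mono ?_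
            have h3 : (m : ℝ) + 1 ≤ D := by
              have := Finset.mem_range.1 hm
              exact_mod_cast (by omega : m + 1 ≤ D)
            have h4 : ((m : ℝ) - l) * M ≤ (p ^ i - 1) * M :=
              mul_le_mul_of_nonneg_right (by linarith) hMR0
            linarith
          · exact MH.GeV.zero
        have h3 := h2 g₁ hcon
        rw [hLg] at h3
        have h5 : (0 : ℝ) ≤ Cl * D := by positivity
        linarith
      rw [z1, zero_add]
      have hDli : D - l = p ^ i := by omega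
      rw [hDli]
      have e1 : h' ^ p ^ i = h ^ p ^ i + AddMonoidAlgebra.single (p ^ i • γ) (μ ^ p ^ i) := by
        rw [hh', add_pow_char_pow, AddMonoidAlgebra.single_pow]
      have e2 : φ.coeff D * (h' ^ p ^ i * ((D.choose l : ℕ) : MH.LL k r)) =
          φ.coeff D * (h ^ p ^ i * ((D.choose l : ℕ) : MH.LL k r)) +
          AddMonoidAlgebra.single (p ^ i • γ) (μ ^ p ^ i * (D.choose l : ℕ)) * φ.coeff D := by
        have e3 : AddMonoidAlgebra.single (p ^ i • γ) (μ ^ p ^ i * ((D.choose l : ℕ) : k)) =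
            AddMonoidAlgebra.single (p ^ i • γ) (μ ^ p ^ i) * ((D.choose l : ℕ) : MH.LL k r) := by
          rw [AddMonoidAlgebra.natCast_def, AddMonoidAlgebra.single_mul_single, add_zero]
        rw [e1, e3]
        ring
      rw [e2, MH.coeff_add_apply]
      have z2 : (φ.coeff D * (h ^ p ^ i * ((D.choose l : ℕ) : MH.LL k r))).coeff g₁ = 0 := by
        by_contra hcon
        have h2 : GeV L (L v) (φ.coeff D) := fun g hg =>
          hvmin g (Finsupp.mem_support_iff.2 hg)
        have h3 := (h2.mul ((hLh.pow (p ^ i)).mul (MH.GeV.natCast (D.choose l)))) g₁ hcon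
        rw [hLg] at h3
        push_cast at h3
        have h4 : (p : ℝ) ^ i * M₀ < p ^ i * M := mul_lt_mul_of_pos_left hMR (by linarith)
        linarith
      rw [z2, zero_add, AddMonoidAlgebra.coeff_single_mul_apply, hg₁, neg_add_eq_sub,
        add_sub_cancel_right]
      refine mul_ne_zero (mul_ne_zero (pow_ne_zero _ hμ) ?_) hv'
      intro h0
      exact hch ((CharP.cast_eq_zero_iff k p _).1 h0)
    -- the bound
    have hb := trans_bound (R := R) (ρ := ρ) p hd (fun a b => dense_val y) hφ h' hG (by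
      intro ε hε
      obtain ⟨s', hs', hG'⟩ := hyp ε hε
      obtain ⟨I, h2, h3⟩ := ((near p hd hh y hs' hε.le hG').and hev).exists
      exact ⟨y.h I, h3, h2⟩) hl0 (g := g₁) (by rw [hnf]; exact hval)
    have hDli : D - l = p ^ i := by omega
    rw [hDli, hg₁, map_add, map_nsmul, nsmul_eq_mul] at hb
    push_cast at hb
    have h2 : (p : ℝ) ^ i * val γ < p ^ i * (ρ - G) :=
      mul_lt_mul_of_pos_left hγG (by linarith)
    rw [hDR] at hvR
    have h3 : ((l : ℝ) + p ^ i) * ρ = l * ρ + p ^ i * ρ := by ring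
    rw [h3] at hvR
    have h4 : (p : ℝ) ^ i * (ρ - G) = p ^ i * ρ - p ^ i * G := by ring
    linarith

end Pool.Agent.TW.Core
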