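import Pool.Agent.Lib.TW.F7

/-!
# TANK W, block F: the core lemma (F9)
-/

set_option autoImplicit false

open Polynomial Filter

namespace Pool.Agent.TW.Core

open Pool.Agent.TW.MH (GeV GeW LimSeq Crit)

variable {k : Type*} [Field k] {r : ℕ} {val : (Fin r → ℤ) →+ ℝ} {R ρ : ℝ}

theorem exists_gap (S : Finset (Fin r → ℤ)) (c R : ℝ) :
    ∃ δ : ℝ, 0 < δ ∧ ∀ g ∈ S, R < val g + c → R + δ ≤ val g + c := by
  classical
  induction S using Finset.induction_on with
  | empty => exact ⟨1, one_pos, fun g hg => absurd hg (Finset.notMem_empty g)⟩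
  | insert a s _ ih =>
    obtain ⟨δ, hδ, h⟩ := ih
    by_cases ha : R < val a + c
    · refine ⟨min δ (val a + c - R), lt_min hδ (by linarith), fun g hg hlt => ?_⟩
      rcases Finset.mem_insert.1 hg with rfl | hg
      · have := min_le_right δ (val g + c - R)
        linarith
      · have := min_le_left δ (val a + c - R)
        have := h g hg hlt
        linarith
    · refine ⟨δ, hδ, fun g hg hlt => ?_⟩
      rcases Finset.mem_insert.1 hg with rfl | hg
      · exact absurd hlt ha
      · exact h g hg hlt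

/-- powers of `Y - h`, `h` near -/
theorem GeW.pow_sub (y : LimSeq k val ρ) {b c : ℝ} (hb : b < ρ) {a : MH.LL k r} {E : ℕ}
    (ha : GeV val (c - E * b) a) : ∃ h : MH.LL k r, GeW y c (C a * (X - C h) ^ E) := by
  obtain ⟨I₀, hI₀⟩ := y.cauchy b hb
  refine ⟨y.h I₀, ?_⟩
  refine Filter.Eventually.mono (eventually_ge_atTop I₀) fun I hI => ?_
  rw [eval_mul, eval_C, eval_pow, eval_sub, eval_X, eval_C]
  refine (ha.mul ((hI₀ I hI I₀ le_rfl).pow E)).mono ?_
  linarith

variable (p : ℕ) [Fact p.Prime] [CharP k p] {ι : Type} [Fintype ι]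
  {Q : ι → Op k (Fin r → ℤ)} [IsAlgClosed k] {Rs : ι → ℝ}

theorem core_aux (hd : Disj p Q) (hh : Hom p Q val Rs R) (hinj : Function.Injective val)
    (y : LimSeq k val ρ) (D : ℕ) : ∀ φ : (MH.LL k r)[X], φ.natDegree ≤ D →
    (∀ ε : ℝ, 0 < ε → ∃ s, InS p Q s ∧ GeW y (R - ε) (φ - s)) →
    ∃ s q, InS p Q s ∧ q ∈ Crit k p val ρ R ∧ GeW y R (φ - s - q) := by
  classical
  induction D with
  | zero =>
    intro φ hφ _
    refine ⟨φ, 0, ?_, zero_mem _, ?_⟩
    · rw [eq_C_of_natDegree_le_zero hφ]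
      exact InS.C _
    · rw [sub_self, sub_zero]
      exact MH.GeW.zero
  | succ D ih =>
    intro φ hφ hyp
    set E := D + 1 with hE
    have hER : (0 : ℝ) < E := by exact_mod_cast Nat.succ_pos D
    set φ₂ := nf p Q φ with hφ₂
    have hin := sub_nf p Q φ
    rw [← hφ₂] at hin
    have hSp : Sp (fun l _ => l ≤ E) φ₂ := by
      refine nf_sp hd (redP_deg (p := p) (Q := Q) E) fun l g hlg => ?_
      exact (le_natDegree_of_ne_zero fun h0 => hlg (by rw [cf, h0]; rfl)).trans hφ
    have hdeg₂ : φ₂.natDegree ≤ E := by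
      rw [natDegree_le_iff_coeff_eq_zero]
      intro n hn
      ext g
      by_contra hne
      exact absurd (hSp n g hne) (by omega)
    have hyp₂ : ∀ ε : ℝ, 0 < ε → ∃ s, InS p Q s ∧ GeW y (R - ε) (φ₂ - s) := by
      intro ε hε
      obtain ⟨s, hs, h⟩ := hyp ε hε
      refine ⟨s - (φ - φ₂), hs.sub hin, ?_⟩
      rwa [show φ₂ - (s - (φ - φ₂)) = φ - s by ring]
    set a := φ₂.coeff E with ha
    set Tb : (Fin r → ℤ) → Prop := fun g => R < val g + E * ρ with hTb
    set Tc : (Fin r → ℤ) → Prop := fun g => (∃ i, E = p ^ i) ∧ val g + E * ρ = R with hTc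
    set ab := part Tb a with hab
    set ac := part Tc a with hac
    -- the big part
    obtain ⟨δ, hδ, hgap⟩ := exists_gap (val := val) a.coeff.support (E * ρ) R
    have hEδ : (E : ℝ) * (δ / E) = δ := mul_div_cancel₀ _ hER.ne'
    obtain ⟨h, hpb⟩ := GeW.pow_sub y (b := ρ - δ / E) (c := R) (E := E) (a := ab)
      (by have : 0 < δ / E := by positivity
          linarith) (by
        intro g hg
        obtain ⟨h1, h2⟩ := part_ne hg
        have := hgap g (Finsupp.mem_support_iff.2 h2) h1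
        have e : (E : ℝ) * (ρ - δ / E) = E * ρ - δ := by rw [mul_sub, hEδ]
        rw [e]
        linarith)
    set pb := C ab * (X - C h) ^ E with hpbd
    set pc := (monomial E ac : (MH.LL k r)[X]) with hpcd
    have hpc : pc ∈ Crit k p val ρ R := by
      intro n g hg
      rw [hpcd, coeff_monomial] at hg
      by_cases hn : E = n
      · subst hn
        rw [if_pos rfl] at hg
        obtain ⟨⟨i, hi⟩, h2⟩ := (part_ne hg).1
        exact ⟨i, hi, h2⟩
      · rw [if_neg hn] at hg
        exact absurd rfl hg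
    set φ₃ := φ₂ - pb - pc with hφ₃
    have hpbE : pb.coeff E = ab := by
      have h1 : ((X - C h) ^ E).coeff E = 1 := by
        have h2 := ((monic_X_sub_C h).pow E).coeff_natDegree
        rwa [(monic_X_sub_C h).natDegree_pow, natDegree_X_sub_C, mul_one] at h2
      rw [hpbd, coeff_C_mul, h1, mul_one]
    have hdeg₃ : φ₃.natDegree ≤ E := by
      refine (natDegree_sub_le_of_le (natDegree_sub_le_of_le hdeg₂ ?_) ?_).trans_eq
        (by rw [max_self, max_self] : max (max E E) E = E)
      · refine (natDegree_C_mul_le _ _).trans ?_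
        rw [(monic_X_sub_C h).natDegree_pow, natDegree_X_sub_C, mul_one]
      · exact natDegree_monomial_le _
    have hcoef₃ : φ₃.coeff E = a - ab - ac := by
      rw [hφ₃, coeff_sub, coeff_sub, hpbE, hpcd, coeff_monomial, if_pos rfl]
    have hyp₃ : ∀ ε : ℝ, 0 < ε → ∃ s, InS p Q s ∧ GeW y (R - ε) (φ₃ - s) := by
      intro ε hε
      obtain ⟨s, hs, hs'⟩ := hyp₂ ε hε
      obtain ⟨n, hn⟩ : ∃ n, GeW y (R - ε) (pc - C n) := by
        by_cases hpow : ∃ i, E = p ^ i
        · obtain ⟨h', hh'⟩ := GeW.pow_sub y (b := ρ - ε / E) (c := R - ε) (E := E) (a := ac)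
            (by have : 0 < ε / E := by positivity
                linarith) (by
              intro g hg
              obtain ⟨⟨-, h1⟩, h2⟩ := part_ne hg
              have e : (E : ℝ) * (ρ - ε / E) = E * ρ - ε := by
                rw [mul_sub, mul_div_cancel₀ _ hER.ne']
              rw [e]
              linarith)
          refine ⟨ac * h' ^ E, ?_⟩
          obtain ⟨i, hi⟩ := hpow
          have e : C ac * (X - C h') ^ E = pc - C (ac * h' ^ E) := by
            rw [hpcd, ← C_mul_X_pow_eq_monomial, hi, sub_pow_char_pow, C_mul, C_pow]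
            ring
          rwa [e] at hh'
        · refine ⟨0, ?_⟩
          have h0 : ac = 0 := by
            ext g
            by_contra hne
            exact hpow (part_ne hne).1.1
          rw [hpcd, h0, map_zero, C_0, sub_zero]
          exact MH.GeW.zero
      refine ⟨s - C n, hs.sub (InS.C n), ?_⟩
      have e : φ₃ - (s - C n) = (φ₂ - s) - pb - (pc - C n) := by rw [hφ₃]; ring
      rw [e]
      exact (hs'.sub (hpb.mono (by linarith))).sub hn
    have hzero : φ₃.coeff E = 0 := by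
      refine main_step p hd hh hinj y (by omega) hdeg₃ hyp₃ fun v hv => ?_
      rw [cf, hcoef₃, MH.coeff_sub_apply, MH.coeff_sub_apply] at hv
      have hb : ¬ Tb v := by
        intro hb
        apply hv
        have hc : ¬ Tc v := fun hc => by
          have h1 : val v + E * ρ = R := hc.2
          have h2 : R < val v + E * ρ := hb
          linarith
        rw [hab, part_coeff_pos hb, hac, part_coeff_neg hc, sub_self, sub_zero]
      have hc : ¬ Tc v := by
        intro hc
        apply hv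
        rw [hab, part_coeff_neg hb, hac, part_coeff_pos hc, sub_zero, sub_self]
      rw [hab, part_coeff_neg hb, hac, part_coeff_neg hc, sub_zero, sub_zero] at hv
      have hle : val v + E * ρ ≤ R := not_lt.1 hb
      refine ⟨nf_irr p Q φ E v hv, hle, fun hpow => lt_of_le_of_ne hle fun h0 => hc ⟨hpow, h0⟩⟩
    have hdeg₃' : φ₃.natDegree ≤ D := by
      rw [natDegree_le_iff_coeff_eq_zero] at hdeg₃ ⊢
      intro n hn
      by_cases hnE : n = E
      · rw [hnE]; exact hzero
      · exact hdeg₃ n (by omega)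
    obtain ⟨s, q, hs, hq, hG⟩ := ih φ₃ hdeg₃' hyp₃
    refine ⟨s + (φ - φ₂), q + pc, hs.add hin, add_mem hq hpc, ?_⟩
    have e : φ - (s + (φ - φ₂)) - (q + pc) = (φ₃ - s - q) + pb := by rw [hφ₃]; ring
    rw [e]
    exact hG.add hpb

end Pool.Agent.TW.Core

namespace Pool.Agent.TW.MH

open Pool.Agent.TW.Core

variable {k : Type*} [Field k] {r m : ℕ} {val : (Fin r → ℤ) →+ ℝ} {R ρ : ℝ} {p : ℕ}
  {Rs : Fin m → ℝ}

/-- the operators as a family -/
def Ops.fam (Q : Ops p k r m val Rs R) (i : Fin m) : Op k (Fin r → ℤ) :=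
  ⟨Q.J i, Q.c i, Q.lam i, Q.top i⟩

theorem Ops.fam_disj (Q : Ops p k r m val Rs R) : Disj p Q.fam := by
  have key : ∀ i i' d d', Q.J i ≤ Q.J i' →
      Q.lam i (Q.J i) + p ^ Q.J i • d = Q.lam i' (Q.J i') + p ^ Q.J i' • d' → i = i' := by
    intro i i' d d' hle h
    by_contra hne
    refine Q.nd i i' hne hle (d - p ^ (Q.J i' - Q.J i) • d') ?_
    have e3 : p ^ Q.J i • (p ^ (Q.J i' - Q.J i) • d') = p ^ Q.J i' • d' := by
      rw [← mul_smul, ← pow_add, Nat.add_sub_cancel' hle]
    rw [smul_sub, e3, ← add_sub_assoc, h, add_sub_cancel_right]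
  intro i i' d d' h
  rcases le_total (Q.J i) (Q.J i') with hle | hle
  · exact key i i' d d' hle h
  · exact (key i' i d' d hle h.symm).symm

theorem Ops.fam_hom (Q : Ops p k r m val Rs R) : Hom p Q.fam val Rs R := fun i j hj hc =>
  Q.hom i j hj hc

theorem Ops.inS_iff [Fact p.Prime] [CharP k p] (Q : Ops p k r m val Rs R) (φ : (LL k r)[X]) :
    InS p Q.fam φ ↔ ∃ (ψ : Fin m → (LL k r)[X]) (n : LL k r), φ = Q.act ψ + C n := Iff.rfl

/-- **THE CORE LEMMA** -/
theorem core [Fact p.Prime] [CharP k p] [IsAlgClosed k] (hinj : Function.Injective val)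
    (y : LimSeq k val ρ) (Q : Ops p k r m val Rs R) (φ : (LL k r)[X])
    (hφ : ∀ ε : ℝ, 0 < ε → ∃ (ψ : Fin m → (LL k r)[X]) (n : LL k r),
      GeW y (R - ε) (φ - Q.act ψ - C n)) :
    ∃ (ψ : Fin m → (LL k r)[X]) (n : LL k r), ∃ q ∈ Crit k p val ρ R,
      GeW y R (φ - Q.act ψ - C n - q) := by
  obtain ⟨s, q, hs, hq, h⟩ := core_aux p Q.fam_disj Q.fam_hom hinj y φ.natDegree φ le_rfl (by
    intro ε hε
    obtain ⟨ψ, n, h⟩ := hφ ε hε
    refine ⟨Q.act ψ + C n, (Q.inS_iff _).2 ⟨ψ, n, rfl⟩, ?_⟩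
    rwa [← sub_sub])
  obtain ⟨ψ, n, rfl⟩ := (Q.inS_iff _).1 hs
  refine ⟨ψ, n, q, hq, ?_⟩
  rwa [← sub_sub] at h

end Pool.Agent.TW.MH
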