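import Pool.Agent.Lib.TW.H6a

/-!
# TANK W, H6: `B[θ]` is henselian if `B` is and `θ` is integral over `B`

`S = B[θ]`, `g` over `S`, `g(a) = 0`, `g'(a)` of value zero, `a` of positive value. Then `a` is
integral over `B`; Newton's iteration in `S` gives `b ∈ S` with `b - a ∈ a^(j+1) B[θ, a]`; a power of
`a` is in `m_B · B[θ, a]`, so `B[θ, a] = S + m_B · B[θ, a]` and Nakayama's lemma applies.
-/

set_option autoImplicit false

open Polynomial

namespace Pool.Agent.TW

open Pool.Agent.H15JM (RVal)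
open Pool.Agent.LU1 (VPos adj)
open Pool.Agent.LUC (Cl clF lv)
open Pool.Agent.D2 (Ctx0)
open Pool.Agent.D2P (hen rootF)

universe u

variable {k Ω : Type u} [Field k] [Field Ω] [Algebra k Ω] {v : RVal Ω}

theorem adjoin_toSubring (B : Subring Ω) (s : Set Ω) :
    (Algebra.adjoin B s).toSubring = Subring.closure ((B : Set Ω) ∪ s) := by
  rw [Algebra.adjoin_eq_ring_closure]
  congr 2
  ext x
  constructor
  · rintro ⟨y, rfl⟩
    exact y.2
  · intro hx
    exact ⟨⟨x, hx⟩, rfl⟩

/-- The elements of positive value of `B`, as an ideal. -/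
def mB (v : RVal Ω) (B : Subring Ω) (hB : ∀ f ∈ B, v.Ge 0 f) : Ideal B where
  carrier := {b | VPos v (b : Ω)}
  add_mem' := fun ha hb => LU1.VPos.add ha hb
  zero_mem' := LU1.VPos.zero
  smul_mem' := fun c _ hx => LU1.VPos.mul' (hB _ c.2) hx

theorem mB_le_jacobson {B : Subring Ω} (hB : HClosed v B) :
    mB v B hB.nonneg ≤ Ideal.jacobson ⊥ := by
  intro x hx
  rw [Ideal.mem_jacobson_bot]
  intro y
  have hxy : VPos v ((x : Ω) * y) := LU1.VPos.mul hx (hB.nonneg _ y.2)
  have h1 : ¬ VPos v ((x : Ω) * y + 1) := by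
    intro hcon
    have h2 := hcon.sub hxy
    rw [add_sub_cancel_left] at h2
    exact not_VPos_of_unit one_ne_zero v.map_one h2
  have hmem : (x : Ω) * y + 1 ∈ B := add_mem (mul_mem x.2 y.2) (one_mem _)
  obtain ⟨h0, hv⟩ := unit_of_not_VPos (hB.nonneg _ hmem) h1
  have hinv := hB.inv _ hmem h0 hv
  refine isUnit_iff_exists_inv.2 ⟨⟨_, hinv⟩, ?_⟩
  apply Subtype.ext
  simp only [Subring.coe_mul, Subring.coe_add, Subring.coe_one]
  exact mul_inv_cancel₀ h0

/-- A root of positive value of a polynomial over `B[θ]` is integral over `B`. -/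
theorem isIntegral_root [IsAlgClosed Ω] (h : Ctx0 k v) {B : Subring Ω} (hB : HClosed v B)
    (hk : ∀ c : k, algebraMap k Ω c ∈ B) {θ : Ω} (hθ : IsIntegral B θ) {g : Polynomial Ω}
    (hg : g ∈ PolyIn (Algebra.adjoin B {θ}).toSubring) {a : Ω} (ha : VPos v a)
    (hga : g.eval a = 0) (hd : g.derivative.eval a ≠ 0) (hdv : v (g.derivative.eval a) = 0) :
    IsIntegral B a := by
  set S := Algebra.adjoin B {θ} with hS
  have hSint : ∀ x ∈ S, IsIntegral B x := fun x hx =>
    IsIntegral.of_mem_of_fg S hθ.fg_adjoin_singleton x hx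
  have hSge : ∀ x ∈ S, v.Ge 0 x := by
    intro x hx
    obtain ⟨p, hp, hpx⟩ := hSint x hx
    refine LU1.ge_of_root (hp.map (algebraMap B Ω)) (fun i => ?_) (by rw [eval_map]; exact hpx)
    rw [coeff_map]
    exact hB.nonneg _ (Subtype.coe_prop _)
  have hSO : S.toSubring ≤ OVt v := fun x hx => hSge x hx
  set w : Ω := (divX g).eval a with hw
  have hgw : w * a + g.coeff 0 = 0 := by
    have h5 := congrArg (fun P => P.eval a) (divX_mul_X_add g)
    simp only [eval_add, eval_mul, eval_X, eval_C] at h5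
    rw [hw, h5, hga]
  have hdX : divX g ∈ PolyIn S.toSubring := by
    rw [mem_PolyIn]
    intro i
    rw [coeff_divX]
    exact mem_PolyIn.1 hg _
  -- `w` has value zero
  have hwne : ¬ VPos v w := by
    intro hcon
    refine not_VPos_of_unit hd hdv ?_
    have e : g.derivative.eval a = (divX g).derivative.eval a * a + w := by
      conv_lhs => rw [← divX_mul_X_add g]
      simp [hw]
    rw [e]
    refine LU1.VPos.add (LU1.VPos.mul' ?_ ha) hcon
    have hO : (divX g).derivative ∈ PolyIn (OVt v) := by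
      rw [mem_PolyIn]
      intro i
      rw [coeff_derivative]
      exact mul_mem (hSO (mem_PolyIn.1 hdX _)) (add_mem (natCast_mem _ _) (one_mem _))
    exact eval_mem_of_PolyIn hO (show a ∈ OVt v from ha.ge)
  have hwge : v.Ge 0 w := by
    have hO : divX g ∈ PolyIn (OVt v) := mem_PolyIn.2 fun i => hSO (mem_PolyIn.1 hdX _)
    exact eval_mem_of_PolyIn hO (show a ∈ OVt v from ha.ge)
  obtain ⟨hw0, hwv⟩ := unit_of_not_VPos hwge hwne
  -- `w` is integral over `S`
  set d := (divX g).natDegree + 1 with hdd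
  set W : Polynomial Ω := X ^ d - ∑ i ∈ Finset.range d,
    C (g.coeff (i + 1) * (-g.coeff 0) ^ i) * X ^ (d - 1 - i) with hW
  have hWm : W.Monic := by
    refine monic_X_pow_sub ?_
    refine (degree_sum_le _ _).trans_lt ?_
    rw [Finset.sup_lt_iff (by exact WithBot.bot_lt_coe _)]
    intro i hi
    refine (degree_C_mul_X_pow_le _ _).trans_lt ?_
    exact_mod_cast (by omega : d - 1 - i < d)
  have hWS : W ∈ PolyIn S.toSubring := by
    refine sub_mem (pow_mem (X_mem_PolyIn _) _) (sum_mem fun i _ => mul_mem (C_mem_PolyIn ?_)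
      (pow_mem (X_mem_PolyIn _) _))
    exact mul_mem (mem_PolyIn.1 hg _) (pow_mem (neg_mem (mem_PolyIn.1 hg _)) _)
  have hWw : W.eval w = 0 := by
    have e1 : -g.coeff 0 = w * a := by linear_combination -hgw
    have e2 : w = ∑ i ∈ Finset.range d, g.coeff (i + 1) * a ^ i := by
      rw [hw, eval_eq_sum_range]
      simp [coeff_divX, hdd]
    rw [hW, eval_sub, eval_pow, eval_X, eval_finsetSum, sub_eq_zero]
    have e3 : ∀ i ∈ Finset.range d, eval w (C (g.coeff (i + 1) * (-g.coeff 0) ^ i) *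
        X ^ (d - 1 - i)) = w ^ (d - 1) * (g.coeff (i + 1) * a ^ i) := by
      intro i hi
      rw [eval_mul, eval_C, eval_pow, eval_X, e1, mul_pow]
      have : w ^ (d - 1) = w ^ i * w ^ (d - 1 - i) := by
        rw [← pow_add]
        congr 1
        have := Finset.mem_range.1 hi
        omega
      rw [this]
      ring
    rw [Finset.sum_congr rfl e3, ← Finset.mul_sum, ← e2, ← pow_succ]
    congr 1
  have hwS : IsIntegral S w := isIntegral_of_PolyIn (D := S.toSubring) hWS hWm hWw
  have : Algebra.IsIntegral B S := ⟨fun x => by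
    have := hSint x x.2
    exact (isIntegral_algebraMap_iff (Subtype.val_injective (p := (· ∈ S)))).1 this⟩
  have hwB : IsIntegral B w := isIntegral_trans (R := B) (A := S) w hwS
  have hwi : w⁻¹ ∈ (Algebra.adjoin B {w}).toSubring :=
    inv_mem_of_isIntegral h hB hk (fun x hx => (Algebra.adjoin B {w}).algebraMap_mem ⟨x, hx⟩)
      (Algebra.self_mem_adjoin_singleton B w) hwB hw0 hwv
  have hwi' : IsIntegral B w⁻¹ := IsIntegral.of_mem_of_fg _ hwB.fg_adjoin_singleton _ hwi
  have ha' : a = -g.coeff 0 * w⁻¹ := by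
    field_simp
    linear_combination hgw
  rw [ha']
  exact (hSint _ (mem_PolyIn.1 hg 0)).neg.mul hwi'

theorem mul_mem_smul {B : Subring Ω} (I : Ideal B) (S2 : Subalgebra B Ω) {z w : Ω}
    (hz : z ∈ I • S2.toSubmodule) (hw : w ∈ S2) : z * w ∈ I • S2.toSubmodule := by
  refine Submodule.smul_induction_on (p := fun z => z * w ∈ I • S2.toSubmodule) hz ?_ ?_
  · intro r hr n hn
    rw [smul_mul_assoc]
    exact Submodule.smul_mem_smul hr (S2.mul_mem hn hw)
  · intro x y hx hy
    rw [add_mul]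
    exact add_mem hx hy

/-- The case of a root of positive value. -/
theorem root_mem_pos [IsAlgClosed Ω] (h : Ctx0 k v) {B : Subring Ω} (hB : HClosed v B)
    (hk : ∀ c : k, algebraMap k Ω c ∈ B) {θ : Ω} (hθ : IsIntegral B θ) {g : Polynomial Ω}
    (hg : g ∈ PolyIn (Algebra.adjoin B {θ}).toSubring) {a : Ω} (ha : VPos v a)
    (hga : g.eval a = 0) (hd : g.derivative.eval a ≠ 0) (hdv : v (g.derivative.eval a) = 0) :
    a ∈ Algebra.adjoin B {θ} := by
  have hai := isIntegral_root h hB hk hθ hg ha hga hd hdv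
  set S := Algebra.adjoin B {θ} with hS
  set S2 := Algebra.adjoin B {θ, a} with hS2
  have hSint : ∀ x ∈ S, IsIntegral B x := fun x hx =>
    IsIntegral.of_mem_of_fg S hθ.fg_adjoin_singleton x hx
  have hfg : S2.toSubmodule.FG := fg_adjoin_of_finite (by simp) (by
    intro x hx
    rcases hx with rfl | hx
    · exact hθ
    · rw [Set.mem_singleton_iff.1 hx]
      exact hai)
  have hge : ∀ x, IsIntegral B x → v.Ge 0 x := by
    intro x hx
    obtain ⟨p, hp, hpx⟩ := hx
    refine LU1.ge_of_root (hp.map (algebraMap B Ω)) (fun i => ?_) (by rw [eval_map]; exact hpx)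
    rw [coeff_map]
    exact hB.nonneg _ (Subtype.coe_prop _)
  have hS2O : ∀ x ∈ S2, v.Ge 0 x := fun x hx => hge x (IsIntegral.of_mem_of_fg S2 hfg x hx)
  have hSS2 : S ≤ S2 := Algebra.adjoin_mono (by simp)
  have haS2 : a ∈ S2 := Algebra.subset_adjoin (by simp)
  have hgS2 : g ∈ PolyIn S2.toSubring := mem_PolyIn.2 fun i => hSS2 (mem_PolyIn.1 hg i)
  have hg' : g.derivative ∈ PolyIn S.toSubring := by
    rw [mem_PolyIn]
    intro i
    rw [coeff_derivative]
    exact mul_mem (mem_PolyIn.1 hg _) (add_mem (natCast_mem _ _) (one_mem _))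
  have hg'2 : g.derivative ∈ PolyIn S2.toSubring := mem_PolyIn.2 fun i => hSS2 (mem_PolyIn.1 hg' i)
  -- Newton's iteration
  have hnewton : ∀ j : ℕ, ∃ b ∈ S, VPos v b ∧ ∃ m ∈ S2, b - a = a ^ (j + 1) * m := by
    intro j
    induction j with
    | zero => exact ⟨0, zero_mem _, LU1.VPos.zero, -1, neg_mem (one_mem _), by ring⟩
    | succ j ih =>
      obtain ⟨b, hbS, hb, m, hm, hbm⟩ := ih
      obtain ⟨q, hq, hqe⟩ := taylor2 hgS2 (x := b) (y := a - b) (hSS2 hbS)
        (sub_mem haS2 (hSS2 hbS))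
      obtain ⟨q', hq', hqe'⟩ := taylor2 hg'2 (x := b) (y := a - b) (hSS2 hbS)
        (sub_mem haS2 (hSS2 hbS))
      rw [add_sub_cancel] at hqe hqe'
      rw [hga] at hqe
      have hab : VPos v (a - b) := ha.sub hb
      have hg'b : ¬ VPos v (g.derivative.eval b) := by
        intro hcon
        refine not_VPos_of_unit hd hdv ?_
        rw [hqe']
        refine LU1.VPos.add (LU1.VPos.add hcon (LU1.VPos.mul' ?_ hab)) (LU1.VPos.mul' (hS2O q' hq') ?_)
        · refine hS2O _ ?_
          have h2 : g.derivative.derivative ∈ PolyIn S2.toSubring := by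
            rw [mem_PolyIn]
            intro i
            rw [coeff_derivative]
            exact mul_mem (mem_PolyIn.1 hg'2 _) (add_mem (natCast_mem _ _) (one_mem _))
          exact eval_mem_of_PolyIn h2 (hSS2 hbS)
        · rw [pow_two]
          exact hab.mul hab.ge
      have hg'bS : g.derivative.eval b ∈ S := eval_mem_of_PolyIn hg' hbS
      obtain ⟨h0, hv0⟩ := unit_of_not_VPos (hge _ (hSint _ hg'bS)) hg'b
      have hinv : (g.derivative.eval b)⁻¹ ∈ S :=
        inv_mem_of_isIntegral h hB hk (D := S.toSubring) (fun x hx => S.algebraMap_mem ⟨x, hx⟩)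
          hg'bS (hSint _ hg'bS) h0 hv0
      have hgbS : g.eval b ∈ S := eval_mem_of_PolyIn hg hbS
      have hnew : b - g.eval b * (g.derivative.eval b)⁻¹ - a =
          a ^ (j + 1 + 1) * (q * (g.derivative.eval b)⁻¹ * a ^ j * m ^ 2) := by
        have e1 : b - g.eval b * (g.derivative.eval b)⁻¹ - a =
            q * (g.derivative.eval b)⁻¹ * (b - a) ^ 2 := by
          field_simp
          linear_combination hqe
        rw [e1, hbm]
        ring
      have hmem : q * (g.derivative.eval b)⁻¹ * a ^ j * m ^ 2 ∈ S2 :=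
        mul_mem (mul_mem (mul_mem hq (hSS2 hinv)) (pow_mem haS2 _)) (pow_mem hm _)
      refine ⟨b - g.eval b * (g.derivative.eval b)⁻¹, sub_mem hbS (mul_mem hgbS hinv), ?_, _,
        hmem, hnew⟩
      have e2 : b - g.eval b * (g.derivative.eval b)⁻¹ = a +
          a * (a ^ (j + 1) * (q * (g.derivative.eval b)⁻¹ * a ^ j * m ^ 2)) := by
        linear_combination hnew
      rw [e2]
      exact LU1.VPos.add ha (ha.mul (hS2O _ (mul_mem (pow_mem haS2 _) hmem)))
  -- a power of `a` is in `m_B S2`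
  obtain ⟨G, hGm, hGB, hGx, hGn, hGp⟩ := exists_poly_pos h hB hk hai ha
  set I := mB v B hB.nonneg with hI
  have han : a ^ G.natDegree ∈ I • S2.toSubmodule := by
    have e1 : a ^ G.natDegree = -∑ i ∈ Finset.range G.natDegree, G.coeff i * a ^ i := by
      rw [eval_eq_sum_range, Finset.sum_range_succ, hGm.coeff_natDegree, one_mul] at hGx
      linear_combination hGx
    rw [e1]
    refine neg_mem (sum_mem fun i hi => ?_)
    have e2 : G.coeff i * a ^ i = (⟨_, mem_PolyIn.1 hGB i⟩ : B) • a ^ i := rfl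
    rw [e2]
    exact Submodule.smul_mem_smul (hGp i (Finset.mem_range.1 hi)) (S2.pow_mem haS2 i)
  have haN : a ∈ S.toSubmodule ⊔ I • S2.toSubmodule := by
    obtain ⟨b, hbS, -, m, hm, hbm⟩ := hnewton (G.natDegree - 1)
    rw [Nat.sub_add_cancel hGn] at hbm
    have e : a = b + -(a ^ G.natDegree * m) := by linear_combination -hbm
    rw [e]
    exact Submodule.add_mem_sup hbS (neg_mem (mul_mem_smul I S2 han hm))
  have hle : S2.toSubmodule ≤ S.toSubmodule ⊔ I • S2.toSubmodule := by
    have hNS2 : S.toSubmodule ⊔ I • S2.toSubmodule ≤ S2.toSubmodule :=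
      sup_le hSS2 Submodule.smul_le_right
    intro z hz
    refine Algebra.adjoin_induction (p := fun z _ => z ∈ S.toSubmodule ⊔ I • S2.toSubmodule)
      ?_ ?_ ?_ ?_ hz
    · intro x hx
      rcases hx with rfl | hx
      · exact Submodule.mem_sup_left (Algebra.self_mem_adjoin_singleton B _)
      · rw [Set.mem_singleton_iff.1 hx]
        exact haN
    · intro r
      exact Submodule.mem_sup_left (S.algebraMap_mem r)
    · intro x y _ _ hx hy
      exact add_mem hx hy
    · intro x y _ _ hx hy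
      obtain ⟨x1, hx1, x2, hx2, rfl⟩ := Submodule.mem_sup.1 hx
      obtain ⟨y1, hy1, y2, hy2, rfl⟩ := Submodule.mem_sup.1 hy
      have hy12 : y1 + y2 ∈ S2 := hNS2 hy
      have e : (x1 + x2) * (y1 + y2) = x1 * y1 + (y2 * x1 + x2 * (y1 + y2)) := by ring
      rw [e]
      exact Submodule.add_mem_sup (S.mul_mem hx1 hy1)
        (add_mem (mul_mem_smul I S2 hy2 (hSS2 hx1)) (mul_mem_smul I S2 hx2 hy12))
  exact Submodule.le_of_le_smul_of_le_jacobson_bot hfg (mB_le_jacobson hB) hle haS2

theorem hclosed_adjoin [IsAlgClosed Ω] (h : Ctx0 k v) {B : Subring Ω} (hB : HClosed v B)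
    (hk : ∀ c : k, algebraMap k Ω c ∈ B) {θ : Ω} (hθ : IsIntegral B θ) :
    HClosed v (Subring.closure ((B : Set Ω) ∪ {θ})) := by
  rw [← adjoin_toSubring]
  set S := Algebra.adjoin B {θ} with hS
  have hSint : ∀ x ∈ S, IsIntegral B x := fun x hx =>
    IsIntegral.of_mem_of_fg S hθ.fg_adjoin_singleton x hx
  have hge : ∀ x, IsIntegral B x → v.Ge 0 x := by
    intro x hx
    obtain ⟨p, hp, hpx⟩ := hx
    refine LU1.ge_of_root (hp.map (algebraMap B Ω)) (fun i => ?_) (by rw [eval_map]; exact hpx)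
    rw [coeff_map]
    exact hB.nonneg _ (Subtype.coe_prop _)
  refine ⟨fun f hf => hge f (hSint f hf), fun f hf h0 hv => ?_, fun g a hg ha hga hd hdv => ?_⟩
  · exact inv_mem_of_isIntegral h hB hk (D := S.toSubring) (fun x hx => S.algebraMap_mem ⟨x, hx⟩)
      hf (hSint f hf) h0 hv
  · obtain ⟨c, hc⟩ := h.residue ha
    have hcS : algebraMap k Ω c ∈ S := S.algebraMap_mem ⟨_, hk c⟩
    have hg1 : g.comp (X + C (algebraMap k Ω c)) ∈ PolyIn S.toSubring := by
      rw [comp_eq_sum_left, Polynomial.sum]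
      exact sum_mem fun i _ => mul_mem (C_mem_PolyIn (hg i))
        (pow_mem (add_mem (X_mem_PolyIn _) (C_mem_PolyIn hcS)) i)
    have e : a - algebraMap k Ω c ∈ S := by
      refine root_mem_pos h hB hk hθ hg1 hc ?_ ?_ ?_
      · simpa [eval_comp] using hga
      · simpa [eval_comp, derivative_comp] using hd
      · simpa [eval_comp, derivative_comp] using hdv
    have := add_mem e hcS
    rwa [sub_add_cancel] at this

end Pool.Agent.TW
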