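import Pool.Agent.Lib.TW.H1

set_option autoImplicit false

open Polynomial

namespace Pool.Agent.TW

open Pool.Agent.H15JM (RVal)
open Pool.Agent.LU1 (VPos adj)
open Pool.Agent.LUC (Cl clF lv)
open Pool.Agent.D2 (Ctx0)
open Pool.Agent.D2P (hen rootF)

universe u

variable {k Ω : Type u} [Field k] [Field Ω] [Algebra k Ω] {v : RVal Ω}

/-! ### Symmetric functions of the roots -/

/-- The polynomials with coefficients in `B`. -/
noncomputable def PolyIn (B : Subring Ω) : Subring (Polynomial Ω) := (Polynomial.mapRingHom B.subtype).range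

theorem mem_PolyIn {B : Subring Ω} {F : Polynomial Ω} : F ∈ PolyIn B ↔ ∀ i, F.coeff i ∈ B := by
  unfold PolyIn
  rw [Polynomial.mem_map_range]
  simp

theorem C_mem_PolyIn {B : Subring Ω} {b : Ω} (hb : b ∈ B) : (C b : Polynomial Ω) ∈ PolyIn B := by
  rw [mem_PolyIn]
  intro i
  rw [coeff_C]
  split_ifs
  · exact hb
  · exact zero_mem _

theorem X_mem_PolyIn (B : Subring Ω) : (X : Polynomial Ω) ∈ PolyIn B := by
  rw [mem_PolyIn]
  intro i
  rw [coeff_X]
  split_ifs
  · exact one_mem _
  · exact zero_mem _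

theorem eval_mem_of_PolyIn {B : Subring Ω} {F : Polynomial Ω} (hF : F ∈ PolyIn B) {b : Ω}
    (hb : b ∈ B) : F.eval b ∈ B := by
  rw [mem_PolyIn] at hF
  rw [eval_eq_sum_range]
  exact sum_mem fun i _ => mul_mem (hF i) (pow_mem hb i)

theorem symm_mem {B : Subring Ω} {N : ℕ} (x : Fin N → Ω)
    (hF : (∏ j, (X - C (x j)) : Polynomial Ω) ∈ PolyIn B) (p : MvPolynomial (Fin N) B)
    (hp : p.IsSymmetric) : MvPolynomial.aeval x p ∈ B := by
  obtain ⟨q, hq⟩ := MvPolynomial.esymmAlgHom_surjective (σ := Fin N) (n := N) B (by simp) ⟨p, hp⟩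
  have h1 : p = MvPolynomial.aeval (fun i : Fin N => MvPolynomial.esymm (Fin N) B (i + 1)) q := by
    rw [← MvPolynomial.esymmAlgHom_apply, hq]
  have h2 : ∀ q : MvPolynomial (Fin N) B, MvPolynomial.aeval x (MvPolynomial.aeval (fun i : Fin N => MvPolynomial.esymm (Fin N) B (i + 1)) q) =
      MvPolynomial.aeval (fun i : Fin N => MvPolynomial.aeval x (MvPolynomial.esymm (Fin N) B (i + 1))) q := by
    intro q
    rw [← AlgHom.comp_apply, MvPolynomial.comp_aeval]
  rw [h1, h2]
  have h3 : ∀ i : Fin N, MvPolynomial.aeval x (MvPolynomial.esymm (Fin N) B (i + 1)) ∈ B := by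
    intro i
    rw [MvPolynomial.aeval_esymm_eq_multiset_esymm]
    have h4 := Multiset.prod_X_sub_C_coeff (Multiset.map x (Finset.univ : Finset (Fin N)).val)
      (k := N - (i + 1)) (by simp)
    have h5 : (Multiset.map (fun t => (X - C t : Polynomial Ω)) (Multiset.map x (Finset.univ : Finset (Fin N)).val)).prod
        = ∏ j, (X - C (x j)) := by
      rw [Multiset.map_map]
      rfl
    rw [h5] at h4
    have h6 : Multiset.card (Multiset.map x (Finset.univ : Finset (Fin N)).val) = N := by simp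
    rw [h6] at h4
    have hi : N - (N - (i + 1 : ℕ)) = i + 1 := by have := i.2; omega
    rw [hi] at h4
    have h7 := (mem_PolyIn.1 hF) (N - (i + 1))
    rw [h4] at h7
    have h8 : (Multiset.map x (Finset.univ : Finset (Fin N)).val).esymm (i + 1) =
        (-1) ^ (i + 1 : ℕ) * ((-1) ^ (i + 1 : ℕ) * (Multiset.map x (Finset.univ : Finset (Fin N)).val).esymm (i + 1)) := by
      rw [← mul_assoc, ← mul_pow]; simp
    rw [h8]
    exact mul_mem (pow_mem (neg_mem (one_mem _)) _) h7
  choose y hy using fun i : Fin N => (show ∃ b : B, (b : Ω) = MvPolynomial.aeval x (MvPolynomial.esymm (Fin N) B (i + 1)) from ⟨⟨_, h3 i⟩, rfl⟩)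
  have h9 : (fun i : Fin N => MvPolynomial.aeval x (MvPolynomial.esymm (Fin N) B (i + 1))) = fun i => algebraMap B Ω (y i) := by
    funext i
    rw [← hy]
    rfl
  rw [h9]
  have h10 : MvPolynomial.aeval (algebraMap B Ω ∘ y) q ∈ B := by
    rw [MvPolynomial.aeval_algebraMap_apply]
    exact Subtype.coe_prop _
  exact h10


/-! ### The resolvent -/

/-- The polynomial with roots `∏_{i ∈ S} (u - X_i)`, `|S| = n`. -/
noncomputable def PhiM (B : Subring Ω) (N n : ℕ) (b : B) : Polynomial (MvPolynomial (Fin N) B) :=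
  ∏ S ∈ (Finset.univ : Finset (Fin N)).powersetCard n,
    (X - C (∏ i ∈ S, (MvPolynomial.C b - MvPolynomial.X i)))

theorem PhiM_symm (B : Subring Ω) (N n : ℕ) (b : B) (j : ℕ) :
    ((PhiM B N n b).coeff j).IsSymmetric := by
  intro e
  have h : (PhiM B N n b).map (MvPolynomial.rename e : MvPolynomial (Fin N) B →ₐ[B] _).toRingHom =
      PhiM B N n b := by
    unfold PhiM
    rw [Polynomial.map_prod]
    refine Finset.prod_nbij' (fun S => S.map e.toEmbedding) (fun S => S.map e.symm.toEmbedding)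
      ?_ ?_ ?_ ?_ ?_
    · intro S hS
      rw [Finset.mem_powersetCard] at hS ⊢
      exact ⟨Finset.subset_univ _, by rw [Finset.card_map]; exact hS.2⟩
    · intro S hS
      rw [Finset.mem_powersetCard] at hS ⊢
      exact ⟨Finset.subset_univ _, by rw [Finset.card_map]; exact hS.2⟩
    · intro S _
      ext i
      simp
    · intro S _
      ext i
      simp
    · intro S _
      rw [Finset.prod_map, Polynomial.map_sub, Polynomial.map_X, Polynomial.map_C]
      congr 2
      simp [map_prod, map_sub]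
  have h' := congrArg (fun P => P.coeff j) h
  simp only [Polynomial.coeff_map] at h'
  exact h'

theorem PhiM_map {B : Subring Ω} {N : ℕ} (n : ℕ) (x : Fin N → Ω)
    (hF : (∏ j, (X - C (x j)) : Polynomial Ω) ∈ PolyIn B) (b : B) :
    (∏ S ∈ (Finset.univ : Finset (Fin N)).powersetCard n,
      (X - C (∏ i ∈ S, ((b : Ω) - x i))) : Polynomial Ω) ∈ PolyIn B := by
  have h : (PhiM B N n b).map (MvPolynomial.aeval x : MvPolynomial (Fin N) B →ₐ[B] Ω).toRingHom =
      ∏ S ∈ (Finset.univ : Finset (Fin N)).powersetCard n, (X - C (∏ i ∈ S, ((b : Ω) - x i))) := by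
    unfold PhiM
    rw [Polynomial.map_prod]
    refine Finset.prod_congr rfl fun S _ => ?_
    rw [Polynomial.map_sub, Polynomial.map_X, Polynomial.map_C]
    congr 2
    simp only [AlgHom.toRingHom_eq_coe, RingHom.coe_coe, map_prod, map_sub, MvPolynomial.aeval_X,
      MvPolynomial.aeval_C]
    rfl
  rw [← h, mem_PolyIn]
  intro j
  rw [Polynomial.coeff_map]
  exact symm_mem x hF _ (PhiM_symm B N n b j)

/-! ### Residues -/

theorem VPos_prod_sub {ι : Type*} (h : Ctx0 k v) (s : Finset ι) (f : ι → Ω) (c : ι → k)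
    (hf : ∀ i ∈ s, VPos v (f i - algebraMap k Ω (c i))) :
    VPos v (∏ i ∈ s, f i - algebraMap k Ω (∏ i ∈ s, c i)) := by
  classical
  induction s using Finset.induction_on with
  | empty => simp [LU1.VPos.zero]
  | insert a s ha ih =>
    rw [Finset.prod_insert ha, Finset.prod_insert ha, map_mul]
    have h1 := hf a (Finset.mem_insert_self a s)
    have h2 := ih fun i hi => hf i (Finset.mem_insert_of_mem hi)
    have h3 : v.Ge 0 (∏ i ∈ s, f i) := by
      have := h2.ge.add (h.ge (∏ i ∈ s, c i))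
      rwa [sub_add_cancel] at this
    have e : f a * ∏ i ∈ s, f i - algebraMap k Ω (c a) * algebraMap k Ω (∏ i ∈ s, c i) =
        (f a - algebraMap k Ω (c a)) * ∏ i ∈ s, f i +
        algebraMap k Ω (c a) * (∏ i ∈ s, f i - algebraMap k Ω (∏ i ∈ s, c i)) := by ring
    rw [e]
    exact (h1.mul h3).add (LU1.VPos.mul' (h.ge _) h2)

theorem infinite_of_Ctx0 [IsAlgClosed Ω] (h : Ctx0 k v) : Infinite k := by
  by_contra hfin
  rw [not_infinite_iff_finite] at hfin
  have := Fintype.ofFinite k
  set q := Fintype.card k with hq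
  have hq1 : 1 < q := Fintype.one_lt_card
  have hdeg : (X ^ q - X + 1 : Polynomial Ω).degree = q := by
    have : (X ^ q - X + 1 : Polynomial Ω) = X ^ q - (X - 1) := by ring
    rw [this, Polynomial.degree_sub_eq_left_of_degree_lt]
    · simp
    · rw [Polynomial.degree_X_pow]
      have h1 : (X - 1 : Polynomial Ω).degree = 1 := by
        have := Polynomial.degree_X_sub_C (1 : Ω)
        simpa using this
      rw [h1]
      exact_mod_cast hq1
  obtain ⟨a, ha⟩ := IsAlgClosed.exists_root (X ^ q - X + 1 : Polynomial Ω) (by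
    rw [hdeg]
    exact_mod_cast (by omega : q ≠ 0))
  have ha' : a ^ q - a + 1 = 0 := by simpa [Polynomial.IsRoot] using ha
  have ha0 : a ≠ 0 := by
    rintro rfl
    rw [zero_pow (by omega)] at ha'
    simp at ha'
  have hmon : (X ^ q - X + 1 : Polynomial Ω).Monic := by
    have e : (X ^ q - X + 1 : Polynomial Ω) = X ^ q - (X - 1) := by ring
    rw [e]
    refine Polynomial.monic_X_pow_sub ?_
    have h1 : (X - 1 : Polynomial Ω).degree = 1 := by
      have := Polynomial.degree_X_sub_C (1 : Ω)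
      simpa using this
    rw [h1]
    exact_mod_cast hq1
  have hge : v.Ge 0 a := by
    refine LU1.ge_of_root hmon (fun i => ?_) ha
    have hPB : (X ^ q - X + 1 : Polynomial Ω) ∈ PolyIn (OVt v) :=
      add_mem (sub_mem (pow_mem (X_mem_PolyIn _) _) (X_mem_PolyIn _)) (one_mem _)
    exact mem_PolyIn.1 hPB i
  obtain ⟨c, hc⟩ := h.residue hge
  have h1 : VPos v (a ^ q - algebraMap k Ω (c ^ q)) := by
    have := VPos_prod_sub h (Finset.range q) (fun _ => a) (fun _ => c) (fun _ _ => hc)
    simpa using this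
  have h2 : c ^ q = c := FiniteField.pow_card c
  have h3 : VPos v (1 : Ω) := by
    have e : (1 : Ω) = (a - algebraMap k Ω c) - (a ^ q - algebraMap k Ω (c ^ q)) := by
      rw [h2]
      linear_combination ha'
    rw [e]
    exact hc.sub h1
  have := h3 one_ne_zero
  rw [v.map_one] at this
  exact lt_irrefl _ this


/-! ### The factor of the roots of positive value -/

open Classical in
theorem factor_pos [IsAlgClosed Ω] (h : Ctx0 k v) {B : Subring Ω} (hB : HClosed v B)
    (hk : ∀ c : k, algebraMap k Ω c ∈ B) {N : ℕ} (x : Fin N → Ω)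
    (hF : (∏ j, (X - C (x j)) : Polynomial Ω) ∈ PolyIn B) (hx : ∀ j, v.Ge 0 (x j)) :
    (∏ j ∈ Finset.univ.filter fun j => VPos v (x j), (X - C (x j)) : Polynomial Ω) ∈ PolyIn B := by
  have := infinite_of_Ctx0 h
  set S0 : Finset (Fin N) := Finset.univ.filter fun j => VPos v (x j) with hS0
  set n := S0.card with hn
  choose c hc using fun j => h.residue (hx j)
  have hc0 : ∀ j, j ∈ S0 ↔ c j = 0 := by
    intro j
    rw [hS0, Finset.mem_filter]
    constructor
    · rintro ⟨-, hj⟩
      refine h.const_eq_zero ?_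
      have := hj.sub (hc j)
      rwa [sub_sub_cancel] at this
    · intro hj
      have := hc j
      rw [hj, _root_.map_zero, sub_zero] at this
      exact ⟨Finset.mem_univ _, this⟩
  -- the bad values of `u`
  set P : Finset (Finset (Fin N)) := ((Finset.univ : Finset (Fin N)).powersetCard n).erase S0 with hP
  set r : Finset (Fin N) → Polynomial k := fun S => ∏ i ∈ S, (X - C (c i)) - X ^ n with hr
  have hr0 : ∀ S ∈ P, r S ≠ 0 := by
    intro S hS h0
    rw [hP, Finset.mem_erase, Finset.mem_powersetCard] at hS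
    obtain ⟨i, hiS, hi⟩ : ∃ i ∈ S, i ∉ S0 := by
      by_contra hcon
      push Not at hcon
      exact hS.1 (Finset.eq_of_subset_of_card_le hcon hS.2.2.ge)
    have h1 : (r S).eval (c i) = 0 := by rw [h0, eval_zero]
    rw [hr] at h1
    simp only [eval_sub, eval_prod, eval_X, eval_C, eval_pow] at h1
    rw [Finset.prod_eq_zero hiS (sub_self _), zero_sub, neg_eq_zero] at h1
    exact hi ((hc0 i).2 (eq_zero_of_pow_eq_zero h1))
  have hR : (∏ S ∈ P, r S) ≠ 0 := Finset.prod_ne_zero_iff.2 hr0
  obtain ⟨T, hT, hTc⟩ := (show {u : k | (∏ S ∈ P, r S).eval u ≠ 0}.Infinite by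
    have : {u : k | (∏ S ∈ P, r S).eval u ≠ 0} = {u : k | (∏ S ∈ P, r S).IsRoot u}ᶜ := rfl
    rw [this]
    exact (Polynomial.finite_setOfPred_isRoot hR).infinite_compl).exists_subset_card_eq (n + 1)
  -- the value at a good `u`
  have hval : ∀ u ∈ T, ∏ i ∈ S0, (algebraMap k Ω u - x i) ∈ B := by
    intro u hu
    set a : Finset (Fin N) → Ω := fun S => ∏ i ∈ S, (algebraMap k Ω u - x i) with ha
    have hres : ∀ S : Finset (Fin N), VPos v (a S - algebraMap k Ω (∏ i ∈ S, (u - c i))) := by
      intro S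
      refine VPos_prod_sub h S _ _ fun i _ => ?_
      have e : algebraMap k Ω u - x i - algebraMap k Ω (u - c i) = -(x i - algebraMap k Ω (c i)) := by
        rw [map_sub]; ring
      rw [e]
      exact (hc i).neg
    have haS0 : ∏ i ∈ S0, (u - c i) = u ^ n := by
      rw [hn, ← Finset.prod_const]
      exact Finset.prod_congr rfl fun i hi => by rw [(hc0 i).1 hi, sub_zero]
    have hge : ∀ S, v.Ge 0 (a S) := by
      intro S
      have := (hres S).ge.add (h.ge (∏ i ∈ S, (u - c i)))
      rwa [sub_add_cancel] at this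
    have hdiff : ∀ S ∈ P, ¬ VPos v (a S0 - a S) := by
      intro S hS hcon
      have h1 : (r S).eval u ≠ 0 := by
        intro h0
        have := hT hu
        simp only [Set.mem_ofPred_eq, eval_prod] at this
        exact this (Finset.prod_eq_zero hS h0)
      rw [hr] at h1
      simp only [eval_sub, eval_prod, eval_X, eval_C, eval_pow] at h1
      refine h1 (h.const_eq_zero ?_)
      have e : algebraMap k Ω (∏ i ∈ S, (u - c i) - u ^ n) =
          (a S0 - algebraMap k Ω (∏ i ∈ S0, (u - c i))) - (a S - algebraMap k Ω (∏ i ∈ S, (u - c i)))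
            - (a S0 - a S) := by
        rw [map_sub, haS0]; ring
      rw [e]
      exact ((hres S0).sub (hres S)).sub hcon
    have hmem : (∏ S ∈ (Finset.univ : Finset (Fin N)).powersetCard n, (X - C (a S)) :
        Polynomial Ω) ∈ PolyIn B := PhiM_map n x hF ⟨_, hk u⟩
    have hsplit : (∏ S ∈ (Finset.univ : Finset (Fin N)).powersetCard n, (X - C (a S)) :
        Polynomial Ω) = (X - C (a S0)) * ∏ S ∈ P, (X - C (a S)) :=
      (Finset.mul_prod_erase _ _ (Finset.mem_powersetCard.2 ⟨Finset.subset_univ _, rfl⟩)).symm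
    have hder : (derivative (∏ S ∈ (Finset.univ : Finset (Fin N)).powersetCard n, (X - C (a S)) :
        Polynomial Ω)).eval (a S0) = ∏ S ∈ P, (a S0 - a S) := by
      rw [hsplit, derivative_mul]
      simp [eval_prod]
    have hne : ∀ S ∈ P, a S0 - a S ≠ 0 := fun S hS h0 =>
      hdiff S hS (by rw [h0]; exact LU1.VPos.zero)
    refine hB.root _ (a S0) (mem_PolyIn.1 hmem) (hge S0) ?_ ?_ ?_
    · rw [hsplit]; simp
    · rw [hder]
      exact Finset.prod_ne_zero_iff.2 hne
    · rw [hder, RVal.map_prod _ _ _ hne]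
      refine Finset.sum_eq_zero fun S hS => ?_
      have h1 : v.Ge 0 (a S0 - a S) := (hge S0).sub (hge S)
      refine le_antisymm (not_lt.1 fun h2 => hdiff S hS fun _ => h2) (h1 (hne S hS))
  -- interpolation
  have hinj : Set.InjOn (algebraMap k Ω) (T : Set k) := (algebraMap k Ω).injective.injOn
  have hint := Lagrange.eq_interpolate_of_eval_eq (s := T) (v := algebraMap k Ω)
    (f := ∏ j ∈ S0, (X - C (x j))) (fun u => ∏ i ∈ S0, (algebraMap k Ω u - x i)) hinj
    (by
      have h1 : (∏ j ∈ S0, (X - C (x j)) : Polynomial Ω).degree = n := by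
        rw [degree_prod]
        simp [hn]
      rw [h1, hTc]
      exact_mod_cast Nat.lt_succ_self n)
    (fun u _ => by simp [eval_prod])
  rw [hint, Lagrange.interpolate_apply]
  refine sum_mem fun u hu => mul_mem (C_mem_PolyIn (hval u hu)) ?_
  unfold Lagrange.basis
  refine prod_mem fun w _ => ?_
  unfold Lagrange.basisDivisor
  refine mul_mem (C_mem_PolyIn ?_) (sub_mem (X_mem_PolyIn B) (C_mem_PolyIn (hk w)))
  rw [← map_sub, ← map_inv₀]
  exact hk _


theorem coeff_prod_VPos {ι : Type*} (s : Finset ι) (f : ι → Ω) (hf : ∀ i ∈ s, VPos v (f i)) :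
    ∀ j < s.card, VPos v ((∏ i ∈ s, (X - C (f i)) : Polynomial Ω).coeff j) := by
  classical
  induction s using Finset.induction_on with
  | empty => intro j hj; simp at hj
  | insert a s ha ih =>
    intro j hj
    rw [Finset.card_insert_of_notMem ha] at hj
    rw [Finset.prod_insert ha, sub_mul, coeff_sub, coeff_C_mul]
    have hQ : (∏ i ∈ s, (X - C (f i)) : Polynomial Ω) ∈ PolyIn (OVt v) :=
      prod_mem fun i hi => sub_mem (X_mem_PolyIn _)
        (C_mem_PolyIn (hf i (Finset.mem_insert_of_mem hi)).ge)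
    have h1 : VPos v (f a * (∏ i ∈ s, (X - C (f i)) : Polynomial Ω).coeff j) :=
      (hf a (Finset.mem_insert_self a s)).mul (mem_PolyIn.1 hQ j)
    refine LU1.VPos.sub ?_ h1
    cases j with
    | zero => rw [mul_coeff_zero, coeff_X_zero, zero_mul]; exact LU1.VPos.zero
    | succ j =>
      rw [coeff_X_mul]
      exact ih (fun i hi => hf i (Finset.mem_insert_of_mem hi)) j (by omega)

/-- An integral element of positive value is a root of a monic polynomial whose lower coefficients
have positive value. -/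
theorem exists_poly_pos [IsAlgClosed Ω] (h : Ctx0 k v) {B : Subring Ω} (hB : HClosed v B)
    (hk : ∀ c : k, algebraMap k Ω c ∈ B) {x : Ω} (hx : IsIntegral B x) (hpos : VPos v x) :
    ∃ G : Polynomial Ω, G.Monic ∧ G ∈ PolyIn B ∧ G.eval x = 0 ∧ 0 < G.natDegree ∧
      ∀ i < G.natDegree, VPos v (G.coeff i) := by
  classical
  obtain ⟨p, hp, hpx⟩ := hx
  set F := p.map (algebraMap B Ω) with hF
  have hFm : F.Monic := hp.map _
  have hFB : F ∈ PolyIn B := by
    rw [mem_PolyIn]
    intro i
    rw [hF, coeff_map]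
    exact Subtype.coe_prop _
  have hFx : F.eval x = 0 := by rw [hF, eval_map]; exact hpx
  set l := F.roots.toList with hl
  have hprod : (∏ i : Fin l.length, (X - C (l.get i)) : Polynomial Ω) = F := by
    have h1 : (∏ i : Fin l.length, (X - C (l.get i)) : Polynomial Ω) =
        (l.map fun a => (X - C a : Polynomial Ω)).prod := by
      rw [← List.prod_ofFn]
      congr 1
      conv_rhs => rw [← List.ofFn_get l]
      rw [List.map_ofFn]
      rfl
    rw [h1]
    have h2 : (F.roots.map fun a => (X - C a : Polynomial Ω)).prod = F :=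
      ((IsAlgClosed.splits F).eq_prod_roots_of_monic hFm).symm
    conv_rhs => rw [← h2]
    rw [← Multiset.coe_toList F.roots, ← hl, Multiset.map_coe, Multiset.prod_coe]
  have hge : ∀ j : Fin l.length, v.Ge 0 (l.get j) := by
    intro j
    have h1 : l.get j ∈ F.roots := by
      rw [← Multiset.mem_toList, ← hl]
      exact List.get_mem l j
    exact LU1.ge_of_root hFm (fun i => hB.nonneg _ (mem_PolyIn.1 hFB i))
      ((mem_roots hFm.ne_zero).1 h1)
  have hfac := factor_pos h hB hk (fun j : Fin l.length => l.get j) (by rw [hprod]; exact hFB) hge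
  have hxl : x ∈ l := by
    rw [hl, Multiset.mem_toList, mem_roots hFm.ne_zero]
    exact hFx
  obtain ⟨j, hj⟩ := List.get_of_mem hxl
  have hdeg : (∏ j ∈ Finset.univ.filter fun j : Fin l.length => VPos v (l.get j),
      (X - C (l.get j)) : Polynomial Ω).natDegree =
      (Finset.univ.filter fun j : Fin l.length => VPos v (l.get j)).card := by
    rw [natDegree_prod_of_monic _ _ fun i _ => monic_X_sub_C _]
    simp
  have hjm : j ∈ Finset.univ.filter fun j : Fin l.length => VPos v (l.get j) :=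
    Finset.mem_filter.2 ⟨Finset.mem_univ _, by rw [hj]; exact hpos⟩
  refine ⟨_, monic_prod_of_monic _ _ fun i _ => monic_X_sub_C _, hfac, ?_, ?_, ?_⟩
  · rw [eval_prod]
    exact Finset.prod_eq_zero hjm (by rw [eval_sub, eval_X, eval_C, hj, sub_self])
  · rw [hdeg]
    exact Finset.card_pos.2 ⟨j, hjm⟩
  · rw [hdeg]
    exact coeff_prod_VPos _ _ fun i hi => (Finset.mem_filter.1 hi).2


/-! ### Inverses -/

theorem unit_of_not_VPos {d : Ω} (h1 : v.Ge 0 d) (h2 : ¬ VPos v d) : d ≠ 0 ∧ v d = 0 := by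
  have h0 : d ≠ 0 := by
    rintro rfl
    exact h2 LU1.VPos.zero
  exact ⟨h0, le_antisymm (not_lt.1 fun h3 => h2 fun _ => h3) (h1 h0)⟩

theorem not_VPos_of_unit {d : Ω} (h1 : d ≠ 0) (h2 : v d = 0) : ¬ VPos v d := fun h => by
  have := h h1
  rw [h2] at this
  exact lt_irrefl _ this

/-- The inverse of an integral element of value zero. -/
theorem inv_mem_of_isIntegral [IsAlgClosed Ω] (h : Ctx0 k v) {B : Subring Ω} (hB : HClosed v B)
    (hk : ∀ c : k, algebraMap k Ω c ∈ B) {D : Subring Ω} (hBD : B ≤ D) {f : Ω} (hf : f ∈ D)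
    (hi : IsIntegral B f) (h0 : f ≠ 0) (hv : v f = 0) : f⁻¹ ∈ D := by
  obtain ⟨c, hc0, hc⟩ := h.res f h0 hv
  obtain ⟨G, hGm, hGB, hGx, hGn, hGp⟩ := exists_poly_pos h hB hk
    (hi.sub (isIntegral_algebraMap (x := (⟨_, hk c⟩ : B)))) hc
  set G2 : Polynomial Ω := G.comp (X - C (algebraMap k Ω c)) with hG2
  have hG2B : G2 ∈ PolyIn B := by
    rw [hG2, comp_eq_sum_left, Polynomial.sum]
    exact sum_mem fun i _ => mul_mem (C_mem_PolyIn (mem_PolyIn.1 hGB i))
      (pow_mem (sub_mem (X_mem_PolyIn B) (C_mem_PolyIn (hk c))) i)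
  have hG2f : G2.eval f = 0 := by
    rw [hG2, eval_comp, eval_sub, eval_X, eval_C]
    exact hGx
  set d : Ω := G2.coeff 0 with hd
  have hd1 : d = G.eval (-algebraMap k Ω c) := by
    rw [hd, coeff_zero_eq_eval_zero, hG2, eval_comp, eval_sub, eval_X, eval_C, zero_sub]
  have hdB : d ∈ B := mem_PolyIn.1 hG2B 0
  have hd2 : VPos v (d - (-algebraMap k Ω c) ^ G.natDegree) := by
    rw [hd1, eval_eq_sum_range, Finset.sum_range_succ, hGm.coeff_natDegree, one_mul,
      add_sub_cancel_right]
    have : ∀ s : Finset ℕ, (∀ i ∈ s, i < G.natDegree) →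
        VPos v (∑ i ∈ s, G.coeff i * (-algebraMap k Ω c) ^ i) := by
      classical
      intro s
      induction s using Finset.induction_on with
      | empty => intro _; rw [Finset.sum_empty]; exact LU1.VPos.zero
      | insert a s ha ih =>
        intro hs
        rw [Finset.sum_insert ha]
        refine LU1.VPos.add ?_ (ih fun i hi => hs i (Finset.mem_insert_of_mem hi))
        refine (hGp a (hs a (Finset.mem_insert_self a s))).mul ?_
        have hcO : -algebraMap k Ω c ∈ OVt v := (h.ge c).neg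
        exact pow_mem hcO a
    exact this _ fun i hi => Finset.mem_range.1 hi
  have hd3 : ¬ VPos v d := by
    intro hcon
    have h1 := hcon.sub hd2
    rw [sub_sub_cancel] at h1
    refine not_VPos_of_unit ?_ ?_ h1
    · exact pow_ne_zero _ (neg_ne_zero.2 (by simpa using hc0))
    · rw [v.map_pow (neg_ne_zero.2 (by simpa using hc0)), v.map_neg _ (by simpa using hc0),
        h.triv c hc0, mul_zero]
  obtain ⟨hd0, hdv⟩ := unit_of_not_VPos (hB.nonneg d hdB) hd3
  have hdi := hB.inv d hdB hd0 hdv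
  have h4 : (divX G2).eval f * f + d = 0 := by
    have h5 := congrArg (fun P => P.eval f) (divX_mul_X_add G2)
    simp only [eval_add, eval_mul, eval_X, eval_C] at h5
    rw [hd, h5, hG2f]
  have h6 : f⁻¹ = -((divX G2).eval f * d⁻¹) := by
    field_simp
    linear_combination h4
  rw [h6]
  refine neg_mem (mul_mem (eval_mem_of_PolyIn ?_ hf) (hBD hdi))
  rw [mem_PolyIn]
  intro i
  rw [coeff_divX]
  exact hBD (mem_PolyIn.1 hG2B _)

/-! ### Taylor expansions over a subring -/

theorem eval_map_subtype {D : Subring Ω} (P : Polynomial D) (x : D) :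
    (P.map D.subtype).eval (x : Ω) = ((P.eval x : D) : Ω) := by
  have := Polynomial.eval_map_apply (f := D.subtype) (p := P) x
  simpa using this

theorem taylor2 {D : Subring Ω} {F : Polynomial Ω} (hF : F ∈ PolyIn D) {x y : Ω} (hx : x ∈ D)
    (hy : y ∈ D) : ∃ q ∈ D, F.eval (x + y) = F.eval x + F.derivative.eval x * y + q * y ^ 2 := by
  obtain ⟨P, rfl⟩ := hF
  obtain ⟨q, hq⟩ := P.binomExpansion (⟨x, hx⟩ : D) (⟨y, hy⟩ : D)
  refine ⟨q, q.2, ?_⟩
  have h1 := congrArg (fun z : D => (z : Ω)) hq
  simp only [Subring.coe_add, Subring.coe_mul, Subring.coe_pow] at h1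
  rw [coe_mapRingHom, derivative_map]
  have e1 := eval_map_subtype P (⟨x, hx⟩ + ⟨y, hy⟩ : D)
  have e2 := eval_map_subtype P (⟨x, hx⟩ : D)
  have e3 := eval_map_subtype P.derivative (⟨x, hx⟩ : D)
  simp only [Subring.coe_add] at e1
  rw [e1, e2, e3]
  exact h1

theorem isIntegral_of_PolyIn {D : Subring Ω} {F : Polynomial Ω} (hF : F ∈ PolyIn D)
    (hm : F.Monic) {x : Ω} (hx : F.eval x = 0) : IsIntegral D x := by
  have h1 : F ∈ Polynomial.lifts D.subtype := by
    rw [Polynomial.lifts_iff_coeff_lifts]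
    intro i
    exact ⟨⟨_, mem_PolyIn.1 hF i⟩, rfl⟩
  obtain ⟨q, hq, -, hqm⟩ := Polynomial.lifts_and_natDegree_eq_and_monic h1 hm
  refine ⟨q, hqm, ?_⟩
  rw [← eval_map]
  exact (congrArg (fun P => P.eval x) hq).trans hx


end Pool.Agent.TW
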