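import Pool.Agent.Lib.TW.D0
import Pool.Agent.Lib.TW.T1
import Pool.Agent.Lib.D2P.A2h

/-!
# TANK W, row HR1: henselian rationality in transcendence degree `r + 1`
-/

set_option autoImplicit false

open Polynomial

namespace Pool.Agent.TW

open Pool.Agent.H15JM (RVal)
open Pool.Agent.LU1 (VPos adj BF FracIs)
open Pool.Agent.D2 (Ctx0)
open Pool.Agent.LUC (Cl clF)
open Pool.Agent.LU3 (resv)
open Pool.Agent.D2P (hen mem_hen hen_mono hen_le hen_hen dense_of_frame sep_of_frame
  sep_transfer_elt ratSpan)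

universe u

variable {k Ω : Type u} [Field k] [Field Ω] [Algebra k Ω] {v : RVal Ω} {r D : ℕ}

/-- A function field of defect one has the henselization of a rational frame. -/
theorem hrat_one [IsAlgClosed Ω] [IsAlgClosed k] (p : ℕ) (hp : p.Prime) [CharP k p]
    (h : Ctx k v r) {N' : IntermediateField k Ω} (hN' : N'.FG) (hfull : Full v N')
    (htr : Algebra.trdeg k N' = (r + 1 : ℕ)) :
    ∃ (Γ : AddSubgroup ℝ) (χ : ℝ → Ω) (y' : Ω), Γ.FG ∧
      (∀ g : Ω, g ≠ 0 → ∃ m : ℕ, 0 < m ∧ (m : ℝ) * v g ∈ Γ) ∧ (∀ γ ∈ Γ, χ γ ≠ 0) ∧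
      (∀ γ ∈ Γ, ∀ δ ∈ Γ, χ (γ + δ) = χ γ * χ δ) ∧ (∀ γ ∈ Γ, v (χ γ) = γ) ∧ y' ≠ 0 ∧ 0 < v y' ∧
      (∀ γ ∈ Γ, χ γ ∈ N') ∧ y' ∈ N' ∧
      hen v (IntermediateField.adjoin k (χ '' {γ | γ ∈ Γ} ∪ {y'})) = hen v N' := by
  classical
  obtain ⟨x, hx, hxi, hspan⟩ := hfull.exists_span h
  set E : IntermediateField k Ω := (algebraicClosure N' Ω).restrictScalars k with hE
  have memE : ∀ {a : Ω}, a ∈ E ↔ IsAlgebraic N' a := by
    intro a
    rw [hE, IntermediateField.mem_restrictScalars, mem_algebraicClosure_iff]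
  have hNE : N' ≤ E := fun a ha => memE.2 (isAlgebraic_algebraMap (⟨a, ha⟩ : N'))
  have hxE : ∀ i, x i ∈ E := fun i => hNE (hx i).1
  have hEcl : IsAlgClosed E := by
    have h : IsAlgClosed (algebraicClosure N' Ω) := IsAlgClosure.isAlgClosed N'
    exact h
  have htrE : Algebra.trdeg k E = r + 1 := by
    rw [trdeg_eq_of_alg hNE fun a ha => memE.1 ha, htr]
    push_cast
    rfl
  have hctx : LU1.Ctx k (resv v E) r :=
    { triv := fun c hc => h.triv c hc
      res := fun a ha hv => by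
        have ha' : (a : Ω) ≠ 0 := fun h0 => ha (Subtype.ext h0)
        obtain ⟨c, hc, hp⟩ := h.res (a : Ω) ha' hv
        refine ⟨c, hc, fun h0 => ?_⟩
        exact hp fun h1 => h0 (Subtype.ext h1)
      rpos := h.rpos
      trdeg := htrE
      rank := ⟨fun i => ⟨x i, hxE i⟩, fun i h0 => (hx i).2 (congrArg Subtype.val h0), hxi,
        fun a ha => hspan (a : Ω) fun h0 => ha (Subtype.ext h0)⟩ }
  -- the field in `E`
  set N₀ : IntermediateField k E := N'.comap E.val with hN₀
  have memN : ∀ a : E, a ∈ N₀ ↔ (a : Ω) ∈ N' := fun a => Iff.rfl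
  have hfg : ∃ S : Finset E, N₀ = IntermediateField.adjoin k (S : Set E) := by
    obtain ⟨S', hS'⟩ := hN'
    have hS'E : ∀ s ∈ S', s ∈ E := fun s hs => hNE (by
      rw [← hS']; exact IntermediateField.subset_adjoin _ _ hs)
    refine ⟨S'.subtype (· ∈ E), le_antisymm (fun a ha => ?_) ?_⟩
    · have h3 : (a : Ω) ∈ N' := (memN a).1 ha
      have h4 : (fun z : E => (z : Ω)) '' ((S'.subtype (· ∈ E) : Finset E) : Set E) =
          (S' : Set Ω) := by
        ext b
        constructor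
        · rintro ⟨z, hz, rfl⟩
          exact Finset.mem_subtype.1 hz
        · intro hb
          exact ⟨⟨b, hS'E b hb⟩, Finset.mem_subtype.2 hb, rfl⟩
      have h5 : (IntermediateField.adjoin k
          ((S'.subtype (· ∈ E) : Finset E) : Set E)).map E.val = N' := by
        rw [IntermediateField.adjoin_map, ← hS', ← h4]
        rfl
      rw [← h5] at h3
      obtain ⟨b, hb, hba⟩ := h3
      have : b = a := Subtype.ext hba
      rw [← this]
      exact hb
    · rw [IntermediateField.adjoin_le_iff]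
      intro s hs
      rw [SetLike.mem_coe, memN, ← hS']
      exact IntermediateField.subset_adjoin _ _ (Finset.mem_subtype.1 hs)
  have halgN : ∀ g : E, IsAlgebraic N₀ g := by
    intro g
    obtain ⟨P, hP0, hP⟩ := memE.1 g.2
    let φ : N' →+* N₀ :=
      { toFun := fun c => ⟨⟨(c : Ω), hNE c.2⟩, c.2⟩
        map_one' := rfl
        map_mul' := fun _ _ => rfl
        map_zero' := rfl
        map_add' := fun _ _ => rfl }
    refine ⟨P.map φ, (Polynomial.map_ne_zero_iff φ.injective).2 hP0, ?_⟩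
    apply Subtype.ext
    have h5 : ((aeval g (P.map φ) : E) : Ω) =
        Polynomial.eval₂ ((algebraMap E Ω).comp (algebraMap N₀ E)) (g : Ω) (P.map φ) := by
      rw [Polynomial.aeval_def]
      exact Polynomial.hom_eval₂ _ _ (algebraMap E Ω) _
    rw [h5, Polynomial.eval₂_map]
    have h6 : ((algebraMap E Ω).comp (algebraMap N₀ E)).comp φ = algebraMap N' Ω := rfl
    rw [h6]
    exact hP
  obtain ⟨B, hB⟩ := LU1.good_all p hp hctx N₀ hfg halgN
  -- the new field
  set E' := IntermediateField.adjoin k ((fun γ => ((B.χ γ : E) : Ω)) '' {γ | γ ∈ B.Γ} ∪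
    {((B.y : E) : Ω)}) with hE'
  have hχE' : ∀ γ ∈ B.Γ, ((B.χ γ : E) : Ω) ∈ E' := fun γ hγ =>
    IntermediateField.subset_adjoin _ _ (Or.inl ⟨γ, hγ, rfl⟩)
  have hyE' : ((B.y : E) : Ω) ∈ E' := IntermediateField.subset_adjoin _ _ (Or.inr rfl)
  refine ⟨B.Γ, fun γ => ((B.χ γ : E) : Ω), ((B.y : E) : Ω), B.fg, fun g hg => ?_, fun γ hγ h0 => ?_,
    fun γ hγ δ hδ => ?_, fun γ hγ => ?_, fun h0 => ?_, ?_, ?_, ?_, ?_⟩
  · have h3 : Submodule.span ℚ (Set.range fun i => v (x i)) ≤ ratSpan B.Γ := by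
      rw [Submodule.span_le]
      rintro _ ⟨i, rfl⟩
      exact B.full (⟨x i, hxE i⟩ : E) fun h0 => (hx i).2 (congrArg Subtype.val h0)
    exact h3 (hspan g hg)
  · exact B.χ_ne γ hγ (Subtype.ext h0)
  · show ((B.χ (γ + δ) : E) : Ω) = _
    rw [B.χ_add γ hγ δ hδ]; rfl
  · exact B.χ_val γ hγ
  · exact B.y_ne (Subtype.ext h0)
  · exact B.y_pos
  · intro γ hγ
    exact (memN _).1 (B.χ_mem_frac hB hγ)
  · exact (memN _).1 (hB.1 _ B.y_mem)
  · refine le_antisymm (hen_mono ?_) (hen_le (hen_hen _) ?_)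
    · rw [IntermediateField.adjoin_le_iff]
      rintro z (⟨γ, hγ, rfl⟩ | hz)
      · exact (memN _).1 (B.χ_mem_frac hB hγ)
      · rw [Set.mem_singleton_iff.1 hz]
        exact (memN _).1 (hB.1 _ B.y_mem)
    · intro a ha
      rw [mem_hen]
      set a₀ : E := ⟨a, hNE ha⟩ with ha₀
      have ha₀N : a₀ ∈ N₀ := ha
      constructor
      · -- density
        have hadj : ∀ g ∈ Algebra.adjoin k (B.χ '' {γ | γ ∈ B.Γ ∧ 0 ≤ γ} ∪ {B.y}),
            (g : Ω) ∈ E' := by
          intro g hg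
          have h3 : Algebra.adjoin k (B.χ '' {γ | γ ∈ B.Γ ∧ 0 ≤ γ} ∪ {B.y}) ≤
              (E'.comap E.val).toSubalgebra := by
            rw [Algebra.adjoin_le_iff]
            rintro z (⟨γ, ⟨hγ, -⟩, rfl⟩ | hz)
            · exact hχE' γ hγ
            · rw [Set.mem_singleton_iff.1 hz]; exact hyE'
          exact h3 hg
        have hR : ∀ f ∈ B.R, (f : Ω) ∈ Cl v E'.toSubfield := by
          intro f hf c
          obtain ⟨g, hg, hge⟩ := dense_of_frame hctx B hf c
          refine ⟨(g : Ω), hadj g hg, fun h0 => ?_⟩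
          exact hge fun h1 => h0 (by
            have := congrArg (fun z : E => (z : Ω)) h1
            exact this)
        obtain ⟨f, hf, g, hg, hg0, hfg'⟩ := hB.2 a₀ ha₀N
        have h3 : a = (f : Ω) * ((g : Ω))⁻¹ := by
          have := congrArg (fun z : E => (z : Ω)) hfg'
          rw [← div_eq_mul_inv]
          exact this
        rw [h3]
        exact LUC.Cl.mul (hR f hf) (LUC.Cl.inv (hR g hg))
      · have h3 := sep_of_frame hctx B hfg hB ha₀N
        have h4 := sep_transfer_elt E _ a₀ h3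
        have h5 : (fun z : E => (z : Ω)) '' (B.χ '' {γ | γ ∈ B.Γ} ∪ {B.y}) =
            (fun γ => ((B.χ γ : E) : Ω)) '' {γ | γ ∈ B.Γ} ∪ {((B.y : E) : Ω)} := by
          rw [Set.image_union, Set.image_singleton, Set.image_image]
        rw [h5] at h4
        exact h4

/-- **Henselian rationality in transcendence degree `r + 1`.** -/
theorem HRone_one [IsAlgClosed Ω] [IsAlgClosed k] (p : ℕ) [Fact p.Prime] [CharP k p] [CharP Ω p]
    (h : Ctx k v r) {E : IntermediateField k Ω} (hE : E.FG) (hfull : Full v E)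
    (htr : Algebra.trdeg k E = (r + 1 : ℕ)) : HRone v E := by
  classical
  obtain ⟨Γ, χ, y, hΓ, hΓf, hχ0, hχa, hχv, hy0, hyv, hχE, hyE, hhen⟩ :=
    hrat_one p Fact.out h hE hfull htr
  obtain ⟨X, hX0, hXi, hX⟩ := h.rank
  -- the elements with values in `Γ`
  choose m hm hmΓ using fun i => hΓf (X i) (hX0 i)
  have hm0 : ∀ i, ((m i : ℕ) : ℚ) ≠ 0 := fun i => by exact_mod_cast (hm i).ne'
  have hai : LinearIndependent ℚ (fun i => (m i : ℝ) * v (X i)) := by
    have h1 : (fun i => (m i : ℝ) * v (X i)) =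
        fun i => (Units.mk0 ((m i : ℕ) : ℚ) (hm0 i)) • v (X i) := by
      funext i
      rw [Units.smul_def, Units.val_mk0, Rat.smul_def]
      push_cast
      rfl
    rw [h1]
    exact hXi.units_smul fun i => Units.mk0 ((m i : ℕ) : ℚ) (hm0 i)
  have hspan : ∀ γ ∈ Γ, γ ∈ Submodule.span ℚ (Set.range fun i => (m i : ℝ) * v (X i)) := by
    intro γ hγ
    have h1 := hX (χ γ) (hχ0 γ hγ)
    rw [hχv γ hγ] at h1
    refine (Submodule.span_le.2 ?_ :
      Submodule.span ℚ (Set.range fun i => v (X i)) ≤ _) h1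
    rintro _ ⟨i, rfl⟩
    have h2 : v (X i) = (((m i : ℕ) : ℚ)⁻¹) • ((m i : ℝ) * v (X i)) := by
      rw [Rat.smul_def]
      have : (m i : ℝ) ≠ 0 := by exact_mod_cast (hm i).ne'
      push_cast
      field_simp
    show v (X i) ∈ _
    rw [h2]
    exact Submodule.smul_mem _ _ (Submodule.subset_span ⟨i, rfl⟩)
  obtain ⟨g, hg, hgi, hgs⟩ := D0.exists_zbasis hΓ hmΓ hai hspan
  let N : IntermediateField k Ω := kr k fun i => χ (g i)
  have hχN : ∀ γ ∈ Γ, χ γ ∈ N := by
    -- the monomials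
    have hz : χ 0 = 1 := by
      have h1 := hχa 0 Γ.zero_mem 0 Γ.zero_mem
      rw [add_zero] at h1
      exact (mul_eq_left₀ (hχ0 0 Γ.zero_mem)).1 h1.symm
    have hneg : ∀ γ ∈ Γ, χ (-γ) = (χ γ)⁻¹ := by
      intro γ hγ
      have h1 := hχa γ hγ (-γ) (Γ.neg_mem hγ)
      rw [add_neg_cancel, hz] at h1
      exact eq_inv_of_mul_eq_one_right h1.symm
    have hn : ∀ γ ∈ Γ, ∀ n : ℕ, χ (n * γ) = χ γ ^ n := by
      intro γ hγ n
      induction n with
      | zero => rw [Nat.cast_zero, zero_mul, hz, pow_zero]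
      | succ n ih =>
        have h1 : (n : ℝ) * γ ∈ Γ := by
          rw [← nsmul_eq_mul]
          exact Γ.nsmul_mem hγ n
        have h2 : ((n + 1 : ℕ) : ℝ) * γ = n * γ + γ := by push_cast; ring
        rw [h2, hχa _ h1 _ hγ, ih, pow_succ]
    have hzs : ∀ γ ∈ Γ, ∀ n : ℤ, χ (n * γ) = χ γ ^ n := by
      intro γ hγ n
      obtain ⟨m, rfl | rfl⟩ := n.eq_nat_or_neg
      · rw [Int.cast_natCast, hn γ hγ, zpow_natCast]
      · have h1 : (m : ℝ) * γ ∈ Γ := by
          rw [← nsmul_eq_mul]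
          exact Γ.nsmul_mem hγ m
        rw [Int.cast_neg, Int.cast_natCast, neg_mul, hneg _ h1, hn γ hγ, zpow_neg, zpow_natCast]
    have hsum : ∀ (l : Fin r → ℤ) (S : Finset (Fin r)), (∑ i ∈ S, (l i : ℝ) * g i) ∈ Γ ∧
        χ (∑ i ∈ S, (l i : ℝ) * g i) ∈ N := by
      intro l S
      induction S using Finset.induction_on with
      | empty => exact ⟨by simp, by rw [Finset.sum_empty, hz]; exact one_mem _⟩
      | insert a S ha ih =>
        have h1 : (l a : ℝ) * g a ∈ Γ := by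
          rw [← zsmul_eq_mul]
          exact Γ.zsmul_mem (hg a) _
        rw [Finset.sum_insert ha]
        refine ⟨Γ.add_mem h1 ih.1, ?_⟩
        rw [hχa _ h1 _ ih.1, hzs _ (hg a)]
        refine mul_mem (zpow_mem ?_ _) ih.2
        exact IntermediateField.subset_adjoin k (Set.range fun i => χ (g i)) ⟨a, rfl⟩
    intro γ hγ
    obtain ⟨l, hl⟩ := hgs γ hγ
    rw [hl]
    exact (hsum l Finset.univ).2
  have hadj : IntermediateField.adjoin k (χ '' {γ | γ ∈ Γ} ∪ {y}) = adj N y := by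
    rw [adj]
    refine le_antisymm ?_ (sup_le ?_ ?_)
    · rw [IntermediateField.adjoin_le_iff]
      rintro z (⟨γ, hγ, rfl⟩ | hz)
      · exact (le_sup_left : N ≤ _) (hχN γ hγ)
      · rw [Set.mem_singleton_iff.1 hz]
        exact (le_sup_right : IntermediateField.adjoin k {y} ≤ _)
          (IntermediateField.subset_adjoin k {y} rfl)
    · rw [IntermediateField.adjoin_le_iff]
      rintro _ ⟨i, rfl⟩
      exact IntermediateField.subset_adjoin _ _ (Or.inl ⟨g i, hg i, rfl⟩)
    · exact IntermediateField.adjoin.mono k _ _ Set.subset_union_right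
  refine ⟨N, y, ?_, ?_, ?_, ?_⟩
  · exact IntermediateField.fg_adjoin_of_finite (Set.finite_range _)
  · intro f hf
    obtain ⟨m, hm, hmf⟩ := hΓf f hf
    exact ⟨m, hm, χ (m * v f), hχN _ hmf, hχ0 _ hmf, hχv _ hmf⟩
  · intro hyalg
    have h1 : ∀ a ∈ adj N y, IsAlgebraic N a := by
      intro a ha
      have h2 : IntermediateField.adjoin k {y} ≤ (algebraicClosure N Ω).restrictScalars k := by
        rw [IntermediateField.adjoin_le_iff]
        rintro z hz
        rw [Set.mem_singleton_iff.1 hz]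
        exact (mem_algebraicClosure_iff).2 hyalg
      have h3 : N ≤ (algebraicClosure N Ω).restrictScalars k := fun a ha =>
        (mem_algebraicClosure_iff).2 (isAlgebraic_algebraMap (⟨a, ha⟩ : N))
      exact (mem_algebraicClosure_iff).1 ((sup_le h3 h2 : adj N y ≤ _) ha)
    have hNE : N ≤ E := by
      rw [IntermediateField.adjoin_le_iff]
      rintro _ ⟨i, rfl⟩
      exact hχE _ (hg i)
    have h2 : ∀ a ∈ E, IsAlgebraic N a := by
      intro a ha
      have h3 : a ∈ hen v (adj N y) := by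
        rw [← hadj, hhen]
        exact D2P.le_hen _ ha
      have h4 : IsAlgebraic (adj N y) a := (mem_hen.1 h3).2.isIntegral.isAlgebraic
      have h5 : adj N y ≤ (algebraicClosure N Ω).restrictScalars k := fun b hb =>
        (mem_algebraicClosure_iff).2 (h1 b hb)
      have h6 : IsAlgebraic ((algebraicClosure N Ω).restrictScalars k) a :=
        D2P.isAlgebraic_mono h5 h4
      have h7 : IsAlgebraic (algebraicClosure N Ω) a := h6
      exact IsAlgebraic.restrictScalars N h7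
    have h3 := trdeg_eq_of_alg hNE h2
    rw [htr] at h3
    have h4 := trdeg_adjoin_le (k := k) (Set.range fun i => χ (g i))
    have h5 : Cardinal.mk (Set.range fun i => χ (g i)) ≤ r := by
      have := Cardinal.mk_range_le_lift (f := fun i => χ (g i))
      simpa using this
    have h6 : ((r + 1 : ℕ) : Cardinal) ≤ (r : ℕ) := by
      rw [h3]
      exact h4.trans h5
    have h7 : r + 1 ≤ r := Nat.cast_le.1 h6
    omega
  · rw [← hadj, hhen]

end Pool.Agent.TW
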