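import Pool.Agent.Lib.TW.HRLUa
import Pool.Agent.Lib.TW.Estar

/-!
# TANK W, HRLU: local uniformization of the fields `E` with `hen E = hen N(z)`
-/

set_option autoImplicit false

namespace Pool.Agent.TW

open Pool.Agent.H15JM (RVal)
open Pool.Agent.LU1 (adj)

universe u

variable {k Ω : Type u} [Field k] [Field Ω] [Algebra k Ω] {v : RVal Ω} {r : ℕ}

theorem LU_of_HRone [IsAlgClosed Ω] [IsAlgClosed k] (p : ℕ) [Fact p.Prime] [CharP k p]
    [CharP Ω p] (h : Ctx k v r) {E : IntermediateField k Ω} (hE : E.FG) (hfull : Full v E)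
    (hBD : BD p v E) {n : ℕ} (htr : Algebra.trdeg k E = (n + 1 : ℕ))
    (hLU : ∀ E : IntermediateField k Ω, E.FG → Full v E → Algebra.trdeg k E = n →
      BD p v E → LU p v r E) (hHR : HRone v E) : LU p v r E :=
  LU_of_HRone_of p h
    (fun {_} hF hfF hBDF {_} htrF hLUF {_} hz => estar' p h hF hfF hBDF htrF hLUF hz)
    hE hfull hBD htr hLU hHR

end Pool.Agent.TW
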