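import Pool.Agent.Lib.TW.Defs

/-!
# TANK W: isometric isomorphisms

`VIso v M M'`: an isomorphism `M ≃ₐ[k] M'` which preserves the values. It extends to the
henselizations (`VIso.ext`), and everything in `TW/Defs.lean` is transported by it:
`VIso.hclosed`, `VIso.hensA_img`, `VIso.fr`, `VIso.orth`, `VIso.lu`.
-/

set_option autoImplicit false

open Polynomial

namespace Pool.Agent.TW

open Pool.Agent.H15JM (RVal)
open Pool.Agent.LU1 (VPos adj)
open Pool.Agent.LUC (Cl clF)
open Pool.Agent.D2 (Ctx0)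
open Pool.Agent.D2P (hen mem_hen)

universe u

variable {k Ω : Type u} [Field k] [Field Ω] [Algebra k Ω] {v : RVal Ω}

/-- An isometric isomorphism of two fields. -/
structure VIso (v : RVal Ω) (M M' : IntermediateField k Ω) where
  /-- the isomorphism -/
  e : M ≃ₐ[k] M'
  val : ∀ a : M, (a : Ω) ≠ 0 → v (e a : Ω) = v (a : Ω)

namespace VIso

variable {M M' : IntermediateField k Ω}

theorem coe_eq_zero (φ : VIso v M M') (a : M) : (φ.e a : Ω) = 0 ↔ (a : Ω) = 0 := by
  rw [ZeroMemClass.coe_eq_zero, ZeroMemClass.coe_eq_zero, map_eq_zero_iff _ φ.e.injective]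

/-- The inverse. -/
def symm (φ : VIso v M M') : VIso v M' M where
  e := φ.e.symm
  val := by
    intro a ha
    have h1 : (φ.e.symm a : Ω) ≠ 0 := by
      intro h0
      apply ha
      have h2 := (φ.coe_eq_zero (φ.e.symm a)).2 h0
      rwa [φ.e.apply_symm_apply] at h2
    have h3 := φ.val (φ.e.symm a) h1
    rw [φ.e.apply_symm_apply] at h3
    exact h3.symm

theorem ge_iff (φ : VIso v M M') {a : M} {c : ℝ} : v.Ge c (φ.e a : Ω) ↔ v.Ge c (a : Ω) := by
  constructor
  · intro h h0
    rw [← φ.val a h0]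
    exact h fun h1 => h0 ((φ.coe_eq_zero a).1 h1)
  · intro h h0
    have h1 : (a : Ω) ≠ 0 := fun h2 => h0 ((φ.coe_eq_zero a).2 h2)
    rw [φ.val a h1]
    exact h h1

/-! ## The graph of the extension to the closures -/

/-- `a'` is the limit of the `φ c`, if `a` is the limit of the `c`. -/
def Rel (φ : VIso v M M') (a a' : Ω) : Prop :=
  ∀ C : ℝ, ∃ c : M, v.Ge C (a - c) ∧ v.Ge C (a' - φ.e c)

theorem Rel.base (φ : VIso v M M') (c : M) : φ.Rel c (φ.e c) := fun C =>
  ⟨c, by rw [sub_self]; exact RVal.Ge.zero, by rw [sub_self]; exact RVal.Ge.zero⟩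

theorem Rel.symm {φ : VIso v M M'} {a a' : Ω} (h : φ.Rel a a') : φ.symm.Rel a' a := by
  intro C
  obtain ⟨c, h1, h2⟩ := h C
  refine ⟨φ.e c, h2, ?_⟩
  have h3 : φ.symm.e (φ.e c) = c := φ.e.symm_apply_apply c
  rw [h3]
  exact h1

theorem Rel.add {φ : VIso v M M'} {a a' b b' : Ω} (ha : φ.Rel a a') (hb : φ.Rel b b') :
    φ.Rel (a + b) (a' + b') := by
  intro C
  obtain ⟨c, h1, h2⟩ := ha C
  obtain ⟨d, h3, h4⟩ := hb C
  refine ⟨c + d, ?_, ?_⟩
  · have : a + b - ((c + d : M) : Ω) = (a - c) + (b - d) := by push_cast; ring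
    rw [this]
    exact h1.add h3
  · have : a' + b' - ((φ.e (c + d) : M') : Ω) = (a' - φ.e c) + (b' - φ.e d) := by
      rw [_root_.map_add]
      push_cast
      ring
    rw [this]
    exact h2.add h4

theorem ge_mul_sub {x y c d : Ω} {m C : ℝ} (hx : v.Ge m x) (hy : v.Ge m y)
    (hc : v.Ge (max (C - m) |C|) (x - c)) (hd : v.Ge (max (C - m) |C|) (y - d)) :
    v.Ge C (x * y - c * d) := by
  have h1 : x * y - c * d = x * (y - d) + y * (x - c) - (x - c) * (y - d) := by ring
  have h2 := le_max_left (C - m) |C|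
  have h3 := le_max_right (C - m) |C|
  have h4 := le_abs_self C
  have h5 := abs_nonneg C
  rw [h1]
  refine RVal.Ge.sub (RVal.Ge.add ((hx.mul hd).mono ?_) ((hy.mul hc).mono ?_))
    ((hc.mul hd).mono ?_) <;> linarith

theorem Rel.mul {φ : VIso v M M'} {a a' b b' : Ω} (ha : φ.Rel a a') (hb : φ.Rel b b') :
    φ.Rel (a * b) (a' * b') := by
  intro C
  set m : ℝ := min (min (v a) (v b)) (min (v a') (v b')) with hm
  have ma : m ≤ v a := (min_le_left _ _).trans (min_le_left _ _)
  have mb : m ≤ v b := (min_le_left _ _).trans (min_le_right _ _)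
  have ma' : m ≤ v a' := (min_le_right _ _).trans (min_le_left _ _)
  have mb' : m ≤ v b' := (min_le_right _ _).trans (min_le_right _ _)
  obtain ⟨c, h1, h2⟩ := ha (max (C - m) |C|)
  obtain ⟨d, h3, h4⟩ := hb (max (C - m) |C|)
  refine ⟨c * d, ?_, ?_⟩
  · have : a * b - ((c * d : M) : Ω) = a * b - c * d := by push_cast; ring
    rw [this]
    exact ge_mul_sub (m := m) (fun _ => ma) (fun _ => mb) h1 h3
  · have : a' * b' - ((φ.e (c * d) : M') : Ω) = a' * b' - φ.e c * φ.e d := by
      rw [_root_.map_mul]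
      push_cast
      ring
    rw [this]
    exact ge_mul_sub (m := m) (fun _ => ma') (fun _ => mb') h2 h4

theorem eq_of_ge {a b : Ω} (h : ∀ C : ℝ, v.Ge C (a - b)) : a = b := by
  by_contra hne
  have h1 := h (v (a - b) + 1) (sub_ne_zero.2 hne)
  linarith

theorem Rel.uniq {φ : VIso v M M'} {a a' a'' : Ω} (h : φ.Rel a a') (h' : φ.Rel a a'') :
    a' = a'' := by
  refine eq_of_ge (v := v) fun C => ?_
  obtain ⟨c, h1, h2⟩ := h C
  obtain ⟨d, h3, h4⟩ := h' C
  have h5 : v.Ge C ((c - d : M) : Ω) := by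
    have : ((c - d : M) : Ω) = (a - d) - (a - c) := by push_cast; ring
    rw [this]
    exact h3.sub h1
  have h6 : v.Ge C (φ.e (c - d) : Ω) := φ.ge_iff.2 h5
  have h7 : a' - a'' = (a' - φ.e c) - (a'' - φ.e d) + (φ.e (c - d) : Ω) := by
    rw [_root_.map_sub]
    push_cast
    ring
  rw [h7]
  exact (h2.sub h4).add h6

theorem Rel.val {φ : VIso v M M'} {a a' : Ω} (h : φ.Rel a a') (ha : a ≠ 0) :
    a' ≠ 0 ∧ v a' = v a := by
  obtain ⟨c, h1, h2⟩ := h (max (v a) (v a') + 1)
  have m1 := le_max_left (v a) (v a')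
  have m2 := le_max_right (v a) (v a')
  have key : ∀ {x y : Ω}, x ≠ 0 → v.Ge (max (v a) (v a') + 1) (x - y) → v x ≤ max (v a) (v a') →
      y ≠ 0 ∧ v y = v x := by
    intro x y hx hxy hle
    by_cases h0 : x - y = 0
    · rw [sub_eq_zero] at h0
      subst h0
      exact ⟨hx, rfl⟩
    · have h3 : v x < v (-(x - y)) := by
        rw [v.map_neg _ h0]
        have := hxy h0
        linarith
      have h4 := v.add_of_lt hx (neg_ne_zero.2 h0) h3
      have h5 : x + -(x - y) = y := by ring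
      rw [h5] at h4
      exact h4
  have h3 := key ha h1 m1
  have h4 : (φ.e c : Ω) ≠ 0 := fun h0 => h3.1 ((φ.coe_eq_zero c).1 h0)
  have h5 : v (φ.e c : Ω) = v a := by rw [φ.val c h3.1, h3.2]
  have h6 : v.Ge (max (v a) (v a') + 1) ((φ.e c : Ω) - a') := by
    rw [← neg_sub]
    exact h2.neg
  have h7 := key h4 h6 (by rw [h5]; exact m1)
  exact ⟨h7.1, h7.2.trans h5⟩

/-! ## Existence of the extension -/

/-- Polynomials are continuous. -/
theorem poly_cont (g : Polynomial Ω) (a : Ω) :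
    ∃ B : ℝ, ∀ C : ℝ, 0 ≤ C → ∀ c : Ω, v.Ge C (c - a) → v.Ge (B + C) (g.eval c - g.eval a) := by
  induction g using Polynomial.induction_on with
  | C t => exact ⟨0, fun C _ c _ => by simp only [eval_C, sub_self]; exact RVal.Ge.zero⟩
  | add f g hf hg =>
    obtain ⟨B, hB⟩ := hf
    obtain ⟨B', hB'⟩ := hg
    refine ⟨min B B', fun C hC c hc => ?_⟩
    rw [eval_add, eval_add, add_sub_add_comm]
    exact ((hB C hC c hc).mono (by have := min_le_left B B'; linarith)).add
      ((hB' C hC c hc).mono (by have := min_le_right B B'; linarith))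
  | monomial n t h =>
    obtain ⟨B, hB⟩ := h
    have h1 : (Polynomial.C t * X ^ (n + 1) : Polynomial Ω) = (Polynomial.C t * X ^ n) * X := by
      ring
    rw [h1]
    generalize (Polynomial.C t * X ^ n : Polynomial Ω) = g at hB ⊢
    refine ⟨min (B + min 0 (v a)) (v (g.eval a)), fun C hC c hc => ?_⟩
    rw [eval_mul_X, eval_mul_X]
    have h2 : g.eval c * c - g.eval a * a =
        (g.eval c - g.eval a) * (a + (c - a)) + g.eval a * (c - a) := by ring
    rw [h2]
    have h3 : v.Ge (min 0 (v a)) (a + (c - a)) :=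
      RVal.Ge.add (fun _ => min_le_right _ _) (hc.mono ((min_le_left _ _).trans hC))
    have h4 := (hB C hC c hc).mul h3
    have h5 : v.Ge (v (g.eval a) + C) (g.eval a * (c - a)) := (RVal.ge_self _).mul hc
    exact (h4.mono (by have := min_le_left (B + min 0 (v a)) (v (g.eval a)); linarith)).add
      (h5.mono (by have := min_le_right (B + min 0 (v a)) (v (g.eval a)); linarith))

theorem val_prod_lt {N : ℝ} (s : Multiset Ω) (hs : ∀ τ ∈ s, τ ≠ 0 ∧ v τ < N) :
    s.prod ≠ 0 ∧ (s ≠ 0 → v s.prod < Multiset.card s * N) ∧ v s.prod ≤ Multiset.card s * N := by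
  induction s using Multiset.induction with
  | empty => simp [v.map_one]
  | cons a s ih =>
    obtain ⟨h1, -, h3⟩ := ih fun τ hτ => hs τ (Multiset.mem_cons_of_mem hτ)
    obtain ⟨h4, h5⟩ := hs a (Multiset.mem_cons_self a s)
    have h6 : v (a ::ₘ s).prod < Multiset.card (a ::ₘ s) * N := by
      rw [Multiset.prod_cons, v.map_mul h4 h1, Multiset.card_cons]
      push_cast
      linarith
    exact ⟨by rw [Multiset.prod_cons]; exact mul_ne_zero h4 h1, fun _ => h6, h6.le⟩

theorem exists_rel [IsAlgClosed Ω] (φ : VIso v M M') {a : Ω} (ha : a ∈ hen v M) :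
    ∃ a' ∈ hen v M', φ.Rel a a' := by
  classical
  rw [mem_hen] at ha
  have hint : IsIntegral M a := ha.2.isIntegral
  set f := minpoly M a with hf
  set ι : M →+* M' := (φ.e : M →+* M') with hι
  set f' : Polynomial M' := f.map ι with hf'
  set F : Polynomial Ω := f'.map (algebraMap M' Ω) with hF
  have hmon : F.Monic := ((minpoly.monic hint).map ι).map _
  have hsplit : F.Splits := IsAlgClosed.splits _
  have hFprod : F = (F.roots.map fun ρ => X - C ρ).prod := by
    have := hsplit.eq_prod_roots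
    rwa [hmon.leadingCoeff, map_one, one_mul] at this
  have hdeg : F.roots ≠ 0 := by
    intro h0
    have h1 : F.natDegree = Multiset.card F.roots := hsplit.natDegree_eq_card_roots
    rw [h0, Multiset.card_zero, hF, (((minpoly.monic hint).map ι).natDegree_map _),
      ((minpoly.monic hint).natDegree_map _)] at h1
    have := minpoly.natDegree_pos hint
    omega
  -- the approximations
  have key : ∀ N : ℕ, ∃ c : M, v.Ge N (a - c) ∧ ∃ ρ ∈ F.roots.toFinset,
      v.Ge N (ρ - φ.e c) := by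
    intro N
    obtain ⟨B, hB⟩ := poly_cont (v := v) (f.map (algebraMap M Ω)) a
    set n := Multiset.card F.roots with hn
    obtain ⟨c, hc, hc'⟩ := ha.1 (max (max 0 N) (n * N - B))
    have h0 : (0 : ℝ) ≤ max (max 0 (N : ℝ)) (n * N - B) :=
      (le_max_left _ _).trans (le_max_left _ _)
    have hcN : (N : ℝ) ≤ max (max 0 (N : ℝ)) (n * N - B) :=
      (le_max_right _ _).trans (le_max_left _ _)
    have hcB : (n * N - B : ℝ) ≤ max (max 0 (N : ℝ)) (n * N - B) := le_max_right _ _
    refine ⟨⟨c, hc⟩, hc'.mono hcN, ?_⟩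
    have h1 := hB _ h0 c (by
      have h2 : c - a = -(a - c) := by ring
      rw [h2]
      exact hc'.neg)
    have h2 : (f.map (algebraMap M Ω)).eval a = 0 := by
      rw [eval_map_algebraMap, hf, minpoly.aeval]
    rw [h2, sub_zero] at h1
    have h3 : v.Ge (n * N) ((f.map (algebraMap M Ω)).eval c) := h1.mono (by linarith)
    have h4 : (f.map (algebraMap M Ω)).eval c = ((f.eval (⟨c, hc⟩ : M) : M) : Ω) := by
      rw [eval_map]
      exact eval₂_at_apply (algebraMap M Ω) (⟨c, hc⟩ : M)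
    rw [h4] at h3
    have h5 := (φ.ge_iff).2 h3
    have h6 : ((φ.e (f.eval (⟨c, hc⟩ : M)) : M') : Ω) = F.eval ((φ.e ⟨c, hc⟩ : M') : Ω) := by
      have h7 : φ.e (f.eval (⟨c, hc⟩ : M)) = f'.eval (φ.e ⟨c, hc⟩) := by
        rw [hf', eval_map]
        exact (eval₂_at_apply ι (⟨c, hc⟩ : M)).symm
      have h8 : F.eval ((φ.e ⟨c, hc⟩ : M') : Ω) = ((f'.eval (φ.e ⟨c, hc⟩) : M') : Ω) := by
        rw [hF, eval_map]
        exact eval₂_at_apply (algebraMap M' Ω) (φ.e ⟨c, hc⟩)
      rw [h7, h8]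
    rw [h6] at h5
    by_contra hcon
    push Not at hcon
    have h8 : F.eval ((φ.e ⟨c, hc⟩ : M') : Ω) =
        (F.roots.map fun ρ => (φ.e ⟨c, hc⟩ : Ω) - ρ).prod := by
      conv_lhs => rw [hFprod]
      rw [eval_multiset_prod, Multiset.map_map]
      congr 1
      refine Multiset.map_congr rfl fun ρ _ => ?_
      simp
    have h9 := val_prod_lt (v := v) (N := (N : ℝ))
      (F.roots.map fun ρ => (φ.e ⟨c, hc⟩ : Ω) - ρ) (by
        intro τ hτ
        rw [Multiset.mem_map] at hτ
        obtain ⟨ρ, hρ, rfl⟩ := hτ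
        have h10 := hcon ρ (Multiset.mem_toFinset.2 hρ)
        rw [RVal.Ge] at h10
        push Not at h10
        obtain ⟨h11, h12⟩ := h10
        refine ⟨fun h13 => h11 (by rw [← neg_sub, h13, neg_zero]), ?_⟩
        rw [← neg_sub, v.map_neg _ h11]
        exact h12)
    rw [h8] at h5
    have h10 := h5 h9.1
    have h11 := h9.2.1 (by simpa using hdeg)
    rw [Multiset.card_map, ← hn] at h11
    linarith
  choose c hc ρ hρ hcρ using key
  obtain ⟨ρ₀, hρ₀⟩ := Finite.exists_infinite_fiber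
    (fun N : ℕ => (⟨ρ N, hρ N⟩ : {x // x ∈ F.roots.toFinset}))
  have hinf : {N : ℕ | ρ N = ρ₀}.Infinite := by
    rw [Set.infinite_coe_iff] at hρ₀
    refine hρ₀.mono fun N hN => ?_
    have := congrArg Subtype.val (Set.mem_singleton_iff.1 hN)
    exact this
  have hrel : φ.Rel a ρ₀ := by
    intro C
    obtain ⟨N, hN, hCN⟩ := hinf.exists_gt ⌈C⌉₊
    have h1 : C ≤ N := (Nat.le_ceil C).trans (by exact_mod_cast hCN.le)
    refine ⟨c N, (hc N).mono h1, ?_⟩
    have h2 := (hcρ N).mono h1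
    rwa [hN] at h2
  refine ⟨ρ₀, ?_, hrel⟩
  rw [mem_hen]
  constructor
  · intro C
    obtain ⟨d, -, h2⟩ := hrel C
    exact ⟨φ.e d, (φ.e d).2, h2⟩
  · have h1 : (ρ₀ : Ω) ∈ F.roots := Multiset.mem_toFinset.1 ρ₀.2
    have h2 : aeval (ρ₀ : Ω) f' = 0 := by
      rw [← eval_map_algebraMap]
      exact (mem_roots'.1 h1).2
    have h3 : f'.Separable := Separable.map ha.2
    exact h3.of_dvd (minpoly.dvd _ _ h2)

/-- The extension to the henselizations. -/
noncomputable def ext [IsAlgClosed Ω] (φ : VIso v M M') : VIso v (hen v M) (hen v M') where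
  e :=
    { toFun := fun a => ⟨(φ.exists_rel a.2).choose, (φ.exists_rel a.2).choose_spec.1⟩
      invFun := fun a => ⟨(φ.symm.exists_rel a.2).choose, (φ.symm.exists_rel a.2).choose_spec.1⟩
      left_inv := fun a => Subtype.ext <|
        Rel.uniq (φ.symm.exists_rel (φ.exists_rel a.2).choose_spec.1).choose_spec.2
          (φ.exists_rel a.2).choose_spec.2.symm
      right_inv := fun a => Subtype.ext <|
        Rel.uniq (φ := φ) (φ.exists_rel (φ.symm.exists_rel a.2).choose_spec.1).choose_spec.2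
          (Rel.symm (φ.symm.exists_rel a.2).choose_spec.2)
      map_mul' := fun a b => Subtype.ext <|
        Rel.uniq (φ.exists_rel (a * b).2).choose_spec.2
          ((φ.exists_rel a.2).choose_spec.2.mul (φ.exists_rel b.2).choose_spec.2)
      map_add' := fun a b => Subtype.ext <|
        Rel.uniq (φ.exists_rel (a + b).2).choose_spec.2
          ((φ.exists_rel a.2).choose_spec.2.add (φ.exists_rel b.2).choose_spec.2)
      commutes' := fun c => Subtype.ext <| by
        refine Rel.uniq (φ.exists_rel (algebraMap k (hen v M) c).2).choose_spec.2 ?_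
        have h1 := Rel.base φ (algebraMap k M c)
        rwa [φ.e.commutes] at h1 }
  val := fun a ha => ((φ.exists_rel a.2).choose_spec.2.val ha).2

theorem ext_rel [IsAlgClosed Ω] (φ : VIso v M M') (a : hen v M) : φ.Rel a (φ.ext.e a) :=
  (φ.exists_rel a.2).choose_spec.2

theorem ext_base [IsAlgClosed Ω] (φ : VIso v M M') (a : M) (ha : (a : Ω) ∈ hen v M) :
    (φ.ext.e ⟨a, ha⟩ : Ω) = φ.e a :=
  (φ.ext_rel ⟨a, ha⟩).uniq (Rel.base φ a)

end VIso

end Pool.Agent.TW
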