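import Pool.Agent.Lib.TW.Iso

/-!
# TANK W: transport by an isometric isomorphism

`hclosed_OV`: the valuation ring of a henselian field is henselian. `VIso.img ψ B`: the image of a
ring. `VIso.hensA_img`, `VIso.fr`, `VIso.orth`, `VIso.lu`: henselizations, coordinates, distortion,
local uniformization.
-/

set_option autoImplicit false

open Polynomial

namespace Pool.Agent.TW

open Pool.Agent.H15JM (RVal)
open Pool.Agent.LU1 (VPos adj)
open Pool.Agent.LUC (Cl clF)
open Pool.Agent.D2 (Ctx0)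
open Pool.Agent.D2P (hen mem_hen)

universe u

variable {k Ω : Type u} [Field k] [Field Ω] [Algebra k Ω] {v : RVal Ω}

namespace IsoAux

theorem mem_top_OV {a : Ω} : a ∈ OV v (⊤ : IntermediateField k Ω) ↔ v.Ge 0 a :=
  ⟨fun h => h.2, fun h => ⟨trivial, h⟩⟩

/-- Simple roots in henselian fields. -/
theorem mem_of_simple [IsAlgClosed Ω] (h : Ctx0 k v) {M : IntermediateField k Ω}
    (hM : hen v M = M) {g : Polynomial Ω} {a : Ω} (hg : ∀ i, g.coeff i ∈ OV v M)
    (ha : v.Ge 0 a) (h0 : g.eval a = 0) (h1 : g.derivative.eval a ≠ 0)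
    (h2 : v (g.derivative.eval a) = 0) : a ∈ M := by
  by_cases haM : a ∈ M
  · exact haM
  -- `g` over `M`
  have hlift : g ∈ lifts (algebraMap M Ω) := by
    rw [lifts_iff_coeff_lifts]
    exact fun i => ⟨⟨_, (hg i).1⟩, rfl⟩
  obtain ⟨g1, hg1⟩ := hlift
  have hg1' : g1.map (algebraMap M Ω) = g := hg1
  have e0 : aeval a g1 = 0 := by rw [← eval_map_algebraMap, hg1', h0]
  have hd : aeval a (derivative g1) ≠ 0 := by
    rw [← eval_map_algebraMap, ← derivative_map, hg1']
    exact h1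
  have hne : g1 ≠ 0 := by
    rintro rfl
    simp at hd
  have halg : IsAlgebraic M a := ⟨g1, hne, e0⟩
  have hint : IsIntegral M a := halg.isIntegral
  have hsep : IsSeparable M a := by
    obtain ⟨q, hq⟩ := minpoly.dvd M a e0
    have h3 : aeval a (derivative (minpoly M a)) ≠ 0 := by
      intro h4
      apply hd
      rw [hq, derivative_mul, map_add, map_mul, map_mul, h4, minpoly.aeval, zero_mul, zero_mul,
        add_zero]
    exact (separable_iff_derivative_ne_zero (minpoly.irreducible hint)).2 fun h5 =>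
      h3 (by rw [h5, map_zero])
  refine D2P.mem_of_conj hsep fun a' ha' => ?_
  by_contra hne'
  obtain ⟨c, hc⟩ := h.residue ha
  have hac : a - algebraMap k Ω c ≠ 0 := by
    intro h3
    rw [sub_eq_zero] at h3
    exact haM (h3 ▸ M.algebraMap_mem c)
  have h3 := D2P.val_sub_root h hM (M.algebraMap_mem c) halg ha'
  have hpos : 0 < v (a - algebraMap k Ω c) := hc hac
  have h4 : v.Ge (v (a - algebraMap k Ω c)) (a' - a) := by
    have h5 : a' - a = (a' - algebraMap k Ω c) - (a - algebraMap k Ω c) := by ring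
    rw [h5]
    exact RVal.Ge.sub (fun _ => h3.ge) (RVal.ge_self _)
  have hb : a' - a ≠ 0 := sub_ne_zero.2 hne'
  have hb' : v.Ge 0 (a' - a) := h4.mono hpos.le
  -- Taylor in the valuation ring
  set O : Subring Ω := OV v (⊤ : IntermediateField k Ω) with hO
  have hgO : (↑g.coeffs : Set Ω) ⊆ O := by
    intro x hx
    obtain ⟨n, -, hn⟩ := mem_coeffs_iff.1 (Finset.mem_coe.1 hx)
    rw [hn]
    exact ⟨trivial, (hg n).2⟩
  set g2 : Polynomial O := g.toSubring O hgO with hg2
  have hg2' : g2.map O.subtype = g := map_toSubring _ _ _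
  set aO : O := ⟨a, trivial, ha⟩ with haO
  set bO : O := ⟨a' - a, trivial, hb'⟩ with hbO
  have hev : ∀ (q : Polynomial O) (x : O), (q.map O.subtype).eval (x : Ω) = ((q.eval x : O) : Ω) := by
    intro q x
    rw [eval_map]
    exact eval₂_at_apply O.subtype x
  obtain ⟨w, hw⟩ := binomExpansion g2 aO bO
  have h5 := congrArg (Subtype.val : O → Ω) hw
  have e1 : ((g2.eval (aO + bO) : O) : Ω) = g.eval a' := by
    rw [← hev, hg2']
    congr 1
    show a + (a' - a) = a'
    ring
  have e2 : ((g2.eval aO : O) : Ω) = 0 := by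
    rw [← hev, hg2']
    exact h0
  have e3 : ((g2.derivative.eval aO : O) : Ω) = g.derivative.eval a := by
    rw [← hev, ← derivative_map, hg2']
  have e4 : g.eval a' = 0 := by
    obtain ⟨q, hq⟩ := minpoly.dvd M a e0
    rw [← hg1', eval_map_algebraMap, hq, map_mul, ha', zero_mul]
  have h6 : g.eval a' = ((g2.eval aO : O) : Ω) + ((g2.derivative.eval aO : O) : Ω) * (a' - a) +
      (w : Ω) * (a' - a) ^ 2 := by
    rw [← e1]
    exact h5
  rw [e2, e3, e4] at h6
  have h7 : g.derivative.eval a = -((w : Ω) * (a' - a)) := by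
    have h8 : (a' - a) * (g.derivative.eval a + (w : Ω) * (a' - a)) = 0 := by
      linear_combination -h6
    rcases mul_eq_zero.1 h8 with h9 | h9
    · exact absurd h9 hb
    · linear_combination h9
  have h8 : v.Ge (0 + v (a - algebraMap k Ω c)) (g.derivative.eval a) := by
    rw [h7]
    exact (RVal.Ge.mul w.2.2 h4).neg
  have h9 := h8 h1
  rw [h2] at h9
  linarith

/-- The valuation ring of a henselian field is henselian. -/
theorem hclosed_OV [IsAlgClosed Ω] (h : Ctx0 k v) {M : IntermediateField k Ω}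
    (hM : hen v M = M) : HClosed v (OV v M) where
  nonneg := fun f hf => hf.2
  inv := by
    intro f hf h0 h1
    refine ⟨inv_mem hf.1, fun _ => ?_⟩
    rw [v.map_inv h0, h1, neg_zero]
  root := by
    intro g a hg ha h0 h1 h2
    exact ⟨mem_of_simple h hM hg ha h0 h1 h2, ha⟩

theorem le_hensA' (A : Subring Ω) : A ≤ hensA v A := le_sInf fun _ hB => hB.1

theorem hensA_le' {A B : Subring Ω} (h : A ≤ B) (hB : HClosed v B) : hensA v A ≤ B :=
  sInf_le ⟨h, hB⟩

theorem hclosed_top : HClosed v (OV v (⊤ : IntermediateField k Ω)) where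
  nonneg := fun f hf => hf.2
  inv := by
    intro f hf h0 h1
    refine ⟨trivial, fun _ => ?_⟩
    rw [v.map_inv h0, h1, neg_zero]
  root := fun g a hg ha h0 h1 h2 => ⟨trivial, ha⟩

theorem hclosed_hensA' (k : Type u) [Field k] [Algebra k Ω] {A : Subring Ω}
    (hA : ∀ a ∈ A, v.Ge 0 a) : HClosed v (hensA v A) where
  nonneg := fun f hf => (hensA_le' (B := OV v (⊤ : IntermediateField k Ω))
    (fun a ha => ⟨trivial, hA a ha⟩) hclosed_top hf).2
  inv := by
    intro f hf h0 h1
    rw [hensA, Subring.mem_sInf] at hf ⊢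
    exact fun B hB => hB.2.inv f (hf B hB) h0 h1
  root := by
    intro g a hg ha h0 h1 h2
    rw [hensA, Subring.mem_sInf]
    refine fun B hB => hB.2.root g a (fun i => ?_) ha h0 h1 h2
    have := hg i
    rw [hensA, Subring.mem_sInf] at this
    exact this B hB

end IsoAux

open IsoAux

namespace VIso

variable {M M' : IntermediateField k Ω}

/-- The image of a ring. -/
def img (ψ : VIso v M M') (B : Subring Ω) : Subring Ω :=
  (B.comap (algebraMap M Ω)).map ((algebraMap M' Ω).comp (ψ.e : M →+* M'))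

theorem mem_img {ψ : VIso v M M'} {B : Subring Ω} {b' : Ω} :
    b' ∈ ψ.img B ↔ ∃ b : M, (b : Ω) ∈ B ∧ (ψ.e b : Ω) = b' := by
  rw [img, Subring.mem_map]
  rfl

theorem img_mono (ψ : VIso v M M') {B C : Subring Ω} (h : B ≤ C) : ψ.img B ≤ ψ.img C := by
  intro b' hb'
  rw [mem_img] at hb' ⊢
  obtain ⟨b, h1, h2⟩ := hb'
  exact ⟨b, h h1, h2⟩

theorem img_le (ψ : VIso v M M') (B : Subring Ω) : ∀ b' ∈ ψ.img B, b' ∈ M' := by
  intro b' hb'
  rw [mem_img] at hb'
  obtain ⟨b, h1, rfl⟩ := hb'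
  exact (ψ.e b).2

theorem img_symm_img (ψ : VIso v M M') {B : Subring Ω} (hB : ∀ b ∈ B, b ∈ M) :
    ψ.symm.img (ψ.img B) = B := by
  ext b
  rw [mem_img]
  constructor
  · rintro ⟨b', h1, h2⟩
    rw [mem_img] at h1
    obtain ⟨c, h3, h4⟩ := h1
    have h5 : ψ.e c = b' := Subtype.ext h4
    rw [← h5] at h2
    have h6 : ψ.symm.e (ψ.e c) = c := ψ.e.symm_apply_apply c
    rw [h6] at h2
    rwa [← h2]
  · intro hb
    refine ⟨ψ.e ⟨b, hB b hb⟩, mem_img.2 ⟨⟨b, hB b hb⟩, hb, rfl⟩, ?_⟩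
    have h6 : ψ.symm.e (ψ.e ⟨b, hB b hb⟩) = ⟨b, hB b hb⟩ := ψ.e.symm_apply_apply _
    rw [h6]

theorem mem_img_coe {ψ : VIso v M M'} {B : Subring Ω} {b : M} :
    (ψ.e b : Ω) ∈ ψ.img B ↔ (b : Ω) ∈ B := by
  rw [mem_img]
  constructor
  · rintro ⟨c, h1, h2⟩
    have h3 : c = b := ψ.e.injective (Subtype.ext h2)
    rwa [← h3]
  · exact fun h => ⟨b, h, rfl⟩

theorem hclosed [IsAlgClosed Ω] (h : Ctx0 k v) (hM' : hen v M' = M') (ψ : VIso v M M')
    {B : Subring Ω} (hB : HClosed v B) : HClosed v (ψ.img B) where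
  nonneg := by
    intro f hf
    rw [mem_img] at hf
    obtain ⟨b, h1, rfl⟩ := hf
    exact ψ.ge_iff.2 (hB.nonneg _ h1)
  inv := by
    intro f hf h0 h1
    rw [mem_img] at hf ⊢
    obtain ⟨b, h2, rfl⟩ := hf
    have h3 : (b : Ω) ≠ 0 := fun h4 => h0 ((ψ.coe_eq_zero b).2 h4)
    rw [ψ.val b h3] at h1
    refine ⟨b⁻¹, ?_, ?_⟩
    · exact hB.inv _ h2 h3 h1
    · rw [map_inv₀]
      rfl
  root := by
    intro g a hg ha h0 h1 h2
    have haM : a ∈ M' := mem_of_simple h hM' (g := g) (fun i => by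
      obtain ⟨b, h3, h4⟩ := mem_img.1 (hg i)
      rw [← h4]
      exact ⟨(ψ.e b).2, ψ.ge_iff.2 (hB.nonneg _ h3)⟩) ha h0 h1 h2
    -- `g` over `M'`
    have hlift : g ∈ lifts (algebraMap M' Ω) := by
      rw [lifts_iff_coeff_lifts]
      exact fun i => ⟨⟨_, img_le ψ B _ (hg i)⟩, rfl⟩
    obtain ⟨g1, hg1⟩ := hlift
    have hg1' : g1.map (algebraMap M' Ω) = g := hg1
    set ι : M' →+* M := (ψ.e.symm : M' →+* M) with hι
    set g2 : Polynomial M := g1.map ι with hg2
    set a' : M' := ⟨a, haM⟩ with ha'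
    have hcoe : ∀ (q : Polynomial M'), (q.map (algebraMap M' Ω)).eval (a' : Ω) =
        ((q.eval a' : M') : Ω) := by
      intro q
      rw [eval_map]
      exact eval₂_at_apply (algebraMap M' Ω) a'
    have hcoe2 : ∀ (q : Polynomial M'), ((q.map ι).map (algebraMap M Ω)).eval
        ((ψ.e.symm a' : M) : Ω) = ((ψ.e.symm (q.eval a') : M) : Ω) := by
      intro q
      rw [eval_map, show ((ψ.e.symm a' : M) : Ω) = algebraMap M Ω (ψ.e.symm a') from rfl,
        eval₂_at_apply, eval_map, show (ψ.e.symm a' : M) = ι a' from rfl, eval₂_at_apply]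
      rfl
    rw [mem_img]
    refine ⟨ψ.e.symm a', ?_, by rw [ψ.e.apply_symm_apply]⟩
    have hz : g1.eval a' = 0 := by
      have h3 := hcoe g1
      rw [hg1'] at h3
      rw [show (a' : Ω) = a from rfl, h0] at h3
      exact Subtype.ext h3.symm
    have hd : ((g1.derivative.eval a' : M') : Ω) = g.derivative.eval a := by
      rw [← hcoe, ← derivative_map, hg1']
    have hder : (g2.map (algebraMap M Ω)).derivative.eval ((ψ.e.symm a' : M) : Ω) =
        ((ψ.e.symm (g1.derivative.eval a') : M) : Ω) := by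
      rw [hg2, derivative_map, derivative_map, hcoe2]
    have hval : ∀ x : M', (x : Ω) ≠ 0 → ((ψ.e.symm x : M) : Ω) ≠ 0 ∧
        v ((ψ.e.symm x : M) : Ω) = v (x : Ω) := by
      intro x hx
      exact ⟨fun h3 => hx ((ψ.symm.coe_eq_zero x).1 h3), ψ.symm.val x hx⟩
    refine hB.root (g2.map (algebraMap M Ω)) _ (fun i => ?_) ?_ ?_ ?_ ?_
    · rw [coeff_map, hg2, coeff_map]
      obtain ⟨b, h3, h4⟩ := mem_img.1 (hg i)
      have h5 : g1.coeff i = ψ.e b := by
        apply Subtype.ext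
        rw [h4, ← hg1', coeff_map]
        rfl
      rw [h5]
      show ((ψ.e.symm (ψ.e b) : M) : Ω) ∈ B
      rw [ψ.e.symm_apply_apply]
      exact h3
    · exact ψ.symm.ge_iff.2 ha
    · rw [hg2, hcoe2, hz, map_zero]
      rfl
    · rw [hder]
      exact (hval _ (by rw [hd]; exact h1)).1
    · rw [hder, (hval _ (by rw [hd]; exact h1)).2, hd, h2]

/-- The henselization of the image. -/
theorem hensA_img [IsAlgClosed Ω] (h : Ctx0 k v) (hM : hen v M = M) (hM' : hen v M' = M')
    (ψ : VIso v M M') {A : Subring Ω} (hA : A ≤ OV v M) :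
    hensA v (ψ.img A) = ψ.img (hensA v A) := by
  have hle : hensA v A ≤ OV v M := hensA_le' hA (hclosed_OV h hM)
  have hA' : ψ.img A ≤ OV v M' := by
    intro a ha
    refine ⟨img_le ψ A a ha, ?_⟩
    obtain ⟨b, h1, h2⟩ := mem_img.1 ha
    rw [← h2]
    exact ψ.ge_iff.2 (hA h1).2
  have hle' : hensA v (ψ.img A) ≤ OV v M' := hensA_le' hA' (hclosed_OV h hM')
  refine le_antisymm (hensA_le' (ψ.img_mono (le_hensA' A))
    (ψ.hclosed h hM' (hclosed_hensA' k fun a ha => (hA ha).2))) ?_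
  have h1 : hensA v A ≤ ψ.symm.img (hensA v (ψ.img A)) := by
    refine hensA_le' ?_ (ψ.symm.hclosed h hM (hclosed_hensA' k fun a ha => (hA' ha).2))
    have h2 := ψ.symm.img_mono (le_hensA' (v := v) (ψ.img A))
    rwa [ψ.img_symm_img fun b hb => (hA hb).1] at h2
  have h2 := ψ.img_mono h1
  have h3 : ψ.img (ψ.symm.img (hensA v (ψ.img A))) = hensA v (ψ.img A) :=
    ψ.symm.img_symm_img fun b hb => (hle' hb).1
  rwa [h3] at h2

end VIso

end Pool.Agent.TW
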