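import Pool.Agent.Lib.TW.EDefs
import Pool.Agent.Lib.LUC.Mods

/-!
# TANK W, exit LU ⇒ LUs: definitions

* `Et k v s e g`: `e` is an étale generator over the local ring of `k[s]`, `g` its polynomial;
* `etR k s e = k[s, e]`;
* `MonoO F e f`: `f = x^l w`, `w` a unit of the local ring of `k[F.s, e]`.
-/

set_option autoImplicit false

open Polynomial

namespace Pool.Agent.TW

open Pool.Agent.H15JM (RVal)
open Pool.Agent.LU1 (VPos)
open Pool.Agent.LUC (lv)

universe u

variable {k Ω : Type u} [Field k] [Field Ω] [Algebra k Ω] {v : RVal Ω} {r D : ℕ}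

/-- `e` is an étale generator over the local ring of `k[s]`. -/
structure Et (k : Type u) {Ω : Type u} [Field k] [Field Ω] [Algebra k Ω] (v : RVal Ω) {n : ℕ}
    (s : Fin n → Ω) (e : Ω) (g : Polynomial Ω) : Prop where
  ind : AlgebraicIndependent k s
  pos : ∀ i, 0 < v (s i)
  monic : g.Monic
  coeff : ∀ i, g.coeff i ∈ lv v (ksub k (Set.range s))
  root : g.eval e = 0
  der_ne : g.derivative.eval e ≠ 0
  der : v (g.derivative.eval e) = 0
  e_pos : VPos v e

/-- the ring `k[s, e]` -/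
abbrev etR (k : Type u) {Ω : Type u} [Field k] [Field Ω] [Algebra k Ω] {n : ℕ} (s : Fin n → Ω)
    (e : Ω) : Subring Ω := ksub k (insert e (Set.range s))

/-- `f = x^l w`, `w` a unit of the local ring of `k[s, e]`, `s = (x, y)` -/
def MonoO (F : Fr k v r D) (e f : Ω) : Prop :=
  ∃ l : Fin r → ℤ, ∃ w ∈ lv v (etR k F.s e), w ≠ 0 ∧ v w = 0 ∧ f = mx F.x l * w

end Pool.Agent.TW
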