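import Pool.Agent.Lib.TW.X1e
import Pool.Agent.Lib.TW.XDefs
import Mathlib.RingTheory.Polynomial.RationalRoot

/-!
# TANK W, exit row X1a: the étale local structure over `k[s]`
-/

set_option autoImplicit false

open Polynomial

namespace Pool.Agent.TW

open Pool.Agent.H15JM (RVal)
open Pool.Agent.LU1 (VPos adj)
open Pool.Agent.LUC (lv)
open Pool.Agent.D2 (Ctx0)

universe u

variable {k Ω : Type u} [Field k] [Field Ω] [Algebra k Ω] {v : RVal Ω}

/-- The ring `k[s]` is the image of the polynomial ring. -/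
theorem mem_ksub_iff {n : ℕ} {s : Fin n → Ω} {f : Ω} :
    f ∈ ksub k (Set.range s) ↔ ∃ P : MvPolynomial (Fin n) k, MvPolynomial.aeval s P = f := by
  constructor
  · intro hf
    have h1 : ksub k (Set.range s) ≤ (MvPolynomial.aeval (R := k) s).range.toSubring := by
      unfold ksub
      rw [Subring.closure_le]
      rintro x (⟨c, rfl⟩ | ⟨i, rfl⟩)
      · exact ⟨MvPolynomial.C c, MvPolynomial.aeval_C s c⟩
      · exact ⟨MvPolynomial.X i, MvPolynomial.aeval_X s i⟩
    exact h1 hf
  · rintro ⟨P, rfl⟩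
    induction P using MvPolynomial.induction_on with
    | C c =>
      rw [MvPolynomial.aeval_C]
      exact Subring.subset_closure (Or.inl ⟨c, rfl⟩)
    | add P Q hP hQ =>
      rw [map_add]
      exact add_mem hP hQ
    | mul_X P i hP =>
      rw [map_mul, MvPolynomial.aeval_X]
      exact mul_mem hP (Subring.subset_closure (Or.inr ⟨i, rfl⟩))

/-- The polynomial ring `k[s]` is normal. -/
theorem nor_ksub {n : ℕ} {s : Fin n → Ω} (hs : AlgebraicIndependent k s) :
    Nor (ksub k (Set.range s)) := by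
  rintro f ⟨a, ha, b, hb, hb0, hf⟩ hi
  obtain ⟨P, rfl⟩ := mem_ksub_iff.1 ha
  obtain ⟨Q, rfl⟩ := mem_ksub_iff.1 hb
  obtain ⟨p, hp, hpA, hp0⟩ := isIntegral_iff_coeff.1 hi
  have h1 : p ∈ lifts (MvPolynomial.aeval (R := k) s).toRingHom := by
    rw [lifts_iff_coeff_lifts]
    intro i
    exact mem_ksub_iff.1 (hpA i)
  obtain ⟨q, hq, -, hqm⟩ := lifts_and_natDegree_eq_and_monic h1 hp
  obtain ⟨S, hS⟩ := mem_range_of_integral (MvPolynomial.aeval (R := k) s).toRingHom hs hf
    ⟨q, hqm, by rw [← eval_map, hq]; exact hp0⟩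
  exact mem_ksub_iff.2 ⟨S, hS⟩

/-- A field in the fractions of the henselization of the local ring of `k[s]` has an étale
generator; the elements of the field in the henselization are in the local ring of `k[s, e]`. -/
theorem exists_et [IsAlgClosed Ω] [IsAlgClosed k] (h : Ctx0 k v) {n : ℕ} {s : Fin n → Ω}
    (hs : AlgebraicIndependent k s) (hpos : ∀ i, 0 < v (s i)) {K : IntermediateField k Ω}
    (hK : K.FG) (hle : kr k s ≤ K) (_hsep : ∀ a ∈ K, IsSeparable (kr k s) a)
    (hfr : ∀ a ∈ K, InFrac (hensA v (ksub k (Set.range s))) a) :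
    ∃ e ∈ K, ∃ g : Polynomial Ω, Et k v s e g ∧ (∀ a ∈ K, InFrac (etR k s e) a) ∧
      ∀ f ∈ K, f ∈ hensA v (ksub k (Set.range s)) → f ∈ lv v (etR k s e) := by
  have hk : ∀ c : k, algebraMap k Ω c ∈ ksub k (Set.range s) := fun c =>
    Subring.subset_closure (Or.inl ⟨c, rfl⟩)
  have hA : ∀ a ∈ ksub k (Set.range s), v.Ge 0 a := ksub_nonneg h (by
    rintro a ⟨i, rfl⟩
    exact fun _ => (hpos i).le)
  have hAK : ∀ a ∈ ksub k (Set.range s), a ∈ K := by
    have h1 : ksub k (Set.range s) ≤ K.toSubring := by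
      unfold ksub
      rw [Subring.closure_le]
      rintro x (⟨c, rfl⟩ | ⟨i, rfl⟩)
      · exact K.algebraMap_mem c
      · exact hle (IntermediateField.subset_adjoin k _ ⟨i, rfl⟩)
    exact h1
  obtain ⟨e, g, heK, he, hg, hgA, h0, hd, hd', -, hKB, hO, -⟩ :=
    exists_etale_fld h hk hA (nor_ksub hs) hAK hfr hK
  have heq : Subring.closure ((ksub k (Set.range s) : Set Ω) ∪ {e}) = etR k s e := by
    apply le_antisymm
    · rw [Subring.closure_le, Set.union_subset_iff, Set.singleton_subset_iff]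
      refine ⟨?_, Subring.subset_closure (Or.inr (Set.mem_insert e _))⟩
      exact Subring.closure_mono (Set.union_subset_union_right _ (Set.subset_insert e _))
    · unfold etR ksub
      rw [Subring.closure_le]
      rintro x (⟨c, rfl⟩ | hx)
      · exact Subring.subset_closure (Or.inl (hk c))
      · rcases Set.mem_insert_iff.1 hx with rfl | ⟨i, rfl⟩
        · exact Subring.subset_closure (Or.inr rfl)
        · exact Subring.subset_closure (Or.inl (Subring.subset_closure (Or.inr ⟨i, rfl⟩)))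
  rw [heq] at hKB hO
  exact ⟨e, heK, g, ⟨hs, hpos, hg, hgA, h0, hd, hd', he⟩, fun a ha => (hKB a).1 ha,
    fun f hf hf' => (hO f).2 ⟨hf, hf'⟩⟩

end Pool.Agent.TW
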