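import Pool.Agent.Lib.TW.Surf1
import Pool.Agent.Lib.TW.T1
import Pool.Agent.Lib.TW.P4b

/-!
# TANK W, SURF (second part): polynomials in two variables, regrouping of the terms
-/

set_option autoImplicit false

open Polynomial

namespace Pool.Agent.TW

open Pool.Agent.H15JM (RVal)
open Pool.Agent.LU1 (VPos adj)
open Pool.Agent.D2 (Ctx0)

universe u
namespace Surf
variable {k Ω : Type u} [Field k] [Field Ω] [Algebra k Ω] {v : RVal Ω} {r D : ℕ}

open scoped IntermediateField.algebraAdjoinAdjoin in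
theorem isAlgebraic_adjoin_top {E : Type u} [Field E] [Algebra k E] {S : Set E}
    (hS : IntermediateField.adjoin k S = ⊤) : Algebra.IsAlgebraic (Algebra.adjoin k S) E := by
  have h1 : Algebra.IsAlgebraic (Algebra.adjoin k S) (IntermediateField.adjoin k S) :=
    IsLocalization.isAlgebraic _ (nonZeroDivisors (Algebra.adjoin k S))
  refine ⟨fun e => ?_⟩
  have he : e ∈ IntermediateField.adjoin k S := by rw [hS]; trivial
  have h2 := h1.isAlgebraic ⟨e, he⟩
  exact h2.algHom (IsScalarTower.toAlgHom (Algebra.adjoin k S) (IntermediateField.adjoin k S) E)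

theorem indep_of_adjoin_eq {n : ℕ} {s s' : Fin n → Ω} (hs : AlgebraicIndependent k s)
    (h : IntermediateField.adjoin k (Set.range s) = IntermediateField.adjoin k (Set.range s')) :
    AlgebraicIndependent k s' := by
  set E := IntermediateField.adjoin k (Set.range s') with hE
  let z : Fin n → E := fun i => ⟨s' i, IntermediateField.subset_adjoin _ _ ⟨i, rfl⟩⟩
  have htop : IntermediateField.adjoin k (Set.range z) = ⊤ := by
    apply IntermediateField.map_injective E.val
    rw [IntermediateField.adjoin_map, ← Set.range_comp, ← AlgHom.fieldRange_eq_map,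
      IntermediateField.fieldRange_val]
    rfl
  have htr : (n : Cardinal) ≤ Algebra.trdeg k E := by
    rw [← h, trdeg_adjoin_eq hs.coe_range]
    have h1 := Cardinal.mk_range_eq_of_injective hs.injective
    simp only [Cardinal.mk_fin, Cardinal.lift_natCast] at h1
    have h2 : Cardinal.lift.{0} (Cardinal.mk (Set.range s)) = n := h1
    rw [Cardinal.lift_uzero] at h2
    exact h2.ge
  have halg := isAlgebraic_adjoin_top htop
  have h1 := (Algebra.IsAlgebraic.isTranscendenceBasis_of_lift_le_trdeg_of_finite k z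
    (by simpa using htr)).1
  have h2 := h1.map' (f := E.val) Subtype.val_injective
  exact h2

/-! ### Polynomials in two variables -/

/-- The value of a polynomial in `X` (inner) and `Y` (outer). -/
noncomputable def ev (x y : Ω) : Polynomial (Polynomial k) →+* Ω :=
  Polynomial.eval₂RingHom (Polynomial.aeval x : Polynomial k →ₐ[k] Ω).toRingHom y

theorem ev_C (x y : Ω) (a : Polynomial k) : ev x y (C a) = aeval x a := by
  simp [ev]

theorem ev_X (x y : Ω) : ev (k := k) x y X = y := by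
  simp [ev]

/-- `G(0, Y)` has order `D`. -/
def Ord (G : Polynomial (Polynomial k)) (D : ℕ) : Prop :=
  (∀ j < D, (G.coeff j).coeff 0 = 0) ∧ (G.coeff D).coeff 0 ≠ 0

theorem trail_comp {R : Polynomial k} (hR : R ≠ 0) {c : k} (hc : c ≠ 0) :
    (R.comp (X + C c)).natTrailingDegree + R.natTrailingDegree ≤ R.natDegree := by
  obtain ⟨P, hP⟩ : X ^ R.natTrailingDegree ∣ R := by
    rw [X_pow_dvd_iff]
    intro d hd
    exact coeff_eq_zero_of_lt_natTrailingDegree hd
  have hP0 : P ≠ 0 := by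
    rintro rfl
    rw [mul_zero] at hP
    exact hR hP
  have h1 : R.natDegree = R.natTrailingDegree + P.natDegree := by
    conv_lhs => rw [hP]
    rw [natDegree_mul (pow_ne_zero _ X_ne_zero) hP0, natDegree_X_pow]
  have hXc : (X + C c : Polynomial k) ≠ 0 := (monic_X_add_C c).ne_zero
  have hPc : P.comp (X + C c) ≠ 0 := by
    intro h0
    have := comp_eq_zero_iff.1 h0
    rcases this with h2 | ⟨-, h2⟩
    · exact hP0 h2
    · have h3 := congrArg natDegree h2
      rw [natDegree_X_add_C, natDegree_C] at h3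
      exact absurd h3 one_ne_zero
  have h2 : (R.comp (X + C c)).natTrailingDegree = (P.comp (X + C c)).natTrailingDegree := by
    conv_lhs => rw [hP]
    rw [mul_comp, natTrailingDegree_mul ?_ hPc]
    · have h3 : ((X ^ R.natTrailingDegree : Polynomial k).comp (X + C c)).natTrailingDegree = 0 := by
        rw [natTrailingDegree_eq_zero]
        right
        rw [X_pow_comp, coeff_zero_eq_eval_zero]
        simp [hc]
      rw [h3, zero_add]
    · rw [X_pow_comp]
      exact pow_ne_zero _ hXc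
  have h4 : (P.comp (X + C c)).natTrailingDegree ≤ P.natDegree := by
    refine (natTrailingDegree_le_natDegree _).trans ?_
    rw [natDegree_comp, natDegree_X_add_C, mul_one]
  omega

theorem regroup {ι : Type*} (S : Finset ι) (hS : S.Nonempty) (c : ι → k) (hc : ∀ s ∈ S, c s ≠ 0)
    (f n : ι → ℕ) (hinj : ∀ s ∈ S, ∀ s' ∈ S, f s = f s' → n s = n s' → s = s') (c₀ : k) :
    ∃ (M : ℕ) (G : Polynomial (Polynomial k)) (D : ℕ), (∃ s ∈ S, f s = M) ∧ (∀ s ∈ S, M ≤ f s) ∧
      Ord G D ∧ (∀ x y : Ω, ∑ s ∈ S, algebraMap k Ω (c s) * x ^ f s * (y + algebraMap k Ω c₀) ^ n s =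
        x ^ M * ev x y G) ∧
      (c₀ ≠ 0 → ∃ s ∈ S, ∃ s' ∈ S, f s = M ∧ f s' = M ∧ D + n s' ≤ n s) := by
  classical
  obtain ⟨s₀, hs₀, hmin⟩ := Finset.exists_min_image S f hS
  set M := f s₀ with hM
  set G : Polynomial (Polynomial k) :=
    ∑ s ∈ S, C (C (c s) * X ^ (f s - M)) * (X + C (C c₀)) ^ n s with hG
  set S0 := S.filter fun s => f s = M with hS0
  set R : Polynomial k := ∑ s ∈ S0, C (c s) * X ^ n s with hR
  have hG0 : G.map (evalRingHom 0) = R.comp (X + C c₀) := by
    have hRs : R.comp (X + C c₀) = ∑ s ∈ S0, (C (c s) * X ^ n s).comp (X + C c₀) := by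
      rw [hR]
      exact map_sum (compRingHom (X + C c₀ : Polynomial k)) _ _
    rw [hRs, hG, Polynomial.map_sum, hS0, Finset.sum_filter]
    refine Finset.sum_congr rfl fun s hs => ?_
    rw [Polynomial.map_mul, Polynomial.map_pow, Polynomial.map_add, map_X, map_C, map_C]
    simp only [coe_evalRingHom, eval_mul, eval_C, eval_pow, eval_X]
    split_ifs with h1
    · rw [h1, Nat.sub_self, pow_zero, mul_one, mul_comp, C_comp, X_pow_comp]
    · rw [zero_pow (by have := hmin s hs; omega), mul_zero, C_0, zero_mul]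
  have hcoef : ∀ s ∈ S0, R.coeff (n s) = c s := by
    intro s hs
    rw [hR, finsetSum_coeff, Finset.sum_eq_single s]
    · rw [coeff_C_mul, coeff_X_pow, if_pos rfl, mul_one]
    · intro s' hs' hne
      rw [coeff_C_mul, coeff_X_pow, if_neg, mul_zero]
      intro heq
      rw [hS0, Finset.mem_filter] at hs hs'
      exact hne (hinj s' hs'.1 s hs.1 (hs'.2.trans hs.2.symm) heq.symm)
    · intro h1
      exact absurd hs h1
  have hsupp : ∀ j, R.coeff j ≠ 0 → ∃ s ∈ S0, n s = j := by
    intro j hj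
    by_contra hcon
    push Not at hcon
    apply hj
    rw [hR, finsetSum_coeff]
    refine Finset.sum_eq_zero fun s hs => ?_
    rw [coeff_C_mul, coeff_X_pow, if_neg (fun h1 => hcon s hs h1.symm), mul_zero]
  have hs₀0 : s₀ ∈ S0 := Finset.mem_filter.2 ⟨hs₀, rfl⟩
  have hR0 : R ≠ 0 := by
    intro h0
    have := hcoef s₀ hs₀0
    rw [h0, coeff_zero] at this
    exact hc s₀ hs₀ this.symm
  have hRc : R.comp (X + C c₀) ≠ 0 := by
    intro h0
    rcases comp_eq_zero_iff.1 h0 with h2 | ⟨-, h2⟩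
    · exact hR0 h2
    · have h3 := congrArg natDegree h2
      rw [natDegree_X_add_C, natDegree_C] at h3
      exact absurd h3 one_ne_zero
  have hcoefG : ∀ j, (G.coeff j).coeff 0 = (R.comp (X + C c₀)).coeff j := by
    intro j
    rw [← hG0, coeff_map, coe_evalRingHom, coeff_zero_eq_eval_zero]
  refine ⟨M, G, (R.comp (X + C c₀)).natTrailingDegree, ⟨s₀, hs₀, rfl⟩, hmin, ⟨?_, ?_⟩, ?_, ?_⟩
  · intro j hj
    rw [hcoefG]
    exact coeff_eq_zero_of_lt_natTrailingDegree hj
  · rw [hcoefG]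
    exact trailingCoeff_nonzero_iff_nonzero.2 hRc
  · intro x y
    rw [hG, map_sum, Finset.mul_sum]
    refine Finset.sum_congr rfl fun s hs => ?_
    rw [map_mul, map_pow, map_add, ev_X, ev_C, ev_C, map_mul, map_pow, aeval_C, aeval_X, aeval_C]
    have h1 : x ^ f s = x ^ M * x ^ (f s - M) := by
      rw [← pow_add, Nat.add_sub_cancel' (hmin s hs)]
    rw [h1]
    ring
  · intro hc₀
    obtain ⟨s, hs, hsn⟩ := hsupp R.natDegree (by
      rw [← leadingCoeff]; exact leadingCoeff_ne_zero.2 hR0)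
    obtain ⟨s', hs', hsn'⟩ := hsupp R.natTrailingDegree (by
      rw [← trailingCoeff]; exact trailingCoeff_nonzero_iff_nonzero.2 hR0)
    have h5 := trail_comp hR0 hc₀
    refine ⟨s, (Finset.mem_filter.1 hs).1, s', (Finset.mem_filter.1 hs').1,
      (Finset.mem_filter.1 hs).2, (Finset.mem_filter.1 hs').2, ?_⟩
    rw [hsn, hsn']
    exact h5


theorem ev_eq_sum (x y : Ω) (G : Polynomial (Polynomial k)) :
    ev x y G = ∑ s ∈ G.support.sigma fun j => (G.coeff j).support,
      algebraMap k Ω ((G.coeff s.1).coeff s.2) * x ^ s.2 * y ^ s.1 := by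
  rw [Finset.sum_sigma]
  have h1 : ev x y G = ∑ j ∈ G.support, aeval x (G.coeff j) * y ^ j := by
    simp only [ev, coe_eval₂RingHom, eval₂_eq_sum, Polynomial.sum]
    rfl
  rw [h1]
  refine Finset.sum_congr rfl fun j _ => ?_
  have h2 : aeval x (G.coeff j) = ∑ i ∈ (G.coeff j).support,
      algebraMap k Ω ((G.coeff j).coeff i) * x ^ i := by
    rw [aeval_def, eval₂_eq_sum]
    rfl
  rw [h2, Finset.sum_mul]


/-! ### Frames with two coordinates -/

theorem K_eq2 (F : Fr k v 1 1) : F.K = IntermediateField.adjoin k {F.x 0, F.y 0} := by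
  unfold Fr.K
  congr 1
  ext a
  constructor
  · rintro (⟨i, rfl⟩ | ⟨j, rfl⟩)
    · rw [Subsingleton.elim i 0]; exact Or.inl rfl
    · rw [Subsingleton.elim j 0]; exact Or.inr rfl
  · rintro (rfl | rfl)
    · exact Or.inl ⟨0, rfl⟩
    · exact Or.inr ⟨0, rfl⟩

theorem exists_frame (F : Fr k v 1 1) {x y : Ω} (hx0 : x ≠ 0) (hy0 : y ≠ 0) (hx : v x ≠ 0)
    (hy : 0 < v y) (hxF : x ∈ F.K) (hyF : y ∈ F.K)
    (hFx : F.x 0 ∈ IntermediateField.adjoin k {x, y})
    (hFy : F.y 0 ∈ IntermediateField.adjoin k {x, y}) :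
    ∃ F' : Fr k v 1 1, F'.x 0 = x ∧ F'.y 0 = y ∧ F'.K = F.K := by
  have hK : IntermediateField.adjoin k {x, y} = F.K := by
    refine le_antisymm ?_ ?_
    · rw [IntermediateField.adjoin_le_iff]
      rintro a (rfl | ha)
      · exact hxF
      · rw [Set.mem_singleton_iff.1 ha]; exact hyF
    · rw [K_eq2, IntermediateField.adjoin_le_iff]
      rintro a (rfl | ha)
      · exact hFx
      · rw [Set.mem_singleton_iff.1 ha]; exact hFy
  set s' : Fin (1 + 1) → Ω := Fin.append (fun _ => x) (fun _ => y) with hs'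
  have hr : Set.range s' = {x, y} := by
    rw [hs']
    ext a
    constructor
    · rintro ⟨i, rfl⟩
      refine Fin.addCases (fun i => ?_) (fun j => ?_) i
      · rw [Fin.append_left]; exact Or.inl rfl
      · rw [Fin.append_right]; exact Or.inr rfl
    · rintro (rfl | ha)
      · exact ⟨Fin.castAdd 1 0, by rw [Fin.append_left]⟩
      · rw [Set.mem_singleton_iff.1 ha]
        exact ⟨Fin.natAdd 1 0, by rw [Fin.append_right]⟩
  have hind : AlgebraicIndependent k s' := by
    refine indep_of_adjoin_eq (P4bAux.s_alg F) ?_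
    rw [hr, hK, P4bAux.K_eq]
  have halg : AlgebraicIndependent k (Sum.elim (fun _ : Fin 1 => x) (fun _ : Fin 1 => y)) := by
    have h1 := hind.comp _ (finSumFinEquiv (m := 1) (n := 1)).injective
    convert h1 using 1
    funext i
    rcases i with i | i
    · rw [Function.comp_apply, finSumFinEquiv_apply_left, hs', Fin.append_left]
      rfl
    · rw [Function.comp_apply, finSumFinEquiv_apply_right, hs', Fin.append_right]
      rfl
  have hlin : LinearIndependent ℚ fun _ : Fin 1 => v x := by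
    rw [linearIndependent_unique_iff]
    exact hx
  refine ⟨⟨fun _ => x, fun _ => y, fun _ => hx0, hlin, fun _ => hy0, fun _ => hy, halg⟩, rfl, rfl,
    ?_⟩
  rw [K_eq2]
  exact hK

theorem ratio (h : Ctx k v 1) {x y : Ω} (hx0 : x ≠ 0) (hy0 : y ≠ 0) (hx : 0 < v x)
    (hy : 0 < v y) : ∃ q a : ℕ, 0 < q ∧ 0 < a ∧ Nat.Coprime q a ∧ q * v y = a * v x := by
  obtain ⟨X, hX0, -, hsp⟩ := h.rank
  obtain ⟨c1, hc1⟩ := (Submodule.mem_span_range_iff_exists_fun ℚ).1 (hsp x hx0)
  obtain ⟨c2, hc2⟩ := (Submodule.mem_span_range_iff_exists_fun ℚ).1 (hsp y hy0)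
  rw [Fin.sum_univ_one] at hc1 hc2
  rw [Rat.smul_def] at hc1 hc2
  have hc10 : c1 0 ≠ 0 := by
    intro h0
    rw [h0, Rat.cast_zero, zero_mul] at hc1
    linarith
  set ρ : ℚ := c2 0 / c1 0 with hρ
  have h1 : v y = ρ * v x := by
    rw [← hc1, ← hc2, hρ]
    have : (c1 0 : ℝ) ≠ 0 := by exact_mod_cast hc10
    push_cast
    field_simp
  have hρ0 : 0 < ρ := by
    have : (0 : ℝ) < ρ := by
      by_contra hcon
      push Not at hcon
      have := mul_nonpos_of_nonpos_of_nonneg hcon hx.le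
      linarith
    exact_mod_cast this
  refine ⟨ρ.den, ρ.num.natAbs, ρ.den_pos, Int.natAbs_pos.2 (Rat.num_pos.2 hρ0).ne',
    ρ.reduced.symm, ?_⟩
  have h2 : ((ρ.num.natAbs : ℕ) : ℝ) = (ρ.num : ℝ) := by
    have h3 : ((ρ.num.natAbs : ℕ) : ℤ) = ρ.num := Int.natAbs_of_nonneg (Rat.num_pos.2 hρ0).le
    have h4 := congrArg (fun z : ℤ => (z : ℝ)) h3
    rw [← h4]
    exact (Int.cast_natCast _).symm
  rw [h1, h2]
  have h4 : (ρ : ℝ) * ρ.den = ρ.num := by exact_mod_cast ρ.mul_den_eq_num
  rw [← h4]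
  ring

theorem bezout {q a : ℕ} (h : Nat.Coprime q a) : ∃ s t : ℤ, s * q + t * a = 1 ∧
    (q = 1 → s = 1 ∧ t = 0) := by
  by_cases hq : q = 1
  · exact ⟨1, 0, by rw [hq]; simp, fun _ => ⟨rfl, rfl⟩⟩
  · obtain ⟨s, t, hst⟩ := (Nat.isCoprime_iff_coprime.2 h)
    exact ⟨s, t, hst, fun h1 => absurd h1 hq⟩

end Surf

end Pool.Agent.TW
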