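import Pool.Agent.Lib.TW.P2a
import Pool.Agent.Lib.TW.P4b
import Pool.Agent.Lib.TW.Surf2
import Pool.Agent.Lib.TA.Cone

/-!
# TANK W, exit, row X3: noetherian approximation of a frame (Perron)
-/

set_option autoImplicit false

open Polynomial
open scoped Matrix

namespace Pool.Agent.TW

open Pool.Agent.H15JM (RVal)
open Pool.Agent.LU1 (VPos adj)
open Pool.Agent.D2 (Ctx0)

universe u

variable {k Ω : Type u} [Field k] [Field Ω] [Algebra k Ω] {v : RVal Ω} {r D : ℕ}

namespace X3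

/-- The values of the monomials after a unimodular change are independent. -/
theorem ind_change {x : Fin r → Ω} (hx : ∀ i, x i ≠ 0)
    (hind : LinearIndependent ℚ fun i => v (x i)) {U V : Matrix (Fin r) (Fin r) ℤ}
    (h : TA.Inv2 U V) : LinearIndependent ℚ fun j => v (mx x (V j)) := by
  rw [Fintype.linearIndependent_iff]
  intro a ha
  rw [Fintype.linearIndependent_iff] at hind
  have hv : ∀ j, v (mx x (V j)) = ∑ i, (V j i : ℝ) * v (x i) := fun j => TA.v_mx hx (V j)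
  have h1 := hind (fun i => ∑ j, a j * (V j i : ℚ)) (by
    rw [← ha]
    calc ∑ i, (∑ j, a j * (V j i : ℚ)) • v (x i)
        = ∑ i, ∑ j, (a j : ℝ) * (V j i : ℝ) * v (x i) := by
          refine Finset.sum_congr rfl fun i _ => ?_
          rw [Rat.smul_def]
          push_cast
          rw [Finset.sum_mul]
      _ = ∑ j, ∑ i, (a j : ℝ) * (V j i : ℝ) * v (x i) := Finset.sum_comm
      _ = ∑ j, a j • v (mx x (V j)) := by
          refine Finset.sum_congr rfl fun j _ => ?_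
          rw [hv, Rat.smul_def, Finset.mul_sum]
          exact Finset.sum_congr rfl fun i _ => by ring)
  -- `a V = 0`
  have h2 : a ᵥ* (V.map (Int.cast : ℤ → ℚ)) = 0 := by
    funext i
    exact h1 i
  have h3 : (V.map (Int.cast : ℤ → ℚ)) * (U.map (Int.cast : ℤ → ℚ)) = 1 := by
    have h5 : (V * U).map (Int.cast : ℤ → ℚ) = V.map (Int.cast : ℤ → ℚ) * U.map (Int.cast : ℤ → ℚ) :=
      Matrix.map_mul (f := Int.castRingHom ℚ)
    rw [← h5, h.vu]
    exact Matrix.map_one (Int.cast : ℤ → ℚ) Int.cast_zero Int.cast_one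
  have h4 : a = 0 := by
    have h5 := congrArg (fun b => b ᵥ* (U.map (Int.cast : ℤ → ℚ))) h2
    simp only [Matrix.vecMul_vecMul, h3, Matrix.vecMul_one, Matrix.zero_vecMul] at h5
    exact h5
  intro i
  rw [h4]
  rfl

end X3

/-- A frame with positive `x`, the same `y`, the same `H`, in which finitely many monomials have
positive exponents and finitely many elements of `H` are in the noetherian part. -/
theorem Fr.exists_perron (h : Ctx k v r) (F : Fr k v r D) (Λ : Finset (Fin r → ℤ))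
    (hΛ : ∀ l ∈ Λ, 0 < v (mx F.x l)) (Y : Finset Ω) (hY : ∀ f ∈ Y, f ∈ F.H) :
    ∃ F' : Fr k v r D, F'.y = F.y ∧ F'.H = F.H ∧ F'.K = F.K ∧ (∀ i, 0 < v (F'.x i)) ∧
      (∀ l : Fin r → ℤ, ∃ l', mx F'.x l = mx F.x l') ∧
      (∀ l : Fin r → ℤ, ∃ l', mx F.x l = mx F'.x l') ∧
      (∀ l ∈ Λ, ∃ a : Fin r → ℤ, (∀ i, 0 < a i) ∧ mx F.x l = mx F'.x a) ∧
      ∀ f ∈ Y, f ∈ hensA v (ksub k (Set.range F'.s)) := by
  classical
  set S : Set Ω := Set.range (algebraMap k Ω) ∪
    ({m | ∃ l : Fin r → ℤ, m = mx F.x l ∧ 0 ≤ v m} ∪ Set.range F.y) with hS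
  have hnn : ∀ a ∈ Subring.closure S, v.Ge 0 a := F.P_nonneg h
  have hT : ∀ f ∈ Y, ∃ T : Finset Ω, (T : Set Ω) ⊆ S ∧
      f ∈ hensA v (Subring.closure (T : Set Ω)) := fun f hf => hensA_finite hnn (hY f hf)
  choose! T hTS hfT using hT
  -- the exponents of the monomials
  let ex : Ω → (Fin r → ℤ) := fun m =>
    if h1 : ∃ l : Fin r → ℤ, m = mx F.x l ∧ 0 < v m then h1.choose else 0
  let Λ' : Finset (Fin r → ℤ) := ((Y.biUnion T).image ex).filter fun l => 0 < v (mx F.x l)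
  obtain ⟨U, V, hUV, hpos, hcone⟩ := TA.perron_mx (v := v) F.x_ne F.x_ind (Λ ∪ Λ') (by
    intro l hl
    rcases Finset.mem_union.1 hl with h1 | h1
    · exact hΛ l h1
    · exact (Finset.mem_filter.1 h1).2)
  have hx'0 : ∀ j, mx F.x (V j) ≠ 0 := fun j => TA.mx_ne F.x_ne (V j)
  have hfwd : ∀ l : Fin r → ℤ, mx (fun j => mx F.x (V j)) l = mx F.x (l ᵥ* V) := fun l =>
    TA.mx_mx F.x V l F.x_ne
  have hbwd : ∀ l : Fin r → ℤ, mx F.x l = mx (fun j => mx F.x (V j)) (l ᵥ* U) := fun l =>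
    (TA.mx_back F.x_ne hUV l).symm
  have hxmem : ∀ (E : IntermediateField k Ω) (x : Fin r → Ω), (∀ i, x i ∈ E) →
      ∀ l : Fin r → ℤ, mx x l ∈ E := fun E x hx l => prod_mem fun i _ => zpow_mem (hx i) _
  have hK : IntermediateField.adjoin k (Set.range (fun j => mx F.x (V j)) ∪ Set.range F.y) =
      F.K := by
    refine le_antisymm (IntermediateField.adjoin_le_iff.2 ?_) (IntermediateField.adjoin_le_iff.2 ?_)
    · rintro _ (⟨j, rfl⟩ | ⟨j, rfl⟩)
      · exact hxmem _ _ (fun i => P2.x_mem_K F i) _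
      · exact P2.y_mem_K F j
    · rintro _ (⟨i, rfl⟩ | ⟨j, rfl⟩)
      · have h1 : F.x i = mx F.x (Pi.single i 1) := by
          rw [P2.mx_single, zpow_one]
        rw [h1, hbwd]
        exact hxmem _ _ (fun i => IntermediateField.subset_adjoin _ _ (Or.inl ⟨i, rfl⟩)) _
      · exact IntermediateField.subset_adjoin _ _ (Or.inr ⟨j, rfl⟩)
  have halg : AlgebraicIndependent k (Sum.elim (fun j => mx F.x (V j)) F.y) := by
    have h1 : AlgebraicIndependent k (Fin.append (fun j => mx F.x (V j)) F.y) := by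
      refine Surf.indep_of_adjoin_eq (P4bAux.s_alg F) ?_
      rw [← P4bAux.K_eq, P4bAux.append_eq, Set.range_comp, finSumFinEquiv.symm.surjective.range_eq,
        Set.image_univ, Set.Sum.elim_range, hK]
    have h2 : Sum.elim (fun j => mx F.x (V j)) F.y =
        Fin.append (fun j => mx F.x (V j)) F.y ∘ finSumFinEquiv := by
      rw [P4bAux.append_eq]
      funext i
      simp
    rw [h2]
    exact h1.comp _ finSumFinEquiv.injective
  let F' : Fr k v r D :=
    { x := fun j => mx F.x (V j)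
      y := F.y
      x_ne := hx'0
      x_ind := X3.ind_change F.x_ne F.x_ind hUV
      y_ne := F.y_ne
      y_pos := F.y_pos
      alg := halg }
  have hPP : F'.P = F.P := by
    have h1 : {m | ∃ l : Fin r → ℤ, m = mx F'.x l ∧ 0 ≤ v m} =
        {m | ∃ l : Fin r → ℤ, m = mx F.x l ∧ 0 ≤ v m} := by
      ext m
      constructor
      · rintro ⟨l, rfl, hl⟩
        exact ⟨_, hfwd l, hl⟩
      · rintro ⟨l, rfl, hl⟩
        exact ⟨_, hbwd l, hl⟩
    show ksub k ({m | ∃ l : Fin r → ℤ, m = mx F'.x l ∧ 0 ≤ v m} ∪ Set.range F.y) = _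
    rw [h1]
    rfl
  refine ⟨F', rfl, by rw [Fr.H, hPP]; rfl, hK, hpos, fun l => ⟨_, hfwd l⟩, fun l => ⟨_, hbwd l⟩,
    fun l hl => ⟨l ᵥ* U, hcone l (Finset.mem_union_left _ hl), hbwd l⟩, ?_⟩
  intro f hf
  refine hensA_mono ?_ (hfT f hf)
  rw [Subring.closure_le]
  intro a ha
  have hrs : ∀ i, F'.s i ∈ ksub k (Set.range F'.s) := fun i =>
    Subring.subset_closure (Or.inr ⟨i, rfl⟩)
  rcases hTS f hf ha with ⟨c, rfl⟩ | ⟨l, rfl, hl⟩ | ⟨j, rfl⟩
  · exact Subring.subset_closure (Or.inl ⟨c, rfl⟩)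
  · rcases hl.lt_or_eq with h1 | h1
    · -- the exponents are nonnegative
      have hex : ∃ l' : Fin r → ℤ, mx F.x l = mx F.x l' ∧ 0 < v (mx F.x l) := ⟨l, rfl, h1⟩
      have h2 : mx F.x l = mx F.x (ex (mx F.x l)) := by
        have h3 : ex (mx F.x l) = hex.choose := dif_pos hex
        rw [h3]
        exact hex.choose_spec.1
      have h3 : ex (mx F.x l) ∈ Λ' := by
        refine Finset.mem_filter.2 ⟨Finset.mem_image_of_mem _ (Finset.mem_biUnion.2 ⟨f, hf, ha⟩), ?_⟩
        rw [← h2]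
        exact h1
      have h4 := hcone _ (Finset.mem_union_right _ h3)
      rw [SetLike.mem_coe, h2, hbwd]
      refine prod_mem fun i _ => ?_
      obtain ⟨n, hn⟩ := Int.eq_ofNat_of_zero_le (h4 i).le
      rw [hn]
      have h5 : F'.x i = F'.s (Fin.castAdd D i) := by
        simp [Fr.s]
      show F'.x i ^ ((n : ℕ) : ℤ) ∈ _
      rw [zpow_natCast, h5]
      exact pow_mem (hrs _) n
    · have h2 : l = 0 := P2.eq_zero_of_v F h1.symm
      rw [h2, SetLike.mem_coe, P2.mx_zero]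
      exact one_mem _
  · have h5 : F.y j = F'.s (Fin.natAdd r j) := by
      simp [Fr.s, F']
    rw [SetLike.mem_coe, h5]
    exact hrs _

end Pool.Agent.TW
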