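import Pool.Agent.Lib.TW.P2a
import Pool.Agent.Lib.TW.BA

/-!
# TANK W, row X4: the `p`-coordinates, for a `p`-basis of `H[1/x]`, of the elements of the field
-/

set_option autoImplicit false

open Polynomial

namespace Pool.Agent.TW

open Pool.Agent.H15JM (RVal)
open Pool.Agent.LU1 (VPos adj)
open Pool.Agent.LUC (Cl clF lv)
open Pool.Agent.D2 (Ctx0)
open Pool.Agent.D2P (hen rootF)

universe u

variable {k Ω : Type u} [Field k] [Field Ω] [Algebra k Ω] {v : RVal Ω} {r D : ℕ}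

theorem X4.pcomb_sub (p : ℕ) [Fact p.Prime] [CharP Ω p] {n : ℕ} (t : Fin n → Ω)
    (c c' : (Fin n → Fin p) → Ω) : pcomb t (c - c') = pcomb t c - pcomb t c' := by
  unfold pcomb
  rw [← Finset.sum_sub_distrib]
  refine Finset.sum_congr rfl fun α _ => ?_
  rw [Pi.sub_apply, sub_pow_char, sub_mul]

theorem Fr.PC.mem_field [IsAlgClosed Ω] [IsAlgClosed k] (p : ℕ) [Fact p.Prime] [CharP k p]
    [CharP Ω p] (h : Ctx k v r) {F : Fr k v r D} {E : IntermediateField k Ω} (hF : F.IsFr E)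
    {t : Fin (r + D) → Ω} (ht : PBasis p E t) (hPC : F.PC p t) {f : Ω} (hf : f ∈ E)
    (hfH : F.InHx f) : ∃ c : (Fin (r + D) → Fin p) → Ω,
      (∀ α, c α ∈ E ∧ F.InHx (c α)) ∧ f = pcomb t c := by
  obtain ⟨c, hc, hfc⟩ := hPC.span f hfH
  obtain ⟨c', hc', hfc'⟩ := ht.span f hf
  have hhen : hen v E = hen v F.K := hF.hen_eq p h
  have hcE : ∀ α, c α ∈ hen v E := by
    intro α
    obtain ⟨l, hl⟩ := hc α
    have h1 : mx F.x l * c α ∈ hen v F.K := F.H_le_hen h _ hl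
    have h2 : mx F.x l ∈ hen v F.K := D2P.le_hen _ (P2.mx_mem (P2.x_mem_K F) l)
    rw [hhen]
    have h3 : c α = (mx F.x l)⁻¹ * (mx F.x l * c α) := by
      rw [inv_mul_cancel_left₀ (P2.mx_ne F l)]
    rw [h3]
    exact mul_mem (inv_mem h2) h1
  have h0 : ∀ α, (c - c') α = 0 :=
    (ht.hen (v := v) p).ind (c - c') (fun α => sub_mem (hcE α) (D2P.le_hen _ (hc' α))) (by
      rw [X4.pcomb_sub p, ← hfc, ← hfc', sub_self])
  refine ⟨c, fun α => ⟨?_, hc α⟩, hfc⟩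
  have h1 : c α = c' α := sub_eq_zero.1 (h0 α)
  rw [h1]
  exact hc' α

end Pool.Agent.TW
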