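import Pool.Agent.Lib.TW.X5
import Pool.Agent.Lib.TW.X1a
import Pool.Agent.Lib.TW.X3
import Pool.Agent.Lib.TW.X4
import Pool.Agent.Lib.TW.Estar
import Pool.Agent.Lib.TW.BB
import Pool.Agent.Lib.D2.G3

/-!
# TANK W, row X6: local uniformization gives log uniformization

`LU.lus_K`: for the field `K₁` of the coordinates of a frame: a frame of `K₁` given by `LU`, a Perron
transform of it, the étale generator; the local ring `O` is a chart of a blowing up as its elements
are quotients of polynomials in the coordinates of `K₁` with monomial denominators.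
`LU.lus`: the field `E` has the henselization of such a `K₁`.
-/

set_option autoImplicit false

open Polynomial

namespace Pool.Agent.TW

open Pool.Agent.H15JM (RVal)
open Pool.Agent.LU1 (VPos adj)
open Pool.Agent.LUC (Cl clF lv le_lv lv_nonneg lv_eq_of_le Par SM IsMod LUs QuoIs)
open Pool.Agent.D2 (Ctx0)
open Pool.Agent.D2P (hen rootF)

universe u

variable {k Ω : Type u} [Field k] [Field Ω] [Algebra k Ω] {v : RVal Ω} {r D : ℕ}

namespace X6

/-- A polynomial in elements with the denominator `δ` has the denominator `δ ^ N`. -/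
theorem exists_bound {B : Subring Ω} (hk : ∀ c : k, algebraMap k Ω c ∈ B) {n : ℕ}
    {s₁ : Fin n → Ω} {δ : Ω} (hδ : δ ∈ B) (hs : ∀ i, δ * s₁ i ∈ B)
    (P : MvPolynomial (Fin n) k) :
    ∃ N₀ : ℕ, ∀ N, N₀ ≤ N → δ ^ N * MvPolynomial.aeval s₁ P ∈ B := by
  induction P using MvPolynomial.induction_on with
  | C a => exact ⟨0, fun N _ => by
      rw [MvPolynomial.aeval_C]
      exact mul_mem (pow_mem hδ N) (hk a)⟩
  | add P Q hP hQ =>
    obtain ⟨N₁, h1⟩ := hP
    obtain ⟨N₂, h2⟩ := hQ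
    refine ⟨max N₁ N₂, fun N hN => ?_⟩
    rw [map_add, mul_add]
    exact add_mem (h1 N (le_of_max_le_left hN)) (h2 N (le_of_max_le_right hN))
  | mul_X P i hP =>
    obtain ⟨N₁, h1⟩ := hP
    refine ⟨N₁ + 1, fun N hN => ?_⟩
    obtain ⟨M, rfl⟩ : ∃ M, N = M + 1 := ⟨N - 1, by omega⟩
    rw [map_mul, MvPolynomial.aeval_X]
    have h2 : δ ^ (M + 1) * (MvPolynomial.aeval s₁ P * s₁ i) =
        (δ ^ M * MvPolynomial.aeval s₁ P) * (δ * s₁ i) := by ring
    rw [h2]
    exact mul_mem (h1 M (by omega)) (hs i)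

/-- The set of the indices of the `x_i`. -/
def J (r D : ℕ) : Finset (Fin (r + D)) := Finset.univ.image (Fin.castAdd D)

/-- A monomial in the `x_i`, exponents of one sign, times a unit. -/
theorem sm {F : Fr k v r D} (hr : 0 < r) (hpos : ∀ i, 0 < v (F.x i)) {O : Subring Ω} {u : Ω}
    (hu : u ∈ O) (hu0 : u ≠ 0) (hvu : v u = 0) {a : Fin r → ℤ}
    (ha : (∀ i, 0 < a i) ∨ (∀ i, a i < 0) ∨ a = 0) : SM v O F.s (J r D) (mx F.x a * u) := by
  have : Nonempty (Fin r) := ⟨⟨0, hr⟩⟩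
  have hv : v (mx F.x a * u) = ∑ i, a i * v (F.x i) := by
    rw [v.map_mul (P2.mx_ne F a) hu0, hvu, add_zero, P2.v_mx]
  refine ⟨Fin.append a 0, u, hu, hu0, hvu, ?_, ?_, ?_, ?_, ?_⟩
  · congr 1
    rw [Fin.prod_univ_add]
    have h1 : ∀ i : Fin D, F.s (Fin.natAdd r i) ^ (Fin.append a (0 : Fin D → ℤ)
        (Fin.natAdd r i)) = 1 := fun i => by
      rw [Fin.append_right]; simp
    rw [Finset.prod_congr rfl fun i _ => h1 i, Finset.prod_const_one, mul_one]
    refine Finset.prod_congr rfl fun i _ => ?_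
    rw [Fin.append_left, Fr.s, Fin.append_left]
  · intro i hi
    induction i using Fin.addCases with
    | left i => exact absurd (Finset.mem_image_of_mem _ (Finset.mem_univ i)) hi
    | right i => rw [Fin.append_right]; rfl
  · intro h0 i hi
    obtain ⟨i, -, rfl⟩ := Finset.mem_image.1 hi
    rw [Fin.append_left]
    rcases ha with ha | ha | ha
    · exact ha i
    · exfalso
      rw [hv] at h0
      have : ∑ i, (a i : ℝ) * v (F.x i) < 0 :=
        Finset.sum_neg (fun i _ => mul_neg_of_neg_of_pos (by exact_mod_cast ha i) (hpos i))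
          Finset.univ_nonempty
      linarith
    · exfalso
      rw [hv, ha] at h0
      simp at h0
  · intro h0 i hi
    obtain ⟨i, -, rfl⟩ := Finset.mem_image.1 hi
    rw [Fin.append_left]
    rcases ha with ha | ha | ha
    · exfalso
      rw [hv] at h0
      have : 0 < ∑ i, (a i : ℝ) * v (F.x i) :=
        Finset.sum_pos (fun i _ => mul_pos (by exact_mod_cast ha i) (hpos i))
          Finset.univ_nonempty
      linarith
    · exact ha i
    · exfalso
      rw [hv, ha] at h0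
      simp at h0
  · intro h0 i
    have ha0 : a = 0 := by
      rcases ha with ha | ha | ha
      · exfalso
        rw [hv] at h0
        have : 0 < ∑ i, (a i : ℝ) * v (F.x i) :=
          Finset.sum_pos (fun i _ => mul_pos (by exact_mod_cast ha i) (hpos i))
            Finset.univ_nonempty
        linarith
      · exfalso
        rw [hv] at h0
        have : ∑ i, (a i : ℝ) * v (F.x i) < 0 :=
          Finset.sum_neg (fun i _ => mul_neg_of_neg_of_pos (by exact_mod_cast ha i) (hpos i))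
            Finset.univ_nonempty
        linarith
      · exact ha
    subst ha0
    induction i using Fin.addCases with
    | left i => rw [Fin.append_left]; rfl
    | right i => rw [Fin.append_right]; rfl

/-- The chart: the local ring of `k[s, e]` is a local ring of a blowing up of `B = R[A]`. -/
theorem chart {A : Set Ω} {δ γ e : Ω} (hr : 0 < r) {F : Fr k v r D} (hpos : ∀ i, 0 < v (F.x i))
    (hnn : ∀ f ∈ etR k F.s e, v.Ge 0 f)
    (hAO : ∀ a ∈ A, a ∈ lv v (etR k F.s e))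
    (hδ : δ ∈ LUC.adj (algebraMap k Ω).range A)
    (hγ : γ ∈ LUC.adj (algebraMap k Ω).range A)
    {n : ℕ} {s₁ : Fin n → Ω}
    (hs₁ : ∀ i, δ * s₁ i ∈ LUC.adj (algebraMap k Ω).range A)
    (hδO : MonoO F e δ)
    (hγO : ∃ a : Fin r → ℤ, (∀ i, 0 < a i) ∧ ∃ w ∈ lv v (etR k F.s e), w ≠ 0 ∧ v w = 0 ∧
      γ = mx F.x a * w)
    (hden : ∀ b ∈ lv v (etR k F.s e), ∃ a d : MvPolynomial (Fin n) k,
      MvPolynomial.aeval s₁ d ≠ 0 ∧
      b = MvPolynomial.aeval s₁ a / MvPolynomial.aeval s₁ d ∧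
      MonoO F e (MvPolynomial.aeval s₁ d)) :
    ∃ g ∈ LUC.adj (algebraMap k Ω).range A, g ≠ 0 ∧
      SM v (lv v (etR k F.s e)) F.s (J r D) g ∧ ∃ G : Finset Ω,
        (∀ x ∈ G, x ∈ LUC.adj (algebraMap k Ω).range A ∧ v.Ge (v g) x) ∧
        lv v (etR k F.s e) =
          lv v (LUC.adj (algebraMap k Ω).range (A ∪ (fun x => x / g) '' (G : Set Ω))) := by
  classical
  set B := LUC.adj (algebraMap k Ω).range A with hBdef
  set O := lv v (etR k F.s e) with hOdef
  have hkB : ∀ c : k, algebraMap k Ω c ∈ B := fun c => LUC.base_le_adj _ _ ⟨c, rfl⟩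
  -- the generators
  let S : Finset Ω := insert e (Finset.univ.image F.s)
  have hSO : ∀ b ∈ S, b ∈ O := by
    intro b hb
    rcases Finset.mem_insert.1 hb with rfl | hb
    · exact le_lv _ _ X5.e_mem
    · obtain ⟨i, -, rfl⟩ := Finset.mem_image.1 hb
      exact le_lv _ _ (X5.s_mem i)
  choose! α β hβ0 hαβ hβO using hden
  choose N₁ hN₁ using exists_bound hkB hδ hs₁
  let N : ℕ := ∑ b ∈ S, (N₁ (α b) + N₁ (β b))
  have hNα : ∀ b ∈ S, δ ^ N * MvPolynomial.aeval s₁ (α b) ∈ B := fun b hb => by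
    refine hN₁ _ N ?_
    have : N₁ (α b) + N₁ (β b) ≤ N :=
      Finset.single_le_sum (f := fun b => N₁ (α b) + N₁ (β b)) (fun _ _ => Nat.zero_le _) hb
    omega
  have hNβ : ∀ b ∈ S, δ ^ N * MvPolynomial.aeval s₁ (β b) ∈ B := fun b hb => by
    refine hN₁ _ N ?_
    have : N₁ (α b) + N₁ (β b) ≤ N :=
      Finset.single_le_sum (f := fun b => N₁ (α b) + N₁ (β b)) (fun _ _ => Nat.zero_le _) hb
    omega
  -- the element `g₀`
  let g₀ : Ω := ∏ b ∈ S, δ ^ N * MvPolynomial.aeval s₁ (β b)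
  have hg₀B : g₀ ∈ B := prod_mem hNβ
  have hbg₀ : ∀ b ∈ S, b * g₀ ∈ B := by
    intro b hb
    have h1 : g₀ = (δ ^ N * MvPolynomial.aeval s₁ (β b)) *
        ∏ b' ∈ S.erase b, δ ^ N * MvPolynomial.aeval s₁ (β b') :=
      (Finset.mul_prod_erase S _ hb).symm
    have h2 : b * g₀ = (δ ^ N * MvPolynomial.aeval s₁ (α b)) *
        ∏ b' ∈ S.erase b, δ ^ N * MvPolynomial.aeval s₁ (β b') := by
      rw [h1, ← mul_assoc]
      congr 1
      have h3 := hαβ b (hSO b hb)
      rw [eq_div_iff (hβ0 b (hSO b hb))] at h3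
      rw [← h3]
      ring
    rw [h2]
    exact mul_mem (hNα b hb) (prod_mem fun b' hb' => hNβ b' (Finset.mem_of_mem_erase hb'))
  -- `g₀` is a monomial
  have hmul : ∀ f f' : Ω, MonoO F e f → MonoO F e f' → MonoO F e (f * f') := by
    rintro f f' ⟨l, w, hw, hw0, hvw, rfl⟩ ⟨l', w', hw', hw0', hvw', rfl⟩
    refine ⟨l + l', w * w', mul_mem hw hw', mul_ne_zero hw0 hw0', ?_, ?_⟩
    · rw [v.map_mul hw0 hw0', hvw, hvw', add_zero]
    · rw [P1.mx_add F.x_ne, mul_mul_mul_comm]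
  have hone : MonoO F e 1 := ⟨0, 1, one_mem _, one_ne_zero, v.map_one, by
    rw [P1.mx_zero, mul_one]⟩
  have hpow : ∀ (f : Ω) (m : ℕ), MonoO F e f → MonoO F e (f ^ m) := by
    intro f m hf
    induction m with
    | zero => rw [pow_zero]; exact hone
    | succ m ih => rw [pow_succ]; exact hmul _ _ ih hf
  have hprod : ∀ T : Finset Ω, T ⊆ S →
      MonoO F e (∏ b ∈ T, δ ^ N * MvPolynomial.aeval s₁ (β b)) := by
    intro T
    induction T using Finset.induction_on with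
    | empty => intro _; rw [Finset.prod_empty]; exact hone
    | insert b T hb ih =>
      intro hT
      rw [Finset.prod_insert hb]
      exact hmul _ _ (hmul _ _ (hpow δ N hδO)
        (hβO b (hSO b (hT (Finset.mem_insert_self b T)))))
        (ih fun x hx => hT (Finset.mem_insert_of_mem hx))
  obtain ⟨l, w, hw, hw0, hvw, hg₀⟩ := hprod S subset_rfl
  obtain ⟨a, ha, w', hw', hw0', hvw', hγe⟩ := hγO
  -- the power of `γ`
  let M : ℕ := ∑ i, ((l i).natAbs + 1)
  have hM : ∀ i, 0 < (M : ℤ) * a i + l i := by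
    intro i
    have h1 : (l i).natAbs + 1 ≤ M :=
      Finset.single_le_sum (f := fun i => (l i).natAbs + 1) (fun _ _ => Nat.zero_le _)
        (Finset.mem_univ i)
    have h2 : (M : ℤ) ≤ M * a i := by
      have := ha i
      nlinarith [Int.natCast_nonneg M]
    have h3 : -((l i).natAbs : ℤ) ≤ l i := by omega
    have h4 : ((l i).natAbs : ℤ) + 1 ≤ M := by exact_mod_cast h1
    linarith
  have hge : γ ^ M * g₀ = mx F.x (fun i => (M : ℤ) * a i + l i) * (w' ^ M * w) := by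
    have h1 : (fun i => (M : ℤ) * a i + l i) = M • a + l := by
      funext i
      rw [Pi.add_apply, Pi.smul_apply, nsmul_eq_mul]
    rw [h1, P1.mx_add F.x_ne, P1.mx_nsmul, hγe, mul_pow]
    change _ * (∏ b ∈ S, δ ^ N * MvPolynomial.aeval s₁ (β b)) = _
    rw [hg₀]
    ring
  have hu : w' ^ M * w ∈ O := mul_mem (pow_mem hw' M) hw
  have hu0 : w' ^ M * w ≠ 0 := mul_ne_zero (pow_ne_zero M hw0') hw0
  have hvu : v (w' ^ M * w) = 0 := by
    rw [v.map_mul (pow_ne_zero M hw0') hw0, v.map_pow hw0', hvw', hvw, mul_zero, add_zero]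
  have hg0 : γ ^ M * g₀ ≠ 0 := by
    rw [hge]
    exact mul_ne_zero (P2.mx_ne F _) hu0
  refine ⟨γ ^ M * g₀, mul_mem (pow_mem hγ M) hg₀B, hg0, ?_, ?_⟩
  · rw [hge]
    exact sm hr hpos hu hu0 hvu (Or.inl hM)
  · refine ⟨S.image fun b => b * (γ ^ M * g₀), ?_, ?_⟩
    · intro x hx
      obtain ⟨b, hb, rfl⟩ := Finset.mem_image.1 hx
      refine ⟨?_, ?_⟩
      · have h1 : b * (γ ^ M * g₀) = γ ^ M * (b * g₀) := by ring
        rw [h1]
        exact mul_mem (pow_mem hγ M) (hbg₀ b hb)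
      · intro hx0
        have hb0 : b ≠ 0 := left_ne_zero_of_mul hx0
        rw [v.map_mul hb0 hg0]
        have := lv_nonneg hnn b (hSO b hb) hb0
        linarith
    · have h1 : (fun x => x / (γ ^ M * g₀)) ''
          ((S.image fun b => b * (γ ^ M * g₀) : Finset Ω) : Set Ω) = (S : Set Ω) := by
        rw [Finset.coe_image, Set.image_image]
        have h2 : (fun b : Ω => b * (γ ^ M * g₀) / (γ ^ M * g₀)) = id := by
          funext b
          rw [mul_div_cancel_right₀ _ hg0, id]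
        rw [h2, Set.image_id]
      rw [h1]
      refine (lv_eq_of_le ?_ ?_).symm
      · refine Subring.closure_le.2 ?_
        rintro f (⟨c, rfl⟩ | hf)
        · exact LUC.base_le_adj _ _ ⟨c, rfl⟩
        · refine LUC.mem_adj (Or.inr ?_)
          rcases hf with rfl | ⟨i, rfl⟩
          · exact Finset.mem_coe.2 (Finset.mem_insert_self _ _)
          · exact Finset.mem_coe.2 (Finset.mem_insert_of_mem
              (Finset.mem_image_of_mem _ (Finset.mem_univ i)))
      · refine LUC.adj_le ?_ ?_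
        · rintro _ ⟨c, rfl⟩
          exact le_lv _ _ (X5.k_mem c)
        · rintro f (hf | hf)
          · exact hAO f hf
          · exact hSO f (Finset.mem_coe.1 hf)

end X6

/-- The field of the coordinates of a frame is log uniformizable. -/
theorem LU.lus_K [IsAlgClosed Ω] [IsAlgClosed k] (p : ℕ) [Fact p.Prime] [CharP k p]
    [CharP Ω p] (h : Ctx k v r) (F₁ : Fr k v r D) (hLU : LU p v r F₁.K) :
    LUs v (algebraMap k Ω).range F₁.K.toSubfield := by
  classical
  intro A hA hQ T hT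
  set B := LUC.adj (algebraMap k Ω).range (A : Set Ω) with hBdef
  have hk0 : ∀ f ∈ (algebraMap k Ω).range, v.Ge 0 f := by
    rintro _ ⟨c, rfl⟩
    exact h.toCtx0.ge c
  have hBnn : ∀ f ∈ B, v.Ge 0 f := LUC.adj_nonneg hk0 fun a ha => hA a (Finset.mem_coe.1 ha)
  have hKs : F₁.K = kr k F₁.s := P1.K_eq F₁
  have hs₁K : ∀ i, F₁.s i ∈ F₁.K := fun i => by
    rw [hKs]
    exact IntermediateField.subset_adjoin _ _ ⟨i, rfl⟩
  -- the common denominator of the coordinates
  obtain ⟨δ, hδB, hδ0, hδs⟩ := exists_den (B := B) Finset.univ F₁.s fun i _ => hQ.2 _ (hs₁K i)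
  -- an element of positive value
  obtain ⟨γ, hγB, hγ0, hγv⟩ : ∃ γ ∈ B, γ ≠ 0 ∧ 0 < v γ := by
    obtain ⟨l, hl⟩ := P2.exists_pos h F₁
    obtain ⟨a, ha, b, hb, hb0, hab⟩ := hQ.2 (mx F₁.x l) (P2.mx_mem (P2.x_mem_K F₁) l)
    have ha0 : a ≠ 0 := by
      rintro rfl
      rw [zero_div] at hab
      exact P2.mx_ne F₁ l hab
    refine ⟨a, ha, ha0, ?_⟩
    rw [hab, v.map_div ha0 hb0] at hl
    have := hBnn b hb hb0
    linarith
  have hpb : PBasis p F₁.K F₁.s := F₁.pbasis p h le_rfl (D2P.le_hen _)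
  let Z : Finset Ω := (A ∪ T ∪ {δ, γ} ∪ Finset.univ.image F₁.s).filter (· ≠ 0)
  have hBK : ∀ f ∈ B, f ∈ F₁.K := hQ.1
  have hAK : ∀ f ∈ A, f ∈ F₁.K := fun f hf => hBK f (LUC.mem_adj (Finset.mem_coe.2 hf))
  have hZK : ∀ z ∈ Z, z ∈ F₁.K ∧ z ≠ 0 := by
    intro z hz
    obtain ⟨hz, hz0⟩ := Finset.mem_filter.1 hz
    refine ⟨?_, hz0⟩
    rcases Finset.mem_union.1 hz with hz | hz
    · rcases Finset.mem_union.1 hz with hz | hz
      · rcases Finset.mem_union.1 hz with hz | hz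
        · exact hAK z hz
        · exact (hT z hz).1
      · rcases Finset.mem_insert.1 hz with rfl | hz
        · exact hBK _ hδB
        · rw [Finset.mem_singleton.1 hz]
          exact hBK _ hγB
    · obtain ⟨i, -, rfl⟩ := Finset.mem_image.1 hz
      exact hs₁K i
  obtain ⟨F, hF, hZ, hPC⟩ := hLU D F₁.s hpb Z hZK
  -- the exponents and the units
  have hZ' : ∀ z ∈ Z, ∃ l : Fin r → ℤ, ∃ w ∈ F.H, w ≠ 0 ∧ v w = 0 ∧ z = mx F.x l * w := hZ
  choose! L W hW hW0 hvW hZW using hZ'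
  -- the `p`-coordinates
  have hsK : ∀ i, F.s i ∈ F₁.K := by
    intro i
    induction i using Fin.addCases with
    | left i => rw [Fr.s, Fin.append_left]; exact hF.x_mem i
    | right i => rw [Fr.s, Fin.append_right]; exact hF.y_mem i
  have hsH : ∀ i, F.InHx (F.s i) := (F.PC_self p h).mem
  have hcoord : ∀ i, ∃ c : (Fin (r + D) → Fin p) → Ω,
      (∀ α, c α ∈ F₁.K ∧ F.InHx (c α)) ∧ F.s i = pcomb F₁.s c := fun i =>
    Fr.PC.mem_field p h hF hpb hPC (hsK i) (hsH i)
  choose c hc hcs using hcoord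
  have hm' : ∀ i α, ∃ l : Fin r → ℤ, mx F.x l * c i α ∈ F.H := fun i α => (hc i α).2
  choose m hm using hm'
  let Λ : Finset (Fin r → ℤ) :=
    (Z.image L ∪ Z.image fun z => -L z).filter fun l => 0 < v (mx F.x l)
  let Y : Finset Ω := Z.image W ∪ Finset.univ.image
    fun q : Fin (r + D) × (Fin (r + D) → Fin p) => mx F.x (m q.1 q.2) * c q.1 q.2
  have hY : ∀ f ∈ Y, f ∈ F.H := by
    intro f hf
    rcases Finset.mem_union.1 hf with hf | hf
    · obtain ⟨z, hz, rfl⟩ := Finset.mem_image.1 hf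
      exact hW z hz
    · obtain ⟨q, -, rfl⟩ := Finset.mem_image.1 hf
      exact hm q.1 q.2
  obtain ⟨F', hy, hH, hK, hxpos, hx, hx', hΛ, hYh⟩ := F.exists_perron h Λ
    (fun l hl => (Finset.mem_filter.1 hl).2) Y hY
  have hs' : AlgebraicIndependent k F'.s := P4bAux.s_alg F'
  have hpos' : ∀ i, 0 < v (F'.s i) := by
    intro i
    induction i using Fin.addCases with
    | left i => rw [Fr.s, Fin.append_left]; exact hxpos i
    | right i => rw [Fr.s, Fin.append_right]; exact F'.y_pos i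
  have hKle : F'.K ≤ F₁.K := by
    rw [hK]
    exact P2.K_le hF
  have hxK : ∀ l : Fin r → ℤ, mx F.x l ∈ F₁.K := fun l => P2.mx_mem hF.x_mem l
  -- the elements of the field are fractions of the noetherian part
  have hmxfr : ∀ l : Fin r → ℤ, mx F'.x l ∈ fracF (hensA v (ksub k (Set.range F'.s))) := by
    intro l
    refine prod_mem fun i _ => zpow_mem (le_fracF (le_hensA _ ?_)) _
    rw [X5.x_eq]
    exact Subring.subset_closure (Or.inr ⟨_, rfl⟩)
  have hfr : ∀ a ∈ F₁.K, InFrac (hensA v (ksub k (Set.range F'.s))) a := by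
    intro a ha
    have h1 : F₁.K ≤ (fracF (hensA v (ksub k (Set.range F'.s)))).toIntermediateField
        (fun c => le_fracF (le_hensA _ (Subring.subset_closure (Or.inl ⟨c, rfl⟩)))) := by
      rw [hKs, IntermediateField.adjoin_le_iff]
      rintro _ ⟨i, rfl⟩
      change F₁.s i ∈ fracF _
      have h2 : F₁.s i ∈ Z := Finset.mem_filter.2 ⟨Finset.mem_union_right _
        (Finset.mem_image_of_mem _ (Finset.mem_univ i)), P1.s_ne F₁ i⟩
      rw [hZW _ h2]
      obtain ⟨l', hl'⟩ := hx' (L (F₁.s i))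
      rw [hl']
      exact mul_mem (hmxfr l') (le_fracF (hYh _ (Finset.mem_union_left _
        (Finset.mem_image_of_mem _ h2))))
    exact h1 ha
  have hhen : hen v F₁.K = hen v F.K := hF.hen_eq p h
  have hkr' : kr k F'.s = F'.K := (P1.K_eq F').symm
  obtain ⟨e, heK, g, het, -, hO⟩ := exists_et h.toCtx0 hs' hpos'
    (K := F₁.K) (by rw [hKs]; exact IntermediateField.fg_adjoin_of_finite (Set.finite_range _))
    (by rw [hkr']; exact hKle)
    (fun a ha => by
      rw [hkr', hK]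
      have h1 : a ∈ hen v F.K := by
        rw [← hhen]
        exact D2P.le_hen _ ha
      exact (D2P.mem_hen.1 h1).2)
    hfr
  set O := lv v (etR k F'.s e) with hOdef
  have hOnn : ∀ f ∈ etR k F'.s e, v.Ge 0 f := het.nonneg h.toCtx0
  have hWO : ∀ z ∈ Z, W z ∈ O := by
    intro z hz
    refine hO _ ?_ (hYh _ (Finset.mem_union_left _ (Finset.mem_image_of_mem _ hz)))
    have h1 : W z = (mx F.x (L z))⁻¹ * z := by
      rw [eq_inv_mul_iff_mul_eq₀ (P2.mx_ne F _)]
      exact (hZW z hz).symm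
    rw [h1]
    exact mul_mem (inv_mem (hxK _)) (hZK z hz).1
  -- the exponents
  have hexp : ∀ z ∈ Z, ∃ a : Fin r → ℤ, ((∀ i, 0 < a i) ∨ (∀ i, a i < 0) ∨ a = 0) ∧
      (0 < v z → ∀ i, 0 < a i) ∧ (0 ≤ v z → ∀ i, 0 ≤ a i) ∧ z = mx F'.x a * W z := by
    intro z hz
    have hvz : v z = v (mx F.x (L z)) := by
      conv_lhs => rw [hZW z hz]
      rw [v.map_mul (P2.mx_ne F _) (hW0 z hz), hvW z hz, add_zero]
    rcases lt_trichotomy (v (mx F.x (L z))) 0 with h0 | h0 | h0
    · have h1 : 0 < v (mx F.x (-L z)) := by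
        rw [P1.mx_neg F.x_ne, v.map_inv (P2.mx_ne F _)]
        linarith
      obtain ⟨a, ha, hla⟩ := hΛ (-L z) (Finset.mem_filter.2 ⟨Finset.mem_union_right _
        (Finset.mem_image_of_mem _ hz), h1⟩)
      refine ⟨-a, Or.inr (Or.inl fun i => by
        rw [Pi.neg_apply]; linarith [ha i]), fun h2 => ?_, fun h2 => ?_, ?_⟩
      · linarith
      · linarith
      · conv_lhs => rw [hZW z hz]
        rw [P1.mx_neg F'.x_ne, ← hla, P1.mx_neg F.x_ne, inv_inv]
    · have h1 : L z = 0 := P2.eq_zero_of_v F h0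
      refine ⟨0, Or.inr (Or.inr rfl), fun h2 => ?_, fun _ i => le_rfl, ?_⟩
      · linarith
      · conv_lhs => rw [hZW z hz]
        rw [h1, P1.mx_zero, P1.mx_zero]
    · obtain ⟨a, ha, hla⟩ := hΛ (L z) (Finset.mem_filter.2 ⟨Finset.mem_union_left _
        (Finset.mem_image_of_mem _ hz), h0⟩)
      refine ⟨a, Or.inl ha, fun _ => ha, fun _ i => (ha i).le, ?_⟩
      conv_lhs => rw [hZW z hz]
      rw [hla]
  choose! a ha hapos hann haz using hexp
  have hmemZ : ∀ z ∈ A ∪ T ∪ {δ, γ} ∪ Finset.univ.image F₁.s, z ≠ 0 → z ∈ Z := fun z hz hz0 =>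
    Finset.mem_filter.2 ⟨hz, hz0⟩
  have hδZ : δ ∈ Z := hmemZ δ (by simp) hδ0
  have hγZ : γ ∈ Z := hmemZ γ (by simp) hγ0
  have hs₁Z : ∀ i, F₁.s i ∈ Z := fun i => hmemZ _ (by simp) (P1.s_ne F₁ i)
  have hAO : ∀ f ∈ (A : Set Ω), f ∈ O := by
    intro f hf
    by_cases hf0 : f = 0
    · rw [hf0]; exact zero_mem _
    · have hfZ : f ∈ Z := hmemZ f (by
        simp only [Finset.mem_union]
        exact Or.inl (Or.inl (Or.inl (Finset.mem_coe.1 hf)))) hf0
      rw [haz f hfZ]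
      exact mul_mem (le_lv _ _ (X5.mx_nonneg_mem (hann f hfZ (hA f (Finset.mem_coe.1 hf) hf0))))
        (hWO f hfZ)
  have hden : ∀ b ∈ O, ∃ a d : MvPolynomial (Fin (r + D)) k,
      MvPolynomial.aeval F₁.s d ≠ 0 ∧
      b = MvPolynomial.aeval F₁.s a / MvPolynomial.aeval F₁.s d ∧
      MonoO F' e (MvPolynomial.aeval F₁.s d) := by
    intro b hb
    refine den_mono p h (F₀ := F) hy.symm hx hx' (P4bAux.s_alg F₁) (fun i => ?_) het
      (by rw [← hKs]; exact heK) (fun i => ?_) (fun i => ⟨c i, fun α => ?_, hcs i⟩) hb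
    · rw [← hKs]
      refine hKle ?_
      rw [← hkr']
      exact IntermediateField.subset_adjoin _ _ ⟨i, rfl⟩
    · refine ⟨-a (F₁.s i), ?_⟩
      have h1 := haz _ (hs₁Z i)
      conv =>
        enter [2, 2]
        rw [h1]
      rw [P1.mx_neg F'.x_ne, inv_mul_cancel_left₀ (P2.mx_ne F' _)]
      exact hWO _ (hs₁Z i)
    · obtain ⟨l', hl'⟩ := hx' (m i α)
      refine ⟨l', ?_⟩
      rw [← hl']
      refine hO _ (mul_mem (hxK _) (hc i α).1) (hYh _ (Finset.mem_union_right _ ?_))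
      exact Finset.mem_image.2 ⟨(i, α), Finset.mem_univ _, rfl⟩
  obtain ⟨g', hg'B, hg'0, hg'SM, G, hG, hGO⟩ := X6.chart (A := (A : Set Ω)) h.rpos hxpos hOnn hAO
    hδB hγB (fun i => hδs i (Finset.mem_univ i))
    ⟨a δ, W δ, hWO δ hδZ, hW0 δ hδZ, hvW δ hδZ, haz δ hδZ⟩
    ⟨a γ, hapos γ hγZ hγv, W γ, hWO γ hγZ, hW0 γ hγZ, hvW γ hγZ, haz γ hγZ⟩ hden
  refine ⟨r + D, F'.s, X6.J r D, O, ⟨het.par h.toCtx0, ⟨g', hg'B, hg'0, hg'SM, G, hG, hGO⟩, ?_⟩,
    het.dim h.toCtx0⟩
  intro t ht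
  have htZ : t ∈ Z := hmemZ t (by
    simp only [Finset.mem_union]
    exact Or.inl (Or.inl (Or.inr (Finset.mem_coe.1 ht)))) (hT t (Finset.mem_coe.1 ht)).2
  rw [haz t htZ]
  exact X6.sm h.rpos hxpos (hWO t htZ) (hW0 t htZ) (hvW t htZ) (ha t htZ)

/-- **Local uniformization gives log uniformization**: `LU` for `E` and for the fields of the
coordinates of the frames of `E` is needed. -/
theorem LU.lus_of [IsAlgClosed Ω] [IsAlgClosed k] (p : ℕ) [Fact p.Prime] [CharP k p]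
    [CharP Ω p] (h : Ctx k v r) {E : IntermediateField k Ω} (hE : E.FG)
    (htr : Algebra.trdeg k E = (r + D : ℕ)) (hLU : LU p v r E)
    (hLUK : ∀ F : Fr k v r D, F.IsFr E → LU p v r F.K)
    (hΩ : ∀ g : Ω, IsAlgebraic E g) :
    LUs v (algebraMap k Ω).range E.toSubfield := by
  obtain ⟨t, ht⟩ := exists_pbasis p hE htr
  obtain ⟨F₁, hF₁, -, -⟩ := hLU D t ht ∅ (fun z hz => absurd hz (Finset.notMem_empty z))
  have hhen : hen v E = hen v F₁.K := hF₁.hen_eq p h
  have hfg : F₁.K.FG := Est.fg_K F₁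
  have hL := LU.lus_K p h F₁ (hLUK F₁ hF₁)
  have h1 : ∀ a ∈ E, a ∈ hen v F₁.K := fun a ha => by
    rw [← hhen]
    exact D2P.le_hen _ ha
  have h2 : ∀ a ∈ F₁.K, a ∈ hen v E := fun a ha => by
    rw [hhen]
    exact D2P.le_hen _ ha
  refine D2.lus_of_cl E F₁.K h.toCtx0.ge ?_ hE hfg hΩ (fun a ha => (D2P.mem_hen.1 (h1 a ha)).1)
    (fun a ha => (D2P.mem_hen.1 (h2 a ha)).1) (fun a ha => (D2P.mem_hen.1 (h1 a ha)).2)
    (fun a ha => (D2P.mem_hen.1 (h2 a ha)).2) hL
  obtain ⟨l, hl⟩ := P2.exists_pos h F₁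
  exact ⟨mx F₁.x l, P2.mx_mem hF₁.x_mem l, P2.mx_ne F₁ l, hl⟩

theorem LU.lus [IsAlgClosed Ω] [IsAlgClosed k] (p : ℕ) [Fact p.Prime] [CharP k p]
    [CharP Ω p] (h : Ctx k v r) {E : IntermediateField k Ω} (hE : E.FG) (hfull : Full v E)
    (hBD : BD p v E) {n : ℕ} (htr : Algebra.trdeg k E = n)
    (hLU : ∀ E' : IntermediateField k Ω, E'.FG → Full v E' → Algebra.trdeg k E' = n →
      BD p v E' → LU p v r E')
    (hΩ : ∀ g : Ω, IsAlgebraic E g) :
    LUs v (algebraMap k Ω).range E.toSubfield := by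
  obtain ⟨D, rfl⟩ := Nat.exists_eq_add_of_le (hfull.rank_le h htr)
  exact LU.lus_of p h hE htr (hLU E hE hfull htr hBD) (fun F hF =>
    hLU F.K (Est.fg_K F) (Est.full_K h F) (Est.trdeg_K F)
      (hBD.congr p (Est.fg_K F) (hF.hen_eq p h))) hΩ

end Pool.Agent.TW
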