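import Pool.Agent.Lib.TW.LUBDa
import Pool.Agent.Lib.TW.HRLU
import Pool.Agent.Lib.TW.X6

/-!
# TANK W: local uniformization for fields with bounded distortion

`lu_bd`: `LU` for the fields with bounded distortion of transcendence degree `≤ n₀`, given the output
of the theorem T1 (the fields of class (B) are henselian rational) in the degrees `≤ n₀`.
`lus_bd`: these fields are log uniformizable.
-/

set_option autoImplicit false

namespace Pool.Agent.TW

open Pool.Agent.H15JM (RVal)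
open Pool.Agent.LUC (LUs)

universe u

variable {k Ω : Type u} [Field k] [Field Ω] [Algebra k Ω] {v : RVal Ω} {r : ℕ}

theorem HRLUOut.of [IsAlgClosed Ω] [IsAlgClosed k] (p : ℕ) [Fact p.Prime] [CharP k p]
    [CharP Ω p] (h : Ctx k v r) : HRLUOut p v k r :=
  fun _ _ hE hfull hBD htr hLU hHR => LU_of_HRone p h hE hfull hBD htr hLU hHR

theorem lu_bd [IsAlgClosed Ω] [IsAlgClosed k] (p : ℕ) [Fact p.Prime] [CharP k p]
    [CharP Ω p] (h : Ctx k v r) (n₀ : ℕ)
    (hT : ∀ n, r + 2 ≤ n → n ≤ n₀ → T1Out p v k r n) (n : ℕ) (hn : n ≤ n₀) :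
    ∀ E : IntermediateField k Ω, E.FG → Full v E → Algebra.trdeg k E = n → BD p v E →
      LU p v r E :=
  lu_bd_of p h (HRLUOut.of p h) n₀ hT n hn

/-- Fields with bounded distortion are log uniformizable. -/
theorem lus_bd [IsAlgClosed Ω] [IsAlgClosed k] (p : ℕ) [Fact p.Prime] [CharP k p]
    [CharP Ω p] (h : Ctx k v r) (n : ℕ)
    (hT : ∀ m, r + 2 ≤ m → m ≤ n → T1Out p v k r m)
    {E : IntermediateField k Ω} (hE : E.FG) (hfull : Full v E)
    (hBD : BD p v E) (htr : Algebra.trdeg k E = n) (hΩ : ∀ g : Ω, IsAlgebraic E g) :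
    LUs v (algebraMap k Ω).range E.toSubfield :=
  LU.lus p h hE hfull hBD htr
    (fun E' h1 h2 h3 h4 => lu_bd p h n hT n le_rfl E' h1 h2 h3 h4) hΩ

end Pool.Agent.TW
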