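import Pool.Agent.Lib.TW.T1fg
import Pool.Agent.Lib.TW.HR1

/-!
# TANK W, row LUBD, part A: the induction, with the rows B1, D0 and HR1 plugged in
-/

set_option autoImplicit false

open Polynomial

namespace Pool.Agent.TW

open Pool.Agent.H15JM (RVal)
open Pool.Agent.LU1 (VPos adj)
open Pool.Agent.D2 (Ctx0)
open Pool.Agent.D2P (hen rootF)

universe u

variable {k Ω : Type u} [Field k] [Field Ω] [Algebra k Ω] {v : RVal Ω} {r : ℕ}

/-- the output of row T1 -/
def T1Out (p : ℕ) (v : RVal Ω) (k : Type u) [Field k] [Algebra k Ω] (r n : ℕ) : Prop :=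
  (∀ E : IntermediateField k Ω, E.FG → Full v E → Algebra.trdeg k E ≤ n → BD p v E →
      (Algebra.trdeg k E < n ∨ HRone v E) → LU p v r E) →
  ∀ E : IntermediateField k Ω, E.FG → Full v E → Algebra.trdeg k E = n → BD p v E → HRone v E

/-- The output of row HRLU. -/
def HRLUOut (p : ℕ) (v : RVal Ω) (k : Type u) [Field k] [Algebra k Ω] (r : ℕ) : Prop :=
  ∀ (n : ℕ) (E : IntermediateField k Ω), E.FG → Full v E → BD p v E →
    Algebra.trdeg k E = (n + 1 : ℕ) →
    (∀ E' : IntermediateField k Ω, E'.FG → Full v E' → Algebra.trdeg k E' = n →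
      BD p v E' → LU p v r E') → HRone v E → LU p v r E

/-- Row T1: the purely inseparable step gives henselian rationality. -/
theorem T1Out.of_PIstep [IsAlgClosed Ω] [IsAlgClosed k] (p : ℕ) [Fact p.Prime] [CharP k p]
    [CharP Ω p] (h : Ctx k v r) {n : ℕ} (hn : r < n) (hPI : PIstep p v k r n) :
    T1Out p v k r n := fun hLU E hE hF htr hBD =>
  hrone_all p h hn (fun _ _ _ h2 _ h4 _ h6 => h2.of_pow h4 h6) hLU hPI E hE hF htr hBD

/-- The induction up to transcendence degree `n₀`. -/
theorem lu_bd_of [IsAlgClosed Ω] [IsAlgClosed k] (p : ℕ) [Fact p.Prime] [CharP k p] [CharP Ω p]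
    (h : Ctx k v r) (hHL : HRLUOut p v k r) (n₀ : ℕ)
    (hT : ∀ n, r + 2 ≤ n → n ≤ n₀ → T1Out p v k r n) (n : ℕ) (hn : n ≤ n₀) :
    ∀ E : IntermediateField k Ω, E.FG → Full v E → Algebra.trdeg k E = n → BD p v E →
      LU p v r E := by
  induction n using Nat.strong_induction_on with
  | _ n ih =>
    intro E hE hF htr hBD
    rcases (hF.rank_le h htr).eq_or_lt with h1 | h1
    · exact LU_D0 p h hE hF (by rw [htr, h1])
    · obtain ⟨m, rfl⟩ : ∃ m, n = m + 1 := ⟨n - 1, by omega⟩
      have hm : ∀ E' : IntermediateField k Ω, E'.FG → Full v E' → Algebra.trdeg k E' = m →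
          BD p v E' → LU p v r E' := ih m (Nat.lt_succ_self m) (by omega)
      have hHR : HRone v E := by
        rcases (Nat.succ_le_of_lt h1).eq_or_lt with h2 | h2
        · exact HRone_one p h hE hF (by rw [htr, ← h2])
        · refine hT (m + 1) h2 hn ?_ E hE hF htr hBD
          intro E' h3 h4 h5 h6 h7
          rcases h5.lt_or_eq with h8 | h8
          · obtain ⟨l, hl⟩ := Cardinal.lt_aleph0.1 (h8.trans Cardinal.natCast_lt_aleph0)
            rw [hl] at h8
            have h9 : l < m + 1 := Nat.cast_lt.1 h8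
            exact ih l h9 (by omega) E' h3 h4 hl h6
          · rcases h7 with h7 | h7
            · exact absurd h8 h7.ne
            · exact hHL m E' h3 h4 h6 h8 hm h7
      exact hHL m E hE hF hBD htr hm hHR

end Pool.Agent.TW
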