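import Pool.Agent.Lib.TW.MDefs

/-!
# TANK W, M2 blueprint, F10: near relations have near solutions
-/

set_option autoImplicit false

open Finset Polynomial Filter

namespace Pool.Agent.TW.MH

variable {k : Type*} [Field k] {r m : ℕ} {p : ℕ} [hp : Fact p.Prime] [CharP k p]
  {val : (Fin r → ℤ) →+ ℝ} {Rs : Fin m → ℝ} {R ρ : ℝ}

theorem coeff_single_mul' (g : Fin r → ℤ) (c : k) (f : LL k r) (δ : Fin r → ℤ) :
    ((AddMonoidAlgebra.single g c : LL k r) * f).coeff δ = c * f.coeff (δ - g) := by
  rw [AddMonoidAlgebra.coeff_single_mul_apply]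
  congr 2
  abel

omit hp [CharP k p] in
theorem Ops.taylor_act {val' : (Fin r → ℤ) → ℝ} (Q : Ops p k r m val' Rs R)
    (ψ : Fin m → (LL k r)[X]) (h : LL k r) :
    taylor h (Q.act ψ) = Q.act fun i => taylor h (ψ i) := by
  unfold Ops.act
  have h1 : ∀ f : (LL k r)[X], taylor h f = taylorAlgHom h f := fun f => rfl
  simp only [h1, map_sum, map_mul, map_pow]
  refine Finset.sum_congr rfl fun i _ => Finset.sum_congr rfl fun j _ => ?_
  congr 1
  rw [← h1, taylor_C]

/-- The coefficients of `∑ Q_i(ψ_i)`. -/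
theorem Ops.coeff_act {val' : (Fin r → ℤ) → ℝ} (Q : Ops p k r m val' Rs R)
    (ψ : Fin m → (LL k r)[X]) (n : ℕ) (δ : Fin r → ℤ) :
    ((Q.act ψ).coeff n).coeff δ = ∑ i, ∑ j ∈ range (Q.J i + 1),
      Q.c i j * (if p ^ j ∣ n then
        frw p j (fun g => ((ψ i).coeff (n / p ^ j)).coeff g) (δ - Q.lam i j) else 0) := by
  unfold Ops.act
  rw [finsetSum_coeff, AddMonoidAlgebra.coeff_sum, Finsupp.finsetSum_apply]
  refine Finset.sum_congr rfl fun i _ => ?_
  rw [finsetSum_coeff, AddMonoidAlgebra.coeff_sum, Finsupp.finsetSum_apply]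
  refine Finset.sum_congr rfl fun j _ => ?_
  rw [coeff_C_mul, coeff_single_mul', coeff_pow_p]
  split_ifs with h
  · rw [MH.pow_apply]
  · rfl

theorem taylor_crit {val' : (Fin r → ℤ) → ℝ} {q : (LL k r)[X]} (hq : q ∈ Crit k p val' ρ R)
    (h : LL k r) {n : ℕ} (hn : n ≠ 0) : (taylor h q).coeff n = q.coeff n := by
  classical
  have h1 : ∀ l ∈ q.support, ∃ j, l = p ^ j := by
    intro l hl
    rw [mem_support_iff] at hl
    obtain ⟨g, hg⟩ : ∃ g, (q.coeff l).coeff g ≠ 0 := by
      by_contra hcon
      push Not at hcon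
      exact hl (AddMonoidAlgebra.ext (Finsupp.ext hcon))
    obtain ⟨j, hj, -⟩ := hq l g hg
    exact ⟨j, hj⟩
  have h2 : ∀ l ∈ q.support, (taylor h (C (q.coeff l) * X ^ l)).coeff n =
      (C (q.coeff l) * X ^ l : (LL k r)[X]).coeff n := by
    intro l hl
    obtain ⟨j, rfl⟩ := h1 l hl
    have h3 : taylor h (C (q.coeff (p ^ j)) * X ^ p ^ j) =
        C (q.coeff (p ^ j)) * X ^ p ^ j + C (q.coeff (p ^ j) * h ^ p ^ j) := by
      have h4 : ∀ f : (LL k r)[X], taylor h f = taylorAlgHom h f := fun f => rfl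
      rw [h4, map_mul, map_pow, ← h4, ← h4, taylor_C, taylor_X, add_pow_char_pow, mul_add,
        ← C_pow, ← C_mul]
    rw [h3, coeff_add, coeff_C, if_neg hn, add_zero]
  conv_lhs => rw [q.as_sum_support_C_mul_X_pow]
  conv_rhs => rw [q.as_sum_support_C_mul_X_pow]
  rw [map_sum, finsetSum_coeff, finsetSum_coeff]
  exact Finset.sum_congr rfl h2

/-- **F10.** If `∑ Q_i(ψ_i)(y)` is in `N + AA + O(R - ε)`, then `ψ_i(y)` is in
`N + O(R_i - ε')` for every `ε' > ε`. -/
theorem near_of_act (y : LimSeq k val ρ) (Q : Ops p k r m val Rs R) (ψ : Fin m → (LL k r)[X])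
    {a : LL k r} {q : (LL k r)[X]} (hq : q ∈ Crit k p val ρ R) {ε : ℝ} (hε : 0 ≤ ε)
    (h : GeW y (R - ε) (Q.act ψ - C a - q)) {ε' : ℝ} (hε' : ε < ε') (i : Fin m) :
    ∃ b : LL k r, GeW y (Rs i - ε') (ψ i - C b) := by
  classical
  have hp2 : (2 : ℝ) ≤ p := by exact_mod_cast hp.out.two_le
  have hp1 : (1 : ℝ) ≤ p := by linarith
  set D := (ψ i).natDegree with hD
  set b := ρ - (ε' - ε) / (D + 1) with hb
  have hDpos : (0 : ℝ) < D + 1 := by positivity
  have hbρ : b < ρ := by
    have : 0 < (ε' - ε) / (D + 1) := div_pos (by linarith) hDpos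
    linarith
  obtain ⟨I₀, hI₀⟩ := y.cauchy b hbρ
  set Err := Q.act ψ - C a - q with hErr
  have hall : ∀ᶠ I in atTop, ∀ l ∈ range (Err.natDegree + 1),
      GeV val (R - ε - l * ρ) ((hasseDeriv l Err).eval (y.h I)) := by
    rw [Filter.eventually_all_finset]
    exact fun l _ => y.strict Err (R - ε) h l
  obtain ⟨I, hI, hII₀⟩ := (hall.and (eventually_ge_atTop I₀)).exists
  set h0 := y.h I with hh0
  have hErr' : ∀ l : ℕ, GeV val (R - ε - l * ρ) ((taylor h0 Err).coeff l) := by
    intro l
    rw [taylor_coeff]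
    rcases lt_or_ge Err.natDegree l with hl | hl
    · rw [hasseDeriv_eq_zero_of_lt_natDegree _ _ hl, eval_zero]
      exact GeV.zero
    · exact hI l (mem_range.2 (by omega))
  set ψ' : Fin m → (LL k r)[X] := fun i => taylor h0 (ψ i) with hψ'
  -- the deficits
  have key : ∀ i l g, l ≠ 0 → ((ψ' i).coeff l).coeff g ≠ 0 →
      (p : ℝ) ^ Q.J i * (Rs i - l * ρ - val g) ≤ ε := by
    by_contra hcon
    push Not at hcon
    obtain ⟨i₁, l₁, g₁, hl₁, hg₁, hG₁⟩ := hcon
    -- the finite set of all the exponents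
    set S : Finset (Fin m × ℕ × (Fin r → ℤ)) := Finset.univ.biUnion fun i =>
      (ψ' i).support.biUnion fun l => ((ψ' i).coeff l).coeff.support.image fun g => (i, l, g)
      with hS
    have hmemS : ∀ i l g, (i, l, g) ∈ S ↔ ((ψ' i).coeff l).coeff g ≠ 0 := by
      intro i l g
      simp only [hS, mem_biUnion, mem_univ, true_and, mem_image, mem_support_iff,
        Finsupp.mem_support_iff, Prod.mk.injEq]
      constructor
      · rintro ⟨i', l', -, g', h1, rfl, rfl, rfl⟩
        exact h1
      · intro h1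
        exact ⟨i, l, fun h2 => h1 (by rw [h2]; rfl), g, h1, rfl, rfl, rfl⟩
    set S' := S.filter fun x => x.2.1 ≠ 0 with hS'
    have hne : S'.Nonempty := ⟨(i₁, l₁, g₁), by
      rw [hS', mem_filter]
      exact ⟨(hmemS _ _ _).2 hg₁, hl₁⟩⟩
    obtain ⟨⟨i, l, g⟩, hx, hmax⟩ := S'.exists_max_image
      (fun x => (p : ℝ) ^ Q.J x.1 * (Rs x.1 - x.2.1 * ρ - val x.2.2)) hne
    rw [hS', mem_filter, hmemS] at hx
    obtain ⟨hg, hl⟩ := hx
    simp only at hl
    set G := (p : ℝ) ^ Q.J i * (Rs i - l * ρ - val g) with hG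
    have hGε : ε < G := lt_of_lt_of_le hG₁ (hmax (i₁, l₁, g₁) (by
      rw [hS', mem_filter]
      exact ⟨(hmemS _ _ _).2 hg₁, hl₁⟩))
    have hGpos : 0 < G := lt_of_le_of_lt hε hGε
    set δ : Fin r → ℤ := Q.lam i (Q.J i) + p ^ Q.J i • g with hδ
    set n : ℕ := p ^ Q.J i * l with hn
    have hn0 : n ≠ 0 := Nat.mul_ne_zero (pow_pos hp.out.pos _).ne' hl
    have hgap : R - n * ρ - val δ = G := by
      have h1 := Q.hom i (Q.J i) le_rfl (Q.top i)
      rw [hδ, map_add, map_nsmul, nsmul_eq_mul, hG, hn]
      push_cast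
      linear_combination -h1
    -- the coefficient at `(n, δ)`
    have hco : ((Q.act ψ').coeff n).coeff δ ≠ 0 := by
      rw [Ops.coeff_act, Finset.sum_eq_single i, Finset.sum_eq_single (Q.J i)]
      · rw [if_pos (Dvd.intro _ rfl), hδ, add_sub_cancel_left, frw_smul hp.out.pos, hn,
          Nat.mul_div_cancel_left _ (pow_pos hp.out.pos _)]
        exact mul_ne_zero (Q.top i) (pow_ne_zero _ hg)
      · intro j hj hji
        by_contra hne'
        have hjJ : j < Q.J i := by
          have := Finset.mem_range.1 hj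
          omega
        have h1 := right_ne_zero_of_mul hne'
        have hdv : p ^ j ∣ n := by
          by_contra h2
          rw [if_neg h2] at h1
          exact h1 rfl
        rw [if_pos hdv] at h1
        obtain ⟨g', h2, h3⟩ := exists_of_frw_ne h1
        have hg' : ((ψ' i).coeff (n / p ^ j)).coeff g' ≠ 0 := by
          intro h4
          apply h1
          rw [h3, h4, zero_pow (pow_pos hp.out.pos j).ne']
        obtain ⟨l', hl'⟩ := hdv
        rw [hl', Nat.mul_div_cancel_left _ (pow_pos hp.out.pos _)] at hg'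
        have hl'0 : l' ≠ 0 := by
          rintro rfl
          rw [mul_zero] at hl'
          exact hn0 hl'
        have h4 := hmax (i, l', g') (by
          rw [hS', mem_filter]
          exact ⟨(hmemS _ _ _).2 hg', hl'0⟩)
        simp only at h4
        obtain ⟨s, hs⟩ : ∃ s, Q.J i = j + s + 1 := ⟨Q.J i - j - 1, by omega⟩
        have h5 : (p : ℝ) ^ j * (Rs i - l' * ρ - val g') = G := by
          rw [← hgap]
          have h6 := Q.hom i j (by omega) (left_ne_zero_of_mul hne')
          have h7 : val δ = val (Q.lam i j) + p ^ j * val g' := by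
            have : δ = Q.lam i j + p ^ j • g' := by rw [← h2]; abel
            rw [this, map_add, map_nsmul, nsmul_eq_mul]
            push_cast
            rfl
          rw [h7, hl']
          push_cast
          linear_combination h6
        have h8 : (p : ℝ) ^ Q.J i * (Rs i - l' * ρ - val g') = p ^ (s + 1) * G := by
          rw [← h5, hs]
          ring
        rw [h8] at h4
        have h9 : (2 : ℝ) ≤ p ^ (s + 1) := hp2.trans (le_self_pow₀ hp1 (by omega))
        nlinarith
      · intro h1
        exact absurd (Finset.mem_range.2 (Nat.lt_succ_self _)) h1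
      · intro i' _ hi'
        refine Finset.sum_eq_zero fun j hj => ?_
        by_contra hne'
        have hjJ : j ≤ Q.J i' := by
          have := Finset.mem_range.1 hj
          omega
        have h1 := right_ne_zero_of_mul hne'
        have hdv : p ^ j ∣ n := by
          by_contra h2
          rw [if_neg h2] at h1
          exact h1 rfl
        rw [if_pos hdv] at h1
        obtain ⟨g', h2, h3⟩ := exists_of_frw_ne h1
        have hg' : ((ψ' i').coeff (n / p ^ j)).coeff g' ≠ 0 := by
          intro h4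
          apply h1
          rw [h3, h4, zero_pow (pow_pos hp.out.pos j).ne']
        have hδ' : δ = Q.lam i' j + p ^ j • g' := by rw [← h2]; abel
        rcases lt_or_eq_of_le hjJ with hlt | heq
        · obtain ⟨l', hl'⟩ := hdv
          rw [hl', Nat.mul_div_cancel_left _ (pow_pos hp.out.pos _)] at hg'
          have hl'0 : l' ≠ 0 := by
            rintro rfl
            rw [mul_zero] at hl'
            exact hn0 hl'
          have h4 := hmax (i', l', g') (by
            rw [hS', mem_filter]
            exact ⟨(hmemS _ _ _).2 hg', hl'0⟩)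
          simp only at h4
          obtain ⟨s, hs⟩ : ∃ s, Q.J i' = j + s + 1 := ⟨Q.J i' - j - 1, by omega⟩
          have h5 : (p : ℝ) ^ j * (Rs i' - l' * ρ - val g') = G := by
            rw [← hgap]
            have h6 := Q.hom i' j (by omega) (left_ne_zero_of_mul hne')
            have h7 : val δ = val (Q.lam i' j) + p ^ j * val g' := by
              rw [hδ', map_add, map_nsmul, nsmul_eq_mul]
              push_cast
              rfl
            rw [h7, hl']
            push_cast
            linear_combination h6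
          have h8 : (p : ℝ) ^ Q.J i' * (Rs i' - l' * ρ - val g') = p ^ (s + 1) * G := by
            rw [← h5, hs]
            ring
          rw [h8] at h4
          have h9 : (2 : ℝ) ≤ p ^ (s + 1) := hp2.trans (le_self_pow₀ hp1 (by omega))
          nlinarith
        · subst heq
          rcases le_total (Q.J i') (Q.J i) with hle | hle
          · refine Q.nd i' i hi' hle (g' - p ^ (Q.J i - Q.J i') • g) ?_
            rw [smul_sub, smul_smul, ← pow_add, Nat.add_sub_cancel' hle]
            have := hδ'.symm.trans hδ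
            rw [← add_sub_assoc, this, add_sub_cancel_right]
          · refine Q.nd i i' hi'.symm hle (g - p ^ (Q.J i' - Q.J i) • g') ?_
            rw [smul_sub, smul_smul, ← pow_add, Nat.add_sub_cancel' hle]
            have := hδ.symm.trans hδ'
            rw [← add_sub_assoc, this, add_sub_cancel_right]
      · intro h1
        exact absurd (Finset.mem_univ i) h1
    have hE : ((taylor h0 Err).coeff n).coeff δ ≠ 0 := by
      have h1 : (taylor h0 Err).coeff n = (Q.act ψ').coeff n - q.coeff n := by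
        rw [hErr, map_sub, map_sub, taylor_C, Ops.taylor_act, coeff_sub, coeff_sub, coeff_C,
          if_neg hn0, sub_zero, taylor_crit hq h0 hn0]
      rw [h1, coeff_sub_apply]
      have h2 : (q.coeff n).coeff δ = 0 := by
        by_contra h3
        obtain ⟨j, -, h4⟩ := hq n δ h3
        rw [← h4] at hgap
        linarith
      rw [h2, sub_zero]
      exact hco
    have := hErr' n δ hE
    linarith
  -- conclusion
  have hco : ∀ l : ℕ, l ≠ 0 → GeV val (Rs i - l * ρ - ε) ((ψ' i).coeff l) := by
    intro l hl g hg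
    have h1 := key i l g hl hg
    have h2 : (1 : ℝ) ≤ (p : ℝ) ^ Q.J i := one_le_pow₀ hp1
    by_contra hcon
    push Not at hcon
    nlinarith
  refine ⟨(ψ i).eval h0, ?_⟩
  filter_upwards [eventually_ge_atTop I₀] with I' hI'
  have h1 : (ψ i - C ((ψ i).eval h0)).eval (y.h I') =
      ∑ l ∈ (range (D + 1)).erase 0, (ψ' i).coeff l * (y.h I' - h0) ^ l := by
    have h2 : (ψ i).eval (y.h I') = (ψ' i).eval (y.h I' - h0) := by
      simp only [hψ']
      rw [taylor_eval, sub_add_cancel]
    have h3 : (ψ' i).natDegree = D := natDegree_taylor _ _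
    rw [eval_sub, eval_C, h2, eval_eq_sum_range, h3,
      ← Finset.add_sum_erase _ _ (mem_range.2 (Nat.succ_pos D))]
    simp only [hψ', taylor_coeff_zero, pow_zero, mul_one]
    ring
  rw [h1]
  refine GeV.sum _ _ fun l hl => ?_
  have hl0 : l ≠ 0 := Finset.ne_of_mem_erase hl
  have hlD : l ≤ D := by
    have := mem_range.1 (Finset.mem_of_mem_erase hl)
    omega
  refine ((hco l hl0).mul ((hI₀ I' hI' I hII₀).pow l)).mono ?_
  have h2 : (l : ℝ) * b = l * ρ - l * ((ε' - ε) / (D + 1)) := by rw [hb]; ring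
  have h3 : (l : ℝ) * ((ε' - ε) / (D + 1)) ≤ ε' - ε := by
    rw [mul_div_assoc', div_le_iff₀ hDpos]
    have h4 : (l : ℝ) ≤ D + 1 := by
      have : (l : ℝ) ≤ D := by exact_mod_cast hlD
      linarith
    nlinarith
  linarith

end Pool.Agent.TW.MH
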