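import Mathlib

/-!
# TANK W, M2 blueprint, block H1: freeness over `N` (pure supports)

`Γ = ℤ^r` with a valuation `val : Γ → ℝ`, coefficient functions `w i : Γ → k` of limits, with
finitely many exponents below every bound `b < R i`; operators
`Q i = ∑_{j ≤ J i} c i j x^(lam i j) Fr^j` from radius `R i` to radius `R`, with pairwise not
divisible tops. If `∑ Q i (w i)` has only finitely many exponents of value `< R`, then every `w i`
has only finitely many exponents of value `< R i`.
-/

set_option autoImplicit false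

open Finset

namespace Pool.Agent.TW.MH

/-- The sum of the absolute values of the coordinates. -/
def ht {r : ℕ} (g : Fin r → ℤ) : ℝ := ∑ i, |(g i : ℝ)|

section ht

variable {r : ℕ}

theorem ht_nonneg (g : Fin r → ℤ) : 0 ≤ ht g := Finset.sum_nonneg fun _ _ => abs_nonneg _

theorem ht_add (a b : Fin r → ℤ) : ht (a + b) ≤ ht a + ht b := by
  unfold ht
  rw [← Finset.sum_add_distrib]
  refine Finset.sum_le_sum fun i _ => ?_
  rw [Pi.add_apply]
  push_cast
  exact abs_add_le _ _

theorem ht_neg (a : Fin r → ℤ) : ht (-a) = ht a := by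
  unfold ht
  refine Finset.sum_congr rfl fun i _ => ?_
  rw [Pi.neg_apply]
  push_cast
  exact abs_neg _

theorem ht_sub (a b : Fin r → ℤ) : ht (a - b) ≤ ht a + ht b := by
  rw [sub_eq_add_neg, ← ht_neg b]
  exact ht_add _ _

theorem ht_nsmul (n : ℕ) (a : Fin r → ℤ) : ht (n • a) = n * ht a := by
  unfold ht
  rw [Finset.mul_sum]
  refine Finset.sum_congr rfl fun i _ => ?_
  rw [Pi.smul_apply, nsmul_eq_mul]
  push_cast
  rw [abs_mul, abs_of_nonneg (Nat.cast_nonneg n)]

theorem finite_ht_le (M : ℝ) : {g : Fin r → ℤ | ht g ≤ M}.Finite := by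
  refine (Set.finite_Icc (fun _ : Fin r => -⌈M⌉) (fun _ => ⌈M⌉)).subset fun g hg => ?_
  have h1 : ∀ i, |(g i : ℝ)| ≤ M := fun i =>
    (Finset.single_le_sum (f := fun i => |(g i : ℝ)|) (fun _ _ => abs_nonneg _)
      (Finset.mem_univ i)).trans hg
  have h2 : ∀ i, |g i| ≤ ⌈M⌉ := by
    intro i
    have h3 : ((|g i| : ℤ) : ℝ) ≤ (⌈M⌉ : ℝ) := by
      rw [Int.cast_abs]
      exact (h1 i).trans (Int.le_ceil M)
    exact_mod_cast h3
  exact ⟨fun i => (abs_le.1 (h2 i)).1, fun i => (abs_le.1 (h2 i)).2⟩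

end ht

section frw

variable {k : Type*} [Field k] {r : ℕ}

open Classical in
/-- The coefficient function of `w^(p^j)`. -/
noncomputable def frw (p j : ℕ) (w : (Fin r → ℤ) → k) (δ : Fin r → ℤ) : k :=
  if h : ∃ g : Fin r → ℤ, p ^ j • g = δ then w (Classical.choose h) ^ p ^ j else 0

theorem frw_smul {p : ℕ} (hp : 0 < p) (j : ℕ) (w : (Fin r → ℤ) → k) (g : Fin r → ℤ) :
    frw p j w (p ^ j • g) = w g ^ p ^ j := by
  have h : ∃ g' : Fin r → ℤ, p ^ j • g' = p ^ j • g := ⟨g, rfl⟩
  rw [frw, dif_pos h]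
  congr 2
  have h1 := Classical.choose_spec h
  have h2 : (p ^ j : ℕ) ≠ 0 := (pow_pos hp j).ne'
  funext i
  have h3 := congrFun h1 i
  simp only [Pi.smul_apply, nsmul_eq_mul] at h3
  exact mul_left_cancel₀ (by exact_mod_cast h2) h3

theorem exists_of_frw_ne {p : ℕ} {j : ℕ} {w : (Fin r → ℤ) → k} {δ : Fin r → ℤ}
    (h : frw p j w δ ≠ 0) : ∃ g : Fin r → ℤ, δ = p ^ j • g ∧ frw p j w δ = w g ^ p ^ j := by
  rw [frw] at h ⊢
  by_cases h1 : ∃ g : Fin r → ℤ, p ^ j • g = δ
  · rw [dif_pos h1]
    exact ⟨_, (Classical.choose_spec h1).symm, rfl⟩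
  · rw [dif_neg h1] at h
    exact absurd rfl h

end frw

/-- Homogeneous operators `Q i = ∑_{j ≤ J i} c i j x^(lam i j) Fr^j` from `Rs i` to `R`, with
pairwise not divisible tops. -/
structure Ops (p : ℕ) (k : Type*) [Field k] (r m : ℕ) (val : (Fin r → ℤ) → ℝ) (Rs : Fin m → ℝ)
    (R : ℝ) where
  J : Fin m → ℕ
  c : Fin m → ℕ → k
  lam : Fin m → ℕ → (Fin r → ℤ)
  top : ∀ i, c i (J i) ≠ 0
  hom : ∀ i j, j ≤ J i → c i j ≠ 0 → val (lam i j) + p ^ j * Rs i = R
  nd : ∀ i i', i ≠ i' → J i ≤ J i' → ∀ g : Fin r → ℤ,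
    lam i (J i) + p ^ J i • g ≠ lam i' (J i')

/-- **Freeness over `N`.** -/
theorem finite_of_rel {p : ℕ} (hp : 2 ≤ p) {k : Type*} [Field k] {r m : ℕ}
    {val : (Fin r → ℤ) →+ ℝ} {Rs : Fin m → ℝ} {R : ℝ} (Q : Ops p k r m val Rs R)
    (w : Fin m → (Fin r → ℤ) → k)
    (hw : ∀ i, ∀ b < Rs i, {g | val g < b ∧ w i g ≠ 0}.Finite)
    (hQ : {δ | val δ < R ∧
      ∑ i, ∑ j ∈ range (Q.J i + 1), Q.c i j * frw p j (w i) (δ - Q.lam i j) ≠ 0}.Finite) :
    ∀ i, {g | val g < Rs i ∧ w i g ≠ 0}.Finite := by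
  classical
  have hp0 : 0 < p := by omega
  have hp1 : (2 : ℝ) ≤ p := by exact_mod_cast hp
  -- the values are bounded below
  have hbd : ∃ B : ℝ, ∀ i g, val g < Rs i → w i g ≠ 0 → -B ≤ val g := by
    have h1 : ∀ i, ∃ B : ℝ, ∀ g, val g < Rs i → w i g ≠ 0 → -B ≤ val g := by
      intro i
      obtain ⟨B, hB⟩ := ((hw i (Rs i - 1) (by linarith)).image val).bddBelow
      refine ⟨max (-B) (-(Rs i - 1)), fun g hg h0 => ?_⟩
      rcases lt_or_ge (val g) (Rs i - 1) with h | h
      · have := hB ⟨g, ⟨h, h0⟩, rfl⟩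
        have := le_max_left (-B) (-(Rs i - 1))
        linarith
      · have := le_max_right (-B) (-(Rs i - 1))
        linarith
    choose B hB using h1
    refine ⟨∑ i, |B i|, fun i g hg h0 => ?_⟩
    have h2 := hB i g hg h0
    have h3 : |B i| ≤ ∑ i, |B i| :=
      Finset.single_le_sum (f := fun i => |B i|) (fun _ _ => abs_nonneg _) (Finset.mem_univ i)
    have h4 := le_abs_self (B i)
    linarith
  obtain ⟨B, hB⟩ := hbd
  -- the constants of the heights
  obtain ⟨C, hC0, hC⟩ : ∃ C : ℝ, 0 ≤ C ∧ ∀ i j, j ≤ Q.J i → ht (Q.lam i j) ≤ C := by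
    refine ⟨∑ i, ∑ j ∈ range (Q.J i + 1), ht (Q.lam i j),
      Finset.sum_nonneg fun _ _ => Finset.sum_nonneg fun _ _ => ht_nonneg _, fun i j hj => ?_⟩
    have h1 : ht (Q.lam i j) ≤ ∑ j ∈ range (Q.J i + 1), ht (Q.lam i j) :=
      Finset.single_le_sum (f := fun j => ht (Q.lam i j)) (fun _ _ => ht_nonneg _)
        (Finset.mem_range.2 (by omega))
    exact h1.trans (Finset.single_le_sum
      (f := fun i => ∑ j ∈ range (Q.J i + 1), ht (Q.lam i j))
      (fun _ _ => Finset.sum_nonneg fun _ _ => ht_nonneg _) (Finset.mem_univ i))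
  obtain ⟨C', hC'0, hC'⟩ : ∃ C' : ℝ, 0 ≤ C' ∧ ∀ δ, val δ < R →
      ∑ i, ∑ j ∈ range (Q.J i + 1), Q.c i j * frw p j (w i) (δ - Q.lam i j) ≠ 0 →
      ht δ ≤ C' := by
    obtain ⟨C', hC'⟩ := (hQ.image ht).bddAbove
    refine ⟨max 0 C', le_max_left _ _, fun δ h1 h2 => ?_⟩
    exact (hC' ⟨δ, ⟨h1, h2⟩, rfl⟩).trans (le_max_right _ _)
  set M : ℝ := C' + 4 * C with hM
  -- the bound of the heights
  have key : ∀ n : ℕ, ∀ i g, val g < Rs i → w i g ≠ 0 →
      (∑ i, p ^ Q.J i * |Rs i + B|) < p ^ n * (p ^ Q.J i * (Rs i - val g)) →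
      ht (Q.lam i (Q.J i) + p ^ Q.J i • g) ≤ M := by
    intro n
    induction n with
    | zero =>
      intro i g hg h0 hlt
      exfalso
      have h1 : (p : ℝ) ^ Q.J i * |Rs i + B| ≤ ∑ i, p ^ Q.J i * |Rs i + B| :=
        Finset.single_le_sum (f := fun i => (p : ℝ) ^ Q.J i * |Rs i + B|)
          (fun _ _ => by positivity) (Finset.mem_univ i)
      have h2 := hB i g hg h0
      have h3 : Rs i - val g ≤ |Rs i + B| := le_trans (by linarith) (le_abs_self _)
      have h4 : (p : ℝ) ^ Q.J i * (Rs i - val g) ≤ p ^ Q.J i * |Rs i + B| :=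
        mul_le_mul_of_nonneg_left h3 (by positivity)
      rw [pow_zero, one_mul] at hlt
      linarith
    | succ n ih =>
      intro i g hg h0 hlt
      set δ : Fin r → ℤ := Q.lam i (Q.J i) + p ^ Q.J i • g with hδ
      have hvδ : R - val δ = p ^ Q.J i * (Rs i - val g) := by
        have h1 := Q.hom i (Q.J i) le_rfl (Q.top i)
        rw [hδ, map_add, map_nsmul, nsmul_eq_mul]
        push_cast
        linear_combination -h1
      have hpos : 0 < (p : ℝ) ^ Q.J i * (Rs i - val g) :=
        mul_pos (by positivity) (by linarith)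
      by_cases hs : ∑ i, ∑ j ∈ range (Q.J i + 1), Q.c i j * frw p j (w i) (δ - Q.lam i j) = 0
      · -- a lower term cancels
        have htop : Q.c i (Q.J i) * frw p (Q.J i) (w i) (δ - Q.lam i (Q.J i)) ≠ 0 := by
          rw [hδ, add_sub_cancel_left, frw_smul hp0]
          exact mul_ne_zero (Q.top i) (pow_ne_zero _ h0)
        obtain ⟨i', j, hj, hne, h1⟩ : ∃ i' j, j ≤ Q.J i' ∧ ¬ (i' = i ∧ j = Q.J i) ∧
            Q.c i' j * frw p j (w i') (δ - Q.lam i' j) ≠ 0 := by
          by_contra hcon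
          push Not at hcon
          apply htop
          rw [← hs]
          rw [Finset.sum_eq_single i, Finset.sum_eq_single (Q.J i)]
          · intro j hj hji
            exact hcon i j (by have := Finset.mem_range.1 hj; omega) (fun _ => hji)
          · intro h
            exact absurd (Finset.mem_range.2 (Nat.lt_succ_self _)) h
          · intro i' _ hi'
            exact Finset.sum_eq_zero fun j hj =>
              hcon i' j (by have := Finset.mem_range.1 hj; omega) (fun h => absurd h hi')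
          · intro h
            exact absurd (Finset.mem_univ i) h
        obtain ⟨g', hg', he⟩ := exists_of_frw_ne (right_ne_zero_of_mul h1)
        have hw' : w i' g' ≠ 0 := by
          intro h2
          apply right_ne_zero_of_mul h1
          rw [he, h2, zero_pow (pow_pos hp0 j).ne']
        have hδ' : δ = Q.lam i' j + p ^ j • g' := by rw [← hg']; abel
        have hjJ : j < Q.J i' := by
          rcases lt_or_eq_of_le hj with h | h
          · exact h
          · exfalso
            subst h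
            have hii : i' ≠ i := fun h => hne ⟨h, by rw [h]⟩
            rcases le_total (Q.J i') (Q.J i) with hle | hle
            · refine Q.nd i' i hii hle (g' - p ^ (Q.J i - Q.J i') • g) ?_
              rw [smul_sub, smul_smul, ← pow_add, Nat.add_sub_cancel' hle]
              have := hδ'.symm.trans hδ
              rw [← add_sub_assoc, this, add_sub_cancel_right]
            · refine Q.nd i i' hii.symm hle (g - p ^ (Q.J i' - Q.J i) • g') ?_
              rw [smul_sub, smul_smul, ← pow_add, Nat.add_sub_cancel' hle]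
              have := hδ.symm.trans hδ'
              rw [← add_sub_assoc, this, add_sub_cancel_right]
        have hvδ' : R - val δ = p ^ j * (Rs i' - val g') := by
          have h2 := Q.hom i' j hj (left_ne_zero_of_mul h1)
          rw [hδ', map_add, map_nsmul, nsmul_eq_mul]
          push_cast
          linear_combination -h2
        have hval' : val g' < Rs i' := by
          have h2 : 0 < (p : ℝ) ^ j * (Rs i' - val g') := by rw [← hvδ', hvδ]; exact hpos
          have h3 := (pos_iff_pos_of_mul_pos h2).1 (by positivity)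
          linarith
        obtain ⟨s, hs1⟩ : ∃ s, Q.J i' = j + s + 1 := ⟨Q.J i' - j - 1, by omega⟩
        have hgap : (p : ℝ) ^ (n + 1) * (p ^ Q.J i * (Rs i - val g)) ≤
            p ^ n * (p ^ Q.J i' * (Rs i' - val g')) := by
          have h2 : (p : ℝ) ^ Q.J i' * (Rs i' - val g') = p ^ (s + 1) * (p ^ j * (Rs i' - val g')) := by
            rw [hs1]
            ring
          rw [h2, ← hvδ', hvδ]
          have h3 : (p : ℝ) ^ (n + 1) * (p ^ Q.J i * (Rs i - val g)) =
              p ^ n * (p * (p ^ Q.J i * (Rs i - val g))) := by ring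
          rw [h3]
          refine mul_le_mul_of_nonneg_left (mul_le_mul_of_nonneg_right ?_ hpos.le) (by positivity)
          calc (p : ℝ) = p ^ 1 := (pow_one _).symm
            _ ≤ p ^ (s + 1) := pow_le_pow_right₀ (by linarith) (by omega)
        have h4 := ih i' g' hval' hw' (lt_of_lt_of_le hlt hgap)
        -- the heights
        have h5 : ((p : ℝ) ^ (s + 1)) * ht δ ≤ M + C + p ^ (s + 1) * C := by
          have h6 : p ^ (s + 1) • δ = (Q.lam i' (Q.J i') + p ^ Q.J i' • g') -
              (Q.lam i' (Q.J i') - p ^ (s + 1) • Q.lam i' j) := by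
            rw [hδ', smul_add, smul_smul, ← pow_add, hs1]
            have : s + 1 + j = j + s + 1 := by ring
            rw [this]
            abel
          have h7 : ht (p ^ (s + 1) • δ) = (p : ℝ) ^ (s + 1) * ht δ := by
            rw [ht_nsmul]
            push_cast
            rfl
          rw [← h7, h6]
          have h8 := ht_sub (Q.lam i' (Q.J i') + p ^ Q.J i' • g')
            (Q.lam i' (Q.J i') - p ^ (s + 1) • Q.lam i' j)
          have h9 := ht_sub (Q.lam i' (Q.J i')) (p ^ (s + 1) • Q.lam i' j)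
          rw [ht_nsmul] at h9
          push_cast at h9
          have h10 := hC i' (Q.J i') le_rfl
          have h11 : (p : ℝ) ^ (s + 1) * ht (Q.lam i' j) ≤ p ^ (s + 1) * C :=
            mul_le_mul_of_nonneg_left (hC i' j hj) (by positivity)
          linarith
        have h12 : (2 : ℝ) ≤ (p : ℝ) ^ (s + 1) :=
          hp1.trans (le_self_pow₀ (by linarith) (by omega))
        have h13 := ht_nonneg δ
        by_contra hcon
        push Not at hcon
        -- `P ht δ ≤ M + C + P C`, `P ≥ 2`, `ht δ > M ≥ 4 C`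
        nlinarith
      · have h1 := hC' δ (by linarith) hs
        linarith
  -- conclusion
  intro i
  have hfin : {g : Fin r → ℤ | ht (Q.lam i (Q.J i) + p ^ Q.J i • g) ≤ M}.Finite := by
    refine Set.Finite.subset (finite_ht_le (M + C)) fun g hg => ?_
    have h1 : ht (p ^ Q.J i • g) ≤ M + C := by
      have h2 : p ^ Q.J i • g = (Q.lam i (Q.J i) + p ^ Q.J i • g) - Q.lam i (Q.J i) := by abel
      rw [h2]
      exact (ht_sub _ _).trans (add_le_add hg (hC i _ le_rfl))
    rw [ht_nsmul] at h1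
    push_cast at h1
    have h3 : (1 : ℝ) ≤ (p : ℝ) ^ Q.J i := one_le_pow₀ (by linarith)
    have h4 := ht_nonneg g
    show ht g ≤ M + C
    nlinarith
  refine hfin.subset fun g hg => ?_
  obtain ⟨n, hn⟩ : ∃ n : ℕ, (∑ i, p ^ Q.J i * |Rs i + B|) /
      (p ^ Q.J i * (Rs i - val g)) < (p : ℝ) ^ n := pow_unbounded_of_one_lt _ (by linarith)
  have hpos : 0 < (p : ℝ) ^ Q.J i * (Rs i - val g) := mul_pos (by positivity) (by linarith [hg.1])
  exact key n i g hg.1 hg.2 ((div_lt_iff₀ hpos).1 hn)

end Pool.Agent.TW.MH
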