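import Pool.Agent.Lib.TW.Vol
import Pool.Agent.Lib.TW.P1
import Pool.Agent.Lib.TW.P2a

/-!
# TANK W, row P3: orthogonal frames
-/

set_option autoImplicit false

namespace Pool.Agent.TW

open Pool.Agent.H15JM (RVal)
open Pool.Agent.D2P (hen le_hen)

universe u

variable {k Ω : Type u} [Field k] [Field Ω] [Algebra k Ω] {v : RVal Ω} {r D : ℕ}

section Gd

variable {p : ℕ}

/-- `f` is a sum of terms `c_β^p s^β` of value `≥ a`, `c_β ∈ M`. -/
def P3.Gd (p : ℕ) (v : RVal Ω) (M : IntermediateField k Ω) {n : ℕ} (s : Fin n → Ω) (a : ℝ) (f : Ω) :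
    Prop :=
  ∃ c : (Fin n → Fin p) → Ω, (∀ β, c β ∈ M) ∧ f = pcomb s c ∧ ∀ β, v.Ge a (c β ^ p * mon s β)

variable {M : IntermediateField k Ω} {n : ℕ} {s : Fin n → Ω}

theorem P3.Gd.mul_pow {a : ℝ} {f m : Ω} (h : P3.Gd p v M s a f) (hm : m ∈ M) (hm0 : m ≠ 0) :
    P3.Gd p v M s (a + p * v m) (m ^ p * f) := by
  obtain ⟨c, hc, hf, hv⟩ := h
  refine ⟨fun β => m * c β, fun β => mul_mem hm (hc β), ?_, fun β => ?_⟩
  · rw [hf, pcomb, pcomb, Finset.mul_sum]
    exact Finset.sum_congr rfl fun β _ => by rw [_root_.mul_pow]; ring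
  · have h1 : (m * c β) ^ p * mon s β = m ^ p * (c β ^ p * mon s β) := by
      rw [_root_.mul_pow]; ring
    rw [h1, add_comm]
    exact RVal.Ge.mul (RVal.Ge.of_le (v.map_pow hm0 p).ge) (hv β)

theorem P3.mon_shift [Fact p.Prime] (s : Fin n → Ω) (i : Fin n) (β : Fin n → Fin p) :
    haveI : NeZero p := ⟨(Fact.out : p.Prime).ne_zero⟩
    (if (β i : ℕ) + 1 = p then s i else 1) ^ p * mon s (β + Pi.single i 1) = s i * mon s β := by
  classical
  have : NeZero p := ⟨(Fact.out : p.Prime).ne_zero⟩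
  have hp2 := (Fact.out : p.Prime).two_le
  have h1 : mon s (β + Pi.single i 1) =
      s i ^ ((β i + 1 : Fin p) : ℕ) * ∏ j ∈ Finset.univ.erase i, s j ^ (β j : ℕ) := by
    rw [mon, ← Finset.mul_prod_erase _ _ (Finset.mem_univ i)]
    congr 1
    · simp
    · refine Finset.prod_congr rfl fun j hj => ?_
      rw [Pi.add_apply, Pi.single_eq_of_ne (Finset.ne_of_mem_erase hj), add_zero]
  have h2 : mon s β = s i ^ (β i : ℕ) * ∏ j ∈ Finset.univ.erase i, s j ^ (β j : ℕ) := by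
    rw [mon, ← Finset.mul_prod_erase _ _ (Finset.mem_univ i)]
  have h3 : ((β i + 1 : Fin p) : ℕ) = ((β i : ℕ) + 1) % p := by
    rw [Fin.val_add, Fin.val_one', Nat.mod_eq_of_lt (show 1 < p by omega)]
  rw [h1, h2, h3]
  have h4 := (β i).2
  split_ifs with h5
  · rw [h5, Nat.mod_self, pow_zero, one_mul, ← mul_assoc, ← pow_succ', h5]
  · rw [Nat.mod_eq_of_lt (by omega), one_pow, one_mul, ← mul_assoc, ← pow_succ']

theorem P3.Gd.mul_s [Fact p.Prime] {a : ℝ} {f : Ω} (h : P3.Gd p v M s a f) (i : Fin n)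
    (hi : s i ∈ M) : P3.Gd p v M s (a + v (s i)) (s i * f) := by
  classical
  have : NeZero p := ⟨(Fact.out : p.Prime).ne_zero⟩
  obtain ⟨c, hc, hf, hv⟩ := h
  let σ : (Fin n → Fin p) ≃ (Fin n → Fin p) := Equiv.addRight (Pi.single i 1)
  let d : (Fin n → Fin p) → Ω := fun β => c β * (if (β i : ℕ) + 1 = p then s i else 1)
  have hd : ∀ β, d β ^ p * mon s (σ β) = s i * (c β ^ p * mon s β) := by
    intro β
    have h1 := P3.mon_shift s i β
    show (c β * _) ^ p * mon s (β + Pi.single i 1) = _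
    rw [_root_.mul_pow, mul_assoc, h1]
    ring
  refine ⟨fun γ => d (σ.symm γ), fun γ => ?_, ?_, fun γ => ?_⟩
  · refine mul_mem (hc _) ?_
    split_ifs
    exacts [hi, one_mem _]
  · have h1 : pcomb s (fun γ => d (σ.symm γ)) = ∑ β, d β ^ p * mon s (σ β) := by
      rw [pcomb, ← Equiv.sum_comp σ]
      exact Finset.sum_congr rfl fun β _ => by rw [Equiv.symm_apply_apply]
    rw [h1, hf, pcomb, Finset.mul_sum]
    exact Finset.sum_congr rfl fun β _ => (hd β).symm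
  · obtain ⟨β, rfl⟩ := σ.surjective γ
    show v.Ge _ (d (σ.symm (σ β)) ^ p * mon s (σ β))
    rw [Equiv.symm_apply_apply, hd, add_comm]
    exact RVal.Ge.mul (RVal.ge_self _) (hv β)

theorem P3.Gd.congr {a a' : ℝ} {f f' : Ω} (h : P3.Gd p v M s a f) (ha : a = a') (hf : f = f') :
    P3.Gd p v M s a' f' := ha ▸ hf ▸ h

theorem P3.Gd.mul_s_pow [Fact p.Prime] {a : ℝ} {f : Ω} (h : P3.Gd p v M s a f) (i : Fin n)
    (hi : s i ∈ M) (m : ℕ) : P3.Gd p v M s (a + m * v (s i)) (s i ^ m * f) := by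
  induction m with
  | zero => exact h.congr (by simp) (by simp)
  | succ m ih =>
    exact (ih.mul_s i hi).congr (by push_cast; ring) (by ring)

theorem P3.Gd.mul_s_zpow [Fact p.Prime] {a : ℝ} {f : Ω} (h : P3.Gd p v M s a f) (i : Fin n)
    (hi : s i ∈ M) (hi0 : s i ≠ 0) (m : ℤ) :
    P3.Gd p v M s (a + m * v (s i)) (s i ^ m * f) := by
  obtain ⟨m, rfl | rfl⟩ := m.eq_nat_or_neg
  · exact (h.mul_s_pow i hi m).congr (by simp) (by simp)
  · have hp := (Fact.out : p.Prime).pos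
    have h1 := (h.mul_s_pow i hi ((p - 1) * m)).mul_pow (m := (s i ^ m)⁻¹)
      (inv_mem (pow_mem hi m)) (inv_ne_zero (pow_ne_zero m hi0))
    obtain ⟨q, rfl⟩ : ∃ q, p = q + 1 := ⟨p - 1, by omega⟩
    refine h1.congr ?_ ?_
    · rw [v.map_inv (pow_ne_zero m hi0), v.map_pow hi0, Nat.add_sub_cancel]
      push_cast
      ring
    · rw [Nat.add_sub_cancel, zpow_neg, zpow_natCast, ← mul_assoc]
      congr 1
      have h2 : s i ^ m ≠ 0 := pow_ne_zero m hi0
      rw [pow_succ, inv_pow, mul_comm q m, pow_mul]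
      field_simp

theorem P3.Gd.mul_prod [Fact p.Prime] {a : ℝ} {f : Ω} (h : P3.Gd p v M s a f) {r : ℕ}
    (j : Fin r → Fin n) (hi : ∀ i, s (j i) ∈ M) (hi0 : ∀ i, s (j i) ≠ 0) (l : Fin r → ℤ)
    (S : Finset (Fin r)) :
    P3.Gd p v M s (a + v (∏ i ∈ S, s (j i) ^ l i)) ((∏ i ∈ S, s (j i) ^ l i) * f) := by
  classical
  induction S using Finset.induction_on with
  | empty => exact h.congr (by simp [v.map_one]) (by simp)
  | insert i S hiS ih =>
    refine (ih.mul_s_zpow (j i) (hi i) (hi0 i) (l i)).congr ?_ ?_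
    · rw [Finset.prod_insert hiS, v.map_mul (zpow_ne_zero _ (hi0 i))
        (Finset.prod_ne_zero_iff.2 fun i' _ => zpow_ne_zero _ (hi0 i')), v.map_zpow (hi0 i)]
      ring
    · rw [Finset.prod_insert hiS]
      ring

end Gd

theorem P3.s_castAdd (F : Fr k v r D) (i : Fin r) : F.s (Fin.castAdd D i) = F.x i :=
  Fin.append_left _ _ _

theorem P3.s_natAdd (F : Fr k v r D) (j : Fin D) : F.s (Fin.natAdd r j) = F.y j :=
  Fin.append_right _ _ _

theorem P3.x_mem_K (F : Fr k v r D) (i : Fin r) : F.x i ∈ F.K :=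
  IntermediateField.subset_adjoin _ _ (Or.inl ⟨i, rfl⟩)

theorem P3.y_mem_K (F : Fr k v r D) (j : Fin D) : F.y j ∈ F.K :=
  IntermediateField.subset_adjoin _ _ (Or.inr ⟨j, rfl⟩)

theorem P3.s_mem_K (F : Fr k v r D) (i : Fin (r + D)) : F.s i ∈ F.K := by
  refine Fin.addCases (fun i => ?_) (fun j => ?_) i
  · rw [P3.s_castAdd F]; exact P3.x_mem_K F i
  · rw [P3.s_natAdd F]; exact P3.y_mem_K F j

theorem P3.K_le {F : Fr k v r D} {E : IntermediateField k Ω} (hF : F.IsFr E) : F.K ≤ E := by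
  rw [Fr.K, IntermediateField.adjoin_le_iff]
  rintro _ (⟨i, rfl⟩ | ⟨j, rfl⟩)
  exacts [hF.x_mem i, hF.y_mem j]

theorem P3.mx_ne_zero (F : Fr k v r D) (l : Fin r → ℤ) : mx F.x l ≠ 0 :=
  Finset.prod_ne_zero_iff.2 fun i _ => zpow_ne_zero _ (F.x_ne i)

theorem P3.mx_mem {E : IntermediateField k Ω} {x : Fin r → Ω} (hx : ∀ i, x i ∈ E) (l : Fin r → ℤ) :
    mx x l ∈ E := prod_mem fun i _ => zpow_mem (hx i) _

/-- Coordinates of a monomial of the frame. -/
theorem P3.coord [IsAlgClosed Ω] [IsAlgClosed k] (p : ℕ) [Fact p.Prime] [CharP k p]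
    [CharP Ω p] (h : Ctx k v r) {E : IntermediateField k Ω} {F : Fr k v r D} (hF : F.IsFr E)
    {e : Ω} (heE : e ∈ E) (he : F.Mono e) :
    ∃ c : (Fin (r + D) → Fin p) → Ω, (∀ β, c β ∈ E) ∧ e = pcomb F.s c ∧
      ∀ β, v.Ge (v e) (c β ^ p * mon F.s β) := by
  have hEM : E ≤ Pool.Agent.D2P.hen v F.K := by
    rw [← hF.hen_eq p h]; exact le_hen E
  have hKM : F.K ≤ Pool.Agent.D2P.hen v F.K := le_hen _
  have hbE : PBasis p E F.s := F.pbasis p h (P3.K_le hF) hEM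
  have hbM : PBasis p (Pool.Agent.D2P.hen v F.K) F.s := F.pbasis p h hKM le_rfl
  obtain ⟨l, w, hw, hw0, hvw, rfl⟩ := he
  obtain ⟨c, hc, hcH, hwc⟩ := F.pcoord p h hw
  have hcM : ∀ β, c β ∈ Pool.Agent.D2P.hen v F.K := by
    intro β
    obtain ⟨l', hl'⟩ := hc β
    have h1 := F.H_le_hen h _ hl'
    have h2 : mx F.x l' ∈ Pool.Agent.D2P.hen v F.K := P3.mx_mem (fun i => hKM (P3.x_mem_K F i)) l'
    have h3 := mul_mem (inv_mem h2) h1
    rwa [← mul_assoc, inv_mul_cancel₀ (P3.mx_ne_zero F l'), one_mul] at h3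
  have hg : P3.Gd p v (Pool.Agent.D2P.hen v F.K) F.s 0 w :=
    ⟨c, hcM, hwc, fun β => (F.hclosed h).nonneg _ (hcH β)⟩
  have hg2 : P3.Gd p v (Pool.Agent.D2P.hen v F.K) F.s (v (mx F.x l * w)) (mx F.x l * w) := by
    refine (hg.mul_prod (Fin.castAdd D) (fun i => ?_) (fun i => ?_) l Finset.univ).congr ?_ ?_
    · rw [P3.s_castAdd F]; exact hKM (P3.x_mem_K F i)
    · rw [P3.s_castAdd F]; exact F.x_ne i
    · simp only [P3.s_castAdd F]
      rw [zero_add, v.map_mul (P3.mx_ne_zero F l) hw0, hvw, add_zero, mx]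
    · simp only [P3.s_castAdd F, mx]
  obtain ⟨d, hd, hed, hdv⟩ := hg2
  obtain ⟨d', hd', hed'⟩ := hbE.span _ heE
  have h5 : ∀ β, d β = d' β := by
    intro β
    have h6 := hbM.ind (fun β => d β - d' β) (fun β => sub_mem (hd β) (hEM (hd' β))) (by
      have h7 : pcomb F.s (fun β => d β - d' β) = pcomb F.s d - pcomb F.s d' := by
        simp only [pcomb]
        rw [← Finset.sum_sub_distrib]
        refine Finset.sum_congr rfl fun β _ => ?_
        rw [sub_pow_char, sub_mul]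
      rw [h7, ← hed, ← hed', sub_self]) β
    exact sub_eq_zero.1 h6
  exact ⟨d', hd', hed', fun β => by rw [← h5]; exact hdv β⟩

/-- A field with bounded distortion and local uniformization has frames with distortion `≤ ε`. -/
theorem exists_orth_frame [IsAlgClosed Ω] [IsAlgClosed k] (p : ℕ) [Fact p.Prime] [CharP k p]
    [CharP Ω p] (h : Ctx k v r) (E : IntermediateField k Ω) (hE : E.FG) (hfull : Full v E)
    (hBD : BD p v E) (hLU : LU p v r E) {D : ℕ} (t : Fin (r + D) → Ω) (ht : PBasis p E t)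
    (Z : Finset Ω) (hZ : ∀ z ∈ Z, z ∈ E ∧ z ≠ 0) {ε : ℝ} (hε : 0 < ε) :
    ∃ F : Fr k v r D, F.IsFr E ∧ (∀ z ∈ Z, F.Mono z) ∧ F.PC p t ∧ PBasis p E F.s ∧
      Orth p v E F.s ε := by
  classical
  obtain ⟨e, he, hopt⟩ := exists_opt_basis hBD ht hε
  obtain ⟨F, hF, hFZ, hFt⟩ := hLU D t ht (Z ∪ Finset.univ.image e) (by
    intro z hz
    rcases Finset.mem_union.1 hz with h1 | h1
    · exact hZ z h1
    · obtain ⟨α, -, rfl⟩ := Finset.mem_image.1 h1
      exact he α)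
  have hEM : E ≤ hen v F.K := by
    rw [← hF.hen_eq p h]; exact le_hen E
  have hbE : PBasis p E F.s := F.pbasis p h (P3.K_le hF) hEM
  refine ⟨F, hF, fun z hz => hFZ z (Finset.mem_union_left _ hz), hFt, hbE, hopt F.s hbE ?_⟩
  intro α
  exact P3.coord p h hF (he α).1
    (hFZ _ (Finset.mem_union_right _ (Finset.mem_image_of_mem e (Finset.mem_univ α))))

end Pool.Agent.TW
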