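import Pool.Agent.Lib.TWI.IXe
import Pool.Agent.Lib.TW.DenseC
import Pool.Agent.Lib.ALL_h67.FinalAll
import Pool.Agent.Lib.ALL_h81.Stmt
import Pool.Agent.Lib.ALL52.Final

/-!
# TANK W: the exits when the real valuations of the function fields of dimension at most `N₀` are
log uniformizable in every characteristic
-/

set_option autoImplicit false

open AlgebraicGeometry CategoryTheory

namespace Pool.Agent.TW

open Pool.Agent.H15JM (RVal)
open Pool.Agent.LU2 Pool.Agent.LU2G Pool.Agent.LU2H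
open Pool.Agent.LUC (LUs)
open Pool.Agent.D2 (lur_of_lurV)

universe u

/-- The bound: `0` up to the dimension `N₀`. -/
def bN (N₀ n : ℕ) : ℕ := if n ≤ N₀ then 0 else ALLF.dimBound n

theorem bN_mono (N₀ : ℕ) : Monotone (bN N₀) := by
  intro m n h
  unfold bN
  split_ifs with h1 h2
  · exact le_rfl
  · exact Nat.zero_le _
  · omega
  · exact ALLF.dimBound_mono h

theorem bN_lt {N₀ n p : ℕ} (hp : 0 < p)
    (h : n ≤ N₀ ∨ (n + 1) * 2 ^ (3 * n - 1) * n.factorial ^ 2 < p) : bN N₀ n < p := by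
  unfold bN
  split_ifs with h1
  · exact hp
  · exact h.resolve_left h1

/-- The real valuations of the function fields of dimension at most `N₀` are log uniformizable. -/
def RealUpTo (N₀ : ℕ) (k : Type u) [Field k] : Prop :=
  ∀ (K : Type u) [Field K] [Algebra k K], (⊤ : IntermediateField k K).FG →
    ∀ V : ValuationSubring K, (∀ c : k, algebraMap k K c ∈ V) → IsR1 V →
      ∀ m : ℕ, Algebra.trdeg k K = m → m ≤ N₀ → LUr k V

theorem RealUpTo.full {N₀ : ℕ} (p : ℕ) [Fact p.Prime] {k : Type u} [Field k] [IsAlgClosed k]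
    [CharP k p] (h : RealUpTo N₀ k) : ALLF.RealCaseFull (bN N₀) p k := by
  intro K _ _ hK V hk hV m hm hp
  by_cases hmN : m ≤ N₀
  · exact h K hK V hk hV m hm hmN
  · have h1 : bN N₀ m = ALLF.dimBound m := if_neg hmN
    rw [h1] at hp
    exact ALLF.realCaseFull_large p k K hK V hk hV m hm hp

/-- The class of the fields of transcendence degree at most `N₀`. -/
def DimCls (N₀ : ℕ) (k : Type u) [Field k] : Cls k := fun K _ _ _ =>
  ∃ m : ℕ, Algebra.trdeg k K = m ∧ m ≤ N₀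

theorem DimCls.sub (N₀ : ℕ) (k : Type u) [Field k] : (DimCls N₀ k).Sub := by
  rintro K _ _ V hk hfin ⟨m, hm, hmN⟩ L
  have hLle : Algebra.trdeg k L ≤ Algebra.trdeg k K :=
    _root_.trdeg_le_of_injective L.val L.val.injective
  obtain ⟨m', hm'⟩ := Cardinal.lt_aleph0.1 (hLle.trans_lt hfin)
  refine ⟨m', hm', le_trans ?_ hmN⟩
  rw [hm, hm'] at hLle
  exact_mod_cast hLle

theorem RealUpTo.cls {N₀ : ℕ} {k : Type u} [Field k] (h : RealUpTo N₀ k) :
    RealCls (DimCls N₀ k) := fun K _ _ hK V hk hV ⟨m, hm, hmN⟩ => h K hK V hk hV m hm hmN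

/-- Log uniformization of all valuations, in dimension at most `N₀`. -/
theorem logUniformizable_upTo (p : ℕ) [Fact p.Prime] (k : Type) [Field k] [IsAlgClosed k]
    [CharP k p] {N₀ : ℕ} (H : RealUpTo N₀ k)
    (A : Type) [CommRing A] [IsDomain A] [Algebra k A] [Algebra.EssFiniteType k A]
    (n : ℕ) (hn : Algebra.trdeg k (FractionRing A) = n)
    (hp : n ≤ N₀ ∨ (n + 1) * 2 ^ (3 * n - 1) * n.factorial ^ 2 < p)
    (V : ValuationSubring (FractionRing A)) (hV : ∀ a : A, algebraMap A (FractionRing A) a ∈ V) :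
    LogUniformizable V :=
  ALLF.logUniformizable_all (bN_mono N₀) p k (Pool.Agent.LU2.realCaseR p Fact.out)
    (Pool.Agent.D2.realCase2 p Fact.out k (Pool.Agent.D2.main2 p Fact.out k)) (H.full p) A n hn
    (bN_lt (Fact.out : p.Prime).pos hp) V hV

/-- Finite resolving systems, in dimension at most `N₀`. -/
theorem exists_finite_system_upTo (p : ℕ) [Fact p.Prime] (k : Type) [Field k] [IsAlgClosed k]
    [CharP k p] {N₀ : ℕ} (H : RealUpTo N₀ k) (X : Scheme.{0}) [IsIntegral X]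
    [CompactSpace X] (f : X ⟶ Spec (CommRingCat.of k)) [LocallyOfFiniteType f] (n : ℕ)
    (hn : @Algebra.trdeg k X.functionField _ _ (consts f).toAlgebra = n)
    (hp : n ≤ N₀ ∨ (n + 1) * 2 ^ (3 * n - 1) * n.factorial ^ 2 < p) (N : ℕ) :
    ∃ (Z : Scheme.{0}) (ρ : Z ⟶ X) (M : ℕ) (Y : Fin M → Scheme.{0}) (π : ∀ j, Y j ⟶ X)
      (g : ∀ j, Z ⟶ Y j),
      IsIntegral Z ∧ IsProper ρ ∧
      (∀ W : X.Opens, (∀ x ∈ W, IsSmoothAt f x) → IsIso (ρ ∣_ W)) ∧
      (∀ j, IsIntegral (Y j) ∧ IsProper (π j) ∧ g j ≫ π j = ρ ∧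
        ∀ W : X.Opens, (∀ x ∈ W, IsSmoothAt f x) → IsIso (π j ∣_ W)) ∧
      (∀ z : Fin N → Z, ∃ j, ∀ i, IsSmoothAt (π j ≫ f) (g j (z i))) ∧
      ∀ (V : Fin N → ValuationSubring X.functionField)
        (c : ∀ i, Spec (CommRingCat.of (V i)) ⟶ X),
        (∀ i, Spec.map (CommRingCat.ofHom (algebraMap (V i) X.functionField)) ≫
          c i = X.fromSpecStalk (genericPoint X)) →
        ∃ j, ∀ i, ∃ c' : Spec (CommRingCat.of (V i)) ⟶ Y j, c' ≫ π j = c i ∧
          IsSmoothAt (π j ≫ f) (c' (IsLocalRing.closedPoint (V i))) :=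
  Pool.Agent.ALLQC.exists_finite_system_points_all (bN_mono N₀) p k (H.full p) X f n hn
    (bN_lt (Fact.out : p.Prime).pos hp) N

/-- Log uniformization of the real valuations of quasi-excellent schemes, in formal dimension at
most `N₀`. -/
theorem logUniformizable_formal_upTo (p : ℕ) (hp : p.Prime) {N₀ : ℕ}
    (H : ∀ (k : Type) [Field k] [IsAlgClosed k] [CharP k p], RealUpTo N₀ k)
    (A : Type) [CommRing A] [IsDomain A] [IsNoetherianRing A] [CharP A p]
    (V : ValuationSubring (FractionRing A)) (hV : ∀ a : A, algebraMap A (FractionRing A) a ∈ V)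
    (hrank1 : IsCoatom V) (I : Ideal A) (g : A) (hg : g ∈ I) (hg0 : g ≠ 0)
    (hgmin : ∀ a ∈ I, V.valuation (algebraMap A (FractionRing A) a) ≤
      V.valuation (algebraMap A (FractionRing A) g))
    (R : Subalgebra A (FractionRing A)) (hR : R = centerRing V (chart I g))
    (c : ℕ) (hresidue : LUF.ClosedGenerated (LUF.centerField R V) c)
    (hregular : LUF.RegularFormalFibre R V) (n : ℕ) (hdim : LUF.formalDim R V = n)
    (hbd : n + c ≤ N₀ ∨ (n + c + 1) * 2 ^ (3 * (n + c) - 1) * (n + c).factorial ^ 2 < p) :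
    LogUniformizable V := by
  have : Fact p.Prime := ⟨hp⟩
  exact Pool.Agent.ALLh81.logUniformizable_all (bN_mono N₀) p hp (fun k _ _ _ => (H k).full p)
    A V hV hrank1 I g hg hg0 hgmin R hR c hresidue hregular n hdim (bN_lt hp.pos hbd)

/-- Residue field `k` and transcendence degree at most `N₀`. -/
def ZeroN (N₀ : ℕ) (k : Type u) [Field k] : Cls k := fun K _ _ V =>
  (∀ f ∈ V, ∃ c : k, V.valuation (f - algebraMap k K c) < 1) ∧
    ∃ m : ℕ, Algebra.trdeg k K = m ∧ m ≤ N₀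

theorem ZeroN.sub (N₀ : ℕ) (k : Type u) [Field k] : (ZeroN N₀ k).Sub := by
  rintro K _ _ V hk hfin ⟨h0, h⟩ L
  exact ⟨ZeroCls.sub k K V hk hfin h0 L, DimCls.sub N₀ k K V hk hfin h L⟩

/-- The exit for the real valuations with residue field `k` in dimension at most `N₀`. -/
theorem realCls_zeroN {k : Type u} [Field k] [IsAlgClosed k] (N₀ : ℕ)
    (H : ∀ (Ω : Type u) [Field Ω] [Algebra k Ω] [IsAlgClosed Ω] (v : RVal Ω) (r : ℕ),
      Ctx k v r → ∀ E : IntermediateField k Ω, E.FG → (∀ g : Ω, IsAlgebraic E g) →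
        Algebra.trdeg k E ≤ N₀ → LUs v (algebraMap k Ω).range E.toSubfield) :
    RealCls (ZeroN N₀ k) := by
  rintro K _ _ hK V hk hR ⟨hres, m, hm, hmN⟩
  exact lur_of_lurV (lurV_at (m := m) V
    (fun Ω _ _ _ v r L e hctx hr _ hL halg => H Ω v r (ctx_of_ctxR hctx hr) L hL halg (by
      rw [← e.trdeg_eq, hm]
      exact_mod_cast hmN)) hK hk hR hres hm)

end Pool.Agent.TW
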