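import Pool.Agent.Lib.TW.Cls
import Pool.Agent.Lib.ALL_h26.Hand
import Pool.Agent.Lib.ALL52.Final

/-!
# TANK W, milestone M2: the exit for the valuations whose components have defect at most one, or
residue field `k`, defect at most two and a finitely generated value group, or small dimension
-/

set_option autoImplicit false

namespace Pool.Agent.TW
open Pool.Agent.LU2 Pool.Agent.LU2G Pool.Agent.LU2H
universe u

/-- The value group of `V`. -/
abbrev VGrp {K : Type u} [Field K] (V : ValuationSubring K) : Type u := Additive (Kˣ ⧸ V.unitGroup)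

theorem addGroup_fg_of_inj {G H : Type*} [AddCommGroup G] [AddCommGroup H] (f : H →+ G)
    (hf : Function.Injective f) (h : AddGroup.FG G) : AddGroup.FG H := by
  rw [← Module.Finite.iff_addGroup_fg] at h ⊢
  exact Module.Finite.of_injective f.toIntLinearMap hf

theorem addGroup_fg_of_surj {G H : Type*} [AddCommGroup G] [AddCommGroup H] (f : G →+ H)
    (hf : Function.Surjective f) (h : AddGroup.FG G) : AddGroup.FG H := by
  rw [← Module.Finite.iff_addGroup_fg] at h ⊢
  exact Module.Finite.of_surjective f.toIntLinearMap hf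

theorem VGrp.fg_comap {K L : Type u} [Field K] [Field L] [Algebra L K] (V : ValuationSubring K)
    (h : AddGroup.FG (VGrp V)) : AddGroup.FG (VGrp (V.comap (algebraMap L K))) := by
  let f : Lˣ →* Kˣ ⧸ V.unitGroup :=
    (QuotientGroup.mk' V.unitGroup).comp (Units.map (algebraMap L K).toMonoidHom)
  have hf : (V.comap (algebraMap L K)).unitGroup = f.ker := by
    ext x
    rw [MonoidHom.mem_ker]
    change _ ↔ (QuotientGroup.mk' V.unitGroup) _ = 1
    rw [QuotientGroup.mk'_apply, QuotientGroup.eq_one_iff, ValuationSubring.mem_unitGroup_iff,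
      ValuationSubring.mem_unitGroup_iff]
    have h1 : ∀ y : L, (V.comap (algebraMap L K)).valuation y ≤ 1 ↔
        V.valuation (algebraMap L K y) ≤ 1 := by
      intro y
      rw [ValuationSubring.valuation_le_one_iff, ValuationSubring.valuation_le_one_iff,
        ValuationSubring.mem_comap]
    have h2 : ∀ y : Lˣ, (V.comap (algebraMap L K)).valuation (y : L) = 1 ↔
        (V.comap (algebraMap L K)).valuation (y : L) ≤ 1 ∧
        (V.comap (algebraMap L K)).valuation ((y⁻¹ : Lˣ) : L) ≤ 1 := by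
      intro y
      rw [Units.val_inv_eq_inv_val, map_inv₀]
      constructor
      · intro h
        rw [h]
        exact ⟨le_rfl, by rw [inv_one]⟩
      · rintro ⟨h1, h2⟩
        refine le_antisymm h1 ?_
        have h3 := (Valuation.ne_zero_iff (V.comap (algebraMap L K)).valuation).2 y.ne_zero
        exact (inv_le_one₀ (zero_lt_iff.2 h3)).1 h2
    have h2' : ∀ y : Kˣ, V.valuation (y : K) = 1 ↔
        V.valuation (y : K) ≤ 1 ∧ V.valuation ((y⁻¹ : Kˣ) : K) ≤ 1 := by
      intro y
      rw [Units.val_inv_eq_inv_val, map_inv₀]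
      constructor
      · intro h
        rw [h]
        exact ⟨le_rfl, by rw [inv_one]⟩
      · rintro ⟨h1, h2⟩
        refine le_antisymm h1 ?_
        have h3 := (Valuation.ne_zero_iff V.valuation).2 y.ne_zero
        exact (inv_le_one₀ (zero_lt_iff.2 h3)).1 h2
    rw [h2, h2', h1, h1]
    have h4 : (((Units.map (algebraMap L K).toMonoidHom) x)⁻¹ : Kˣ) =
        Units.map (algebraMap L K).toMonoidHom x⁻¹ := by rw [map_inv]
    rw [h4]
    rfl
  let g : (Lˣ ⧸ (V.comap (algebraMap L K)).unitGroup) →* Kˣ ⧸ V.unitGroup :=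
    QuotientGroup.lift _ f (by rw [hf])
  have hg : Function.Injective g := by
    rw [injective_iff_map_eq_one]
    intro x
    induction x using QuotientGroup.induction_on with
    | H z =>
      intro hz
      rw [QuotientGroup.eq_one_iff, hf]
      exact hz
  exact addGroup_fg_of_inj (G := VGrp V) (H := VGrp (V.comap (algebraMap L K)))
    (MonoidHom.toAdditive g) hg h

/-- The value group of a component. -/
theorem VGrp.fg_of_compGroup {k K : Type} [Field k] [Field K] [Algebra k K]
    {V V₁ : ValuationSubring K} (hle : V ≤ V₁)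
    (hk : ∀ c : k, algebraMap k K c ∈ V) (hk₁ : ∀ c : k, algebraMap k K c ∈ V₁)
    (h : AddGroup.FG (CompGroup V V₁)) : AddGroup.FG (VGrp (imgV hle)) := by
  let _ : Algebra k (IsLocalRing.ResidueField V₁) :=
    ((IsLocalRing.residue V₁).comp ((algebraMap k K).codRestrict V₁ hk₁)).toAlgebra
  have hres : IsRes (k := k) V V₁ (IsLocalRing.residue V₁) (imgV hle) :=
    isRes_residue hle hk hk₁
  let f : V₁.unitGroup →* (IsLocalRing.ResidueField V₁)ˣ ⧸ (imgV hle).unitGroup :=
    (QuotientGroup.mk' _).comp V₁.unitGroupToResidueFieldUnits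
  have hf : V.unitGroup.subgroupOf V₁.unitGroup ≤ f.ker := by
    intro x hx
    rw [Subgroup.mem_subgroupOf, ValuationSubring.mem_unitGroup_iff] at hx
    rw [MonoidHom.mem_ker]
    change (QuotientGroup.mk' _) _ = 1
    rw [QuotientGroup.mk'_apply, QuotientGroup.eq_one_iff, ValuationSubring.mem_unitGroup_iff]
    have hxV : ((V₁.unitGroupMulEquiv x : V₁) : K) = ((x : Kˣ) : K) := rfl
    have h1 : (V₁.unitGroupToResidueFieldUnits x : IsLocalRing.ResidueField V₁) =
      IsLocalRing.residue V₁ (V₁.unitGroupMulEquiv x : V₁) := rfl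
    rw [h1]
    apply le_antisymm
    · rw [ValuationSubring.valuation_le_one_iff, hres.mem, hxV,
        ← ValuationSubring.valuation_le_one_iff]
      exact hx.le
    · rw [← not_lt, hres.val_lt_iff, hxV, not_lt]
      exact hx.ge
  let g : (V₁.unitGroup ⧸ V.unitGroup.subgroupOf V₁.unitGroup) →*
      (IsLocalRing.ResidueField V₁)ˣ ⧸ (imgV hle).unitGroup := QuotientGroup.lift _ f hf
  have hg : Function.Surjective g := by
    intro y
    obtain ⟨y, rfl⟩ := QuotientGroup.mk'_surjective _ y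
    obtain ⟨x, rfl⟩ := V₁.surjective_unitGroupToResidueFieldUnits y
    exact ⟨QuotientGroup.mk' _ x, rfl⟩
  exact addGroup_fg_of_surj (G := CompGroup V V₁) (H := VGrp (imgV hle))
    (MonoidHom.toAdditive g) hg h

/-- Residue field `k`, Abhyankar defect at most two, finitely generated value group. -/
def TwoFG (k : Type u) [Field k] : Cls k := fun K _ _ V =>
  (∀ f ∈ V, ∃ c : k, V.valuation (f - algebraMap k K c) < 1) ∧ DefLE k V 2 ∧ AddGroup.FG (VGrp V)

theorem TwoFG.sub (k : Type u) [Field k] : (TwoFG k).Sub := by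
  rintro K _ _ V hk hfin ⟨h0, hD, hfg⟩ L
  refine ⟨fun f hf => ?_, DefLE.comap' hk hfin L hD, VGrp.fg_comap V hfg⟩
  rw [ValuationSubring.mem_comap] at hf
  obtain ⟨c, hc⟩ := h0 _ hf
  refine ⟨c, ?_⟩
  rw [comap_lt_iff]
  have h1 : ((f - algebraMap k L c : L) : K) = algebraMap L K f - algebraMap k K c := rfl
  rw [h1]
  exact hc

/-- The class of M2. -/
def M2Cls (p : ℕ) (k : Type u) [Field k] : Cls k := fun K _ _ V =>
  DefLE k V 1 ∨ TwoFG k K V ∨ ∃ m : ℕ, Algebra.trdeg k K = m ∧ ALLF.dimBound m < p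

theorem M2Cls.sub (p : ℕ) (k : Type u) [Field k] : (M2Cls p k).Sub := by
  rintro K _ _ V hk hfin (h | h | ⟨m, hm, hp⟩) L
  · exact Or.inl (DefLE.comap' hk hfin L h)
  · exact Or.inr (Or.inl (TwoFG.sub k K V hk hfin h L))
  · have hLle : Algebra.trdeg k L ≤ Algebra.trdeg k K :=
      _root_.trdeg_le_of_injective L.val L.val.injective
    obtain ⟨m', hm'⟩ := Cardinal.lt_aleph0.1 (hLle.trans_lt hfin)
    have hmm : m' ≤ m := by
      rw [hm, hm'] at hLle
      exact_mod_cast hLle
    exact Or.inr (Or.inr ⟨m', hm', (ALLF.dimBound_mono hmm).trans_lt hp⟩)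

theorem realCls_M2 (p : ℕ) {k : Type u} [Field k] (h1 : RealCaseR k) (h2 : RealCls (TwoFG k))
    (h3 : ALLF.RealCaseFull ALLF.dimBound p k) : RealCls (M2Cls p k) := by
  rintro K _ _ hK V hk hV (h | h | ⟨m, hm, hp⟩)
  · exact h1 K hK V hk hV h
  · exact h2 K hK V hk hV h
  · exact h3 K hK V hk hV m hm hp

/-- The condition on the rank one components of the valuation ring `V` of `K`, over `k`: if
`V ⊆ V₁ ⊂ V₂` are valuation rings with nothing between `V₁` and `V₂`, and `d` is the transcendence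
degree over `k` of the residue field of `V₂` (the dimension of the component), then
`(d + 1) * 2 ^ (3 * d - 1) * (d!) ^ 2 < p`, or `d` is at most the sum of the transcendence degree
of the residue field of `V₁`, of the rational rank of the value group `V₂ˣ / V₁ˣ`, and of one, or
the residue field of `V₁` is algebraic over `k`, the group `V₂ˣ / V₁ˣ` is finitely generated and
`d` is at most its rank plus two. -/
def M2Components (p : ℕ) {k K : Type} [Field k] [Field K] (ι : k →+* K)
    (V : ValuationSubring K) : Prop :=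
  ∀ V₁ V₂ : ValuationSubring K, V ≤ V₁ → V₁ ⋖ V₂ →
    ∃ (h₁ : ∀ a, ι a ∈ V₁) (h₂ : ∀ a, ι a ∈ V₂),
      (∃ d : ℕ, resDegree ι V₂ h₂ = d ∧ (d + 1) * 2 ^ (3 * d - 1) * d.factorial ^ 2 < p) ∨
      resDegree ι V₂ h₂ ≤ resDegree ι V₁ h₁ + compRank V₁ V₂ + 1 ∨
      (resDegree ι V₁ h₁ = 0 ∧ resDegree ι V₂ h₂ ≤ compRank V₁ V₂ + 2 ∧
        AddGroup.FG (CompGroup V₁ V₂))

theorem M2Components.allCompC {p : ℕ} {k K : Type} [Field k] [IsAlgClosed k] [Field K]
    [Algebra k K] (hfin : Algebra.trdeg k K < Cardinal.aleph0) {V : ValuationSubring K}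
    (h : M2Components p (algebraMap k K) V) : AllCompC (M2Cls p k) V := by
  intro V₁ V₂ hV₁ hc
  obtain ⟨hk₁, hk₂, hd⟩ := h V₁ V₂ hV₁ hc.covBy
  have hle := hc.1.le
  let alg : Algebra k (IsLocalRing.ResidueField V₂) :=
    ((IsLocalRing.residue V₂).comp ((algebraMap k K).codRestrict V₂ hk₂)).toAlgebra
  have hres : IsRes (k := k) V₁ V₂ (IsLocalRing.residue V₂) (imgV hle) :=
    isRes_residue hle hk₁ hk₂
  obtain ⟨n, hn⟩ := Cardinal.lt_aleph0.1 hfin
  obtain ⟨m, hm, -⟩ := ALLF.exists_trdeg_residue hn hle hk₁ hk₂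
  have hfin₂ : resDegree (algebraMap k K) V₂ hk₂ < Cardinal.aleph0 := by
    rw [hm]
    exact Cardinal.natCast_lt_aleph0
  rcases hd with ⟨d, hd, hp⟩ | hd | ⟨h0, hd, hfg⟩
  · exact compC_of hle hk₁ hk₂ hfin₂ (Or.inr (Or.inr ⟨d, hd, hp⟩))
  · obtain ⟨K₁, i1, i2, φ, W, hW, hD⟩ := compLE_of hfin hle hk₁ hk₂ hd
    refine ⟨K₁, i1, i2, φ, W, hW, ?_, Or.inl hD⟩
    obtain ⟨n₁, hn₁, -⟩ := hW.trdeg_le hn (x := (Fin.elim0 : Fin 0 → K))
      ⟨fun i => i.elim0, fun e _ => Subsingleton.elim _ _⟩
    rw [hn₁]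
    exact Cardinal.natCast_lt_aleph0
  · refine compC_of hle hk₁ hk₂ hfin₂ (Or.inr (Or.inl ⟨?_, ?_, ?_⟩))
    · intro f hf
      obtain ⟨y, rfl⟩ := hres.surj f
      rw [hres.mem] at hf
      obtain ⟨c, hc⟩ := D2.exists_const_of_resDegree hk₁ h0 hf
      refine ⟨c, ?_⟩
      have h1 : @algebraMap k (IsLocalRing.ResidueField V₂) _ _ alg c =
        IsLocalRing.residue V₂ ⟨algebraMap k K c, hk₂ c⟩ := rfl
      rw [h1, ← map_sub, hres.val_lt_iff]
      exact hc
    · have h' : Algebra.trdeg k (IsLocalRing.ResidueField V₂) ≤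
          compRank V₁ V₂ + resDegree (algebraMap k K) V₁ hk₁ + ((2 : ℕ) : Cardinal) := by
        rw [h0, add_zero, Nat.cast_ofNat]
        exact hd
      obtain ⟨r, d, hr, hd, hT⟩ := exists_nat_split hfin₂ h'
      obtain ⟨x, hx1, hx⟩ := exists_units V₁ V₂ hr
      obtain ⟨z, hz⟩ := exists_indRes' V₁ hk₁ hd
      refine ⟨r, d, hT, ?_, ?_⟩
      · have hxm : ∀ i, x i ∈ V₂ := fun i => (V₂.valuation_le_one_iff _).1 (hx1 i).le
        exact ⟨_, hres.indVal₂ (y := fun i => ⟨x i, hxm i⟩) hx1 hx⟩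
      · exact ⟨_, hres.indRes₂ (fun i => ⟨z i, hle (hz.1 i)⟩) hz⟩
    · exact VGrp.fg_of_compGroup hle hk₁ hk₂ hfg

/-- THE EXIT OF M2 (every characteristic `p > 0`). -/
theorem logUniformizable_M2 (p : ℕ) [Fact p.Prime] (k : Type) [Field k] [IsAlgClosed k]
    [CharP k p] (hreal : RealCls (TwoFG k))
    (A : Type) [CommRing A] [IsDomain A] [Algebra k A] [Algebra.EssFiniteType k A]
    (V : ValuationSubring (FractionRing A)) (hV : ∀ a : A, algebraMap A (FractionRing A) a ∈ V)
    (F : IntermediateField k (FractionRing A)) (hF : F.FG)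
    (hdense : ∀ a b : FractionRing A, b ≠ 0 → ∃ c ∈ F, V.valuation (a - c) < V.valuation b)
    (s : Finset (FractionRing A)) (hs : AlgebraicIndependent F (Subtype.val : s → FractionRing A))
    (hsep : Algebra.IsSeparable (IntermediateField.adjoin F (s : Set (FractionRing A)))
      (FractionRing A))
    (hdef : M2Components p (algebraMap k F) (V.comap (algebraMap F (FractionRing A)))) :
    LogUniformizable V := by
  have hFtop : (⊤ : IntermediateField k F).FG := by
    rw [← IntermediateField.essFiniteType_iff] at hF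
    rw [IntermediateField.fg_top_iff]
    exact hF
  have h3 : Algebra.EssFiniteType k F := IntermediateField.fg_top_iff.1 hFtop
  exact logUniformizable_denseC k (M2Cls.sub p k)
    (realCls_M2 p (Pool.Agent.LU2.realCaseR p Fact.out) hreal (ALLF.realCaseFull_large p k))
    A V hV F hF hdense s hs hsep
    (hdef.allCompC (_root_.trdeg_lt_aleph0 k F))

end Pool.Agent.TW
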