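import Pool.Agent.Lib.TW.A2
import Pool.Agent.Lib.TW.Defs

/-!
# TANK W: row A for fields of any transcendence degree (transfer to the algebraic closure)
-/

set_option autoImplicit false

open Polynomial

namespace Pool.Agent.TW

open Pool.Agent.H15JM (RVal)
open Pool.Agent.LU1 (VPos adj)
open Pool.Agent.LUC (Cl clF)
open Pool.Agent.D2 (Ctx0)
open Pool.Agent.D2P
open Pool.Agent.LU3 (resv)

universe u

variable {k Ω : Type u} [Field k] [Field Ω] [Algebra k Ω] {v : RVal Ω}

section Sub

variable {W : IntermediateField k Ω}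

theorem resv_ge {a : W} {N : ℝ} : (resv v W).Ge N a ↔ v.Ge N (a : Ω) := by
  constructor
  · intro h h0
    exact h fun h1 => h0 (congrArg Subtype.val h1)
  · intro h h0
    exact h fun h1 => h0 (Subtype.ext h1)

theorem ctx0_resv (h : Ctx0 k v) (W : IntermediateField k Ω) : Ctx0 k (resv v W) where
  triv := fun c hc => h.triv c hc
  res := fun a ha hv => by
    have ha' : (a : Ω) ≠ 0 := fun h0 => ha (Subtype.ext h0)
    obtain ⟨c, hc, hp⟩ := h.res (a : Ω) ha' hv
    refine ⟨c, hc, fun h0 => ?_⟩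
    exact hp fun h1 => h0 (Subtype.ext h1)

theorem mem_map_val {L : IntermediateField k W} {a : Ω} :
    a ∈ L.map W.val ↔ ∃ h : a ∈ W, (⟨a, h⟩ : W) ∈ L := by
  constructor
  · rintro ⟨b, hb, rfl⟩
    exact ⟨b.2, hb⟩
  · rintro ⟨h, hb⟩
    exact ⟨⟨a, h⟩, hb, rfl⟩

/-- The henselization in a relatively algebraically closed subfield. -/
theorem hen_map_val (hW : ∀ a : Ω, IsAlgebraic W a → a ∈ W) (L : IntermediateField k W) :
    (hen (resv v W) L).map W.val = hen v (L.map W.val) := by
  have hinj : Function.Injective (algebraMap W Ω) := (algebraMap W Ω).injective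
  ext a
  rw [mem_map_val, mem_hen]
  have hmem : ∀ x : L, ((x : W) : Ω) ∈ L.map W.val := fun x =>
    mem_map_val.2 ⟨(x : W).2, x.2⟩
  constructor
  · rintro ⟨haW, ha⟩
    rw [mem_hen] at ha
    constructor
    · intro N
      obtain ⟨a₀, h0, h1⟩ := ha.1 N
      exact ⟨(a₀ : Ω), hmem ⟨a₀, h0⟩, resv_ge.1 h1⟩
    · let φ : L →+* (L.map W.val : IntermediateField k Ω) :=
        { toFun := fun x => ⟨((x : W) : Ω), hmem x⟩
          map_one' := rfl
          map_mul' := fun _ _ => rfl
          map_zero' := rfl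
          map_add' := fun _ _ => rfl }
      have h1 : ((minpoly L (⟨a, haW⟩ : W)).map φ).Separable := Separable.map ha.2
      refine h1.of_dvd (minpoly.dvd _ _ ?_)
      have hcomp : (algebraMap (L.map W.val : IntermediateField k Ω) Ω).comp φ =
        (algebraMap W Ω).comp (algebraMap L W) := rfl
      rw [aeval_def, eval₂_map, hcomp]
      have h3 := congrArg (algebraMap W Ω) (minpoly.aeval L (⟨a, haW⟩ : W))
      rw [map_zero, aeval_def, hom_eval₂] at h3
      exact h3
  · rintro ⟨ha1, ha2⟩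
    have hle : L.map W.val ≤ W := by
      rintro b ⟨c, -, rfl⟩
      exact c.2
    have haW : a ∈ W := hW a (isAlgebraic_mono hle ha2.isIntegral.isAlgebraic)
    refine ⟨haW, ?_⟩
    rw [mem_hen]
    constructor
    · intro N
      obtain ⟨a₀, h0, h1⟩ := ha1 N
      obtain ⟨h2, h3⟩ := mem_map_val.1 h0
      exact ⟨⟨a₀, h2⟩, h3, resv_ge.2 h1⟩
    · let φ : (L.map W.val : IntermediateField k Ω) →+* L :=
        { toFun := fun x => ⟨⟨(x : Ω), (mem_map_val.1 x.2).1⟩, (mem_map_val.1 x.2).2⟩
          map_one' := rfl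
          map_mul' := fun _ _ => rfl
          map_zero' := rfl
          map_add' := fun _ _ => rfl }
      have h1 : ((minpoly (L.map W.val : IntermediateField k Ω) a).map φ).Separable :=
        Separable.map ha2
      refine h1.of_dvd (minpoly.dvd _ _ ?_)
      apply hinj
      rw [aeval_def, eval₂_map, hom_eval₂, map_zero]
      have hcomp : (algebraMap W Ω).comp ((algebraMap L W).comp φ) =
        algebraMap (L.map W.val : IntermediateField k Ω) Ω := rfl
      have h2 : (algebraMap W Ω) (⟨a, haW⟩ : W) = a := rfl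
      rw [hcomp, h2, ← aeval_def, minpoly.aeval]

theorem map_comap_val {L : IntermediateField k Ω} (hL : L ≤ W) :
    (L.comap W.val).map W.val = L := by
  ext a
  rw [mem_map_val]
  exact ⟨fun h => h.2, fun h => ⟨hL h, h⟩⟩

theorem fg_comap_val {L : IntermediateField k Ω} (hL : L ≤ W) (hfg : L.FG) :
    (L.comap W.val).FG := by
  classical
  obtain ⟨S', hS'⟩ := hfg
  have hS'E : ∀ s ∈ S', s ∈ W := fun s hs => hL (by
    rw [← hS']; exact IntermediateField.subset_adjoin _ _ hs)
  refine ⟨S'.subtype (· ∈ W), ?_⟩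
  have h4 : (fun z : W => (z : Ω)) '' ((S'.subtype (· ∈ W) : Finset W) : Set W) =
      (S' : Set Ω) := by
    ext b
    constructor
    · rintro ⟨z, hz, rfl⟩
      exact Finset.mem_subtype.1 hz
    · intro hb
      exact ⟨⟨b, hS'E b hb⟩, Finset.mem_subtype.2 hb, rfl⟩
  have h5 : (IntermediateField.adjoin k
      ((S'.subtype (· ∈ W) : Finset W) : Set W)).map W.val = L := by
    rw [IntermediateField.adjoin_map, ← hS', ← h4]
    rfl
  ext a
  have h6 : a ∈ IntermediateField.adjoin k ((S'.subtype (· ∈ W) : Finset W) : Set W) ↔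
      (a : Ω) ∈ (IntermediateField.adjoin k
        ((S'.subtype (· ∈ W) : Finset W) : Set W)).map W.val := by
    rw [mem_map_val]
    exact ⟨fun h => ⟨a.2, h⟩, fun h => h.2⟩
  rw [h6, h5]
  rfl

theorem fg_map_val {L : IntermediateField k W} (hfg : L.FG) : (L.map W.val).FG := by
  classical
  obtain ⟨S, hS⟩ := hfg
  refine ⟨S.image W.val, ?_⟩
  rw [Finset.coe_image, ← IntermediateField.adjoin_map, hS]

theorem rootF_map_val (hW : ∀ a : Ω, IsAlgebraic W a → a ∈ W) (p e : ℕ) [Fact p.Prime]
    [CharP Ω p] [CharP W p] (L : IntermediateField k W) :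
    (rootF p e L).map W.val = rootF p e (L.map W.val) := by
  ext a
  rw [mem_map_val, mem_rootF, mem_map_val]
  constructor
  · rintro ⟨h, h1⟩
    exact ⟨pow_mem h _, h1⟩
  · rintro ⟨h, h1⟩
    have haW : a ∈ W := hW a (isAlgebraic_of_pow (pow_pos (Fact.out : p.Prime).pos e)
      (isAlgebraic_of_mem h))
    exact ⟨haW, h1⟩

end Sub

/-- The algebraic closure of `E` in `Ω`. -/
noncomputable def acl (E : IntermediateField k Ω) : IntermediateField k Ω :=
  (algebraicClosure E Ω).restrictScalars k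

theorem mem_acl {E : IntermediateField k Ω} {a : Ω} : a ∈ acl E ↔ IsAlgebraic E a := by
  rw [acl, IntermediateField.mem_restrictScalars, mem_algebraicClosure_iff]

theorem le_acl (E : IntermediateField k Ω) : E ≤ acl E := fun _ ha =>
  mem_acl.2 (isAlgebraic_of_mem ha)

theorem acl_closed (E : IntermediateField k Ω) {a : Ω} (ha : IsAlgebraic (acl E) a) :
    a ∈ acl E := mem_acl.2 (isAlgebraic_trans (fun _ h => mem_acl.1 h) ha)

theorem acl_isAlgClosed [IsAlgClosed Ω] (E : IntermediateField k Ω) : IsAlgClosed (acl E) := by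
  have h : IsAlgClosed (algebraicClosure E Ω) := IsAlgClosure.isAlgClosed E
  exact h

/-- elements of `L` with spanning values -/
theorem Full.exists_span {r : ℕ} (h : Ctx k v r) {L : IntermediateField k Ω} (hL : Full v L) :
    ∃ x : Fin r → Ω, (∀ i, x i ∈ L ∧ x i ≠ 0) ∧ (LinearIndependent ℚ fun i => v (x i)) ∧
      ∀ g : Ω, g ≠ 0 → v g ∈ Submodule.span ℚ (Set.range fun i => v (x i)) := by
  obtain ⟨X, hX0, hXi, hX⟩ := h.rank
  choose m hm c hcL hc0 hc using fun i => hL (X i) (hX0 i)
  have hm0 : ∀ i, ((m i : ℕ) : ℚ) ≠ 0 := fun i => by exact_mod_cast (hm i).ne'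
  have hsm : ∀ i, v (c i) = ((m i : ℕ) : ℚ) • v (X i) := fun i => by
    rw [hc i, Rat.smul_def]
    push_cast
    rfl
  refine ⟨c, fun i => ⟨hcL i, hc0 i⟩, ?_, fun g hg => ?_⟩
  · have h2 := hXi.units_smul fun i => Units.mk0 _ (hm0 i)
    convert h2 using 1
    funext i
    exact hsm i
  · refine (Submodule.span_le.2 ?_) (hX g hg)
    rintro _ ⟨i, rfl⟩
    have h2 : v (X i) = ((m i : ℕ) : ℚ)⁻¹ • v (c i) := by
      rw [hsm, smul_smul, inv_mul_cancel₀ (hm0 i), one_smul]
    show v (X i) ∈ _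
    rw [h2]
    exact Submodule.smul_mem _ _ (Submodule.subset_span ⟨i, rfl⟩)

/-- ROW A, any transcendence degree. -/
theorem row_A [IsAlgClosed Ω] [IsAlgClosed k] (p : ℕ) [Fact p.Prime] [CharP k p] [CharP Ω p]
    {r n : ℕ} (h : Ctx k v r) (E : IntermediateField k Ω) (hE : E.FG)
    (hEn : Algebra.trdeg k E = ((n + 1 : ℕ) : Cardinal))
    (L₀ : IntermediateField k Ω) (hL₀E : L₀ ≤ E) (hL₀fg : L₀.FG) (hL₀ : Full v L₀)
    (htr : Algebra.trdeg k L₀ = n) :
    ∃ (e : ℕ) (N' : IntermediateField k Ω), N'.FG ∧ rootF p e L₀ ≤ N' ∧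
      (∀ a ∈ N', IsAlgebraic L₀ a) ∧ ∃ z : Ω, Transcendental N' z ∧
      hen v (E ⊔ rootF p e L₀) = hen v (adj N' z) := by
  classical
  set W := acl E with hWdef
  have hW : ∀ a : Ω, IsAlgebraic W a → a ∈ W := fun a ha => acl_closed E ha
  have hEW : E ≤ W := le_acl E
  have hLW : L₀ ≤ W := hL₀E.trans hEW
  have _ : IsAlgClosed W := acl_isAlgClosed E
  have _ : CharP W p := charP_field p W
  obtain ⟨x, hx, hxi, hxv⟩ := hL₀.exists_span h
  have hxW : ∀ i, x i ∈ W := fun i => hLW (hx i).1
  have htrW : Algebra.trdeg k W = ((n + 1 : ℕ) : Cardinal) := by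
    rw [← hEn]
    exact trdeg_eq_of_alg hEW fun a ha => mem_acl.1 ha
  have htrL : Algebra.trdeg k (L₀.comap W.val : IntermediateField k W) = n := by
    rw [← htr]
    have e : (L₀.comap W.val : IntermediateField k W) ≃ₐ[k] L₀ :=
      AlgEquiv.ofBijective
        { toFun := fun a => ⟨((a : W) : Ω), a.2⟩
          map_one' := rfl
          map_mul' := fun _ _ => rfl
          map_zero' := rfl
          map_add' := fun _ _ => rfl
          commutes' := fun _ => rfl }
        ⟨fun a b hab => Subtype.ext (Subtype.ext (congrArg (fun z : L₀ => (z : Ω)) hab)),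
          fun b => ⟨⟨⟨b, hLW b.2⟩, b.2⟩, rfl⟩⟩
    exact e.trdeg_eq
  obtain ⟨e, N', hN'fg, hrN', hN'alg, z, hz, hlev⟩ := row_a p (ctx0_resv h.toCtx0 W)
    (r := r) htrW (E.comap W.val) (fg_comap_val hEW hE)
    (fun g => by
      have h1 : IsAlgebraic E (g : Ω) := mem_acl.1 g.2
      obtain ⟨P, hP0, hP⟩ := h1
      let φ : E →+* (E.comap W.val : IntermediateField k W) :=
        { toFun := fun a => ⟨⟨(a : Ω), hEW a.2⟩, a.2⟩
          map_one' := rfl
          map_mul' := fun _ _ => rfl
          map_zero' := rfl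
          map_add' := fun _ _ => rfl }
      refine ⟨P.map φ, (Polynomial.map_ne_zero_iff φ.injective).2 hP0, ?_⟩
      apply (algebraMap W Ω).injective
      rw [map_zero, aeval_def, eval₂_map, hom_eval₂]
      exact hP)
    (L₀.comap W.val) (fun a ha => hL₀E ha) (fg_comap_val hLW hL₀fg) htrL
    (fun i => (⟨x i, hxW i⟩ : W))
    (fun i => ⟨(hx i).1, fun h0 => (hx i).2 (congrArg Subtype.val h0)⟩)
    (fun g hg => hxv (g : Ω) fun h0 => hg (Subtype.ext h0))
  have hL₀m : (L₀.comap W.val).map W.val = L₀ := map_comap_val hLW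
  have hroot : (rootF p e (L₀.comap W.val)).map W.val = rootF p e L₀ := by
    rw [rootF_map_val hW, hL₀m]
  refine ⟨e, N'.map W.val, fg_map_val hN'fg, ?_, ?_, (z : Ω), ?_, ?_⟩
  · rw [← hroot]
    exact IntermediateField.map_mono _ hrN'
  · intro a ha
    obtain ⟨h1, h2⟩ := mem_map_val.1 ha
    obtain ⟨P, hP0, hP⟩ := hN'alg _ h2
    let φ : (L₀.comap W.val : IntermediateField k W) →+* L₀ :=
      { toFun := fun a => ⟨((a : W) : Ω), a.2⟩
        map_one' := rfl
        map_mul' := fun _ _ => rfl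
        map_zero' := rfl
        map_add' := fun _ _ => rfl }
    refine ⟨P.map φ, (Polynomial.map_ne_zero_iff φ.injective).2 hP0, ?_⟩
    have h3 := congrArg (algebraMap W Ω) hP
    rw [map_zero, aeval_def, hom_eval₂] at h3
    rw [aeval_def, eval₂_map]
    exact h3
  · intro hzalg
    apply hz
    obtain ⟨P, hP0, hP⟩ := hzalg
    let φ : (N'.map W.val : IntermediateField k Ω) →+* N' :=
      { toFun := fun x => ⟨⟨(x : Ω), (mem_map_val.1 x.2).1⟩, (mem_map_val.1 x.2).2⟩
        map_one' := rfl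
        map_mul' := fun _ _ => rfl
        map_zero' := rfl
        map_add' := fun _ _ => rfl }
    refine ⟨P.map φ, (Polynomial.map_ne_zero_iff φ.injective).2 hP0, ?_⟩
    apply (algebraMap W Ω).injective
    rw [map_zero, aeval_def, eval₂_map, hom_eval₂]
    exact hP
  · have h1 : (hen (resv v W) (E.comap W.val ⊔ rootF p e (L₀.comap W.val))).map W.val =
        (hen (resv v W) (adj N' z)).map W.val := by rw [hlev]
    rw [hen_map_val hW, hen_map_val hW, IntermediateField.map_sup, map_comap_val hEW, hroot,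
      adj, IntermediateField.map_sup, IntermediateField.adjoin_map, Set.image_singleton] at h1
    exact h1

end Pool.Agent.TW
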