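import Pool.Agent.Lib.TWJ.ALL
import Pool.Agent.Lib.TWM.S9d

/-!
# TANK W: the real valuations with residue field `k` and defect at most two
-/

set_option autoImplicit false

namespace Pool.Agent.TW

open Pool.Agent.H15JM (RVal)
open Pool.Agent.LUC (LUs)
open Pool.Agent.TA (CtxR)

universe u

variable {k Ω : Type u} [Field k] [Field Ω] [Algebra k Ω] {v : RVal Ω} {r : ℕ}

/-- Log uniformization for transcendence degree at most `r + 2` and residue field `k`. -/
theorem lus_twoR (p : ℕ) [Fact p.Prime] [CharP k p] [IsAlgClosed k] [IsAlgClosed Ω]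
    {n : ℕ} (hctx : CtxR k v n r) (hr : 0 < r) (hn : n ≤ r + 2) {E : IntermediateField k Ω} (hE : E.FG)
    (hΩ : ∀ g : Ω, IsAlgebraic E g) : LUs v (algebraMap k Ω).range E.toSubfield := by
  have h : Ctx k v r := ctx_of_ctxR hctx hr
  have hfull : Full v E := TWM.full_of_all hΩ
  have htr : Algebra.trdeg k E = n := by
    rw [← hctx.trdeg]
    have h1 : Algebra.IsAlgebraic E Ω := ⟨hΩ⟩
    have h2 := trdeg_add_eq k E (A := Ω)
    have h3 : Algebra.trdeg E Ω = 0 := trdeg_eq_zero (R := E) (A := Ω)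
    rw [← h2, h3, add_zero]
  have hch : CharP Ω p := charP_of_injective_algebraMap (algebraMap k Ω).injective p
  by_cases hn' : n ≤ r + 1
  · refine lus_of_defL p h.triv hE ?_ (TWM.defL_of_full h hfull (by
      rw [htr]
      exact_mod_cast hn'))
    obtain ⟨g, hg0, hg⟩ : ∃ g : Ω, g ≠ 0 ∧ 0 < v g := by
      obtain ⟨X, hX0, hXi, -⟩ := h.rank
      have h1 := hXi.ne_zero ⟨0, hr⟩
      rcases lt_or_gt_of_ne h1 with h2 | h2
      · refine ⟨(X ⟨0, hr⟩)⁻¹, inv_ne_zero (hX0 _), ?_⟩
        rw [v.map_inv (hX0 _)]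
        linarith
      · exact ⟨X ⟨0, hr⟩, hX0 _, h2⟩
    obtain ⟨m, hm, c, hc, hc0, hcv⟩ := hfull g hg0
    exact ⟨c, hc, hc0, by rw [hcv]; positivity⟩
  · have hn2 : n = r + 2 := by omega
    subst hn2
    exact TWJ.lus_two p h hE hΩ htr

/-- The real valuations with residue field `k` and defect at most two are log uniformizable. -/
theorem realCls_twoAll (p : ℕ) [Fact p.Prime] (k : Type u) [Field k] [IsAlgClosed k] [CharP k p] :
    RealCls (TwoCls k) :=
  realCls_two fun _ _ _ _ _ _ _ hctx hr hn _ hE hΩ => lus_twoR p hctx hr hn hE hΩ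

end Pool.Agent.TW
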