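import Pool.Agent.Lib.TW.Exit

/-!
# TANK W: final statements for the valuations whose components have defect at most one, or residue
field `k` (and defect at most two), or small dimension
-/

set_option autoImplicit false

namespace Pool.Agent.TW

open Pool.Agent.LU2 Pool.Agent.LU2G Pool.Agent.LU2H

universe u

/-- Defect at most one, or in the class `C₀`, or small dimension. -/
def StdCls (p : ℕ) {k : Type u} [Field k] (C₀ : Cls k) : Cls k := fun K _ _ V =>
  DefLE k V 1 ∨ C₀ K V ∨ ∃ m : ℕ, Algebra.trdeg k K = m ∧ ALLF.dimBound m < p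

theorem StdCls.sub (p : ℕ) {k : Type u} [Field k] {C₀ : Cls k} (h₀ : C₀.Sub) :
    (StdCls p C₀).Sub := by
  rintro K _ _ V hk hfin (h | h | ⟨m, hm, hp⟩) L
  · exact Or.inl (DefLE.comap' hk hfin L h)
  · exact Or.inr (Or.inl (h₀ K V hk hfin h L))
  · have hLle : Algebra.trdeg k L ≤ Algebra.trdeg k K :=
      _root_.trdeg_le_of_injective L.val L.val.injective
    obtain ⟨m', hm'⟩ := Cardinal.lt_aleph0.1 (hLle.trans_lt hfin)
    have hmm : m' ≤ m := by
      rw [hm, hm'] at hLle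
      exact_mod_cast hLle
    exact Or.inr (Or.inr ⟨m', hm', (ALLF.dimBound_mono hmm).trans_lt hp⟩)

theorem realCls_std (p : ℕ) {k : Type u} [Field k] {C₀ : Cls k} (h1 : RealCaseR k)
    (h2 : RealCls C₀) (h3 : ALLF.RealCaseFull ALLF.dimBound p k) : RealCls (StdCls p C₀) := by
  rintro K _ _ hK V hk hV (h | h | ⟨m, hm, hp⟩)
  · exact h1 K hK V hk hV h
  · exact h2 K hK V hk hV h
  · exact h3 K hK V hk hV m hm hp

/-- The residue field of a zero-dimensional component. -/
theorem zero_res {k K : Type} [Field k] [IsAlgClosed k] [Field K] [Algebra k K]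
    {V V₁ : ValuationSubring K} (hle : V ≤ V₁) (hk : ∀ c : k, algebraMap k K c ∈ V)
    (hk₁ : ∀ c : k, algebraMap k K c ∈ V₁) (h0 : resDegree (algebraMap k K) V hk = 0) :
    @ZeroCls k _ (IsLocalRing.ResidueField V₁) _ (((IsLocalRing.residue V₁).comp
      ((algebraMap k K).codRestrict V₁ hk₁)).toAlgebra) (imgV hle) := by
  let alg : Algebra k (IsLocalRing.ResidueField V₁) :=
    ((IsLocalRing.residue V₁).comp ((algebraMap k K).codRestrict V₁ hk₁)).toAlgebra
  have hres : IsRes (k := k) V V₁ (IsLocalRing.residue V₁) (imgV hle) :=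
    isRes_residue hle hk hk₁
  intro f hf
  obtain ⟨y, rfl⟩ := hres.surj f
  rw [hres.mem] at hf
  obtain ⟨c, hc⟩ := D2.exists_const_of_resDegree hk h0 hf
  refine ⟨c, ?_⟩
  have h1 : @algebraMap k (IsLocalRing.ResidueField V₁) _ _ alg c =
    IsLocalRing.residue V₁ ⟨algebraMap k K c, hk₁ c⟩ := rfl
  rw [h1, ← map_sub, hres.val_lt_iff]
  exact hc

theorem zero_defLE {k K : Type} [Field k] [IsAlgClosed k] [Field K] [Algebra k K]
    {V V₁ : ValuationSubring K} (hle : V ≤ V₁) (hk : ∀ c : k, algebraMap k K c ∈ V)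
    (hk₁ : ∀ c : k, algebraMap k K c ∈ V₁) (h0 : resDegree (algebraMap k K) V hk = 0)
    (hfin : resDegree (algebraMap k K) V₁ hk₁ < Cardinal.aleph0)
    (h2 : resDegree (algebraMap k K) V₁ hk₁ ≤ compRank V V₁ + 2) :
    @DefLE k (IsLocalRing.ResidueField V₁) _ _ (((IsLocalRing.residue V₁).comp
      ((algebraMap k K).codRestrict V₁ hk₁)).toAlgebra) (imgV hle) 2 := by
  let alg : Algebra k (IsLocalRing.ResidueField V₁) :=
    ((IsLocalRing.residue V₁).comp ((algebraMap k K).codRestrict V₁ hk₁)).toAlgebra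
  have hres : IsRes (k := k) V V₁ (IsLocalRing.residue V₁) (imgV hle) :=
    isRes_residue hle hk hk₁
  have h' : Algebra.trdeg k (IsLocalRing.ResidueField V₁) ≤
      compRank V V₁ + resDegree (algebraMap k K) V hk + ((2 : ℕ) : Cardinal) := by
    rw [h0, add_zero, Nat.cast_ofNat]
    exact h2
  obtain ⟨r, d, hr, hd, hT⟩ := exists_nat_split hfin h'
  obtain ⟨x, hx1, hx⟩ := exists_units V V₁ hr
  obtain ⟨z, hz⟩ := exists_indRes' V hk hd
  refine ⟨r, d, hT, ?_, ?_⟩
  · have hxm : ∀ i, x i ∈ V₁ := fun i => (V₁.valuation_le_one_iff _).1 (hx1 i).le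
    exact ⟨_, hres.indVal₂ (y := fun i => ⟨x i, hxm i⟩) hx1 hx⟩
  · exact ⟨_, hres.indRes₂ (fun i => ⟨z i, hle (hz.1 i)⟩) hz⟩

/-- The rank one components of `V` have small dimension, or defect at most one, or satisfy `Q`. -/
def StdComponents (p : ℕ) {k K : Type} [Field k] [Field K] (ι : k →+* K)
    (V : ValuationSubring K)
    (Q : ∀ V₁ V₂ : ValuationSubring K, (∀ a, ι a ∈ V₁) → (∀ a, ι a ∈ V₂) → Prop) : Prop :=
  ∀ V₁ V₂ : ValuationSubring K, V ≤ V₁ → V₁ ⋖ V₂ →
    ∃ (h₁ : ∀ a, ι a ∈ V₁) (h₂ : ∀ a, ι a ∈ V₂),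
      (∃ d : ℕ, resDegree ι V₂ h₂ = d ∧ (d + 1) * 2 ^ (3 * d - 1) * d.factorial ^ 2 < p) ∨
      resDegree ι V₂ h₂ ≤ resDegree ι V₁ h₁ + compRank V₁ V₂ + 1 ∨ Q V₁ V₂ h₁ h₂

theorem StdComponents.allCompC {p : ℕ} {k K : Type} [Field k] [IsAlgClosed k] [Field K]
    [Algebra k K] (hfin : Algebra.trdeg k K < Cardinal.aleph0) {V : ValuationSubring K}
    {Q : ∀ V₁ V₂ : ValuationSubring K, (∀ a : k, algebraMap k K a ∈ V₁) →
      (∀ a : k, algebraMap k K a ∈ V₂) → Prop}
    {C₀ : Cls k}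
    (hQ : ∀ (V₁ V₂ : ValuationSubring K) (hle : V₁ ≤ V₂) (h₁ : ∀ a : k, algebraMap k K a ∈ V₁)
      (h₂ : ∀ a : k, algebraMap k K a ∈ V₂), Q V₁ V₂ h₁ h₂ →
      resDegree (algebraMap k K) V₂ h₂ < Cardinal.aleph0 →
      @C₀ (IsLocalRing.ResidueField V₂) _ (((IsLocalRing.residue V₂).comp
        ((algebraMap k K).codRestrict V₂ h₂)).toAlgebra) (imgV hle))
    (h : StdComponents p (algebraMap k K) V Q) : AllCompC (StdCls p C₀) V := by
  intro V₁ V₂ hV₁ hc
  obtain ⟨hk₁, hk₂, hd⟩ := h V₁ V₂ hV₁ hc.covBy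
  have hle := hc.1.le
  obtain ⟨n, hn⟩ := Cardinal.lt_aleph0.1 hfin
  obtain ⟨m, hm, -⟩ := ALLF.exists_trdeg_residue hn hle hk₁ hk₂
  have hfin₂ : resDegree (algebraMap k K) V₂ hk₂ < Cardinal.aleph0 := by
    rw [hm]
    exact Cardinal.natCast_lt_aleph0
  rcases hd with ⟨d, hd, hp⟩ | hd | hd
  · exact compC_of hle hk₁ hk₂ hfin₂ (Or.inr (Or.inr ⟨d, hd, hp⟩))
  · obtain ⟨K₁, i1, i2, φ, W, hW, hD⟩ := compLE_of hfin hle hk₁ hk₂ hd
    refine ⟨K₁, i1, i2, φ, W, hW, ?_, Or.inl hD⟩
    obtain ⟨n₁, hn₁, -⟩ := hW.trdeg_le hn (x := (Fin.elim0 : Fin 0 → K))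
      ⟨fun i => i.elim0, fun e _ => Subsingleton.elim _ _⟩
    rw [hn₁]
    exact Cardinal.natCast_lt_aleph0
  · exact compC_of hle hk₁ hk₂ hfin₂ (Or.inr (Or.inl (hQ V₁ V₂ hle hk₁ hk₂ hd hfin₂)))

/-- The exit for a class of zero-dimensional real valuations (every characteristic `p > 0`). -/
theorem logUniformizable_std (p : ℕ) [Fact p.Prime] (k : Type) [Field k] [IsAlgClosed k]
    [CharP k p] {C₀ : Cls k} (h₀ : C₀.Sub) (hreal : RealCls C₀)
    (A : Type) [CommRing A] [IsDomain A] [Algebra k A] [Algebra.EssFiniteType k A]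
    (V : ValuationSubring (FractionRing A)) (hV : ∀ a : A, algebraMap A (FractionRing A) a ∈ V)
    (F : IntermediateField k (FractionRing A)) (hF : F.FG)
    (hdense : ∀ a b : FractionRing A, b ≠ 0 → ∃ c ∈ F, V.valuation (a - c) < V.valuation b)
    (s : Finset (FractionRing A)) (hs : AlgebraicIndependent F (Subtype.val : s → FractionRing A))
    (hsep : Algebra.IsSeparable (IntermediateField.adjoin F (s : Set (FractionRing A)))
      (FractionRing A))
    {Q : ∀ V₁ V₂ : ValuationSubring F, (∀ a : k, algebraMap k F a ∈ V₁) →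
      (∀ a : k, algebraMap k F a ∈ V₂) → Prop}
    (hQ : ∀ (V₁ V₂ : ValuationSubring F) (hle : V₁ ≤ V₂) (h₁ : ∀ a : k, algebraMap k F a ∈ V₁)
      (h₂ : ∀ a : k, algebraMap k F a ∈ V₂), Q V₁ V₂ h₁ h₂ →
      resDegree (algebraMap k F) V₂ h₂ < Cardinal.aleph0 →
      @C₀ (IsLocalRing.ResidueField V₂) _ (((IsLocalRing.residue V₂).comp
        ((algebraMap k F).codRestrict V₂ h₂)).toAlgebra) (imgV hle))
    (hdef : StdComponents p (algebraMap k F) (V.comap (algebraMap F (FractionRing A))) Q) :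
    LogUniformizable V := by
  have hFtop : (⊤ : IntermediateField k F).FG := by
    rw [← IntermediateField.essFiniteType_iff] at hF
    rw [IntermediateField.fg_top_iff]
    exact hF
  have h3 : Algebra.EssFiniteType k F := IntermediateField.fg_top_iff.1 hFtop
  exact logUniformizable_denseC k (StdCls.sub p h₀)
    (realCls_std p (Pool.Agent.LU2.realCaseR p Fact.out) hreal (ALLF.realCaseFull_large p k))
    A V hV F hF hdense s hs hsep
    (hdef.allCompC (_root_.trdeg_lt_aleph0 k F) hQ)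

/-- The condition on the rank one components of the valuation ring `V` of `K`, over `k`: if
`V ⊆ V₁ ⊂ V₂` are valuation rings with nothing between `V₁` and `V₂`, and `d` is the transcendence
degree over `k` of the residue field of `V₂` (the dimension of the component), then
`(d + 1) * 2 ^ (3 * d - 1) * (d!) ^ 2 < p`, or `d` is at most the sum of the transcendence degree
of the residue field of `V₁`, of the rational rank of the value group `V₂ˣ / V₁ˣ`, and of one, or
the residue field of `V₁` is algebraic over `k` and `d` is at most the rational rank of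
`V₂ˣ / V₁ˣ` plus two. -/
def TwoComponents (p : ℕ) {k K : Type} [Field k] [Field K] (ι : k →+* K)
    (V : ValuationSubring K) : Prop :=
  ∀ V₁ V₂ : ValuationSubring K, V ≤ V₁ → V₁ ⋖ V₂ →
    ∃ (h₁ : ∀ a, ι a ∈ V₁) (h₂ : ∀ a, ι a ∈ V₂),
      (∃ d : ℕ, resDegree ι V₂ h₂ = d ∧ (d + 1) * 2 ^ (3 * d - 1) * d.factorial ^ 2 < p) ∨
      resDegree ι V₂ h₂ ≤ resDegree ι V₁ h₁ + compRank V₁ V₂ + 1 ∨
      (resDegree ι V₁ h₁ = 0 ∧ resDegree ι V₂ h₂ ≤ compRank V₁ V₂ + 2)

/-- The same with components of arbitrary defect whose residue field is algebraic over `k`. -/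
def ZeroComponents (p : ℕ) {k K : Type} [Field k] [Field K] (ι : k →+* K)
    (V : ValuationSubring K) : Prop :=
  ∀ V₁ V₂ : ValuationSubring K, V ≤ V₁ → V₁ ⋖ V₂ →
    ∃ (h₁ : ∀ a, ι a ∈ V₁) (h₂ : ∀ a, ι a ∈ V₂),
      (∃ d : ℕ, resDegree ι V₂ h₂ = d ∧ (d + 1) * 2 ^ (3 * d - 1) * d.factorial ^ 2 < p) ∨
      resDegree ι V₂ h₂ ≤ resDegree ι V₁ h₁ + compRank V₁ V₂ + 1 ∨ resDegree ι V₁ h₁ = 0

/-- The exit for defect two. -/
theorem logUniformizable_two (p : ℕ) [Fact p.Prime] (k : Type) [Field k] [IsAlgClosed k]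
    [CharP k p] (hreal : RealCls (TwoCls k))
    (A : Type) [CommRing A] [IsDomain A] [Algebra k A] [Algebra.EssFiniteType k A]
    (V : ValuationSubring (FractionRing A)) (hV : ∀ a : A, algebraMap A (FractionRing A) a ∈ V)
    (F : IntermediateField k (FractionRing A)) (hF : F.FG)
    (hdense : ∀ a b : FractionRing A, b ≠ 0 → ∃ c ∈ F, V.valuation (a - c) < V.valuation b)
    (s : Finset (FractionRing A)) (hs : AlgebraicIndependent F (Subtype.val : s → FractionRing A))
    (hsep : Algebra.IsSeparable (IntermediateField.adjoin F (s : Set (FractionRing A)))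
      (FractionRing A))
    (hdef : TwoComponents p (algebraMap k F) (V.comap (algebraMap F (FractionRing A)))) :
    LogUniformizable V :=
  logUniformizable_std p k (TwoCls.sub k) hreal A V hV F hF hdense s hs hsep
    (Q := fun V₁ V₂ h₁ h₂ => resDegree (algebraMap k F) V₁ h₁ = 0 ∧
      resDegree (algebraMap k F) V₂ h₂ ≤ compRank V₁ V₂ + 2)
    (fun _ _ hle h₁ h₂ hQ hfin => ⟨zero_res hle h₁ h₂ hQ.1, zero_defLE hle h₁ h₂ hQ.1 hfin hQ.2⟩)
    hdef

/-- The exit for the zero-dimensional components of any defect. -/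
theorem logUniformizable_zero (p : ℕ) [Fact p.Prime] (k : Type) [Field k] [IsAlgClosed k]
    [CharP k p] (hreal : RealCls (ZeroCls k))
    (A : Type) [CommRing A] [IsDomain A] [Algebra k A] [Algebra.EssFiniteType k A]
    (V : ValuationSubring (FractionRing A)) (hV : ∀ a : A, algebraMap A (FractionRing A) a ∈ V)
    (F : IntermediateField k (FractionRing A)) (hF : F.FG)
    (hdense : ∀ a b : FractionRing A, b ≠ 0 → ∃ c ∈ F, V.valuation (a - c) < V.valuation b)
    (s : Finset (FractionRing A)) (hs : AlgebraicIndependent F (Subtype.val : s → FractionRing A))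
    (hsep : Algebra.IsSeparable (IntermediateField.adjoin F (s : Set (FractionRing A)))
      (FractionRing A))
    (hdef : ZeroComponents p (algebraMap k F) (V.comap (algebraMap F (FractionRing A)))) :
    LogUniformizable V :=
  logUniformizable_std p k (ZeroCls.sub k) hreal A V hV F hF hdense s hs hsep
    (Q := fun V₁ _ h₁ _ => resDegree (algebraMap k F) V₁ h₁ = 0)
    (fun _ _ hle h₁ h₂ hQ _ => zero_res hle h₁ h₂ hQ) hdef

end Pool.Agent.TW
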