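import Pool.Agent.Lib.TW.DenseC
import Pool.Agent.Lib.TW.TopM2
import Pool.Agent.Lib.TW.TopZ
import Pool.Agent.Lib.TWM.S9d

/-!
# TANK W: the exit for defect two with finitely generated value group or small dimension, together
with a further class `C₁`
-/

set_option autoImplicit false

open AlgebraicGeometry CategoryTheory

namespace Pool.Agent.TW

open Pool.Agent.LU2 Pool.Agent.LU2G Pool.Agent.LU2H
open Pool.Agent.D2 (realCase2 main2)

universe u

/-- Residue field `k`, Abhyankar defect at most two, and a finitely generated value group or a small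
dimension. -/
def TwoS (p : ℕ) (k : Type u) [Field k] : Cls k := fun K _ _ V =>
  (∀ f ∈ V, ∃ c : k, V.valuation (f - algebraMap k K c) < 1) ∧ DefLE k V 2 ∧
    (AddGroup.FG (VGrp V) ∨ ∃ m : ℕ, Algebra.trdeg k K = m ∧ 2 ^ m * m.factorial < p)

theorem TwoS.sub (p : ℕ) (k : Type u) [Field k] : (TwoS p k).Sub := by
  rintro K _ _ V hk hfin ⟨h0, hD, h⟩ L
  refine ⟨ZeroCls.sub k K V hk hfin h0 L, DefLE.comap' hk hfin L hD, ?_⟩
  rcases h with hfg | ⟨m, hm, hp⟩
  · exact Or.inl (VGrp.fg_comap V hfg)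
  · have hLle : Algebra.trdeg k L ≤ Algebra.trdeg k K :=
      _root_.trdeg_le_of_injective L.val L.val.injective
    obtain ⟨m', hm'⟩ := Cardinal.lt_aleph0.1 (hLle.trans_lt hfin)
    have hmm : m' ≤ m := by
      rw [hm, hm'] at hLle
      exact_mod_cast hLle
    refine Or.inr ⟨m', hm', lt_of_le_of_lt ?_ hp⟩
    exact Nat.mul_le_mul (Nat.pow_le_pow_right (by norm_num) hmm) (Nat.factorial_le hmm)

theorem realCls_twoS (p : ℕ) [Fact p.Prime] (k : Type u) [Field k] [IsAlgClosed k] [CharP k p] :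
    RealCls (TwoS p k) := by
  rintro K _ _ hK V hk hR ⟨h0, hD, h⟩
  rcases h with hfg | ⟨m, hm, hp⟩
  · exact TWM.realCls_M2FG p k K hK V hk hR ⟨h0, hD, hfg⟩
  · exact realCase2 p Fact.out k (main2 p Fact.out k) K hK V hk hR h0 m hm hp hD

/-- The union of two classes. -/
def Cls.union {k : Type u} [Field k] (C C' : Cls k) : Cls k := fun K _ _ V => C K V ∨ C' K V

theorem Cls.Sub.union {k : Type u} [Field k] {C C' : Cls k} (h : C.Sub) (h' : C'.Sub) :
    (C.union C').Sub := by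
  rintro K _ _ V hk hfin (h1 | h1) L
  · exact Or.inl (h K V hk hfin h1 L)
  · exact Or.inr (h' K V hk hfin h1 L)

theorem RealCls.union {k : Type u} [Field k] {C C' : Cls k} (h : RealCls C) (h' : RealCls C') :
    RealCls (C.union C') := by
  rintro K _ _ hK V hk hR (h1 | h1)
  · exact h K hK V hk hR h1
  · exact h' K hK V hk hR h1

/-- The class of the components in the final theorem. -/
abbrev FinCls (p : ℕ) {k : Type u} [Field k] (C₁ : Cls k) : Cls k := StdCls p (C₁.union (TwoS p k))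

theorem FinCls.sub (p : ℕ) {k : Type u} [Field k] {C₁ : Cls k} (h : C₁.Sub) :
    (FinCls p C₁).Sub := StdCls.sub p (h.union (TwoS.sub p k))

theorem realCls_fin (p : ℕ) [Fact p.Prime] {k : Type u} [Field k] [IsAlgClosed k] [CharP k p]
    {C₁ : Cls k} (h : RealCls C₁) : RealCls (FinCls p C₁) :=
  realCls_std p (Pool.Agent.LU2.realCaseR p Fact.out) (h.union (realCls_twoS p k))
    (ALLF.realCaseFull_large p k)

/-- A zero-dimensional component of defect at most two, with finitely generated value group or small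
dimension. -/
theorem twoS_of {k K : Type} [Field k] [IsAlgClosed k] [Field K] [Algebra k K] {p : ℕ}
    {V₁ V₂ : ValuationSubring K} (hle : V₁ ≤ V₂) (hk₁ : ∀ c : k, algebraMap k K c ∈ V₁)
    (hk₂ : ∀ c : k, algebraMap k K c ∈ V₂) (h0 : resDegree (algebraMap k K) V₁ hk₁ = 0)
    (h2 : resDegree (algebraMap k K) V₂ hk₂ ≤ compRank V₁ V₂ + 2)
    (h : AddGroup.FG (CompGroup V₁ V₂) ∨ ∃ d : ℕ, resDegree (algebraMap k K) V₂ hk₂ = d ∧
      2 ^ d * d.factorial < p)
    (hfin : resDegree (algebraMap k K) V₂ hk₂ < Cardinal.aleph0) :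
    @TwoS p k _ (IsLocalRing.ResidueField V₂) _ (((IsLocalRing.residue V₂).comp
      ((algebraMap k K).codRestrict V₂ hk₂)).toAlgebra) (imgV hle) := by
  refine ⟨zero_res hle hk₁ hk₂ h0, zero_defLE hle hk₁ hk₂ h0 hfin h2, ?_⟩
  rcases h with hfg | ⟨d, hd, hp⟩
  · exact Or.inl (VGrp.fg_of_compGroup hle hk₁ hk₂ hfg)
  · exact Or.inr ⟨d, hd, hp⟩

/-- The condition on the rank one components, with a further alternative `Q₁`. -/
def FinComponents (p : ℕ) {k K : Type} [Field k] [Field K] (ι : k →+* K)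
    (V : ValuationSubring K)
    (Q₁ : ∀ V₁ V₂ : ValuationSubring K, (∀ a, ι a ∈ V₁) → (∀ a, ι a ∈ V₂) → Prop) : Prop :=
  ∀ V₁ V₂ : ValuationSubring K, V ≤ V₁ → V₁ ⋖ V₂ →
    ∃ (h₁ : ∀ a, ι a ∈ V₁) (h₂ : ∀ a, ι a ∈ V₂),
      (∃ d : ℕ, resDegree ι V₂ h₂ = d ∧ (d + 1) * 2 ^ (3 * d - 1) * d.factorial ^ 2 < p) ∨
      resDegree ι V₂ h₂ ≤ resDegree ι V₁ h₁ + compRank V₁ V₂ + 1 ∨
      Q₁ V₁ V₂ h₁ h₂ ∨ (resDegree ι V₁ h₁ = 0 ∧ resDegree ι V₂ h₂ ≤ compRank V₁ V₂ + 2 ∧
        (AddGroup.FG (CompGroup V₁ V₂) ∨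
          ∃ d : ℕ, resDegree ι V₂ h₂ = d ∧ 2 ^ d * d.factorial < p))

/-- `Q₁` is sufficient for the class `C₁`. -/
def Suff {k K : Type} [Field k] [Field K] [Algebra k K] (C₁ : Cls k)
    (Q₁ : ∀ V₁ V₂ : ValuationSubring K, (∀ a : k, algebraMap k K a ∈ V₁) →
      (∀ a : k, algebraMap k K a ∈ V₂) → Prop) : Prop :=
  ∀ (V₁ V₂ : ValuationSubring K) (hle : V₁ ≤ V₂) (h₁ : ∀ a : k, algebraMap k K a ∈ V₁)
    (h₂ : ∀ a : k, algebraMap k K a ∈ V₂), Q₁ V₁ V₂ h₁ h₂ →
    resDegree (algebraMap k K) V₂ h₂ < Cardinal.aleph0 →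
    @C₁ (IsLocalRing.ResidueField V₂) _ (((IsLocalRing.residue V₂).comp
      ((algebraMap k K).codRestrict V₂ h₂)).toAlgebra) (imgV hle)

theorem FinComponents.allCompC {p : ℕ} {k K : Type} [Field k] [IsAlgClosed k] [Field K]
    [Algebra k K] (hfin : Algebra.trdeg k K < Cardinal.aleph0) {V : ValuationSubring K}
    {Q₁ : ∀ V₁ V₂ : ValuationSubring K, (∀ a : k, algebraMap k K a ∈ V₁) →
      (∀ a : k, algebraMap k K a ∈ V₂) → Prop} {C₁ : Cls k} (hQ : Suff C₁ Q₁)
    (h : FinComponents p (algebraMap k K) V Q₁) : AllCompC (FinCls p C₁) V := by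
  refine StdComponents.allCompC (C₀ := C₁.union (TwoS p k)) hfin
    (Q := fun V₁ V₂ h₁ h₂ => Q₁ V₁ V₂ h₁ h₂ ∨ (resDegree (algebraMap k K) V₁ h₁ = 0 ∧
      resDegree (algebraMap k K) V₂ h₂ ≤ compRank V₁ V₂ + 2 ∧
        (AddGroup.FG (CompGroup V₁ V₂) ∨
          ∃ d : ℕ, resDegree (algebraMap k K) V₂ h₂ = d ∧ 2 ^ d * d.factorial < p))) ?_ h
  rintro V₁ V₂ hle h₁ h₂ (h | ⟨h0, h2, h⟩) hf
  · exact Or.inl (hQ V₁ V₂ hle h₁ h₂ h hf)
  · exact Or.inr (twoS_of hle h₁ h₂ h0 h2 h hf)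

/-- THE FINAL THEOREM for MP_5b7a2c_ag, with a further class. -/
theorem logUniformizable_fin (p : ℕ) [Fact p.Prime] (k : Type) [Field k] [IsAlgClosed k]
    [CharP k p] {C₁ : Cls k} (h₁ : C₁.Sub) (hreal : RealCls C₁)
    (A : Type) [CommRing A] [IsDomain A] [Algebra k A] [Algebra.EssFiniteType k A]
    (V : ValuationSubring (FractionRing A)) (hV : ∀ a : A, algebraMap A (FractionRing A) a ∈ V)
    (F : IntermediateField k (FractionRing A)) (hF : F.FG)
    (hdense : ∀ a b : FractionRing A, b ≠ 0 → ∃ c ∈ F, V.valuation (a - c) < V.valuation b)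
    (hsep : ∃ s : Finset (FractionRing A),
      AlgebraicIndependent F (Subtype.val : s → FractionRing A) ∧
      Algebra.IsSeparable (IntermediateField.adjoin F (s : Set (FractionRing A)))
        (FractionRing A))
    {Q₁ : ∀ V₁ V₂ : ValuationSubring F, (∀ a : k, algebraMap k F a ∈ V₁) →
      (∀ a : k, algebraMap k F a ∈ V₂) → Prop} (hQ : Suff C₁ Q₁)
    (hdef : FinComponents p (algebraMap k F) (V.comap (algebraMap F (FractionRing A))) Q₁) :
    LogUniformizable V := by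
  obtain ⟨s, hs, hsep⟩ := hsep
  have hFtop : (⊤ : IntermediateField k F).FG := by
    rw [← IntermediateField.essFiniteType_iff] at hF
    rw [IntermediateField.fg_top_iff]
    exact hF
  have h3 : Algebra.EssFiniteType k F := IntermediateField.fg_top_iff.1 hFtop
  exact logUniformizable_denseC k (FinCls.sub p h₁) (realCls_fin p hreal)
    A V hV F hF hdense s hs hsep (hdef.allCompC (_root_.trdeg_lt_aleph0 k F) hQ)

/-- The components of a valuation ring with a dense subfield all of whose components satisfy the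
condition are good. -/
theorem allGood_fin (p : ℕ) [Fact p.Prime] {k K : Type} [Field k] [IsAlgClosed k] [CharP k p]
    [Field K] [Algebra k K] {C₁ : Cls k} (h₁ : C₁.Sub) (hreal : RealCls C₁)
    (hK : (⊤ : IntermediateField k K).FG)
    (V : ValuationSubring K) (hkV : ∀ c : k, algebraMap k K c ∈ V) (F : IntermediateField k K)
    (hF : F.FG) (hdense : ∀ a b : K, b ≠ 0 → ∃ c ∈ F, V.valuation (a - c) < V.valuation b)
    (hsep : ∃ s : Finset K, AlgebraicIndependent F (Subtype.val : s → K) ∧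
      Algebra.IsSeparable (IntermediateField.adjoin F (s : Set K)) K)
    {Q₁ : ∀ V₁ V₂ : ValuationSubring F, (∀ a : k, algebraMap k F a ∈ V₁) →
      (∀ a : k, algebraMap k F a ∈ V₂) → Prop} (hQ : Suff C₁ Q₁)
    (hdef : FinComponents p (algebraMap k F) (V.comap (algebraMap F K)) Q₁) : AllGood k V := by
  obtain ⟨s, hs, hsep⟩ := hsep
  have hFtop : (⊤ : IntermediateField k F).FG := by
    rw [← IntermediateField.essFiniteType_iff] at hF
    rw [IntermediateField.fg_top_iff]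
    exact hF
  have h3 : Algebra.EssFiniteType k F := IntermediateField.fg_top_iff.1 hFtop
  exact allGood_of_denseC (FinCls.sub p h₁) (realCls_fin p hreal) hK V hkV F hF hdense s hs hsep
    (hdef.allCompC (_root_.trdeg_lt_aleph0 k F) hQ)

end Pool.Agent.TW
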