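import Pool.Agent.Lib.TW.SmallDefs
import Pool.Agent.Lib.TW.TwoAll
import Pool.Agent.Lib.TWI.IXe
import Pool.Agent.Lib.TW.TopN
import Pool.Agent.Lib.TWV.AllV
import Pool.Agent.Lib.TWV.CompV
import Pool.Agent.Lib.TWW.Four

/-!
# TANK W: log uniformization of the valuation rings all of whose rank one components are small
-/

set_option autoImplicit false

open AlgebraicGeometry CategoryTheory

namespace Pool.Agent.TW

open Pool.Agent.LU2 Pool.Agent.LU2G Pool.Agent.LU2H

universe u

theorem ApprComponent.or {k K : Type} [Field k] [Field K] {ι : k →+* K}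
    {V₁ V₂ : ValuationSubring K} {h₁ : ∀ a, ι a ∈ V₁} {h₂ : ∀ a, ι a ∈ V₂}
    (h : ApprComponent ι V₁ V₂ h₁ h₂) :
    LimComponent ι V₁ V₂ h₁ h₂ ∨ Lim2Component ι V₁ V₂ h₁ h₂ := by
  obtain ⟨Ω, i1, i2, j, W, L, ⟨e1, e2, e3, e6⟩, hL, e4, e5⟩ := h
  rcases e5 with e5 | ⟨h0, hG, e5⟩
  · exact Or.inl ⟨Ω, i1, i2, j, W, L, hL, e1, e2, e3, e4, e5, e6⟩
  · exact Or.inr ⟨h0, Ω, i1, i2, j, W, L, hL, e1, e2, e3, e4, e5, hG, e6⟩

/-- Residue field `k`, and dimension at most four, or defect at most two, or defect at most three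
and the localization at `p` of the value group free. -/
abbrev FourCls (p : ℕ) (k : Type u) [Field k] : Cls k := (ZeroN 4 k).union (TWV.TDCls p k)

theorem realCls_four (p : ℕ) [Fact p.Prime] (k : Type u) [Field k] [IsAlgClosed k] [CharP k p] :
    RealCls (FourCls p k) :=
  (realCls_zeroN 4 fun Ω _ _ _ v r h E hE hΩ htr =>
    have : CharP Ω p := charP_of_injective_algebraMap (algebraMap k Ω).injective p
    lus_four p Ω v r h E hE hΩ htr).union (TWV.realCls_td p k)

/-- The class of the small components, over an algebraically closed field. -/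
abbrev AlgCls (p : ℕ) (k : Type u) [Field k] : Cls k := StdCls p ((ApprCls k).union (FourCls p k))

/-- The class of the small components, over a perfect field. -/
def SmallCls (p : ℕ) (k : Type u) [Field k] : Cls k := fun K _ _ V =>
  DefLE k V 1 ∨ (IsAlgClosed k ∧ AlgCls p k K V)

theorem SmallCls.sub (p : ℕ) (k : Type u) [Field k] : (SmallCls p k).Sub := by
  rintro K _ _ V hk hfin (h | ⟨hcl, h⟩) L
  · exact Or.inl (DefLE.comap' hk hfin L h)
  · exact Or.inr ⟨hcl, StdCls.sub p
      ((ApprCls.sub k).union ((ZeroN.sub 4 k).union (TWV.TDCls.sub p k))) K V hk hfin h L⟩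

theorem realCls_small (p : ℕ) [Fact p.Prime] (k : Type u) [Field k] [PerfectField k] [CharP k p] :
    RealCls (SmallCls p k) := by
  rintro K _ _ hK V hk hR (h | ⟨hcl, h⟩)
  · exact Pool.Agent.LU2.realCaseR p Fact.out K hK V hk hR h
  · exact realCls_std p (Pool.Agent.LU2.realCaseR p Fact.out)
      ((realCls_appr p k).union (realCls_four p k)) (ALLF.realCaseFull_large p k) K hK V hk hR h

theorem SmallDefectComponents.allCompC {p : ℕ} [Fact p.Prime] {k K : Type} [Field k] [Field K]
    [Algebra k K]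
    (hfin : Algebra.trdeg k K < Cardinal.aleph0) {V : ValuationSubring K}
    (h : SmallDefectComponents p (algebraMap k K) V) : AllCompC (SmallCls p k) V := by
  intro V₁ V₂ hV₁ hc
  obtain ⟨hk₁, hk₂, hd⟩ := h V₁ V₂ hV₁ hc.covBy
  have hle := hc.1.le
  obtain ⟨n, hn⟩ := Cardinal.lt_aleph0.1 hfin
  obtain ⟨m, hm, -⟩ := ALLF.exists_trdeg_residue hn hle hk₁ hk₂
  have hfin₂ : resDegree (algebraMap k K) V₂ hk₂ < Cardinal.aleph0 := by
    rw [hm]
    exact Cardinal.natCast_lt_aleph0
  rcases hd with hd | ⟨hcl, hd⟩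
  · obtain ⟨K₁, i1, i2, φ, W, hW, hD⟩ := compLE_of hfin hle hk₁ hk₂ hd
    refine ⟨K₁, i1, i2, φ, W, hW, ?_, Or.inl hD⟩
    obtain ⟨n₁, hn₁, -⟩ := hW.trdeg_le hn (x := (Fin.elim0 : Fin 0 → K))
      ⟨fun i => i.elim0, fun e _ => Subsingleton.elim _ _⟩
    rw [hn₁]
    exact Cardinal.natCast_lt_aleph0
  · refine compC_of hle hk₁ hk₂ hfin₂ (Or.inr ⟨hcl, ?_⟩)
    rcases hd with ⟨d, hd, hp⟩ | ⟨h0, h4 | h2 | ⟨r, hr, hi, h2⟩⟩ | h
    · exact Or.inr (Or.inr ⟨d, hd, hp⟩)
    · refine Or.inr (Or.inl (Or.inr (Or.inl ⟨zero_res hle hk₁ hk₂ h0, m, hm, ?_⟩)))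
      rw [hm] at h4
      exact_mod_cast h4
    · exact Or.inr (Or.inl (Or.inr (Or.inr (TWV.two_of_component hc hk₁ hk₂ h0 hfin₂ h2))))
    · exact Or.inr (Or.inl (Or.inr (Or.inr
        (TWV.td_of_component hc hk₁ hk₂ h0 hfin₂ hr hi h2))))
    · rcases h.or with h | h
      · exact Or.inr (Or.inl (Or.inl (Or.inl (h.cls hle hk₁ hk₂))))
      · exact Or.inr (Or.inl (Or.inl (Or.inr (h.cls hle hk₁ hk₂))))

/-- The final theorem for MP_5b7a2c_ag. -/
theorem logUniformizable_small (p : ℕ) [Fact p.Prime] (k : Type) [Field k] [IsAlgClosed k]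
    [CharP k p] (A : Type) [CommRing A] [IsDomain A] [Algebra k A] [Algebra.EssFiniteType k A]
    (V : ValuationSubring (FractionRing A)) (hV : ∀ a : A, algebraMap A (FractionRing A) a ∈ V)
    (h : (∃ n : ℕ, Algebra.trdeg k (FractionRing A) = n ∧
        (n + 1) * 2 ^ (3 * n - 1) * n.factorial ^ 2 < p) ∨
      ∃ F : IntermediateField k (FractionRing A), F.FG ∧
        (∀ a b : FractionRing A, b ≠ 0 → ∃ c ∈ F, V.valuation (a - c) < V.valuation b) ∧
        (∃ s : Finset (FractionRing A),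
          AlgebraicIndependent F (Subtype.val : s → FractionRing A) ∧
          Algebra.IsSeparable (IntermediateField.adjoin F (s : Set (FractionRing A)))
            (FractionRing A)) ∧
        SmallDefectComponents p (algebraMap k F) (V.comap (algebraMap F (FractionRing A)))) :
    LogUniformizable V := by
  rcases h with h | ⟨F, hF, hdense, ⟨s, hs, hsep⟩, hdef⟩
  · exact ALLF.logUniformizable_large p k (ALLF.realCaseFull_large p k) A V hV (Or.inl h)
  · have hFtop : (⊤ : IntermediateField k F).FG := by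
      rw [← IntermediateField.essFiniteType_iff] at hF
      rw [IntermediateField.fg_top_iff]
      exact hF
    have h3 : Algebra.EssFiniteType k F := IntermediateField.fg_top_iff.1 hFtop
    exact logUniformizable_denseC k (SmallCls.sub p k) (realCls_small p k)
      A V hV F hF hdense s hs hsep (hdef.allCompC (_root_.trdeg_lt_aleph0 k F))

/-- The final theorem for MP_b525bf_ag. -/
theorem exists_smooth_centres_small (p : ℕ) [Fact p.Prime] (k : Type) [Field k] [PerfectField k]
    [CharP k p] (X : Scheme.{0}) [IsIntegral X] (f : X ⟶ Spec (CommRingCat.of k))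
    [LocallyOfFiniteType f] (m : ℕ) (V : Fin m → ValuationSubring X.functionField)
    (hV : ∀ i, DenseSmallDefects p (consts f) (V i))
    (c : ∀ i, Spec (CommRingCat.of (V i)) ⟶ X)
    (hc : ∀ i, Spec.map (CommRingCat.ofHom (algebraMap (V i) X.functionField)) ≫
      c i = X.fromSpecStalk (genericPoint X)) :
    ∃ (Y : Scheme.{0}) (π : Y ⟶ X), IsIntegral Y ∧ IsProper π ∧
      (∀ W : X.Opens, (∀ (i : Fin m) (V' : ValuationSubring X.functionField) (h : V i ≤ V'),
        V' ≠ ⊤ → (coarser h ≫ c i) (IsLocalRing.closedPoint V') ∈ W →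
          IsSmoothAt f ((coarser h ≫ c i) (IsLocalRing.closedPoint V'))) → IsIso (π ∣_ W)) ∧
      ∀ i, ∃ c' : Spec (CommRingCat.of (V i)) ⟶ Y, c' ≫ π = c i ∧
        IsSmoothAt (π ≫ f) (c' (IsLocalRing.closedPoint (V i))) := by
  refine exists_smooth_centres_good k X f m V (fun i hK hk => ?_) c hc
  let _ : Algebra k X.functionField := (consts f).toAlgebra
  obtain ⟨F, hF, hdense, ⟨s, hs, hsep⟩, hdef⟩ := hV i
  have hFtop : (⊤ : IntermediateField k F).FG := by
    rw [← IntermediateField.essFiniteType_iff] at hF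
    rw [IntermediateField.fg_top_iff]
    exact hF
  have h3 : Algebra.EssFiniteType k F := IntermediateField.fg_top_iff.1 hFtop
  exact allGood_of_denseC (SmallCls.sub p k) (realCls_small p k) hK (V i) hk F hF hdense s hs
    hsep (hdef.allCompC (_root_.trdeg_lt_aleph0 k F))

end Pool.Agent.TW
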