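import Pool.Agent.Lib.TWV.IndexDefs

/-!
# Valuation rings all of whose rank one components are small
-/

set_option autoImplicit false

namespace Pool.Agent.TW

open Pool.Agent.LU2G

/-- The valuation ring `U` of the extension `L` of `k`, of finite transcendence degree, contains `k`
and, if `h` is the sum of the transcendence degree over `k` of the residue field of `U` and of the
rational rank of the value group of `U`,
* the transcendence degree of `L` is at most `h + 1`; or
* `z` holds, the value group of `U` is finitely generated and the transcendence degree of `L` is at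
most `h + 2`. -/
def SmallDefect (k : Type) {L : Type} [Field k] [Field L] [Algebra k L] (U : ValuationSubring L)
    (z : Prop) : Prop :=
  ∃ hU : ∀ a : k, algebraMap k L a ∈ U, Algebra.trdeg k L < Cardinal.aleph0 ∧
    (Algebra.trdeg k L ≤ resDegree (algebraMap k L) U hU + compRank U ⊤ + 1 ∨
      (z ∧ AddGroup.FG (CompGroup U ⊤) ∧
        Algebra.trdeg k L ≤ resDegree (algebraMap k L) U hU + compRank U ⊤ + 2))

/-- The valuation ring `W` of the extension `Ω` of `k` has rank one and induces `V₁`, for the
embedding `j` over `k` of the residue field of `V₂` in `Ω`, and all elements of this residue field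
are limits, for `W`, of elements of `L`. -/
def Approximates {k K Ω : Type} [Field k] [Field K] [Field Ω] [Algebra k Ω] (ι : k →+* K)
    (V₁ V₂ : ValuationSubring K) (h₂ : ∀ a, ι a ∈ V₂) (j : IsLocalRing.ResidueField V₂ →+* Ω)
    (W : ValuationSubring Ω) (L : IntermediateField k Ω) : Prop :=
  (∀ a : k, j (IsLocalRing.residue V₂ ⟨ι a, h₂ a⟩) = algebraMap k Ω a) ∧
    (∀ f : V₂, j (IsLocalRing.residue V₂ f) ∈ W ↔ (f : K) ∈ V₁) ∧ W ⋖ ⊤ ∧
    ∀ (f : IsLocalRing.ResidueField V₂) (g : Ω), g ≠ 0 →
      ∃ α ∈ L, W.valuation (j f - α) < W.valuation g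

/-- The component between the valuation rings `V₁ ⊂ V₂` of `K` is approximable: for some field `Ω`
over `k` which contains the residue field of `V₂`, some valuation ring `W` of rank one of `Ω` which
induces `V₁`, and some subfield `L` of `Ω` over `k`, all elements of the residue field of `V₂` are
limits, for `W`, of elements of `L`, and the valuation ring `W ∩ L` of `L` has defect at most one;
or, if the residue field of `V₁` is algebraic over `k`, a finitely generated value group and defect
at most two. -/
def ApprComponent {k K : Type} [Field k] [Field K] (ι : k →+* K) (V₁ V₂ : ValuationSubring K)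
    (h₁ : ∀ a, ι a ∈ V₁) (h₂ : ∀ a, ι a ∈ V₂) : Prop :=
  ∃ (Ω : Type) (_ : Field Ω) (_ : Algebra k Ω) (j : IsLocalRing.ResidueField V₂ →+* Ω)
    (W : ValuationSubring Ω) (L : IntermediateField k Ω),
    Approximates ι V₁ V₂ h₂ j W L ∧
      SmallDefect k (W.comap (algebraMap L Ω)) (resDegree ι V₁ h₁ = 0)

/-- All rank one components of the valuation ring `V` of `K` are small, over `k`. If `V ⊆ V₁ ⊂ V₂`
are valuation rings with nothing between `V₁` and `V₂`, let `d` and `q` be the transcendence degrees
over `k` of the residue fields of `V₂` and `V₁`, and `r` the rational rank of the value group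
`V₂ˣ / V₁ˣ` of the component. The component is small if `d ≤ q + r + 1`, or if `k` is algebraically
closed and one of the following conditions holds:
* `(d + 1) * 2 ^ (3 * d - 1) * (d!) ^ 2 < p`;
* `q = 0`, and `d ≤ 4`, or `d ≤ r + 2`, or `d ≤ r + 3` and `[Γ : p Γ] = p ^ r`, where `Γ` is the
  value group `V₂ˣ / V₁ˣ`, written additively;
* it is approximable: see `ApprComponent`. -/
def SmallDefectComponents (p : ℕ) {k K : Type} [Field k] [Field K] (ι : k →+* K)
    (V : ValuationSubring K) : Prop :=
  ∀ V₁ V₂ : ValuationSubring K, V ≤ V₁ → V₁ ⋖ V₂ →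
    ∃ (h₁ : ∀ a, ι a ∈ V₁) (h₂ : ∀ a, ι a ∈ V₂),
      resDegree ι V₂ h₂ ≤ resDegree ι V₁ h₁ + compRank V₁ V₂ + 1 ∨
      (IsAlgClosed k ∧
        ((∃ d : ℕ, resDegree ι V₂ h₂ = d ∧ (d + 1) * 2 ^ (3 * d - 1) * d.factorial ^ 2 < p) ∨
          (resDegree ι V₁ h₁ = 0 ∧
            (resDegree ι V₂ h₂ ≤ 4 ∨ resDegree ι V₂ h₂ ≤ compRank V₁ V₂ + 2 ∨
              ∃ r : ℕ, compRank V₁ V₂ = r ∧ compIndex p V₁ V₂ = p ^ r ∧
                resDegree ι V₂ h₂ ≤ r + 3)) ∨
          ApprComponent ι V₁ V₂ h₁ h₂))

/-- `K` contains a finitely generated extension `F` of `k`, dense in `K` for the topology defined by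
`V`, such that `K` is separably generated over `F` and all rank one components of the valuation
ring `V ∩ F` of `F` are small. -/
def DenseSmallDefects (p : ℕ) {k K : Type} [Field k] [Field K] (ι : k →+* K)
    (V : ValuationSubring K) : Prop :=
  letI : Algebra k K := ι.toAlgebra
  ∃ F : IntermediateField k K, F.FG ∧
    (∀ a b : K, b ≠ 0 → ∃ c ∈ F, V.valuation (a - c) < V.valuation b) ∧
    (∃ s : Finset K, AlgebraicIndependent F (Subtype.val : s → K) ∧
      Algebra.IsSeparable (IntermediateField.adjoin F (s : Set K)) K) ∧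
    SmallDefectComponents p (algebraMap k F) (V.comap (algebraMap F K))

end Pool.Agent.TW
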