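import Pool.Agent.Lib.TW.P1
import Pool.Agent.Lib.TW.P2a

/-!
# TANK W, SURF (first part): the ring `H[1/x]`, changes of `p`-bases, frames of `F.K`
-/

set_option autoImplicit false

open Polynomial

namespace Pool.Agent.TW

open Pool.Agent.H15JM (RVal)
open Pool.Agent.LU1 (VPos adj)
open Pool.Agent.LUC (Cl clF lv)
open Pool.Agent.D2 (Ctx0)
open Pool.Agent.D2P (hen rootF)

universe u

namespace Surf

variable {k Ω : Type u} [Field k] [Field Ω] [Algebra k Ω] {v : RVal Ω} {r D : ℕ}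

/-! ### Combinations of `p`-th powers with coefficients in a ring -/

section PCS

variable (p : ℕ) [Fact p.Prime] [CharP Ω p] {n : ℕ}

theorem pcomb_single (t : Fin n → Ω) (α : Fin n → Fin p) (c : Ω) :
    pcomb t (Pi.single α c) = c ^ p * mon t α := by
  classical
  unfold pcomb
  rw [Finset.sum_eq_single α]
  · rw [Pi.single_eq_same]
  · intro β _ hβ
    rw [Pi.single_eq_of_ne hβ, zero_pow (Fact.out (p := p.Prime)).ne_zero, zero_mul]
  · intro hα
    exact absurd (Finset.mem_univ α) hα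

theorem pcomb_add (t : Fin n → Ω) (c d : (Fin n → Fin p) → Ω) :
    pcomb t (c + d) = pcomb t c + pcomb t d := by
  unfold pcomb
  rw [← Finset.sum_add_distrib]
  refine Finset.sum_congr rfl fun α _ => ?_
  rw [Pi.add_apply, add_pow_char, add_mul]

theorem exists_mon_mul {t : Fin n → Ω} (α β : Fin n → Fin p) :
    ∃ (γ : Fin n → Fin p) (e : Fin n → ℕ), mon t α * mon t β = (∏ i, t i ^ e i) ^ p * mon t γ := by
  refine ⟨fun i => ⟨(α i + β i : ℕ) % p, Nat.mod_lt _ (Fact.out (p := p.Prime)).pos⟩,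
    fun i => (α i + β i : ℕ) / p, ?_⟩
  unfold mon
  rw [← Finset.prod_mul_distrib, ← Finset.prod_pow, ← Finset.prod_mul_distrib]
  refine Finset.prod_congr rfl fun i _ => ?_
  rw [← pow_add, ← pow_mul, ← pow_add]
  congr 1
  have := Nat.div_add_mod (α i + β i : ℕ) p
  simp only
  rw [mul_comm]
  exact this.symm

/-- The combinations `∑ c_α^p t^α` with coefficients in the ring `R`. -/
def PCS (R : Subring Ω) (t : Fin n → Ω) (ht : ∀ i, t i ∈ R) : Subring Ω where
  carrier := {f | ∃ c : (Fin n → Fin p) → Ω, (∀ α, c α ∈ R) ∧ f = pcomb t c}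
  mul_mem' := by
    classical
    rintro f g ⟨c, hc, rfl⟩ ⟨d, hd, rfl⟩
    have hadd : ∀ {f g : Ω}, (∃ c : (Fin n → Fin p) → Ω, (∀ α, c α ∈ R) ∧ f = pcomb t c) →
        (∃ c : (Fin n → Fin p) → Ω, (∀ α, c α ∈ R) ∧ g = pcomb t c) →
        ∃ c : (Fin n → Fin p) → Ω, (∀ α, c α ∈ R) ∧ f + g = pcomb t c := by
      rintro _ _ ⟨c, hc, rfl⟩ ⟨d, hd, rfl⟩
      exact ⟨c + d, fun α => add_mem (hc α) (hd α), (pcomb_add p t c d).symm⟩
    have hsum : ∀ (s : Finset ((Fin n → Fin p) × (Fin n → Fin p)))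
        (F : (Fin n → Fin p) × (Fin n → Fin p) → Ω),
        (∀ x ∈ s, ∃ c : (Fin n → Fin p) → Ω, (∀ α, c α ∈ R) ∧ F x = pcomb t c) →
        ∃ c : (Fin n → Fin p) → Ω, (∀ α, c α ∈ R) ∧ ∑ x ∈ s, F x = pcomb t c := by
      intro s F
      induction s using Finset.induction_on with
      | empty =>
        intro _
        refine ⟨0, fun _ => zero_mem _, ?_⟩
        rw [Finset.sum_empty]
        unfold pcomb
        rw [Finset.sum_eq_zero]
        intro α _
        rw [Pi.zero_apply, zero_pow (Fact.out (p := p.Prime)).ne_zero, zero_mul]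
      | insert a s ha ih =>
        intro h
        rw [Finset.sum_insert ha]
        exact hadd (h a (Finset.mem_insert_self a s))
          (ih fun x hx => h x (Finset.mem_insert_of_mem hx))
    have e : pcomb t c * pcomb t d = ∑ x : (Fin n → Fin p) × (Fin n → Fin p),
        (c x.1 ^ p * mon t x.1) * (d x.2 ^ p * mon t x.2) := by
      unfold pcomb
      rw [Finset.sum_mul_sum, ← Finset.sum_product']
      rfl
    rw [Set.mem_ofPred_eq, e]
    refine hsum _ _ fun x _ => ?_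
    obtain ⟨γ, m, hm⟩ := exists_mon_mul p (t := t) x.1 x.2
    refine ⟨Pi.single γ (c x.1 * d x.2 * ∏ i, t i ^ m i), fun α => ?_, ?_⟩
    · by_cases hα : α = γ
      · subst hα
        rw [Pi.single_eq_same]
        exact mul_mem (mul_mem (hc _) (hd _)) (prod_mem fun i _ => pow_mem (ht i) _)
      · rw [Pi.single_eq_of_ne hα]
        exact zero_mem _
    · rw [pcomb_single, mul_pow, mul_pow, mul_assoc (c x.1 ^ p * d x.2 ^ p), ← hm]
      ring
  one_mem' := by
    classical
    refine ⟨Pi.single (fun _ => ⟨0, (Fact.out (p := p.Prime)).pos⟩) 1, fun α => ?_, ?_⟩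
    · by_cases hα : α = fun _ => ⟨0, (Fact.out (p := p.Prime)).pos⟩
      · rw [hα, Pi.single_eq_same]
        exact one_mem _
      · rw [Pi.single_eq_of_ne hα]
        exact zero_mem _
    · rw [pcomb_single]
      simp [mon]
  add_mem' := by
    rintro _ _ ⟨c, hc, rfl⟩ ⟨d, hd, rfl⟩
    exact ⟨c + d, fun α => add_mem (hc α) (hd α), (pcomb_add p t c d).symm⟩
  zero_mem' := by
    refine ⟨0, fun _ => zero_mem _, ?_⟩
    unfold pcomb
    rw [Finset.sum_eq_zero]
    intro α _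
    rw [Pi.zero_apply, zero_pow (Fact.out (p := p.Prime)).ne_zero, zero_mul]
  neg_mem' := by
    rintro _ ⟨c, hc, rfl⟩
    refine ⟨-c, fun α => neg_mem (hc α), ?_⟩
    have h1 := pcomb_add p t c (-c)
    have h2 : pcomb t (c + -c) = 0 := by
      unfold pcomb
      refine Finset.sum_eq_zero fun α _ => ?_
      rw [add_neg_cancel, Pi.zero_apply, zero_pow (Fact.out (p := p.Prime)).ne_zero, zero_mul]
    rw [h2] at h1
    exact (eq_neg_of_add_eq_zero_right h1.symm).symm

variable {p}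

theorem mem_PCS {R : Subring Ω} {t : Fin n → Ω} {ht : ∀ i, t i ∈ R} {f : Ω} :
    f ∈ PCS p R t ht ↔ ∃ c : (Fin n → Fin p) → Ω, (∀ α, c α ∈ R) ∧ f = pcomb t c := Iff.rfl

theorem pow_mem_PCS {R : Subring Ω} {t : Fin n → Ω} {ht : ∀ i, t i ∈ R} {f : Ω} (hf : f ∈ R) :
    f ^ p ∈ PCS p R t ht := by
  classical
  refine ⟨Pi.single (fun _ => ⟨0, (Fact.out (p := p.Prime)).pos⟩) f, fun α => ?_, ?_⟩
  · by_cases hα : α = fun _ => ⟨0, (Fact.out (p := p.Prime)).pos⟩
    · rw [hα, Pi.single_eq_same]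
      exact hf
    · rw [Pi.single_eq_of_ne hα]
      exact zero_mem _
  · rw [pcomb_single]
    simp [mon]

end PCS

/-! ### The ring `H[1/x]` -/

/-- `H[1/x]`. -/
def Hx (F : Fr k v r D) : Subring Ω where
  carrier := {f | F.InHx f}
  mul_mem' := by
    rintro f g ⟨l, hl⟩ ⟨l', hl'⟩
    refine ⟨l + l', ?_⟩
    rw [P1.mx_add F.x_ne]
    have := mul_mem hl hl'
    have e : mx F.x l * mx F.x l' * (f * g) = mx F.x l * f * (mx F.x l' * g) := by ring
    rw [e]
    exact this
  one_mem' := P1.InHx.of_mem (one_mem _)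
  add_mem' := fun hf hg => P1.InHx.add hf hg
  zero_mem' := P1.InHx.of_mem (zero_mem _)
  neg_mem' := fun hf => P1.InHx.neg hf

theorem mem_Hx {F : Fr k v r D} {f : Ω} : f ∈ Hx F ↔ F.InHx f := Iff.rfl

theorem H_le_Hx (F : Fr k v r D) : F.H ≤ Hx F := fun _ hf => P1.InHx.of_mem hf

theorem Mono.hx {F : Fr k v r D} {f : Ω} (hf : F.Mono f) : f ∈ Hx F := by
  obtain ⟨l, w, hw, -, -, rfl⟩ := hf
  exact P1.InHx.mxmul l (P1.InHx.of_mem hw)

/-- Transport of `p`-coordinates to a bigger frame. -/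
theorem PC_trans [IsAlgClosed Ω] [IsAlgClosed k] (p : ℕ) [Fact p.Prime] [CharP k p] [CharP Ω p]
    (h : Ctx k v r) {F F' : Fr k v r D} {n : ℕ} {t : Fin n → Ω} (hF : F.PC p t)
    (hle : Hx F ≤ Hx F')
    (hs : ∀ i, F'.s i ∈ Subring.closure ({g | ∃ f ∈ Hx F', g = f ^ p} ∪ (Hx F : Set Ω))) :
    F'.PC p t := by
  have ht : ∀ i, t i ∈ Hx F' := fun i => hle (hF.mem i)
  have h1 : Subring.closure ({g | ∃ f ∈ Hx F', g = f ^ p} ∪ (Hx F : Set Ω)) ≤ PCS p (Hx F') t ht := by
    rw [Subring.closure_le]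
    rintro g (⟨f, hf, rfl⟩ | hg)
    · exact pow_mem_PCS hf
    · obtain ⟨c, hc, hcg⟩ := hF.span g hg
      exact ⟨c, fun α => hle (hc α), hcg⟩
  refine ⟨ht, fun f hf => ?_⟩
  obtain ⟨c, hc, rfl⟩ := (F'.PC_self p h).span f hf
  have h2 : pcomb F'.s c ∈ PCS p (Hx F') t ht := by
    unfold pcomb
    refine sum_mem fun α _ => mul_mem (pow_mem_PCS (hc α)) ?_
    unfold mon
    exact prod_mem fun i _ => pow_mem (h1 (hs i)) _
  exact h2

/-- Every element of `k(x, y)` is a quotient of elements of `H`. -/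
theorem isFr_K (h : Ctx k v r) (F : Fr k v r D) {E : IntermediateField k Ω} (hE : F.K = E) :
    F.IsFr E := by
  subst hE
  refine ⟨P2.x_mem_K F, P2.y_mem_K F, fun e he => ?_⟩
  let L : IntermediateField k Ω :=
    { carrier := {f | InFrac F.H f}
      mul_mem' := by
        rintro _ _ ⟨a, ha, b, hb, hb0, rfl⟩ ⟨c, hc, d, hd, hd0, rfl⟩
        exact ⟨a * c, mul_mem ha hc, b * d, mul_mem hb hd, mul_ne_zero hb0 hd0,
          by field_simp⟩
      one_mem' := ⟨1, one_mem _, 1, one_mem _, one_ne_zero, by simp⟩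
      add_mem' := by
        rintro _ _ ⟨a, ha, b, hb, hb0, rfl⟩ ⟨c, hc, d, hd, hd0, rfl⟩
        exact ⟨a * d + b * c, add_mem (mul_mem ha hd) (mul_mem hb hc), b * d, mul_mem hb hd,
          mul_ne_zero hb0 hd0, by field_simp⟩
      zero_mem' := ⟨0, zero_mem _, 1, one_mem _, one_ne_zero, by simp⟩
      algebraMap_mem' := fun c => ⟨_, P2.P_le_H F (P2.c_mem_P F c), 1, one_mem _, one_ne_zero,
        by simp⟩
      inv_mem' := by
        rintro _ ⟨a, ha, b, hb, hb0, rfl⟩
        by_cases ha0 : a = 0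
        · subst ha0
          exact ⟨0, zero_mem _, 1, one_mem _, one_ne_zero, by simp⟩
        · exact ⟨b, hb, a, ha, ha0, by rw [inv_div]⟩ }
  have hle : F.K ≤ L := by
    unfold Fr.K
    rw [IntermediateField.adjoin_le_iff]
    rintro g (⟨i, rfl⟩ | ⟨j, rfl⟩)
    · rcases le_total 0 (v (F.x i)) with h1 | h1
      · refine ⟨F.x i, ?_, 1, one_mem _, one_ne_zero, by simp⟩
        have := P2.mx_mem_P F (l := Pi.single i 1) (by rw [P2.mx_single, zpow_one]; exact h1)
        rw [P2.mx_single, zpow_one] at this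
        exact P2.P_le_H F this
      · refine ⟨1, one_mem _, (F.x i)⁻¹, ?_, inv_ne_zero (F.x_ne i), by simp⟩
        have := P2.mx_mem_P F (l := Pi.single i (-1)) (by
          rw [P2.mx_single, zpow_neg, zpow_one, v.map_inv (F.x_ne i)]
          linarith)
        rw [P2.mx_single, zpow_neg, zpow_one] at this
        exact P2.P_le_H F this
    · exact ⟨F.y j, P2.P_le_H F (P2.y_mem_P F j), 1, one_mem _, one_ne_zero, by simp⟩
  exact hle he

end Surf

end Pool.Agent.TW
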