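import Pool.Agent.Lib.TW.Surf2

/-!
# TANK W, SURF (third part): one blowing up
-/

set_option autoImplicit false

open Polynomial

namespace Pool.Agent.TW

open Pool.Agent.H15JM (RVal)
open Pool.Agent.LU1 (VPos adj)
open Pool.Agent.D2 (Ctx0)

universe u

namespace Surf

variable {k Ω : Type u} [Field k] [Field Ω] [Algebra k Ω] {v : RVal Ω}

theorem s_zero (F : Fr k v 1 1) : F.s 0 = F.x 0 := by
  have : (0 : Fin (1 + 1)) = Fin.castAdd 1 0 := rfl
  unfold Fr.s
  rw [this, Fin.append_left]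

theorem s_one (F : Fr k v 1 1) : F.s 1 = F.y 0 := by
  have : (1 : Fin (1 + 1)) = Fin.natAdd 1 0 := rfl
  unfold Fr.s
  rw [this, Fin.append_right]

theorem ev_ne_zero (F : Fr k v 1 1) {G : Polynomial (Polynomial k)} (hG : G ≠ 0) :
    ev (F.x 0) (F.y 0) G ≠ 0 := by
  classical
  set S := G.support.sigma fun j => (G.coeff j).support with hS
  let e : (Σ _ : ℕ, ℕ) → (Fin (1 + 1) →₀ ℕ) := fun s => Finsupp.single 0 s.2 + Finsupp.single 1 s.1
  have he : ∀ s s', e s = e s' → s = s' := by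
    rintro ⟨j, i⟩ ⟨j', i'⟩ hss
    have h0 := DFunLike.congr_fun hss 0
    have h1 := DFunLike.congr_fun hss 1
    simp [e] at h0 h1
    rw [h0, h1]
  set P : MvPolynomial (Fin (1 + 1)) k := ∑ s ∈ S, MvPolynomial.monomial (e s) ((G.coeff s.1).coeff s.2)
    with hP
  have hPe : MvPolynomial.aeval F.s P = ev (F.x 0) (F.y 0) G := by
    rw [ev_eq_sum, hP, map_sum]
    refine Finset.sum_congr rfl fun s _ => ?_
    rw [MvPolynomial.aeval_monomial]
    simp only [e]
    rw [Finsupp.prod_add_index' (by simp) (by intro a b c; exact pow_add _ _ _),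
      Finsupp.prod_single_index (by simp), Finsupp.prod_single_index (by simp), s_zero, s_one,
      mul_assoc]
  rw [← hPe]
  intro h0
  have hP0 : P = 0 := (P4bAux.s_alg F).eq_zero_of_aeval_eq_zero P h0
  obtain ⟨j, hj⟩ := Polynomial.support_nonempty.2 hG
  obtain ⟨i, hi⟩ := Polynomial.support_nonempty.2 (Polynomial.mem_support_iff.1 hj)
  have hs : (⟨j, i⟩ : Σ _ : ℕ, ℕ) ∈ S := Finset.mem_sigma.2 ⟨hj, hi⟩
  have h1 := congrArg (MvPolynomial.coeff (e ⟨j, i⟩)) hP0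
  rw [hP, MvPolynomial.coeff_sum, Finset.sum_eq_single (⟨j, i⟩ : Σ _ : ℕ, ℕ)] at h1
  · rw [MvPolynomial.coeff_monomial, if_pos rfl, MvPolynomial.coeff_zero] at h1
    exact Polynomial.mem_support_iff.1 hi h1
  · intro s _ hne
    rw [MvPolynomial.coeff_monomial, if_neg]
    intro heq
    exact hne (he _ _ heq)
  · intro h2
    exact absurd hs h2
/-- The frame `F'` dominates `F`. -/
structure Dom (p : ℕ) (F F' : Fr k v 1 1) : Prop where
  K : F'.K = F.K
  pos : 0 < v (F'.x 0)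
  mono : ∀ f, F.Mono f → F'.Mono f
  H : F.H ≤ F'.H
  pc : ∀ {n : ℕ} (t : Fin n → Ω), F.PC p t → F'.PC p t

theorem Dom.refl (p : ℕ) {F : Fr k v 1 1} (hx : 0 < v (F.x 0)) : Dom p F F :=
  ⟨rfl, hx, fun _ h => h, le_rfl, fun _ h => h⟩

theorem Dom.trans {p : ℕ} {F F' F'' : Fr k v 1 1} (h : Dom p F F') (h' : Dom p F' F'') :
    Dom p F F'' :=
  ⟨h'.K.trans h.K, h'.pos, fun f hf => h'.mono f (h.mono f hf), h.H.trans h'.H,
    fun t ht => h'.pc t (h.pc t ht)⟩

theorem mono_x (F : Fr k v 1 1) : F.Mono (F.x 0) :=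
  ⟨Pi.single 0 1, 1, one_mem _, one_ne_zero, v.map_one, by
    rw [P2.mx_single, zpow_one, mul_one]⟩

theorem mono_unit {F : Fr k v 1 1} {w : Ω} (hw : w ∈ F.H) (h0 : w ≠ 0) (hv : v w = 0) :
    F.Mono w := ⟨0, w, hw, h0, hv, by rw [P2.mx_zero, one_mul]⟩

/-- Criterion for domination. -/
theorem Dom.mk' [IsAlgClosed Ω] [IsAlgClosed k] (p : ℕ) [Fact p.Prime] [CharP k p] [CharP Ω p]
    (h : Ctx k v 1) {F F' : Fr k v 1 1} (hK : F'.K = F.K) (hpos : 0 < v (F'.x 0))
    (hx : F'.Mono (F.x 0)) (hy : F'.Mono (F.y 0)) {s t : ℤ} {q a : ℤ} {c : k}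
    (hx' : F'.x 0 = F.x 0 ^ s * F.y 0 ^ t)
    (hy' : F'.y 0 = F.x 0 ^ q * F.y 0 ^ a - algebraMap k Ω c) : Dom p F F' := by
  have hyv : 0 < v (F.y 0) := F.y_pos 0
  have hH : F.H ≤ F'.H := by
    refine Fr.H_le h F F' (fun i => ?_) (fun j => ?_)
    · rw [Subsingleton.elim i 0]; exact hx
    · rw [Subsingleton.elim j 0]; exact P2.Mono.mem hy hyv.le
  have hmono : ∀ f, F.Mono f → F'.Mono f := by
    rintro f ⟨l, w, hw, hw0, hv, rfl⟩
    refine P2.Mono.mul ?_ (mono_unit (hH hw) hw0 hv)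
    unfold mx
    refine P2.Mono.prod _ _ fun i _ => P2.Mono.zpow h ?_ _
    rw [Subsingleton.elim i 0]
    exact hx
  have hHx : Hx F ≤ Hx F' := by
    rintro f ⟨l, hl⟩
    have hm : F'.Mono (mx F.x l) := hmono _ ⟨l, 1, one_mem _, one_ne_zero, v.map_one, by
      rw [mul_one]⟩
    have e : f = (mx F.x l)⁻¹ * (mx F.x l * f) := by
      rw [inv_mul_cancel_left₀ (P2.mx_ne F l)]
    rw [e]
    exact mul_mem (Mono.hx (P2.Mono.inv h hm)) (H_le_Hx F' (hH hl))
  refine ⟨hK, hpos, hmono, hH, fun {n} tt ht => PC_trans p h ht hHx ?_⟩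
  set R := Subring.closure ({g | ∃ f ∈ Hx F', g = f ^ p} ∪ (Hx F : Set Ω)) with hR
  have hFR : ∀ f ∈ Hx F, f ∈ R := fun f hf => Subring.subset_closure (Or.inr hf)
  have hinv : ∀ f ∈ Hx F, F'.Mono f → f⁻¹ ∈ R := by
    intro f hf hm
    have h1 : (f⁻¹) ^ p ∈ R :=
      Subring.subset_closure (Or.inl ⟨f⁻¹, Mono.hx (P2.Mono.inv h hm), rfl⟩)
    have hf0 : f ≠ 0 := P2.Mono.ne_zero hm
    have e : f⁻¹ = (f⁻¹) ^ p * f ^ (p - 1) := by
      obtain ⟨m, hm⟩ : ∃ m, p = m + 1 := ⟨p - 1, by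
        have := (Fact.out (p := p.Prime)).pos; omega⟩
      rw [hm, Nat.add_sub_cancel, pow_succ, mul_assoc, mul_comm f⁻¹, ← mul_assoc, ← mul_pow,
        inv_mul_cancel₀ hf0, one_pow, one_mul]
    rw [e]
    exact mul_mem h1 (pow_mem (hFR f hf) _)
  have hz : ∀ f ∈ Hx F, F'.Mono f → ∀ z : ℤ, f ^ z ∈ R := by
    intro f hf hm z
    obtain ⟨z, rfl | rfl⟩ := z.eq_nat_or_neg
    · rw [zpow_natCast]; exact pow_mem (hFR f hf) _
    · rw [zpow_neg, zpow_natCast, ← inv_pow]; exact pow_mem (hinv f hf hm) _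
  have hxF : F.x 0 ∈ Hx F := Mono.hx (mono_x F)
  have hyF : F.y 0 ∈ Hx F := H_le_Hx F (P2.P_le_H F (P2.y_mem_P F 0))
  have h1 : F'.x 0 ∈ R := by
    rw [hx']
    exact mul_mem (hz _ hxF hx s) (hz _ hyF hy t)
  have h2 : F'.y 0 ∈ R := by
    rw [hy']
    exact sub_mem (mul_mem (hz _ hxF hx q) (hz _ hyF hy a))
      (hFR _ (H_le_Hx F (P2.P_le_H F (P2.c_mem_P F c))))
  intro i
  unfold Fr.s
  refine Fin.addCases (fun i => ?_) (fun j => ?_) i
  · rw [Fin.append_left, Subsingleton.elim i 0]; exact h1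
  · rw [Fin.append_right, Subsingleton.elim j 0]; exact h2

theorem VPos_res {c : k} {w : Ω} (hw0 : w ≠ 0) (hw : v w = 0)
    (hc : VPos v (w - algebraMap k Ω c)) : c ≠ 0 := by
  rintro rfl
  rw [_root_.map_zero, sub_zero] at hc
  have := hc hw0
  rw [hw] at this
  exact lt_irrefl _ this

/-- One blowing up. -/
theorem tstep [IsAlgClosed Ω] [IsAlgClosed k] (p : ℕ) [Fact p.Prime] [CharP k p] [CharP Ω p]
    (h : Ctx k v 1) (F : Fr k v 1 1) (hx : 0 < v (F.x 0)) {G : Polynomial (Polynomial k)} {D : ℕ}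
    (hG : Ord G D) (hD : 0 < D) : ∃ (F' : Fr k v 1 1) (G' : Polynomial (Polynomial k)) (D' : ℕ),
      Dom p F F' ∧ Ord G' D' ∧ (D' < D ∨ (D' = D ∧ F'.x 0 = F.x 0)) ∧
      ∃ (M : ℕ) (u : Ω), 0 < M ∧ F'.Mono u ∧ v u = 0 ∧
        ev (F.x 0) (F.y 0) G = F'.x 0 ^ M * (u * ev (F'.x 0) (F'.y 0) G') := by
  set x := F.x 0 with hxd
  set y := F.y 0 with hyd
  have hx0 : x ≠ 0 := F.x_ne 0
  have hy0 : y ≠ 0 := F.y_ne 0
  have hyv : 0 < v y := F.y_pos 0
  obtain ⟨q, a, hq, ha, hco, hqa⟩ := ratio h hx0 hy0 hx hyv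
  obtain ⟨s, t, hst, hq1⟩ := bezout hco
  set x' := x ^ s * y ^ t with hx'
  set w := x ^ (-(a : ℤ)) * y ^ (q : ℤ) with hw
  have hx'0 : x' ≠ 0 := mul_ne_zero (zpow_ne_zero _ hx0) (zpow_ne_zero _ hy0)
  have hw0 : w ≠ 0 := mul_ne_zero (zpow_ne_zero _ hx0) (zpow_ne_zero _ hy0)
  have hmon : ∀ A B : ℤ, x' ^ A * w ^ B = x ^ (s * A - a * B) * y ^ (t * A + q * B) := by
    intro A B
    rw [hx', hw, mul_zpow, mul_zpow, ← zpow_mul, ← zpow_mul, ← zpow_mul, ← zpow_mul,
      sub_eq_add_neg, zpow_add₀ hx0, zpow_add₀ hy0]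
    have : -(a : ℤ) * B = -(a * B) := by ring
    rw [this]
    ring
  have hij : ∀ i j : ℤ, x ^ i * y ^ j = x' ^ (q * i + a * j) * w ^ (s * j - t * i) := by
    intro i j
    rw [hmon]
    congr 2
    · linear_combination (-i : ℤ) * hst
    · linear_combination (-j : ℤ) * hst
  have hvx' : q * v x' = v x := by
    rw [hx', v.map_mul (zpow_ne_zero _ hx0) (zpow_ne_zero _ hy0), v.map_zpow hx0, v.map_zpow hy0]
    have h1 : ((s * q + t * a : ℤ) : ℝ) = 1 := by rw [hst]; norm_num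
    push_cast at h1
    linear_combination (t : ℝ) * hqa + v x * h1
  have hvx'0 : 0 < v x' := by
    have : (0 : ℝ) < q := by exact_mod_cast hq
    by_contra hcon
    push Not at hcon
    have := mul_nonpos_of_nonneg_of_nonpos this.le hcon
    linarith
  have hvw : v w = 0 := by
    rw [hw, v.map_mul (zpow_ne_zero _ hx0) (zpow_ne_zero _ hy0), v.map_zpow hx0, v.map_zpow hy0]
    push_cast
    linear_combination hqa
  obtain ⟨c, hc⟩ := h.toCtx0.residue (f := w) (fun _ => hvw.ge)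
  have hc0 : c ≠ 0 := VPos_res hw0 hvw hc
  set y' := w - algebraMap k Ω c with hy'
  have hxK : x ∈ F.K := P2.x_mem_K F 0
  have hyK : y ∈ F.K := P2.y_mem_K F 0
  -- `w` is not a constant
  have hy'0 : y' ≠ 0 := by
    intro h0
    have h1 : ev x y (X ^ q - C (C c * X ^ a) : Polynomial (Polynomial k)) = 0 := by
      rw [map_sub, map_pow, ev_X, ev_C, map_mul, map_pow, aeval_C, aeval_X, sub_eq_zero]
      have h2 : w = algebraMap k Ω c := sub_eq_zero.1 h0
      rw [← h2, hw, zpow_neg, zpow_natCast, zpow_natCast]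
      field_simp
    refine ev_ne_zero F ?_ h1
    intro h2
    have h3 := congrArg (fun P => P.coeff q) h2
    simp only [coeff_sub, coeff_X_pow, coeff_zero, if_true] at h3
    rw [coeff_C, if_neg hq.ne', sub_zero] at h3
    exact one_ne_zero h3
  have hwy : w = y' + algebraMap k Ω c := by rw [hy']; ring
  have hwadj : w ∈ IntermediateField.adjoin k {x', y'} := by
    rw [hwy]
    exact add_mem (IntermediateField.subset_adjoin _ _ (Or.inr rfl))
      (IntermediateField.algebraMap_mem _ c)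
  have hx'adj : x' ∈ IntermediateField.adjoin k {x', y'} :=
    IntermediateField.subset_adjoin _ _ (Or.inl rfl)
  have hxw : x = x' ^ (q : ℤ) * w ^ (-t) := by
    have := hij 1 0
    simpa using this
  have hyw : y = x' ^ (a : ℤ) * w ^ s := by
    have := hij 0 1
    simpa using this
  obtain ⟨F', hF'x, hF'y, hF'K⟩ := exists_frame F hx'0 hy'0 hvx'0.ne' (hc hy'0)
    (mul_mem (zpow_mem hxK _) (zpow_mem hyK _))
    (sub_mem (mul_mem (zpow_mem hxK _) (zpow_mem hyK _)) (F.K.algebraMap_mem c))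
    (by
      rw [← hxd, hxw]
      exact mul_mem (zpow_mem hx'adj _) (zpow_mem hwadj _))
    (by
      rw [← hyd, hyw]
      exact mul_mem (zpow_mem hx'adj _) (zpow_mem hwadj _))
  have hwm : F'.Mono w := by
    refine mono_unit ?_ hw0 hvw
    rw [hwy, ← hF'y]
    exact add_mem (P2.P_le_H F' (P2.y_mem_P F' 0)) (P2.P_le_H F' (P2.c_mem_P F' c))
  have hx'm : F'.Mono x' := by rw [← hF'x]; exact mono_x F'
  have hxm : F'.Mono x := by
    rw [hxw]
    exact P2.Mono.mul (P2.Mono.zpow h hx'm _) (P2.Mono.zpow h hwm _)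
  have hym : F'.Mono y := by
    rw [hyw]
    exact P2.Mono.mul (P2.Mono.zpow h hx'm _) (P2.Mono.zpow h hwm _)
  have hdom : Dom p F F' := Dom.mk' p h hF'K (by rw [hF'x]; exact hvx'0) hxm hym
    (hF'x.trans hx') (hF'y.trans (by rw [hy', hw]))
  -- the polynomial
  set S := G.support.sigma fun j => (G.coeff j).support with hS
  set N : ℕ := ∑ m ∈ S, (s * m.1 - t * m.2).natAbs with hN
  have hNle : ∀ m ∈ S, 0 ≤ s * m.1 - t * m.2 + N := by
    intro m hm
    have h1 : (s * m.1 - t * m.2).natAbs ≤ N :=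
      Finset.single_le_sum (f := fun m : (Σ _ : ℕ, ℕ) => (s * m.1 - t * m.2).natAbs)
        (fun _ _ => Nat.zero_le _) hm
    omega
  have hDS : (⟨D, 0⟩ : Σ _ : ℕ, ℕ) ∈ S := by
    refine Finset.mem_sigma.2 ⟨?_, Polynomial.mem_support_iff.2 hG.2⟩
    rw [Polynomial.mem_support_iff]
    intro h0
    have := hG.2
    rw [h0] at this
    exact this (coeff_zero 0)
  obtain ⟨M, G', D', ⟨m₀, hm₀, hm₀M⟩, hM, hG', hsum, hD'⟩ := regroup (Ω := Ω) S ⟨_, hDS⟩
    (fun m => (G.coeff m.1).coeff m.2)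
    (fun m hm => Polynomial.mem_support_iff.1 (Finset.mem_sigma.1 hm).2)
    (fun m => q * m.2 + a * m.1) (fun m => (s * m.1 - t * m.2 + N).toNat) (by
      rintro ⟨j, i⟩ hm ⟨j', i'⟩ hm' hf hn
      have h1 := hNle _ hm
      have h2 := hNle _ hm'
      simp only at h1 h2 hn hf
      have h3 : s * j - t * i = s * j' - t * i' := by omega
      have h4 : (q * i + a * j : ℤ) = q * i' + a * j' := by exact_mod_cast hf
      have h5 : (i : ℤ) = i' := by
        linear_combination s * h4 - a * h3 - ((i : ℤ) - i') * hst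
      have h6 : (j : ℤ) = j' := by
        linear_combination t * h4 + q * h3 - ((j : ℤ) - j') * hst
      have h7 : i = i' := by exact_mod_cast h5
      have h8 : j = j' := by exact_mod_cast h6
      rw [h7, h8]) c
  obtain ⟨m₁, hm₁, m₂, hm₂, hf₁, hf₂, hle⟩ := hD' hc0
  have hqD' : q * D' ≤ D := by
    have h1 := hNle _ hm₁
    have h2 := hNle _ hm₂
    have hj1 : m₁.1 ≤ D := by
      have h3 := hM _ hDS
      simp only [mul_zero, zero_add] at h3
      have h4 : a * m₁.1 ≤ a * D := by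
        refine le_trans ?_ h3
        rw [← hf₁]
        exact Nat.le_add_left _ _
      exact Nat.le_of_mul_le_mul_left h4 ha
    have h5 : (D' : ℤ) ≤ (s * m₁.1 - t * m₁.2) - (s * m₂.1 - t * m₂.2) := by omega
    have h6 : (q * m₁.2 + a * m₁.1 : ℤ) = q * m₂.2 + a * m₂.1 := by
      have := hf₁.trans hf₂.symm
      exact_mod_cast this
    have h7 : (q : ℤ) * ((s * m₁.1 - t * m₁.2) - (s * m₂.1 - t * m₂.2)) = m₁.1 - m₂.1 := by
      linear_combination (-t) * h6 + ((m₁.1 : ℤ) - m₂.1) * hst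
    have h8 : (q : ℤ) * D' ≤ m₁.1 - m₂.1 := by
      rw [← h7]
      exact mul_le_mul_of_nonneg_left h5 (by positivity)
    have h9 : ((q * D' : ℕ) : ℤ) ≤ (D : ℤ) := by
      push_cast
      have : (m₁.1 : ℤ) ≤ D := by exact_mod_cast hj1
      have h10 : (0 : ℤ) ≤ m₂.1 := by positivity
      omega
    exact_mod_cast h9
  refine ⟨F', G', D', hdom, hG', ?_, M, w ^ (-(N : ℤ)), ?_, P2.Mono.zpow h hwm _, ?_, ?_⟩
  · by_cases h1 : q = 1
    · rw [h1, one_mul] at hqD'
      rcases hqD'.lt_or_eq with h2 | h2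
      · exact Or.inl h2
      · refine Or.inr ⟨h2, ?_⟩
        obtain ⟨hs1, ht0⟩ := hq1 h1
        rw [hF'x, hx', hs1, ht0, zpow_one, zpow_zero, mul_one]
    · left
      have h2 : 2 ≤ q := by omega
      have h3 : 2 * D' ≤ q * D' := Nat.mul_le_mul_right _ h2
      omega
  · rw [← hm₀M]
    by_contra hcon
    push Not at hcon
    have h1 : q * m₀.2 + a * m₀.1 = 0 := Nat.le_zero.1 hcon
    have h2 : m₀.2 = 0 := by
      have := (Nat.add_eq_zero_iff.1 h1).1
      rcases Nat.mul_eq_zero.1 this with h | h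
      · omega
      · exact h
    have h3 : m₀.1 = 0 := by
      have := (Nat.add_eq_zero_iff.1 h1).2
      rcases Nat.mul_eq_zero.1 this with h | h
      · omega
      · exact h
    have h4 := Polynomial.mem_support_iff.1 (Finset.mem_sigma.1 hm₀).2
    rw [h2, h3] at h4
    exact h4 (hG.1 0 hD)
  · rw [v.map_zpow hw0, hvw, mul_zero]
  · have h1 := hsum x' y'
    rw [hF'x, hF'y, ← mul_assoc, mul_comm (x' ^ M), mul_assoc, ← h1, ev_eq_sum, Finset.mul_sum]
    refine Finset.sum_congr rfl fun m hm => ?_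
    have h2 := hNle m hm
    have h3 : x ^ m.2 * y ^ m.1 = x' ^ (q * m.2 + a * m.1 : ℕ) * w ^ (s * m.1 - t * m.2 : ℤ) := by
      have := hij (m.2 : ℤ) (m.1 : ℤ)
      rw [zpow_natCast, zpow_natCast] at this
      rw [this, ← zpow_natCast x']
      push_cast
      ring
    have h4 : w ^ (s * m.1 - t * m.2 : ℤ) =
        w ^ (-(N : ℤ)) * (y' + algebraMap k Ω c) ^ (s * m.1 - t * m.2 + N).toNat := by
      rw [← hwy, ← zpow_natCast w, Int.toNat_of_nonneg h2, ← zpow_add₀ hw0]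
      congr 1
      ring
    rw [mul_assoc, h3, h4]
    ring

end Surf

end Pool.Agent.TW
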