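import Pool.Agent.Lib.TW.T1
import Pool.Agent.Lib.TW.B1
import Pool.Agent.Lib.TW.D0
import Pool.Agent.Lib.TW.Exit

/-!
# TANK W, row T1: the climb over a given field of corank one; the case of a finitely generated
value group
-/

set_option autoImplicit false

open Polynomial

namespace Pool.Agent.TW

open Pool.Agent.H15JM (RVal)
open Pool.Agent.LU1 (VPos adj)
open Pool.Agent.LUC (Cl clF)
open Pool.Agent.D2 (Ctx0)
open Pool.Agent.D2P

universe u

variable {k Ω : Type u} [Field k] [Field Ω] [Algebra k Ω] {v : RVal Ω}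

/-- A finitely generated subfield of corank one which contains given elements with independent
values. -/
theorem exists_corank_of {r n : ℕ} (h : Ctx k v r) (hrn : r < n + 1) (E : IntermediateField k Ω)
    (hEn : Algebra.trdeg k E = ((n + 1 : ℕ) : Cardinal)) {x : Fin r → Ω}
    (hx : ∀ i, x i ∈ E ∧ x i ≠ 0) (hxi : LinearIndependent ℚ fun i => v (x i)) :
    ∃ L₀ : IntermediateField k Ω, L₀ ≤ E ∧ L₀.FG ∧ (∀ i, x i ∈ L₀) ∧ Algebra.trdeg k L₀ = n := by
  classical
  have hai : AlgebraicIndependent k x := TA.algInd_of_val h.triv (fun i => (hx i).2) hxi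
  set x' : Fin r → E := fun i => ⟨x i, (hx i).1⟩ with hx'
  have hai' : AlgebraicIndependent k x' := AlgebraicIndependent.of_comp E.val hai
  have hai'' : AlgebraicIndepOn k id (Set.range x') := by
    exact hai'.to_subtype_range
  obtain ⟨t, hst, ht⟩ := exists_isTranscendenceBasis_superset (R := k) (A := E) hai''
  have htc : Cardinal.mk t = ((n + 1 : ℕ) : Cardinal) := by
    rw [← hEn]
    exact ht.cardinalMk_eq_trdeg
  have hfin : Finite t := by
    rw [← Cardinal.lt_aleph0_iff_finite, htc]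
    exact Cardinal.natCast_lt_aleph0
  have htf : t.Finite := hfin
  obtain ⟨y₀, hy₀t, hy₀⟩ : ∃ y₀ ∈ t, y₀ ∉ Set.range x' := by
    by_contra hno
    push Not at hno
    have h1 : t ⊆ Set.range x' := hno
    have h2 := (Cardinal.mk_le_mk_of_subset h1).trans
      (by simpa using Cardinal.mk_range_le_lift (f := x') : Cardinal.mk (Set.range x') ≤ r)
    rw [htc] at h2
    have h3 := Nat.cast_le.1 h2
    omega
  set G : Set Ω := E.val '' (t \ {y₀}) with hG
  have hGai : AlgebraicIndependent k (Subtype.val : G → Ω) := by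
    have h1 : AlgebraicIndependent k (Subtype.val : (t \ {y₀} : Set E) → E) := by
      have h2 := ht.1.comp (fun z : (t \ {y₀} : Set E) => (⟨z, z.2.1⟩ : t))
        (fun a b hab => Subtype.ext (congrArg (fun z : t => (z : E)) hab))
      exact h2
    have h2 : AlgebraicIndependent k (E.val ∘ (Subtype.val : (t \ {y₀} : Set E) → E)) :=
      h1.map' (f := E.val) E.val.injective
    have h3 := h2.to_subtype_range
    have h4 : Set.range (E.val ∘ (Subtype.val : (t \ {y₀} : Set E) → E)) = G := by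
      rw [Set.range_comp, Subtype.range_coe]
    rw [h4] at h3
    exact h3
  refine ⟨IntermediateField.adjoin k G, ?_, ?_, ?_, ?_⟩
  · rw [IntermediateField.adjoin_le_iff]
    rintro _ ⟨z, -, rfl⟩
    exact z.2
  · exact IntermediateField.fg_adjoin_of_finite ((htf.subset Set.sdiff_subset).image _)
  · intro i
    refine IntermediateField.subset_adjoin _ _ ⟨x' i, ⟨hst ⟨i, rfl⟩, ?_⟩, rfl⟩
    rintro rfl
    exact hy₀ ⟨i, rfl⟩
  · rw [trdeg_adjoin_eq hGai, hG, Cardinal.mk_image_eq (f := (E.val : E → Ω))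
      E.val.toRingHom.injective]
    have h1 := Cardinal.mk_sdiff_add_mk (Set.singleton_subset_iff.2 hy₀t)
    rw [htc, Cardinal.mk_singleton] at h1
    have h2 : Cardinal.mk (t \ {y₀} : Set E) + 1 = (n : Cardinal) + 1 := by
      rw [h1]
      push_cast
      rfl
    exact Cardinal.add_one_inj.1 h2

/-- The climb over a given field of corank one. -/
theorem hrone_of_corank' [IsAlgClosed Ω] [IsAlgClosed k] (p : ℕ) [Fact p.Prime] [CharP k p]
    [CharP Ω p] {r m : ℕ} (h : Ctx k v r)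
    (E : IntermediateField k Ω) (hE : E.FG) (hF : Full v E)
    (htr : Algebra.trdeg k E = ((m + 1 : ℕ) : Cardinal)) (hBD : BD p v E)
    (L₀ : IntermediateField k Ω) (hL₀E : L₀ ≤ E) (hL₀fg : L₀.FG) (hL₀F : Full v L₀)
    (hL₀n : Algebra.trdeg k L₀ = m)
    (hPI : ∀ K₀ : IntermediateField k Ω, L₀ ≤ K₀ → K₀ ≤ E → K₀.FG → Full v K₀ →
      Algebra.trdeg k K₀ = ((m + 1 : ℕ) : Cardinal) →
      BD p v K₀ → HRone v K₀ → ∀ g ∈ E, g ^ p ∈ K₀ → BD p v (adj K₀ g) →
      HRone v (adj K₀ g)) : HRone v E := by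
  classical
  have hp : 0 < p := (Fact.out : p.Prime).pos
  obtain ⟨e, N', hN'fg, hrN', hN'alg, z, hz, hlev⟩ := row_A p h E hE htr L₀ hL₀E hL₀fg hL₀F hL₀n
  have hN'F : Full v N' := Full.mono ((le_rootF L₀ e).trans hrN') hL₀F
  have hpe : 0 < p ^ e := pow_pos hp e
  set N := E ⊔ rootF p e L₀ with hNdef
  have hNE : N ≤ rootF p e E := by
    refine sup_le (le_rootF E e) ?_
    intro a ha
    rw [mem_rootF] at ha ⊢
    exact hL₀E ha
  set E' : IntermediateField k Ω := powF p e N with hE'def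
  have hE'r : HRone v E' := hrone_powF p e hN'fg hN'F hz hlev
  have hE'E : E' ≤ E := by
    intro a ha
    obtain ⟨b, hb, rfl⟩ := (mem_powF p e).1 ha
    exact mem_rootF.1 (hNE hb)
  have hEp : ∀ a ∈ E, a ^ p ^ e ∈ E' := fun a ha =>
    (mem_powF p e).2 ⟨a, (le_sup_left : E ≤ N) ha, rfl⟩
  have hE'fg : E'.FG := powF_fg p e (IntermediateField.fg_sup hE (rootF_fg p hL₀fg e))
  have hE'F : Full v E' := powF_full p e (Full.mono le_sup_left hF)
  have hL₀E' : L₀ ≤ E' := by
    intro a ha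
    obtain ⟨b, hb⟩ := IsAlgClosed.exists_pow_nat_eq a hpe
    refine (mem_powF p e).2 ⟨b, (le_sup_right : rootF p e L₀ ≤ N) ?_, hb⟩
    rw [mem_rootF, hb]
    exact ha
  -- the fields between `E'` and `E`
  have hmid : ∀ B : IntermediateField k Ω, E' ≤ B → B ≤ E → B.FG →
      Full v B ∧ Algebra.trdeg k B = ((m + 1 : ℕ) : Cardinal) ∧ BD p v B := by
    intro B h1 h2 h3
    refine ⟨hE'F.mono h1, ?_, hBD.of_pow h2 (e := e) fun a ha => h1 (hEp a ha)⟩
    rw [← htr]
    exact (trdeg_eq_of_alg h2 fun a ha =>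
      isAlgebraic_of_pow hpe (isAlgebraic_of_mem (h1 (hEp a ha)))).symm
  have hroot : ∀ (j : ℕ) (B : IntermediateField k Ω), E' ≤ B → B ≤ E → B.FG → HRone v B →
      ∀ s ∈ E, s ^ p ^ j ∈ B → HRone v (adj B s) := by
    intro j
    induction j with
    | zero =>
      intro B _ _ _ hB s _ hs
      rw [pow_zero, pow_one] at hs
      have h1 : adj B s = B := le_antisymm (adj_le le_rfl hs) (mem_adj_self B s).2
      rw [h1]
      exact hB
    | succ j ih =>
      intro B h1 h2 h3 hB s hsE hs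
      have h4 : (s ^ p) ^ p ^ j ∈ B := by
        rw [← pow_mul, ← pow_succ']
        exact hs
      have h5 := ih B h1 h2 h3 hB (s ^ p) (pow_mem hsE p) h4
      have hle : B ≤ adj B (s ^ p) := (mem_adj_self B (s ^ p)).2
      have hle' : adj B (s ^ p) ≤ E := adj_le h2 (pow_mem hsE p)
      have hfg := fg_adj h3 (s ^ p)
      obtain ⟨h6, h7, h8⟩ := hmid _ (h1.trans hle) hle' hfg
      have h9 := hPI (adj B (s ^ p)) (hL₀E'.trans (h1.trans hle)) hle' hfg h6 h7 h8 h5 s hsE
        (mem_adj_self B (s ^ p)).1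
        (hmid (adj (adj B (s ^ p)) s) ((h1.trans hle).trans (mem_adj_self _ s).2)
          (adj_le hle' hsE) (fg_adj hfg s)).2.2
      have h10 : adj (adj B (s ^ p)) s = adj B s := by
        apply le_antisymm
        · refine adj_le (adj_le (mem_adj_self B s).2 ?_) (mem_adj_self B s).1
          exact pow_mem (mem_adj_self B s).1 p
        · exact adj_le ((mem_adj_self B (s ^ p)).2.trans (mem_adj_self _ s).2)
            (mem_adj_self _ s).1
      rwa [h10] at h9
  obtain ⟨S, hS⟩ := hE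
  have hSE : ∀ s ∈ S, s ∈ E := fun s hs => by
    rw [← hS]
    exact IntermediateField.subset_adjoin _ _ hs
  have hall : ∀ T : Finset Ω, T ⊆ S →
      HRone v (E' ⊔ IntermediateField.adjoin k (T : Set Ω)) := by
    intro T
    induction T using Finset.induction_on with
    | empty =>
      intro _
      rw [Finset.coe_empty, IntermediateField.adjoin_empty, sup_bot_eq]
      exact hE'r
    | insert a T ha ih =>
      intro hT
      have h1 := ih ((Finset.subset_insert a T).trans hT)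
      have haS : a ∈ S := hT (Finset.mem_insert_self a T)
      have hTE : IntermediateField.adjoin k (T : Set Ω) ≤ E := by
        rw [IntermediateField.adjoin_le_iff]
        exact fun b hb => hSE b (hT (Finset.mem_insert_of_mem hb))
      have h2 := hroot e (E' ⊔ IntermediateField.adjoin k (T : Set Ω)) le_sup_left
        (sup_le hE'E hTE) (IntermediateField.fg_sup hE'fg (IntermediateField.fg_adjoin_finset T))
        h1 a (hSE a haS) ((le_sup_left : E' ≤ _) (hEp a (hSE a haS)))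
      have h3 : adj (E' ⊔ IntermediateField.adjoin k (T : Set Ω)) a =
          E' ⊔ IntermediateField.adjoin k ((insert a T : Finset Ω) : Set Ω) := by
        rw [adj, sup_assoc, ← IntermediateField.adjoin_union, Finset.coe_insert,
          Set.union_singleton]
      rwa [h3] at h2
  have h3 := hall S (Finset.Subset.refl S)
  have h4 : E' ⊔ IntermediateField.adjoin k (S : Set Ω) = E := by
    rw [hS]
    exact sup_eq_right.2 hE'E
  rwa [h4] at h3


/-- The climb over a given field of corank one. -/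
theorem hrone_of_corank [IsAlgClosed Ω] [IsAlgClosed k] (p : ℕ) [Fact p.Prime] [CharP k p]
    [CharP Ω p] {r m : ℕ} (h : Ctx k v r)
    (E : IntermediateField k Ω) (hE : E.FG) (hF : Full v E)
    (htr : Algebra.trdeg k E = ((m + 1 : ℕ) : Cardinal)) (hBD : BD p v E)
    (L₀ : IntermediateField k Ω) (hL₀E : L₀ ≤ E) (hL₀fg : L₀.FG) (hL₀F : Full v L₀)
    (hL₀n : Algebra.trdeg k L₀ = m)
    (hPI : ∀ K₀ : IntermediateField k Ω, L₀ ≤ K₀ → K₀ ≤ E → K₀.FG → Full v K₀ →
      Algebra.trdeg k K₀ = ((m + 1 : ℕ) : Cardinal) →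
      BD p v K₀ → HRone v K₀ → ∀ g ∈ E, g ^ p ∈ K₀ → HRone v (adj K₀ g)) : HRone v E :=
  hrone_of_corank' p h E hE hF htr hBD L₀ hL₀E hL₀fg hL₀F hL₀n
    fun K₀ h1 h2 h3 h4 h5 h6 h7 g h8 h9 _ => hPI K₀ h1 h2 h3 h4 h5 h6 h7 g h8 h9

theorem valG_mono {E E' : IntermediateField k Ω} (h : E ≤ E') : valG v E ≤ valG v E' := by
  rintro _ ⟨g, hg, hg0, rfl⟩
  exact ⟨g, h hg, hg0, rfl⟩

/-- **The climb for a finitely generated value group**: only steps without enlargement of the value
group are needed. -/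
theorem hrone_all_fg' [IsAlgClosed Ω] [IsAlgClosed k] (p : ℕ) [Fact p.Prime] [CharP k p]
    [CharP Ω p] {r n : ℕ} (h : Ctx k v r) (hrn : r < n)
    (hPI : ∀ K₀ : IntermediateField k Ω, K₀.FG → Full v K₀ → Algebra.trdeg k K₀ = n →
      BD p v K₀ → HRone v K₀ → (valG v K₀).FG → ∀ g : Ω, g ^ p ∈ K₀ →
        valG v (adj K₀ g) = valG v K₀ → BD p v (adj K₀ g) → HRone v (adj K₀ g))
    (E : IntermediateField k Ω) (hE : E.FG) (hF : Full v E) (htr : Algebra.trdeg k E = n)
    (hBD : BD p v E) (hfg : (valG v E).FG) : HRone v E := by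
  classical
  obtain ⟨m, rfl⟩ : ∃ m, n = m + 1 := ⟨n - 1, by omega⟩
  obtain ⟨a, ha, hai, hsp⟩ := hF.exists_span h
  obtain ⟨g, hg, hgi, hgs⟩ := D0.exists_zbasis hfg (a := fun i => v (a i))
    (fun i => ⟨a i, (ha i).1, (ha i).2, rfl⟩) hai (fun γ hγ => by
      obtain ⟨f, -, hf0, rfl⟩ := hγ
      exact hsp f hf0)
  choose x hxE hx0 hxg using hg
  have hxg' : (fun i => v (x i)) = g := funext hxg
  have hxi : LinearIndependent ℚ fun i => v (x i) := by rw [hxg']; exact hgi
  obtain ⟨L₀, hL₀E, hL₀fg, hxL, hL₀n⟩ :=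
    exists_corank_of h hrn E htr (fun i => ⟨hxE i, hx0 i⟩) hxi
  have hval : valG v E ≤ valG v L₀ := by
    intro γ hγ
    obtain ⟨l, rfl⟩ := hgs γ hγ
    refine ⟨mx x l, P2.mx_mem hxL l, Finset.prod_ne_zero_iff.2 fun i _ =>
      zpow_ne_zero _ (hx0 i), ?_⟩
    rw [mx, v.map_prod _ _ fun i _ => zpow_ne_zero _ (hx0 i)]
    exact Finset.sum_congr rfl fun i _ => by rw [v.map_zpow (hx0 i), hxg i]
  have hL₀F : Full v L₀ := by
    intro f hf
    obtain ⟨m, hm, c, hc, hc0, hvc⟩ := hF f hf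
    obtain ⟨c', hc', hc'0, hvc'⟩ := hval ⟨c, hc, hc0, rfl⟩
    exact ⟨m, hm, c', hc', hc'0, by rw [hvc', hvc]⟩
  refine hrone_of_corank' p h E hE hF htr hBD L₀ hL₀E hL₀fg hL₀F hL₀n ?_
  intro K₀ h1 h2 h3 h4 h5 h6 h7 f hfE hf hBDf
  have h8 : valG v K₀ = valG v E := le_antisymm (valG_mono h2) (hval.trans (valG_mono h1))
  refine hPI K₀ h3 h4 h5 h6 h7 (by rw [h8]; exact hfg) f hf ?_ hBDf
  refine le_antisymm ?_ (valG_mono (mem_adj_self K₀ f).2)
  rw [h8]
  exact valG_mono (adj_le h2 hfE)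

theorem hrone_all_fg [IsAlgClosed Ω] [IsAlgClosed k] (p : ℕ) [Fact p.Prime] [CharP k p]
    [CharP Ω p] {r n : ℕ} (h : Ctx k v r) (hrn : r < n)
    (hPI : ∀ K₀ : IntermediateField k Ω, K₀.FG → Full v K₀ → Algebra.trdeg k K₀ = n →
      BD p v K₀ → HRone v K₀ → (valG v K₀).FG → ∀ g : Ω, g ^ p ∈ K₀ →
        valG v (adj K₀ g) = valG v K₀ → HRone v (adj K₀ g))
    (E : IntermediateField k Ω) (hE : E.FG) (hF : Full v E) (htr : Algebra.trdeg k E = n)
    (hBD : BD p v E) (hfg : (valG v E).FG) : HRone v E :=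
  hrone_all_fg' p h hrn (fun K₀ h1 h2 h3 h4 h5 h6 g h7 h8 _ => hPI K₀ h1 h2 h3 h4 h5 h6 g h7 h8)
    E hE hF htr hBD hfg

end Pool.Agent.TW
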