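import Pool.Agent.Lib.ALL_h25.RealFull
import Pool.Agent.Lib.ALL_h26.Hand

/-!
# TANK W: the exit.  Log uniformization of the real valuations, in any characteristic `p > 0`,
gives log uniformization of all valuations
-/

set_option autoImplicit false

namespace Pool.Agent.TW

open Pool.Agent.LU2G Pool.Agent.D2 Pool.Agent.ALLF Pool.Agent.LU2

universe u

/-- Log uniformization of all real valuations over `k`, with any residue field. -/
def RealFull (k : Type u) [Field k] : Prop :=
  ∀ (K : Type u) [Field K] [Algebra k K], (⊤ : IntermediateField k K).FG →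
    ∀ V : ValuationSubring K, (∀ c : k, algebraMap k K c ∈ V) → IsR1 V →
      ∀ m : ℕ, Algebra.trdeg k K = m → LUr k V

theorem RealFull.full {k : Type u} [Field k] (h : RealFull k) (b : ℕ → ℕ) (p : ℕ) :
    RealCaseFull b p k := fun K _ _ hK V hk hV m hm _ => h K hK V hk hV m hm

theorem RealFull.of {k : Type u} [Field k] {p : ℕ} [Fact p.Prime]
    (h : RealCaseFull (fun _ => 0) p k) : RealFull k :=
  fun K _ _ hK V hk hV m hm => h K hK V hk hV m hm (Fact.out : p.Prime).pos

/-- Embedded local uniformization of the zero-dimensional valuations with values in ordered fields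
gives log uniformization of all real valuations. -/
theorem realFull_of_embAll (p : ℕ) [Fact p.Prime] (k : Type u) [Field k] [IsAlgClosed k]
    (H : ∀ (𝕂 : Type u) [Field 𝕂] [LinearOrder 𝕂] [IsStrictOrderedRing 𝕂] (n : ℕ),
      ALLO.EmbAll k 𝕂 n) : RealFull k :=
  RealFull.of (p := p) (realCaseFull_of fun 𝕂 _ _ _ n _ => H 𝕂 n)

/-- THE EXIT: log uniformization of all valuations, in every characteristic `p`. -/
theorem logUniformizable_of_realFull (p : ℕ) [Fact p.Prime] (k : Type) [Field k] [IsAlgClosed k]
    [CharP k p] (H : RealFull k)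
    (A : Type) [CommRing A] [IsDomain A] [Algebra k A] [Algebra.EssFiniteType k A]
    (V : ValuationSubring (FractionRing A)) (hV : ∀ a : A, algebraMap A (FractionRing A) a ∈ V) :
    LogUniformizable V := by
  have h1 : Algebra.EssFiniteType A (FractionRing A) :=
    Algebra.EssFiniteType.of_isLocalization _ (nonZeroDivisors A)
  have h2 : Algebra.EssFiniteType k (FractionRing A) :=
    Algebra.EssFiniteType.comp k A (FractionRing A)
  have hfin : Algebra.trdeg k (FractionRing A) < Cardinal.aleph0 :=
    _root_.trdeg_lt_aleph0 k (FractionRing A)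
  obtain ⟨n, hn⟩ := Cardinal.lt_aleph0.1 hfin
  exact logUniformizable_all (b := fun _ => 0) (fun _ _ _ => le_rfl) p k
    (Pool.Agent.LU2.realCaseR p Fact.out)
    (Pool.Agent.D2.realCase2 p Fact.out k (Pool.Agent.D2.main2 p Fact.out k))
    (H.full _ p) A n hn (Fact.out : p.Prime).pos V hV

end Pool.Agent.TW
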