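import Pool.Agent.Lib.TW.Defs

/-!
# TANK W: the volume argument

Among the bases of `E` over `E^p` the volume `∑ v(e_i) - v(det e)` is bounded if `E` has bounded
distortion. A basis whose volume is maximal up to `ε` has distortion at most `ε`.
-/

set_option autoImplicit false

namespace Pool.Agent.TW

open Pool.Agent.H15JM (RVal)

universe u

section Gen

variable {Ω : Type u} [Field Ω] {ι : Type} [Fintype ι] [DecidableEq ι]

/-- `A` is an invertible matrix over `Q` and `e = A b`. -/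
structure Mt (Q : Subfield Ω) (b e : ι → Ω) (A : Matrix ι ι Ω) : Prop where
  mem : ∀ i j, A i j ∈ Q
  eq : ∀ i, e i = ∑ j, A i j * b j
  det : A.det ≠ 0

theorem Mt.refl (Q : Subfield Ω) (b : ι → Ω) : Mt Q b b 1 where
  mem := fun i j => by
    rw [Matrix.one_apply]
    split_ifs
    exacts [one_mem _, zero_mem _]
  eq := fun i => by simp [Matrix.one_apply]
  det := by simp

/-- independence of a family over a subfield -/
def Ind (Q : Subfield Ω) (b : ι → Ω) : Prop :=
  ∀ a : ι → Ω, (∀ j, a j ∈ Q) → ∑ j, a j * b j = 0 → ∀ j, a j = 0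

theorem Mt.ne_zero {Q : Subfield Ω} {b e : ι → Ω} {A : Matrix ι ι Ω} (hb : Ind Q b)
    (h : Mt Q b e A) (i : ι) : e i ≠ 0 := by
  intro h0
  rw [h.eq i] at h0
  exact h.det (Matrix.det_eq_zero_of_row_eq_zero i (hb _ (h.mem i) h0))

theorem Mt.uniq {Q : Subfield Ω} {b e : ι → Ω} {A B : Matrix ι ι Ω} (hb : Ind Q b)
    (h : Mt Q b e A) (hB : ∀ i j, B i j ∈ Q) (hB' : ∀ i, e i = ∑ j, B i j * b j) : A = B := by
  ext i j
  have h1 := hb (fun j => A i j - B i j) (fun j => sub_mem (h.mem i j) (hB i j)) (by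
    simp only [sub_mul, Finset.sum_sub_distrib]
    rw [← h.eq i, ← hB' i, sub_self]) j
  exact sub_eq_zero.1 h1

/-- replacing one vector -/
theorem Mt.replace {Q : Subfield Ω} {b e : ι → Ω} {A : Matrix ι ι Ω} (h : Mt Q b e A)
    (c : ι → Ω) (hc : ∀ i, c i ∈ Q) (i : ι) (hi : c i ≠ 0) :
    Mt Q b (Function.update e i (∑ j, c j * e j)) (A.updateRow i (∑ j, c j • A j)) ∧
      (A.updateRow i (∑ j, c j • A j)).det = c i * A.det := by
  have hd : (A.updateRow i (∑ j, c j • A j)).det = c i * A.det := by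
    rw [Matrix.det_updateRow_sum, smul_eq_mul]
  refine ⟨⟨?_, ?_, ?_⟩, hd⟩
  · intro i' j
    by_cases hii : i' = i
    · subst hii
      rw [Matrix.updateRow_self, Finset.sum_apply]
      exact sum_mem fun l _ => mul_mem (hc l) (h.mem l j)
    · rw [Matrix.updateRow_ne hii]
      exact h.mem i' j
  · intro i'
    by_cases hii : i' = i
    · subst hii
      rw [Function.update_self, Matrix.updateRow_self]
      simp only [Finset.sum_apply, Pi.smul_apply, smul_eq_mul, Finset.sum_mul]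
      rw [Finset.sum_comm]
      refine Finset.sum_congr rfl fun j _ => ?_
      rw [h.eq j, Finset.mul_sum]
      exact Finset.sum_congr rfl fun l _ => by ring
    · rw [Function.update_of_ne hii, Matrix.updateRow_ne hii]
      exact h.eq i'
  · rw [hd]
    exact mul_ne_zero hi h.det

/-- the determinant of a matrix with values `≥ a_i - b_j` -/
theorem det_ge (v : RVal Ω) (A : Matrix ι ι Ω) (a b : ι → ℝ)
    (h : ∀ i j, v.Ge (a i - b j) (A i j)) : v.Ge (∑ i, a i - ∑ j, b j) A.det := by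
  rw [Matrix.det_apply]
  refine RVal.Ge.sum _ _ fun σ _ => ?_
  have h1 : v.Ge (∑ i, a i - ∑ j, b j) (∏ i, A (σ i) i) := by
    have h2 := RVal.Ge.prod (v := v) (fun i => a (σ i) - b i) Finset.univ (fun i => A (σ i) i)
      (fun i _ => h (σ i) i)
    rw [Finset.sum_sub_distrib, Equiv.sum_comp σ a] at h2
    exact h2
  rcases Int.units_eq_one_or (Equiv.Perm.sign σ) with h2 | h2
  · rw [h2, one_smul]
    exact h1
  · rw [h2, Units.neg_smul, one_smul]
    exact h1.neg

/-- the volume of a basis -/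
noncomputable def vol (v : RVal Ω) (e : ι → Ω) (A : Matrix ι ι Ω) : ℝ := ∑ i, v (e i) - v A.det

theorem vol_le (v : RVal Ω) {Q : Subfield Ω} {b e : ι → Ω} {A : Matrix ι ι Ω} {C : ℝ}
    (h : Mt Q b e A) (hb : ∀ j, b j ≠ 0)
    (ho : ∀ c : ι → Ω, (∀ j, c j ∈ Q) → ∑ j, c j * b j ≠ 0 →
      ∀ j, v.Ge (v (∑ j, c j * b j) - C) (c j * b j)) (he : ∀ i, e i ≠ 0) :
    vol v e A ≤ Fintype.card ι * C + ∑ j, v (b j) := by
  have h1 : ∀ i j, v.Ge ((v (e i) - C) - v (b j)) (A i j) := by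
    intro i j hA
    have h2 := ho (A i) (h.mem i) (by rw [← h.eq i]; exact he i) j (mul_ne_zero hA (hb j))
    rw [v.map_mul hA (hb j), ← h.eq i] at h2
    linarith
  have h3 := det_ge v A (fun i => v (e i) - C) (fun j => v (b j)) h1 h.det
  rw [Finset.sum_sub_distrib, Finset.sum_const, Finset.card_univ, nsmul_eq_mul] at h3
  rw [vol]
  linarith

/-- A basis of almost maximal volume. -/
theorem exists_opt (v : RVal Ω) {Q : Subfield Ω} {b : ι → Ω} (hind : Ind Q b) {C : ℝ}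
    (hb : ∀ j, b j ≠ 0)
    (ho : ∀ c : ι → Ω, (∀ j, c j ∈ Q) → ∑ j, c j * b j ≠ 0 →
      ∀ j, v.Ge (v (∑ j, c j * b j) - C) (c j * b j)) {ε : ℝ} (hε : 0 < ε) :
    ∃ (e : ι → Ω) (A : Matrix ι ι Ω), Mt Q b e A ∧
      ∀ (e' : ι → Ω) (A' : Matrix ι ι Ω), Mt Q b e' A' → vol v e' A' ≤ vol v e A + ε := by
  let S : Set ℝ := {x | ∃ (e : ι → Ω) (A : Matrix ι ι Ω), Mt Q b e A ∧ x = vol v e A}
  have hne : S.Nonempty := ⟨_, b, 1, Mt.refl Q b, rfl⟩
  have hbd : BddAbove S := by
    refine ⟨Fintype.card ι * C + ∑ j, v (b j), ?_⟩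
    rintro x ⟨e, A, h, rfl⟩
    exact vol_le v h hb ho fun i => h.ne_zero hind i
  obtain ⟨x, ⟨e, A, h, rfl⟩, hx⟩ := exists_lt_of_lt_csSup hne (show sSup S - ε < sSup S by linarith)
  refine ⟨e, A, h, fun e' A' h' => ?_⟩
  have := le_csSup hbd (show vol v e' A' ∈ S from ⟨e', A', h', rfl⟩)
  linarith

/-- A basis of almost maximal volume is almost orthogonal. -/
theorem orth_of_opt (v : RVal Ω) {Q : Subfield Ω} {b e : ι → Ω} {A : Matrix ι ι Ω} {ε : ℝ}
    (h : Mt Q b e A)
    (hmax : ∀ (e' : ι → Ω) (A' : Matrix ι ι Ω), Mt Q b e' A' → vol v e' A' ≤ vol v e A + ε)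
    (c : ι → Ω) (hc : ∀ j, c j ∈ Q) (i : ι) :
    v.Ge (v (∑ j, c j * e j) - ε) (c i * e i) := by
  intro hi
  have hi1 : c i ≠ 0 := left_ne_zero_of_mul hi
  have hi2 : e i ≠ 0 := right_ne_zero_of_mul hi
  obtain ⟨h1, h2⟩ := h.replace c hc i hi1
  have h3 := hmax _ _ h1
  have h4 : ∑ l, v (Function.update e i (∑ j, c j * e j) l) =
      v (∑ j, c j * e j) + ∑ l ∈ Finset.univ.erase i, v (e l) := by
    rw [← Finset.add_sum_erase _ _ (Finset.mem_univ i), Function.update_self]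
    congr 1
    refine Finset.sum_congr rfl fun l hl => ?_
    rw [Function.update_of_ne (Finset.ne_of_mem_erase hl)]
  have h5 : ∑ l, v (e l) = v (e i) + ∑ l ∈ Finset.univ.erase i, v (e l) :=
    (Finset.add_sum_erase _ _ (Finset.mem_univ i)).symm
  rw [vol, vol, h2, v.map_mul hi1 h.det, h4, h5] at h3
  rw [v.map_mul hi1 hi2]
  linarith

end Gen

/-! ## `p`-bases -/

section PB

variable {k Ω : Type u} [Field k] [Field Ω] [Algebra k Ω] {v : RVal Ω}

/-- The field `E^p`. -/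
noncomputable def Qp (p : ℕ) [Fact p.Prime] [CharP Ω p] (E : IntermediateField k Ω) : Subfield Ω :=
  E.toSubfield.map (frobenius Ω p)

variable {p : ℕ} [Fact p.Prime] [CharP Ω p] {E : IntermediateField k Ω}

theorem mem_Qp {x : Ω} : x ∈ Qp p E ↔ ∃ c ∈ E, c ^ p = x := by
  rw [Qp, Subfield.mem_map]
  rfl

theorem Qp_le {x : Ω} (hx : x ∈ Qp p E) : x ∈ E := by
  obtain ⟨c, hc, rfl⟩ := mem_Qp.1 hx
  exact pow_mem hc p

theorem PBasis.ind_Qp {n : ℕ} {t : Fin n → Ω} (ht : PBasis p E t) :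
    Ind (Qp p E) (mon (p := p) t) := by
  intro a ha h0
  choose c hc hca using fun j => mem_Qp.1 (ha j)
  intro j
  rw [← hca j, ht.ind c hc (by
    rw [← h0, pcomb]
    exact Finset.sum_congr rfl fun j _ => by rw [hca]) j]
  exact zero_pow (Fact.out : p.Prime).ne_zero

theorem PBasis.mon_ne_zero {n : ℕ} {t : Fin n → Ω} (ht : PBasis p E t) (α : Fin n → Fin p) :
    mon t α ≠ 0 := by
  classical
  intro h0
  have h1 := ht.ind_Qp (fun β => if β = α then 1 else 0) (fun j => by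
    split_ifs
    exacts [one_mem _, zero_mem _]) (by simp [h0]) α
  simp at h1

omit [Fact p.Prime] [CharP Ω p] in
theorem PBasis.mon_mem {n : ℕ} {t : Fin n → Ω} (ht : PBasis p E t) (α : Fin n → Fin p) :
    mon t α ∈ E :=
  prod_mem fun i _ => pow_mem (ht.mem i) _

theorem PBasis.card_eq {n m : ℕ} {t : Fin n → Ω} {s : Fin m → Ω} (ht : PBasis p E t)
    (hs : PBasis p E s) : n = m := by
  classical
  have key : ∀ {n : ℕ} {t : Fin n → Ω}, PBasis p E t →
      LinearIndependent (Qp p E) (mon (p := p) t) ∧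
      ∀ x, x ∈ Submodule.span (Qp p E) (Set.range (mon (p := p) t)) ↔ x ∈ E := by
    intro n t ht
    refine ⟨?_, fun x => ⟨fun hx => ?_, fun hx => ?_⟩⟩
    · rw [Fintype.linearIndependent_iff]
      intro g hg j
      exact Subtype.ext (ht.ind_Qp (fun j => (g j : Ω)) (fun j => (g j).2) hg j)
    · refine Submodule.span_induction (p := fun x _ => x ∈ E) ?_ (zero_mem _)
        (fun _ _ _ _ => add_mem) (fun a x _ hx => ?_) hx
      · rintro _ ⟨α, rfl⟩
        exact ht.mon_mem α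
      · exact mul_mem (Qp_le a.2) hx
    · obtain ⟨c, hc, rfl⟩ := ht.span x hx
      rw [pcomb]
      refine Submodule.sum_mem _ fun α _ => ?_
      exact Submodule.smul_mem _ (⟨c α ^ p, mem_Qp.2 ⟨_, hc α, rfl⟩⟩ : Qp p E)
        (Submodule.subset_span ⟨α, rfl⟩)
  obtain ⟨h1, h2⟩ := key ht
  obtain ⟨h3, h4⟩ := key hs
  have h5 : Submodule.span (Qp p E) (Set.range (mon (p := p) t)) =
      Submodule.span (Qp p E) (Set.range (mon (p := p) s)) := by
    ext x
    rw [h2, h4]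
  have h6 := finrank_span_eq_card h1
  rw [h5, finrank_span_eq_card h3] at h6
  simp only [Fintype.card_fun, Fintype.card_fin] at h6
  exact (Nat.pow_right_injective (Fact.out : p.Prime).two_le h6).symm

/-- A basis such that every frame adapted to it has small distortion. -/
theorem exists_opt_basis (hBD : BD p v E) {n : ℕ} {t : Fin n → Ω} (ht : PBasis p E t)
    {ε : ℝ} (hε : 0 < ε) :
    ∃ e : (Fin n → Fin p) → Ω, (∀ α, e α ∈ E ∧ e α ≠ 0) ∧
      ∀ s : Fin n → Ω, PBasis p E s →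
        (∀ α, ∃ c : (Fin n → Fin p) → Ω, (∀ β, c β ∈ E) ∧ e α = pcomb s c ∧
          ∀ β, v.Ge (v (e α)) (c β ^ p * mon s β)) → Orth p v E s ε := by
  classical
  obtain ⟨n', b, hb, C, hC⟩ := hBD
  obtain rfl : n = n' := ht.card_eq hb
  obtain ⟨e, A, hA, hmax⟩ := exists_opt v hb.ind_Qp (C := C) hb.mon_ne_zero (by
    intro a ha h0 j
    choose c hc hca using fun j => mem_Qp.1 (ha j)
    have h1 : ∑ j, a j * mon b j = pcomb b c :=
      Finset.sum_congr rfl fun j _ => by rw [hca]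
    rw [h1] at h0 ⊢
    rw [← hca]
    exact hC c hc h0 j) hε
  have he : ∀ α, e α ∈ E := fun α => by
    rw [hA.eq α]
    exact sum_mem fun j _ => mul_mem (Qp_le (hA.mem α j)) (hb.mon_mem j)
  have he0 : ∀ α, e α ≠ 0 := fun α => hA.ne_zero hb.ind_Qp α
  refine ⟨e, fun α => ⟨he α, he0 α⟩, fun s hs H => ?_⟩
  choose c hc hec hcv using H
  choose d hd hsd using fun β => hb.span (mon s β) (hs.mon_mem β)
  let B : Matrix (Fin n → Fin p) (Fin n → Fin p) Ω := fun α β => c α β ^ p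
  let B' : Matrix (Fin n → Fin p) (Fin n → Fin p) Ω := fun α β => d α β ^ p
  have hB : ∀ i j, B i j ∈ Qp p E := fun i j => mem_Qp.2 ⟨_, hc i j, rfl⟩
  have hB' : ∀ i j, B' i j ∈ Qp p E := fun i j => mem_Qp.2 ⟨_, hd i j, rfl⟩
  have h1 : A = B * B' := by
    refine hA.uniq hb.ind_Qp (fun i j => ?_) (fun i => ?_)
    · rw [Matrix.mul_apply]
      exact sum_mem fun l _ => mul_mem (hB i l) (hB' l j)
    · rw [hec i, pcomb]
      simp only [Matrix.mul_apply, Finset.sum_mul]
      rw [Finset.sum_comm]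
      refine Finset.sum_congr rfl fun l _ => ?_
      rw [hsd l, pcomb, Finset.mul_sum]
      exact Finset.sum_congr rfl fun j _ => by
        show c i l ^ p * (d l j ^ p * mon b j) = c i l ^ p * d l j ^ p * mon b j
        ring
  have h2 : B.det ≠ 0 ∧ B'.det ≠ 0 := by
    have := hA.det
    rw [h1, Matrix.det_mul] at this
    exact ⟨left_ne_zero_of_mul this, right_ne_zero_of_mul this⟩
  have h3 : Mt (Qp p E) (mon b) (mon s) B' := ⟨hB', fun i => hsd i, h2.2⟩
  have h4 : v.Ge (∑ i, v (e i) - ∑ j : Fin n → Fin p, v (mon s j)) B.det := by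
    refine det_ge v B (fun i => v (e i)) (fun j => v (mon s j)) fun i j h0 => ?_
    have h5 := hcv i j (mul_ne_zero h0 (hs.mon_ne_zero j))
    rw [v.map_mul h0 (hs.mon_ne_zero j)] at h5
    show _ ≤ v (c i j ^ p)
    linarith
  have h5 : vol v e A ≤ vol v (mon s) B' := by
    have h6 := h4 h2.1
    rw [vol, vol, h1, Matrix.det_mul, v.map_mul h2.1 h2.2]
    linarith
  intro a ha _ α
  exact orth_of_opt v h3 (fun e' A' h' => (hmax e' A' h').trans (by linarith))
    (fun β => a β ^ p) (fun β => mem_Qp.2 ⟨_, ha β, rfl⟩) α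

end PB

end Pool.Agent.TW
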