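import Pool.Agent.Lib.TW.XDefs
import Pool.Agent.Lib.TW.P2a
import Pool.Agent.Lib.D2.DIM
import Pool.Agent.Lib.LUC.Asc2
import Pool.Agent.Lib.LUC.Loc

/-!
# TANK W, exit, row X1b: the étale local rings `lv k[s, e]`: parameters, dimension, monomials
-/

set_option autoImplicit false

open Polynomial

namespace Pool.Agent.TW

open Pool.Agent.H15JM (RVal)
open Pool.Agent.LU1 (VPos)
open Pool.Agent.LUC (lv IP Par)
open Pool.Agent.D2 (Ctx0)

universe u

variable {k Ω : Type u} [Field k] [Field Ω] [Algebra k Ω] {v : RVal Ω} {r D : ℕ}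

section Etale

variable {n : ℕ} {s : Fin n → Ω} {e : Ω} {g : Polynomial Ω}

theorem ksub_eq_adj (S : Set Ω) : ksub k S = LUC.adj (algebraMap k Ω).range S := rfl

theorem Et.s_ne (he : Et k v s e g) (i : Fin n) : s i ≠ 0 := he.ind.ne_zero i

theorem Et.s_vpos (he : Et k v s e g) (i : Fin n) : VPos v (s i) := fun _ => he.pos i

theorem Et.nonneg (h : Ctx0 k v) (he : Et k v s e g) : ∀ f ∈ etR k s e, v.Ge 0 f := by
  refine ksub_nonneg h ?_
  rintro _ (rfl | ⟨i, rfl⟩)
  · exact fun h0 => (he.e_pos h0).le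
  · exact fun _ => (he.pos i).le

theorem Et.lv_nonneg (h : Ctx0 k v) (he : Et k v s e g) : ∀ f ∈ lv v (etR k s e), v.Ge 0 f :=
  LUC.lv_nonneg (he.nonneg h)

theorem ks_nonneg (h : Ctx0 k v) (he : Et k v s e g) :
    ∀ f ∈ ksub k (Set.range s), v.Ge 0 f :=
  ksub_nonneg h (by rintro _ ⟨i, rfl⟩; exact fun _ => (he.pos i).le)

theorem Et.k_mem (c : k) : algebraMap k Ω c ∈ etR k s e := Subring.subset_closure (Or.inl ⟨c, rfl⟩)

theorem Et.e_mem : e ∈ etR k s e := Subring.subset_closure (Or.inr (Set.mem_insert _ _))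

theorem Et.s_mem (i : Fin n) : s i ∈ etR k s e :=
  Subring.subset_closure (Or.inr (Set.mem_insert_of_mem _ ⟨i, rfl⟩))

theorem ks_le_etR : ksub k (Set.range s) ≤ etR k s e :=
  Subring.closure_mono (Set.union_subset_union_right _ (Set.subset_insert _ _))

/-- `k[s, e] ⊆ hensA k[s]` -/
theorem Et.le_hensA (h : Ctx0 k v) (he : Et k v s e g) :
    lv v (etR k s e) ≤ hensA v (ksub k (Set.range s)) := by
  have hH : HClosed v (hensA v (ksub k (Set.range s))) := hclosed_hensA (ks_nonneg h he)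
  have h1 : lv v (ksub k (Set.range s)) ≤ hensA v (ksub k (Set.range s)) :=
    LUC.lv_le (TW.le_hensA _) hH.inv
  have h2 : e ∈ hensA v (ksub k (Set.range s)) :=
    hH.root g e (fun i => h1 (he.coeff i)) (fun h0 => (he.e_pos h0).le) he.root he.der_ne he.der
  refine LUC.lv_le ?_ hH.inv
  rw [etR, ksub, Subring.closure_le]
  rintro x (⟨c, rfl⟩ | hx)
  · exact TW.le_hensA _ (Subring.subset_closure (Or.inl ⟨c, rfl⟩))
  · rcases Set.mem_insert_iff.1 hx with rfl | ⟨i, rfl⟩
    · exact h2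
    · exact TW.le_hensA _ (Subring.subset_closure (Or.inr ⟨i, rfl⟩))

/-! ### The parameters -/

/-- An element of the local ring of `k[s]` is a constant modulo the parameters. -/
theorem exists_const_ks (h : Ctx0 k v) (he : Et k v s e g) {f : Ω}
    (hf : f ∈ lv v (ksub k (Set.range s))) :
    ∃ c : k, IP (lv v (ksub k (Set.range s))) s 1 (f - algebraMap k Ω c) := by
  obtain ⟨c, hc⟩ := h.residue (LUC.lv_nonneg (ks_nonneg h he) f hf)
  have hpar : Par v (lv v (ksub k (Set.range s))) s :=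
    D2.par_lv h s he.s_vpos he.s_ne
  exact ⟨c, hpar.gen _ (sub_mem hf (LUC.le_lv v _ (Subring.subset_closure (Or.inl ⟨c, rfl⟩)))) hc⟩

/-- The polynomials over a ring, at `e`. -/
theorem eval_mem_of {O : Subring Ω} {P : Polynomial Ω} (hP : ∀ i, P.coeff i ∈ O) {a : Ω}
    (ha : a ∈ O) : P.eval a ∈ O := by
  rw [eval_eq_sum_range]
  exact sum_mem fun i _ => mul_mem (hP i) (pow_mem ha i)

theorem eval_sub_coeff {O : Subring Ω} (hO : ∀ f ∈ O, v.Ge 0 f) {P : Polynomial Ω}
    (hP : ∀ i, P.coeff i ∈ O) {a : Ω} (ha : a ∈ O) (hav : VPos v a) :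
    P.eval a = a * P.divX.eval a + P.coeff 0 ∧ P.divX.eval a ∈ O ∧
      VPos v (P.eval a - P.coeff 0) := by
  have h1 : P.divX.eval a ∈ O := eval_mem_of (fun i => by rw [coeff_divX]; exact hP _) ha
  have h2 : P.eval a = a * P.divX.eval a + P.coeff 0 := by
    conv_lhs => rw [← divX_mul_X_add P]
    rw [eval_add, eval_mul, eval_X, eval_C]
    ring
  refine ⟨h2, h1, ?_⟩
  rw [h2, add_sub_cancel_right, mul_comm]
  exact LU1.VPos.mul' (hO _ h1) hav

theorem Et.e_IP (h : Ctx0 k v) (he : Et k v s e g) : IP (lv v (etR k s e)) s 1 e := by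
  classical
  set B := lv v (ksub k (Set.range s)) with hB
  set O := lv v (etR k s e) with hO
  have hBO : B ≤ O := LUC.lv_mono ks_le_etR
  have hOn : ∀ f ∈ O, v.Ge 0 f := he.lv_nonneg h
  have heO : e ∈ O := LUC.le_lv v _ Et.e_mem
  have hkO : ∀ c : k, algebraMap k Ω c ∈ O := fun c => LUC.le_lv v _ (Et.k_mem c)
  have hsO : ∀ i, s i ∈ O := fun i => LUC.le_lv v _ (Et.s_mem i)
  have hsv : ∀ {f : Ω}, IP O s 1 f → VPos v f := fun hf => hf.vpos hOn he.s_vpos hsO
  -- the residue polynomial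
  have hc := fun i => exists_const_ks h he (he.coeff i)
  choose c hc using hc
  have hcO : ∀ i, IP O s 1 (g.coeff i - algebraMap k Ω (c i)) := fun i => (hc i).mono hBO hsO
  have hc0 : ∀ i, g.natDegree < i → c i = 0 := by
    intro i hi
    have h1 := hsv (hcO i)
    rw [coeff_eq_zero_of_natDegree_lt hi, zero_sub] at h1
    exact h.const_eq_zero (by simpa using h1.neg)
  let Q : Polynomial Ω := ∑ i ∈ Finset.range (g.natDegree + 1), monomial i (algebraMap k Ω (c i))
  have hQ : ∀ i, Q.coeff i = algebraMap k Ω (c i) := by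
    intro i
    simp only [Q, finsetSum_coeff, coeff_monomial]
    by_cases hi : i ∈ Finset.range (g.natDegree + 1)
    · rw [Finset.sum_ite_eq' _ i, if_pos hi]
    · rw [Finset.sum_ite_eq' _ i, if_neg hi, hc0 i (by
        rw [Finset.mem_range] at hi
        omega), map_zero]
  have hQO : ∀ i, Q.coeff i ∈ O := fun i => by rw [hQ]; exact hkO _
  have hQe : IP O s 1 (Q.eval e) := by
    have h1 : IP O s 1 ((g - Q).eval e) := by
      rw [eval_eq_sum_range]
      refine IP.sum _ _ fun i _ => IP.mul_right ?_ (pow_mem heO i)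
      rw [coeff_sub, hQ]
      exact hcO i
    rw [eval_sub, he.root, zero_sub] at h1
    simpa using h1.neg
  obtain ⟨h1, h2, h3⟩ := eval_sub_coeff hOn hQO heO he.e_pos
  have hq0 : Q.coeff 0 = 0 := by
    have h4 : VPos v (Q.coeff 0) := by
      have h5 : Q.coeff 0 = Q.eval e + -(Q.eval e - Q.coeff 0) := by ring
      rw [h5]
      exact VPos.add (hsv hQe) h3.neg
    rw [hQ] at h4 ⊢
    rw [h.const_eq_zero h4, map_zero]
  have hc1 : c 1 ≠ 0 := by
    intro h4
    have h5 : VPos v (g.coeff 1) := by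
      have h6 := hsv (hcO 1)
      rwa [h4, map_zero, sub_zero] at h6
    obtain ⟨-, -, h6⟩ := eval_sub_coeff (P := derivative g) hOn (fun i => by
      rw [coeff_derivative]
      exact mul_mem (hBO (he.coeff _)) (add_mem (natCast_mem O i) (one_mem _))) heO he.e_pos
    have h7 : (derivative g).coeff 0 = g.coeff 1 := by
      rw [coeff_derivative]
      simp
    rw [h7] at h6
    have h8 : VPos v ((derivative g).eval e) := by
      have h9 : (derivative g).eval e = ((derivative g).eval e - g.coeff 1) + g.coeff 1 := by ring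
      rw [h9]
      exact VPos.add h6 h5
    have h9 := h8 he.der_ne
    rw [he.der] at h9
    exact lt_irrefl _ h9
  -- the unit
  have hdO : ∀ i, Q.divX.coeff i ∈ O := fun i => by rw [coeff_divX]; exact hQO _
  obtain ⟨-, -, h4⟩ := eval_sub_coeff (P := Q.divX) hOn hdO heO he.e_pos
  rw [coeff_divX, zero_add, hQ] at h4
  set w := Q.divX.eval e with hw
  have hc1' : algebraMap k Ω (c 1) ≠ 0 := (_root_.map_ne_zero _).2 hc1
  have hwv : w ≠ 0 ∧ v w = 0 := by
    have h5 := LU1.val_add_vpos hc1' (h.triv _ hc1) h4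
    rwa [add_sub_cancel] at h5
  have h5 : e = Q.eval e * w⁻¹ := by
    rw [h1, hq0, add_zero, mul_assoc, mul_inv_cancel₀ hwv.1, mul_one]
  rw [h5]
  exact hQe.mul_right (LUC.lv_inv h2 hwv.1 hwv.2)

/-- An element of `k[s, e]` is a constant modulo the parameters. -/
theorem Et.exists_const (h : Ctx0 k v) (he : Et k v s e g) {f : Ω} (hf : f ∈ etR k s e) :
    ∃ c : k, IP (lv v (etR k s e)) s 1 (f - algebraMap k Ω c) := by
  have hle : etR k s e ≤ lv v (etR k s e) := LUC.le_lv v _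
  have hkO : ∀ c : k, algebraMap k Ω c ∈ lv v (etR k s e) := fun c => hle (Et.k_mem c)
  refine LUC.adj_induction (R := (algebraMap k Ω).range) (F := insert e (Set.range s))
    (p := fun f => ∃ c : k, IP (lv v (etR k s e)) s 1 (f - algebraMap k Ω c)) ?_ ?_ ?_ ?_ hf
  · rintro _ ⟨c, rfl⟩
    exact ⟨c, by rw [sub_self]; exact IP.zero⟩
  · intro x hx
    refine ⟨0, ?_⟩
    rw [map_zero, sub_zero]
    rcases Set.mem_insert_iff.1 hx with rfl | ⟨i, rfl⟩
    · exact he.e_IP h
    · exact IP.gen (hle (Et.s_mem i))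
  · rintro x y ⟨c, hc⟩ ⟨d, hd⟩
    refine ⟨c + d, ?_⟩
    rw [map_add, add_sub_add_comm]
    exact hc.add hd
  · rintro x y ⟨c, hc⟩ ⟨d, hd⟩
    refine ⟨c * d, ?_⟩
    have hy : y ∈ lv v (etR k s e) := by
      have h1 := add_mem hd.mem (hkO d)
      rwa [sub_add_cancel] at h1
    rw [map_mul, show x * y - algebraMap k Ω c * algebraMap k Ω d =
      (x - algebraMap k Ω c) * y + algebraMap k Ω c * (y - algebraMap k Ω d) by ring]
    exact (hc.mul_right hy).add (hd.mul_left (hkO c))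

theorem Et.par (h : Ctx0 k v) (he : Et k v s e g) : Par v (lv v (etR k s e)) s := by
  have hle : etR k s e ≤ lv v (etR k s e) := LUC.le_lv v _
  have hOn : ∀ f ∈ lv v (etR k s e), v.Ge 0 f := he.lv_nonneg h
  have hsO : ∀ i, s i ∈ lv v (etR k s e) := fun i => hle (Et.s_mem i)
  refine ⟨hsO, he.s_ne, he.pos, ?_⟩
  rintro f ⟨a, ha, b, hb, hb0, hvb, rfl⟩ hpos
  obtain ⟨c, hc⟩ := he.exists_const h ha
  have hapos : VPos v a := by
    intro ha0
    have h2 := hpos (div_ne_zero ha0 hb0)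
    rw [v.map_div ha0 hb0, hvb, sub_zero] at h2
    exact h2
  have hc0 : c = 0 := by
    refine h.const_eq_zero ?_
    have h1 : algebraMap k Ω c = a + -(a - algebraMap k Ω c) := by ring
    rw [h1]
    exact VPos.add hapos (hc.vpos hOn he.s_vpos hsO).neg
  rw [hc0, map_zero, sub_zero] at hc
  rw [div_eq_mul_inv]
  exact hc.mul_right (LUC.lv_inv (hle hb) hb0 hvb)

/-! ### The dimension -/

/-- The valuation ring of `v`. -/
def VS (v : RVal Ω) : ValuationSubring Ω :=
  { OVt v with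
    mem_or_inv_mem' := by
      intro x
      by_cases hx : x = 0
      · exact Or.inl fun h => absurd hx h
      · rcases le_total 0 (v x) with h | h
        · exact Or.inl fun _ => h
        · right
          intro _
          rw [v.map_inv hx]
          linarith }

theorem mem_VS {f : Ω} : f ∈ VS v ↔ v.Ge 0 f := Iff.rfl

theorem VS_lt {f : Ω} : (VS v).valuation f < 1 ↔ VPos v f := by
  rw [← not_le]
  constructor
  · intro h1 h0
    by_contra h2
    apply h1
    have h3 : f⁻¹ ∈ VS v := by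
      rw [mem_VS]
      intro _
      rw [v.map_inv h0]
      linarith
    have h4 := ((VS v).valuation_le_one_iff _).2 h3
    rw [map_inv₀] at h4
    exact (inv_le_one₀ (zero_lt_iff.2 ((Valuation.ne_zero_iff _).2 h0))).1 h4
  · intro h1 h2
    have h0 : f ≠ 0 := by
      rintro rfl
      rw [map_zero] at h2
      exact not_lt.2 h2 zero_lt_one
    have h3 : f⁻¹ ∈ VS v := by
      rw [← ValuationSubring.valuation_le_one_iff, map_inv₀]
      exact inv_le_one_of_one_le₀ h2
    have h4 := (mem_VS.1 h3) (inv_ne_zero h0)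
    rw [v.map_inv h0] at h4
    linarith [h1 h0]

theorem VS_eq {f : Ω} : (VS v).valuation f = 1 ↔ f ≠ 0 ∧ v f = 0 := by
  have h1 : (VS v).valuation f ≤ 1 ↔ v.Ge 0 f := (VS v).valuation_le_one_iff f
  have h2 := VS_lt (v := v) (f := f)
  constructor
  · intro h
    have h0 : f ≠ 0 := by
      rintro rfl
      rw [map_zero] at h
      exact zero_ne_one h
    refine ⟨h0, le_antisymm ?_ (h1.1 h.le h0)⟩
    by_contra h3
    rw [not_le] at h3
    exact absurd (h2.2 fun _ => h3) (by rw [h]; exact lt_irrefl _)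
  · rintro ⟨h0, h⟩
    refine le_antisymm (h1.2 fun _ => h.ge) ?_
    rw [← not_lt, h2]
    intro h3
    exact absurd (h3 h0) (by rw [h]; exact lt_irrefl _)

/-- `lv k[S]`, as a subalgebra. -/
def lvA (k : Type u) {Ω : Type u} [Field k] [Field Ω] [Algebra k Ω] (v : RVal Ω) (S : Set Ω) :
    Subalgebra k Ω :=
  { lv v (ksub k S) with
    algebraMap_mem' := fun c => LUC.le_lv v _ (Subring.subset_closure (Or.inl ⟨c, rfl⟩)) }

theorem mem_lvA {S : Set Ω} {f : Ω} : f ∈ lvA k v S ↔ f ∈ lv v (ksub k S) := Iff.rfl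

/-- The identity, as a ring isomorphism. -/
def lvE (k : Type u) {Ω : Type u} [Field k] [Field Ω] [Algebra k Ω] (v : RVal Ω) (S : Set Ω) :
    lvA k v S ≃+* lv v (ksub k S) where
  toFun := fun x => ⟨x.1, x.2⟩
  invFun := fun x => ⟨x.1, x.2⟩
  left_inv := fun _ => rfl
  right_inv := fun _ => rfl
  map_mul' := fun _ _ => rfl
  map_add' := fun _ _ => rfl

theorem dom_lvA (h : Ctx0 k v) {S : Set Ω} (hfin : S.Finite) (hS : ∀ a ∈ S, v.Ge 0 a) :
    LUC.Dom (VS v) (lvA k v S) where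
  mem := LUC.lv_nonneg (ksub_nonneg h hS)
  inv := fun b hb h1 => LUC.lv_inv hb (VS_eq.1 h1).1 (VS_eq.1 h1).2
  noe := by
    have h1 : IsNoetherianRing (algebraMap k Ω).range :=
      isNoetherianRing_of_surjective k _ (algebraMap k Ω).rangeRestrict
        (algebraMap k Ω).rangeRestrict_surjective
    have h2 : IsNoetherianRing (ksub k S) := by
      have h3 := LUC.adj_isNoetherian (algebraMap k Ω).range hfin.toFinset
      rw [hfin.coe_toFinset] at h3
      exact h3
    have h3 : IsNoetherianRing (lv v (ksub k S)) := LUC.lv_isNoetherian _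
    exact isNoetherianRing_of_ringEquiv _ (lvE k v S).symm

theorem locV_adjU {S : Set Ω} {e : Ω} :
    LUM.locV (VS v) (LUC.adjU (lvA k v S) e) = lvA k v (insert e S) := by
  have h1 : ∀ f, f ∈ LUC.adjU (lvA k v S) e ↔ f ∈ LUC.adj (lv v (ksub k S)) {e} := by
    intro f
    constructor
    · intro hf
      refine Algebra.adjoin_induction (p := fun f _ => f ∈ LUC.adj (lv v (ksub k S)) {e})
        ?_ ?_ ?_ ?_ hf
      · rintro x (hx | hx)
        · exact LUC.base_le_adj _ _ hx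
        · exact LUC.mem_adj hx
      · exact fun c => LUC.base_le_adj _ _ ((lvA k v S).algebraMap_mem c)
      · exact fun _ _ _ _ h h' => add_mem h h'
      · exact fun _ _ _ _ h h' => mul_mem h h'
    · intro hf
      refine LUC.adj_induction (p := fun f => f ∈ LUC.adjU (lvA k v S) e) ?_ ?_ ?_ ?_ hf
      · exact fun x hx => LUC.le_adjU _ _ hx
      · rintro x rfl
        exact LUC.mem_adjU _ _
      · exact fun _ _ h h' => add_mem h h'
      · exact fun _ _ h h' => mul_mem h h'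
  have h2 : lv v (LUC.adj (lv v (ksub k S)) {e}) = lv v (ksub k (insert e S)) := by
    rw [ksub_eq_adj, ksub_eq_adj, LUC.lv_adj_lv, LUC.adj_adj, Set.union_singleton]
  apply SetLike.ext
  intro f
  rw [mem_lvA, ← h2]
  constructor
  · rintro ⟨a, ha, b, hb, h3, rfl⟩
    exact ⟨a, (h1 a).1 ha, b, (h1 b).1 hb, (VS_eq.1 h3).1, (VS_eq.1 h3).2, rfl⟩
  · rintro ⟨a, ha, b, hb, h3, h4, rfl⟩
    exact ⟨a, (h1 a).2 ha, b, (h1 b).2 hb, VS_eq.2 ⟨h3, h4⟩, rfl⟩

theorem Et.isPar [IsAlgClosed k] (h : Ctx0 k v) (he : Et k v s e g) :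
    LUM.IsPar (VS v) (lvA k v (insert e (Set.range s))) s := by
  classical
  set S := Set.range s with hS
  have hSn : ∀ a ∈ S, v.Ge 0 a := by rintro _ ⟨i, rfl⟩; exact fun _ => (he.pos i).le
  have hD : LUC.Dom (VS v) (lvA k v S) := dom_lvA h (Set.finite_range s) hSn
  have hpar : Par v (lv v (ksub k S)) s := D2.par_lv h s he.s_vpos he.s_ne
  have hP : LUM.IsPar (VS v) (lvA k v S) s := by
    refine ⟨hpar.mem, he.s_ne, fun i => VS_lt.2 (he.s_vpos i), fun f hf hf1 => ?_, ?_⟩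
    · obtain ⟨a, ha, hfa⟩ := (IP.one_iff hpar.mem).1 (hpar.gen f hf (VS_lt.1 hf1))
      exact ⟨a, ha, hfa⟩
    · rw [ringKrullDim_eq_of_ringEquiv (lvE k v S)]
      exact D2.dim_lv h s he.s_vpos he.ind
  -- the etale equation
  set O := lv v (etR k s e) with hO
  have hBO : lv v (ksub k S) ≤ O := LUC.lv_mono ks_le_etR
  have hOn : ∀ f ∈ O, v.Ge 0 f := he.lv_nonneg h
  have heO : e ∈ O := LUC.le_lv v _ Et.e_mem
  have hg1 : g.coeff 1 ≠ 0 ∧ v (g.coeff 1) = 0 := by
    obtain ⟨-, -, h6⟩ := eval_sub_coeff (P := derivative g) hOn (fun i => by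
      rw [coeff_derivative]
      exact mul_mem (hBO (he.coeff _)) (add_mem (natCast_mem O i) (one_mem _))) heO he.e_pos
    have h7 : (derivative g).coeff 0 = g.coeff 1 := by
      rw [coeff_derivative]
      simp
    rw [h7] at h6
    have h8 := LU1.val_add_vpos he.der_ne he.der h6.neg
    rwa [neg_sub, add_sub_cancel] at h8
  have hinv : (g.coeff 1)⁻¹ ∈ lvA k v S := LUC.lv_inv (he.coeff 1) hg1.1 hg1.2
  let G : Polynomial (lvA k v S) :=
    ∑ i ∈ Finset.range (g.natDegree + 1), monomial i (⟨g.coeff i, he.coeff i⟩ : lvA k v S)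
  have hG : ∀ i, ((G.coeff i : lvA k v S) : Ω) = g.coeff i := by
    intro i
    simp only [G, finsetSum_coeff, coeff_monomial]
    by_cases hi : i ∈ Finset.range (g.natDegree + 1)
    · rw [Finset.sum_ite_eq' _ i, if_pos hi]
    · rw [Finset.sum_ite_eq' _ i, if_neg hi, coeff_eq_zero_of_natDegree_lt (by
        rw [Finset.mem_range] at hi
        omega)]
      rfl
  have hGe : aeval e G = 0 := by
    simp only [G]
    rw [map_sum, ← he.root, eval_eq_sum_range]
    refine Finset.sum_congr rfl fun i _ => ?_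
    rw [aeval_monomial]
    rfl
  have hfin := LUC.isPar_adjU_of_etale hD hP (u := e) (VS_lt.2 he.e_pos)
    (C (⟨(g.coeff 1)⁻¹, hinv⟩ : lvA k v S) * G) (by rw [map_mul, hGe, mul_zero]) (by
      rw [coeff_C_mul]
      apply Subtype.ext
      show (g.coeff 1)⁻¹ * ((G.coeff 1 : lvA k v S) : Ω) = 1
      rw [hG, inv_mul_cancel₀ hg1.1])
  rw [locV_adjU] at hfin
  exact hfin

theorem Et.dim [IsAlgClosed k] (h : Ctx0 k v) (he : Et k v s e g) :
    ringKrullDim (lv v (etR k s e)) = n := by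
  rw [← ringKrullDim_eq_of_ringEquiv (lvE k v (insert e (Set.range s)))]
  exact (he.isPar h).dim

/-- The parameters are prime elements. -/
theorem Et.prime [IsAlgClosed k] (h : Ctx0 k v) (he : Et k v s e g) (i : Fin n)
    (hi : s i ∈ lv v (etR k s e)) : Prime (⟨s i, hi⟩ : lv v (etR k s e)) := by
  classical
  have hSn : ∀ a ∈ insert e (Set.range s), v.Ge 0 a := by
    rintro _ (rfl | ⟨i, rfl⟩)
    · exact fun h0 => (he.e_pos h0).le
    · exact fun _ => (he.pos i).le
  have hD : LUC.Dom (VS v) (lvA k v (insert e (Set.range s))) :=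
    dom_lvA h ((Set.finite_range s).insert e) hSn
  have hP := he.isPar h
  obtain ⟨hreg, hspan⟩ := hD.regular hP
  obtain ⟨hq, hdim⟩ := Pool.Agent.BEH5.Reg.quot_span_regular hP.dim _ hspan {i}
  have hdom := Pool.Agent.BEH5.Reg.isDomain_of_regular _ _ hdim
  have hpr := (Ideal.Quotient.isDomain_iff_prime _).1 hdom
  rw [Finset.coe_singleton, Set.image_singleton] at hpr
  have h0 : (⟨s i, hP.mem i⟩ : lvA k v (insert e (Set.range s))) ≠ 0 := by
    intro h1
    exact he.s_ne i (congrArg Subtype.val h1)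
  have h1 : Prime (⟨s i, hP.mem i⟩ : lvA k v (insert e (Set.range s))) :=
    (Ideal.span_singleton_prime h0).1 hpr
  exact (MulEquiv.prime_iff (lvE k v (insert e (Set.range s))).toMulEquiv).2 h1

end Etale

/-- The units of `O[1/x]` are monomials. -/
theorem mono_of_prime {F : Fr k v r D} {O : Subring Ω}
    (hO : ∀ f ∈ O, v.Ge 0 f) (hx : ∀ i, F.x i ∈ O)
    (hpr : ∀ i, Prime (⟨F.x i, hx i⟩ : O)) {f : Ω} (hf0 : f ≠ 0)
    (hf : ∃ l : Fin r → ℤ, mx F.x l * f ∈ O) (hf' : ∃ l : Fin r → ℤ, mx F.x l * f⁻¹ ∈ O) :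
    ∃ l : Fin r → ℤ, ∃ w ∈ O, w ≠ 0 ∧ v w = 0 ∧ f = mx F.x l * w := by
  classical
  have hup : ∀ {g : Ω} {l : Fin r → ℤ}, mx F.x l * g ∈ O → ∀ m : Fin r → ℤ, (∀ i, l i ≤ m i) →
      mx F.x m * g ∈ O := by
    intro g l hg m hm
    have h1 : m = (m - l) + l := by ring
    rw [h1, P2.mx_add, mul_assoc]
    refine mul_mem (prod_mem fun i _ => ?_) hg
    obtain ⟨n, hn⟩ := Int.eq_ofNat_of_zero_le (sub_nonneg.2 (hm i))
    rw [Pi.sub_apply, hn, zpow_natCast]
    exact pow_mem (hx i) n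
  obtain ⟨l, hl⟩ := hf
  obtain ⟨l', hl'⟩ := hf'
  obtain ⟨n, hn⟩ : ∃ n : ℕ, ∀ i, l i ≤ n ∧ l' i ≤ n := by
    refine ⟨∑ i, ((l i).toNat + (l' i).toNat), fun i => ?_⟩
    have h1 : (l i).toNat + (l' i).toNat ≤ ∑ i, ((l i).toNat + (l' i).toNat) :=
      Finset.single_le_sum (f := fun i => (l i).toNat + (l' i).toNat) (fun _ _ => Nat.zero_le _)
        (Finset.mem_univ i)
    omega
  have ha := hup hl (fun _ => (n : ℤ)) fun i => (hn i).1
  have hb := hup hl' (fun _ => (n : ℤ)) fun i => (hn i).2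
  set X := mx F.x (fun _ => (n : ℤ)) with hX
  have hX0 : X ≠ 0 := P2.mx_ne F _
  have hXX : X * f * (X * f⁻¹) = ∏ p : Fin r × Fin (2 * n), F.x p.1 := by
    rw [Fintype.prod_prod_type]
    simp only [Finset.prod_const, Finset.card_univ, Fintype.card_fin]
    rw [hX, mx]
    have h1 : ∀ i, F.x i ^ (2 * n) = F.x i ^ (n : ℤ) * F.x i ^ (n : ℤ) := fun i => by
      rw [zpow_natCast, two_mul, pow_add]
    rw [Finset.prod_congr rfl fun i _ => h1 i, Finset.prod_mul_distrib]
    field_simp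
  obtain ⟨t, u, b, c, -, -, hbc, h1, -⟩ := mul_eq_mul_prime_prod (R := O)
    (x := ⟨X * f, ha⟩) (y := ⟨X * f⁻¹, hb⟩) (a := 1) (s := Finset.univ)
    (p := fun p : Fin r × Fin (2 * n) => (⟨F.x p.1, hx p.1⟩ : O)) (fun p _ => hpr p.1) (by
      apply Subtype.ext
      rw [one_mul]
      show X * f * (X * f⁻¹) = ((∏ p : Fin r × Fin (2 * n), (⟨F.x p.1, hx p.1⟩ : O) : O) : Ω)
      rw [hXX]
      exact (map_prod O.subtype (fun p : Fin r × Fin (2 * n) => (⟨F.x p.1, hx p.1⟩ : O))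
        Finset.univ).symm)
  have hbcΩ : (b : Ω) * c = 1 := by
    have h2 := congrArg (Subtype.val) hbc
    exact h2.symm
  have hb0 : (b : Ω) ≠ 0 := left_ne_zero_of_mul_eq_one hbcΩ
  have hc0 : (c : Ω) ≠ 0 := right_ne_zero_of_mul_eq_one hbcΩ
  have hvb : v (b : Ω) = 0 := by
    have h2 := hO b b.2 hb0
    have h3 := hO c c.2 hc0
    have h4 := v.map_mul hb0 hc0
    rw [hbcΩ, v.map_one] at h4
    linarith
  have h2 : X * f = b * ∏ p ∈ t, F.x p.1 := by
    have h3 := congrArg (Subtype.val) h1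
    have h4 : (((b * ∏ p ∈ t, (⟨F.x p.1, hx p.1⟩ : O) : O)) : Ω) = b * ∏ p ∈ t, F.x p.1 := by
      have h5 := map_prod O.subtype (fun p : Fin r × Fin (2 * n) => (⟨F.x p.1, hx p.1⟩ : O)) t
      have h6 : O.subtype (b * ∏ p ∈ t, (⟨F.x p.1, hx p.1⟩ : O)) =
        O.subtype b * O.subtype (∏ p ∈ t, (⟨F.x p.1, hx p.1⟩ : O)) := map_mul _ _ _
      rw [h5] at h6
      exact h6
    rw [← h4]
    exact h3
  have h3 : ∀ t : Finset (Fin r × Fin (2 * n)), ∃ m : Fin r → ℤ,
      ∏ p ∈ t, F.x p.1 = mx F.x m := by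
    intro t
    induction t using Finset.induction_on with
    | empty => exact ⟨0, by rw [Finset.prod_empty, P2.mx_zero]⟩
    | insert p t hp ih =>
      obtain ⟨m, hm⟩ := ih
      refine ⟨Pi.single p.1 1 + m, ?_⟩
      rw [Finset.prod_insert hp, hm, P2.mx_add, P2.mx_single, zpow_one]
  obtain ⟨m, hm⟩ := h3 t
  refine ⟨m - fun _ => (n : ℤ), b, b.2, hb0, hvb, ?_⟩
  have h4 : mx F.x m = mx F.x (m - fun _ => (n : ℤ)) * X := by
    rw [hX, ← P2.mx_add, sub_add_cancel]
  rw [hm, h4] at h2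
  have h5 : X * f = X * (mx F.x (m - fun _ => (n : ℤ)) * b) := by
    rw [h2]; ring
  exact mul_left_cancel₀ hX0 h5

/-- The units of `O[1/x]` are monomials. -/
theorem Et.mono_of_unit [IsAlgClosed k] (h : Ctx k v r) {F : Fr k v r D} {e : Ω}
    {g : Polynomial Ω} (he : Et k v F.s e g) {f : Ω} (hf0 : f ≠ 0)
    (hf : ∃ l : Fin r → ℤ, mx F.x l * f ∈ lv v (etR k F.s e))
    (hf' : ∃ l : Fin r → ℤ, mx F.x l * f⁻¹ ∈ lv v (etR k F.s e)) : MonoO F e f := by
  have hxs : ∀ i, F.x i = F.s (Fin.castAdd D i) := fun i => by simp [Fr.s]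
  have hx : ∀ i, F.x i ∈ lv v (etR k F.s e) := fun i => by
    rw [hxs]
    exact LUC.le_lv v _ (Et.s_mem _)
  refine mono_of_prime (he.lv_nonneg h.toCtx0) hx (fun i => ?_) hf0 hf hf'
  have h1 := he.prime h.toCtx0 (Fin.castAdd D i) (LUC.le_lv v _ (Et.s_mem _))
  have h2 : (⟨F.x i, hx i⟩ : lv v (etR k F.s e)) =
      ⟨F.s (Fin.castAdd D i), LUC.le_lv v _ (Et.s_mem _)⟩ := Subtype.ext (hxs i)
  rw [h2]
  exact h1

end Pool.Agent.TW
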