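import Pool.Agent.Lib.TW.X1m
import Pool.Agent.Lib.TW.H2

/-!
# TANK W, exit row X1: a field between `Frac A` and `Frac (hensA v A)`

`exists_etale_gen`: for `A` normal and `f ∈ hensA v A` the field `L(f)`, `L` the field of fractions
of `A`, is `L(e)` with a simple root `e` of positive value of a monic polynomial over the local ring
of `A`.  `e = μ(c)`, `μ` the minimal polynomial over `L(f)` of the element `θ` of `exists_etale`,
`c` the residue of `θ`.
-/

set_option autoImplicit false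

open Polynomial

namespace Pool.Agent.TW

open Pool.Agent.H15JM (RVal)
open Pool.Agent.LU1 (VPos adj)
open Pool.Agent.LUC (lv le_lv mem_lv lv_mono lv_le lv_inv lv_nonneg lv_lv)
open Pool.Agent.D2 (Ctx0)
open Pool.Agent.D2P (hen mem_hen mem_adj_self adj_le mem_of_conj isSeparable_mono)

universe u

variable {k Ω : Type u} [Field k] [Field Ω] [Algebra k Ω] {v : RVal Ω}

/-- The field of fractions of a ring containing `k`. -/
def fracI (A : Subring Ω) (hk : ∀ c : k, algebraMap k Ω c ∈ A) : IntermediateField k Ω :=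
  (fracF A).toIntermediateField fun c => le_fracF (hk c)

theorem mem_fracI {A : Subring Ω} {hk : ∀ c : k, algebraMap k Ω c ∈ A} {f : Ω} :
    f ∈ fracI A hk ↔ InFrac A f := Iff.rfl

theorem le_fracI {A : Subring Ω} (hk : ∀ c : k, algebraMap k Ω c ∈ A) {f : Ω} (hf : f ∈ A) :
    f ∈ fracI A hk := le_fracF hf

theorem exists_vpos_of_prod {s : Multiset Ω} (hs : ∀ a ∈ s, v.Ge 0 a) (h : VPos v s.prod) :
    ∃ a ∈ s, VPos v a := by
  induction s using Multiset.induction_on with
  | empty =>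
    rw [Multiset.prod_zero] at h
    have := h one_ne_zero
    rw [v.map_one] at this
    exact absurd this (lt_irrefl _)
  | cons a s ih =>
    by_cases ha : VPos v a
    · exact ⟨a, Multiset.mem_cons_self a s, ha⟩
    · have ha0 : a ≠ 0 := by
        rintro rfl
        exact ha LU1.VPos.zero
      have hva : v a = 0 := by
        have h1 := hs a (Multiset.mem_cons_self a s) ha0
        by_contra hne
        exact ha fun _ => lt_of_le_of_ne h1 (Ne.symm hne)
      obtain ⟨b, hb, hb'⟩ := ih (fun b hb => hs b (Multiset.mem_cons_of_mem hb)) (by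
        intro h0
        rw [Multiset.prod_cons] at h
        have h1 := h (mul_ne_zero ha0 h0)
        rwa [v.map_mul ha0 h0, hva, zero_add] at h1)
      exact ⟨b, Multiset.mem_cons_of_mem hb, hb'⟩

theorem val_prod_eq_zero {s : Multiset Ω} (hs : ∀ a ∈ s, a ≠ 0 ∧ v a = 0) :
    s.prod ≠ 0 ∧ v s.prod = 0 := by
  induction s using Multiset.induction_on with
  | empty =>
    rw [Multiset.prod_zero]
    exact ⟨one_ne_zero, v.map_one⟩
  | cons a s ih =>
    obtain ⟨h1, h2⟩ := hs a (Multiset.mem_cons_self a s)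
    obtain ⟨h3, h4⟩ := ih fun b hb => hs b (Multiset.mem_cons_of_mem hb)
    rw [Multiset.prod_cons]
    exact ⟨mul_ne_zero h1 h3, by rw [v.map_mul h1 h3, h2, h4, add_zero]⟩

theorem isIntegral_prod_multiset {A : Subring Ω} {s : Multiset Ω} (hs : ∀ a ∈ s, IsIntegral A a) :
    IsIntegral A s.prod := by
  induction s using Multiset.induction_on with
  | empty =>
    rw [Multiset.prod_zero]
    exact isIntegral_one
  | cons a s ih =>
    rw [Multiset.prod_cons]
    exact (hs a (Multiset.mem_cons_self a s)).mul (ih fun b hb => hs b (Multiset.mem_cons_of_mem hb))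

theorem exists_liftI {K : IntermediateField k Ω} {g : Polynomial Ω} (hg : ∀ i, g.coeff i ∈ K) :
    ∃ q : Polynomial K, q.map (algebraMap K Ω) = g := by
  have h : g ∈ lifts (algebraMap K Ω) := by
    rw [lifts_iff_coeff_lifts]
    intro n
    exact ⟨⟨g.coeff n, hg n⟩, rfl⟩
  exact (mem_lifts _).1 h

theorem map_lift_of_fix {K : IntermediateField k Ω} {A : Subring Ω} {g : Polynomial Ω}
    (hgA : ∀ i, g.coeff i ∈ A) {q : Polynomial K} (hq : q.map (algebraMap K Ω) = g)
    (ρ : K →+* Ω) (hρ : ∀ a : K, (a : Ω) ∈ A → ρ a = a) : q.map ρ = g := by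
  ext i
  have h1 : ((q.coeff i : K) : Ω) = g.coeff i := by
    rw [← hq, coeff_map]
    rfl
  rw [coeff_map, hρ _ (by rw [h1]; exact hgA i), h1]

/-- The value at a constant of the minimal polynomial, through a homomorphism. -/
theorem fix_of_vpos [IsAlgClosed Ω] {A : Subring Ω} {K : IntermediateField k Ω}
    {g : Polynomial Ω} {θ f : Ω} {P Q : Polynomial Ω}
    (hg : g.Monic) (hgA : ∀ i, g.coeff i ∈ A) (hA : ∀ a ∈ A, v.Ge 0 a) (hAK : ∀ a ∈ A, a ∈ K)
    (h0 : g.eval θ = 0) (hd : g.derivative.eval θ ≠ 0) (hd' : v (g.derivative.eval θ) = 0)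
    (hP : ∀ i, P.coeff i ∈ A) (hQ : ∀ i, Q.coeff i ∈ A) (hQ0 : Q.eval θ ≠ 0) (hf : f ∈ K)
    (hfe : f = P.eval θ / Q.eval θ) {c : Ω} (hc : c ∈ A) (hcv : VPos v (θ - c))
    (ρ : K →+* Ω) (hρ : ∀ a : K, (a : Ω) ∈ A → ρ a = a)
    (hv : VPos v (ρ ((minpoly K θ).eval ⟨c, hAK c hc⟩))) : ρ ⟨f, hf⟩ = f := by
  classical
  obtain ⟨gK, hgK⟩ := exists_liftI (K := K) fun i => hAK _ (hgA i)
  obtain ⟨PK, hPK⟩ := exists_liftI (K := K) fun i => hAK _ (hP i)
  obtain ⟨QK, hQK⟩ := exists_liftI (K := K) fun i => hAK _ (hQ i)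
  have hθA : IsIntegral A θ := isIntegral_iff_coeff.2 ⟨g, hg, hgA, h0⟩
  have hθK : IsIntegral K θ := by
    refine ⟨gK, ?_, ?_⟩
    · have := hg
      rw [← hgK] at this
      exact monic_of_injective (algebraMap K Ω).injective this
    · rw [← eval_map, hgK, h0]
  have hdvd : minpoly K θ ∣ gK := minpoly.dvd K θ (by rw [aeval_def, ← eval_map, hgK, h0])
  have hdvd' : (minpoly K θ).map ρ ∣ g := by
    rw [← map_lift_of_fix hgA hgK ρ hρ]
    exact Polynomial.map_dvd ρ hdvd
  have hmon : ((minpoly K θ).map ρ).Monic := (minpoly.monic hθK).map ρ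
  have hev : ρ ((minpoly K θ).eval ⟨c, hAK c hc⟩) =
      ((((minpoly K θ).map ρ).roots).map (c - ·)).prod := by
    rw [← (IsAlgClosed.splits ((minpoly K θ).map ρ)).eval_eq_prod_roots_of_monic hmon]
    have h1 : c = ρ ⟨c, hAK c hc⟩ := (hρ ⟨c, hAK c hc⟩ hc).symm
    conv_rhs => rw [h1]
    exact (eval_map_apply _ _).symm
  rw [hev] at hv
  have hroot : ∀ r ∈ ((minpoly K θ).map ρ).roots, g.eval r = 0 ∧ v.Ge 0 r := by
    intro r hr
    have h1 : ((minpoly K θ).map ρ).eval r = 0 := isRoot_of_mem_roots hr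
    have h2 : g.eval r = 0 := by
      obtain ⟨w, hw⟩ := hdvd'
      rw [hw, eval_mul, h1, zero_mul]
    exact ⟨h2, ge_of_isIntegral hA (isIntegral_iff_coeff.2 ⟨g, hg, hgA, h2⟩)⟩
  obtain ⟨a, ha, hav⟩ := exists_vpos_of_prod (v := v) (by
    intro a ha
    obtain ⟨r, hr, rfl⟩ := Multiset.mem_map.1 ha
    exact (hA c hc).sub (hroot r hr).2) hv
  obtain ⟨r, hr, rfl⟩ := Multiset.mem_map.1 ha
  have hrθ : r = θ := by
    refine H2aux.root_unique (fun i => hA _ (hgA i)) (ge_of_isIntegral hA hθA) (hroot r hr).2 h0 hd hd'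
      (hroot r hr).1 ?_
    have h1 : r - θ = -((c - r) + (θ - c)) := by ring
    rw [h1]
    exact (hav.add hcv).neg
  rw [hrθ] at hr
  have hμθ : ((minpoly K θ).map ρ).eval θ = 0 := isRoot_of_mem_roots hr
  have h1 : minpoly K θ ∣ C ⟨f, hf⟩ * QK - PK := by
    refine minpoly.dvd K θ ?_
    rw [map_sub, map_mul, aeval_C, aeval_def, aeval_def, ← eval_map, ← eval_map, hPK, hQK]
    show f * _ - _ = 0
    rw [hfe, div_mul_cancel₀ _ hQ0, sub_self]
  have h2 := Polynomial.map_dvd ρ h1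
  rw [Polynomial.map_sub, Polynomial.map_mul, map_C, map_lift_of_fix hQ hQK ρ hρ,
    map_lift_of_fix hP hPK ρ hρ] at h2
  obtain ⟨w, hw⟩ := h2
  have h3 := congrArg (eval θ) hw
  rw [eval_sub, eval_mul, eval_C, eval_mul, hμθ, zero_mul, sub_eq_zero] at h3
  have h4 : ρ ⟨f, hf⟩ = P.eval θ / Q.eval θ := by rw [← h3, mul_div_cancel_right₀ _ hQ0]
  rw [h4]
  exact hfe.symm

/-- The homomorphism to a conjugate. -/
theorem exists_hom_conj [IsAlgClosed Ω] {M K : IntermediateField k Ω} {f a' : Ω}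
    (hf : IsIntegral M f) (ha : aeval a' (minpoly M f) = 0) (hK : K ≤ adj M f) :
    ∃ ρ : K →+* Ω, (∀ a : K, (a : Ω) ∈ M → ρ a = a) ∧ ∀ hf' : f ∈ K, ρ ⟨f, hf'⟩ = a' := by
  classical
  obtain ⟨N, hN'⟩ : ∃ N : IntermediateField M Ω, N = IntermediateField.adjoin M {f} := ⟨_, rfl⟩
  have hN : K ≤ N.restrictScalars k := by
    refine hK.trans (adj_le ?_ ?_)
    · intro x hx
      exact N.algebraMap_mem ⟨x, hx⟩
    · rw [hN']
      exact IntermediateField.mem_adjoin_simple_self M f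
  obtain ⟨σ, hσ⟩ : ∃ σ : N →ₐ[M] Ω, ∀ h1 : f ∈ N, σ ⟨f, h1⟩ = a' := by
    subst hN'
    exact ⟨(IntermediateField.algHomAdjoinIntegralEquiv M hf).symm
      ⟨a', mem_aroots.2 ⟨minpoly.ne_zero hf, ha⟩⟩,
      fun _ => IntermediateField.algHomAdjoinIntegralEquiv_symm_apply_gen M hf _⟩
  refine ⟨(σ : N →+* Ω).comp ((algebraMap K Ω).codRestrict N fun a => hN a.2), fun a ha => ?_,
    fun hf' => hσ (hN hf')⟩
  exact σ.commutes ⟨a, ha⟩

/-- Two homomorphisms which agree on `L` and on `f` agree on `L(f)`. -/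
theorem eq_of_fix {L K : IntermediateField k Ω} {f : Ω} (hL : L ≤ K) (hf : f ∈ K)
    (hK : K ≤ adj L f) (ρ : K →+* Ω) (hρ : ∀ a : K, (a : Ω) ∈ L → ρ a = a)
    (hρf : ρ ⟨f, hf⟩ = f) (a : K) : ρ a = a := by
  let N : IntermediateField k Ω :=
    ((RingHom.eqLocusField ρ (algebraMap K Ω)).map (algebraMap K Ω)).toIntermediateField
      (fun c => by
        refine ⟨algebraMap k K c, ?_, rfl⟩
        exact hρ _ (L.algebraMap_mem c))
  have hN : ∀ x : Ω, x ∈ N → ∃ y : K, ρ y = y ∧ (y : Ω) = x := by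
    rintro x ⟨y, hy, hyx⟩
    exact ⟨y, hy, hyx⟩
  have h1 : adj L f ≤ N := by
    refine adj_le ?_ ?_
    · intro x hx
      exact ⟨⟨x, hL hx⟩, hρ ⟨x, hL hx⟩ hx, rfl⟩
    · exact ⟨⟨f, hf⟩, hρf, rfl⟩
  obtain ⟨y, hy, hyx⟩ := hN a (h1 (hK a.2))
  have : y = a := Subtype.ext hyx
  rw [← this]
  exact hy

/-- The minimal polynomial over the field of fractions has coefficients in the normal ring. -/
theorem coeff_minpoly_mem {A : Subring Ω} (hn : Nor A) {L : IntermediateField k Ω}
    (hL : ∀ f : Ω, f ∈ L ↔ InFrac A f) {e : Ω} (he : IsIntegral A e) (i : ℕ) :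
    ((minpoly L e).coeff i : Ω) ∈ A := by
  have hin : ∀ a ∈ A, a ∈ L := fun a ha => (hL a).2 (le_fracF ha)
  let φ : A →+* L := A.subtype.codRestrict L fun a => hin a a.2
  let _ : Algebra A L := φ.toAlgebra
  have hφ : ∀ a : A, ((algebraMap A L a : L) : Ω) = a := fun a => rfl
  have : IsScalarTower A L Ω := IsScalarTower.of_algebraMap_eq fun a => rfl
  have : FaithfulSMul A L := (faithfulSMul_iff_algebraMap_injective A L).2 fun a b hab => by
    have h1 := congrArg (fun x : L => (x : Ω)) hab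
    exact Subtype.ext h1
  have : IsFractionRing A L := IsFractionRing.of_field A L fun z => by
    obtain ⟨a, ha, b, hb, hb0, hz⟩ := (hL z).1 z.2
    refine ⟨⟨a, ha⟩, ⟨b, hb⟩, Subtype.ext ?_⟩
    rw [hz]
    rfl
  have : IsIntegrallyClosed A := isIntegrallyClosed_of hn
  rw [minpoly.isIntegrallyClosed_eq_field_fractions' L he, coeff_map]
  exact ((minpoly A e).coeff i).2

/-- A field `L(f)`, `f ∈ hensA v A`, `L` the field of fractions of `A`, is generated by a simple
root `e` of positive value of a monic polynomial over the local ring of `A`. -/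
theorem exists_etale_gen [IsAlgClosed Ω] (h : Ctx0 k v) {A : Subring Ω}
    (hk : ∀ c : k, algebraMap k Ω c ∈ A) (hA : ∀ a ∈ A, v.Ge 0 a) (hn : Nor A)
    {f : Ω} (hf : f ∈ hensA v A) :
    ∃ (e : Ω) (g : Polynomial Ω), VPos v e ∧ g.Monic ∧ (∀ i, g.coeff i ∈ lv v A) ∧ g.eval e = 0 ∧
      g.derivative.eval e ≠ 0 ∧ v (g.derivative.eval e) = 0 ∧
      adj (fracI A hk) e = adj (fracI A hk) f := by
  classical
  obtain ⟨g, θ, hg, hgA, h0, hd, hd', P, Q, hP, hQ, hQ0, hQv, hfe⟩ := exists_etale hA hf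
  set L := fracI A hk with hL
  set K := adj L f with hK
  have hLK : L ≤ K := (mem_adj_self L f).2
  have hfK : f ∈ K := (mem_adj_self L f).1
  have hA' : ∀ a ∈ lv v A, v.Ge 0 a := lv_nonneg hA
  have hLi : ∀ a : Ω, a ∈ L ↔ InFrac (lv v A) a := by
    intro a
    constructor
    · rintro ⟨a1, h1, a2, h2, h3, h4⟩
      exact ⟨a1, le_lv v A h1, a2, le_lv v A h2, h3, h4⟩
    · intro ha
      exact ha.of_lv
  have hAL : ∀ a ∈ lv v A, a ∈ L := fun a ha => (hLi a).2 (le_fracF ha)
  have hθA : IsIntegral (lv v A) θ := isIntegral_iff_coeff.2 ⟨g, hg, hgA, h0⟩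
  obtain ⟨c, hc⟩ := h.residue (ge_of_isIntegral hA' hθA)
  have hcA : algebraMap k Ω c ∈ lv v A := le_lv v A (hk c)
  obtain ⟨e, he⟩ : ∃ e : K, e = (minpoly K θ).eval ⟨algebraMap k Ω c, hLK (hAL _ hcA)⟩ := ⟨_, rfl⟩
  have key : ∀ ρ : K →+* Ω, (∀ a : K, (a : Ω) ∈ L → ρ a = a) → VPos v (ρ e) →
      ρ ⟨f, hfK⟩ = f := by
    intro ρ hρ hv
    rw [he] at hv
    exact fix_of_vpos hg hgA hA' (fun a ha => hLK (hAL a ha)) h0 hd hd'
      (fun i => le_lv v A (hP i)) (fun i => le_lv v A (hQ i)) hQ0 hfK hfe hcA hc ρ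
      (fun a ha => hρ a (hAL a ha)) hv
  -- `e` as a product
  obtain ⟨gK, hgK⟩ := exists_liftI (K := K) fun i => hLK (hAL _ (hgA i))
  have hθK : IsIntegral K θ := by
    refine ⟨gK, ?_, ?_⟩
    · have := hg
      rw [← hgK] at this
      exact monic_of_injective (algebraMap K Ω).injective this
    · rw [← eval_map, hgK, h0]
  have hdvd : (minpoly K θ).map (algebraMap K Ω) ∣ g := by
    rw [← hgK]
    exact Polynomial.map_dvd _ (minpoly.dvd K θ (by rw [aeval_def, ← eval_map, hgK, h0]))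
  have hmon : ((minpoly K θ).map (algebraMap K Ω)).Monic := (minpoly.monic hθK).map _
  have hev : (e : Ω) =
      ((((minpoly K θ).map (algebraMap K Ω)).roots).map (algebraMap k Ω c - ·)).prod := by
    rw [← (IsAlgClosed.splits ((minpoly K θ).map (algebraMap K Ω))).eval_eq_prod_roots_of_monic
      hmon, he]
    exact (eval_map_apply (algebraMap K Ω)
      (⟨algebraMap k Ω c, hLK (hAL _ hcA)⟩ : K)).symm
  have hroot : ∀ r ∈ ((minpoly K θ).map (algebraMap K Ω)).roots, IsIntegral (lv v A) r := by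
    intro r hr
    have h1 : ((minpoly K θ).map (algebraMap K Ω)).eval r = 0 := isRoot_of_mem_roots hr
    have h2 : g.eval r = 0 := by
      obtain ⟨w, hw⟩ := hdvd
      rw [hw, eval_mul, h1, zero_mul]
    exact isIntegral_iff_coeff.2 ⟨g, hg, hgA, h2⟩
  have hci : IsIntegral (lv v A) (algebraMap k Ω c) :=
    isIntegral_algebraMap (R := lv v A) (x := ⟨_, hcA⟩)
  have hei : IsIntegral (lv v A) (e : Ω) := by
    rw [hev]
    refine isIntegral_prod_multiset fun a ha => ?_
    obtain ⟨r, hr, rfl⟩ := Multiset.mem_map.1 ha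
    exact hci.sub (hroot r hr)
  have hepos : VPos v (e : Ω) := by
    have hθm : θ ∈ ((minpoly K θ).map (algebraMap K Ω)).roots := by
      rw [mem_roots hmon.ne_zero, IsRoot.def, eval_map, ← aeval_def]
      exact minpoly.aeval K θ
    obtain ⟨t, ht⟩ := Multiset.exists_cons_of_mem hθm
    rw [hev, ht, Multiset.map_cons, Multiset.prod_cons]
    have h1 : VPos v (algebraMap k Ω c - θ) := by
      have := hc.neg
      rwa [neg_sub] at this
    refine h1.mul (ge_of_isIntegral hA' (isIntegral_prod_multiset fun a ha => ?_))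
    obtain ⟨r, hr, rfl⟩ := Multiset.mem_map.1 ha
    exact hci.sub (hroot r (by rw [ht]; exact Multiset.mem_cons_of_mem hr))
  -- separability
  have hle : hensA v A ≤ OV v (hen v L) :=
    sInf_le ⟨fun a ha => ⟨D2P.le_hen L (le_fracI hk ha), hA a ha⟩, H2aux.hclosed_OV_hen h L⟩
  have hfh : f ∈ hen v L := (hle hf).1
  have hKh : K ≤ hen v L := adj_le (D2P.le_hen L) hfh
  have hsf : IsSeparable L f := (mem_hen.1 hfh).2
  have hse : IsSeparable L (e : Ω) := (mem_hen.1 (hKh e.2)).2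
  -- `f ∈ L(e)`
  have hfe' : f ∈ adj L (e : Ω) := by
    have hs' := isSeparable_mono (mem_adj_self L (e : Ω)).2 hsf
    refine mem_of_conj hs' fun a' ha' => ?_
    obtain ⟨ρ, hρ, hρf⟩ := exists_hom_conj (M := adj L (e : Ω)) (K := K) hs'.isIntegral ha'
      (adj_le ((mem_adj_self L (e : Ω)).2.trans (mem_adj_self (adj L (e : Ω)) f).2)
        (mem_adj_self (adj L (e : Ω)) f).1)
    have h1 := key ρ (fun a ha => hρ a ((mem_adj_self L (e : Ω)).2 ha)) (by
      rw [hρ e (mem_adj_self L (e : Ω)).1]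
      exact hepos)
    rwa [hρf hfK] at h1
  have hadj : adj L (e : Ω) = K :=
    le_antisymm (adj_le hLK e.2) (adj_le (mem_adj_self L (e : Ω)).2 hfe')
  -- the polynomial
  have hco : ∀ i, ((minpoly L (e : Ω)).map (algebraMap L Ω)).coeff i ∈ lv v A := by
    intro i
    rw [coeff_map]
    exact coeff_minpoly_mem (nor_lv hn) hLi hei i
  have hmon' : ((minpoly L (e : Ω)).map (algebraMap L Ω)).Monic :=
    (minpoly.monic hse.isIntegral).map _
  have hr0 : ((minpoly L (e : Ω)).map (algebraMap L Ω)).eval (e : Ω) = 0 := by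
    rw [eval_map, ← aeval_def]
    exact minpoly.aeval L (e : Ω)
  have hem : (e : Ω) ∈ ((minpoly L (e : Ω)).map (algebraMap L Ω)).roots := by
    rw [mem_roots hmon'.ne_zero]
    exact hr0
  have hnd : ((minpoly L (e : Ω)).map (algebraMap L Ω)).roots.Nodup :=
    nodup_roots (Separable.map hse)
  have hder := (IsAlgClosed.splits ((minpoly L (e : Ω)).map (algebraMap L Ω))).eval_root_derivative
    hmon' hem
  have hval := val_prod_eq_zero (v := v)
    (s := (((minpoly L (e : Ω)).map (algebraMap L Ω)).roots.erase (e : Ω)).map ((e : Ω) - ·)) (by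
    intro a ha
    obtain ⟨e', he', rfl⟩ := Multiset.mem_map.1 ha
    obtain ⟨hne, hmem⟩ := hnd.mem_erase_iff.1 he'
    have h1 : ((minpoly L (e : Ω)).map (algebraMap L Ω)).eval e' = 0 := isRoot_of_mem_roots hmem
    have h2 : aeval e' (minpoly L (e : Ω)) = 0 := by
      rw [aeval_def, ← eval_map]
      exact h1
    obtain ⟨ρ, hρ, hρe⟩ := exists_hom_conj (M := L) (K := K) hse.isIntegral h2 hadj.symm.le
    have h3 : ¬ VPos v e' := by
      intro hv
      have h4 := key ρ hρ (by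
        have := hρe e.2
        rw [show (⟨(e : Ω), e.2⟩ : K) = e from rfl] at this
        rw [this]
        exact hv)
      have h5 := eq_of_fix hLK hfK le_rfl ρ hρ h4 e
      have h6 := hρe e.2
      rw [show (⟨(e : Ω), e.2⟩ : K) = e from rfl, h5] at h6
      exact hne h6.symm
    have h4 : v.Ge 0 e' := ge_of_isIntegral hA' (isIntegral_iff_coeff.2 ⟨_, hmon', hco, h1⟩)
    have h5 : (e : Ω) - e' ≠ 0 := sub_ne_zero.2 (Ne.symm hne)
    refine ⟨h5, ?_⟩
    have h6 := (hepos.ge.sub h4) h5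
    by_contra h7
    have h8 : VPos v ((e : Ω) - e') := fun _ => lt_of_le_of_ne h6 (Ne.symm h7)
    refine h3 ?_
    have h9 := hepos.sub h8
    rwa [sub_sub_cancel] at h9)
  refine ⟨e, _, hepos, hmon', hco, hr0, ?_, ?_, hadj⟩
  · rw [hder]
    exact hval.1
  · rw [hder]
    exact hval.2

/-- An element which is algebraic over the field of fractions has an integral multiple. -/
theorem exists_integral_mul {A : Subring Ω} {L : IntermediateField k Ω}
    (hL : ∀ f : Ω, f ∈ L ↔ InFrac A f) {x : Ω} (hx : IsIntegral L x) :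
    ∃ δ ∈ A, δ ≠ 0 ∧ IsIntegral A (δ * x) := by
  classical
  obtain ⟨δ, hδ, hδ0, hδc⟩ := exists_den (B := A)
    (Finset.range ((minpoly L x).map (algebraMap L Ω)).natDegree)
    (fun i => ((minpoly L x).map (algebraMap L Ω)).coeff i) (fun i _ => by
      rw [coeff_map]
      exact (hL _).1 ((minpoly L x).coeff i).2)
  refine ⟨δ, hδ, hδ0, isIntegral_iff_coeff.2
    ⟨((minpoly L x).map (algebraMap L Ω)).scaleRoots δ, ?_, ?_, ?_⟩⟩
  · rw [monic_scaleRoots_iff]
    exact (minpoly.monic hx).map _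
  · intro i
    rw [coeff_scaleRoots]
    rcases lt_trichotomy i ((minpoly L x).map (algebraMap L Ω)).natDegree with h1 | h1 | h1
    · obtain ⟨m, hm⟩ : ∃ m, ((minpoly L x).map (algebraMap L Ω)).natDegree - i = m + 1 :=
        ⟨((minpoly L x).map (algebraMap L Ω)).natDegree - i - 1, by omega⟩
      have h2 := hδc i (Finset.mem_range.2 h1)
      rw [hm, pow_succ]
      have h3 : ((minpoly L x).map (algebraMap L Ω)).coeff i * (δ ^ m * δ) =
          δ ^ m * (δ * ((minpoly L x).map (algebraMap L Ω)).coeff i) := by ring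
      rw [h3]
      exact A.mul_mem (A.pow_mem hδ m) h2
    · have h2 : ((minpoly L x).map (algebraMap L Ω)).coeff i = 1 := by
        rw [h1]
        exact (minpoly.monic hx).map _
      rw [h2, one_mul, h1, tsub_self, pow_zero]
      exact A.one_mem
    · rw [coeff_eq_zero_of_natDegree_lt h1, zero_mul]
      exact A.zero_mem
  · have h1 : aeval x ((minpoly L x).map (algebraMap L Ω)) = 0 := by
      rw [aeval_map_algebraMap]
      exact minpoly.aeval L x
    have h2 := scaleRoots_aeval_eq_zero (R := Ω) (r := δ) h1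
    rw [Algebra.algebraMap_self, RingHom.id_apply, coe_aeval_eq_eval] at h2
    exact h2

/-- Étale local structure of a field between `Frac A` and `Frac (hensA v A)`. -/
theorem exists_etale_fld [IsAlgClosed Ω] (h : Ctx0 k v) {A : Subring Ω}
    (hk : ∀ c : k, algebraMap k Ω c ∈ A) (hA : ∀ a ∈ A, v.Ge 0 a) (hn : Nor A)
    {K : IntermediateField k Ω} (hAK : ∀ a ∈ A, a ∈ K) (hK : ∀ a ∈ K, InFrac (hensA v A) a)
    (hfg : K.FG) :
    ∃ (e : Ω) (g : Polynomial Ω), e ∈ K ∧ VPos v e ∧ g.Monic ∧ (∀ i, g.coeff i ∈ lv v A) ∧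
      g.eval e = 0 ∧ g.derivative.eval e ≠ 0 ∧ v (g.derivative.eval e) = 0 ∧
      K = adj (fracI A hk) e ∧ (∀ a, a ∈ K ↔ InFrac (Subring.closure ((A : Set Ω) ∪ {e})) a) ∧
      (∀ a, a ∈ lv v (Subring.closure ((A : Set Ω) ∪ {e})) ↔ a ∈ K ∧ a ∈ hensA v A) ∧
      Nor (lv v (Subring.closure ((A : Set Ω) ∪ {e}))) := by
  classical
  set L := fracI A hk with hL
  have hLi : ∀ a : Ω, a ∈ L ↔ InFrac A a := fun a => Iff.rfl
  have hLK : L ≤ K := by
    rintro x ⟨a, ha, b, hb, -, rfl⟩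
    exact div_mem (hAK a ha) (hAK b hb)
  have hle : hensA v A ≤ OV v (hen v L) :=
    sInf_le ⟨fun a ha => ⟨D2P.le_hen L (le_fracI hk ha), hA a ha⟩, H2aux.hclosed_OV_hen h L⟩
  have hKh : ∀ x ∈ K, x ∈ hen v L := by
    intro x hx
    obtain ⟨a, ha, b, hb, -, rfl⟩ := hK x hx
    exact div_mem (hle ha).1 (hle hb).1
  -- a primitive element
  obtain ⟨S, hS⟩ := hfg
  have hSK : ∀ s ∈ S, s ∈ K := by
    intro s hs
    rw [← hS]
    exact IntermediateField.subset_adjoin k _ hs
  have hfin : FiniteDimensional L (IntermediateField.adjoin L (S : Set Ω)) :=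
    IntermediateField.finiteDimensional_adjoin fun x hx =>
      (mem_hen.1 (hKh x (hSK x hx))).2.isIntegral
  have hsep : Algebra.IsSeparable L (IntermediateField.adjoin L (S : Set Ω)) :=
    (IntermediateField.isSeparable_adjoin_iff_isSeparable L Ω).2 fun x hx =>
      (mem_hen.1 (hKh x (hSK x hx))).2
  obtain ⟨α, hα⟩ := Field.exists_primitive_element L (IntermediateField.adjoin L (S : Set Ω))
  have hαK : (α : Ω) ∈ K := by
    have h1 : IntermediateField.adjoin L (S : Set Ω) ≤ IntermediateField.extendScalars hLK := by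
      rw [IntermediateField.adjoin_le_iff]
      exact fun s hs => hSK s hs
    exact h1 α.2
  have hSα : ∀ s ∈ S, s ∈ IntermediateField.adjoin L {(α : Ω)} := by
    intro s hs
    have h1 : (⟨s, IntermediateField.subset_adjoin _ _ hs⟩ :
        IntermediateField.adjoin L (S : Set Ω)) ∈ IntermediateField.adjoin L {α} := by
      rw [hα]; exact IntermediateField.mem_top
    have h2 := (IntermediateField.mem_map (S := IntermediateField.adjoin L {α})
      (f := (IntermediateField.adjoin L (S : Set Ω)).val)).2 ⟨_, h1, rfl⟩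
    rw [IntermediateField.adjoin_map, Set.image_singleton] at h2
    exact h2
  have hKα : K = adj L (α : Ω) := by
    refine le_antisymm ?_ (adj_le hLK hαK)
    rw [← hS, IntermediateField.adjoin_le_iff]
    intro s hs
    have h1 : IntermediateField.adjoin L {(α : Ω)} ≤
        IntermediateField.extendScalars (mem_adj_self L (α : Ω)).2 := by
      rw [IntermediateField.adjoin_le_iff, Set.singleton_subset_iff]
      exact (mem_adj_self L (α : Ω)).1
    exact h1 (hSα s hs)
  -- an integral generator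
  obtain ⟨δ, hδ, hδ0, hδi⟩ := exists_integral_mul hLi (mem_hen.1 (hKh _ hαK)).2.isIntegral
  have hδL : δ ∈ L := le_fracI hk hδ
  have hfK : δ * (α : Ω) ∈ K := mul_mem (hLK hδL) hαK
  have hf : δ * (α : Ω) ∈ hensA v A := by
    refine normal_hensA hA hn (hK _ hfK) ?_
    obtain ⟨p, hp, hpA, hp0⟩ := isIntegral_iff_coeff.1 hδi
    exact isIntegral_iff_coeff.2 ⟨p, hp, fun i => le_hensA A (hpA i), hp0⟩
  have hKf : adj L (δ * (α : Ω)) = K := by
    refine le_antisymm (adj_le hLK hfK) ?_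
    rw [hKα]
    refine adj_le (mem_adj_self L _).2 ?_
    have h1 : (α : Ω) = δ⁻¹ * (δ * (α : Ω)) := by
      rw [← mul_assoc, inv_mul_cancel₀ hδ0, one_mul]
    have h2 : δ⁻¹ * (δ * (α : Ω)) ∈ adj L (δ * (α : Ω)) :=
      mul_mem (inv_mem ((mem_adj_self L _).2 hδL)) (mem_adj_self L (δ * (α : Ω))).1
    rwa [← h1] at h2
  obtain ⟨e, g, he, hg, hgA, h0, hd, hd', hadj⟩ := exists_etale_gen h hk hA hn hf
  rw [← hL, hKf] at hadj
  have heK : e ∈ K := by
    rw [← hadj]
    exact (mem_adj_self L e).1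
  have hAB : A ≤ Subring.closure ((A : Set Ω) ∪ {e}) := fun a ha =>
    Subring.subset_closure (Or.inl ha)
  have heB : e ∈ Subring.closure ((A : Set Ω) ∪ {e}) := Subring.subset_closure (Or.inr rfl)
  have hBK : ∀ a ∈ Subring.closure ((A : Set Ω) ∪ {e}), a ∈ K := by
    have h1 : Subring.closure ((A : Set Ω) ∪ {e}) ≤ K.toSubring := by
      rw [Subring.closure_le, Set.union_subset_iff, Set.singleton_subset_iff]
      exact ⟨hAK, heK⟩
    exact h1
  have hKB : ∀ a, a ∈ K ↔ InFrac (Subring.closure ((A : Set Ω) ∪ {e})) a := by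
    intro a
    constructor
    · intro ha
      rw [← hadj] at ha
      have h1 : adj L e ≤ fracI (Subring.closure ((A : Set Ω) ∪ {e})) fun c => hAB (hk c) := by
        refine adj_le ?_ (le_fracI _ heB)
        rintro x ⟨a, ha, b, hb, hb0, rfl⟩
        exact ⟨a, hAB ha, b, hAB hb, hb0, rfl⟩
      exact h1 ha
    · rintro ⟨a, ha, b, hb, -, rfl⟩
      exact div_mem (hBK a ha) (hBK b hb)
  have hlvB : lv v (Subring.closure ((lv v A : Set Ω) ∪ {e})) =
      lv v (Subring.closure ((A : Set Ω) ∪ {e})) := by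
    refine le_antisymm ?_ (lv_mono (Subring.closure_mono
      (Set.union_subset_union_left _ (le_lv v A))))
    refine lv_le ?_ fun _ => lv_inv
    rw [Subring.closure_le, Set.union_subset_iff, Set.singleton_subset_iff]
    exact ⟨lv_mono hAB, le_lv v _ heB⟩
  have hnB : Nor (lv v (Subring.closure ((A : Set Ω) ∪ {e}))) := by
    rw [← hlvB]
    exact nor_step (lv_nonneg hA) (nor_lv hn) hg hgA h0 hd hd'
  have hBnn : ∀ a ∈ Subring.closure ((A : Set Ω) ∪ {e}), v.Ge 0 a := nonneg_closure hA he.ge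
  have hH := hclosed_hensA hA
  have hlvH : lv v A ≤ hensA v A := lv_le (le_hensA A) hH.inv
  have heH : e ∈ hensA v A := hH.root g e (fun i => hlvH (hgA i)) he.ge h0 hd hd'
  refine ⟨e, g, heK, he, hg, hgA, h0, hd, hd', hadj.symm, hKB, fun a => ⟨fun ha => ⟨?_, ?_⟩, ?_⟩,
    hnB⟩
  · obtain ⟨a1, h1, a2, h2, -, -, rfl⟩ := ha
    exact div_mem (hBK a1 h1) (hBK a2 h2)
  · refine lv_le ?_ hH.inv ha
    rw [Subring.closure_le, Set.union_subset_iff, Set.singleton_subset_iff]
    exact ⟨le_hensA A, heH⟩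
  · rintro ⟨haK, haH⟩
    have h1 := mem_lv_of_hensA (lv_nonneg hBnn) hnB (f := a) (by
      obtain ⟨a1, h1, a2, h2, h3, h4⟩ := (hKB a).1 haK
      exact ⟨a1, le_lv v _ h1, a2, le_lv v _ h2, h3, h4⟩)
      (hensA_mono (hAB.trans (le_lv v _)) haH)
    rwa [lv_lv] at h1

end Pool.Agent.TW
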