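import Pool.Agent.Lib.TW.H5
import Pool.Agent.Lib.TW.E8a
import Pool.Agent.Lib.D2P.R0

/-!
# TANK W, exit row X1a: fractions in the henselization

`mem_lv_of_hensA`: the field of fractions of a normal ring `O` meets `hensA v O` in `lv v O`.
-/

set_option autoImplicit false

open Polynomial

namespace Pool.Agent.TW

open Pool.Agent.H15JM (RVal)
open Pool.Agent.LU1 (VPos adj)
open Pool.Agent.LUC (lv le_lv mem_lv lv_mono lv_le lv_inv lv_nonneg lv_lv)
open Pool.Agent.D2 (Ctx0)

universe u

variable {k Ω : Type u} [Field k] [Field Ω] [Algebra k Ω] {v : RVal Ω}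

/-- Lift of a polynomial to a subring. -/
theorem exists_lift {A : Subring Ω} {g : Polynomial Ω} (hg : ∀ i, g.coeff i ∈ A) :
    ∃ q : Polynomial A, q.map (algebraMap A Ω) = g := by
  have hc : (↑g.coeffs : Set Ω) ⊆ A := by
    intro c hc
    rw [Finset.mem_coe, Polynomial.mem_coeffs_iff] at hc
    obtain ⟨i, -, rfl⟩ := hc
    exact hg i
  exact ⟨g.toSubring A hc, Polynomial.map_toSubring g A hc⟩

/-- The fractions in the henselization are in the local ring (flatness). -/
theorem mem_lv_of_hensA [IsAlgClosed Ω] {O : Subring Ω} (hO : ∀ a ∈ O, v.Ge 0 a) (hn : Nor O)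
    {f : Ω} (hf : InFrac O f) (hf' : f ∈ hensA v O) : f ∈ lv v O := by
  classical
  obtain ⟨g, θ, hg, hgA, h0, hd, hd', P, Q, hP, hQ, hQ0, hQv, hfe⟩ := exists_etale hO hf'
  obtain ⟨A, rfl⟩ : ∃ A, A = lv v O := ⟨_, rfl⟩
  set A := lv v O with hA'
  have hA : ∀ a ∈ A, v.Ge 0 a := lv_nonneg hO
  have hnA : Nor A := nor_lv hn
  let _ : Algebra (FractionRing A) Ω := FractionRing.liftAlgebra A Ω
  have : IsScalarTower A (FractionRing A) Ω := FractionRing.isScalarTower_liftAlgebra A Ω
  have hinj : Function.Injective (algebraMap (FractionRing A) Ω) :=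
    RingHom.injective (algebraMap (FractionRing A) Ω)
  have : IsIntegrallyClosed A := isIntegrallyClosed_of hnA
  have hθA : IsIntegral A θ := isIntegral_iff_coeff.2 ⟨g, hg, hgA, h0⟩
  have hθ0 : v.Ge 0 θ := ge_of_isIntegral hA hθA
  obtain ⟨P', hP'⟩ := exists_lift (A := A) fun i => le_lv v O (hP i)
  obtain ⟨Q', hQ'⟩ := exists_lift (A := A) fun i => le_lv v O (hQ i)
  set m : Polynomial A := minpoly A θ with hm
  have hm0 : aeval θ m = 0 := minpoly.aeval A θ
  have hmm : m.Monic := minpoly.monic hθA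
  have hmod : ∀ R : Polynomial A, aeval θ (R %ₘ m) = aeval θ R := by
    intro R
    conv_rhs => rw [← modByMonic_add_div R m]
    rw [map_add, map_mul, hm0, zero_mul, add_zero]
  have hPθ : P.eval θ = aeval θ (P' %ₘ m) := by
    rw [hmod, ← hP', eval_map, aeval_def]
  have hQθ : Q.eval θ = aeval θ (Q' %ₘ m) := by
    rw [hmod, ← hQ', eval_map, aeval_def]
  -- `f` in the field of fractions
  obtain ⟨φ, hφ⟩ : ∃ φ : FractionRing A, algebraMap (FractionRing A) Ω φ = f := by
    obtain ⟨a, ha, b, hb, hb0, rfl⟩ := hf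
    refine ⟨algebraMap A (FractionRing A) ⟨a, le_lv v O ha⟩ /
      algebraMap A (FractionRing A) ⟨b, le_lv v O hb⟩, ?_⟩
    rw [map_div₀, ← IsScalarTower.algebraMap_apply, ← IsScalarTower.algebraMap_apply]
    rfl
  have hθK : IsIntegral (FractionRing A) θ := hθA.tower_top
  have hmK : minpoly (FractionRing A) θ = m.map (algebraMap A (FractionRing A)) :=
    minpoly.isIntegrallyClosed_eq_field_fractions' (FractionRing A) hθA
  set S : Polynomial (FractionRing A) := C φ * (Q' %ₘ m).map (algebraMap A (FractionRing A)) -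
    (P' %ₘ m).map (algebraMap A (FractionRing A)) with hS
  have hS0 : aeval θ S = 0 := by
    rw [hS, map_sub, map_mul, aeval_C, aeval_map_algebraMap, aeval_map_algebraMap, ← hPθ, ← hQθ,
      hφ, hfe, div_mul_cancel₀ _ hQ0, sub_self]
  have hdeg : ∀ R : Polynomial A,
      ((R %ₘ m).map (algebraMap A (FractionRing A))).degree < (minpoly (FractionRing A) θ).degree := by
    intro R
    rw [hmK, hmm.degree_map]
    exact lt_of_le_of_lt degree_map_le (degree_modByMonic_lt R hmm)
  have hSz : S = 0 := by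
    by_contra hne
    have h1 := minpoly.degree_le_of_ne_zero (FractionRing A) θ hne hS0
    have h2 : S.degree < (minpoly (FractionRing A) θ).degree := by
      refine lt_of_le_of_lt (degree_sub_le _ _) (max_lt ?_ (hdeg P'))
      refine lt_of_le_of_lt ?_ (hdeg Q')
      rw [degree_mul]
      have h3 : (C φ : Polynomial (FractionRing A)).degree ≤ 0 := degree_C_le
      calc (C φ : Polynomial (FractionRing A)).degree +
          ((Q' %ₘ m).map (algebraMap A (FractionRing A))).degree
          ≤ 0 + ((Q' %ₘ m).map (algebraMap A (FractionRing A))).degree := by gcongr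
        _ = _ := zero_add _
    exact absurd h1 (not_le.2 h2)
  have hco : ∀ j, f * ((Q' %ₘ m).coeff j : Ω) = ((P' %ₘ m).coeff j : Ω) := by
    intro j
    have h1 := congrArg (fun R => algebraMap (FractionRing A) Ω (coeff R j)) hSz
    simp only [hS, coeff_sub, coeff_C_mul, coeff_map, coeff_zero, map_sub, map_mul, map_zero,
      hφ] at h1
    rw [← IsScalarTower.algebraMap_apply, ← IsScalarTower.algebraMap_apply, sub_eq_zero] at h1
    exact h1
  -- a unit coefficient
  obtain ⟨j, hj0, hjv⟩ : ∃ j, ((Q' %ₘ m).coeff j : Ω) ≠ 0 ∧ v ((Q' %ₘ m).coeff j : Ω) = 0 := by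
    by_contra hcon
    have h1 : VPos v (Q.eval θ) := by
      rw [hQθ, aeval_eq_sum_range]
      have key : ∀ s : Finset ℕ, VPos v (∑ i ∈ s, (Q' %ₘ m).coeff i • θ ^ i) := by
        intro s
        induction s using Finset.induction_on with
        | empty => intro h; exact absurd (Finset.sum_empty) h
        | insert i s hi ih =>
          rw [Finset.sum_insert hi]
          refine LU1.VPos.add ?_ ih
          intro h2
          rw [Algebra.smul_def] at h2 ⊢
          have h3 := left_ne_zero_of_mul h2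
          have h4 := right_ne_zero_of_mul h2
          have h3' : ((Q' %ₘ m).coeff i : Ω) ≠ 0 := h3
          rw [v.map_mul h3 h4]
          have h5 : 0 ≤ v (((Q' %ₘ m).coeff i : A) : Ω) := hA _ ((Q' %ₘ m).coeff i).2 h3'
          have h6 : v (((Q' %ₘ m).coeff i : A) : Ω) ≠ 0 := fun h6 => hcon ⟨i, h3', h6⟩
          have h7 : 0 < v (((Q' %ₘ m).coeff i : A) : Ω) := lt_of_le_of_ne h5 (Ne.symm h6)
          have h8 : v.Ge 0 (θ ^ i) := by
            intro h9
            by_cases hi0 : i = 0
            · rw [hi0, pow_zero, v.map_one]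
            · have h10 : θ ≠ 0 := by
                rintro rfl
                exact h9 (zero_pow hi0)
              rw [v.map_pow h10]
              exact mul_nonneg (Nat.cast_nonneg _) (hθ0 h10)
          have h9 := h8 h4
          exact add_pos_of_pos_of_nonneg h7 h9
      exact key _
    have h2 := h1 hQ0
    rw [hQv] at h2
    exact lt_irrefl _ h2
  have h1 : f = ((P' %ₘ m).coeff j : Ω) * ((Q' %ₘ m).coeff j : Ω)⁻¹ := by
    rw [← hco j, mul_inv_cancel_right₀ hj0]
  rw [h1]
  exact mul_mem ((P' %ₘ m).coeff j).2 (lv_inv ((Q' %ₘ m).coeff j).2 hj0 hjv)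

end Pool.Agent.TW
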