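import Pool.Agent.Lib.TW.XDefs
import Pool.Agent.Lib.TW.E8a
import Mathlib.RingTheory.ZariskisMainTheorem
import Mathlib.RingTheory.Unramified.LocalStructure

/-!
# TANK W, row X2: unramified birational extensions of polynomial rings
-/

set_option autoImplicit false

open Polynomial

namespace Pool.Agent.TW

universe u

variable {k Ω : Type u} [Field k] [Field Ω] [Algebra k Ω]

/-- A finitely generated ring between `k[s]` and `k(s)` without derivations over `k[s]` is a
localization of `k[s]`. -/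
theorem unr_den {n : ℕ} {s : Fin n → Ω} (hs : AlgebraicIndependent k s) (S : Subalgebra k Ω)
    (hS : S.FG) (hle : ∀ x ∈ S, x ∈ kr k s) (hsS : ∀ i, s i ∈ S)
    (hunr : ∀ (M : Type u) [AddCommGroup M] [Module S M] [Module k M] [IsScalarTower k S M]
      (d : Derivation k S M), (∀ i, d ⟨s i, hsS i⟩ = 0) → ∀ x, d x = 0) {b : Ω} (hb : b ∈ S) :
    ∃ a g : MvPolynomial (Fin n) k, MvPolynomial.aeval s g ≠ 0 ∧
      b = MvPolynomial.aeval s a / MvPolynomial.aeval s g ∧ (MvPolynomial.aeval s g)⁻¹ ∈ S := by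
  classical
  let φ : MvPolynomial (Fin n) k →ₐ[k] S := MvPolynomial.aeval fun i => ⟨s i, hsS i⟩
  have hφ : ∀ P, ((φ P : S) : Ω) = MvPolynomial.aeval s P := by
    intro P
    exact (MvPolynomial.comp_aeval_apply (fun i => (⟨s i, hsS i⟩ : S)) S.val P)
  have hinj : Function.Injective (MvPolynomial.aeval s : MvPolynomial (Fin n) k →ₐ[k] Ω) := hs
  let _ : Algebra (MvPolynomial (Fin n) k) S := φ.toRingHom.toAlgebra
  have halg : ∀ P, algebraMap (MvPolynomial (Fin n) k) S P = φ P := fun P => rfl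
  have htow : IsScalarTower k (MvPolynomial (Fin n) k) S :=
    IsScalarTower.of_algebraMap_eq fun c => (φ.commutes c).symm
  -- the extension is unramified
  have hU : Algebra.FormallyUnramified (MvPolynomial (Fin n) k) S := by
    have h1 : ∀ x, (KaehlerDifferential.D (MvPolynomial (Fin n) k) S) x = 0 := by
      intro x
      refine hunr _ ((KaehlerDifferential.D (MvPolynomial (Fin n) k) S).restrictScalars k) ?_ x
      intro i
      have h2 : (⟨s i, hsS i⟩ : S) =
          algebraMap (MvPolynomial (Fin n) k) S (MvPolynomial.X i) := by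
        rw [halg]
        exact (MvPolynomial.aeval_X (R := k) (fun i => (⟨s i, hsS i⟩ : S)) i).symm
      show (KaehlerDifferential.D (MvPolynomial (Fin n) k) S) _ = 0
      rw [h2]
      exact Derivation.map_algebraMap
        (KaehlerDifferential.D (MvPolynomial (Fin n) k) S) (MvPolynomial.X i)
    have h2 : (⊥ : Submodule S (KaehlerDifferential (MvPolynomial (Fin n) k) S)) = ⊤ := by
      rw [← KaehlerDifferential.span_range_derivation (MvPolynomial (Fin n) k) S, eq_comm,
        Submodule.span_eq_bot]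
      rintro _ ⟨x, rfl⟩
      exact h1 x
    exact ⟨(Submodule.subsingleton_iff S).1 (subsingleton_of_bot_eq_top h2)⟩
  have hFT : Algebra.FiniteType (MvPolynomial (Fin n) k) S := by
    have h1 : Algebra.FiniteType k S := (Subalgebra.fg_iff_finiteType S).1 hS
    exact Algebra.FiniteType.of_restrictScalars_finiteType k _ _
  -- integral elements
  have hint : ∀ y : S, IsIntegral (MvPolynomial (Fin n) k) y → ∃ c, φ c = y := by
    intro y hy
    obtain ⟨a, ha, b, hb, hab⟩ := IntermediateField.mem_adjoin_iff_div.1 (hle y y.2)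
    rw [Algebra.adjoin_range_eq_range_aeval] at ha hb
    obtain ⟨a, rfl⟩ := ha
    obtain ⟨b, rfl⟩ := hb
    obtain ⟨c, hc⟩ := mem_range_of_integral
      ((MvPolynomial.aeval s : MvPolynomial (Fin n) k →ₐ[k] Ω) : MvPolynomial (Fin n) k →+* Ω)
      hinj (f := (y : Ω)) (a := a) (b := b) hab (by
        obtain ⟨P, hP, hP0⟩ := hy
        refine ⟨P, hP, ?_⟩
        have h1 := congrArg (fun z : S => (z : Ω)) hP0
        have h2 : ((Polynomial.eval₂ (algebraMap (MvPolynomial (Fin n) k) S) y P : S) : Ω) =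
            Polynomial.eval₂ ((algebraMap S Ω).comp
              (algebraMap (MvPolynomial (Fin n) k) S)) (y : Ω) P :=
          Polynomial.hom_eval₂ _ _ (algebraMap S Ω) _
        have h3 : ((algebraMap S Ω).comp (algebraMap (MvPolynomial (Fin n) k) S)) =
            ((MvPolynomial.aeval s : MvPolynomial (Fin n) k →ₐ[k] Ω) :
              MvPolynomial (Fin n) k →+* Ω) := RingHom.ext fun Q => hφ Q
        rw [← h3, ← h2]
        exact h1)
    exact ⟨c, Subtype.ext ((hφ c).trans hc)⟩
  -- the reduced fraction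
  obtain ⟨a, ha, g, hg, hab⟩ := IntermediateField.mem_adjoin_iff_div.1 (hle b hb)
  rw [Algebra.adjoin_range_eq_range_aeval] at ha hg
  obtain ⟨a, rfl⟩ := ha
  obtain ⟨g, rfl⟩ := hg
  by_cases hb0 : b = 0
  · exact ⟨0, 1, by simp, by simp [hb0], by simp⟩
  have hg0 : g ≠ 0 := by
    rintro rfl
    apply hb0
    rw [hab]
    simp
  obtain ⟨g', a', c', hrel, hg', ha'⟩ :=
    UniqueFactorizationMonoid.exists_reduced_factors g hg0 a
  have hc0 : c' ≠ 0 := by
    rintro rfl
    apply hg0
    rw [← hg', zero_mul]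
  have hg'0 : g' ≠ 0 := by
    rintro rfl
    apply hg0
    rw [← hg', mul_zero]
  have hne : ∀ P : MvPolynomial (Fin n) k, P ≠ 0 → MvPolynomial.aeval s P ≠ 0 := fun P hP h0 =>
    hP (hinj (by rw [map_zero]; exact h0))
  have hb' : b = MvPolynomial.aeval s a' / MvPolynomial.aeval s g' := by
    rw [hab]
    show MvPolynomial.aeval s a / MvPolynomial.aeval s g = _
    rw [← hg', ← ha', map_mul, map_mul, mul_div_mul_left _ _ (hne c' hc0)]
  refine ⟨a', g', hne g' hg'0, hb', ?_⟩
  -- `g'` is a unit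
  have hunit : IsUnit (φ g') := by
    by_contra hnu
    obtain ⟨P, hP, hgP⟩ := exists_max_ideal_of_mem_nonunits hnu
    have hPp : P.IsPrime := hP.isPrime
    have hz := Algebra.ZariskisMainProperty.of_finiteType (R := MvPolynomial (Fin n) k) P
    obtain ⟨r, hrP, hri, hr⟩ := Algebra.zariskisMainProperty_iff.1 hz
    obtain ⟨m, hm⟩ := hr ⟨b, hb⟩
    obtain ⟨r₀, hr₀⟩ := hint r hri
    obtain ⟨c, hc⟩ := hint _ hm
    have h1 : r₀ ^ m * a' = c * g' := by
      apply hinj
      rw [map_mul, map_mul, map_pow, ← hφ r₀, ← hφ c, hr₀, hc]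
      show (r : Ω) ^ m * _ = (((r ^ m * ⟨b, hb⟩ : S)) : Ω) * _
      have h2 : (((r ^ m * ⟨b, hb⟩ : S)) : Ω) = (r : Ω) ^ m * b := rfl
      rw [h2, mul_assoc]
      congr 1
      rw [hb', div_mul_cancel₀ _ (hne g' hg'0)]
    have h2 : g' ∣ r₀ ^ m * a' := ⟨c, by rw [h1, mul_comm]⟩
    have h3 : g' ∣ r₀ ^ m := hrel.dvd_of_dvd_mul_right h2
    have h4 : r ^ m ∈ P := by
      obtain ⟨q, hq⟩ := h3
      have : r ^ m = φ g' * φ q := by rw [← hr₀, ← map_pow, hq, map_mul]
      rw [this]
      exact P.mul_mem_right _ hgP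
    exact hrP (hPp.mem_of_pow_mem m h4)
  obtain ⟨y, hy⟩ := hunit.exists_right_inv
  have h1 : (MvPolynomial.aeval s g') * (y : Ω) = 1 := by
    rw [← hφ g']
    exact congrArg (fun z : S => (z : Ω)) hy
  rw [inv_eq_of_mul_eq_one_right h1]
  exact y.2

end Pool.Agent.TW
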