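import Pool.Agent.Lib.TW.X5a
import Pool.Agent.Lib.TW.X1b

/-!
# TANK W, row X5: the denominators of the elements of the local ring are monomials
-/

set_option autoImplicit false

open Polynomial

namespace Pool.Agent.TW

open Pool.Agent.H15JM (RVal)
open Pool.Agent.LUC (lv)

universe u

variable {k Ω : Type u} [Field k] [Field Ω] [Algebra k Ω] {v : RVal Ω} {r D : ℕ}

/-- `F₀` a frame, `F` a Perron transform of it, `s₁` a `p`-basis of `H[1/x]`, everything defined over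
the local ring `O` of `k[s, e]`: the elements of `O` are quotients of polynomials in `s₁`, the
denominator a monomial. -/
theorem den_mono [IsAlgClosed k] (p : ℕ) [Fact p.Prime] [CharP k p]
    [CharP Ω p] (h : Ctx k v r) {F₀ F : Fr k v r D} (hy : F₀.y = F.y)
    (hx : ∀ l : Fin r → ℤ, ∃ l', mx F.x l = mx F₀.x l')
    (hx' : ∀ l : Fin r → ℤ, ∃ l', mx F₀.x l = mx F.x l')
    {n : ℕ} {s₁ : Fin n → Ω} (hs₁ : AlgebraicIndependent k s₁) (hsK : ∀ i, F.s i ∈ kr k s₁)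
    {e : Ω} {g : Polynomial Ω} (he : Et k v F.s e g) (heK : e ∈ kr k s₁)
    (hs₁O : ∀ i, ∃ l : Fin r → ℤ, mx F.x l * s₁ i ∈ lv v (etR k F.s e))
    (hPC : ∀ i, ∃ c : (Fin n → Fin p) → Ω,
      (∀ α, ∃ l : Fin r → ℤ, mx F.x l * c α ∈ lv v (etR k F.s e)) ∧ F₀.s i = pcomb s₁ c)
    {b : Ω} (hb : b ∈ lv v (etR k F.s e)) :
    ∃ a d : MvPolynomial (Fin n) k, MvPolynomial.aeval s₁ d ≠ 0 ∧
      b = MvPolynomial.aeval s₁ a / MvPolynomial.aeval s₁ d ∧
      MonoO F e (MvPolynomial.aeval s₁ d) := by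
  obtain ⟨a, d, hd0, hbd, h1, h2⟩ := X5.den_unit p hy hx hx' hs₁ hsK he heK hs₁O hPC hb
  exact ⟨a, d, hd0, hbd, he.mono_of_unit h hd0 h1 h2⟩

end Pool.Agent.TW
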