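import Pool.Agent.Lib.TW.X2
import Pool.Agent.Lib.TW.P1
import Mathlib.RingTheory.Derivation.MapCoeffs

/-!
# TANK W, row X5, part a: the denominators of the elements of the local ring are units of `O[1/x]`
-/

set_option autoImplicit false

open Polynomial

namespace Pool.Agent.TW

open Pool.Agent.H15JM (RVal)
open Pool.Agent.LU1 (VPos)
open Pool.Agent.LUC (lv le_lv)

universe u

variable {k Ω : Type u} [Field k] [Field Ω] [Algebra k Ω] {v : RVal Ω} {r D : ℕ}

namespace X5

/-- `f` is in `O[1/x]`, `O` the local ring of `k[s, e]`. -/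
def InOx (F : Fr k v r D) (e f : Ω) : Prop :=
  ∃ l : Fin r → ℤ, mx F.x l * f ∈ lv v (etR k F.s e)

section

variable {F : Fr k v r D} {e : Ω}

theorem k_mem (c : k) : algebraMap k Ω c ∈ etR k F.s e :=
  Subring.subset_closure (Or.inl ⟨c, rfl⟩)

theorem e_mem : e ∈ etR k F.s e := Subring.subset_closure (Or.inr (Set.mem_insert _ _))

theorem s_mem (i : Fin (r + D)) : F.s i ∈ etR k F.s e :=
  Subring.subset_closure (Or.inr (Set.mem_insert_of_mem _ ⟨i, rfl⟩))

theorem x_eq (i : Fin r) : F.x i = F.s (Fin.castAdd D i) := by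
  rw [Fr.s, Fin.append_left]

theorem y_eq (j : Fin D) : F.y j = F.s (Fin.natAdd r j) := by
  rw [Fr.s, Fin.append_right]

theorem mx_nonneg_mem {l : Fin r → ℤ} (hl : ∀ i, 0 ≤ l i) : mx F.x l ∈ etR k F.s e := by
  refine prod_mem fun i _ => ?_
  obtain ⟨m, hm⟩ := Int.eq_ofNat_of_zero_le (hl i)
  rw [hm, zpow_natCast, x_eq]
  exact pow_mem (s_mem _) m

theorem InOx.of_mem {f : Ω} (hf : f ∈ lv v (etR k F.s e)) : InOx F e f :=
  ⟨0, by rw [P1.mx_zero, one_mul]; exact hf⟩

theorem InOx.mul {f g : Ω} (hf : InOx F e f) (hg : InOx F e g) : InOx F e (f * g) := by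
  obtain ⟨l, hl⟩ := hf
  obtain ⟨l', hl'⟩ := hg
  refine ⟨l + l', ?_⟩
  rw [P1.mx_add F.x_ne, mul_mul_mul_comm]
  exact mul_mem hl hl'

theorem InOx.add {f g : Ω} (hf : InOx F e f) (hg : InOx F e g) : InOx F e (f + g) := by
  obtain ⟨l, hl⟩ := hf
  obtain ⟨l', hl'⟩ := hg
  refine ⟨l ⊔ l', ?_⟩
  have h1 : mx F.x (l ⊔ l') = mx F.x (l ⊔ l' - l) * mx F.x l := by
    rw [← P1.mx_add F.x_ne, sub_add_cancel]
  have h2 : mx F.x (l ⊔ l') = mx F.x (l ⊔ l' - l') * mx F.x l' := by
    rw [← P1.mx_add F.x_ne, sub_add_cancel]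
  have h3 : mx F.x (l ⊔ l' - l) ∈ lv v (etR k F.s e) := le_lv _ _ (mx_nonneg_mem fun i => by
    rw [Pi.sub_apply, Pi.sup_apply]
    exact sub_nonneg.2 le_sup_left)
  have h4 : mx F.x (l ⊔ l' - l') ∈ lv v (etR k F.s e) := le_lv _ _ (mx_nonneg_mem fun i => by
    rw [Pi.sub_apply, Pi.sup_apply]
    exact sub_nonneg.2 le_sup_right)
  rw [mul_add]
  refine add_mem ?_ ?_
  · rw [h1, mul_assoc]
    exact mul_mem h3 hl
  · rw [h2, mul_assoc]
    exact mul_mem h4 hl'

theorem InOx.mx (l : Fin r → ℤ) : InOx F e (mx F.x l) :=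
  ⟨-l, by rw [← P1.mx_add F.x_ne, neg_add_cancel, P1.mx_zero]; exact one_mem _⟩

/-- The subalgebra `O[1/x]`. -/
def Ox (F : Fr k v r D) (e : Ω) : Subalgebra k Ω where
  carrier := {f | InOx F e f}
  mul_mem' := InOx.mul
  add_mem' := InOx.add
  algebraMap_mem' := fun c => InOx.of_mem (le_lv _ _ (k_mem c))

end

/-- The denominators are units of `O[1/x]`. -/
theorem den_unit [IsAlgClosed k] (p : ℕ) [Fact p.Prime] [CharP k p]
    [CharP Ω p] {F₀ F : Fr k v r D} (hy : F₀.y = F.y)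
    (hx : ∀ l : Fin r → ℤ, ∃ l', mx F.x l = mx F₀.x l')
    (hx' : ∀ l : Fin r → ℤ, ∃ l', mx F₀.x l = mx F.x l')
    {n : ℕ} {s₁ : Fin n → Ω} (hs₁ : AlgebraicIndependent k s₁) (hsK : ∀ i, F.s i ∈ kr k s₁)
    {e : Ω} {g : Polynomial Ω} (he : Et k v F.s e g) (heK : e ∈ kr k s₁)
    (hs₁O : ∀ i, InOx F e (s₁ i))
    (hPC : ∀ i, ∃ c : (Fin n → Fin p) → Ω, (∀ α, InOx F e (c α)) ∧ F₀.s i = pcomb s₁ c)
    {b : Ω} (hb : b ∈ lv v (etR k F.s e)) :
    ∃ a d : MvPolynomial (Fin n) k, MvPolynomial.aeval s₁ d ≠ 0 ∧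
      b = MvPolynomial.aeval s₁ a / MvPolynomial.aeval s₁ d ∧
      InOx F e (MvPolynomial.aeval s₁ d) ∧ InOx F e (MvPolynomial.aeval s₁ d)⁻¹ := by
  classical
  choose c hc hcs using hPC
  -- the finitely many elements and their denominators
  have hden : ∀ f : Ω, InOx F e f → ∃ q ∈ etR k F.s e, q ≠ 0 ∧ v q = 0 ∧
      ∃ l : Fin r → ℤ, ∃ a ∈ etR k F.s e, f = mx F.x l * (a * q⁻¹) := by
    rintro f ⟨l, a, ha, q, hq, hq0, hvq, haq⟩
    refine ⟨q, hq, hq0, hvq, -l, a, ha, ?_⟩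
    rw [← div_eq_mul_inv, ← haq, P1.mx_neg F.x_ne, inv_mul_cancel_left₀ (P1.mx_ne F.x_ne l)]
  choose! q hq hq0 hvq hqf using hden
  have hgc : ∀ j, ∃ q ∈ ksub k (Set.range F.s), q ≠ 0 ∧ v q = 0 ∧
      ∃ a ∈ ksub k (Set.range F.s), g.coeff j = a * q⁻¹ := by
    intro j
    obtain ⟨a, ha, q, hq, hq0, hvq, haq⟩ := he.coeff j
    exact ⟨q, hq, hq0, hvq, a, ha, by rw [haq, div_eq_mul_inv]⟩
  choose q' hq' hq'0 hvq' a' ha' hgc' using hgc
  have hle : ksub k (Set.range F.s) ≤ etR k F.s e :=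
    Subring.closure_mono (Set.union_subset_union_right _ (Set.subset_insert _ _))
  -- the derivative is a unit
  have hgcO : ∀ j, g.coeff j ∈ lv v (etR k F.s e) := fun j => by
    obtain ⟨a, ha, q, hq, h1⟩ := he.coeff j
    exact ⟨a, hle ha, q, hle hq, h1⟩
  have heO : e ∈ lv v (etR k F.s e) := le_lv _ _ e_mem
  have hevO : ∀ P : Polynomial Ω, (∀ j, P.coeff j ∈ lv v (etR k F.s e)) →
      P.eval e ∈ lv v (etR k F.s e) := by
    intro P hP
    rw [eval_eq_sum_range]
    exact sum_mem fun j _ => mul_mem (hP j) (pow_mem heO j)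
  have hdO : (g.derivative.eval e)⁻¹ ∈ lv v (etR k F.s e) := by
    have h1 : g.derivative.eval e ∈ lv v (etR k F.s e) := hevO _ fun j => by
      rw [coeff_derivative]
      exact mul_mem (hgcO _) (add_mem (natCast_mem _ j) (one_mem _))
    obtain ⟨a, ha, q, hq, hq0, hvq, haq⟩ := h1
    have ha0 : a ≠ 0 := by
      rintro rfl
      apply he.der_ne
      rw [haq, zero_div]
    refine ⟨q, hq, a, ha, ha0, ?_, by rw [haq, inv_div]⟩
    have h2 := he.der
    rw [haq, v.map_div ha0 hq0, hvq, sub_zero] at h2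
    exact h2
  let W : Finset Ω := {b, (g.derivative.eval e)⁻¹} ∪ (Finset.univ.image s₁) ∪
    Finset.univ.image fun x : Fin (r + D) × (Fin n → Fin p) => c x.1 x.2
  let Q : Finset Ω := W.image q ∪ (Finset.range (g.natDegree + 1)).image q'
  let T : Set Ω := insert e (Set.range F.s) ∪ Set.range (fun i => (F.x i)⁻¹) ∪
    (fun z => z⁻¹) '' (Q : Set Ω)
  let S : Subalgebra k Ω := Algebra.adjoin k T
  have hT : ∀ z ∈ T, z ∈ S := fun z hz => Algebra.subset_adjoin hz
  have hWO : ∀ f ∈ W, InOx F e f := by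
    intro f hf
    rcases Finset.mem_union.1 hf with hf | hf
    · rcases Finset.mem_union.1 hf with hf | hf
      · rcases Finset.mem_insert.1 hf with rfl | hf
        · exact InOx.of_mem hb
        · rw [Finset.mem_singleton.1 hf]
          exact InOx.of_mem hdO
      · obtain ⟨i, -, rfl⟩ := Finset.mem_image.1 hf
        exact hs₁O i
    · obtain ⟨x, -, rfl⟩ := Finset.mem_image.1 hf
      exact hc x.1 x.2
  have heS : e ∈ S := hT _ (Or.inl (Or.inl (Set.mem_insert _ _)))
  have hsS : ∀ i, F.s i ∈ S := fun i => hT _ (Or.inl (Or.inl (Set.mem_insert_of_mem _ ⟨i, rfl⟩)))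
  have hxS : ∀ i, F.x i ∈ S := fun i => by rw [x_eq]; exact hsS _
  have hxiS : ∀ i, (F.x i)⁻¹ ∈ S := fun i => hT _ (Or.inl (Or.inr ⟨i, rfl⟩))
  have hQS : ∀ z ∈ Q, z⁻¹ ∈ S := fun z hz => hT _ (Or.inr ⟨z, hz, rfl⟩)
  have hmxS : ∀ l : Fin r → ℤ, mx F.x l ∈ S := by
    intro l
    refine prod_mem fun i _ => ?_
    obtain ⟨m, hm | hm⟩ := (l i).eq_nat_or_neg
    · rw [hm, zpow_natCast]
      exact pow_mem (hxS i) m
    · rw [hm, zpow_neg, zpow_natCast, ← inv_pow]
      exact pow_mem (hxiS i) m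
  have hetS : ∀ f ∈ etR k F.s e, f ∈ S := by
    intro f hf
    have h1 : etR k F.s e ≤ S.toSubring := by
      refine Subring.closure_le.2 ?_
      rintro z (⟨c, rfl⟩ | hz)
      · exact S.algebraMap_mem c
      · rcases Set.mem_insert_iff.1 hz with rfl | ⟨i, rfl⟩
        · exact heS
        · exact hsS i
    exact h1 hf
  have hWS : ∀ f ∈ W, f ∈ S := by
    intro f hf
    obtain ⟨l, a, ha, hfa⟩ := hqf f (hWO f hf)
    rw [hfa]
    exact mul_mem (hmxS l) (mul_mem (hetS a ha) (hQS _ (Finset.mem_union_left _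
      (Finset.mem_image_of_mem q hf))))
  have hs₁S : ∀ i, s₁ i ∈ S := fun i => hWS _ (Finset.mem_union_left _
    (Finset.mem_union_right _ (Finset.mem_image_of_mem s₁ (Finset.mem_univ i))))
  have hcS : ∀ i α, c i α ∈ S := fun i α => hWS _ (Finset.mem_union_right _
    (Finset.mem_image.2 ⟨(i, α), Finset.mem_univ _, rfl⟩))
  have hbS : b ∈ S := hWS _ (Finset.mem_union_left _ (Finset.mem_union_left _
    (Finset.mem_insert_self _ _)))
  have hdS : (g.derivative.eval e)⁻¹ ∈ S := hWS _ (Finset.mem_union_left _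
    (Finset.mem_union_left _ (Finset.mem_insert_of_mem (Finset.mem_singleton_self _))))
  have hQet : ∀ z ∈ Q, z ∈ etR k F.s e ∧ z ≠ 0 ∧ v z = 0 := by
    intro z hz
    rcases Finset.mem_union.1 hz with hz | hz
    · obtain ⟨f, hf, rfl⟩ := Finset.mem_image.1 hz
      exact ⟨hq f (hWO f hf), hq0 f (hWO f hf), hvq f (hWO f hf)⟩
    · obtain ⟨j, -, rfl⟩ := Finset.mem_image.1 hz
      exact ⟨hle (hq' j), hq'0 j, hvq' j⟩
  have hgS : ∀ j, g.coeff j ∈ S := by
    intro j
    by_cases hj : j ∈ Finset.range (g.natDegree + 1)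
    · rw [hgc']
      exact mul_mem (hetS _ (hle (ha' j))) (hQS _ (Finset.mem_union_right _
        (Finset.mem_image_of_mem q' hj)))
    · rw [coeff_eq_zero_of_natDegree_lt (by
        rw [Finset.mem_range, not_lt] at hj
        omega)]
      exact zero_mem _
  -- `S` is in the field
  have hetK : ∀ f ∈ etR k F.s e, f ∈ kr k s₁ := by
    intro f hf
    have h1 : etR k F.s e ≤ (kr k s₁).toSubfield.toSubring := by
      refine Subring.closure_le.2 ?_
      rintro z (⟨c, rfl⟩ | hz)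
      · exact (kr k s₁).algebraMap_mem c
      · rcases Set.mem_insert_iff.1 hz with rfl | ⟨i, rfl⟩
        · exact heK
        · exact hsK i
    exact h1 hf
  have hSK : ∀ f ∈ S, f ∈ kr k s₁ := by
    intro f hf
    have h1 : S ≤ (kr k s₁).toSubalgebra := by
      rw [Algebra.adjoin_le_iff]
      rintro z ((hz | ⟨i, rfl⟩) | ⟨z, hz, rfl⟩)
      · rcases Set.mem_insert_iff.1 hz with rfl | ⟨i, rfl⟩
        · exact heK
        · exact hsK i
      · refine (kr k s₁).inv_mem ?_
        rw [x_eq]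
        exact hsK _
      · exact (kr k s₁).inv_mem (hetK z (hQet z hz).1)
    exact h1 hf
  -- `S` is in `O[1/x]`
  have hSO : S ≤ Ox F e := by
    rw [Algebra.adjoin_le_iff]
    rintro z ((hz | ⟨i, rfl⟩) | ⟨z, hz, rfl⟩)
    · rcases Set.mem_insert_iff.1 hz with rfl | ⟨i, rfl⟩
      · exact InOx.of_mem heO
      · exact InOx.of_mem (le_lv _ _ (s_mem i))
    · have h1 : (F.x i)⁻¹ = mx F.x (-Pi.single i 1) := by
        rw [P1.mx_neg F.x_ne]
        congr 1
        rw [mx, Finset.prod_eq_single i]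
        · simp
        · intro j _ hj
          rw [Pi.single_eq_of_ne hj, zpow_zero]
        · intro h0
          exact absurd (Finset.mem_univ i) h0
      show InOx F e (F.x i)⁻¹
      rw [h1]
      exact InOx.mx _
    · obtain ⟨h1, h2, h3⟩ := hQet z hz
      exact InOx.of_mem ⟨1, one_mem _, z, h1, h2, h3, by rw [one_div]⟩
  -- the ring is unramified
  have hunr : ∀ (M : Type u) [AddCommGroup M] [Module S M] [Module k M] [IsScalarTower k S M]
      (d : Derivation k S M), (∀ i, d ⟨s₁ i, hs₁S i⟩ = 0) → ∀ x, d x = 0 := by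
    intro M _ _ _ _ d hd
    let Z : Subalgebra k Ω :=
      { carrier := {f | ∃ hf : f ∈ S, d ⟨f, hf⟩ = 0}
        mul_mem' := by
          rintro a b ⟨ha, ha0⟩ ⟨hb, hb0⟩
          refine ⟨mul_mem ha hb, ?_⟩
          have h1 : (⟨a * b, mul_mem ha hb⟩ : S) = ⟨a, ha⟩ * ⟨b, hb⟩ := rfl
          rw [h1, d.leibniz, ha0, hb0, smul_zero, smul_zero, add_zero]
        add_mem' := by
          rintro a b ⟨ha, ha0⟩ ⟨hb, hb0⟩
          refine ⟨add_mem ha hb, ?_⟩
          have h1 : (⟨a + b, add_mem ha hb⟩ : S) = ⟨a, ha⟩ + ⟨b, hb⟩ := rfl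
          rw [h1, map_add, ha0, hb0, add_zero]
        algebraMap_mem' := fun c => ⟨S.algebraMap_mem c, d.map_algebraMap c⟩ }
    have hZinv : ∀ f ∈ Z, f⁻¹ ∈ S → f⁻¹ ∈ Z := by
      rintro f ⟨hf, hf0⟩ hfi
      by_cases h0 : f = 0
      · rw [h0, inv_zero]
        exact zero_mem _
      refine ⟨hfi, ?_⟩
      have h1 : (⟨f, hf⟩ : S) * ⟨f⁻¹, hfi⟩ = 1 := Subtype.ext (mul_inv_cancel₀ h0)
      have h2 : d ((⟨f, hf⟩ : S) * ⟨f⁻¹, hfi⟩) = 0 := by rw [h1, d.map_one_eq_zero]
      rw [d.leibniz, hf0, smul_zero, add_zero] at h2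
      have h3 : ((⟨f⁻¹, hfi⟩ : S) * ⟨f, hf⟩) • d (⟨f⁻¹, hfi⟩ : S) = 0 := by
        rw [mul_smul, h2, smul_zero]
      rwa [mul_comm, h1, one_smul] at h3
    have hZp : ∀ f ∈ S, f ^ p ∈ Z := by
      intro f hf
      refine ⟨pow_mem hf p, ?_⟩
      have h1 : (⟨f ^ p, pow_mem hf p⟩ : S) = (⟨f, hf⟩ : S) ^ p := rfl
      have h2 : ((p : ℕ) : S) = 0 := by
        apply Subtype.ext
        show ((p : ℕ) : Ω) = 0
        exact CharP.cast_eq_zero Ω p
      rw [h1, d.leibniz_pow, ← Nat.cast_smul_eq_nsmul S, h2, zero_smul]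
    have hZs₁ : ∀ i, s₁ i ∈ Z := fun i => ⟨hs₁S i, hd i⟩
    have hZs₀ : ∀ i, F₀.s i ∈ Z := by
      intro i
      rw [hcs i, pcomb]
      exact sum_mem fun α _ => mul_mem (hZp _ (hcS i α)) (prod_mem fun j _ =>
        pow_mem (hZs₁ j) _)
    have hZx₀ : ∀ i, F₀.x i ∈ Z := fun i => by rw [x_eq]; exact hZs₀ _
    have hZx₀i : ∀ i, (F₀.x i)⁻¹ ∈ Z := by
      intro i
      refine hZinv _ (hZx₀ i) ?_
      obtain ⟨l', hl'⟩ := hx' (-Pi.single i 1)
      have h1 : (F₀.x i)⁻¹ = mx F₀.x (-Pi.single i 1) := by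
        rw [P1.mx_neg F₀.x_ne]
        congr 1
        rw [mx, Finset.prod_eq_single i]
        · simp
        · intro j _ hj
          rw [Pi.single_eq_of_ne hj, zpow_zero]
        · intro h0
          exact absurd (Finset.mem_univ i) h0
      rw [h1, hl']
      exact hmxS l'
    have hZmx₀ : ∀ l : Fin r → ℤ, mx F₀.x l ∈ Z := by
      intro l
      refine prod_mem fun i _ => ?_
      obtain ⟨m, hm | hm⟩ := (l i).eq_nat_or_neg
      · rw [hm, zpow_natCast]
        exact pow_mem (hZx₀ i) m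
      · rw [hm, zpow_neg, zpow_natCast, ← inv_pow]
        exact pow_mem (hZx₀i i) m
    have hZmx : ∀ l : Fin r → ℤ, mx F.x l ∈ Z := by
      intro l
      obtain ⟨l', hl'⟩ := hx l
      rw [hl']
      exact hZmx₀ l'
    have hZx : ∀ i, F.x i ∈ Z := by
      intro i
      have h1 : F.x i = mx F.x (Pi.single i 1) := by
        rw [mx, Finset.prod_eq_single i]
        · simp
        · intro j _ hj
          rw [Pi.single_eq_of_ne hj, zpow_zero]
        · intro h0
          exact absurd (Finset.mem_univ i) h0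
      rw [h1]
      exact hZmx _
    have hZs : ∀ i, F.s i ∈ Z := by
      intro i
      refine Fin.addCases (fun j => ?_) (fun j => ?_) i
      · rw [← x_eq]
        exact hZx j
      · rw [← y_eq, ← hy, y_eq]
        exact hZs₀ _
    have hZk : ∀ f ∈ ksub k (Set.range F.s), f ∈ Z := by
      intro f hf
      have h1 : ksub k (Set.range F.s) ≤ Z.toSubring := by
        refine Subring.closure_le.2 ?_
        rintro z (⟨c, rfl⟩ | ⟨i, rfl⟩)
        · exact Z.algebraMap_mem c
        · exact hZs i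
      exact h1 hf
    have hZg : ∀ j, g.coeff j ∈ Z := by
      intro j
      by_cases hj : j ∈ Finset.range (g.natDegree + 1)
      · rw [hgc']
        exact mul_mem (hZk _ (ha' j)) (hZinv _ (hZk _ (hq' j)) (hQS _
          (Finset.mem_union_right _ (Finset.mem_image_of_mem q' hj))))
      · rw [coeff_eq_zero_of_natDegree_lt (by
          rw [Finset.mem_range, not_lt] at hj
          omega)]
        exact zero_mem _
    -- the étale generator
    have hZe : e ∈ Z := by
      refine ⟨heS, ?_⟩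
      let P : Polynomial S := ∑ j ∈ Finset.range (g.natDegree + 1),
        C (⟨g.coeff j, hgS j⟩ : S) * X ^ j
      have hPm : P.map S.val.toRingHom = g := by
        rw [Polynomial.map_sum]
        conv_rhs => rw [g.as_sum_range_C_mul_X_pow]
        refine Finset.sum_congr rfl fun j _ => ?_
        rw [Polynomial.map_mul, Polynomial.map_pow, map_X, map_C]
        rfl
      have hPc : ∀ j, d (P.coeff j) = 0 := by
        intro j
        obtain ⟨h1, h2⟩ := hZg j
        have h3 : P.coeff j = ⟨g.coeff j, h1⟩ := by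
          apply Subtype.ext
          show S.val.toRingHom (P.coeff j) = g.coeff j
          rw [← coeff_map, hPm]
        rw [h3]
        exact h2
      have hPe : P.eval (⟨e, heS⟩ : S) = 0 := by
        apply Subtype.ext
        show S.val.toRingHom (P.eval (⟨e, heS⟩ : S)) = 0
        rw [← Polynomial.eval_map_apply, hPm]
        exact he.root
      have hPd : S.val.toRingHom (P.derivative.eval (⟨e, heS⟩ : S)) = g.derivative.eval e := by
        rw [← Polynomial.eval_map_apply, ← Polynomial.derivative_map, hPm]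
        rfl
      have h1 := d.apply_eval_eq (⟨e, heS⟩ : S) P
      have h2 : d.mapCoeffs P = 0 := by
        ext j
        rw [Derivation.mapCoeffs_apply, hPc j]
        rfl
      rw [hPe, map_zero, h2, map_zero, zero_add] at h1
      have h3 : (⟨(g.derivative.eval e)⁻¹, hdS⟩ : S) * P.derivative.eval (⟨e, heS⟩ : S) = 1 := by
        apply Subtype.ext
        show (g.derivative.eval e)⁻¹ * S.val.toRingHom (P.derivative.eval (⟨e, heS⟩ : S)) = 1
        rw [hPd, inv_mul_cancel₀ he.der_ne]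
      have h4 : (⟨(g.derivative.eval e)⁻¹, hdS⟩ : S) •
          (P.derivative.eval (⟨e, heS⟩ : S) • d (⟨e, heS⟩ : S)) = 0 := by
        rw [← h1, smul_zero]
      rwa [← mul_smul, h3, one_smul] at h4
    have hZet : ∀ f ∈ etR k F.s e, f ∈ Z := by
      intro f hf
      have h1 : etR k F.s e ≤ Z.toSubring := by
        refine Subring.closure_le.2 ?_
        rintro z (⟨c, rfl⟩ | hz)
        · exact Z.algebraMap_mem c
        · rcases Set.mem_insert_iff.1 hz with rfl | ⟨i, rfl⟩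
          · exact hZe
          · exact hZs i
      exact h1 hf
    have hSZ : S ≤ Z := by
      rw [Algebra.adjoin_le_iff]
      rintro z ((hz | ⟨i, rfl⟩) | ⟨z, hz, rfl⟩)
      · rcases Set.mem_insert_iff.1 hz with rfl | ⟨i, rfl⟩
        · exact hZe
        · exact hZs i
      · exact hZinv _ (hZx i) (hxiS i)
      · exact hZinv _ (hZet z (hQet z hz).1) (hQS z hz)
    intro x
    obtain ⟨h1, h2⟩ := hSZ x.2
    exact h2
  have hTfin : T.Finite := by
    refine Set.Finite.union (Set.Finite.union ?_ (Set.finite_range _)) (Q.finite_toSet.image _)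
    exact (Set.finite_range _).insert _
  obtain ⟨a, d, hd0, hbad, hdS'⟩ := unr_den hs₁ S (Subalgebra.fg_def.2 ⟨T, hTfin, rfl⟩) hSK hs₁S
    hunr hbS
  refine ⟨a, d, hd0, hbad, hSO ?_, hSO hdS'⟩
  have h1 : MvPolynomial.aeval s₁ d ∈ Algebra.adjoin k (Set.range s₁) := by
    rw [Algebra.adjoin_range_eq_range_aeval]
    exact ⟨d, rfl⟩
  have h2 : Algebra.adjoin k (Set.range s₁) ≤ S := by
    rw [Algebra.adjoin_le_iff]
    rintro _ ⟨i, rfl⟩
    exact hs₁S i
  exact h2 h1

end X5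

end Pool.Agent.TW
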